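import Pool.Agent.MP_9f080f_an.Mg.G_V1

namespace Pool.Agent.MP_9f080f_an
open Complex Finset
open scoped Real

noncomputable section

/-! Vinogradov mean value theorem, part D: reduction to tuples that are distinct modulo a prime.
Let `m = k + s`, `J = Jv m k N`.  Call `x` degenerate if it takes fewer than `k` values.
`vm_deg`: a degenerate `x` is `v ∘ f` with `v ∈ tup (k-1) N`, `f : Fin m → Fin (k-1)`.
Coincidences `(x,y)` with `x` or `y` degenerate: at most `2 k^m N^(k-1) √J` (`en_rep`); if they are more than `J/2`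
then `J ≤ 16 k^(2m) N^(2k-2)`.  Otherwise there are injective `ι ι' : Fin k → Fin m` with `x ∘ ι`, `y ∘ ι'` injective.
A nonzero difference of two numbers below `N` is divisible by at most `k - 1` primes of `PP` (the product of `k` of
them is `≥ N`), there are at most `2 k²` differences, so some `p ∈ PP` divides none of them.
For fixed `ι, ι', p` (`m^k` choices each for `ι, ι'`) the number of such pairs is at most the energy of
`dtup k N p ×ˢ tup s N`: extend `ι` to a permutation (`Equiv.Perm.exists_extending_pair` with `Fin.castAdd`),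
`x ↦ (x ∘ σ ∘ Fin.castAdd s, x ∘ σ ∘ Fin.natAdd k)` is injective and `pw` is additive (`Fin.sum_univ_add`, `Equiv.sum_comp`).
`vm_primes`: Bertrand (`Nat.exists_prime_lt_and_le_two_mul`) and induction. -/

open Classical in
lemma vm_deg {m k N : ℕ} (hk : 1 ≤ k) (hm : 1 ≤ m) :
    #{x ∈ tup m N | #(univ.image x) < k} ≤ N ^ (k - 1) * k ^ m := by
  refine (card_le_card (t := (tup (k - 1) N ×ˢ (univ : Finset (Fin m → Fin (k - 1)))).image
    fun q => q.1 ∘ q.2) fun x hx => ?_).trans (card_image_le.trans ?_)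
  · obtain ⟨h1, h2⟩ := mem_filter.1 hx
    have h3 : ∀ i, x i ∈ range N := Fintype.mem_piFinset.1 h1
    have h4 : #(univ.image x) ≤ k - 1 := by omega
    refine mem_image.2 ⟨(fun j => if h : j.val < #(univ.image x) then
      ((univ.image x).equivFin.symm ⟨j, h⟩ : ℕ) else x ⟨0, hm⟩,
      fun i => Fin.castLE h4 ((univ.image x).equivFin ⟨x i, mem_image_of_mem _ (mem_univ i)⟩)),
      mem_product.2 ⟨Fintype.mem_piFinset.2 fun j => ?_, mem_univ _⟩, funext fun i => ?_⟩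
    · dsimp only
      split_ifs with h
      · obtain ⟨i, -, hi⟩ := mem_image.1 ((univ.image x).equivFin.symm ⟨j, h⟩).2
        rw [← hi]
        exact h3 i
      · exact h3 _
    · simp only [Function.comp_apply, Fin.val_castLE, Fin.is_lt, dif_pos, Fin.eta,
        Equiv.symm_apply_apply]
  · rw [card_product, tup, Fintype.card_piFinset, card_univ, Fintype.card_fun]
    simp only [card_range, prod_const, card_univ, Fintype.card_fin]
    exact Nat.mul_le_mul_left _ (Nat.pow_le_pow_left (Nat.sub_le _ _) _)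

theorem vm_primes {P : ℕ} (hP : 1 ≤ P) (r : ℕ) :
    ∃ PP : Finset ℕ, #PP = r ∧ ∀ p ∈ PP, p.Prime ∧ P < p ∧ p ≤ 2 ^ r * P := by
  induction r with
  | zero => exact ⟨∅, rfl, fun p hp => absurd hp (notMem_empty p)⟩
  | succ r ih =>
    obtain ⟨PP, h1, h2⟩ := ih
    have h3 : P ≤ 2 ^ r * P := Nat.le_mul_of_pos_left _ (Nat.two_pow_pos r)
    obtain ⟨q, hq, h4, h5⟩ := Nat.exists_prime_lt_and_le_two_mul (2 ^ r * P) (by omega)
    have h6 : 2 ^ (r + 1) * P = 2 * (2 ^ r * P) := by ring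
    refine ⟨insert q PP, ?_, fun p hp => ?_⟩
    · rw [card_insert_of_notMem fun h => by have := (h2 q h).2.2; omega, h1]
    · rcases mem_insert.1 hp with rfl | hp
      · exact ⟨hq, by omega, by omega⟩
      · obtain ⟨a, b, c⟩ := h2 p hp
        exact ⟨a, b, by omega⟩

end

end Pool.Agent.MP_9f080f_an

namespace Pool.Agent.MP_9f080f_an
open Complex Finset
open scoped Real

noncomputable section

lemma vd_mem {s N : ℕ} {x : Fin s → ℕ} : x ∈ tup s N ↔ ∀ i, x i < N := by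
  simp [tup]

/-- few primes divide a small nonzero difference -/
lemma vd_few {k N : ℕ} (hk : 1 ≤ k) {PP : Finset ℕ} (hP : ∀ p ∈ PP, p.Prime ∧ N ≤ p ^ k)
    {a b : ℕ} (ha : a < N) (hb : b < N) (hab : a ≠ b) : #{p ∈ PP | a % p = b % p} < k := by
  wlog h : a < b generalizing a b
  · have := this hb ha hab.symm (by omega)
    simpa only [eq_comm] using this
  by_contra hc
  obtain ⟨T, hT, hTk⟩ := exists_subset_card_eq (not_lt.1 hc)
  have h1 : ∏ p ∈ T, p ∣ b - a := by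
    refine Finset.prod_primes_dvd _ (fun p hp => (hP p (mem_filter.1 (hT hp)).1).1.prime)
      fun p hp => ?_
    exact (Nat.modEq_iff_dvd' h.le).1 (mem_filter.1 (hT hp)).2
  have h2 : N ^ k ≤ (∏ p ∈ T, p) ^ k := by
    rw [← prod_pow, ← hTk, ← prod_const]
    exact prod_le_prod' fun p hp => hTk ▸ (hP p (mem_filter.1 (hT hp)).1).2
  have h3 : N ≤ ∏ p ∈ T, p := (Nat.pow_le_pow_iff_left (by omega)).1 h2
  have h4 := Nat.le_of_dvd (by omega) h1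
  omega

lemma vd_bad {k N : ℕ} (hk : 1 ≤ k) {PP : Finset ℕ} (hP : ∀ p ∈ PP, p.Prime ∧ N ≤ p ^ k)
    {u : Fin k → ℕ} (hu : ∀ i, u i < N) (hi : Function.Injective u) :
    ∃ B : Finset ℕ, #B ≤ k ^ 2 * (k - 1) ∧
      ∀ p ∈ PP, p ∉ B → Function.Injective fun i => u i % p := by
  refine ⟨(univ.filter fun q : Fin k × Fin k => q.1 ≠ q.2).biUnion
    fun q => {p ∈ PP | u q.1 % p = u q.2 % p}, ?_, fun p hp hB i j hij => ?_⟩
  · refine (card_biUnion_le_card_mul _ _ (k - 1) fun q hq => ?_).trans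
      (Nat.mul_le_mul_right _ ((card_filter_le _ _).trans (by simp [sq])))
    have := vd_few hk hP (hu q.1) (hu q.2) fun e => (mem_filter.1 hq).2 (hi e)
    omega
  · by_contra hne
    exact hB (mem_biUnion.2 ⟨(i, j), mem_filter.2 ⟨mem_univ _, hne⟩, mem_filter.2 ⟨hp, hij⟩⟩)

lemma vd_good {k N : ℕ} (hk : 1 ≤ k) {PP : Finset ℕ} (hP : ∀ p ∈ PP, p.Prime ∧ N ≤ p ^ k)
    (hc : 2 * k ^ 3 ≤ #PP) {u v : Fin k → ℕ} (hu : ∀ i, u i < N) (hv : ∀ i, v i < N)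
    (hi : Function.Injective u) (hj : Function.Injective v) :
    ∃ p ∈ PP, (Function.Injective fun i => u i % p) ∧ Function.Injective fun i => v i % p := by
  obtain ⟨B, hB, h1⟩ := vd_bad hk hP hu hi
  obtain ⟨B', hB', h2⟩ := vd_bad hk hP hv hj
  have h3 : #(B ∪ B') < #PP := by
    have h4 := card_union_le B B'
    have h5 : k ^ 2 * (k - 1) < k ^ 2 * k :=
      Nat.mul_lt_mul_of_pos_left (by omega) (by positivity)
    have h6 : k ^ 2 * k = k ^ 3 := by ring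
    omega
  obtain ⟨p, hp, hn⟩ := exists_mem_notMem_of_card_lt_card h3
  rw [mem_union, not_or] at hn
  exact ⟨p, hp, h1 p hp hn.1, h2 p hp hn.2⟩

lemma vd_sel {m k : ℕ} {x : Fin m → ℕ} (h : k ≤ #(univ.image x)) :
    ∃ ι : Fin k → Fin m, Function.Injective fun i => x (ι i) := by
  obtain ⟨T, hT, hTk⟩ := exists_subset_card_eq h
  have e := (T.equivFinOfCardEq hTk).symm
  choose ι hι using fun i : Fin k => mem_image.1 (hT (e i).2)
  refine ⟨ι, fun i j hij => e.injective (Subtype.ext ?_)⟩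
  rw [← (hι i).2, ← (hι j).2]
  exact hij

/-- splitting a tuple along a permutation -/
def vdSplit {k s : ℕ} (σ : Equiv.Perm (Fin (k + s))) (x : Fin (k + s) → ℕ) :
    (Fin k → ℕ) × (Fin s → ℕ) :=
  (fun i => x (σ (Fin.castAdd s i)), fun i => x (σ (Fin.natAdd k i)))

lemma vd_split_inj {k s : ℕ} (σ : Equiv.Perm (Fin (k + s))) : Function.Injective (vdSplit σ) := by
  intro x y h
  have h1 := congrFun (congrArg Prod.fst h)
  have h2 := congrFun (congrArg Prod.snd h)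
  funext j
  obtain ⟨j, rfl⟩ := σ.surjective j
  exact Fin.addCases (motive := fun j => x (σ j) = y (σ j)) h1 h2 j

lemma vd_split_pw {k s : ℕ} (σ : Equiv.Perm (Fin (k + s))) (x : Fin (k + s) → ℕ) :
    pw k (vdSplit σ x).1 + pw k (vdSplit σ x).2 = pw k x := by
  funext j
  simp only [pw, vdSplit, Pi.add_apply]
  rw [← Equiv.sum_comp σ fun i => (x i : ℤ) ^ (j.val + 1), Fin.sum_univ_add]

open Classical in
lemma vd_one {s k N p : ℕ} (ι ι' : Fin k → Fin (k + s)) :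
    #{z ∈ tup (k + s) N ×ˢ tup (k + s) N | pw k z.1 = pw k z.2 ∧
      (Function.Injective fun i => z.1 (ι i) % p) ∧ Function.Injective fun i => z.2 (ι' i) % p} ≤
      En (dtup k N p ×ˢ tup s N) (fun z => pw k z.1 + pw k z.2) := by
  by_cases h : Function.Injective ι ∧ Function.Injective ι'
  swap
  · rw [filter_eq_empty_iff.2, card_empty]
    · exact Nat.zero_le _
    · rintro z - ⟨-, h1, h2⟩
      exact h ⟨fun i j e => h1 (by simp only [e]), fun i j e => h2 (by simp only [e])⟩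
  obtain ⟨σ, hσ⟩ := Equiv.Perm.exists_extending_pair _ _ (Fin.castAdd_injective k s) h.1
  obtain ⟨τ, hτ⟩ := Equiv.Perm.exists_extending_pair _ _ (Fin.castAdd_injective k s) h.2
  have key : ∀ (ρ : Equiv.Perm (Fin (k + s))) (κ : Fin k → Fin (k + s)),
      (∀ i, ρ (Fin.castAdd s i) = κ i) → ∀ x ∈ tup (k + s) N,
      (Function.Injective fun i => x (κ i) % p) → vdSplit ρ x ∈ dtup k N p ×ˢ tup s N := by
    intro ρ κ hρ x hx hi
    rw [vd_mem] at hx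
    refine mem_product.2 ⟨mem_filter.2 ⟨vd_mem.2 fun i => hx _, ?_⟩, vd_mem.2 fun i => hx _⟩
    simpa only [vdSplit, hρ] using hi
  unfold En
  refine card_le_card_of_injOn (fun z => (vdSplit σ z.1, vdSplit τ z.2)) (fun z hz => ?_)
    fun z _ z' _ e => ?_
  · obtain ⟨h1, h2, h3, h4⟩ := mem_filter.1 (mem_coe.1 hz)
    rw [mem_product] at h1
    refine mem_coe.2 (mem_filter.2 ⟨mem_product.2 ⟨key σ ι hσ _ h1.1 h3, key τ ι' hτ _ h1.2 h4⟩, ?_⟩)
    simp only [vd_split_pw, h2]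
  · exact Prod.ext (vd_split_inj σ (congrArg Prod.fst e)) (vd_split_inj τ (congrArg Prod.snd e))

open Classical in
lemma vd_fib {X : Type} [DecidableEq X] {k : ℕ} (A D : Finset X) (φ : X → Fin k → ℤ) :
    #(D.biUnion fun x => ({y ∈ A | φ y = φ x}).image fun y => (x, y)) ≤ #D * (En A φ).sqrt ∧
    #(D.biUnion fun x => ({y ∈ A | φ y = φ x}).image fun y => (y, x)) ≤ #D * (En A φ).sqrt :=
  ⟨card_biUnion_le_card_mul _ _ _ fun _ _ => card_image_le.trans (Nat.le_sqrt'.2 (en_rep A φ _)),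
    card_biUnion_le_card_mul _ _ _ fun _ _ => card_image_le.trans (Nat.le_sqrt'.2 (en_rep A φ _))⟩

theorem vm_rec {s k N : ℕ} (hk : 1 ≤ k) (PP : Finset ℕ) (hP : ∀ p ∈ PP, p.Prime ∧ N ≤ p ^ k)
    (hc : 2 * k ^ 3 ≤ #PP) :
    Jv (k + s) k N ≤ 16 * k ^ (2 * (k + s)) * N ^ (2 * (k - 1)) +
      2 * (k + s) ^ (2 * k) * ∑ p ∈ PP, En (dtup k N p ×ˢ tup s N) (fun z => pw k z.1 + pw k z.2) := by
  classical
  have hD := vm_deg (m := k + s) (k := k) (N := N) hk (by omega)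
  obtain ⟨h1, h2⟩ := vd_fib (tup (k + s) N) {x ∈ tup (k + s) N | #(univ.image x) < k} (pw k)
  have h3 : #((univ : Finset (Fin k → Fin (k + s))).biUnion fun ι =>
      (univ : Finset (Fin k → Fin (k + s))).biUnion fun ι' => PP.biUnion fun p =>
        {z ∈ tup (k + s) N ×ˢ tup (k + s) N | pw k z.1 = pw k z.2 ∧
          (Function.Injective fun i => z.1 (ι i) % p) ∧
          Function.Injective fun i => z.2 (ι' i) % p}) ≤ (k + s) ^ k * ((k + s) ^ k *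
      ∑ p ∈ PP, En (dtup k N p ×ˢ tup s N) (fun z => pw k z.1 + pw k z.2)) := by
    have e : #(univ : Finset (Fin k → Fin (k + s))) = (k + s) ^ k := by simp
    rw [← e]
    refine card_biUnion_le_card_mul _ _ _ fun ι _ => card_biUnion_le_card_mul _ _ _ fun ι' _ =>
      card_biUnion_le.trans (sum_le_sum fun p _ => ?_)
    convert vd_one (s := s) (N := N) (p := p) ι ι'
  have h4 : Jv (k + s) k N ≤ _ := le_trans (card_le_card ?_)
    ((card_union_le _ _).trans (add_le_add ((card_union_le _ _).trans (add_le_add h1 h2)) h3))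
  · have h5 := Nat.sqrt_le' (Jv (k + s) k N)
    have h6 := Nat.mul_le_mul_right (Jv (k + s) k N).sqrt hD
    have e1 : k ^ (2 * (k + s)) = (k ^ (k + s)) ^ 2 := by rw [← pow_mul, mul_comm]
    have e2 : N ^ (2 * (k - 1)) = (N ^ (k - 1)) ^ 2 := by rw [← pow_mul, mul_comm]
    have e3 : (k + s) ^ (2 * k) = ((k + s) ^ k) ^ 2 := by rw [← pow_mul, mul_comm]
    rw [e1, e2, e3]
    change _ ≤ _ * (Jv (k + s) k N).sqrt + _ * (Jv (k + s) k N).sqrt + _ at h4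
    generalize (Jv (k + s) k N).sqrt = R at h4 h5 h6
    generalize Jv (k + s) k N = J at h4 h5
    generalize #{x ∈ tup (k + s) N | #(univ.image x) < k} * R = T at h4 h6
    generalize ∑ p ∈ PP, En (dtup k N p ×ˢ tup s N) (fun z => pw k z.1 + pw k z.2) = S at h4
    generalize k ^ (k + s) = a at h6
    generalize N ^ (k - 1) = b at h6
    generalize (k + s) ^ k = c at h4
    have h7 : 4 * (b * a * R) ≤ R ^ 2 + 4 * (b * a) ^ 2 := by
      zify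
      nlinarith [sq_nonneg ((R : ℤ) - 2 * (b * a))]
    have e4 : 16 * a ^ 2 * b ^ 2 = 16 * (b * a) ^ 2 := by ring
    have e5 : 2 * c ^ 2 * S = 2 * (c * (c * S)) := by ring
    omega
  · intro z hz
    obtain ⟨hz1, hz2⟩ := mem_filter.1 hz
    obtain ⟨hx, hy⟩ := mem_product.1 hz1
    by_cases c1 : #(univ.image z.1) < k
    · exact mem_union_left _ (mem_union_left _ (mem_biUnion.2 ⟨z.1, mem_filter.2 ⟨hx, c1⟩,
        mem_image.2 ⟨z.2, mem_filter.2 ⟨hy, hz2.symm⟩, rfl⟩⟩))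
    by_cases c2 : #(univ.image z.2) < k
    · exact mem_union_left _ (mem_union_right _ (mem_biUnion.2 ⟨z.2, mem_filter.2 ⟨hy, c2⟩,
        mem_image.2 ⟨z.1, mem_filter.2 ⟨hx, hz2⟩, rfl⟩⟩))
    obtain ⟨ι, hι⟩ := vd_sel (not_lt.1 c1)
    obtain ⟨ι', hι'⟩ := vd_sel (not_lt.1 c2)
    obtain ⟨p, hp, a, b⟩ := vd_good hk hP hc (fun i => vd_mem.1 hx _) (fun i => vd_mem.1 hy _) hι hι'
    exact mem_union_right _ (mem_biUnion.2 ⟨ι, mem_univ _, mem_biUnion.2 ⟨ι', mem_univ _,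
      mem_biUnion.2 ⟨p, hp, mem_filter.2 ⟨hz1, hz2, a, b⟩⟩⟩⟩)

end

end Pool.Agent.MP_9f080f_an

namespace Pool.Agent.MP_9f080f_an
open Complex Finset
open scoped Real

noncomputable section

/-! Vinogradov mean value theorem (Linnik, Karatsuba).
Induction on `τ`; `τ = 0` is `Jv_triv`.  Put `s = k (k + τ)`, `K = k(k+1)/2`, `λ = 2 s - K + K (1 - 1/k)^τ`, `0 ≤ λ ≤ 2 s`,
`k (k + (τ+1)) = k + s`.  Let `P = ⌈N^(1/k)⌉₊ + k ≤ (k + 2) N^(1/k)`, `PP` from `vm_primes` with `r = 2 k³`.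
For `p ∈ PP`: `N ≤ p^k`, `k < p`, `p ≤ 2^(3k³) N^(1/k)`, `N / p + 1 ≤ 2 N^(1 - 1/k)`, so by `vm_prime` and the induction
hypothesis each energy is at most `2^(3k³(2s + k²)) k^k 4^s D_τ N^(k + (2s + k(k-1)/2)/k + λ(1 - 1/k))`, and the exponent
equals `λ' = 2(s+k) - K + K(1-1/k)^(τ+1)`.  Since `k² ≤ s`, `2(k-1) ≤ λ'`, and all constants of the step are at most
`2^(20 k³ s)`: `2^(9k³s) · 2^(k³ s) · 2 (k+s)^(2k) 2k³ k^k + 16 k^(2(k+s)) ≤ 2^(20 k³ s)` (use `x ≤ 2^x`).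
(`k (k-1)/2` is exact in `ℕ`: `Nat.cast_div` with `Nat.two_dvd_mul_sub_one`, or `Nat.triangle_succ`.) -/

lemma vea_pow {a b y : ℕ} (h : a * b ≤ y) : a ^ b ≤ 2 ^ y :=
  calc a ^ b ≤ (2 ^ a) ^ b := Nat.pow_le_pow_left Nat.lt_two_pow_self.le b
    _ = 2 ^ (a * b) := (pow_mul _ _ _).symm
    _ ≤ 2 ^ y := Nat.pow_le_pow_right (by norm_num) h

lemma vea_const {k s e : ℕ} (hk : 2 ≤ k) (hs : k ^ 2 ≤ s) (he : e ≤ s) :
    16 * k ^ (2 * (k + s)) + 2 * (k + s) ^ (2 * k) *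
      (2 * k ^ 3 * ((2 ^ (3 * k ^ 3)) ^ (2 * s + e) * k ^ k * 4 ^ s)) ≤ 2 ^ (20 * k ^ 3 * s) := by
  obtain ⟨y, hy⟩ : ∃ y, y = k ^ 3 * s := ⟨_, rfl⟩
  have h4 : 4 ≤ k ^ 2 := by nlinarith
  have hks : k ≤ s := by nlinarith
  have h8 : 4 * k ≤ k ^ 3 := by nlinarith
  have a0 : 4 * k * s ≤ y := hy ▸ Nat.mul_le_mul_right s h8
  have a1 : k * k ≤ k * s := Nat.mul_le_mul_left k hks
  have a2 : 2 * s ≤ k * s := Nat.mul_le_mul_right s hk
  have a3 : k ^ 3 ≤ y := hy ▸ Nat.le_mul_of_pos_right _ (by omega)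
  have b1 : k ^ (2 * (k + s)) ≤ 2 ^ y := vea_pow (by nlinarith)
  have b2 : (k + s) ^ (2 * k) ≤ 2 ^ y := vea_pow (by nlinarith)
  have b3 : k ^ 3 ≤ 2 ^ y := a3.trans Nat.lt_two_pow_self.le
  have b4 : k ^ k ≤ 2 ^ y := vea_pow (by nlinarith)
  have b5 : 4 ^ s ≤ 2 ^ y := vea_pow (by nlinarith)
  have b6 : 16 ≤ 2 ^ y := vea_pow (a := 2) (b := 4) (by nlinarith)
  have b7 : (2 ^ (3 * k ^ 3)) ^ (2 * s + e) ≤ (2 ^ y) ^ 9 := by
    rw [← pow_mul, ← pow_mul]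
    refine Nat.pow_le_pow_right (by norm_num) ?_
    calc 3 * k ^ 3 * (2 * s + e) ≤ 3 * k ^ 3 * (3 * s) := Nat.mul_le_mul_left _ (by omega)
      _ = y * 9 := by rw [hy]; ring
  have e1 : 2 ^ (20 * k ^ 3 * s) = (2 ^ y) ^ 20 := by
    rw [← pow_mul, hy]; congr 1; ring
  rw [e1]
  generalize 2 ^ y = z at *
  have z1 : 1 ≤ z := by omega
  have z2 : 2 ≤ z := by omega
  calc _ ≤ z * z + z * z * (z * z * (z ^ 9 * z * z)) := by gcongr
    _ = z ^ 2 + z ^ 15 := by ring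
    _ ≤ z ^ 15 + z ^ 15 := Nat.add_le_add_right (Nat.pow_le_pow_right z1 (by norm_num)) _
    _ = 2 * z ^ 15 := by ring
    _ ≤ z * z ^ 15 := Nat.mul_le_mul_right _ z2
    _ = z ^ 16 := by ring
    _ ≤ _ := Nat.pow_le_pow_right z1 (by norm_num)

lemma vea_step {k s : ℕ} (hk : 2 ≤ k) (hs : k ^ 2 ≤ s) {D l l' : ℝ} (hD : 1 ≤ D) (hl0 : 0 ≤ l)
    (hl : l ≤ 2 * s) (hl' : 2 * ((k : ℝ) - 1) ≤ l')
    (he : l' = k + (2 * s + k * (k - 1) / 2) / k + (1 - 1 / k) * l)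
    (ih : ∀ N : ℕ, 1 ≤ N → (Jv s k N : ℝ) ≤ D * (N : ℝ) ^ l) (N : ℕ) (hN : 1 ≤ N) :
    (Jv (k + s) k N : ℝ) ≤ 2 ^ (20 * k ^ 3 * s) * D * (N : ℝ) ^ l' := by
  have k2 : (2 : ℝ) ≤ k := by exact_mod_cast hk
  have k0 : (0 : ℝ) < k := by linarith
  have N1 : (1 : ℝ) ≤ N := by exact_mod_cast hN
  have N0 : (0 : ℝ) < N := by linarith
  have hs1 : 1 ≤ s := le_trans (Nat.one_le_pow _ _ (by omega)) hs
  obtain ⟨x, hx⟩ : ∃ x : ℝ, x = (N : ℝ) ^ (1 / k : ℝ) := ⟨_, rfl⟩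
  have x1 : 1 ≤ x := hx ▸ Real.one_le_rpow N1 (by positivity)
  have xp : ∀ n : ℕ, x ^ n = (N : ℝ) ^ ((n : ℝ) / k) := fun n => by
    rw [hx, ← Real.rpow_natCast, ← Real.rpow_mul N0.le]; congr 1; ring
  have xk : x ^ k = N := by rw [xp, div_self k0.ne', Real.rpow_one]
  have xq : (N : ℝ) / x = (N : ℝ) ^ (1 - 1 / k : ℝ) := by
    rw [Real.rpow_sub N0, Real.rpow_one, hx]
  have xq1 : 1 ≤ (N : ℝ) ^ (1 - 1 / k : ℝ) := Real.one_le_rpow N1 (by
    have : 1 / (k : ℝ) ≤ 1 := (div_le_one k0).2 (by linarith)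
    linarith)
  obtain ⟨PP, hc, hPP⟩ := vm_primes (P := ⌈x⌉₊ + k) (by omega) (2 * k ^ 3)
  have hxp : ∀ p ∈ PP, x ≤ p := fun p hp => by
    have h1 : ⌈x⌉₊ ≤ p := by have := (hPP p hp).2.1; omega
    exact (Nat.le_ceil x).trans (by exact_mod_cast h1)
  have hNp : ∀ p ∈ PP, N ≤ p ^ k := fun p hp => by
    have := pow_le_pow_left₀ (by linarith) (hxp p hp) k
    rw [xk] at this
    exact_mod_cast this
  obtain ⟨e, hed⟩ : ∃ e, e = k * (k - 1) / 2 := ⟨_, rfl⟩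
  have he1 : (e : ℝ) = k * (k - 1) / 2 := by
    rw [hed, Nat.cast_div (Nat.two_dvd_mul_sub_one k) (by norm_num), Nat.cast_mul,
      Nat.cast_sub (by omega)]
    norm_num
  have he2 : e ≤ s := by
    have h1 : k * (k - 1) ≤ k * k := Nat.mul_le_mul_left k (by omega)
    rw [sq] at hs
    omega
  have hE : ∀ p ∈ PP, (En (dtup k N p ×ˢ tup s N) (fun z => pw k z.1 + pw k z.2) : ℝ) ≤
      ((2 : ℝ) ^ (3 * k ^ 3)) ^ (2 * s + e) * k ^ k * 4 ^ s * (D * (N : ℝ) ^ l') := fun p hp => by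
    obtain ⟨hp1, hp2, hp3⟩ := hPP p hp
    have p0 : (0 : ℝ) < p := by exact_mod_cast hp1.pos
    have h1 := vm_prime hs1 hp1 (show k < p by omega) (hNp p hp)
    rw [← hed] at h1
    have h2 : (En (dtup k N p ×ˢ tup s N) (fun z => pw k z.1 + pw k z.2) : ℝ) ≤
        (p : ℝ) ^ (2 * s) * ((N : ℝ) ^ k * ((k : ℝ) ^ k * (p : ℝ) ^ e) * Jv s k (N / p + 1)) := by
      exact_mod_cast h1
    have h3 : (p : ℝ) ≤ 2 ^ (3 * k ^ 3) * x := by
      have a1 : (p : ℝ) ≤ 2 ^ (2 * k ^ 3) * ((⌈x⌉₊ : ℝ) + k) := by exact_mod_cast hp3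
      have a2 := (Nat.ceil_lt_add_one (show 0 ≤ x by linarith)).le
      have a3 : k + 2 ≤ 2 ^ k ^ 3 := le_trans (by nlinarith [Nat.mul_le_mul hk hk])
        Nat.lt_two_pow_self.le
      have a4 : (k : ℝ) + 2 ≤ 2 ^ k ^ 3 := by exact_mod_cast a3
      have a5 : (⌈x⌉₊ : ℝ) + k ≤ 2 ^ k ^ 3 * x :=
        le_trans (by nlinarith) (mul_le_mul_of_nonneg_right a4 (show 0 ≤ x by linarith))
      calc (p : ℝ) ≤ 2 ^ (2 * k ^ 3) * (2 ^ k ^ 3 * x) := a1.trans (by gcongr)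
        _ = _ := by rw [← mul_assoc, ← pow_add]; congr 2; ring
    have h4 : ((N / p + 1 : ℕ) : ℝ) ≤ 2 * (N : ℝ) ^ (1 - 1 / k : ℝ) := by
      have a1 : ((N / p : ℕ) : ℝ) ≤ N / p := Nat.cast_div_le
      have a2 : (N : ℝ) / p ≤ N / x := by gcongr; exact hxp p hp
      push_cast
      linarith
    have h5 : (Jv s k (N / p + 1) : ℝ) ≤ D * (4 ^ s * (N : ℝ) ^ ((1 - 1 / k) * l)) := by
      refine (ih _ (Nat.le_add_left _ _)).trans (mul_le_mul_of_nonneg_left ?_ (by linarith))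
      refine (Real.rpow_le_rpow (Nat.cast_nonneg _) h4 hl0).trans ?_
      rw [Real.mul_rpow (by norm_num) (by positivity), ← Real.rpow_mul N0.le]
      refine mul_le_mul_of_nonneg_right ?_ (by positivity)
      refine (Real.rpow_le_rpow_of_exponent_le (by norm_num) hl).trans (le_of_eq ?_)
      rw [show (2 : ℝ) * s = ((2 * s : ℕ) : ℝ) by push_cast; ring, Real.rpow_natCast, pow_mul]
      norm_num
    have h6 : (p : ℝ) ^ (2 * s + e) ≤
        ((2 : ℝ) ^ (3 * k ^ 3)) ^ (2 * s + e) * (N : ℝ) ^ (((2 * s + e : ℕ) : ℝ) / k) := by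
      rw [← xp, ← mul_pow]
      exact pow_le_pow_left₀ p0.le h3 _
    have h7 : (N : ℝ) ^ l' =
        (N : ℝ) ^ k * (N : ℝ) ^ (((2 * s + e : ℕ) : ℝ) / k) * (N : ℝ) ^ ((1 - 1 / k) * l) := by
      rw [← Real.rpow_natCast, ← Real.rpow_add N0, ← Real.rpow_add N0, he]
      push_cast
      rw [he1]
    calc _ ≤ _ := h2
      _ = (p : ℝ) ^ (2 * s + e) * ((N : ℝ) ^ k * (k : ℝ) ^ k) * Jv s k (N / p + 1) := by
        rw [pow_add]; ring
      _ ≤ ((2 : ℝ) ^ (3 * k ^ 3)) ^ (2 * s + e) * (N : ℝ) ^ (((2 * s + e : ℕ) : ℝ) / k) *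
          ((N : ℝ) ^ k * (k : ℝ) ^ k) * (D * (4 ^ s * (N : ℝ) ^ ((1 - 1 / k) * l))) := by
        gcongr
      _ = _ := by
        rw [h7]
        generalize ((2 : ℝ) ^ (3 * k ^ 3)) ^ (2 * s + e) = B
        ring
  have h1 := vm_rec (s := s) (show 1 ≤ k by omega) PP (fun p hp => ⟨(hPP p hp).1, hNp p hp⟩) hc.ge
  have h2 : (Jv (k + s) k N : ℝ) ≤ 16 * (k : ℝ) ^ (2 * (k + s)) * (N : ℝ) ^ (2 * (k - 1)) +
      2 * ((k : ℝ) + s) ^ (2 * k) *
        ∑ p ∈ PP, (En (dtup k N p ×ˢ tup s N) (fun z => pw k z.1 + pw k z.2) : ℝ) := by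
    exact_mod_cast h1
  have h3 := sum_le_card_nsmul _ _ _ hE
  rw [hc, nsmul_eq_mul] at h3
  have h4 : (N : ℝ) ^ (2 * (k - 1)) ≤ D * (N : ℝ) ^ l' := by
    refine le_trans ?_ (le_mul_of_one_le_left (by positivity) hD)
    rw [← Real.rpow_natCast]
    refine Real.rpow_le_rpow_of_exponent_le N1 ?_
    rw [Nat.cast_mul, Nat.cast_sub (by omega)]
    simpa using hl'
  have h5 : 16 * (k : ℝ) ^ (2 * (k + s)) + 2 * ((k : ℝ) + s) ^ (2 * k) *
      (((2 * k ^ 3 : ℕ) : ℝ) * (((2 : ℝ) ^ (3 * k ^ 3)) ^ (2 * s + e) * k ^ k * 4 ^ s)) ≤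
        2 ^ (20 * k ^ 3 * s) := by
    exact_mod_cast vea_const hk hs he2
  have h6 : 0 ≤ D * (N : ℝ) ^ l' := by positivity
  calc _ ≤ _ := h2
    _ ≤ 16 * (k : ℝ) ^ (2 * (k + s)) * (D * (N : ℝ) ^ l') + 2 * ((k : ℝ) + s) ^ (2 * k) *
        (((2 * k ^ 3 : ℕ) : ℝ) * (((2 : ℝ) ^ (3 * k ^ 3)) ^ (2 * s + e) * k ^ k * 4 ^ s *
          (D * (N : ℝ) ^ l'))) := by gcongr
    _ = (16 * (k : ℝ) ^ (2 * (k + s)) + 2 * ((k : ℝ) + s) ^ (2 * k) *
        (((2 * k ^ 3 : ℕ) : ℝ) * (((2 : ℝ) ^ (3 * k ^ 3)) ^ (2 * s + e) * k ^ k * 4 ^ s))) *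
          (D * (N : ℝ) ^ l') := by
      generalize ((2 : ℝ) ^ (3 * k ^ 3)) ^ (2 * s + e) = B
      generalize (k : ℝ) ^ (2 * (k + s)) = B1
      generalize ((k : ℝ) + s) ^ (2 * k) = B2
      ring
    _ ≤ _ := (mul_le_mul_of_nonneg_right h5 h6).trans_eq (mul_assoc _ _ _).symm

theorem vmvt {k : ℕ} (hk : 2 ≤ k) (τ : ℕ) : ∀ N : ℕ, 1 ≤ N →
    (Jv (k * (k + τ)) k N : ℝ) ≤ 2 ^ (20 * k ^ 4 * τ * (k + τ)) *
      (N : ℝ) ^ (2 * (k * (k + τ) : ℝ) - k * (k + 1) / 2 + k * (k + 1) / 2 * (1 - 1 / k : ℝ) ^ τ) := by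
  have k2 : (2 : ℝ) ≤ k := by exact_mod_cast hk
  have k0 : (0 : ℝ) < k := by linarith
  have t1 : 1 / (k : ℝ) ≤ 1 := (div_le_one k0).2 (by linarith)
  have t0 : 0 < 1 / (k : ℝ) := by positivity
  have K0 : (0 : ℝ) ≤ k * (k + 1) / 2 := by positivity
  have θ0 : ∀ n : ℕ, 0 ≤ (k : ℝ) * (k + 1) / 2 * (1 - 1 / k : ℝ) ^ n := fun n =>
    mul_nonneg K0 (pow_nonneg (by linarith) n)
  have θ1 : ∀ n : ℕ, (k : ℝ) * (k + 1) / 2 * (1 - 1 / k : ℝ) ^ n ≤ k * (k + 1) / 2 := fun n =>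
    mul_le_of_le_one_right K0 (pow_le_one₀ (by linarith) (by linarith))
  induction τ with
  | zero =>
    intro N hN
    have h : (Jv (k * (k + 0)) k N : ℝ) ≤ (N : ℝ) ^ (2 * (k * (k + 0))) := by
      exact_mod_cast Jv_triv _ k N
    refine h.trans (le_of_eq ?_)
    rw [← Real.rpow_natCast]
    simp
  | succ τ ih =>
    intro N hN
    have τ0 : (0 : ℝ) ≤ k * τ := by positivity
    have h := vea_step (s := k * (k + τ)) hk (by nlinarith) (one_le_pow₀ (by norm_num))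
      (l' := 2 * (k * (k + ((τ + 1 : ℕ) : ℝ))) - k * (k + 1) / 2 +
        k * (k + 1) / 2 * (1 - 1 / k : ℝ) ^ (τ + 1))
      (by nlinarith [θ0 τ]) (by push_cast; linarith [θ1 τ])
      (by push_cast; nlinarith [θ0 (τ + 1)]) (by push_cast; rw [pow_succ]; field_simp; ring) ih N hN
    rw [show k * (k + (τ + 1)) = k + k * (k + τ) by ring]
    refine h.trans (mul_le_mul_of_nonneg_right ?_ (by positivity))
    rw [← pow_add]
    refine pow_le_pow_right₀ (by norm_num) ?_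
    have e : 20 * k ^ 4 * (τ + 1) * (k + (τ + 1)) =
      20 * k ^ 3 * (k * (k + τ)) + 20 * k ^ 4 * τ * (k + τ) + 20 * k ^ 4 * (τ + 1) := by ring
    omega

end

end Pool.Agent.MP_9f080f_an

namespace Pool.Agent.MP_9f080f_an
open Complex Finset
open scoped Real

noncomputable section

theorem ve_small {k : ℕ} (hk : 2 ≤ k) :
    (k : ℝ) * (k + 1) / 2 * (1 - 1 / k : ℝ) ^ (3 * k ^ 2) ≤ 1 / 8 := by
  have hk2 : (2 : ℝ) ≤ k := by exact_mod_cast hk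
  have hk0 : (0 : ℝ) < k := by linarith
  have h1 : (1 - 1 / k : ℝ) ≤ Real.exp (-(1 / k)) := by
    have := Real.add_one_le_exp (-(1 / k : ℝ))
    linarith
  have h0 : (0 : ℝ) ≤ 1 - 1 / k := by
    have : (1 / k : ℝ) ≤ 1 := by
      rw [div_le_one hk0]; linarith
    linarith
  have h2 : (1 - 1 / k : ℝ) ^ (3 * k ^ 2) ≤ Real.exp (-(3 * k)) := by
    calc (1 - 1 / k : ℝ) ^ (3 * k ^ 2) ≤ (Real.exp (-(1 / k))) ^ (3 * k ^ 2) := pow_le_pow_left₀ h0 h1 _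
      _ = Real.exp (-(3 * k)) := by
        rw [← Real.exp_nat_mul]
        congr 1
        push_cast
        field_simp
  have h3 : (3 * k : ℝ) ^ 3 / (Nat.factorial 3) ≤ Real.exp (3 * k) :=
    Real.pow_div_factorial_le_exp _ (by positivity) 3
  have h4 : (Nat.factorial 3 : ℝ) = 6 := by norm_num [Nat.factorial]
  rw [h4] at h3
  have hE : 0 < Real.exp (3 * k) := Real.exp_pos _
  have h5 : (k : ℝ) * (k + 1) / 2 ≤ k ^ 2 := by nlinarith
  have h6 : 8 * (k : ℝ) ^ 2 ≤ Real.exp (3 * k) := by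
    have : 8 * (k : ℝ) ^ 2 ≤ (3 * k : ℝ) ^ 3 / 6 := by
      have hk3 : 0 ≤ (k : ℝ) ^ 2 * (k - 2) := mul_nonneg (by positivity) (by linarith)
      nlinarith
    linarith
  calc (k : ℝ) * (k + 1) / 2 * (1 - 1 / k : ℝ) ^ (3 * k ^ 2) ≤ k ^ 2 * Real.exp (-(3 * k)) :=
        mul_le_mul h5 h2 (pow_nonneg h0 _) (by positivity)
    _ = k ^ 2 / Real.exp (3 * k) := by rw [Real.exp_neg]; rfl
    _ ≤ 1 / 8 := by
        rw [div_le_div_iff₀ hE (by norm_num)]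
        linarith

theorem ve_cast (k : ℕ) : ((k * (k + 1) / 2 : ℕ) : ℝ) = (k : ℝ) * (k + 1) / 2 := by
  have h : 2 ∣ k * (k + 1) := (Nat.even_mul_succ_self k).two_dvd
  rw [Nat.cast_div h (by norm_num)]
  push_cast
  ring

/-- the form used for exponential sums: `τ = 3 k²`, `k (k+1)/2 (1 - 1/k)^(3k²) ≤ k² exp (-3k) ≤ 1/8` -/
theorem vmvt' {k : ℕ} (hk : 2 ≤ k) {N : ℕ} (hN : 1 ≤ N) :
    (Jv (k * (k + 3 * k ^ 2)) k N : ℝ) * (N : ℝ) ^ (k * (k + 1) / 2) ≤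
      2 ^ (240 * k ^ 8) * (N : ℝ) ^ (2 * (k * (k + 3 * k ^ 2))) * (N : ℝ) ^ (1 / 8 : ℝ) := by
  have h := vmvt hk (3 * k ^ 2) N hN
  have hN1 : (1 : ℝ) ≤ N := by exact_mod_cast hN
  have hN0 : (0 : ℝ) < N := by linarith
  have hc : (2 : ℝ) ^ (20 * k ^ 4 * (3 * k ^ 2) * (k + 3 * k ^ 2)) ≤ 2 ^ (240 * k ^ 8) := by
    apply pow_le_pow_right₀ (by norm_num)
    have h7 : k ^ 7 ≤ k ^ 8 := Nat.pow_le_pow_right (by omega) (by norm_num)
    have : 20 * k ^ 4 * (3 * k ^ 2) * (k + 3 * k ^ 2) = 60 * k ^ 7 + 180 * k ^ 8 := by ring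
    omega
  have he : (N : ℝ) ^ (2 * (k * (k + ((3 * k ^ 2 : ℕ) : ℝ)) : ℝ) - k * (k + 1) / 2 +
        k * (k + 1) / 2 * (1 - 1 / k : ℝ) ^ (3 * k ^ 2)) * (N : ℝ) ^ (k * (k + 1) / 2) ≤
      (N : ℝ) ^ (2 * (k * (k + 3 * k ^ 2))) * (N : ℝ) ^ (1 / 8 : ℝ) := by
    rw [← Real.rpow_natCast (N : ℝ) (k * (k + 1) / 2), ← Real.rpow_natCast (N : ℝ) (2 * (k * (k + 3 * k ^ 2))),
      ← Real.rpow_add hN0, ← Real.rpow_add hN0]
    apply Real.rpow_le_rpow_of_exponent_le hN1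
    rw [ve_cast]
    have := ve_small hk
    push_cast
    linarith
  calc (Jv (k * (k + 3 * k ^ 2)) k N : ℝ) * (N : ℝ) ^ (k * (k + 1) / 2)
      ≤ (2 ^ (20 * k ^ 4 * (3 * k ^ 2) * (k + 3 * k ^ 2)) *
          (N : ℝ) ^ (2 * (k * (k + ((3 * k ^ 2 : ℕ) : ℝ)) : ℝ) - k * (k + 1) / 2 +
            k * (k + 1) / 2 * (1 - 1 / k : ℝ) ^ (3 * k ^ 2))) * (N : ℝ) ^ (k * (k + 1) / 2) :=
        mul_le_mul_of_nonneg_right h (by positivity)
    _ = 2 ^ (20 * k ^ 4 * (3 * k ^ 2) * (k + 3 * k ^ 2)) *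
          ((N : ℝ) ^ (2 * (k * (k + ((3 * k ^ 2 : ℕ) : ℝ)) : ℝ) - k * (k + 1) / 2 +
            k * (k + 1) / 2 * (1 - 1 / k : ℝ) ^ (3 * k ^ 2)) * (N : ℝ) ^ (k * (k + 1) / 2)) := by ring
    _ ≤ 2 ^ (240 * k ^ 8) * ((N : ℝ) ^ (2 * (k * (k + 3 * k ^ 2))) * (N : ℝ) ^ (1 / 8 : ℝ)) :=
        mul_le_mul hc he (by positivity) (by positivity)
    _ = _ := by ring

end

end Pool.Agent.MP_9f080f_an
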