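import Pool.Agent.MP_9f080f_an.Mg.G_E1
import Pool.Agent.MP_9f080f_an.Mg.G_V2

namespace Pool.Agent.MP_9f080f_an
open Complex Finset
open scoped Real

noncomputable section

/-! Exponential sums with a square root phase (method of Vinogradov).
Let `k = 2R + 2`, `s = k (k + 3k²) ≤ 4 k³`, `F = |Λ| √M`.  If `M ≤ 2^(64 k)` the bound is trivial (`b - a ≤ M` and
`M^(1/(256 k³)) ≤ 2`).  Otherwise let `H = ⌊M^(1/4)⌋₊ ≥ M^(1/4)/2`, `ε = M^(-1/(64k)) ≤ 1/2`, `ρ = M^(-1/(64 s))`.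
`es_taylor`: with `b = m - κ ∈ [M/2, 2M]`, `sqrt_taylor` and `kb_ep_lip`; the term `l = 0` only gives a unimodular factor; the error of
each term is `≤ 2π |Λ| b^(1/2) (H/b)^(k+1) ≤ 2π · 2 M^R (2 M^(-3/4))^(k+1) ≤ 2^(k+5) / M`.
`es_mult`: let `φ = log F / log M ∈ [7/8, R]`, `l₀ + 2 = ⌊φ + 9/8⌋₊` (so the coefficient of `h^(l₀+1)` is used), `λ₀ = F / M^(l₀+2) ∈
[M^(-9/8), M^(-1/8)]`.  By `rpow_gap` (`e = l₀ + 1/2`), `abs_bc_le`, `le_abs_bc`, `spacing` applies with `δ = λ₀/A`, `Δ = A λ₀`,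
`A = 2^(3k+2)`, and `2ε/H^(l₀+1) ≤ 2 M^(-1/4)`, so the multiplicity is at most `36 A² M^(7/8)`.
Then `shift_avg`, `grid`, `vmvt'`: `H^(1/8) ≤ M^(1/32)`, `ε^(-k) = M^(1/64)`, `ρ^(-(2s-1)) ≤ M^(1/32)`, so the last term of `grid` is at most
`36 A² 2^(240k^8) M H M^(-1/8 + 1/32 + 1/64 + 1/32)`; all savings are at least `M^(-1/(256 k³))`. -/

/-- the Taylor coefficients -/
def esA (α Λ κ : ℝ) (k m : ℕ) (l : Fin k) : ℝ :=
  (if l.val = 0 then α else 0) + Λ * (bc (l.val + 1) * ((m : ℝ) - κ) ^ (1 / 2 - (l.val + 1 : ℕ) : ℝ))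

lemma eca_pow {M h H R : ℕ} (hh : h < H) (hH : H ^ 4 ≤ M) : h ^ (2 * R + 2 + 1) ≤ M ^ (R + 2) := by
  rcases Nat.eq_zero_or_pos h with h0 | h0
  · subst h0; simp
  · have h1 : h ^ 2 ≤ M := by
      calc h ^ 2 ≤ h ^ 4 := Nat.pow_le_pow_right h0 (by norm_num)
        _ ≤ H ^ 4 := Nat.pow_le_pow_left hh.le 4
        _ ≤ M := hH
    calc h ^ (2 * R + 2 + 1) ≤ h ^ (2 * (R + 2)) := Nat.pow_le_pow_right h0 (by omega)
      _ = (h ^ 2) ^ (R + 2) := by rw [pow_mul]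
      _ ≤ M ^ (R + 2) := Nat.pow_le_pow_left h1 _

lemma eca_err {Λ b x y : ℝ} {R : ℕ} (hx : 1 ≤ x) (hb : x / 2 ≤ b) (hb' : b ≤ 2 * x) (hy : 0 ≤ y)
    (hy' : y ≤ x ^ (R + 2)) (hF : |Λ| * √x ≤ x ^ R) :
    π * (2 * (|Λ| * (b ^ (1 / 2 - ((2 * R + 2 : ℕ) + 1) : ℝ) * y))) ≤ 2 ^ (2 * R + 7) / x := by
  have hx0 : 0 < x := by linarith
  have hb0 : 0 < b := by linarith
  have e1 : b ^ (1 / 2 - ((2 * R + 2 : ℕ) + 1) : ℝ) = √b / b ^ (2 * R + 3) := by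
    rw [Real.rpow_sub hb0, Real.sqrt_eq_rpow]
    congr 1
    rw [← Real.rpow_natCast]
    congr 1
    push_cast; ring
  have h1 : √b ≤ 2 * √x := by
    rw [show (2 : ℝ) * √x = √(4 * x) by
      rw [Real.sqrt_mul (by norm_num), show (4 : ℝ) = 2 ^ 2 by norm_num, Real.sqrt_sq (by norm_num)]]
    exact Real.sqrt_le_sqrt (by linarith)
  have h2 : (x / 2) ^ (2 * R + 3) ≤ b ^ (2 * R + 3) := pow_le_pow_left₀ (by linarith) hb _
  have h3 : √b / b ^ (2 * R + 3) ≤ 2 * √x / (x / 2) ^ (2 * R + 3) :=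
    div_le_div₀ (by positivity) h1 (by positivity) h2
  have h4 : |Λ| * (√b / b ^ (2 * R + 3) * y) ≤ 2 ^ (2 * R + 4) / x := by
    calc |Λ| * (√b / b ^ (2 * R + 3) * y)
        ≤ |Λ| * (2 * √x / (x / 2) ^ (2 * R + 3) * x ^ (R + 2)) := by
          apply mul_le_mul_of_nonneg_left _ (abs_nonneg _)
          exact mul_le_mul h3 hy' hy (by positivity)
      _ = (|Λ| * √x) * (2 * x ^ (R + 2) / (x / 2) ^ (2 * R + 3)) := by ring
      _ ≤ x ^ R * (2 * x ^ (R + 2) / (x / 2) ^ (2 * R + 3)) :=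
          mul_le_mul_of_nonneg_right hF (by positivity)
      _ = 2 ^ (2 * R + 4) / x := by
          rw [div_pow]
          field_simp
          ring
  rw [e1]
  have h5 : π ≤ 4 := Real.pi_le_four
  have h6 : (0 : ℝ) ≤ 2 ^ (2 * R + 4) / x := by positivity
  calc π * (2 * (|Λ| * (√b / b ^ (2 * R + 3) * y))) ≤ 4 * (2 * (2 ^ (2 * R + 4) / x)) := by
        apply mul_le_mul h5 (by linarith) (by positivity) (by norm_num)
    _ = 2 ^ (2 * R + 7) / x := by ring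

lemma eca_sum (α Λ κ : ℝ) (k m : ℕ) (hk : 0 < k) (x : ℝ) :
    ∑ l, esA α Λ κ k m l * x ^ (l.val + 1) =
      α * x + Λ * ∑ l ∈ range k, bc (l + 1) * ((m : ℝ) - κ) ^ (1 / 2 - (l + 1 : ℕ) : ℝ) * x ^ (l + 1) := by
  unfold esA
  rw [Fin.sum_univ_eq_sum_range (fun l => ((if l = 0 then α else 0) +
    Λ * (bc (l + 1) * ((m : ℝ) - κ) ^ (1 / 2 - (l + 1 : ℕ) : ℝ))) * x ^ (l + 1)) k]
  simp only [add_mul, Finset.sum_add_distrib, Finset.mul_sum]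
  congr 1
  · rw [Finset.sum_eq_single 0]
    · simp
    · intro l _ hl; simp [hl]
    · intro h; exact absurd (Finset.mem_range.2 hk) h
  · refine Finset.sum_congr rfl fun l _ => by ring

lemma es_taylor {α Λ κ : ℝ} {R M m H : ℕ} (hκ0 : 0 ≤ κ) (hκ : κ ≤ 1 / 2) (hM : 1 ≤ M) (hm : M ≤ m)
    (hm' : m ≤ 2 * M) (hH : H ^ 4 ≤ M) (hF : |Λ| * √M ≤ (M : ℝ) ^ R) :
    ‖∑ h ∈ range H, ep (2 * ((α * (m + h : ℕ) + Λ * √((m + h : ℕ) - κ) : ℝ) : ℂ))‖ ≤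
      ‖∑ h ∈ range H, ep (2 * ((∑ l, esA α Λ κ (2 * R + 2) m l * (h : ℝ) ^ (l.val + 1) : ℝ) : ℂ))‖ +
        H * (2 ^ (2 * R + 7) / M) := by
  have hM' : (1 : ℝ) ≤ M := by exact_mod_cast hM
  have hm1 : (M : ℝ) ≤ m := by exact_mod_cast hm
  have hm2 : (m : ℝ) ≤ 2 * M := by exact_mod_cast hm'
  have hb : (M : ℝ) / 2 ≤ (m : ℝ) - κ := by linarith
  have hb' : (m : ℝ) - κ ≤ 2 * M := by linarith
  have hb0 : 0 < (m : ℝ) - κ := by linarith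
  set c : ℝ := α * m + Λ * (bc 0 * ((m : ℝ) - κ) ^ (1 / 2 - (0 : ℕ) : ℝ)) with hc
  have key : ∀ h ∈ range H,
      ‖ep (2 * ((α * (m + h : ℕ) + Λ * √((m + h : ℕ) - κ) : ℝ) : ℂ)) -
        ep ((2 * c : ℝ) : ℂ) *
          ep (2 * ((∑ l, esA α Λ κ (2 * R + 2) m l * (h : ℝ) ^ (l.val + 1) : ℝ) : ℂ))‖ ≤
        2 ^ (2 * R + 7) / M := by
    intro h hh
    have hh' := Finset.mem_range.1 hh
    rw [← ep_add]
    have e1 : (2 * ((α * (m + h : ℕ) + Λ * √((m + h : ℕ) - κ) : ℝ) : ℂ)) =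
        ((2 * (α * (m + h : ℕ) + Λ * √((m + h : ℕ) - κ)) : ℝ) : ℂ) := by
      rw [Complex.ofReal_mul 2]; rfl
    have e2 : ((2 * c : ℝ) : ℂ) +
        2 * ((∑ l, esA α Λ κ (2 * R + 2) m l * (h : ℝ) ^ (l.val + 1) : ℝ) : ℂ) =
        ((2 * (c + ∑ l, esA α Λ κ (2 * R + 2) m l * (h : ℝ) ^ (l.val + 1)) : ℝ) : ℂ) := by
      rw [Complex.ofReal_mul 2, Complex.ofReal_mul 2, Complex.ofReal_add c, mul_add]; rfl
    rw [e1, e2]
    refine (kb_ep_lip _ _).trans ?_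
    have ht := sqrt_taylor hb0 (Nat.cast_nonneg h) (2 * R + 2)
    have hy : ((h : ℝ)) ^ (2 * R + 2 + 1) ≤ (M : ℝ) ^ (R + 2) := by
      exact_mod_cast eca_pow hh' hH
    refine le_trans ?_ (eca_err hM' hb hb' (by positivity) hy hF)
    apply mul_le_mul_of_nonneg_left _ Real.pi_pos.le
    have e3 : 2 * (α * (m + h : ℕ) + Λ * √((m + h : ℕ) - κ)) -
        2 * (c + ∑ l, esA α Λ κ (2 * R + 2) m l * (h : ℝ) ^ (l.val + 1)) =
        2 * (Λ * (√((m : ℝ) - κ + h) - ∑ l ∈ range (2 * R + 2 + 1),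
          bc l * ((m : ℝ) - κ) ^ (1 / 2 - l : ℝ) * (h : ℝ) ^ l)) := by
      rw [eca_sum α Λ κ _ m (by omega), Finset.sum_range_succ' _ (2 * R + 2), hc]
      have e4 : (((m + h : ℕ) : ℝ) - κ) = (m : ℝ) - κ + h := by push_cast; ring
      rw [e4]
      push_cast
      ring
    rw [e3, abs_mul, abs_mul, abs_two]
    exact mul_le_mul_of_nonneg_left (mul_le_mul_of_nonneg_left ht (abs_nonneg _)) (by norm_num)
  have hs := norm_sum_le_of_le (range H) key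
  rw [Finset.sum_sub_distrib, ← Finset.mul_sum, Finset.sum_const, Finset.card_range, nsmul_eq_mul] at hs
  have h2 := norm_le_insert' (∑ h ∈ range H, ep (2 * ((α * (m + h : ℕ) + Λ * √((m + h : ℕ) - κ) : ℝ) : ℂ)))
    (ep ((2 * c : ℝ) : ℂ) *
      ∑ h ∈ range H, ep (2 * ((∑ l, esA α Λ κ (2 * R + 2) m l * (h : ℝ) ^ (l.val + 1) : ℝ) : ℂ)))
  rw [norm_mul, norm_ep_real, one_mul] at h2
  linarith

end

end Pool.Agent.MP_9f080f_an

namespace Pool.Agent.MP_9f080f_an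
open Complex Finset
open scoped Real

noncomputable section

lemma ecb_num {A lam T q M ε D : ℝ} (hA : 1 ≤ A) (hl : 0 < lam) (hT : 1 ≤ T) (hq0 : 0 ≤ q) (hq : q ≤ 1)
    (h1 : lam * M ≤ T) (h2 : q / lam ≤ T) (h3 : q * M ≤ T) (hε0 : 0 ≤ ε) (hε : ε ≤ 2 * q)
    (hD : D ≤ M) (hM : 0 ≤ M) :
    (A * lam * D + 2 * ε + 1) * (2 * ε / (lam / A) + 1) ≤ 36 * A ^ 2 * T := by
  have hA0 : 0 < A := by linarith
  obtain ⟨r, hr⟩ : ∃ r, r = q / lam := ⟨_, rfl⟩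
  have hr0 : 0 ≤ r := by rw [hr]; positivity
  have hrq : lam * r = q := by rw [hr]; field_simp
  rw [← hr] at h2
  have e1 : A * lam * D + 2 * ε + 1 ≤ A * lam * M + 5 := by
    have := mul_le_mul_of_nonneg_left hD (mul_pos hA0 hl).le
    linarith
  have e2 : 2 * ε / (lam / A) + 1 ≤ 4 * A * r + 1 := by
    have : 2 * ε / (lam / A) ≤ 4 * A * r := by
      rw [div_le_iff₀ (by positivity)]
      have : 4 * A * r * (lam / A) = 4 * q := by rw [← hrq]; field_simp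
      rw [this]; linarith
    linarith
  have e3 : (A * lam * D + 2 * ε + 1) * (2 * ε / (lam / A) + 1) ≤
      (A * lam * M + 5) * (4 * A * r + 1) :=
    mul_le_mul e1 e2 (by positivity) (by positivity)
  have e4 : (A * lam * M + 5) * (4 * A * r + 1) =
      4 * A ^ 2 * (q * M) + A * (lam * M) + 20 * A * r + 5 := by rw [← hrq]; ring
  have hA2 : A ≤ A ^ 2 := by nlinarith
  have f1 : 4 * A ^ 2 * (q * M) ≤ 4 * A ^ 2 * T := mul_le_mul_of_nonneg_left h3 (by positivity)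
  have f2 : A * (lam * M) ≤ A ^ 2 * T := mul_le_mul hA2 h1 (by positivity) (by positivity)
  have f3 : A * r ≤ A ^ 2 * T := mul_le_mul hA2 h2 hr0 (by positivity)
  have f4 : 1 ≤ A ^ 2 * T := one_le_mul_of_one_le_of_one_le (by linarith) hT
  nlinarith

lemma ecb_low {M x : ℝ} {l : ℕ} (hM : 0 < M) (hx : 0 < x) (h : x ≤ 2 * M) :
    (1 / 2 : ℝ) ^ (l + 2) * M ^ (-((l : ℝ) + 1 / 2) - 1) ≤ x ^ (-((l : ℝ) + 1 / 2) - 1) := by
  have hl : (0 : ℝ) ≤ l := Nat.cast_nonneg l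
  refine le_trans ?_ (Real.rpow_le_rpow_of_nonpos hx h (by linarith))
  rw [Real.mul_rpow (by norm_num) hM.le]
  refine mul_le_mul_of_nonneg_right ?_ (Real.rpow_nonneg hM.le _)
  have h1 : (1 / 2 : ℝ) ^ (l + 2) = (2 : ℝ) ^ (-((l + 2 : ℕ) : ℝ)) := by
    rw [Real.rpow_neg (by norm_num), Real.rpow_natCast, one_div, inv_pow]
  rw [h1]
  refine Real.rpow_le_rpow_of_exponent_le (by norm_num) ?_
  push_cast
  linarith

lemma ecb_up {M x : ℝ} {l : ℕ} (hM : 0 < M) (h : M / 2 ≤ x) :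
    x ^ (-((l : ℝ) + 1 / 2) - 1) ≤ (2 : ℝ) ^ (l + 2) * M ^ (-((l : ℝ) + 1 / 2) - 1) := by
  have hl : (0 : ℝ) ≤ l := Nat.cast_nonneg l
  refine (Real.rpow_le_rpow_of_nonpos (by positivity) h (by linarith)).trans ?_
  rw [Real.div_rpow hM.le (by norm_num), div_eq_mul_inv, mul_comm, ← Real.rpow_neg (by norm_num)]
  refine mul_le_mul_of_nonneg_right ?_ (Real.rpow_nonneg hM.le _)
  rw [← Real.rpow_natCast]
  refine Real.rpow_le_rpow_of_exponent_le (by norm_num) ?_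
  push_cast
  linarith

lemma ecb_gap {M x y L c : ℝ} {l k : ℕ} (hM : 0 < M) (hx : M / 2 ≤ x) (hxy : x ≤ y) (hy : y ≤ 2 * M)
    (hL : 0 ≤ L) (hlk : l < k) (hc1 : (1 / 4 : ℝ) ^ (l + 1) ≤ c) (hc2 : c ≤ 1) :
    L * M ^ (-((l : ℝ) + 1 / 2) - 1) / 2 ^ (3 * k + 2) * (y - x) ≤
        L * c * (x ^ (-((l : ℝ) + 1 / 2)) - y ^ (-((l : ℝ) + 1 / 2))) ∧
      L * c * (x ^ (-((l : ℝ) + 1 / 2)) - y ^ (-((l : ℝ) + 1 / 2))) ≤
        2 ^ (3 * k + 2) * (L * M ^ (-((l : ℝ) + 1 / 2) - 1)) * (y - x) := by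
  have hl : (0 : ℝ) ≤ l := Nat.cast_nonneg l
  have hx0 : 0 < x := by linarith
  have hy0 : 0 < y := by linarith
  have hd : 0 ≤ y - x := by linarith
  have hc0 : 0 ≤ c := le_trans (by positivity) hc1
  obtain ⟨g1, g2⟩ := rpow_gap (e := (l : ℝ) + 1 / 2) hx0 hxy (by linarith)
  have a1 := ecb_low (l := l) hM hy0 hy
  have a2 := ecb_up (l := l) hM hx
  obtain ⟨P, hP⟩ : ∃ P, P = M ^ (-((l : ℝ) + 1 / 2) - 1) := ⟨_, rfl⟩
  have hP0 : 0 ≤ P := by rw [hP]; positivity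
  rw [← hP] at a1 a2 ⊢
  constructor
  · have b1 : 1 / 2 * ((1 / 2 : ℝ) ^ (l + 2) * P) * (y - x) ≤
        x ^ (-((l : ℝ) + 1 / 2)) - y ^ (-((l : ℝ) + 1 / 2)) := by
      refine le_trans ?_ g1
      refine mul_le_mul_of_nonneg_right ?_ hd
      exact mul_le_mul (by linarith) a1 (by positivity) (by linarith)
    have b2 : L * (1 / 4 : ℝ) ^ (l + 1) * (1 / 2 * ((1 / 2 : ℝ) ^ (l + 2) * P) * (y - x)) ≤
        L * c * (x ^ (-((l : ℝ) + 1 / 2)) - y ^ (-((l : ℝ) + 1 / 2))) :=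
      mul_le_mul (mul_le_mul_of_nonneg_left hc1 hL) b1 (by positivity) (by positivity)
    refine le_trans ?_ b2
    have b3 : L * (1 / 4 : ℝ) ^ (l + 1) * (1 / 2 * ((1 / 2 : ℝ) ^ (l + 2) * P) * (y - x)) =
        L * P / 2 ^ (3 * l + 5) * (y - x) := by
      have : (1 / 4 : ℝ) ^ (l + 1) = (1 / 2) ^ (2 * l + 2) := by
        rw [show 2 * l + 2 = 2 * (l + 1) by ring, pow_mul]; norm_num
      rw [this]
      simp only [one_div, inv_pow]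
      field_simp
      ring
    rw [b3]
    refine mul_le_mul_of_nonneg_right ?_ hd
    exact div_le_div_of_nonneg_left (by positivity) (by positivity)
      (pow_le_pow_right₀ (by norm_num) (by omega))
  · have hl2 : (l : ℝ) + 1 / 2 ≤ 2 ^ l := by
      have h1 : l + 1 ≤ 2 ^ l := Nat.lt_two_pow_self
      have h2 : (l : ℝ) + 1 ≤ 2 ^ l := by exact_mod_cast h1
      linarith
    have b1 : x ^ (-((l : ℝ) + 1 / 2)) - y ^ (-((l : ℝ) + 1 / 2)) ≤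
        2 ^ l * (2 ^ (l + 2) * P) * (y - x) := by
      refine g2.trans (mul_le_mul_of_nonneg_right ?_ hd)
      exact mul_le_mul hl2 a2 (by positivity) (by positivity)
    have b0 : 0 ≤ x ^ (-((l : ℝ) + 1 / 2)) - y ^ (-((l : ℝ) + 1 / 2)) :=
      le_trans (by positivity) g1
    have b2 : L * c * (x ^ (-((l : ℝ) + 1 / 2)) - y ^ (-((l : ℝ) + 1 / 2))) ≤
        L * 1 * (2 ^ l * (2 ^ (l + 2) * P) * (y - x)) :=
      mul_le_mul (mul_le_mul_of_nonneg_left hc2 hL) b1 b0 (by positivity)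
    refine b2.trans ?_
    have b3 : L * 1 * (2 ^ l * (2 ^ (l + 2) * P) * (y - x)) = 2 ^ (2 * l + 2) * (L * P) * (y - x) := by
      ring
    rw [b3]
    refine mul_le_mul_of_nonneg_right (mul_le_mul_of_nonneg_right ?_ (by positivity)) hd
    exact pow_le_pow_right₀ (by norm_num) (by omega)

open Classical in
lemma es_mult {α Λ κ : ℝ} {R M a b : ℕ} (hκ0 : 0 ≤ κ) (hκ : κ ≤ 1 / 2) (hM : 2 ≤ M) (ha : M ≤ a)
    (hab : a ≤ b) (hb : b ≤ 2 * M) (hF1 : (M : ℝ) ^ (7 / 8 : ℝ) ≤ |Λ| * √M)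
    (hF : |Λ| * √M ≤ (M : ℝ) ^ R) : ∃ l₀ : Fin (2 * R + 2), ∀ ε β : ℝ, 0 ≤ ε →
      ε ≤ 2 * (M : ℝ) ^ (-1 / 4 : ℝ) →
      (#{m ∈ Ico a b | ∃ j : ℤ, |esA α Λ κ (2 * R + 2) m l₀ - β - j| ≤ ε} : ℝ) ≤
        36 * (2 ^ (3 * (2 * R + 2) + 2)) ^ 2 * (M : ℝ) ^ (7 / 8 : ℝ) := by
  have hM2 : (2 : ℝ) ≤ M := by exact_mod_cast hM
  have hM1 : (1 : ℝ) < M := by linarith
  have hM0 : (0 : ℝ) < M := by linarith
  have hF0 : 0 < |Λ| * √M := lt_of_lt_of_le (by positivity) hF1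
  obtain ⟨φ, hφ⟩ : ∃ φ : ℝ, (M : ℝ) ^ φ = |Λ| * √M :=
    ⟨Real.logb M (|Λ| * √M), Real.rpow_logb hM0 hM1.ne' hF0⟩
  have hφ1 : 7 / 8 ≤ φ := by
    rw [← hφ] at hF1
    exact (Real.rpow_le_rpow_left_iff hM1).1 hF1
  have hφ2 : φ ≤ R := by
    rw [← hφ, ← Real.rpow_natCast] at hF
    exact (Real.rpow_le_rpow_left_iff hM1).1 hF
  have hn1 : 2 ≤ ⌊φ + 9 / 8⌋₊ := Nat.le_floor (by push_cast; linarith)
  have hn2 : (⌊φ + 9 / 8⌋₊ : ℝ) ≤ φ + 9 / 8 := Nat.floor_le (by linarith)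
  have hn3 : φ + 9 / 8 < ⌊φ + 9 / 8⌋₊ + 1 := Nat.lt_floor_add_one _
  obtain ⟨l, hl⟩ : ∃ l, ⌊φ + 9 / 8⌋₊ = l + 2 := ⟨⌊φ + 9 / 8⌋₊ - 2, by omega⟩
  rw [hl] at hn2 hn3
  push_cast at hn2 hn3
  have hlR : l < 2 * R + 2 := by
    have h1 : (l : ℝ) < R := by linarith
    have h2 : l < R := by exact_mod_cast h1
    omega
  have hΛ : |Λ| = (M : ℝ) ^ (φ - 1 / 2) := by
    rw [Real.rpow_sub hM0, hφ, Real.sqrt_eq_rpow]
    field_simp
  have hlam : |Λ| * (M : ℝ) ^ (-((l : ℝ) + 1 / 2) - 1) = (M : ℝ) ^ (φ - l - 2) := by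
    rw [hΛ, ← Real.rpow_add hM0]
    congr 1
    ring
  refine ⟨⟨l, hlR⟩, fun ε β hε0 hε => ?_⟩
  have hA : (1 : ℝ) ≤ 2 ^ (3 * (2 * R + 2) + 2) := one_le_pow₀ (by norm_num)
  have hl0 : 0 < (M : ℝ) ^ (φ - l - 2) := by positivity
  obtain ⟨σ, hσ, hσ'⟩ : ∃ σ : ℝ, (σ = 1 ∨ σ = -1) ∧ -σ * (Λ * bc (l + 1)) = |Λ| * |bc (l + 1)| := by
    rw [← abs_mul]
    rcases le_total 0 (Λ * bc (l + 1)) with h | h
    · exact ⟨-1, Or.inr rfl, by rw [abs_of_nonneg h]; ring⟩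
    · exact ⟨1, Or.inl rfl, by rw [abs_of_nonpos h]; ring⟩
  have hsp := spacing (A := a) (B := b) (g := fun m => esA α Λ κ (2 * R + 2) m ⟨l, hlR⟩) (σ := σ)
    (δ := (M : ℝ) ^ (φ - l - 2) / 2 ^ (3 * (2 * R + 2) + 2))
    (Δ := 2 ^ (3 * (2 * R + 2) + 2) * (M : ℝ) ^ (φ - l - 2)) (ε := ε) hσ (by positivity)
    (by positivity) hε0 hab (by
      intro m hm m' hm' hmm
      have h1 : (M : ℝ) ≤ m := by exact_mod_cast ha.trans (mem_Ico.1 hm).1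
      have h2 : (m : ℝ) ≤ m' := by exact_mod_cast hmm
      have h3 : (m' : ℝ) ≤ 2 * M := by exact_mod_cast (mem_Ico.1 hm').2.le.trans hb
      have h4 := ecb_gap (M := M) (x := m - κ) (y := m' - κ) (L := |Λ|) (c := |bc (l + 1)|)
        (l := l) (k := 2 * R + 2) hM0 (by linarith) (by linarith) (by linarith) (abs_nonneg _) hlR
        (le_abs_bc _) (abs_bc_le _)
      have h5 : σ * (esA α Λ κ (2 * R + 2) m' ⟨l, hlR⟩ - esA α Λ κ (2 * R + 2) m ⟨l, hlR⟩) =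
          |Λ| * |bc (l + 1)| *
            (((m : ℝ) - κ) ^ (-((l : ℝ) + 1 / 2)) - ((m' : ℝ) - κ) ^ (-((l : ℝ) + 1 / 2))) := by
        have h6 : (1 / 2 - ((l + 1 : ℕ) : ℝ) : ℝ) = -((l : ℝ) + 1 / 2) := by push_cast; ring
        rw [← hσ']
        simp only [esA, h6]
        ring
      have h7 : (m' : ℝ) - κ - (m - κ) = m' - m := by ring
      rw [hlam, h7, ← h5] at h4
      exact h4) β
  refine hsp.trans ?_
  have hq : (M : ℝ) ^ (-1 / 4 : ℝ) ≤ 1 := Real.rpow_le_one_of_one_le_of_nonpos hM1.le (by norm_num)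
  refine ecb_num (q := (M : ℝ) ^ (-1 / 4 : ℝ)) (M := M) hA hl0
    (Real.one_le_rpow hM1.le (by norm_num)) (by positivity) hq ?_ ?_ ?_ hε0 hε ?_ hM0.le
  · rw [← Real.rpow_add_one hM0.ne']
    exact Real.rpow_le_rpow_of_exponent_le hM1.le (by linarith)
  · rw [← Real.rpow_sub hM0]
    exact Real.rpow_le_rpow_of_exponent_le hM1.le (by linarith)
  · rw [← Real.rpow_add_one hM0.ne']
    exact Real.rpow_le_rpow_of_exponent_le hM1.le (by norm_num)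
  · have h1 : (M : ℝ) ≤ a := by exact_mod_cast ha
    have h2 : (b : ℝ) ≤ 2 * M := by exact_mod_cast hb
    linarith

end

end Pool.Agent.MP_9f080f_an

namespace Pool.Agent.MP_9f080f_an
open Complex Finset
open scoped Real

noncomputable section

lemma ec_const {k : ℕ} (hk : 2 ≤ k) :
    (1 : ℝ) + 4 * π * k + 36 * (2 ^ (3 * k + 2)) ^ 2 * 2 ^ (240 * k ^ 8) + 2 ^ (k + 5) + 2 ≤
      2 ^ (300 * k ^ 8) := by
  have h8 : k ≤ k ^ 8 := Nat.le_self_pow (by norm_num) k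
  have hk2 : (k : ℝ) ≤ 2 ^ k := by exact_mod_cast (Nat.lt_two_pow_self (n := k)).le
  have hp : ∀ {i j : ℕ}, i ≤ j → (2 : ℝ) ^ i ≤ 2 ^ j := fun h => pow_le_pow_right₀ (by norm_num) h
  set N := 297 * k ^ 8 with hN
  have h1 : (1 : ℝ) ≤ 2 ^ N := one_le_pow₀ (by norm_num)
  have h2 : 4 * π * k ≤ 2 ^ N := by
    have : 4 * π * k ≤ 2 ^ 4 * 2 ^ k := by
      have := Real.pi_le_four
      have h0 : (0 : ℝ) ≤ k := by positivity
      nlinarith [mul_le_mul this hk2 h0 (by norm_num : (0 : ℝ) ≤ 4)]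
    refine this.trans ?_
    rw [← pow_add]
    exact hp (by omega)
  have h3 : (36 : ℝ) * (2 ^ (3 * k + 2)) ^ 2 * 2 ^ (240 * k ^ 8) ≤ 2 ^ N := by
    calc (36 : ℝ) * (2 ^ (3 * k + 2)) ^ 2 * 2 ^ (240 * k ^ 8)
        ≤ 2 ^ 6 * (2 ^ (3 * k + 2)) ^ 2 * 2 ^ (240 * k ^ 8) := by gcongr; norm_num
      _ = 2 ^ (6 + (3 * k + 2) * 2 + 240 * k ^ 8) := by rw [← pow_mul, ← pow_add, ← pow_add]
      _ ≤ _ := hp (by omega)
  have h4 : (2 : ℝ) ^ (k + 5) ≤ 2 ^ N := hp (by omega)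
  have h5 : (2 : ℝ) ≤ 2 ^ N := by
    calc (2 : ℝ) = 2 ^ 1 := by norm_num
      _ ≤ _ := hp (by omega)
  have h6 : (2 : ℝ) ^ (3 + N) ≤ 2 ^ (300 * k ^ 8) := hp (by omega)
  rw [pow_add] at h6
  linarith

lemma ec_last {x H J μ C : ℝ} {k s K : ℕ} (hx : 1 ≤ x) (hk : 1 ≤ k) (hs : 1 ≤ s) (hH : 1 ≤ H)
    (hHx : H ≤ x ^ (1 / 4 : ℝ)) (hμ : 0 ≤ μ) (hC : 0 ≤ C)
    (hJ : J * H ^ K ≤ C * H ^ (2 * s) * H ^ (1 / 8 : ℝ)) :
    μ * x ^ (7 / 8 : ℝ) * (J * H ^ K) /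
        ((x ^ (-1 / (64 * k) : ℝ)) ^ k * (H * x ^ (-1 / (64 * s) : ℝ)) ^ (2 * s - 1)) / H ≤
      μ * C * x ^ (61 / 64 : ℝ) := by
  have hx0 : 0 < x := by linarith
  have hH0 : 0 < H := by linarith
  have hk0 : (0 : ℝ) < k := by exact_mod_cast hk
  have hs0 : (1 : ℝ) ≤ s := by exact_mod_cast hs
  have e1 : (x ^ (-1 / (64 * k) : ℝ)) ^ k = x ^ (-1 / 64 : ℝ) := by
    rw [← Real.rpow_natCast, ← Real.rpow_mul hx0.le]
    congr 1
    field_simp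
  have e2 : x ^ (-1 / 32 : ℝ) ≤ (x ^ (-1 / (64 * s) : ℝ)) ^ (2 * s - 1) := by
    rw [← Real.rpow_natCast, ← Real.rpow_mul hx0.le]
    refine Real.rpow_le_rpow_of_exponent_le hx ?_
    rw [Nat.cast_sub (by omega)]
    push_cast
    rw [div_mul_eq_mul_div, div_le_div_iff₀ (by norm_num) (by positivity)]
    linarith
  have e3 : H ^ (1 / 8 : ℝ) ≤ x ^ (1 / 32 : ℝ) := by
    refine (Real.rpow_le_rpow hH0.le hHx (by norm_num)).trans ?_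
    rw [← Real.rpow_mul hx0.le]
    norm_num
  have e4 : H ^ (2 * s) = H ^ (2 * s - 1) * H := by
    rw [← pow_succ]
    congr 1
    omega
  have e5 : x ^ (7 / 8 : ℝ) * x ^ (1 / 32 : ℝ) =
      x ^ (61 / 64 : ℝ) * (x ^ (-1 / 64 : ℝ) * x ^ (-1 / 32 : ℝ)) := by
    rw [← Real.rpow_add hx0, ← Real.rpow_add hx0, ← Real.rpow_add hx0]
    norm_num
  rw [div_div, div_le_iff₀ (by positivity), e1, mul_pow]
  calc μ * x ^ (7 / 8 : ℝ) * (J * H ^ K)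
      ≤ μ * x ^ (7 / 8 : ℝ) * (C * H ^ (2 * s) * x ^ (1 / 32 : ℝ)) := by
        refine mul_le_mul_of_nonneg_left (hJ.trans ?_) (by positivity)
        gcongr
    _ = μ * C * H ^ (2 * s) * (x ^ (7 / 8 : ℝ) * x ^ (1 / 32 : ℝ)) := by ring
    _ = μ * C * x ^ (61 / 64 : ℝ) *
        (x ^ (-1 / 64 : ℝ) * (H ^ (2 * s - 1) * x ^ (-1 / 32 : ℝ)) * H) := by
        rw [e5, e4]; ring
    _ ≤ _ := by gcongr

theorem expsum {α Λ κ : ℝ} {R M a b : ℕ} (hκ0 : 0 ≤ κ) (hκ : κ ≤ 1 / 2) (hM : 1 ≤ M) (ha : M ≤ a)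
    (hb : b ≤ 2 * M) (hF1 : (M : ℝ) ^ (7 / 8 : ℝ) ≤ |Λ| * √M) (hF : |Λ| * √M ≤ (M : ℝ) ^ R) :
    ‖∑ m ∈ Ico a b, ep (2 * ((α * m + Λ * √(m - κ) : ℝ) : ℂ))‖ ≤
      2 ^ (300 * (2 * R + 2) ^ 8) * M * (M : ℝ) ^ (-1 / (256 * (2 * R + 2 : ℝ) ^ 3)) := by
  set k := 2 * R + 2 with hk
  have hk2 : 2 ≤ k := by omega
  have hkR : (2 * R + 2 : ℝ) = k := by rw [hk]; push_cast; ring
  rw [hkR]
  have hkr : (2 : ℝ) ≤ k := by exact_mod_cast hk2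
  have hx : (1 : ℝ) ≤ M := by exact_mod_cast hM
  have hx0 : (0 : ℝ) < M := by linarith
  have hn : ∀ r : ℝ, ‖ep (2 * (r : ℂ))‖ = 1 := fun r => by
    rw [show (2 * (r : ℂ)) = ((2 * r : ℝ) : ℂ) by push_cast; ring, norm_ep_real]
  have hcard : ((Ico a b).card : ℝ) ≤ M := by
    rw [Nat.card_Ico]
    exact_mod_cast (by omega : b - a ≤ M)
  have hk3 : (8 : ℝ) ≤ (k : ℝ) ^ 3 := by
    calc (8 : ℝ) = 2 ^ 3 := by norm_num
      _ ≤ _ := by gcongr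
  have hkk : (k : ℝ) ≤ (k : ℝ) ^ 3 := le_self_pow₀ (by linarith) (by norm_num)
  set t : ℝ := (M : ℝ) ^ (-1 / (256 * (k : ℝ) ^ 3)) with ht
  have ht0 : 0 < t := by positivity
  have hup : ∀ e : ℝ, e ≤ 61 / 64 → (M : ℝ) ^ e ≤ M * t := fun e he => by
    have : (M : ℝ) * t = (M : ℝ) ^ (1 + -1 / (256 * (k : ℝ) ^ 3)) := by
      rw [Real.rpow_add hx0, Real.rpow_one]
    rw [this]
    refine Real.rpow_le_rpow_of_exponent_le hx ?_
    have : 1 / (256 * (k : ℝ) ^ 3) ≤ 1 / 64 := one_div_le_one_div_of_le (by norm_num) (by linarith)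
    rw [neg_div]
    linarith
  have hdn : ∀ c : ℝ, 0 < c → c ≤ 256 * (k : ℝ) ^ 3 → (M : ℝ) ^ (-1 / c) ≤ t := fun c hc h => by
    refine Real.rpow_le_rpow_of_exponent_le hx ?_
    rw [neg_div, neg_div, neg_le_neg_iff]
    exact one_div_le_one_div_of_le hc h
  rcases le_or_gt (M : ℝ) (2 ^ (64 * k)) with hs | hs
  · have h1 : ‖∑ m ∈ Ico a b, ep (2 * ((α * m + Λ * √(m - κ) : ℝ) : ℂ))‖ ≤ M := by
      refine (norm_sum_le _ _).trans ?_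
      simp only [hn, sum_const, nsmul_eq_mul, mul_one]
      exact hcard
    have h2 : (1 / 2 : ℝ) ≤ t := by
      have e : (0 : ℝ) < 256 * (k : ℝ) ^ 3 := by positivity
      have h3 : ((2 : ℝ) ^ (64 * k)) ^ (-1 / (256 * (k : ℝ) ^ 3)) ≤ t :=
        Real.rpow_le_rpow_of_nonpos hx0 hs (by rw [neg_div]; simp)
      refine le_trans ?_ h3
      rw [← Real.rpow_natCast, ← Real.rpow_mul (by norm_num), one_div, ← Real.rpow_neg_one]
      refine Real.rpow_le_rpow_of_exponent_le (by norm_num) ?_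
      push_cast
      rw [← mul_div_assoc, le_div_iff₀ e]
      linarith
    have h4 : (2 : ℝ) ^ 1 ≤ 2 ^ (300 * k ^ 8) := pow_le_pow_right₀ (by norm_num) (by
      have : 1 ≤ k ^ 8 := Nat.one_le_pow _ _ (by omega)
      omega)
    calc _ ≤ (M : ℝ) := h1
      _ = 2 ^ 1 * M * (1 / 2) := by ring
      _ ≤ _ := by gcongr
  rcases lt_or_ge b a with hab | hab
  · rw [Ico_eq_empty_of_le hab.le, sum_empty, norm_zero]
    positivity
  have hM2 : 2 ≤ M := by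
    have : (2 : ℝ) ^ 1 ≤ 2 ^ (64 * k) := pow_le_pow_right₀ (by norm_num) (by omega)
    have : (2 : ℝ) ≤ M := by linarith
    exact_mod_cast this
  set y : ℝ := (M : ℝ) ^ (1 / 4 : ℝ) with hy
  have hy1 : 1 ≤ y := Real.one_le_rpow hx (by norm_num)
  set H := ⌊y⌋₊ with hH
  have hH1 : 1 ≤ H := Nat.le_floor (by exact_mod_cast hy1)
  have hHr : (1 : ℝ) ≤ H := by exact_mod_cast hH1
  have hHy : (H : ℝ) ≤ y := Nat.floor_le (by linarith)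
  have hyH : y ≤ 2 * H := by
    have := Nat.lt_floor_add_one y
    rw [← hH] at this
    linarith
  have hH4 : H ^ 4 ≤ M := by
    have : (H : ℝ) ^ 4 ≤ y ^ 4 := by gcongr
    rw [hy, ← Real.rpow_natCast ((M : ℝ) ^ (1 / 4 : ℝ)), ← Real.rpow_mul hx0.le] at this
    norm_num at this
    exact_mod_cast this
  set s := k * (k + 3 * k ^ 2) with hsd
  have hs1 : 1 ≤ s := Nat.mul_pos (by omega) (by omega)
  have hsr : (s : ℝ) ≤ 4 * (k : ℝ) ^ 3 := by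
    rw [hsd]
    push_cast
    nlinarith [mul_nonneg (sq_nonneg (k : ℝ)) (by linarith : (0 : ℝ) ≤ k - 1)]
  have hs0 : (0 : ℝ) < s := by exact_mod_cast hs1
  set ε : ℝ := (M : ℝ) ^ (-1 / (64 * k) : ℝ) with hε
  set ρ : ℝ := (M : ℝ) ^ (-1 / (64 * s) : ℝ) with hρ
  have hε0 : 0 < ε := by positivity
  have hρ0 : 0 < ρ := by positivity
  have hεt : ε ≤ t := hdn _ (by positivity) (by linarith)
  have hρt : ρ ≤ t := hdn _ (by positivity) (by linarith)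
  have hε2 : ε ≤ 1 / 2 := by
    have h3 : ε ≤ ((2 : ℝ) ^ (64 * k)) ^ (-1 / (64 * k) : ℝ) :=
      Real.rpow_le_rpow_of_nonpos (by positivity) hs.le (by rw [neg_div]; simp)
    refine h3.trans (le_of_eq ?_)
    rw [← Real.rpow_natCast, ← Real.rpow_mul (by norm_num), one_div, ← Real.rpow_neg_one]
    congr 1
    push_cast
    field_simp
  obtain ⟨l₀, hl⟩ := es_mult (α := α) hκ0 hκ hM2 ha hab hb hF1 hF
  have hg := grid (s := s) hs1 hH1 (Ico a b) (esA α Λ κ k) l₀ hε0 hε2 hρ0 fun β => hl _ β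
    (by positivity) (by
      have h1 : (H : ℝ) ≤ (H : ℝ) ^ (l₀.val + 1) := le_self_pow₀ hHr (by omega)
      have h2 : (M : ℝ) ^ (-1 / 4 : ℝ) = 1 / y := by
        rw [neg_div, Real.rpow_neg hx0.le, one_div y]
      rw [h2, mul_one_div, div_le_div_iff₀ (by positivity) (by positivity)]
      nlinarith)
  have hl := ec_last (μ := 36 * (2 ^ (3 * k + 2)) ^ 2) hx (by omega : 1 ≤ k) hs1 hHr hHy
    (by positivity) (by positivity) (vmvt' hk2 hH1)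
  rw [← hε, ← hρ] at hl
  have hsh := shift_avg (fun m : ℕ => ep (2 * ((α * m + Λ * √(m - κ) : ℝ) : ℂ)))
    (fun m => (hn _).le) (a := a) (b := b) hH1
  have hty : ∑ m ∈ Ico a b, ‖∑ h ∈ range H,
        ep (2 * ((α * (m + h : ℕ) + Λ * √((m + h : ℕ) - κ) : ℝ) : ℂ))‖ ≤
      ∑ m ∈ Ico a b, ‖∑ h ∈ range H,
        ep (2 * ((∑ l, esA α Λ κ k m l * (h : ℝ) ^ (l.val + 1) : ℝ) : ℂ))‖ + H * 2 ^ (k + 5) := by
    refine (sum_le_sum fun m hm => es_taylor (α := α) hκ0 hκ hM (ha.trans (mem_Ico.1 hm).1)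
      ((mem_Ico.1 hm).2.le.trans hb) hH4 hF).trans ?_
    rw [sum_add_distrib, sum_const, nsmul_eq_mul, show 2 * R + 7 = k + 5 by omega]
    refine add_le_add le_rfl ?_
    calc _ ≤ (M : ℝ) * (H * (2 ^ (k + 5) / M)) := by gcongr
      _ = _ := by field_simp
  refine hsh.trans ?_
  have h1 := hup 0 (by norm_num)
  rw [Real.rpow_zero] at h1
  have h2 := hup (1 / 4) (by norm_num)
  have h3 := hup _ le_rfl
  set Z := (36 * (2 ^ (3 * k + 2)) ^ 2 * (M : ℝ) ^ (7 / 8 : ℝ) *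
    ((Jv s k H : ℝ) * (H : ℝ) ^ (k * (k + 1) / 2)) / (ε ^ k * (H * ρ) ^ (2 * s - 1))) with hZ
  have hπ := Real.pi_pos
  calc _ ≤ (#(Ico a b) * (H * ρ + 4 * π * k * ε * H) + Z + H * 2 ^ (k + 5)) / H + 2 * H := by
        gcongr
        exact hty.trans (by linarith)
    _ = #(Ico a b) * (ρ + 4 * π * k * ε) + Z / H + 2 ^ (k + 5) * 1 + 2 * H := by
        field_simp
    _ ≤ M * (t + 4 * π * k * t) +
        36 * (2 ^ (3 * k + 2)) ^ 2 * 2 ^ (240 * k ^ 8) * (M * t) + 2 ^ (k + 5) * (M * t) +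
          2 * (M * t) := by
        gcongr
        · exact hl.trans (by gcongr)
        · exact hHy.trans h2
    _ = (1 + 4 * π * k + 36 * (2 ^ (3 * k + 2)) ^ 2 * 2 ^ (240 * k ^ 8) + 2 ^ (k + 5) + 2) *
        (M * t) := by ring
    _ ≤ 2 ^ (300 * k ^ 8) * (M * t) :=
        mul_le_mul_of_nonneg_right (ec_const hk2) (by positivity)
    _ = _ := by ring

end

end Pool.Agent.MP_9f080f_an
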