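import Pool.Agent.MP_9f080f_an.Mg.Basic

namespace Pool.Agent.MP_9f080f_an
open Complex MeasureTheory Set Filter Topology Metric
open scoped Real

noncomputable section

lemma contour_add_I_ne {z : ℂ} (hz : 0 < z.im) : z + I ≠ 0 := by
  intro h
  have := congrArg Complex.im h
  simp at this; linarith

lemma contour_one_sub_ne {w : ℂ} (hw : w ∈ ball (0 : ℂ) 1) : 1 - w ≠ 0 := by
  intro h
  have h1 : w = 1 := (sub_eq_zero.1 h).symm
  rw [h1] at hw
  simp at hw

lemma contour_cay_im {w : ℂ} (hw : w ∈ ball (0 : ℂ) 1) : 0 < (I * (1 + w) / (1 - w)).im := by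
  have h0 := contour_one_sub_ne hw
  have h1 : normSq w < 1 := by
    rw [mem_ball_zero_iff] at hw
    rw [Complex.normSq_eq_norm_sq]
    nlinarith [norm_nonneg w]
  have h2 : 0 < normSq (1 - w) := normSq_pos.2 h0
  have e : (I * (1 + w) / (1 - w)).im = (1 - normSq w) / normSq (1 - w) := by
    rw [Complex.div_im]
    simp only [mul_im, mul_re, I_re, I_im, add_re, add_im, one_re, one_im, sub_re, sub_im]
    rw [normSq_apply w]
    ring
  rw [e]
  exact div_pos (by linarith) h2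

lemma contour_cay_mem {z : ℂ} (hz : 0 < z.im) : (z - I) / (z + I) ∈ ball (0 : ℂ) 1 := by
  have h0 := contour_add_I_ne hz
  rw [mem_ball_zero_iff, norm_div, div_lt_one (norm_pos_iff.2 h0)]
  have : ‖z - I‖ ^ 2 < ‖z + I‖ ^ 2 := by
    rw [← Complex.normSq_eq_norm_sq, ← Complex.normSq_eq_norm_sq, normSq_apply, normSq_apply]
    simp only [sub_re, sub_im, add_re, add_im, I_re, I_im]
    nlinarith
  exact lt_of_pow_lt_pow_left₀ 2 (norm_nonneg _) this

/-- primitives on the upper half plane (Cayley transform and `DifferentiableOn.isExactOn_ball`) -/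
theorem exists_prim {f : ℂ → ℂ} (hf : ∀ z : ℂ, 0 < z.im → DifferentiableAt ℂ f z) :
    ∃ F : ℂ → ℂ, ∀ z : ℂ, 0 < z.im → HasDerivAt F (f z) z := by
  have hg : DifferentiableOn ℂ (fun w : ℂ => f (I * (1 + w) / (1 - w)) * (2 * I / (1 - w) ^ 2))
      (ball 0 1) := by
    intro w hw
    have h0 := contour_one_sub_ne hw
    have h1 : DifferentiableAt ℂ (fun w : ℂ => I * (1 + w) / (1 - w)) w := by
      fun_prop (disch := assumption)
    have h2 : DifferentiableAt ℂ (fun w : ℂ => f (I * (1 + w) / (1 - w))) w :=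
      DifferentiableAt.comp w (hf _ (contour_cay_im hw)) h1
    have h0' : (1 - w) ^ 2 ≠ 0 := pow_ne_zero 2 h0
    have h3 : DifferentiableAt ℂ (fun w : ℂ => 2 * I / (1 - w) ^ 2) w := by
      fun_prop (disch := assumption)
    exact (h2.mul h3).differentiableWithinAt
  obtain ⟨G, hG⟩ := hg.isExactOn_ball
  refine ⟨fun z => G ((z - I) / (z + I)), fun z hz => ?_⟩
  have h0 := contour_add_I_ne hz
  have h1 : HasDerivAt (fun z : ℂ => (z - I) / (z + I))
      ((1 * (z + I) - (z - I) * 1) / (z + I) ^ 2) z :=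
    ((hasDerivAt_id z).sub_const I).div ((hasDerivAt_id z).add_const I) h0
  have h2 := (hG _ (contour_cay_mem hz)).comp z h1
  have e1 : 1 - (z - I) / (z + I) = 2 * I / (z + I) := by field_simp; ring
  have e2 : 1 + (z - I) / (z + I) = 2 * z / (z + I) := by field_simp; ring
  have e3 : I * (1 + (z - I) / (z + I)) / (1 - (z - I) / (z + I)) = z := by
    rw [e1, e2]; field_simp
  have e4 : f (I * (1 + (z - I) / (z + I)) / (1 - (z - I) / (z + I))) *
      (2 * I / (1 - (z - I) / (z + I)) ^ 2) * ((1 * (z + I) - (z - I) * 1) / (z + I) ^ 2) = f z := by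
    rw [e3, e1]; field_simp; ring
  rw [e4] at h2
  exact h2

lemma contour_int_weight (c₀ : ℝ) :
    Integrable (fun u : ℝ => |u - c₀| ^ (-1 / 2 : ℝ) * (1 + |u|) ^ (-3 / 2 : ℝ)) := by
  have hm : Measurable (fun u : ℝ => |u - c₀| ^ (-1 / 2 : ℝ) * (1 + |u|) ^ (-3 / 2 : ℝ)) := by
    fun_prop
  have h1 : IntegrableOn (fun u : ℝ => |u| ^ (-1 / 2 : ℝ)) (ball 0 1) := by
    refine integrableOn_ball_of_norm_le_rpow (C := 1) (α := 1 / 2) (by simp) (by simp; norm_num)
      (Eventually.of_forall fun x => ?_) (Measurable.aestronglyMeasurable (by fun_prop))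
    rw [Real.norm_of_nonneg (Real.rpow_nonneg (abs_nonneg _) _), one_mul, Real.norm_eq_abs,
      neg_div]
  have h2 : Integrable (fun u : ℝ => (ball (0 : ℝ) 1).indicator
      (fun u : ℝ => |u| ^ (-1 / 2 : ℝ)) (u - c₀)) :=
    ((integrable_indicator_iff measurableSet_ball).2 h1).comp_sub_right c₀
  have h3 : Integrable (fun u : ℝ => (1 + ‖u‖) ^ (-(3 / 2) : ℝ)) :=
    integrable_one_add_norm (by simp; norm_num)
  refine (h2.add h3).mono' hm.aestronglyMeasurable (Eventually.of_forall fun u => ?_)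
  have p1 : 0 ≤ |u - c₀| ^ (-1 / 2 : ℝ) := Real.rpow_nonneg (abs_nonneg _) _
  have p2 : 0 ≤ (1 + |u|) ^ (-3 / 2 : ℝ) := Real.rpow_nonneg (by positivity) _
  have p3 : (1 + |u|) ^ (-3 / 2 : ℝ) ≤ 1 :=
    Real.rpow_le_one_of_one_le_of_nonpos (by linarith [abs_nonneg u]) (by norm_num)
  rw [Real.norm_of_nonneg (mul_nonneg p1 p2)]
  simp only [Pi.add_apply, Real.norm_eq_abs, ← neg_div]
  by_cases h : u - c₀ ∈ ball (0 : ℝ) 1
  · rw [indicator_of_mem h]
    nlinarith
  · rw [indicator_of_notMem h]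
    have h4 : 1 ≤ |u - c₀| := by simpa using h
    have p4 : |u - c₀| ^ (-1 / 2 : ℝ) ≤ 1 :=
      Real.rpow_le_one_of_one_le_of_nonpos h4 (by norm_num)
    nlinarith

lemma contour_lim {f : ℂ → ℂ} {p : ℝ → ℂ} {g : ℝ → ℝ} (hp : Continuous p)
    (hpim : ∀ s, 0 < s → 0 ≤ (p s).im)
    (hdiff : ∀ z : ℂ, 0 < z.im → DifferentiableAt ℂ f z)
    (hg : IntegrableOn g (Ioi 0))
    (hb : ∀ ε : ℝ, 0 ≤ ε → ∀ᵐ s ∂(volume.restrict (Ioi (0 : ℝ))), ‖f (p s + ε * I)‖ ≤ g s)
    (hc : ∀ᵐ s ∂(volume.restrict (Ioi (0 : ℝ))), ContinuousAt f (p s)) :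
    IntegrableOn (fun s => f (p s)) (Ioi 0) ∧
    (∀ ε : ℝ, 0 < ε → IntegrableOn (fun s => f (p s + ε * I)) (Ioi 0)) ∧
    Tendsto (fun n : ℕ => ∫ s in Ioi (0 : ℝ), f (p s + ((1 / ((n : ℝ) + 1) : ℝ) : ℂ) * I)) atTop
      (𝓝 (∫ s in Ioi (0 : ℝ), f (p s))) := by
  have hm : ∀ ε : ℝ, 0 < ε →
      AEStronglyMeasurable (fun s => f (p s + ε * I)) (volume.restrict (Ioi (0 : ℝ))) := by
    intro ε hε
    refine ContinuousOn.aestronglyMeasurable (fun s hs => ?_) measurableSet_Ioi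
    have h1 : 0 < (p s + ε * I).im := by
      have := hpim s hs
      simp; linarith
    have h2 : ContinuousAt (fun s => p s + ε * I) s := by fun_prop
    exact (ContinuousAt.comp (f := fun s => p s + ε * I) (hdiff _ h1).continuousAt
      h2).continuousWithinAt
  have hpos : ∀ n : ℕ, (0 : ℝ) < 1 / ((n : ℝ) + 1) := fun n => by positivity
  have hlim : ∀ᵐ s ∂(volume.restrict (Ioi (0 : ℝ))),
      Tendsto (fun n : ℕ => f (p s + ((1 / ((n : ℝ) + 1) : ℝ) : ℂ) * I)) atTop (𝓝 (f (p s))) := by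
    filter_upwards [hc] with s hs
    refine hs.tendsto.comp ?_
    have h1 : Tendsto (fun n : ℕ => ((1 / ((n : ℝ) + 1) : ℝ) : ℂ)) atTop (𝓝 ((0 : ℝ) : ℂ)) :=
      (Complex.continuous_ofReal.tendsto 0).comp tendsto_one_div_add_atTop_nhds_zero_nat
    have h2 := (h1.mul_const I).const_add (p s)
    simpa using h2
  refine ⟨?_, fun ε hε => ?_, ?_⟩
  · refine Integrable.mono' hg
      (aestronglyMeasurable_of_tendsto_ae atTop (fun n => hm _ (hpos n)) hlim) ?_
    simpa using hb 0 le_rfl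
  · exact Integrable.mono' hg (hm ε hε) (hb ε hε.le)
  · exact tendsto_integral_of_dominated_convergence g (fun n => hm _ (hpos n)) hg
      (fun n => hb _ (hpos n).le) hlim

lemma contour_ftc {f F : ℂ → ℂ} (hF : ∀ z : ℂ, 0 < z.im → HasDerivAt F (f z) z) {z₀ d : ℂ}
    (h0 : 0 < z₀.im) (hd : 0 ≤ d.im) (hi : IntegrableOn (fun s : ℝ => f (z₀ + d * s)) (Ioi 0)) :
    Tendsto (fun R : ℝ => F (z₀ + d * R) - F z₀) atTop
      (𝓝 (∫ s in Ioi (0 : ℝ), f (z₀ + d * s) * d)) := by
  have hi' : IntegrableOn (fun s : ℝ => f (z₀ + d * s) * d) (Ioi 0) := hi.mul_const d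
  refine (intervalIntegral_tendsto_integral_Ioi 0 hi' tendsto_id).congr' ?_
  filter_upwards [eventually_ge_atTop (0 : ℝ)] with R hR
  have h1 : ∀ s ∈ uIcc (0 : ℝ) R,
      HasDerivAt (fun s : ℝ => F (z₀ + d * s)) (f (z₀ + d * s) * d) s := by
    intro s hs
    rw [uIcc_of_le hR] at hs
    have h2 : 0 < (z₀ + d * s).im := by
      have := mul_nonneg hd hs.1
      simp; linarith
    have h3 : HasDerivAt (fun w : ℂ => z₀ + d * w) d (s : ℂ) := by
      simpa using ((hasDerivAt_id (s : ℂ)).const_mul d).const_add z₀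
    exact ((hF _ h2).comp (s : ℂ) h3).comp_ofReal
  have h4 : IntervalIntegrable (fun s : ℝ => f (z₀ + d * s) * d) volume 0 R := by
    rw [intervalIntegrable_iff_integrableOn_Ioc_of_le hR]
    exact hi'.mono_set Ioc_subset_Ioi_self
  have := intervalIntegral.integral_eq_sub_of_hasDerivAt h1 h4
  simpa using this

lemma contour_far {f F : ℂ → ℂ} {a c₀ C σ ε : ℝ} (hσ : σ = 1 ∨ σ = -1) (hC : 0 ≤ C) (hε : 0 < ε)
    (hF : ∀ z : ℂ, 0 < z.im → HasDerivAt F (f z) z)
    (hb : ∀ z : ℂ, 0 ≤ z.im → 0 ≤ σ * (z.re - a) → z ≠ c₀ →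
      ‖f z‖ ≤ C * ‖z - c₀‖ ^ (-1 / 2 : ℝ) * (1 + ‖z‖) ^ (-3 / 2 : ℝ)) :
    Tendsto (fun R : ℝ => F (a + ε * I + I * R) - F (a + ε * I + σ * R)) atTop (𝓝 0) := by
  have hσ2 : σ * σ = 1 := by rcases hσ with h | h <;> simp [h]
  have hσ1 : |σ| = 1 := by rcases hσ with h | h <;> simp [h]
  have hlim : Tendsto (fun R : ℝ => C * ε ^ (-1 / 2 : ℝ) * 8 * (R / 4) ^ (-(1 / 2) : ℝ)) atTop
      (𝓝 0) := by
    have h1 : Tendsto (fun R : ℝ => (R / 4) ^ (-(1 / 2) : ℝ)) atTop (𝓝 0) :=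
      (tendsto_rpow_neg_atTop (by norm_num)).comp (tendsto_id.atTop_div_const (by norm_num))
    simpa using h1.const_mul (C * ε ^ (-1 / 2 : ℝ) * 8)
  refine squeeze_zero_norm' ?_ hlim
  filter_upwards [eventually_ge_atTop (2 * |a|), eventually_gt_atTop (0 : ℝ)] with R hR hR0
  have key : ∀ z ∈ segment ℝ ((a : ℂ) + ε * I + σ * R) ((a : ℂ) + ε * I + I * R),
      ε ≤ z.im ∧ 0 ≤ σ * (z.re - a) ∧ R / 4 ≤ ‖z‖ := by
    rintro z ⟨α, β, hα, hβ, hs, rfl⟩
    have e1 : (α • ((a : ℂ) + ε * I + σ * R) + β • ((a : ℂ) + ε * I + I * R)).re =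
        a + σ * (α * R) := by
      simp; linear_combination a * hs
    have e2 : (α • ((a : ℂ) + ε * I + σ * R) + β • ((a : ℂ) + ε * I + I * R)).im =
        ε + β * R := by
      simp; linear_combination ε * hs
    have h1 := Complex.abs_re_le_norm
      (α • ((a : ℂ) + ε * I + σ * R) + β • ((a : ℂ) + ε * I + I * R))
    have h2 := Complex.im_le_norm
      (α • ((a : ℂ) + ε * I + σ * R) + β • ((a : ℂ) + ε * I + I * R))
    rw [e1] at h1
    rw [e2] at h2
    have h3 : 0 ≤ α * R := mul_nonneg hα hR0.le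
    have h4 : 0 ≤ β * R := mul_nonneg hβ hR0.le
    have h5 : α * R ≤ |a + σ * (α * R)| + |a| := by
      have h6 : |σ * (α * R)| = α * R := by rw [abs_mul, hσ1, one_mul, abs_of_nonneg h3]
      have h7 := abs_sub (a + σ * (α * R)) a
      rw [add_sub_cancel_left, h6] at h7
      exact h7
    have h8 : α * R + β * R = R := by rw [← add_mul, hs, one_mul]
    refine ⟨by rw [e2]; linarith, ?_, by linarith⟩
    rw [e1, add_sub_cancel_left, ← mul_assoc, hσ2, one_mul]
    exact h3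
  have hbd : ∀ z ∈ segment ℝ ((a : ℂ) + ε * I + σ * R) ((a : ℂ) + ε * I + I * R),
      ‖f z‖ ≤ C * ε ^ (-1 / 2 : ℝ) * (R / 4) ^ (-3 / 2 : ℝ) := by
    intro z hz
    obtain ⟨h1, h2, h3⟩ := key z hz
    have h4 : z ≠ c₀ := by
      rintro rfl
      simp at h1; linarith
    refine (hb z (by linarith) h2 h4).trans ?_
    have h5 : ε ≤ ‖z - c₀‖ := by
      have := Complex.im_le_norm (z - c₀)
      simp only [sub_im, ofReal_im, sub_zero] at this
      linarith
    have h6 : ‖z - c₀‖ ^ (-1 / 2 : ℝ) ≤ ε ^ (-1 / 2 : ℝ) :=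
      Real.rpow_le_rpow_of_nonpos hε h5 (by norm_num)
    have h7 : (1 + ‖z‖) ^ (-3 / 2 : ℝ) ≤ (R / 4) ^ (-3 / 2 : ℝ) :=
      Real.rpow_le_rpow_of_nonpos (by positivity) (by linarith) (by norm_num)
    exact mul_le_mul (mul_le_mul_of_nonneg_left h6 hC) h7 (by positivity) (by positivity)
  have hmv := Convex.norm_image_sub_le_of_norm_hasDerivWithin_le (f := F) (f' := f)
    (fun z hz => (hF z (by linarith [(key z hz).1])).hasDerivWithinAt) hbd (convex_segment _ _)
    (left_mem_segment ℝ _ _) (right_mem_segment ℝ _ _)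
  refine hmv.trans ?_
  have hn : ‖(a : ℂ) + ε * I + I * R - ((a : ℂ) + ε * I + σ * R)‖ ≤ 8 * (R / 4) := by
    have e : (a : ℂ) + ε * I + I * R - ((a : ℂ) + ε * I + σ * R) = I * R - σ * R := by ring
    rw [e]
    refine (norm_sub_le _ _).trans ?_
    simp [hσ1, abs_of_pos hR0]; linarith
  have e : (R / 4) ^ (-(1 / 2) : ℝ) = (R / 4) ^ (-3 / 2 : ℝ) * (R / 4) := by
    rw [← Real.rpow_add_one (by positivity)]; norm_num
  rw [e]
  calc C * ε ^ (-1 / 2 : ℝ) * (R / 4) ^ (-3 / 2 : ℝ) *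
        ‖(a : ℂ) + ε * I + I * R - ((a : ℂ) + ε * I + σ * R)‖
      ≤ C * ε ^ (-1 / 2 : ℝ) * (R / 4) ^ (-3 / 2 : ℝ) * (8 * (R / 4)) :=
        mul_le_mul_of_nonneg_left hn (by positivity)
    _ = _ := by ring

/-- rotating a vertical ray to a horizontal one.  Both rays are first shifted up by `ε`; then a
primitive on the upper half plane is available; dominated convergence removes the shift. -/
theorem ray {f : ℂ → ℂ} {a c₀ C σ : ℝ} (hσ : σ = 1 ∨ σ = -1) (hc : c₀ ≠ a)
    (hcont : ∀ z : ℂ, 0 ≤ z.im → 0 ≤ σ * (z.re - a) → z ≠ c₀ → ContinuousAt f z)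
    (hdiff : ∀ z : ℂ, 0 < z.im → DifferentiableAt ℂ f z)
    (hb : ∀ z : ℂ, 0 ≤ z.im → 0 ≤ σ * (z.re - a) → z ≠ c₀ →
      ‖f z‖ ≤ C * ‖z - c₀‖ ^ (-1 / 2 : ℝ) * (1 + ‖z‖) ^ (-3 / 2 : ℝ)) :
    IntegrableOn (fun η : ℝ => f (a + η * I)) (Ioi 0) ∧
    IntegrableOn (fun s : ℝ => f (a + σ * s)) (Ioi 0) ∧
    ∫ η in Ioi (0 : ℝ), f (a + η * I) * I = σ * ∫ s in Ioi (0 : ℝ), f (a + σ * s) := by
  have hσ2 : σ * σ = 1 := by rcases hσ with h | h <;> simp [h]
  have hσ0 : σ ≠ 0 := by rcases hσ with h | h <;> simp [h]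
  have hac : 0 < |a - c₀| := abs_pos.2 (sub_ne_zero.2 hc.symm)
  have hC : 0 ≤ C := by
    have h1 := hb a (by simp) (by simp) (by exact_mod_cast hc.symm)
    have h2 : 0 < ‖(a : ℂ) - c₀‖ := by
      rw [norm_pos_iff, sub_ne_zero]; exact_mod_cast hc.symm
    have h3 : 0 < ‖(a : ℂ) - c₀‖ ^ (-1 / 2 : ℝ) * (1 + ‖(a : ℂ)‖) ^ (-3 / 2 : ℝ) := by positivity
    rw [mul_assoc] at h1
    exact nonneg_of_mul_nonneg_left ((norm_nonneg _).trans h1) h3
  obtain ⟨F, hF⟩ := exists_prim hdiff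
  -- the vertical ray
  have hV := contour_lim (f := f) (p := fun s : ℝ => (a : ℂ) + s * I)
    (g := fun s : ℝ => C * |a - c₀| ^ (-1 / 2 : ℝ) * (1 + ‖s‖) ^ (-(3 / 2) : ℝ))
    (by fun_prop) (fun s hs => by simpa using hs.le) hdiff
    (((integrable_one_add_norm (by simp; norm_num)).const_mul _).integrableOn)
    (fun ε hε => by
      filter_upwards [ae_restrict_mem measurableSet_Ioi] with s hs
      have hs0 : 0 < s := hs
      have him : ((a : ℂ) + s * I + ε * I).im = s + ε := by simp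
      have hre : ((a : ℂ) + s * I + ε * I).re = a := by simp
      have hne : (a : ℂ) + s * I + ε * I ≠ c₀ := by
        intro h
        rw [h] at hre
        exact hc (by simpa using hre)
      refine (hb _ (by rw [him]; linarith) (by rw [hre]; simp) hne).trans ?_
      have h5 : |a - c₀| ≤ ‖(a : ℂ) + s * I + ε * I - c₀‖ := by
        have := Complex.abs_re_le_norm ((a : ℂ) + s * I + ε * I - c₀)
        rwa [sub_re, hre, ofReal_re] at this
      have h6 : 1 + ‖s‖ ≤ 1 + ‖(a : ℂ) + s * I + ε * I‖ := by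
        have := Complex.im_le_norm ((a : ℂ) + s * I + ε * I)
        rw [him] at this
        rw [Real.norm_of_nonneg hs0.le]; linarith
      rw [← neg_div]
      exact mul_le_mul (mul_le_mul_of_nonneg_left
        (Real.rpow_le_rpow_of_nonpos hac h5 (by norm_num)) hC)
        (Real.rpow_le_rpow_of_nonpos (by positivity) h6 (by norm_num)) (by positivity)
        (by positivity))
    (by
      filter_upwards [ae_restrict_mem measurableSet_Ioi] with s hs
      have hs0 : 0 < s := hs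
      exact (hdiff _ (by simpa using hs0)).continuousAt)
  -- the horizontal ray
  have hne : ∀ᵐ s ∂(volume.restrict (Ioi (0 : ℝ))), a + σ * s ≠ c₀ := by
    refine ae_restrict_of_ae ?_
    filter_upwards [Measure.ae_ne volume (σ * (c₀ - a))] with s hs h
    apply hs
    rw [← h]
    linear_combination (-s) * hσ2
  have hgi : Integrable (fun s : ℝ =>
      |a + σ * s - c₀| ^ (-1 / 2 : ℝ) * (1 + |a + σ * s|) ^ (-3 / 2 : ℝ)) :=
    ((contour_int_weight c₀).comp_add_left a).comp_mul_left' hσ0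
  have hH := contour_lim (f := f) (p := fun s : ℝ => (a : ℂ) + σ * s)
    (g := fun s : ℝ => C * (|a + σ * s - c₀| ^ (-1 / 2 : ℝ) * (1 + |a + σ * s|) ^ (-3 / 2 : ℝ)))
    (by fun_prop) (fun s hs => by simp) hdiff ((hgi.const_mul C).integrableOn)
    (fun ε hε => by
      filter_upwards [ae_restrict_mem measurableSet_Ioi, hne] with s hs hs1
      have hs0 : 0 < s := hs
      have him : ((a : ℂ) + σ * s + ε * I).im = ε := by simp
      have hre : ((a : ℂ) + σ * s + ε * I).re = a + σ * s := by simp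
      have hne' : (a : ℂ) + σ * s + ε * I ≠ c₀ := by
        intro h
        rw [h] at hre
        exact hs1 (by simpa using hre.symm)
      refine (hb _ (by rw [him]; exact hε) (by
        rw [hre, add_sub_cancel_left, ← mul_assoc, hσ2, one_mul]; exact hs0.le) hne').trans ?_
      have h5 : |a + σ * s - c₀| ≤ ‖(a : ℂ) + σ * s + ε * I - c₀‖ := by
        have := Complex.abs_re_le_norm ((a : ℂ) + σ * s + ε * I - c₀)
        rwa [sub_re, hre, ofReal_re] at this
      have h6 : 1 + |a + σ * s| ≤ 1 + ‖(a : ℂ) + σ * s + ε * I‖ := by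
        have := Complex.abs_re_le_norm ((a : ℂ) + σ * s + ε * I)
        rw [hre] at this
        linarith
      have h7 : 0 < |a + σ * s - c₀| := abs_pos.2 (sub_ne_zero.2 hs1)
      rw [← mul_assoc]
      exact mul_le_mul (mul_le_mul_of_nonneg_left
        (Real.rpow_le_rpow_of_nonpos h7 h5 (by norm_num)) hC)
        (Real.rpow_le_rpow_of_nonpos (by positivity) h6 (by norm_num)) (by positivity)
        (by positivity))
    (by
      filter_upwards [ae_restrict_mem measurableSet_Ioi, hne] with s hs hs1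
      have hs0 : 0 < s := hs
      have hre : ((a : ℂ) + σ * s).re = a + σ * s := by simp
      refine hcont _ (by simp) (by
        rw [hre, add_sub_cancel_left, ← mul_assoc, hσ2, one_mul]; exact hs0.le) ?_
      intro h
      rw [h] at hre
      exact hs1 (by simpa using hre.symm))
  refine ⟨hV.1, hH.1, ?_⟩
  have hshift : ∀ ε : ℝ, 0 < ε → (∫ s in Ioi (0 : ℝ), f (a + s * I + ε * I)) * I =
      σ * ∫ s in Ioi (0 : ℝ), f (a + σ * s + ε * I) := by
    intro ε hε
    have e1 : ∀ s : ℝ, (a : ℂ) + s * I + ε * I = a + ε * I + I * s := fun s => by ring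
    have e2 : ∀ s : ℝ, (a : ℂ) + σ * s + ε * I = a + ε * I + σ * s := fun s => by ring
    have h1 := hV.2.1 ε hε
    have h2 := hH.2.1 ε hε
    simp only [e1, e2] at h1 h2 ⊢
    have h0 : 0 < ((a : ℂ) + ε * I).im := by simpa using hε
    have t1 := contour_ftc hF h0 (by simp) h1
    have t2 := contour_ftc hF h0 (by simp) h2
    have t3 := contour_far hσ hC hε hF hb
    have t4 := t1.sub t2
    simp only [sub_sub_sub_cancel_right] at t4
    have t5 := tendsto_nhds_unique t4 t3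
    rw [integral_mul_const, integral_mul_const] at t5
    linear_combination t5
  have l1 := hV.2.2.mul_const I
  have l2 := hH.2.2.const_mul (σ : ℂ)
  rw [integral_mul_const]
  refine tendsto_nhds_unique l1 (l2.congr fun n => ?_)
  exact (hshift _ (by positivity)).symm

lemma contour_w_re (z₀ κ y t : ℝ) :
    (z₀ - κ / (t + y * I) : ℂ).re = z₀ - κ * t / (t ^ 2 + y ^ 2) := by
  rw [sub_re, Complex.div_re, normSq_apply]
  simp
  ring

lemma contour_w_im (z₀ κ y t : ℝ) :
    (z₀ - κ / (t + y * I) : ℂ).im = κ * y / (t ^ 2 + y ^ 2) := by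
  rw [sub_im, Complex.div_im, normSq_apply]
  simp
  ring

lemma contour_den_ne {y : ℝ} (hy : 0 < y) (t : ℝ) : (t + y * I : ℂ) ≠ 0 :=
  ne_of_im (by simpa using hy)

/-- the sign factor in terms of the quadratic `u² - κ u + v² y²`, `u = v t` -/
lemma contour_fac {z₀ κ y : ℝ} (hz : z₀ ≠ 1 / 2) (hy : 0 < y) (t : ℝ) :
    sg (1 / 2 - z₀) - sg (1 / 2 - (z₀ - κ / (t + y * I) : ℂ).re) =
      sg (z₀ - 1 / 2) * (sg (((z₀ - 1 / 2) * t) ^ 2 - κ * ((z₀ - 1 / 2) * t) +
        (z₀ - 1 / 2) ^ 2 * y ^ 2) - 1) := by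
  rw [contour_w_re]
  have hd : 0 < t ^ 2 + y ^ 2 := by positivity
  set v := z₀ - 1 / 2 with hv
  have hv0 : v ≠ 0 := sub_ne_zero.2 hz
  have e1 : 1 / 2 - z₀ = -v := by rw [hv]; ring
  rcases lt_or_gt_of_ne hv0 with h | h
  · have e2 : 1 / 2 - (z₀ - κ * t / (t ^ 2 + y ^ 2)) =
        (1 / (-v * (t ^ 2 + y ^ 2))) * ((v * t) ^ 2 - κ * (v * t) + v ^ 2 * y ^ 2) := by
      have : z₀ = v + 1 / 2 := by rw [hv]; ring
      rw [this]; field_simp; ring
    rw [e1, e2, sg_mul_pos (one_div_pos.2 (mul_pos (neg_pos.2 h) hd)), sg_neg_arg, sg_neg h]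
    ring
  · have e2 : 1 / 2 - (z₀ - κ * t / (t ^ 2 + y ^ 2)) =
        -((1 / (v * (t ^ 2 + y ^ 2))) * ((v * t) ^ 2 - κ * (v * t) + v ^ 2 * y ^ 2)) := by
      have : z₀ = v + 1 / 2 := by rw [hv]; ring
      rw [this]; field_simp; ring
    rw [e1, e2, sg_neg_arg, sg_neg_arg, sg_mul_pos (one_div_pos.2 (mul_pos h hd)), sg_pos h]
    ring

/-- replacing the part of the horocycle `t ↦ z₀ - κ/(t+iy)` (run counterclockwise, tangent to `ℝ` at
`z₀`, diameter `κ/y`) on the other side of the line `re = 1/2` by the chord.  The condition on `t` is a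
quadratic inequality `(z₀ - 1/2)(t² + y²) < κ t` or `>`; use `exists_prim` at the two crossing points. -/
theorem arc {ω : ℂ → ℂ} (hω : ∀ z : ℂ, 0 < z.im → DifferentiableAt ℂ ω z) {z₀ κ y : ℝ}
    (hz : z₀ ≠ 1 / 2) (hκ : 0 < κ) (hy : 0 < y) :
    (Integrable fun t : ℝ => (sg (1 / 2 - z₀) - sg (1 / 2 - (z₀ - κ / (t + y * I) : ℂ).re)) *
      ω (z₀ - κ / (t + y * I)) * (κ / (t + y * I) ^ 2)) ∧
    (∃ R : ℝ, ∀ t : ℝ, R < |t| →
      sg (1 / 2 - z₀) - sg (1 / 2 - (z₀ - κ / (t + y * I) : ℂ).re) = 0) ∧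
    IntegrableOn (fun η : ℝ => if η ^ 2 + (z₀ - 1 / 2) ^ 2 < κ / y * η then ω (ln η) * I else 0)
      (Ioi 0) ∧
    ∫ t : ℝ, (sg (1 / 2 - z₀) - sg (1 / 2 - (z₀ - κ / (t + y * I) : ℂ).re)) *
      ω (z₀ - κ / (t + y * I)) * (κ / (t + y * I) ^ 2) =
      2 * ∫ η in Ioi (0 : ℝ), if η ^ 2 + (z₀ - 1 / 2) ^ 2 < κ / y * η then ω (ln η) * I else 0 := by
  simp only [contour_fac hz hy]
  obtain ⟨v, rfl⟩ : ∃ v, z₀ = v + 1 / 2 := ⟨z₀ - 1 / 2, by ring⟩
  simp only [add_sub_cancel_right]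
  have hv : v ≠ 0 := by intro h; apply hz; simp [h]
  have hvp : 0 < |v| := abs_pos.2 hv
  have hR : ∃ R : ℝ, ∀ t : ℝ, R < |t| →
      sg v * (sg ((v * t) ^ 2 - κ * (v * t) + v ^ 2 * y ^ 2) - 1) = 0 := by
    refine ⟨κ / |v|, fun t ht => ?_⟩
    rw [div_lt_iff₀ hvp, ← abs_mul, mul_comm t v] at ht
    have h1 : 0 < (v * t) ^ 2 - κ * (v * t) + v ^ 2 * y ^ 2 := by
      have h2 := le_abs_self (v * t)
      have h3 : (v * t) ^ 2 = |v * t| ^ 2 := (sq_abs _).symm
      have h4 : 0 < v ^ 2 * y ^ 2 := by positivity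
      nlinarith
    rw [sg_pos h1]; simp
  have hcond : ∀ η : ℝ, η ^ 2 + v ^ 2 < κ / y * η ↔
      (y * η) ^ 2 - κ * (y * η) + v ^ 2 * y ^ 2 < 0 := by
    intro η
    have e : (y * η) ^ 2 - κ * (y * η) + v ^ 2 * y ^ 2 = y ^ 2 * (η ^ 2 + v ^ 2 - κ / y * η) := by
      field_simp; ring
    rw [e, mul_neg_iff]
    have : 0 < y ^ 2 := by positivity
    constructor
    · intro h; left; exact ⟨this, by linarith⟩
    · rintro (h | h)
      · linarith [h.2]
      · linarith [h.1]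
  simp only [hcond]
  rcases le_or_gt (κ ^ 2 - 4 * v ^ 2 * y ^ 2) 0 with hD | hD
  · have h1 : ∀ η : ℝ, ¬ (y * η) ^ 2 - κ * (y * η) + v ^ 2 * y ^ 2 < 0 := fun η => by
      nlinarith [sq_nonneg (y * η - κ / 2)]
    have h2 : (fun t : ℝ => sg v * (sg ((v * t) ^ 2 - κ * (v * t) + v ^ 2 * y ^ 2) - 1) *
        ω (((v + 1 / 2 : ℝ) : ℂ) - κ / (t + y * I)) * (κ / (t + y * I) ^ 2)) =ᵐ[volume]
        fun _ => 0 := by
      filter_upwards [Measure.ae_ne volume (κ / (2 * v))] with t ht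
      have h3 : v * t - κ / 2 ≠ 0 := by
        intro h; apply ht; field_simp; linarith
      have h4 : 0 < (v * t) ^ 2 - κ * (v * t) + v ^ 2 * y ^ 2 := by
        have := pow_pos (abs_pos.2 h3) 2
        rw [sq_abs] at this
        nlinarith
      rw [sg_pos h4]; simp
    simp only [h1, if_false]
    refine ⟨(integrable_zero _ _ _).congr h2.symm, hR, integrableOn_zero, ?_⟩
    rw [integral_congr_ae h2]; simp
  · obtain ⟨F, hF⟩ := exists_prim hω
    obtain ⟨u₁, u₂, hu, hs, hp⟩ : ∃ u₁ u₂ : ℝ, u₁ < u₂ ∧ u₁ + u₂ = κ ∧ u₁ * u₂ = v ^ 2 * y ^ 2 := by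
      refine ⟨(κ - √(κ ^ 2 - 4 * v ^ 2 * y ^ 2)) / 2, (κ + √(κ ^ 2 - 4 * v ^ 2 * y ^ 2)) / 2,
        by linarith [Real.sqrt_pos.2 hD], by ring, ?_⟩
      have := Real.sq_sqrt hD.le
      linear_combination (-1 / 4) * this
    have hp0 : 0 < u₁ * u₂ := by rw [hp]; positivity
    have hu2 : 0 < u₂ := by
      by_contra h
      push Not at h
      linarith
    have hu1 : 0 < u₁ := (mul_pos_iff_of_pos_right hu2).1 hp0
    have hq : ∀ u : ℝ, u ^ 2 - κ * u + v ^ 2 * y ^ 2 = (u - u₁) * (u - u₂) := fun u => by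
      rw [← hs, ← hp]; ring
    simp only [hq] at hR ⊢
    have hneg : ∀ u : ℝ, (u - u₁) * (u - u₂) < 0 ↔ u₁ < u ∧ u < u₂ := by
      intro u
      rw [mul_neg_iff]
      constructor
      · rintro (h | h)
        · exact ⟨by linarith [h.1], by linarith [h.2]⟩
        · exact ⟨by linarith [h.1, h.2], by linarith [h.1, h.2]⟩
      · intro h; left; exact ⟨by linarith [h.1], by linarith [h.2]⟩
    -- the chord
    have hchord : (fun η : ℝ => if (y * η - u₁) * (y * η - u₂) < 0 then ω (ln η) * I else 0) =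
        (Ioo (u₁ / y) (u₂ / y)).indicator fun η => ω (ln η) * I := by
      funext η
      simp only [indicator, mem_Ioo, hneg, div_lt_iff₀ hy, lt_div_iff₀ hy, mul_comm η y]
    have hle : u₁ / y ≤ u₂ / y := by gcongr
    have hsub : Ioo (u₁ / y) (u₂ / y) ⊆ Ioi 0 := fun η hη =>
      lt_trans (div_pos hu1 hy) hη.1
    have hlnc : Continuous ln := by unfold ln; fun_prop
    have hlnpos : ∀ η ∈ uIcc (u₁ / y) (u₂ / y), 0 < (ln η).im := by
      intro η hη
      rw [uIcc_of_le hle] at hη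
      rw [ln_im]; exact lt_of_lt_of_le (div_pos hu1 hy) hη.1
    have hci : IntervalIntegrable (fun η : ℝ => ω (ln η) * I) volume (u₁ / y) (u₂ / y) := by
      refine ContinuousOn.intervalIntegrable fun η hη => ?_
      exact ((ContinuousAt.comp (f := ln) (hω _ (hlnpos η hη)).continuousAt
        hlnc.continuousAt).mul continuousAt_const).continuousWithinAt
    have hcv : ∫ η in (u₁ / y)..(u₂ / y), ω (ln η) * I = F (ln (u₂ / y)) - F (ln (u₁ / y)) := by
      refine intervalIntegral.integral_eq_sub_of_hasDerivAt (f := fun η => F (ln η))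
        (fun η hη => ?_) hci
      have h3 : HasDerivAt (fun w : ℂ => 1 / 2 + w * I) I (η : ℂ) := by
        simpa using ((hasDerivAt_id (η : ℂ)).mul_const I).const_add (1 / 2)
      exact ((hF _ (hlnpos η hη)).comp (η : ℂ) h3).comp_ofReal
    -- the arc
    have hwpos : ∀ t : ℝ, 0 < (((v + 1 / 2 : ℝ) : ℂ) - κ / (t + y * I)).im := fun t => by
      rw [contour_w_im]; positivity
    have hwd : ∀ t : ℝ, HasDerivAt (fun w : ℂ => ((v + 1 / 2 : ℝ) : ℂ) - κ / (w + y * I))
        (κ / (t + y * I) ^ 2) (t : ℂ) := by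
      intro t
      have h3 := (((hasDerivAt_const (t : ℂ) (κ : ℂ)).div ((hasDerivAt_id (t : ℂ)).add_const (y * I))
        (contour_den_ne hy t))).const_sub ((v + 1 / 2 : ℝ) : ℂ)
      have e : -((0 * (id (t : ℂ) + y * I) - κ * 1) / (id (t : ℂ) + y * I) ^ 2) =
          (κ : ℂ) / (t + y * I) ^ 2 := by
        simp only [id]; ring
      rw [e] at h3
      exact h3
    have hgc : Continuous fun t : ℝ =>
        ω (((v + 1 / 2 : ℝ) : ℂ) - κ / (t + y * I)) * (κ / (t + y * I) ^ 2) := by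
      rw [continuous_iff_continuousAt]
      intro t
      have h3 : ContinuousAt (fun t : ℝ => ((v + 1 / 2 : ℝ) : ℂ) - κ / (t + y * I)) t :=
        (hwd t).comp_ofReal.continuousAt
      have h4 := pow_ne_zero 2 (contour_den_ne hy t)
      refine (ContinuousAt.comp (f := fun t : ℝ => ((v + 1 / 2 : ℝ) : ℂ) - κ / (t + y * I))
        (hω _ (hwpos t)).continuousAt h3).mul ?_
      exact continuousAt_const.div (by fun_prop) h4
    have hav : ∫ t in (u₁ / v)..(u₂ / v),
        ω (((v + 1 / 2 : ℝ) : ℂ) - κ / (t + y * I)) * (κ / (t + y * I) ^ 2) =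
        F (ln (u₁ / y)) - F (ln (u₂ / y)) := by
      have h3 := intervalIntegral.integral_eq_sub_of_hasDerivAt
        (f := fun t : ℝ => F (((v + 1 / 2 : ℝ) : ℂ) - κ / (t + y * I)))
        (a := u₁ / v) (b := u₂ / v)
        (fun t _ => ((hF _ (hwpos t)).comp (t : ℂ) (hwd t)).comp_ofReal)
        (hgc.intervalIntegrable _ _)
      have hend : ∀ p q : ℝ, 0 < p → p + q = κ → p * q = v ^ 2 * y ^ 2 →
          ((v + 1 / 2 : ℝ) : ℂ) - κ / (((p / v : ℝ) : ℂ) + y * I) = ln (q / y) := by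
        intro p q hp0 h1 h2
        have e : (p / v) ^ 2 + y ^ 2 = κ * p / v ^ 2 := by
          field_simp; rw [← h1]; linear_combination (-1) * h2
        apply Complex.ext
        · rw [contour_w_re, ln_re, e]; field_simp; ring
        · rw [contour_w_im, ln_im, e]; field_simp; linear_combination (-1) * h2
      rw [h3, hend u₁ u₂ hu1 hs hp, hend u₂ u₁ hu2 (by linarith) (by linarith)]
    have harc : (fun t : ℝ => sg v * (sg ((v * t - u₁) * (v * t - u₂)) - 1) *
        ω (((v + 1 / 2 : ℝ) : ℂ) - κ / (t + y * I)) * (κ / (t + y * I) ^ 2)) =ᵐ[volume]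
        (uIoc (u₁ / v) (u₂ / v)).indicator fun t => -2 * sg v *
          (ω (((v + 1 / 2 : ℝ) : ℂ) - κ / (t + y * I)) * (κ / (t + y * I) ^ 2)) := by
      filter_upwards [Measure.ae_ne volume (u₁ / v), Measure.ae_ne volume (u₂ / v)] with t h1 h2
      have h3 : v * t - u₁ ≠ 0 := by
        intro h; apply h1; field_simp; linarith
      have h4 : v * t - u₂ ≠ 0 := by
        intro h; apply h2; field_simp; linarith
      have h5 : t ∈ uIoc (u₁ / v) (u₂ / v) ↔ (v * t - u₁) * (v * t - u₂) < 0 := by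
        rw [hneg]
        rcases lt_or_gt_of_ne hv with h | h
        · have h6 : u₂ / v ≤ u₁ / v := div_le_div_of_nonpos_of_le h.le hu.le
          rw [uIoc_of_ge h6, mem_Ioc, div_lt_iff_of_neg h, le_div_iff_of_neg h, mul_comm t v]
          constructor
          · rintro ⟨h7, h8⟩
            exact ⟨lt_of_le_of_ne h8 (fun h9 => h3 (by linarith)), h7⟩
          · rintro ⟨h7, h8⟩
            exact ⟨h8, h7.le⟩
        · have h6 : u₁ / v ≤ u₂ / v := by gcongr
          rw [uIoc_of_le h6, mem_Ioc, div_lt_iff₀ h, le_div_iff₀ h, mul_comm t v]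
          constructor
          · rintro ⟨h7, h8⟩
            exact ⟨h7, lt_of_le_of_ne h8 (fun h9 => h4 (by linarith))⟩
          · rintro ⟨h7, h8⟩
            exact ⟨h7, h8.le⟩
      by_cases h : (v * t - u₁) * (v * t - u₂) < 0
      · rw [indicator_of_mem (h5.2 h), sg_neg h]; ring
      · rw [indicator_of_notMem (fun h' => h (h5.1 h')),
          sg_pos (lt_of_le_of_ne (not_lt.1 h) (mul_ne_zero h3 h4).symm)]
        simp
    refine ⟨?_, hR, ?_, ?_⟩
    · refine Integrable.congr ?_ harc.symm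
      rw [integrable_indicator_iff measurableSet_uIoc]
      exact ((continuous_const.mul hgc).intervalIntegrable _ _).def'
    · rw [hchord]
      refine Integrable.integrableOn ?_
      rw [integrable_indicator_iff measurableSet_Ioo]
      exact (intervalIntegrable_iff_integrableOn_Ioo_of_le hle).1 hci
    · rw [integral_congr_ae harc, hchord, integral_indicator measurableSet_uIoc,
        setIntegral_indicator measurableSet_Ioo, inter_eq_right.2 hsub,
        ← integral_Ioc_eq_integral_Ioo, ← intervalIntegral.integral_of_le hle, hcv,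
        integral_const_mul]
      rcases lt_or_gt_of_ne hv with h | h
      · have h6 : u₂ / v ≤ u₁ / v := div_le_div_of_nonpos_of_le h.le hu.le
        rw [intervalIntegral.integral_of_ge h6] at hav
        rw [uIoc_of_ge h6, sg_neg h]
        linear_combination (-2) * hav
      · have h6 : u₁ / v ≤ u₂ / v := by gcongr
        rw [intervalIntegral.integral_of_le h6] at hav
        rw [uIoc_of_le h6, sg_pos h]
        linear_combination (-2) * hav

end

end Pool.Agent.MP_9f080f_an
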