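import Pool.Agent.MP_9f080f_an.Mg.KBA

namespace Pool.Agent.MP_9f080f_an
open Complex MeasureTheory Set Filter Topology Metric
open scoped Real ComplexConjugate

noncomputable section

/-- the twisted sum of translates -/
def kbK (H : ℝ) (L : ℕ) (t : ℝ) : ℂ := ∑ i ∈ Finset.range L, ep (-3 / 4 * i) * kk H (t + i)

lemma kb_cont_add (H : ℝ) {t c : ℝ} (ht : 0 < t + c) : ContinuousAt (fun t => kk H (t + c)) t :=
  (kb_cont H ht).comp (f := fun t => t + c) (by fun_prop)

lemma kbK_cont (H : ℝ) (L : ℕ) {t : ℝ} (ht : 0 < t) : ContinuousAt (kbK H L) t := by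
  unfold kbK
  exact tendsto_finsetSum _ fun i _ =>
    (continuousAt_const.mul (kb_cont_add H (by positivity))).tendsto

lemma kb_ii {E : Type} [NormedAddCommGroup E] {f : ℝ → E} {a b : ℝ} (ha : 0 < a) (hab : a ≤ b)
    (hf : ∀ t, 0 < t → ContinuousAt f t) : IntervalIntegrable f volume a b := by
  refine ContinuousOn.intervalIntegrable ?_
  rw [uIcc_of_le hab]
  exact fun t ht => (hf t (ha.trans_le ht.1)).continuousWithinAt

lemma kb_harm (n : ℕ) : ∑ i ∈ Finset.range n, (1 / ((i : ℝ) + 1)) ≤ 1 + Real.log n := by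
  have := harmonic_le_one_add_log n
  rw [harmonic] at this
  push_cast at this
  simpa only [one_div] using this

lemma kb_head {H t₀ : ℝ} (hH : 0 < H) (ht : 0 < t₀) (n : ℕ) :
    ∫ t in t₀..t₀ + 1, ‖kbK H n t‖ ^ 2 ≤ 1 / t₀ ^ 2 + (1 + Real.log n) / H := by
  have hle : t₀ ≤ t₀ + 1 := by linarith
  set g : ℕ → ℝ → ℂ := fun h s => kk H (s + h) * conj (kk H s) with hg
  have gc : ∀ h s, 0 < s → ContinuousAt (g h) s := fun h s hs =>
    (kb_cont_add H (by positivity)).mul (continuous_conj.continuousAt.comp (kb_cont H hs))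
  have gc' : ∀ (h i : ℕ) s, 0 < s → ContinuousAt (fun t => g h (t + i)) s := fun h i s hs =>
    (gc h (s + i) (by positivity)).comp (f := fun t => t + (i : ℝ)) (by fun_prop)
  have e1 : ∀ t, ‖kbK H n t‖ ^ 2 = reCLM (∑ h ∈ Finset.range n,
      ((if h = 0 then 1 else 2 : ℂ) * ep (-3 / 4 * h)) * ∑ i ∈ Finset.range (n - h), g h (t + i)) := by
    intro t
    rw [kbK, kb_expand, reCLM_apply]
    congr 1
    refine Finset.sum_congr rfl fun h _ => ?_
    rw [mul_assoc, Finset.mul_sum _ _ (ep _)]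
    congr 1
    refine Finset.sum_congr rfl fun i _ => ?_
    have e2 : (-3 / 4 * (i : ℂ)) = ((-3 / 4 * (i : ℝ) : ℝ) : ℂ) := by push_cast; ring
    have e3 : ep (-3 / 4 * ((i + h : ℕ) : ℂ)) * ep (-((-3 / 4 * (i : ℝ) : ℝ) : ℂ)) = ep (-3 / 4 * h) := by
      rw [← ep_add]; congr 1; push_cast; ring
    simp only [hg]
    rw [map_mul, e2, kb_conj_ep, ← e3]
    push_cast
    rw [add_assoc t]
    ring
  have i1 : ∀ h, IntervalIntegrable (fun t => ∑ i ∈ Finset.range (n - h), g h (t + i)) volume t₀ (t₀ + 1) :=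
    fun h => kb_ii ht hle fun s hs => tendsto_finsetSum _ fun i _ => (gc' h i s hs).tendsto
  have e2 : ∀ h, ∫ t in t₀..t₀ + 1, ∑ i ∈ Finset.range (n - h), g h (t + i) =
      ∫ s in t₀..t₀ + (n - h : ℕ), g h s := by
    intro h
    rw [intervalIntegral.integral_finsetSum fun i _ => kb_ii ht hle (gc' h i)]
    have := intervalIntegral.sum_integral_adjacent_intervals (f := g h) (μ := volume)
      (a := fun k : ℕ => t₀ + k) (n := n - h)
      (fun k _ => kb_ii (by positivity) (by push_cast; linarith) (gc h))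
    simp only [Nat.cast_zero, add_zero] at this
    rw [← this]
    refine Finset.sum_congr rfl fun i _ => ?_
    rw [intervalIntegral.integral_comp_add_right (g h)]
    push_cast
    congr 1
    ring
  simp only [e1]
  have i2 : IntervalIntegrable (fun t => ∑ h ∈ Finset.range n,
      ((if h = 0 then 1 else 2 : ℂ) * ep (-3 / 4 * h)) * ∑ i ∈ Finset.range (n - h), g h (t + i))
      volume t₀ (t₀ + 1) :=
    kb_ii ht hle fun s hs => tendsto_finsetSum _ fun h _ => (continuousAt_const.mul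
      (tendsto_finsetSum _ fun i _ => (gc' h i s hs).tendsto)).tendsto
  rw [ContinuousLinearMap.intervalIntegral_comp_comm reCLM i2,
    intervalIntegral.integral_finsetSum fun h _ => (i1 h).const_mul _, reCLM_apply]
  simp only [intervalIntegral.integral_const_mul, e2]
  refine (Complex.re_le_norm _).trans ((norm_sum_le _ _).trans ?_)
  have hl : 0 ≤ Real.log n := Real.log_natCast_nonneg n
  rcases n with _ | n
  · simp only [Finset.range_zero, Finset.sum_empty]
    positivity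
  have nep : ∀ h : ℕ, ‖ep (-3 / 4 * h)‖ = 1 := fun h => by
    rw [show (-3 / 4 * (h : ℂ)) = ((-3 / 4 * (h : ℝ) : ℝ) : ℂ) by push_cast; ring, norm_ep_real]
  rw [Finset.sum_range_succ', add_comm]
  refine add_le_add ?_ ?_
  · rw [norm_mul, norm_mul, nep, if_pos rfl, norm_one, one_mul, one_mul]
    refine (kb_diag ht (le_add_of_nonneg_right (Nat.cast_nonneg _))).trans ?_
    exact one_div_le_one_div_of_le (by positivity) (by nlinarith [sq_nonneg t₀])
  · calc _ ≤ ∑ h ∈ Finset.range n, 1 / H * (1 / ((h : ℝ) + 1)) := by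
          refine Finset.sum_le_sum fun h _ => ?_
          rw [norm_mul, norm_mul, nep, if_neg (Nat.succ_ne_zero h), mul_one]
          have := kb_off (h := ((h + 1 : ℕ) : ℝ)) hH ht
            (le_add_of_nonneg_right (Nat.cast_nonneg (n + 1 - (h + 1)))) (by positivity)
          rw [Complex.norm_ofNat]
          refine (mul_le_mul_of_nonneg_left this (by norm_num)).trans ?_
          push_cast
          rw [mul_one_div, one_div_mul_one_div, div_le_div_iff₀ (by positivity) (by positivity)]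
          have h3 : 0 < H * ((h : ℝ) + 1) := by positivity
          nlinarith [Real.pi_gt_three]
      _ ≤ (1 + Real.log ((n + 1 : ℕ) : ℝ)) / H := by
          rw [← Finset.mul_sum, div_eq_mul_one_div (1 + _), mul_comm]
          refine mul_le_mul_of_nonneg_right ?_ (by positivity)
          refine le_trans ?_ (kb_harm (n + 1))
          rw [Finset.sum_range_succ]
          exact le_add_of_nonneg_right (by positivity)

lemma kb_sq_add (x y : ℂ) : ‖x + y‖ ^ 2 ≤ 2 * ‖x‖ ^ 2 + 2 * ‖y‖ ^ 2 := by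
  have := pow_le_pow_left₀ (norm_nonneg _) (norm_add_le x y) 2
  nlinarith [sq_nonneg (‖x‖ - ‖y‖)]

lemma kb_log {H x : ℝ} (hH : 0 ≤ H) (h0 : 0 ≤ x) (hx : x ≤ 2 + H) :
    1 + Real.log x ≤ 2 * (1 + Real.log (1 + H)) := by
  have h1 : 0 ≤ Real.log (1 + H) := Real.log_nonneg (by linarith)
  rcases h0.eq_or_lt with h | h
  · rw [← h, Real.log_zero]; linarith
  have h2 : Real.log x ≤ Real.log (2 * (1 + H)) := Real.log_le_log h (by linarith)
  rw [Real.log_mul (by norm_num) (by linarith)] at h2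
  linarith [Real.log_two_lt_d9]

lemma kb_K {H t₀ : ℝ} (L : ℕ) (hH : 1 / 2 ≤ H) (ht : 1 / 2 ≤ t₀) :
    ∫ t in t₀..t₀ + 1, ‖kbK H L t‖ ^ 2 ≤
      20 * (if t₀ ^ 2 ≤ 4 * H then 1 / t₀ ^ 2 + (1 + Real.log (1 + H)) / H else 1 / t₀ ^ 3) := by
  have ht0 : 0 < t₀ := by linarith
  have hH0 : 0 < H := by linarith
  have hle : t₀ ≤ t₀ + 1 := by linarith
  have ii : ∀ n, IntervalIntegrable (fun t => ‖kbK H n t‖ ^ 2) volume t₀ (t₀ + 1) := fun n =>
    kb_ii ht0 hle fun s hs => (kbK_cont H n hs).norm.pow 2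
  have hlog : 0 ≤ Real.log (1 + H) := Real.log_nonneg (by linarith)
  split_ifs with hc
  · have hex : ∃ i : ℕ, 4 * H ≤ (t₀ + i) ^ 2 := by
      obtain ⟨i, hi⟩ := exists_nat_ge (1 + H)
      exact ⟨i, by nlinarith [sq_nonneg (1 - H)]⟩
    set n := min L (Nat.find hex) with hn
    have hn2 : (n : ℝ) ≤ 2 + H := by
      have h1 : n ≤ Nat.find hex := min_le_right _ _
      rcases Nat.eq_zero_or_pos n with h | h
      · rw [h]; simp; linarith
      have h2 := Nat.find_min hex (show n - 1 < Nat.find hex by omega)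
      push Not at h2
      rw [Nat.cast_sub h] at h2
      have h3 : (1 : ℝ) ≤ n := by exact_mod_cast h
      push_cast at h2
      nlinarith [sq_nonneg ((n : ℝ) - 1 - 2)]
    have hpt : ∀ t ∈ Icc t₀ (t₀ + 1), ‖kbK H L t‖ ^ 2 ≤ 2 * ‖kbK H n t‖ ^ 2 + 9 / H := by
      intro t htt
      have htp : 0 < t := ht0.trans_le htt.1
      by_cases hL : L ≤ Nat.find hex
      · rw [hn, min_eq_left hL]
        have : 0 < 9 / H := by positivity
        nlinarith [sq_nonneg ‖kbK H L t‖]
      · have hn' : n = Nat.find hex := min_eq_right (by omega)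
        have h4 : 4 * H ≤ (t₀ + n) ^ 2 := hn' ▸ Nat.find_spec hex
        have h5 : (t₀ + n) ^ 2 ≤ (t + n) ^ 2 :=
          pow_le_pow_left₀ (by positivity) (by linarith [htt.1]) 2
        obtain ⟨m, hm⟩ : ∃ m, L = n + m := ⟨L - n, by omega⟩
        have h6 := kb_tail hH0.le (show 0 < t + n by positivity) (h4.trans h5) n m
        have e : kbK H L t = kbK H n t + ∑ i ∈ Finset.range m,
            ep (-3 / 4 * ((n + i : ℕ) : ℂ)) * kk H (t + n + i) := by
          rw [kbK, kbK, hm, Finset.sum_range_add]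
          congr 1
          refine Finset.sum_congr rfl fun i _ => ?_
          rw [Nat.cast_add (R := ℝ), add_assoc]
        rw [e]
        refine (kb_sq_add _ _).trans (add_le_add le_rfl ?_)
        have h7 : 9 / (t + n) ^ 3 ≤ 9 / (2 * H) := by
          refine div_le_div_of_nonneg_left (by norm_num) (by positivity) ?_
          have h8 : 1 / 2 ≤ t + n := by linarith [htt.1, Nat.cast_nonneg (α := ℝ) n]
          nlinarith
        have e2 : 9 / H = 2 * (9 / (2 * H)) := by field_simp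
        linarith
    have h1 := intervalIntegral.integral_mono_on hle (ii L)
      (((ii n).const_mul 2).add intervalIntegrable_const) hpt
    rw [intervalIntegral.integral_add ((ii n).const_mul 2) intervalIntegrable_const,
      intervalIntegral.integral_const_mul, intervalIntegral.integral_const] at h1
    simp only [add_sub_cancel_left, smul_eq_mul, one_mul] at h1
    have h2 := kb_head hH0 ht0 n
    have h3 := div_le_div_of_nonneg_right (kb_log hH0.le (Nat.cast_nonneg n) hn2) hH0.le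
    have h4 : 9 / H ≤ 9 * ((1 + Real.log (1 + H)) / H) := by
      rw [← mul_div_assoc]
      exact div_le_div_of_nonneg_right (by linarith) hH0.le
    rw [mul_div_assoc] at h3
    have h5 : 0 ≤ 1 / t₀ ^ 2 := by positivity
    have h6 : 0 ≤ (1 + Real.log (1 + H)) / H := by positivity
    linarith
  · push Not at hc
    have hpt : ∀ t ∈ Icc t₀ (t₀ + 1), ‖kbK H L t‖ ^ 2 ≤ 9 / t₀ ^ 3 := by
      intro t htt
      have htp : 0 < t := ht0.trans_le htt.1
      have h6 := kb_tail hH0.le htp (hc.le.trans (pow_le_pow_left₀ ht0.le htt.1 2)) 0 L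
      simp only [zero_add] at h6
      exact h6.trans (div_le_div_of_nonneg_left (by norm_num) (by positivity)
        (pow_le_pow_left₀ ht0.le htt.1 3))
    have h1 := intervalIntegral.integral_mono_on hle (ii L) intervalIntegrable_const hpt
    rw [intervalIntegral.integral_const] at h1
    simp only [add_sub_cancel_left, smul_eq_mul, one_mul] at h1
    have h5 : 0 ≤ 1 / t₀ ^ 3 := by positivity
    have e : 9 / t₀ ^ 3 = 9 * (1 / t₀ ^ 3) := by ring
    linarith

/-- the majorant on the `j`-th unit interval -/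
def kbw (H : ℝ) (j : ℕ) : ℝ := 1 / ((j : ℝ) + 1 / 2) ^ 3 +
  if ((j : ℝ) + 1 / 2) ^ 2 ≤ 4 * H then 1 / ((j : ℝ) + 1 / 2) ^ 2 + (1 + Real.log (1 + H)) / H else 0

lemma kb_Kw {H t₀ : ℝ} (L j : ℕ) (hH : 1 / 2 ≤ H) (ht : (j : ℝ) + 1 / 2 ≤ t₀) :
    ∫ t in t₀..t₀ + 1, ‖kbK H L t‖ ^ 2 ≤ 20 * kbw H j := by
  have hj : (0 : ℝ) < j + 1 / 2 := by positivity
  have hlog : 0 ≤ Real.log (1 + H) := Real.log_nonneg (by linarith)
  have hH0 : 0 < H := by linarith
  refine (kb_K L hH (by linarith [Nat.cast_nonneg (α := ℝ) j])).trans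
    (mul_le_mul_of_nonneg_left ?_ (by norm_num))
  unfold kbw
  have h2 : ((j : ℝ) + 1 / 2) ^ 2 ≤ t₀ ^ 2 := pow_le_pow_left₀ hj.le ht 2
  have h3 : ((j : ℝ) + 1 / 2) ^ 3 ≤ t₀ ^ 3 := pow_le_pow_left₀ hj.le ht 3
  have h4 := one_div_le_one_div_of_le (by positivity) h2
  have h5 := one_div_le_one_div_of_le (by positivity) h3
  have h6 : 0 ≤ 1 / ((j : ℝ) + 1 / 2) ^ 3 := by positivity
  have h7 : 0 ≤ 1 / ((j : ℝ) + 1 / 2) ^ 2 + (1 + Real.log (1 + H)) / H := by positivity
  split_ifs with h8 h9 h9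
  · linarith
  · exact absurd (h2.trans h8) h9
  · linarith
  · linarith

lemma kb_sum_w {H : ℝ} (hH : 1 / 2 ≤ H) (N : ℕ) :
    ∑ j ∈ Finset.range N, ((j : ℝ) + 5 / 2) * kbw H j ≤ 120 * (1 + Real.log (1 + H)) := by
  have hH0 : 0 < H := by linarith
  have hlog : 0 ≤ Real.log (1 + H) := Real.log_nonneg (by linarith)
  set Λ := 1 + Real.log (1 + H) with hΛ
  have hex : ∃ i : ℕ, 4 * H < (i : ℝ) ^ 2 := by
    obtain ⟨i, hi⟩ := exists_nat_ge (2 + H)
    exact ⟨i, by nlinarith [sq_nonneg H]⟩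
  set M := Nat.find hex with hM
  have hM0 : 0 < M := by
    rw [hM, Nat.find_pos]
    simp only [Nat.cast_zero]
    nlinarith
  have hM1 : ((M : ℝ) - 1) ^ 2 ≤ 4 * H := by
    have := Nat.find_min hex (show M - 1 < Nat.find hex by omega)
    rw [Nat.cast_sub hM0] at this
    push_cast at this
    linarith [not_lt.mp this]
  have hM2 : (M : ℝ) ≤ 2 + H := by nlinarith [sq_nonneg ((M : ℝ) - 1 - 2)]
  have hM3 : (M : ℝ) ^ 2 ≤ 12 * H := by nlinarith [sq_nonneg ((M : ℝ) - 2)]
  have s1 : ∀ N : ℕ, ∑ j ∈ Finset.range N, 1 / ((j : ℝ) + 1 / 2) ^ 2 ≤ 8 - 4 / ((N : ℝ) + 1 / 2) := by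
    intro N
    induction N with
    | zero => norm_num
    | succ N ih =>
      rw [Finset.sum_range_succ]
      have hN : (0 : ℝ) ≤ N := Nat.cast_nonneg N
      have : 1 / ((N : ℝ) + 1 / 2) ^ 2 ≤ 4 / ((N : ℝ) + 1 / 2) - 4 / (((N + 1 : ℕ) : ℝ) + 1 / 2) := by
        push_cast
        rw [div_sub_div _ _ (by positivity) (by positivity), div_le_div_iff₀ (by positivity) (by positivity)]
        nlinarith [mul_nonneg hN hN, mul_nonneg hN (mul_nonneg hN hN)]
      linarith
  have pt : ∀ j : ℕ, ((j : ℝ) + 5 / 2) * kbw H j ≤ 5 * (1 / ((j : ℝ) + 1 / 2) ^ 2) +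
      if j < M then 10 * (1 / ((j : ℝ) + 1)) + 5 * M * (Λ / H) else 0 := by
    intro j
    have hj : (0 : ℝ) ≤ j := Nat.cast_nonneg j
    have hw : 0 ≤ kbw H j := by unfold kbw; split_ifs <;> positivity
    have h1 : ((j : ℝ) + 5 / 2) * kbw H j ≤ 5 * ((j : ℝ) + 1 / 2) * kbw H j :=
      mul_le_mul_of_nonneg_right (by linarith) hw
    refine h1.trans ?_
    unfold kbw
    rw [mul_add]
    refine add_le_add (le_of_eq (by field_simp)) ?_
    by_cases hc : ((j : ℝ) + 1 / 2) ^ 2 ≤ 4 * H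
    · have hjM : j < M := by
        by_contra hh
        have h2 : (M : ℝ) ≤ j := by exact_mod_cast not_lt.mp hh
        have h3 := Nat.find_spec hex
        rw [← hM] at h3
        have h4 : (0 : ℝ) ≤ M := Nat.cast_nonneg M
        nlinarith
      have hjM' : (j : ℝ) + 1 ≤ M := by exact_mod_cast hjM
      rw [if_pos hc, if_pos hjM, mul_add]
      refine add_le_add ?_ (mul_le_mul_of_nonneg_right (by linarith) (by positivity))
      rw [mul_one_div, mul_one_div, div_le_div_iff₀ (by positivity) (by positivity)]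
      nlinarith [mul_nonneg hj hj]
    · rw [if_neg hc, mul_zero]
      split_ifs <;> positivity
  refine (Finset.sum_le_sum fun j _ => pt j).trans ?_
  rw [Finset.sum_add_distrib, ← Finset.mul_sum, ← Finset.sum_filter]
  have s2 : ∑ j ∈ (Finset.range N).filter (· < M), (10 * (1 / ((j : ℝ) + 1)) + 5 * M * (Λ / H)) ≤
      ∑ j ∈ Finset.range M, (10 * (1 / ((j : ℝ) + 1)) + 5 * M * (Λ / H)) :=
    Finset.sum_le_sum_of_subset_of_nonneg
      (fun j hj => Finset.mem_range.mpr (Finset.mem_filter.mp hj).2) fun j _ _ => by positivity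
  rw [Finset.sum_add_distrib (s := Finset.range M), ← Finset.mul_sum, Finset.sum_const,
    Finset.card_range, nsmul_eq_mul] at s2
  have s3 := (kb_harm M).trans (kb_log hH0.le (Nat.cast_nonneg M) hM2)
  have s4 : (M : ℝ) * (5 * M * (Λ / H)) ≤ 60 * Λ := by
    have : (M : ℝ) * (5 * M * (Λ / H)) = 5 * Λ * ((M : ℝ) ^ 2 / H) := by ring
    rw [this]
    have h2 : (M : ℝ) ^ 2 / H ≤ 12 := by rw [div_le_iff₀ hH0]; exact hM3
    nlinarith
  have s5 := s1 N
  have s6 : 0 ≤ 4 / ((N : ℝ) + 1 / 2) := by positivity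
  linarith

lemma kb_Ioi {f : ℝ → ℝ} (hc : ∀ s, 1 / 2 ≤ s → ContinuousAt f s) (h0 : ∀ s, 1 / 2 ≤ s → 0 ≤ f s)
    {I : ℝ} (h : ∀ N : ℕ, ∑ j ∈ Finset.range N,
      ∫ s in ((j : ℝ) + 1 / 2)..((j : ℝ) + 1 / 2 + 1), f s ≤ I) :
    IntegrableOn f (Ioi (1 / 2)) ∧ ∫ s in Ioi (1 / 2 : ℝ), f s ≤ I := by
  have co : ∀ a b : ℝ, 1 / 2 ≤ a → ContinuousOn f (Icc a b) := fun a b ha s hs =>
    (hc s (ha.trans hs.1)).continuousWithinAt
  have hb : Tendsto (fun N : ℕ => (N : ℝ) + 1 / 2) atTop atTop :=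
    tendsto_atTop_add_const_right _ _ tendsto_natCast_atTop_atTop
  have h1 : ∀ N : ℕ, ∫ s in (1 / 2 : ℝ)..((N : ℝ) + 1 / 2), f s ≤ I := by
    intro N
    have := intervalIntegral.sum_integral_adjacent_intervals (f := f) (μ := volume)
      (a := fun k : ℕ => (k : ℝ) + 1 / 2) (n := N) (fun k _ => by
        refine ContinuousOn.intervalIntegrable ?_
        rw [uIcc_of_le (by push_cast; linarith)]
        exact co _ _ (by linarith [Nat.cast_nonneg (α := ℝ) k]))
    simp only [Nat.cast_zero, zero_add] at this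
    rw [← this]
    refine le_trans (le_of_eq (Finset.sum_congr rfl fun j _ => ?_)) (h N)
    push_cast
    congr 1
    ring
  have hi : IntegrableOn f (Ioi (1 / 2)) := by
    refine integrableOn_Ioi_of_intervalIntegral_norm_bounded I (1 / 2) (fun N : ℕ =>
      ((co _ _ le_rfl).integrableOn_Icc).mono_set Ioc_subset_Icc_self) hb
      (Eventually.of_forall fun N => le_trans (le_of_eq ?_) (h1 N))
    refine intervalIntegral.integral_congr fun s hs => ?_
    rw [uIcc_of_le (by linarith [Nat.cast_nonneg (α := ℝ) N])] at hs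
    exact Real.norm_of_nonneg (h0 s hs.1)
  exact ⟨hi, le_of_tendsto' (intervalIntegral_tendsto_integral_Ioi _ hi hb) h1⟩

end

end Pool.Agent.MP_9f080f_an
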