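import Pool.Agent.MP_9f080f_an.Mg.Basic

namespace Pool.Agent.MP_9f080f_an
open Complex MeasureTheory Set Filter Topology Metric
open scoped Real

noncomputable section

open scoped FourierTransform

/-! Plancherel for `L¹ ∩ L²`.  Use `MeasureTheory.Lp.norm_fourier_eq` and
`MeasureTheory.Lp.fourier_toTemperedDistribution_eq` (test against Schwartz functions to identify the
`L²` transform with `𝓕 g` almost everywhere), or Gaussian regularisation. -/

lemma planch_cont {g : ℝ → ℂ} (h1 : Integrable g) : Continuous (𝓕 g) :=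
  VectorFourier.fourierIntegral_continuous Real.continuous_fourierChar
    (innerSL ℝ).continuous₂ h1

lemma planch_flip {φ g : ℝ → ℂ} (hφ : Integrable φ) (h1 : Integrable g) :
    ∫ ξ, 𝓕 φ ξ • g ξ = ∫ x, φ x • 𝓕 g x := by
  have h := VectorFourier.integral_fourierIntegral_smul_eq_flip (L := innerₗ ℝ)
    (μ := volume) (ν := volume) Real.continuous_fourierChar continuous_inner hφ h1
  rw [flip_innerₗ] at h
  exact h

lemma planch_ae {g : ℝ → ℂ} (h1 : Integrable g) (hm : MemLp g 2) :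
    ∀ᵐ ξ, 𝓕 g ξ = (𝓕 (hm.toLp g) : Lp (α := ℝ) ℂ 2) ξ := by
  apply ae_eq_of_integral_contDiff_smul_eq (planch_cont h1).locallyIntegrable
    ((Lp.memLp _).locallyIntegrable (by norm_num))
  intro φ hφ hc
  have hg₁ : HasCompactSupport (Complex.ofRealCLM ∘ φ) := hc.comp_left rfl
  have hg₂ : ContDiff ℝ (⊤ : ℕ∞) (Complex.ofRealCLM ∘ φ) := by fun_prop
  set ψ : SchwartzMap ℝ ℂ := hg₁.toSchwartzMap hg₂ with hψ
  have hψ' : ∀ x, ψ x = (φ x : ℂ) := fun x => rfl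
  have h := congrArg (fun T : TemperedDistribution ℝ ℂ => T ψ)
    (Lp.fourier_toTemperedDistribution_eq (hm.toLp g))
  simp only [TemperedDistribution.fourier_apply, Lp.toTemperedDistribution_apply] at h
  have e1 : ∫ x, (𝓕 ψ) x • (hm.toLp g) x = ∫ x, 𝓕 (ψ : ℝ → ℂ) x • g x := by
    apply integral_congr_ae
    filter_upwards [hm.coeFn_toLp] with x hx
    rw [hx, SchwartzMap.fourier_coe]
  rw [e1, planch_flip ψ.integrable h1] at h
  simp only [hψ', Complex.coe_smul] at h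
  exact h

lemma planch_norm (F : Lp (α := ℝ) ℂ 2) : ∫ x, ‖F x‖ ^ 2 = ‖F‖ ^ 2 := by
  have h := L2.inner_def (𝕜 := ℂ) F F
  simp only [inner_self_eq_norm_sq_to_K] at h
  apply Complex.ofReal_injective
  rw [← integral_complex_ofReal]
  push_cast
  exact h.symm

theorem plancherel {g : ℝ → ℂ} (h1 : Integrable g) (h2 : Integrable fun u => ‖g u‖ ^ 2) :
    (Integrable fun ξ => ‖𝓕 g ξ‖ ^ 2) ∧ ∫ ξ, ‖𝓕 g ξ‖ ^ 2 = ∫ u, ‖g u‖ ^ 2 := by
  have hm : MemLp g 2 := (memLp_two_iff_integrable_sq_norm h1.1).2 h2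
  have hae := planch_ae h1 hm
  have hae2 : (fun ξ => ‖𝓕 g ξ‖ ^ 2) =ᵐ[volume]
      fun ξ => ‖(𝓕 (hm.toLp g) : Lp ℂ 2 (volume : Measure ℝ)) ξ‖ ^ 2 := by
    filter_upwards [hae] with ξ hξ
    rw [hξ]
  constructor
  · refine Integrable.congr ?_ hae2.symm
    exact (memLp_two_iff_integrable_sq_norm (Lp.aestronglyMeasurable _)).1 (Lp.memLp _)
  · rw [integral_congr_ae hae2, planch_norm, Lp.norm_fourier_eq, ← planch_norm]
    apply integral_congr_ae
    filter_upwards [hm.coeFn_toLp] with x hx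
    rw [hx]

lemma planch_eq (g : ℝ → ℂ) (x : ℝ) : 𝓕 g x = ∫ v : ℝ, g v * ep (-(2 * x * v)) := by
  rw [Real.fourier_real_eq_integral_exp_smul]
  congr 1; funext v
  rw [smul_eq_mul, mul_comm, ep]
  congr 2
  push_cast; ring

lemma planch_shift (k : ℝ → ℂ) (a x : ℝ) :
    ∫ v : ℝ, k (v - a) * ep (-(2 * x * v)) = ep (-(2 * x * a)) * 𝓕 k x := by
  rw [planch_eq, ← integral_const_mul,
    ← integral_add_right_eq_self (fun v : ℝ => k (v - a) * ep (-(2 * x * v))) a]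
  congr 1; funext v
  rw [add_sub_cancel_right, mul_left_comm, ← ep_add]
  congr 2
  push_cast; ring

lemma planch_int {k : ℝ → ℂ} (h1 : Integrable k) (x : ℝ) :
    Integrable fun v : ℝ => k v * ep (-(2 * x * v)) := by
  refine h1.norm.mono' (h1.1.mul (by fun_prop : Continuous fun v : ℝ =>
    ep (-(2 * x * v))).aestronglyMeasurable) (Eventually.of_forall fun v => ?_)
  have : ep (-(2 * x * v)) = ep ((-(2 * x * v) : ℝ) : ℂ) := by push_cast; rfl
  rw [norm_mul, this, norm_ep_real, mul_one]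

/-- convolution with a finite measure: the Fourier transform is multiplied by the trigonometric
polynomial -/
theorem conv_le {s : Finset ℤ} {e : ℤ → ℂ} {p B : ℝ} (hp : 0 < p)
    (hB : ∀ ξ : ℝ, ‖∑ q ∈ s, e q * ep (2 * ξ * q)‖ ≤ B) {k : ℝ → ℂ} (h1 : Integrable k)
    (h2 : Integrable fun u => ‖k u‖ ^ 2) :
    (Integrable fun u => ‖∑ q ∈ s, e q * k (u - q / p)‖ ^ 2) ∧
      ∫ u, ‖∑ q ∈ s, e q * k (u - q / p)‖ ^ 2 ≤ B ^ 2 * ∫ u, ‖k u‖ ^ 2 := by
  have hs1 : ∀ a : ℝ, Integrable fun u => k (u - a) := fun a => h1.comp_sub_right a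
  have hs2 : ∀ a : ℝ, MemLp (fun u => k (u - a)) 2 := fun a =>
    (memLp_two_iff_integrable_sq_norm (hs1 a).1).2 (h2.comp_sub_right a)
  have hK1 : Integrable fun u => ∑ q ∈ s, e q * k (u - q / p) :=
    integrable_finsetSum _ fun q _ => (hs1 _).const_mul _
  have hK2 : Integrable fun u => ‖∑ q ∈ s, e q * k (u - q / p)‖ ^ 2 :=
    (memLp_two_iff_integrable_sq_norm hK1.1).1
      (memLp_finsetSum _ fun q _ => (hs2 _).const_mul _)
  refine ⟨hK2, ?_⟩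
  obtain ⟨hF1, hF2⟩ := plancherel hK1 hK2
  obtain ⟨hk1, hk2⟩ := plancherel h1 h2
  rw [← hF2, ← hk2, ← integral_const_mul]
  refine integral_mono hF1 (hk1.const_mul _) fun x => ?_
  have e1 : 𝓕 (fun u => ∑ q ∈ s, e q * k (u - q / p)) x =
      (∑ q ∈ s, e q * ep (2 * ((-x / p : ℝ) : ℂ) * q)) * 𝓕 k x := by
    rw [planch_eq, Finset.sum_mul]
    simp only [Finset.sum_mul, mul_assoc (e _)]
    rw [integral_finsetSum _ fun q _ => (planch_int (hs1 _) x).const_mul _]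
    refine Finset.sum_congr rfl fun q _ => ?_
    rw [integral_const_mul, planch_shift]
    congr 3
    push_cast; ring
  have hb := hB (-x / p)
  show ‖𝓕 (fun u => ∑ q ∈ s, e q * k (u - q / p)) x‖ ^ 2 ≤ B ^ 2 * ‖𝓕 k x‖ ^ 2
  rw [e1, norm_mul, mul_pow]
  gcongr

lemma planch_cov {F : Type} [NormedAddCommGroup F] [NormedSpace ℝ F] (G : ℝ → F) :
    (Integrable G ↔ Integrable fun ν : ℝ => (1 / (2 * ν ^ 2)) • G (1 / (2 * ν))) ∧
      ∫ ζ, G ζ = ∫ ν : ℝ, (1 / (2 * ν ^ 2)) • G (1 / (2 * ν)) := by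
  have hs : MeasurableSet ({0}ᶜ : Set ℝ) := (measurableSet_singleton 0).compl
  have hd : ∀ ν ∈ ({0}ᶜ : Set ℝ), HasDerivWithinAt (fun ν : ℝ => 1 / (2 * ν))
      (-(1 / (2 * ν ^ 2))) ({0}ᶜ : Set ℝ) ν := by
    intro ν hν
    have h0 : ν ≠ 0 := hν
    have h := ((hasDerivAt_inv h0).const_mul (1 / 2 : ℝ))
    have e1 : (fun ν : ℝ => 1 / (2 * ν)) = fun y : ℝ => (1 / 2 : ℝ) * y⁻¹ := by
      funext y; rw [one_div, mul_inv, one_div]
    have e2 : -(1 / (2 * ν ^ 2)) = (1 / 2 : ℝ) * -(ν ^ 2)⁻¹ := by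
      rw [one_div, mul_inv, one_div, mul_neg]
    rw [e1, e2]
    exact h.hasDerivWithinAt
  have hi : InjOn (fun ν : ℝ => 1 / (2 * ν)) ({0}ᶜ : Set ℝ) := by
    intro a _ b _ hab
    simp only [one_div, inv_inj] at hab
    linarith
  have him : (fun ν : ℝ => 1 / (2 * ν)) '' ({0}ᶜ : Set ℝ) = {0}ᶜ := by
    ext y
    constructor
    · rintro ⟨ν, hν, rfl⟩
      have h0 : ν ≠ 0 := hν
      show 1 / (2 * ν) ≠ 0
      positivity
    · intro hy
      have h0 : y ≠ 0 := hy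
      refine ⟨1 / (2 * y), ?_, ?_⟩
      · show 1 / (2 * y) ≠ 0
        positivity
      · show 1 / (2 * (1 / (2 * y))) = y
        field_simp
  have habs : ∀ ν : ℝ, |-(1 / (2 * ν ^ 2))| = 1 / (2 * ν ^ 2) := fun ν => by
    rw [abs_neg, abs_of_nonneg (by positivity)]
  have A := integrableOn_image_iff_integrableOn_abs_deriv_smul hs hd hi G
  have B := integral_image_eq_integral_abs_deriv_smul hs hd hi G
  rw [him] at A B
  simp only [IntegrableOn, restrict_compl_singleton, habs] at A B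
  exact ⟨A, B⟩

/-- change of variables `ν = 1/(2ζ)` on both half lines
(`MeasureTheory.integral_comp_rpow_Ioi` with `p = -1`, or
`integral_image_eq_integral_abs_deriv_smul`) followed by `plancherel` -/
theorem inv_planch {Γ : ℝ → ℂ} (h1 : Integrable Γ) (h2 : Integrable fun ζ => ‖Γ ζ‖ ^ 2 * ζ ^ 2) :
    (Continuous fun x : ℝ => ∫ ζ : ℝ, Γ ζ * ep (-x / ζ)) ∧
    (Integrable fun x : ℝ => ‖∫ ζ : ℝ, Γ ζ * ep (-x / ζ)‖ ^ 2) ∧
      ∫ x : ℝ, ‖∫ ζ : ℝ, Γ ζ * ep (-x / ζ)‖ ^ 2 ≤ 2 * ∫ ζ, ‖Γ ζ‖ ^ 2 * ζ ^ 2 := by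
  set g : ℝ → ℂ := fun ν => (1 / (2 * ν ^ 2)) • Γ (1 / (2 * ν)) with hg
  have hg1 : Integrable g := (planch_cov Γ).1.1 h1
  have e2 : (fun ν => ‖g ν‖ ^ 2) = fun ν : ℝ =>
      (1 / (2 * ν ^ 2)) • (2 * (‖Γ (1 / (2 * ν))‖ ^ 2 * (1 / (2 * ν)) ^ 2)) := by
    funext ν
    simp only [hg, norm_smul, smul_eq_mul, mul_pow, Real.norm_eq_abs, sq_abs]
    rcases eq_or_ne ν 0 with rfl | h0
    · simp
    · field_simp
  obtain ⟨c1, c2⟩ := planch_cov fun ζ : ℝ => 2 * (‖Γ ζ‖ ^ 2 * ζ ^ 2)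
  have hg2 : Integrable fun ν => ‖g ν‖ ^ 2 := by
    rw [e2]; exact c1.1 (h2.const_mul 2)
  have e1 : (fun x : ℝ => ∫ ζ : ℝ, Γ ζ * ep (-x / ζ)) = 𝓕 g := by
    funext x
    rw [planch_eq, (planch_cov fun ζ : ℝ => Γ ζ * ep (-x / ζ)).2]
    congr 1; funext ν
    simp only [hg, smul_mul_assoc]
    congr 3
    push_cast
    rw [one_div, div_inv_eq_mul]
    ring
  obtain ⟨hF1, hF2⟩ := plancherel hg1 hg2
  have e3 : ∀ x : ℝ, ∫ ζ : ℝ, Γ ζ * ep (-x / ζ) = 𝓕 g x := fun x => congrFun e1 x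
  refine ⟨e1 ▸ planch_cont hg1, ?_, ?_⟩
  · simp only [e3]; exact hF1
  · simp only [e3]
    rw [hF2, e2, ← c2, integral_const_mul]

end

end Pool.Agent.MP_9f080f_an
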