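import Pool.Agent.MP_9f080f_an.Mg.PV
import Pool.Agent.MP_9f080f_an.Mg.Planch
import Pool.Agent.MP_9f080f_an.Mg.KBB

namespace Pool.Agent.MP_9f080f_an
open Complex MeasureTheory Set Filter Topology Metric
open scoped Real

noncomputable section

/-! The mean square of the comb convolved with `kk`. -/

theorem K_bound : ∃ C : ℝ, ∀ (H t₀ : ℝ) (L : ℕ), 1 / 2 ≤ H → 1 / 2 ≤ t₀ →
    ∫ t in t₀..t₀ + 1, ‖∑ i ∈ Finset.range L, ep (-3 / 4 * i) * kk H (t + i)‖ ^ 2 ≤
      C * (if t₀ ^ 2 ≤ 4 * H then 1 / t₀ ^ 2 + (1 + Real.log (1 + H)) / H else 1 / t₀ ^ 3) :=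
  ⟨20, fun _ _ L hH ht => kb_K L hH ht⟩

lemma kb_w_nonneg {H : ℝ} (hH : 1 / 2 ≤ H) (j : ℕ) : 0 ≤ kbw H j := by
  have hlog : 0 ≤ Real.log (1 + H) := Real.log_nonneg (by linarith)
  have hH0 : 0 < H := by linarith
  unfold kbw
  split_ifs <;> positivity

lemma kb_block {e : ℤ → ℂ} {β : ℕ} {H A B : ℝ} (b : ℤ) (ρ m j : ℕ) (hβ : 0 < β) (hH : 1 / 2 ≤ H)
    (hρ : ρ ≤ β)
    (hB : ∀ ξ : ℝ, ‖∑ i ∈ Finset.range ρ, e (b + i) * ep (2 * ξ * (b + i))‖ ≤ B)
    (hA : ∀ i < ρ, ((b + i : ℤ) : ℝ) / β ≤ A) :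
    ∫ s in ((j : ℝ) + 1 / 2)..((j : ℝ) + 1 / 2 + 1),
      ‖∑ i ∈ Finset.range ρ, e (b + i) * kbK H m (A + s - ((b + i : ℤ) : ℝ) / β)‖ ^ 2 ≤
      B ^ 2 * (40 * kbw H j) := by
  have hw := kb_w_nonneg hH j
  have hβ' : (0 : ℝ) < β := by exact_mod_cast hβ
  rcases ρ with _ | ρ
  · simp only [Finset.range_zero, Finset.sum_empty, norm_zero, ne_eq, OfNat.ofNat_ne_zero,
      not_false_eq_true, zero_pow, intervalIntegral.integral_zero]
    positivity
  set t₀ : ℝ := A - ((b + ρ : ℤ) : ℝ) / β + (j + 1 / 2) with ht₀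
  have hj : (j : ℝ) + 1 / 2 ≤ t₀ := by linarith [hA ρ (Nat.lt_succ_self ρ)]
  have hp : 0 < t₀ := lt_of_lt_of_le (by positivity) hj
  have co : ContinuousOn (kbK H m) (Icc t₀ (t₀ + 1 + 1)) := fun t ht =>
    (kbK_cont H m (hp.trans_le ht.1)).continuousWithinAt
  set k : ℝ → ℂ := (Icc t₀ (t₀ + 1 + 1)).indicator (kbK H m) with hk
  have hk2 : (fun u => ‖k u‖ ^ 2) = (Icc t₀ (t₀ + 1 + 1)).indicator fun u => ‖kbK H m u‖ ^ 2 := by
    funext u
    by_cases hu : u ∈ Icc t₀ (t₀ + 1 + 1)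
    · simp only [hk, indicator_of_mem hu]
    · simp [hk, indicator_of_notMem hu]
  have i1 : Integrable k := (integrable_indicator_iff measurableSet_Icc).mpr co.integrableOn_Icc
  have i2 : Integrable fun u => ‖k u‖ ^ 2 := by
    rw [hk2]
    exact (integrable_indicator_iff measurableSet_Icc).mpr (co.norm.pow 2).integrableOn_Icc
  have ii : ∀ a, 0 < a → IntervalIntegrable (fun t => ‖kbK H m t‖ ^ 2) volume a (a + 1) :=
    fun a ha => kb_ii ha (by linarith) fun s hs => (kbK_cont H m hs).norm.pow 2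
  have i3 : ∫ u, ‖k u‖ ^ 2 ≤ 40 * kbw H j := by
    rw [hk2, integral_indicator measurableSet_Icc, integral_Icc_eq_integral_Ioc,
      ← intervalIntegral.integral_of_le (by linarith),
      ← intervalIntegral.integral_add_adjacent_intervals (ii t₀ hp) (ii (t₀ + 1) (by linarith))]
    linarith [kb_Kw m j hH hj, kb_Kw m j hH (show (j : ℝ) + 1 / 2 ≤ t₀ + 1 by linarith)]
  have inj : Set.InjOn (fun i : ℕ => b + i) (Finset.range (ρ + 1) : Set ℕ) := fun x _ y _ h => by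
    simpa using h
  obtain ⟨c1, c2⟩ := conv_le (s := (Finset.range (ρ + 1)).image fun i : ℕ => b + i) (e := e)
    (B := B) hβ' (fun ξ => by
      rw [Finset.sum_image inj]
      simpa only [Int.cast_add, Int.cast_natCast] using hB ξ) i1 i2
  simp only [Finset.sum_image inj] at c1 c2
  set g : ℝ → ℝ := fun u =>
    ‖∑ i ∈ Finset.range (ρ + 1), e (b + i) * k (u - ((b + i : ℤ) : ℝ) / β)‖ ^ 2 with hg
  have e1 : ∫ s in ((j : ℝ) + 1 / 2)..((j : ℝ) + 1 / 2 + 1),
      ‖∑ i ∈ Finset.range (ρ + 1), e (b + i) * kbK H m (A + s - ((b + i : ℤ) : ℝ) / β)‖ ^ 2 =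
      ∫ s in ((j : ℝ) + 1 / 2)..((j : ℝ) + 1 / 2 + 1), g (A + s) := by
    refine intervalIntegral.integral_congr fun s hs => ?_
    rw [uIcc_of_le (by linarith)] at hs
    simp only [hg]
    congr 2
    refine Finset.sum_congr rfl fun i hi => ?_
    have hi' : (i : ℝ) ≤ ρ := by exact_mod_cast Nat.lt_succ_iff.mp (Finset.mem_range.mp hi)
    have hρ' : (ρ : ℝ) + 1 ≤ β := by exact_mod_cast hρ
    have e2 : A + s - ((b + i : ℤ) : ℝ) / β = t₀ + (s - (j + 1 / 2)) + ((ρ : ℝ) - i) / β := by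
      rw [ht₀]; push_cast; ring
    have h3 : 0 ≤ ((ρ : ℝ) - i) / β := div_nonneg (by linarith) hβ'.le
    have h4 : ((ρ : ℝ) - i) / β ≤ 1 := by
      rw [div_le_one hβ']; linarith [Nat.cast_nonneg (α := ℝ) i]
    rw [hk, indicator_of_mem]
    rw [e2]
    exact ⟨by linarith [hs.1], by linarith [hs.2]⟩
  rw [e1, intervalIntegral.integral_comp_add_left g, intervalIntegral.integral_of_le (by linarith)]
  refine (setIntegral_le_integral c1 (Eventually.of_forall fun u => by positivity)).trans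
    (c2.trans (mul_le_mul_of_nonneg_left i3 (sq_nonneg B)))

lemma kb_blocks {e : ℤ → ℂ} {β : ℕ} {W : ℝ} (hβ : 0 < β) (hT : Tw e β (3 / 8) W) (H u : ℝ) (b : ℤ)
    (m : ℕ) : ∑ i ∈ Finset.range (m * β), e (b + β - m * β + i) *
      kk H (u - ((b + β - m * β + i : ℤ) : ℝ) / β) =
      ∑ r ∈ Finset.range β, e (b + r) * kbK H m (u - ((b + r : ℤ) : ℝ) / β) := by
  have hβ' : (β : ℝ) ≠ 0 := by exact_mod_cast hβ.ne'
  have per : ∀ (m : ℕ) (a : ℤ), e (a - m * β) = ep (-3 / 4 * m) * e a := by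
    intro m
    induction m with
    | zero => simp
    | succ m ih =>
      intro a
      have h1 := hT.per (a - β)
      rw [sub_add_cancel] at h1
      rw [show a - ((m + 1 : ℕ) : ℤ) * β = (a - β) - m * β by push_cast; ring, ih, h1, ← mul_assoc,
        ← ep_add]
      congr 2
      push_cast; ring
  induction m with
  | zero => simp [kbK]
  | succ m ih =>
    rw [show (m + 1) * β = β + m * β by ring, Finset.sum_range_add]
    have e1 : ∀ i : ℕ, b + β - ((m + 1 : ℕ) : ℤ) * β + ((β + i : ℕ) : ℤ) = b + β - m * β + i := by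
      intro i; push_cast; ring
    simp only [e1]
    rw [ih, ← Finset.sum_add_distrib]
    refine Finset.sum_congr rfl fun r _ => ?_
    have e2 : b + β - ((m + 1 : ℕ) : ℤ) * β + r = (b + r) - m * β := by push_cast; ring
    have e3 : u - (((b + r) - m * β : ℤ) : ℝ) / β = u - ((b + r : ℤ) : ℝ) / β + m := by
      push_cast; field_simp; ring
    rw [e2, e3, per, kbK, kbK, Finset.sum_range_succ]
    ring

theorem main_L2 : ∃ C : ℝ, ∀ (e : ℤ → ℂ) (β : ℕ) (W H A : ℝ) (a₀ : ℤ) (L : ℕ), 0 < β → 1 / 2 ≤ H →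
    Tw e β (3 / 8) W → (∀ i < L, ((a₀ + i : ℤ) : ℝ) / β ≤ A) →
    IntegrableOn (fun s : ℝ => ‖∑ i ∈ Finset.range L,
      e (a₀ + i) * kk H (A + s - ((a₀ + i : ℤ) : ℝ) / β)‖ ^ 2 * (1 + s)) (Ioi (1 / 2)) ∧
    ∫ s in Ioi (1 / 2 : ℝ), ‖∑ i ∈ Finset.range L,
      e (a₀ + i) * kk H (A + s - ((a₀ + i : ℤ) : ℝ) / β)‖ ^ 2 * (1 + s) ≤
      C * (W * (1 + Real.log β)) ^ 2 * (1 + Real.log (1 + H)) := by
  obtain ⟨C, hC⟩ := pv_short
  refine ⟨19200 * C ^ 2, fun e β W H A a₀ L hβ hH hT hA => ?_⟩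
  have hβ' : (0 : ℝ) < β := by exact_mod_cast hβ
  set B := C * W * (1 + Real.log β) with hB
  set ρ := L % β with hρ
  set m := L / β with hm
  have hL : L = ρ + m * β := by rw [hρ, hm, mul_comm]; exact (Nat.mod_add_div L β).symm
  have hρβ : ρ ≤ β := (Nat.mod_lt L hβ).le
  set b : ℤ := a₀ + ρ + m * β - β with hb
  set β' : ℕ := if m = 0 then 0 else β with hβ''
  have hβ3 : β' ≤ β := by rw [hβ'']; split_ifs <;> omega
  have hA1 : ∀ i < ρ, ((a₀ + i : ℤ) : ℝ) / β ≤ A := fun i hi => hA i (by omega)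
  have hA2 : ∀ i < β', ((b + i : ℤ) : ℝ) / β ≤ A := by
    intro i hi
    rw [hβ''] at hi
    split_ifs at hi with h0
    · omega
    obtain ⟨m', hm'⟩ := Nat.exists_eq_succ_of_ne_zero h0
    have := hA (ρ + m' * β + i) (by rw [hL, hm', Nat.succ_mul]; omega)
    rwa [show a₀ + ((ρ + m' * β + i : ℕ) : ℤ) = b + i by rw [hb, hm']; push_cast; ring] at this
  set X : ℝ → ℂ := fun s => ∑ i ∈ Finset.range ρ,
    e (a₀ + i) * kbK H 1 (A + s - ((a₀ + i : ℤ) : ℝ) / β) with hX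
  set Y : ℝ → ℂ := fun s => ∑ i ∈ Finset.range β',
    e (b + i) * kbK H m (A + s - ((b + i : ℤ) : ℝ) / β) with hY
  have split : ∀ s, ∑ i ∈ Finset.range L,
      e (a₀ + i) * kk H (A + s - ((a₀ + i : ℤ) : ℝ) / β) = X s + Y s := by
    intro s
    rw [hL, Finset.sum_range_add]
    congr 1
    · simp [hX, kbK]
    · have e1 : ∀ i : ℕ, a₀ + ((ρ + i : ℕ) : ℤ) = b + β - m * β + i := by
        intro i; rw [hb]; push_cast; ring
      simp only [e1]
      rw [kb_blocks hβ hT]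
      simp only [hY, hβ'']
      split_ifs with h0
      · simp [h0, kbK]
      · rfl
  have cX : ∀ s, 0 < s → ContinuousAt X s := fun s hs =>
    tendsto_finsetSum _ fun i hi => (continuousAt_const.mul ((kbK_cont H 1
      (by linarith [hA1 i (Finset.mem_range.mp hi)])).comp
        (f := fun s => A + s - ((a₀ + i : ℤ) : ℝ) / β) (by fun_prop))).tendsto
  have cY : ∀ s, 0 < s → ContinuousAt Y s := fun s hs =>
    tendsto_finsetSum _ fun i hi => (continuousAt_const.mul ((kbK_cont H m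
      (by linarith [hA2 i (Finset.mem_range.mp hi)])).comp
        (f := fun s => A + s - ((b + i : ℤ) : ℝ) / β) (by fun_prop))).tendsto
  simp only [split]
  have cf : ∀ s, 0 < s → ContinuousAt (fun s => ‖X s + Y s‖ ^ 2 * (1 + s)) s := fun s hs =>
    (((cX s hs).add (cY s hs)).norm.pow 2).mul (by fun_prop)
  refine kb_Ioi (fun s hs => cf s (by linarith)) (fun s hs => by
    have : 0 ≤ 1 + s := by linarith
    positivity) fun N => ?_
  have pt : ∀ j : ℕ, ∫ s in ((j : ℝ) + 1 / 2)..((j : ℝ) + 1 / 2 + 1), ‖X s + Y s‖ ^ 2 * (1 + s) ≤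
      160 * B ^ 2 * (((j : ℝ) + 5 / 2) * kbw H j) := by
    intro j
    have hj : (0 : ℝ) < j + 1 / 2 := by positivity
    have hle : (j : ℝ) + 1 / 2 ≤ j + 1 / 2 + 1 := by linarith
    have iX : IntervalIntegrable (fun s => ‖X s‖ ^ 2) volume _ _ :=
      kb_ii hj hle fun s hs => (cX s hs).norm.pow 2
    have iY : IntervalIntegrable (fun s => ‖Y s‖ ^ 2) volume _ _ :=
      kb_ii hj hle fun s hs => (cY s hs).norm.pow 2
    have h1 := intervalIntegral.integral_mono_on hle (kb_ii hj hle cf)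
      ((iX.add iY).const_mul (2 * ((j : ℝ) + 5 / 2))) (fun s hs => by
        have h2 := kb_sq_add (X s) (Y s)
        have h3 : 1 + s ≤ (j : ℝ) + 5 / 2 := by linarith [hs.2]
        have h4 : 0 ≤ 1 + s := by linarith [hs.1]
        have h5 := mul_le_mul h2 h3 h4 (by positivity)
        linarith)
    rw [intervalIntegral.integral_const_mul, intervalIntegral.integral_add iX iY] at h1
    have b1 := kb_block (B := B) a₀ ρ 1 j hβ hH hρβ (fun ξ => hC e β _ W hβ hT ξ a₀ ρ hρβ) hA1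
    have b2 := kb_block (B := B) b β' m j hβ hH hβ3 (fun ξ => hC e β _ W hβ hT ξ b β' hβ3) hA2
    have h6 := mul_le_mul_of_nonneg_left (add_le_add b1 b2)
      (show 0 ≤ 2 * ((j : ℝ) + 5 / 2) by positivity)
    refine h1.trans (h6.trans (le_of_eq ?_))
    ring
  refine (Finset.sum_le_sum fun j _ => pt j).trans ?_
  rw [← Finset.mul_sum]
  refine (mul_le_mul_of_nonneg_left (kb_sum_w hH N) (by positivity)).trans (le_of_eq ?_)
  rw [hB]
  ring

end

end Pool.Agent.MP_9f080f_an
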