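import Pool.Agent.MP_9f080f_an.Mg.SalieA

namespace Pool.Agent.MP_9f080f_an
open Complex MeasureTheory Set Filter Topology Metric
open scoped Real

noncomputable section

/-! Salie type sums.
`wt`: prove by induction over coprime factorisations (`Nat.recOnPosPrimePosCoprime`,
`ZMod.chineseRemainder`; a primitive character of a product ring restricts to primitive characters)
that every `M ≥ 1` is `u² v³ g` with `‖TS‖ ≤ c(M) u v^(3/2) τ(g) M`, `c(M) = √2` if `M` is even and `1`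
otherwise (or any equivalent bookkeeping).  Odd prime `p`: `‖TS‖ ≤ 2p`: if `C = 0`,
`TS = ∑_r (p 1[A r² + B = 0] - 1)`; if `C ≠ 0` put `u = -C⁻¹`, `G(s) = ∑_r ψ(s r²)`; then
`G(A d) = ± G(u d)` with a sign independent of `d`, and `G(u d) ψ(C d⁻¹) = ∑_r ψ(u d r² + 2 r)`
(complete the square), so `TS = ± ∑_r ψ(2r) (p 1[u r² + B = 0] - 1) = ± p ∑_{u r² + B = 0} ψ(2r)`.
Prime powers `p^k`, `k ≥ 2`, and `2`: `‖∑_r ψ(a r²)‖² ≤ M * #{h | 2 h = 0} ≤ 2M` for a unit `a`, so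
`‖TS‖ ≤ M √(2M)`.  Average: `wt M := √2 ∑_{u² v³ e f = M} u v^(3/2)`, and
`∑_{M ≤ N} wt M / M ≤ √2 (∑_{u ≤ N} 1/u) (∑_v v^(-3/2)) (∑_{e ≤ N} 1/e) (∑_{f ≤ N} 1/f)`. -/

/-- the Salie type sum -/
def TS (M : ℕ) [NeZero M] (ψ : AddChar (ZMod M) ℂ) (A B C : ZMod M) : ℂ :=
  ∑ d : (ZMod M)ˣ, ∑ r : ZMod M, ψ (A * d * r ^ 2 + B * d + C * (d⁻¹ : (ZMod M)ˣ))

/-- `c * M` bounds the Salie type sums modulo `M` -/
def salieBd (M : ℕ) (c : ℝ) : Prop :=
  ∀ (_ : NeZero M) (ψ : AddChar (ZMod M) ℂ), ψ.IsPrimitive → ∀ A B C : ZMod M, IsUnit A →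
    ‖TS M ψ A B C‖ ≤ c * M

lemma salieBd.mono {M : ℕ} {c c' : ℝ} (h : salieBd M c) (hc : c ≤ c') : salieBd M c' :=
  fun i ψ hψ A B C hA => (h i ψ hψ A B C hA).trans (mul_le_mul_of_nonneg_right hc M.cast_nonneg)

lemma salieBd.mul {a b : ℕ} {c c' : ℝ} (hab : a.Coprime b) (h : salieBd a c) (h' : salieBd b c') :
    salieBd (a * b) (c * c') := by
  intro _ ψ hψ A B C hA
  have : NeZero a := ⟨left_ne_zero_of_mul (NeZero.ne (a * b))⟩
  have : NeZero b := ⟨right_ne_zero_of_mul (NeZero.ne (a * b))⟩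
  have e := salieT_prod (ZMod.chineseRemainder hab) ψ A B C
  have hA' := hA.map (ZMod.chineseRemainder hab)
  have h1 := h ‹_› _ (salieL_prim (ZMod.chineseRemainder hab) hψ) _ (ZMod.chineseRemainder hab B).1
    (ZMod.chineseRemainder hab C).1 (hA'.map (MonoidHom.fst _ _))
  have h2 := h' ‹_› _ (salieR_prim (ZMod.chineseRemainder hab) hψ) _ (ZMod.chineseRemainder hab B).2
    (ZMod.chineseRemainder hab C).2 (hA'.map (MonoidHom.snd _ _))
  change ‖salieT ψ A B C‖ ≤ _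
  rw [e, norm_mul]
  refine (mul_le_mul h1 h2 (norm_nonneg _) ((norm_nonneg _).trans h1)).trans (le_of_eq ?_)
  push_cast
  ring

lemma salie_sqrt_le {t M u v k : ℕ} (h : t * M ≤ u ^ 2 * v ^ 3 * k ^ 2) :
    Real.sqrt (t * M) ≤ u * (v : ℝ) ^ (3 / 2 : ℝ) * k := by
  refine Real.sqrt_le_iff.2 ⟨by positivity, ?_⟩
  rw [mul_pow, mul_pow, ← Real.rpow_natCast ((v : ℝ) ^ (3 / 2 : ℝ)),
    ← Real.rpow_mul v.cast_nonneg, show (3 / 2 : ℝ) * (2 : ℕ) = (3 : ℕ) by norm_num,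
    Real.rpow_natCast]
  exact_mod_cast h

lemma salieBd_two (M : ℕ) : salieBd M (Real.sqrt ((2 : ℕ) * M)) := by
  intro _ ψ hψ A B C hA
  have := salieT_le hψ hA B C (t := 2) (by
    refine le_trans (Finset.card_le_card (t := {0, ((M / 2 : ℕ) : ZMod M)}) fun x hx => ?_)
      Finset.card_le_two
    rw [Finset.mem_filter, two_mul, ← neg_eq_iff_add_eq_zero, ZMod.neg_eq_self_iff] at hx
    rw [Finset.mem_insert, Finset.mem_singleton]
    refine hx.2.imp_right fun h => ?_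
    rw [show M / 2 = x.val by omega, ZMod.natCast_zmod_val])
  rwa [ZMod.card] at this

lemma salieBd_odd {M : ℕ} (hM : Odd M) : salieBd M (Real.sqrt ((1 : ℕ) * M)) := by
  intro _ ψ hψ A B C hA
  have := salieT_le hψ hA B C (t := 1) (by
    refine le_trans (Finset.card_le_card (t := {0}) fun x hx => ?_) (Finset.card_singleton _).le
    rw [Finset.mem_filter, two_mul, ZMod.add_self_eq_zero_iff_eq_zero hM] at hx
    exact Finset.mem_singleton.2 hx.2)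
  rwa [ZMod.card] at this

lemma salieBd_prime {p : ℕ} (hp : p.Prime) (h2 : p ≠ 2) : salieBd p 2 := by
  intro _ ψ hψ A B C hA
  have : Fact p.Prime := ⟨hp⟩
  have := salieT_field (F := ZMod p) (by rw [ZMod.ringChar_zmod_n]; exact h2) hψ hA.ne_zero B C
  rwa [ZMod.card] at this

lemma salie_decomp (M : ℕ) : M ≠ 0 → ∃ u v g : ℕ, u ^ 2 * v ^ 3 * g = M ∧
    salieBd M (u * (v : ℝ) ^ (3 / 2 : ℝ) * g.divisors.card) := by
  induction M using Nat.recOnPosPrimePosCoprime with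
  | prime_pow p n hp hn =>
    intro _
    have hτ : p.divisors.card = 2 := by
      rw [hp.divisors, Finset.card_pair hp.one_lt.ne]
    by_cases h2 : p = 2
    · subst h2
      obtain ⟨j, rfl | rfl⟩ : ∃ j, n = 2 * j + 1 ∨ n = 2 * j + 2 := ⟨(n - 1) / 2, by omega⟩
      · refine ⟨2 ^ j, 1, 2, by ring, (salieBd_two _).mono (salie_sqrt_le ?_)⟩
        rw [hτ]
        exact le_of_eq (by ring)
      · refine ⟨2 ^ j, 1, 4, by ring, (salieBd_two _).mono (salie_sqrt_le ?_)⟩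
        rw [show (Nat.divisors 4).card = 3 by decide]
        calc 2 * 2 ^ (2 * j + 2) = (2 ^ j) ^ 2 * 8 := by ring
          _ ≤ (2 ^ j) ^ 2 * 9 := by gcongr; norm_num
          _ = _ := by ring
    · have ho : Odd (p ^ n) := (hp.odd_of_ne_two h2).pow
      obtain rfl | ⟨j, rfl | rfl⟩ : n = 1 ∨ ∃ j, n = 2 * j ∨ n = 2 * j + 3 := by
        by_cases h1 : n = 1
        · exact Or.inl h1
        · rcases Nat.even_or_odd' n with ⟨j, h | h⟩
          · exact Or.inr ⟨j, Or.inl h⟩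
          · exact Or.inr ⟨j - 1, Or.inr (by omega)⟩
      · refine ⟨1, 1, p, by ring, ?_⟩
        rw [pow_one, hτ]
        exact (salieBd_prime hp h2).mono (by simp)
      · refine ⟨p ^ j, 1, 1, by ring, (salieBd_odd ho).mono (salie_sqrt_le ?_)⟩
        rw [Nat.divisors_one, Finset.card_singleton]
        exact le_of_eq (by ring)
      · refine ⟨p ^ j, p, 1, by ring, (salieBd_odd ho).mono (salie_sqrt_le ?_)⟩
        rw [Nat.divisors_one, Finset.card_singleton]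
        exact le_of_eq (by ring)
  | zero => exact fun h => absurd rfl h
  | one => exact fun _ => ⟨1, 1, 1, rfl, (salieBd_odd odd_one).mono (salie_sqrt_le (by decide))⟩
  | coprime a b ha hb hab iha ihb =>
    intro _
    obtain ⟨u, v, g, h1, h2⟩ := iha (by omega)
    obtain ⟨u', v', g', h1', h2'⟩ := ihb (by omega)
    refine ⟨u * u', v * v', g * g', by rw [← h1, ← h1']; ring, (h2.mul hab h2').mono (le_of_eq ?_)⟩
    rw [Nat.Coprime.card_divisors_mul (Nat.Coprime.coprime_dvd_left (Dvd.intro_left _ h1)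
      (Nat.Coprime.coprime_dvd_right (Dvd.intro_left _ h1') hab))]
    push_cast
    rw [Real.mul_rpow v.cast_nonneg v'.cast_nonneg]
    ring

/-- the box of quadruples -/
def salieBox (N : ℕ) : Finset (ℕ × ℕ × ℕ × ℕ) :=
  Finset.Icc 1 N ×ˢ Finset.Icc 1 N ×ˢ Finset.Icc 1 N ×ˢ Finset.Icc 1 N

/-- the explicit weight -/
def salieW (M : ℕ) : ℝ :=
  ∑ t ∈ salieBox M with t.1 ^ 2 * t.2.1 ^ 3 * (t.2.2.1 * t.2.2.2) = M,
    t.1 * (t.2.1 : ℝ) ^ (3 / 2 : ℝ)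

lemma salieW_nonneg (M : ℕ) : 0 ≤ salieW M := Finset.sum_nonneg fun _ _ => by positivity

lemma salie_le_W {M u v g : ℕ} (hM : M ≠ 0) (h : u ^ 2 * v ^ 3 * g = M) :
    u * (v : ℝ) ^ (3 / 2 : ℝ) * g.divisors.card ≤ salieW M := by
  have hI : ∀ x : ℕ, x ∣ M → x ∈ Finset.Icc 1 M := fun x hx =>
    Finset.mem_Icc.2 ⟨Nat.pos_of_dvd_of_pos hx (Nat.pos_of_ne_zero hM),
      Nat.le_of_dvd (Nat.pos_of_ne_zero hM) hx⟩
  have hinj : InjOn (fun e => ((u, v, e, g / e) : ℕ × ℕ × ℕ × ℕ)) g.divisors :=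
    fun a _ b _ hab => congrArg (fun t => t.2.2.1) hab
  have e := Finset.sum_image (f := fun t : ℕ × ℕ × ℕ × ℕ => t.1 * (t.2.1 : ℝ) ^ (3 / 2 : ℝ)) hinj
  simp only [Finset.sum_const, nsmul_eq_mul] at e
  rw [mul_comm] at e
  rw [← e]
  refine Finset.sum_le_sum_of_subset_of_nonneg (fun t ht => ?_) fun _ _ _ => by positivity
  obtain ⟨a, ha, rfl⟩ := Finset.mem_image.1 ht
  have hag := Nat.dvd_of_mem_divisors ha
  have hg : g ∣ M := Dvd.intro_left _ h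
  simp only [Finset.mem_filter, salieBox, Finset.mem_product]
  refine ⟨⟨hI u ⟨u * v ^ 3 * g, by rw [← h]; ring⟩, hI v ⟨u ^ 2 * v ^ 2 * g, by rw [← h]; ring⟩,
    hI a (hag.trans hg), hI _ ((Nat.div_dvd_of_dvd hag).trans hg)⟩, ?_⟩
  rw [Nat.mul_div_cancel' hag, h]

lemma salie_sum_W (N : ℕ) : ∑ M ∈ Finset.Icc 1 N, salieW M / M ≤
    (∑ v ∈ Finset.Icc 1 N, ((v : ℝ) ^ (3 / 2 : ℝ))⁻¹) * (∑ u ∈ Finset.Icc 1 N, (u : ℝ)⁻¹) ^ 3 := by
  let w : ℕ × ℕ × ℕ × ℕ → ℝ := fun t =>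
    (t.1 : ℝ)⁻¹ * (((t.2.1 : ℝ) ^ (3 / 2 : ℝ))⁻¹ * ((t.2.2.1 : ℝ)⁻¹ * (t.2.2.2 : ℝ)⁻¹))
  have hw : ∀ t, 0 ≤ w t := fun t => by positivity
  calc _ ≤ ∑ M ∈ Finset.Icc 1 N,
        ∑ t ∈ salieBox N with t.1 ^ 2 * t.2.1 ^ 3 * (t.2.2.1 * t.2.2.2) = M, w t := by
        refine Finset.sum_le_sum fun M hM => ?_
        rw [salieW, Finset.sum_div]
        have hI := Finset.Icc_subset_Icc_right (a := 1) (Finset.mem_Icc.1 hM).2
        refine le_trans (le_of_eq (Finset.sum_congr rfl fun t ht => ?_))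
          (Finset.sum_le_sum_of_subset_of_nonneg (Finset.filter_subset_filter _
            (Finset.product_subset_product hI (Finset.product_subset_product hI
              (Finset.product_subset_product hI hI)))) fun t _ _ => hw t)
        obtain ⟨u, v, e, f⟩ := t
        simp only [Finset.mem_filter, salieBox, Finset.mem_product, Finset.mem_Icc] at ht
        obtain ⟨⟨hu, hv, he, hf⟩, rfl⟩ := ht
        have hu' : (0 : ℝ) < u := by exact_mod_cast hu.1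
        have hv' : (0 : ℝ) < v := by exact_mod_cast hv.1
        have he' : (0 : ℝ) < e := by exact_mod_cast he.1
        have hf' : (0 : ℝ) < f := by exact_mod_cast hf.1
        have h3 : (v : ℝ) ^ 3 = (v : ℝ) ^ (3 / 2 : ℝ) * (v : ℝ) ^ (3 / 2 : ℝ) := by
          rw [← Real.rpow_add hv', ← Real.rpow_natCast]
          norm_num
        have h4 : 0 < (v : ℝ) ^ (3 / 2 : ℝ) := by positivity
        simp only [w]
        push_cast
        rw [h3]
        field_simp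
    _ ≤ ∑ t ∈ salieBox N, w t := Finset.sum_fiberwise_le_sum_of_sum_fiber_nonneg
        fun _ _ => Finset.sum_nonneg fun t _ => hw t
    _ = _ := by
        simp only [salieBox, Finset.sum_product, w, ← Finset.mul_sum, ← Finset.sum_mul]
        ring

theorem exists_wt : ∃ wt : ℕ → ℝ, (∀ M, 1 ≤ wt M) ∧
    (∃ C : ℝ, ∀ N : ℕ, 2 ≤ N → ∑ M ∈ Finset.Icc 1 N, wt M / M ≤ C * Real.log N ^ 3) ∧
    ∀ (M : ℕ) [NeZero M] (ψ : AddChar (ZMod M) ℂ), ψ.IsPrimitive → ∀ A B C : ZMod M, IsUnit A →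
      ‖TS M ψ A B C‖ ≤ wt M * M := by
  refine ⟨fun M => 1 + salieW M, fun M => le_add_of_nonneg_right (salieW_nonneg M),
    ⟨27 * (1 + ∑' v : ℕ, ((v : ℝ) ^ (3 / 2 : ℝ))⁻¹), fun N hN => ?_⟩, fun M _ => ?_⟩
  · have h1 : ∑ u ∈ Finset.Icc 1 N, (u : ℝ)⁻¹ ≤ 1 + Real.log N := by
      have := harmonic_le_one_add_log N
      simpa only [harmonic_eq_sum_Icc, Rat.cast_sum, Rat.cast_inv, Rat.cast_natCast] using this
    have h2 : 1 / 2 ≤ Real.log N := by
      have : Real.log 2 ≤ Real.log N := Real.log_le_log two_pos (by exact_mod_cast hN)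
      linarith [Real.log_two_gt_d9]
    have h3 : ∑ v ∈ Finset.Icc 1 N, ((v : ℝ) ^ (3 / 2 : ℝ))⁻¹ ≤
        ∑' v : ℕ, ((v : ℝ) ^ (3 / 2 : ℝ))⁻¹ :=
      (Real.summable_nat_rpow_inv.2 (by norm_num)).sum_le_tsum _ fun _ _ => by positivity
    have h4 : ∑ u ∈ Finset.Icc 1 N, (u : ℝ)⁻¹ ≤ 3 * Real.log N := by linarith
    have h5 : 3 * Real.log N ≤ (3 * Real.log N) ^ 3 := le_self_pow₀ (by linarith) (by norm_num)
    have h6 : (∑ v ∈ Finset.Icc 1 N, ((v : ℝ) ^ (3 / 2 : ℝ))⁻¹) *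
        (∑ u ∈ Finset.Icc 1 N, (u : ℝ)⁻¹) ^ 3 ≤
        (∑' v : ℕ, ((v : ℝ) ^ (3 / 2 : ℝ))⁻¹) * (3 * Real.log N) ^ 3 := by
      gcongr
    simp only [add_div, Finset.sum_add_distrib, one_div]
    linarith [salie_sum_W N]
  · obtain ⟨u, v, g, h1, h2⟩ := salie_decomp M (NeZero.ne M)
    exact h2.mono ((salie_le_W (NeZero.ne M) h1).trans (le_add_of_nonneg_left zero_le_one)) ‹_›

/-- the arithmetic weight -/
def wt : ℕ → ℝ := exists_wt.choose

lemma one_le_wt (M : ℕ) : 1 ≤ wt M := exists_wt.choose_spec.1 M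

lemma sum_wt : ∃ C : ℝ, ∀ N : ℕ, 2 ≤ N → ∑ M ∈ Finset.Icc 1 N, wt M / M ≤ C * Real.log N ^ 3 :=
  exists_wt.choose_spec.2.1

lemma TS_le (M : ℕ) [NeZero M] (ψ : AddChar (ZMod M) ℂ) (h : ψ.IsPrimitive) (A B C : ZMod M)
    (hA : IsUnit A) : ‖TS M ψ A B C‖ ≤ wt M * M :=
  exists_wt.choose_spec.2.2 M ψ h A B C hA

end

end Pool.Agent.MP_9f080f_an
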