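import Pool.Agent.MP_9f080f_an.Mg.Theta
import Pool.Agent.MP_9f080f_an.Mg.Salie
import Pool.Agent.MP_9f080f_an.Mg.Contour
import Pool.Agent.MP_9f080f_an.Mg.KB

-- part MP_9f080f_an.MultA
section

namespace Pool.Agent.MP_9f080f_an
open Complex MeasureTheory Set Filter Topology Metric
open scoped Real

noncomputable section

/-! Poisson summation in residue classes and finite sums over residues. -/

lemma mult_term (n : ℤ) (z τ : ℂ) : jacobiTheta₂_term n z τ = ep (2 * n * z + n ^ 2 * τ) := by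
  rw [jacobiTheta₂_term, ep]; congr 1; ring

lemma mult_ep_congr {x y : ℂ} (k : ℤ) (h : x = y + 2 * k) : ep x = ep y := by
  rw [h, ep_add, ep_two_int, mul_one]

lemma mult_ep_even {x y : ℂ} {k : ℤ} (hk : Even k) (h : x = y + k) : ep x = ep y := by
  obtain ⟨j, rfl⟩ := hk
  exact mult_ep_congr j (by rw [h]; push_cast; ring)

lemma mult_split {f : ℤ → ℂ} (hf : Summable f) (c : ℕ) (hc : 0 < c) :
    ∑' k, f k = ∑ r ∈ Finset.range c, ∑' l : ℤ, f (l * c + r) := by
  have : NeZero c := ⟨hc.ne'⟩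
  let e : Fin c × ℤ ≃ ℤ := (Equiv.prodComm _ _).trans (Int.divModEquiv c).symm
  have he : ∀ p, e p = p.2 * c + (p.1 : ℕ) := fun p => rfl
  have hs : Summable (fun p => f (e p)) := (e.summable_iff (f := f)).2 hf
  rw [← e.tsum_eq f, hs.tsum_prod, tsum_fintype, Finset.sum_range]
  rfl

lemma mult_poisson (c : ℕ) (hc : 0 < c) (D : ℤ) (κ : ℂ)
    (hκ : ∀ l : ℤ, ep (l ^ 2 * c * D) = ep (2 * κ * l)) {ζ : ℂ} (hζ : 0 < ζ.im) :
    th3 (D / c - 1 / (c ^ 2 * ζ)) = rt ζ * ∑' m : ℤ, ep ((m + κ) ^ 2 * ζ) *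
      ∑ r ∈ Finset.range c, ep ((D * r ^ 2 - 2 * (m + κ) * r) / c) := by
  have hc0 : (c : ℂ) ≠ 0 := by exact_mod_cast hc.ne'
  have hz0 : ζ ≠ 0 := ne_of_im hζ
  have hσ : 0 < (-1 / ζ).im := im_neg_inv_pos hζ
  have him : 0 < (D / c - 1 / (c ^ 2 * ζ) : ℂ).im := by
    have e : (D / c - 1 / (c ^ 2 * ζ) : ℂ) = ((D / c : ℝ) : ℂ) + ((1 / c ^ 2 : ℝ) : ℂ) * (-1 / ζ) := by
      push_cast; field_simp; ring
    rw [e, add_im, ofReal_im, zero_add, im_ofReal_mul]
    have : (0 : ℝ) < c := by exact_mod_cast hc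
    positivity
  have hs := (hasSum_jacobiTheta₂_term 0 him).summable
  rw [th3, jacobiTheta₂, mult_split hs c hc]
  have h1 : ∀ r : ℕ, ∑' l : ℤ, jacobiTheta₂_term (l * c + r) 0 (D / c - 1 / (c ^ 2 * ζ)) =
      rt ζ * ∑' m : ℤ, ep ((m + κ) ^ 2 * ζ) * ep ((D * r ^ 2 - 2 * (m + κ) * r) / c) := by
    intro r
    have h2 : ∀ l : ℤ, jacobiTheta₂_term (l * c + r) 0 (D / c - 1 / (c ^ 2 * ζ)) =
        ep (r ^ 2 * (D / c - 1 / (c ^ 2 * ζ))) *
          jacobiTheta₂_term l ((κ * ζ - r / c) / ζ) (-1 / ζ) := by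
      intro l
      rw [mult_term, mult_term, ← ep_add]
      have e1 : (2 * ((l * c + r : ℤ) : ℂ) * 0 + ((l * c + r : ℤ) : ℂ) ^ 2 *
          (D / c - 1 / (c ^ 2 * ζ))) = (r ^ 2 * (D / c - 1 / (c ^ 2 * ζ)) +
            (-2 * l * r / (c * ζ) + l ^ 2 * (-1 / ζ)) + 2 * ((l * r * D : ℤ) : ℂ)) +
            l ^ 2 * c * D := by
        push_cast; field_simp; ring
      have e2 : (r ^ 2 * (D / c - 1 / (c ^ 2 * ζ)) + (2 * l * ((κ * ζ - r / c) / ζ) +
          l ^ 2 * (-1 / ζ)) : ℂ) = (r ^ 2 * (D / c - 1 / (c ^ 2 * ζ)) +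
            (-2 * l * r / (c * ζ) + l ^ 2 * (-1 / ζ))) + 2 * κ * l := by
        field_simp; ring
      rw [e1, e2, ep_add _ (l ^ 2 * c * D), ep_add _ (2 * κ * l), hκ, ep_add _ (2 * _),
        ep_two_int, mul_one]
    simp_rw [h2]
    rw [tsum_mul_left]
    have h3 := jacobiTheta₂_functional_equation (κ * ζ - r / c) ζ
    have h4 : jacobiTheta₂ ((κ * ζ - r / c) / ζ) (-1 / ζ) =
        rt ζ * ep ((κ * ζ - r / c) ^ 2 / ζ) * jacobiTheta₂ (κ * ζ - r / c) ζ := by
      have e : cexp (-π * I * (κ * ζ - r / c) ^ 2 / ζ) = (ep ((κ * ζ - r / c) ^ 2 / ζ))⁻¹ := by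
        rw [← ep_neg, ep]; congr 1; ring
      rw [h3, e]
      have := rt_ne hz0
      have h5 := ep_ne ((κ * ζ - r / c) ^ 2 / ζ)
      change _ = rt ζ * _ * (1 / rt ζ * _ * _)
      generalize ep ((κ * ζ - r / c) ^ 2 / ζ) = u at h5
      generalize jacobiTheta₂ ((κ * ζ - r / c) / ζ) (-1 / ζ) = v
      field_simp
    change _ * jacobiTheta₂ _ _ = _
    rw [h4, jacobiTheta₂, ← tsum_mul_left, ← tsum_mul_left, ← tsum_mul_left]
    refine tsum_congr fun m => ?_
    rw [mult_term, ← ep_add]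
    have e : ep ((m + κ) ^ 2 * ζ + (D * r ^ 2 - 2 * (m + κ) * r) / c) =
        ep (r ^ 2 * (D / c - 1 / (c ^ 2 * ζ))) * ep ((κ * ζ - r / c) ^ 2 / ζ) *
          ep (2 * m * (κ * ζ - r / c) + m ^ 2 * ζ) := by
      rw [← ep_add, ← ep_add]; congr 1; field_simp; ring
    rw [e]; ring
  simp_rw [h1]
  rw [← Finset.mul_sum]
  congr 1
  simp_rw [Finset.mul_sum]
  refine (Summable.tsum_finsetSum fun r _ => ?_).symm
  have h6 := (hasSum_jacobiTheta₂_term (κ * ζ - r / c) hζ).summable.mul_left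
    (ep (κ ^ 2 * ζ + (D * r ^ 2 - 2 * κ * r) / c))
  refine h6.congr fun m => ?_
  rw [mult_term, ← ep_add, ← ep_add]; congr 1; field_simp; ring

lemma mult_shift {f : ℤ → ℂ} {c : ℕ} (hf : ∀ r, f (r + c) = f r) (s : ℤ) :
    ∑ r ∈ Finset.range c, f (r + s) = ∑ r ∈ Finset.range c, f r := by
  have key : ∀ s : ℤ, ∑ r ∈ Finset.range c, f (r + (s + 1)) = ∑ r ∈ Finset.range c, f (r + s) := by
    intro s
    have h1 := Finset.sum_range_succ (fun r : ℕ => f (r + s)) c
    have h2 := Finset.sum_range_succ' (fun r : ℕ => f (r + s)) c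
    rw [h1, add_comm (c : ℤ) s, hf] at h2
    simp only [Nat.cast_zero, zero_add, add_left_inj] at h2
    rw [h2]
    refine Finset.sum_congr rfl fun r _ => ?_
    congr 1; push_cast; ring
  induction s using Int.induction_on with
  | zero => simp
  | succ i ih => rw [key, ih]
  | pred i ih => rw [← key, sub_add_cancel, ih]

lemma mult_sum_zmod (M : ℕ) [NeZero M] (f : ZMod M → ℂ) :
    ∑ r ∈ Finset.range M, f r = ∑ r, f r := by
  refine Finset.sum_nbij' (fun r => (r : ZMod M)) (fun x => x.val) (by simp)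
    (fun x _ => by simpa using ZMod.val_lt x) (fun r hr => ?_) (by simp) (by simp)
  exact ZMod.val_cast_of_lt (by simpa using hr)

lemma mult_psi (M : ℕ) [NeZero M] (j : ℤ) :
    ZMod.stdAddChar (j : ZMod M) = ep (2 * j / M) := by
  rw [ZMod.stdAddChar_coe, ep]; congr 1; ring

open Classical in
lemma mult_TS (M : ℕ) [NeZero M] (A B C : ZMod M) (f : ℕ → ℂ)
    (h0 : ∀ a : ℕ, ¬IsCoprime (a : ℤ) M → f a = 0)
    (h1 : ∀ a : ℕ, IsCoprime (a : ℤ) M → f a = ∑ r : ZMod M,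
      ZMod.stdAddChar (A * (a : ZMod M)⁻¹ * r ^ 2 + B * (a : ZMod M)⁻¹ + C * (a : ZMod M))) :
    ∑ a ∈ Finset.range M, f a = TS M ZMod.stdAddChar A B C := by
  let F : ZMod M → ℂ := fun a => if IsUnit a then
    ∑ r : ZMod M, ZMod.stdAddChar (A * a⁻¹ * r ^ 2 + B * a⁻¹ + C * a) else 0
  have hF : ∀ a : ℕ, f a = F a := by
    intro a
    have hu : IsUnit (a : ZMod M) ↔ IsCoprime (a : ℤ) M := by
      rw [isCoprime_comm, ← ZMod.coe_int_isUnit_iff_isCoprime, Int.cast_natCast]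
    by_cases h : IsCoprime (a : ℤ) M
    · rw [h1 a h]; simp only [F, if_pos (hu.2 h)]
    · rw [h0 a h]; simp only [F, if_neg (mt hu.1 h)]
  simp_rw [hF]
  rw [mult_sum_zmod M F, TS, ← Equiv.sum_comp (Equiv.inv (ZMod M)ˣ)]
  simp only [F]
  rw [← Finset.sum_filter]
  symm
  refine Finset.sum_nbij (fun u => (u : ZMod M)) (by simp) (fun u _ v _ h => Units.ext h)
    (fun x hx => ?_) (fun u _ => ?_)
  · obtain ⟨u, rfl⟩ : IsUnit x := by simpa using hx
    exact ⟨u, by simp, rfl⟩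
  · simp only [Equiv.inv_apply, inv_inv, ZMod.inv_coe_unit]

lemma mult_norm {M : ℕ} (hM : 0 < M) {x u : ℂ} {W : ℝ} (hu : ‖u‖ = 1) (hx : ‖x‖ ≤ W * M) :
    ‖u / (√M : ℝ) * x‖ ≤ W * √M := by
  have h0 : (0 : ℝ) < M := by exact_mod_cast hM
  have h1 : 0 < √(M : ℝ) := Real.sqrt_pos.2 h0
  rw [norm_mul, norm_div, hu, norm_real, Real.norm_of_nonneg h1.le, one_div, inv_mul_le_iff₀ h1]
  calc ‖x‖ ≤ W * M := hx
    _ = √M * (W * √M) := by
      rw [mul_left_comm, Real.mul_self_sqrt h0.le]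

end

end Pool.Agent.MP_9f080f_an

end

-- part MP_9f080f_an.MultB
section

namespace Pool.Agent.MP_9f080f_an
open Complex MeasureTheory Set Filter Topology Metric
open scoped Real

noncomputable section

/-! The theta multiplier in the frame of the cusp `∞`. -/

lemma mult_par (g : GT) : Even (g.a * g.b) ∧ Even (g.c * g.d) ∧ (Even g.c ↔ Even g.b) ∧
    (Even g.c ↔ Odd g.a) ∧ (Even g.c ↔ Odd g.d) := by
  have h := g.det; have h1 := g.p1; have h2 := g.p2
  have h3 : Odd (g.a * g.d - g.b * g.c) := by rw [h]; exact odd_one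
  simp only [Int.odd_add, Int.odd_sub, Int.odd_mul, ← Int.not_odd_iff_even] at *
  tauto

/-- the Gauss sum -/
def multG (c : ℕ) (d : ℤ) : ℂ := ∑ r ∈ Finset.range c, ep (-d * r ^ 2 / c)

lemma mult_top_law (c : ℕ) (hc : 0 < c) (g : GT) (hg : g.c = c) {τ : ℂ} (hτ : 0 < τ.im) :
    th3 τ = multG c g.d * rt (g.mob τ - g.a / c) * th3 (g.mob τ) := by
  have hc0 : (c : ℂ) ≠ 0 := by exact_mod_cast hc.ne'
  have hw := g.im_mob_pos hτ
  have hden := g.den_ne hτ
  have hdet : (g.a : ℂ) * g.d - g.b * c = 1 := by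
    have := g.det; rw [hg] at this; exact_mod_cast this
  have hcd : Even ((c : ℤ) * g.d) := hg ▸ (mult_par g).2.1
  have hab := (mult_par g).1
  rw [hg] at hden
  push_cast at hden
  have hz : g.mob τ - g.a / c = -1 / (c * (c * τ + g.d)) := by
    rw [GT.mob, hg]; push_cast
    rw [div_sub_div _ _ hden hc0, div_eq_div_iff (mul_ne_zero hden hc0) (mul_ne_zero hc0 hden)]
    linear_combination (-(c * (c * τ + g.d)) : ℂ) * hdet
  have hζ : 0 < (g.mob τ - g.a / c).im := by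
    have : ((g.a : ℂ) / c) = ((g.a / c : ℝ) : ℂ) := by push_cast; rfl
    rw [this, sub_im, ofReal_im, sub_zero]; exact hw
  have h1 := mult_poisson c hc (-g.d) 0 (fun l => by
    rw [mul_zero, zero_mul]
    exact mult_ep_even (k := -(l ^ 2 * (c * g.d))) (hcd.mul_left _).neg (by push_cast; ring)) hζ
  have e : (((-g.d : ℤ) : ℂ) / c - 1 / (c ^ 2 * (g.mob τ - g.a / c))) = τ := by
    rw [hz]; push_cast; field_simp; ring
  rw [e] at h1
  rw [h1, th3, jacobiTheta₂, mul_comm (multG c g.d), mul_assoc]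
  congr 1
  rw [← tsum_mul_left]
  refine tsum_congr fun m => ?_
  have h2 := mult_shift (f := fun r : ℤ => ep ((-g.d * r ^ 2 - 2 * m * r) / c)) (c := c)
    (fun r => mult_ep_even (k := -(2 * g.d * r) - c * g.d - 2 * m)
      (((even_two_mul _).neg.sub hcd).sub (even_two_mul _) |>.add (⟨0, rfl⟩ : Even (0 : ℤ))
        |> fun h => by simpa [mul_assoc] using h)
      (by push_cast; field_simp; ring)) (-(g.a * m))
  have h3 : ∑ r ∈ Finset.range c, ep ((((-g.d : ℤ) : ℂ) * r ^ 2 - 2 * (m + 0) * r) / c) =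
      multG c g.d * ep (g.a * m ^ 2 / c) := by
    rw [multG, Finset.sum_mul]
    simp only [Int.cast_natCast] at h2
    simp only [add_zero, Int.cast_neg]
    rw [← h2]
    refine Finset.sum_congr rfl fun r _ => ?_
    rw [← ep_add]
    refine mult_ep_even (k := 2 * (g.b * m * r) - g.a * g.b * m ^ 2)
      ((even_two_mul _).sub (hab.mul_right _)) ?_
    push_cast
    field_simp
    linear_combination (2 * m * r - g.a * m ^ 2 : ℂ) * hdet
  rw [h3, mult_term, mul_left_comm, ← ep_add]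
  congr 2
  ring

/-- the multiplier as a function of the lower right entry -/
def multE (n c : ℕ) (d : ℤ) : ℂ :=
  (if Even (c : ℤ) then 1 else -1) / (√c : ℝ) * ∑ r ∈ Finset.range c, ep ((-d * r ^ 2 + n * d) / c)

lemma multE_per (n c : ℕ) (hc : 0 < c) (d j : ℤ) : multE n c (c * (2 * j) + d) = multE n c d := by
  have hc0 : (c : ℂ) ≠ 0 := by exact_mod_cast hc.ne'
  rw [multE, multE]
  congr 1
  refine Finset.sum_congr rfl fun r _ => mult_ep_congr (j * (n - r ^ 2)) ?_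
  push_cast; field_simp; ring

open Classical in
/-- the multiplier as a function of the upper left entry -/
def multT (n c : ℕ) (a : ℤ) : ℂ := if Adm a c then multE n c (rep a c).d else 0

lemma multT_eq (n c : ℕ) (hc : 0 < c) (g : GT) (hg : g.c = c) :
    multT n c g.a = multE n c g.d := by
  have hA : Adm g.a c := hg ▸ g.adm
  obtain ⟨j, hj⟩ := GT.col_eq (g := g) (h := rep g.a c) (rep_a hA).symm (by rw [rep_c hA, hg])
  rw [multT, if_pos hA]
  conv_rhs => rw [hj]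
  simp only [GT.mul_d, GT.T_b, GT.T_d, mul_one, rep_c hA]
  rw [multE_per n c hc]

lemma multT_per (n c : ℕ) (hc : 0 < c) (a : ℤ) : multT n c (a + (2 * c : ℕ)) = multT n c a := by
  by_cases h : Adm a c
  · have h1 := multT_eq n c hc (rep a c) (rep_c h)
    have h2 := multT_eq n c hc (GT.T 1 * rep a c) (by simp [rep_c h])
    simp only [GT.mul_a, GT.T_a, GT.T_b, GT.mul_d, GT.T_c, GT.T_d, rep_a h, rep_c h, one_mul,
      mul_one, zero_mul, zero_add] at h1 h2
    push_cast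
    rw [h1, h2]
  · have h' : ¬Adm (a + (2 * c : ℕ)) c := fun h' => h ⟨by
      have := h'.1
      push_cast at this
      exact IsCoprime.of_add_mul_right_left this, by
      have := h'.2
      push_cast at this
      have e : a + c = a + 2 * c + c - 2 * c := by ring
      rw [e]; exact this.sub_even (even_two_mul _)⟩
    rw [multT, multT, if_neg h, if_neg h']

lemma multT_even (n c : ℕ) (hc : 0 < c) (he : Even (c : ℤ)) (m : ℤ) :
    ‖∑ a ∈ Finset.range (2 * c), multT n c a * ep (-2 * (m + (0 : ℝ)) * a / (2 * c : ℕ))‖ ≤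
      wt (2 * c) * √c := by
  have hc0 : (c : ℂ) ≠ 0 := by exact_mod_cast hc.ne'
  have : NeZero (2 * c) := ⟨by omega⟩
  have hs : (√c : ℝ) ≠ 0 := (Real.sqrt_pos.2 (by exact_mod_cast hc)).ne'
  have hs' : ((√c : ℝ) : ℂ) ≠ 0 := by exact_mod_cast hs
  have hiff : ∀ a : ℕ, Adm a c ↔ IsCoprime (a : ℤ) (2 * c : ℕ) := by
    intro a
    push_cast
    rw [Adm, IsCoprime.mul_right_iff, Int.isCoprime_two_right, Int.odd_add, and_comm]
    simp [he]
  have key := mult_TS (2 * c) (-1) n (-m)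
    (fun a => 2 * (√c : ℝ) * (multT n c a * ep (-2 * (m + (0 : ℝ)) * a / (2 * c : ℕ))))
    (fun a ha => by rw [multT, if_neg (mt (hiff a).1 ha)]; simp) (fun a ha => by
      have hA := (hiff a).2 ha
      set g := rep a c
      have ga : g.a = a := rep_a hA
      have gc : g.c = c := rep_c hA
      obtain ⟨b', hb⟩ : Even g.b := (mult_par g).2.2.1.1 (gc ▸ he)
      have hinv : ((a : ℕ) : ZMod (2 * c))⁻¹ = (g.d : ZMod (2 * c)) := by
        refine ZMod.inv_eq_of_mul_eq_one _ _ _ ?_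
        have h1 : (a : ℤ) * g.d = 1 + b' * (2 * c : ℕ) := by
          have := g.det; rw [ga, gc, hb] at this; push_cast; linear_combination this
        have h2 := congrArg (Int.cast : ℤ → ZMod (2 * c)) h1
        simpa only [Int.cast_mul, Int.cast_natCast, Int.cast_add, Int.cast_one, ZMod.natCast_self,
          mul_zero, add_zero] using h2
      rw [hinv, ← mult_sum_zmod, multT, if_pos hA, show rep a c = g from rfl, multE, if_pos he]
      have h3 : ∀ r : ℕ, ZMod.stdAddChar (-1 * (g.d : ZMod (2 * c)) * (r : ZMod (2 * c)) ^ 2 +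
          (n : ZMod (2 * c)) * (g.d : ZMod (2 * c)) + -(m : ZMod (2 * c)) * (a : ZMod (2 * c))) =
          ep ((-g.d * r ^ 2 + n * g.d) / c) * ep (-2 * (m + (0 : ℝ)) * a / (2 * c : ℕ)) := by
        intro r
        rw [← ep_add]
        have := mult_psi (2 * c) (-1 * g.d * r ^ 2 + n * g.d + -m * a)
        push_cast at this ⊢
        rw [this]; congr 1; field_simp; ring
      simp_rw [h3]
      rw [← Finset.sum_mul, two_mul c, Finset.sum_range_add]
      have h4 : ∀ r : ℕ, ep ((-g.d * ((c + r : ℕ) : ℂ) ^ 2 + n * g.d) / c) =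
          ep ((-g.d * r ^ 2 + n * g.d) / c) := fun r =>
        mult_ep_even (k := -(2 * (g.d * r)) - c * g.d) ((even_two_mul _).neg.sub (he.mul_right _))
          (by push_cast; field_simp; ring)
      simp_rw [h4]
      field_simp
      ring)
  rw [← Finset.mul_sum] at key
  have h5 := TS_le (2 * c) ZMod.stdAddChar (ZMod.isPrimitive_stdAddChar _) (-1) n (-m)
    isUnit_one.neg
  have h6 := mult_norm (M := c) hc (x := TS (2 * c) ZMod.stdAddChar (-1) n (-m) / 2) (u := 1)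
    (W := wt (2 * c)) (by simp) (by
      rw [norm_div, Complex.norm_two, div_le_iff₀ two_pos]
      push_cast at h5; linarith)
  rw [← key] at h6
  refine le_of_eq_of_le ?_ h6
  congr 1
  field_simp

lemma multT_odd (n c : ℕ) (hc : 0 < c) (ho : ¬Even (c : ℤ)) (m : ℤ) :
    ‖∑ a ∈ Finset.range (2 * c), multT n c a * ep (-2 * (m + (0 : ℝ)) * a / (2 * c : ℕ))‖ ≤
      wt c * √c := by
  have hc0 : (c : ℂ) ≠ 0 := by exact_mod_cast hc.ne'
  have : NeZero c := ⟨hc.ne'⟩
  have hs : (√c : ℝ) ≠ 0 := (Real.sqrt_pos.2 (by exact_mod_cast hc)).ne'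
  have hs' : ((√c : ℝ) : ℂ) ≠ 0 := by exact_mod_cast hs
  have ho' : Odd (c : ℤ) := Int.not_even_iff_odd.1 ho
  have h2c : IsCoprime (2 : ℤ) c := Int.isCoprime_two_left.2 ho'
  have hu : IsUnit (4 : ZMod c) := by
    have : IsCoprime (c : ℤ) (2 * 2) := (h2c.mul_left h2c).symm
    have := (ZMod.coe_int_isUnit_iff_isCoprime _ _).2 this
    norm_num at this
    exact this
  have h4 : (4 : ZMod c)⁻¹ * 4 = 1 := ZMod.inv_mul_of_unit _ hu
  have hu' : IsUnit (4 : ZMod c)⁻¹ := IsUnit.of_mul_eq_one _ h4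
  have hsplit : ∀ f : ℕ → ℂ, (∀ a, f (2 * a + 1) = 0) →
      ∑ a ∈ Finset.range (2 * c), f a = ∑ a ∈ Finset.range c, f (2 * a) := by
    intro f hf
    generalize c = k
    induction k with
    | zero => simp
    | succ k ih =>
      rw [show 2 * (k + 1) = 2 * k + 1 + 1 by ring, Finset.sum_range_succ, Finset.sum_range_succ,
        Finset.sum_range_succ, ih, hf, add_zero]
  rw [hsplit _ (fun a => by
    have : ¬Adm (2 * a + 1 : ℕ) c := fun h => by
      have := h.2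
      push_cast at this
      exact Int.not_even_iff_odd.2 this ((odd_two_mul_add_one _).add_odd ho')
    rw [multT, if_neg this, zero_mul])]
  have hiff : ∀ a : ℕ, Adm (2 * a : ℕ) c ↔ IsCoprime (a : ℤ) c := by
    intro a
    push_cast
    rw [Adm, IsCoprime.mul_left_iff]
    exact ⟨fun h => h.1.2, fun h => ⟨⟨h2c, h⟩, (even_two_mul _).add_odd ho'⟩⟩
  have key := mult_TS c (-4⁻¹) (n * 4⁻¹) (-m)
    (fun a => -(√c : ℝ) * (multT n c (2 * a : ℕ) *
      ep (-2 * (m + (0 : ℝ)) * (2 * a : ℕ) / (2 * c : ℕ))))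
    (fun a ha => by rw [multT, if_neg (mt (hiff a).1 ha)]; simp) (fun a ha => by
      have hA := (hiff a).2 ha
      set g := rep (2 * a : ℕ) c
      have ga : g.a = (2 * a : ℕ) := rep_a hA
      have gc : g.c = c := rep_c hA
      obtain ⟨d', hd⟩ : Even g.d :=
        Int.not_odd_iff_even.1 (mt (mult_par g).2.2.2.2.2 (gc ▸ ho))
      have hinv : ((a : ℕ) : ZMod c)⁻¹ = 4 * (d' : ZMod c) := by
        refine ZMod.inv_eq_of_mul_eq_one _ _ _ ?_
        have h1 : (a : ℤ) * (4 * d') = 1 + g.b * c := by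
          have := g.det; rw [ga, gc, hd] at this; push_cast at this; linear_combination this
        have h2 := congrArg (Int.cast : ℤ → ZMod c) h1
        simpa only [Int.cast_mul, Int.cast_natCast, Int.cast_add, Int.cast_one, ZMod.natCast_self,
          mul_zero, add_zero, Int.cast_ofNat] using h2
      rw [hinv, ← mult_sum_zmod, multT, if_pos hA, show rep (2 * a : ℕ) c = g from rfl, multE,
        if_neg ho]
      have h3 : ∀ r : ℕ, ZMod.stdAddChar (-4⁻¹ * (4 * (d' : ZMod c)) * (r : ZMod c) ^ 2 +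
          (n : ZMod c) * 4⁻¹ * (4 * (d' : ZMod c)) + -(m : ZMod c) * (a : ZMod c)) =
          ep ((-g.d * r ^ 2 + n * g.d) / c) *
            ep (-2 * (m + (0 : ℝ)) * (2 * a : ℕ) / (2 * c : ℕ)) := by
        intro r
        rw [← ep_add]
        have := mult_psi c (-d' * r ^ 2 + n * d' + -m * a)
        have e : (-4⁻¹ * (4 * (d' : ZMod c)) * (r : ZMod c) ^ 2 +
            (n : ZMod c) * 4⁻¹ * (4 * (d' : ZMod c)) + -(m : ZMod c) * (a : ZMod c)) =
            ((-d' * r ^ 2 + n * d' + -m * a : ℤ) : ZMod c) := by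
          push_cast
          linear_combination (-(d' : ZMod c) * r ^ 2 + n * d') * h4
        rw [e, this, hd]; congr 1; push_cast; field_simp; ring
      simp_rw [h3]
      rw [← Finset.sum_mul]
      field_simp)
  rw [← Finset.mul_sum] at key
  have h5 := TS_le c ZMod.stdAddChar (ZMod.isPrimitive_stdAddChar _) (-4⁻¹) (n * 4⁻¹) (-m) hu'.neg
  have h6 := mult_norm (M := c) hc (u := -1) (by simp) h5
  rw [← key] at h6
  refine le_of_eq_of_le ?_ h6
  congr 1
  field_simp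

theorem mult_top' (n c : ℕ) (hc : 0 < c) : ∃ e : ℤ → ℂ,
    Tw e (2 * c) 0 ((wt c + wt (2 * c)) * √c) ∧ (∀ a : ℤ, ¬Adm a c → e a = 0) ∧
    ∀ g : GT, g.c = c → ∀ τ : ℂ, 0 < τ.im →
      g.chi * th3 τ * ep (-n * τ) =
        e g.a * √c * rt (g.mob τ - g.a / c) * th3 (g.mob τ) * ep (-n * (τ + g.d / c)) := by
  have hc0 : (c : ℂ) ≠ 0 := by exact_mod_cast hc.ne'
  have hs : (√c : ℝ) ≠ 0 := (Real.sqrt_pos.2 (by exact_mod_cast hc)).ne'
  have hs' : ((√c : ℝ) : ℂ) ≠ 0 := by exact_mod_cast hs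
  refine ⟨multT n c, ⟨fun a => by rw [multT_per n c hc]; simp, fun m => ?_⟩,
    fun a ha => by rw [multT, if_neg ha], fun g hg τ hτ => ?_⟩
  · have h1 := one_le_wt c
    have h2 := one_le_wt (2 * c)
    have h3 := Real.sqrt_nonneg (c : ℝ)
    by_cases he : Even (c : ℤ)
    · exact (multT_even n c hc he m).trans (by nlinarith)
    · exact (multT_odd n c hc he m).trans (by nlinarith)
  · rw [multT_eq n c hc g hg, mult_top_law c hc g hg hτ, multE, GT.chi, hg]
    have h1 : ∑ r ∈ Finset.range c, ep ((-g.d * r ^ 2 + n * g.d) / c) =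
        multG c g.d * ep (n * g.d / c) := by
      rw [multG, Finset.sum_mul]
      refine Finset.sum_congr rfl fun r _ => ?_
      rw [← ep_add]; congr 1; ring
    have h2 : ep (-n * τ) = ep (n * g.d / c) * ep (-n * (τ + g.d / c)) := by
      rw [← ep_add]; congr 1; ring
    rw [h1, h2]
    generalize rt (g.mob τ - g.a / c) = u
    generalize ep (n * g.d / c) = v
    generalize ep (-n * (τ + g.d / c)) = w
    field_simp

end

end Pool.Agent.MP_9f080f_an

end

-- part MP_9f080f_an.MultC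
section

namespace Pool.Agent.MP_9f080f_an
open Complex MeasureTheory Set Filter Topology Metric
open scoped Real

noncomputable section

/-! The theta multiplier in the frame of the cusp `1`. -/

lemma mult_even_sq (r : ℤ) : Even (r ^ 2 - r) := by
  have := Int.even_mul_pred_self r
  rwa [show r * (r - 1) = r ^ 2 - r by ring] at this

lemma mult_cusp_law (β : ℕ) (hβ : Odd β) (g : GT) (hg : g.c - g.a = β) (δ : ℤ)
    (hδ : 2 * δ = g.b - g.d + β) {τ : ℂ} (hτ : 0 < τ.im) :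
    th3 τ = (∑ k ∈ Finset.range β, ep (2 * δ * k ^ 2 / β)) * ep (-g.c * β / 4) *
      rt (zw (g.mob τ) - g.c / β) * th2 (zw (g.mob τ)) := by
  have hc : 0 < β := hβ.pos
  have hc0 : (β : ℂ) ≠ 0 := by exact_mod_cast hc.ne'
  have hw := im_zw_pos (g.im_mob_pos hτ)
  have hden := g.den_ne hτ
  have hg' : (g.a : ℂ) = g.c - β := by
    have : g.a = g.c - β := by linarith
    exact_mod_cast this
  have hδ' : (g.b : ℂ) = 2 * δ + g.d - β := by
    have : g.b = 2 * δ + g.d - β := by linarith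
    exact_mod_cast this
  have hdet : (g.c - β : ℂ) * g.d - g.b * g.c = 1 := by
    rw [← hg']; exact_mod_cast g.det
  have hcd : Even (g.c * g.d) := by
    have h := g.det; have h1 := g.p1; have h2 := g.p2
    have h3 : Odd (g.a * g.d - g.b * g.c) := by rw [h]; exact odd_one
    simp only [Int.odd_add, Int.odd_sub, Int.odd_mul, ← Int.not_odd_iff_even] at *
    tauto
  have hden2 : (β : ℂ) * τ - (g.b - g.d) ≠ 0 := by
    intro h
    have := congrArg Complex.im h
    simp at this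
    rcases this with h | h
    · omega
    · linarith
  have hz0 : zw (g.mob τ) = (g.c * τ + g.d) / (β * τ - (g.b - g.d)) := by
    rw [zw, GT.mob, hg', one_sub_div hden, one_div_div]
    congr 1; ring
  have hz : zw (g.mob τ) - g.c / β = -1 / (β * (β * τ - (g.b - g.d))) := by
    rw [hz0, div_sub_div _ _ hden2 hc0,
      div_eq_div_iff (mul_ne_zero hden2 hc0) (mul_ne_zero hc0 hden2)]
    linear_combination (-(β * (β * τ - (g.b - g.d))) : ℂ) * hdet
  have hζ : 0 < (zw (g.mob τ) - g.c / β).im := by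
    have : ((g.c : ℂ) / β) = ((g.c / β : ℝ) : ℂ) := by push_cast; rfl
    rw [this, sub_im, ofReal_im, sub_zero]; exact hw
  obtain ⟨j, hj⟩ := hβ
  have hj' : (β : ℂ) = 2 * j + 1 := by exact_mod_cast hj
  have h1 := mult_poisson β hc (g.b - g.d) (1 / 2) (fun l =>
    mult_ep_even (k := 2 * (l ^ 2 * β * δ - l ^ 2 * (2 * j ^ 2 + 2 * j) - l) - (l ^ 2 - l))
      ((even_two_mul _).sub (mult_even_sq l)) (by push_cast; rw [hδ', hj']; ring)) hζ
  have e : (((g.b - g.d : ℤ) : ℂ) / β - 1 / (β ^ 2 * (zw (g.mob τ) - g.c / β))) = τ := by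
    rw [hz]; push_cast; field_simp; ring
  rw [e] at h1
  rw [h1, th2, jacobiTheta₂, mul_comm (_ * ep (-g.c * β / 4)), mul_assoc]
  congr 1
  rw [← tsum_mul_left, ← tsum_mul_left]
  refine tsum_congr fun m => ?_
  have h2 := mult_shift (f := fun r : ℤ => ep (2 * (δ * r ^ 2 - (m + j + 1) * r) / β)) (c := β)
    (fun r => mult_ep_congr (2 * δ * r + δ * β - (m + j + 1))
      (by push_cast; field_simp; ring)) (-(g.c * (m + j + 1)))
  have h3 : ∑ r ∈ Finset.range β,
      ep ((((g.b - g.d : ℤ) : ℂ) * r ^ 2 - 2 * (m + 1 / 2) * r) / β) =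
      (∑ k ∈ Finset.range β, ep (2 * δ * k ^ 2 / β)) * ep (-g.c * β / 4) *
        ep (g.c * (m + 1 / 2) ^ 2 / β) := by
    have h4 : ∀ r : ℕ, ep ((((g.b - g.d : ℤ) : ℂ) * r ^ 2 - 2 * (m + 1 / 2) * r) / β) =
        ep (2 * (δ * r ^ 2 - (m + j + 1) * r) / β) := fun r =>
      mult_ep_even (k := -((r : ℤ) ^ 2 - r)) (mult_even_sq r).neg (by
        push_cast
        rw [hδ']
        field_simp
        rw [hj']; ring)
    simp_rw [h4]
    simp only [Int.cast_natCast] at h2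
    rw [← h2, Finset.sum_mul, Finset.sum_mul]
    refine Finset.sum_congr rfl fun r _ => ?_
    rw [← ep_add, ← ep_add]
    have hev : Even (2 * (-((m + j + 1) * (g.c - g.d) * r) + g.c * (m + j + 1)) +
        (g.c ^ 2 - g.c) * (m + j + 1) ^ 2 - g.c * g.d * (m + j + 1) ^ 2 +
        g.c * ((m + j + 1) ^ 2 - (m + j + 1))) :=
      (((even_two_mul _).add ((mult_even_sq _).mul_right _)).sub (hcd.mul_right _)).add
        ((mult_even_sq _).mul_left _)
    refine mult_ep_even hev ?_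
    rw [hδ'] at hdet
    have hjj : (j : ℂ) = (β - 1) / 2 := by rw [hj']; ring
    push_cast
    rw [hjj]
    field_simp
    linear_combination (16 * (2 * m + β + 1) * r - 4 * g.c * (2 * m + β + 1) ^ 2 : ℂ) * hdet
  rw [h3, mult_term]
  have h5 : ep ((m + 1 / 2) ^ 2 * (zw (g.mob τ) - g.c / β)) * ep (g.c * (m + 1 / 2) ^ 2 / β) =
      ep (zw (g.mob τ) / 4) * ep (2 * m * (zw (g.mob τ) / 2) + m ^ 2 * zw (g.mob τ)) := by
    rw [← ep_add, ← ep_add]; congr 1; ring
  rw [← h5]; ring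

open Classical in
/-- the multiplier in the frame of the cusp `1` -/
def multC (n β : ℕ) [NeZero β] (q : ℤ) : ℂ :=
  if IsCoprime q β then ep (q + n - q * β / 4) / (√β : ℝ) * ∑ k : ZMod β,
    ZMod.stdAddChar (-2⁻¹ * (q : ZMod β)⁻¹ * k ^ 2 + (n : ZMod β) * 2⁻¹ * (q : ZMod β)⁻¹)
  else 0

theorem mult_cusp' (n β : ℕ) (hβ : Odd β) : ∃ e : ℤ → ℂ,
    Tw e β (3 / 8) (wt β * √β) ∧ (∀ q : ℤ, ¬IsCoprime q β → e q = 0) ∧
    ∀ g : GT, g.c - g.a = β → ∀ τ : ℂ, 0 < τ.im →
      g.chi * th3 τ * ep (-n * τ) =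
        e g.c * √β * rt (zw (g.mob τ) - g.c / β) * th2 (zw (g.mob τ)) *
          ep (-n * (τ - (g.b - g.d) / β)) := by
  have hc : 0 < β := hβ.pos
  have : NeZero β := ⟨hc.ne'⟩
  have hc0 : (β : ℂ) ≠ 0 := by exact_mod_cast hc.ne'
  have hs : (√β : ℝ) ≠ 0 := (Real.sqrt_pos.2 (by exact_mod_cast hc)).ne'
  have hs' : ((√β : ℝ) : ℂ) ≠ 0 := by exact_mod_cast hs
  have hu : IsUnit (2 : ZMod β) := by
    have : IsCoprime (β : ℤ) 2 := Int.isCoprime_two_right.2 (by exact_mod_cast hβ)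
    have := (ZMod.coe_int_isUnit_iff_isCoprime _ _).2 this
    simpa using this
  have h2 : (2 : ZMod β)⁻¹ * 2 = 1 := ZMod.inv_mul_of_unit _ hu
  have hu' : IsUnit (2 : ZMod β)⁻¹ := IsUnit.of_mul_eq_one _ h2
  obtain ⟨j, hj⟩ := id hβ
  have hj' : (β : ℂ) = 2 * j + 1 := by exact_mod_cast hj
  obtain ⟨t, ht⟩ := mult_even_sq j
  have ht' : (j : ℂ) ^ 2 - j = t + t := by exact_mod_cast ht
  refine ⟨multC n β, ⟨fun q => ?_, fun m => ?_⟩, fun q hq => by rw [multC, if_neg hq],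
    fun g hg τ hτ => ?_⟩
  · have hiff : IsCoprime (q + β) β ↔ IsCoprime q β := by
      have := IsCoprime.add_mul_right_left_iff (x := q) (y := (β : ℤ)) (z := 1)
      rwa [one_mul] at this
    by_cases hq : IsCoprime q β
    · rw [multC, multC, if_pos hq, if_pos (hiff.2 hq)]
      have e1 : ((q + β : ℤ) : ZMod β) = q := by simp
      have e2 : ep (((q + β : ℤ) : ℂ) + n - ((q + β : ℤ) : ℂ) * β / 4) =
          ep (2 * ((3 / 8 : ℝ) : ℂ)) * ep (q + n - q * β / 4) := by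
        rw [← ep_add]
        refine mult_ep_congr (-t) ?_
        push_cast
        rw [hj']
        linear_combination (-1 : ℂ) * ht'
      rw [e1, e2]; ring
    · rw [multC, multC, if_neg hq, if_neg (mt hiff.1 hq), mul_zero]
  · have key := mult_TS β (-2⁻¹) (n * 2⁻¹) (-(t + m))
      (fun a => (√β : ℝ) / ep n * (multC n β a * ep (-2 * (m + (3 / 8 : ℝ)) * a / β)))
      (fun a ha => by rw [multC, if_neg ha]; simp) (fun a ha => by
        rw [multC, if_pos ha]
        simp only [Int.cast_natCast, AddChar.map_add_eq_mul]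
        have e1 : ZMod.stdAddChar (-((t : ZMod β) + (m : ZMod β)) * (a : ZMod β)) =
            ep (a - a * β / 4) * ep (-2 * (m + (3 / 8 : ℝ)) * a / β) := by
          have := mult_psi β (-(t + m) * a)
          push_cast at this ⊢
          rw [this, ← ep_add]
          congr 1
          field_simp
          rw [hj']
          linear_combination (32 * a : ℂ) * ht'
        have e2 : ep (a + n - a * β / 4) = ep n * ep (a - a * β / 4) := by
          rw [← ep_add]; congr 1; ring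
        rw [e1, e2, ← Finset.sum_mul]
        have := ep_ne n
        generalize ep (a - a * β / 4) = u
        generalize ep (-2 * (m + (3 / 8 : ℝ)) * a / β) = v
        simp only [← Finset.sum_mul]
        generalize ∑ i : ZMod β, ZMod.stdAddChar (-2⁻¹ * (a : ZMod β)⁻¹ * i ^ 2) = w
        field_simp)
    rw [← Finset.mul_sum] at key
    have h5 := TS_le β ZMod.stdAddChar (ZMod.isPrimitive_stdAddChar _) (-2⁻¹) (n * 2⁻¹)
      (-(t + m)) hu'.neg
    have h6 := mult_norm (M := β) hc (u := ep n) (by simpa using norm_ep_real n) h5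
    rw [← key] at h6
    refine le_of_eq_of_le ?_ h6
    congr 1
    have := ep_ne n
    generalize ∑ a ∈ Finset.range β, multC n β a * ep (-2 * (m + (3 / 8 : ℝ)) * a / β) = x
    field_simp
  · have hdet : g.c * -(g.b - g.d) - g.d * β = 1 := by rw [← hg]; linear_combination g.det
    have hcop : IsCoprime g.c β := ⟨-(g.b - g.d), -g.d, by linear_combination hdet⟩
    obtain ⟨δ, hδ⟩ : Even (g.b - g.d + β) := by
      have h1 : Odd (g.b - g.d) := by
        have e : g.b - g.d = g.b + g.d - 2 * g.d := by ring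
        rw [e]; exact g.p2.sub_even (even_two_mul _)
      exact h1.add_odd (by exact_mod_cast hβ)
    have hδ' : 2 * δ = g.b - g.d + β := by linarith
    have hδc : (g.b - g.d : ℂ) = 2 * δ - β := by
      have : g.b - g.d = 2 * δ - β := by linarith
      exact_mod_cast this
    have hinv : (g.c : ZMod β)⁻¹ = -(2 * (δ : ZMod β)) := by
      refine ZMod.inv_eq_of_mul_eq_one _ _ _ ?_
      have h1 : g.c * -(2 * δ) = 1 + (g.d - g.c) * β := by rw [hδ']; linear_combination hdet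
      have h3 := congrArg (Int.cast : ℤ → ZMod β) h1
      simpa only [Int.cast_mul, Int.cast_natCast, Int.cast_add, Int.cast_one, ZMod.natCast_self,
        mul_zero, add_zero, Int.cast_ofNat, Int.cast_neg] using h3
    rw [mult_cusp_law β hβ g hg δ hδ' hτ, multC, if_pos hcop, hinv, ← mult_sum_zmod]
    have h3 : ∀ k : ℕ, ZMod.stdAddChar (-2⁻¹ * -(2 * (δ : ZMod β)) * (k : ZMod β) ^ 2 +
        (n : ZMod β) * 2⁻¹ * -(2 * (δ : ZMod β))) =
        ep (2 * δ * k ^ 2 / β) * ep (-(2 * n * δ / β)) := by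
      intro k
      have e : (-2⁻¹ * -(2 * (δ : ZMod β)) * (k : ZMod β) ^ 2 +
          (n : ZMod β) * 2⁻¹ * -(2 * (δ : ZMod β))) = ((δ * k ^ 2 - n * δ : ℤ) : ZMod β) := by
        push_cast
        linear_combination ((δ : ZMod β) * k ^ 2 - n * δ) * h2
      rw [e, mult_psi, ← ep_add]; congr 1; push_cast; ring
    simp_rw [h3]
    rw [← Finset.sum_mul]
    have h4 : g.chi = ep g.c := by
      rw [GT.chi]
      split_ifs with h
      · exact (ep_zero.symm.trans (mult_ep_even h (zero_add _).symm).symm)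
      · obtain ⟨k, hk⟩ := Int.not_even_iff_odd.1 h
        rw [← ep_one]
        exact (mult_ep_congr k (by rw [hk]; push_cast; ring)).symm
    have h5 : ep g.c * ep (-g.c * β / 4) * ep (-n * τ) = ep (g.c + n - g.c * β / 4) *
        ep (-(2 * n * δ / β)) * ep (-n * (τ - (g.b - g.d) / β)) := by
      rw [← ep_add, ← ep_add, ← ep_add, ← ep_add, hδc]
      congr 1
      field_simp
      ring
    rw [h4]
    generalize rt (zw (g.mob τ) - g.c / β) = u
    generalize th2 (zw (g.mob τ)) = v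
    generalize ∑ k ∈ Finset.range β, ep (2 * δ * k ^ 2 / β) = w
    calc _ = (ep g.c * ep (-g.c * β / 4) * ep (-n * τ)) * (w * u * v) := by ring
      _ = _ := by
        rw [h5]
        generalize ep (g.c + n - g.c * β / 4) = x
        generalize ep (-(2 * n * δ / β)) = y
        generalize ep (-n * (τ - (g.b - g.d) / β)) = z
        field_simp

end

end Pool.Agent.MP_9f080f_an

end

-- part MP_9f080f_an.Mult
section

namespace Pool.Agent.MP_9f080f_an
open Complex MeasureTheory Set Filter Topology Metric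
open scoped Real

noncomputable section

/-! The theta multiplier and its Fourier coefficients.
Key lemma (Poisson, from `jacobiTheta₂_functional_equation`): for `γ(u) = ep (κ') ^ ..`; concretely, if
`G : ℤ → ℂ` satisfies `G (r + c) = ep (2κ) G r` with `κ ∈ {0, 1/2}` and `ζ` is in the upper half plane then
`∑_k G k ep (-k²/(c² ζ)) = rt ζ ∑_m ep ((m+κ)² ζ) ∑_{r mod c} G r ep (-2 (m+κ) r / c)`.
Top: `τ = -d/c - 1/(c² (w - a/c))`, `w = g.mob τ`, `G k = ep (-d k²/c)`, completing the square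
(`r ↦ r + a m`-type shift) gives `th3 τ = (∑_{r<c} ep (-d r²/c)) rt (w - a/c) th3 w`; so
`e a = chi * (∑_{r<c} ep (-d r²/c)) / √c * ep (n d / c)`, where `d` is determined mod `2c` by `a`.
Fourier coefficient: for odd `c` write `a = 2a'`, `d = 2d'`, get `TS c`; for even `c`, `a d ≡ 1 mod 2c` and
one gets `TS (2c) / 2` (`ZMod.stdAddChar`, `ZMod.isPrimitive_stdAddChar`).
Cusp: `β = c - a`, `q = c`, `a' = b - d` is odd with `a' q ≡ -1 mod β`,
`τ = a'/β - 1/(β² (z - q/β))`, `z = zw (g.mob τ)`, `G k = ep (a' k²/β)` is antiperiodic mod `β`, and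
`th3 τ = G_β ep (-qβ/4) rt (z - q/β) th2 z` with `G_β = ∑_{k mod β} e(δ k²/β)`, `2δ ≡ a' mod β`;
`e q = (-1)^(q+n) ep (-qβ/4) β^(-1/2) ∑_k e(δ (k² - n)/β)`; the twist `ep (3/4)` and the Fourier bound
`TS β ψ 1 (-n) C` follow (`4β - β² - 3 ≡ 0 mod 8`). -/

theorem mult_top (n c : ℕ) (hc : 0 < c) : ∃ e : ℤ → ℂ,
    Tw e (2 * c) 0 ((wt c + wt (2 * c)) * √c) ∧ (∀ a : ℤ, ¬Adm a c → e a = 0) ∧
    ∀ g : GT, g.c = c → ∀ τ : ℂ, 0 < τ.im →
      g.chi * th3 τ * ep (-n * τ) =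
        e g.a * √c * rt (g.mob τ - g.a / c) * th3 (g.mob τ) * ep (-n * (τ + g.d / c)) :=
  mult_top' n c hc

theorem mult_cusp (n β : ℕ) (hβ : Odd β) : ∃ e : ℤ → ℂ,
    Tw e β (3 / 8) (wt β * √β) ∧ (∀ q : ℤ, ¬IsCoprime q β → e q = 0) ∧
    ∀ g : GT, g.c - g.a = β → ∀ τ : ℂ, 0 < τ.im →
      g.chi * th3 τ * ep (-n * τ) =
        e g.c * √β * rt (zw (g.mob τ) - g.c / β) * th2 (zw (g.mob τ)) *
          ep (-n * (τ - (g.b - g.d) / β)) :=
  mult_cusp' n β hβ

/-- coefficients in the frame of the cusp `∞` -/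
def eT (n c : ℕ) : ℤ → ℂ := if h : 0 < c then (mult_top n c h).choose else 0

/-- coefficients in the frame of the cusp `1` -/
def eC (n β : ℕ) : ℤ → ℂ := if h : Odd β then (mult_cusp n β h).choose else 0

lemma eT_spec (n : ℕ) {c : ℕ} (hc : 0 < c) :
    Tw (eT n c) (2 * c) 0 ((wt c + wt (2 * c)) * √c) ∧ (∀ a : ℤ, ¬Adm a c → eT n c a = 0) ∧
    ∀ g : GT, g.c = c → ∀ τ : ℂ, 0 < τ.im →
      g.chi * th3 τ * ep (-n * τ) =
        eT n c g.a * √c * rt (g.mob τ - g.a / c) * th3 (g.mob τ) * ep (-n * (τ + g.d / c)) := by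
  rw [eT, dif_pos hc]; exact (mult_top n c hc).choose_spec

lemma eC_spec (n : ℕ) {β : ℕ} (hβ : Odd β) :
    Tw (eC n β) β (3 / 8) (wt β * √β) ∧ (∀ q : ℤ, ¬IsCoprime q β → eC n β q = 0) ∧
    ∀ g : GT, g.c - g.a = β → ∀ τ : ℂ, 0 < τ.im →
      g.chi * th3 τ * ep (-n * τ) =
        eC n β g.c * √β * rt (zw (g.mob τ) - g.c / β) * th2 (zw (g.mob τ)) *
          ep (-n * (τ - (g.b - g.d) / β)) := by
  rw [eC, dif_pos hβ]; exact (mult_cusp n β hβ).choose_spec

end

end Pool.Agent.MP_9f080f_an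

end

-- part MP_9f080f_an.Terms
section

namespace Pool.Agent.MP_9f080f_an
open Complex MeasureTheory Set Filter Topology Metric
open scoped Real

noncomputable section

/-! The terms of the cocycle part. -/

/-- the integrand on the vertical line attached to the cusp `q/β` -/
def fC (x : ℝ) (n β : ℕ) (q : ℤ) (η : ℝ) : ℂ :=
  eC n β q * (√β / β ^ 2) * phi x (ln η) * kc (n / β ^ 2) (ln η - q / β) * I

/-- odd denominators -/
def BS (n : ℕ) : Finset ℕ := (Finset.Icc 1 n).filter Odd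

/-- numerators of the cusps whose closed horoball meets the vertical line -/
def QS (n β : ℕ) : Finset ℤ := (Finset.Icc (-n : ℤ) n).filter fun q : ℤ => (β : ℤ) * |2 * q - β| ≤ n

/-- the main term -/
def MT (x : ℝ) (n : ℕ) : ℂ :=
  1 / 2 * ∑ β ∈ BS n, ∑ q ∈ (QS n β).filter (fun q : ℤ => q ≤ 0 ∨ (β : ℤ) < q),
    ∫ η in Ioi (0 : ℝ), fC x n β q η

/-- upper part of the line, outside the horoballs -/
def JU (x : ℝ) (n : ℕ) : ℂ :=
  1 / 2 * ∑ β ∈ (BS n).filter (fun β => β ^ 2 ≤ 2 * n), ∑ q ∈ QS n β,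
    ∫ η in Ioi (1 / 2 : ℝ),
      if η ^ 2 + ((q : ℝ) / β - 1 / 2) ^ 2 < n / β ^ 2 * η then 0 else fC x n β q η

/-- lower part of the line, far cusps -/
def JL (x : ℝ) (n : ℕ) : ℂ :=
  1 / 2 * ∑ β ∈ BS n, ∑ q ∈ (QS n β).filter (fun q : ℤ => 2 * (n : ℤ) < (2 * q - β) ^ 2),
    ∫ η in Ioc (0 : ℝ) (1 / 2), fC x n β q η

lemma hasDerivAt_kc (H : ℝ) {z : ℂ} (hz : 0 ≤ z.im) (h0 : z ≠ 0) :
    HasDerivAt (kc H) (kc H z * (-3 / (2 * z) - π * I * H / z ^ 2)) z := by
  have h1 := hasDerivAt_rt hz h0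
  have h2 : HasDerivAt (fun w : ℂ => w ^ 2) (2 * z) z := by
    simpa using hasDerivAt_pow 2 z
  have h3 : HasDerivAt (fun w : ℂ => (H : ℂ) / w) (-(H : ℂ) / z ^ 2) z := by
    have := (hasDerivAt_const z (H : ℂ)).div (hasDerivAt_id z) h0
    simp only [id, zero_mul, mul_one, zero_sub] at this
    exact this
  have h4 := (hasDerivAt_ep ((H : ℂ) / z)).comp z h3
  have h5 := (h1.div h2 (pow_ne_zero 2 h0)).mul h4
  have e : kc H z * (-3 / (2 * z) - π * I * H / z ^ 2) =
      (rt z / (2 * z) * z ^ 2 - rt z * (2 * z)) / (z ^ 2) ^ 2 * ep (H / z) +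
        rt z / z ^ 2 * (π * I * ep (H / z) * (-(H : ℂ) / z ^ 2)) := by
    rw [kc]; field_simp; ring
  rw [e]
  exact h5

lemma terms_norm_kc (H : ℝ) {z : ℂ} (h0 : z ≠ 0) :
    ‖kc H z‖ = Real.exp (π * H * z.im / normSq z) / (‖z‖ * √‖z‖) := by
  have hz : 0 < ‖z‖ := norm_pos_iff.2 h0
  have hs : 0 < √‖z‖ := Real.sqrt_pos.2 hz
  have e : -π * ((H : ℂ) / z).im = π * H * z.im / normSq z := by
    simp [div_eq_mul_inv, Complex.inv_im]; ring
  rw [kc, norm_mul, norm_div, norm_rt, norm_ep, norm_pow, e]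
  have h2 := Real.mul_self_sqrt hz.le
  field_simp
  rw [Real.sq_sqrt hz.le]

lemma terms_rpow {r : ℝ} (hr : 0 < r) : r ^ (-3 / 2 : ℝ) = 1 / (r * √r) := by
  rw [Real.sqrt_eq_rpow, show (-3 / 2 : ℝ) = -(1 + 1 / 2) by norm_num, Real.rpow_neg hr.le,
    Real.rpow_add hr, Real.rpow_one, one_div, one_div]

lemma norm_kc (H : ℝ) {z : ℂ} (h0 : z ≠ 0) :
    ‖kc H z‖ = ‖z‖ ^ (-3 / 2 : ℝ) * Real.exp (π * H * z.im / normSq z) := by
  rw [terms_norm_kc H h0, terms_rpow (norm_pos_iff.2 h0)]; ring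

lemma norm_ph_le {x : ℝ} (hx : 0 ≤ x) {z : ℂ} (hz : 0 ≤ z.im) (h0 : z ≠ 0) :
    ‖ph x z‖ ≤ ‖z‖ ^ (-1 / 2 : ℝ) := by
  have hz' : 0 < ‖z‖ := norm_pos_iff.2 h0
  have e : -π * (-(x : ℂ) / z).im = -(π * x * z.im / normSq z) := by
    simp [div_eq_mul_inv, Complex.inv_im]; ring
  have h1 : Real.exp (-(π * x * z.im / normSq z)) ≤ 1 := by
    rw [Real.exp_le_one_iff, neg_nonpos]
    exact div_nonneg (mul_nonneg (mul_nonneg Real.pi_pos.le hx) hz) (normSq_nonneg _)
  rw [ph, norm_div, norm_rt, norm_ep, e, Real.sqrt_eq_rpow,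
    show (-1 / 2 : ℝ) = -(1 / 2) by norm_num, Real.rpow_neg hz'.le, ← one_div (‖z‖ ^ _)]
  exact div_le_div_of_nonneg_right h1 (Real.rpow_nonneg hz'.le _)

lemma terms_phi_le {x : ℝ} (hx : 0 ≤ x) {η : ℝ} (hη : 0 ≤ η) : ‖phi x (ln η)‖ ≤ 4 := by
  have key : ∀ z : ℂ, 0 ≤ z.im → |z.re| = 1 / 2 → ‖ph x z‖ ≤ 2 := by
    intro z hz hr
    have h1 : 1 / 4 ≤ ‖z‖ := by have := Complex.abs_re_le_norm z; linarith
    have h0 : z ≠ 0 := by rintro rfl; norm_num at h1
    refine (norm_ph_le hx hz h0).trans ?_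
    refine (Real.rpow_le_rpow_of_nonpos (by norm_num) h1 (by norm_num)).trans (le_of_eq ?_)
    rw [show (1 / 4 : ℝ) = 2 ^ (-2 : ℝ) by rw [Real.rpow_neg (by norm_num)]; norm_num,
      ← Real.rpow_mul (by norm_num)]
    norm_num
  have h1 := key (ln η) (by simpa using hη) (by rw [ln_re]; norm_num)
  have h2 := key (ln η - 1) (by simpa using hη) (by
    rw [sub_re, ln_re, one_re]; norm_num [abs_of_neg])
  have h3 : ‖ep (1 / 4)‖ = 1 := by simp [norm_ep]
  have h4 : ‖ep (-x)‖ = 1 := by simp [norm_ep]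
  rw [phi]
  refine (norm_add_le _ _).trans ?_
  rw [norm_mul, norm_mul, norm_mul, norm_ep_real, h3, h4]
  linarith

lemma terms_dist {β : ℕ} (hβ : Odd β) (q : ℤ) : 1 / (2 * β : ℝ) ≤ |1 / 2 - (q : ℝ) / β| := by
  have hb : (0 : ℝ) < β := by exact_mod_cast hβ.pos
  have h1 : (β : ℤ) - 2 * q ≠ 0 := by
    obtain ⟨k, hk⟩ := hβ
    omega
  have h2 : (1 : ℝ) ≤ |(β : ℝ) - 2 * q| := by exact_mod_cast Int.one_le_abs h1
  have e : 1 / 2 - (q : ℝ) / β = ((β : ℝ) - 2 * q) / (2 * β) := by field_simp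
  rw [e, abs_div, abs_of_pos (by positivity : (0 : ℝ) < 2 * β)]
  exact div_le_div_of_nonneg_right h2 (by positivity)

lemma terms_cont_ln : Continuous ln := by unfold ln; fun_prop

lemma fC_integrable {x : ℝ} (hx : 0 ≤ x) (n : ℕ) {β : ℕ} (hβ : Odd β) (q : ℤ) :
    IntegrableOn (fC x n β q) (Ioi 0) := by
  have hb : (1 : ℝ) ≤ β := by exact_mod_cast hβ.pos
  set H : ℝ := n / β ^ 2 with hH
  have hH0 : 0 ≤ H := by positivity
  set δ : ℝ := 1 / (2 * β) with hδ
  have hδ0 : 0 < δ := by positivity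
  have hδ1 : δ ≤ 1 := by rw [hδ, div_le_one (by positivity)]; linarith
  have hre : ∀ η : ℝ, (ln η - q / β).re = 1 / 2 - (q : ℝ) / β := by
    intro η
    rw [show (q : ℂ) / β = (((q : ℝ) / β : ℝ) : ℂ) by push_cast; rfl, sub_re, ln_re, ofReal_re]
  have him : ∀ η : ℝ, (ln η - q / β).im = η := by
    intro η
    rw [show (q : ℂ) / β = (((q : ℝ) / β : ℝ) : ℂ) by push_cast; rfl, sub_im, ln_im, ofReal_im,
      sub_zero]
  have hv := terms_dist hβ q
  rw [← hδ] at hv
  have hcont : ContinuousOn (fC x n β q) (Ioi 0) := by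
    intro η hη
    have hη' : 0 < η := hη
    refine ContinuousAt.continuousWithinAt ?_
    have h1 : ContinuousAt (fun η : ℝ => phi x (ln η)) η :=
      ContinuousAt.comp (f := ln) (phi_diff x (by simpa using hη')).continuousAt
        terms_cont_ln.continuousAt
    have h2 : ContinuousAt (fun η : ℝ => kc H (ln η - q / β)) η :=
      ContinuousAt.comp (f := fun η : ℝ => ln η - q / β)
        (hasDerivAt_kc H (by rw [him]; exact hη'.le)
          (ne_of_im (by rw [him]; exact hη'))).continuousAt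
        (terms_cont_ln.sub continuous_const).continuousAt
    exact ((continuousAt_const.mul h1).mul h2).mul continuousAt_const
  have hint : IntegrableOn (fun η : ℝ => (η + 1) ^ (-3 / 2 : ℝ)) (Ioi 0) :=
    integrableOn_add_rpow_Ioi_of_lt (by norm_num) (by norm_num)
  refine Integrable.mono' (hint.const_mul (‖eC n β q * (√β / β ^ 2)‖ * 4 *
    ((δ / 2) ^ (-3 / 2 : ℝ) * Real.exp (π * H / δ))))
    (hcont.aestronglyMeasurable measurableSet_Ioi) ?_
  rw [ae_restrict_iff' measurableSet_Ioi]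
  refine Eventually.of_forall fun η hη => ?_
  have hη' : 0 < η := hη
  set ζ : ℂ := ln η - q / β with hζ
  have h0 : ζ ≠ 0 := ne_of_im (by rw [him]; exact hη')
  have h1 : δ ≤ ‖ζ‖ := by have := Complex.abs_re_le_norm ζ; rw [hre] at this; linarith
  have h2 : η ≤ ‖ζ‖ := by have := Complex.im_le_norm ζ; rwa [him] at this
  have h3 : δ / 2 * (η + 1) ≤ ‖ζ‖ := by nlinarith
  have h4 : ‖ζ‖ ^ (-3 / 2 : ℝ) ≤ (δ / 2) ^ (-3 / 2 : ℝ) * (η + 1) ^ (-3 / 2 : ℝ) := by
    rw [← Real.mul_rpow (by positivity) (by positivity)]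
    exact Real.rpow_le_rpow_of_nonpos (by positivity) h3 (by norm_num)
  have h5 : Real.exp (π * H * ζ.im / normSq ζ) ≤ Real.exp (π * H / δ) := by
    rw [Real.exp_le_exp, him, Complex.normSq_eq_norm_sq,
      div_le_div_iff₀ (by have := norm_pos_iff.2 h0; positivity) hδ0, mul_assoc (π * H)]
    exact mul_le_mul_of_nonneg_left (by nlinarith) (by positivity)
  have h6 := terms_phi_le hx hη'.le
  have h7 : ‖kc H ζ‖ ≤ (δ / 2) ^ (-3 / 2 : ℝ) * (η + 1) ^ (-3 / 2 : ℝ) * Real.exp (π * H / δ) := by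
    rw [norm_kc H h0]
    exact mul_le_mul h4 h5 (Real.exp_pos _).le (by positivity)
  rw [fC, norm_mul, norm_mul, norm_mul _ (phi _ _), norm_I, mul_one]
  calc _ ≤ ‖eC n β q * (√β / β ^ 2)‖ * 4 *
        ((δ / 2) ^ (-3 / 2 : ℝ) * (η + 1) ^ (-3 / 2 : ℝ) * Real.exp (π * H / δ)) := by gcongr
    _ = _ := by ring

end

end Pool.Agent.MP_9f080f_an

end

-- part MP_9f080f_an.MainAsmA
section

namespace Pool.Agent.MP_9f080f_an
open Complex MeasureTheory Set Filter Topology Metric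
open scoped Real

noncomputable section

/-! Auxiliary lemmas for the main term. -/

/-- continuous, of `L²` norm at most `r`, bounded by `m` -/
structure MainasmBd (f : ℝ → ℂ) (r m : ℝ) : Prop where
  pos : 0 < r
  cont : Continuous f
  int : Integrable fun x => ‖f x‖ ^ 2
  le : ∫ x, ‖f x‖ ^ 2 ≤ r ^ 2
  sup : ∀ x, ‖f x‖ ≤ m

lemma MainasmBd.add {f g : ℝ → ℂ} {r r' m m' : ℝ} (h : MainasmBd f r m) (h' : MainasmBd g r' m') :
    MainasmBd (fun x => f x + g x) (r + r') (m + m') := by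
  have hr := h.pos
  have hr' := h'.pos
  have key : ∀ x, ‖f x + g x‖ ^ 2 ≤ (r + r') / r * ‖f x‖ ^ 2 + (r + r') / r' * ‖g x‖ ^ 2 := by
    intro x
    have a1 : ‖f x + g x‖ ^ 2 ≤ (‖f x‖ + ‖g x‖) ^ 2 :=
      pow_le_pow_left₀ (norm_nonneg _) (norm_add_le _ _) 2
    have a2 : (r + r') / r * ‖f x‖ ^ 2 + (r + r') / r' * ‖g x‖ ^ 2 - (‖f x‖ + ‖g x‖) ^ 2
        = (r' * ‖f x‖ - r * ‖g x‖) ^ 2 / (r * r') := by
      field_simp
      ring
    have a3 : 0 ≤ (r' * ‖f x‖ - r * ‖g x‖) ^ 2 / (r * r') := by positivity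
    linarith
  have hc : Continuous fun x => f x + g x := h.cont.add h'.cont
  have hI := (h.int.const_mul ((r + r') / r)).add (h'.int.const_mul ((r + r') / r'))
  have hi : Integrable fun x => ‖f x + g x‖ ^ 2 :=
    hI.mono' (hc.norm.pow 2).aestronglyMeasurable (Eventually.of_forall fun x => by
      rw [Real.norm_of_nonneg (by positivity)]; exact key x)
  refine ⟨by positivity, hc, hi, ?_, fun x => (norm_add_le _ _).trans (add_le_add (h.sup x) (h'.sup x))⟩
  refine (integral_mono hi hI key).trans ?_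
  have e := integral_add (h.int.const_mul ((r + r') / r)) (h'.int.const_mul ((r + r') / r'))
  refine e.le.trans ?_
  rw [integral_const_mul, integral_const_mul]
  have b1 := mul_le_mul_of_nonneg_left h.le (show 0 ≤ (r + r') / r by positivity)
  have b2 := mul_le_mul_of_nonneg_left h'.le (show 0 ≤ (r + r') / r' by positivity)
  have b3 : (r + r') / r * r ^ 2 + (r + r') / r' * r' ^ 2 = (r + r') ^ 2 := by
    field_simp
  linarith

lemma MainasmBd.mul {f u : ℝ → ℂ} {r m a : ℝ} (h : MainasmBd f r m) (hu : Continuous u)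
    (ha : 0 < a) (hb : ∀ x, ‖u x‖ ≤ a) : MainasmBd (fun x => u x * f x) (a * r) (a * m) := by
  have hc : Continuous fun x => u x * f x := hu.mul h.cont
  have k0 : ∀ x, ‖u x * f x‖ ≤ a * ‖f x‖ := fun x => by
    rw [norm_mul]; exact mul_le_mul_of_nonneg_right (hb x) (norm_nonneg _)
  have key : ∀ x, ‖u x * f x‖ ^ 2 ≤ a ^ 2 * ‖f x‖ ^ 2 := fun x => by
    rw [← mul_pow]; exact pow_le_pow_left₀ (norm_nonneg _) (k0 x) 2
  have hI := h.int.const_mul (a ^ 2)
  have hi : Integrable fun x => ‖u x * f x‖ ^ 2 :=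
    hI.mono' (hc.norm.pow 2).aestronglyMeasurable (Eventually.of_forall fun x => by
      rw [Real.norm_of_nonneg (by positivity)]; exact key x)
  refine ⟨mul_pos ha h.pos, hc, hi, (integral_mono hi hI key).trans ?_,
    fun x => (k0 x).trans (mul_le_mul_of_nonneg_left (h.sup x) ha.le)⟩
  rw [integral_const_mul, mul_pow]
  exact mul_le_mul_of_nonneg_left h.le (by positivity)

lemma MainasmBd.sum {ι : Type} (B : Finset ι) {f : ι → ℝ → ℂ} {r m : ι → ℝ} {r₀ : ℝ} (h0 : 0 < r₀)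
    (h : ∀ i ∈ B, MainasmBd (f i) (r i) (m i)) :
    MainasmBd (fun x => ∑ i ∈ B, f i x) (∑ i ∈ B, r i + r₀) (∑ i ∈ B, m i) := by
  classical
  induction B using Finset.induction_on with
  | empty => exact ⟨by simpa using h0, by simpa using continuous_const, by simp, by simp; positivity,
      by simp⟩
  | insert a s ha ih =>
    simp only [Finset.sum_insert ha, add_assoc]
    exact (h a (Finset.mem_insert_self _ _)).add (ih fun i hi => h i (Finset.mem_insert_of_mem hi))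

lemma mainasm_conj_ep (r : ℝ) : (starRingEnd ℂ) (ep r) = ep (-r) := by
  simp [ep, ← Complex.exp_conj]

lemma mainasm_tw {e : ℤ → ℂ} {P : ℕ} {κ W : ℝ} (hP : 0 < P) (h : Tw e P κ W) :
    Tw (fun a => (starRingEnd ℂ) (e (-a))) P κ W := by
  have hP' : (P : ℂ) ≠ 0 := by exact_mod_cast hP.ne'
  constructor
  · intro a
    have h1 := h.per (-(a + P))
    rw [show -(a + (P : ℤ)) + P = -a by ring] at h1
    have h2 := mainasm_conj_ep (2 * κ)
    push_cast at h2
    rw [h1, map_mul, h2, ← mul_assoc, ← ep_add]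
    simp
  · intro m
    let g : ℤ → ℂ := fun a => e a * ep (-2 * (m + κ) * a / P)
    have hg : ∀ a, g (a + P) = g a := by
      intro a
      have e1 : (-2 * (m + κ) * ((a + P : ℤ) : ℂ) / P : ℂ)
          = -2 * (m + κ) * a / P + (2 * ((-m : ℤ) : ℂ) + -(2 * κ)) := by
        push_cast
        field_simp
        ring
      simp only [g]
      rw [h.per, e1, ep_add, ep_add, ep_two_int, ep_neg]
      have := ep_ne (2 * κ)
      field_simp
    have e1 : ∑ a ∈ Finset.range P, (starRingEnd ℂ) (e (-(a : ℤ))) * ep (-2 * (m + κ) * a / P)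
        = (starRingEnd ℂ) (∑ a ∈ Finset.range P, g (-(a : ℤ))) := by
      rw [map_sum]
      refine Finset.sum_congr rfl fun a _ => ?_
      have h2 := mainasm_conj_ep (-2 * (m + κ) * (-a) / P)
      push_cast at h2
      simp only [g, map_mul]
      push_cast
      rw [h2]
      congr 2
      ring
    have e2 : ∑ a ∈ Finset.range P, g (-(a : ℤ)) = ∑ a ∈ Finset.range P, g a := by
      have e3 : ∑ a ∈ Finset.range P, g (-(a : ℤ)) = ∑ a ∈ Finset.range P, g ((a + 1 : ℕ) : ℤ) := by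
        rw [← Finset.sum_range_reflect (fun a => g ((a + 1 : ℕ) : ℤ)) P]
        refine Finset.sum_congr rfl fun a ha => ?_
        rw [← hg]
        congr 1
        have := Finset.mem_range.1 ha
        omega
      have e4 := Finset.sum_range_succ (fun a : ℕ => g a) P
      have e5 := Finset.sum_range_succ' (fun a : ℕ => g a) P
      have e6 := hg 0
      rw [zero_add] at e6
      simp only [Nat.cast_zero] at e5
      rw [e3]
      linear_combination e4 - e5 + e6
    rw [e1, RCLike.norm_conj, e2]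
    simpa [g] using h.four m

lemma mainasm_rt {σ t : ℝ} (hσ : σ = 1 ∨ σ = -1) (ht : 0 < t) :
    rt ((σ * t : ℝ) : ℂ) = (√t : ℝ) * rt σ := by
  have h0 : σ ≠ 0 := by rcases hσ with rfl | rfl <;> norm_num
  refine eq_of_sq_eq ?_ (rt_re_pos (by simp) (by exact_mod_cast mul_ne_zero h0 ht.ne')) ?_
  · rw [mul_pow, rt_sq, rt_sq, ← ofReal_pow, Real.sq_sqrt ht.le]
    push_cast
    ring
  · rw [re_ofReal_mul]
    exact mul_pos (Real.sqrt_pos.2 ht) (rt_re_pos (by simp) (by exact_mod_cast h0))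

lemma mainasm_pow {t : ℝ} (ht : 0 < t) : t ^ (-3 / 2 : ℝ) = √t / t ^ 2 := by
  rw [Real.sqrt_eq_rpow, ← Real.rpow_two, ← Real.rpow_sub ht]
  norm_num

lemma mainasm_kc_pos (H : ℝ) {t : ℝ} (ht : 0 < t) : kc H t = rt 1 * kk H t := by
  have h := mainasm_rt (Or.inl rfl) ht
  rw [one_mul] at h
  rw [kc, kk, h, mainasm_pow ht]
  push_cast
  ring

lemma mainasm_kc_neg (H : ℝ) {t : ℝ} (ht : 0 < t) :
    kc H (-t) = rt (-1) * (starRingEnd ℂ) (kk H t) := by
  have h := mainasm_rt (Or.inr rfl) ht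
  have h2 := mainasm_conj_ep (H / t)
  push_cast at h h2
  rw [neg_one_mul] at h
  rw [kc, kk, h, map_mul, h2, conj_ofReal, mainasm_pow ht, div_neg]
  push_cast
  ring

lemma mainasm_range {Q : Finset ℤ} (hQ : ∀ a ∈ Q, ∀ b ∈ Q, ∀ c, a ≤ c → c ≤ b → c ∈ Q) :
    ∃ (a₀ : ℤ) (L : ℕ), (∀ i < L, a₀ + i ∈ Q) ∧
      ∀ F : ℤ → ℂ, ∑ q ∈ Q, F q = ∑ i ∈ Finset.range L, F (a₀ + i) := by
  rcases Q.eq_empty_or_nonempty with rfl | hne
  · exact ⟨0, 0, by simp, by simp⟩
  have e : Q = Finset.Icc (Q.min' hne) (Q.max' hne) := by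
    ext c
    rw [Finset.mem_Icc]
    exact ⟨fun h => ⟨Q.min'_le c h, Q.le_max' c h⟩,
      fun h => hQ _ (Q.min'_mem hne) _ (Q.max'_mem hne) c h.1 h.2⟩
  refine ⟨Q.min' hne, (Q.max' hne + 1 - Q.min' hne).toNat, fun i hi => ?_, fun F => ?_⟩
  · exact hQ _ (Q.min'_mem hne) _ (Q.max'_mem hne) _ (by omega) (by omega)
  · conv_lhs => rw [e, Int.Icc_eq_finset_map, Finset.sum_map]
    rfl

lemma mainasm_L2a : ∃ C : ℝ, ∀ (e : ℤ → ℂ) (β : ℕ) (W H A : ℝ) (Q : Finset ℤ), 0 < β → 1 / 2 ≤ H →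
    Tw e β (3 / 8) W → (∀ a ∈ Q, ∀ b ∈ Q, ∀ c, a ≤ c → c ≤ b → c ∈ Q) →
    (∀ q ∈ Q, (q : ℝ) / β ≤ A) →
    IntegrableOn (fun s : ℝ => ‖∑ q ∈ Q, e q * kk H (A + (s + 1 / 2) - (q : ℝ) / β)‖ ^ 2
      * (1 + (s + 1 / 2))) (Ioi 0) ∧
    ∫ s in Ioi (0 : ℝ), ‖∑ q ∈ Q, e q * kk H (A + (s + 1 / 2) - (q : ℝ) / β)‖ ^ 2
      * (1 + (s + 1 / 2)) ≤ C * (W * (1 + Real.log β)) ^ 2 * (1 + Real.log (1 + H)) := by
  obtain ⟨C, hC⟩ := main_L2
  refine ⟨C, fun e β W H A Q hβ hH he hQ hA => ?_⟩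
  obtain ⟨a₀, L, h1, h2⟩ := mainasm_range hQ
  obtain ⟨k1, k2⟩ := hC e β W H A a₀ L hβ hH he fun i hi => hA _ (h1 i hi)
  have hp : (fun s : ℝ => s + 1 / 2) ⁻¹' Ioi (1 / 2) = Ioi 0 := by
    ext s; simp
  have mp := measurePreserving_add_right (volume : Measure ℝ) (1 / 2 : ℝ)
  have me : MeasurableEmbedding (fun s : ℝ => s + 1 / 2) :=
    (Homeomorph.addRight (1 / 2 : ℝ)).measurableEmbedding
  rw [← mp.setIntegral_preimage_emb me, hp] at k2
  rw [← mp.integrableOn_comp_preimage me, hp] at k1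
  simp only [h2]
  exact ⟨k1, k2⟩

/-- the sum over the cusps on a horizontal half line -/
def mainasmS (e : ℤ → ℂ) (β : ℕ) (H σ : ℝ) (Q : Finset ℤ) (s : ℝ) : ℂ :=
  ∑ q ∈ Q, e q * kc H (((1 / 2 : ℝ) : ℂ) + σ * s - ((q / β : ℝ) : ℂ))

lemma mainasm_L2 : ∃ C : ℝ, ∀ (e : ℤ → ℂ) (β : ℕ) (W H σ : ℝ) (Q : Finset ℤ), 0 < β → 1 / 2 ≤ H →
    Tw e β (3 / 8) W → (∀ a ∈ Q, ∀ b ∈ Q, ∀ c, a ≤ c → c ≤ b → c ∈ Q) → (σ = 1 ∨ σ = -1) →
    (∀ q ∈ Q, 1 / 2 ≤ σ * (1 / 2 - (q : ℝ) / β)) →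
    IntegrableOn (fun s : ℝ => ‖mainasmS e β H σ Q s‖ ^ 2 * (1 + (s + 1 / 2))) (Ioi 0) ∧
    ∫ s in Ioi (0 : ℝ), ‖mainasmS e β H σ Q s‖ ^ 2 * (1 + (s + 1 / 2))
      ≤ C * (W * (1 + Real.log β)) ^ 2 * (1 + Real.log (1 + H)) := by
  obtain ⟨C, hC⟩ := mainasm_L2a
  refine ⟨C, fun e β W H σ Q hβ hH he hQ hσ hA => ?_⟩
  rcases hσ with rfl | rfl
  · obtain ⟨k1, k2⟩ := hC e β W H 0 Q hβ hH he hQ fun q hq => by linarith [hA q hq]
    have e1 : EqOn (fun s : ℝ => ‖∑ q ∈ Q, e q * kk H (0 + (s + 1 / 2) - (q : ℝ) / β)‖ ^ 2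
        * (1 + (s + 1 / 2))) (fun s : ℝ => ‖mainasmS e β H 1 Q s‖ ^ 2 * (1 + (s + 1 / 2)))
        (Ioi 0) := by
      intro s hs
      have hs' : 0 < s := hs
      have e2 : mainasmS e β H 1 Q s
          = rt 1 * ∑ q ∈ Q, e q * kk H (0 + (s + 1 / 2) - (q : ℝ) / β) := by
        rw [mainasmS, Finset.mul_sum]
        refine Finset.sum_congr rfl fun q hq => ?_
        rw [mul_left_comm, ← mainasm_kc_pos H (by linarith [hA q hq])]
        congr 2
        push_cast
        ring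
      simp only [e2, norm_mul, norm_rt, norm_one, Real.sqrt_one, one_mul]
    exact ⟨k1.congr_fun e1 measurableSet_Ioi,
      (setIntegral_congr_fun measurableSet_Ioi e1).symm.trans_le k2⟩
  · obtain ⟨k1, k2⟩ := hC _ β W H (-1) (Q.map (Equiv.neg ℤ).toEmbedding) hβ hH (mainasm_tw hβ he)
      (fun a ha b hb c h1 h2 => by
        simp only [Finset.mem_map_equiv, Equiv.neg_symm, Equiv.neg_apply] at ha hb ⊢
        exact hQ _ hb _ ha _ (by omega) (by omega))
      (fun q hq => by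
        simp only [Finset.mem_map_equiv, Equiv.neg_symm, Equiv.neg_apply] at hq
        have := hA _ hq
        push_cast at this
        rw [neg_div] at this
        linarith)
    have e1 : EqOn (fun s : ℝ => ‖∑ q ∈ Q.map (Equiv.neg ℤ).toEmbedding,
        (starRingEnd ℂ) (e (-q)) * kk H (-1 + (s + 1 / 2) - (q : ℝ) / β)‖ ^ 2 * (1 + (s + 1 / 2)))
        (fun s : ℝ => ‖mainasmS e β H (-1) Q s‖ ^ 2 * (1 + (s + 1 / 2))) (Ioi 0) := by
      intro s hs
      have hs' : 0 < s := hs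
      have e2 : mainasmS e β H (-1) Q s = rt (-1) * (starRingEnd ℂ)
          (∑ q ∈ Q.map (Equiv.neg ℤ).toEmbedding,
            (starRingEnd ℂ) (e (-q)) * kk H (-1 + (s + 1 / 2) - (q : ℝ) / β)) := by
        rw [mainasmS, Finset.sum_map, map_sum, Finset.mul_sum]
        refine Finset.sum_congr rfl fun q hq => ?_
        simp only [Equiv.coe_toEmbedding, Equiv.neg_apply, neg_neg, map_mul, conj_conj]
        rw [mul_left_comm, ← mainasm_kc_neg H (by
          have := hA q hq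
          push_cast
          rw [neg_div]
          linarith)]
        congr 2
        push_cast
        ring
      simp only [e2, norm_mul, norm_rt, norm_neg, norm_one, Real.sqrt_one, one_mul,
        RCLike.norm_conj]
    exact ⟨k1.congr_fun e1 measurableSet_Ioi,
      (setIntegral_congr_fun measurableSet_Ioi e1).symm.trans_le k2⟩

lemma mainasm_ph (x : ℝ) (z : ℂ) : ph x z = ph 0 z * ep (-x / z) := by
  simp [ph, div_eq_mul_inv, mul_comm]

lemma mainasm_planch {σ c : ℝ} (hσ : σ = 1 ∨ σ = -1) (hc : |c| ≤ 1) {S : ℝ → ℂ}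
    (h1 : IntegrableOn (fun s : ℝ => ph 0 ((c + σ * s : ℝ) : ℂ) * S s) (Ioi 0))
    (h2 : IntegrableOn (fun s : ℝ => ‖S s‖ ^ 2 * (1 + (s + 1 / 2))) (Ioi 0)) :
    (Continuous fun x : ℝ => ∫ s in Ioi (0 : ℝ), ph x ((c + σ * s : ℝ) : ℂ) * S s) ∧
    (Integrable fun x : ℝ => ‖∫ s in Ioi (0 : ℝ), ph x ((c + σ * s : ℝ) : ℂ) * S s‖ ^ 2) ∧
    ∫ x : ℝ, ‖∫ s in Ioi (0 : ℝ), ph x ((c + σ * s : ℝ) : ℂ) * S s‖ ^ 2
      ≤ 2 * ∫ s in Ioi (0 : ℝ), ‖S s‖ ^ 2 * (1 + (s + 1 / 2)) := by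
  have hσ2 : ∀ s, σ * (c + σ * s - c) = s := fun s => by rcases hσ with rfl | rfl <;> ring
  have mp : MeasurePreserving (fun s : ℝ => c + σ * s) volume volume := by
    rcases hσ with rfl | rfl
    · simpa using measurePreserving_add_left (volume : Measure ℝ) c
    · simpa [sub_eq_add_neg] using Measure.measurePreserving_sub_left (volume : Measure ℝ) c
  have me : MeasurableEmbedding (fun s : ℝ => c + σ * s) := by
    have h0 : σ ≠ 0 := by rcases hσ with rfl | rfl <;> norm_num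
    exact ((Homeomorph.mulLeft₀ σ h0).trans (Homeomorph.addLeft c)).measurableEmbedding
  set G : ℝ → ℂ := indicator (Ioi 0) fun s : ℝ => ph 0 ((c + σ * s : ℝ) : ℂ) * S s with hG
  have hGi : Integrable G := h1.integrable_indicator measurableSet_Ioi
  set Γ : ℝ → ℂ := fun ζ => G (σ * (ζ - c)) with hΓ
  have hΓG : ∀ s, Γ (c + σ * s) = G s := fun s => by simp only [hΓ, hσ2]
  have hΓi : Integrable Γ := (mp.integrable_comp_emb me).1 (by
    simpa only [Function.comp_def, hΓG] using hGi)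
  have hb : ∀ s, ‖G s‖ ^ 2 * (c + σ * s) ^ 2
      ≤ indicator (Ioi 0) (fun s : ℝ => ‖S s‖ ^ 2 * (1 + (s + 1 / 2))) s := by
    intro s
    by_cases hs : s ∈ Ioi (0 : ℝ)
    · have hs' : 0 < s := hs
      rw [hG, indicator_of_mem hs, indicator_of_mem hs, norm_mul, mul_pow, ph]
      have a1 : |c + σ * s| ≤ 1 + (s + 1 / 2) := by
        have := abs_le.1 hc
        rcases hσ with rfl | rfl <;> rw [abs_le] <;> constructor <;> linarith
      have a2 : ‖ep (-((0 : ℝ) : ℂ) / ((c + σ * s : ℝ) : ℂ)) / rt ((c + σ * s : ℝ) : ℂ)‖ ^ 2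
          * (c + σ * s) ^ 2 ≤ |c + σ * s| := by
        rw [norm_div, norm_rt, div_pow, Real.sq_sqrt (norm_nonneg _), norm_real,
          Real.norm_eq_abs, ← sq_abs (c + σ * s)]
        simp only [ofReal_zero, neg_zero, zero_div, ep_zero, norm_one, one_pow]
        rcases (abs_nonneg (c + σ * s)).eq_or_lt with h | h
        · rw [← h]; simp
        · field_simp
          rfl
      calc _ = ‖S s‖ ^ 2 * (‖ep (-((0 : ℝ) : ℂ) / ((c + σ * s : ℝ) : ℂ))
            / rt ((c + σ * s : ℝ) : ℂ)‖ ^ 2 * (c + σ * s) ^ 2) := by ring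
        _ ≤ _ := mul_le_mul_of_nonneg_left (a2.trans a1) (by positivity)
    · rw [hG, indicator_of_notMem hs, indicator_of_notMem hs]
      simp
  have hI := h2.integrable_indicator measurableSet_Ioi
  have hi : Integrable fun s => ‖G s‖ ^ 2 * (c + σ * s) ^ 2 :=
    hI.mono' ((hGi.aestronglyMeasurable.norm.pow 2).mul (by fun_prop))
      (Eventually.of_forall fun s => by rw [Real.norm_of_nonneg (by positivity)]; exact hb s)
  obtain ⟨k1, k2, k3⟩ := inv_planch hΓi ((mp.integrable_comp_emb me).1 (by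
    simpa only [Function.comp_def, hΓG] using hi))
  have e : ∀ x : ℝ, ∫ ζ : ℝ, Γ ζ * ep (-x / ζ)
      = ∫ s in Ioi (0 : ℝ), ph x ((c + σ * s : ℝ) : ℂ) * S s := by
    intro x
    rw [← mp.integral_comp me, ← integral_indicator measurableSet_Ioi]
    refine integral_congr_ae (Eventually.of_forall fun s => ?_)
    simp only [hΓG]
    by_cases hs : s ∈ Ioi (0 : ℝ)
    · rw [hG, indicator_of_mem hs, indicator_of_mem hs, mainasm_ph x]
      ring
    · rw [hG, indicator_of_notMem hs, indicator_of_notMem hs, zero_mul]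
  simp only [e] at k1 k2 k3
  refine ⟨k1, k2, k3.trans (mul_le_mul_of_nonneg_left ?_ (by norm_num))⟩
  rw [← mp.integral_comp me, ← integral_indicator measurableSet_Ioi]
  simp only [hΓG]
  exact integral_mono hi hI hb

end

end Pool.Agent.MP_9f080f_an

end
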