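import Pool.Agent.MP_9f080f_an.Mg.ShR1A
import Pool.Agent.MP_9f080f_an.Mg.MainAsmA
import Pool.Agent.MP_9f080f_an.Mg.Contour

-- part MP_9f080f_an.ShR1B
section

namespace Pool.Agent.MP_9f080f_an
open Complex MeasureTheory Set Filter Topology Metric
open scoped Real

noncomputable section

/-! The two kinds of regions, with general bounds for the subsums. -/

lemma shr1_rpow_le {v y : ℝ} (hv : 0 < v) (h : v ≤ y) {C : ℝ} :
    C ≤ |C| / v ^ (1 / 6 : ℝ) * y ^ (1 / 6 : ℝ) := by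
  have h1 : 0 < v ^ (1 / 6 : ℝ) := by positivity
  have h2 : v ^ (1 / 6 : ℝ) ≤ y ^ (1 / 6 : ℝ) := Real.rpow_le_rpow hv.le h (by norm_num)
  calc C ≤ |C| := le_abs_self C
    _ = |C| / v ^ (1 / 6 : ℝ) * v ^ (1 / 6 : ℝ) := by field_simp
    _ ≤ _ := by gcongr

theorem shr1_top {v : ℝ} (hv : 0 < v) : ∃ C : ℝ, 0 ≤ C ∧ ∀ P : Set ℂ, MeasurableSet P →
    (∀ z ∈ P, v ≤ z.im ∧ 0 < z.re ∧ z.re < 2) → (∀ w : ℂ, OrdConnected {u : ℝ | (u : ℂ) + w ∈ P}) →
    ∀ n : ℕ, 2 ≤ n → ∀ BT : ℕ → ℝ,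
    (∀ c : ℕ, 0 < c → ∀ (a₀ : ℤ) (L : ℕ), L ≤ 2 * c →
      ‖∑ i ∈ Finset.range L, eT n c (a₀ + i)‖ ≤ BT c) → ∀ x : ℝ, 0 ≤ x →
    IntervalIntegrable (fun t => ∑' g, c1T x n P g t) volume 0 2 ∧
      ‖∫ t in (0 : ℝ)..2, ∑' g, c1T x n P g t‖ ≤ C * (1 + (n : ℝ) ^ (-1 / 4 : ℝ) *
        ∑ c ∈ (Finset.Icc 1 (⌈1 / v⌉₊ * n)).filter (fun c => c ^ 2 ≤ ⌈1 / v⌉₊ * n), BT c / c) *
        (1 + x) ^ (-2 / 3 : ℝ) := by
  obtain ⟨C₁, hC₁⟩ := FF_top hv
  have hk0 := shr1_k_nonneg hv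
  set κ := shr1k v * (|C₁| / v ^ (1 / 6 : ℝ)) with hκ
  have hκ0 : 0 ≤ κ := by positivity
  refine ⟨2 * (2 * Real.exp π * |C₁| + κ), by positivity, fun P hP hPv hPo n hn BT hBT x hx => ?_⟩
  have hn0 : 0 < n := by omega
  set X := (1 + x) ^ (-2 / 3 : ℝ) with hX
  have hX0 : 0 < X := by positivity
  have hreg : C1Reg P (FF x) v (|C₁| / √√v * X) :=
    { meas := hP
      vpos := hv
      Mpos := by positivity
      high := fun z hz => (hPv z hz).1
      oc := hPo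
      strip := ⟨0, by simp, fun z hz => by simpa using (hPv z hz).2⟩
      diff := fun z hz => FF_diff hx hz
      bd := fun z hz => by
        have a1 := hC₁ x hx z (hPv z hz).1
        rw [← hX] at a1
        have a2 := mul_le_mul_of_nonneg_right (circle1_sqrt_le hv (hPv z hz).1 (C := C₁)) hX0.le
        constructor <;> linarith [a1.1, a1.2] }
  have hbd : ∀ z ∈ P, ‖FF x z‖ ≤ |C₁| / v ^ (1 / 6 : ℝ) * X * z.im ^ (1 / 6 : ℝ) ∧
      ‖deriv (FF x) z‖ ≤ |C₁| / v ^ (1 / 6 : ℝ) * X * z.im ^ (1 / 6 : ℝ) := fun z hz => by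
    have a1 := hC₁ x hx z (hPv z hz).1
    rw [← hX] at a1
    have a2 := mul_le_mul_of_nonneg_right (shr1_rpow_le hv (hPv z hz).1 (C := C₁)) hX0.le
    constructor <;> linarith [a1.1, a1.2]
  have hone : Integrable (c1T x n P 1) ∧ ‖∫ t, c1T x n P 1 t‖ ≤ 2 * Real.exp π * |C₁| * X ∧
      ∀ t, 2 < |t| → c1T x n P 1 t = 0 := by
    have hch : Continuous (hc n) := by unfold hc; fun_prop
    have e1 : ∀ t, c1T x n P 1 t = (hc n ⁻¹' P).indicator
        (fun t => ep (-n * hc n t) * FF x (hc n t)) t := fun t => by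
      have := th3_ne (circle1_hc_pos hn0 t)
      unfold c1T
      rw [GT.mob_one, GT.chi_one]
      split_ifs with h
      · rw [indicator_of_mem (by exact h)]; field_simp
      · rw [indicator_of_notMem (by exact h)]
    have hc4 : Continuous fun t => FF x (hc n t) := continuous_iff_continuousAt.2 fun t =>
      ContinuousAt.comp (f := hc n) (FF_diff hx (circle1_hc_pos hn0 t)).continuousAt
        hch.continuousAt
    have hm : Measurable (c1T x n P 1) := by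
      rw [funext e1]
      exact ((continuous_ep.comp (continuous_const.mul hch)).mul hc4).measurable.indicator
        (hch.measurable hP)
    have hb : ∀ t, ‖c1T x n P 1 t‖ ≤ (Ioo (0 : ℝ) 2).indicator (fun _ => Real.exp π * |C₁| * X) t :=
      fun t => by
      rw [e1]
      by_cases h : hc n t ∈ P
      · have a1 := hPv _ h
        rw [hc_re] at a1
        rw [indicator_of_mem (by exact h), indicator_of_mem (by exact a1.2), norm_mul,
          circle1_norm_ep hn0, mul_assoc]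
        refine mul_le_mul_of_nonneg_left ((hC₁ x hx _ a1.1).1.trans ?_) (by positivity)
        exact mul_le_mul_of_nonneg_right (le_abs_self _) hX0.le
      · rw [indicator_of_notMem (by exact h), norm_zero]
        exact indicator_nonneg (fun _ _ => by positivity) _
    have hi : Integrable ((Ioo (0 : ℝ) 2).indicator (fun _ => Real.exp π * |C₁| * X)) :=
      (integrableOn_const (by simp)).integrable_indicator measurableSet_Ioo
    refine ⟨hi.mono' hm.aestronglyMeasurable (Eventually.of_forall hb),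
      (norm_integral_le_of_norm_le hi (Eventually.of_forall hb)).trans (le_of_eq ?_), fun t ht => ?_⟩
    · rw [integral_indicator measurableSet_Ioo, setIntegral_const]
      simp; ring
    · have := hb t
      rw [indicator_of_notMem] at this
      · exact norm_le_zero_iff.1 this
      · intro h
        rw [abs_of_pos h.1] at ht
        linarith [h.2]
  have key := circle1_unf (circle1_hT x n P) (circle1_hN x n P) (Equiv.refl _) (fun _ => rfl)
    (fun p => c1U n p (eT n p) P (FF x)) (3 * (n * ⌈1 / v⌉₊) + n) (n * ⌈1 / v⌉₊)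
    (fun p => κ * X * (n : ℝ) ^ (-1 / 4 : ℝ) * if p ^ 2 ≤ ⌈1 / v⌉₊ * n then BT p / p else 0)
    (b₀ := 2 * Real.exp π * |C₁| * X) (by positivity) ?_ ?_ ?_ ?_ ?_ ?_
  · refine ⟨key.1, key.2.trans ?_⟩
    rw [← Finset.mul_sum, ← Finset.sum_filter, mul_comm n]
    have a0 : 0 ≤ ∑ c ∈ (Finset.Icc 1 (⌈1 / v⌉₊ * n)).filter (fun c => c ^ 2 ≤ ⌈1 / v⌉₊ * n),
        BT c / c := Finset.sum_nonneg fun c hc => by
      have h1 : 0 < c := (Finset.mem_Icc.1 (Finset.mem_filter.1 hc).1).1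
      have h2 : 0 ≤ BT c := (norm_nonneg _).trans (hBT c h1 0 0 (by omega))
      positivity
    generalize ∑ c ∈ (Finset.Icc 1 (⌈1 / v⌉₊ * n)).filter (fun c => c ^ 2 ≤ ⌈1 / v⌉₊ * n),
        BT c / c = S at a0 ⊢
    have a1 : 0 ≤ κ * X := by positivity
    have a2 : 0 ≤ 2 * Real.exp π * |C₁| * X * ((n : ℝ) ^ (-1 / 4 : ℝ) * S) := by positivity
    nlinarith
  · intro g p hp hg
    simp only [Equiv.refl_apply] at hg ⊢
    refine ⟨g.d / p, fun t => ?_⟩
    have hτ := circle1_hc_pos hn0 t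
    have hp' : (p : ℂ) ≠ 0 := Nat.cast_ne_zero.2 hp.ne'
    have e1 : hc n (t + g.d / p) = hc n t + g.d / p := by rw [circle1_hc_add]; push_cast; ring
    have hd := g.den_ne hτ
    have hcc : (g.c : ℂ) = p := by rw [hg]; simp
    have hdet : (g.a : ℂ) * g.d - g.b * p = 1 := by rw [← hcc]; exact_mod_cast g.det
    rw [hcc] at hd
    have e2 : g.mob (hc n t) = (g.a : ℂ) / p + c1om n p (t + g.d / p) := by
      have e : (p : ℂ) ^ 2 * (hc n t + g.d / p) = p * (p * hc n t + g.d) := by field_simp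
      rw [GT.mob, c1om, e1, e, hcc, div_add_div _ _ hp' (mul_ne_zero hp' hd),
        div_eq_div_iff hd (mul_ne_zero hp' (mul_ne_zero hp' hd))]
      linear_combination -(p * (p * hc n t + g.d)) * hdet
    have e3 := (eT_spec n hp).2.2 g hg _ hτ
    have e4 := th3_ne (g.im_mob_pos hτ)
    unfold c1T c1U
    rw [e3, e1, ← e2]
    split_ifs
    · rw [show c1om n p (t + g.d / p) = g.mob (hc n t) - g.a / p by rw [e2]; ring]
      field_simp
    · rfl
  · intro g hg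
    simp only [Equiv.refl_apply] at hg ⊢
    have hdet := g.det
    rw [hg, mul_zero, sub_zero] at hdet
    have ha := Int.eq_one_or_neg_one_of_mul_eq_one hdet
    have hj : ∃ j : ℤ, c1T x n P g = fun t => c1T x n P 1 (t + 2 * j) := by
      rcases ha with ha | ha
      · obtain ⟨j, hj⟩ := GT.col_eq (g := g) (h := 1) ha hg
        exact ⟨j, funext fun t => by rw [hj, circle1_hT]⟩
      · obtain ⟨j, hj⟩ := GT.col_eq (g := g) (h := GT.N * 1) (by simpa using ha) (by simpa using hg)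
        exact ⟨j, funext fun t => by rw [hj, circle1_hT, circle1_hN]⟩
    obtain ⟨j, hj⟩ := hj
    rw [hj]
    refine ⟨ha, hone.1.comp_add_right _, ?_, 2 + |2 * (j : ℝ)|, fun t ht => hone.2.2 _ ?_⟩
    · rw [integral_add_right_eq_self (c1T x n P 1)]; exact hone.2.1
    · have := abs_sub (t + 2 * j) (2 * j)
      rw [add_sub_cancel_right] at this
      linarith
  · intro p a t hp hne
    obtain ⟨a1, a2, a3⟩ := circle1_K hn0 hp hreg hne
    refine ⟨a1, a2, ?_⟩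
    by_contra h
    exact a3 ((eT_spec n hp).2.1 a h)
  · intro p hp
    exact circle1_R hn0 hp hreg _
  · intro p a hp
    exact circle1_U_int hn0 hp hreg _ a
  · intro p hp
    rw [Finset.mem_Icc] at hp
    have hp0 : 0 < p := hp.1
    split_ifs with hl
    · refine (shr1_frame hn0 hp0 hreg (by positivity) hbd (e := eT n p) (hBT p hp0)
        (by omega)).trans (le_of_eq (by rw [hκ]; ring))
    · rw [mul_zero]
      exact shr1_frame_zero hn0 hp0 hreg _ hl _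

theorem shr1_cusp : ∃ Y : ℝ, 2 ≤ Y ∧ ∀ v : ℝ, 0 < v → v ≤ 1 → ∃ C : ℝ, 0 ≤ C ∧ ∀ n : ℕ, 2 ≤ n →
    ∀ BC : ℕ → ℝ, (∀ β : ℕ, Odd β → ∀ (a₀ : ℤ) (L : ℕ),
      ‖∑ i ∈ Finset.range L, eC n β (a₀ + i)‖ ≤ BC β) → ∀ x : ℝ, 0 ≤ x →
    IntervalIntegrable (fun t => ∑' g,
      c1T x n {w | Y < (zw w).im ∧ |(zw w).re| < 1 / 2} g t) volume 0 2 ∧
      ‖∫ t in (0 : ℝ)..2, ∑' g, c1T x n {w | Y < (zw w).im ∧ |(zw w).re| < 1 / 2} g t‖ ≤
        C * ((n : ℝ) ^ (-1 / 4 : ℝ) * ∑ β ∈ (Finset.Icc 1 (⌈1 / v⌉₊ * n)).filter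
          (fun β => Odd β ∧ β ^ 2 ≤ ⌈1 / v⌉₊ * n), BC β / β) * (1 + x) ^ (-2 / 3 : ℝ) := by
  obtain ⟨Y, hY, C₁, hC₁⟩ := Fh_cusp
  refine ⟨Y, hY, fun v hv hv1 => ?_⟩
  have hk0 := shr1_k_nonneg hv
  set κ := shr1k v * |C₁| with hκ
  have hκ0 : 0 ≤ κ := by positivity
  refine ⟨2 * κ, by positivity, fun n hn BC hBC x hx => ?_⟩
  have hn0 : 0 < n := by omega
  set X := (1 + x) ^ (-2 / 3 : ℝ) with hX
  have hX0 : 0 < X := by positivity
  set P : Set ℂ := {w | Y < (zw w).im ∧ |(zw w).re| < 1 / 2} with hP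
  set Q : Set ℂ := {z | Y < z.im ∧ |z.re| < 1 / 2} with hQ
  have hreg : C1Reg Q (Fh x) v (|C₁| * X) :=
    { meas := (measurableSet_lt measurable_const measurable_im).inter
        (measurableSet_lt (continuous_abs.measurable.comp measurable_re) measurable_const)
      vpos := hv
      Mpos := by positivity
      high := fun z hz => by linarith [hz.1]
      oc := fun w => ⟨fun u hu u' hu' s hs => by
        simp only [hQ, mem_ofPred_eq, add_im, ofReal_im, add_re, ofReal_re, abs_lt] at hu hu' ⊢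
        exact ⟨hu.1, by linarith [hu.2.1, hs.1], by linarith [hu'.2.2, hs.2]⟩⟩
      strip := ⟨-1 / 2, by rw [abs_le]; constructor <;> norm_num, fun z hz => by
        have := abs_lt.1 hz.2
        constructor <;> linarith [this.1, this.2]⟩
      diff := fun z hz => Fh_diff hx hz
      bd := fun z hz => by
        have a1 := hC₁ x hx z hz.1.le hz.2.le
        rw [← hX] at a1
        have a0 : 1 ≤ z.im := by linarith [hz.1]
        have a2 : z.im ^ (1 / 6 : ℝ) ≤ √√z.im := by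
          rw [Real.sqrt_eq_rpow, Real.sqrt_eq_rpow, ← Real.rpow_mul (by linarith)]
          exact Real.rpow_le_rpow_of_exponent_le a0 (by norm_num)
        have a3 : C₁ * z.im ^ (1 / 6 : ℝ) * X ≤ |C₁| * √√z.im * X := by
          refine mul_le_mul_of_nonneg_right ?_ hX0.le
          exact mul_le_mul (le_abs_self _) a2 (by positivity) (abs_nonneg _)
        constructor <;> linarith [a1.1, a1.2] }
  have hbd : ∀ z ∈ Q, ‖Fh x z‖ ≤ |C₁| * X * z.im ^ (1 / 6 : ℝ) ∧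
      ‖deriv (Fh x) z‖ ≤ |C₁| * X * z.im ^ (1 / 6 : ℝ) := fun z hz => by
    have a1 := hC₁ x hx z hz.1.le hz.2.le
    rw [← hX] at a1
    have a0 : 0 ≤ z.im := by linarith [hz.1]
    have a3 : C₁ * (z.im ^ (1 / 6 : ℝ) * X) ≤ |C₁| * (z.im ^ (1 / 6 : ℝ) * X) :=
      mul_le_mul_of_nonneg_right (le_abs_self _) (by positivity)
    constructor <;> linarith [a1.1, a1.2]
  let φ : ℤ × ℤ ≃ ℤ × ℤ := ⟨fun y => (y.2, y.2 - y.1), fun y => (y.1 - y.2, y.1),
    fun y => by simp, fun y => by simp⟩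
  have hφ : ∀ y, φ y = (y.2, y.2 - y.1) := fun _ => rfl
  have hφ' : ∀ y, φ.symm y = (y.1 - y.2, y.1) := fun _ => rfl
  have hodd : ∀ g : GT, Odd (g.c - g.a) := fun g => by
    have := g.p1
    rw [show g.c - g.a = g.a + g.c - 2 * g.a by ring]
    exact this.sub_even (even_two_mul _)
  have key := circle1_unf (circle1_hT x n P) (circle1_hN x n P) φ
    (fun y => by simp only [hφ, Prod.fst_neg, Prod.snd_neg, Prod.neg_mk]; congr 1; ring)
    (fun p => c1U n p (eC n p) Q (Fh x)) (3 * (n * ⌈1 / v⌉₊) + n) (n * ⌈1 / v⌉₊)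
    (fun p => κ * X * (n : ℝ) ^ (-1 / 4 : ℝ) *
      if Odd p ∧ p ^ 2 ≤ ⌈1 / v⌉₊ * n then BC p / p else 0)
    (b₀ := 0) le_rfl ?_ ?_ ?_ ?_ ?_ ?_
  · refine ⟨key.1, key.2.trans ?_⟩
    rw [← Finset.mul_sum, ← Finset.sum_filter, mul_comm n]
    exact le_of_eq (by ring)
  · intro g p hp hg
    simp only [hφ] at hg ⊢
    refine ⟨-((g.b - g.d) / p), fun t => ?_⟩
    have hpo : Odd p := by
      have := hodd g
      rw [hg] at this
      exact_mod_cast this
    have hτ := circle1_hc_pos hn0 t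
    have hp' : (p : ℂ) ≠ 0 := Nat.cast_ne_zero.2 hp.ne'
    have e1 : hc n (t + -((g.b - g.d) / p)) = hc n t - (g.b - g.d) / p := by
      rw [circle1_hc_add]; push_cast; ring
    have hd := g.den_ne hτ
    have hw := g.im_mob_pos hτ
    have hcc : (g.a : ℂ) = g.c - p := by
      have : (g.c : ℂ) - g.a = p := by exact_mod_cast hg
      linear_combination -this
    have hdet : ((g.c : ℂ) - p) * g.d - g.b * g.c = 1 := by rw [← hcc]; exact_mod_cast g.det
    have hd2 : (p : ℂ) * hc n t - (g.b - g.d) ≠ 0 := by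
      intro h
      have := congrArg Complex.im h
      simp at this
      rcases this with h | h
      · omega
      · linarith
    have e2 : zw (g.mob (hc n t)) = (g.c : ℂ) / p + c1om n p (t + -((g.b - g.d) / p)) := by
      have e : (p : ℂ) ^ 2 * (hc n t - (g.b - g.d) / p) = p * (p * hc n t - (g.b - g.d)) := by
        field_simp
      have e' : 1 - g.mob (hc n t) = (p * hc n t - (g.b - g.d)) / (g.c * hc n t + g.d) := by
        rw [GT.mob, hcc]; field_simp; ring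
      rw [zw, e', c1om, e1, e, one_div_div, div_add_div _ _ hp' (mul_ne_zero hp' hd2),
        div_eq_div_iff hd2 (mul_ne_zero hp' (mul_ne_zero hp' hd2))]
      linear_combination -(p * (p * hc n t - (g.b - g.d))) * hdet
    have e3 := (eC_spec n hpo).2.2 g hg _ hτ
    have hz := im_zw_pos hw
    have e4 := th2_ne hz
    have e5 := rt_ne (ne_of_im hz)
    have e6 := th3_wz hz
    rw [wz_zw] at e6
    unfold c1T c1U
    rw [e3, e1, ← e2, e6]
    by_cases hm : zw (g.mob (hc n t)) ∈ Q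
    · rw [if_pos hm, if_pos (show g.mob (hc n t) ∈ P from hm),
        show c1om n p (t + -((g.b - g.d) / p)) = zw (g.mob (hc n t)) - g.c / p by rw [e2]; ring,
        Fh, wz_zw]
      field_simp
    · rw [if_neg hm, if_neg (show g.mob (hc n t) ∉ P from hm)]
  · intro g hg
    simp only [hφ] at hg
    have := hodd g
    rw [hg] at this
    simp at this
  · intro p a t hp hne
    obtain ⟨a1, a2, a3⟩ := circle1_K hn0 hp hreg hne
    refine ⟨a1, a2, ?_⟩
    have hpo : Odd p := by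
      by_contra h
      exact a3 (by rw [eC, dif_neg h]; rfl)
    have hco : IsCoprime a p := by
      by_contra h
      exact a3 ((eC_spec n hpo).2.1 a h)
    simp only [hφ']
    constructor
    · obtain ⟨u, w, h⟩ := hco
      exact ⟨-w, u + w, by linear_combination h⟩
    · rw [show a - p + a = 2 * a - p by ring]
      exact (even_two_mul a).sub_odd (by exact_mod_cast hpo)
  · intro p hp
    exact circle1_R hn0 hp hreg _
  · intro p a hp
    exact circle1_U_int hn0 hp hreg _ a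
  · intro p hp
    rw [Finset.mem_Icc] at hp
    have hp0 : 0 < p := hp.1
    split_ifs with hl
    · refine (shr1_frame hn0 hp0 hreg (by positivity) hbd (e := eC n p)
        (fun a₀ L _ => hBC p hl.1 a₀ L) (by omega)).trans (le_of_eq (by rw [hκ]; ring))
    · rw [mul_zero]
      by_cases hpo : Odd p
      · exact shr1_frame_zero hn0 hp0 hreg _ (fun h => hl ⟨hpo, h⟩) _
      · refine (shr1_frame hn0 hp0 hreg (by positivity) hbd (e := eC n p) (B := 0)
          (fun a₀ L _ => ?_) (by omega)).trans (le_of_eq (by ring))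
        rw [eC, dif_neg hpo]
        simp

end

end Pool.Agent.MP_9f080f_an

end

-- part MP_9f080f_an.ShR1
section

namespace Pool.Agent.MP_9f080f_an
open Complex MeasureTheory Set Filter Topology Metric
open scoped Real

noncomputable section

/-! `R1_bound` with general bounds for the subsums: re-run `circle1_frame`, `circle1_top`, `circle1_cusp`,
`R1_bound` (files `Circle1*`; copy and adapt, reuse all lemmas that do not change) with two changes.
(1) Keep the bound `B` for the subsums abstract instead of using `pv_short`, `pv_long`, `circle1_sum`.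
(2) Use the growth exponent `1/6` (as in `Fh_cusp`; in the top part `1 ≤ (y/v)^(1/6)`) instead of `1/4` and a
sharper majorant: with `y = im ω ≤ 1/(p² n t²)`, `‖ω‖ = √(n y)/p`, one has
`‖rt ω‖ y^(1/6) = n^(1/4) p^(-1/2) y^(5/12) ≤ n^(1/4) p^(-1/2) (p² n t²)^(-5/12)` for `t ≠ 0`, supported in
`|t| ≤ 1/(p √(n v))` (`circle1_supp`), whose integral is `12 v^(-1/12) n^(-1/4) p^(-3/2)`
(`integral_rpow`, `intervalIntegral.intervalIntegrable_rpow'`).  So a column of denominator `p` contributes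
`C M B √p n^(-1/4) p^(-3/2) = C M n^(-1/4) B / p`, and only `p` with `v p² ≤ n` occur. -/

theorem R1_gen : ∃ (Y₀ : ℕ) (C : ℝ), ∀ n : ℕ, 2 ≤ n → ∀ BT BC : ℕ → ℝ,
    (∀ c : ℕ, 0 < c → ∀ (a₀ : ℤ) (L : ℕ), L ≤ 2 * c → ‖∑ i ∈ Finset.range L, eT n c (a₀ + i)‖ ≤ BT c) →
    (∀ β : ℕ, Odd β → ∀ (a₀ : ℤ) (L : ℕ), ‖∑ i ∈ Finset.range L, eC n β (a₀ + i)‖ ≤ BC β) →
    ∀ x : ℝ, 0 ≤ x → ‖R1 x n‖ ≤ C * (1 + (n : ℝ) ^ (-1 / 4 : ℝ) *
      (∑ c ∈ (Finset.Icc 1 (Y₀ * n)).filter (fun c => c ^ 2 ≤ Y₀ * n), BT c / c +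
        ∑ β ∈ (Finset.Icc 1 (Y₀ * n)).filter (fun β => Odd β ∧ β ^ 2 ≤ Y₀ * n), BC β / β)) *
      (1 + x) ^ (-2 / 3 : ℝ) := by
  obtain ⟨Y, hY, hC₃⟩ := shr1_cusp
  obtain ⟨C₃, hC₃0, hC₃⟩ := hC₃ (1 / (2 * Y)) (by positivity)
    (by rw [div_le_one (by positivity)]; linarith)
  obtain ⟨C₁, hC₁0, hC₁⟩ := shr1_top (v := 1 / (2 * Y)) (by positivity)
  refine ⟨⌈1 / (1 / (2 * Y))⌉₊, 1 / 4 * (C₁ + C₁ + C₃), fun n hn BT BC hBT hBC x hx => ?_⟩
  set P₁ : Set ℂ := {w | w ∈ FD ∧ (zw w).im ≤ Y ∧ w.re ≤ 1} with hP₁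
  set P₂ : Set ℂ := {w | w ∈ FD ∧ (zw w).im ≤ Y ∧ 1 < w.re} with hP₂
  set P₃ : Set ℂ := {w | Y < (zw w).im ∧ |(zw w).re| < 1 / 2} with hP₃
  have hm : MeasurableSet {w : ℂ | (zw w).im ≤ Y} :=
    measurableSet_le (measurable_im.comp circle1_zw_meas) measurable_const
  have k1 := hC₁ P₁ (circle1_fd_meas.inter (hm.inter (measurableSet_le measurable_re measurable_const)))
    (fun z hz => circle1_low hY hz.1 hz.2.1) (fun w => ⟨fun u hu u' hu' s hs => by
      have a1 := hu'.2.2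
      simp only [add_re, ofReal_re] at a1
      have := circle1_between hs.1 hs.2 hu.1 hu'.1 hu'.2.1 (by nlinarith [hs.2])
      exact ⟨this.1, this.2, by simp only [add_re, ofReal_re]; linarith [hs.2]⟩⟩) n hn BT hBT x hx
  have k2 := hC₁ P₂ (circle1_fd_meas.inter (hm.inter (measurableSet_lt measurable_const measurable_re)))
    (fun z hz => circle1_low hY hz.1 hz.2.1) (fun w => ⟨fun u hu u' hu' s hs => by
      have a1 := hu.2.2
      simp only [add_re, ofReal_re] at a1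
      have := circle1_between hs.1 hs.2 hu.1 hu'.1 hu.2.1 (by nlinarith [hs.1])
      exact ⟨this.1, this.2, by simp only [add_re, ofReal_re]; linarith [hs.1]⟩⟩) n hn BT hBT x hx
  have k3 := hC₃ n hn BC hBC x hx
  have h3 : P₃ ⊆ FD := fun w hw => by
    have := wz_mem_fd (z := zw w) (by linarith [hw.1]) hw.2
    rwa [wz_zw] at this
  have hn0 : 0 < n := by omega
  have hae : ∀ᵐ t : ℝ, th3 (hc n t) * hk x (sf (hc n t)) * ep (-n * hc n t) =
      1 / 2 * ((∑' g, c1T x n P₁ g t) + (∑' g, c1T x n P₂ g t) + ∑' g, c1T x n P₃ g t) := by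
    filter_upwards [ae_tile (y := 1 / n) (by positivity)] with t ht
    obtain ⟨-, g₀, hg⟩ := ht
    have e : (t : ℂ) + ((1 / n : ℝ) : ℂ) * I = hc n t := by unfold hc; push_cast; ring
    rw [e] at hg
    have h0 := (hg g₀).2 (Or.inl rfl)
    rw [circle1_tsum hg (P := P₁) fun _ h => h.1, circle1_tsum hg (P := P₂) fun _ h => h.1,
      circle1_tsum hg h3, ← circle1_val hx (circle1_hc_pos hn0 t) h0]
    unfold c1T
    by_cases c1 : (zw (g₀.mob (hc n t))).im ≤ Y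
    · have n3 : g₀.mob (hc n t) ∉ P₃ := fun h => absurd h.1 (not_lt.2 c1)
      by_cases c2 : (g₀.mob (hc n t)).re ≤ 1
      · rw [if_pos (show g₀.mob (hc n t) ∈ P₁ from ⟨h0, c1, c2⟩),
          if_neg (show g₀.mob (hc n t) ∉ P₂ from fun h => absurd h.2.2 (not_lt.2 c2)), if_neg n3]
        ring
      · rw [if_neg (show g₀.mob (hc n t) ∉ P₁ from fun h => c2 h.2.2),
          if_pos (show g₀.mob (hc n t) ∈ P₂ from ⟨h0, c1, not_le.1 c2⟩), if_neg n3]
        ring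
    · rw [if_neg (show g₀.mob (hc n t) ∉ P₁ from fun h => c1 h.2.1),
        if_neg (show g₀.mob (hc n t) ∉ P₂ from fun h => c1 h.2.1),
        if_pos (show g₀.mob (hc n t) ∈ P₃ from ⟨not_le.1 c1, fd_zw_re h0⟩)]
      ring
  rw [R1, intervalIntegral.integral_congr_ae (hae.mono fun t ht _ => ht),
    intervalIntegral.integral_const_mul, intervalIntegral.integral_add (k1.1.add k2.1) k3.1,
    intervalIntegral.integral_add k1.1 k2.1, norm_mul, norm_mul]
  have hn2 : ‖(1 / 2 : ℂ)‖ = 1 / 2 := by simp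
  rw [hn2]
  have key := (norm_add₃_le).trans (add_le_add (add_le_add k1.2 k2.2) k3.2)
  generalize ⌈1 / (1 / (2 * Y))⌉₊ = Y₀ at key ⊢
  have a1 : 0 ≤ ∑ c ∈ (Finset.Icc 1 (Y₀ * n)).filter (fun c => c ^ 2 ≤ Y₀ * n), BT c / c :=
    Finset.sum_nonneg fun c hc => by
      have h1 : 0 < c := (Finset.mem_Icc.1 (Finset.mem_filter.1 hc).1).1
      have h2 : 0 ≤ BT c := (norm_nonneg _).trans (hBT c h1 0 0 (by omega))
      positivity
  have a2 : 0 ≤ ∑ β ∈ (Finset.Icc 1 (Y₀ * n)).filter (fun β => Odd β ∧ β ^ 2 ≤ Y₀ * n), BC β / β :=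
    Finset.sum_nonneg fun c hc => by
      have h2 : 0 ≤ BC c := (norm_nonneg _).trans (hBC c (Finset.mem_filter.1 hc).2.1 0 0)
      positivity
  generalize ∑ c ∈ (Finset.Icc 1 (Y₀ * n)).filter (fun c => c ^ 2 ≤ Y₀ * n), BT c / c = S at key a1 ⊢
  generalize ∑ β ∈ (Finset.Icc 1 (Y₀ * n)).filter (fun β => Odd β ∧ β ^ 2 ≤ Y₀ * n), BC β / β = S'
    at key a2 ⊢
  have hX : 0 < (1 + x) ^ (-2 / 3 : ℝ) := by positivity
  have hN : 0 ≤ (n : ℝ) ^ (-1 / 4 : ℝ) := by positivity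
  generalize (1 + x) ^ (-2 / 3 : ℝ) = X at key hX ⊢
  generalize (n : ℝ) ^ (-1 / 4 : ℝ) = N at key hN ⊢
  have b1 : 0 ≤ C₁ * (N * S') * X := by positivity
  have b2 : 0 ≤ C₃ * (1 + N * S) * X := by positivity
  nlinarith

end

end Pool.Agent.MP_9f080f_an

end

-- part MP_9f080f_an.IdentA
section

namespace Pool.Agent.MP_9f080f_an
open Complex MeasureTheory Set Filter Topology Metric
open scoped Real

noncomputable section

/-! The terms of the cocycle sum along the horocycle. -/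

/-- the holomorphic form attached to the cusp `q/β` -/
def om (x : ℝ) (n β : ℕ) (q : ℤ) (z : ℂ) : ℂ :=
  eC n β q * (√β / β ^ 2) * phi x z * kc (n / β ^ 2) (z - q / β)

lemma fC_eq (x : ℝ) (n β : ℕ) (q : ℤ) (η : ℝ) : fC x n β q η = om x n β q (ln η) * I := rfl

lemma om_diff (x : ℝ) (n β : ℕ) (q : ℤ) {z : ℂ} (hz : 0 < z.im) :
    DifferentiableAt ℂ (om x n β q) z := by
  have h1 : 0 < (z - q / β).im := by
    have : ((q : ℂ) / β) = ((q / β : ℝ) : ℂ) := by push_cast; rfl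
    rw [this, sub_im, ofReal_im, sub_zero]; exact hz
  exact ((phi_diff x hz).const_mul _).mul
    ((hasDerivAt_kc _ h1.le (ne_of_im h1)).differentiableAt.comp z
      (f := fun z : ℂ => z - q / β) (by fun_prop))

lemma lin_ne {β : ℕ} (hβ : 0 < β) (k : ℤ) {τ : ℂ} (h : 0 < τ.im) : (β : ℂ) * τ - k ≠ 0 := by
  apply ne_of_im
  have : (0 : ℝ) < β := by exact_mod_cast hβ
  simpa using mul_pos this h

lemma zw_mob {g : GT} {β : ℕ} (hβ : 0 < β) (hg : g.c - g.a = β) {τ : ℂ} (h : 0 < τ.im) :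
    zw (g.mob τ) = g.c / β - 1 / (β * (β * τ - (g.b - g.d : ℤ))) := by
  have h1 := g.den_ne h
  have h2 := lin_ne hβ (g.b - g.d) h
  have h3 : (β : ℂ) ≠ 0 := by exact_mod_cast hβ.ne'
  have hg' : (g.a : ℂ) = g.c - β := by
    have : (g.c : ℂ) - g.a = β := by exact_mod_cast hg
    linear_combination -this
  have hd := g.det_cx
  have e : 1 - g.mob τ = (β * τ - (g.b - g.d : ℤ)) / (g.c * τ + g.d) := by
    rw [GT.mob, hg']; push_cast; field_simp; ring
  rw [zw, e]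
  field_simp
  rw [hg'] at hd
  push_cast
  linear_combination -hd

lemma om_eq (x : ℝ) (n : ℕ) {g : GT} {β : ℕ} (hβ : Odd β) (hg : g.c - g.a = β) {τ : ℂ}
    (h : 0 < τ.im) : om x n β g.c (zw (g.mob τ)) =
      g.chi * th3 τ * ep (-n * τ) * psi x (g.mob τ) * (β * τ - (g.b - g.d : ℤ)) ^ 2 := by
  have h2 := lin_ne hβ.pos (g.b - g.d) h
  have h3 : (β : ℂ) ≠ 0 := by exact_mod_cast hβ.pos.ne'
  rw [(eC_spec n hβ).2.2 g hg τ h, om, ← phi_eq x (im_zw_pos (g.im_mob_pos h)), wz_zw, kc]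
  have e : zw (g.mob τ) - g.c / β = -1 / (β * (β * τ - (g.b - g.d : ℤ))) := by
    rw [zw_mob hβ.pos hg h]; ring
  have e2 : (((n : ℝ) / (β : ℝ) ^ 2 : ℝ) : ℂ) / (zw (g.mob τ) - g.c / β) =
      -n * (τ - (g.b - g.d) / β) := by
    rw [e]; push_cast at h2 ⊢; field_simp
  rw [e2]
  generalize rt (zw (g.mob τ) - g.c / β) = r
  rw [e]
  field_simp

/-- the summand along the horocycle -/
def TT (x : ℝ) (n : ℕ) (g : GT) (t : ℝ) : ℂ :=
  th3 (hc n t) * coc x g (hc n t) * ep (-n * hc n t)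

lemma hc_pos {n : ℕ} (hn : 1 ≤ n) (t : ℝ) : 0 < (hc n t).im := by
  rw [hc_im]; positivity

lemma TT_arc (x : ℝ) {n : ℕ} (hn : 1 ≤ n) {g : GT} {β : ℕ} (hβ : Odd β) (hg : g.c - g.a = β)
    (s : ℝ) : TT x n g (s + (g.b - g.d) / β) =
      (sg (1 / 2 - (g.c / β : ℝ)) - sg (1 / 2 - (((g.c / β : ℝ) : ℂ) -
        (1 / β ^ 2 : ℝ) / (s + (1 / n : ℝ) * I)).re)) *
      om x n β g.c (((g.c / β : ℝ) : ℂ) - (1 / β ^ 2 : ℝ) / (s + (1 / n : ℝ) * I)) *
        ((1 / β ^ 2 : ℝ) / (s + (1 / n : ℝ) * I) ^ 2) := by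
  have h3 : (β : ℂ) ≠ 0 := by exact_mod_cast hβ.pos.ne'
  have h4 : (0 : ℝ) < β := by exact_mod_cast hβ.pos
  set τ := hc n (s + (g.b - g.d) / β) with hτ
  have h : 0 < τ.im := hc_pos hn _
  set u : ℂ := s + (1 / n : ℝ) * I with hu
  have e1 : (β : ℂ) * τ - (g.b - g.d : ℤ) = β * u := by
    rw [hτ, hc, hu]; push_cast; field_simp; ring
  have hu0 : u ≠ 0 := by
    have := lin_ne hβ.pos (g.b - g.d) h
    rw [e1] at this; exact right_ne_zero_of_mul this
  have e2 : ((g.c / β : ℝ) : ℂ) - (1 / β ^ 2 : ℝ) / u = zw (g.mob τ) := by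
    rw [zw_mob hβ.pos hg h, e1]; push_cast; field_simp
  have hz := im_zw_pos (g.im_mob_pos h)
  have e3 : sg (normSq (g.mob τ) - 1) = sg (1 / 2 - (zw (g.mob τ)).re) := by
    rw [← sg_mul_pos (r := 1 / 2 - (zw (g.mob τ)).re) (c := 2 / normSq (zw (g.mob τ)))
      (div_pos two_pos (normSq_pos.2 (ne_of_im hz)))]
    have := normSq_wz_sub (ne_of_im hz)
    rw [wz_zw] at this
    rw [this]; congr 1; ring
  have e4 : sg ((g.a : ℝ) ^ 2 - (g.c : ℝ) ^ 2) = sg (1 / 2 - (g.c / β : ℝ)) := by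
    rw [← sg_mul_pos (r := 1 / 2 - (g.c / β : ℝ)) (c := 2 * β ^ 2) (by positivity)]
    have hg' : (g.a : ℝ) = g.c - β := by
      have : (g.c : ℝ) - g.a = β := by exact_mod_cast hg
      linear_combination -this
    rw [hg']; congr 1; field_simp; ring
  rw [e2, om_eq x n hβ hg h, e1, TT, ← hτ, coc, e3, e4]
  push_cast
  field_simp

/-- the part of the vertical line inside the horoball -/
def fB (x : ℝ) (n β : ℕ) (q : ℤ) (η : ℝ) : ℂ :=
  if η ^ 2 + ((q : ℝ) / β - 1 / 2) ^ 2 < n / β ^ 2 * η then fC x n β q η else 0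

lemma TT_int (x : ℝ) {n : ℕ} (hn : 1 ≤ n) {g : GT} {β : ℕ} (hβ : Odd β) (hg : g.c - g.a = β) :
    Integrable (TT x n g) ∧ ∫ t, TT x n g t = 2 * ∫ η in Ioi (0 : ℝ), fB x n β g.c η := by
  have h4 : (0 : ℝ) < β := by exact_mod_cast hβ.pos
  have hz : (g.c / β : ℝ) ≠ 1 / 2 := by
    intro h
    rw [div_eq_div_iff h4.ne' two_ne_zero] at h
    have h1 : g.c * 2 = 1 * β := by exact_mod_cast h
    obtain ⟨k, hk⟩ := hβ
    omega
  obtain ⟨h1, -, -, h2⟩ := arc (ω := om x n β g.c) (fun z hz => om_diff x n β g.c hz) hz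
    (κ := 1 / β ^ 2) (y := 1 / n) (by positivity) (by positivity)
  simp only [← TT_arc x hn hβ hg] at h1 h2
  rw [integral_add_right_eq_self (TT x n g)] at h2
  refine ⟨by simpa using h1.comp_sub_right ((g.b - g.d) / β), h2.trans ?_⟩
  have : (1 / β ^ 2 : ℝ) / (1 / n) = n / β ^ 2 := by field_simp
  simp only [this, fB, fC_eq]

open Classical in
/-- the cusps whose closed horoball meets the vertical line -/
def WS (n : ℕ) : Finset (ℕ × ℤ) := (BS n ×ˢ Finset.Icc (-n : ℤ) n).filter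
  fun v => (v.1 : ℤ) * |2 * v.2 - v.1| ≤ n ∧ IsCoprime v.2 v.1

lemma mem_WS {n : ℕ} {v : ℕ × ℤ} :
    v ∈ WS n ↔ Odd v.1 ∧ (v.1 : ℤ) * |2 * v.2 - v.1| ≤ n ∧ IsCoprime v.2 v.1 := by
  simp only [WS, BS, Finset.mem_filter, Finset.mem_product, Finset.mem_Icc]
  refine ⟨fun h => ⟨h.1.1.2, h.2⟩, fun ⟨h1, h2, h3⟩ => ⟨?_, h2, h3⟩⟩
  obtain ⟨k, hk⟩ := h1
  have e1 : 1 ≤ |2 * v.2 - v.1| := Int.one_le_abs (by omega)
  have e2 : (v.1 : ℤ) ≤ v.1 * |2 * v.2 - v.1| := le_mul_of_one_le_right (by positivity) e1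
  have e3 : |2 * v.2 - v.1| ≤ v.1 * |2 * v.2 - v.1| :=
    le_mul_of_one_le_left (abs_nonneg _) (by omega)
  have e4 := abs_le.1 (e3.trans h2)
  exact ⟨⟨⟨by omega, by omega⟩, k, hk⟩, by omega, by omega⟩

lemma sum_WS (n : ℕ) (X : ℕ → ℤ → ℂ) (hX : ∀ (β : ℕ) (q : ℤ), Odd β → ¬IsCoprime q β → X β q = 0) :
    ∑ β ∈ BS n, ∑ q ∈ QS n β, X β q = ∑ v ∈ WS n, X v.1 v.2 := by
  rw [WS, Finset.sum_filter, Finset.sum_product]
  refine Finset.sum_congr rfl fun β hβ => ?_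
  rw [QS, Finset.sum_filter]
  refine Finset.sum_congr rfl fun q _ => ?_
  by_cases h : IsCoprime q β
  · simp [h]
  · simp [h, hX β q (Finset.mem_filter.1 hβ).2 h]

lemma adm_WS {n : ℕ} {v : ℕ × ℤ} (h : v ∈ WS n) : Adm (v.2 - v.1) v.2 := by
  obtain ⟨⟨k, hk⟩, -, u, w, h3⟩ := mem_WS.1 h
  exact ⟨⟨-w, u + w, by linear_combination h3⟩, v.2 - k - 1, by omega⟩

lemma col_WS {n : ℕ} {g : GT} (h : |g.a ^ 2 - g.c ^ 2| ≤ n) (h0 : 0 < g.c - g.a) :
    ((g.c - g.a).toNat, g.c) ∈ WS n := by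
  have e : (((g.c - g.a).toNat : ℕ) : ℤ) = g.c - g.a := Int.toNat_of_nonneg h0.le
  refine mem_WS.2 ⟨?_, ?_, ?_⟩
  · obtain ⟨k, hk⟩ := g.p1
    exact ⟨(k - g.a).toNat, by simp only; omega⟩
  · simp only [e]
    rw [← abs_of_pos h0, ← abs_mul, ← abs_neg]
    rw [abs_of_pos h0]
    rwa [show -((g.c - g.a) * (2 * g.c - (g.c - g.a))) = g.a ^ 2 - g.c ^ 2 by ring]
  · simp only [e]
    exact ⟨g.d - g.b, -g.d, by linear_combination g.det⟩

theorem R2_unfold {n : ℕ} (hn : 1 ≤ n) (x : ℝ) :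
    IntervalIntegrable (fun t => ∑' g, TT x n g t) volume 0 2 ∧
      ∫ t in (0 : ℝ)..2, ∑' g, TT x n g t =
        4 * ∑ v ∈ WS n, ∫ η in Ioi (0 : ℝ), fB x n v.1 v.2 η := by
  classical
  set φ : ℕ × ℤ → ℤ × ℤ := fun v => (v.2 - v.1, v.2) with hφ
  have hinj : Function.Injective φ := by
    intro v w h
    simp only [hφ, Prod.mk.injEq] at h
    ext <;> omega
  have hne : ∀ g t, TT x n g t ≠ 0 →
      sg ((g.a : ℝ) ^ 2 - (g.c : ℝ) ^ 2) ≠ sg (normSq (g.mob (hc n t)) - 1) := by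
    intro g t h e
    apply h
    simp [TT, coc, e]
  have hrep : ∀ v ∈ WS n, Integrable (TT x n (rep (φ v).1 (φ v).2)) ∧
      ∫ t, TT x n (rep (φ v).1 (φ v).2) t = 2 * ∫ η in Ioi (0 : ℝ), fB x n v.1 v.2 η := by
    intro v hv
    have h := TT_int x hn (g := rep (v.2 - v.1) v.2) (mem_WS.1 hv).1
      (by rw [rep_a (adm_WS hv), rep_c (adm_WS hv)]; ring)
    rwa [rep_c (adm_WS hv)] at h
  have key := unfold2 (T := TT x n) (fun g j t => ?_) (fun g t => ?_) ((WS n).image φ)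
    (fun p hp => ?_) (fun g t h => ?_) (fun p hp hp' => ?_) (fun g => ?_) (fun p hp => ?_)
  · refine ⟨key.1, key.2.trans ?_⟩
    rw [Finset.sum_image hinj.injOn, Finset.sum_congr rfl fun v hv => (hrep v hv).2,
      ← Finset.mul_sum]
    ring
  · have e : hc n (t + 2 * j) = hc n t + 2 * j := by simp only [hc]; push_cast; ring
    have e2 : ep (-n * (hc n t + 2 * j)) = ep (-n * hc n t) := by
      rw [mul_add, ep_add, show (-n * (2 * j) : ℂ) = 2 * ((-n * j : ℤ) : ℂ) by push_cast; ring,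
        ep_two_int, mul_one]
    simp [TT, e, th3_T, coc, GT.chi_mul, GT.mob_mul_T, -neg_mul, e2]
  · simp [TT, coc, GT.chi_mul, GT.mob_N_mul]
  · obtain ⟨v, hv, rfl⟩ := Finset.mem_image.1 hp
    exact adm_WS hv
  · have h1 := (GT.sg_ne_bound (hc_pos hn t) (hne g t h)).1
    rw [hc_im, mul_one_div, div_le_one (by positivity)] at h1
    have h2 : |g.a ^ 2 - g.c ^ 2| ≤ n := by exact_mod_cast h1
    have h3 : g.c - g.a ≠ 0 := by obtain ⟨k, hk⟩ := g.p1; omega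
    rcases lt_or_gt_of_ne h3 with h4 | h4
    · right
      have := col_WS (g := GT.N * g) (n := n) (by simpa using h2) (by simp; omega)
      refine Finset.mem_image.2 ⟨_, this, ?_⟩
      simp [hφ]; omega
    · left
      refine Finset.mem_image.2 ⟨_, col_WS h2 h4, ?_⟩
      simp [hφ]; omega
  · obtain ⟨v, hv, rfl⟩ := Finset.mem_image.1 hp
    obtain ⟨w, hw, e⟩ := Finset.mem_image.1 hp'
    have := (mem_WS.1 hv).1.pos
    simp only [hφ, Prod.neg_mk, Prod.mk.injEq] at e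
    omega
  · refine ⟨1 + |(g.a : ℝ) * g.b - g.c * g.d|, fun t ht => ?_⟩
    by_contra h
    have h1 := (GT.sg_ne_bound (hc_pos hn t) (hne g t h)).2
    rw [hc_re] at h1
    have hA1 : (1 : ℝ) ≤ |(g.a : ℝ) ^ 2 - (g.c : ℝ) ^ 2| := by
      have : 1 ≤ |g.a ^ 2 - g.c ^ 2| := Int.one_le_abs (by obtain ⟨m, hm⟩ := g.odd_A; omega)
      exact_mod_cast this
    generalize (g.a : ℝ) ^ 2 - (g.c : ℝ) ^ 2 = A at *
    generalize (g.a : ℝ) * g.b - g.c * g.d = B at *
    have e1 : |A * t| ≤ |A * t + B| + |B| := by simpa using abs_sub (A * t + B) B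
    rw [abs_mul] at e1
    nlinarith [abs_nonneg t]
  · obtain ⟨v, hv, rfl⟩ := Finset.mem_image.1 hp
    exact (hrep v hv).1

end

end Pool.Agent.MP_9f080f_an

end

-- part MP_9f080f_an.Ident
section

namespace Pool.Agent.MP_9f080f_an
open Complex MeasureTheory Set Filter Topology Metric
open scoped Real

noncomputable section

/-! The cocycle part of the coefficient. -/

/-- the cocycle part -/
def R2 (x : ℝ) (n : ℕ) : ℂ :=
  1 / 2 * ∫ t in (0 : ℝ)..2, th3 (hc n t) * (1 / 8 * ∑' g : GT, coc x g (hc n t)) * ep (-n * hc n t)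

/-- the involution induced by `S` -/
def io (v : ℕ × ℤ) : ℕ × ℤ :=
  if 0 < 2 * v.2 - v.1 then ((2 * v.2 - v.1).toNat, v.2 - v.1) else ((v.1 - 2 * v.2).toNat, v.1 - v.2)

lemma io_cases {v : ℕ × ℤ} (h : Odd v.1) :
    (0 < 2 * v.2 - v.1 ∧ ((io v).1 : ℤ) = 2 * v.2 - v.1 ∧ (io v).2 = v.2 - v.1) ∨
    (2 * v.2 - v.1 < 0 ∧ ((io v).1 : ℤ) = v.1 - 2 * v.2 ∧ (io v).2 = v.1 - v.2) := by
  obtain ⟨k, hk⟩ := h
  unfold io
  split_ifs with h1
  · left; exact ⟨h1, Int.toNat_of_nonneg h1.le, rfl⟩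
  · right; exact ⟨by omega, Int.toNat_of_nonneg (by omega), rfl⟩

lemma io_mem {n : ℕ} {v : ℕ × ℤ} (h : v ∈ WS n) : io v ∈ WS n := by
  obtain ⟨h1, h2, a, b, h3⟩ := mem_WS.1 h
  have hp := h1.pos
  obtain ⟨k, hk⟩ := id h1
  refine mem_WS.2 ?_
  rcases io_cases h1 with ⟨e0, e1, e2⟩ | ⟨e0, e1, e2⟩
  · refine ⟨⟨(v.2 - k - 1).toNat, by omega⟩, ?_, -a - 2 * b, a + b, ?_⟩
    · rw [e1, e2, show 2 * (v.2 - v.1) - (2 * v.2 - v.1) = -(v.1 : ℤ) by ring, abs_neg,
        abs_of_pos (by omega : (0 : ℤ) < v.1), mul_comm]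
      rwa [abs_of_pos e0] at h2
    · rw [e1, e2]; linear_combination h3
  · refine ⟨⟨(k - v.2).toNat, by omega⟩, ?_, a + 2 * b, -a - b, ?_⟩
    · rw [e1, e2, show 2 * (v.1 - v.2) - (v.1 - 2 * v.2) = (v.1 : ℤ) by ring,
        abs_of_pos (by omega : (0 : ℤ) < v.1), mul_comm]
      rwa [abs_of_neg e0, neg_sub] at h2
    · rw [e1, e2]; linear_combination h3

lemma io_io {n : ℕ} {v : ℕ × ℤ} (h : v ∈ WS n) : io (io v) = v := by
  have h1 := (mem_WS.1 h).1
  have h2 := (mem_WS.1 (io_mem h)).1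
  have := h1.pos
  rcases io_cases h1 with ⟨e0, e1, e2⟩ | ⟨e0, e1, e2⟩ <;>
  rcases io_cases h2 with ⟨e3, e4, e5⟩ | ⟨e3, e4, e5⟩ <;> ext <;> omega

lemma sum_io (n : ℕ) (K : ℕ × ℤ → ℂ) : ∑ v ∈ WS n, K (io v) = ∑ v ∈ WS n, K v :=
  Finset.sum_nbij' io io (fun _ h => io_mem h) (fun _ h => io_mem h) (fun _ h => io_io h)
    (fun _ h => io_io h) fun _ _ => rfl

lemma wz_ln_inv {η : ℝ} (h : 0 < η) : wz (ln (1 / (4 * η))) = -1 / wz (ln η) := by
  have h0 : (η : ℂ) ≠ 0 := by exact_mod_cast h.ne'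
  have h1 : ln η ≠ 0 := ne_of_im (by simpa using h)
  have h2 : ln η - 1 ≠ 0 := ne_of_im (by simpa using h)
  have e : ln (1 / (4 * η)) = (ln η - 1) / (2 * (η * I)) := by
    simp only [ln]; push_cast; field_simp
    linear_combination (4 : ℂ) * I_sq
  have e2 : 2 * ((η : ℂ) * I) = 2 * ln η - 1 := by simp only [ln]; ring
  rw [wz, wz, e, e2]; field_simp; ring

lemma fC_io (x : ℝ) {n : ℕ} {v : ℕ × ℤ} (hv : v ∈ WS n) {η : ℝ} (h : 0 < η) :
    fC x n (io v).1 (io v).2 (1 / (4 * η)) = 4 * η ^ 2 * fC x n v.1 v.2 η := by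
  have h1 := (mem_WS.1 hv).1
  have h2 := (mem_WS.1 (io_mem hv)).1
  obtain ⟨g, ha, hc⟩ := exists_col (adm_WS hv)
  have hl : 0 < (ln η).im := by simpa using h
  have hw := im_wz_pos hl
  set τ := g⁻¹.mob (wz (ln η)) with hτ
  have hτ0 : 0 < τ.im := GT.im_mob_pos _ hw
  have e0 : g.mob τ = wz (ln η) := g.mob_inv hw
  have e1 := om_eq x n h1 (g := g) (by rw [ha, hc]; ring) hτ0
  rw [e0, zw_wz, hc] at e1
  have eS : (GT.S * g).mob τ = wz (ln (1 / (4 * η))) := by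
    rw [GT.mob_mul _ _ hτ0, e0, GT.mob_S, wz_ln_inv h]
  have ha' : (g.a : ℂ) = g.c - v.1 := by rw [ha, hc]; push_cast; ring
  have e3 : ((g.a + g.c) * τ + (g.b + g.d)) =
      2 * (η * I) * ((v.1 : ℂ) * τ - (g.b - g.d : ℤ)) := by
    have hd := g.den_ne hτ0
    have hl0 := ne_of_im hl
    rw [GT.mob, wz, div_eq_iff hd] at e0
    have e2 : 2 * ((η : ℂ) * I) = 2 * ln η - 1 := by simp only [ln]; ring
    have e4 : ln η * (g.a * τ + g.b) = (ln η - 1) * (g.c * τ + g.d) := by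
      rw [e0]; field_simp
    rw [e2]; push_cast
    linear_combination 2 * e4 + (1 - 2 * ln η) * τ * ha'
  have key : ∀ g' : GT, g'.mob τ = wz (ln (1 / (4 * η))) → g'.chi = -g.chi →
      g'.c - g'.a = (io v).1 → g'.c = (io v).2 →
      (((io v).1 : ℂ) * τ - (g'.b - g'.d : ℤ)) ^ 2 = ((g.a + g.c) * τ + (g.b + g.d)) ^ 2 →
      fC x n (io v).1 (io v).2 (1 / (4 * η)) = 4 * η ^ 2 * fC x n v.1 v.2 η := by
    intro g' k1 k2 k3 k4 k5
    have e2 := om_eq x n h2 k3 hτ0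
    rw [k1, zw_wz, k4, k5, k2, wz_ln_inv h, psi_S, e3] at e2
    rw [fC_eq, fC_eq, e1, e2]
    linear_combination (-4 * η ^ 2 * g.chi * th3 τ * ep (-n * τ) * psi x (wz (ln η)) *
      ((v.1 : ℂ) * τ - (g.b - g.d : ℤ)) ^ 2 * I) * I_sq
  rcases io_cases h1 with ⟨-, k1, k2⟩ | ⟨-, k1, k2⟩
  · refine key (GT.S * g) eS (by simp [GT.chi_mul]) (by simp [k1, ha, hc]; ring) (by simp [k2, ha]) ?_
    have : ((io v).1 : ℂ) = g.a + g.c := by
      have : ((io v).1 : ℤ) = g.a + g.c := by rw [k1, ha, hc]; ring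
      exact_mod_cast this
    rw [this]; simp; ring
  · refine key (GT.N * (GT.S * g)) (by rw [GT.mob_N_mul, eS]) (by simp [GT.chi_mul])
      (by simp [k1, ha, hc]; ring) (by simp [k2, ha]) ?_
    have : ((io v).1 : ℂ) = -(g.a + g.c) := by
      have : ((io v).1 : ℤ) = -(g.a + g.c) := by rw [k1, ha, hc]; ring
      exact_mod_cast this
    rw [this]; simp; ring

lemma ball_iff {n β : ℕ} (hβ : 0 < β) (q : ℤ) (η : ℝ) :
    η ^ 2 + ((q : ℝ) / β - 1 / 2) ^ 2 < n / β ^ 2 * η ↔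
      4 * β ^ 2 * η ^ 2 + (2 * q - β) ^ 2 < 4 * n * η := by
  have h : (0 : ℝ) < β := by exact_mod_cast hβ
  rw [← mul_lt_mul_iff_right₀ (show (0 : ℝ) < 4 * β ^ 2 by positivity)]
  have e1 : 4 * (β : ℝ) ^ 2 * (η ^ 2 + ((q : ℝ) / β - 1 / 2) ^ 2) =
      4 * β ^ 2 * η ^ 2 + (2 * q - β) ^ 2 := by field_simp; ring
  have e2 : 4 * (β : ℝ) ^ 2 * (n / β ^ 2 * η) = 4 * n * η := by field_simp
  rw [e1, e2]

lemma io_sq {v : ℕ × ℤ} (h : Odd v.1) : ((io v).1 : ℤ) ^ 2 = (2 * v.2 - v.1) ^ 2 ∧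
    (2 * (io v).2 - (io v).1) ^ 2 = (v.1 : ℤ) ^ 2 := by
  rcases io_cases h with ⟨-, k1, k2⟩ | ⟨-, k1, k2⟩ <;> rw [k1, k2] <;> constructor <;> ring

lemma fB_io (x : ℝ) {n : ℕ} {v : ℕ × ℤ} (hv : v ∈ WS n) {η : ℝ} (h : 0 < η) :
    fB x n (io v).1 (io v).2 (1 / (4 * η)) = 4 * η ^ 2 * fB x n v.1 v.2 η := by
  have h1 := (mem_WS.1 hv).1
  have h2 := (mem_WS.1 (io_mem hv)).1
  have e1 : ((io v).1 : ℝ) ^ 2 = (2 * v.2 - v.1) ^ 2 := by exact_mod_cast (io_sq h1).1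
  have e2 : (2 * (io v).2 - (io v).1 : ℝ) ^ 2 = (v.1 : ℝ) ^ 2 := by exact_mod_cast (io_sq h1).2
  simp only [fB, fC_io x hv h, mul_ite, mul_zero]
  refine if_congr ?_ rfl rfl
  rw [ball_iff h1.pos, ball_iff h2.pos, e1, e2, ← mul_lt_mul_iff_right₀ (show (0 : ℝ) < 4 * η ^ 2 by positivity)]
  have e3 : 4 * η ^ 2 * (4 * (2 * v.2 - v.1 : ℝ) ^ 2 * (1 / (4 * η)) ^ 2 + (v.1 : ℝ) ^ 2) =
      4 * v.1 ^ 2 * η ^ 2 + (2 * v.2 - v.1) ^ 2 := by field_simp; ring
  have e4 : 4 * η ^ 2 * (4 * n * (1 / (4 * η))) = 4 * n * η := by field_simp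
  rw [e3, e4]

lemma subst_inv {F G : ℝ → ℂ} (h : ∀ η : ℝ, 0 < η → F (1 / (4 * η)) = 4 * η ^ 2 * G η) :
    ∫ η in Ioc (0 : ℝ) (1 / 2), F η = ∫ η in Ioi (1 / 2 : ℝ), G η := by
  have him : (fun η : ℝ => 1 / (4 * η)) '' Ioi (1 / 2) = Ioo 0 (1 / 2) := by
    ext u
    constructor
    · rintro ⟨η, hη, rfl⟩
      have : 1 / 2 < η := hη
      exact ⟨by positivity, by rw [div_lt_iff₀ (by positivity)]; linarith⟩
    · rintro ⟨h1, h2⟩
      refine ⟨1 / (4 * u), ?_, by field_simp⟩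
      rw [mem_Ioi, lt_div_iff₀ (by positivity)]; linarith
  rw [integral_Ioc_eq_integral_Ioo, ← him, integral_image_eq_integral_abs_deriv_smul
    (f' := fun η => -1 / (4 * η ^ 2)) measurableSet_Ioi]
  · refine setIntegral_congr_fun measurableSet_Ioi fun η hη => ?_
    have h0 : 0 < η := lt_trans (by norm_num) hη
    have h1 : (η : ℂ) ≠ 0 := by exact_mod_cast h0.ne'
    rw [h η h0, abs_of_neg (div_neg_of_neg_of_pos (by norm_num) (by positivity)), real_smul]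
    push_cast; field_simp
  · intro η hη
    have h0 : 0 < η := lt_trans (by norm_num) hη
    have := ((hasDerivAt_id η).const_mul 4).inv (by simpa using h0.ne')
    simp only [id, mul_one] at this
    have e : -1 / (4 * η ^ 2) = -4 / (4 * η) ^ 2 := by field_simp
    simp only [one_div, e]
    exact this.hasDerivWithinAt
  · intro a ha b hb e
    have h1 : 0 < a := lt_trans (by norm_num) ha
    have h2 : 0 < b := lt_trans (by norm_num) hb
    simp only at e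
    rw [div_eq_div_iff (by positivity) (by positivity)] at e
    linarith

lemma split_half {F : ℝ → ℂ} (h : IntegrableOn F (Ioi 0)) :
    ∫ η in Ioi (0 : ℝ), F η = (∫ η in Ioc (0 : ℝ) (1 / 2), F η) + ∫ η in Ioi (1 / 2 : ℝ), F η := by
  rw [← setIntegral_union (Ioc_disjoint_Ioi le_rfl) measurableSet_Ioi
    (h.mono_set Ioc_subset_Ioi_self) (h.mono_set (Ioi_subset_Ioi (by norm_num))),
    Ioc_union_Ioi_eq_Ioi (by norm_num)]

lemma fB_integrable {x : ℝ} (hx : 0 ≤ x) (n : ℕ) {β : ℕ} (hβ : Odd β) (q : ℤ) :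
    IntegrableOn (fB x n β q) (Ioi 0) :=
  (Integrable.indicator (fC_integrable hx n hβ q)
    (s := {η : ℝ | η ^ 2 + ((q : ℝ) / β - 1 / 2) ^ 2 < n / β ^ 2 * η})
    (measurableSet_lt (by fun_prop) (by fun_prop))).congr
    (Eventually.of_forall fun η => by simp only [fB, indicator_apply, mem_ofPred_eq])

theorem R2_eq {n : ℕ} (hn : 1 ≤ n) {x : ℝ} (hx : 0 ≤ x) :
    IntervalIntegrable (fun t => th3 (hc n t) * (1 / 8 * ∑' g : GT, coc x g (hc n t)) *
      ep (-n * hc n t)) volume 0 2 ∧ R2 x n = MT x n - JU x n - JL x n := by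
  have e0 : ∀ t, th3 (hc n t) * (1 / 8 * ∑' g : GT, coc x g (hc n t)) * ep (-n * hc n t) =
      1 / 8 * ∑' g, TT x n g t := fun t => by
    simp only [TT, tsum_mul_right, tsum_mul_left]; ring
  obtain ⟨h1, h2⟩ := R2_unfold hn x
  simp only [R2, e0]
  refine ⟨h1.const_mul _, ?_⟩
  rw [intervalIntegral.integral_const_mul, h2]
  have hz : ∀ (β : ℕ) (q : ℤ), Odd β → ¬IsCoprime q β → ∀ η, fC x n β q η = 0 :=
    fun β q hβ hq η => by simp [fC, (eC_spec n hβ).2.1 q hq]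
  set FU : ℕ × ℤ → ℂ := fun v => ∫ η in Ioi (1 / 2 : ℝ), fC x n v.1 v.2 η with hFU
  set PU : ℕ × ℤ → ℂ := fun v => ∫ η in Ioi (1 / 2 : ℝ), fB x n v.1 v.2 η with hPU
  have hFL : ∀ v ∈ WS n, ∫ η in Ioc (0 : ℝ) (1 / 2), fC x n v.1 v.2 η = FU (io v) := fun v hv => by
    have := subst_inv fun η hη => fC_io x (io_mem hv) hη
    rwa [io_io hv] at this
  have hPL : ∀ v ∈ WS n, ∫ η in Ioc (0 : ℝ) (1 / 2), fB x n v.1 v.2 η = PU (io v) := fun v hv => by
    have := subst_inv fun η hη => fB_io x (io_mem hv) hη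
    rwa [io_io hv] at this
  have e1 : ∑ v ∈ WS n, ∫ η in Ioi (0 : ℝ), fB x n v.1 v.2 η = 2 * ∑ v ∈ WS n, PU v := by
    rw [two_mul]
    nth_rewrite 1 [← sum_io n PU]
    rw [← Finset.sum_add_distrib]
    refine Finset.sum_congr rfl fun v hv => ?_
    rw [split_half (fB_integrable hx n (mem_WS.1 hv).1 _), hPL v hv]
  have e2 : MT x n = 1 / 2 * ∑ v ∈ WS n, FU v := by
    rw [MT]
    congr 1
    simp only [Finset.sum_filter]
    rw [sum_WS n (fun β q => if q ≤ 0 ∨ (β : ℤ) < q then ∫ η in Ioi (0 : ℝ), fC x n β q η else 0)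
      fun β q hβ hq => by simp [hz β q hβ hq]]
    have : ∑ v ∈ WS n, (if v.2 ≤ 0 ∨ (v.1 : ℤ) < v.2 then FU (io v) else 0) =
        ∑ v ∈ WS n, (if v.2 ≤ 0 ∨ (v.1 : ℤ) < v.2 then 0 else FU v) := by
      rw [← sum_io]
      refine Finset.sum_congr rfl fun v hv => ?_
      rw [io_io hv, ← ite_not]
      refine if_congr ?_ rfl rfl
      have := (mem_WS.1 hv).1.pos
      rcases io_cases (mem_WS.1 hv).1 with k | k <;> omega
    calc _ = ∑ v ∈ WS n, ((if v.2 ≤ 0 ∨ (v.1 : ℤ) < v.2 then FU (io v) else 0) +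
          if v.2 ≤ 0 ∨ (v.1 : ℤ) < v.2 then FU v else 0) := by
          refine Finset.sum_congr rfl fun v hv => ?_
          rw [split_half (fC_integrable hx n (mem_WS.1 hv).1 _), hFL v hv]
          split_ifs <;> simp [hFU]
      _ = _ := by
          rw [Finset.sum_add_distrib, this, ← Finset.sum_add_distrib]
          refine Finset.sum_congr rfl fun v _ => ?_
          split_ifs <;> simp
  have e3 : JU x n = 1 / 2 * ∑ v ∈ WS n, if v.1 ^ 2 ≤ 2 * n then FU v - PU v else 0 := by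
    rw [JU]
    congr 1
    rw [Finset.sum_filter]
    have := sum_WS n (fun β q => if β ^ 2 ≤ 2 * n then ∫ η in Ioi (1 / 2 : ℝ),
      if η ^ 2 + ((q : ℝ) / β - 1 / 2) ^ 2 < n / β ^ 2 * η then 0 else fC x n β q η else 0)
      fun β q hβ hq => by simp [hz β q hβ hq]
    simp only [Finset.sum_ite_irrel, Finset.sum_const_zero] at this
    rw [this]
    refine Finset.sum_congr rfl fun v hv => if_congr Iff.rfl ?_ rfl
    have hs : Ioi (1 / 2 : ℝ) ⊆ Ioi 0 := Ioi_subset_Ioi (by norm_num)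
    simp only [hFU, hPU]
    rw [← integral_sub ((fC_integrable hx n (mem_WS.1 hv).1 _).mono_set hs)
      ((fB_integrable hx n (mem_WS.1 hv).1 _).mono_set hs)]
    congr 1; ext η
    simp only [fB]; split_ifs <;> simp
  have e4 : JL x n = 1 / 2 * ∑ v ∈ WS n, if v.1 ^ 2 ≤ 2 * n then 0 else FU v := by
    rw [JL]
    congr 1
    simp only [Finset.sum_filter]
    rw [sum_WS n (fun β q => if 2 * (n : ℤ) < (2 * q - β) ^ 2 then
      ∫ η in Ioc (0 : ℝ) (1 / 2), fC x n β q η else 0)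
      fun β q hβ hq => by simp [hz β q hβ hq], ← sum_io]
    refine Finset.sum_congr rfl fun v hv => ?_
    rw [hFL _ (io_mem hv), io_io hv, (io_sq (mem_WS.1 hv).1).2, ← ite_not]
    refine if_congr ?_ rfl rfl
    rw [not_lt]; norm_cast
  have e5 : ∀ v ∈ WS n, ¬v.1 ^ 2 ≤ 2 * n → PU v = 0 := fun v hv h => by
    refine setIntegral_eq_zero_of_forall_eq_zero fun η hη => if_neg ?_
    rw [ball_iff (mem_WS.1 hv).1.pos, not_lt]
    have h3 : (2 * n : ℝ) < v.1 ^ 2 := by exact_mod_cast not_le.1 h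
    have h4 : 1 / 2 < η := hη
    have h5 : (0 : ℝ) ≤ n := by positivity
    have h6 : (n : ℝ) ≤ v.1 ^ 2 * η := by nlinarith
    nlinarith [sq_nonneg (2 * v.2 - v.1 : ℝ)]
  rw [e1, e2, e3, e4, ← mul_sub, ← mul_sub, ← Finset.sum_sub_distrib, ← Finset.sum_sub_distrib]
  have : ∑ v ∈ WS n, (FU v - (if v.1 ^ 2 ≤ 2 * n then FU v - PU v else 0) -
      if v.1 ^ 2 ≤ 2 * n then 0 else FU v) = ∑ v ∈ WS n, PU v := by
    refine Finset.sum_congr rfl fun v hv => ?_
    split_ifs with h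
    · ring
    · rw [e5 v hv h]; ring
  rw [this]; ring

end

end Pool.Agent.MP_9f080f_an

end
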