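import Pool.Agent.MP_9f080f_an.Mg.MainAsmA

namespace Pool.Agent.MP_9f080f_an
open Complex MeasureTheory Set Filter Topology Metric
open scoped Real

noncomputable section

/-! The main term.  If `β² > n` the sum over `q` in `MT` is empty (`|2q - β| ≥ β` there), so
`H = n/β² ≥ 1`.  For `c₀ ∈ {0,1}` and each `q`, `ray` (with `a = 1/2`, `σ = 1` if `q ≤ 0`, `σ = -1` if
`q > β`) moves `∫ ph x (ln η - c₀) kc H (ln η - q/β) I` to the real half line; on the real line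
`kc H t = ep (-1/4) kk H t` for `t > 0` and `kc H (-t) = conj (kc H t)`.  So for each `β`, side and `c₀`
the sum over `q` is `∫ Γ ζ ep (-x/ζ) dζ` with `Γ ζ = (rt ζ)⁻¹ 1_side(ζ + c₀) ∑_q eC q kc H (ζ + c₀ - q/β)`,
and `inv_planch`, `main_L2` (for the second side applied to `q ↦ conj (eC (-q))`, which is again `Tw`
with the same parameters; `A = 0` resp. `A = -1`) bound its `L²` norm by
`C wt β √β (1+log β) √(1 + log (1+n))`.  Sum over `β` by Cauchy-Schwarz with weights `wt β / β`.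
The pointwise bound uses `‖eC q‖ ≤ C wt β √β (1 + log β)` (`pv_long`, `L = 1`), `wt β ≤ C β log^3 n`. -/

lemma mainasm_ray {x H σ c₀ p : ℝ} (hx : 0 ≤ x) (hH : 0 ≤ H) (hσ : σ = 1 ∨ σ = -1)
    (hc : c₀ ≠ 1 / 2) (hp : 1 / 2 ≤ σ * (1 / 2 - p)) :
    IntegrableOn (fun η : ℝ => ph x (ln η - c₀) * kc H (ln η - p) * I) (Ioi 0) ∧
    IntegrableOn (fun s : ℝ => ph x ((1 / 2 - c₀ + σ * s : ℝ) : ℂ)
      * kc H (((1 / 2 : ℝ) : ℂ) + σ * s - p)) (Ioi 0) ∧
    ∫ η in Ioi (0 : ℝ), ph x (ln η - c₀) * kc H (ln η - p) * I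
      = σ * ∫ s in Ioi (0 : ℝ), ph x ((1 / 2 - c₀ + σ * s : ℝ) : ℂ)
        * kc H (((1 / 2 : ℝ) : ℂ) + σ * s - p) := by
  have hd : ∀ z : ℂ, 0 ≤ z.im → z ≠ c₀ → z ≠ p →
      DifferentiableAt ℂ (fun z => ph x (z - c₀) * kc H (z - p)) z := by
    intro z h1 h2 h3
    have a1 : z - c₀ ≠ 0 := sub_ne_zero.2 h2
    have a2 : z - p ≠ 0 := sub_ne_zero.2 h3
    have d1 : DifferentiableAt ℂ (fun z : ℂ => rt (z - c₀)) z :=
      DifferentiableAt.comp (g := rt) z (hasDerivAt_rt (by simpa using h1) a1).differentiableAt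
        (by fun_prop)
    have d2 : DifferentiableAt ℂ (fun z : ℂ => kc H (z - p)) z :=
      DifferentiableAt.comp (g := kc H) z (hasDerivAt_kc H (by simpa using h1) a2).differentiableAt
        (by fun_prop)
    have d3 : DifferentiableAt ℂ (fun z : ℂ => ep (-x / (z - c₀))) z :=
      DifferentiableAt.comp (g := ep) z (differentiable_ep _)
        ((differentiableAt_const _).div (by fun_prop) a1)
    exact (d3.div d1 (rt_ne a1)).mul d2
  have hw : ∀ z : ℂ, 0 ≤ σ * (z.re - 1 / 2) → 1 / 2 ≤ ‖z - p‖ := by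
    intro z h
    refine le_trans ?_ (abs_re_le_norm _)
    simp only [sub_re, ofReal_re]
    rcases hσ with rfl | rfl
    · exact le_abs.2 (Or.inl (by linarith))
    · exact le_abs.2 (Or.inr (by linarith))
  have hne : ∀ z : ℂ, 0 ≤ σ * (z.re - 1 / 2) → z ≠ p := by
    intro z h h0
    have := hw z h
    rw [h0, sub_self, norm_zero] at this
    linarith
  have hK : 0 < 3 + 2 * |p| := by positivity
  obtain ⟨k1, k2, k3⟩ := ray (f := fun z => ph x (z - c₀) * kc H (z - p)) (a := 1 / 2) (c₀ := c₀)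
    (C := Real.exp (2 * π * H) * (3 + 2 * |p|) ^ (3 / 2 : ℝ)) hσ hc
    (fun z h1 h2 h3 => (hd z h1 h3 (hne z h2)).continuousAt)
    (fun z h => hd z h.le (fun h0 => by simp [h0] at h) (fun h0 => by simp [h0] at h))
    (fun z h1 h2 h3 => by
      have a1 := hw z h2
      have a2 : z - p ≠ 0 := sub_ne_zero.2 (hne z h2)
      have a3 : 0 < ‖z - p‖ := norm_pos_iff.2 a2
      have b1 := norm_ph_le hx (z := z - c₀) (by simpa using h1) (sub_ne_zero.2 h3)
      have b2 : Real.exp (π * H * (z - p).im / normSq (z - p)) ≤ Real.exp (2 * π * H) := by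
        rw [Real.exp_le_exp, normSq_eq_norm_sq, div_le_iff₀ (by positivity)]
        have c1 : (z - p).im ≤ 2 * ‖z - p‖ ^ 2 := by nlinarith [im_le_norm (z - p)]
        have c2 := mul_le_mul_of_nonneg_left c1 (mul_nonneg Real.pi_pos.le hH)
        linarith
      have b3 : ‖z - p‖ ^ (-3 / 2 : ℝ) ≤ (3 + 2 * |p|) ^ (3 / 2 : ℝ) * (1 + ‖z‖) ^ (-3 / 2 : ℝ) := by
        have c1 : ‖z‖ ≤ ‖z - p‖ + |p| := by
          simpa using norm_add_le (z - p) (p : ℂ)
        have c2 : (1 + ‖z‖) / (3 + 2 * |p|) ≤ ‖z - p‖ := by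
          rw [div_le_iff₀ hK]
          nlinarith [abs_nonneg p]
        refine (Real.rpow_le_rpow_of_nonpos (by positivity) c2 (by norm_num)).trans (le_of_eq ?_)
        rw [Real.div_rpow (by positivity) hK.le, show (-3 / 2 : ℝ) = -(3 / 2) by ring,
          Real.rpow_neg hK.le, div_inv_eq_mul, mul_comm]
      rw [norm_mul, norm_kc H a2]
      calc _ ≤ ‖z - c₀‖ ^ (-1 / 2 : ℝ) * (((3 + 2 * |p|) ^ (3 / 2 : ℝ) * (1 + ‖z‖) ^ (-3 / 2 : ℝ))
            * Real.exp (2 * π * H)) := by gcongr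
        _ = _ := by ring)
  have e1 : ∀ η : ℝ, ((1 / 2 : ℝ) : ℂ) + η * I = ln η := fun η => by simp [ln]
  have e2 : ∀ s : ℝ, ((1 / 2 : ℝ) : ℂ) + σ * s - c₀ = ((1 / 2 - c₀ + σ * s : ℝ) : ℂ) := fun s => by
    push_cast
    ring
  simp only [e1, e2] at k1 k2 k3
  exact ⟨k1.mul_const I, k2, k3⟩

lemma mainasm_norm_kc (H : ℝ) {t : ℝ} (ht : t ≠ 0) : ‖kc H t‖ = |t| ^ (-3 / 2 : ℝ) := by
  rw [norm_kc H (by exact_mod_cast ht)]
  simp

lemma mainasm_norm_ph (x t : ℝ) : ‖ph x t‖ = ‖ph 0 t‖ := by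
  have := norm_ep_real (-x / t)
  push_cast at this
  rw [mainasm_ph x, norm_mul, this, mul_one]

lemma mainasm_D {σ c₀ : ℝ} (hσ : σ = 1 ∨ σ = -1) (hc : c₀ ≠ 1 / 2) : ∃ D : ℝ, 0 ≤ D ∧
    ∀ x H p : ℝ, 1 / 2 ≤ σ * (1 / 2 - p) →
      ∫ s in Ioi (0 : ℝ), ‖ph x ((1 / 2 - c₀ + σ * s : ℝ) : ℂ)
        * kc H (((1 / 2 : ℝ) : ℂ) + σ * s - p)‖ ≤ D := by
  have h0 := (mainasm_ray (x := 0) (H := 0) (p := 1 / 2 - σ / 2) le_rfl le_rfl hσ hc
    (by rcases hσ with rfl | rfl <;> norm_num)).2.1.norm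
  refine ⟨_, integral_nonneg fun s => norm_nonneg _, fun x H p hp =>
    integral_mono_of_nonneg (Eventually.of_forall fun s => norm_nonneg _) h0 ?_⟩
  filter_upwards [ae_restrict_mem measurableSet_Ioi] with s hs
  have hs' : 0 < s := hs
  have e : ∀ p : ℝ, ((1 / 2 : ℝ) : ℂ) + σ * s - p = ((1 / 2 + σ * s - p : ℝ) : ℂ) := fun p => by
    push_cast
    ring
  have a1 : 0 < |1 / 2 + σ * s - (1 / 2 - σ / 2)| ∧
      |1 / 2 + σ * s - (1 / 2 - σ / 2)| ≤ |1 / 2 + σ * s - p| := by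
    rcases hσ with rfl | rfl
    · rw [abs_of_pos (by linarith), abs_of_pos (by linarith)]
      constructor <;> linarith
    · rw [abs_of_neg (by linarith), abs_of_neg (by linarith)]
      constructor <;> linarith
  rw [norm_mul, norm_mul, e, e, mainasm_norm_ph x, mainasm_norm_kc _ (abs_pos.1 a1.1),
    mainasm_norm_kc _ (abs_pos.1 (a1.1.trans_le a1.2))]
  exact mul_le_mul_of_nonneg_left (Real.rpow_le_rpow_of_nonpos a1.1 a1.2 (by norm_num))
    (norm_nonneg _)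

/-- one block of the main term -/
def mainasmM (e : ℤ → ℂ) (β : ℕ) (H σ c₀ : ℝ) (Q : Finset ℤ) (x : ℝ) : ℂ :=
  ∫ s in Ioi (0 : ℝ), ph x ((1 / 2 - c₀ + σ * s : ℝ) : ℂ) * mainasmS e β H σ Q s

lemma mainasm_split (e : ℤ → ℂ) (β : ℕ) (H σ c₀ : ℝ) (Q : Finset ℤ) (x s : ℝ) :
    ph x ((1 / 2 - c₀ + σ * s : ℝ) : ℂ) * mainasmS e β H σ Q s
      = ∑ q ∈ Q, e q * (ph x ((1 / 2 - c₀ + σ * s : ℝ) : ℂ)
        * kc H (((1 / 2 : ℝ) : ℂ) + σ * s - ((q / β : ℝ) : ℂ))) := by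
  rw [mainasmS, Finset.mul_sum]
  exact Finset.sum_congr rfl fun q _ => by ring

lemma mainasm_int {x H σ c₀ p : ℝ} (hH : 0 ≤ H) (hσ : σ = 1 ∨ σ = -1)
    (hc : c₀ ≠ 1 / 2) (hp : 1 / 2 ≤ σ * (1 / 2 - p)) :
    IntegrableOn (fun s : ℝ => ph x ((1 / 2 - c₀ + σ * s : ℝ) : ℂ)
      * kc H (((1 / 2 : ℝ) : ℂ) + σ * s - p)) (Ioi 0) := by
  have h0 := (mainasm_ray (x := 0) le_rfl hH hσ hc hp).2.1
  have hm : Measurable fun s : ℝ => ep (-x / ((1 / 2 - c₀ + σ * s : ℝ) : ℂ)) :=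
    continuous_ep.measurable.comp (by fun_prop)
  refine (h0.mul_bdd (c := 1) hm.aestronglyMeasurable (Eventually.of_forall fun s => ?_)).congr
    (Eventually.of_forall fun s => ?_)
  · have := norm_ep_real (-x / (1 / 2 - c₀ + σ * s))
    rw [ofReal_div, ofReal_neg] at this
    exact this.le
  · simp only [mainasm_ph x]
    ring

lemma mainasm_eq {e : ℤ → ℂ} {β : ℕ} {H σ c₀ x : ℝ} {Q : Finset ℤ} (hx : 0 ≤ x) (hH : 0 ≤ H)
    (hσ : σ = 1 ∨ σ = -1) (hc : c₀ ≠ 1 / 2) (hA : ∀ q ∈ Q, 1 / 2 ≤ σ * (1 / 2 - (q : ℝ) / β)) :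
    ∑ q ∈ Q, e q * ∫ η in Ioi (0 : ℝ), ph x (ln η - c₀) * kc H (ln η - ((q / β : ℝ) : ℂ)) * I
      = σ * mainasmM e β H σ c₀ Q x := by
  rw [mainasmM]
  simp only [mainasm_split]
  rw [integral_finsetSum _ fun q hq => (mainasm_int hH hσ hc (hA q hq)).const_mul _,
    Finset.mul_sum]
  refine Finset.sum_congr rfl fun q hq => ?_
  rw [(mainasm_ray hx hH hσ hc (hA q hq)).2.2, integral_const_mul]
  ring

lemma mainasm_block {σ c₀ : ℝ} (hσ : σ = 1 ∨ σ = -1) (hc : c₀ = 0 ∨ c₀ = 1) :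
    ∃ K : ℝ, 0 < K ∧ ∀ (n β : ℕ) (Q : Finset ℤ), 2 ≤ n → β ∈ BS n → Q ⊆ QS n β →
      (∀ a ∈ Q, ∀ b ∈ Q, ∀ c, a ≤ c → c ≤ b → c ∈ Q) →
      (∀ q ∈ Q, 1 / 2 ≤ σ * (1 / 2 - (q : ℝ) / β)) →
      MainasmBd (mainasmM (eC n β) β (n / β ^ 2) σ c₀ Q)
        (K * √(Real.log n ^ 3) * (wt β * √β)) (K * n ^ 2 * (wt β * √β)) := by
  have hc' : c₀ ≠ 1 / 2 := by rcases hc with rfl | rfl <;> norm_num
  obtain ⟨D, hD0, hD⟩ := mainasm_D hσ hc'
  obtain ⟨C, hC⟩ := mainasm_L2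
  obtain ⟨C', hC'⟩ := pv_long
  refine ⟨9 * (|C| + 1) + 9 * |C'| * D, by positivity, fun n β Q hn hβ hQS hQ hA => ?_⟩
  obtain ⟨hβ1, hodd⟩ := Finset.mem_filter.1 hβ
  obtain ⟨hβ1, hβn⟩ := Finset.mem_Icc.1 hβ1
  have hβ' : (1 : ℝ) ≤ β := by exact_mod_cast hβ1
  have hβn' : (β : ℝ) ≤ n := by exact_mod_cast hβn
  have hn' : (2 : ℝ) ≤ n := by exact_mod_cast hn
  have hL : 1 / 2 ≤ Real.log n :=
    le_trans (by linarith [Real.log_two_gt_d9]) (Real.log_le_log two_pos hn')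
  have hLn : Real.log n ≤ n := (Real.log_le_sub_one_of_pos (by linarith)).trans (by linarith)
  have hLβ : 1 + Real.log β ≤ 3 * Real.log n := by
    linarith [Real.log_le_log (by linarith) hβn']
  have hLβ0 : 0 ≤ 1 + Real.log β := by linarith [Real.log_nonneg hβ']
  have hW : 0 < wt β * √β := mul_pos (by linarith [one_le_wt β]) (Real.sqrt_pos.2 (by linarith))
  have hΛ : 0 < √(Real.log n ^ 3) := Real.sqrt_pos.2 (by positivity)
  have htw := (eC_spec n hodd).1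
  have hH0 : (0 : ℝ) ≤ n / β ^ 2 := by positivity
  set W := wt β * √β
  rcases Q.eq_empty_or_nonempty with rfl | ⟨q₀, hq₀⟩
  · have e : mainasmM (eC n β) β (n / β ^ 2) σ c₀ ∅ = fun _ => 0 := by
      funext x
      simp [mainasmM, mainasmS]
    rw [e]
    exact ⟨by positivity, continuous_const, by simp, by simp; positivity,
      fun _ => by rw [norm_zero]; positivity⟩
  have hH : (1 : ℝ) / 2 ≤ n / β ^ 2 := by
    have a1 : ((β : ℤ) * |2 * q₀ - β| : ℤ) ≤ n := (Finset.mem_filter.1 (hQS hq₀)).2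
    have a2 : (β : ℝ) * |2 * (q₀ : ℝ) - β| ≤ n := by exact_mod_cast a1
    have a3 := hA q₀ hq₀
    have a4 : (q₀ : ℝ) / β * β = q₀ := div_mul_cancel₀ _ (by linarith)
    have a5 : (β : ℝ) ≤ |2 * (q₀ : ℝ) - β| := by
      have a6 := mul_le_mul_of_nonneg_right a3 (show (0 : ℝ) ≤ β by linarith)
      rw [mul_assoc, sub_mul, a4] at a6
      rcases hσ with rfl | rfl
      · exact le_abs.2 (Or.inr (by linarith))
      · exact le_abs.2 (Or.inl (by linarith))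
    rw [le_div_iff₀ (by positivity)]
    nlinarith
  obtain ⟨k1, k2⟩ := hC (eC n β) β W (n / β ^ 2) σ Q hβ1 hH htw hQ hσ hA
  have hI : ∀ x : ℝ, ∀ q ∈ Q, IntegrableOn (fun s : ℝ => eC n β q
      * (ph x ((1 / 2 - c₀ + σ * s : ℝ) : ℂ) * kc (n / β ^ 2)
        (((1 / 2 : ℝ) : ℂ) + σ * s - ((q / β : ℝ) : ℂ)))) (Ioi 0) :=
    fun x q hq => (mainasm_int hH0 hσ hc' (hA q hq)).const_mul _
  obtain ⟨m1, m2, m3⟩ := mainasm_planch (c := 1 / 2 - c₀) hσ
    (by rcases hc with rfl | rfl <;> norm_num [abs_le]) (by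
      simp only [mainasm_split]
      exact integrable_finsetSum _ (hI 0)) k1
  refine ⟨by positivity, m1, m2, m3.trans ?_, fun x => ?_⟩
  · have a1 : 1 + Real.log (1 + n / β ^ 2) ≤ 4 * Real.log n := by
      have b1 : (n : ℝ) / β ^ 2 ≤ n := div_le_self (by linarith) (by nlinarith)
      have b2 : Real.log (1 + n / β ^ 2) ≤ Real.log (n ^ 2) :=
        Real.log_le_log (by positivity) (by nlinarith)
      rw [Real.log_pow] at b2
      push_cast at b2
      linarith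
    have a2 : 0 ≤ 1 + Real.log (1 + n / β ^ 2) := by
      linarith [Real.log_nonneg (show (1 : ℝ) ≤ 1 + n / β ^ 2 by linarith)]
    have a3 : C * (W * (1 + Real.log β)) ^ 2 * (1 + Real.log (1 + n / β ^ 2))
        ≤ |C| * (W * (3 * Real.log n)) ^ 2 * (4 * Real.log n) := by
      gcongr
      exact le_abs_self C
    have a4 : 72 * |C| ≤ (9 * (|C| + 1) + 9 * |C'| * D) ^ 2 := by
      have : 0 ≤ |C'| * D := by positivity
      nlinarith [abs_nonneg C]
    rw [mul_pow, mul_pow, Real.sq_sqrt (by positivity)]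
    have a5 := mul_le_mul_of_nonneg_right a4 (show 0 ≤ Real.log n ^ 3 * W ^ 2 by positivity)
    nlinarith
  · have a1 : ∀ q ∈ Q, ‖eC n β q‖ ≤ |C'| * W * (3 * n) := by
      intro q _
      have b1 := hC' (eC n β) β W hβ1 htw q 1
      simp only [Finset.range_one, Finset.sum_singleton, Nat.cast_zero, add_zero] at b1
      refine b1.trans ?_
      gcongr
      · exact le_abs_self C'
      · linarith
    have a2 : (Q.card : ℝ) ≤ 3 * n := by
      have b1 := Finset.card_le_card (hQS.trans (Finset.filter_subset _ _))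
      rw [Int.card_Icc] at b1
      have b2 : Q.card ≤ 3 * n := by omega
      exact_mod_cast b2
    rw [mainasmM]
    simp only [mainasm_split]
    rw [integral_finsetSum _ (hI x)]
    refine (norm_sum_le _ _).trans ((Finset.sum_le_card_nsmul _ _ (|C'| * W * (3 * n) * D)
      fun q hq => ?_).trans ?_)
    · rw [integral_const_mul, norm_mul]
      exact mul_le_mul (a1 q hq) ((norm_integral_le_integral_norm _).trans (hD x _ _ (hA q hq)))
        (norm_nonneg _) (by positivity)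
    · rw [nsmul_eq_mul]
      calc _ ≤ (3 * n) * (|C'| * W * (3 * n) * D) := by gcongr
        _ = 9 * |C'| * D * n ^ 2 * W := by ring
        _ ≤ _ := by
          gcongr
          have : 0 ≤ 9 * (|C| + 1) := by positivity
          linarith

/-- the numerators on one side -/
def mainasmQ (n β : ℕ) (σ : ℝ) : Finset ℤ :=
  (QS n β).filter fun q : ℤ => 1 / 2 ≤ σ * (1 / 2 - (q : ℝ) / β) ∧ (q : ℤ) ≠ β

lemma mainasm_mem_pos {n β : ℕ} (hβ : 1 ≤ β) {q : ℤ} :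
    q ∈ mainasmQ n β 1 ↔ q ∈ QS n β ∧ q ≤ 0 := by
  have hβ' : (0 : ℝ) < β := by exact_mod_cast hβ
  rw [mainasmQ, Finset.mem_filter]
  refine and_congr_right fun _ => ⟨fun h => ?_, fun h => ⟨?_, by omega⟩⟩
  · have : (q : ℝ) / β ≤ 0 := by linarith [h.1]
    rw [div_le_iff₀ hβ', zero_mul] at this
    exact_mod_cast this
  · have : (q : ℝ) / β ≤ 0 := div_nonpos_of_nonpos_of_nonneg (by exact_mod_cast h) hβ'.le
    linarith

lemma mainasm_mem_neg {n β : ℕ} (hβ : 1 ≤ β) {q : ℤ} :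
    q ∈ mainasmQ n β (-1) ↔ q ∈ QS n β ∧ (β : ℤ) < q := by
  have hβ' : (0 : ℝ) < β := by exact_mod_cast hβ
  rw [mainasmQ, Finset.mem_filter]
  refine and_congr_right fun _ => ⟨fun h => ?_, fun h => ⟨?_, by omega⟩⟩
  · have : 1 ≤ (q : ℝ) / β := by linarith [h.1]
    rw [le_div_iff₀ hβ', one_mul] at this
    have h2 : (β : ℤ) ≤ q := by exact_mod_cast this
    have := h.2
    omega
  · have : 1 ≤ (q : ℝ) / β := by
      rw [le_div_iff₀ hβ', one_mul]
      exact_mod_cast h.le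
    linarith

lemma mainasm_QS {n β : ℕ} {a b c : ℤ} (ha : a ∈ QS n β) (hb : b ∈ QS n β) (h1 : a ≤ c)
    (h2 : c ≤ b) : c ∈ QS n β := by
  simp only [QS, Finset.mem_filter, Finset.mem_Icc] at ha hb ⊢
  refine ⟨⟨by omega, by omega⟩, ?_⟩
  rcases abs_le_max_abs_abs (show 2 * a - β ≤ 2 * c - β by omega)
    (show 2 * c - β ≤ 2 * b - β by omega) |>.trans_eq (max_def _ _) with h
  split_ifs at h
  · exact (mul_le_mul_of_nonneg_left h (by positivity)).trans hb.2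
  · exact (mul_le_mul_of_nonneg_left h (by positivity)).trans ha.2

/-- the contribution of one side -/
def mainasmP (n β : ℕ) (σ : ℝ) (x : ℝ) : ℂ :=
  (σ * (√β / β ^ 2) * ep x) * mainasmM (eC n β) β (n / β ^ 2) σ 0 (mainasmQ n β σ) x
    + (σ * (√β / β ^ 2) * (ep (1 / 4) * ep (-x)))
      * mainasmM (eC n β) β (n / β ^ 2) σ 1 (mainasmQ n β σ) x

lemma mainasm_side_eq {n β : ℕ} {σ x : ℝ} (hx : 0 ≤ x) (hσ : σ = 1 ∨ σ = -1) :
    ∑ q ∈ mainasmQ n β σ, ∫ η in Ioi (0 : ℝ), fC x n β q η = mainasmP n β σ x := by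
  have hH : (0 : ℝ) ≤ n / β ^ 2 := by positivity
  have hA : ∀ q ∈ mainasmQ n β σ, 1 / 2 ≤ σ * (1 / 2 - (q : ℝ) / β) :=
    fun q hq => (Finset.mem_filter.1 hq).2.1
  have e0 := mainasm_eq (e := eC n β) (c₀ := 0) hx hH hσ (by norm_num) hA
  have e1 := mainasm_eq (e := eC n β) (c₀ := 1) hx hH hσ (by norm_num) hA
  have e2 : ∀ q ∈ mainasmQ n β σ, ∫ η in Ioi (0 : ℝ), fC x n β q η
      = ((√β / β ^ 2) * ep x) * (eC n β q * ∫ η in Ioi (0 : ℝ), ph x (ln η - (0 : ℝ))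
          * kc (n / β ^ 2) (ln η - ((q / β : ℝ) : ℂ)) * I)
        + ((√β / β ^ 2) * (ep (1 / 4) * ep (-x))) * (eC n β q * ∫ η in Ioi (0 : ℝ),
          ph x (ln η - (1 : ℝ)) * kc (n / β ^ 2) (ln η - ((q / β : ℝ) : ℂ)) * I) := by
    intro q hq
    have i0 := (mainasm_ray (c₀ := 0) hx hH hσ (by norm_num) (hA q hq)).1
    have i1 := (mainasm_ray (c₀ := 1) hx hH hσ (by norm_num) (hA q hq)).1
    rw [← integral_const_mul, ← integral_const_mul, ← integral_const_mul, ← integral_const_mul,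
      ← integral_add ((i0.const_mul _).const_mul _) ((i1.const_mul _).const_mul _)]
    refine integral_congr_ae (Eventually.of_forall fun η => ?_)
    simp only [fC, phi]
    push_cast
    rw [sub_zero]
    ring
  rw [Finset.sum_congr rfl e2, Finset.sum_add_distrib, ← Finset.mul_sum, ← Finset.mul_sum, e0, e1,
    mainasmP]
  ring

lemma mainasm_side {σ : ℝ} (hσ : σ = 1 ∨ σ = -1) : ∃ K : ℝ, 0 < K ∧ ∀ n β : ℕ, 2 ≤ n → β ∈ BS n →
    MainasmBd (mainasmP n β σ) (K * √(Real.log n ^ 3) * (wt β / β)) (K * n ^ 2 * (wt β / β)) := by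
  obtain ⟨K₀, p₀, h₀⟩ := mainasm_block hσ (Or.inl rfl)
  obtain ⟨K₁, p₁, h₁⟩ := mainasm_block hσ (Or.inr rfl)
  refine ⟨K₀ + K₁, by positivity, fun n β hn hβ => ?_⟩
  have hβ1 : 1 ≤ β := (Finset.mem_Icc.1 (Finset.mem_filter.1 hβ).1).1
  have hβ' : (0 : ℝ) < β := by exact_mod_cast hβ1
  have hQ : ∀ a ∈ mainasmQ n β σ, ∀ b ∈ mainasmQ n β σ, ∀ c, a ≤ c → c ≤ b →
      c ∈ mainasmQ n β σ := by
    intro a ha b hb c h1 h2
    rcases hσ with rfl | rfl
    · rw [mainasm_mem_pos hβ1] at ha hb ⊢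
      exact ⟨mainasm_QS ha.1 hb.1 h1 h2, by omega⟩
    · rw [mainasm_mem_neg hβ1] at ha hb ⊢
      exact ⟨mainasm_QS ha.1 hb.1 h1 h2, by omega⟩
  have hA : ∀ q ∈ mainasmQ n β σ, 1 / 2 ≤ σ * (1 / 2 - (q : ℝ) / β) :=
    fun q hq => (Finset.mem_filter.1 hq).2.1
  have ha : 0 < √(β : ℝ) / β ^ 2 := div_pos (Real.sqrt_pos.2 hβ') (by positivity)
  have hn1 : ‖(σ : ℂ) * (√β / β ^ 2)‖ = √(β : ℝ) / β ^ 2 := by
    rcases hσ with rfl | rfl <;> simp [abs_of_nonneg (Real.sqrt_nonneg (β : ℝ))]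
  have b₀ := (h₀ n β _ hn hβ (Finset.filter_subset _ _) hQ hA).mul
    (u := fun x : ℝ => σ * (√β / β ^ 2) * ep x) (by fun_prop) ha
    (fun x => by rw [norm_mul, hn1, norm_ep_real, mul_one])
  have b₁ := (h₁ n β _ hn hβ (Finset.filter_subset _ _) hQ hA).mul
    (u := fun x : ℝ => σ * (√β / β ^ 2) * (ep (1 / 4) * ep (-x))) (by fun_prop) ha
    (fun x => by
      have c1 := norm_ep_real (1 / 4)
      have c2 := norm_ep_real (-x)
      push_cast at c1 c2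
      rw [norm_mul, hn1, norm_mul, c1, c2, mul_one, mul_one])
  have b := b₀.add b₁
  have hs : √(β : ℝ) / β ^ 2 * (wt β * √β) = wt β / β := by
    calc _ = (√(β : ℝ) * √β) * wt β / β ^ 2 := by ring
      _ = _ := by
        rw [Real.mul_self_sqrt hβ'.le]
        field_simp
  have e1 : ∀ A : ℝ, √(β : ℝ) / β ^ 2 * (K₀ * A * (wt β * √β)) + √(β : ℝ) / β ^ 2
      * (K₁ * A * (wt β * √β)) = (K₀ + K₁) * A * (wt β / β) := fun A => by
    rw [← hs]
    ring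
  rw [e1, e1] at b
  exact b

theorem MT_bound : ∃ C : ℝ, ∀ n : ℕ, 2 ≤ n → ∃ M : ℝ → ℂ, (∀ x : ℝ, 0 ≤ x → MT x n = M x) ∧
    Continuous M ∧ (Integrable fun x => ‖M x‖ ^ 2) ∧ ∫ x, ‖M x‖ ^ 2 ≤ C * Real.log n ^ 9 ∧
      ∀ x, ‖M x‖ ≤ C * n ^ 10 := by
  obtain ⟨K₀, p₀, h₀⟩ := mainasm_side (Or.inl rfl)
  obtain ⟨K₁, p₁, h₁⟩ := mainasm_side (Or.inr rfl)
  obtain ⟨C, hC⟩ := sum_wt
  refine ⟨((K₀ + K₁) * |C| + 1) ^ 2, fun n hn => ?_⟩
  have hn' : (2 : ℝ) ≤ n := by exact_mod_cast hn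
  have hL : 0 < Real.log n := Real.log_pos (by linarith)
  have hLn : Real.log n ≤ n := (Real.log_le_sub_one_of_pos (by linarith)).trans (by linarith)
  have hΛ : 0 < √(Real.log n ^ 3) := Real.sqrt_pos.2 (by positivity)
  have hw0 : ∀ β : ℕ, 0 ≤ wt β / β := fun β => div_nonneg (by linarith [one_le_wt β]) β.cast_nonneg
  have hw : ∑ β ∈ BS n, wt β / β ≤ |C| * Real.log n ^ 3 :=
    ((Finset.sum_le_sum_of_subset_of_nonneg (Finset.filter_subset _ _) fun β _ _ => hw0 β).trans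
      (hC n hn)).trans (mul_le_mul_of_nonneg_right (le_abs_self C) (by positivity))
  have b := (MainasmBd.sum (BS n) (r₀ := √(Real.log n ^ 3) * Real.log n ^ 3) (by positivity)
    fun β hβ => (h₀ n β hn hβ).add (h₁ n β hn hβ)).mul (u := fun _ => 1 / 2) continuous_const
    one_pos (fun _ => by norm_num)
  simp only [← add_mul, ← Finset.mul_sum, one_mul] at b
  refine ⟨_, fun x hx => ?_, b.cont, b.int, b.le.trans ?_, fun x => (b.sup x).trans ?_⟩
  · rw [MT]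
    congr 1
    refine Finset.sum_congr rfl fun β hβ => ?_
    have hβ1 : 1 ≤ β := (Finset.mem_Icc.1 (Finset.mem_filter.1 hβ).1).1
    rw [← mainasm_side_eq hx (Or.inl rfl), ← mainasm_side_eq hx (Or.inr rfl), ← Finset.sum_union]
    · congr 1
      ext q
      rw [Finset.mem_union, mainasm_mem_pos hβ1, mainasm_mem_neg hβ1, Finset.mem_filter, and_or_left]
    · rw [Finset.disjoint_left]
      intro q h1 h2
      rw [mainasm_mem_pos hβ1] at h1
      rw [mainasm_mem_neg hβ1] at h2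
      omega
  · calc _ ≤ ((K₀ + K₁) * √(Real.log n ^ 3) * (|C| * Real.log n ^ 3)
          + √(Real.log n ^ 3) * Real.log n ^ 3) ^ 2 := by
          have := Finset.sum_nonneg fun β (_ : β ∈ BS n) => hw0 β
          gcongr
      _ = ((K₀ + K₁) * |C| + 1) ^ 2 * (√(Real.log n ^ 3) ^ 2 * Real.log n ^ 6) := by ring
      _ = _ := by
          rw [Real.sq_sqrt (by positivity)]
          ring
  · have a1 : (n : ℝ) ^ 5 ≤ n ^ 10 := pow_le_pow_right₀ (by linarith) (by norm_num)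
    have a2 : 0 ≤ (K₀ + K₁) * |C| := by positivity
    calc _ ≤ (K₀ + K₁) * n ^ 2 * (|C| * n ^ 3) := by
          have : |C| * Real.log n ^ 3 ≤ |C| * n ^ 3 := by gcongr
          gcongr
          exact hw.trans this
      _ = (K₀ + K₁) * |C| * n ^ 5 := by ring
      _ ≤ _ := by
          gcongr
          nlinarith

end

end Pool.Agent.MP_9f080f_an
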