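import Pool.Agent.MP_9f080f_an.Mg.Basic

namespace Pool.Agent.MP_9f080f_an
open Complex MeasureTheory Set Filter Topology Metric
open scoped Real

noncomputable section

/-! Polya-Vinogradov and Abel summation.
Inversion: `a ↦ e a * ep (-2 κ a / P)` is `P`-periodic, so
`e a = P⁻¹ ∑_{m<P} ê m ep (2 (m+κ) a / P)`; geometric sums are bounded by
`min (L, 1/(2‖θ‖))`, and `∑_{m<P} min (P, 1/(2‖θ + m/P‖)) ≤ C P (1 + log P)`. -/

lemma pv_norm_sub_one (θ : ℝ) : ‖ep (2 * θ) - 1‖ = 2 * |Real.sin (π * θ)| := by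
  have h := Complex.norm_exp_I_mul_ofReal_sub_one (2 * (π * θ))
  have e : ep (2 * θ) = cexp (I * ((2 * (π * θ) : ℝ) : ℂ)) := by
    rw [ep]; push_cast; ring_nf
  rw [e, h, show 2 * (π * θ) / 2 = π * θ by ring, Real.norm_eq_abs, abs_mul, abs_two]

lemma pv_sin_low {t : ℝ} (h0 : 0 ≤ t) (h1 : t ≤ 1 / 2) : 2 * t ≤ Real.sin (π * t) := by
  have hp := Real.pi_pos
  have h := Real.mul_le_sin (x := π * t) (by positivity) (by nlinarith)
  have e : 2 / π * (π * t) = 2 * t := by field_simp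
  rwa [e] at h

lemma pv_inv_sin {t : ℝ} (h0 : 0 < t) (h1 : t < 1) :
    0 < Real.sin (π * t) ∧ 1 / Real.sin (π * t) ≤ 1 / (2 * t) + 1 / (2 * (1 - t)) := by
  have h1' : 0 < 1 - t := sub_pos.2 h1
  rcases le_total t (1 / 2) with h | h
  · have k := pv_sin_low h0.le h
    refine ⟨by linarith, ?_⟩
    have k2 : 1 / Real.sin (π * t) ≤ 1 / (2 * t) := one_div_le_one_div_of_le (by linarith) k
    have k3 : 0 ≤ 1 / (2 * (1 - t)) := by positivity
    linarith
  · have k := pv_sin_low h1'.le (by linarith)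
    rw [show π * (1 - t) = π - π * t by ring, Real.sin_pi_sub] at k
    refine ⟨by linarith, ?_⟩
    have k2 : 1 / Real.sin (π * t) ≤ 1 / (2 * (1 - t)) := one_div_le_one_div_of_le (by linarith) k
    have k3 : 0 ≤ 1 / (2 * t) := by positivity
    linarith

/-- the geometric sum -/
def pvG (a₀ : ℤ) (L : ℕ) (θ : ℝ) : ℂ := ∑ i ∈ Finset.range L, ep (2 * θ * (a₀ + i))

lemma pv_norm_term (θ : ℝ) (a₀ : ℤ) (i : ℕ) : ‖ep (2 * θ * (a₀ + i))‖ = 1 := by
  have := norm_ep_real (2 * θ * (a₀ + i))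
  push_cast at this
  exact this

lemma pv_G_le (a₀ : ℤ) (L : ℕ) (θ : ℝ) : ‖pvG a₀ L θ‖ ≤ L := by
  refine (norm_sum_le _ _).trans ?_
  simp [pv_norm_term]

lemma pv_G_sin (a₀ : ℤ) (L : ℕ) (θ : ℝ) : ‖pvG a₀ L θ‖ * |Real.sin (π * θ)| ≤ 1 := by
  have e : pvG a₀ L θ * (ep (2 * θ) - 1)
      = ep (2 * θ * (a₀ + (L : ℕ))) - ep (2 * θ * (a₀ + (0 : ℕ))) := by
    rw [pvG, Finset.sum_mul, ← Finset.sum_range_sub (fun i : ℕ => ep (2 * θ * (a₀ + i)))]
    refine Finset.sum_congr rfl fun i _ => ?_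
    rw [mul_sub, ← ep_add, mul_one]
    push_cast
    ring_nf
  have h := norm_sub_le (ep (2 * θ * (a₀ + (L : ℕ)))) (ep (2 * θ * (a₀ + (0 : ℕ))))
  rw [← e, norm_mul, pv_norm_sub_one, pv_norm_term, pv_norm_term] at h
  linarith

lemma pv_G_per (a₀ : ℤ) (L : ℕ) (θ : ℝ) : pvG a₀ L (θ + 1) = pvG a₀ L θ := by
  refine Finset.sum_congr rfl fun i _ => ?_
  have h := ep_two_int (a₀ + i)
  push_cast at h ⊢
  rw [show 2 * ((θ : ℂ) + 1) * (a₀ + i) = 2 * θ * (a₀ + i) + 2 * (a₀ + i) by ring, ep_add, h,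
    mul_one]

lemma pv_shift {h : ℤ → ℝ} {P : ℕ} (hp : ∀ j, h (j + P) = h j) (n : ℤ) :
    ∑ m ∈ Finset.range P, h (n + m) = ∑ m ∈ Finset.range P, h m := by
  have step : ∀ n : ℤ, ∑ m ∈ Finset.range P, h (n + 1 + m) = ∑ m ∈ Finset.range P, h (n + m) := by
    intro n
    have h1 := Finset.sum_range_succ (fun m : ℕ => h (n + m)) P
    have h2 := Finset.sum_range_succ' (fun m : ℕ => h (n + m)) P
    rw [h1, hp] at h2
    simp only [Nat.cast_zero, add_zero, add_left_inj] at h2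
    rw [h2]
    refine Finset.sum_congr rfl fun m _ => ?_
    push_cast
    ring_nf
  induction n using Int.induction_on with
  | zero => simp
  | succ n ih => rw [step, ih]
  | pred n ih => rw [← step, sub_add_cancel, ih]

lemma pv_G_point (a₀ : ℤ) {L P : ℕ} (hL : L ≤ P) {β : ℝ} (h0 : 0 ≤ β) (h1 : β < 1) {j : ℕ}
    (hj : j < P) : ‖pvG a₀ L ((j + β) / P)‖ ≤ P / (j + 1) + P / (P - j) := by
  have hjP : (j : ℝ) + 1 ≤ P := by exact_mod_cast hj
  have hj0 : (0 : ℝ) ≤ j := Nat.cast_nonneg j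
  have hP : (0 : ℝ) < P := by linarith
  have hPj : (0 : ℝ) < P - j := by linarith
  have hLP : ‖pvG a₀ L ((j + β) / P)‖ ≤ P := (pv_G_le _ _ _).trans (by exact_mod_cast hL)
  have n1 : 0 ≤ (P : ℝ) / (j + 1) := by positivity
  have n2 : 0 ≤ (P : ℝ) / (P - j) := by positivity
  rcases Nat.eq_zero_or_pos j with rfl | hj1
  · simp only [Nat.cast_zero, zero_add, div_one] at *
    linarith
  rcases (Nat.succ_le_of_lt hj).eq_or_lt with hj2 | hj2
  · have e : (P : ℝ) - j = 1 := by rw [← hj2]; push_cast; ring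
    rw [e, div_one]
    linarith
  have hj1' : (1 : ℝ) ≤ j := by exact_mod_cast hj1
  have hj2' : (j : ℝ) + 2 ≤ P := by exact_mod_cast hj2
  have t0 : 0 < (j + β) / P := by positivity
  have t1 : (j + β) / P < 1 := by rw [div_lt_one hP]; linarith
  obtain ⟨s0, s1⟩ := pv_inv_sin t0 t1
  have k := pv_G_sin a₀ L ((j + β) / P)
  rw [abs_of_pos s0] at k
  have k1 : ‖pvG a₀ L ((j + β) / P)‖ ≤ 1 / Real.sin (π * ((j + β) / P)) := by
    rwa [le_div_iff₀ s0]
  have k2 : 1 / (2 * ((j + β) / P)) ≤ P / (j + 1) := by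
    rw [show 1 / (2 * ((j + β) / P)) = P / (2 * (j + β)) by field_simp]
    exact div_le_div_of_nonneg_left hP.le (by positivity) (by linarith)
  have k3 : 1 / (2 * (1 - (j + β) / P)) ≤ P / (P - j) := by
    have hq : 0 < P - (j + β) := by linarith
    rw [show 1 / (2 * (1 - (j + β) / P)) = P / (2 * (P - (j + β))) by field_simp]
    exact div_le_div_of_nonneg_left hP.le hPj (by linarith)
  linarith

lemma pv_harm (P : ℕ) : ∑ j ∈ Finset.range P, (1 : ℝ) / (j + 1) ≤ 1 + Real.log P := by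
  have h := harmonic_le_one_add_log P
  rw [harmonic] at h
  push_cast at h
  simpa only [one_div] using h

lemma pv_G_sum (a₀ : ℤ) {L P : ℕ} (hP : 0 < P) (hL : L ≤ P) (θ : ℝ) :
    ∑ m ∈ Finset.range P, ‖pvG a₀ L (θ + m / P)‖ ≤ 2 * P * (1 + Real.log P) := by
  have hP' : (0 : ℝ) < P := by exact_mod_cast hP
  set β := Int.fract (P * θ) with hβ
  set h : ℤ → ℝ := fun j => ‖pvG a₀ L ((j + β) / P)‖ with hh
  have hp : ∀ j, h (j + P) = h j := by
    intro j
    simp only [hh]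
    rw [← pv_G_per a₀ L ((j + β) / P)]
    congr 2
    push_cast
    field_simp
    ring
  have e : ∑ m ∈ Finset.range P, ‖pvG a₀ L (θ + m / P)‖
      = ∑ m ∈ Finset.range P, h (⌊P * θ⌋ + m) := by
    refine Finset.sum_congr rfl fun m _ => ?_
    simp only [hh, hβ, Int.fract]
    congr 2
    push_cast
    field_simp
    ring
  rw [e, pv_shift hp]
  have k : ∑ m ∈ Finset.range P, h m
      ≤ ∑ j ∈ Finset.range P, ((P : ℝ) / (j + 1) + P / (P - j)) := by
    refine Finset.sum_le_sum fun j hj => ?_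
    have := pv_G_point a₀ hL (Int.fract_nonneg (P * θ)) (Int.fract_lt_one (P * θ))
      (Finset.mem_range.1 hj)
    simpa only [hh, Int.cast_natCast] using this
  refine k.trans ?_
  have e2 : ∑ j ∈ Finset.range P, (P : ℝ) / (P - j) = ∑ j ∈ Finset.range P, (P : ℝ) / (j + 1) := by
    rw [← Finset.sum_range_reflect (fun j : ℕ => (P : ℝ) / (j + 1)) P]
    refine Finset.sum_congr rfl fun j hj => ?_
    have hj' := Finset.mem_range.1 hj
    rw [Nat.cast_sub (by omega), Nat.cast_sub (by omega)]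
    push_cast
    ring_nf
  have e3 : ∑ j ∈ Finset.range P, (P : ℝ) / (j + 1)
      = P * ∑ j ∈ Finset.range P, (1 : ℝ) / (j + 1) := by
    rw [Finset.mul_sum]
    exact Finset.sum_congr rfl fun j _ => by ring
  rw [Finset.sum_add_distrib, e2, e3]
  have := mul_le_mul_of_nonneg_left (pv_harm P) hP'.le
  linarith

lemma pv_orth {P : ℕ} (hP : 0 < P) (d : ℤ) :
    ∑ m ∈ Finset.range P, ep (2 * m * d / P) = if (P : ℤ) ∣ d then (P : ℂ) else 0 := by
  have hP' : (P : ℂ) ≠ 0 := by exact_mod_cast hP.ne'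
  have e : ∀ m : ℕ, ep (2 * m * d / P) = ep (2 * d / P) ^ m := fun m => by
    rw [← ep_nat_mul]; ring_nf
  simp only [e]
  split_ifs with h
  · obtain ⟨k, rfl⟩ := h
    have : ep (2 * ((P * k : ℤ) : ℂ) / P) = 1 := by
      rw [← ep_two_int k]; push_cast; congr 1; field_simp
    simp only [this, one_pow, Finset.sum_const, Finset.card_range, nsmul_eq_mul, mul_one]
  · have hne : ep (2 * d / P) ≠ 1 := by
      intro h1
      obtain ⟨k, hk⟩ := Complex.exp_eq_one_iff.1 h1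
      refine h ⟨k, ?_⟩
      have hpi : (π : ℂ) * I ≠ 0 := mul_ne_zero (by exact_mod_cast Real.pi_ne_zero) I_ne_zero
      have h2 : (d : ℂ) = P * k := by
        have h3 : (π : ℂ) * I * (2 * d / P) = π * I * (2 * k) := by rw [hk]; ring
        have h4 := mul_left_cancel₀ hpi h3
        field_simp at h4
        exact h4
      exact_mod_cast h2
    have h1 : ep (2 * d / P) ^ P = 1 := by
      rw [← ep_nat_mul, ← ep_two_int d]; congr 1; field_simp
    rw [geom_sum_eq hne, h1, sub_self, zero_div]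

lemma pv_inversion {e : ℤ → ℂ} {P : ℕ} {κ W : ℝ} (hP : 0 < P) (h : Tw e P κ W) (b : ℤ) :
    ∑ m ∈ Finset.range P, (∑ a ∈ Finset.range P, e a * ep (-2 * (((m : ℤ) : ℂ) + κ) * a / P))
      * ep (2 * (m + κ) * b / P) = P * e b := by
  have hP' : (P : ℂ) ≠ 0 := by exact_mod_cast hP.ne'
  have hP'' : (0 : ℤ) < P := by exact_mod_cast hP
  set f : ℤ → ℂ := fun a => e a * ep (-2 * κ * a / P) with hf
  have hper : Function.Periodic f (P : ℤ) := by
    intro a
    simp only [hf]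
    rw [h.per, mul_comm (ep _) (e a), mul_assoc, ← ep_add]
    push_cast
    congr 2
    field_simp
    ring
  have hmod : f (b % P) = f b := by
    rw [Int.emod_def, mul_comm]
    exact hper.sub_int_mul_eq (b / P)
  have e1 : ∀ m ∈ Finset.range P,
      (∑ a ∈ Finset.range P, e a * ep (-2 * (((m : ℤ) : ℂ) + κ) * a / P))
        * ep (2 * (m + κ) * b / P)
      = ∑ a ∈ Finset.range P, ep (2 * κ * b / P) * f a * ep (2 * m * ((b - a : ℤ) : ℂ) / P) := by
    intro m _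
    rw [Finset.sum_mul]
    refine Finset.sum_congr rfl fun a _ => ?_
    simp only [hf]
    rw [mul_assoc (e a), ← ep_add, mul_comm (ep _) (e a * _), mul_assoc (e a), mul_assoc (e a),
      ← ep_add, ← ep_add]
    congr 2
    push_cast
    ring
  rw [Finset.sum_congr rfl e1, Finset.sum_comm]
  simp only [← Finset.mul_sum, pv_orth hP]
  have hb0 := Int.emod_nonneg b hP''.ne'
  have hb1 := Int.emod_lt_of_pos b hP''
  rw [Finset.sum_eq_single (b % P).toNat]
  · rw [Int.toNat_of_nonneg hb0, if_pos (Int.dvd_self_sub_emod), hmod]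
    simp only [hf]
    rw [mul_comm (e b), ← mul_assoc, ← ep_add]
    ring_nf
    simp
  · intro a ha hne
    rw [if_neg, mul_zero]
    intro hd
    refine hne ?_
    have ha' : (a : ℤ) < P := by exact_mod_cast Finset.mem_range.1 ha
    have h2 : (a : ℤ) % P = b % P := (Int.modEq_iff_dvd.2 hd)
    rw [Int.emod_eq_of_lt (Int.natCast_nonneg a) ha'] at h2
    rw [← h2, Int.toNat_natCast]
  · intro hx
    exact absurd (Finset.mem_range.2 (by omega)) hx

lemma pv_short2 {e : ℤ → ℂ} {P : ℕ} {κ W : ℝ} (hP : 0 < P) (h : Tw e P κ W)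
    (ξ : ℝ) (a₀ : ℤ) {L : ℕ} (hL : L ≤ P) :
    ‖∑ i ∈ Finset.range L, e (a₀ + i) * ep (2 * ξ * (a₀ + i))‖ ≤ 2 * W * (1 + Real.log P) := by
  have hP' : (0 : ℝ) < P := by exact_mod_cast hP
  have hW : 0 ≤ W := (norm_nonneg _).trans (h.four 0)
  have e1 : (P : ℂ) * ∑ i ∈ Finset.range L, e (a₀ + i) * ep (2 * ξ * (a₀ + i))
      = ∑ m ∈ Finset.range P,
        (∑ a ∈ Finset.range P, e a * ep (-2 * (((m : ℤ) : ℂ) + κ) * a / P))
          * pvG a₀ L (κ / P + ξ + m / P) := by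
    simp only [pvG, Finset.mul_sum (s := Finset.range L)]
    rw [Finset.sum_comm]
    refine Finset.sum_congr rfl fun i _ => ?_
    rw [← mul_assoc, ← pv_inversion hP h, Finset.sum_mul]
    refine Finset.sum_congr rfl fun m _ => ?_
    rw [mul_assoc, ← ep_add]
    congr 2
    push_cast
    ring
  have k : P * ‖∑ i ∈ Finset.range L, e (a₀ + i) * ep (2 * ξ * (a₀ + i))‖
      ≤ W * (2 * P * (1 + Real.log P)) := by
    rw [← Complex.norm_natCast P, ← norm_mul, e1, Complex.norm_natCast]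
    refine (norm_sum_le _ _).trans ?_
    refine le_trans ?_ (mul_le_mul_of_nonneg_left (pv_G_sum a₀ hP hL (κ / P + ξ)) hW)
    rw [Finset.mul_sum]
    refine Finset.sum_le_sum fun m _ => ?_
    rw [norm_mul]
    exact mul_le_mul_of_nonneg_right (h.four m) (norm_nonneg _)
  refine le_of_mul_le_mul_left (k.trans_eq ?_) hP'
  ring

theorem pv_short : ∃ C : ℝ, ∀ (e : ℤ → ℂ) (P : ℕ) (κ W : ℝ), 0 < P → Tw e P κ W →
    ∀ (ξ : ℝ) (a₀ : ℤ) (L : ℕ), L ≤ P →
      ‖∑ i ∈ Finset.range L, e (a₀ + i) * ep (2 * ξ * (a₀ + i))‖ ≤ C * W * (1 + Real.log P) :=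
  ⟨2, fun _ _ _ _ hP h ξ a₀ _ hL => pv_short2 hP h ξ a₀ hL⟩

/-- full periods form a geometric progression with ratio `ep (3/4) ≠ 1` -/
theorem pv_long : ∃ C : ℝ, ∀ (e : ℤ → ℂ) (P : ℕ) (W : ℝ), 0 < P → Tw e P (3 / 8) W →
    ∀ (a₀ : ℤ) (L : ℕ), ‖∑ i ∈ Finset.range L, e (a₀ + i)‖ ≤ C * W * (1 + Real.log P) := by
  refine ⟨4, fun e P W hP h a₀ L => ?_⟩
  have hs : ∀ a : ℤ, ‖∑ i ∈ Finset.range P, e (a + i)‖ ≤ 2 * W * (1 + Real.log P) := fun a => by
    simpa using pv_short2 hP h 0 a le_rfl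
  have e1 : (ep (2 * ((3 / 8 : ℝ) : ℂ)) - 1) * ∑ i ∈ Finset.range L, e (a₀ + i)
      = ∑ i ∈ Finset.range P, e (a₀ + L + i) - ∑ i ∈ Finset.range P, e (a₀ + i) := by
    have h1 := Finset.sum_range_add (fun i : ℕ => e (a₀ + i)) L P
    have h2 := Finset.sum_range_add (fun i : ℕ => e (a₀ + i)) P L
    rw [add_comm P L, h1] at h2
    have h3 : ∑ i ∈ Finset.range L, e (a₀ + (P + i : ℕ))
        = ep (2 * ((3 / 8 : ℝ) : ℂ)) * ∑ i ∈ Finset.range L, e (a₀ + i) := by
      rw [Finset.mul_sum]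
      refine Finset.sum_congr rfl fun i _ => ?_
      rw [← h.per]
      push_cast
      ring_nf
    have h4 : ∑ i ∈ Finset.range P, e (a₀ + (L + i : ℕ))
        = ∑ i ∈ Finset.range P, e (a₀ + L + i) := by
      refine Finset.sum_congr rfl fun i _ => ?_
      push_cast
      ring_nf
    rw [h3, h4] at h2
    linear_combination -h2
  have k := norm_sub_le (∑ i ∈ Finset.range P, e (a₀ + L + i)) (∑ i ∈ Finset.range P, e (a₀ + i))
  rw [← e1, norm_mul, pv_norm_sub_one] at k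
  have k2 := (pv_sin_low (t := 3 / 8) (by norm_num) (by norm_num)).trans (le_abs_self _)
  have k3 := norm_nonneg (∑ i ∈ Finset.range L, e (a₀ + i))
  have k4 := hs a₀
  have k5 := hs (a₀ + L)
  nlinarith

open Classical in
/-- Abel summation against a function of bounded variation on an interval `J` -/
theorem pvbv {e : ℤ → ℂ} {p B M V : ℝ} (hp : 0 < p) {J : Set ℝ} (hJ : J.OrdConnected)
    {s : Finset ℤ} (hs : ∀ a : ℤ, (a : ℝ) / p ∈ J → a ∈ s)
    (hB : ∀ (a₀ : ℤ) (L : ℕ), (∀ i < L, ((a₀ + i : ℤ) : ℝ) / p ∈ J) →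
      ‖∑ i ∈ Finset.range L, e (a₀ + i)‖ ≤ B)
    {G G' : ℝ → ℂ} {φ : ℝ → ℝ} (hG : ∀ t ∈ J, HasDerivAt G (G' t) t)
    (hM : ∀ t ∈ J, ‖G t‖ ≤ M) (hφ : ∀ t ∈ J, ‖G' t‖ ≤ φ t)
    (hi : IntegrableOn φ J) (hV : ∫ t in J, φ t ≤ V) (hM0 : 0 ≤ M) (hV0 : 0 ≤ V) :
    ‖∑ a ∈ s, if (a : ℝ) / p ∈ J then e a * G (a / p) else 0‖ ≤ B * (M + V) := by
  have hB0 : 0 ≤ B := by simpa using hB 0 0 (by simp)
  rw [← Finset.sum_filter]
  set A := s.filter fun a : ℤ => (a : ℝ) / p ∈ J with hA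
  rcases A.eq_empty_or_nonempty with h0 | hne
  · rw [h0, Finset.sum_empty, norm_zero]
    positivity
  set a₀ := A.min' hne with ha₀
  set a₁ := A.max' hne with ha₁
  have hJ0 : (a₀ : ℝ) / p ∈ J := (Finset.mem_filter.1 (A.min'_mem hne)).2
  have hJ1 : (a₁ : ℝ) / p ∈ J := (Finset.mem_filter.1 (A.max'_mem hne)).2
  have h01 : a₀ ≤ a₁ := A.min'_le_max' hne
  obtain ⟨N, hN⟩ : ∃ N : ℕ, a₁ = a₀ + N := ⟨(a₁ - a₀).toNat, by omega⟩
  set t : ℕ → ℝ := fun i => ((a₀ + i : ℤ) : ℝ) / p with ht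
  have hmono : ∀ i j : ℕ, i ≤ j → t i ≤ t j := fun i j hij =>
    div_le_div_of_nonneg_right (by exact_mod_cast (by omega : a₀ + i ≤ a₀ + j)) hp.le
  have ht0 : t 0 ∈ J := by simpa [ht] using hJ0
  have htN : t N ∈ J := by simpa only [ht, ← hN] using hJ1
  have hsub : Icc (t 0) (t N) ⊆ J := hJ.out ht0 htN
  have hmem : ∀ i ≤ N, t i ∈ J := fun i hi => hsub ⟨hmono _ _ (Nat.zero_le i), hmono _ _ hi⟩
  have hsum : ∑ a ∈ A, e a * G (a / p) = ∑ i ∈ Finset.range (N + 1), e (a₀ + i) * G (t i) := by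
    symm
    refine Finset.sum_bij (fun i _ => a₀ + (i : ℤ)) ?_ ?_ ?_ (fun _ _ => rfl)
    · intro i hi
      have := hmem i (Nat.lt_succ_iff.1 (Finset.mem_range.1 hi))
      exact Finset.mem_filter.2 ⟨hs _ this, this⟩
    · intro i _ j _ hij
      omega
    · intro a ha
      have k0 : a₀ ≤ a := A.min'_le a ha
      have k1 : a ≤ a₁ := A.le_max' a ha
      exact ⟨(a - a₀).toNat, Finset.mem_range.2 (by omega), by omega⟩
  have hint : ∀ i j : ℕ, i ≤ j → j ≤ N → IntervalIntegrable φ volume (t i) (t j) := by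
    intro i j hij hj
    refine (hi.mono_set ?_).intervalIntegrable
    rw [uIcc_of_le (hmono i j hij)]
    exact hJ.out (hmem i (hij.trans hj)) (hmem j hj)
  have hE : ∀ n ≤ N, ‖∑ i ∈ Finset.range (n + 1), e (a₀ + i)‖ ≤ B := fun n hn =>
    hB a₀ (n + 1) fun i hi => hmem i (by omega)
  have key : ∀ n ≤ N, ‖∑ i ∈ Finset.range (n + 1), e (a₀ + i) * G (t i)
      - (∑ i ∈ Finset.range (n + 1), e (a₀ + i)) * G (t n)‖ ≤ B * ∫ x in (t 0)..(t n), φ x := by
    intro n
    induction n with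
    | zero => intro _; simp
    | succ n ih =>
      intro hn
      have hn' : n ≤ N := by omega
      have hI : Icc (t n) (t (n + 1)) ⊆ J := hJ.out (hmem n hn') (hmem _ hn)
      have hd : ‖G (t (n + 1)) - G (t n)‖ ≤ ∫ x in (t n)..(t (n + 1)), φ x :=
        norm_sub_le_integral_of_norm_deriv_le_of_le (hmono _ _ (Nat.le_succ n))
          (fun x hx => (hG x (hI hx)).continuousAt.continuousWithinAt)
          (fun x hx => (hG x (hI (Ioo_subset_Icc_self hx))).differentiableAt.differentiableWithinAt)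
          (Eventually.of_forall fun x hx => by
            rw [(hG x (hI (Ioo_subset_Icc_self hx))).deriv]
            exact hφ x (hI (Ioo_subset_Icc_self hx)))
          (hint _ _ (Nat.le_succ n) hn)
      have e1 : ∑ i ∈ Finset.range (n + 1 + 1), e (a₀ + i) * G (t i)
          - (∑ i ∈ Finset.range (n + 1 + 1), e (a₀ + i)) * G (t (n + 1))
          = (∑ i ∈ Finset.range (n + 1), e (a₀ + i) * G (t i)
            - (∑ i ∈ Finset.range (n + 1), e (a₀ + i)) * G (t n))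
            - (∑ i ∈ Finset.range (n + 1), e (a₀ + i)) * (G (t (n + 1)) - G (t n)) := by
        rw [Finset.sum_range_succ _ (n + 1), Finset.sum_range_succ _ (n + 1)]
        ring
      rw [e1, ← intervalIntegral.integral_add_adjacent_intervals (hint 0 n (Nat.zero_le n) hn')
        (hint _ _ (Nat.le_succ n) hn), mul_add]
      refine (norm_sub_le _ _).trans (add_le_add (ih hn') ?_)
      rw [norm_mul]
      exact mul_le_mul (hE n hn') hd (norm_nonneg _) hB0
  have hle : ∫ x in (t 0)..(t N), φ x ≤ V := by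
    rw [intervalIntegral.integral_of_le (hmono _ _ (Nat.zero_le N))]
    refine le_trans (setIntegral_mono_set hi ?_ ?_) hV
    · exact (ae_restrict_iff' hJ.measurableSet).2
        (Eventually.of_forall fun x hx => (norm_nonneg _).trans (hφ x hx))
    · exact (Ioc_subset_Icc_self.trans hsub).eventuallyLE
  rw [hsum]
  have k1 := key N le_rfl
  have k2 : ‖(∑ i ∈ Finset.range (N + 1), e (a₀ + i)) * G (t N)‖ ≤ B * M := by
    rw [norm_mul]
    exact mul_le_mul (hE N le_rfl) (hM _ htN) (norm_nonneg _) hB0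
  have k3 := norm_le_norm_sub_add (∑ i ∈ Finset.range (N + 1), e (a₀ + i) * G (t i))
    ((∑ i ∈ Finset.range (N + 1), e (a₀ + i)) * G (t N))
  have k4 := mul_le_mul_of_nonneg_left hle hB0
  linarith

end

end Pool.Agent.MP_9f080f_an
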