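import Pool.Agent.MP_9f080f_an.Mg.ShMert
import Pool.Agent.MP_d0fd9b_nt.Sieve

namespace Pool.Agent.MP_9f080f_an
open Complex MeasureTheory Set Filter Topology Metric
open scoped Real

noncomputable section

/-! The mean square of the Euler product over an interval of frequencies.
`(1 + h/p)² = 1 + h'/p`, `h' = 2h + h²/p ≤ 4`.  Expand (`Finset.prod_one_add`/`Finset.prod_add_one`) into a sum over
subsets `U ⊆ PS n z` of `∏_{p ∈ U} h'_p(m)/p`, `d = ∏_{p ∈ U} p`.  If `d ≤ M`, then the sum over `M` consecutive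
`m` of the `d`-periodic nonnegative function is at most `(M/d + 1) ∑_{m mod d} ≤ 2 M ∏_p avg h'_p`
(`Pool.Agent.MP_d0fd9b_nt.sum_prod_primes`, `periodic_prod`, applied to `k ↦ h'_p (a₀ + k)`), and
`avg h'_p ≤ gg + 4/p`: as `k` runs over `range p`, `c₁ (a₀+k) + c₀` runs over all residues (`F.two`), one of
them is `0`, and for at most `(p-1)/2` of them `B n C` is a nonzero square (squares: `x ↦ x²` is two-to-one
on units; `FiniteField.card_image_polynomial_eval`, `ZMod.sum_quadraticChar`/`quadraticChar_sum_zero` also work).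
If `d > M` use `1 ≤ (d/M)^η`, `η = 1/log z`, `p^η ≤ e`, `4 e ≤ 11`.  Resum both parts to products and apply
`prod_primes_le`, `prod_conv`. -/

/-- the local weight of the square of the Euler product -/
def shavg_w (F : Fam) (n p : ℕ) (m : ℤ) : ℝ := (2 * hq F n p m + hq F n p m ^ 2 / p) / p

lemma shavg_w_nonneg (F : Fam) (n p : ℕ) (m : ℤ) : 0 ≤ shavg_w F n p m := by
  have := hq_nonneg F n p m
  unfold shavg_w
  positivity

lemma shavg_w_le (F : Fam) (n : ℕ) {p : ℕ} (hp : 2 ≤ p) (m : ℤ) : shavg_w F n p m ≤ 4 / p := by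
  have h0 := hq_nonneg F n p m
  have h1 := (hq_le F n p m).trans gg_lt.le
  have h2 : (2 : ℝ) ≤ p := by exact_mod_cast hp
  have h3 : hq F n p m ^ 2 / p ≤ 1 := by
    rw [div_le_one (by linarith)]
    nlinarith
  unfold shavg_w
  gcongr
  linarith

lemma shavg_sq (F : Fam) (n p : ℕ) (m : ℤ) : (1 + hq F n p m / p) ^ 2 = 1 + shavg_w F n p m := by
  unfold shavg_w
  ring

lemma shavg_hq_per (F : Fam) (n p : ℕ) (m : ℤ) : hq F n p (m + p) = hq F n p m := by
  have h1 : ((p : ℤ) ∣ F.c₁ * (m + p) + F.c₀) ↔ (p : ℤ) ∣ F.c₁ * m + F.c₀ := by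
    rw [show F.c₁ * (m + p) + F.c₀ = F.c₁ * m + F.c₀ + p * F.c₁ by ring]
    exact dvd_add_left (dvd_mul_right _ _)
  have h2 : ((F.B * n * (F.c₁ * (m + p) + F.c₀) : ℤ) : ZMod p) =
      ((F.B * n * (F.c₁ * m + F.c₀) : ℤ) : ZMod p) := by
    push_cast
    rw [ZMod.natCast_self, add_zero]
  unfold hq
  rw [h2]
  simp only [h1]

lemma shavg_w_per (F : Fam) (n : ℕ) (a₀ : ℤ) (p : ℕ) :
    Function.Periodic (fun k : ℕ => shavg_w F n p (a₀ + k)) p := fun k => by
  simp only [shavg_w]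
  rw [Nat.cast_add, ← add_assoc, shavg_hq_per]

lemma shavg_sum_zmod {p : ℕ} [NeZero p] (G : ZMod p → ℝ) :
    ∑ k ∈ Finset.range p, G k = ∑ y, G y := by
  refine Finset.sum_nbij (fun k => (k : ZMod p)) (fun _ _ => Finset.mem_univ _)
    (fun k hk k' hk' h => ?_) (fun y _ => ⟨y.val, by simpa using y.val_lt, by simp⟩) fun _ _ => rfl
  simp only [Finset.coe_range, Set.mem_Iio] at hk hk'
  rw [← ZMod.val_natCast_of_lt hk, ← ZMod.val_natCast_of_lt hk']
  exact congrArg ZMod.val h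

lemma shavg_hq_sum (F : Fam) {n p : ℕ} (hp : p.Prime) (hn : ¬p ∣ 2 * n) (a₀ : ℤ) :
    ∑ k ∈ Finset.range p, hq F n p (a₀ + k) ≤ 1 + gg / 2 * p := by
  haveI := Fact.mk hp
  have hp2 : p ≠ 2 := fun h => hn (h ▸ dvd_mul_right 2 n)
  have h2 := F.two p hp hp2
  have hB : (F.B : ZMod p) ≠ 0 := fun h => h2
    (((ZMod.intCast_zmod_eq_zero_iff_dvd _ _).1 h).trans ⟨F.h * F.A * F.c₁, by ring⟩)
  have hc : (F.c₁ : ZMod p) ≠ 0 := fun h => h2
    (((ZMod.intCast_zmod_eq_zero_iff_dvd _ _).1 h).trans ⟨F.h * F.A * F.B, by ring⟩)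
  have hn' : (n : ZMod p) ≠ 0 := fun h => hn
    (((ZMod.natCast_eq_zero_iff _ _).1 h).trans (dvd_mul_left n 2))
  have hg := gg_gt
  set G : ZMod p → ℝ := fun y =>
    (if y = 0 then 1 else 0) + gg / 2 * (1 + (quadraticChar (ZMod p) y : ℝ)) with hG
  have h3 : ∀ k : ℕ, hq F n p (a₀ + k) ≤
      G (F.B * n * F.c₁ * (k : ZMod p) + F.B * n * (F.c₁ * a₀ + F.c₀)) := by
    intro k
    have e : (F.B * n * F.c₁ * (k : ZMod p) + F.B * n * (F.c₁ * a₀ + F.c₀) : ZMod p) =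
        ((F.B * n * (F.c₁ * (a₀ + k) + F.c₀) : ℤ) : ZMod p) := by
      push_cast
      ring
    rw [e]
    unfold hq
    by_cases h4 : (p : ℤ) ∣ F.c₁ * (a₀ + k) + F.c₀
    · have h5 : ((F.B * n * (F.c₁ * (a₀ + k) + F.c₀) : ℤ) : ZMod p) = 0 :=
        (ZMod.intCast_zmod_eq_zero_iff_dvd _ _).2 (h4.mul_left _)
      rw [if_pos h4, h5]
      simp only [hG, if_true, MulChar.map_zero, Int.cast_zero]
      linarith
    · have h5 : ((F.B * n * (F.c₁ * (a₀ + k) + F.c₀) : ℤ) : ZMod p) ≠ 0 := by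
        rw [Int.cast_mul, Int.cast_mul, Int.cast_natCast]
        exact mul_ne_zero (mul_ne_zero hB hn')
          fun h => h4 ((ZMod.intCast_zmod_eq_zero_iff_dvd _ _).1 h)
      rw [if_neg h4]
      simp only [hG, if_neg h5]
      split_ifs with h6
      · rw [(quadraticChar_one_iff_isSquare h5).2 h6]
        push_cast
        linarith
      · rw [quadraticChar_neg_one_iff_not_isSquare.2 h6]
        push_cast
        linarith
  refine (Finset.sum_le_sum fun k _ => h3 k).trans (le_of_eq ?_)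
  rw [shavg_sum_zmod fun y : ZMod p => G ((F.B : ZMod p) * n * F.c₁ * y + (F.B : ZMod p) * n * (F.c₁ * a₀ + F.c₀))]
  have h4 := Equiv.sum_comp ((Equiv.mulLeft₀ (F.B * n * F.c₁ : ZMod p)
    (mul_ne_zero (mul_ne_zero hB hn') hc)).trans
    (Equiv.addRight (F.B * n * (F.c₁ * a₀ + F.c₀) : ZMod p))) G
  simp only [Equiv.trans_apply, Equiv.mulLeft₀_apply, Equiv.coe_addRight] at h4
  rw [h4]
  have h5 : ∑ y : ZMod p, (quadraticChar (ZMod p) y : ℝ) = 0 := by
    rw [← Int.cast_sum, quadraticChar_sum_zero (by rwa [ZMod.ringChar_zmod_n]), Int.cast_zero]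
  simp only [hG]
  rw [Finset.sum_add_distrib, ← Finset.mul_sum, Finset.sum_add_distrib, h5]
  simp [ZMod.card]

lemma shavg_w_sum (F : Fam) {n p : ℕ} (hp : p.Prime) (hn : ¬p ∣ 2 * n) (a₀ : ℤ) :
    ∑ k ∈ Finset.range p, shavg_w F n p (a₀ + k) ≤ gg + 4 / p := by
  have h0 : (0 : ℝ) < p := by exact_mod_cast hp.pos
  have h1 := shavg_hq_sum F hp hn a₀
  have h2 : ∑ k ∈ Finset.range p, hq F n p (a₀ + k) ^ 2 / p ≤ 2 := by
    have h3 : ∀ k ∈ Finset.range p, hq F n p (a₀ + k) ^ 2 / p ≤ 2 / (p : ℝ) := fun k _ => by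
      have h4 := hq_nonneg F n p (a₀ + k)
      have h5 := (hq_le F n p (a₀ + k)).trans gg_lt.le
      gcongr
      nlinarith
    refine (Finset.sum_le_sum h3).trans (le_of_eq ?_)
    rw [Finset.sum_const, Finset.card_range, nsmul_eq_mul]
    field_simp
  unfold shavg_w
  rw [← Finset.sum_div, Finset.sum_add_distrib, ← Finset.mul_sum, div_le_iff₀ h0, add_mul,
    div_mul_cancel₀ _ h0.ne']
  linarith

lemma shavg_per_mul {Φ : ℕ → ℝ} {d : ℕ} (hp : Function.Periodic Φ d) (q : ℕ) :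
    ∑ k ∈ Finset.range (q * d), Φ k = q * ∑ k ∈ Finset.range d, Φ k := by
  induction q with
  | zero => simp
  | succ q ih =>
    rw [Nat.succ_mul, add_comm (q * d), Finset.sum_range_add]
    simp_rw [add_comm d, hp _]
    rw [ih]
    push_cast
    ring

lemma shavg_per_le {Φ : ℕ → ℝ} {d M : ℕ} (hp : Function.Periodic Φ d) (h0 : ∀ k, 0 ≤ Φ k)
    (hd : 0 < d) (hM : d ≤ M) :
    ∑ k ∈ Finset.range M, Φ k ≤ 2 * M / d * ∑ k ∈ Finset.range d, Φ k := by
  have h1 : M ≤ (M / d + 1) * d := by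
    rw [mul_comm]
    exact (Nat.lt_mul_div_succ M hd).le
  refine (Finset.sum_le_sum_of_subset_of_nonneg (Finset.range_mono h1) fun k _ _ => h0 k).trans ?_
  rw [shavg_per_mul hp]
  refine mul_le_mul_of_nonneg_right ?_ (Finset.sum_nonneg fun k _ => h0 k)
  have h2 : (0 : ℝ) < d := by exact_mod_cast hd
  have h3 : ((M / d : ℕ) : ℝ) ≤ (M : ℝ) / d := Nat.cast_div_le
  have h4 : (1 : ℝ) ≤ (M : ℝ) / d := by
    rw [le_div_iff₀ h2, one_mul]
    exact_mod_cast hM
  push_cast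
  rw [mul_div_assoc]
  linarith

lemma shavg_sub (F : Fam) {n z M : ℕ} (a₀ : ℤ) (hz : 2 ≤ z) (hM : 1 ≤ M) {U : Finset ℕ}
    (hU : U ⊆ PS n z) :
    ∑ j ∈ Finset.range M, ∏ p ∈ U, shavg_w F n p (a₀ + j) ≤
      2 * M * ∏ p ∈ U, ((gg + 4 / p) / p) +
        M * Real.exp (-Real.log M / Real.log z) * ∏ p ∈ U, ((11 : ℝ) / p) := by
  have hP : ∀ p ∈ U, p.Prime ∧ ¬p ∣ 2 * n := fun p hp => (Finset.mem_filter.1 (hU hp)).2
  have hz' : ∀ p ∈ U, p ≤ z := fun p hp =>
    Nat.lt_succ_iff.1 (Finset.mem_range.1 (Finset.mem_filter.1 (hU hp)).1)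
  have hg := gg_gt
  have hg0 : 0 ≤ gg := by linarith
  have hd : 0 < ∏ p ∈ U, p := Finset.prod_pos fun p hp => (hP p hp).1.pos
  rcases le_or_gt (∏ p ∈ U, p) M with h | h
  · refine le_add_of_le_of_nonneg ?_ (by positivity)
    refine (shavg_per_le (Pool.Agent.MP_d0fd9b_nt.periodic_prod (shavg_w_per F n a₀) U)
      (fun k => Finset.prod_nonneg fun p _ => shavg_w_nonneg ..) hd h).trans ?_
    rw [Pool.Agent.MP_d0fd9b_nt.sum_prod_primes (shavg_w_per F n a₀) U fun p hp => (hP p hp).1,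
      Finset.prod_div_distrib, Nat.cast_prod, div_mul_eq_mul_div, mul_div_assoc]
    gcongr with p hp
    · exact fun p _ => Finset.sum_nonneg fun k _ => shavg_w_nonneg ..
    · exact shavg_w_sum F (hP p hp).1 (hP p hp).2 a₀
  · refine le_add_of_nonneg_of_le (by positivity) ?_
    have hlz : 0 < Real.log z := Real.log_pos (by exact_mod_cast hz)
    have h1 : Real.log M ≤ U.card * Real.log z := by
      rw [← Real.log_pow]
      refine Real.log_le_log (by exact_mod_cast hM) ?_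
      exact_mod_cast h.le.trans (Finset.prod_le_pow_card U _ z hz')
    have h2 : 1 ≤ Real.exp (-Real.log M / Real.log z) * Real.exp 1 ^ U.card := by
      rw [← Real.exp_nat_mul, ← Real.exp_add, mul_one]
      refine Real.one_le_exp ?_
      rw [neg_div, neg_add_eq_sub, sub_nonneg, div_le_iff₀ hlz]
      exact h1
    have h3 : ∏ p ∈ U, ((4 : ℝ) / p) ≤
        Real.exp (-Real.log M / Real.log z) * ∏ p ∈ U, ((11 : ℝ) / p) := by
      refine (le_mul_of_one_le_left (by positivity) h2).trans ?_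
      rw [mul_assoc, ← Finset.prod_const, ← Finset.prod_mul_distrib]
      gcongr with p hp
      rw [← mul_div_assoc]
      gcongr
      linarith [Real.exp_one_lt_d9]
    have h4 : ∀ j ∈ Finset.range M, ∏ p ∈ U, shavg_w F n p (a₀ + j) ≤
        Real.exp (-Real.log M / Real.log z) * ∏ p ∈ U, ((11 : ℝ) / p) := fun j _ =>
      (Finset.prod_le_prod (fun p _ => shavg_w_nonneg ..)
        fun p hp => shavg_w_le F n (hP p hp).1.two_le _).trans h3
    refine (Finset.sum_le_sum h4).trans (le_of_eq ?_)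
    rw [Finset.sum_const, Finset.card_range, nsmul_eq_mul, mul_assoc]

theorem EP_avg : ∃ C : ℝ, 0 < C ∧ ∀ (F : Fam) (n z M : ℕ) (a₀ : ℤ), 1 ≤ n → 2 ≤ z → 1 ≤ M →
    ∑ j ∈ Finset.range M, EP F n z (a₀ + j) ^ 2 ≤
      C * M * (Real.log z ^ gg + Real.log z ^ 11 * Real.exp (-Real.log M / Real.log z)) := by
  have hg := gg_gt
  have hg0 : 0 ≤ gg := by linarith
  obtain ⟨C₁, h₁, H₁⟩ := prod_primes_le hg0
  obtain ⟨C₂, h₂, H₂⟩ := prod_conv (c := 4) (s := 2) (by norm_num) (by norm_num)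
  obtain ⟨C₃, h₃, H₃⟩ := prod_primes_le (γ := 11) (by norm_num)
  refine ⟨2 * (C₁ * C₂) + C₃, by positivity, fun F n z M a₀ _ hz hM => ?_⟩
  have hP : ∀ p ∈ PS n z, p.Prime ∧ p ≤ z := fun p hp => ⟨(Finset.mem_filter.1 hp).2.1,
    Nat.lt_succ_iff.1 (Finset.mem_range.1 (Finset.mem_filter.1 hp).1)⟩
  have hlz : 0 < Real.log z := Real.log_pos (by exact_mod_cast hz)
  have e1 : ∀ j ∈ Finset.range M, EP F n z (a₀ + j) ^ 2 =
      ∑ U ∈ (PS n z).powerset, ∏ p ∈ U, shavg_w F n p (a₀ + j) := fun j _ => by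
    rw [EP, ← Finset.prod_pow, ← Finset.prod_one_add]
    exact Finset.prod_congr rfl fun p _ => shavg_sq ..
  rw [Finset.sum_congr rfl e1, Finset.sum_comm]
  refine (Finset.sum_le_sum fun U hU => shavg_sub F a₀ hz hM (Finset.mem_powerset.1 hU)).trans ?_
  rw [Finset.sum_add_distrib, ← Finset.mul_sum, ← Finset.mul_sum, ← Finset.prod_one_add,
    ← Finset.prod_one_add]
  have b1 : ∏ p ∈ PS n z, (1 + (gg + 4 / (p : ℝ)) / p) ≤ C₁ * C₂ * Real.log z ^ gg := by
    have h4 : ∏ p ∈ PS n z, (1 + (gg + 4 / (p : ℝ)) / p) ≤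
        (∏ p ∈ PS n z, (1 + gg / p)) * ∏ p ∈ PS n z, (1 + 4 * (p : ℝ) ^ (-2 : ℝ)) := by
      rw [← Finset.prod_mul_distrib]
      refine Finset.prod_le_prod (fun p _ => by positivity) fun p hp => ?_
      have h5 : (p : ℝ) ^ (-2 : ℝ) = 1 / p / p := by
        rw [Real.rpow_neg p.cast_nonneg, Real.rpow_two]
        ring
      have h6 : 0 ≤ gg / p * (4 * (1 / (p : ℝ) / p)) := by positivity
      rw [h5]
      have h7 : (1 + gg / p) * (1 + 4 * (1 / (p : ℝ) / p)) =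
          1 + (gg + 4 / (p : ℝ)) / p + gg / p * (4 * (1 / (p : ℝ) / p)) := by ring
      linarith
    refine h4.trans ?_
    rw [mul_right_comm]
    exact mul_le_mul (H₁ z hz _ hP) (H₂ _) (Finset.prod_nonneg fun p _ => by positivity)
      (by positivity)
  have b2 : ∏ p ∈ PS n z, (1 + (11 : ℝ) / p) ≤ C₃ * Real.log z ^ 11 := by
    have := H₃ z hz _ hP
    rwa [show (11 : ℝ) = ((11 : ℕ) : ℝ) by norm_num, Real.rpow_natCast,
      show ((11 : ℕ) : ℝ) = 11 by norm_num] at this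
  set E := Real.exp (-Real.log M / Real.log z)
  have hE : 0 < E := Real.exp_pos _
  have c1 := mul_le_mul_of_nonneg_left b1 (show (0 : ℝ) ≤ 2 * M by positivity)
  have c2 := mul_le_mul_of_nonneg_left b2 (show (0 : ℝ) ≤ M * E by positivity)
  have c3 : (0 : ℝ) ≤ C₃ * M * Real.log z ^ gg := by positivity
  have c4 : (0 : ℝ) ≤ 2 * (C₁ * C₂) * M * (Real.log z ^ 11 * E) := by positivity
  nlinarith

theorem EP_le : ∃ C : ℝ, 0 < C ∧ ∀ (F : Fam) (n z Z : ℕ) (m : ℤ), 2 ≤ z → z ≤ Z →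
    EP F n Z m ≤ C * (Real.log Z / Real.log z) ^ gg * EP F n z m := by
  have hg := gg_gt
  obtain ⟨C, hC, H⟩ := prod_primes_Ioc (γ := gg) (by linarith)
  refine ⟨C, hC, fun F n z Z m hz hZ => ?_⟩
  have e : (PS n Z).filter (fun p => ¬z < p) = PS n z := by
    ext p
    simp only [PS, Finset.mem_filter, Finset.mem_range]
    constructor
    · rintro ⟨⟨_, h⟩, h'⟩
      exact ⟨by omega, h⟩
    · rintro ⟨h', h⟩
      exact ⟨⟨by omega, h⟩, by omega⟩
  rw [EP, ← Finset.prod_filter_mul_prod_filter_not (PS n Z) (fun p => z < p), e]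
  refine mul_le_mul_of_nonneg_right ?_ (zero_le_one.trans (one_le_EP F n z m))
  refine le_trans (Finset.prod_le_prod (fun p _ => ?_) fun p _ => ?_) (H z Z hz hZ _ fun p hp => ?_)
  · have := hq_nonneg F n p m
    positivity
  · have := hq_le F n p m
    gcongr
  · rcases Finset.mem_filter.1 hp with ⟨h1, h2⟩
    exact ⟨(Finset.mem_filter.1 h1).2.1, h2,
      Nat.lt_succ_iff.1 (Finset.mem_range.1 (Finset.mem_filter.1 h1).1)⟩

end

end Pool.Agent.MP_9f080f_an
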