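import Pool.Agent.MP_9f080f_an.Mg.ShHool
import Pool.Agent.MP_9f080f_an.Mg.ShAvg

namespace Pool.Agent.MP_9f080f_an
open Complex MeasureTheory Set Filter Topology Metric
open scoped Real

noncomputable section

/-! The arithmetic theorem.  Put `ℓ = ell n`, `K = 1 + log n`, `x = 2^i`, `M = 2^k`; note `exp ℓ = e K` and
`log x ≤ log D + log n ≤ (1 + log D) K`.
(a) `log x < 1000 ℓ²`: `Wf ≤ wt` (`STT_le_wt`, `iv_mul`), `∑_{q ≤ x} wt q ≤ x ∑ wt q / q ≤ C x (log x)³` (`sum_wt`;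
`i = 0`: `STT_one`), and `1 ≤ (1+i) (1+i)^(gg-2)`, `1 + i ≤ 1 + 1500 ℓ²`.
(b) otherwise let `Z = ⌊exp (log x / (64 ℓ))⌋`; then `log x/(128 ℓ) ≤ log Z ≤ log x/(64 ℓ)`, `hooley` applies,
the second term is `≤ (log x)^15 (e K)^(-16) ≤ C / log x`, and `hh_le_ell`, `one_le_EP` give
`∑_q Wf ≤ C x ℓ^4 (log x)⁻¹ EP F n Z m`.
If `log M < 22 ℓ`: `EP ≤ C (log Z)^gg` (`EP_le` with `z = 2`), `log x ≤ C K`, `1 ≤ (1+k)^gg (1+k)^(-gg)`.
Otherwise `z = min Z ⌊exp (log M / (11 ℓ))⌋ ≥ 2`, `log z ≥ min (log Z) (log M/(22 ℓ))`,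
`(log z)^11 exp (-log M / log z) ≤ (C K)^11 (e K)^(-11) ≤ C' ≤ C'' (log z)^gg`; `EP_le`, `EP_avg` give the mean
`≤ C x² ℓ^8 (log x)^(2gg-2) (log z)^(-gg)` and `(log z)^(-gg) ≤ (log Z)^(-gg) + (22 ℓ / log M)^gg`.
`goodW`: `lam k i = C ℓ^A lamf`; `∑_k (1+k)^(-gg) ≤ C`, `∑_{i<N} (1+i)^(gg-2) ≤ C N^(gg-1)`,
`∑_{k<N} (1+k)^(-gg/2) ≤ C N^(1-gg/2)`, `L + 4 ≤ C K`, `gg ≤ 2 gg - 1`. -/

/-- the shape of the mean square bound -/
def lamf (n k i : ℕ) : ℝ :=
  (1 + Real.log n) ^ (2 * gg - 2) * (1 + k : ℝ) ^ (-gg) + (1 + i : ℝ) ^ (gg - 2)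

lemma shat_lamf_nonneg (n k i : ℕ) : 0 ≤ lamf n k i := by
  have := Real.log_natCast_nonneg n
  unfold lamf; positivity

lemma shat_K (n : ℕ) : 1 ≤ 1 + Real.log n := by linarith [Real.log_natCast_nonneg n]

lemma shat_exp_ell (n j : ℕ) : Real.exp (-(j * ell n)) ≤ ((1 + Real.log n) ^ j)⁻¹ := by
  have hK := shat_K n
  rw [Real.exp_neg]
  refine inv_anti₀ (by positivity) ?_
  rw [Real.exp_nat_mul]
  refine pow_le_pow_left₀ (by positivity) ?_ j
  rw [ell, Real.exp_add, Real.exp_log (by positivity)]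
  have := Real.add_one_le_exp (1 : ℝ)
  nlinarith

lemma shat_logD {D n x : ℕ} (hn : 1 ≤ n) (hx : 1 ≤ x) (h : x ≤ D * n) :
    Real.log x ≤ (1 + Real.log D) * (1 + Real.log n) := by
  have hD : 1 ≤ D := by
    rcases Nat.eq_zero_or_pos D with h0 | h0
    · rw [h0] at h; omega
    · exact h0
  have h1 : Real.log x ≤ Real.log D + Real.log n := by
    rw [← Real.log_mul (by positivity) (by positivity)]
    exact Real.log_le_log (by positivity) (by exact_mod_cast h)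
  have := Real.log_natCast_nonneg n
  have := Real.log_natCast_nonneg D
  nlinarith

lemma shat_floor {t : ℝ} (ht : 2 ≤ t) :
    2 ≤ ⌊Real.exp t⌋₊ ∧ Real.exp t / 2 ≤ ⌊Real.exp t⌋₊ ∧ t / 2 ≤ Real.log ⌊Real.exp t⌋₊ ∧
      Real.log ⌊Real.exp t⌋₊ ≤ t := by
  have h1 := Real.add_one_le_exp t
  have h2 : 2 ≤ ⌊Real.exp t⌋₊ := Nat.le_floor (by push_cast; linarith)
  have h3 := Nat.lt_floor_add_one (Real.exp t)
  have h4 : Real.exp t / 2 ≤ ⌊Real.exp t⌋₊ := by linarith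
  have h5 : (0 : ℝ) < ⌊Real.exp t⌋₊ := by linarith
  refine ⟨h2, h4, ?_, ?_⟩
  · have h6 := Real.log_le_log (by positivity) h4
    rw [Real.log_div (by positivity) (by norm_num), Real.log_exp] at h6
    linarith [Real.log_two_lt_d9]
  · rw [Real.log_le_iff_le_exp h5]
    exact Nat.floor_le (Real.exp_pos t).le

lemma shat_EP_two (F : Fam) (n : ℕ) (m : ℤ) : EP F n 2 m = 1 := by
  have : PS n 2 = ∅ := by
    refine Finset.filter_eq_empty_iff.2 fun p hp h => ?_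
    have h1 := Finset.mem_range.1 hp
    have h2 := h.1.two_le
    obtain rfl : p = 2 := by omega
    exact h.2 (dvd_mul_right 2 n)
  rw [EP, this, Finset.prod_empty]

lemma shat_rpow_le_sq {a : ℝ} (ha : 1 ≤ a) : a ^ gg ≤ a ^ 2 := by
  rw [← Real.rpow_natCast]
  exact Real.rpow_le_rpow_of_exponent_le ha (by push_cast; linarith [gg_lt])

/-- the mean square of the Euler product -/
lemma shat_mean {E : ℝ} (hE : 1 ≤ E) : ∃ C : ℝ, 0 < C ∧ ∀ (F : Fam) (n Z k : ℕ) (a₀ : ℤ), 1 ≤ n →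
    2 ≤ Z → 1 ≤ Real.log Z → Real.log Z ≤ E * (1 + Real.log n) →
    ∑ j ∈ Finset.range (2 ^ k), EP F n Z (a₀ + j) ^ 2 ≤
      C * 2 ^ k * (Real.log Z ^ gg + ell n ^ 2 * Real.log Z ^ (2 * gg) * (1 + k : ℝ) ^ (-gg)) := by
  obtain ⟨C1, hC1, hav⟩ := EP_avg
  obtain ⟨C2, hC2, hle⟩ := EP_le
  refine ⟨(C2 ^ 2 + 1) * (C1 * (1 + E ^ 11) + 1) * 200 ^ 2, by positivity,
    fun F n Z k a₀ hn hZ hW hWK => ?_⟩
  have hg1 := gg_gt
  have hg2 := gg_lt
  have hl := one_le_ell n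
  have hK := shat_K n
  have hl2 := Real.log_two_gt_d9
  have hl3 := Real.log_two_lt_d9
  have hk0 : (0 : ℝ) ≤ k := Nat.cast_nonneg k
  have hY : Real.log ((2 ^ k : ℕ) : ℝ) = k * Real.log 2 := by push_cast; rw [Real.log_pow]
  -- a bound for the mean at a level `z`
  have hz : ∀ z : ℕ, 2 ≤ z → z ≤ Z → 1 ≤ Real.log z → 11 * ell n * Real.log z ≤ k * Real.log 2 →
      ∑ j ∈ Finset.range (2 ^ k), EP F n z (a₀ + j) ^ 2 ≤
        C1 * (1 + E ^ 11) * 2 ^ k * Real.log z ^ gg := by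
    intro z h1 h2 h3 h4
    have h5 := hav F n z (2 ^ k) a₀ hn h1 Nat.one_le_two_pow
    rw [hY] at h5
    have h6 : Real.log z ≤ Real.log Z := Real.log_le_log (by positivity) (by exact_mod_cast h2)
    have h7 : Real.exp (-(k * Real.log 2) / Real.log z) ≤ ((1 + Real.log n) ^ 11)⁻¹ := by
      refine le_trans (Real.exp_le_exp.2 ?_) (shat_exp_ell n 11)
      rw [div_le_iff₀ (by linarith)]
      push_cast; linarith
    have h8 : Real.log z ^ 11 ≤ E ^ 11 * (1 + Real.log n) ^ 11 := by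
      rw [← mul_pow]; exact pow_le_pow_left₀ (by linarith) (h6.trans hWK) 11
    have h9 : Real.log z ^ 11 * Real.exp (-(k * Real.log 2) / Real.log z) ≤ E ^ 11 := by
      refine (mul_le_mul h8 h7 (by positivity) (by positivity)).trans (le_of_eq ?_)
      field_simp
    have h10 : 1 ≤ Real.log z ^ gg := Real.one_le_rpow h3 (by linarith)
    have h11 : E ^ 11 ≤ E ^ 11 * Real.log z ^ gg := le_mul_of_one_le_right (by positivity) h10
    refine h5.trans ?_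
    push_cast
    calc C1 * 2 ^ k * (Real.log z ^ gg + Real.log z ^ 11 * Real.exp (-(k * Real.log 2) / Real.log z))
        ≤ C1 * 2 ^ k * (Real.log z ^ gg + E ^ 11 * Real.log z ^ gg) :=
          mul_le_mul_of_nonneg_left (add_le_add le_rfl (h9.trans h11)) (by positivity)
      _ = _ := by ring
  have hWg : 0 ≤ Real.log Z ^ gg := by positivity
  have hT : 0 ≤ ell n ^ 2 * Real.log Z ^ (2 * gg) * (1 + k : ℝ) ^ (-gg) := by positivity
  -- comparison of levels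
  have hcmp : ∀ (z : ℕ) (B : ℝ), 2 ≤ z → z ≤ Z → 0 ≤ B → (1 + k : ℝ) ≤ 100 * ell n * Real.log z →
      1 / 2 ≤ Real.log z →
      ∑ j ∈ Finset.range (2 ^ k), EP F n z (a₀ + j) ^ 2 ≤ B * 2 ^ k * (2 * Real.log z) ^ gg →
      ∑ j ∈ Finset.range (2 ^ k), EP F n Z (a₀ + j) ^ 2 ≤ C2 ^ 2 * B * 200 ^ 2 * 2 ^ k *
        (ell n ^ 2 * Real.log Z ^ (2 * gg) * (1 + k : ℝ) ^ (-gg)) := by
    intro z B h1 h2 hB h3 h4 h5
    have hw : 0 < Real.log z := by linarith
    have h6 : ∀ m, EP F n Z m ^ 2 ≤ (C2 * (Real.log Z / Real.log z) ^ gg) ^ 2 * EP F n z m ^ 2 := by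
      intro m
      rw [← mul_pow]
      exact pow_le_pow_left₀ (by linarith [one_le_EP F n Z m]) (hle F n z Z m h1 h2) 2
    refine (Finset.sum_le_sum fun j _ => h6 _).trans ?_
    rw [← Finset.mul_sum]
    refine (mul_le_mul_of_nonneg_left h5 (by positivity)).trans ?_
    have h7 : (1 + k : ℝ) ^ gg * 2 ^ gg ≤ (200 * ell n) ^ 2 * Real.log z ^ gg := by
      rw [← Real.mul_rpow (by positivity) (by norm_num)]
      calc ((1 + k : ℝ) * 2) ^ gg ≤ (200 * ell n * Real.log z) ^ gg :=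
            Real.rpow_le_rpow (by positivity) (by linarith) (by linarith)
        _ = (200 * ell n) ^ gg * Real.log z ^ gg := Real.mul_rpow (by positivity) hw.le
        _ ≤ _ := mul_le_mul_of_nonneg_right (shat_rpow_le_sq (by linarith)) (by positivity)
    have h8 : Real.log Z ^ (2 * gg) = (Real.log Z ^ gg) ^ 2 := by
      rw [← Real.rpow_natCast, ← Real.rpow_mul (by linarith)]; push_cast; rw [mul_comm]
    rw [Real.div_rpow (by linarith) hw.le, Real.mul_rpow (by norm_num) hw.le, h8,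
      Real.rpow_neg (by positivity)]
    have p1 : 0 < Real.log z ^ gg := by positivity
    have p2 : 0 < (1 + k : ℝ) ^ gg := by positivity
    have h9 : (2 : ℝ) ^ gg / Real.log z ^ gg ≤ (200 * ell n) ^ 2 / (1 + k : ℝ) ^ gg := by
      rw [div_le_div_iff₀ p1 p2]; linarith
    calc (C2 * (Real.log Z ^ gg / Real.log z ^ gg)) ^ 2 * (B * 2 ^ k * (2 ^ gg * Real.log z ^ gg))
        = C2 ^ 2 * B * 2 ^ k * (Real.log Z ^ gg) ^ 2 * (2 ^ gg / Real.log z ^ gg) := by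
          field_simp
      _ ≤ C2 ^ 2 * B * 2 ^ k * (Real.log Z ^ gg) ^ 2 * ((200 * ell n) ^ 2 / (1 + k : ℝ) ^ gg) := by
          gcongr
      _ = _ := by field_simp
  have hfin : ∀ B : ℝ, B ≤ C1 * (1 + E ^ 11) + 1 → C2 ^ 2 * B * 200 ^ 2 * 2 ^ k *
        (ell n ^ 2 * Real.log Z ^ (2 * gg) * (1 + k : ℝ) ^ (-gg)) ≤
      (C2 ^ 2 + 1) * (C1 * (1 + E ^ 11) + 1) * 200 ^ 2 * 2 ^ k *
        (Real.log Z ^ gg + ell n ^ 2 * Real.log Z ^ (2 * gg) * (1 + k : ℝ) ^ (-gg)) := by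
    intro B hB
    calc _ ≤ C2 ^ 2 * (C1 * (1 + E ^ 11) + 1) * 200 ^ 2 * 2 ^ k *
          (ell n ^ 2 * Real.log Z ^ (2 * gg) * (1 + k : ℝ) ^ (-gg)) := by gcongr
      _ ≤ _ := by gcongr <;> linarith
  rcases lt_or_ge (k * Real.log 2) (22 * ell n) with hc | hc
  · refine (hcmp 2 1 le_rfl hZ zero_le_one ?_ ?_ ?_).trans (hfin 1 (by
      have : 0 ≤ C1 * (1 + E ^ 11) := by positivity
      linarith))
    · push_cast; nlinarith
    · push_cast; linarith
    · simp only [shat_EP_two, one_pow, Finset.sum_const, Finset.card_range, nsmul_eq_mul, mul_one,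
        one_mul]
      push_cast
      exact le_mul_of_one_le_right (by positivity) (Real.one_le_rpow (by linarith) (by linarith))
  · have hs : 2 ≤ k * Real.log 2 / (11 * ell n) := by
      rw [le_div_iff₀ (by positivity)]; linarith
    obtain ⟨f1, -, f3, f4⟩ := shat_floor hs
    generalize ⌊Real.exp (k * Real.log 2 / (11 * ell n))⌋₊ = z at f1 f3 f4
    rw [le_div_iff₀ (by positivity)] at f4
    rcases le_total Z z with hZz | hZz
    · have h6 : Real.log Z ≤ Real.log z := Real.log_le_log (by positivity) (by exact_mod_cast hZz)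
      refine (hz Z hZ le_rfl hW (by nlinarith)).trans ?_
      have : C1 * (1 + E ^ 11) ≤ (C2 ^ 2 + 1) * (C1 * (1 + E ^ 11) + 1) * 200 ^ 2 := by
        have : 0 ≤ C1 * (1 + E ^ 11) := by positivity
        nlinarith [sq_nonneg C2]
      gcongr; linarith
    · have h1 : 1 ≤ Real.log z := by linarith
      refine (hcmp z (C1 * (1 + E ^ 11)) f1 hZz (by positivity) ?_ (by linarith)
        ((hz z f1 hZz h1 (by linarith)).trans ?_)).trans (hfin _ (by linarith))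
      · rw [div_div, div_le_iff₀ (by positivity)] at f3
        nlinarith
      · gcongr; linarith

lemma shat_small : ∃ C : ℝ, 0 < C ∧ ∀ (F : Fam) (n x : ℕ) (m : ℤ), 1 ≤ x →
    ∑ q ∈ Finset.Icc 1 x, Wf F n q m ≤ C * x * (1 + Real.log x) ^ 3 := by
  obtain ⟨C, hC⟩ := sum_wt
  refine ⟨|C| + 1, by positivity, fun F n x m hx => ?_⟩
  have hx0 : (0 : ℝ) < x := by exact_mod_cast hx
  have h1 : ∀ q ∈ Finset.Icc 1 x, Wf F n q m ≤ x * (wt q / q) := by
    intro q hq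
    obtain ⟨h2, h3⟩ := Finset.mem_Icc.1 hq
    have hq0 : (0 : ℝ) < q := by exact_mod_cast h2
    have hw := one_le_wt q
    have h4 : Wf F n q m ≤ wt q := by
      unfold Wf
      split_ifs with h
      · refine STT_le_wt (IsCoprime.mul_left ?_ h.of_mul_left_right) _ _
        obtain ⟨c, hc⟩ := (iv_mul (by omega) h.of_mul_left_left).dvd
        exact ⟨F.h, c, by linear_combination (-1 : ℤ) * hc⟩
      · linarith
    refine h4.trans ?_
    rw [← mul_div_assoc, le_div_iff₀ hq0, mul_comm]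
    exact mul_le_mul_of_nonneg_right (by exact_mod_cast h3) (by linarith)
  refine (Finset.sum_le_sum h1).trans ?_
  rw [← Finset.mul_sum]
  have h5 : ∑ q ∈ Finset.Icc 1 x, wt q / q ≤ ∑ q ∈ Finset.Icc 1 (2 * x), wt q / q :=
    Finset.sum_le_sum_of_subset_of_nonneg (Finset.Icc_subset_Icc_right (by omega))
      fun q _ _ => div_nonneg (by linarith [one_le_wt q]) q.cast_nonneg
  have h6 := hC (2 * x) (by omega)
  have h7 : Real.log ((2 * x : ℕ) : ℝ) ≤ 1 + Real.log x := by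
    push_cast
    rw [Real.log_mul (by norm_num) hx0.ne']
    linarith [Real.log_two_lt_d9]
  have h8 : 0 ≤ Real.log ((2 * x : ℕ) : ℝ) := Real.log_natCast_nonneg _
  have h9 : C * Real.log ((2 * x : ℕ) : ℝ) ^ 3 ≤ (|C| + 1) * (1 + Real.log x) ^ 3 :=
    mul_le_mul (by linarith [le_abs_self C]) (pow_le_pow_left₀ h8 h7 3) (by positivity)
      (by positivity)
  calc (x : ℝ) * ∑ q ∈ Finset.Icc 1 x, wt q / q ≤ x * ((|C| + 1) * (1 + Real.log x) ^ 3) :=
        mul_le_mul_of_nonneg_left (h5.trans (h6.trans h9)) hx0.le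
    _ = _ := by ring

lemma shat_large {E : ℝ} (hE : 1 ≤ E) : ∃ C : ℝ, 0 < C ∧ ∀ (F : Fam) (n x : ℕ), 1 ≤ n → 1 ≤ x →
    Real.log x ≤ E * (1 + Real.log n) → 1000 * ell n ^ 2 ≤ Real.log x →
    ∃ Z : ℕ, 2 ≤ Z ∧ 1 ≤ Real.log Z ∧ Real.log Z ≤ Real.log x ∧ ∀ m : ℤ,
      ∑ q ∈ Finset.Icc 1 x, Wf F n q m ≤ C * x * ell n ^ 4 / Real.log x * EP F n Z m := by
  obtain ⟨C1, hC1, hoo⟩ := hooley
  obtain ⟨C2, hC2, hhh⟩ := hh_le_ell
  refine ⟨C1 * (C2 ^ 2 * 128 ^ 2 + E ^ 16), by positivity, fun F n x hn hx hX hc => ?_⟩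
  have hl := one_le_ell n
  have hK := shat_K n
  have hx0 : (0 : ℝ) < x := by exact_mod_cast hx
  have hX0 : 0 < Real.log x := by nlinarith
  have ht : 15 * ell n ≤ Real.log x / (64 * ell n) := by
    rw [le_div_iff₀ (by positivity)]; nlinarith
  obtain ⟨f1, f2, f3, f4⟩ := shat_floor (t := Real.log x / (64 * ell n)) (by linarith)
  generalize ⌊Real.exp (Real.log x / (64 * ell n))⌋₊ = Z at f1 f2 f3 f4
  have hZ0 : (0 : ℝ) < Z := by positivity
  have hW : 1 ≤ Real.log Z := by linarith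
  have f5 : Real.log Z * (64 * ell n) ≤ Real.log x := by rwa [le_div_iff₀ (by positivity)] at f4
  have f6 : Real.log x ≤ Real.log Z * (128 * ell n) := by
    rw [div_div, div_le_iff₀ (by positivity)] at f3; linarith
  refine ⟨Z, f1, hW, by nlinarith, fun m => ?_⟩
  have g1 : 200000 ≤ Z := by
    have h1 : Real.exp 15 ≤ Real.exp (Real.log x / (64 * ell n)) := Real.exp_le_exp.2 (by linarith)
    have h2 : Real.exp 15 = Real.exp 1 ^ 15 := by rw [← Real.exp_nat_mul]; norm_num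
    have h3 : (2.7 : ℝ) ^ 15 ≤ Real.exp 1 ^ 15 :=
      pow_le_pow_left₀ (by norm_num) (by linarith [Real.exp_one_gt_d9]) 15
    have h4 : (400000 : ℝ) ≤ 2.7 ^ 15 := by norm_num
    have : (200000 : ℝ) ≤ Z := by linarith
    exact_mod_cast this
  have g2 : Z ^ 40 ≤ x := by
    have : ((Z ^ 40 : ℕ) : ℝ) ≤ x := by
      rw [← Real.log_le_log_iff (by positivity) hx0]
      push_cast
      rw [Real.log_pow]
      push_cast
      nlinarith
    exact_mod_cast this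
  have g3 : (1 + Real.log n) ^ 2 ≤ Z := by
    refine le_trans ?_ f2
    have h1 : (1 + Real.log n) ^ 2 = Real.exp (2 * ell n - 2) := by
      rw [ell, show 2 * (1 + Real.log (1 + Real.log n)) - 2 =
        ((2 : ℕ) : ℝ) * Real.log (1 + Real.log n) by push_cast; ring, Real.exp_nat_mul,
        Real.exp_log (by linarith)]
    have h2 : Real.exp (2 * ell n - 2) * Real.exp 1 ≤ Real.exp (Real.log x / (64 * ell n)) := by
      rw [← Real.exp_add]; exact Real.exp_le_exp.2 (by linarith)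
    have h3 := Real.add_one_le_exp (1 : ℝ)
    have h4 := Real.exp_pos (2 * ell n - 2)
    rw [h1]; nlinarith
  refine (hoo F n Z x m hn g1 g2 g3).trans ?_
  have hEP := one_le_EP F n Z m
  have h1 : Pool.Agent.MP_a96b63_al.hh n ^ 2 ≤ (C2 * ell n) ^ 2 := by
    refine pow_le_pow_left₀ ?_ (hhh n hn) 2
    exact Finset.prod_nonneg fun q hq => add_nonneg zero_le_one
      (Pool.Agent.MP_a96b63_al.inv_pred_nonneg (Nat.prime_of_mem_primeFactors hq))
  have h2 : Pool.Agent.MP_a96b63_al.hh n ^ 2 * Real.log x / Real.log Z ^ 2 ≤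
      C2 ^ 2 * 128 ^ 2 * ell n ^ 4 / Real.log x := by
    rw [div_le_div_iff₀ (by positivity) hX0]
    have h3 : Real.log x ^ 2 ≤ (Real.log Z * (128 * ell n)) ^ 2 := pow_le_pow_left₀ hX0.le f6 2
    calc _ = Pool.Agent.MP_a96b63_al.hh n ^ 2 * Real.log x ^ 2 := by ring
      _ ≤ (C2 * ell n) ^ 2 * (Real.log Z * (128 * ell n)) ^ 2 :=
          mul_le_mul h1 h3 (by positivity) (by positivity)
      _ = _ := by ring
  have h3 : Real.exp (-Real.log x / (4 * Real.log Z)) ≤ ((1 + Real.log n) ^ 16)⁻¹ := by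
    refine le_trans (Real.exp_le_exp.2 ?_) (shat_exp_ell n 16)
    rw [div_le_iff₀ (by linarith)]
    push_cast; linarith
  have h4 : Real.log x ^ 15 * Real.exp (-Real.log x / (4 * Real.log Z)) ≤ E ^ 16 / Real.log x := by
    refine (mul_le_mul_of_nonneg_left h3 (by positivity)).trans ?_
    rw [← div_eq_mul_inv, div_le_div_iff₀ (by positivity) hX0, ← pow_succ, ← mul_pow]
    exact pow_le_pow_left₀ hX0.le hX 16
  have h5 : E ^ 16 / Real.log x ≤ E ^ 16 * ell n ^ 4 / Real.log x * EP F n Z m := by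
    have h6 : 1 ≤ ell n ^ 4 := one_le_pow₀ hl
    calc E ^ 16 / Real.log x = E ^ 16 * 1 / Real.log x * 1 := by ring
      _ ≤ _ := by gcongr
  calc _ ≤ C1 * x * (C2 ^ 2 * 128 ^ 2 * ell n ^ 4 / Real.log x * EP F n Z m +
        E ^ 16 * ell n ^ 4 / Real.log x * EP F n Z m) :=
        mul_le_mul_of_nonneg_left (add_le_add (mul_le_mul_of_nonneg_right h2 (by linarith))
          (h4.trans h5)) (by positivity)
    _ = _ := by ring

theorem arith (D : ℕ) : ∃ (C : ℝ) (A : ℕ), 0 < C ∧ ∀ (F : Fam) (n i k : ℕ) (a₀ : ℤ), 1 ≤ n →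
    2 ^ i ≤ D * n → ∑ j ∈ Finset.range (2 ^ k), (∑ q ∈ Finset.Icc 1 (2 ^ i), Wf F n q (a₀ + j)) ^ 2 ≤
      2 ^ k * 4 ^ i * (C * ell n ^ A * lamf n k i) := by
  have hE : 1 ≤ 1 + Real.log D := shat_K D
  generalize hEE : 1 + Real.log D = E at hE
  obtain ⟨C1, hC1, hs⟩ := shat_small
  obtain ⟨C2, hC2, hL⟩ := shat_large hE
  obtain ⟨C3, hC3, hm⟩ := shat_mean hE
  refine ⟨C1 ^ 2 * 1001 ^ 6 * 1501 + C2 ^ 2 * C3 * (2 * E), 14, by positivity,
    fun F n i k a₀ hn hx => ?_⟩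
  have hg1 := gg_gt
  have hg2 := gg_lt
  have hl := one_le_ell n
  have hK := shat_K n
  have hl2 := Real.log_two_gt_d9
  have hl3 := Real.log_two_lt_d9
  have hi0 : (0 : ℝ) ≤ i := Nat.cast_nonneg i
  have hXE := shat_logD hn Nat.one_le_two_pow hx
  rw [hEE] at hXE
  have hX : Real.log ((2 ^ i : ℕ) : ℝ) = i * Real.log 2 := by push_cast; rw [Real.log_pow]
  have hS0 : ∀ m, 0 ≤ ∑ q ∈ Finset.Icc 1 (2 ^ i), Wf F n q m :=
    fun m => Finset.sum_nonneg fun q _ => Wf_nonneg F n q m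
  have h4 : (((2 ^ i : ℕ) : ℝ)) ^ 2 = 4 ^ i := by
    push_cast; rw [← pow_mul, mul_comm, pow_mul]; norm_num
  have hlam := shat_lamf_nonneg n k i
  have p1 : 0 ≤ (1 + Real.log n) ^ (2 * gg - 2) * (1 + k : ℝ) ^ (-gg) := by positivity
  have p2 : 0 < (1 + i : ℝ) ^ (gg - 2) := by positivity
  rcases lt_or_ge (Real.log ((2 ^ i : ℕ) : ℝ)) (1000 * ell n ^ 2) with hc | hc
  · have h1 : 1 + Real.log ((2 ^ i : ℕ) : ℝ) ≤ 1001 * ell n ^ 2 := by nlinarith
    have h2 : (1 + i : ℝ) ≤ 1501 * ell n ^ 2 := by rw [hX] at hc; nlinarith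
    have h3 : 1 ≤ 1501 * ell n ^ 2 * lamf n k i := by
      have h5 : (1 + i : ℝ) ^ (-1 : ℝ) ≤ (1 + i : ℝ) ^ (gg - 2) :=
        Real.rpow_le_rpow_of_exponent_le (by linarith) (by linarith)
      rw [Real.rpow_neg_one] at h5
      have h6 : (1 + i : ℝ)⁻¹ ≤ lamf n k i := by unfold lamf; linarith
      calc (1 : ℝ) = (1 + i) * (1 + i : ℝ)⁻¹ := by field_simp
        _ ≤ _ := mul_le_mul h2 h6 (by positivity) (by positivity)
    have h5 : ∀ m, (∑ q ∈ Finset.Icc 1 (2 ^ i), Wf F n q m) ^ 2 ≤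
        4 ^ i * (C1 ^ 2 * 1001 ^ 6 * 1501 * ell n ^ 14 * lamf n k i) := by
      intro m
      have h6 : 0 ≤ 1 + Real.log ((2 ^ i : ℕ) : ℝ) := shat_K _ |>.trans' zero_le_one
      calc _ ≤ (C1 * ((2 ^ i : ℕ) : ℝ) * (1001 * ell n ^ 2) ^ 3) ^ 2 := by
            refine pow_le_pow_left₀ (hS0 m) ((hs F n _ m Nat.one_le_two_pow).trans ?_) 2
            gcongr
        _ = 4 ^ i * (C1 ^ 2 * 1001 ^ 6 * ell n ^ 12) * 1 := by rw [← h4]; ring
        _ ≤ 4 ^ i * (C1 ^ 2 * 1001 ^ 6 * ell n ^ 12) * (1501 * ell n ^ 2 * lamf n k i) := by gcongr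
        _ = _ := by ring
    refine (Finset.sum_le_sum fun j _ => h5 _).trans ?_
    rw [Finset.sum_const, Finset.card_range, nsmul_eq_mul, ← mul_assoc]
    push_cast
    gcongr
    have : 0 ≤ C2 ^ 2 * C3 * (2 * E) := by positivity
    linarith
  · obtain ⟨Z, hZ, hW, hWX, hb⟩ := hL F n _ hn Nat.one_le_two_pow hXE hc
    have h1 := hm F n Z k a₀ hn hZ hW (hWX.trans hXE)
    have hiX : (1 + i : ℝ) / 2 ≤ Real.log ((2 ^ i : ℕ) : ℝ) := by
      rw [hX] at hc ⊢; nlinarith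
    generalize Real.log ((2 ^ i : ℕ) : ℝ) = X at *
    have hX0 : 0 < X := by linarith
    have h5 : ∀ m, (∑ q ∈ Finset.Icc 1 (2 ^ i), Wf F n q m) ^ 2 ≤
        4 ^ i * C2 ^ 2 * ell n ^ 8 / X ^ 2 * EP F n Z m ^ 2 := by
      intro m
      refine (pow_le_pow_left₀ (hS0 m) (hb m) 2).trans (le_of_eq ?_)
      rw [← h4]; ring
    refine (Finset.sum_le_sum fun j _ => h5 _).trans ?_
    rw [← Finset.mul_sum]
    refine (mul_le_mul_of_nonneg_left h1 (by positivity)).trans ?_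
    have hX2 : X ^ 2 = X ^ (2 : ℝ) := by rw [← Real.rpow_natCast]; norm_num
    have h6 : Real.log Z ^ gg / X ^ 2 ≤ 2 * (1 + i : ℝ) ^ (gg - 2) := by
      calc Real.log Z ^ gg / X ^ 2 ≤ X ^ gg / X ^ 2 := by gcongr
        _ = X ^ (gg - 2) := by rw [Real.rpow_sub hX0, hX2]
        _ ≤ ((1 + i : ℝ) / 2) ^ (gg - 2) :=
            Real.rpow_le_rpow_of_nonpos (by positivity) hiX (by linarith)
        _ = (1 + i : ℝ) ^ (gg - 2) / 2 ^ (gg - 2) := Real.div_rpow (by positivity) (by norm_num) _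
        _ ≤ (1 + i : ℝ) ^ (gg - 2) / 2 ^ (-1 : ℝ) := by
            gcongr
            · norm_num
            · linarith
        _ = _ := by rw [Real.rpow_neg_one]; ring
    have h7 : Real.log Z ^ (2 * gg) / X ^ 2 ≤ E * (1 + Real.log n) ^ (2 * gg - 2) := by
      calc Real.log Z ^ (2 * gg) / X ^ 2 ≤ X ^ (2 * gg) / X ^ 2 := by gcongr
        _ = X ^ (2 * gg - 2) := by rw [Real.rpow_sub hX0, hX2]
        _ ≤ (E * (1 + Real.log n)) ^ (2 * gg - 2) := Real.rpow_le_rpow hX0.le hXE (by linarith)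
        _ = E ^ (2 * gg - 2) * (1 + Real.log n) ^ (2 * gg - 2) :=
            Real.mul_rpow (by linarith) (by linarith)
        _ ≤ E ^ (1 : ℝ) * (1 + Real.log n) ^ (2 * gg - 2) := by gcongr; linarith
        _ = _ := by rw [Real.rpow_one]
    have h8 : (Real.log Z ^ gg + ell n ^ 2 * Real.log Z ^ (2 * gg) * (1 + k : ℝ) ^ (-gg)) / X ^ 2 ≤
        2 * E * ell n ^ 6 * lamf n k i := by
      have h9 : ell n ^ 2 ≤ ell n ^ 6 := pow_le_pow_right₀ hl (by norm_num)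
      have h10 : 1 ≤ ell n ^ 6 := one_le_pow₀ hl
      calc _ = Real.log Z ^ gg / X ^ 2 +
            ell n ^ 2 * (Real.log Z ^ (2 * gg) / X ^ 2) * (1 + k : ℝ) ^ (-gg) := by ring
        _ ≤ 2 * (1 + i : ℝ) ^ (gg - 2) +
            ell n ^ 6 * (E * (1 + Real.log n) ^ (2 * gg - 2)) * (1 + k : ℝ) ^ (-gg) := by gcongr
        _ = 2 * 1 * 1 * (1 + i : ℝ) ^ (gg - 2) +
            1 * E * ell n ^ 6 * ((1 + Real.log n) ^ (2 * gg - 2) * (1 + k : ℝ) ^ (-gg)) := by ring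
        _ ≤ 2 * E * ell n ^ 6 * (1 + i : ℝ) ^ (gg - 2) +
            2 * E * ell n ^ 6 * ((1 + Real.log n) ^ (2 * gg - 2) * (1 + k : ℝ) ^ (-gg)) := by
            gcongr; norm_num
        _ = _ := by unfold lamf; ring
    calc _ = 2 ^ k * 4 ^ i * (C2 ^ 2 * C3 * ell n ^ 8 * ((Real.log Z ^ gg +
          ell n ^ 2 * Real.log Z ^ (2 * gg) * (1 + k : ℝ) ^ (-gg)) / X ^ 2)) := by ring
      _ ≤ 2 ^ k * 4 ^ i * (C2 ^ 2 * C3 * ell n ^ 8 * (2 * E * ell n ^ 6 * lamf n k i)) := by gcongr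
      _ = 2 ^ k * 4 ^ i * (C2 ^ 2 * C3 * (2 * E) * ell n ^ 14 * lamf n k i) := by ring
      _ ≤ _ := by
        gcongr
        have : 0 ≤ C1 ^ 2 * 1001 ^ 6 * 1501 := by positivity
        linarith

lemma shat_sum_lt {s : ℝ} (h0 : 0 ≤ s) (h1 : s ≤ 3 / 4) (N : ℕ) :
    ∑ k ∈ Finset.range N, (1 + k : ℝ) ^ (-s) ≤ 4 * (N : ℝ) ^ (1 - s) := by
  induction N with
  | zero => simp; positivity
  | succ N ih =>
    rw [Finset.sum_range_succ]
    push_cast
    have hN : (0 : ℝ) < N + 1 := by positivity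
    have h2 : (-1 : ℝ) ≤ -(1 / (N + 1)) := by
      rw [neg_le_neg_iff, div_le_one hN]; linarith [(N.cast_nonneg : (0 : ℝ) ≤ N)]
    have h3 := rpow_one_add_le_one_add_mul_self h2 (p := 1 - s) (by linarith) (by linarith)
    have h4 : (N : ℝ) = (N + 1) * (1 + -(1 / (N + 1))) := by field_simp; ring
    have h5 : ((N : ℝ) + 1) ^ (1 - s) = (N + 1) * (N + 1 : ℝ) ^ (-s) := by
      rw [sub_eq_add_neg, Real.rpow_add hN, Real.rpow_one]
    have h6 : (N : ℝ) ^ (1 - s) ≤ (N + 1) ^ (1 - s) - (1 - s) * (N + 1 : ℝ) ^ (-s) := by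
      calc (N : ℝ) ^ (1 - s) = ((N + 1) * (1 + -(1 / (N + 1)))) ^ (1 - s) := by rw [← h4]
        _ = ((N : ℝ) + 1) ^ (1 - s) * (1 + -(1 / (N + 1))) ^ (1 - s) :=
            Real.mul_rpow hN.le (by linarith)
        _ ≤ ((N : ℝ) + 1) ^ (1 - s) * (1 + (1 - s) * -(1 / (N + 1))) := by gcongr
        _ = _ := by rw [h5]; field_simp; ring
    have h7 : 0 ≤ (N + 1 : ℝ) ^ (-s) := by positivity
    rw [add_comm (1 : ℝ) N]
    nlinarith

lemma shat_sum_gt : ∃ c : ℝ, 0 ≤ c ∧ ∀ N : ℕ, ∑ k ∈ Finset.range N, (1 + k : ℝ) ^ (-gg) ≤ c := by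
  have h1 : Summable fun k : ℕ => (k : ℝ) ^ (-gg) :=
    Real.summable_nat_rpow.2 (by linarith [gg_gt])
  have h2 : Summable fun k : ℕ => (1 + k : ℝ) ^ (-gg) := by
    simpa [add_comm] using (summable_nat_add_iff 1).2 h1
  exact ⟨_, tsum_nonneg fun k => by positivity,
    fun N => h2.sum_le_tsum _ fun k _ => by positivity⟩

theorem goodW (D : ℕ) : ∃ (C : ℝ) (A : ℕ), 0 < C ∧ ∀ (F : Fam) (n L : ℕ), 1 ≤ n → 2 ^ L ≤ D * n →
    GoodW (Wf F n) L (C * Th n A) := by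
  obtain ⟨C, A, hC, ha⟩ := arith (8 * D)
  obtain ⟨c, hc0, hc⟩ := shat_sum_gt
  have hE : 1 ≤ 1 + Real.log D := shat_K D
  generalize hEE : 1 + Real.log D = E at hE
  obtain ⟨B, hB0, hB1, hB2, hB3⟩ : ∃ B : ℝ, 0 < B ∧ 2 ≤ B ∧ 7 * E * c + 8 * (7 * E) ^ 2 ≤ B ∧
      (6 * (7 * E)) ^ 2 ≤ B := by
    have : 0 ≤ 7 * E * c := by positivity
    exact ⟨2 + (7 * E * c + 8 * (7 * E) ^ 2) + (6 * (7 * E)) ^ 2, by positivity,
      by nlinarith, by nlinarith, by nlinarith⟩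
  refine ⟨C * B, A, by positivity, fun F n L hn hL => ⟨Wf_nonneg F n,
    fun k i => C * ell n ^ A * lamf n k i, fun k i => ?_, fun k i hi a₀ => ?_, ?_⟩⟩
  · have := shat_lamf_nonneg n k i
    have := one_le_ell n
    positivity
  · refine ha F n i k a₀ hn ?_
    calc 2 ^ i ≤ 2 ^ (L + 3) := Nat.pow_le_pow_right (by norm_num) hi
      _ = 8 * 2 ^ L := by ring
      _ ≤ 8 * (D * n) := Nat.mul_le_mul_left 8 hL
      _ = _ := by ring
  have hg1 := gg_gt
  have hg2 := gg_lt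
  have hl := one_le_ell n
  have hK := shat_K n
  have hXE := shat_logD hn Nat.one_le_two_pow hL
  rw [hEE] at hXE
  have hL5 : (L + 5 : ℝ) ≤ 7 * E * (1 + Real.log n) := by
    push_cast at hXE
    rw [Real.log_pow] at hXE
    have := Real.log_two_gt_d9
    have h0 : (0 : ℝ) ≤ L := L.cast_nonneg
    have h1 : 1 ≤ E * (1 + Real.log n) := one_le_mul_of_one_le_of_one_le hE hK
    nlinarith
  have hTh : C * B * Th n A = C * ell n ^ A * (B * (1 + Real.log n) ^ (2 * gg - 1)) := by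
    unfold Th; ring
  have hCl : 0 ≤ C * ell n ^ A := by positivity
  have hlamf : ∀ k i : ℕ, lamf n k i =
      (1 + Real.log n) ^ (2 * gg - 2) * (1 + k : ℝ) ^ (-gg) + (1 + i : ℝ) ^ (gg - 2) :=
    fun _ _ => rfl
  rw [hTh]
  simp only [hlamf]
  generalize 1 + Real.log n = K at *
  have hK0 : 0 < K := by linarith
  have hpow : ∀ {a s : ℝ}, 0 ≤ a → a ≤ L + 5 → 0 ≤ s → s ≤ 1 → a ^ s ≤ 7 * E * K ^ s := by
    intro a s h1 h2 h3 h4
    calc a ^ s ≤ (7 * E * K) ^ s := Real.rpow_le_rpow h1 (h2.trans hL5) h3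
      _ = (7 * E) ^ s * K ^ s := Real.mul_rpow (by positivity) hK0.le
      _ ≤ (7 * E) ^ (1 : ℝ) * K ^ s := by gcongr; linarith
      _ = _ := by rw [Real.rpow_one]
  have hK1 : K ^ (2 * gg - 2) * K = K ^ (2 * gg - 1) := by
    rw [← Real.rpow_add_one hK0.ne']; ring_nf
  refine ⟨fun k i _ => mul_le_mul_of_nonneg_left ?_ hCl, ?_, fun i hi => ?_⟩
  · have h1 : (1 + k : ℝ) ^ (-gg) ≤ 1 :=
      Real.rpow_le_one_of_one_le_of_nonpos (by linarith [(k.cast_nonneg : (0 : ℝ) ≤ k)])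
        (by linarith)
    have h2 : (1 + i : ℝ) ^ (gg - 2) ≤ 1 :=
      Real.rpow_le_one_of_one_le_of_nonpos (by linarith [(i.cast_nonneg : (0 : ℝ) ≤ i)])
        (by linarith)
    have h3 : K ^ (2 * gg - 2) ≤ K ^ (2 * gg - 1) :=
      Real.rpow_le_rpow_of_exponent_le hK (by linarith)
    have h4 : 1 ≤ K ^ (2 * gg - 1) := Real.one_le_rpow hK (by linarith)
    have h5 : K ^ (2 * gg - 2) * (1 + k : ℝ) ^ (-gg) ≤ K ^ (2 * gg - 1) * 1 := by gcongr
    nlinarith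
  · simp only [← Finset.mul_sum]
    refine mul_le_mul_of_nonneg_left ?_ hCl
    simp only [Finset.sum_add_distrib, Finset.sum_const, Finset.card_range, nsmul_eq_mul,
      ← Finset.mul_sum]
    have h1 := shat_sum_lt (s := 2 - gg) (by linarith) (by linarith) (L + 4)
    rw [neg_sub, show 1 - (2 - gg) = gg - 1 by ring] at h1
    have h2 := hpow (a := ((L + 4 : ℕ) : ℝ)) (s := gg - 1) (by positivity) (by push_cast; linarith)
      (by linarith) (by linarith)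
    have h3 : K * K ^ (gg - 1) ≤ K ^ (2 * gg - 1) := by
      rw [mul_comm, ← Real.rpow_add_one hK0.ne']
      exact Real.rpow_le_rpow_of_exponent_le hK (by linarith)
    have h4 : ((L + 4 : ℕ) : ℝ) ≤ 7 * E * K := by push_cast; linarith
    have h5 : ((2 * L + 7 : ℕ) : ℝ) ≤ 2 * (7 * E * K) := by push_cast; linarith
    calc _ ≤ 7 * E * K * (K ^ (2 * gg - 2) * c) + 2 * (7 * E * K) * (4 * (7 * E * K ^ (gg - 1))) := by
          gcongr
          · exact hc _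
          · linarith
      _ = 7 * E * c * (K ^ (2 * gg - 2) * K) + 8 * (7 * E) ^ 2 * (K * K ^ (gg - 1)) := by ring
      _ ≤ 7 * E * c * K ^ (2 * gg - 1) + 8 * (7 * E) ^ 2 * K ^ (2 * gg - 1) := by
          rw [hK1]; gcongr
      _ = (7 * E * c + 8 * (7 * E) ^ 2) * K ^ (2 * gg - 1) := by ring
      _ ≤ _ := by gcongr
  · simp only [Real.sqrt_mul hCl, ← Finset.mul_sum]
    refine mul_le_mul_of_nonneg_left ?_ (Real.sqrt_nonneg _)
    have hi' : (i : ℝ) ≤ L + 3 := by exact_mod_cast hi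
    have hi0 : (0 : ℝ) ≤ i := i.cast_nonneg
    have h1 : ∀ k : ℕ, √(K ^ (2 * gg - 2) * (1 + k : ℝ) ^ (-gg) + (1 + i : ℝ) ^ (gg - 2)) ≤
        K ^ (gg - 1) * (1 + k : ℝ) ^ (-(gg / 2)) + (1 + i : ℝ) ^ (gg / 2 - 1) := by
      intro k
      have e : ∀ {a s : ℝ}, 0 ≤ a → a ^ (s * 2) = (a ^ s) ^ 2 := fun {a s} h => by
        rw [← Real.rpow_natCast, ← Real.rpow_mul h]; norm_num
      rw [Real.sqrt_le_left (by positivity), show 2 * gg - 2 = (gg - 1) * 2 by ring,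
        show -gg = -(gg / 2) * 2 by ring, show gg - 2 = (gg / 2 - 1) * 2 by ring, e hK0.le,
        e (by positivity), e (by positivity)]
      have : 0 ≤ K ^ (gg - 1) * (1 + k : ℝ) ^ (-(gg / 2)) * (1 + i : ℝ) ^ (gg / 2 - 1) := by
        positivity
      nlinarith
    refine (Finset.sum_le_sum fun k _ => h1 k).trans ?_
    simp only [Finset.sum_add_distrib, Finset.sum_const, Finset.card_range, nsmul_eq_mul,
      ← Finset.mul_sum]
    have h2 := shat_sum_lt (s := gg / 2) (by linarith) (by linarith) (i + 2)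
    have h3 := hpow (a := ((i + 2 : ℕ) : ℝ)) (s := 1 - gg / 2) (by positivity)
      (by push_cast; linarith) (by linarith) (by linarith)
    have h4 := hpow (a := (1 + i : ℝ)) (s := gg / 2) (by positivity) (by linarith) (by linarith)
      (by linarith)
    have h5 : ((i + 2 : ℕ) : ℝ) * (1 + i : ℝ) ^ (gg / 2 - 1) ≤ 2 * (1 + i : ℝ) ^ (gg / 2) := by
      rw [Real.rpow_sub_one (by positivity), ← mul_div_assoc, div_le_iff₀ (by positivity)]
      have : 0 ≤ (1 + i : ℝ) ^ (gg / 2) := by positivity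
      push_cast
      nlinarith
    have h6 : K ^ (gg - 1) * K ^ (1 - gg / 2) = K ^ (gg / 2) := by
      rw [← Real.rpow_add hK0]; ring_nf
    have h7 : K ^ (gg / 2) ≤ K ^ (gg - 1 / 2) := Real.rpow_le_rpow_of_exponent_le hK (by linarith)
    refine Real.le_sqrt_of_sq_le ?_
    have h8 : (K ^ (gg - 1 / 2)) ^ 2 = K ^ (2 * gg - 1) := by
      rw [← Real.rpow_natCast, ← Real.rpow_mul hK0.le]; push_cast; ring_nf
    calc _ ≤ (6 * (7 * E) * K ^ (gg - 1 / 2)) ^ 2 := by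
          refine pow_le_pow_left₀ (by positivity) ?_ 2
          calc _ ≤ K ^ (gg - 1) * (4 * (7 * E * K ^ (1 - gg / 2))) + 2 * (7 * E * K ^ (gg / 2)) :=
                add_le_add (mul_le_mul_of_nonneg_left (by linarith) (by positivity)) (by linarith)
            _ = 6 * (7 * E) * K ^ (gg / 2) := by rw [← h6]; ring
            _ ≤ _ := by gcongr
      _ = (6 * (7 * E)) ^ 2 * K ^ (2 * gg - 1) := by rw [mul_pow, h8]
      _ ≤ _ := by gcongr

end

end Pool.Agent.MP_9f080f_an
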