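import Pool.Agent.MP_9f080f_an.Mg.Salie
import Pool.Agent.MP_a96b63_al.Sieve2

/-! Definitions for the sharper bound. -/

namespace Pool.Agent.MP_9f080f_an
open Complex MeasureTheory Set Filter Topology Metric
open scoped Real

noncomputable section

/-- the mean value of `|2 cos|` -/
def gg : ℝ := 4 / π

/-- a double logarithm -/
def ell (n : ℕ) : ℝ := 1 + Real.log (1 + Real.log n)

/-- the normalised Salie type sum twisted by `a` -/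
def STT (q : ℕ) (a A B C : ℤ) : ℝ :=
  if h : q = 0 then 0 else
    haveI : NeZero q := ⟨h⟩
    ‖TS q ZMod.stdAddChar ((a * A : ℤ) : ZMod q) ((a * B : ℤ) : ZMod q) ((a * C : ℤ) : ZMod q)‖ / q

/-- the sum of `STT` over all twists -/
def Gs (q : ℕ) (A B C : ℤ) : ℝ :=
  ∑ a ∈ (Finset.range q).filter (fun a => a.Coprime q), STT q a A B C

/-- an inverse of `h` modulo `q` -/
def iv (h : ℤ) (q : ℕ) : ℤ := ((h : ZMod q)⁻¹).val

/-- a family of Salie type sums -/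
structure Fam where
  h : ℤ
  A : ℤ
  B : ℤ
  c₁ : ℤ
  c₀ : ℤ
  two : ∀ p : ℕ, p.Prime → p ≠ 2 → ¬(p : ℤ) ∣ h * A * B * c₁

open Classical in
/-- the weight at modulus `q` and frequency `m` -/
def Wf (F : Fam) (n q : ℕ) (m : ℤ) : ℝ :=
  if IsCoprime (F.h * F.A) q then STT q (iv F.h q) F.A (F.B * n) (F.c₁ * m + F.c₀) else 0

open Classical in
/-- the local mean at a prime -/
def hq (F : Fam) (n p : ℕ) (m : ℤ) : ℝ :=
  if (p : ℤ) ∣ F.c₁ * m + F.c₀ then 1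
  else if IsSquare ((F.B * n * (F.c₁ * m + F.c₀) : ℤ) : ZMod p) then gg else 0

/-- primes up to `z` not dividing `2 n` -/
def PS (n z : ℕ) : Finset ℕ := (Finset.range (z + 1)).filter fun p => p.Prime ∧ ¬p ∣ 2 * n

/-- the Euler product -/
def EP (F : Fam) (n z : ℕ) (m : ℤ) : ℝ := ∏ p ∈ PS n z, (1 + hq F n p m / p)

/-- weights with good mean squares on dyadic blocks -/
structure GoodW (W : ℕ → ℤ → ℝ) (L : ℕ) (Θ : ℝ) : Prop where
  nonneg : ∀ P m, 0 ≤ W P m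
  ex : ∃ lam : ℕ → ℕ → ℝ, (∀ k i, 0 ≤ lam k i) ∧
    (∀ k i, i ≤ L + 3 → ∀ a₀ : ℤ, ∑ j ∈ Finset.range (2 ^ k),
      (∑ P ∈ Finset.Icc 1 (2 ^ i), W P (a₀ + j)) ^ 2 ≤ 2 ^ k * 4 ^ i * lam k i) ∧
    (∀ k i, i ≤ L + 3 → lam k i ≤ Θ) ∧
    ∑ k ∈ Finset.range (2 * L + 7), ∑ i ∈ Finset.range (L + 4), lam k i ≤ Θ ∧
    ∀ i ≤ L + 3, ∑ k ∈ Finset.range (i + 2), √(lam k i) ≤ √Θ

/-- twisted periodic sequences with frequency dependent bounds -/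
structure TwW (e : ℤ → ℂ) (P : ℕ) (κ : ℝ) (W : ℤ → ℝ) : Prop where
  per : ∀ a : ℤ, e (a + P) = ep (2 * κ) * e a
  four : ∀ m : ℤ, ‖∑ a ∈ Finset.range P, e a * ep (-2 * (m + κ) * a / P)‖ ≤ √P * W m

/-- the Polya-Vinogradov weight -/
def pvw (W : ℤ → ℝ) (P : ℕ) : ℝ := ∑ m ∈ Finset.Icc (-P : ℤ) P, W m / (1 + |(m : ℝ)|)

/-- the truncated kernel -/
def cut (H y Y t : ℝ) : ℂ := if y ≤ t ∧ t < Y then kk H t else 0

/-- a comb convolved with the truncated kernel -/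
def comb (e : ℤ → ℂ) (P : ℕ) (H y Y s : ℝ) : ℂ := ∑' q : ℤ, e q * cut H y Y (s - q / P)

open Classical in
/-- bound for a Fourier coefficient -/
def eb (S : Finset ℕ) (W : ℕ → ℤ → ℝ) (T κ y : ℝ) (m : ℤ) : ℝ :=
  (√T)⁻¹ * ∑ P ∈ S.filter (fun P : ℕ => |m + κ| * y ^ 2 * (P : ℝ) ^ 2 ≤ T), W P m +
    y ^ (-3 / 2 : ℝ) * |m + κ|⁻¹ *
      ∑ P ∈ S.filter (fun P : ℕ => T < |m + κ| * y ^ 2 * (P : ℝ) ^ 2), W P m / P

/-- a fan of cusps -/
def fanG (S : Finset ℕ) (e : ℕ → ℤ → ℂ) (T : ℝ) (r : ℝ → ℝ) (Lp : ℕ → ℕ) (s : ℝ) : ℂ :=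
  ∑ P ∈ S, ((P : ℝ) ^ (-3 / 2 : ℝ) : ℝ) * ∑ l ∈ Finset.range (Lp P),
    (r (l / P) : ℝ) * e P (-l) * kk (T / P ^ 2) (s + l / P)

/-- cutoff in the frame of the cusp `1` -/
def rA (v : ℝ) : ℝ := min 1 (max 0 (v - 1))

/-- cutoff in the frame of the cusp `∞` -/
def rB (v : ℝ) : ℝ := if v ≤ 3 / 4 then 0 else min 1 (2 - 1 / (2 * v - 1))

/-- the family for the cusp `1` -/
def F1 : Fam := ⟨8, -4, 4, -8, -3, fun p hp h2 h => h2 (by
  have h3 : (p : ℤ) ∣ ((2 ^ 10 : ℕ) : ℤ) := by simpa using h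
  exact (Nat.prime_dvd_prime_iff_eq hp Nat.prime_two).1
    (hp.dvd_of_dvd_pow (Int.natCast_dvd_natCast.1 h3)))⟩

/-- the family for the cusp `∞`, odd denominators -/
def F2 : Fam := ⟨4, -1, 1, -4, 0, fun p hp h2 h => h2 (by
  have h3 : (p : ℤ) ∣ ((2 ^ 4 : ℕ) : ℤ) := by simpa using h
  exact (Nat.prime_dvd_prime_iff_eq hp Nat.prime_two).1
    (hp.dvd_of_dvd_pow (Int.natCast_dvd_natCast.1 h3)))⟩

/-- the family for the cusp `∞`, even denominators -/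
def F3 : Fam := ⟨1, -1, 1, -1, 0, fun p hp _ h => by
  have h3 : (p : ℤ) ∣ ((1 : ℕ) : ℤ) := by simpa using h
  exact hp.one_lt.ne' (Nat.dvd_one.1 (Int.natCast_dvd_natCast.1 h3))⟩

/-- the weight for the cusp `∞` -/
def WB (n P : ℕ) (m : ℤ) : ℝ := (if 2 ∣ P then Wf F2 n (P / 2) m else 0) + Wf F3 n P m

/-- the final bound -/
def Th (n A : ℕ) : ℝ := ell n ^ A * (1 + Real.log n) ^ (2 * gg - 1)

lemma gg_gt : 1.27 < gg := by
  rw [gg, lt_div_iff₀ Real.pi_pos]; nlinarith [Real.pi_lt_d4]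

lemma gg_lt : gg < 1.28 := by
  rw [gg, div_lt_iff₀ Real.pi_pos]; nlinarith [Real.pi_gt_d2]

lemma one_le_ell (n : ℕ) : 1 ≤ ell n := by
  have := Real.log_nonneg (show (1 : ℝ) ≤ 1 + Real.log n by linarith [Real.log_natCast_nonneg n])
  rw [ell]; linarith

lemma STT_nonneg (q : ℕ) (a A B C : ℤ) : 0 ≤ STT q a A B C := by
  unfold STT; split_ifs <;> positivity

lemma Wf_nonneg (F : Fam) (n q : ℕ) (m : ℤ) : 0 ≤ Wf F n q m := by
  unfold Wf; split_ifs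
  exacts [STT_nonneg .., le_rfl]

lemma hq_nonneg (F : Fam) (n p : ℕ) (m : ℤ) : 0 ≤ hq F n p m := by
  have := gg_gt
  unfold hq; split_ifs <;> linarith

lemma hq_le (F : Fam) (n p : ℕ) (m : ℤ) : hq F n p m ≤ gg := by
  have := gg_gt
  unfold hq; split_ifs <;> linarith

lemma one_le_EP (F : Fam) (n z : ℕ) (m : ℤ) : 1 ≤ EP F n z m :=
  Finset.one_le_prod fun p _ => by
    have := div_nonneg (hq_nonneg F n p m) p.cast_nonneg; linarith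

end

end Pool.Agent.MP_9f080f_an
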