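import Pool.Agent.MP_9f080f_an.Mg.ShPars
import Pool.Agent.MP_9f080f_an.Mg.PV

namespace Pool.Agent.MP_9f080f_an
open Complex MeasureTheory Set Filter Topology Metric
open scoped Real

noncomputable section

/-! Polya-Vinogradov with frequency dependent weights, and tails.
Inversion as in `pv_inversion` (`PV`; `TwW` gives a `Tw` with a crude constant), but the residues `m`
are taken in the centred system `m₀ ≤ m < m₀ + P`, `m₀ = ⌈-P/2 - κ⌉` (the summand is `P`-periodic in `m`), so that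
`|m + κ| / P ≤ 1/2`, `|m| ≤ P`; `‖pvG‖ ≤ min (L, P / (2 |m + κ|))` (`pv_G_le`, `pv_G_sin`, `pv_sin_low`) and
`|m + κ| ≥ (1 + |m|)/4` for `m ≠ 0`.
`refl`: see `mainasm_tw` in `MainAsmA` (copy the idea).
`comb_tail`: `comb_eq_sum` and `pvbv` with `J = Ioc (s - Y) (s - y)`, `G v = kk H (s - v)`,
`‖kk'‖ ≤ (3/2) t^(-5/2) + π |H| t^(-7/2)`.
`comb_tail_zero`: subtract the mean `ē = P⁻¹ ∑_{a<P} e a`, `‖ē‖ ≤ B / P`; all subsums of `e - ē` are at most
`2 B` (full periods vanish); the mean contributes `‖ē‖ ∑ t^(-3/2) ≤ (B/P) (y^(-3/2) + 2 P y^(-1/2))`. -/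

lemma shpv_G {P L : ℕ} (hP : 0 < P) (hL : L ≤ P) {κ : ℝ} (hκ : |κ| ≤ 1 / 2) (a₀ m : ℤ)
    (hm : |(m : ℝ) + κ| ≤ P / 2) : ‖pvG a₀ L ((m + κ) / P)‖ ≤ 2 * P / (1 + |(m : ℝ)|) := by
  have hP' : (0 : ℝ) < P := by exact_mod_cast hP
  rcases eq_or_ne m 0 with rfl | h0
  · have h1 : ‖pvG a₀ L ((((0 : ℤ) : ℝ) + κ) / P)‖ ≤ P :=
      (pv_G_le _ _ _).trans (by exact_mod_cast hL)
    simp only [Int.cast_zero, abs_zero, add_zero, div_one] at h1 ⊢
    linarith
  · have h1 : (1 : ℝ) ≤ |(m : ℝ)| := by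
      rw [← Int.cast_abs]; exact_mod_cast Int.one_le_abs h0
    have h2 : |(m : ℝ)| ≤ |(m : ℝ) + κ| + |κ| := by
      have := abs_sub ((m : ℝ) + κ) κ
      simpa using this
    have h3 : 2 * (|(m : ℝ) + κ| / P) ≤ |Real.sin (π * ((m + κ) / P))| := by
      have h4 := pv_sin_low (t := |(m : ℝ) + κ| / P) (by positivity)
        (by rw [div_le_iff₀ hP']; linarith)
      refine h4.trans ?_
      rcases abs_cases ((m : ℝ) + κ) with h | h
      · rw [h.1]; exact le_abs_self _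
      · rw [h.1, neg_div, mul_neg, Real.sin_neg]; exact neg_le_abs _
    have h5 := pv_G_sin a₀ L ((m + κ) / P)
    have h6 := norm_nonneg (pvG a₀ L ((m + κ) / P))
    have h7 : ‖pvG a₀ L ((m + κ) / P)‖ * (2 * (|(m : ℝ) + κ| / P)) ≤ 1 :=
      (mul_le_mul_of_nonneg_left h3 h6).trans h5
    rw [le_div_iff₀ (by positivity)]
    have h8 : ‖pvG a₀ L ((m + κ) / P)‖ * (2 * |(m : ℝ) + κ|) ≤ P := by
      have := mul_le_mul_of_nonneg_right h7 hP'.le
      rwa [one_mul, mul_assoc, mul_assoc, div_mul_cancel₀ _ hP'.ne'] at this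
    have h9 : 1 + |(m : ℝ)| ≤ 4 * |(m : ℝ) + κ| := by linarith
    nlinarith

lemma shpv_short {e : ℤ → ℂ} {P : ℕ} {κ : ℝ} {W : ℤ → ℝ} (hP : 0 < P) (hκ : |κ| ≤ 1 / 2)
    (h : TwW e P κ W) (a₀ : ℤ) {L : ℕ} (hL : L ≤ P) :
    ‖∑ i ∈ Finset.range L, e (a₀ + i)‖ ≤ 2 * √P * pvw W P := by
  have hP' : (0 : ℝ) < P := by exact_mod_cast hP
  have hP1 : (1 : ℝ) ≤ P := by exact_mod_cast hP
  have hs : 0 < √(P : ℝ) := Real.sqrt_pos.2 hP'
  have hW : ∀ m, 0 ≤ W m := fun m =>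
    nonneg_of_mul_nonneg_right ((norm_nonneg _).trans (h.four m)) hs
  set m₀ : ℤ := ⌈-(P : ℝ) / 2 - κ⌉ with hm₀
  have hT : Tw e P (κ + m₀) (∑ a ∈ Finset.range P, ‖e a‖) := by
    constructor
    · intro a
      rw [h.per]
      push_cast
      rw [mul_add, ep_add, ep_two_int, mul_one]
    · intro m
      refine (norm_sum_le _ _).trans (Finset.sum_le_sum fun a _ => ?_)
      have := norm_ep_real (-2 * (m + (κ + m₀)) * a / P)
      push_cast at this ⊢
      rw [norm_mul, this, mul_one]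
  have e1 : (P : ℂ) * ∑ i ∈ Finset.range L, e (a₀ + i)
      = ∑ j ∈ Finset.range P,
        (∑ a ∈ Finset.range P, e a * ep (-2 * (((m₀ + j : ℤ) : ℂ) + κ) * a / P))
          * pvG a₀ L ((((m₀ + j : ℤ) : ℝ) + κ) / P) := by
    simp only [pvG, Finset.mul_sum (s := Finset.range L)]
    rw [Finset.sum_comm]
    refine Finset.sum_congr rfl fun i _ => ?_
    rw [← pv_inversion hP hT]
    refine Finset.sum_congr rfl fun m _ => ?_
    congr 1
    · refine Finset.sum_congr rfl fun a _ => ?_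
      congr 2
      push_cast
      ring
    · congr 1
      push_cast
      ring
  have hb : ∀ j ∈ Finset.range P, |((m₀ + j : ℤ) : ℝ) + κ| ≤ P / 2 := by
    intro j hj
    have h1 : (j : ℝ) + 1 ≤ P := by exact_mod_cast Finset.mem_range.1 hj
    have h2 := Int.le_ceil (-(P : ℝ) / 2 - κ)
    have h3 := Int.ceil_lt_add_one (-(P : ℝ) / 2 - κ)
    have h4 : (0 : ℝ) ≤ j := Nat.cast_nonneg j
    rw [← hm₀] at h2 h3
    push_cast
    rw [abs_le]
    constructor <;> linarith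
  have k : P * ‖∑ i ∈ Finset.range L, e (a₀ + i)‖ ≤ P * (2 * √P * pvw W P) := by
    rw [← Complex.norm_natCast P, ← norm_mul, e1, Complex.norm_natCast]
    refine (norm_sum_le _ _).trans ?_
    have k1 : ∀ j ∈ Finset.range P,
        ‖(∑ a ∈ Finset.range P, e a * ep (-2 * (((m₀ + j : ℤ) : ℂ) + κ) * a / P))
          * pvG a₀ L ((((m₀ + j : ℤ) : ℝ) + κ) / P)‖
        ≤ P * (2 * √P) * (W (m₀ + j) / (1 + |((m₀ + j : ℤ) : ℝ)|)) := by
      intro j hj
      rw [norm_mul]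
      refine (mul_le_mul (h.four _) (shpv_G hP hL hκ a₀ _ (hb j hj)) (norm_nonneg _)
        (mul_nonneg hs.le (hW _))).trans_eq ?_
      ring
    refine (Finset.sum_le_sum k1).trans ?_
    rw [← Finset.mul_sum, ← mul_assoc (P : ℝ) (2 * √P) (pvw W P)]
    refine mul_le_mul_of_nonneg_left ?_ (by positivity)
    rw [pvw, ← Finset.sum_image (s := Finset.range P) (g := fun j : ℕ => m₀ + (j : ℤ))
      (f := fun m : ℤ => W m / (1 + |(m : ℝ)|)) (fun i _ j _ hij => by simpa using hij)]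
    refine Finset.sum_le_sum_of_subset_of_nonneg ?_ fun m _ _ => div_nonneg (hW m) (by positivity)
    intro m hm
    obtain ⟨j, hj, rfl⟩ := Finset.mem_image.1 hm
    have h1 := abs_le.1 (hb j hj)
    have h2 := abs_le.1 hκ
    have h3 : -(P : ℝ) ≤ ((m₀ + j : ℤ) : ℝ) := by linarith [h1.1, h2.2]
    have h4 : ((m₀ + j : ℤ) : ℝ) ≤ P := by linarith [h1.2, h2.1]
    exact Finset.mem_Icc.2 ⟨by exact_mod_cast h3, by exact_mod_cast h4⟩
  exact le_of_mul_le_mul_left k hP'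

theorem pvw_short : ∃ C : ℝ, 0 < C ∧ ∀ (e : ℤ → ℂ) (P : ℕ) (κ : ℝ) (W : ℤ → ℝ), 0 < P → |κ| ≤ 1 / 2 →
    TwW e P κ W → ∀ (a₀ : ℤ) (L : ℕ), L ≤ P →
      ‖∑ i ∈ Finset.range L, e (a₀ + i)‖ ≤ C * √P * pvw W P :=
  ⟨2, by norm_num, fun _ _ _ _ hP hκ h a₀ _ hL => shpv_short hP hκ h a₀ hL⟩

theorem pvw_long : ∃ C : ℝ, 0 < C ∧ ∀ (e : ℤ → ℂ) (P : ℕ) (W : ℤ → ℝ), 0 < P →
    TwW e P (3 / 8) W → ∀ (a₀ : ℤ) (L : ℕ),
      ‖∑ i ∈ Finset.range L, e (a₀ + i)‖ ≤ C * √P * pvw W P := by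
  refine ⟨4, by norm_num, fun e P W hP h a₀ L => ?_⟩
  have hs : ∀ a : ℤ, ‖∑ i ∈ Finset.range P, e (a + i)‖ ≤ 2 * √P * pvw W P := fun a =>
    shpv_short hP (by rw [abs_of_pos] <;> norm_num) h a le_rfl
  have e1 : (ep (2 * ((3 / 8 : ℝ) : ℂ)) - 1) * ∑ i ∈ Finset.range L, e (a₀ + i)
      = ∑ i ∈ Finset.range P, e (a₀ + L + i) - ∑ i ∈ Finset.range P, e (a₀ + i) := by
    have h1 := Finset.sum_range_add (fun i : ℕ => e (a₀ + i)) L P
    have h2 := Finset.sum_range_add (fun i : ℕ => e (a₀ + i)) P L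
    rw [add_comm P L, h1] at h2
    have h3 : ∑ i ∈ Finset.range L, e (a₀ + (P + i : ℕ))
        = ep (2 * ((3 / 8 : ℝ) : ℂ)) * ∑ i ∈ Finset.range L, e (a₀ + i) := by
      rw [Finset.mul_sum]
      refine Finset.sum_congr rfl fun i _ => ?_
      rw [← h.per]
      push_cast
      ring_nf
    have h4 : ∑ i ∈ Finset.range P, e (a₀ + (L + i : ℕ))
        = ∑ i ∈ Finset.range P, e (a₀ + L + i) := by
      refine Finset.sum_congr rfl fun i _ => ?_
      push_cast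
      ring_nf
    rw [h3, h4] at h2
    linear_combination -h2
  have k := norm_sub_le (∑ i ∈ Finset.range P, e (a₀ + L + i)) (∑ i ∈ Finset.range P, e (a₀ + i))
  rw [← e1, norm_mul, pv_norm_sub_one] at k
  have k2 := (pv_sin_low (t := 3 / 8) (by norm_num) (by norm_num)).trans (le_abs_self _)
  have k3 := norm_nonneg (∑ i ∈ Finset.range L, e (a₀ + i))
  have k4 := hs a₀
  have k5 := hs (a₀ + L)
  nlinarith

lemma shpv_conj_ep (r : ℝ) : (starRingEnd ℂ) (ep r) = ep (-r) := by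
  simp [ep, ← Complex.exp_conj]

theorem TwW.refl {e : ℤ → ℂ} {P : ℕ} {κ : ℝ} {W : ℤ → ℝ} (hP : 0 < P) (h : TwW e P κ W) :
    TwW (fun q => (starRingEnd ℂ) (e (-q))) P κ W := by
  have hP' : (P : ℂ) ≠ 0 := by exact_mod_cast hP.ne'
  constructor
  · intro a
    have h1 := h.per (-(a + P))
    rw [show -(a + (P : ℤ)) + P = -a by ring] at h1
    have h2 := shpv_conj_ep (2 * κ)
    push_cast at h2
    rw [h1, map_mul, h2, ← mul_assoc, ← ep_add]
    simp
  · intro m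
    let g : ℤ → ℂ := fun a => e a * ep (-2 * (m + κ) * a / P)
    have hg : ∀ a, g (a + P) = g a := by
      intro a
      have e1 : (-2 * (m + κ) * ((a + P : ℤ) : ℂ) / P : ℂ)
          = -2 * (m + κ) * a / P + (2 * ((-m : ℤ) : ℂ) + -(2 * κ)) := by
        push_cast
        field_simp
        ring
      simp only [g]
      rw [h.per, e1, ep_add, ep_add, ep_two_int, ep_neg]
      have := ep_ne (2 * κ)
      field_simp
    have e1 : ∑ a ∈ Finset.range P, (starRingEnd ℂ) (e (-(a : ℤ))) * ep (-2 * (m + κ) * a / P)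
        = (starRingEnd ℂ) (∑ a ∈ Finset.range P, g (-(a : ℤ))) := by
      rw [map_sum]
      refine Finset.sum_congr rfl fun a _ => ?_
      have h2 := shpv_conj_ep (-2 * (m + κ) * (-a) / P)
      push_cast at h2
      simp only [g, map_mul]
      push_cast
      rw [h2]
      congr 2
      ring
    have e2 : ∑ a ∈ Finset.range P, g (-(a : ℤ)) = ∑ a ∈ Finset.range P, g a := by
      have e3 : ∑ a ∈ Finset.range P, g (-(a : ℤ)) = ∑ a ∈ Finset.range P, g ((a + 1 : ℕ) : ℤ) := by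
        rw [← Finset.sum_range_reflect (fun a => g ((a + 1 : ℕ) : ℤ)) P]
        refine Finset.sum_congr rfl fun a ha => ?_
        rw [← hg]
        congr 1
        have := Finset.mem_range.1 ha
        omega
      have e4 := Finset.sum_range_succ (fun a : ℕ => g a) P
      have e5 := Finset.sum_range_succ' (fun a : ℕ => g a) P
      have e6 := hg 0
      rw [zero_add] at e6
      simp only [Nat.cast_zero] at e5
      rw [e3]
      linear_combination e4 - e5 + e6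
    rw [e1, RCLike.norm_conj, e2]
    simpa [g] using h.four m

/-- the derivative of the kernel -/
def shpvD (H t : ℝ) : ℂ :=
  ((-3 / 2 * t ^ (-5 / 2 : ℝ) : ℝ) : ℂ) * ep (H / t) +
    (t ^ (-3 / 2 : ℝ) : ℝ) * (ep (H / t) * (π * I * (-H / t ^ 2)))

lemma shpv_deriv (H : ℝ) {t : ℝ} (ht : 0 < t) : HasDerivAt (kk H) (shpvD H t) t := by
  have h1 : HasDerivAt (fun t : ℝ => t ^ (-3 / 2 : ℝ)) (-3 / 2 * t ^ (-5 / 2 : ℝ)) t := by
    have := Real.hasDerivAt_rpow_const (x := t) (p := -3 / 2) (Or.inl ht.ne')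
    rwa [show (-3 / 2 - 1 : ℝ) = -5 / 2 by norm_num] at this
  have ht' : (t : ℂ) ≠ 0 := by exact_mod_cast ht.ne'
  have h2 : HasDerivAt (fun z : ℂ => ep (H / z)) (ep (H / t) * (π * I * (-H / t ^ 2))) (t : ℂ) := by
    have h3 : HasDerivAt (fun z : ℂ => (π * I * (H / z) : ℂ)) (π * I * (-H / t ^ 2)) (t : ℂ) := by
      refine HasDerivAt.const_mul _ ?_
      have := (hasDerivAt_inv ht').const_mul (H : ℂ)
      convert this using 1
      · funext z; rw [div_eq_mul_inv]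
      · ring
    exact h3.cexp
  exact h1.ofReal_comp.mul h2.comp_ofReal

lemma shpv_norm_D {H t y : ℝ} (hH : 0 ≤ H) (hy : 0 < y) (ht : y ≤ t) :
    ‖shpvD H t‖ ≤ (3 / 2 + π * H / y) * t ^ (-5 / 2 : ℝ) := by
  have ht0 : 0 < t := hy.trans_le ht
  have e0 : ‖ep ((H : ℂ) / t)‖ = 1 := by
    have := norm_ep_real (H / t)
    push_cast at this
    exact this
  have p1 : 0 < t ^ (-5 / 2 : ℝ) := Real.rpow_pos_of_pos ht0 _
  have e1 : t ^ (-3 / 2 : ℝ) = t ^ (-5 / 2 : ℝ) * t := by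
    rw [← Real.rpow_add_one ht0.ne']; norm_num
  refine (norm_add_le _ _).trans ?_
  rw [norm_mul, norm_mul, norm_mul, norm_mul, norm_mul, e0, Complex.norm_real, Complex.norm_real,
    Complex.norm_real, norm_I, norm_div, norm_neg, norm_pow, Complex.norm_real, Complex.norm_real,
    e1]
  simp only [Real.norm_eq_abs]
  rw [abs_of_neg (by nlinarith), abs_of_pos (by positivity), abs_of_pos Real.pi_pos,
    abs_of_nonneg hH, abs_of_pos ht0]
  have k : π * H / t ≤ π * H / y := div_le_div_of_nonneg_left (by positivity) hy ht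
  have e2 : t ^ (-5 / 2 : ℝ) * t * (1 * (π * 1 * (H / t ^ 2))) = π * H / t * t ^ (-5 / 2 : ℝ) := by
    field_simp
  rw [e2]
  nlinarith

lemma shpv_int {y Y s : ℝ} (hy : 0 < y) :
    IntegrableOn (fun v : ℝ => (s - v) ^ (-5 / 2 : ℝ)) (Ioc (s - Y) (s - y)) ∧
      ∫ v in Ioc (s - Y) (s - y), (s - v) ^ (-5 / 2 : ℝ) ≤ 2 / 3 * y ^ (-3 / 2 : ℝ) := by
  rcases le_or_gt Y y with h | h
  · rw [Ioc_eq_empty (by simp only [not_lt]; linarith)]
    simp only [integrableOn_empty, Measure.restrict_empty, integral_zero_measure, true_and]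
    positivity
  have hle : s - Y ≤ s - y := by linarith
  have hpos : ∀ v ∈ uIcc (s - Y) (s - y), 0 < s - v := fun v hv => by
    rw [uIcc_of_le hle] at hv
    linarith [hv.2]
  have hc : ContinuousOn (fun v : ℝ => (s - v) ^ (-5 / 2 : ℝ)) (uIcc (s - Y) (s - y)) :=
    ContinuousOn.rpow_const (by fun_prop) fun v hv => Or.inl (hpos v hv).ne'
  have hi := hc.intervalIntegrable (μ := volume)
  refine ⟨(intervalIntegrable_iff_integrableOn_Ioc_of_le hle).1 hi, ?_⟩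
  rw [← intervalIntegral.integral_of_le hle,
    intervalIntegral.integral_eq_sub_of_hasDerivAt
      (f := fun v : ℝ => 2 / 3 * (s - v) ^ (-3 / 2 : ℝ)) ?_ hi]
  · have : 0 ≤ 2 / 3 * (s - (s - Y)) ^ (-3 / 2 : ℝ) :=
      mul_nonneg (by norm_num) (Real.rpow_nonneg (by linarith) _)
    simp only [sub_sub_cancel] at this ⊢
    linarith
  · intro v hv
    have h1 := (((hasDerivAt_id v).const_sub s).rpow_const (p := -3 / 2)
      (Or.inl (hpos v hv).ne')).const_mul (2 / 3)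
    rw [show (-3 / 2 - 1 : ℝ) = -5 / 2 by norm_num] at h1
    refine h1.congr_deriv ?_
    simp only [id]
    ring

lemma shpv_tail {e : ℤ → ℂ} {P : ℕ} {B H y Y s : ℝ} (hP : 0 < P) (hH : 0 ≤ H) (hy : 0 < y)
    (hB : ∀ (a₀ : ℤ) (L : ℕ), ‖∑ i ∈ Finset.range L, e (a₀ + i)‖ ≤ B) :
    ‖comb e P H y Y s‖ ≤ 3 * B * (y ^ (-3 / 2 : ℝ) * (1 + H / y)) := by
  classical
  have hP' : (0 : ℝ) < P := by exact_mod_cast hP
  have hB0 : 0 ≤ B := by simpa using hB 0 0
  have hs : ∀ a : ℤ, (a : ℝ) / P ∈ Ioc (s - Y) (s - y) →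
      a ∈ Finset.Icc ⌊(s - Y) * P⌋ ⌈(s - y) * P⌉ := by
    intro a ha
    have h1 := (lt_div_iff₀ hP').1 ha.1
    have h2 := (div_le_iff₀ hP').1 ha.2
    exact Finset.mem_Icc.2 ⟨by exact_mod_cast (Int.floor_le _).trans h1.le,
      by exact_mod_cast h2.trans (Int.le_ceil _)⟩
  rw [comb_eq_sum e P H y Y s (Q := Finset.Icc ⌊(s - Y) * P⌋ ⌈(s - y) * P⌉)
    fun q h1 h2 => hs q ⟨by linarith, by linarith⟩]
  have p1 : 0 < y ^ (-3 / 2 : ℝ) := Real.rpow_pos_of_pos hy _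
  have hc : 0 ≤ 3 / 2 + π * H / y := by positivity
  have key := pvbv (e := e) (p := P) (B := B) (M := y ^ (-3 / 2 : ℝ))
    (V := (3 / 2 + π * H / y) * (2 / 3 * y ^ (-3 / 2 : ℝ))) hP' (J := Ioc (s - Y) (s - y))
    ordConnected_Ioc hs (fun a₀ L _ => hB a₀ L) (G := fun v => kk H (s - v))
    (G' := fun v => -shpvD H (s - v)) (φ := fun v => (3 / 2 + π * H / y) * (s - v) ^ (-5 / 2 : ℝ))
    (fun v hv => (shpv_deriv H (by linarith [hv.2])).comp_const_sub s v)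
    (fun v hv => by
      have h1 : y ≤ s - v := by linarith [hv.2]
      rw [kb_norm_kk H (hy.trans_le h1)]
      exact Real.rpow_le_rpow_of_nonpos hy h1 (by norm_num))
    (fun v hv => by
      rw [norm_neg]
      exact shpv_norm_D hH hy (by linarith [hv.2]))
    ((shpv_int hy).1.const_mul _)
    (by
      rw [integral_const_mul]
      exact mul_le_mul_of_nonneg_left (shpv_int hy).2 hc)
    p1.le (by positivity)
  have e1 : ∑ q ∈ Finset.Icc ⌊(s - Y) * P⌋ ⌈(s - y) * P⌉, e q * cut H y Y (s - q / P)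
      = ∑ a ∈ Finset.Icc ⌊(s - Y) * P⌋ ⌈(s - y) * P⌉,
        if (a : ℝ) / P ∈ Ioc (s - Y) (s - y) then e a * kk H (s - a / P) else 0 := by
    refine Finset.sum_congr rfl fun q _ => ?_
    by_cases h : (q : ℝ) / P ∈ Ioc (s - Y) (s - y)
    · rw [if_pos h, cut, if_pos ⟨by linarith [h.2], by linarith [h.1]⟩]
    · rw [if_neg h, cut, if_neg fun h' => h ⟨by linarith [h'.2], by linarith [h'.1]⟩, mul_zero]
  rw [e1]
  refine le_trans (le_of_eq ?_) (key.trans ?_)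
  · congr 1
    refine Finset.sum_congr rfl fun q _ => ?_
    congr 1
  · rw [mul_comm 3 B, mul_assoc]
    refine mul_le_mul_of_nonneg_left ?_ hB0
    have k1 : 0 ≤ H / y := by positivity
    have k2 : π * H / y ≤ 4 * (H / y) := by
      rw [mul_div_assoc]
      exact mul_le_mul_of_nonneg_right Real.pi_le_four k1
    nlinarith [mul_nonneg p1.le k1]

theorem comb_tail : ∃ C : ℝ, 0 < C ∧ ∀ (e : ℤ → ℂ) (P : ℕ) (B H y Y s : ℝ), 0 < P → 0 ≤ H → 0 < y →
    (∀ (a₀ : ℤ) (L : ℕ), ‖∑ i ∈ Finset.range L, e (a₀ + i)‖ ≤ B) →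
      ‖comb e P H y Y s‖ ≤ C * B * (y ^ (-3 / 2 : ℝ) * (1 + H / y)) :=
  ⟨3, by norm_num, fun _ _ _ _ _ _ _ hP hH hy hB => shpv_tail hP hH hy hB⟩

lemma shpv_step {a d : ℝ} (ha : 0 < a) (hd : 0 ≤ d) :
    d * (a + d) ^ (-3 / 2 : ℝ) ≤ 2 * (a ^ (-1 / 2 : ℝ) - (a + d) ^ (-1 / 2 : ℝ)) := by
  have hb : 0 < a + d := by linarith
  have e1 : ∀ x : ℝ, 0 < x → x ^ (-1 / 2 : ℝ) = 1 / √x := fun x hx => by
    rw [Real.sqrt_eq_rpow, one_div (x ^ _), ← Real.rpow_neg hx.le]; norm_num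
  have e2 : (a + d) ^ (-3 / 2 : ℝ) = 1 / √(a + d) ^ 3 := by
    rw [Real.sqrt_eq_rpow, ← Real.rpow_natCast, ← Real.rpow_mul hb.le, one_div (_ ^ _),
      ← Real.rpow_neg hb.le]
    norm_num
  rw [e1 a ha, e1 _ hb, e2]
  have hu : 0 < √a := Real.sqrt_pos.2 ha
  have huv : √a ≤ √(a + d) := Real.sqrt_le_sqrt (by linarith)
  have hd' : d = √(a + d) ^ 2 - √a ^ 2 := by rw [Real.sq_sqrt hb.le, Real.sq_sqrt ha.le]; ring
  generalize √(a + d) = v at *
  generalize √a = u at *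
  have hv : 0 < v := hu.trans_le huv
  rw [hd', div_sub_div _ _ hu.ne' hv.ne', mul_one_div, ← mul_div_assoc,
    div_le_div_iff₀ (by positivity) (by positivity)]
  have k1 : 0 ≤ v - u := by linarith
  have k2 : (v + u) * u ≤ 2 * v ^ 2 := by nlinarith
  have k3 := mul_le_mul_of_nonneg_left k2 (mul_nonneg k1 hv.le)
  nlinarith

lemma shpv_sum {y : ℝ} {P : ℕ} (hP : 0 < P) (hy : 0 < y) (N : ℕ) :
    ∑ j ∈ Finset.range (N + 1), (y + j / P) ^ (-3 / 2 : ℝ)
      ≤ y ^ (-3 / 2 : ℝ) + 2 * P * (y ^ (-1 / 2 : ℝ) - (y + N / P) ^ (-1 / 2 : ℝ)) := by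
  have hP' : (0 : ℝ) < P := by exact_mod_cast hP
  induction N with
  | zero => simp
  | succ N ih =>
    rw [Finset.sum_range_succ]
    have h1 := shpv_step (a := y + N / P) (d := 1 / P) (by positivity) (by positivity)
    have e1 : y + N / P + 1 / P = y + ((N + 1 : ℕ) : ℝ) / P := by push_cast; ring
    rw [e1] at h1
    have h2 := mul_le_mul_of_nonneg_left h1 hP'.le
    rw [← mul_assoc, mul_one_div_cancel hP'.ne', one_mul] at h2
    linarith

lemma shpv_mean {e : ℤ → ℂ} {P : ℕ} {B : ℝ} (hP : 0 < P) (he : ∀ a : ℤ, e (a + P) = e a)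
    (hB : ∀ (a₀ : ℤ) (L : ℕ), L ≤ P → ‖∑ i ∈ Finset.range L, e (a₀ + i)‖ ≤ B) :
    ∃ c : ℂ, ‖c‖ ≤ B / P ∧
      ∀ (a₀ : ℤ) (L : ℕ), ‖∑ i ∈ Finset.range L, (e (a₀ + i) - c)‖ ≤ 2 * B := by
  have hP' : (0 : ℝ) < P := by exact_mod_cast hP
  have hP'' : (P : ℂ) ≠ 0 := by exact_mod_cast hP.ne'
  have hB0 : 0 ≤ B := by simpa using hB 0 0 (Nat.zero_le _)
  have step : ∀ n : ℤ, ∑ m ∈ Finset.range P, e (n + 1 + m) = ∑ m ∈ Finset.range P, e (n + m) := by
    intro n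
    have h1 := Finset.sum_range_succ (fun m : ℕ => e (n + m)) P
    have h2 := Finset.sum_range_succ' (fun m : ℕ => e (n + m)) P
    rw [h1, he] at h2
    simp only [Nat.cast_zero, add_zero, add_left_inj] at h2
    rw [h2]
    refine Finset.sum_congr rfl fun m _ => ?_
    push_cast
    ring_nf
  have full : ∀ n : ℤ, ∑ m ∈ Finset.range P, e (n + m) = ∑ m ∈ Finset.range P, e (0 + m) := by
    intro n
    induction n using Int.induction_on with
    | zero => rfl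
    | succ n ih => rw [step, ih]
    | pred n ih => rw [← step, sub_add_cancel, ih]
  have hc : ‖(∑ m ∈ Finset.range P, e (0 + m)) / P‖ ≤ B / P := by
    rw [norm_div, Complex.norm_natCast]
    exact div_le_div_of_nonneg_right (hB 0 P le_rfl) hP'.le
  refine ⟨_, hc, fun a₀ L => ?_⟩
  set c := (∑ m ∈ Finset.range P, e (0 + m)) / P with hcd
  induction L using Nat.strong_induction_on with
  | _ L ih =>
    rcases le_or_gt L P with h | h
    · rw [Finset.sum_sub_distrib, Finset.sum_const, Finset.card_range, nsmul_eq_mul]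
      refine (norm_sub_le _ _).trans ?_
      rw [norm_mul, Complex.norm_natCast]
      have h1 : (L : ℝ) * ‖c‖ ≤ P * (B / P) :=
        mul_le_mul (by exact_mod_cast h) hc (norm_nonneg _) hP'.le
      rw [mul_div_cancel₀ _ hP'.ne'] at h1
      linarith [hB a₀ L h]
    · obtain ⟨r, rfl⟩ : ∃ r, L = r + P := ⟨L - P, by omega⟩
      rw [Finset.sum_range_add]
      have h1 : ∑ i ∈ Finset.range P, (e (a₀ + (r + i : ℕ)) - c) = 0 := by
        rw [Finset.sum_sub_distrib, Finset.sum_const, Finset.card_range, nsmul_eq_mul, hcd,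
          mul_div_cancel₀ _ hP'', ← full (a₀ + r), sub_eq_zero]
        refine Finset.sum_congr rfl fun i _ => ?_
        push_cast
        rw [add_assoc]
      rw [h1, add_zero]
      exact ih r (by omega)

theorem comb_tail_zero : ∃ C : ℝ, 0 < C ∧ ∀ (e : ℤ → ℂ) (P : ℕ) (B H y Y s : ℝ), 0 < P → 0 ≤ H →
    0 < y → (∀ a : ℤ, e (a + P) = e a) →
    (∀ (a₀ : ℤ) (L : ℕ), L ≤ P → ‖∑ i ∈ Finset.range L, e (a₀ + i)‖ ≤ B) →
      ‖comb e P H y Y s‖ ≤ C * B * (y ^ (-3 / 2 : ℝ) * (1 + H / y) + y ^ (-1 / 2 : ℝ)) := by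
  refine ⟨7, by norm_num, fun e P B H y Y s hP hH hy he hB => ?_⟩
  classical
  have hP' : (0 : ℝ) < P := by exact_mod_cast hP
  have hP1 : (1 : ℝ) ≤ P := by exact_mod_cast hP
  have hB0 : 0 ≤ B := by simpa using hB 0 0 (Nat.zero_le _)
  obtain ⟨c, hc, hs⟩ := shpv_mean hP he hB
  have h1 := shpv_tail (e := fun a => e a - c) (Y := Y) (s := s) hP hH hy hs
  set q₁ : ℤ := ⌊(s - y) * P⌋ with hq₁
  set N : ℕ := (q₁ - ⌊(s - Y) * P⌋).toNat with hN
  set Q : Finset ℤ := (Finset.range (N + 1)).image fun j : ℕ => q₁ - (j : ℤ) with hQd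
  have hQ : ∀ q : ℤ, y ≤ s - q / P → s - q / P < Y → q ∈ Q := by
    intro q k1 k2
    have k3 : q ≤ q₁ := Int.le_floor.2 ((div_le_iff₀ hP').1 (by linarith))
    have k4 : ⌊(s - Y) * P⌋ ≤ q := by
      have : (s - Y) * P < q := (lt_div_iff₀ hP').1 (by linarith)
      exact_mod_cast (Int.floor_le _).trans this.le
    exact Finset.mem_image.2 ⟨(q₁ - q).toNat, Finset.mem_range.2 (by omega), by omega⟩
  have e1 : comb e P H y Y s = comb (fun a => e a - c) P H y Y s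
      + c * ∑ q ∈ Q, cut H y Y (s - q / P) := by
    rw [comb_eq_sum e P H y Y s hQ, comb_eq_sum _ P H y Y s hQ, Finset.mul_sum,
      ← Finset.sum_add_distrib]
    exact Finset.sum_congr rfl fun q _ => by ring
  have h2 : ‖∑ q ∈ Q, cut H y Y (s - q / P)‖ ≤ y ^ (-3 / 2 : ℝ) + 2 * P * y ^ (-1 / 2 : ℝ) := by
    rw [hQd, Finset.sum_image (fun i _ j _ hij => by simpa using hij)]
    refine (norm_sum_le _ _).trans ((Finset.sum_le_sum fun j _ => ?_).trans
      ((shpv_sum hP hy N).trans ?_))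
    · have k0 : 0 < y + j / P := by positivity
      have k1 : y + j / P ≤ s - ((q₁ - j : ℤ) : ℝ) / P := by
        have k2 : (q₁ : ℝ) / P ≤ s - y := (div_le_iff₀ hP').2 (Int.floor_le _)
        push_cast
        rw [sub_div]
        linarith
      rw [cut]
      split_ifs
      · rw [kb_norm_kk H (k0.trans_le k1)]
        exact Real.rpow_le_rpow_of_nonpos k0 k1 (by norm_num)
      · rw [norm_zero]
        positivity
    · have : 0 ≤ (y + N / P) ^ (-1 / 2 : ℝ) := by positivity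
      nlinarith
  have p1 : 0 < y ^ (-3 / 2 : ℝ) := Real.rpow_pos_of_pos hy _
  have p2 : 0 < y ^ (-1 / 2 : ℝ) := Real.rpow_pos_of_pos hy _
  have h3 : ‖c * ∑ q ∈ Q, cut H y Y (s - q / P)‖ ≤ B * (y ^ (-3 / 2 : ℝ) + 2 * y ^ (-1 / 2 : ℝ)) := by
    rw [norm_mul]
    refine (mul_le_mul hc h2 (norm_nonneg _) (by positivity)).trans ?_
    have k1 : B / P ≤ B := div_le_self hB0 hP1
    have e2 : B / P * (y ^ (-3 / 2 : ℝ) + 2 * P * y ^ (-1 / 2 : ℝ))
        = B / P * y ^ (-3 / 2 : ℝ) + B * (2 * y ^ (-1 / 2 : ℝ)) := by field_simp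
    rw [e2]
    nlinarith
  rw [e1]
  refine (norm_add_le _ _).trans ?_
  have k1 : 0 ≤ B * (y ^ (-3 / 2 : ℝ) * (H / y)) := by positivity
  have k2 : 0 ≤ B * y ^ (-1 / 2 : ℝ) := by positivity
  nlinarith

end

end Pool.Agent.MP_9f080f_an
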