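import Pool.Agent.MP_9f080f_an.Mg.ShDefs

namespace Pool.Agent.MP_9f080f_an
open Complex MeasureTheory Set Filter Topology Metric
open scoped Real

noncomputable section

/-! Dyadic bookkeeping.  For `m : ℤ` let `k = Nat.log 2 (|m| + 1)`; the block of all `m` with a given `k` is
contained in two runs of `2^k` consecutive integers (starting at `2^k - 1` and at `2 - 2^(k+1)`), and
`2^k / 4 ≤ |m + κ| < 2^(k+1)` if `1/4 ≤ |m + κ|`, `|κ| ≤ 1/2`.
`core_sum`, `y = 2^J/4`, `(a+b)² ≤ 2a² + 2b²`.  First part: `4^J P² 2^k ≤ 64 T`.  Let `i₀ k` be the least `i` with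
`64 T ≤ 2^k 4^i` (`i₀ ≤ L + 3`).  The sum is empty unless `2^k 4^J ≤ 64 T` (so `k < 2L+7`, `J ≤ i₀`), and then
`P ≤ 2^(i₀ - J)`, `2^k 4^(i₀) ≤ 256 T`; the block contributes `≤ 512 lam k (i₀ - J)`, and `J ↦ i₀ - J` is injective.
Second part: `4^L < 8 · 2^k 4^J P²`; cut `P ≤ 2^L` into levels `2^(i-1) < P ≤ 2^i` (`i = Nat.clog 2 P`); at most
`J + k + 3` levels occur, each contributes `≤ 2 · 2^(-i) ∑_{P ≤ 2^i} W`; Cauchy-Schwarz; the total is
`≤ C Θ ∑ 2^(-J-k) (J+k+3)²`.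
`pvw_sum`: levels `i = Nat.clog 2 P ≤ Nat.clog 2 x`; on level `i` only blocks `k < i + 2` occur, and by
Cauchy-Schwarz `∑_{m ∈ block k} (1+|m|)⁻¹ ∑_{P ≤ 2^i} W P m ≤ 2 · 2^i √(lam k i)`. -/

/-- the dyadic block of an integer -/
def shsumK (m : ℤ) : ℕ := Nat.log 2 (m.natAbs + 1)

lemma shsum_bounds (m : ℤ) : 2 ^ shsumK m ≤ m.natAbs + 1 ∧ m.natAbs + 1 < 2 ^ (shsumK m + 1) :=
  ⟨Nat.pow_log_le_self 2 (by omega), Nat.lt_pow_succ_log_self (by norm_num) _⟩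

lemma shsum_bounds_real (m : ℤ) :
    (2 : ℝ) ^ shsumK m ≤ |(m : ℝ)| + 1 ∧ |(m : ℝ)| + 1 < 2 * 2 ^ shsumK m := by
  obtain ⟨h1, h2⟩ := shsum_bounds m
  have e : ((m.natAbs : ℕ) : ℝ) = |(m : ℝ)| := by rw [Nat.cast_natAbs, Int.cast_abs]
  rw [← e, ← pow_succ']
  exact ⟨by exact_mod_cast h1, by exact_mod_cast h2⟩

lemma shsum_block {f : ℤ → ℝ} (hf : ∀ m, 0 ≤ f m) {k : ℕ} {B : ℝ}
    (hB : ∀ a₀ : ℤ, ∑ j ∈ Finset.range (2 ^ k), f (a₀ + j) ≤ B) (t : Finset ℤ) :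
    ∑ m ∈ t.filter (fun m => shsumK m = k), f m ≤ 2 * B := by
  have hsub : t.filter (fun m => shsumK m = k) ⊆
      (Finset.range (2 ^ k)).image (fun j : ℕ => ((2 ^ k : ℕ) : ℤ) - 1 + j) ∪
      (Finset.range (2 ^ k)).image (fun j : ℕ => 2 - 2 * ((2 ^ k : ℕ) : ℤ) + j) := by
    intro m hm
    obtain ⟨h1, h2⟩ := shsum_bounds m
    rw [(Finset.mem_filter.mp hm).2] at h1 h2
    rw [pow_succ] at h2
    simp only [Finset.mem_union, Finset.mem_image, Finset.mem_range]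
    generalize 2 ^ k = N at *
    rcases le_total 0 m with h | h
    · exact Or.inl ⟨(m - N + 1).toNat, by omega, by omega⟩
    · exact Or.inr ⟨(m + 2 * N - 2).toNat, by omega, by omega⟩
  have h1 : ∀ a₀ : ℤ, ∑ m ∈ (Finset.range (2 ^ k)).image (fun j : ℕ => a₀ + j), f m ≤ B := by
    intro a₀
    rw [Finset.sum_image (fun a _ b _ h => by simpa using h)]
    exact hB a₀
  refine (Finset.sum_le_sum_of_subset_of_nonneg hsub fun m _ _ => hf m).trans ?_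
  have h2 := Finset.sum_union_inter (f := f)
    (s₁ := (Finset.range (2 ^ k)).image (fun j : ℕ => ((2 ^ k : ℕ) : ℤ) - 1 + j))
    (s₂ := (Finset.range (2 ^ k)).image (fun j : ℕ => 2 - 2 * ((2 ^ k : ℕ) : ℤ) + j))
  have h3 : 0 ≤ ∑ m ∈ (Finset.range (2 ^ k)).image (fun j : ℕ => ((2 ^ k : ℕ) : ℤ) - 1 + j) ∩
      (Finset.range (2 ^ k)).image (fun j : ℕ => 2 - 2 * ((2 ^ k : ℕ) : ℤ) + j), f m :=
    Finset.sum_nonneg fun m _ => hf m
  linarith [h1 (((2 ^ k : ℕ) : ℤ) - 1), h1 (2 - 2 * ((2 ^ k : ℕ) : ℤ))]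

lemma shsum_clog {P : ℕ} (hP : 1 ≤ P) : 2 ^ Nat.clog 2 P ≤ 2 * P := by
  rcases hP.eq_or_lt with h | h
  · subst h; simp
  · have h1 := Nat.pow_pred_clog_lt_self (b := 2) (by norm_num) h
    have h2 := Nat.clog_pos (b := 2) (by norm_num) h
    obtain ⟨c, hc⟩ : ∃ c, Nat.clog 2 P = c + 1 := ⟨Nat.clog 2 P - 1, by omega⟩
    rw [hc] at h1 ⊢
    simp only [Nat.pred_succ] at h1
    rw [pow_succ]; omega

lemma shsum_level {U I : Finset ℕ} {f : ℕ → ℝ} {g : ℕ → ℕ → ℝ} (hU : ∀ P ∈ U, 1 ≤ P)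
    (hI : ∀ P ∈ U, Nat.clog 2 P ∈ I) (hg : ∀ i P, 0 ≤ g i P)
    (hf : ∀ P ∈ U, f P ≤ g (Nat.clog 2 P) P) :
    ∑ P ∈ U, f P ≤ ∑ i ∈ I, ∑ P ∈ Finset.Icc 1 (2 ^ i), g i P := by
  rw [← Finset.sum_fiberwise_of_maps_to hI]
  refine Finset.sum_le_sum fun i _ => ?_
  calc _ ≤ ∑ P ∈ U.filter (fun P => Nat.clog 2 P = i), g i P :=
        Finset.sum_le_sum fun P hP => by
          obtain ⟨h1, h2⟩ := Finset.mem_filter.mp hP
          rw [← h2]; exact hf P h1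
    _ ≤ _ := by
        refine Finset.sum_le_sum_of_subset_of_nonneg (fun P hP => ?_) fun P _ _ => hg i P
        obtain ⟨h1, h2⟩ := Finset.mem_filter.mp hP
        rw [← h2]
        exact Finset.mem_Icc.mpr ⟨hU P h1, Nat.le_pow_clog (by norm_num) P⟩

lemma shsum_geo (n : ℕ) : ∑ j ∈ Finset.range n, ((j : ℝ) + 2) ^ 2 / 2 ^ j ≤ 22 := by
  have h : ∑ j ∈ Finset.range n, ((j : ℝ) + 2) ^ 2 / 2 ^ j =
      22 - (2 * (n : ℝ) ^ 2 + 12 * n + 22) / 2 ^ n := by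
    induction n with
    | zero => simp
    | succ n ih =>
      rw [Finset.sum_range_succ, ih]
      push_cast
      field_simp
      ring
  rw [h]
  have : 0 ≤ (2 * (n : ℝ) ^ 2 + 12 * n + 22) / 2 ^ n := by positivity
  linarith

lemma shsum_geo2 (n : ℕ) : ∑ j ∈ Finset.range (n + 1), √((2 : ℝ) ^ j) ≤ 4 * √((2 : ℝ) ^ n) := by
  induction n with
  | zero => simp
  | succ n ih =>
    rw [Finset.sum_range_succ]
    have h1 : 4 / 3 * √((2 : ℝ) ^ n) ≤ √((2 : ℝ) ^ (n + 1)) := by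
      refine Real.le_sqrt_of_sq_le ?_
      rw [mul_pow, Real.sq_sqrt (by positivity), pow_succ (2 : ℝ) n]
      have : (0 : ℝ) < 2 ^ n := by positivity
      linarith
    linarith

lemma shsum_theta {W : ℕ → ℤ → ℝ} {L : ℕ} {Θ : ℝ} (h : GoodW W L Θ) : 0 ≤ Θ := by
  obtain ⟨lam, h0, -, h2, -⟩ := h.ex
  exact (h0 0 0).trans (h2 0 0 (by omega))

theorem GoodW.mono {W : ℕ → ℤ → ℝ} {L : ℕ} {Θ Θ' : ℝ} (h : GoodW W L Θ) (hΘ : Θ ≤ Θ') :
    GoodW W L Θ' := by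
  obtain ⟨lam, h0, h1, h2, h3, h4⟩ := h.ex
  exact ⟨h.nonneg, lam, h0, h1, fun k i hi => (h2 k i hi).trans hΘ, h3.trans hΘ,
    fun i hi => (h4 i hi).trans (Real.sqrt_le_sqrt hΘ)⟩

theorem GoodW.add {W W' : ℕ → ℤ → ℝ} {L : ℕ} {Θ : ℝ} (h : GoodW W L Θ) (h' : GoodW W' L Θ) :
    GoodW (fun P m => W P m + W' P m) L (8 * Θ) := by
  have hΘ := shsum_theta h
  obtain ⟨lam, h0, h1, h2, h3, h4⟩ := h.ex
  obtain ⟨lam', h0', h1', h2', h3', h4'⟩ := h'.ex
  refine ⟨fun P m => add_nonneg (h.nonneg P m) (h'.nonneg P m),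
    fun k i => 2 * lam k i + 2 * lam' k i, fun k i => ?_, fun k i hi a₀ => ?_, fun k i hi => ?_,
    ?_, fun i hi => ?_⟩
  · linarith [h0 k i, h0' k i]
  · calc _ ≤ ∑ j ∈ Finset.range (2 ^ k),
          (2 * (∑ P ∈ Finset.Icc 1 (2 ^ i), W P (a₀ + j)) ^ 2 +
            2 * (∑ P ∈ Finset.Icc 1 (2 ^ i), W' P (a₀ + j)) ^ 2) := by
          refine Finset.sum_le_sum fun j _ => ?_
          rw [Finset.sum_add_distrib]
          nlinarith [sq_nonneg ((∑ P ∈ Finset.Icc 1 (2 ^ i), W P (a₀ + j)) -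
            ∑ P ∈ Finset.Icc 1 (2 ^ i), W' P (a₀ + j))]
      _ ≤ _ := by
          rw [Finset.sum_add_distrib, ← Finset.mul_sum, ← Finset.mul_sum]
          linarith [h1 k i hi a₀, h1' k i hi a₀]
  · linarith [h2 k i hi, h2' k i hi]
  · simp only [Finset.sum_add_distrib, ← Finset.mul_sum]
    linarith
  · have e : √(8 * Θ) = 2 * √2 * √Θ := by
      rw [show (8 : ℝ) * Θ = 2 ^ 2 * (2 * Θ) by ring, Real.sqrt_mul (by norm_num),
        Real.sqrt_sq (by norm_num), Real.sqrt_mul (by norm_num)]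
      ring
    calc _ ≤ ∑ k ∈ Finset.range (i + 2), √2 * (√(lam k i) + √(lam' k i)) := by
          refine Finset.sum_le_sum fun k _ => ?_
          refine Real.sqrt_le_iff.mpr ⟨by positivity, ?_⟩
          rw [mul_pow, Real.sq_sqrt (by norm_num), add_sq, Real.sq_sqrt (h0 k i),
            Real.sq_sqrt (h0' k i)]
          have : 0 ≤ √(lam k i) * √(lam' k i) := by positivity
          linarith
      _ ≤ _ := by
          rw [← Finset.mul_sum, Finset.sum_add_distrib, e]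
          have : (0 : ℝ) ≤ √2 := Real.sqrt_nonneg _
          nlinarith [h4 i hi, h4' i hi]

theorem GoodW.dilate {W : ℕ → ℤ → ℝ} {L : ℕ} {Θ : ℝ} (h : GoodW W L Θ) :
    GoodW (fun P m => if 2 ∣ P then W (P / 2) m else 0) L Θ := by
  obtain ⟨lam, h0, h1, h2, h3, h4⟩ := h.ex
  have hn : ∀ P m, 0 ≤ (if 2 ∣ P then W (P / 2) m else 0) := by
    intro P m
    split_ifs
    exacts [h.nonneg _ _, le_rfl]
  refine ⟨hn, lam, h0, fun k i hi a₀ => le_trans ?_ (h1 k i hi a₀), h2, h3, h4⟩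
  refine Finset.sum_le_sum fun j _ => pow_le_pow_left₀ (Finset.sum_nonneg fun P _ => hn _ _) ?_ 2
  rw [← Finset.sum_filter, ← Finset.sum_image (g := fun P : ℕ => P / 2)
    (f := fun P => W P (a₀ + j))]
  · refine Finset.sum_le_sum_of_subset_of_nonneg (fun P hP => ?_) fun P _ _ => h.nonneg _ _
    obtain ⟨Q, hQ, rfl⟩ := Finset.mem_image.mp hP
    simp only [Finset.mem_filter, Finset.mem_Icc] at hQ ⊢
    omega
  · intro a ha b hb hab
    simp only [Finset.coe_filter, Set.mem_ofPred_eq] at ha hb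
    simp only at hab
    omega

lemma eb_nonneg {W : ℕ → ℤ → ℝ} (hW : ∀ P m, 0 ≤ W P m) (S : Finset ℕ) (T κ : ℝ) {y : ℝ} (hy : 0 ≤ y)
    (m : ℤ) : 0 ≤ eb S W T κ y m := by
  unfold eb
  exact add_nonneg (mul_nonneg (by positivity) (Finset.sum_nonneg fun P _ => hW P m))
    (mul_nonneg (mul_nonneg (Real.rpow_nonneg hy _) (by positivity))
      (Finset.sum_nonneg fun P _ => div_nonneg (hW P m) (by positivity)))

lemma shsum_abs {m : ℤ} {κ : ℝ} (hκ : |κ| ≤ 1 / 2) (hm : 1 / 4 ≤ |(m : ℝ) + κ|) :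
    (2 : ℝ) ^ shsumK m / 4 ≤ |(m : ℝ) + κ| ∧ |(m : ℝ) + κ| ≤ 2 * 2 ^ shsumK m := by
  obtain ⟨h1, h2⟩ := shsum_bounds_real m
  have a1 := abs_add_le (m : ℝ) κ
  have a2 : |(m : ℝ)| ≤ |(m : ℝ) + κ| + |κ| := by simpa using abs_sub ((m : ℝ) + κ) κ
  refine ⟨?_, by linarith⟩
  rcases Nat.eq_zero_or_pos (shsumK m) with h | h
  · rw [h]; simpa using hm
  · have : (2 : ℝ) ^ 1 ≤ 2 ^ shsumK m := pow_le_pow_right₀ (by norm_num) h
    linarith

open Classical in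
lemma shsum_first {W : ℕ → ℤ → ℝ} {L : ℕ} {T κ : ℝ} {S : Finset ℕ} {lam : ℕ → ℕ → ℝ}
    (hW : ∀ P m, 0 ≤ W P m) (h0 : ∀ k i, 0 ≤ lam k i)
    (h1 : ∀ k i, i ≤ L + 3 → ∀ a₀ : ℤ, ∑ j ∈ Finset.range (2 ^ k),
      (∑ P ∈ Finset.Icc 1 (2 ^ i), W P (a₀ + j)) ^ 2 ≤ 2 ^ k * 4 ^ i * lam k i)
    (hS : S ⊆ Finset.Icc 1 (2 ^ L)) (hT : T ≤ 4 ^ L) (hT' : 4 ^ L ≤ 64 * T) (hκ : |κ| ≤ 1 / 2)
    {t : Finset ℤ} (ht : ∀ m ∈ t, 1 / 4 ≤ |(m : ℝ) + κ|) (J₀ k : ℕ) :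
    ∑ J ∈ Finset.range J₀, 4 ^ J * ∑ m ∈ t.filter (fun m => shsumK m = k),
      ((√T)⁻¹ * ∑ P ∈ S.filter (fun P : ℕ =>
        |m + κ| * ((2 : ℝ) ^ J / 4) ^ 2 * (P : ℝ) ^ 2 ≤ T), W P m) ^ 2 ≤
      if k < 2 * L + 7 then 512 * ∑ i ∈ Finset.range (L + 4), lam k i else 0 := by
  have hT0 : 0 < T := by
    have : (0 : ℝ) < 4 ^ L := by positivity
    linarith
  have hnn : 0 ≤ 512 * ∑ i ∈ Finset.range (L + 4), lam k i :=
    mul_nonneg (by norm_num) (Finset.sum_nonneg fun i _ => h0 k i)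
  have key : ∀ J : ℕ, ∀ m ∈ t.filter (fun m => shsumK m = k), ∀ P ∈ S.filter (fun P : ℕ =>
      |m + κ| * ((2 : ℝ) ^ J / 4) ^ 2 * (P : ℝ) ^ 2 ≤ T),
      1 ≤ P ∧ (2 : ℝ) ^ k * ((2 : ℝ) ^ J * P) ^ 2 ≤ 64 * T := by
    intro J m hm P hP
    obtain ⟨a1, a2⟩ := Finset.mem_filter.mp hm
    obtain ⟨b1, b2⟩ := Finset.mem_filter.mp hP
    refine ⟨(Finset.mem_Icc.mp (hS b1)).1, ?_⟩
    have c := (shsum_abs hκ (ht m a1)).1
    rw [a2] at c
    calc _ = 64 * ((2 : ℝ) ^ k / 4 * ((2 : ℝ) ^ J / 4) ^ 2 * (P : ℝ) ^ 2) := by ring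
      _ ≤ 64 * (|m + κ| * ((2 : ℝ) ^ J / 4) ^ 2 * (P : ℝ) ^ 2) := by gcongr
      _ ≤ _ := by linarith
  by_cases hk : (2 : ℝ) ^ k ≤ 64 * T
  swap
  · refine le_trans (le_of_eq ?_) (by split_ifs; exacts [hnn, le_rfl])
    refine Finset.sum_eq_zero fun J _ => mul_eq_zero_of_right _ (Finset.sum_eq_zero fun m hm => ?_)
    rw [Finset.sum_eq_zero, mul_zero, zero_pow two_ne_zero]
    intro P hP
    obtain ⟨c1, c2⟩ := key J m hm P hP
    refine absurd (le_trans ?_ c2) hk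
    have d1 : (1 : ℝ) ≤ P := by exact_mod_cast c1
    have d2 : (1 : ℝ) ≤ 2 ^ J := one_le_pow₀ (by norm_num)
    exact le_mul_of_one_le_right (by positivity) (one_le_pow₀ (one_le_mul_of_one_le_of_one_le d2 d1))
  have hk2 : k < 2 * L + 7 := by
    have : (2 : ℝ) ^ k ≤ 2 ^ (2 * L + 6) := by
      rw [pow_add, pow_mul]; norm_num; linarith
    have := (pow_le_pow_iff_right₀ (by norm_num : (1 : ℝ) < 2)).mp this
    omega
  rw [if_pos hk2]
  have hex : 64 * T ≤ (2 : ℝ) ^ k * 4 ^ (L + 3) := by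
    have d2 : (1 : ℝ) ≤ 2 ^ k := one_le_pow₀ (by norm_num)
    have : (0 : ℝ) < 4 ^ L := by positivity
    rw [pow_add]; norm_num; nlinarith
  obtain ⟨i₀, hi1, hi2, hi3⟩ : ∃ i₀, i₀ ≤ L + 3 ∧ 64 * T ≤ (2 : ℝ) ^ k * 4 ^ i₀ ∧
      (2 : ℝ) ^ k * 4 ^ i₀ ≤ 256 * T := by
    have hE : ∃ i, 64 * T ≤ (2 : ℝ) ^ k * 4 ^ i := ⟨_, hex⟩
    refine ⟨Nat.find hE, Nat.find_min' hE hex, Nat.find_spec hE, ?_⟩
    rcases Nat.eq_zero_or_pos (Nat.find hE) with h | h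
    · rw [h]; linarith
    · obtain ⟨c, hc⟩ : ∃ c, Nat.find hE = c + 1 := ⟨Nat.find hE - 1, by omega⟩
      have := Nat.find_min hE (m := c) (by omega)
      rw [hc, pow_succ]
      linarith [not_le.mp this]
  have key2 : ∀ J : ℕ, ∀ m ∈ t.filter (fun m => shsumK m = k), ∀ P ∈ S.filter (fun P : ℕ =>
      |m + κ| * ((2 : ℝ) ^ J / 4) ^ 2 * (P : ℝ) ^ 2 ≤ T), 1 ≤ P ∧ 2 ^ J * P ≤ 2 ^ i₀ := by
    intro J m hm P hP
    obtain ⟨c1, c2⟩ := key J m hm P hP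
    refine ⟨c1, ?_⟩
    have d1 : ((2 : ℝ) ^ J * P) ^ 2 ≤ 4 ^ i₀ :=
      le_of_mul_le_mul_left (c2.trans hi2) (by positivity)
    rw [show (4 : ℝ) ^ i₀ = (2 ^ i₀) ^ 2 by rw [← pow_mul, mul_comm, pow_mul]; norm_num] at d1
    have d2 := (pow_le_pow_iff_left₀ (by positivity) (by positivity) two_ne_zero).mp d1
    exact_mod_cast d2
  calc _ ≤ ∑ J ∈ Finset.range J₀, if J ≤ i₀ then 512 * lam k (i₀ - J) else 0 := by
        refine Finset.sum_le_sum fun J _ => ?_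
        split_ifs with hJ
        · have e1 : ∑ m ∈ t.filter (fun m => shsumK m = k),
              ((√T)⁻¹ * ∑ P ∈ S.filter (fun P : ℕ =>
                |m + κ| * ((2 : ℝ) ^ J / 4) ^ 2 * (P : ℝ) ^ 2 ≤ T), W P m) ^ 2 ≤
              ∑ m ∈ t.filter (fun m => shsumK m = k),
                T⁻¹ * (∑ P ∈ Finset.Icc 1 (2 ^ (i₀ - J)), W P m) ^ 2 := by
            refine Finset.sum_le_sum fun m hm => ?_
            rw [mul_pow, inv_pow, Real.sq_sqrt hT0.le]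
            refine mul_le_mul_of_nonneg_left (pow_le_pow_left₀
              (Finset.sum_nonneg fun P _ => hW P m) ?_ 2) (by positivity)
            refine Finset.sum_le_sum_of_subset_of_nonneg (fun P hP => ?_) fun P _ _ => hW P m
            obtain ⟨c1, c2⟩ := key2 J m hm P hP
            refine Finset.mem_Icc.mpr ⟨c1, ?_⟩
            rw [show i₀ = J + (i₀ - J) by omega, pow_add] at c2
            exact Nat.le_of_mul_le_mul_left c2 (by positivity)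
          rw [← Finset.mul_sum] at e1
          have e2 := shsum_block (f := fun m => (∑ P ∈ Finset.Icc 1 (2 ^ (i₀ - J)), W P m) ^ 2)
            (fun m => sq_nonneg _) (h1 k (i₀ - J) (by omega)) t
          have e3 : (4 : ℝ) ^ i₀ = 4 ^ J * 4 ^ (i₀ - J) := by
            rw [← pow_add]; congr 1; omega
          have e4 := h0 k (i₀ - J)
          calc _ ≤ (4 : ℝ) ^ J * (T⁻¹ * (2 * (2 ^ k * 4 ^ (i₀ - J) * lam k (i₀ - J)))) := by
                refine mul_le_mul_of_nonneg_left (e1.trans ?_) (by positivity)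
                gcongr
            _ = 2 * T⁻¹ * (2 ^ k * 4 ^ i₀) * lam k (i₀ - J) := by rw [e3]; ring
            _ ≤ 2 * T⁻¹ * (256 * T) * lam k (i₀ - J) := by gcongr
            _ = _ := by field_simp; ring
        · refine le_of_eq (mul_eq_zero_of_right _ (Finset.sum_eq_zero fun m hm => ?_))
          rw [Finset.sum_eq_zero, mul_zero, zero_pow two_ne_zero]
          intro P hP
          obtain ⟨c1, c2⟩ := key2 J m hm P hP
          exfalso
          have d1 : 2 ^ i₀ < 2 ^ J := Nat.pow_lt_pow_right (by norm_num) (by omega)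
          have d2 : 2 ^ J ≤ 2 ^ J * P := Nat.le_mul_of_pos_right _ c1
          omega
    _ ≤ _ := by
        rw [← Finset.sum_filter, ← Finset.mul_sum,
          ← Finset.sum_image (g := fun J : ℕ => i₀ - J) (f := fun i => lam k i)]
        · refine mul_le_mul_of_nonneg_left
            (Finset.sum_le_sum_of_subset_of_nonneg (fun i hi => ?_) fun i _ _ => h0 k i)
            (by norm_num)
          obtain ⟨J, -, rfl⟩ := Finset.mem_image.mp hi
          exact Finset.mem_range.mpr (by omega)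
        · intro a ha b hb hab
          simp only [Finset.coe_filter, Set.mem_ofPred_eq] at ha hb
          simp only at hab
          omega

open Classical in
lemma shsum_second {W : ℕ → ℤ → ℝ} {L : ℕ} {Θ T κ : ℝ} {S : Finset ℕ} (h : GoodW W L Θ)
    (hS : S ⊆ Finset.Icc 1 (2 ^ L)) (hT' : 4 ^ L ≤ 64 * T) (hκ : |κ| ≤ 1 / 2)
    {t : Finset ℤ} (ht : ∀ m ∈ t, 1 / 4 ≤ |(m : ℝ) + κ|) (J k : ℕ) :
    4 ^ J * ∑ m ∈ t.filter (fun m => shsumK m = k),
      (((2 : ℝ) ^ J / 4) ^ (-3 / 2 : ℝ) * |m + κ|⁻¹ * ∑ P ∈ S.filter (fun P : ℕ =>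
        T < |m + κ| * ((2 : ℝ) ^ J / 4) ^ 2 * (P : ℝ) ^ 2), W P m / P) ^ 2 ≤
      8192 * Θ * (((J : ℝ) + 2) ^ 2 / 2 ^ J * (((k : ℝ) + 2) ^ 2 / 2 ^ k)) := by
  have hΘ := shsum_theta h
  have hW := h.nonneg
  obtain ⟨lam, h0, h1, h2, -⟩ := h.ex
  have hy : (((2 : ℝ) ^ J / 4) ^ (-3 / 2 : ℝ)) ^ 2 = 64 / (2 ^ J) ^ 3 := by
    rw [← Real.rpow_natCast, ← Real.rpow_mul (by positivity)]
    norm_num
    field_simp
    norm_num
  have hcard : ((Finset.Icc (L - (J + k + 2)) L).card : ℝ) ≤ (J + 2) * (k + 2) := by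
    have : (Finset.Icc (L - (J + k + 2)) L).card ≤ (J + 2) * (k + 2) := by
      rw [Nat.card_Icc]
      have : J + k + 3 ≤ (J + 2) * (k + 2) := by nlinarith
      omega
    exact_mod_cast this
  have e1 : ∀ m ∈ t.filter (fun m => shsumK m = k),
      (((2 : ℝ) ^ J / 4) ^ (-3 / 2 : ℝ) * |m + κ|⁻¹ * ∑ P ∈ S.filter (fun P : ℕ =>
        T < |m + κ| * ((2 : ℝ) ^ J / 4) ^ 2 * (P : ℝ) ^ 2), W P m / P) ^ 2 ≤
      64 / (2 ^ J) ^ 3 * (4 / 2 ^ k) ^ 2 * (((J + 2) * (k + 2)) *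
        ∑ i ∈ Finset.Icc (L - (J + k + 2)) L,
          4 / 4 ^ i * (∑ P ∈ Finset.Icc 1 (2 ^ i), W P m) ^ 2) := by
    intro m hm
    obtain ⟨a1, a2⟩ := Finset.mem_filter.mp hm
    obtain ⟨c1, c2⟩ := shsum_abs hκ (ht m a1)
    rw [a2] at c1 c2
    have d1 : |m + κ|⁻¹ ≤ 4 / 2 ^ k := by
      rw [← inv_div]
      exact inv_anti₀ (by positivity) c1
    have d2 : ∑ P ∈ S.filter (fun P : ℕ =>
        T < |m + κ| * ((2 : ℝ) ^ J / 4) ^ 2 * (P : ℝ) ^ 2), W P m / P ≤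
        ∑ i ∈ Finset.Icc (L - (J + k + 2)) L, ∑ P ∈ Finset.Icc 1 (2 ^ i), 2 / 2 ^ i * W P m := by
      refine shsum_level (g := fun i P => 2 / 2 ^ i * W P m)
        (fun P hP => (Finset.mem_Icc.mp (hS (Finset.mem_filter.mp hP).1)).1) (fun P hP => ?_)
        (fun i P => mul_nonneg (by positivity) (hW P m)) (fun P hP => ?_)
      · obtain ⟨b1, b2⟩ := Finset.mem_filter.mp hP
        refine Finset.mem_Icc.mpr ⟨?_, Nat.clog_le_of_le_pow (Finset.mem_Icc.mp (hS b1)).2⟩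
        have b3 : (P : ℝ) ≤ 2 ^ Nat.clog 2 P := by
          exact_mod_cast Nat.le_pow_clog (by norm_num) P
        have b4 : |m + κ| * ((2 : ℝ) ^ J / 4) ^ 2 * (P : ℝ) ^ 2 ≤
            2 * 2 ^ k * ((2 : ℝ) ^ J / 4) ^ 2 * (2 ^ Nat.clog 2 P) ^ 2 := by gcongr
        have b5 : (2 : ℝ) ^ (2 * L) < 2 ^ (3 + k + 2 * J + 2 * Nat.clog 2 P) := by
          have b6 : (2 : ℝ) ^ (3 + k + 2 * J + 2 * Nat.clog 2 P) =
              64 * (2 * 2 ^ k * ((2 : ℝ) ^ J / 4) ^ 2 * (2 ^ Nat.clog 2 P) ^ 2) := by ring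
          rw [b6, pow_mul]
          norm_num
          linarith
        have := (pow_lt_pow_iff_right₀ (by norm_num : (1 : ℝ) < 2)).mp b5
        omega
      · have b1 := (Finset.mem_Icc.mp (hS (Finset.mem_filter.mp hP).1)).1
        have b2 : (2 : ℝ) ^ Nat.clog 2 P ≤ 2 * P := by exact_mod_cast shsum_clog b1
        have b3 : (0 : ℝ) < P := by exact_mod_cast b1
        rw [div_eq_inv_mul]
        refine mul_le_mul_of_nonneg_right ?_ (hW P m)
        rw [le_div_iff₀ (by positivity), inv_mul_le_iff₀ b3]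
        linarith
    have d3 := sq_sum_le_card_mul_sum_sq (s := Finset.Icc (L - (J + k + 2)) L)
      (f := fun i => ∑ P ∈ Finset.Icc 1 (2 ^ i), 2 / 2 ^ i * W P m)
    have d4 : ∀ i : ℕ, (∑ P ∈ Finset.Icc 1 (2 ^ i), 2 / 2 ^ i * W P m) ^ 2 =
        4 / 4 ^ i * (∑ P ∈ Finset.Icc 1 (2 ^ i), W P m) ^ 2 := by
      intro i
      rw [← Finset.mul_sum, mul_pow, div_pow, ← pow_mul, mul_comm i 2, pow_mul]
      norm_num
    simp only [d4] at d3
    rw [mul_pow, mul_pow, hy]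
    refine mul_le_mul (by gcongr) ?_ (sq_nonneg _) (by positivity)
    refine (pow_le_pow_left₀ (Finset.sum_nonneg fun P _ => div_nonneg (hW P m) (by positivity))
      d2 2).trans (d3.trans ?_)
    exact mul_le_mul_of_nonneg_right hcard (Finset.sum_nonneg fun i _ => by positivity)
  have e2 := Finset.sum_le_sum e1
  rw [← Finset.mul_sum, ← Finset.mul_sum, Finset.sum_comm] at e2
  have e3 : ∑ i ∈ Finset.Icc (L - (J + k + 2)) L, ∑ m ∈ t.filter (fun m => shsumK m = k),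
      4 / 4 ^ i * (∑ P ∈ Finset.Icc 1 (2 ^ i), W P m) ^ 2 ≤
      ((J + 2) * (k + 2)) * (8 * 2 ^ k * Θ) := by
    refine le_trans (Finset.sum_le_card_nsmul _ _ (8 * 2 ^ k * Θ) fun i hi => ?_) ?_
    · have hi' : i ≤ L + 3 := by have := (Finset.mem_Icc.mp hi).2; omega
      rw [← Finset.mul_sum]
      have b1 := shsum_block (f := fun m => (∑ P ∈ Finset.Icc 1 (2 ^ i), W P m) ^ 2)
        (fun m => sq_nonneg _) (h1 k i hi') t
      have b2 := h2 k i hi'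
      calc _ ≤ (4 : ℝ) / 4 ^ i * (2 * (2 ^ k * 4 ^ i * Θ)) := by
            refine mul_le_mul_of_nonneg_left (b1.trans ?_) (by positivity)
            gcongr
        _ = _ := by field_simp; ring
    · rw [nsmul_eq_mul]
      exact mul_le_mul_of_nonneg_right hcard (by positivity)
  calc _ ≤ (4 : ℝ) ^ J * (64 / (2 ^ J) ^ 3 * (4 / 2 ^ k) ^ 2 * (((J + 2) * (k + 2)) *
        (((J + 2) * (k + 2)) * (8 * 2 ^ k * Θ)))) := by
        refine mul_le_mul_of_nonneg_left (e2.trans ?_) (by positivity)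
        gcongr
    _ = _ := by
        rw [show (4 : ℝ) ^ J = (2 ^ J) ^ 2 by rw [← pow_mul, mul_comm, pow_mul]; norm_num]
        field_simp
        ring

theorem core_sum : ∃ C : ℝ, 0 < C ∧ ∀ (W : ℕ → ℤ → ℝ) (L : ℕ) (Θ T κ : ℝ) (S : Finset ℕ),
    GoodW W L Θ → S ⊆ Finset.Icc 1 (2 ^ L) → T ≤ 4 ^ L → 4 ^ L ≤ 64 * T → |κ| ≤ 1 / 2 →
    ∀ t : Finset ℤ, (∀ m ∈ t, 1 / 4 ≤ |(m : ℝ) + κ|) → ∀ J₀ : ℕ,
      ∑ J ∈ Finset.range J₀, 4 ^ J * ∑ m ∈ t, eb S W T κ (2 ^ J / 4) m ^ 2 ≤ C * Θ := by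
  classical
  refine ⟨2 * 512 + 2 * (8192 * (22 * 22)), by norm_num,
    fun W L Θ T κ S h hS hT hT' hκ t ht J₀ => ?_⟩
  have hΘ := shsum_theta h
  obtain ⟨lam, h0, h1, -, h3, -⟩ := h.ex
  obtain ⟨K, hK⟩ : ∃ K, ∀ m ∈ t, shsumK m ∈ Finset.range K :=
    ⟨t.sup shsumK + 1, fun m hm => Finset.mem_range.mpr (Nat.lt_succ_of_le (Finset.le_sup hm))⟩
  have a1 := Finset.sum_le_sum fun k (_ : k ∈ Finset.range K) =>
    shsum_first h.nonneg h0 h1 hS hT hT' hκ ht J₀ k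
  have a2 := Finset.sum_le_sum fun J (_ : J ∈ Finset.range J₀) =>
    Finset.sum_le_sum fun k (_ : k ∈ Finset.range K) => shsum_second h hS hT' hκ ht J k
  rw [Finset.sum_comm] at a1
  simp only [← Finset.mul_sum, Finset.sum_fiberwise_of_maps_to hK] at a1 a2
  rw [← Finset.sum_mul] at a2
  have a3 : ∑ k ∈ Finset.range K, (if k < 2 * L + 7 then
      512 * ∑ i ∈ Finset.range (L + 4), lam k i else 0) ≤ 512 * Θ := by
    rw [← Finset.sum_filter, ← Finset.mul_sum]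
    refine mul_le_mul_of_nonneg_left (le_trans ?_ h3) (by norm_num)
    exact Finset.sum_le_sum_of_subset_of_nonneg
      (fun k hk => Finset.mem_range.mpr (Finset.mem_filter.mp hk).2)
      fun k _ _ => Finset.sum_nonneg fun i _ => h0 k i
  have a4 : 8192 * Θ * ((∑ j ∈ Finset.range J₀, ((j : ℝ) + 2) ^ 2 / 2 ^ j) *
      ∑ j ∈ Finset.range K, ((j : ℝ) + 2) ^ 2 / 2 ^ j) ≤ 8192 * Θ * (22 * 22) := by
    have b1 := shsum_geo J₀
    have b2 := shsum_geo K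
    gcongr
  have a5 := add_le_add (mul_le_mul_of_nonneg_left (a1.trans a3) zero_le_two)
    (mul_le_mul_of_nonneg_left (a2.trans a4) zero_le_two)
  refine le_trans ?_ (a5.trans_eq (by ring))
  rw [Finset.mul_sum, Finset.mul_sum, ← Finset.sum_add_distrib]
  refine Finset.sum_le_sum fun J _ => ?_
  rw [mul_left_comm 2, mul_left_comm 2, ← mul_add]
  refine mul_le_mul_of_nonneg_left ?_ (by positivity)
  rw [Finset.mul_sum, Finset.mul_sum, ← Finset.sum_add_distrib]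
  refine Finset.sum_le_sum fun m _ => ?_
  unfold eb
  exact add_sq_le.trans_eq (mul_add _ _ _)

/-- the zero frequency -/
theorem eb_zero {W : ℕ → ℤ → ℝ} {L : ℕ} {Θ T : ℝ} {S : Finset ℕ} (h : GoodW W L Θ)
    (hS : S ⊆ Finset.Icc 1 (2 ^ L)) (hT : 4 ^ L ≤ 64 * T) (y : ℝ) :
    eb S W T 0 y 0 ^ 2 ≤ 64 * Θ := by
  have hΘ := shsum_theta h
  have hW := h.nonneg
  obtain ⟨lam, h0, h1, h2, -⟩ := h.ex
  have hT0 : 0 < T := by
    have : (0 : ℝ) < 4 ^ L := by positivity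
    linarith
  have a1 := h1 0 L (by omega) 0
  have a2 := h2 0 L (by omega)
  simp only [pow_zero, Finset.range_one, Finset.sum_singleton, Nat.cast_zero, add_zero,
    one_mul] at a1
  unfold eb
  simp only [Int.cast_zero, add_zero, abs_zero, inv_zero, mul_zero, zero_mul]
  rw [mul_pow, inv_pow, Real.sq_sqrt hT0.le, inv_mul_le_iff₀ hT0]
  refine (pow_le_pow_left₀ (Finset.sum_nonneg fun P _ => hW P 0)
    (Finset.sum_le_sum_of_subset_of_nonneg ((Finset.filter_subset _ _).trans hS)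
      fun P _ _ => hW P 0) 2).trans (a1.trans ?_)
  calc (4 : ℝ) ^ L * lam 0 L ≤ (64 * T) * Θ := mul_le_mul hT a2 (h0 0 L) (by positivity)
    _ = _ := by ring

theorem pvw_sum : ∃ C : ℝ, 0 < C ∧ ∀ (W : ℕ → ℤ → ℝ) (L : ℕ) (Θ : ℝ), GoodW W L Θ →
    ∀ x : ℕ, x ≤ 2 ^ (L + 3) → ∑ P ∈ Finset.Icc 1 x, pvw (W P) P / √P ≤ C * √x * √Θ := by
  refine ⟨16, by norm_num, fun W L Θ h x hx => ?_⟩
  have hW := h.nonneg
  obtain ⟨lam, h0, h1, -, -, h4⟩ := h.ex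
  rcases Nat.eq_zero_or_pos x with rfl | hx0
  · simp
  have hc : Nat.clog 2 x ≤ L + 3 := Nat.clog_le_of_le_pow hx
  have a1 : ∑ P ∈ Finset.Icc 1 x, pvw (W P) P / √P ≤
      ∑ i ∈ Finset.range (Nat.clog 2 x + 1), ∑ P ∈ Finset.Icc 1 (2 ^ i),
        √2 / √(2 ^ i) * pvw (W P) (2 ^ i) := by
    have hp : ∀ P Q, 0 ≤ pvw (W P) Q :=
      fun P Q => Finset.sum_nonneg fun m _ => div_nonneg (hW P m) (by positivity)
    refine shsum_level (g := fun i P => √2 / √(2 ^ i) * pvw (W P) (2 ^ i))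
      (fun P hP => (Finset.mem_Icc.mp hP).1) (fun P hP => Finset.mem_range.mpr
        (Nat.lt_succ_of_le (Nat.clog_mono_right 2 (Finset.mem_Icc.mp hP).2)))
      (fun i P => mul_nonneg (by positivity) (hp _ _)) (fun P hP => ?_)
    have b1 := (Finset.mem_Icc.mp hP).1
    have b2 : (2 : ℝ) ^ Nat.clog 2 P ≤ 2 * P := by exact_mod_cast shsum_clog b1
    have b3 : (0 : ℝ) < P := by exact_mod_cast b1
    have b4 : P ≤ 2 ^ Nat.clog 2 P := Nat.le_pow_clog (by norm_num) P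
    rw [div_eq_inv_mul]
    refine mul_le_mul ?_ ?_ (hp _ _) (by positivity)
    · rw [le_div_iff₀ (by positivity), inv_mul_le_iff₀ (by positivity), mul_comm,
        ← Real.sqrt_mul (by norm_num)]
      exact Real.sqrt_le_sqrt b2
    · refine Finset.sum_le_sum_of_subset_of_nonneg (Finset.Icc_subset_Icc (by omega) (by omega))
        fun m _ _ => div_nonneg (hW P m) (by positivity)
  have a2 : ∀ i ≤ L + 3, ∑ P ∈ Finset.Icc 1 (2 ^ i), pvw (W P) (2 ^ i) ≤ 2 * 2 ^ i * √Θ := by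
    intro i hi
    unfold pvw
    have hK : ∀ m ∈ Finset.Icc (-((2 ^ i : ℕ) : ℤ)) ((2 ^ i : ℕ) : ℤ),
        shsumK m ∈ Finset.range (i + 2) := by
      intro m hm
      have b1 := (shsum_bounds m).1
      have b2 := Finset.mem_Icc.mp hm
      have b3 : 2 ^ shsumK m < 2 ^ (i + 2) := by
        rw [pow_add]
        have : 0 < 2 ^ i := by positivity
        generalize 2 ^ i = N at *
        omega
      exact Finset.mem_range.mpr ((Nat.pow_lt_pow_iff_right (by norm_num)).mp b3)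
    rw [Finset.sum_comm, ← Finset.sum_fiberwise_of_maps_to hK]
    refine le_trans ?_ (mul_le_mul_of_nonneg_left (h4 i hi) (by positivity))
    rw [Finset.mul_sum]
    refine Finset.sum_le_sum fun k _ => ?_
    generalize Finset.Icc (-((2 ^ i : ℕ) : ℤ)) ((2 ^ i : ℕ) : ℤ) = t
    have b1 := shsum_block (f := fun m => (∑ P ∈ Finset.Icc 1 (2 ^ i), W P m) ^ 2)
      (fun m => sq_nonneg _) (h1 k i hi) t
    have b2 := shsum_block (f := fun _ => (1 : ℝ)) (k := k) (B := 2 ^ k)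
      (fun m => zero_le_one) (fun a₀ => by simp) t
    rw [Finset.sum_const, nsmul_eq_mul, mul_one] at b2
    have b3 := sq_sum_le_card_mul_sum_sq (s := t.filter (fun m => shsumK m = k))
      (f := fun m => ∑ P ∈ Finset.Icc 1 (2 ^ i), W P m)
    have b4 : ∑ m ∈ t.filter (fun m => shsumK m = k), ∑ P ∈ Finset.Icc 1 (2 ^ i), W P m ≤
        2 ^ k * (2 * 2 ^ i * √(lam k i)) := by
      refine (pow_le_pow_iff_left₀ (Finset.sum_nonneg fun m _ => Finset.sum_nonneg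
        fun P _ => hW P m) (by positivity) two_ne_zero).mp (b3.trans ?_)
      calc _ ≤ (2 * 2 ^ k : ℝ) * (2 * (2 ^ k * 4 ^ i * lam k i)) :=
            mul_le_mul b2 b1 (Finset.sum_nonneg fun m _ => sq_nonneg _) (by positivity)
        _ = _ := by
            rw [mul_pow, mul_pow, Real.sq_sqrt (h0 k i),
              show (4 : ℝ) ^ i = (2 ^ i) ^ 2 by rw [← pow_mul, mul_comm, pow_mul]; norm_num]
            ring
    rw [← inv_mul_le_iff₀ (by positivity), Finset.mul_sum] at b4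
    refine le_trans (Finset.sum_le_sum fun m hm => ?_) b4
    have b5 := (shsum_bounds_real m).1
    rw [(Finset.mem_filter.mp hm).2] at b5
    rw [← Finset.sum_div, div_eq_inv_mul]
    exact mul_le_mul_of_nonneg_right (inv_anti₀ (by positivity) (by linarith))
      (Finset.sum_nonneg fun P _ => hW P m)
  have a3 : ∑ i ∈ Finset.range (Nat.clog 2 x + 1), ∑ P ∈ Finset.Icc 1 (2 ^ i),
      √2 / √(2 ^ i) * pvw (W P) (2 ^ i) ≤
      ∑ i ∈ Finset.range (Nat.clog 2 x + 1), 2 * √2 * √Θ * √(2 ^ i) := by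
    refine Finset.sum_le_sum fun i hi => ?_
    have hi' : i ≤ L + 3 := by have := Finset.mem_range.mp hi; omega
    rw [← Finset.mul_sum]
    refine (mul_le_mul_of_nonneg_left (a2 i hi') (by positivity)).trans_eq ?_
    have b1 : (0 : ℝ) < √(2 ^ i) := by positivity
    have b2 : √((2 : ℝ) ^ i) ^ 2 = 2 ^ i := Real.sq_sqrt (by positivity)
    generalize √((2 : ℝ) ^ i) = r at *
    rw [← b2]
    field_simp
  rw [← Finset.mul_sum] at a3
  have a4 : √((2 : ℝ) ^ Nat.clog 2 x) ≤ √2 * √x := by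
    rw [← Real.sqrt_mul (by norm_num)]
    exact Real.sqrt_le_sqrt (by exact_mod_cast shsum_clog hx0)
  have a5 := (shsum_geo2 (Nat.clog 2 x)).trans (mul_le_mul_of_nonneg_left a4 (by norm_num))
  refine a1.trans (a3.trans ((mul_le_mul_of_nonneg_left a5 (by positivity)).trans_eq ?_))
  have a6 : √2 * √2 = (2 : ℝ) := Real.mul_self_sqrt (by norm_num)
  calc _ = 8 * (√2 * √2) * √x * √Θ := by ring
    _ = _ := by rw [a6]; ring

end

end Pool.Agent.MP_9f080f_an
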