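import Pool.Agent.MP_9f080f_an.Mg.ShOsc
import Pool.Agent.MP_9f080f_an.Mg.ShPV
import Pool.Agent.MP_9f080f_an.Mg.ShSum
import Pool.Agent.MP_9f080f_an.Mg.KBB

namespace Pool.Agent.MP_9f080f_an
open Complex MeasureTheory Set Filter Topology Metric
open scoped Real

noncomputable section

/-! Mean squares of fans.
`comb_L2`: `comb_parseval`, `TwW.four`, `osc_bound` (`√(T/P²) = √T / P`), `hasSum_le`.
Fans: `r v = ∫ u in u₀..u₁, if u ≤ v then ω u else 0` (`rA`: `u₀ = 1`, `u₁ = 2`, `ω = 1`; `rB`: `u₀ = 3/4`,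
`u₁ = 1`, `ω u = 2/(2u-1)² ≤ 8`).  For `Y` large (larger than `s + u₁` and all `s + Lp P / P`) and `u > 0`,
`∑_{l < Lp, u ≤ l/P} e (-l) kk (s + l/P) = comb (y = s + u) - comb (y = s + max u (Lp/P))` (`comb_eq_sum`).
So `fanG s = ∫ ω u F s (s+u) du - ∫ ω u Tail u s du`; `avg_le` with `comb_L2` for the first part on each unit
interval `[j + 1/2, j + 3/2]`, `y₀ = 2^J/4`, `J = Nat.log 2 (j+1)` (resp. on `[-1/2, 1/2]`, `y₀ = 1/4`), then
`core_sum` (`∑_{j : J j = J} (j + 5/2) ≤ 4 · 4^J`; `eb_zero` for the zero frequency).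
Tails: `t₀ = s + max u (Lp/P)`.  A: `t₀ ≥ s`, `H ≤ 3 t₀`, `t₀^(-3/2) ≤ C s^(-5/4) H^(-1/4)`, `comb_tail`, `pvw_long`.
B: `t₀ ≥ 1/4`, `H ≤ 18 t₀²`, everything `≤ C H^(-1/4)`, `comb_tail_zero`, `pvw_short`.
In both cases `P^(-3/2) √P pvw H^(-1/4) = T^(-1/4) pvw / √P`, and `pvw_sum` with `x = 2^L`.
Integrability on `Ioi (1/2)`: `kb_Ioi` in `KBB`. -/

lemma shfan_pow {P : ℝ} (hP : 0 < P) : P ^ (-3 / 2 : ℝ) * √P = P⁻¹ := by
  rw [Real.sqrt_eq_rpow, ← Real.rpow_add hP, ← Real.rpow_neg_one]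
  norm_num

lemma shfan_W {e : ℤ → ℂ} {P : ℕ} {κ : ℝ} {W : ℤ → ℝ} (hP : 0 < P) (h : TwW e P κ W) (m : ℤ) :
    0 ≤ W m :=
  nonneg_of_mul_nonneg_right ((norm_nonneg _).trans (h.four m))
    (Real.sqrt_pos.2 (by exact_mod_cast hP))

theorem comb_L2 : ∃ C : ℝ, 0 < C ∧ ∀ (S : Finset ℕ) (e : ℕ → ℤ → ℂ) (W : ℕ → ℤ → ℝ)
    (T κ y₀ y Y s₀ E : ℝ), (∀ P ∈ S, 0 < P ∧ TwW (e P) P κ (W P)) → 0 < T → 0 < y₀ → y₀ ≤ y → y ≤ Y →
    (∀ t : Finset ℤ, ∑ m ∈ t, eb S W T κ y₀ m ^ 2 ≤ E) →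
      ∫ s in s₀..s₀ + 1, ‖∑ P ∈ S, (((P : ℝ) ^ (-3 / 2 : ℝ) : ℝ) : ℂ) *
        comb (e P) P (T / P ^ 2) y Y s‖ ^ 2 ≤ C * E := by
  classical
  obtain ⟨C, hC, hosc⟩ := osc_bound
  refine ⟨C ^ 2, by positivity, fun S e W T κ y₀ y Y s₀ E hS hT hy₀ hy hY hE => ?_⟩
  have hy0 : 0 < y := hy₀.trans_le hy
  have hp := comb_parseval S (fun P hP => (hS P hP).1)
    (fun P => (((P : ℝ) ^ (-3 / 2 : ℝ) : ℝ) : ℂ)) e κ (fun P hP => (hS P hP).2.per)
    (fun P => T / P ^ 2) hy0 hY s₀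
  refine hasSum_le_of_sum_le hp fun t => ?_
  refine le_trans ?_ (mul_le_mul_of_nonneg_left (hE t) (sq_nonneg C))
  rw [Finset.mul_sum]
  refine Finset.sum_le_sum fun m _ => ?_
  rw [← mul_pow]
  refine pow_le_pow_left₀ (norm_nonneg _) ?_ 2
  refine (norm_sum_le _ _).trans ?_
  have key : ∀ P ∈ S, ∀ b : ℝ, ‖∫ t in y..Y, kk (T / P ^ 2) t * ep (-2 * ((m + κ : ℝ) : ℂ) * t)‖ ≤ b →
      ‖(((P : ℝ) ^ (-3 / 2 : ℝ) : ℝ) : ℂ) *
        (∑ a ∈ Finset.range P, e P a * ep (-2 * (m + κ) * a / P)) *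
        ∫ t in y..Y, kk (T / P ^ 2) t * ep (-2 * ((m + κ : ℝ) : ℂ) * t)‖ ≤ W P m / P * b := by
    intro P hP b hb
    have hP0 : (0 : ℝ) < P := by exact_mod_cast (hS P hP).1
    have hW := shfan_W (hS P hP).1 (hS P hP).2 m
    rw [norm_mul, norm_mul, Complex.norm_real, Real.norm_of_nonneg (Real.rpow_nonneg hP0.le _)]
    refine mul_le_mul ?_ hb (norm_nonneg _) (by positivity)
    refine (mul_le_mul_of_nonneg_left ((hS P hP).2.four m) (Real.rpow_nonneg hP0.le _)).trans ?_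
    rw [← mul_assoc, shfan_pow hP0, div_eq_mul_inv, mul_comm]
  unfold eb
  rw [← Finset.sum_filter_add_sum_filter_not S
    (fun P : ℕ => |m + κ| * y₀ ^ 2 * (P : ℝ) ^ 2 ≤ T), mul_add C, ← mul_assoc C, ← mul_assoc C,
    Finset.mul_sum, Finset.mul_sum]
  simp only [not_le]
  apply add_le_add
  all_goals refine Finset.sum_le_sum fun P hP => ?_
  · have hPS := (Finset.mem_filter.1 hP).1
    have hP0 : (0 : ℝ) < P := by exact_mod_cast (hS P hPS).1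
    refine (key P hPS _ (hosc _ (m + κ) y Y (by positivity) hy0 hY).1).trans (le_of_eq ?_)
    rw [Real.sqrt_div hT.le, Real.sqrt_sq hP0.le]
    have := Real.sqrt_pos.2 hT
    field_simp
  · obtain ⟨hPS, hlt⟩ := Finset.mem_filter.1 hP
    have hP0 : (0 : ℝ) < P := by exact_mod_cast (hS P hPS).1
    have hW := shfan_W (hS P hPS).1 (hS P hPS).2 m
    have h1 : T / (P : ℝ) ^ 2 ≤ |m + κ| * y ^ 2 := by
      rw [div_le_iff₀ (by positivity)]
      refine hlt.le.trans ?_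
      gcongr
    refine (key P hPS _ ((hosc _ (m + κ) y Y (by positivity) hy0 hY).2 h1)).trans ?_
    have h2 : y ^ (-3 / 2 : ℝ) ≤ y₀ ^ (-3 / 2 : ℝ) :=
      Real.rpow_le_rpow_of_nonpos hy₀ hy (by norm_num)
    calc W P m / P * (C * y ^ (-3 / 2 : ℝ) / |m + κ|)
        ≤ W P m / P * (C * y₀ ^ (-3 / 2 : ℝ) / |m + κ|) := by gcongr
      _ = _ := by ring

lemma shfan_ii {f : ℝ → ℂ} (hf : Measurable f) {a b M : ℝ} (hab : a ≤ b)
    (hM : ∀ u ∈ Icc a b, ‖f u‖ ≤ M) : IntervalIntegrable f volume a b := by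
  rw [intervalIntegrable_iff_integrableOn_Icc_of_le hab]
  refine Measure.integrableOn_of_bounded (M := M) (by simp) hf.aestronglyMeasurable ?_
  exact (ae_restrict_mem measurableSet_Icc).mono hM

lemma shfan_diff (e : ℤ → ℂ) {P : ℕ} (hP : 0 < P) (H : ℝ) {Y s u : ℝ} (n : ℕ) (hu : 0 < u)
    (hY : s + n / P ≤ Y) :
    comb e P H (s + u) Y s - comb e P H (s + max u (n / P)) Y s =
      ∑ l ∈ Finset.range n, if u ≤ (l : ℝ) / P then e (-l) * kk H (s + l / P) else 0 := by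
  classical
  have hP0 : (0 : ℝ) < P := by exact_mod_cast hP
  set N : ℕ := max n ⌈(Y - s) * P⌉₊ with hN
  have hQ : ∀ y : ℝ, s + u ≤ y → ∀ q : ℤ, y ≤ s - q / P → s - q / P < Y →
      q ∈ (Finset.range N).image fun l : ℕ => -(l : ℤ) := by
    intro y hy q h1 h2
    have h3 : (q : ℝ) / P < 0 := by linarith
    have h4 : (q : ℝ) < 0 := by
      by_contra hc
      exact absurd h3 (not_lt.2 (div_nonneg (not_lt.1 hc) hP0.le))
    have h5 : q < 0 := by exact_mod_cast h4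
    refine Finset.mem_image.2 ⟨(-q).toNat, Finset.mem_range.2 ?_, by omega⟩
    refine lt_of_lt_of_le (Nat.lt_ceil.2 ?_) (le_max_right _ _)
    have h6 : (((-q).toNat : ℤ) : ℝ) = -(q : ℝ) := by
      rw [Int.toNat_of_nonneg (by omega)]; push_cast; ring
    rw [Int.cast_natCast] at h6
    rw [h6, ← div_lt_iff₀ hP0, neg_div]
    linarith
  rw [comb_eq_sum e P H (s + u) Y s (hQ _ le_rfl),
    comb_eq_sum e P H _ Y s (hQ _ (by linarith [le_max_left u ((n : ℝ) / P)])),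
    ← Finset.sum_sub_distrib, Finset.sum_image (fun a _ b _ h => by simpa using h)]
  symm
  refine Finset.sum_subset_zero_on_sdiff (Finset.range_subset_range.2 (le_max_left _ _))
    (fun l hl => ?_) (fun l hl => ?_)
  · have h1 : n ≤ l := not_lt.1 fun h => (Finset.mem_sdiff.1 hl).2 (Finset.mem_range.2 h)
    have h2 : (n : ℝ) / P ≤ l / P := div_le_div_of_nonneg_right (by exact_mod_cast h1) hP0.le
    have e1 : s - ((-(l : ℤ) : ℤ) : ℝ) / P = s + l / P := by push_cast; ring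
    rw [e1, sub_eq_zero]
    congr 1
    unfold cut
    refine if_congr (and_congr_left fun _ => ?_) rfl rfl
    rw [add_le_add_iff_left, add_le_add_iff_left, max_le_iff]
    exact ⟨fun h => ⟨h, h2⟩, fun h => h.1⟩
  · have h2 : (l : ℝ) / P < n / P :=
      div_lt_div_of_pos_right (by exact_mod_cast Finset.mem_range.1 hl) hP0
    have e1 : s - ((-(l : ℤ) : ℤ) : ℝ) / P = s + l / P := by push_cast; ring
    rw [e1]
    unfold cut
    have h3 : ¬ (s + max u ((n : ℝ) / P) ≤ s + l / P ∧ s + l / P < Y) := fun h => by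
      linarith [h.1, le_max_right u ((n : ℝ) / P)]
    rw [if_neg h3, mul_zero, sub_zero]
    by_cases h4 : u ≤ (l : ℝ) / P
    · rw [if_pos h4, if_pos ⟨by linarith, by linarith⟩]
    · rw [if_neg h4, if_neg fun h => h4 (by linarith [h.1]), mul_zero]

lemma shfan_cont (S : Finset ℕ) (e : ℕ → ℤ → ℂ) (T : ℝ) {r : ℝ → ℝ} (Lp : ℕ → ℕ) {u₀ s : ℝ}
    (hr : ∀ v < u₀, r v = 0) (hs : 0 < s + u₀) : ContinuousAt (fanG S e T r Lp) s := by
  unfold fanG
  refine tendsto_finsetSum _ fun P _ => (continuousAt_const.mul ?_).tendsto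
  refine tendsto_finsetSum _ fun l _ => ?_
  by_cases h : (l : ℝ) / P < u₀
  · simp only [hr _ h, Complex.ofReal_zero, zero_mul]
    exact tendsto_const_nhds
  · exact (continuousAt_const.mul (kb_cont_add _ (by linarith [not_lt.1 h]))).tendsto

lemma shfan_ind (ω : ℝ → ℝ) {a b : ℝ} (hab : a ≤ b) (v : ℝ) :
    ∫ u in a..b, (if u ≤ v then ω u else 0) = ∫ u in a..max a (min v b), ω u := by
  have h := intervalIntegral.integral_indicator (μ := volume) (f := ω) (a₁ := a)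
    (a₂ := max a (min v b)) (a₃ := b) ⟨le_max_left _ _, max_le hab (min_le_right _ _)⟩
  rw [← h]
  refine intervalIntegral.integral_congr_ae (Eventually.of_forall fun u hu => ?_)
  rw [uIoc_of_le hab] at hu
  rw [Set.indicator_apply]
  refine if_congr ?_ rfl rfl
  simp only [mem_ofPred_eq, le_max_iff, le_min_iff]
  exact ⟨fun h => Or.inr ⟨h, hu.2⟩, fun h => h.elim (fun h => absurd hu.1 (not_lt.2 h)) And.left⟩

lemma shfan_rA (v : ℝ) : rA v = ∫ u in (1 : ℝ)..2, (if u ≤ v then (1 : ℝ) else 0) := by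
  rw [shfan_ind (fun _ => 1) (by norm_num)]
  simp only [intervalIntegral.integral_const, smul_eq_mul, mul_one, rA]
  simp only [max_def, min_def]
  split_ifs <;> linarith

lemma shfan_rB (v : ℝ) :
    rB v = ∫ u in (3 / 4 : ℝ)..1, (if u ≤ v then 2 / (2 * u - 1) ^ 2 else 0) := by
  rw [shfan_ind (fun u => 2 / (2 * u - 1) ^ 2) (by norm_num)]
  have key : ∀ b : ℝ, 3 / 4 ≤ b → ∫ u in (3 / 4 : ℝ)..b, 2 / (2 * u - 1) ^ 2 = 2 - 1 / (2 * b - 1) := by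
    intro b hb
    have hd : ∀ u ∈ uIcc (3 / 4 : ℝ) b, HasDerivAt (fun u : ℝ => -(2 * u - 1)⁻¹) (2 / (2 * u - 1) ^ 2) u := by
      intro u hu
      rw [uIcc_of_le hb] at hu
      have h1 : HasDerivAt (fun u : ℝ => 2 * u - 1) 2 u := by
        simpa using ((hasDerivAt_id u).const_mul 2).sub_const 1
      have h2 := (h1.inv (by linarith [hu.1] : 2 * u - 1 ≠ 0)).neg
      exact h2.congr_deriv (by ring)
    rw [intervalIntegral.integral_eq_sub_of_hasDerivAt hd]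
    · norm_num; ring
    · refine ContinuousOn.intervalIntegrable ?_
      rw [uIcc_of_le hb]
      exact continuousOn_const.div (by fun_prop) fun u hu =>
        pow_ne_zero _ (by linarith [hu.1] : 2 * u - 1 ≠ 0)
  rw [key _ (le_max_left _ _)]
  unfold rB
  split_ifs with h
  · rw [max_eq_left (min_le_of_left_le h)]; norm_num
  · have h1 : 3 / 4 < v := not_le.1 h
    rcases le_total v 1 with h2 | h2
    · rw [min_eq_left h2, max_eq_right h1.le, min_eq_right]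
      have : 1 ≤ 1 / (2 * v - 1) := by rw [le_div_iff₀ (by linarith)]; linarith
      linarith
    · rw [min_eq_right h2, max_eq_right (by norm_num), min_eq_left]
      · norm_num
      · have : 1 / (2 * v - 1) ≤ 1 := by rw [div_le_iff₀ (by linarith)]; linarith
        linarith

lemma shfan_core : ∃ C : ℝ, 0 < C ∧ ∀ (S : Finset ℕ) (e : ℕ → ℤ → ℂ) (W : ℕ → ℤ → ℝ) (Lp : ℕ → ℕ)
    (r ω : ℝ → ℝ) (T κ y₀ s₀ u₀ u₁ w E τ : ℝ), (∀ P ∈ S, 0 < P ∧ TwW (e P) P κ (W P)) → 0 < T →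
    0 < y₀ → y₀ ≤ s₀ + u₀ → 0 < u₀ → u₀ ≤ u₁ → u₁ ≤ u₀ + 1 → Measurable ω →
    (∀ u ∈ Icc u₀ u₁, |ω u| ≤ w) → (∀ v, r v = ∫ u in u₀..u₁, (if u ≤ v then ω u else 0)) →
    (∀ v < u₀, r v = 0) → (∀ t : Finset ℤ, ∑ m ∈ t, eb S W T κ y₀ m ^ 2 ≤ E) →
    (∀ s ∈ Icc s₀ (s₀ + 1), ∀ u ∈ Icc u₀ u₁, ∀ Y : ℝ, ‖∑ P ∈ S, (((P : ℝ) ^ (-3 / 2 : ℝ) : ℝ) : ℂ) *
      comb (e P) P (T / P ^ 2) (s + max u (Lp P / P)) Y s‖ ≤ τ) →
      ∫ s in s₀..s₀ + 1, ‖fanG S e T r Lp s‖ ^ 2 ≤ w ^ 2 * (C * E + 2 * τ ^ 2) := by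
  obtain ⟨C, hC, hL2⟩ := comb_L2
  refine ⟨4 * C, by positivity, fun S e W Lp r ω T κ y₀ s₀ u₀ u₁ w E τ hS hT hy₀ hy hu₀ h0 h1 hω hw
    hr hr0 hE hτ => ?_⟩
  set Y : ℝ := s₀ + 1 + u₁ + ∑ P ∈ S, (Lp P : ℝ) / P with hY
  have hsum : 0 ≤ ∑ P ∈ S, (Lp P : ℝ) / P := Finset.sum_nonneg fun P _ => by positivity
  set F : ℝ → ℝ → ℂ := fun s y => ∑ P ∈ S, (((P : ℝ) ^ (-3 / 2 : ℝ) : ℝ) : ℂ) *
    comb (e P) P (T / P ^ 2) y Y s with hF
  have mF : Measurable fun p : ℝ × ℝ => F p.1 p.2 :=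
    Finset.measurable_sum _ fun P hP => (measurable_comb _ (hS P hP).1 _ _).const_mul _
  have hb : ∀ P : ℕ, ∃ M : ℝ, P ∈ S → ∀ y s : ℝ, y₀ ≤ y → ‖comb (e P) P (T / P ^ 2) y Y s‖ ≤ M := by
    intro P
    by_cases hP : P ∈ S
    · obtain ⟨M, hM⟩ := comb_bdd (hS P hP).1 (hS P hP).2.per (T / P ^ 2) Y hy₀
      exact ⟨M, fun _ => hM⟩
    · exact ⟨0, fun h => absurd h hP⟩
  choose M hM using hb
  have bF : ∀ s y, s₀ + u₀ ≤ y → ‖F s y‖ ≤ ∑ P ∈ S, ‖(((P : ℝ) ^ (-3 / 2 : ℝ) : ℝ) : ℂ)‖ * M P := by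
    intro s y h
    refine (norm_sum_le _ _).trans (Finset.sum_le_sum fun P hP => ?_)
    rw [norm_mul]
    exact mul_le_mul_of_nonneg_left (hM P hP y s (hy.trans h)) (norm_nonneg _)
  obtain ⟨iA, hA⟩ := avg_le mF hω h0 h1 hw bF (E := C * E) fun y h2 h3 =>
    hL2 S e W T κ y₀ y Y s₀ E hS hT hy₀ (hy.trans h2) (by linarith) hE
  have hw0 : 0 ≤ w := (abs_nonneg _).trans (hw u₀ ⟨le_rfl, h0⟩)
  have hle : s₀ ≤ s₀ + 1 := by linarith
  have pt : ∀ s ∈ Icc s₀ (s₀ + 1), ‖fanG S e T r Lp s‖ ^ 2 ≤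
      2 * ‖∫ u in u₀..u₁, (ω u : ℂ) * F s (s + u)‖ ^ 2 + 2 * (w * τ) ^ 2 := by
    intro s hs
    have hτ0 : 0 ≤ τ := (norm_nonneg _).trans (hτ s hs u₀ ⟨le_rfl, h0⟩ 0)
    have i1 : ∀ v : ℝ, ∀ c : ℂ, IntervalIntegrable
        (fun u => (((if u ≤ v then ω u else 0 : ℝ)) : ℂ) * c) volume u₀ u₁ := by
      intro v c
      refine IntervalIntegrable.mul_const (shfan_ii (M := w) ?_ h0 fun u hu => ?_) c
      · exact Complex.measurable_ofReal.comp (Measurable.ite measurableSet_Iic hω measurable_const)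
      · rw [Complex.norm_real, Real.norm_eq_abs]
        split_ifs
        · exact hw u hu
        · simpa using hw0
    have i2 : IntervalIntegrable (fun u => (ω u : ℂ) * F s (s + u)) volume u₀ u₁ := by
      refine shfan_ii (M := w * ∑ P ∈ S, ‖(((P : ℝ) ^ (-3 / 2 : ℝ) : ℝ) : ℂ)‖ * M P) ?_ h0
        fun u hu => ?_
      · exact (Complex.measurable_ofReal.comp hω).mul
          (mF.comp (f := fun u : ℝ => (s, s + u)) (by fun_prop))
      · rw [norm_mul, Complex.norm_real, Real.norm_eq_abs]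
        exact mul_le_mul (hw u hu) (bF _ _ (by linarith [hs.1, hu.1])) (norm_nonneg _) hw0
    set G : ℝ → ℂ := fun u => ∑ P ∈ S, ∑ l ∈ Finset.range (Lp P),
      (((if u ≤ (l : ℝ) / P then ω u else 0 : ℝ)) : ℂ) * ((((P : ℝ) ^ (-3 / 2 : ℝ) : ℝ) : ℂ) *
        (e P (-l) * kk (T / P ^ 2) (s + l / P))) with hG
    have i3 : ∀ P ∈ S, IntervalIntegrable (fun u => ∑ l ∈ Finset.range (Lp P),
        (((if u ≤ (l : ℝ) / P then ω u else 0 : ℝ)) : ℂ) * ((((P : ℝ) ^ (-3 / 2 : ℝ) : ℝ) : ℂ) *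
        (e P (-l) * kk (T / P ^ 2) (s + l / P)))) volume u₀ u₁ := fun P _ => by
      have := IntervalIntegrable.sum (Finset.range (Lp P)) fun l _ => i1 ((l : ℝ) / P)
        ((((P : ℝ) ^ (-3 / 2 : ℝ) : ℝ) : ℂ) * (e P (-l) * kk (T / P ^ 2) (s + l / P)))
      rwa [Finset.sum_fn] at this
    have i4 : IntervalIntegrable G volume u₀ u₁ := by
      have := IntervalIntegrable.sum S i3
      rwa [Finset.sum_fn] at this
    have e1 : fanG S e T r Lp s = ∫ u in u₀..u₁, G u := by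
      rw [hG, intervalIntegral.integral_finsetSum i3, fanG]
      refine Finset.sum_congr rfl fun P _ => ?_
      rw [intervalIntegral.integral_finsetSum fun l _ => i1 _ _, Finset.mul_sum]
      refine Finset.sum_congr rfl fun l _ => ?_
      rw [intervalIntegral.integral_mul_const, intervalIntegral.integral_ofReal, ← hr]
      ring
    have e2 : ∀ u ∈ uIoc u₀ u₁, ‖G u - (ω u : ℂ) * F s (s + u)‖ ≤ w * τ := by
      intro u hu
      rw [uIoc_of_le h0] at hu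
      have hu' : u ∈ Icc u₀ u₁ := ⟨hu.1.le, hu.2⟩
      have e3 : G u - (ω u : ℂ) * F s (s + u) = -((ω u : ℂ) * ∑ P ∈ S,
          (((P : ℝ) ^ (-3 / 2 : ℝ) : ℝ) : ℂ) *
          comb (e P) P (T / P ^ 2) (s + max u (Lp P / P)) Y s) := by
        rw [sub_eq_iff_eq_add, neg_add_eq_sub, ← mul_sub, hF, ← Finset.sum_sub_distrib, hG,
          Finset.mul_sum]
        refine Finset.sum_congr rfl fun P hP => ?_
        have h5 : (Lp P : ℝ) / P ≤ ∑ P ∈ S, (Lp P : ℝ) / P :=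
          Finset.single_le_sum (f := fun P : ℕ => (Lp P : ℝ) / P) (fun P _ => by positivity) hP
        rw [← mul_sub, shfan_diff (e P) (hS P hP).1 _ (Lp P) (hu₀.trans hu.1)
          (by linarith [hs.2]), Finset.mul_sum, Finset.mul_sum]
        refine Finset.sum_congr rfl fun l _ => ?_
        split_ifs <;> simp
      rw [e3, norm_neg, norm_mul, Complex.norm_real, Real.norm_eq_abs]
      exact mul_le_mul (hw u hu') (hτ s hs u hu' Y) (norm_nonneg _) hw0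
    have e4 := intervalIntegral.norm_integral_le_of_norm_le_const e2
    rw [intervalIntegral.integral_sub i4 i2, ← e1, abs_of_nonneg (by linarith)] at e4
    have e5 : ‖fanG S e T r Lp s - ∫ u in u₀..u₁, (ω u : ℂ) * F s (s + u)‖ ≤ w * τ :=
      e4.trans (mul_le_of_le_one_right (by positivity) (by linarith))
    have e6 := kb_sq_add (∫ u in u₀..u₁, (ω u : ℂ) * F s (s + u))
      (fanG S e T r Lp s - ∫ u in u₀..u₁, (ω u : ℂ) * F s (s + u))
    rw [add_sub_cancel] at e6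
    have e7 := pow_le_pow_left₀ (norm_nonneg _) e5 2
    linarith
  have iG : IntervalIntegrable (fun s => ‖fanG S e T r Lp s‖ ^ 2) volume s₀ (s₀ + 1) := by
    refine ContinuousOn.intervalIntegrable ?_
    rw [uIcc_of_le hle]
    exact fun s hs => ((shfan_cont S e T Lp hr0 (by linarith [hs.1])).norm.pow 2).continuousWithinAt
  have h2 := intervalIntegral.integral_mono_on hle iG
    ((iA.const_mul 2).add intervalIntegrable_const) pt
  rw [intervalIntegral.integral_add (iA.const_mul 2) intervalIntegrable_const,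
    intervalIntegral.integral_const_mul, intervalIntegral.integral_const] at h2
  simp only [add_sub_cancel_left, smul_eq_mul, one_mul] at h2
  nlinarith

lemma shfan_root {T : ℝ} (hT : 0 ≤ T) : √(√T) ^ 4 = T := by
  rw [show 4 = 2 * 2 from rfl, pow_mul, Real.sq_sqrt (Real.sqrt_nonneg _), Real.sq_sqrt hT]

lemma shfan_q {T t P : ℝ} (hT : 0 < T) (ht : 0 < t) (hP : 0 < P) (h : T / P ^ 2 ≤ 81 * t) :
    t ^ (-1 / 4 : ℝ) ≤ 3 * (√P / √(√T)) := by
  refine le_of_pow_le_pow_left₀ (n := 4) (by norm_num) (by positivity) ?_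
  rw [← Real.rpow_natCast, ← Real.rpow_mul ht.le, mul_pow, div_pow, shfan_root hT.le,
    show 4 = 2 * 2 from rfl, pow_mul √P, Real.sq_sqrt hP.le,
    show (-1 / 4 : ℝ) * ((2 * 2 : ℕ) : ℝ) = -1 by norm_num, Real.rpow_neg_one]
  rw [div_le_iff₀ (by positivity)] at h
  rw [← mul_div_assoc, le_div_iff₀ hT, inv_mul_le_iff₀ ht]
  norm_num
  linarith

lemma shfan_theta {W : ℕ → ℤ → ℝ} {L : ℕ} {Θ : ℝ} (h : GoodW W L Θ) : 0 ≤ Θ := by
  obtain ⟨lam, h1, _, h2, _⟩ := h.ex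
  exact (h1 0 0).trans (h2 0 0 (by omega))

lemma shfan_pvw {W : ℤ → ℝ} (h : ∀ m, 0 ≤ W m) (P : ℕ) : 0 ≤ pvw W P :=
  Finset.sum_nonneg fun m _ => div_nonneg (h m) (by positivity)

lemma shfan_sum : ∃ C : ℝ, 0 < C ∧ ∀ (W : ℕ → ℤ → ℝ) (L : ℕ) (Θ T a : ℝ) (S : Finset ℕ) (f : ℕ → ℂ),
    GoodW W L Θ → S ⊆ Finset.Icc 1 (2 ^ L) → 4 ^ L ≤ 64 * T → 0 ≤ a →
    (∀ P ∈ S, ‖f P‖ ≤ a * (√P * pvw (W P) P * (√P / √(√T)))) →
      ‖∑ P ∈ S, (((P : ℝ) ^ (-3 / 2 : ℝ) : ℝ) : ℂ) * f P‖ ≤ C * a * √Θ := by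
  obtain ⟨C, hC, h⟩ := pvw_sum
  refine ⟨3 * C, by positivity, fun W L Θ T a S f hW hS hT ha hf => ?_⟩
  have hT0 : 0 < T := by linarith [pow_pos (show (0 : ℝ) < 4 by norm_num) L]
  have hR : 0 < √(√T) := Real.sqrt_pos.2 (Real.sqrt_pos.2 hT0)
  have h1 := h W L Θ hW (2 ^ L) (Nat.pow_le_pow_right (by norm_num) (by omega))
  have h2 : √((2 ^ L : ℕ) : ℝ) ≤ 3 * √(√T) := by
    refine le_of_pow_le_pow_left₀ (n := 4) (by norm_num) (by positivity) ?_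
    rw [mul_pow, shfan_root hT0.le, show 4 = 2 * 2 from rfl, pow_mul,
      Real.sq_sqrt (Nat.cast_nonneg _)]
    push_cast
    rw [← pow_mul, mul_comm L 2, pow_mul]
    norm_num
    linarith
  calc _ ≤ ∑ P ∈ S, a / √(√T) * (pvw (W P) P / √P) := by
        refine (norm_sum_le _ _).trans (Finset.sum_le_sum fun P hP => ?_)
        have hP0 : (0 : ℝ) < P := by exact_mod_cast (Finset.mem_Icc.1 (hS hP)).1
        have hs := Real.sqrt_pos.2 hP0
        rw [norm_mul, Complex.norm_real, Real.norm_of_nonneg (Real.rpow_nonneg hP0.le _)]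
        refine (mul_le_mul_of_nonneg_left (hf P hP) (Real.rpow_nonneg hP0.le _)).trans (le_of_eq ?_)
        have e1 : (P : ℝ) ^ (-3 / 2 : ℝ) = (√P * √P)⁻¹ / √P := by
          rw [Real.mul_self_sqrt hP0.le, ← shfan_pow hP0]; field_simp
        rw [e1]
        field_simp
    _ ≤ a / √(√T) * ∑ P ∈ Finset.Icc 1 (2 ^ L), pvw (W P) P / √P := by
        rw [← Finset.mul_sum]
        refine mul_le_mul_of_nonneg_left (Finset.sum_le_sum_of_subset_of_nonneg hS fun P _ _ =>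
          div_nonneg (shfan_pvw (hW.nonneg P) P) (Real.sqrt_nonneg _)) (by positivity)
    _ ≤ a / √(√T) * (C * (3 * √(√T)) * √Θ) := by
        refine mul_le_mul_of_nonneg_left (h1.trans ?_) (by positivity)
        gcongr
    _ = _ := by field_simp

lemma shfan_fib {E : ℕ → ℝ} (hE : ∀ J, 0 ≤ E J) (N : ℕ) :
    ∑ j ∈ Finset.range N, ((j : ℝ) + 5 / 2) * E (Nat.log 2 (j + 1)) ≤
      6 * ∑ J ∈ Finset.range (N + 1), 4 ^ J * E J := by
  rw [← Finset.sum_fiberwise_of_maps_to (s := Finset.range N) (t := Finset.range (N + 1))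
    (g := fun j => Nat.log 2 (j + 1)) fun j hj => Finset.mem_range.2
      (lt_of_le_of_lt (Nat.log_le_self 2 _) (Nat.succ_lt_succ (Finset.mem_range.1 hj))),
    Finset.mul_sum]
  refine Finset.sum_le_sum fun J _ => ?_
  have hlt : ∀ j ∈ (Finset.range N).filter fun j => Nat.log 2 (j + 1) = J, j + 1 < 2 ^ (J + 1) := by
    intro j hj
    have := Nat.lt_pow_succ_log_self (b := 2) (by norm_num) (j + 1)
    rwa [(Finset.mem_filter.1 hj).2] at this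
  have h1 : (1 : ℝ) ≤ 2 ^ J := one_le_pow₀ (by norm_num)
  have hc : (((Finset.range N).filter fun j => Nat.log 2 (j + 1) = J).card : ℝ) ≤ 2 * 2 ^ J := by
    have := Finset.card_le_card (t := Finset.range (2 ^ (J + 1))) fun j hj =>
      Finset.mem_range.2 (by have := hlt j hj; omega)
    rw [Finset.card_range, pow_succ, mul_comm] at this
    exact_mod_cast this
  refine (Finset.sum_le_card_nsmul _ _ (3 * 2 ^ J * E J) fun j hj => ?_).trans ?_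
  · rw [(Finset.mem_filter.1 hj).2]
    refine mul_le_mul_of_nonneg_right ?_ (hE J)
    have h2 : ((j + 2 : ℕ) : ℝ) ≤ ((2 ^ (J + 1) : ℕ) : ℝ) := by exact_mod_cast hlt j hj
    push_cast at h2
    rw [pow_succ] at h2
    linarith
  · rw [nsmul_eq_mul, show (4 : ℝ) ^ J = 2 ^ J * 2 ^ J by rw [← mul_pow]; norm_num]
    have := hE J
    calc _ ≤ 2 * 2 ^ J * (3 * 2 ^ J * E J) := by gcongr
      _ = _ := by ring

theorem fanA : ∃ C : ℝ, 0 < C ∧ ∀ (W : ℕ → ℤ → ℝ) (L : ℕ) (Θ T : ℝ) (S : Finset ℕ) (e : ℕ → ℤ → ℂ)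
    (Lp : ℕ → ℕ), GoodW W L Θ → S ⊆ Finset.Icc 1 (2 ^ L) → T ≤ 4 ^ L → 4 ^ L ≤ 64 * T →
    (∀ P ∈ S, TwW (e P) P (3 / 8) (W P)) → (∀ P ∈ S, T / P ^ 2 ≤ 2 * (Lp P / P) + 1) →
      IntegrableOn (fun s : ℝ => ‖fanG S e T rA Lp s‖ ^ 2 * (1 + s)) (Ioi (1 / 2)) ∧
        ∫ s in Ioi (1 / 2 : ℝ), ‖fanG S e T rA Lp s‖ ^ 2 * (1 + s) ≤ C * Θ := by
  obtain ⟨C₁, hC₁, h₁⟩ := shfan_core
  obtain ⟨C₂, hC₂, h₂⟩ := core_sum
  obtain ⟨C₃, hC₃, h₃⟩ := shfan_sum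
  obtain ⟨C₄, hC₄, h₄⟩ := comb_tail
  obtain ⟨C₅, hC₅, h₅⟩ := pvw_long
  have hK : Summable fun j : ℕ => 1 / |(j : ℝ) + 1 / 2| ^ (3 / 2 : ℝ) :=
    (Real.summable_one_div_nat_add_rpow _ _).2 (by norm_num)
  set K : ℝ := ∑' j : ℕ, 1 / |(j : ℝ) + 1 / 2| ^ (3 / 2 : ℝ) with hKd
  have hK0 : 0 ≤ K := tsum_nonneg fun j => by positivity
  refine ⟨6 * C₁ * C₂ + 10 * (C₃ * (12 * C₄ * C₅)) ^ 2 * K, by positivity,
    fun W L Θ T S e Lp hW hS hT1 hT2 he hL => ?_⟩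
  have hT0 : 0 < T := by linarith [pow_pos (show (0 : ℝ) < 4 by norm_num) L]
  have hΘ := shfan_theta hW
  have hP : ∀ P ∈ S, 0 < P := fun P hP => (Finset.mem_Icc.1 (hS hP)).1
  have hr0 : ∀ v < (1 : ℝ), rA v = 0 := fun v hv => by
    rw [rA, max_eq_left (by linarith), min_eq_right (by norm_num)]
  have hκ : ∀ m : ℤ, 1 / 4 ≤ |(m : ℝ) + 3 / 8| := by
    intro m
    rcases le_or_gt 0 m with h | h
    · have : (0 : ℝ) ≤ m := by exact_mod_cast h
      exact le_abs.2 (Or.inl (by linarith))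
    · have : (m : ℝ) ≤ -1 := by exact_mod_cast (show m ≤ -1 by omega)
      exact le_abs.2 (Or.inr (by linarith))
  have hc := fun t J₀ => h₂ W L Θ T (3 / 8) S hW hS hT1 hT2
    (by rw [abs_of_pos] <;> norm_num) t (fun m _ => hκ m) J₀
  have hsm : ∀ J : ℕ, Summable fun m : ℤ => eb S W T (3 / 8) (2 ^ J / 4) m ^ 2 := by
    intro J
    refine summable_of_sum_le (c := C₂ * Θ) (fun m => sq_nonneg _) fun t => ?_
    have h4 : (1 : ℝ) ≤ 4 ^ J := one_le_pow₀ (by norm_num)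
    have h5 : 0 ≤ ∑ m ∈ t, eb S W T (3 / 8) (2 ^ J / 4) m ^ 2 :=
      Finset.sum_nonneg fun m _ => sq_nonneg _
    refine le_trans (le_trans (le_mul_of_one_le_left h5 h4) ?_) (hc t (J + 1))
    exact Finset.single_le_sum (f := fun J : ℕ => (4 : ℝ) ^ J *
      ∑ m ∈ t, eb S W T (3 / 8) (2 ^ J / 4) m ^ 2)
      (fun J _ => mul_nonneg (by positivity) (Finset.sum_nonneg fun m _ => sq_nonneg _))
      (Finset.self_mem_range_succ J)
  set E : ℕ → ℝ := fun J => ∑' m : ℤ, eb S W T (3 / 8) (2 ^ J / 4) m ^ 2 with hE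
  have hE0 : ∀ J, 0 ≤ E J := fun J => tsum_nonneg fun m => sq_nonneg _
  have hE1 : ∀ N, ∑ J ∈ Finset.range N, 4 ^ J * E J ≤ C₂ * Θ := by
    intro N
    refine hasSum_le_of_sum_le (hasSum_sum fun J _ => (hsm J).hasSum.mul_left (4 ^ J)) fun t => ?_
    rw [Finset.sum_comm]
    simpa only [Finset.mul_sum] using hc t N
  have hcont : ∀ s : ℝ, 1 / 2 ≤ s → ContinuousAt (fun s => ‖fanG S e T rA Lp s‖ ^ 2) s :=
    fun s hs => (shfan_cont S e T Lp hr0 (by linarith)).norm.pow 2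
  have hj : ∀ j : ℕ, ∫ s in ((j : ℝ) + 1 / 2)..((j : ℝ) + 1 / 2 + 1),
      ‖fanG S e T rA Lp s‖ ^ 2 * (1 + s) ≤ C₁ * ((j + 5 / 2) * E (Nat.log 2 (j + 1))) +
        10 * (C₃ * (12 * C₄ * C₅)) ^ 2 * Θ * (1 / |(j : ℝ) + 1 / 2| ^ (3 / 2 : ℝ)) := by
    intro j
    have hj0 : (0 : ℝ) ≤ j := Nat.cast_nonneg j
    have hx : (0 : ℝ) < j + 1 / 2 := by positivity
    have hy : (2 : ℝ) ^ Nat.log 2 (j + 1) ≤ j + 1 := by
      exact_mod_cast Nat.pow_log_le_self 2 (Nat.succ_ne_zero j)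
    have h6 := h₁ S e W Lp rA (fun _ => 1) T (3 / 8) (2 ^ Nat.log 2 (j + 1) / 4) (j + 1 / 2) 1 2 1
      (E (Nat.log 2 (j + 1))) (C₃ * (12 * C₄ * C₅ * ((j : ℝ) + 1 / 2) ^ (-5 / 4 : ℝ)) * √Θ)
      (fun P h => ⟨hP P h, he P h⟩) hT0 (by positivity) (by linarith) one_pos (by norm_num)
      (by norm_num) measurable_const (fun u _ => by simp) shfan_rA hr0
      (fun t => (hsm _).sum_le_tsum t fun m _ => sq_nonneg _) (fun s hs u hu Y => ?_)
    · have hle : (j : ℝ) + 1 / 2 ≤ j + 1 / 2 + 1 := by linarith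
      have co : ContinuousOn (fun s => ‖fanG S e T rA Lp s‖ ^ 2)
          (uIcc ((j : ℝ) + 1 / 2) (j + 1 / 2 + 1)) := by
        rw [uIcc_of_le hle]
        exact fun s hs => (hcont s (by linarith [hs.1])).continuousWithinAt
      have h7 := intervalIntegral.integral_mono_on (μ := volume) hle
        (co.mul (g := fun s => 1 + s) (by fun_prop)).intervalIntegrable
        (co.intervalIntegrable.const_mul (j + 5 / 2)) fun s hs => by
          rw [mul_comm]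
          exact mul_le_mul_of_nonneg_right (by linarith [hs.2]) (sq_nonneg _)
      rw [intervalIntegral.integral_const_mul] at h7
      refine h7.trans ((mul_le_mul_of_nonneg_left h6 (by positivity)).trans ?_)
      have e1 : ((j : ℝ) + 1 / 2) * (((j : ℝ) + 1 / 2) ^ (-5 / 4 : ℝ)) ^ 2 =
          1 / |(j : ℝ) + 1 / 2| ^ (3 / 2 : ℝ) := by
        rw [abs_of_pos hx, one_div (_ ^ _), ← Real.rpow_neg hx.le, ← Real.rpow_natCast,
          ← Real.rpow_mul hx.le, ← Real.rpow_one_add' hx.le (by norm_num)]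
        norm_num
      rw [← e1, mul_pow, mul_pow C₃, mul_pow (12 * C₄ * C₅), Real.sq_sqrt hΘ, mul_pow C₃]
      have h8 : 0 ≤ C₃ ^ 2 * (12 * C₄ * C₅) ^ 2 * Θ * (((j : ℝ) + 1 / 2) ^ (-5 / 4 : ℝ)) ^ 2 := by
        positivity
      nlinarith [mul_nonneg hj0 h8]
    · refine h₃ W L Θ T _ S _ hW hS hT2 (by positivity) fun P hPS => ?_
      have hP0 : (0 : ℝ) < P := by exact_mod_cast hP P hPS
      have h8 := le_max_left u ((Lp P : ℝ) / P)
      have h9 := le_max_right u ((Lp P : ℝ) / P)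
      set t₀ : ℝ := s + max u ((Lp P : ℝ) / P) with ht₀
      have h10 : (j : ℝ) + 1 / 2 ≤ t₀ := by linarith [hs.1, hu.1]
      have h11 : 0 < t₀ := hx.trans_le h10
      have h12 : T / (P : ℝ) ^ 2 ≤ 3 * t₀ := by linarith [hL P hPS, hs.1, hu.1]
      refine (h₄ (e P) P _ (T / P ^ 2) t₀ Y s (hP P hPS) (by positivity) h11
        (h₅ (e P) P (W P) (hP P hPS) (he P hPS))).trans ?_
      have h13 : 1 + T / (P : ℝ) ^ 2 / t₀ ≤ 4 := by
        have : T / (P : ℝ) ^ 2 / t₀ ≤ 3 := by rwa [div_le_iff₀ h11]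
        linarith
      have h14 : t₀ ^ (-3 / 2 : ℝ) ≤ ((j : ℝ) + 1 / 2) ^ (-5 / 4 : ℝ) * (3 * (√P / √(√T))) := by
        rw [show (-3 / 2 : ℝ) = -5 / 4 + -1 / 4 by norm_num, Real.rpow_add h11]
        exact mul_le_mul (Real.rpow_le_rpow_of_nonpos hx h10 (by norm_num))
          (shfan_q hT0 h11 hP0 (by linarith)) (by positivity) (by positivity)
      have h15 := shfan_pvw (hW.nonneg P) P
      calc _ ≤ C₄ * (C₅ * √P * pvw (W P) P) *
            (((j : ℝ) + 1 / 2) ^ (-5 / 4 : ℝ) * (3 * (√P / √(√T))) * 4) := by gcongr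
        _ = _ := by ring
  refine kb_Ioi (fun s hs => (hcont s hs).mul (by fun_prop))
    (fun s hs => mul_nonneg (sq_nonneg _) (by linarith)) fun N => ?_
  refine (Finset.sum_le_sum fun j _ => hj j).trans ?_
  rw [Finset.sum_add_distrib, ← Finset.mul_sum, ← Finset.mul_sum]
  have h7 := (shfan_fib hE0 N).trans (mul_le_mul_of_nonneg_left (hE1 (N + 1)) (by norm_num))
  have h8 : ∑ j ∈ Finset.range N, 1 / |(j : ℝ) + 1 / 2| ^ (3 / 2 : ℝ) ≤ K :=
    hK.sum_le_tsum _ fun j _ => by positivity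
  calc _ ≤ C₁ * (6 * (C₂ * Θ)) + 10 * (C₃ * (12 * C₄ * C₅)) ^ 2 * Θ * K := by gcongr
    _ = _ := by ring

theorem fanB : ∃ C : ℝ, 0 < C ∧ ∀ (W : ℕ → ℤ → ℝ) (L : ℕ) (Θ T : ℝ) (S : Finset ℕ) (e : ℕ → ℤ → ℂ)
    (Lp : ℕ → ℕ), GoodW W L Θ → S ⊆ Finset.Icc 1 (2 ^ L) → T ≤ 4 ^ L → 4 ^ L ≤ 64 * T →
    (∀ P ∈ S, TwW (e P) P 0 (W P)) → (∀ P ∈ S, T / P ^ 2 ≤ 2 * (Lp P / P) ^ 2) →
      ContinuousOn (fanG S e T rB Lp) (Icc (-1 / 2) (1 / 2)) ∧
        ∫ s in (-1 / 2 : ℝ)..(1 / 2), ‖fanG S e T rB Lp s‖ ^ 2 ≤ C * Θ := by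
  classical
  obtain ⟨C₁, hC₁, h₁⟩ := shfan_core
  obtain ⟨C₂, hC₂, h₂⟩ := core_sum
  obtain ⟨C₃, hC₃, h₃⟩ := shfan_sum
  obtain ⟨C₄, hC₄, h₄⟩ := comb_tail_zero
  obtain ⟨C₅, hC₅, h₅⟩ := pvw_short
  refine ⟨8 ^ 2 * (C₁ * (C₂ + 64) + 2 * (C₃ * (69 * C₄ * C₅)) ^ 2), by positivity,
    fun W L Θ T S e Lp hW hS hT1 hT2 he hL => ?_⟩
  have hT0 : 0 < T := by linarith [pow_pos (show (0 : ℝ) < 4 by norm_num) L]
  have hΘ := shfan_theta hW
  have hP : ∀ P ∈ S, 0 < P := fun P hP => (Finset.mem_Icc.1 (hS hP)).1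
  have hr0 : ∀ v < (3 / 4 : ℝ), rB v = 0 := fun v hv => if_pos hv.le
  refine ⟨fun s hs => (shfan_cont S e T Lp hr0 (by linarith [hs.1])).continuousWithinAt, ?_⟩
  have h6 := h₁ S e W Lp rB (fun u => 2 / (2 * u - 1) ^ 2) T 0 (1 / 4) (-1 / 2) (3 / 4) 1 8
    ((C₂ + 64) * Θ) (C₃ * (69 * C₄ * C₅) * √Θ)
    (fun P h => ⟨hP P h, he P h⟩) hT0 (by norm_num) (by norm_num) (by norm_num) (by norm_num)
    (by norm_num) (by fun_prop) (fun u hu => ?_) shfan_rB hr0 (fun t => ?_) (fun s hs u hu Y => ?_)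
  · rw [show (-1 / 2 : ℝ) + 1 = 1 / 2 by norm_num, mul_pow, Real.sq_sqrt hΘ] at h6
    exact h6.trans (le_of_eq (by ring))
  · rw [abs_of_nonneg (by positivity), div_le_iff₀ (pow_pos (by linarith [hu.1]) 2)]
    nlinarith [hu.1]
  · have h7 := h₂ W L Θ T 0 S hW hS hT1 hT2 (by norm_num) (t.erase 0) (fun m hm => by
      have h8 : (1 : ℝ) ≤ |(m : ℝ)| := by
        exact_mod_cast Int.one_le_abs (Finset.ne_of_mem_erase hm)
      rw [add_zero]; linarith) 1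
    simp only [Finset.range_one, Finset.sum_singleton, pow_zero, one_mul] at h7
    have h8 := eb_zero hW hS hT2 (1 / 4)
    have h9 : ∑ m ∈ t, eb S W T 0 (1 / 4) m ^ 2 ≤ ∑ m ∈ insert 0 (t.erase 0), eb S W T 0 (1 / 4) m ^ 2 :=
      Finset.sum_le_sum_of_subset_of_nonneg (Finset.subset_insert_iff.2 subset_rfl)
        fun m _ _ => sq_nonneg _
    rw [Finset.sum_insert (Finset.notMem_erase 0 t)] at h9
    linarith
  · refine h₃ W L Θ T _ S _ hW hS hT2 (by positivity) fun P hPS => ?_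
    have hP0 : (0 : ℝ) < P := by exact_mod_cast hP P hPS
    have h8 := le_max_left u ((Lp P : ℝ) / P)
    have h9 := le_max_right u ((Lp P : ℝ) / P)
    set t₀ : ℝ := s + max u ((Lp P : ℝ) / P) with ht₀
    have h10 : 1 / 4 ≤ t₀ := by linarith [hs.1, hu.1]
    have h11 : 0 < t₀ := by linarith
    have h12 : T / (P : ℝ) ^ 2 ≤ 18 * t₀ ^ 2 := by
      have h13 : ((Lp P : ℝ) / P) ^ 2 ≤ (3 * t₀) ^ 2 :=
        pow_le_pow_left₀ (by positivity) (by linarith [hs.1]) 2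
      linarith [hL P hPS]
    refine (h₄ (e P) P _ (T / P ^ 2) t₀ Y s (hP P hPS) (by positivity) h11
      (fun a => by simpa using (he P hPS).per a)
      (h₅ (e P) P 0 (W P) (hP P hPS) (by norm_num) (he P hPS))).trans ?_
    have h13 : 1 + T / (P : ℝ) ^ 2 / t₀ ≤ 22 * t₀ := by
      have : T / (P : ℝ) ^ 2 / t₀ ≤ 18 * t₀ := by rw [div_le_iff₀ h11]; linarith
      linarith
    have h14 : t₀ ^ (-1 / 2 : ℝ) ≤ 3 * (√P / √(√T)) := by
      have := shfan_q hT0 (pow_pos h11 2) hP0 (by linarith [sq_nonneg t₀])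
      rwa [← Real.rpow_natCast, ← Real.rpow_mul h11.le,
        show ((2 : ℕ) : ℝ) * (-1 / 4) = -1 / 2 by norm_num] at this
    have h15 := shfan_pvw (hW.nonneg P) P
    have h16 : t₀ ^ (-3 / 2 : ℝ) * (22 * t₀) = 22 * t₀ ^ (-1 / 2 : ℝ) := by
      rw [show (-1 / 2 : ℝ) = -3 / 2 + 1 by norm_num, Real.rpow_add h11, Real.rpow_one]; ring
    have h17 : t₀ ^ (-3 / 2 : ℝ) * (1 + T / (P : ℝ) ^ 2 / t₀) + t₀ ^ (-1 / 2 : ℝ) ≤
        69 * (√P / √(√T)) := by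
      have := mul_le_mul_of_nonneg_left h13 (Real.rpow_nonneg h11.le (-3 / 2 : ℝ))
      linarith
    calc _ ≤ C₄ * (C₅ * √P * pvw (W P) P) * (69 * (√P / √(√T))) := by gcongr
      _ = _ := by ring

end

end Pool.Agent.MP_9f080f_an
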