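import Pool.Agent.MP_9f080f_an.Mg.SalieX

/-! Salie type sums modulo the square of a prime, and the mean of `|2 cos|` over a subdivision. -/

namespace Pool.Agent.MP_9f080f_an
open Complex Finset

noncomputable section

section sq
variable {R : Type} [CommRing R] [Fintype R] [DecidableEq R]

lemma shloca_avg {ψ : AddChar R ℂ} (h : ψ.IsPrimitive) {ι : Type} [Fintype ι] (f : ι → ℂ) (g : ι → R)
    (hf : ∀ t : R, ∑ i, f i = ∑ i, f i * ψ (t * g i)) :
    ∑ i, f i = ∑ i with g i = 0, f i := by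
  have hc : (Fintype.card R : ℂ) ≠ 0 := Nat.cast_ne_zero.2 Fintype.card_ne_zero
  refine mul_left_cancel₀ hc ?_
  calc (Fintype.card R : ℂ) * ∑ i, f i = ∑ _t : R, ∑ i, f i := by
        rw [sum_const, card_univ, nsmul_eq_mul]
    _ = ∑ i, f i * ∑ t : R, ψ (t * g i) := by
        rw [sum_congr rfl fun t _ => hf t, sum_comm]
        simp only [mul_sum]
    _ = _ := by
        rw [sum_filter, mul_sum]
        refine sum_congr rfl fun i _ => ?_
        rw [AddChar.sum_mulShift _ h]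
        split_ifs
        · exact mul_comm _ _
        · simp

lemma shloca_gauss {ψ : AddChar R ℂ} (h : ψ.IsPrimitive) {w : R} (hw : w * w = 0)
    (h2 : IsUnit (2 : R)) (hsq : ∀ r : R, w * r = 0 → r ^ 2 = 0) {s : R} (hs : IsUnit s) :
    ∑ r : R, ψ (s * r ^ 2) = #{r : R | w * r = 0} := by
  rw [shloca_avg h (fun r : R => ψ (s * r ^ 2)) (fun r => 2 * (s * (w * r))) fun t => ?_]
  · simp only [h2.mul_right_eq_zero, hs.mul_right_eq_zero]
    rw [sum_congr rfl (g := fun _ => (1 : ℂ)) fun r hr => by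
      rw [hsq r (mem_filter.1 hr).2, mul_zero, AddChar.map_zero_eq_one], sum_const, nsmul_eq_mul,
      mul_one]
  · refine (Fintype.sum_equiv (Equiv.addRight (w * t)) _ _ fun r => ?_).symm
    rw [← AddChar.map_add_eq_mul, Equiv.coe_addRight]
    congr 1
    linear_combination (-s * t ^ 2) * hw

lemma shloca_kl [Fintype Rˣ] {ψ : AddChar R ℂ} (h : ψ.IsPrimitive) {w : R} (hw : w * w = 0)
    (hloc : ∀ x : R, IsUnit x ∨ w * x = 0) {B : R} (hB : IsUnit B) (C : R) :
    ‖∑ d : Rˣ, ψ (B * d + C * (d⁻¹ : Rˣ))‖ ≤ 2 * #{r : R | w * r = 0} := by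
  classical
  rw [shloca_avg h (fun d : Rˣ => ψ (B * d + C * (d⁻¹ : Rˣ)))
    (fun d => w * (B * d - C * (d⁻¹ : Rˣ))) fun t => ?_]
  · refine (norm_sum_le _ _).trans ?_
    simp only [AddChar.norm_apply, sum_const, nsmul_eq_mul, mul_one]
    rcases (filter (fun d : Rˣ => w * (B * d - C * (d⁻¹ : Rˣ)) = 0) univ).eq_empty_or_nonempty with
      h0 | ⟨d₀, hd₀⟩
    · rw [h0, card_empty, Nat.cast_zero]
      positivity
    · have h1 : #{d : Rˣ | w * (B * d - C * (d⁻¹ : Rˣ)) = 0} ≤
          #(image (fun r : R => r + (d₀ : R)) {r : R | w * r = 0} ∪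
            image (fun r : R => r - (d₀ : R)) {r : R | w * r = 0}) := by
        refine card_le_card_of_injOn (fun d : Rˣ => (d : R)) (fun d hd => ?_)
          fun _ _ _ _ h => Units.ext h
        rw [mem_coe, mem_filter] at hd
        rw [mem_filter] at hd₀
        have e1 := d.mul_inv
        have e2 := d₀.mul_inv
        have h3 : B * (w * ((d - d₀) * (d + d₀))) = 0 := by
          linear_combination (d : R) * hd.2 - (d₀ : R) * hd₀.2 + w * C * e1 - w * C * e2
        rw [hB.mul_right_eq_zero] at h3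
        simp only [coe_union, coe_image, coe_filter, mem_univ, true_and, Set.mem_union,
          Set.mem_image, Set.mem_ofPred_eq]
        rcases hloc ((d : R) + d₀) with h4 | h4
        · refine Or.inl ⟨d - d₀, ?_, by ring⟩
          rwa [← mul_assoc, h4.mul_left_eq_zero] at h3
        · exact Or.inr ⟨d + d₀, h4, by ring⟩
      have h2 := (card_union_le _ _).trans (add_le_add
        (card_image_le (f := fun r : R => r + (d₀ : R)) (s := {r : R | w * r = 0}))
        (card_image_le (f := fun r : R => r - (d₀ : R)) (s := {r : R | w * r = 0})))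
      rw [← two_mul] at h2
      exact_mod_cast h1.trans h2
  · let v : Rˣ := ⟨1 + w * t, 1 - w * t, by linear_combination (-t ^ 2) * hw,
      by linear_combination (-t ^ 2) * hw⟩
    refine (Fintype.sum_equiv (Equiv.mulRight v) _ _ fun d => ?_).symm
    rw [← AddChar.map_add_eq_mul, Equiv.coe_mulRight, mul_inv, Units.val_mul, Units.val_mul]
    congr 1
    change _ = B * (d * (1 + w * t)) + C * ((d⁻¹ : Rˣ) * (1 - w * t))
    ring

lemma shloca_salie [Fintype Rˣ] {ψ : AddChar R ℂ} (h : ψ.IsPrimitive) {w : R} (hw : w * w = 0)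
    (h2 : IsUnit (2 : R)) (hsq : ∀ r : R, w * r = 0 → r ^ 2 = 0) {A : R} (hA : IsUnit A) (B C : R) :
    ‖salieT ψ A B C‖ = #{r : R | w * r = 0} * ‖∑ d : Rˣ, ψ (B * d + C * (d⁻¹ : Rˣ))‖ := by
  have e : salieT ψ A B C = #{r : R | w * r = 0} * ∑ d : Rˣ, ψ (B * d + C * (d⁻¹ : Rˣ)) := by
    rw [salieT, mul_sum]
    refine sum_congr rfl fun d _ => ?_
    simp only [add_assoc, AddChar.map_add_eq_mul (ψ := ψ) (A * d * _)]
    rw [← sum_mul, shloca_gauss h hw h2 hsq (hA.mul d.isUnit)]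
  rw [e, norm_mul, norm_natCast]

end sq

lemma shloca_sq {p : ℕ} (hp : p.Prime) (h2 : p ≠ 2) [NeZero (p ^ 2)] {ψ : AddChar (ZMod (p ^ 2)) ℂ}
    (h : ψ.IsPrimitive) {A : ZMod (p ^ 2)} (hA : IsUnit A) (B C : ZMod (p ^ 2)) :
    ‖TS (p ^ 2) ψ A B C‖ ≤ p * (p ^ 2 : ℕ) ∧
      (IsUnit B → ‖TS (p ^ 2) ψ A B C‖ ≤ 2 * (p ^ 2 : ℕ)) := by
  have hw : (p : ZMod (p ^ 2)) * p = 0 := by rw [← Nat.cast_mul, ← sq, ZMod.natCast_self]
  have hdvd : ∀ r : ZMod (p ^ 2), (p : ZMod (p ^ 2)) * r = 0 → p ∣ r.val := fun r hr => by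
    rw [← ZMod.natCast_zmod_val r, ← Nat.cast_mul, ZMod.natCast_eq_zero_iff] at hr
    exact Nat.dvd_of_mul_dvd_mul_left hp.pos (by rwa [← sq])
  have hu : IsUnit (2 : ZMod (p ^ 2)) := by
    have := (ZMod.isUnit_iff_coprime 2 (p ^ 2)).2
      (((Nat.coprime_primes Nat.prime_two hp).2 h2.symm).pow_right 2)
    exact_mod_cast this
  have hsq : ∀ r : ZMod (p ^ 2), (p : ZMod (p ^ 2)) * r = 0 → r ^ 2 = 0 := fun r hr => by
    obtain ⟨k, hk⟩ := hdvd r hr
    rw [← ZMod.natCast_zmod_val r, hk]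
    push_cast
    linear_combination (k : ZMod (p ^ 2)) ^ 2 * hw
  have hloc : ∀ x : ZMod (p ^ 2), IsUnit x ∨ (p : ZMod (p ^ 2)) * x = 0 := fun x => by
    by_cases hx : p ∣ x.val
    · obtain ⟨k, hk⟩ := hx
      right
      rw [← ZMod.natCast_zmod_val x, hk]
      push_cast
      linear_combination (k : ZMod (p ^ 2)) * hw
    · left
      rw [← ZMod.natCast_zmod_val x, ZMod.isUnit_iff_coprime]
      exact ((hp.coprime_iff_not_dvd.2 hx).symm).pow_right 2
  have hN : (#{r : ZMod (p ^ 2) | (p : ZMod (p ^ 2)) * r = 0} : ℝ) ≤ p := by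
    have : #{r : ZMod (p ^ 2) | (p : ZMod (p ^ 2)) * r = 0} ≤
        #(image (fun t : ℕ => ((p * t : ℕ) : ZMod (p ^ 2))) (range p)) := by
      refine card_le_card fun r hr => ?_
      obtain ⟨k, hk⟩ := hdvd r (mem_filter.1 hr).2
      refine mem_image.2 ⟨k, mem_range.2 ?_, by rw [← hk, ZMod.natCast_zmod_val]⟩
      have := r.val_lt
      rw [hk, sq] at this
      exact lt_of_mul_lt_mul_left this p.zero_le
    exact_mod_cast this.trans (card_image_le.trans (card_range p).le)
  have e := shloca_salie h hw hu hsq hA B C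
  change ‖salieT ψ A B C‖ ≤ _ ∧ (_ → ‖salieT ψ A B C‖ ≤ _)
  rw [e]
  refine ⟨mul_le_mul hN ?_ (norm_nonneg _) p.cast_nonneg, fun hB => ?_⟩
  · refine (norm_sum_le _ _).trans ?_
    simp only [AddChar.norm_apply, sum_const, nsmul_eq_mul, mul_one, card_univ]
    have := Fintype.card_le_of_injective _ (Units.val_injective (α := ZMod (p ^ 2)))
    rw [ZMod.card] at this
    exact_mod_cast this
  · refine (mul_le_mul hN ((shloca_kl h hw hloc hB C).trans
      (mul_le_mul_of_nonneg_left hN zero_le_two)) (norm_nonneg _) p.cast_nonneg).trans (le_of_eq ?_)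
    push_cast
    ring

lemma shloca_int_abs_cos (t : ℝ) : ∫ x in t..t + 2 * Real.pi, |Real.cos x| = 4 := by
  have hper : Function.Periodic (fun x => |Real.cos x|) (2 * Real.pi) := fun x => by
    simp only [Real.cos_add_two_pi]
  have hpi := Real.pi_pos
  have hc : Continuous fun x => |Real.cos x| := by fun_prop
  rw [hper.intervalIntegral_add_eq t (-(Real.pi / 2)),
    ← intervalIntegral.integral_add_adjacent_intervals (b := Real.pi / 2) (hc.intervalIntegrable _ _)
      (hc.intervalIntegrable _ _),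
    intervalIntegral.integral_congr (g := Real.cos) fun x hx => ?_,
    intervalIntegral.integral_congr (a := Real.pi / 2) (g := fun x => -Real.cos x) fun x hx => ?_]
  · rw [intervalIntegral.integral_neg, integral_cos, integral_cos, Real.sin_add_two_pi, Real.sin_neg,
      Real.sin_pi_div_two]
    norm_num
  · rw [Set.uIcc_of_le (by linarith)] at hx
    exact abs_of_nonpos (Real.cos_nonpos_of_pi_div_two_le_of_le hx.1 (by linarith [hx.2]))
  · rw [Set.uIcc_of_le (by linarith)] at hx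
    exact abs_of_nonneg (Real.cos_nonneg_of_mem_Icc hx)

lemma shloca_sum_cos {p : ℕ} (hp : 3 ≤ p) :
    ∑ a ∈ range p, |2 * Real.cos (2 * Real.pi * a / p)| ≤ 4 / Real.pi * p + 2 := by
  have hpi := Real.pi_pos
  have hp3 : (3 : ℝ) ≤ p := by exact_mod_cast hp
  have hp0 : (0 : ℝ) < p := by linarith
  obtain ⟨x, hx⟩ : ∃ x : ℝ, x = Real.pi / p := ⟨_, rfl⟩
  have hx0 : 0 < x := hx ▸ div_pos hpi hp0
  have hx1 : x ≤ 1.05 := by
    rw [hx, div_le_iff₀ hp0]
    linarith [Real.pi_lt_d2]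
  have hc : Continuous fun x => |Real.cos x| := by fun_prop
  have hs := Real.sin_ge_sub_cube hx0.le
  have hx2 : x ^ 2 ≤ 1.2 := by nlinarith
  have hs0 : 0 < x - x ^ 3 / 6 := by nlinarith
  have h1 : (∑ a ∈ range p, |2 * Real.cos (2 * Real.pi * a / p)|) * Real.sin x ≤ 4 := by
    have h2 := intervalIntegral.sum_integral_adjacent_intervals (μ := MeasureTheory.volume)
      (f := fun x => |Real.cos x|) (a := fun k : ℕ => -x + 2 * x * k) (n := p)
      fun k _ => hc.intervalIntegrable _ _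
    have h3 : -x + 2 * x * p = -x + 2 * Real.pi := by rw [hx]; field_simp
    simp only [Nat.cast_zero, mul_zero, add_zero, h3, shloca_int_abs_cos] at h2
    rw [← h2, sum_mul]
    refine sum_le_sum fun a _ => ?_
    have h4 : -x + 2 * x * a ≤ -x + 2 * x * (a + 1 : ℕ) := by push_cast; linarith
    refine le_trans (le_of_eq ?_) (intervalIntegral.abs_integral_le_integral_abs h4)
    rw [integral_cos, Real.sin_sub_sin, ← abs_of_pos (hs0.trans_le hs), ← abs_mul]
    congr 1
    have h5 : (-x + 2 * x * (a + 1 : ℕ) - (-x + 2 * x * a)) / 2 = x := by push_cast; ring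
    have h6 : (-x + 2 * x * (a + 1 : ℕ) + (-x + 2 * x * a)) / 2 = 2 * Real.pi * a / p := by
      rw [hx]; push_cast; ring
    rw [h5, h6]
    ring
  have h7 : 4 / Real.pi * p = 4 / x := by rw [hx]; field_simp
  have h8 : 0 ≤ ∑ a ∈ range p, |2 * Real.cos (2 * Real.pi * a / p)| :=
    sum_nonneg fun _ _ => abs_nonneg _
  rw [h7]
  refine ((le_div_iff₀ hs0).2 ((mul_le_mul_of_nonneg_left hs h8).trans h1)).trans ?_
  rw [div_le_iff₀ hs0]
  have h9 : (4 / x + 2) * (x - x ^ 3 / 6) = 4 + x * (2 - 2 * x / 3 - x ^ 2 / 3) := by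
    field_simp
    ring
  rw [h9]
  nlinarith

lemma shloca_norm_cos {p : ℕ} [NeZero p] (a : ℕ) :
    ‖ZMod.stdAddChar (a : ZMod p) + ZMod.stdAddChar (-(a : ZMod p))‖ =
      |2 * Real.cos (2 * Real.pi * a / p)| := by
  have h1 := ZMod.stdAddChar_coe (N := p) a
  have h2 := ZMod.stdAddChar_coe (N := p) (-a)
  push_cast at h1 h2
  rw [h1, h2, ← Real.norm_eq_abs, ← norm_real]
  push_cast
  rw [two_cos]
  congr 3 <;> ring

lemma shloca_sum_units {q : ℕ} [NeZero q] (f : ZMod q → ℝ) :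
    ∑ a ∈ (range q).filter (fun a => a.Coprime q), f a = ∑ u : (ZMod q)ˣ, f u := by
  symm
  refine sum_bij (fun u _ => (u : ZMod q).val) (fun u _ => ?_) (fun u _ v _ h => ?_)
    (fun a ha => ?_) fun u _ => by rw [ZMod.natCast_zmod_val]
  · exact mem_filter.2 ⟨mem_range.2 (ZMod.val_lt _), ZMod.val_coe_unit_coprime u⟩
  · exact Units.ext (ZMod.val_injective q h)
  · rw [mem_filter, mem_range] at ha
    exact ⟨ZMod.unitOfCoprime a ha.2, mem_univ _, by
      rw [ZMod.coe_unitOfCoprime, ZMod.val_natCast_of_lt ha.1]⟩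

end

end Pool.Agent.MP_9f080f_an
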