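import Pool.Agent.MP_9f080f_an.Mg.ShDefs
import Pool.Agent.MP_9f080f_an.Mg.ShLocA

namespace Pool.Agent.MP_9f080f_an
open Complex MeasureTheory Set Filter Topology Metric
open scoped Real

noncomputable section

/-! Local theory of `STT`.  See `SalieA` (`salieT_prod`, `salieL_apply`, `salieT_le`, `salieT_field`,
`salie_gauss_mul`) and `Salie` (`salieBd_two`, `salieBd_prime`).
`STT_mul`: for `e = ZMod.chineseRemainder`, `e.symm (j, 0) = j u₂ q₂`, so the character induced on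
`ZMod q₁` is `x ↦ stdAddChar (u₂ x)` (`ZMod.stdAddChar_coe`).
`STT_sq_le`: modulo `p²`, `∑_r ψ(s r²) = p` for a unit `s` (write `r = r₀ + p r₁`, or shift `r ↦ r + p t` and
average over `t`); the remaining Kloosterman sum: substitute `d ↦ d (1 + p t)`, whose inverse is
`d⁻¹ (1 - p t)`, and average over `t mod p`: only `d` with `B d² ≡ C mod p` survive, at most `2 p` of them if
`p ∤ B`; trivially `STT ≤ p`.
`Gs_prime`: as in `salieT_field`, for `p ∤ C`: `STT p a A B C = ‖∑_{r² = B C} ψ(2 a r)‖`, and `STT ≤ 1` if `p ∣ C`.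
If `B C = ν² ≠ 0` this is `|2 cos (4 π a ν / p)|`; `a ↦ 2 a ν` permutes the nonzero residues, and
`∑_{a<p} |2 cos (2π a/p)| ≤ p ∫_0^1 |2 cos (2π t)| dt + 4π = 4p/π + 4π` (Lipschitz constant `4π`).
`Gs_mul`: `a ↦ (a u₂ mod q₁, a u₁ mod q₂)` is a bijection of the unit groups. -/

/-- the normalised sum as a function of the residue class of the twist -/
def shlocT (q : ℕ) [NeZero q] (A B C : ℤ) (x : ZMod q) : ℝ :=
  ‖TS q ZMod.stdAddChar (x * A) (x * B) (x * C)‖ / q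

lemma shloc_eq (q : ℕ) [NeZero q] (a A B C : ℤ) : STT q a A B C = shlocT q A B C a := by
  rw [STT, dif_neg (NeZero.ne q), shlocT]
  simp only [Int.cast_mul]

lemma shloc_zero (a A B C : ℤ) : STT 0 a A B C = 0 := by rw [STT, dif_pos rfl]

lemma shloc_Gs (q : ℕ) [NeZero q] (A B C : ℤ) :
    Gs q A B C = ∑ u : (ZMod q)ˣ, shlocT q A B C u := by
  rw [Gs, ← shloca_sum_units]
  refine Finset.sum_congr rfl fun a _ => ?_
  rw [shloc_eq, Int.cast_natCast]

lemma shloc_unit {q : ℕ} {a A : ℤ} (hc : IsCoprime (a * A) q) :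
    IsUnit ((a : ZMod q) * A) := by
  have := (ZMod.coe_int_isUnit_iff_isCoprime (a * A) q).2 hc.symm
  rwa [Int.cast_mul] at this

lemma shloc_cop {p : ℕ} (hp : p.Prime) {x : ℤ} (hc : ¬(p : ℤ) ∣ x) : IsCoprime x p :=
  ((Nat.prime_iff_prime_int.1 hp).irreducible.coprime_iff_not_dvd.2 hc).symm

lemma shloc_le {q : ℕ} [NeZero q] {c : ℝ} (h : salieBd q c) {a A : ℤ} (hc : IsCoprime (a * A) q)
    (B C : ℤ) : STT q a A B C ≤ c := by
  rw [shloc_eq, shlocT, div_le_iff₀ (Nat.cast_pos.2 (NeZero.pos q))]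
  exact h _ _ (ZMod.isPrimitive_stdAddChar q) _ _ _ (shloc_unit hc)

lemma shloc_mul {q₁ q₂ : ℕ} [NeZero q₁] [NeZero q₂] [NeZero (q₁ * q₂)] (h : q₁.Coprime q₂)
    (A B C : ℤ) (x : ZMod (q₁ * q₂)) :
    shlocT (q₁ * q₂) A B C x =
      shlocT q₁ A B C ((ZMod.chineseRemainder h x).1 * (q₂ : ZMod q₁)⁻¹) *
        shlocT q₂ A B C ((ZMod.chineseRemainder h x).2 * (q₁ : ZMod q₂)⁻¹) := by
  obtain ⟨k, rfl⟩ := ZMod.intCast_surjective x
  have e := TS_mul_std_int h (k * A) (k * B) (k * C)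
  push_cast at e
  rw [shlocT, shlocT, shlocT, e, norm_mul, map_intCast, Prod.fst_intCast, Prod.snd_intCast,
    div_mul_div_comm, Nat.cast_mul]
  simp only [mul_assoc, mul_left_comm (k : ZMod q₁), mul_left_comm (k : ZMod q₂)]

lemma STT_congr {q : ℕ} {a a' : ℤ} (h : a ≡ a' [ZMOD q]) (A B C : ℤ) :
    STT q a A B C = STT q a' A B C := by
  rcases eq_or_ne q 0 with rfl | hq
  · rw [shloc_zero, shloc_zero]
  · have : NeZero q := ⟨hq⟩
    rw [shloc_eq, shloc_eq, (ZMod.intCast_eq_intCast_iff _ _ _).2 h]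

lemma STT_one (a A B C : ℤ) : STT 1 a A B C = 1 := by
  rw [shloc_eq, shlocT, TS, Fintype.sum_unique, Fintype.sum_unique, AddChar.norm_apply]
  simp

theorem STT_mul {q₁ q₂ : ℕ} (h : q₁.Coprime q₂) (h₁ : q₁ ≠ 0) (h₂ : q₂ ≠ 0) {u₁ u₂ : ℤ}
    (hu₂ : u₂ * q₂ ≡ 1 [ZMOD q₁]) (hu₁ : u₁ * q₁ ≡ 1 [ZMOD q₂]) (a A B C : ℤ) :
    STT (q₁ * q₂) a A B C = STT q₁ (a * u₂) A B C * STT q₂ (a * u₁) A B C := by
  have : NeZero q₁ := ⟨h₁⟩
  have : NeZero q₂ := ⟨h₂⟩
  have e₂ := (ZMod.intCast_eq_intCast_iff _ _ _).2 hu₂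
  have e₁ := (ZMod.intCast_eq_intCast_iff _ _ _).2 hu₁
  push_cast at e₁ e₂
  rw [shloc_eq, shloc_eq, shloc_eq, shloc_mul h, map_intCast, Prod.fst_intCast, Prod.snd_intCast,
    ZMod.inv_eq_of_mul_eq_one _ _ _ ((mul_comm _ _).trans e₁),
    ZMod.inv_eq_of_mul_eq_one _ _ _ ((mul_comm _ _).trans e₂), Int.cast_mul, Int.cast_mul]

lemma iv_mul {h : ℤ} {q : ℕ} (hq : q ≠ 0) (hc : IsCoprime h q) : iv h q * h ≡ 1 [ZMOD q] := by
  have : NeZero q := ⟨hq⟩
  rw [← ZMod.intCast_eq_intCast_iff, iv, Int.cast_mul, Int.cast_natCast, ZMod.natCast_zmod_val,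
    ZMod.inv_mul_of_unit _ ((ZMod.coe_int_isUnit_iff_isCoprime h q).2 hc.symm), Int.cast_one]

theorem STT_le_wt {q : ℕ} {a A : ℤ} (hc : IsCoprime (a * A) q) (B C : ℤ) :
    STT q a A B C ≤ wt q := by
  rcases eq_or_ne q 0 with rfl | hq
  · rw [shloc_zero]
    exact zero_le_one.trans (one_le_wt 0)
  · have : NeZero q := ⟨hq⟩
    exact shloc_le (fun _ ψ hψ A B C hA => TS_le q ψ hψ A B C hA) hc B C

theorem STT_crude {q : ℕ} {a A : ℤ} (hc : IsCoprime (a * A) q) (B C : ℤ) :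
    STT q a A B C ≤ √(2 * q) := by
  rcases eq_or_ne q 0 with rfl | hq
  · rw [shloc_zero]
    exact Real.sqrt_nonneg _
  · have : NeZero q := ⟨hq⟩
    exact_mod_cast shloc_le (salieBd_two q) hc B C

theorem STT_prime_le {p : ℕ} (hp : p.Prime) (h2 : p ≠ 2) {a A : ℤ} (hc : ¬(p : ℤ) ∣ a * A) (B C : ℤ) :
    STT p a A B C ≤ 2 := by
  have : NeZero p := ⟨hp.ne_zero⟩
  exact shloc_le (salieBd_prime hp h2) (shloc_cop hp hc) B C

theorem STT_sq_le {p : ℕ} (hp : p.Prime) (h2 : p ≠ 2) {a A : ℤ} (hc : ¬(p : ℤ) ∣ a * A) (B C : ℤ) :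
    STT (p ^ 2) a A B C ≤ if (p : ℤ) ∣ B then (p : ℝ) else 2 := by
  have : NeZero (p ^ 2) := ⟨pow_ne_zero 2 hp.ne_zero⟩
  have key : ∀ x y : ℤ, ¬(p : ℤ) ∣ x * y → IsUnit ((x : ZMod (p ^ 2)) * y) := fun x y h =>
    shloc_unit (by push_cast; exact (shloc_cop hp h).pow_right)
  have h := shloca_sq hp h2 (ZMod.isPrimitive_stdAddChar (p ^ 2)) (key a A hc)
    ((a : ZMod (p ^ 2)) * B) ((a : ZMod (p ^ 2)) * C)
  rw [shloc_eq, shlocT, div_le_iff₀ (Nat.cast_pos.2 (NeZero.pos (p ^ 2)))]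
  split_ifs with hB
  · exact h.1
  · refine h.2 (key a B fun h3 => ?_)
    exact ((Nat.prime_iff_prime_int.1 hp).dvd_or_dvd h3).elim (fun h4 => hc (h4.mul_right _)) hB

lemma shloc_sqf (q : ℕ) : Squarefree q → Odd q → salieBd q q.divisors.card := by
  induction q using Nat.recOnPosPrimePosCoprime with
  | prime_pow p n hp hn =>
    intro hq ho
    obtain rfl := ((Nat.squarefree_pow_iff hp.ne_one hn.ne').1 hq).2
    rw [pow_one] at ho ⊢
    rw [hp.divisors, Finset.card_pair hp.one_lt.ne]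
    exact salieBd_prime hp (by rintro rfl; exact absurd ho (by decide))
  | zero => exact fun h => absurd h not_squarefree_zero
  | one => exact fun _ h => (salieBd_odd h).mono (by simp)
  | coprime a b ha hb hab iha ihb =>
    intro hq ho
    rw [Nat.Coprime.card_divisors_mul hab, Nat.cast_mul]
    exact (iha hq.of_mul_left (Nat.odd_mul.1 ho).1).mul hab (ihb hq.of_mul_right (Nat.odd_mul.1 ho).2)

/-- squarefree odd moduli -/
theorem STT_squarefree {q : ℕ} (hq : Squarefree q) (ho : Odd q) {a A : ℤ} (hc : IsCoprime (a * A) q)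
    (B C : ℤ) : STT q a A B C ≤ q.divisors.card := by
  have : NeZero q := ⟨hq.ne_zero⟩
  exact shloc_le (shloc_sqf q hq ho) hc B C

lemma Gs_nonneg (q : ℕ) (A B C : ℤ) : 0 ≤ Gs q A B C :=
  Finset.sum_nonneg fun _ _ => STT_nonneg ..

lemma Gs_one (A B C : ℤ) : Gs 1 A B C = 1 := by
  rw [Gs, Finset.sum_filter, Finset.sum_range_one, if_pos (by decide), STT_one]

lemma shloc_Gs_zero (A B C : ℤ) : Gs 0 A B C = 0 := by simp [Gs]

theorem Gs_mul {q₁ q₂ : ℕ} (h : q₁.Coprime q₂) (A B C : ℤ) :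
    Gs (q₁ * q₂) A B C = Gs q₁ A B C * Gs q₂ A B C := by
  rcases eq_or_ne q₁ 0 with rfl | h₁
  · rw [zero_mul, shloc_Gs_zero, zero_mul]
  rcases eq_or_ne q₂ 0 with rfl | h₂
  · rw [mul_zero, shloc_Gs_zero, mul_zero]
  have : NeZero q₁ := ⟨h₁⟩
  have : NeZero q₂ := ⟨h₂⟩
  rw [shloc_Gs, shloc_Gs, shloc_Gs,
    ← Equiv.sum_comp (Equiv.mulRight (ZMod.unitOfCoprime q₂ h.symm)⁻¹),
    ← Equiv.sum_comp (Equiv.mulRight (ZMod.unitOfCoprime q₁ h)⁻¹), Finset.sum_mul_sum,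
    ← Fintype.sum_prod_type']
  let U : (ZMod (q₁ * q₂))ˣ ≃ (ZMod q₁)ˣ × (ZMod q₂)ˣ :=
    ((Units.mapEquiv (ZMod.chineseRemainder h).toMulEquiv).trans MulEquiv.prodUnits).toEquiv
  refine Fintype.sum_equiv U _ _ fun u => ?_
  rw [shloc_mul h, Equiv.coe_mulRight, Equiv.coe_mulRight, Units.val_mul, Units.val_mul,
    ← ZMod.inv_coe_unit, ← ZMod.inv_coe_unit, ZMod.coe_unitOfCoprime, ZMod.coe_unitOfCoprime]
  rfl

/-- reindexing by `r ↦ (h r)⁻¹` -/
theorem Gs_inv {q : ℕ} (hq : q ≠ 0) {h : ℤ} (hc : IsCoprime h q) (A B C : ℤ) :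
    ∑ r ∈ (Finset.range q).filter (fun r => r.Coprime q), STT q (iv (h * r) q) A B C =
      Gs q A B C := by
  have : NeZero q := ⟨hq⟩
  obtain ⟨H, hH⟩ := (ZMod.coe_int_isUnit_iff_isCoprime h q).2 hc.symm
  rw [shloc_Gs, ← ((Equiv.mulLeft H).trans (Equiv.inv _)).sum_comp]
  refine Eq.trans (Finset.sum_congr rfl fun r _ => ?_)
    ((shloca_sum_units fun x => shlocT q A B C ((h : ZMod q) * x)⁻¹).trans
      (Finset.sum_congr rfl fun u _ => ?_))
  · rw [shloc_eq, iv, Int.cast_natCast, ZMod.natCast_zmod_val, Int.cast_mul, Int.cast_natCast]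
  · rw [← hH, ← Units.val_mul, ZMod.inv_coe_unit]
    rfl

lemma Gs_le {q : ℕ} {A B C : ℤ} {w : ℝ} (hw : ∀ a : ℤ, IsCoprime a q → STT q a A B C ≤ w) :
    Gs q A B C ≤ q.totient * w := by
  refine (Finset.sum_le_card_nsmul _ _ w fun (a : ℕ) ha =>
    hw a (Nat.isCoprime_iff_coprime.2 (Finset.mem_filter.1 ha).2)).trans (le_of_eq ?_)
  rw [nsmul_eq_mul, Nat.totient_eq_card_coprime]
  simp only [Nat.coprime_comm]

lemma shloc_prime {p : ℕ} [Fact p.Prime] (h2 : p ≠ 2) {A : ℤ} (hA : (A : ZMod p) ≠ 0) (B : ℤ)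
    {C : ℤ} (hC : (C : ZMod p) ≠ 0) (u : (ZMod p)ˣ) : shlocT p A B C u =
      ‖∑ r : ZMod p with r ^ 2 = (u : ZMod p) ^ 2 * (B * C : ℤ), ZMod.stdAddChar (2 * r)‖ := by
  rw [shlocT, TS_prime_exact h2 (ZMod.isPrimitive_stdAddChar p) (mul_ne_zero u.ne_zero hA) _
    (mul_ne_zero u.ne_zero hC), mul_div_cancel_left₀ _ (Nat.cast_ne_zero.2 (NeZero.ne p)),
    show (u : ZMod p) * B * (u * C) = (u : ZMod p) ^ 2 * (B * C : ℤ) by push_cast; ring]

open Classical in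
theorem Gs_prime : ∃ c : ℝ, 0 ≤ c ∧ ∀ p : ℕ, p.Prime → p ≠ 2 → ∀ A B C : ℤ, ¬(p : ℤ) ∣ A →
    Gs p A B C ≤ (p - 1) * (if (p : ℤ) ∣ B * C then 1
      else if IsSquare ((B * C : ℤ) : ZMod p) then gg + c / p else 0) := by
  refine ⟨8, by norm_num, fun p hp h2 A B C hA => ?_⟩
  have : Fact p.Prime := ⟨hp⟩
  have hp3 : 3 ≤ p := by have := hp.two_le; omega
  have hp3' : (3 : ℝ) ≤ p := by exact_mod_cast hp3
  rw [← ZMod.intCast_zmod_eq_zero_iff_dvd] at hA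
  rw [shloc_Gs]
  simp only [← ZMod.intCast_zmod_eq_zero_iff_dvd]
  have key : ∀ w : ℝ, (∀ u : (ZMod p)ˣ, shlocT p A B C u ≤ w) →
      ∑ u : (ZMod p)ˣ, shlocT p A B C u ≤ (p - 1) * w := fun w hw => by
    refine (Finset.sum_le_card_nsmul _ _ w fun u _ => hw u).trans (le_of_eq ?_)
    rw [nsmul_eq_mul, Finset.card_univ, ZMod.card_units, Nat.cast_sub hp.one_le, Nat.cast_one]
  by_cases hC : (C : ZMod p) = 0
  · rw [if_pos (by rw [Int.cast_mul, hC, mul_zero])]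
    refine key 1 fun u => ?_
    rw [shlocT, hC, mul_zero, div_le_one (by linarith)]
    exact TS_prime_zero (ZMod.isPrimitive_stdAddChar p) (mul_ne_zero u.ne_zero hA) _
  split_ifs with h0 hs
  · refine key 1 fun u => ?_
    rw [shloc_prime h2 hA B hC, h0, mul_zero]
    simp only [pow_eq_zero_iff two_ne_zero, Finset.filter_eq', Finset.mem_univ, if_true,
      Finset.sum_singleton, AddChar.norm_apply, le_refl]
  · obtain ⟨ν, hν⟩ := hs
    have hν0 : ν ≠ 0 := by rintro rfl; exact h0 (hν.trans (mul_zero _))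
    have h20 : (2 : ZMod p) ≠ 0 := Ring.two_ne_zero (by rw [ZMod.ringChar_zmod_n]; exact h2)
    have e : ∑ u : (ZMod p)ˣ, shlocT p A B C u =
        ∑ u : (ZMod p)ˣ, ‖ZMod.stdAddChar (u : ZMod p) + ZMod.stdAddChar (-(u : ZMod p))‖ := by
      refine Fintype.sum_equiv (Equiv.mulRight (Units.mk0 (2 * ν) (mul_ne_zero h20 hν0))) _ _
        fun u => ?_
      have h3 : (Finset.univ.filter fun r : ZMod p => r ^ 2 = (u : ZMod p) ^ 2 * (B * C : ℤ)) =
          {u * ν, -(u * ν)} := by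
        ext r
        rw [Finset.mem_filter, Finset.mem_insert, Finset.mem_singleton,
          ← sq_eq_sq_iff_eq_or_eq_neg, hν, mul_pow, sq ν]
        simp
      have h4 : (u : ZMod p) * ν ≠ -(u * ν) := fun h =>
        mul_ne_zero h20 (mul_ne_zero u.ne_zero hν0) (by linear_combination h)
      rw [shloc_prime h2 hA B hC, h3, Finset.sum_pair h4, Equiv.coe_mulRight, Units.val_mul,
        Units.val_mk0, mul_neg, mul_left_comm]
    rw [e, ← shloca_sum_units fun x : ZMod p => ‖ZMod.stdAddChar x + ZMod.stdAddChar (-x)‖]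
    simp only [shloca_norm_cos]
    refine (Finset.sum_le_sum_of_subset_of_nonneg (Finset.filter_subset _ _)
      fun _ _ _ => abs_nonneg _).trans ((shloca_sum_cos hp3).trans ?_)
    have h5 : 4 ≤ ((p : ℝ) - 1) * (8 / p) := by
      rw [← mul_div_assoc, le_div_iff₀ (by linarith)]
      linarith
    have h6 := gg_lt
    rw [← gg]
    nlinarith
  · refine key 0 fun u => ?_
    rw [shloc_prime h2 hA B hC, Finset.filter_false_of_mem, Finset.sum_empty, norm_zero]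
    intro r _ hr
    refine hs ⟨r * (u : ZMod p)⁻¹, ?_⟩
    have := u.ne_zero
    field_simp
    linear_combination -hr

end

end Pool.Agent.MP_9f080f_an
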