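import Pool.Agent.MP_9f080f_an.Mg.ShFrameA
import Pool.Agent.MP_9f080f_an.Mg.ShDefs
import Pool.Agent.MP_9f080f_an.Mg.MainAsmA
import Pool.Agent.MP_9f080f_an.Mg.ShLoc
import Pool.Agent.MP_9f080f_an.Mg.ShFan

-- part MP_9f080f_an.ShFrameB
section

namespace Pool.Agent.MP_9f080f_an
open Complex MeasureTheory Set Filter Topology Metric
open scoped Real

noncomputable section

/-! Splitting and reindexing the sum over the cusps. -/

/-- number of cusps in a fan -/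
def LA (n β : ℕ) : ℕ := if β ^ 2 ≤ n then (n - β ^ 2) / (2 * β) + 1 else 0

/-- number of cusps in the frame of the cusp `∞` -/
def LB (n P : ℕ) : ℕ := Nat.sqrt (n + (P / 2) ^ 2) + 1

lemma shf_LA {n β l : ℕ} (hβ : 0 < β) : l < LA n β ↔ β * (2 * l + β) ≤ n := by
  unfold LA
  split_ifs with h
  · rw [Nat.lt_succ_iff, Nat.le_div_iff_mul_le (by omega), Nat.le_sub_iff_add_le h]
    constructor <;> intro h <;> nlinarith
  · constructor
    · omega
    · intro h'; exact absurd (by nlinarith) h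

lemma shf_BS {n β : ℕ} : β ∈ BS n ↔ 1 ≤ β ∧ β ≤ n ∧ Odd β := by
  simp [BS, and_assoc]

lemma shf_Q1 {n β : ℕ} (hβ : 1 ≤ β) :
    mainasmQ n β 1 = (Finset.range (LA n β)).image fun l : ℕ => -(l : ℤ) := by
  ext q
  rw [mainasm_mem_pos hβ, QS, Finset.mem_filter, Finset.mem_Icc, Finset.mem_image]
  constructor
  · rintro ⟨⟨-, h⟩, h0⟩
    obtain ⟨l, rfl⟩ : ∃ l : ℕ, q = -(l : ℤ) := ⟨(-q).toNat, by omega⟩
    refine ⟨l, Finset.mem_range.2 ((shf_LA hβ).2 ?_), rfl⟩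
    rw [abs_of_nonpos (by omega)] at h
    zify
    linarith
  · rintro ⟨l, hl, rfl⟩
    have h := (shf_LA hβ).1 (Finset.mem_range.1 hl)
    have h2 : l ≤ n := by nlinarith
    refine ⟨⟨⟨by omega, by omega⟩, ?_⟩, by omega⟩
    rw [abs_of_nonpos (by omega)]
    zify at h
    linarith

lemma shf_Q2 {n β : ℕ} (hβ : 1 ≤ β) :
    mainasmQ n β (-1) = (Finset.Ico 1 (LA n β)).image fun l : ℕ => ((β + l : ℕ) : ℤ) := by
  ext q
  rw [mainasm_mem_neg hβ, QS, Finset.mem_filter, Finset.mem_Icc, Finset.mem_image]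
  constructor
  · rintro ⟨⟨-, h⟩, h0⟩
    obtain ⟨l, rfl⟩ : ∃ l : ℕ, q = ((β + l : ℕ) : ℤ) := ⟨(q - β).toNat, by omega⟩
    refine ⟨l, Finset.mem_Ico.2 ⟨by omega, (shf_LA hβ).2 ?_⟩, rfl⟩
    rw [abs_of_nonneg (by omega)] at h
    zify
    push_cast at h
    linarith
  · rintro ⟨l, hl, rfl⟩
    obtain ⟨h1, hl⟩ := Finset.mem_Ico.1 hl
    have h := (shf_LA hβ).1 hl
    have h2 : β + l ≤ n := by nlinarith
    refine ⟨⟨⟨by omega, by omega⟩, ?_⟩, by omega⟩
    rw [abs_of_nonneg (by omega)]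
    zify at h
    push_cast
    linarith

lemma shf_split (n : ℕ) (X : ℕ → ℕ → ℂ) :
    ∑ β ∈ BS n, ∑ l ∈ Finset.Ico 1 (LA n β), X β l =
      ∑ β ∈ (BS n).filter (fun β => β ^ 2 ≤ n), ∑ l ∈ Finset.range (LA n β), (rA (l / β) : ℝ) * X β l +
        ∑ β ∈ BS n, ∑ l ∈ Finset.Ico 1 (LA n β), (1 - rA (l / β) : ℝ) * X β l := by
  rw [Finset.sum_filter, ← Finset.sum_add_distrib]
  refine Finset.sum_congr rfl fun β _ => ?_
  split_ifs with h
  · have h1 : 0 < LA n β := by rw [LA, if_pos h]; exact Nat.succ_pos _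
    rw [Finset.range_eq_Ico, Finset.sum_eq_sum_Ico_succ_bot h1]
    have h2 : rA (((0 : ℕ) : ℝ) / β) = 0 := by simp [rA]
    rw [h2]
    simp only [ofReal_zero, zero_mul, zero_add]
    rw [← Finset.sum_add_distrib]
    refine Finset.sum_congr rfl fun l _ => ?_
    push_cast
    ring
  · rw [LA, if_neg h]
    simp

lemma shf_r {β c : ℕ} (hβ : 0 < β) (hc : 0 < c) :
    1 - rA (c / β) = rB (((β + c : ℕ) : ℝ) / ((2 * c : ℕ) : ℝ)) := by
  have hβ0 : (0 : ℝ) < β := by exact_mod_cast hβ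
  have hc0 : (0 : ℝ) < c := by exact_mod_cast hc
  have e : 2 - 1 / (2 * (((β + c : ℕ) : ℝ) / ((2 * c : ℕ) : ℝ)) - 1) = 2 - c / β := by
    have : 2 * (((β + c : ℕ) : ℝ) / ((2 * c : ℕ) : ℝ)) - 1 = β / c := by
      push_cast; field_simp; ring
    rw [this, one_div_div]
  have h : ((β + c : ℕ) : ℝ) / ((2 * c : ℕ) : ℝ) ≤ 3 / 4 ↔ 2 ≤ (c : ℝ) / β := by
    push_cast
    rw [div_le_iff₀ (by positivity), le_div_iff₀ hβ0]
    constructor <;> intro h <;> linarith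
  rw [rA, rB, e]
  split_ifs with h1
  · have := h.1 h1
    rw [max_eq_right (by linarith), min_eq_left (by linarith), sub_self]
  · have h2 := not_le.1 (mt h.2 h1)
    rcases le_total ((c : ℝ) / β) 1 with h3 | h3
    · rw [max_eq_left (by linarith), min_eq_right (by norm_num), min_eq_left (by linarith), sub_zero]
    · rw [max_eq_right (by linarith), min_eq_right (by linarith), min_eq_right (by linarith)]
      ring

lemma shf_reindex (n : ℕ) (X : ℕ → ℕ → ℂ) (hX : ∀ c a, 0 < c → ¬Odd (a + c) → X c a = 0) :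
    ∑ β ∈ BS n, ∑ l ∈ Finset.Ico 1 (LA n β), (1 - rA (l / β) : ℝ) * X l (β + l) =
      ∑ c ∈ Finset.Icc 1 (Nat.sqrt n), ∑ a ∈ Finset.range (LB n (2 * c)),
        (rB (a / (2 * c : ℕ)) : ℝ) * X c a := by
  rw [Finset.sum_sigma', Finset.sum_sigma']
  have hz : ∀ c a : ℕ, 0 < c → 2 * a ≤ 3 * c → rB ((a : ℝ) / (2 * c : ℕ)) = 0 := by
    intro c a hc h
    have hc0 : (0 : ℝ) < c := by exact_mod_cast hc
    have h' : (2 * a : ℝ) ≤ 3 * c := by exact_mod_cast h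
    rw [rB, if_pos]
    push_cast
    rw [div_le_iff₀ (by positivity)]
    linarith
  refine Finset.sum_bij_ne_zero (fun p _ _ => ⟨p.2, p.1 + p.2⟩) ?_ ?_ ?_ ?_
  · rintro ⟨β, l⟩ hp hne
    obtain ⟨h1, h2⟩ := Finset.mem_sigma.1 hp
    obtain ⟨h3, -, -⟩ := shf_BS.1 h1
    obtain ⟨h4, h5⟩ := Finset.mem_Ico.1 h2
    rw [shf_LA h3] at h5
    dsimp only at *
    have h6 : l < 2 * β := by
      by_contra h7
      apply hne
      rw [shf_r h3 h4, hz l (β + l) h4 (by omega)]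
      simp
    refine Finset.mem_sigma.2 ⟨Finset.mem_Icc.2 ⟨h4, Nat.le_sqrt'.2 (by nlinarith)⟩,
      Finset.mem_range.2 ?_⟩
    dsimp only
    rw [LB, Nat.lt_succ_iff, Nat.le_sqrt', Nat.mul_div_cancel_left _ two_pos]
    nlinarith
  · rintro ⟨β, l⟩ _ _ ⟨β', l'⟩ _ _ h
    simp only [Sigma.mk.injEq, heq_eq_eq] at h ⊢
    omega
  · rintro ⟨c, a⟩ hp hne
    obtain ⟨h1, h2⟩ := Finset.mem_sigma.1 hp
    obtain ⟨h3, -⟩ := Finset.mem_Icc.1 h1
    dsimp only at *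
    rw [Finset.mem_range, LB, Nat.lt_succ_iff, Nat.le_sqrt', Nat.mul_div_cancel_left _ two_pos] at h2
    have h4 : 3 * c < 2 * a := by
      by_contra h7
      apply hne
      rw [hz c a h3 (by omega)]
      simp
    have h5 : Odd (a + c) := by
      by_contra h7
      apply hne
      rw [hX c a h3 h7, mul_zero]
    obtain ⟨β, rfl⟩ : ∃ β, a = β + c := ⟨a - c, by omega⟩
    have h6 : 1 ≤ β := by omega
    have h7 : β * (2 * c + β) ≤ n := by nlinarith
    have h8 : Odd β := by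
      obtain ⟨k, hk⟩ := h5
      exact ⟨k - c, by omega⟩
    refine ⟨⟨β, c⟩, Finset.mem_sigma.2 ⟨shf_BS.2 ⟨h6, by nlinarith, h8⟩,
      Finset.mem_Ico.2 ⟨h3, (shf_LA h6).2 h7⟩⟩, ?_, rfl⟩
    dsimp only
    rwa [shf_r h6 h3]
  · rintro ⟨β, l⟩ hp _
    obtain ⟨h1, h2⟩ := Finset.mem_sigma.1 hp
    dsimp only at *
    rw [shf_r (shf_BS.1 h1).1 (Finset.mem_Ico.1 h2).1]

lemma shf_kk (H : ℝ) {c t : ℝ} (hc : 0 < c) (ht : 0 < t) :
    ((√c : ℝ) / c ^ 2 : ℂ) * kk H (2 * t : ℝ) = (((2 * c) ^ (-3 / 2 : ℝ) : ℝ) : ℂ) * kk (H / 2) t := by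
  have e1 : ((√c : ℝ) / c ^ 2 : ℂ) = ((c ^ (-3 / 2 : ℝ) : ℝ) : ℂ) := by
    rw [mainasm_pow hc]; push_cast; ring
  have e2 : ((H / 2 : ℝ) : ℂ) / t = H / ((2 * t : ℝ) : ℂ) := by push_cast; rw [div_div]
  rw [e1, kk, kk, e2, Real.mul_rpow two_pos.le ht.le, Real.mul_rpow two_pos.le hc.le]
  push_cast
  ring

/-- moduli in the frame of the cusp `1` -/
def SA (n : ℕ) : Finset ℕ := (BS n).filter fun β => β ^ 2 ≤ n

/-- moduli in the frame of the cusp `∞` -/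
def SB (n : ℕ) : Finset ℕ := (Finset.Icc 1 (Nat.sqrt n)).image fun c => 2 * c

lemma shf_fanB (n : ℕ) (e : ℕ → ℤ → ℂ) {s : ℝ} (hs : -1 / 2 ≤ s) :
    fanG (SB n) e (2 * n) rB (LB n) s = ∑ c ∈ Finset.Icc 1 (Nat.sqrt n),
      ∑ a ∈ Finset.range (LB n (2 * c)), (rB (a / (2 * c : ℕ)) : ℝ) *
        (e (2 * c) (-a) * (√c / c ^ 2) * kk (n / c ^ 2) (a / c + 2 * s)) := by
  rw [fanG, SB, Finset.sum_image (fun a _ b _ h => by simpa using h)]
  refine Finset.sum_congr rfl fun c hc => ?_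
  have hc0 : (0 : ℝ) < c := by exact_mod_cast (Finset.mem_Icc.1 hc).1
  rw [Finset.mul_sum]
  refine Finset.sum_congr rfl fun a _ => ?_
  by_cases h : (a : ℝ) / (2 * c : ℕ) ≤ 3 / 4
  · rw [rB, if_pos h]; simp
  · have h1 := shf_kk (n / c ^ 2) hc0 (t := s + a / (2 * c : ℕ)) (by linarith [not_le.1 h])
    have e1 : 2 * (s + a / (2 * c : ℕ)) = a / c + 2 * s := by push_cast; field_simp; ring
    have e2 : (n : ℝ) / c ^ 2 / 2 = 2 * n / ((2 * c : ℕ) : ℝ) ^ 2 := by push_cast; field_simp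
    have e3 : (2 * c : ℝ) = ((2 * c : ℕ) : ℝ) := by push_cast; ring
    rw [e1, e2, e3] at h1
    rw [mul_assoc (e _ _)]
    push_cast at h1 ⊢
    rw [h1]
    ring

lemma shf_fanA (n : ℕ) (e : ℕ → ℤ → ℂ) (s : ℝ) :
    fanG (SA n) e n rA (LA n) s = ∑ β ∈ (BS n).filter (fun β => β ^ 2 ≤ n),
      ∑ l ∈ Finset.range (LA n β), (rA (l / β) : ℝ) *
        (e β (-l) * (√β / β ^ 2) * kk (n / β ^ 2) (s + l / β)) := by
  rw [fanG, SA]
  refine Finset.sum_congr rfl fun β hβ => ?_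
  have h0 : (0 : ℝ) < β := by exact_mod_cast (shf_BS.1 (Finset.mem_filter.1 hβ).1).1
  rw [Finset.mul_sum, mainasm_pow h0]
  refine Finset.sum_congr rfl fun a _ => ?_
  push_cast
  ring

end

end Pool.Agent.MP_9f080f_an

end

-- part MP_9f080f_an.ShMult
section

namespace Pool.Agent.MP_9f080f_an
open Complex MeasureTheory Set Filter Topology Metric
open scoped Real

noncomputable section

/-! The Fourier coefficients of the multipliers, with frequency dependent bounds.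
`eC n β` is determined by `eC_spec` (for coprime `q` take `g = rep (q - β) q`, `τ = I`; all other factors are
nonzero), and the explicit `multC n β` (file MultC) satisfies the same law (`mult_cusp_law`, or re-run the last
part of `mult_cusp'`), so `eC n β = multC n β`; likewise `eT n c = multT n c` (file MultB).  Then repeat the
computations `key` of `mult_cusp'`, `multT_even`, `multT_odd` and stop before `TS_le`:
the coefficients are `TS β std (-2⁻¹) (n 2⁻¹) (-(t+m))` with `8 t = 3` in `ZMod β`, i.e. `8⁻¹ (-4, 4n, -8m-3)`;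
`TS c std (-4⁻¹) (n 4⁻¹) (-m) = 4⁻¹ (-1, n, -4m)`; `TS (2c) std (-1) n (-m)`. -/

lemma shmult_even (n c : ℕ) (hc : 0 < c) [NeZero (2 * c)] (he : Even (c : ℤ)) (m : ℤ) :
    2 * (√c : ℝ) * ∑ a ∈ Finset.range (2 * c),
      multT n c a * ep (-2 * (m + (0 : ℝ)) * a / (2 * c : ℕ)) =
      TS (2 * c) ZMod.stdAddChar (-1) n (-m) := by
  have hc0 : (c : ℂ) ≠ 0 := by exact_mod_cast hc.ne'
  have hs : (√c : ℝ) ≠ 0 := (Real.sqrt_pos.2 (by exact_mod_cast hc)).ne'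
  have hs' : ((√c : ℝ) : ℂ) ≠ 0 := by exact_mod_cast hs
  have hiff : ∀ a : ℕ, Adm a c ↔ IsCoprime (a : ℤ) (2 * c : ℕ) := by
    intro a
    push_cast
    rw [Adm, IsCoprime.mul_right_iff, Int.isCoprime_two_right, Int.odd_add, and_comm]
    simp [he]
  have key := mult_TS (2 * c) (-1) n (-m)
    (fun a => 2 * (√c : ℝ) * (multT n c a * ep (-2 * (m + (0 : ℝ)) * a / (2 * c : ℕ))))
    (fun a ha => by rw [multT, if_neg (mt (hiff a).1 ha)]; simp) (fun a ha => by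
      have hA := (hiff a).2 ha
      set g := rep a c
      have ga : g.a = a := rep_a hA
      have gc : g.c = c := rep_c hA
      obtain ⟨b', hb⟩ : Even g.b := (mult_par g).2.2.1.1 (gc ▸ he)
      have hinv : ((a : ℕ) : ZMod (2 * c))⁻¹ = (g.d : ZMod (2 * c)) := by
        refine ZMod.inv_eq_of_mul_eq_one _ _ _ ?_
        have h1 : (a : ℤ) * g.d = 1 + b' * (2 * c : ℕ) := by
          have := g.det; rw [ga, gc, hb] at this; push_cast; linear_combination this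
        have h2 := congrArg (Int.cast : ℤ → ZMod (2 * c)) h1
        simpa only [Int.cast_mul, Int.cast_natCast, Int.cast_add, Int.cast_one, ZMod.natCast_self,
          mul_zero, add_zero] using h2
      rw [hinv, ← mult_sum_zmod, multT, if_pos hA, show rep a c = g from rfl, multE, if_pos he]
      have h3 : ∀ r : ℕ, ZMod.stdAddChar (-1 * (g.d : ZMod (2 * c)) * (r : ZMod (2 * c)) ^ 2 +
          (n : ZMod (2 * c)) * (g.d : ZMod (2 * c)) + -(m : ZMod (2 * c)) * (a : ZMod (2 * c))) =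
          ep ((-g.d * r ^ 2 + n * g.d) / c) * ep (-2 * (m + (0 : ℝ)) * a / (2 * c : ℕ)) := by
        intro r
        rw [← ep_add]
        have := mult_psi (2 * c) (-1 * g.d * r ^ 2 + n * g.d + -m * a)
        push_cast at this ⊢
        rw [this]; congr 1; field_simp; ring
      simp_rw [h3]
      rw [← Finset.sum_mul, two_mul c, Finset.sum_range_add]
      have h4 : ∀ r : ℕ, ep ((-g.d * ((c + r : ℕ) : ℂ) ^ 2 + n * g.d) / c) =
          ep ((-g.d * r ^ 2 + n * g.d) / c) := fun r =>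
        mult_ep_even (k := -(2 * (g.d * r)) - c * g.d) ((even_two_mul _).neg.sub (he.mul_right _))
          (by push_cast; field_simp; ring)
      simp_rw [h4]
      field_simp
      ring)
  rwa [← Finset.mul_sum] at key

lemma shmult_odd (n c : ℕ) (hc : 0 < c) [NeZero c] (ho : ¬Even (c : ℤ)) (m : ℤ) :
    -(√c : ℝ) * ∑ a ∈ Finset.range (2 * c),
      multT n c a * ep (-2 * (m + (0 : ℝ)) * a / (2 * c : ℕ)) =
      TS c ZMod.stdAddChar (-4⁻¹) (n * 4⁻¹) (-m) := by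
  have hc0 : (c : ℂ) ≠ 0 := by exact_mod_cast hc.ne'
  have hs : (√c : ℝ) ≠ 0 := (Real.sqrt_pos.2 (by exact_mod_cast hc)).ne'
  have hs' : ((√c : ℝ) : ℂ) ≠ 0 := by exact_mod_cast hs
  have ho' : Odd (c : ℤ) := Int.not_even_iff_odd.1 ho
  have h2c : IsCoprime (2 : ℤ) c := Int.isCoprime_two_left.2 ho'
  have hu : IsUnit (4 : ZMod c) := by
    have : IsCoprime (c : ℤ) (2 * 2) := (h2c.mul_left h2c).symm
    have := (ZMod.coe_int_isUnit_iff_isCoprime _ _).2 this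
    norm_num at this
    exact this
  have h4 : (4 : ZMod c)⁻¹ * 4 = 1 := ZMod.inv_mul_of_unit _ hu
  have hsplit : ∀ f : ℕ → ℂ, (∀ a, f (2 * a + 1) = 0) →
      ∑ a ∈ Finset.range (2 * c), f a = ∑ a ∈ Finset.range c, f (2 * a) := by
    intro f hf
    generalize c = k
    induction k with
    | zero => simp
    | succ k ih =>
      rw [show 2 * (k + 1) = 2 * k + 1 + 1 by ring, Finset.sum_range_succ, Finset.sum_range_succ,
        Finset.sum_range_succ, ih, hf, add_zero]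
  rw [hsplit _ (fun a => by
    have : ¬Adm (2 * a + 1 : ℕ) c := fun h => by
      have := h.2
      push_cast at this
      exact Int.not_even_iff_odd.2 this ((odd_two_mul_add_one _).add_odd ho')
    rw [multT, if_neg this, zero_mul])]
  have hiff : ∀ a : ℕ, Adm (2 * a : ℕ) c ↔ IsCoprime (a : ℤ) c := by
    intro a
    push_cast
    rw [Adm, IsCoprime.mul_left_iff]
    exact ⟨fun h => h.1.2, fun h => ⟨⟨h2c, h⟩, (even_two_mul _).add_odd ho'⟩⟩
  have key := mult_TS c (-4⁻¹) (n * 4⁻¹) (-m)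
    (fun a => -(√c : ℝ) * (multT n c (2 * a : ℕ) *
      ep (-2 * (m + (0 : ℝ)) * (2 * a : ℕ) / (2 * c : ℕ))))
    (fun a ha => by rw [multT, if_neg (mt (hiff a).1 ha)]; simp) (fun a ha => by
      have hA := (hiff a).2 ha
      set g := rep (2 * a : ℕ) c
      have ga : g.a = (2 * a : ℕ) := rep_a hA
      have gc : g.c = c := rep_c hA
      obtain ⟨d', hd⟩ : Even g.d :=
        Int.not_odd_iff_even.1 (mt (mult_par g).2.2.2.2.2 (gc ▸ ho))
      have hinv : ((a : ℕ) : ZMod c)⁻¹ = 4 * (d' : ZMod c) := by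
        refine ZMod.inv_eq_of_mul_eq_one _ _ _ ?_
        have h1 : (a : ℤ) * (4 * d') = 1 + g.b * c := by
          have := g.det; rw [ga, gc, hd] at this; push_cast at this; linear_combination this
        have h2 := congrArg (Int.cast : ℤ → ZMod c) h1
        simpa only [Int.cast_mul, Int.cast_natCast, Int.cast_add, Int.cast_one, ZMod.natCast_self,
          mul_zero, add_zero, Int.cast_ofNat] using h2
      rw [hinv, ← mult_sum_zmod, multT, if_pos hA, show rep (2 * a : ℕ) c = g from rfl, multE,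
        if_neg ho]
      have h3 : ∀ r : ℕ, ZMod.stdAddChar (-4⁻¹ * (4 * (d' : ZMod c)) * (r : ZMod c) ^ 2 +
          (n : ZMod c) * 4⁻¹ * (4 * (d' : ZMod c)) + -(m : ZMod c) * (a : ZMod c)) =
          ep ((-g.d * r ^ 2 + n * g.d) / c) *
            ep (-2 * (m + (0 : ℝ)) * (2 * a : ℕ) / (2 * c : ℕ)) := by
        intro r
        rw [← ep_add]
        have := mult_psi c (-d' * r ^ 2 + n * d' + -m * a)
        have e : (-4⁻¹ * (4 * (d' : ZMod c)) * (r : ZMod c) ^ 2 +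
            (n : ZMod c) * 4⁻¹ * (4 * (d' : ZMod c)) + -(m : ZMod c) * (a : ZMod c)) =
            ((-d' * r ^ 2 + n * d' + -m * a : ℤ) : ZMod c) := by
          push_cast
          linear_combination (-(d' : ZMod c) * r ^ 2 + n * d') * h4
        rw [e, this, hd]; congr 1; push_cast; field_simp; ring
      simp_rw [h3]
      rw [← Finset.sum_mul]
      field_simp)
  rwa [← Finset.mul_sum] at key

lemma shmult_top_law (n c : ℕ) (hc : 0 < c) (g : GT) (hg : g.c = c) {τ : ℂ} (hτ : 0 < τ.im) :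
    g.chi * th3 τ * ep (-n * τ) =
      multT n c g.a * √c * rt (g.mob τ - g.a / c) * th3 (g.mob τ) * ep (-n * (τ + g.d / c)) := by
  have hc0 : (c : ℂ) ≠ 0 := by exact_mod_cast hc.ne'
  have hs : (√c : ℝ) ≠ 0 := (Real.sqrt_pos.2 (by exact_mod_cast hc)).ne'
  have hs' : ((√c : ℝ) : ℂ) ≠ 0 := by exact_mod_cast hs
  rw [multT_eq n c hc g hg, mult_top_law c hc g hg hτ, multE, GT.chi, hg]
  have h1 : ∑ r ∈ Finset.range c, ep ((-g.d * r ^ 2 + n * g.d) / c) =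
      multG c g.d * ep (n * g.d / c) := by
    rw [multG, Finset.sum_mul]
    refine Finset.sum_congr rfl fun r _ => ?_
    rw [← ep_add]; congr 1; ring
  have h2 : ep (-n * τ) = ep (n * g.d / c) * ep (-n * (τ + g.d / c)) := by
    rw [← ep_add]; congr 1; ring
  rw [h1, h2]
  generalize rt (g.mob τ - g.a / c) = u
  generalize ep (n * g.d / c) = v
  generalize ep (-n * (τ + g.d / c)) = w
  field_simp

lemma shmult_cusp_four (n β : ℕ) [NeZero β] {j t : ℤ} (hj : (β : ℤ) = 2 * j + 1)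
    (ht : j ^ 2 - j = t + t) (m : ℤ) :
    (√β : ℝ) / ep n * ∑ a ∈ Finset.range β, multC n β a * ep (-2 * (m + (3 / 8 : ℝ)) * a / β) =
      TS β ZMod.stdAddChar (-2⁻¹) (n * 2⁻¹) (-(t + m)) := by
  have hc0 : (β : ℂ) ≠ 0 := by exact_mod_cast NeZero.ne β
  have hs : (√β : ℝ) ≠ 0 := (Real.sqrt_pos.2 (by exact_mod_cast NeZero.pos β)).ne'
  have hs' : ((√β : ℝ) : ℂ) ≠ 0 := by exact_mod_cast hs
  have hj' : (β : ℂ) = 2 * j + 1 := by exact_mod_cast hj
  have ht' : (j : ℂ) ^ 2 - j = t + t := by exact_mod_cast ht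
  have key := mult_TS β (-2⁻¹) (n * 2⁻¹) (-(t + m))
    (fun a => (√β : ℝ) / ep n * (multC n β a * ep (-2 * (m + (3 / 8 : ℝ)) * a / β)))
    (fun a ha => by rw [multC, if_neg ha]; simp) (fun a ha => by
      rw [multC, if_pos ha]
      simp only [Int.cast_natCast, AddChar.map_add_eq_mul]
      have e1 : ZMod.stdAddChar (-((t : ZMod β) + (m : ZMod β)) * (a : ZMod β)) =
          ep (a - a * β / 4) * ep (-2 * (m + (3 / 8 : ℝ)) * a / β) := by
        have := mult_psi β (-(t + m) * a)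
        push_cast at this ⊢
        rw [this, ← ep_add]
        congr 1
        field_simp
        rw [hj']
        linear_combination (32 * a : ℂ) * ht'
      have e2 : ep (a + n - a * β / 4) = ep n * ep (a - a * β / 4) := by
        rw [← ep_add]; congr 1; ring
      rw [e1, e2, ← Finset.sum_mul]
      have := ep_ne n
      generalize ep (a - a * β / 4) = u
      generalize ep (-2 * (m + (3 / 8 : ℝ)) * a / β) = v
      simp only [← Finset.sum_mul]
      generalize ∑ i : ZMod β, ZMod.stdAddChar (-2⁻¹ * (a : ZMod β)⁻¹ * i ^ 2) = w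
      field_simp)
  rwa [← Finset.mul_sum] at key

lemma shmult_two {β : ℕ} (hβ : Odd β) : (2 : ZMod β)⁻¹ * 2 = 1 := by
  have : IsCoprime (β : ℤ) 2 := Int.isCoprime_two_right.2 (by exact_mod_cast hβ)
  have := (ZMod.coe_int_isUnit_iff_isCoprime _ _).2 this
  exact ZMod.inv_mul_of_unit _ (by simpa using this)

lemma shmult_cusp_law (n β : ℕ) [NeZero β] (hβ : Odd β) (g : GT) (hg : g.c - g.a = β) {τ : ℂ}
    (hτ : 0 < τ.im) : g.chi * th3 τ * ep (-n * τ) =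
      multC n β g.c * √β * rt (zw (g.mob τ) - g.c / β) * th2 (zw (g.mob τ)) *
        ep (-n * (τ - (g.b - g.d) / β)) := by
  have hc : 0 < β := hβ.pos
  have hc0 : (β : ℂ) ≠ 0 := by exact_mod_cast hc.ne'
  have hs : (√β : ℝ) ≠ 0 := (Real.sqrt_pos.2 (by exact_mod_cast hc)).ne'
  have hs' : ((√β : ℝ) : ℂ) ≠ 0 := by exact_mod_cast hs
  have h2 := shmult_two hβ
  have hdet : g.c * -(g.b - g.d) - g.d * β = 1 := by rw [← hg]; linear_combination g.det
  have hcop : IsCoprime g.c β := ⟨-(g.b - g.d), -g.d, by linear_combination hdet⟩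
  obtain ⟨δ, hδ⟩ : Even (g.b - g.d + β) := by
    have h1 : Odd (g.b - g.d) := by
      have e : g.b - g.d = g.b + g.d - 2 * g.d := by ring
      rw [e]; exact g.p2.sub_even (even_two_mul _)
    exact h1.add_odd (by exact_mod_cast hβ)
  have hδ' : 2 * δ = g.b - g.d + β := by linarith
  have hδc : (g.b - g.d : ℂ) = 2 * δ - β := by
    have : g.b - g.d = 2 * δ - β := by linarith
    exact_mod_cast this
  have hinv : (g.c : ZMod β)⁻¹ = -(2 * (δ : ZMod β)) := by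
    refine ZMod.inv_eq_of_mul_eq_one _ _ _ ?_
    have h1 : g.c * -(2 * δ) = 1 + (g.d - g.c) * β := by rw [hδ']; linear_combination hdet
    have h3 := congrArg (Int.cast : ℤ → ZMod β) h1
    simpa only [Int.cast_mul, Int.cast_natCast, Int.cast_add, Int.cast_one, ZMod.natCast_self,
      mul_zero, add_zero, Int.cast_ofNat, Int.cast_neg] using h3
  rw [mult_cusp_law β hβ g hg δ hδ' hτ, multC, if_pos hcop, hinv, ← mult_sum_zmod]
  have h3 : ∀ k : ℕ, ZMod.stdAddChar (-2⁻¹ * -(2 * (δ : ZMod β)) * (k : ZMod β) ^ 2 +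
      (n : ZMod β) * 2⁻¹ * -(2 * (δ : ZMod β))) =
      ep (2 * δ * k ^ 2 / β) * ep (-(2 * n * δ / β)) := by
    intro k
    have e : (-2⁻¹ * -(2 * (δ : ZMod β)) * (k : ZMod β) ^ 2 +
        (n : ZMod β) * 2⁻¹ * -(2 * (δ : ZMod β))) = ((δ * k ^ 2 - n * δ : ℤ) : ZMod β) := by
      push_cast
      linear_combination ((δ : ZMod β) * k ^ 2 - n * δ) * h2
    rw [e, mult_psi, ← ep_add]; congr 1; push_cast; ring
  simp_rw [h3]
  rw [← Finset.sum_mul]
  have h4 : g.chi = ep g.c := by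
    rw [GT.chi]
    split_ifs with h
    · exact (ep_zero.symm.trans (mult_ep_even h (zero_add _).symm).symm)
    · obtain ⟨k, hk⟩ := Int.not_even_iff_odd.1 h
      rw [← ep_one]
      exact (mult_ep_congr k (by rw [hk]; push_cast; ring)).symm
  have h5 : ep g.c * ep (-g.c * β / 4) * ep (-n * τ) = ep (g.c + n - g.c * β / 4) *
      ep (-(2 * n * δ / β)) * ep (-n * (τ - (g.b - g.d) / β)) := by
    rw [← ep_add, ← ep_add, ← ep_add, ← ep_add, hδc]
    congr 1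
    field_simp
    ring
  rw [h4]
  generalize rt (zw (g.mob τ) - g.c / β) = u
  generalize th2 (zw (g.mob τ)) = v
  generalize ∑ k ∈ Finset.range β, ep (2 * δ * k ^ 2 / β) = w
  calc _ = (ep g.c * ep (-g.c * β / 4) * ep (-n * τ)) * (w * u * v) := by ring
    _ = _ := by
      rw [h5]
      generalize ep (g.c + n - g.c * β / 4) = x
      generalize ep (-(2 * n * δ / β)) = y
      generalize ep (-n * (τ - (g.b - g.d) / β)) = z
      field_simp

lemma shmult_sub_ne {w : ℂ} (hw : 0 < w.im) (a : ℤ) (c : ℕ) : w - a / c ≠ 0 := by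
  refine ne_of_im ?_
  have : ((a : ℂ) / c) = ((a / c : ℝ) : ℂ) := by push_cast; rfl
  rw [this, sub_im, ofReal_im, sub_zero]; exact hw

lemma shmult_eT (n : ℕ) {c : ℕ} (hc : 0 < c) (a : ℤ) : eT n c a = multT n c a := by
  obtain ⟨-, h0, h1⟩ := eT_spec n hc
  by_cases h : Adm a c
  · have hI : 0 < (I : ℂ).im := by simp
    have hw := (rep a c).im_mob_pos hI
    have h2 := h1 (rep a c) (rep_c h) I hI
    rw [shmult_top_law n c hc (rep a c) (rep_c h) hI, rep_a h] at h2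
    have hs : (√c : ℝ) ≠ 0 := (Real.sqrt_pos.2 (by exact_mod_cast hc)).ne'
    have hs' : ((√c : ℝ) : ℂ) ≠ 0 := by exact_mod_cast hs
    exact (mul_right_cancel₀ hs' (mul_right_cancel₀ (rt_ne (shmult_sub_ne hw a c))
      (mul_right_cancel₀ (th3_ne hw) (mul_right_cancel₀ (ep_ne _) h2)))).symm
  · rw [h0 a h, multT, if_neg h]

lemma shmult_eC (n : ℕ) {β : ℕ} [NeZero β] (hβ : Odd β) (q : ℤ) : eC n β q = multC n β q := by
  obtain ⟨-, h0, h1⟩ := eC_spec n hβ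
  by_cases h : IsCoprime q β
  · have hA : Adm (q - β) q := by
      refine ⟨?_, ?_⟩
      · obtain ⟨u, v, huv⟩ := h
        exact ⟨-v, u + v, by linear_combination huv⟩
      · have e : q - β + q = 2 * q - β := by ring
        rw [e]; exact (even_two_mul q).sub_odd (by exact_mod_cast hβ)
    have hI : 0 < (I : ℂ).im := by simp
    have hg : (rep (q - β) q).c - (rep (q - β) q).a = β := by rw [rep_a hA, rep_c hA]; ring
    have hw := im_zw_pos ((rep (q - β) q).im_mob_pos hI)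
    have h2 := h1 _ hg I hI
    rw [shmult_cusp_law n β hβ _ hg hI, rep_c hA] at h2
    have hs : (√β : ℝ) ≠ 0 := (Real.sqrt_pos.2 (by exact_mod_cast hβ.pos)).ne'
    have hs' : ((√β : ℝ) : ℂ) ≠ 0 := by exact_mod_cast hs
    exact (mul_right_cancel₀ hs' (mul_right_cancel₀ (rt_ne (shmult_sub_ne hw q β))
      (mul_right_cancel₀ (th2_ne hw) (mul_right_cancel₀ (ep_ne _) h2)))).symm
  · rw [h0 q h, multC, if_neg h]

lemma shmult_Wf (F : Fam) (n q : ℕ) [NeZero q] (hq : IsCoprime (F.h * F.A) q) (m : ℤ) :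
    Wf F n q m = ‖TS q ZMod.stdAddChar ((F.h : ZMod q)⁻¹ * F.A) ((F.h : ZMod q)⁻¹ * (F.B * n))
      ((F.h : ZMod q)⁻¹ * (F.c₁ * m + F.c₀))‖ / q := by
  rw [Wf, if_pos hq, STT, dif_neg (NeZero.ne q), iv]
  simp only [Int.cast_mul, Int.cast_natCast, ZMod.natCast_zmod_val, Int.cast_add]

lemma shmult_inv {q : ℕ} (hq : Odd q) (k : ℕ) : ((2 : ZMod q) ^ k)⁻¹ = 2⁻¹ ^ k :=
  ZMod.inv_eq_of_mul_eq_one _ _ _ (by rw [← mul_pow, mul_comm, shmult_two hq, one_pow])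

lemma shmult_cop {q : ℕ} (hq : Odd q) (k : ℕ) : IsCoprime (-(2 : ℤ) ^ k) q :=
  (IsCoprime.pow_left (Int.isCoprime_two_left.2 (by exact_mod_cast hq))).neg_left

theorem eC_twW (n : ℕ) {β : ℕ} (hβ : Odd β) : TwW (eC n β) β (3 / 8) (Wf F1 n β) := by
  have hc : 0 < β := hβ.pos
  have : NeZero β := ⟨hc.ne'⟩
  refine ⟨(eC_spec n hβ).1.per, fun m => ?_⟩
  obtain ⟨j, hj⟩ : Odd (β : ℤ) := by exact_mod_cast hβ
  obtain ⟨t, ht⟩ := mult_even_sq j
  have key := congrArg norm (shmult_cusp_four n β hj ht m)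
  have h2 := shmult_two hβ
  have h8 : ((F1.h : ℤ) : ZMod β)⁻¹ = 2⁻¹ ^ 3 := by
    rw [← shmult_inv hβ]; congr 1; simp [F1]; norm_num
  have h3 : (8 : ZMod β) * t = 3 := by
    have h4 : 8 * t = 3 + (β - 4) * β := by rw [hj]; linear_combination (-4) * ht
    have h5 := congrArg (Int.cast : ℤ → ZMod β) h4
    simpa using h5
  have e1 : (2 : ZMod β)⁻¹ ^ 3 * (F1.A : ℤ) = -2⁻¹ := by
    simp only [F1]; push_cast
    linear_combination (-(2 : ZMod β)⁻¹ * (2⁻¹ * 2 + 1)) * h2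
  have e2 : (2 : ZMod β)⁻¹ ^ 3 * ((F1.B : ℤ) * n) = n * 2⁻¹ := by
    simp only [F1]; push_cast
    linear_combination ((n : ZMod β) * 2⁻¹ * (2⁻¹ * 2 + 1)) * h2
  have e3 : (2 : ZMod β)⁻¹ ^ 3 * ((F1.c₁ : ℤ) * m + (F1.c₀ : ℤ)) = -(t + m) := by
    simp only [F1]; push_cast
    linear_combination (-((t : ZMod β) + m) * ((2⁻¹ * 2) ^ 2 + 2⁻¹ * 2 + 1)) * h2 +
      (2 : ZMod β)⁻¹ ^ 3 * h3
  rw [shmult_Wf F1 n β (by simpa [F1] using shmult_cop hβ 5), h8, e1, e2, e3, ← key]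
  have h0 : (0 : ℝ) < β := by exact_mod_cast hc
  have hn : ‖ep n‖ = 1 := by simpa using norm_ep_real n
  simp_rw [shmult_eC n hβ]
  rw [norm_mul, norm_div, hn, norm_real, Real.norm_of_nonneg (Real.sqrt_nonneg _), div_one,
    ← mul_div_assoc, ← mul_assoc, Real.mul_self_sqrt h0.le, mul_div_cancel_left₀ _ h0.ne']

theorem eT_twW (n : ℕ) {c : ℕ} (hc : 0 < c) : TwW (eT n c) (2 * c) 0 (WB n (2 * c)) := by
  have : NeZero c := ⟨hc.ne'⟩
  have : NeZero (2 * c) := ⟨by omega⟩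
  refine ⟨(eT_spec n hc).1.per, fun m => ?_⟩
  have h0 : (0 : ℝ) < c := by exact_mod_cast hc
  have hs : √(c : ℝ) ≤ √((2 * c : ℕ) : ℝ) := Real.sqrt_le_sqrt (by push_cast; linarith)
  have hs0 := Real.sqrt_nonneg (c : ℝ)
  have w2 := Wf_nonneg F2 n c m
  have w3 := Wf_nonneg F3 n (2 * c) m
  rw [WB, if_pos (dvd_mul_right 2 c), Nat.mul_div_cancel_left c two_pos]
  simp_rw [shmult_eT n hc]
  refine le_trans ?_ (mul_le_mul_of_nonneg_right hs (add_nonneg w2 w3))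
  by_cases he : Even (c : ℤ)
  · refine le_trans (le_of_eq ?_) (mul_le_mul_of_nonneg_left (le_add_of_nonneg_left w2) hs0)
    have key := congrArg norm (shmult_even n c hc he m)
    have h1 : ((F3.h : ℤ) : ZMod (2 * c))⁻¹ = 1 := by simp [F3]
    have e1 : (1 : ZMod (2 * c)) * (F3.A : ℤ) = -1 := by simp [F3]
    have e2 : (1 : ZMod (2 * c)) * ((F3.B : ℤ) * n) = n := by simp [F3]
    have e3 : (1 : ZMod (2 * c)) * ((F3.c₁ : ℤ) * m + (F3.c₀ : ℤ)) = -m := by simp [F3]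
    rw [shmult_Wf F3 n (2 * c) (by simpa [F3] using isCoprime_one_left.neg_left), h1, e1, e2, e3,
      ← key, norm_mul, norm_mul, norm_real, Real.norm_of_nonneg hs0, Complex.norm_two]
    have e4 : ∀ x : ℝ, x = √c * (2 * √c * x / ((2 * c : ℕ) : ℝ)) := fun x => by
      push_cast
      field_simp
      rw [Real.sq_sqrt h0.le]
    exact e4 _
  · refine le_trans (le_of_eq ?_) (mul_le_mul_of_nonneg_left (le_add_of_nonneg_right w3) hs0)
    have ho : Odd c := by exact_mod_cast Int.not_even_iff_odd.1 he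
    have key := congrArg norm (shmult_odd n c hc he m)
    have h2 := shmult_two ho
    have h4 : (4 : ZMod c)⁻¹ = 2⁻¹ ^ 2 := by rw [← shmult_inv ho]; congr 1; norm_num
    have h1 : ((F2.h : ℤ) : ZMod c)⁻¹ = 4⁻¹ := by simp [F2]
    have e1 : (4 : ZMod c)⁻¹ * (F2.A : ℤ) = -4⁻¹ := by simp [F2]
    have e2 : (4 : ZMod c)⁻¹ * ((F2.B : ℤ) * n) = n * 4⁻¹ := by simp [F2, mul_comm]
    have e3 : (4 : ZMod c)⁻¹ * ((F2.c₁ : ℤ) * m + (F2.c₀ : ℤ)) = -m := by
      rw [h4]; simp only [F2]; push_cast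
      linear_combination (-(m : ZMod c) * (2⁻¹ * 2 + 1)) * h2
    rw [shmult_Wf F2 n c (by simpa [F2] using shmult_cop ho 2), h1, e1, e2, e3,
      ← key, norm_mul, norm_neg, norm_real, Real.norm_of_nonneg hs0, ← mul_div_assoc, ← mul_assoc,
      Real.mul_self_sqrt h0.le, mul_div_cancel_left₀ _ h0.ne']

end

end Pool.Agent.MP_9f080f_an

end

-- part MP_9f080f_an.ShFrame
section

namespace Pool.Agent.MP_9f080f_an
open Complex MeasureTheory Set Filter Topology Metric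
open scoped Real

noncomputable section

/-! The sum over all cusps on one side, in mean square. -/

/-- the sum over the cusps on one side -/
def shS (n : ℕ) (σ s : ℝ) : ℂ :=
  ∑ β ∈ BS n, (√β / β ^ 2) * mainasmS (eC n β) β (n / β ^ 2) σ (mainasmQ n β σ) s

/-- reflection -/
def rfl' (e : ℤ → ℂ) (q : ℤ) : ℂ := (starRingEnd ℂ) (e (-q))

lemma shf_norm_rt1 : ‖rt 1‖ = 1 := by simp [norm_rt]

lemma shf_norm_rt2 : ‖rt (-1)‖ = 1 := by simp [norm_rt]

lemma shf_pos {c a : ℕ} (hc : 0 < c) {ζ : ℝ} (hζ : 0 < ζ) (h : rB (a / (2 * c : ℕ)) ≠ 0) :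
    0 < (a : ℝ) / c - (1 - 1 / ζ) := by
  have hc0 : (0 : ℝ) < c := by exact_mod_cast hc
  have h1 : ¬(a : ℝ) / (2 * c : ℕ) ≤ 3 / 4 := fun h1 => h (by rw [rB, if_pos h1])
  have h2 : (a : ℝ) / (2 * c : ℕ) = a / c / 2 := by push_cast; field_simp
  have h3 : 0 < 1 / ζ := by positivity
  rw [h2] at h1
  linarith [not_le.1 h1]

lemma shf_side1 {n : ℕ} (hn : 1 ≤ n) {s : ℝ} (hs : 0 < s) :
    ‖shS n 1 s‖ ≤ wt 1 * (s + 1 / 2) ^ (-3 / 2 : ℝ) + ‖fanG (SA n) (eC n) n rA (LA n) (s + 1 / 2)‖ +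
      (s + 1 / 2) ^ (-3 / 2 : ℝ) * ‖fanG (SB n) (fun P => rfl' (eT n (P / 2))) (2 * n) rB (LB n)
        ((1 / (s + 1 / 2) - 1) / 2)‖ := by
  set ζ := s + 1 / 2 with hζ
  have hζ0 : 0 < ζ := by linarith
  have hζ1 : (ζ : ℂ) ≠ 0 := by exact_mod_cast hζ0.ne'
  set X : ℕ → ℕ → ℂ := fun β l => eC n β (-l) * (√β / β ^ 2) * kc (n / β ^ 2) ((ζ + l / β : ℝ) : ℂ)
    with hX
  have e1 : shS n 1 s = X 1 0 + ∑ β ∈ BS n, ∑ l ∈ Finset.Ico 1 (LA n β), X β l := by
    have a1 : X 1 0 = ∑ β ∈ BS n, if β ^ 2 ≤ n then X β 0 else 0 := by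
      rw [Finset.sum_eq_single 1, if_pos (by simpa using hn)]
      · intro β hβ h1
        split_ifs
        · rw [hX]
          dsimp only
          rw [(eC_spec n (shf_BS.1 hβ).2.2).2.1 _ (by simpa [isCoprime_zero_left, Int.isUnit_iff_natAbs_eq] using h1)]
          simp
        · rfl
      · intro h; exact absurd (shf_BS.2 ⟨le_rfl, hn, odd_one⟩) h
    rw [a1, ← Finset.sum_add_distrib, shS]
    refine Finset.sum_congr rfl fun β hβ => ?_
    rw [mainasmS, shf_Q1 (shf_BS.1 hβ).1, Finset.sum_image (fun a _ b _ h => by simpa using h),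
      Finset.mul_sum]
    have a2 : ∀ l : ℕ, (√β / β ^ 2 : ℂ) * (eC n β (-l) * kc (n / β ^ 2) (((1 / 2 : ℝ) : ℂ)
        + (1 : ℝ) * s - ((((-(l : ℤ) : ℤ) : ℝ) / β : ℝ) : ℂ))) = X β l := fun l => by
      rw [hX, hζ, ← mul_assoc, mul_comm _ (eC n β (-l))]
      dsimp only
      congr 2
      push_cast
      ring
    simp only [a2]
    split_ifs with h
    · rw [Finset.range_eq_Ico, Finset.sum_eq_sum_Ico_succ_bot (by
        rw [LA, if_pos h]; exact Nat.succ_pos _)]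
    · rw [LA, if_neg h]
      simp
  have e2 : ∑ β ∈ (BS n).filter (fun β => β ^ 2 ≤ n), ∑ l ∈ Finset.range (LA n β),
      (rA (l / β) : ℝ) * X β l = rt 1 * fanG (SA n) (eC n) n rA (LA n) ζ := by
    rw [shf_fanA, Finset.mul_sum]
    refine Finset.sum_congr rfl fun β _ => ?_
    rw [Finset.mul_sum]
    refine Finset.sum_congr rfl fun l _ => ?_
    rw [hX]
    dsimp only
    rw [mainasm_kc_pos _ (by positivity)]
    ring
  have e3 : ∑ β ∈ BS n, ∑ l ∈ Finset.Ico 1 (LA n β), (1 - rA (l / β) : ℝ) * X β l =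
      rt ζ / ζ ^ 2 * rt (-1) * (starRingEnd ℂ) (fanG (SB n) (fun P => rfl' (eT n (P / 2))) (2 * n) rB
        (LB n) ((1 / ζ - 1) / 2)) := by
    have a1 := shf_reindex n (fun c a => eT n c a * (√c / c ^ 2) *
      kc (n / c ^ 2) (-((a / c - (1 - 1 / ζ) : ℝ) : ℂ)) * rt ζ / ζ ^ 2) (fun c a hc h => by
        rw [(eT_spec n hc).2.1 _ (fun h' => h (by exact_mod_cast h'.2))]; simp)
    rw [shf_fanB n _ (by have : 0 < 1 / ζ := by positivity
                         linarith), map_sum, Finset.mul_sum]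
    refine Eq.trans (Finset.sum_congr rfl fun β hβ => Finset.sum_congr rfl fun l hl => ?_)
      (a1.trans (Finset.sum_congr rfl fun c hc => ?_))
    · rw [← shf_E1 n (shf_BS.1 hβ).2.2 (Finset.mem_Ico.1 hl).1 hζ0, hX,
        mul_div_cancel_right₀ _ (pow_ne_zero _ hζ1)]
    · rw [map_sum, Finset.mul_sum]
      refine Finset.sum_congr rfl fun a _ => ?_
      by_cases h : rB (a / (2 * c : ℕ)) = 0
      · rw [h]; simp
      · rw [mainasm_kc_neg _ (shf_pos (Finset.mem_Icc.1 hc).1 hζ0 h), rfl',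
          Nat.mul_div_cancel_left _ two_pos, neg_neg,
          show (a : ℝ) / c + 2 * ((1 / ζ - 1) / 2) = a / c - (1 - 1 / ζ) by ring]
        simp only [map_mul, map_div₀, map_pow, conj_ofReal, conj_natCast, conj_conj]
        ring
  rw [e1, shf_split, e2, e3, ← add_assoc]
  refine norm_add_le_of_le (norm_add_le_of_le ?_ ?_) ?_
  · have a1 := (eC_spec n odd_one).1.four 0
    simp only [Finset.range_one, Finset.sum_singleton, Nat.cast_zero, mul_zero, zero_div, ep_zero,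
      mul_one, Nat.cast_one, Real.sqrt_one] at a1
    rw [hX]
    dsimp only
    rw [norm_mul, norm_mul, mainasm_norm_kc _ (by simpa using hζ0.ne')]
    simp only [Nat.cast_zero, neg_zero, Nat.cast_one, Real.sqrt_one, ofReal_one, one_pow, div_one,
      norm_one, mul_one, add_zero, abs_of_pos hζ0]
    gcongr
  · rw [norm_mul, shf_norm_rt1, one_mul]
  · rw [norm_mul, norm_mul, shf_norm_rt2, mul_one, RCLike.norm_conj, norm_div, norm_rt, norm_pow,
      norm_real, Real.norm_of_nonneg hζ0.le, mainasm_pow hζ0]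

lemma shf_side2 (n : ℕ) {s : ℝ} (hs : 0 < s) :
    ‖shS n (-1) s‖ ≤ ‖fanG (SA n) (fun β => rfl' (eC n β)) n rA (LA n) (s + 1 / 2)‖ +
      (s + 1 / 2) ^ (-3 / 2 : ℝ) * ‖fanG (SB n) (fun P => eT n (P / 2)) (2 * n) rB (LB n)
        ((1 / (s + 1 / 2) - 1) / 2)‖ := by
  set ζ := s + 1 / 2 with hζ
  have hζ0 : 0 < ζ := by linarith
  have hζ1 : (ζ : ℂ) ≠ 0 := by exact_mod_cast hζ0.ne'
  set X : ℕ → ℕ → ℂ := fun β l => eC n β (β + l : ℕ) * (√β / β ^ 2) *
    kc (n / β ^ 2) (-((ζ + l / β : ℝ) : ℂ)) with hX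
  have e1 : shS n (-1) s = ∑ β ∈ BS n, ∑ l ∈ Finset.Ico 1 (LA n β), X β l := by
    refine Finset.sum_congr rfl fun β hβ => ?_
    have h0 : (β : ℂ) ≠ 0 := by exact_mod_cast (shf_BS.1 hβ).2.2.pos.ne'
    rw [mainasmS, shf_Q2 (shf_BS.1 hβ).1, Finset.sum_image (fun a _ b _ h => by simpa using h),
      Finset.mul_sum]
    refine Finset.sum_congr rfl fun l _ => ?_
    rw [hX, hζ, ← mul_assoc, mul_comm _ (eC n β _)]
    dsimp only
    congr 2
    push_cast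
    field_simp
    ring
  have e2 : ∑ β ∈ (BS n).filter (fun β => β ^ 2 ≤ n), ∑ l ∈ Finset.range (LA n β),
      (rA (l / β) : ℝ) * X β l = ep (2 * (3 / 8 : ℝ)) * rt (-1) *
        (starRingEnd ℂ) (fanG (SA n) (fun β => rfl' (eC n β)) n rA (LA n) ζ) := by
    rw [shf_fanA, map_sum, Finset.mul_sum]
    refine Finset.sum_congr rfl fun β hβ => ?_
    rw [map_sum, Finset.mul_sum]
    refine Finset.sum_congr rfl fun l _ => ?_
    have a1 := (eC_spec n (shf_BS.1 (Finset.mem_filter.1 hβ).1).2.2).1.per l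
    rw [hX]
    dsimp only
    rw [mainasm_kc_neg _ (by positivity), rfl', neg_neg, show ((β + l : ℕ) : ℤ) = l + β by
      push_cast; ring, a1]
    simp only [map_mul, map_div₀, map_pow, conj_ofReal, conj_natCast, conj_conj]
    ring
  have e3 : ∑ β ∈ BS n, ∑ l ∈ Finset.Ico 1 (LA n β), (1 - rA (l / β) : ℝ) * X β l =
      -(ep (-(1 / 4)) * (rt (-ζ) / ζ ^ 2) * rt 1) * fanG (SB n) (fun P => eT n (P / 2)) (2 * n) rB
        (LB n) ((1 / ζ - 1) / 2) := by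
    have a1 := shf_reindex n (fun c a => -(eT n c (-a) * (√c / c ^ 2) *
      kc (n / c ^ 2) ((a / c - (1 - 1 / ζ) : ℝ) : ℂ) * (ep (-(1 / 4)) * rt (-ζ))) / ζ ^ 2)
      (fun c a hc h => by
        rw [(eT_spec n hc).2.1 _ (fun h' => h (by
          obtain ⟨k, hk⟩ := h'.2
          have : Odd ((a + c : ℕ) : ℤ) := ⟨k + a, by push_cast; linarith⟩
          exact_mod_cast this))]
        simp)
    rw [shf_fanB n _ (by have : 0 < 1 / ζ := by positivity
                         linarith), Finset.mul_sum]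
    refine Eq.trans (Finset.sum_congr rfl fun β hβ => Finset.sum_congr rfl fun l hl => ?_)
      (a1.trans (Finset.sum_congr rfl fun c hc => ?_))
    · rw [← shf_E2 n (shf_BS.1 hβ).2.2 (Finset.mem_Ico.1 hl).1 hζ0, hX,
        mul_div_cancel_right₀ _ (pow_ne_zero _ hζ1)]
    · rw [Finset.mul_sum]
      refine Finset.sum_congr rfl fun a _ => ?_
      by_cases h : rB (a / (2 * c : ℕ)) = 0
      · rw [h]; simp
      · rw [mainasm_kc_pos _ (shf_pos (Finset.mem_Icc.1 hc).1 hζ0 h),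
          Nat.mul_div_cancel_left _ two_pos,
          show (a : ℝ) / c + 2 * ((1 / ζ - 1) / 2) = a / c - (1 - 1 / ζ) by ring]
        ring
  rw [e1, shf_split, e2, e3]
  have n1 := norm_ep_real (2 * (3 / 8))
  have n2 := norm_ep_real (-(1 / 4))
  push_cast at n1 n2
  refine norm_add_le_of_le ?_ ?_
  · rw [norm_mul, norm_mul, shf_norm_rt2, RCLike.norm_conj]
    push_cast
    rw [n1, one_mul, one_mul]
  · rw [norm_mul, norm_neg, norm_mul, norm_mul, shf_norm_rt1, n2, mul_one, one_mul, norm_div,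
      norm_rt, norm_neg, norm_pow, norm_real, Real.norm_of_nonneg hζ0.le, mainasm_pow hζ0]

end

end Pool.Agent.MP_9f080f_an

end

-- part MP_9f080f_an.ShMT
section

namespace Pool.Agent.MP_9f080f_an
open Complex MeasureTheory Set Filter Topology Metric
open scoped Real

noncomputable section

/-! The main term in mean square. -/

lemma shm_cov {F : ℝ → ℂ} (hF : ContinuousOn F (Icc (-1 / 2) (1 / 2))) :
    IntegrableOn (fun ζ : ℝ => 1 / (2 * ζ ^ 2) * ‖F ((1 / ζ - 1) / 2)‖ ^ 2) (Ioi (1 / 2)) ∧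
      ∫ ζ in Ioi (1 / 2 : ℝ), 1 / (2 * ζ ^ 2) * ‖F ((1 / ζ - 1) / 2)‖ ^ 2 =
        ∫ s in (-1 / 2 : ℝ)..(1 / 2), ‖F s‖ ^ 2 := by
  have hd : ∀ ζ ∈ Ioi (1 / 2 : ℝ), HasDerivWithinAt (fun ζ : ℝ => (1 / ζ - 1) / 2) (-(1 / (2 * ζ ^ 2)))
      (Ioi (1 / 2)) ζ := by
    intro ζ hζ
    have h0 : ζ ≠ 0 := by have : 1 / 2 < ζ := hζ
                          linarith
    have := (((hasDerivAt_inv h0).sub_const 1).div_const 2).hasDerivWithinAt (s := Ioi (1 / 2))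
    simp only [one_div] at this ⊢
    refine this.congr_deriv ?_
    field_simp
  have hi : InjOn (fun ζ : ℝ => (1 / ζ - 1) / 2) (Ioi (1 / 2)) := by
    intro a _ b _ h
    have : a⁻¹ = b⁻¹ := by simp only [one_div] at h; linarith
    exact inv_injective this
  have him : (fun ζ : ℝ => (1 / ζ - 1) / 2) '' Ioi (1 / 2) = Ioo (-1 / 2) (1 / 2) := by
    ext s
    constructor
    · rintro ⟨ζ, hζ, rfl⟩
      have h1 : 1 / 2 < ζ := hζ
      have h2 : 0 < 1 / ζ := by positivity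
      have h3 : 1 / ζ < 2 := by rw [div_lt_iff₀ (by linarith)]; linarith
      constructor <;> dsimp only <;> linarith
    · rintro ⟨h1, h2⟩
      refine ⟨1 / (2 * s + 1), ?_, by dsimp only; rw [one_div_one_div]; ring⟩
      exact one_div_lt_one_div_of_lt (show 0 < 2 * s + 1 by linarith) (show 2 * s + 1 < 2 by linarith)
  have hc : IntegrableOn (fun s => ‖F s‖ ^ 2) (Ioo (-1 / 2) (1 / 2)) :=
    ((hF.norm.pow 2).integrableOn_Icc).mono_set Ioo_subset_Icc_self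
  have e : ∀ ζ : ℝ, |(-(1 / (2 * ζ ^ 2)))| = 1 / (2 * ζ ^ 2) := fun ζ => by
    rw [abs_neg, abs_of_nonneg (by positivity)]
  have k1 := (integrableOn_image_iff_integrableOn_abs_deriv_smul measurableSet_Ioi hd hi
    (fun s => ‖F s‖ ^ 2)).1 (him ▸ hc)
  have k2 := integral_image_eq_integral_abs_deriv_smul measurableSet_Ioi hd hi (fun s => ‖F s‖ ^ 2)
  simp only [e, smul_eq_mul] at k1 k2
  refine ⟨k1, ?_⟩
  rw [← k2, him, intervalIntegral.integral_of_le (by norm_num), integral_Ioc_eq_integral_Ioo]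

lemma shm_meas (n : ℕ) (σ : ℝ) : Measurable (shS n σ) := by
  have h : ∀ H : ℝ, Measurable (kc H) := fun H => by
    have h1 : Measurable rt := by unfold rt; fun_prop
    have h2 := continuous_ep.measurable
    unfold kc
    fun_prop
  unfold shS mainasmS
  fun_prop

lemma shm_L2 {S G F : ℝ → ℂ} (hS : Measurable S) {w a b : ℝ}
    (h : ∀ s, 0 < s → ‖S s‖ ≤ w * (s + 1 / 2) ^ (-3 / 2 : ℝ) + ‖G (s + 1 / 2)‖ +
      (s + 1 / 2) ^ (-3 / 2 : ℝ) * ‖F ((1 / (s + 1 / 2) - 1) / 2)‖)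
    (hG : IntegrableOn (fun s : ℝ => ‖G s‖ ^ 2 * (1 + s)) (Ioi (1 / 2)))
    (ha : ∫ s in Ioi (1 / 2 : ℝ), ‖G s‖ ^ 2 * (1 + s) ≤ a)
    (hF : ContinuousOn F (Icc (-1 / 2) (1 / 2))) (hb : ∫ s in (-1 / 2 : ℝ)..(1 / 2), ‖F s‖ ^ 2 ≤ b) :
    IntegrableOn (fun s : ℝ => ‖S s‖ ^ 2 * (1 + (s + 1 / 2))) (Ioi 0) ∧
      ∫ s in Ioi (0 : ℝ), ‖S s‖ ^ 2 * (1 + (s + 1 / 2)) ≤ 18 * w ^ 2 + 3 * a + 18 * b := by
  obtain ⟨k1, k2⟩ := shm_cov hF
  obtain ⟨k3, k4⟩ := shm_cov (F := fun _ => (w : ℂ)) continuousOn_const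
  simp only [norm_real, Real.norm_eq_abs, sq_abs] at k3 k4
  rw [intervalIntegral.integral_const, smul_eq_mul] at k4
  have hI := ((k3.const_mul 18).add (hG.const_mul 3)).add (k1.const_mul 18)
  have hv : ∫ ζ in Ioi (1 / 2 : ℝ), (18 * (1 / (2 * ζ ^ 2) * w ^ 2) + 3 * (‖G ζ‖ ^ 2 * (1 + ζ))
      + 18 * (1 / (2 * ζ ^ 2) * ‖F ((1 / ζ - 1) / 2)‖ ^ 2)) ≤ 18 * w ^ 2 + 3 * a + 18 * b := by
    have e := integral_add' ((k3.const_mul 18).add (hG.const_mul 3)) (k1.const_mul 18)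
    rw [integral_add' (k3.const_mul 18) (hG.const_mul 3), integral_const_mul, integral_const_mul,
      integral_const_mul, k2, k4] at e
    refine e.le.trans ?_
    linarith
  have hp : (fun s : ℝ => s + 1 / 2) ⁻¹' Ioi (1 / 2) = Ioi 0 := by
    ext s; simp
  have mp := measurePreserving_add_right (volume : Measure ℝ) (1 / 2 : ℝ)
  have me : MeasurableEmbedding (fun s : ℝ => s + 1 / 2) :=
    (Homeomorph.addRight (1 / 2 : ℝ)).measurableEmbedding
  rw [← mp.setIntegral_preimage_emb me, hp] at hv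
  change IntegrableOn _ _ _ at hI
  rw [← mp.integrableOn_comp_preimage me, hp] at hI
  have hle : ∀ s ∈ Ioi (0 : ℝ), ‖S s‖ ^ 2 * (1 + (s + 1 / 2)) ≤
      18 * (1 / (2 * (s + 1 / 2) ^ 2) * w ^ 2) + 3 * (‖G (s + 1 / 2)‖ ^ 2 * (1 + (s + 1 / 2)))
      + 18 * (1 / (2 * (s + 1 / 2) ^ 2) * ‖F ((1 / (s + 1 / 2) - 1) / 2)‖ ^ 2) := by
    intro s hs
    have hs' : 0 < s := hs
    have a1 := pow_le_pow_left₀ (norm_nonneg _) (h s hs) 2
    generalize ‖F ((1 / (s + 1 / 2) - 1) / 2)‖ = f at *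
    generalize ‖G (s + 1 / 2)‖ = g at *
    have hζ : 1 / 2 < s + 1 / 2 := by linarith
    generalize s + 1 / 2 = ζ at *
    have a2 := kb_sq_rpow (show 0 < ζ by linarith)
    generalize ζ ^ (-3 / 2 : ℝ) = u at *
    have a3 : u ^ 2 * (1 + ζ) ≤ 6 * (1 / (2 * ζ ^ 2)) := by
      have : 0 < ζ := by linarith
      rw [a2, div_mul_eq_mul_div, mul_one_div, div_le_div_iff₀ (by positivity) (by positivity)]
      nlinarith [sq_nonneg ζ]
    have a4 : (w * u + g + u * f) ^ 2 ≤ 3 * (u ^ 2 * w ^ 2) + 3 * g ^ 2 + 3 * (u ^ 2 * f ^ 2) := by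
      nlinarith [sq_nonneg (w * u - g), sq_nonneg (g - u * f), sq_nonneg (w * u - u * f)]
    have a5 := mul_le_mul_of_nonneg_right (a1.trans a4) (show 0 ≤ 1 + ζ by linarith)
    have a6 := mul_le_mul_of_nonneg_right a3 (sq_nonneg w)
    have a7 := mul_le_mul_of_nonneg_right a3 (sq_nonneg f)
    nlinarith
  have hi : IntegrableOn (fun s : ℝ => ‖S s‖ ^ 2 * (1 + (s + 1 / 2))) (Ioi 0) :=
    hI.mono' (by fun_prop : Measurable fun s : ℝ => ‖S s‖ ^ 2 * (1 + (s + 1 / 2))).aestronglyMeasurable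
      ((ae_restrict_iff' measurableSet_Ioi).2 (Eventually.of_forall fun s hs => by
        have hs' : 0 < s := hs
        rw [Real.norm_of_nonneg (by positivity)]
        exact hle s hs))
  exact ⟨hi, (setIntegral_mono_on hi hI measurableSet_Ioi hle).trans hv⟩

lemma shm_S : ∃ C : ℝ, 0 < C ∧ ∀ (n L : ℕ) (Θ σ : ℝ), 1 ≤ n → 4 * n ≤ 4 ^ L → 4 ^ L ≤ 64 * n → 1 ≤ Θ →
    GoodW (Wf F1 n) L Θ → GoodW (WB n) L Θ → (σ = 1 ∨ σ = -1) →
    IntegrableOn (fun s : ℝ => ‖shS n σ s‖ ^ 2 * (1 + (s + 1 / 2))) (Ioi 0) ∧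
      ∫ s in Ioi (0 : ℝ), ‖shS n σ s‖ ^ 2 * (1 + (s + 1 / 2)) ≤ C * Θ := by
  obtain ⟨CA, pA, hA⟩ := fanA
  obtain ⟨CB, pB, hB⟩ := fanB
  refine ⟨18 * wt 1 ^ 2 + 3 * CA + 18 * CB, by positivity, fun n L Θ σ hn h1 h2 hΘ g1 g2 hσ => ?_⟩
  have h1' : (4 * n : ℝ) ≤ 4 ^ L := by exact_mod_cast h1
  have h2' : (4 : ℝ) ^ L ≤ 64 * n := by exact_mod_cast h2
  have hn' : (0 : ℝ) ≤ n := by positivity
  have h4 : 4 ^ L = (2 ^ L) ^ 2 := by rw [← pow_mul, mul_comm, pow_mul]; norm_num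
  have sA : SA n ⊆ Finset.Icc 1 (2 ^ L) := fun β hβ => by
    obtain ⟨a1, a2⟩ := Finset.mem_filter.1 hβ
    refine Finset.mem_Icc.2 ⟨(shf_BS.1 a1).1, ?_⟩
    exact (Nat.pow_le_pow_iff_left two_ne_zero).1 (by omega)
  have mB : ∀ P ∈ SB n, ∃ c, 1 ≤ c ∧ c ^ 2 ≤ n ∧ P = 2 * c := fun P hP => by
    obtain ⟨c, a1, rfl⟩ := Finset.mem_image.1 hP
    exact ⟨c, (Finset.mem_Icc.1 a1).1, Nat.le_sqrt'.1 (Finset.mem_Icc.1 a1).2, rfl⟩
  have sB : SB n ⊆ Finset.Icc 1 (2 ^ L) := fun P hP => by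
    obtain ⟨c, a1, a2, rfl⟩ := mB P hP
    refine Finset.mem_Icc.2 ⟨by omega, ?_⟩
    exact (Nat.pow_le_pow_iff_left two_ne_zero).1 (by rw [mul_pow]; omega)
  have oA : ∀ β ∈ SA n, Odd β := fun β hβ => (shf_BS.1 (Finset.mem_filter.1 hβ).1).2.2
  have lA : ∀ β ∈ SA n, (n : ℝ) / β ^ 2 ≤ 2 * (LA n β / β) + 1 := fun β hβ => by
    have a0 := (oA β hβ).pos
    have a1 : (n : ℝ) < β * (2 * LA n β + β) := by
      exact_mod_cast not_le.1 (mt (shf_LA a0).2 (lt_irrefl _))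
    have a2 : (0 : ℝ) < β := by exact_mod_cast a0
    rw [div_le_iff₀ (by positivity)]
    have : (2 * ((LA n β : ℝ) / β) + 1) * β ^ 2 = β * (2 * LA n β + β) := by field_simp
    linarith
  have lB : ∀ P ∈ SB n, (2 * n : ℝ) / P ^ 2 ≤ 2 * (LB n P / P) ^ 2 := fun P _ => by
    have a1 : n ≤ LB n P ^ 2 := by
      have := Nat.lt_succ_sqrt' (n + (P / 2) ^ 2)
      rw [LB]; exact le_trans (Nat.le_add_right _ _) this.le
    have a2 : (n : ℝ) ≤ LB n P ^ 2 := by exact_mod_cast a1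
    rw [div_pow, mul_div_assoc]
    gcongr
  have tB : ∀ P ∈ SB n, 0 < P ∧ TwW (eT n (P / 2)) P 0 (WB n P) := fun P hP => by
    obtain ⟨c, a1, -, rfl⟩ := mB P hP
    rw [Nat.mul_div_cancel_left _ two_pos]
    exact ⟨by omega, eT_twW n a1⟩
  have fin : ∀ w : ℝ, w ^ 2 ≤ wt 1 ^ 2 → 18 * w ^ 2 + 3 * (CA * Θ) + 18 * (CB * Θ) ≤
      (18 * wt 1 ^ 2 + 3 * CA + 18 * CB) * Θ := fun w hw => by nlinarith [sq_nonneg (wt 1)]
  rcases hσ with rfl | rfl
  · obtain ⟨a1, a2⟩ := hA _ L Θ n _ (eC n) (LA n) g1 sA (by linarith) h2'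
      (fun β hβ => eC_twW n (oA β hβ)) lA
    obtain ⟨b1, b2⟩ := hB _ L Θ (2 * n) _ (fun P => rfl' (eT n (P / 2))) (LB n) g2 sB (by linarith)
      (by linarith) (fun P hP => (tB P hP).2.refl (tB P hP).1) lB
    obtain ⟨k1, k2⟩ := shm_L2 (shm_meas n 1) (fun s hs => shf_side1 hn hs) a1 a2 b1 b2
    exact ⟨k1, k2.trans (fin _ le_rfl)⟩
  · obtain ⟨a1, a2⟩ := hA _ L Θ n _ (fun β => rfl' (eC n β)) (LA n) g1 sA (by linarith) h2'
      (fun β hβ => (eC_twW n (oA β hβ)).refl (oA β hβ).pos) lA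
    obtain ⟨b1, b2⟩ := hB _ L Θ (2 * n) _ (fun P => eT n (P / 2)) (LB n) g2 sB (by linarith)
      (by linarith) (fun P hP => (tB P hP).2) lB
    obtain ⟨k1, k2⟩ := shm_L2 (w := 0) (shm_meas n (-1)) (fun s hs => by
      simpa only [zero_mul, zero_add] using shf_side2 n hs) a1 a2 b1 b2
    exact ⟨k1, k2.trans (fin _ (by simpa using sq_nonneg (wt 1)))⟩

/-- one quarter of the main term -/
def shM (n : ℕ) (σ c₀ x : ℝ) : ℂ :=
  ∫ s in Ioi (0 : ℝ), ph x ((1 / 2 - c₀ + σ * s : ℝ) : ℂ) * shS n σ s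

lemma shm_int (n β : ℕ) {σ c₀ : ℝ} (x : ℝ) (hσ : σ = 1 ∨ σ = -1) (hc : c₀ ≠ 1 / 2) :
    IntegrableOn (fun s : ℝ => ph x ((1 / 2 - c₀ + σ * s : ℝ) : ℂ) *
      mainasmS (eC n β) β (n / β ^ 2) σ (mainasmQ n β σ) s) (Ioi 0) := by
  simp only [mainasm_split]
  exact integrable_finsetSum _ fun q hq =>
    (mainasm_int (by positivity) hσ hc (Finset.mem_filter.1 hq).2.1).const_mul _

lemma shm_eq (n : ℕ) {σ c₀ : ℝ} (x : ℝ) (hσ : σ = 1 ∨ σ = -1) (hc : c₀ ≠ 1 / 2) :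
    IntegrableOn (fun s : ℝ => ph x ((1 / 2 - c₀ + σ * s : ℝ) : ℂ) * shS n σ s) (Ioi 0) ∧
    shM n σ c₀ x = ∑ β ∈ BS n, (√β / β ^ 2) *
      mainasmM (eC n β) β (n / β ^ 2) σ c₀ (mainasmQ n β σ) x := by
  have e : ∀ s : ℝ, ph x ((1 / 2 - c₀ + σ * s : ℝ) : ℂ) * shS n σ s = ∑ β ∈ BS n, (√β / β ^ 2) *
      (ph x ((1 / 2 - c₀ + σ * s : ℝ) : ℂ) *
        mainasmS (eC n β) β (n / β ^ 2) σ (mainasmQ n β σ) s) := fun s => by
    rw [shS, Finset.mul_sum]
    exact Finset.sum_congr rfl fun β _ => by ring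
  simp only [shM, e]
  refine ⟨integrable_finsetSum _ fun β _ => (shm_int n β x hσ hc).const_mul _, ?_⟩
  rw [integral_finsetSum _ fun β _ => (shm_int n β x hσ hc).const_mul _]
  exact Finset.sum_congr rfl fun β _ => integral_const_mul _ _

lemma shm_MT (n : ℕ) {x : ℝ} (hx : 0 ≤ x) : ‖MT x n‖ ^ 2 ≤ ‖shM n 1 0 x‖ ^ 2 + ‖shM n 1 1 x‖ ^ 2 +
    ‖shM n (-1) 0 x‖ ^ 2 + ‖shM n (-1) 1 x‖ ^ 2 := by
  have e : MT x n = 1 / 2 * ((ep x * shM n 1 0 x + ep (1 / 4) * ep (-x) * shM n 1 1 x) -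
      (ep x * shM n (-1) 0 x + ep (1 / 4) * ep (-x) * shM n (-1) 1 x)) := by
    rw [MT, (shm_eq n x (Or.inl rfl) (by norm_num)).2, (shm_eq n x (Or.inl rfl) (by norm_num)).2,
      (shm_eq n x (Or.inr rfl) (by norm_num)).2, (shm_eq n x (Or.inr rfl) (by norm_num)).2]
    congr 1
    simp only [Finset.mul_sum, ← Finset.sum_add_distrib, ← Finset.sum_sub_distrib]
    refine Finset.sum_congr rfl fun β hβ => ?_
    have hβ1 : 1 ≤ β := (shf_BS.1 hβ).1
    have e1 : (QS n β).filter (fun q : ℤ => q ≤ 0 ∨ (β : ℤ) < q) =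
        mainasmQ n β 1 ∪ mainasmQ n β (-1) := by
      ext q
      rw [Finset.mem_union, mainasm_mem_pos hβ1, mainasm_mem_neg hβ1, Finset.mem_filter, and_or_left]
    rw [e1, Finset.sum_union, mainasm_side_eq hx (Or.inl rfl), mainasm_side_eq hx (Or.inr rfl),
      mainasmP, mainasmP]
    · push_cast
      ring
    · rw [Finset.disjoint_left]
      intro q h1 h2
      rw [mainasm_mem_pos hβ1] at h1
      rw [mainasm_mem_neg hβ1] at h2
      omega
  have c1 := norm_ep_real (1 / 4)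
  have c2 := norm_ep_real (-x)
  push_cast at c1 c2
  have a1 : ∀ u v : ℂ, ‖ep x * u + ep (1 / 4) * ep (-x) * v‖ ≤ ‖u‖ + ‖v‖ := fun u v => by
    refine (norm_add_le _ _).trans_eq ?_
    rw [norm_mul, norm_mul, norm_mul, c1, c2, norm_ep_real]
    ring
  have a2 : ‖MT x n‖ ≤ (‖shM n 1 0 x‖ + ‖shM n 1 1 x‖ + (‖shM n (-1) 0 x‖ + ‖shM n (-1) 1 x‖)) / 2 := by
    rw [e, norm_mul]
    have := norm_sub_le_of_le (a1 (shM n 1 0 x) (shM n 1 1 x)) (a1 (shM n (-1) 0 x) (shM n (-1) 1 x))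
    norm_num
    linarith
  have a3 := pow_le_pow_left₀ (norm_nonneg _) a2 2
  generalize ‖shM n 1 0 x‖ = a at *
  generalize ‖shM n 1 1 x‖ = b at *
  generalize ‖shM n (-1) 0 x‖ = c at *
  generalize ‖shM n (-1) 1 x‖ = d at *
  nlinarith [sq_nonneg (a - b), sq_nonneg (a - c), sq_nonneg (a - d), sq_nonneg (b - c),
    sq_nonneg (b - d), sq_nonneg (c - d)]

theorem MT_sharp : ∃ C : ℝ, 0 < C ∧ ∀ (n L : ℕ) (Θ : ℝ), 1 ≤ n → 4 * n ≤ 4 ^ L → 4 ^ L ≤ 64 * n →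
    1 ≤ Θ → GoodW (Wf F1 n) L Θ → GoodW (WB n) L Θ → ∃ g : ℝ → ℝ, Integrable g ∧ ∫ x, g x ≤ C * Θ ∧
      (∀ x, 0 ≤ g x) ∧ ∀ x, 0 ≤ x → ‖MT x n‖ ^ 2 ≤ g x := by
  obtain ⟨C, pC, hC⟩ := shm_S
  refine ⟨8 * C, by positivity, fun n L Θ hn h1 h2 hΘ g1 g2 => ?_⟩
  have key : ∀ σ c₀ : ℝ, (σ = 1 ∨ σ = -1) → (c₀ = 0 ∨ c₀ = 1) →
      (Integrable fun x => ‖shM n σ c₀ x‖ ^ 2) ∧ ∫ x, ‖shM n σ c₀ x‖ ^ 2 ≤ 2 * (C * Θ) := by
    intro σ c₀ hσ hc
    obtain ⟨k1, k2⟩ := hC n L Θ σ hn h1 h2 hΘ g1 g2 hσ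
    obtain ⟨-, m2, m3⟩ := mainasm_planch (c := 1 / 2 - c₀) hσ
      (by rcases hc with rfl | rfl <;> norm_num [abs_le])
      (shm_eq n 0 hσ (by rcases hc with rfl | rfl <;> norm_num)).1 k1
    exact ⟨m2, m3.trans (by linarith)⟩
  obtain ⟨i1, j1⟩ := key 1 0 (Or.inl rfl) (Or.inl rfl)
  obtain ⟨i2, j2⟩ := key 1 1 (Or.inl rfl) (Or.inr rfl)
  obtain ⟨i3, j3⟩ := key (-1) 0 (Or.inr rfl) (Or.inl rfl)
  obtain ⟨i4, j4⟩ := key (-1) 1 (Or.inr rfl) (Or.inr rfl)
  refine ⟨_, ((i1.add i2).add i3).add i4, ?_, fun x => by simp only [Pi.add_apply]; positivity,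
    fun x hx => shm_MT n hx⟩
  rw [integral_add' ((i1.add i2).add i3) i4, integral_add' (i1.add i2) i3, integral_add' i1 i2]
  linarith

end

end Pool.Agent.MP_9f080f_an

end
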