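import Pool.Agent.MP_9f080f_an.Mg.Circle1B
import Pool.Agent.MP_9f080f_an.Mg.MainAsmA

namespace Pool.Agent.MP_9f080f_an
open Complex MeasureTheory Set Filter Topology Metric
open scoped Real

noncomputable section

/-! The two kinds of regions. -/

open Classical in
/-- the terms of the unfolded sum -/
def c1T (x : ℝ) (n : ℕ) (P : Set ℂ) (g : GT) (t : ℝ) : ℂ :=
  if g.mob (hc n t) ∈ P then
    g.chi * th3 (hc n t) * ep (-n * hc n t) * (FF x (g.mob (hc n t)) / th3 (g.mob (hc n t))) else 0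

lemma circle1_hc_add (n : ℕ) (t s : ℝ) : hc n (t + s) = hc n t + s := by
  unfold hc; push_cast; ring

lemma circle1_hT (x : ℝ) (n : ℕ) (P : Set ℂ) (g : GT) (j : ℤ) (t : ℝ) :
    c1T x n P (g * GT.T j) t = c1T x n P g (t + 2 * j) := by
  have e : hc n (t + 2 * j) = hc n t + 2 * j := by rw [circle1_hc_add]; push_cast; ring
  have e2 : ep (-n * (hc n t + 2 * j)) = ep (-n * hc n t) := by
    rw [show -(n : ℂ) * (hc n t + 2 * j) = -n * hc n t + 2 * ((-n * j : ℤ) : ℂ) by push_cast; ring,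
      ep_add, ep_two_int, mul_one]
  unfold c1T
  rw [e, GT.mob_mul_T, GT.chi_mul, GT.chi_T, mul_one, th3_T, e2]

lemma circle1_hN (x : ℝ) (n : ℕ) (P : Set ℂ) (g : GT) (t : ℝ) :
    c1T x n P (GT.N * g) t = c1T x n P g t := by
  unfold c1T
  rw [GT.mob_N_mul, GT.chi_mul, GT.chi_N, one_mul]

lemma circle1_R {n p : ℕ} (hn : 0 < n) (hp : 0 < p) {Q : Set ℂ} {G : ℂ → ℂ} {v M : ℝ}
    (h : C1Reg Q G v M) (e : ℤ → ℂ) : ∃ R : ℝ, ∀ a t, R < |t| → c1U n p e Q G a t = 0 := by
  have hv := h.vpos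
  have hk : 0 < p * √(n * v) := by positivity
  refine ⟨1 / (p * √(n * v)), fun a t ht => ?_⟩
  unfold c1U
  rw [if_neg]
  intro ha
  have h1 := (circle1_U_ne hn hp h ha).2.1
  rw [div_lt_iff₀ hk] at ht
  rw [← sq_abs, abs_mul, abs_of_pos hk] at h1
  nlinarith

lemma circle1_K {n p : ℕ} (hn : 0 < n) (hp : 0 < p) {Q : Set ℂ} {G : ℂ → ℂ} {v M : ℝ}
    (h : C1Reg Q G v M) {e : ℤ → ℂ} {a : ℤ} {t : ℝ} (hne : c1U n p e Q G a t ≠ 0) :
    p ≤ n * ⌈1 / v⌉₊ ∧ |a| ≤ ((3 * (n * ⌈1 / v⌉₊) + n : ℕ) : ℤ) ∧ e a ≠ 0 := by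
  have hv := h.vpos
  unfold c1U at hne
  split_ifs at hne with ha
  swap
  · exact absurd rfl hne
  obtain ⟨a1, -, a3⟩ := circle1_U_ne hn hp h ha
  have hp1 : (1 : ℝ) ≤ p := by exact_mod_cast hp
  have a4 : (p : ℝ) ≤ n * ⌈1 / v⌉₊ := by
    have b1 := Nat.le_ceil (1 / v)
    have b2 : (p : ℝ) ≤ n * (1 / v) := by
      rw [mul_one_div, le_div_iff₀ hv]; nlinarith
    exact b2.trans (by gcongr)
  have a5 : p ≤ n * ⌈1 / v⌉₊ := by exact_mod_cast a4
  exact ⟨a5, by omega, left_ne_zero_of_mul hne⟩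

lemma circle1_sqrt_le {v y : ℝ} (hv : 0 < v) (h : v ≤ y) {C : ℝ} :
    C ≤ |C| / √√v * √√y := by
  have h1 : 0 < √√v := by positivity
  have h2 : √√v ≤ √√y := by gcongr
  calc C ≤ |C| := le_abs_self C
    _ = |C| / √√v * √√v := by field_simp
    _ ≤ _ := by gcongr

lemma circle1_log {n : ℕ} (hn : 2 ≤ n) : 1 ≤ 16 * Real.log n ^ 4 := by
  have hn2 : (2 : ℝ) ≤ n := by exact_mod_cast hn
  have hln : Real.log 2 ≤ Real.log n := Real.log_le_log (by norm_num) hn2
  have h1 : (1 / 2 : ℝ) ≤ Real.log n := by linarith [Real.log_two_gt_d9]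
  have := pow_le_pow_left₀ (by norm_num) h1 4
  linarith

theorem circle1_top {v : ℝ} (hv : 0 < v) : ∃ C : ℝ, ∀ P : Set ℂ, MeasurableSet P →
    (∀ z ∈ P, v ≤ z.im ∧ 0 < z.re ∧ z.re < 2) → (∀ w : ℂ, OrdConnected {u : ℝ | (u : ℂ) + w ∈ P}) →
    ∀ n : ℕ, 2 ≤ n → ∀ x : ℝ, 0 ≤ x →
    IntervalIntegrable (fun t => ∑' g, c1T x n P g t) volume 0 2 ∧
      ‖∫ t in (0 : ℝ)..2, ∑' g, c1T x n P g t‖ ≤ C * Real.log n ^ 4 * (1 + x) ^ (-2 / 3 : ℝ) := by
  obtain ⟨C₁, hC₁⟩ := FF_top hv
  obtain ⟨C₂, hC₂⟩ := pv_short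
  have hk : 0 < ⌈1 / v⌉₊ := Nat.ceil_pos.2 (by positivity)
  obtain ⟨C₃, hC₃0, hC₃⟩ := circle1_sum _ hk
  set κ := 3 * Real.exp π * (π * (1 / √v + 1 / 2)) * (|C₁| / √√v) * |C₂| with hκ
  have hκ0 : 0 ≤ κ := by positivity
  refine ⟨2 * (2 * Real.exp π * |C₁| * 16 + κ * C₃), fun P hP hPv hPo n hn x hx => ?_⟩
  have hn0 : 0 < n := by omega
  set X := (1 + x) ^ (-2 / 3 : ℝ) with hX
  have hX0 : 0 < X := by positivity
  have hreg : C1Reg P (FF x) v (|C₁| / √√v * X) :=
    { meas := hP
      vpos := hv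
      Mpos := by positivity
      high := fun z hz => (hPv z hz).1
      oc := hPo
      strip := ⟨0, by simp, fun z hz => by simpa using (hPv z hz).2⟩
      diff := fun z hz => FF_diff hx hz
      bd := fun z hz => by
        have a1 := hC₁ x hx z (hPv z hz).1
        rw [← hX] at a1
        have a2 := mul_le_mul_of_nonneg_right (circle1_sqrt_le hv (hPv z hz).1 (C := C₁)) hX0.le
        constructor <;> linarith [a1.1, a1.2] }
  have hone : Integrable (c1T x n P 1) ∧ ‖∫ t, c1T x n P 1 t‖ ≤ 2 * Real.exp π * |C₁| * X ∧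
      ∀ t, 2 < |t| → c1T x n P 1 t = 0 := by
    have hch : Continuous (hc n) := by unfold hc; fun_prop
    have e1 : ∀ t, c1T x n P 1 t = (hc n ⁻¹' P).indicator
        (fun t => ep (-n * hc n t) * FF x (hc n t)) t := fun t => by
      have := th3_ne (circle1_hc_pos hn0 t)
      unfold c1T
      rw [GT.mob_one, GT.chi_one]
      split_ifs with h
      · rw [indicator_of_mem (by exact h)]; field_simp
      · rw [indicator_of_notMem (by exact h)]
    have hc4 : Continuous fun t => FF x (hc n t) := continuous_iff_continuousAt.2 fun t =>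
      ContinuousAt.comp (f := hc n) (FF_diff hx (circle1_hc_pos hn0 t)).continuousAt
        hch.continuousAt
    have hm : Measurable (c1T x n P 1) := by
      rw [funext e1]
      exact ((continuous_ep.comp (continuous_const.mul hch)).mul hc4).measurable.indicator
        (hch.measurable hP)
    have hb : ∀ t, ‖c1T x n P 1 t‖ ≤ (Ioo (0 : ℝ) 2).indicator (fun _ => Real.exp π * |C₁| * X) t :=
      fun t => by
      rw [e1]
      by_cases h : hc n t ∈ P
      · have a1 := hPv _ h
        rw [hc_re] at a1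
        rw [indicator_of_mem (by exact h), indicator_of_mem (by exact a1.2), norm_mul,
          circle1_norm_ep hn0, mul_assoc]
        refine mul_le_mul_of_nonneg_left ((hC₁ x hx _ a1.1).1.trans ?_) (by positivity)
        exact mul_le_mul_of_nonneg_right (le_abs_self _) hX0.le
      · rw [indicator_of_notMem (by exact h), norm_zero]
        exact indicator_nonneg (fun _ _ => by positivity) _
    have hi : Integrable ((Ioo (0 : ℝ) 2).indicator (fun _ => Real.exp π * |C₁| * X)) :=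
      (integrableOn_const (by simp)).integrable_indicator measurableSet_Ioo
    refine ⟨hi.mono' hm.aestronglyMeasurable (Eventually.of_forall hb),
      (norm_integral_le_of_norm_le hi (Eventually.of_forall hb)).trans (le_of_eq ?_), fun t ht => ?_⟩
    · rw [integral_indicator measurableSet_Ioo, setIntegral_const]
      simp; ring
    · have := hb t
      rw [indicator_of_notMem] at this
      · exact norm_le_zero_iff.1 this
      · intro h
        rw [abs_of_pos h.1] at ht
        linarith [h.2]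
  have key := circle1_unf (circle1_hT x n P) (circle1_hN x n P) (Equiv.refl _) (fun _ => rfl)
    (fun p => c1U n p (eT n p) P (FF x)) (3 * (n * ⌈1 / v⌉₊) + n) (n * ⌈1 / v⌉₊)
    (fun p => κ * X * ((wt p + wt (2 * p)) * (1 + Real.log ((2 * p : ℕ) : ℝ)) / p))
    (b₀ := 2 * Real.exp π * |C₁| * X) (by positivity) ?_ ?_ ?_ ?_ ?_ ?_
  · refine ⟨key.1, key.2.trans ?_⟩
    rw [← Finset.mul_sum]
    have a1 := mul_le_mul_of_nonneg_left (hC₃ n hn) (by positivity : 0 ≤ κ * X)
    have a2 := mul_le_mul_of_nonneg_left (circle1_log hn)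
      (by positivity : 0 ≤ 2 * Real.exp π * |C₁| * X)
    linarith
  · intro g p hp hg
    simp only [Equiv.refl_apply] at hg ⊢
    refine ⟨g.d / p, fun t => ?_⟩
    have hτ := circle1_hc_pos hn0 t
    have hp' : (p : ℂ) ≠ 0 := Nat.cast_ne_zero.2 hp.ne'
    have e1 : hc n (t + g.d / p) = hc n t + g.d / p := by rw [circle1_hc_add]; push_cast; ring
    have hd := g.den_ne hτ
    have hcc : (g.c : ℂ) = p := by rw [hg]; simp
    have hdet : (g.a : ℂ) * g.d - g.b * p = 1 := by rw [← hcc]; exact_mod_cast g.det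
    rw [hcc] at hd
    have e2 : g.mob (hc n t) = (g.a : ℂ) / p + c1om n p (t + g.d / p) := by
      have e : (p : ℂ) ^ 2 * (hc n t + g.d / p) = p * (p * hc n t + g.d) := by field_simp
      rw [GT.mob, c1om, e1, e, hcc, div_add_div _ _ hp' (mul_ne_zero hp' hd),
        div_eq_div_iff hd (mul_ne_zero hp' (mul_ne_zero hp' hd))]
      linear_combination -(p * (p * hc n t + g.d)) * hdet
    have e3 := (eT_spec n hp).2.2 g hg _ hτ
    have e4 := th3_ne (g.im_mob_pos hτ)
    unfold c1T c1U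
    rw [e3, e1, ← e2]
    split_ifs
    · rw [show c1om n p (t + g.d / p) = g.mob (hc n t) - g.a / p by rw [e2]; ring]
      field_simp
    · rfl
  · intro g hg
    simp only [Equiv.refl_apply] at hg ⊢
    have hdet := g.det
    rw [hg, mul_zero, sub_zero] at hdet
    have ha := Int.eq_one_or_neg_one_of_mul_eq_one hdet
    have hj : ∃ j : ℤ, c1T x n P g = fun t => c1T x n P 1 (t + 2 * j) := by
      rcases ha with ha | ha
      · obtain ⟨j, hj⟩ := GT.col_eq (g := g) (h := 1) ha hg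
        exact ⟨j, funext fun t => by rw [hj, circle1_hT]⟩
      · obtain ⟨j, hj⟩ := GT.col_eq (g := g) (h := GT.N * 1) (by simpa using ha) (by simpa using hg)
        exact ⟨j, funext fun t => by rw [hj, circle1_hT, circle1_hN]⟩
    obtain ⟨j, hj⟩ := hj
    rw [hj]
    refine ⟨ha, hone.1.comp_add_right _, ?_, 2 + |2 * (j : ℝ)|, fun t ht => hone.2.2 _ ?_⟩
    · rw [integral_add_right_eq_self (c1T x n P 1)]; exact hone.2.1
    · have := abs_sub (t + 2 * j) (2 * j)
      rw [add_sub_cancel_right] at this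
      linarith
  · intro p a t hp hne
    obtain ⟨a1, a2, a3⟩ := circle1_K hn0 hp hreg hne
    refine ⟨a1, a2, ?_⟩
    by_contra h
    exact a3 ((eT_spec n hp).2.1 a h)
  · intro p hp
    exact circle1_R hn0 hp hreg _
  · intro p a hp
    exact circle1_U_int hn0 hp hreg _ a
  · intro p hp
    rw [Finset.mem_Icc] at hp
    have hp0 : 0 < p := hp.1
    have hw : 0 ≤ (wt p + wt (2 * p)) * √p * (1 + Real.log ((2 * p : ℕ) : ℝ)) := by
      have := one_le_wt p; have := one_le_wt (2 * p)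
      have := Real.log_natCast_nonneg (2 * p)
      positivity
    refine (circle1_frame hn0 hp0 hreg (e := eT n p)
      (B := |C₂| * ((wt p + wt (2 * p)) * (1 + Real.log ((2 * p : ℕ) : ℝ)))) (fun a₀ L hL => ?_)
      (by omega)).trans (le_of_eq (by rw [hκ]; ring))
    have a1 := hC₂ _ _ _ _ (by omega) (eT_spec n hp0).1 0 a₀ L hL
    simp only [ofReal_zero, mul_zero, zero_mul, ep_zero, mul_one] at a1
    have a2 := mul_le_mul_of_nonneg_right (le_abs_self C₂) hw
    linarith

lemma circle1_zw_meas : Measurable zw := by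
  unfold zw; fun_prop

theorem circle1_cusp : ∃ Y : ℝ, 2 ≤ Y ∧ ∃ C : ℝ, ∀ n : ℕ, 2 ≤ n → ∀ x : ℝ, 0 ≤ x →
    IntervalIntegrable (fun t => ∑' g,
      c1T x n {w | Y < (zw w).im ∧ |(zw w).re| < 1 / 2} g t) volume 0 2 ∧
      ‖∫ t in (0 : ℝ)..2, ∑' g, c1T x n {w | Y < (zw w).im ∧ |(zw w).re| < 1 / 2} g t‖ ≤
        C * Real.log n ^ 4 * (1 + x) ^ (-2 / 3 : ℝ) := by
  obtain ⟨Y, hY, C₁, hC₁⟩ := Fh_cusp
  obtain ⟨C₂, hC₂⟩ := pv_long
  have hk : 0 < ⌈1 / (1 : ℝ)⌉₊ := Nat.ceil_pos.2 (by positivity)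
  obtain ⟨C₃, hC₃0, hC₃⟩ := circle1_sum _ hk
  set κ := 3 * Real.exp π * (π * (1 / √1 + 1 / 2)) * |C₁| * |C₂| with hκ
  have hκ0 : 0 ≤ κ := by positivity
  refine ⟨Y, hY, 2 * (κ * C₃), fun n hn x hx => ?_⟩
  have hn0 : 0 < n := by omega
  set X := (1 + x) ^ (-2 / 3 : ℝ) with hX
  have hX0 : 0 < X := by positivity
  set P : Set ℂ := {w | Y < (zw w).im ∧ |(zw w).re| < 1 / 2} with hP
  set Q : Set ℂ := {z | Y < z.im ∧ |z.re| < 1 / 2} with hQ
  have hreg : C1Reg Q (Fh x) 1 (|C₁| * X) :=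
    { meas := (measurableSet_lt measurable_const measurable_im).inter
        (measurableSet_lt (continuous_abs.measurable.comp measurable_re) measurable_const)
      vpos := one_pos
      Mpos := by positivity
      high := fun z hz => by linarith [hz.1]
      oc := fun w => ⟨fun u hu u' hu' s hs => by
        simp only [hQ, mem_ofPred_eq, add_im, ofReal_im, add_re, ofReal_re, abs_lt] at hu hu' ⊢
        exact ⟨hu.1, by linarith [hu.2.1, hs.1], by linarith [hu'.2.2, hs.2]⟩⟩
      strip := ⟨-1 / 2, by rw [abs_le]; constructor <;> norm_num, fun z hz => by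
        have := abs_lt.1 hz.2
        constructor <;> linarith [this.1, this.2]⟩
      diff := fun z hz => Fh_diff hx hz
      bd := fun z hz => by
        have a1 := hC₁ x hx z hz.1.le hz.2.le
        rw [← hX] at a1
        have a0 : 1 ≤ z.im := by linarith [hz.1]
        have a2 : z.im ^ (1 / 6 : ℝ) ≤ √√z.im := by
          rw [Real.sqrt_eq_rpow, Real.sqrt_eq_rpow, ← Real.rpow_mul (by linarith)]
          exact Real.rpow_le_rpow_of_exponent_le a0 (by norm_num)
        have a3 : C₁ * z.im ^ (1 / 6 : ℝ) * X ≤ |C₁| * √√z.im * X := by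
          refine mul_le_mul_of_nonneg_right ?_ hX0.le
          exact mul_le_mul (le_abs_self _) a2 (by positivity) (abs_nonneg _)
        constructor <;> linarith [a1.1, a1.2] }
  let φ : ℤ × ℤ ≃ ℤ × ℤ := ⟨fun y => (y.2, y.2 - y.1), fun y => (y.1 - y.2, y.1),
    fun y => by simp, fun y => by simp⟩
  have hφ : ∀ y, φ y = (y.2, y.2 - y.1) := fun _ => rfl
  have hφ' : ∀ y, φ.symm y = (y.1 - y.2, y.1) := fun _ => rfl
  have hodd : ∀ g : GT, Odd (g.c - g.a) := fun g => by
    have := g.p1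
    rw [show g.c - g.a = g.a + g.c - 2 * g.a by ring]
    exact this.sub_even (even_two_mul _)
  have key := circle1_unf (circle1_hT x n P) (circle1_hN x n P) φ
    (fun y => by simp only [hφ, Prod.fst_neg, Prod.snd_neg, Prod.neg_mk]; congr 1; ring)
    (fun p => c1U n p (eC n p) Q (Fh x)) (3 * (n * ⌈1 / (1 : ℝ)⌉₊) + n) (n * ⌈1 / (1 : ℝ)⌉₊)
    (fun p => κ * X * ((wt p + wt (2 * p)) * (1 + Real.log ((2 * p : ℕ) : ℝ)) / p))
    (b₀ := 0) le_rfl ?_ ?_ ?_ ?_ ?_ ?_
  · refine ⟨key.1, key.2.trans ?_⟩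
    rw [← Finset.mul_sum]
    have a1 := mul_le_mul_of_nonneg_left (hC₃ n hn) (by positivity : 0 ≤ κ * X)
    linarith
  · intro g p hp hg
    simp only [hφ] at hg ⊢
    refine ⟨-((g.b - g.d) / p), fun t => ?_⟩
    have hpo : Odd p := by
      have := hodd g
      rw [hg] at this
      exact_mod_cast this
    have hτ := circle1_hc_pos hn0 t
    have hp' : (p : ℂ) ≠ 0 := Nat.cast_ne_zero.2 hp.ne'
    have e1 : hc n (t + -((g.b - g.d) / p)) = hc n t - (g.b - g.d) / p := by
      rw [circle1_hc_add]; push_cast; ring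
    have hd := g.den_ne hτ
    have hw := g.im_mob_pos hτ
    have hcc : (g.a : ℂ) = g.c - p := by
      have : (g.c : ℂ) - g.a = p := by exact_mod_cast hg
      linear_combination -this
    have hdet : ((g.c : ℂ) - p) * g.d - g.b * g.c = 1 := by rw [← hcc]; exact_mod_cast g.det
    have hd2 : (p : ℂ) * hc n t - (g.b - g.d) ≠ 0 := by
      intro h
      have := congrArg Complex.im h
      simp at this
      rcases this with h | h
      · omega
      · linarith
    have e2 : zw (g.mob (hc n t)) = (g.c : ℂ) / p + c1om n p (t + -((g.b - g.d) / p)) := by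
      have e : (p : ℂ) ^ 2 * (hc n t - (g.b - g.d) / p) = p * (p * hc n t - (g.b - g.d)) := by
        field_simp
      have e' : 1 - g.mob (hc n t) = (p * hc n t - (g.b - g.d)) / (g.c * hc n t + g.d) := by
        rw [GT.mob, hcc]; field_simp; ring
      rw [zw, e', c1om, e1, e, one_div_div, div_add_div _ _ hp' (mul_ne_zero hp' hd2),
        div_eq_div_iff hd2 (mul_ne_zero hp' (mul_ne_zero hp' hd2))]
      linear_combination -(p * (p * hc n t - (g.b - g.d))) * hdet
    have e3 := (eC_spec n hpo).2.2 g hg _ hτ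
    have hz := im_zw_pos hw
    have e4 := th2_ne hz
    have e5 := rt_ne (ne_of_im hz)
    have e6 := th3_wz hz
    rw [wz_zw] at e6
    unfold c1T c1U
    rw [e3, e1, ← e2, e6]
    by_cases hm : zw (g.mob (hc n t)) ∈ Q
    · rw [if_pos hm, if_pos (show g.mob (hc n t) ∈ P from hm),
        show c1om n p (t + -((g.b - g.d) / p)) = zw (g.mob (hc n t)) - g.c / p by rw [e2]; ring,
        Fh, wz_zw]
      field_simp
    · rw [if_neg hm, if_neg (show g.mob (hc n t) ∉ P from hm)]
  · intro g hg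
    simp only [hφ] at hg
    have := hodd g
    rw [hg] at this
    simp at this
  · intro p a t hp hne
    obtain ⟨a1, a2, a3⟩ := circle1_K hn0 hp hreg hne
    refine ⟨a1, a2, ?_⟩
    have hpo : Odd p := by
      by_contra h
      exact a3 (by rw [eC, dif_neg h]; rfl)
    have hco : IsCoprime a p := by
      by_contra h
      exact a3 ((eC_spec n hpo).2.1 a h)
    simp only [hφ']
    constructor
    · obtain ⟨u, w, h⟩ := hco
      exact ⟨-w, u + w, by linear_combination h⟩
    · rw [show a - p + a = 2 * a - p by ring]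
      exact (even_two_mul a).sub_odd (by exact_mod_cast hpo)
  · intro p hp
    exact circle1_R hn0 hp hreg _
  · intro p a hp
    exact circle1_U_int hn0 hp hreg _ a
  · intro p hp
    rw [Finset.mem_Icc] at hp
    have hp0 : 0 < p := hp.1
    have hp1 : (1 : ℝ) ≤ p := by exact_mod_cast hp0
    have w1 := one_le_wt p
    have w2 := one_le_wt (2 * p)
    have l1 := Real.log_natCast_nonneg p
    have l2 : Real.log p ≤ Real.log ((2 * p : ℕ) : ℝ) :=
      Real.log_le_log (by positivity) (by push_cast; linarith)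
    refine (circle1_frame hn0 hp0 hreg (e := eC n p)
      (B := |C₂| * ((wt p + wt (2 * p)) * (1 + Real.log ((2 * p : ℕ) : ℝ)))) (fun a₀ L _ => ?_)
      (by omega)).trans (le_of_eq (by rw [hκ]; ring))
    by_cases hpo : Odd p
    · have a1 := hC₂ _ _ _ hp0 (eC_spec n hpo).1 a₀ L
      refine a1.trans ?_
      calc _ = C₂ * (wt p * (1 + Real.log p) * √p) := by ring
        _ ≤ |C₂| * (wt p * (1 + Real.log p) * √p) :=
          mul_le_mul_of_nonneg_right (le_abs_self _) (by positivity)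
        _ ≤ |C₂| * ((wt p + wt (2 * p)) * (1 + Real.log ((2 * p : ℕ) : ℝ)) * √p) := by
          gcongr; linarith
        _ = _ := by ring
    · rw [eC, dif_neg hpo]
      simp only [Pi.zero_apply, Finset.sum_const_zero, norm_zero]
      have : 0 ≤ Real.log ((2 * p : ℕ) : ℝ) := by linarith
      positivity

end

end Pool.Agent.MP_9f080f_an
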