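import Pool.Agent.MP_9f080f_an.Mg.Circle1B
import Pool.Agent.MP_9f080f_an.Mg.MainAsmA
import Pool.Agent.MP_9f080f_an.Mg.PV
import Pool.Agent.MP_9f080f_an.Mg.Circle1C

-- part MP_9f080f_an.Circle1
section

namespace Pool.Agent.MP_9f080f_an
open Complex MeasureTheory Set Filter Topology Metric
open scoped Real

noncomputable section

/-! The automorphic part of the coefficient.
For almost every `t` (`ae_tile`), with `τ = hc n t`,
`th3 τ * hk x (sf τ) = (1/2) ∑' g, 1[g τ ∈ FD] chi g * th3 τ * FF x (g τ) / th3 (g τ)`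
(`sf_mob`, `hk_neg`, `FF_fd`).  Split `FD` into `top = {(zw w).im ≤ Y}` (there `im w ≥ 1/(2Y)` by
`fdc_zw_im`) and `cusp = {Y < (zw w).im}` with `Y` from `Fh_cusp`, and apply `unfold2` to both parts.
Top: columns `(1,0)` (trivial bound) and `(a,c)`, `1 ≤ c ≤ √(2Yn)`; after the shift `t ↦ t - d/c`,
`g τ = a/c + ω`, `ω = -1/(c²(t+i/n))`, and by `eT_spec` the integrand summed over `a` is
`√c rt ω ep (-n (t + i/n)) ∑_a eT n c a 1_top (a/c + ω) FF x (a/c + ω)`; for fixed `ω` the slices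
`re ≤ 1` and `re > 1` of `top` are intervals of length `≤ 1`, so `pvbv`, `pv_short` (with `ξ = 0`),
`FF_top` apply; `√c ‖rt ω‖ ≤ c^(-1/2) |t|^(-1/2)` is integrated over `|t| ≤ √(2Y/n)/c`, and
`∑_c (wt c + wt 2c) c^(-1/2) n^(-1/4) ≤ C ∑_c (wt c + wt 2c)/c`.
Cusp: columns `(q - β, q)`, `β` odd, `β ≤ √n`; `zw (g τ) = q/β + ω`, `ω = -1/(β²(t+i/n))`, slice
`|re| < 1/2` (`fd_zw_re`, `wz_mem_fd`), `eC_spec`, `th3_wz`, `pv_long`, `Fh_cusp`;
`∫ (β‖t+i/n‖)^(-1/2) (im ω)^(1/6) ≤ C β⁻¹ n^(-1/4)`. -/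

/-- the automorphic part -/
def R1 (x : ℝ) (n : ℕ) : ℂ :=
  1 / 2 * ∫ t in (0 : ℝ)..2, th3 (hc n t) * hk x (sf (hc n t)) * ep (-n * hc n t)

lemma circle1_fd_meas : MeasurableSet FD := by
  have h1 : Measurable fun w : ℂ => normSq w := continuous_normSq.measurable
  have h2 : Measurable fun w : ℂ => normSq (w - 2) :=
    (continuous_normSq.comp (continuous_id.sub continuous_const)).measurable
  exact (measurableSet_lt measurable_const measurable_im).inter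
    ((measurableSet_lt measurable_const measurable_re).inter
    ((measurableSet_lt measurable_re measurable_const).inter
    ((measurableSet_lt measurable_const h1).inter (measurableSet_lt measurable_const h2))))

lemma circle1_low {Y : ℝ} (hY : 2 ≤ Y) {z : ℂ} (hz : z ∈ FD) (h : (zw z).im ≤ Y) :
    1 / (2 * Y) ≤ z.im ∧ 0 < z.re ∧ z.re < 2 := by
  refine ⟨?_, hz.2.1, hz.2.2.1⟩
  have h0 := hz.1
  have h1 := (fdc_zw_im ⟨hz.1, hz.2.1.le, hz.2.2.1.le, hz.2.2.2.1.le, hz.2.2.2.2.le⟩).trans h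
  rw [div_le_iff₀ (by positivity)] at h1 ⊢
  linarith

lemma circle1_between {Y : ℝ} {w : ℂ} {u u' s : ℝ} (h1 : u ≤ s) (h2 : s ≤ u')
    (hu : (u : ℂ) + w ∈ FD) (hu' : (u' : ℂ) + w ∈ FD) {r : ℝ} (hr : (zw (r + w)).im ≤ Y)
    (hrs : (1 - (r + w.re)) ^ 2 ≤ (1 - (s + w.re)) ^ 2) :
    (s : ℂ) + w ∈ FD ∧ (zw (s + w)).im ≤ Y := by
  simp only [FD, mem_ofPred_eq, normSq_apply, add_re, add_im, sub_re, sub_im, ofReal_re, ofReal_im,
    zero_add, re_ofNat, im_ofNat, sub_zero] at hu hu' ⊢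
  obtain ⟨a1, a2, a3, a4, a5⟩ := hu
  obtain ⟨-, b2, b3, b4, b5⟩ := hu'
  refine ⟨⟨a1, by linarith, by linarith, by nlinarith, by nlinarith⟩, le_trans ?_ hr⟩
  simp only [im_zw, normSq_apply, add_re, add_im, sub_re, sub_im, ofReal_re, ofReal_im,
    zero_add, one_re, one_im, zero_sub]
  refine div_le_div_of_nonneg_left a1.le ?_ (by nlinarith)
  nlinarith [mul_self_nonneg (1 - (r + w.re)), mul_pos a1 a1]

lemma circle1_tsum {x : ℝ} {n : ℕ} {t : ℝ} {g₀ : GT}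
    (h : ∀ g : GT, g.mob (hc n t) ∈ FD ↔ g = g₀ ∨ g = GT.N * g₀) {P : Set ℂ} (hP : P ⊆ FD) :
    ∑' g, c1T x n P g t = 2 * c1T x n P g₀ t := by
  classical
  rw [tsum_eq_sum (s := {g₀, GT.N * g₀}), Finset.sum_pair (GT.N_mul_ne g₀).symm, circle1_hN, two_mul]
  intro g hg
  unfold c1T
  rw [if_neg]
  intro hm
  exact hg (by simpa using (h g).1 (hP hm))

lemma circle1_val {x : ℝ} (hx : 0 ≤ x) {τ : ℂ} (hτ : 0 < τ.im) {g : GT} (hg : g.mob τ ∈ FD)
    (E : ℂ) : g.chi * th3 τ * E * (FF x (g.mob τ) / th3 (g.mob τ)) = th3 τ * hk x (sf τ) * E := by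
  have h3 := th3_ne (g.im_mob_pos hτ)
  rw [FF_fd hx hg, sf_mob g hτ, mul_div_cancel_left₀ _ h3]
  unfold GT.chi
  split_ifs
  · simp only [one_mul]; ring
  · simp only [neg_mul, one_mul, hk_neg]; ring

theorem R1_bound : ∃ C : ℝ, ∀ n : ℕ, 2 ≤ n → ∀ x : ℝ, 0 ≤ x →
    IntervalIntegrable (fun t => th3 (hc n t) * hk x (sf (hc n t)) * ep (-n * hc n t)) volume 0 2 ∧
      ‖R1 x n‖ ≤ C * Real.log n ^ 4 * (1 + x) ^ (-2 / 3 : ℝ) := by
  obtain ⟨Y, hY, C₃, hC₃⟩ := circle1_cusp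
  obtain ⟨C₁, hC₁⟩ := circle1_top (v := 1 / (2 * Y)) (by positivity)
  refine ⟨1 / 4 * (C₁ + C₁ + C₃), fun n hn x hx => ?_⟩
  set P₁ : Set ℂ := {w | w ∈ FD ∧ (zw w).im ≤ Y ∧ w.re ≤ 1} with hP₁
  set P₂ : Set ℂ := {w | w ∈ FD ∧ (zw w).im ≤ Y ∧ 1 < w.re} with hP₂
  set P₃ : Set ℂ := {w | Y < (zw w).im ∧ |(zw w).re| < 1 / 2} with hP₃
  have hm : MeasurableSet {w : ℂ | (zw w).im ≤ Y} :=
    measurableSet_le (measurable_im.comp circle1_zw_meas) measurable_const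
  have k1 := hC₁ P₁ (circle1_fd_meas.inter (hm.inter (measurableSet_le measurable_re measurable_const)))
    (fun z hz => circle1_low hY hz.1 hz.2.1) (fun w => ⟨fun u hu u' hu' s hs => by
      have a1 := hu'.2.2
      simp only [add_re, ofReal_re] at a1
      have := circle1_between hs.1 hs.2 hu.1 hu'.1 hu'.2.1 (by nlinarith [hs.2])
      exact ⟨this.1, this.2, by simp only [add_re, ofReal_re]; linarith [hs.2]⟩⟩) n hn x hx
  have k2 := hC₁ P₂ (circle1_fd_meas.inter (hm.inter (measurableSet_lt measurable_const measurable_re)))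
    (fun z hz => circle1_low hY hz.1 hz.2.1) (fun w => ⟨fun u hu u' hu' s hs => by
      have a1 := hu.2.2
      simp only [add_re, ofReal_re] at a1
      have := circle1_between hs.1 hs.2 hu.1 hu'.1 hu.2.1 (by nlinarith [hs.1])
      exact ⟨this.1, this.2, by simp only [add_re, ofReal_re]; linarith [hs.1]⟩⟩) n hn x hx
  have k3 := hC₃ n hn x hx
  have h3 : P₃ ⊆ FD := fun w hw => by
    have := wz_mem_fd (z := zw w) (by linarith [hw.1]) hw.2
    rwa [wz_zw] at this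
  have hn0 : 0 < n := by omega
  have hae : ∀ᵐ t : ℝ, th3 (hc n t) * hk x (sf (hc n t)) * ep (-n * hc n t) =
      1 / 2 * ((∑' g, c1T x n P₁ g t) + (∑' g, c1T x n P₂ g t) + ∑' g, c1T x n P₃ g t) := by
    filter_upwards [ae_tile (y := 1 / n) (by positivity)] with t ht
    obtain ⟨-, g₀, hg⟩ := ht
    have e : (t : ℂ) + ((1 / n : ℝ) : ℂ) * I = hc n t := by unfold hc; push_cast; ring
    rw [e] at hg
    have h0 := (hg g₀).2 (Or.inl rfl)
    rw [circle1_tsum hg (P := P₁) fun _ h => h.1, circle1_tsum hg (P := P₂) fun _ h => h.1,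
      circle1_tsum hg h3, ← circle1_val hx (circle1_hc_pos hn0 t) h0]
    unfold c1T
    by_cases c1 : (zw (g₀.mob (hc n t))).im ≤ Y
    · have n3 : g₀.mob (hc n t) ∉ P₃ := fun h => absurd h.1 (not_lt.2 c1)
      by_cases c2 : (g₀.mob (hc n t)).re ≤ 1
      · rw [if_pos (show g₀.mob (hc n t) ∈ P₁ from ⟨h0, c1, c2⟩),
          if_neg (show g₀.mob (hc n t) ∉ P₂ from fun h => absurd h.2.2 (not_lt.2 c2)), if_neg n3]
        ring
      · rw [if_neg (show g₀.mob (hc n t) ∉ P₁ from fun h => c2 h.2.2),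
          if_pos (show g₀.mob (hc n t) ∈ P₂ from ⟨h0, c1, not_le.1 c2⟩), if_neg n3]
        ring
    · rw [if_neg (show g₀.mob (hc n t) ∉ P₁ from fun h => c1 h.2.1),
        if_neg (show g₀.mob (hc n t) ∉ P₂ from fun h => c1 h.2.1),
        if_pos (show g₀.mob (hc n t) ∈ P₃ from ⟨not_le.1 c1, fd_zw_re h0⟩)]
      ring
  have hI := ((k1.1.add k2.1).add k3.1).const_mul (1 / 2 : ℂ)
  refine ⟨hI.congr_ae (ae_restrict_of_ae (hae.mono fun t ht => ht.symm)), ?_⟩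
  rw [R1, intervalIntegral.integral_congr_ae (hae.mono fun t ht _ => ht),
    intervalIntegral.integral_const_mul, intervalIntegral.integral_add (k1.1.add k2.1) k3.1,
    intervalIntegral.integral_add k1.1 k2.1, norm_mul, norm_mul]
  have hn2 : ‖(1 / 2 : ℂ)‖ = 1 / 2 := by simp
  rw [hn2]
  have := (norm_add₃_le).trans (add_le_add (add_le_add k1.2 k2.2) k3.2)
  linarith

end

end Pool.Agent.MP_9f080f_an

end

-- part MP_9f080f_an.ShR1A
section

namespace Pool.Agent.MP_9f080f_an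
open Complex MeasureTheory Set Filter Topology Metric
open scoped Real

noncomputable section

/-! A sharper majorant for the contribution of the cusps with a fixed denominator. -/

/-- one half of the profile -/
def shr1f (s : ℝ) : ℝ := (Ioc (0 : ℝ) 1).indicator (fun s => s ^ (-5 / 6 : ℝ)) s

/-- the profile -/
def shr1g (s : ℝ) : ℝ := shr1f s + shr1f (-s)

/-- the majorant -/
def shr1h (n p : ℕ) (v t : ℝ) : ℝ :=
  (n : ℝ) ^ (1 / 4 : ℝ) / √p * v ^ (5 / 12 : ℝ) * shr1g (p * √(n * v) * t)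

lemma shr1_f_nonneg (s : ℝ) : 0 ≤ shr1f s :=
  indicator_nonneg (fun _ h => Real.rpow_nonneg h.1.le _) _

lemma shr1_g_nonneg (s : ℝ) : 0 ≤ shr1g s := add_nonneg (shr1_f_nonneg _) (shr1_f_nonneg _)

lemma shr1_f_int : Integrable shr1f := by
  have h := (intervalIntegral.intervalIntegrable_rpow' (a := 0) (b := 1)
    (r := (-5 / 6 : ℝ)) (by norm_num)).1
  exact h.integrable_indicator measurableSet_Ioc

lemma shr1_g_int : Integrable shr1g := shr1_f_int.add shr1_f_int.comp_neg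

lemma shr1_g_ge {s : ℝ} (h0 : s ≠ 0) (h1 : s ^ 2 ≤ 1) : |s| ^ (-5 / 6 : ℝ) ≤ shr1g s := by
  have h2 : |s| ≤ 1 := by rwa [← sq_le_one_iff_abs_le_one]
  rw [abs_le] at h2
  unfold shr1g
  rcases lt_or_gt_of_ne h0 with h | h
  · have : shr1f (-s) = |s| ^ (-5 / 6 : ℝ) := by
      rw [shr1f, indicator_of_mem (show -s ∈ Ioc (0 : ℝ) 1 from ⟨by linarith, by linarith⟩),
        abs_of_neg h]
    linarith [shr1_f_nonneg s]
  · have : shr1f s = |s| ^ (-5 / 6 : ℝ) := by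
      rw [shr1f, indicator_of_mem (show s ∈ Ioc (0 : ℝ) 1 from ⟨h, h2.2⟩), abs_of_pos h]
    linarith [shr1_f_nonneg (-s)]

lemma shr1_h_nonneg (n p : ℕ) {v : ℝ} (hv : 0 < v) (t : ℝ) : 0 ≤ shr1h n p v t := by
  have := shr1_g_nonneg (p * √(n * v) * t)
  unfold shr1h; positivity

lemma shr1_h_int {n p : ℕ} (hn : 0 < n) (hp : 0 < p) {v : ℝ} (hv : 0 < v) :
    Integrable (shr1h n p v) ∧ ∫ t, shr1h n p v t =
      v ^ (5 / 12 : ℝ) / √v * (∫ s, shr1g s) * (n : ℝ) ^ (-1 / 4 : ℝ) / (p * √p) := by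
  have h1 : (0 : ℝ) < n := by positivity
  have h2 : (0 : ℝ) < p := by positivity
  have hk : 0 < p * √(n * v) := by positivity
  refine ⟨(shr1_g_int.comp_mul_left' hk.ne').const_mul _, ?_⟩
  unfold shr1h
  rw [integral_const_mul, Measure.integral_comp_mul_left shr1g, abs_of_pos (inv_pos.2 hk),
    smul_eq_mul, Real.sqrt_mul h1.le]
  have e : (n : ℝ) ^ (1 / 4 : ℝ) = (n : ℝ) ^ (-1 / 4 : ℝ) * √n := by
    rw [Real.sqrt_eq_rpow, ← Real.rpow_add h1]; norm_num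
  rw [e]
  have : 0 < √(n : ℝ) := by positivity
  have : 0 < √v := by positivity
  have : 0 < √(p : ℝ) := by positivity
  field_simp

lemma shr1_pow {a : ℝ} (ha : 0 ≤ a) (r : ℝ) (k : ℕ) (h : r * 12 = k) : (a ^ r) ^ 12 = a ^ k := by
  rw [← Real.rpow_natCast, ← Real.rpow_mul ha, ← Real.rpow_natCast]
  congr 1

lemma shr1_maj {n p : ℕ} (hn : 0 < n) (hp : 0 < p) {v : ℝ} (hv : 0 < v) {t : ℝ}
    (h : v ≤ (c1om n p t).im) (ht : t ≠ 0) :
    ‖rt (c1om n p t)‖ * (c1om n p t).im ^ (1 / 6 : ℝ) ≤ shr1h n p v t := by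
  have h1 : (0 : ℝ) < n := by positivity
  have h2 : (0 : ℝ) < p := by positivity
  have hs := (circle1_supp hn hp hv h).2
  have hy := circle1_om_im hn hp t
  have hw := circle1_om_norm hn hp t
  have hy0 := circle1_om_pos hn hp t
  have hk : 0 < p * √(n * v) := by positivity
  have hs0 : p * √(n * v) * t ≠ 0 := mul_ne_zero hk.ne' ht
  have hg := shr1_g_ge hs0 hs
  have hs2 : (p * √(n * v) * t) ^ 2 = p ^ 2 * (n * v) * t ^ 2 := by
    rw [mul_pow, mul_pow, Real.sq_sqrt (by positivity)]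
  unfold shr1h
  set y := (c1om n p t).im
  set s := p * √(n * v) * t
  refine le_trans ?_ (mul_le_mul_of_nonneg_left hg (by positivity))
  rw [norm_rt]
  set w := ‖c1om n p t‖
  have hw0 : 0 ≤ w := norm_nonneg _
  have hD : (0 : ℝ) < 1 + (n * t) ^ 2 := by positivity
  have ha : 0 < |s| := abs_pos.2 hs0
  have e1 : w ^ 2 = n * y / p ^ 2 := by rw [hw, hy]; field_simp
  have e2 : y * s ^ 2 ≤ v := by
    rw [hs2, hy, div_mul_eq_mul_div, div_le_iff₀ (by positivity)]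
    have : 0 ≤ v * p ^ 2 := by positivity
    nlinarith
  refine (pow_le_pow_iff_left₀ (by positivity) (by positivity) (by norm_num : (12 : ℕ) ≠ 0)).1 ?_
  have b1 : √w ^ 12 = (w ^ 2) ^ 3 := by
    rw [show 12 = 2 * 6 by rfl, pow_mul, Real.sq_sqrt hw0]; ring
  have b2 : √(p : ℝ) ^ 12 = (p : ℝ) ^ 6 := by
    rw [show 12 = 2 * 6 by rfl, pow_mul, Real.sq_sqrt h2.le]
  have b3 : (|s| ^ (-5 / 6 : ℝ)) ^ 12 = ((s ^ 2) ^ 5)⁻¹ := by
    rw [show (-5 / 6 : ℝ) = -(5 / 6) by ring, Real.rpow_neg ha.le, inv_pow,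
      shr1_pow ha.le _ 10 (by norm_num), ← sq_abs s]
    ring
  rw [mul_pow, mul_pow, mul_pow, div_pow, b1, b2, b3, shr1_pow hy0.le _ 2 (by norm_num),
    shr1_pow h1.le _ 3 (by norm_num), shr1_pow hv.le _ 5 (by norm_num), e1]
  have hs3 : 0 < s ^ 2 := by positivity
  have b4 : y ^ 5 ≤ v ^ 5 * ((s ^ 2) ^ 5)⁻¹ := by
    rw [← div_eq_mul_inv, ← div_pow]
    exact pow_le_pow_left₀ hy0.le ((le_div_iff₀ hs3).2 e2) 5
  calc (n * y / p ^ 2) ^ 3 * y ^ 2 = (n : ℝ) ^ 3 / p ^ 6 * y ^ 5 := by field_simp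
    _ ≤ (n : ℝ) ^ 3 / p ^ 6 * (v ^ 5 * ((s ^ 2) ^ 5)⁻¹) :=
      mul_le_mul_of_nonneg_left b4 (by positivity)
    _ = _ := by ring

lemma shr1_pt {n p : ℕ} (hn : 0 < n) (hp : 0 < p) {Q : Set ℂ} {G : ℂ → ℂ} {v M₀ M : ℝ}
    (h : C1Reg Q G v M₀) (hM : 0 ≤ M)
    (hbd : ∀ z ∈ Q, ‖G z‖ ≤ M * z.im ^ (1 / 6 : ℝ) ∧ ‖deriv G z‖ ≤ M * z.im ^ (1 / 6 : ℝ))
    {e : ℤ → ℂ} {B : ℝ}
    (hB : ∀ (a₀ : ℤ) (L : ℕ), L ≤ 2 * p → ‖∑ i ∈ Finset.range L, e (a₀ + i)‖ ≤ B)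
    {A : ℕ} (hA : 3 * p + n ≤ A) {t : ℝ} (ht : t ≠ 0) :
    ‖∑ a ∈ Finset.Icc (-A : ℤ) A, c1U n p e Q G a t‖ ≤
      3 * B * M * √p * Real.exp π * shr1h n p v t := by
  classical
  have hB0 : 0 ≤ B := by simpa using hB 0 0 (by omega)
  have hh := shr1_h_nonneg n p h.vpos t
  by_cases hv : v ≤ (c1om n p t).im
  swap
  · rw [Finset.sum_eq_zero, norm_zero]
    · positivity
    intro a _
    unfold c1U
    rw [if_neg]
    intro ha
    have h1 := h.high _ ha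
    rw [circle1_im_add] at h1
    exact hv h1
  have hp0 : (0 : ℝ) < p := by positivity
  have hw0 := circle1_om_pos hn hp t
  have h3 := shr1_maj hn hp h.vpos hv ht
  have hne := fun a => circle1_U_ne hn hp h (a := a) (t := t)
  have hU : ∀ a, c1U n p e Q G a t = if (a : ℂ) / p + c1om n p t ∈ Q then
    e a * (((√p : ℝ) : ℂ) * rt (c1om n p t) * ep (-n * hc n t) * G (a / p + c1om n p t)) else 0 :=
    fun a => rfl
  have hep := circle1_norm_ep hn t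
  simp only [hU]
  generalize c1om n p t = w at *
  generalize ep (-n * hc n t) = E at *
  obtain ⟨u₀, -, hs⟩ := h.strip
  set J : Set ℝ := {u : ℝ | (u : ℂ) + w ∈ Q} with hJ
  have cast : ∀ a : ℤ, (((a : ℝ) / p : ℝ) : ℂ) = (a : ℂ) / p := fun a => by push_cast; ring
  have hJs : J ⊆ Ioo (u₀ - w.re) (u₀ - w.re + 2) := fun u hu => by
    have := hs _ hu
    simp only [add_re, ofReal_re] at this
    constructor <;> linarith [this.1, this.2]
  have hvol : volume J ≤ ENNReal.ofReal 2 := by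
    refine (measure_mono hJs).trans ?_
    rw [Real.volume_Ioo]; apply le_of_eq; congr 1; ring
  have hfin : volume J ≠ ⊤ := ne_top_of_le_ne_top ENNReal.ofReal_ne_top hvol
  have him : ∀ u : ℝ, ((u : ℂ) + w).im = w.im := fun u => by simp
  have key := pvbv (e := e) (p := p) (B := B) (M := M * w.im ^ (1 / 6 : ℝ)) (V := 2 * (M * w.im ^ (1 / 6 : ℝ))) hp0
    (h.oc w) (s := Finset.Icc (-A : ℤ) A) (G := fun u : ℝ => G (u + w))
    (G' := fun u : ℝ => deriv G (u + w)) (φ := fun _ => M * w.im ^ (1 / 6 : ℝ)) ?_ ?_ ?_ ?_ ?_ ?_ ?_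
    (by positivity) (by positivity)
  · have e1 : (∑ a ∈ Finset.Icc (-A : ℤ) A, if (a : ℂ) / p + w ∈ Q then
        e a * (((√p : ℝ) : ℂ) * rt w * E * G (a / p + w)) else 0) =
        ((√p : ℝ) : ℂ) * rt w * E * ∑ a ∈ Finset.Icc (-A : ℤ) A,
          if (a : ℝ) / p ∈ {u : ℝ | (u : ℂ) + w ∈ Q} then e a * G ((((a : ℝ) / p : ℝ) : ℂ) + w)
          else 0 := by
      rw [Finset.mul_sum]
      refine Finset.sum_congr rfl fun a _ => ?_
      simp only [mem_ofPred_eq, cast]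
      split_ifs
      · ring
      · simp
    rw [e1, norm_mul, norm_mul, norm_mul, hep, norm_real, Real.norm_of_nonneg (Real.sqrt_nonneg _)]
    calc _ ≤ √p * ‖rt w‖ * Real.exp π * (B * (M * w.im ^ (1 / 6 : ℝ) + 2 * (M * w.im ^ (1 / 6 : ℝ)))) := by
          gcongr
      _ = 3 * B * M * √p * Real.exp π * (‖rt w‖ * w.im ^ (1 / 6 : ℝ)) := by ring
      _ ≤ _ := by gcongr
  · intro a ha
    simp only [mem_ofPred_eq, cast] at ha
    have := (hne a ha).2.2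
    rw [Finset.mem_Icc, ← abs_le]
    omega
  · intro a₀ L hL
    refine hB a₀ L ?_
    by_contra hlt
    have a1 := hJs (hL 0 (by omega))
    have a2 := hJs (hL (2 * p) (by omega))
    have e2 : ((a₀ + ((2 * p : ℕ) : ℤ) : ℤ) : ℝ) / p = ((a₀ + ((0 : ℕ) : ℤ) : ℤ) : ℝ) / p + 2 := by
      push_cast; field_simp; ring
    rw [e2] at a2
    linarith [a1.1, a2.2]
  · intro u _
    have h1 : HasDerivAt G (deriv G (u + w)) (u + w) := (h.diff _ (by rw [him]; exact hw0)).hasDerivAt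
    exact (h1.comp_add_const (u : ℂ) w).comp_ofReal
  · intro u hu
    have := (hbd _ hu).1
    rwa [him] at this
  · intro u hu
    have := (hbd _ hu).2
    rwa [him] at this
  · exact integrableOn_const hfin
  · rw [setIntegral_const, smul_eq_mul]
    gcongr
    exact ENNReal.toReal_le_of_le_ofReal (by norm_num) hvol

/-- the constant of the frame estimate -/
def shr1k (v : ℝ) : ℝ := 3 * Real.exp π * (v ^ (5 / 12 : ℝ) / √v * ∫ s, shr1g s)

lemma shr1_k_nonneg {v : ℝ} (hv : 0 < v) : 0 ≤ shr1k v := by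
  have : 0 ≤ ∫ s, shr1g s := integral_nonneg shr1_g_nonneg
  unfold shr1k; positivity

theorem shr1_frame {n p : ℕ} (hn : 0 < n) (hp : 0 < p) {Q : Set ℂ} {G : ℂ → ℂ} {v M₀ M : ℝ}
    (h : C1Reg Q G v M₀) (hM : 0 ≤ M)
    (hbd : ∀ z ∈ Q, ‖G z‖ ≤ M * z.im ^ (1 / 6 : ℝ) ∧ ‖deriv G z‖ ≤ M * z.im ^ (1 / 6 : ℝ))
    {e : ℤ → ℂ} {B : ℝ}
    (hB : ∀ (a₀ : ℤ) (L : ℕ), L ≤ 2 * p → ‖∑ i ∈ Finset.range L, e (a₀ + i)‖ ≤ B)
    {A : ℕ} (hA : 3 * p + n ≤ A) :
    ‖∑ a ∈ Finset.Icc (-A : ℤ) A, ∫ t, c1U n p e Q G a t‖ ≤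
      shr1k v * M * (n : ℝ) ^ (-1 / 4 : ℝ) * (B / p) := by
  have hp0 : (0 : ℝ) < p := by positivity
  rw [← integral_finsetSum _ fun a _ => circle1_U_int hn hp h e a]
  have hi := shr1_h_int hn hp h.vpos
  have hae : ∀ᵐ t : ℝ, t ≠ 0 := by
    rw [ae_iff]; simp
  refine (norm_integral_le_of_norm_le (hi.1.const_mul _)
    (hae.mono fun t ht => shr1_pt hn hp h hM hbd hB hA ht)).trans (le_of_eq ?_)
  rw [integral_const_mul, hi.2, shr1k]
  have : 0 < √(p : ℝ) := by positivity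
  field_simp

theorem shr1_frame_zero {n p : ℕ} (hn : 0 < n) (hp : 0 < p) {Q : Set ℂ} {G : ℂ → ℂ} {v M₀ : ℝ}
    (h : C1Reg Q G v M₀) (e : ℤ → ℂ) (hl : ¬p ^ 2 ≤ ⌈1 / v⌉₊ * n) (s : Finset ℤ) :
    ‖∑ a ∈ s, ∫ t, c1U n p e Q G a t‖ ≤ 0 := by
  have hv := h.vpos
  have : ∀ a t, c1U n p e Q G a t = 0 := fun a t => by
    unfold c1U
    rw [if_neg]
    intro ha
    have a1 := (circle1_U_ne hn hp h ha).1
    apply hl
    have b1 := Nat.le_ceil (1 / v)
    have b2 : (p : ℝ) ^ 2 ≤ 1 / v * n := by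
      rw [one_div_mul_eq_div, le_div_iff₀ hv]; linarith
    have b3 : (p : ℝ) ^ 2 ≤ ⌈1 / v⌉₊ * n := b2.trans (by gcongr)
    exact_mod_cast b3
  simp [this]

end

end Pool.Agent.MP_9f080f_an

end
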