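import Pool.Agent.MP_9f080f_an.Mg.TransferB

namespace Pool.Agent.MP_9f080f_an
open Complex MeasureTheory Set Filter Topology Metric
open scoped Real

noncomputable section

open scoped FourierTransform

/-! From Gaussians to Schwartz functions.
For `Λ h = ∑ c j * h (ρ j)` killing every `e_σ + 𝓕 e_σ`, the function
`H x = Λ (transferK δ x)` is orthogonal to all Gaussians `e_τ`, hence odd, hence orthogonal to
`b`; this says `Λ (exp (-π δ² r²) b + b * G_δ) = 0`, and `δ → 0` gives `2 Λ b = 0`. -/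

/-- the regularisation of `2 b` -/
def transferG (b : ℝ → ℂ) (δ r : ℝ) : ℂ :=
  cexp (-π * δ ^ 2 * r ^ 2) * b r + ∫ y : ℝ, cexp (-π * y ^ 2) * b (r - δ * y)

lemma transfer_dec_exp : TrDec (fun y : ℝ => cexp (-π * y ^ 2)) := by
  have h := transfer_dec_gauss (τ := I) (by simp)
  have e : (fun x : ℝ => ep (x ^ 2 * I)) = fun y : ℝ => cexp (-π * y ^ 2) := by
    ext y; rw [ep]; congr 1; linear_combination (π * y ^ 2 : ℂ) * I_mul_I
  rwa [e] at h

lemma transferG_zero (b : ℝ → ℂ) (r : ℝ) : transferG b 0 r = 2 * b r := by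
  have g := transfer_gauss (w := 1) (u := 1) (by simp) (by simp) (by simp) 0 0
  simp only [mul_one, zero_mul, add_zero, inv_one, ne_eq, OfNat.ofNat_ne_zero, not_false_eq_true,
    zero_pow, zero_div, Complex.exp_zero] at g
  simp only [transferG, zero_mul, sub_zero, integral_mul_const, g]
  simp
  ring

lemma transferG_cont {b : ℝ → ℂ} (hb : TrDec b) (r : ℝ) :
    Continuous (fun δ => transferG b δ r) := by
  obtain ⟨A, hA⟩ := hb.2 0
  have hc := hb.1
  simp only [pow_zero, mul_one] at hA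
  refine Continuous.add (by fun_prop) ?_
  refine continuous_of_dominated (bound := fun y : ℝ => ‖cexp (-π * y ^ 2)‖ * A)
    (fun δ => by fun_prop) (fun δ => ae_of_all _ fun y => ?_)
    (transfer_dec_exp.integrable.norm.mul_const A) (ae_of_all _ fun y => by fun_prop)
  rw [norm_mul]; gcongr; exact hA _

lemma transferG_bound {b : ℝ → ℂ} (hb : TrDec b) (M : ℕ) :
    ∃ A : ℝ, ∀ δ : ℝ, |δ| ≤ 1 → ∀ r : ℝ, ‖transferG b δ r‖ * (1 + r ^ 2) ^ M ≤ A := by
  obtain ⟨A, hA⟩ := hb.2 M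
  have hw := transfer_dec_exp.integrable_weight M
  refine ⟨A + 2 ^ M * A * ∫ y : ℝ, (1 + y ^ 2) ^ M * ‖cexp (-π * y ^ 2)‖, fun δ hδ r => ?_⟩
  have hp : (0 : ℝ) < (1 + r ^ 2) ^ M := by positivity
  have h1 : ‖cexp (-π * δ ^ 2 * r ^ 2) * b r‖ * (1 + r ^ 2) ^ M ≤ A := by
    refine le_trans ?_ (hA r)
    rw [norm_mul, transfer_norm_exp']
    gcongr
    refine mul_le_of_le_one_left (norm_nonneg _) ?_
    rw [Real.exp_le_one_iff]
    have : 0 ≤ π * δ ^ 2 * r ^ 2 := by positivity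
    linarith
  have h2 : ‖∫ y : ℝ, cexp (-π * y ^ 2) * b (r - δ * y)‖ ≤
      (2 ^ M * A * ∫ y : ℝ, (1 + y ^ 2) ^ M * ‖cexp (-π * y ^ 2)‖) / (1 + r ^ 2) ^ M := by
    rw [← integral_const_mul, ← integral_div]
    refine norm_integral_le_of_norm_le ((hw.const_mul _).div_const _) (ae_of_all _ fun y => ?_)
    rw [le_div_iff₀ hp, norm_mul]
    have hq := transfer_peetre M (r - δ * y) (δ * y)
    rw [sub_add_cancel] at hq
    have hy : (1 + (δ * y) ^ 2) ^ M ≤ (1 + y ^ 2) ^ M := by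
      have : δ ^ 2 ≤ 1 := by rw [← sq_abs]; exact pow_le_one₀ (abs_nonneg _) hδ
      refine pow_le_pow_left₀ (by positivity) ?_ M
      rw [mul_pow]; nlinarith [sq_nonneg y]
    have hA' := hA (r - δ * y)
    have hA0 : 0 ≤ A := le_trans (by positivity) hA'
    calc ‖cexp (-π * y ^ 2)‖ * ‖b (r - δ * y)‖ * (1 + r ^ 2) ^ M
        ≤ ‖cexp (-π * y ^ 2)‖ * ‖b (r - δ * y)‖ *
          (2 ^ M * ((1 + (r - δ * y) ^ 2) ^ M * (1 + (δ * y) ^ 2) ^ M)) := by gcongr
      _ = 2 ^ M * (‖b (r - δ * y)‖ * (1 + (r - δ * y) ^ 2) ^ M) *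
          ((1 + (δ * y) ^ 2) ^ M * ‖cexp (-π * y ^ 2)‖) := by ring
      _ ≤ _ := by gcongr
  rw [le_div_iff₀ hp] at h2
  calc ‖transferG b δ r‖ * (1 + r ^ 2) ^ M
      ≤ (‖cexp (-π * δ ^ 2 * r ^ 2) * b r‖ +
          ‖∫ y : ℝ, cexp (-π * y ^ 2) * b (r - δ * y)‖) * (1 + r ^ 2) ^ M := by
        gcongr; exact norm_add_le _ _
    _ ≤ _ := by rw [add_mul]; exact add_le_add h1 h2

lemma transfer_general {ρ : ℕ → ℝ} {c : ℕ → ℂ} {M : ℕ}
    (hs : Summable fun j => ‖c j‖ / (1 + ρ j ^ 2) ^ M)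
    (h : ∀ σ : ℂ, 0 < σ.im → HasSum (fun j => c j *
      (ep (ρ j ^ 2 * σ) + (rt σ)⁻¹ * ep (ρ j ^ 2 * (-1 / σ)))) 0)
    {b : ℝ → ℂ} (hd : TrDec b) (he : ∀ r, b (-r) = b r)
    (hb : ∀ r : ℝ, ∫ x : ℝ, cexp (-2 * π * I * x * r) * b x = b r) :
    HasSum (fun j => c j * b (ρ j)) 0 := by
  have hp : ∀ j, (0 : ℝ) < (1 + ρ j ^ 2) ^ M := fun j => by positivity
  have key : ∀ δ : ℝ, 0 < δ → ∑' j, c j * transferG b δ (ρ j) = 0 := by
    intro δ hδ
    obtain ⟨B, hB⟩ := transferK_bound hδ M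
    obtain ⟨h1, h2, h3⟩ := transfer_series (u := fun j x => c j * transferK δ x (ρ j))
      (fun j => continuous_const.mul (transferK_cont δ _)) (hs.mul_right B) (M := M)
      (fun j x => by
        rw [norm_mul, div_mul_eq_mul_div, div_mul_eq_mul_div, le_div_iff₀ (hp j), mul_assoc,
          mul_assoc]
        exact mul_le_mul_of_nonneg_left (hB x _) (norm_nonneg _))
    have h4 := transfer_vanish h1 h2 (fun t => by
      have hτ : 0 < ((t : ℂ) + I).im := by simp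
      have hσ : 0 < (-1 / ((t : ℂ) + I) + I * δ ^ 2).im := by
        have := im_neg_inv_pos hτ
        rw [add_im, ← ofReal_pow, mul_comm I, im_ofReal_mul, I_im]
        positivity
      have h5 := h3 _ (transfer_dec_gauss hτ)
      have h6 := (h _ hσ).mul_left (rt ((t : ℂ) + I))⁻¹
      rw [mul_zero] at h6
      refine h5.unique (h6.congr_fun fun j => ?_)
      simp only [mul_assoc]
      rw [integral_const_mul, transferK_gauss hδ _ hτ]
      ring) he
    have h5 := h3 b hd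
    rw [h4] at h5
    refine (h5.congr_fun fun j => ?_).tsum_eq
    simp only [mul_assoc]
    rw [integral_const_mul, transferK_int hδ _ hd.integrable, hb, transferG]
  obtain ⟨A, hA⟩ := transferG_bound hd M
  have hbd : ∀ δ : ℝ, |δ| ≤ 1 → ∀ j, ‖c j * transferG b δ (ρ j)‖ ≤
      ‖c j‖ / (1 + ρ j ^ 2) ^ M * A := fun δ hδ j => by
    rw [norm_mul, div_mul_eq_mul_div, le_div_iff₀ (hp j), mul_assoc]
    gcongr
    exact hA δ hδ _
  have hlim : Tendsto (fun δ : ℝ => ∑' j, c j * transferG b δ (ρ j)) (𝓝[>] 0)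
      (𝓝 (∑' j, c j * transferG b 0 (ρ j))) := by
    refine tendsto_tsum_of_dominated_convergence (hs.mul_right A) (fun j => ?_) ?_
    · exact ((continuous_const.mul (transferG_cont hd (ρ j))).tendsto 0).mono_left
        nhdsWithin_le_nhds
    · filter_upwards [Ioo_mem_nhdsGT (zero_lt_one' ℝ)] with δ hδ
      exact hbd δ (by rw [abs_of_pos hδ.1]; exact hδ.2.le)
  have h0 : ∑' j, c j * transferG b 0 (ρ j) = 0 := by
    refine tendsto_nhds_unique hlim (tendsto_const_nhds.congr' ?_)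
    filter_upwards [self_mem_nhdsWithin] with δ hδ
    exact (key δ hδ).symm
  have hsum : Summable fun j => c j * transferG b 0 (ρ j) :=
    Summable.of_norm_bounded (hs.mul_right A) (hbd 0 (by simp))
  have h7 := hsum.hasSum.div_const 2
  rw [h0, zero_div] at h7
  refine h7.congr_fun fun j => ?_
  rw [transferG_zero]; ring

theorem transfer {a : ℕ → ℂ} {C : ℝ} {K : ℕ} (ha : ∀ m : ℕ, ‖a m‖ ≤ C * (1 + m) ^ K) {r₀ : ℝ}
    {F : ℂ → ℂ} (hF : ∀ τ : ℂ, 0 < τ.im → HasSum (fun m : ℕ => a m * ep (m * τ)) (F τ))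
    (hS : ∀ τ : ℂ, 0 < τ.im → F τ + (rt τ)⁻¹ * F (-1 / τ) =
      ep (r₀ ^ 2 * τ) + (rt τ)⁻¹ * ep (r₀ ^ 2 * (-1 / τ)))
    (b : SchwartzMap ℝ ℂ) (he : ∀ r : ℝ, b (-r) = b r) (hb : ∀ ξ : ℝ, 𝓕 (b : ℝ → ℂ) ξ = b ξ) :
    HasSum (fun m : ℕ => a m * b (√m)) (b r₀) := by
  set ρ : ℕ → ℝ := fun j => Nat.casesOn j r₀ (fun m => √m) with hρ
  set c : ℕ → ℂ := fun j => Nat.casesOn j (-1) a with hc
  have hsq : ∀ m : ℕ, ((√(m : ℝ) : ℝ) : ℂ) ^ 2 = m := fun m => by
    rw [← ofReal_pow, Real.sq_sqrt (Nat.cast_nonneg m), ofReal_natCast]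
  have hs : Summable fun j => ‖c j‖ / (1 + ρ j ^ 2) ^ (K + 2) := by
    rw [← summable_nat_add_iff 1]
    have h1 : Summable fun m : ℕ => C * (1 / ((m + 1 : ℕ) : ℝ) ^ 2) :=
      ((summable_nat_add_iff 1).2 (Real.summable_one_div_nat_pow.2 one_lt_two)).mul_left C
    refine Summable.of_nonneg_of_le (fun j => by positivity) (fun m => ?_) h1
    change ‖a m‖ / (1 + √(m : ℝ) ^ 2) ^ (K + 2) ≤ _
    rw [Real.sq_sqrt (Nat.cast_nonneg m), div_le_iff₀ (by positivity)]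
    refine (ha m).trans (le_of_eq ?_)
    push_cast
    field_simp
    ring
  have h := transfer_general (ρ := ρ) (c := c) hs (fun σ hσ => by
    have h1 := (hF σ hσ).add ((hF _ (im_neg_inv_pos hσ)).mul_left (rt σ)⁻¹)
    rw [hS σ hσ] at h1
    rw [← hasSum_nat_add_iff' 1]
    simp only [Finset.range_one, Finset.sum_singleton, hρ, hc, hsq, Nat.rec_zero]
    rw [neg_one_mul, sub_neg_eq_add, zero_add]
    exact h1.congr_fun fun m => by ring) (transfer_dec_schwartz b) he (fun r => by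
      rw [← hb r, Real.fourier_real_eq_integral_exp_smul]
      congr 1; ext x
      rw [smul_eq_mul]; congr 2; push_cast; ring)
  rw [← hasSum_nat_add_iff' 1] at h
  simpa [hρ, hc] using h

end

end Pool.Agent.MP_9f080f_an
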