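import Pool.Agent.MP_9f080f_an.Mg.MainAsmA
import Pool.Agent.MP_9f080f_an.Mg.PV
import Pool.Agent.MP_9f080f_an.Mg.ShR1A
import Pool.Agent.MP_9f080f_an.Mg.Ident
import Pool.Agent.MP_9f080f_an.Mg.MainAsm
import Pool.Agent.MP_9f080f_an.Mg.Transfer
import Pool.Agent.MP_9f080f_an.Mg.ShMT
import Pool.Agent.MP_9f080f_an.Mg.ShAT

-- part MP_9f080f_an.Jest
section

namespace Pool.Agent.MP_9f080f_an
open Complex MeasureTheory Set Filter Topology Metric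
open scoped Real

noncomputable section

/-! The leftover parts of the vertical line.  Interchange the finite sum over `q` with the integral
(`fC_integrable`).  For fixed `η`, `β`, `H = n/β²`, `v = q/β - 1/2`, the admissible `q/β` form two intervals
(`v ≥ 0` and `v < 0`; non coprime `q` have `eC = 0` anyway) on which `ζ = ln η - q/β` satisfies
`‖ζ‖ ≥ m`, `H η ≤ ‖ζ‖²`, so `‖kc H ζ‖ ≤ e^π m^(-3/2)`,
`‖kc'‖ ≤ e^π (3/2 ‖ζ‖^(-5/2) + π H ‖ζ‖^(-7/2))` and `‖ζ‖ ≥ (m + (|v| - ρ))/2` where `ρ` is the infimum of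
`|v|`; `pvbv` and `pv_long` give `C wt β √β (1 + log β) (m^(-3/2) + H m^(-5/2))`.
`JU`: `m² = max (Hη, η²)`, `H ≥ 1/2`, bound `C H^(-1/4) η^(-5/4)`, `phi_up`, `∫_{1/2}^∞ η^(-13/12)`.
`JL`: `m² = H/2`, `H ≥ 2` if the sum is nonempty, bound `C H^(-1/4)`, `phi_low`.
Finally `β^(-3/2) √β H^(-1/4) ≤ 2/β` for `β² ≤ 2n` and `sum_wt`. -/

lemma jest_re (η t : ℝ) : (ln η - t).re = 1 / 2 - t := by rw [sub_re, ln_re, ofReal_re]

lemma jest_im (η t : ℝ) : (ln η - t).im = η := by rw [sub_im, ln_im, ofReal_im, sub_zero]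

lemma jest_normsq (η t : ℝ) : ‖ln η - t‖ ^ 2 = η ^ 2 + (t - 1 / 2) ^ 2 := by
  rw [← Complex.normSq_eq_norm_sq, normSq_apply, jest_re, jest_im]; ring

lemma jest_cauchy {m : ℝ} (hm : 0 < m) (c : ℝ) :
    Integrable (fun t : ℝ => (m ^ 2 + (t - c) ^ 2)⁻¹) ∧
      ∫ t : ℝ, (m ^ 2 + (t - c) ^ 2)⁻¹ = π / m := by
  have e : ∀ t : ℝ, (m ^ 2 + t ^ 2)⁻¹ = (m ^ 2)⁻¹ * (1 + (m⁻¹ * t) ^ 2)⁻¹ := by
    intro t; field_simp
  have h1 : Integrable (fun t : ℝ => (m ^ 2 + t ^ 2)⁻¹) := by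
    simp_rw [e]
    exact (integrable_inv_one_add_sq.comp_mul_left' (inv_ne_zero hm.ne')).const_mul _
  refine ⟨h1.comp_sub_right c, ?_⟩
  rw [integral_sub_right_eq_self (fun t : ℝ => (m ^ 2 + t ^ 2)⁻¹) c]
  simp_rw [e]
  rw [integral_const_mul, Measure.integral_comp_mul_left (fun t : ℝ => (1 + t ^ 2)⁻¹),
    integral_univ_inv_one_add_sq, inv_inv, abs_of_pos hm, smul_eq_mul]
  field_simp

/-- the constant in `jest_key` -/
def jestK : ℝ := Real.exp π * (1 + π * (3 / 2 + 2 * π))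

lemma jestK_pos : 0 < jestK := by unfold jestK; positivity

open Classical in
lemma jest_key {e : ℤ → ℂ} {p B H η m D c : ℝ} (hp : 0 < p)
    (hB : ∀ (a₀ : ℤ) (L : ℕ), ‖∑ i ∈ Finset.range L, e (a₀ + i)‖ ≤ B) (hH : 0 ≤ H) (hη : 0 < η)
    (hm : 0 < m) (hy : 0 < D) (hym : D ≤ m * √m) (hHy : H * D ≤ 2 * m ^ 2 * √m) {J : Set ℝ}
    (hJ : J.OrdConnected)
    (h1 : ∀ t ∈ J, m ^ 2 + (t - c) ^ 2 ≤ η ^ 2 + (t - 1 / 2) ^ 2)
    (h2 : ∀ t ∈ J, H * η ≤ η ^ 2 + (t - 1 / 2) ^ 2) {s : Finset ℤ}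
    (hs : ∀ a : ℤ, (a : ℝ) / p ∈ J → a ∈ s) :
    ‖∑ a ∈ s, if (a : ℝ) / p ∈ J then e a * kc H (ln η - ((a / p : ℝ) : ℂ)) else 0‖ ≤
      B * (jestK * (1 / D)) := by
  have hsm : 0 < √m := Real.sqrt_pos.2 hm
  have hB0 : 0 ≤ B := by simpa using hB 0 0
  have h0 : ∀ t : ℝ, ln η - t ≠ 0 := fun t => ne_of_im (by rw [jest_im]; exact hη)
  have hn : ∀ t ∈ J, m ≤ ‖ln η - t‖ := by
    intro t ht
    have := h1 t ht
    rw [← jest_normsq] at this
    exact abs_le_of_sq_le_sq' (by nlinarith [sq_nonneg (t - c)]) (norm_nonneg _) |>.2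
  have hk : ∀ t ∈ J, ‖kc H (ln η - t)‖ ≤ Real.exp π / (‖ln η - t‖ * √‖ln η - t‖) := by
    intro t ht
    have hpos : 0 < ‖ln η - t‖ := norm_pos_iff.2 (h0 t)
    rw [terms_norm_kc H (h0 t)]
    refine div_le_div_of_nonneg_right (Real.exp_le_exp.2 ?_) (by positivity)
    rw [jest_im, Complex.normSq_eq_norm_sq, div_le_iff₀ (by positivity), jest_normsq, mul_assoc]
    exact mul_le_mul_of_nonneg_left (h2 t ht) Real.pi_pos.le
  set K : ℝ := Real.exp π * (3 / (2 * √m) + π * H / (m * √m)) with hK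
  have hK0 : 0 ≤ K := by positivity
  obtain ⟨hc1, hc2⟩ := jest_cauchy hm c
  have main := pvbv (e := e) (B := B) (M := Real.exp π / (m * √m)) (V := K * (π / m)) hp hJ hs
    (fun a₀ L _ => hB a₀ L) (G := fun t => kc H (ln η - t))
    (G' := fun t => kc H (ln η - t) *
      (-3 / (2 * (ln η - t)) - π * I * H / (ln η - t) ^ 2) * (-1))
    (φ := fun t => K * (m ^ 2 + (t - c) ^ 2)⁻¹)
    (fun t _ => by
      have ha : HasDerivAt (fun z : ℂ => ln η - z) (-1) (t : ℂ) := by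
        simpa using (hasDerivAt_id (t : ℂ)).const_sub (ln η)
      have hb := (hasDerivAt_kc H (z := ln η - t) (by rw [jest_im]; exact hη.le) (h0 t)).comp
        (t : ℂ) ha
      exact hb.comp_ofReal)
    (fun t ht => by
      refine (hk t ht).trans ?_
      have := hn t ht
      gcongr)
    (fun t ht => by
      have hr := hn t ht
      have hq := h1 t ht
      rw [← jest_normsq] at hq
      have hkt := hk t ht
      set r := ‖ln η - t‖ with hr0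
      have hpos : 0 < r := hm.trans_le hr
      have hsr : √m ≤ √r := Real.sqrt_le_sqrt hr
      have hsr0 : 0 < √r := hsm.trans_le hsr
      have hd : ‖-3 / (2 * (ln η - t)) - π * I * H / (ln η - t) ^ 2‖ ≤
          3 / (2 * r) + π * H / r ^ 2 := by
        refine (norm_sub_le _ _).trans (le_of_eq ?_)
        simp only [norm_div, norm_mul, norm_neg, norm_pow, norm_I, Complex.norm_real,
          Complex.norm_ofNat, Real.norm_eq_abs, abs_of_pos Real.pi_pos, abs_of_nonneg hH, mul_one,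
          ← hr0]
      rw [norm_mul, norm_mul, norm_neg, norm_one, mul_one]
      calc _ ≤ Real.exp π / (r * √r) * (3 / (2 * r) + π * H / r ^ 2) := by gcongr
        _ = Real.exp π * (3 / (2 * √r) + π * H / (r * √r)) * (r ^ 2)⁻¹ := by field_simp
        _ ≤ K * (m ^ 2 + (t - c) ^ 2)⁻¹ := by
          rw [hK]
          gcongr)
    (hc1.const_mul K).integrableOn
    (by
      rw [← hc2, ← integral_const_mul]
      exact setIntegral_le_integral (hc1.const_mul K)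
        (Eventually.of_forall fun t => by positivity))
    (by positivity) (by positivity)
  refine main.trans (mul_le_mul_of_nonneg_left ?_ hB0)
  rw [jestK, hK]
  have e1 : 1 / (m * √m) ≤ 1 / D := by gcongr
  have e2 : H / (m ^ 2 * √m) ≤ 2 * (1 / D) := by
    rw [mul_one_div, div_le_div_iff₀ (by positivity) (by positivity)]
    linarith
  calc _ = Real.exp π * (1 / (m * √m) + π * (3 / 2 * (1 / (m * √m)) + π * (H / (m ^ 2 * √m)))) := by
        field_simp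
    _ ≤ Real.exp π * (1 / D + π * (3 / 2 * (1 / D) + π * (2 * (1 / D)))) := by
        gcongr
    _ = _ := by ring

/-- both sides of the line at once -/
lemma jest_two {e : ℤ → ℂ} {p B H η m D ρ : ℝ} (hp : 0 < p)
    (hB : ∀ (a₀ : ℤ) (L : ℕ), ‖∑ i ∈ Finset.range L, e (a₀ + i)‖ ≤ B) (hH : 0 ≤ H) (hη : 0 < η)
    (hm0 : 0 < m) (hy : 0 < D) (hym : D ≤ m * √m) (hHy : H * D ≤ 2 * m ^ 2 * √m) (hρ : 0 ≤ ρ)
    (hm : m ^ 2 ≤ η ^ 2 + ρ ^ 2) (hH2 : H * η ≤ η ^ 2 + ρ ^ 2) {U : Set ℝ} (hU : U.OrdConnected)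
    [∀ u, Decidable (u ∈ U)] (hUρ : ∀ u ∈ U, ρ ≤ u) {s : Finset ℤ} (hs : ∀ a : ℤ, |(a : ℝ) / p - 1 / 2| ∈ U → a ∈ s) :
    ‖∑ a ∈ s, if |(a : ℝ) / p - 1 / 2| ∈ U then e a * kc H (ln η - ((a / p : ℝ) : ℂ)) else 0‖ ≤
      B * (2 * jestK * (1 / D)) := by
  classical
  have k1 := jest_key (c := 1 / 2 + ρ) (J := {t | 1 / 2 ≤ t ∧ t - 1 / 2 ∈ U}) (s := s) hp hB hH hη
    hm0 hy hym hHy
    ⟨fun a ha b hb t ht => ⟨ha.1.trans ht.1,
      hU.out ha.2 hb.2 ⟨by linarith [ht.1], by linarith [ht.2]⟩⟩⟩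
    (fun t ht => by have := hUρ _ ht.2; nlinarith)
    (fun t ht => by have := hUρ _ ht.2; nlinarith)
    (fun a ha => hs a (by rw [abs_of_nonneg (by linarith [ha.1])]; exact ha.2))
  have k2 := jest_key (c := 1 / 2 - ρ) (J := {t | t < 1 / 2 ∧ -(t - 1 / 2) ∈ U}) (s := s) hp hB hH
    hη hm0 hy hym hHy
    ⟨fun a ha b hb t ht => ⟨ht.2.trans_lt hb.1,
      hU.out hb.2 ha.2 ⟨by linarith [ht.2], by linarith [ht.1]⟩⟩⟩
    (fun t ht => by have := hUρ _ ht.2; nlinarith)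
    (fun t ht => by have := hUρ _ ht.2; nlinarith)
    (fun a ha => hs a (by rw [abs_of_neg (by linarith [ha.1])]; exact ha.2))
  have := (norm_add_le _ _).trans (add_le_add k1 k2)
  rw [← Finset.sum_add_distrib] at this
  refine le_trans (le_of_eq ?_) (this.trans (le_of_eq (by ring)))
  congr 1
  refine Finset.sum_congr rfl fun a _ => ?_
  rcases le_or_gt (1 / 2) ((a : ℝ) / p) with h | h
  · rw [if_neg (show ¬(a : ℝ) / p ∈ {t : ℝ | t < 1 / 2 ∧ -(t - 1 / 2) ∈ U} from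
      fun h' => not_lt.2 h h'.1), add_zero]
    rw [abs_of_nonneg (by linarith)]
    by_cases hu : (a : ℝ) / p - 1 / 2 ∈ U
    · rw [if_pos hu, if_pos (show (a : ℝ) / p ∈ {t : ℝ | 1 / 2 ≤ t ∧ t - 1 / 2 ∈ U} from ⟨h, hu⟩)]
    · rw [if_neg hu, if_neg (show ¬(a : ℝ) / p ∈ {t : ℝ | 1 / 2 ≤ t ∧ t - 1 / 2 ∈ U} from
        fun h' => hu h'.2)]
  · rw [if_neg (show ¬(a : ℝ) / p ∈ {t : ℝ | 1 / 2 ≤ t ∧ t - 1 / 2 ∈ U} from
      fun h' => not_le.2 h h'.1), zero_add]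
    rw [abs_of_neg (by linarith)]
    by_cases hu : -((a : ℝ) / p - 1 / 2) ∈ U
    · rw [if_pos hu, if_pos (show (a : ℝ) / p ∈ {t : ℝ | t < 1 / 2 ∧ -(t - 1 / 2) ∈ U} from
        ⟨h, hu⟩)]
    · rw [if_neg hu, if_neg (show ¬(a : ℝ) / p ∈ {t : ℝ | t < 1 / 2 ∧ -(t - 1 / 2) ∈ U} from
        fun h' => hu h'.2)]

lemma jest_QS {n β : ℕ} (hβ : β ∈ BS n) (q : ℤ) :
    q ∈ QS n β ↔ |(q : ℝ) / β - 1 / 2| ≤ (n / β ^ 2 : ℝ) / 2 := by
  obtain ⟨h1, -⟩ := Finset.mem_filter.1 hβ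
  obtain ⟨h1, h2⟩ := Finset.mem_Icc.1 h1
  have hb : (0 : ℝ) < β := by exact_mod_cast h1
  have e : (q : ℝ) / β - 1 / 2 = (2 * q - β) / (2 * β) := by field_simp
  have key : |(q : ℝ) / β - 1 / 2| ≤ (n / β ^ 2 : ℝ) / 2 ↔ (β : ℤ) * |2 * q - β| ≤ n := by
    rw [e, abs_div, abs_of_pos (by positivity : (0 : ℝ) < 2 * β), div_le_iff₀ (by positivity),
      show (n / β ^ 2 : ℝ) / 2 * (2 * β) = n / β by field_simp, le_div_iff₀ hb, mul_comm]
    exact_mod_cast Iff.rfl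
  rw [key, QS, Finset.mem_filter, Finset.mem_Icc]
  refine ⟨fun h => h.2, fun h => ⟨?_, h⟩⟩
  have h1' : (1 : ℤ) ≤ β := by exact_mod_cast h1
  have h2' : (β : ℤ) ≤ n := by exact_mod_cast h2
  have h3 : |2 * q - β| ≤ n := by nlinarith [abs_nonneg (2 * q - β)]
  have h4 := abs_le.1 h3
  omega

lemma jest_B : ∃ C : ℝ, 0 ≤ C ∧ ∀ (n β : ℕ), Odd β → ∀ (a₀ : ℤ) (L : ℕ),
    ‖∑ i ∈ Finset.range L, eC n β (a₀ + i)‖ ≤ C * (wt β * √β) * (1 + Real.log β) := by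
  obtain ⟨C, hC⟩ := pv_long
  refine ⟨|C|, abs_nonneg _, fun n β hβ a₀ L => (hC _ β _ hβ.pos (eC_spec n hβ).1 a₀ L).trans ?_⟩
  have h1 := one_le_wt β
  have h2 := Real.log_natCast_nonneg β
  gcongr
  exact le_abs_self C

lemma jest_fC (x : ℝ) (n β : ℕ) (q : ℤ) (η : ℝ) : fC x n β q η =
    (√β / β ^ 2 : ℝ) * phi x (ln η) * I *
      (eC n β q * kc (n / β ^ 2) (ln η - ((q / β : ℝ) : ℂ))) := by
  rw [fC]; push_cast; ring

lemma jest_H {n β : ℕ} (hn : 0 < n) (hβ : 0 < β) :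
    1 / √√((n : ℝ) / β ^ 2) = (n : ℝ) ^ (-1 / 4 : ℝ) * √β := by
  have hn' : (0 : ℝ) < n := by exact_mod_cast hn
  have hb : (0 : ℝ) < β := by exact_mod_cast hβ
  rw [Real.sqrt_div hn'.le, Real.sqrt_sq hb.le, Real.sqrt_div (Real.sqrt_nonneg _), one_div_div,
    Real.sqrt_eq_rpow √(n : ℝ), Real.sqrt_eq_rpow (n : ℝ), ← Real.rpow_mul hn'.le,
    show (-1 / 4 : ℝ) = -(1 / 2 * (1 / 2)) by norm_num, Real.rpow_neg hn'.le]
  ring

lemma jest_half (z : ℂ) : ‖1 / 2 * z‖ ≤ ‖z‖ := by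
  rw [norm_mul]
  exact mul_le_of_le_one_left (norm_nonneg _) (by norm_num)

theorem JU_gen : ∃ C : ℝ, ∀ n : ℕ, 2 ≤ n → ∀ B : ℕ → ℝ,
    (∀ β : ℕ, Odd β → ∀ (a₀ : ℤ) (L : ℕ), ‖∑ i ∈ Finset.range L, eC n β (a₀ + i)‖ ≤ B β) →
    ∀ x : ℝ, 0 ≤ x → ‖JU x n‖ ≤ C * (n : ℝ) ^ (-1 / 4 : ℝ) *
      (∑ β ∈ (BS n).filter (fun b => b ^ 2 ≤ 2 * n), B β / β) * (1 + x) ^ (-2 / 3 : ℝ) := by
  classical
  obtain ⟨C₃, hP⟩ := phi_up
  have hint : IntegrableOn (fun η : ℝ => η ^ (-13 / 12 : ℝ)) (Ioi (1 / 2)) :=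
    integrableOn_Ioi_rpow_of_lt (by norm_num) (by norm_num)
  set I₀ : ℝ := ∫ η in Ioi (1 / 2 : ℝ), η ^ (-13 / 12 : ℝ) with hI
  have hK := jestK_pos
  refine ⟨2 * jestK * |C₃| * I₀, fun n hn B hB x hx => ?_⟩
  have hX : 0 ≤ (1 + x) ^ (-2 / 3 : ℝ) := by positivity
  refine (jest_half _).trans ?_
  rw [Finset.mul_sum, Finset.sum_mul]
  refine norm_sum_le_of_le _ fun β hβ => ?_
  have hβ' := (Finset.mem_filter.1 hβ).1
  have hodd : Odd β := (Finset.mem_filter.1 hβ').2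
  have hb : (0 : ℝ) < β := by exact_mod_cast hodd.pos
  have hn0 : (0 : ℝ) < n := by exact_mod_cast (by omega : 0 < n)
  have hHe := jest_H (by omega : 0 < n) hodd.pos
  set H : ℝ := n / β ^ 2 with hH
  have hH0 : 0 < H := by positivity
  have hB0 : 0 ≤ B β := by simpa using hB β hodd 0 0
  rw [← integral_finsetSum]
  swap
  · intro q _
    have h1 : IntegrableOn (fC x n β q) (Ioi (1 / 2)) :=
      (fC_integrable hx n hodd q).mono_set (Ioi_subset_Ioi (by norm_num))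
    have h2 : MeasurableSet {η : ℝ | η ^ 2 + ((q : ℝ) / β - 1 / 2) ^ 2 < H * η} :=
      measurableSet_lt (by fun_prop) (by fun_prop)
    refine (h1.indicator h2.compl).congr (Eventually.of_forall fun η => ?_)
    by_cases h : η ^ 2 + ((q : ℝ) / β - 1 / 2) ^ 2 < H * η
    · simp only [indicator, mem_compl_iff, mem_ofPred_eq, h, not_true, if_true, if_false]
    · simp only [indicator, mem_compl_iff, mem_ofPred_eq, h, not_false_iff, if_true, if_false]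
  refine (norm_integral_le_of_norm_le (hint.const_mul (√β / β ^ 2 * B β *
      (2 * jestK * |C₃| * (1 / √√H) * (1 + x) ^ (-2 / 3 : ℝ)))) ?_).trans (le_of_eq ?_)
  swap
  · rw [integral_const_mul, ← hI, hHe]
    calc _ = (√β * √β) / β ^ 2 * (B β * (2 * jestK * |C₃| * (n : ℝ) ^ (-1 / 4 : ℝ) *
          (1 + x) ^ (-2 / 3 : ℝ)) * I₀) := by ring
      _ = _ := by rw [Real.mul_self_sqrt hb.le]; field_simp
  rw [ae_restrict_iff' measurableSet_Ioi]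
  refine Eventually.of_forall fun η hη => ?_
  have hη' : 1 / 2 < η := hη
  have hη0 : 0 < η := by linarith
  set ρ : ℝ := √(max (H * η - η ^ 2) 0) with hρ
  have hρ2 : ρ ^ 2 = max (H * η - η ^ 2) 0 := Real.sq_sqrt (le_max_right _ _)
  have hρ0 : 0 ≤ ρ := Real.sqrt_nonneg _
  have hρ3 : H * η ≤ η ^ 2 + ρ ^ 2 := by rw [hρ2]; linarith [le_max_left (H * η - η ^ 2) 0]
  have hm2 : √(η ^ 2 + ρ ^ 2) ^ 2 = η ^ 2 + ρ ^ 2 := Real.sq_sqrt (by positivity)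
  have hm3 : η ≤ √(η ^ 2 + ρ ^ 2) := Real.le_sqrt_of_sq_le (by nlinarith)
  have hm4 : √√(H * η) ≤ √√(η ^ 2 + ρ ^ 2) := Real.sqrt_le_sqrt (Real.sqrt_le_sqrt hρ3)
  have key := jest_two (m := √(η ^ 2 + ρ ^ 2)) (D := η * √√(H * η)) (U := Icc ρ (H / 2))
    (s := QS n β) hb (hB β hodd) hH0.le hη0 (hη0.trans_le hm3) (by positivity) (by gcongr)
    (by
      rw [hm2, ← mul_assoc]
      exact mul_le_mul (by nlinarith) hm4 (Real.sqrt_nonneg _) (by positivity)) hρ0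
    hm2.le hρ3 ordConnected_Icc (fun u hu => hu.1) (fun a ha => (jest_QS hβ' a).2 ha.2)
  have e : ∑ q ∈ QS n β, (if η ^ 2 + ((q : ℝ) / β - 1 / 2) ^ 2 < H * η then 0 else fC x n β q η) =
      (√β / β ^ 2 : ℝ) * phi x (ln η) * I * ∑ a ∈ QS n β,
        if |(a : ℝ) / β - 1 / 2| ∈ Icc ρ (H / 2) then
          eC n β a * kc H (ln η - ((a / β : ℝ) : ℂ)) else 0 := by
    rw [Finset.mul_sum]
    refine Finset.sum_congr rfl fun q hq => ?_
    have h1 := (jest_QS hβ' q).1 hq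
    have h2 : ρ ≤ |(q : ℝ) / β - 1 / 2| ↔ ¬η ^ 2 + ((q : ℝ) / β - 1 / 2) ^ 2 < H * η := by
      rw [hρ, Real.sqrt_le_left (abs_nonneg _), sq_abs, max_le_iff, not_lt]
      exact ⟨fun h => by linarith [h.1], fun h => ⟨by linarith, sq_nonneg _⟩⟩
    by_cases h : η ^ 2 + ((q : ℝ) / β - 1 / 2) ^ 2 < H * η
    · rw [if_pos h, if_neg (fun h' => h2.1 h'.1 h), mul_zero]
    · rw [if_neg h, if_pos ⟨h2.2 h, h1⟩, jest_fC]
  have hphi : ‖phi x (ln η)‖ ≤ |C₃| * η ^ (1 / 6 : ℝ) * (1 + x) ^ (-2 / 3 : ℝ) := by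
    have := hP x hx (ln η) (by rw [ln_im]; exact hη'.le) (by rw [ln_re]; norm_num [abs_le])
    rw [ln_im] at this
    refine this.trans ?_
    gcongr
    exact le_abs_self _
  have e2 : η ^ (-13 / 12 : ℝ) = η ^ (1 / 6 : ℝ) * (1 / (η * √√η)) := by
    rw [Real.sqrt_eq_rpow, Real.sqrt_eq_rpow, ← Real.rpow_mul hη0.le, mul_comm η,
      ← Real.rpow_add_one hη0.ne', one_div (η ^ _), ← Real.rpow_neg hη0.le, ← Real.rpow_add hη0]
    norm_num
  have e3 : 1 / (η * √√(H * η)) = 1 / √√H * (1 / (η * √√η)) := by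
    rw [Real.sqrt_mul hH0.le, Real.sqrt_mul (Real.sqrt_nonneg _)]
    field_simp
  rw [e3] at key
  rw [e, norm_mul, norm_mul, norm_mul, norm_I, mul_one, Complex.norm_real,
    Real.norm_of_nonneg (by positivity), e2]
  calc _ ≤ √β / β ^ 2 * (|C₃| * η ^ (1 / 6 : ℝ) * (1 + x) ^ (-2 / 3 : ℝ)) *
        (B β * (2 * jestK * (1 / √√H * (1 / (η * √√η))))) := by gcongr
    _ = _ := by ring

theorem JL_gen : ∃ C : ℝ, ∀ n : ℕ, 2 ≤ n → ∀ B : ℕ → ℝ,
    (∀ β : ℕ, Odd β → ∀ (a₀ : ℤ) (L : ℕ), ‖∑ i ∈ Finset.range L, eC n β (a₀ + i)‖ ≤ B β) →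
    ∀ x : ℝ, 0 ≤ x → ‖JL x n‖ ≤ C * (n : ℝ) ^ (-1 / 4 : ℝ) *
      (∑ β ∈ (BS n).filter (fun b => b ^ 2 ≤ 2 * n), B β / β) * (1 + x) ^ (-2 / 3 : ℝ) := by
  classical
  have hK := jestK_pos
  refine ⟨2 * jestK * 2 * (3 * Real.exp 1), fun n hn B hB x hx => ?_⟩
  have hX : 0 ≤ (1 + x) ^ (-2 / 3 : ℝ) := by positivity
  refine (jest_half _).trans ?_
  rw [Finset.sum_filter, Finset.mul_sum, Finset.sum_mul]
  refine norm_sum_le_of_le _ fun β hβ' => ?_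
  have hodd : Odd β := (Finset.mem_filter.1 hβ').2
  have hb : (0 : ℝ) < β := by exact_mod_cast hodd.pos
  have hn0 : (0 : ℝ) < n := by exact_mod_cast (by omega : 0 < n)
  have hHe := jest_H (by omega : 0 < n) hodd.pos
  set H : ℝ := n / β ^ 2 with hH
  have hH0 : 0 < H := by positivity
  have hB0 : 0 ≤ B β := by simpa using hB β hodd 0 0
  have hfar : ∀ q : ℤ, 2 * (n : ℤ) < (2 * q - β) ^ 2 ↔ √(H / 2) < |(q : ℝ) / β - 1 / 2| := by
    intro q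
    have e : ((q : ℝ) / β - 1 / 2) ^ 2 = (2 * q - β) ^ 2 / (4 * β ^ 2) := by field_simp; ring
    rw [← Real.sqrt_sq_eq_abs, Real.sqrt_lt_sqrt_iff (by positivity), e,
      lt_div_iff₀ (by positivity), show H / 2 * (4 * β ^ 2) = 2 * n by rw [hH]; field_simp; ring]
    exact_mod_cast Iff.rfl
  have hm2 : √(H / 2) ^ 2 = H / 2 := Real.sq_sqrt (by positivity)
  have hm0 : 0 ≤ √(H / 2) := Real.sqrt_nonneg _
  rcases ((QS n β).filter fun q : ℤ => 2 * (n : ℤ) < (2 * q - β) ^ 2).eq_empty_or_nonempty with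
    he | ⟨q₀, hq₀⟩
  · rw [he, Finset.sum_empty, norm_zero]
    split_ifs <;> positivity
  have hm1 : 1 ≤ √(H / 2) := by
    obtain ⟨h1, h2⟩ := Finset.mem_filter.1 hq₀
    have h3 := ((hfar q₀).1 h2).trans_le ((jest_QS hβ' q₀).1 h1)
    by_contra h4
    nlinarith
  have hβn : β ^ 2 ≤ 2 * n := by
    have h1 : 1 ≤ H := by nlinarith
    rw [hH, le_div_iff₀ (by positivity)] at h1
    have h2 : ((β ^ 2 : ℕ) : ℝ) ≤ (2 * n : ℕ) := by push_cast; linarith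
    exact_mod_cast h2
  rw [if_pos hβn]
  have hsub : Ioc (0 : ℝ) (1 / 2) ⊆ Ioi 0 := Ioc_subset_Ioi_self
  rw [← integral_finsetSum _ fun q _ => (fC_integrable hx n hodd q).mono_set hsub]
  have hx1 : 0 < 1 + x := by linarith
  have hint : IntegrableOn (fun η : ℝ => Real.exp (-(1 + x) * η)) (Ioi 0) :=
    exp_neg_integrableOn_Ioi 0 hx1
  have hI : ∫ η in Ioc (0 : ℝ) (1 / 2), Real.exp (-(1 + x) * η) ≤ (1 + x) ^ (-2 / 3 : ℝ) := by
    refine (setIntegral_mono_set hint (Eventually.of_forall fun η => (Real.exp_pos _).le)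
      hsub.eventuallyLE).trans ?_
    rw [integral_exp_mul_Ioi (by linarith), mul_zero, Real.exp_zero, neg_div_neg_eq, one_div,
      ← Real.rpow_neg_one]
    exact Real.rpow_le_rpow_of_exponent_le (by linarith) (by norm_num)
  refine (norm_integral_le_of_norm_le ((hint.mono_set hsub).const_mul (√β / β ^ 2 * B β *
    (2 * jestK * (2 * (1 / √√H)) * (3 * Real.exp 1)))) ?_).trans ?_
  swap
  · rw [integral_const_mul]
    calc _ ≤ √β / β ^ 2 * B β * (2 * jestK * (2 * (1 / √√H)) * (3 * Real.exp 1)) *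
          (1 + x) ^ (-2 / 3 : ℝ) := by gcongr
      _ = (√β * √β) / β ^ 2 * (B β * (2 * jestK * 2 * (n : ℝ) ^ (-1 / 4 : ℝ) * (3 * Real.exp 1)) *
          (1 + x) ^ (-2 / 3 : ℝ)) := by rw [hHe]; ring
      _ = _ := by rw [Real.mul_self_sqrt hb.le]; field_simp
  rw [ae_restrict_iff' measurableSet_Ioc]
  refine Eventually.of_forall fun η hη => ?_
  have hs : √√H / 2 ≤ √√(H / 2) := by
    have h1 : √H / 4 ≤ √(H / 2) := by
      refine Real.le_sqrt_of_sq_le ?_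
      rw [div_pow, Real.sq_sqrt hH0.le]; linarith
    refine Real.le_sqrt_of_sq_le ?_
    rw [div_pow, Real.sq_sqrt (Real.sqrt_nonneg _)]; linarith
  have hs0 : 0 < √√H := by positivity
  have key := jest_two (m := √(H / 2)) (D := √√H / 2) (U := Ioc √(H / 2) (H / 2)) (s := QS n β) hb
    (hB β hodd) hH0.le hη.1 (by linarith) (by positivity) (by nlinarith) (by rw [hm2]; nlinarith)
    hm0 (by nlinarith) (by rw [hm2]; nlinarith [hη.2]) ordConnected_Ioc (fun u hu => hu.1.le)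
    (fun a ha => (jest_QS hβ' a).2 ha.2)
  have e : ∑ q ∈ (QS n β).filter (fun q : ℤ => 2 * (n : ℤ) < (2 * q - β) ^ 2), fC x n β q η =
      (√β / β ^ 2 : ℝ) * phi x (ln η) * I * ∑ a ∈ QS n β,
        if |(a : ℝ) / β - 1 / 2| ∈ Ioc √(H / 2) (H / 2) then
          eC n β a * kc H (ln η - ((a / β : ℝ) : ℂ)) else 0 := by
    rw [Finset.mul_sum, Finset.sum_filter]
    refine Finset.sum_congr rfl fun q hq => ?_
    have h1 := (jest_QS hβ' q).1 hq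
    by_cases h : 2 * (n : ℤ) < (2 * q - β) ^ 2
    · rw [if_pos h, if_pos ⟨(hfar q).1 h, h1⟩, jest_fC]
    · rw [if_neg h, if_neg (fun h' => h ((hfar q).2 h'.1)), mul_zero]
  have hphi : ‖phi x (ln η)‖ ≤ 3 * Real.exp 1 * Real.exp (-(1 + x) * η) := by
    refine (phi_low hx hη.1 hη.2).trans ?_
    rw [mul_assoc 3, ← Real.exp_add]
    have h1 := Real.pi_gt_three
    have h2 := mul_nonneg hx hη.1.le
    have h3 := hη.2
    gcongr
    nlinarith
  rw [e, norm_mul, norm_mul, norm_mul, norm_I, mul_one, Complex.norm_real,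
    Real.norm_of_nonneg (by positivity)]
  rw [show 1 / (√√H / 2) = 2 * (1 / √√H) by field_simp] at key
  calc _ ≤ √β / β ^ 2 * (3 * Real.exp 1 * Real.exp (-(1 + x) * η)) *
        (B β * (2 * jestK * (2 * (1 / √√H)))) := by gcongr
    _ = _ := by ring

lemma jest_sum : ∃ (C : ℝ) (B : ℕ → ℝ), ∀ n : ℕ, 2 ≤ n →
    (∀ β : ℕ, Odd β → ∀ (a₀ : ℤ) (L : ℕ), ‖∑ i ∈ Finset.range L, eC n β (a₀ + i)‖ ≤ B β) ∧
    0 ≤ (n : ℝ) ^ (-1 / 4 : ℝ) * ∑ β ∈ (BS n).filter (fun b => b ^ 2 ≤ 2 * n), B β / β ∧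
    (n : ℝ) ^ (-1 / 4 : ℝ) * ∑ β ∈ (BS n).filter (fun b => b ^ 2 ≤ 2 * n), B β / β ≤
      C * Real.log n ^ 4 := by
  obtain ⟨C, hC⟩ := sum_wt
  obtain ⟨C₁, hC₁, hB⟩ := jest_B
  refine ⟨C₁ * 6 * C, fun β => C₁ * (wt β * √β) * (1 + Real.log β), fun n hn =>
    ⟨hB n, mul_nonneg (by positivity) (Finset.sum_nonneg fun β _ => ?_), ?_⟩⟩
  · have := one_le_wt β
    have := Real.log_natCast_nonneg β
    positivity
  have hl : 1 / 2 ≤ Real.log n := by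
    have h1 := Real.log_two_gt_d9
    have h2 : Real.log 2 ≤ Real.log n := Real.log_le_log (by norm_num) (by exact_mod_cast hn)
    linarith
  have hn0 : (0 : ℝ) < n := by exact_mod_cast (by omega : 0 < n)
  have h1 : (n : ℝ) ^ (-1 / 4 : ℝ) * ∑ β ∈ (BS n).filter (fun b => b ^ 2 ≤ 2 * n),
      C₁ * (wt β * √β) * (1 + Real.log β) / β ≤
      ∑ β ∈ (BS n).filter (fun b => b ^ 2 ≤ 2 * n), wt β / β * (C₁ * 6 * Real.log n) := by
    rw [Finset.mul_sum]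
    refine Finset.sum_le_sum fun β hβ => ?_
    obtain ⟨h0, h5⟩ := Finset.mem_filter.1 hβ
    obtain ⟨h1, -⟩ := Finset.mem_filter.1 h0
    obtain ⟨h1, h2⟩ := Finset.mem_Icc.1 h1
    have hb : (0 : ℝ) < β := by exact_mod_cast h1
    have h3 : Real.log β ≤ Real.log n := Real.log_le_log hb (by exact_mod_cast h2)
    have h4 := one_le_wt β
    have h6 := Real.log_natCast_nonneg β
    have h7 : (n : ℝ) ^ (-1 / 4 : ℝ) * √β ≤ 2 := by
      rw [← jest_H (by omega) h1, div_le_iff₀ (by positivity)]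
      have h8 : (β : ℝ) ^ 2 ≤ 2 * n := by exact_mod_cast h5
      have h9 : 1 / 4 ≤ √((n : ℝ) / β ^ 2) := by
        refine Real.le_sqrt_of_sq_le ?_
        rw [le_div_iff₀ (by positivity)]; linarith
      have : 1 / 2 ≤ √√((n : ℝ) / β ^ 2) := Real.le_sqrt_of_sq_le (by linarith)
      linarith
    calc _ = wt β / β * (C₁ * ((n : ℝ) ^ (-1 / 4 : ℝ) * √β) * (1 + Real.log β)) := by ring
      _ ≤ wt β / β * (C₁ * 2 * (3 * Real.log n)) := by gcongr; linarith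
      _ = _ := by ring
  have h2 : ∑ β ∈ (BS n).filter (fun b => b ^ 2 ≤ 2 * n), wt β / β ≤
      ∑ β ∈ Finset.Icc 1 n, wt β / β :=
    Finset.sum_le_sum_of_subset_of_nonneg
      ((Finset.filter_subset _ _).trans (Finset.filter_subset _ _))
      fun β _ _ => by have := one_le_wt β; positivity
  rw [← Finset.sum_mul] at h1
  refine h1.trans ((mul_le_mul_of_nonneg_right (h2.trans (hC n hn)) (by positivity)).trans
    (le_of_eq (by ring)))

lemma jest_fin {J : ℝ → ℕ → ℂ} (h : ∃ C : ℝ, ∀ n : ℕ, 2 ≤ n → ∀ B : ℕ → ℝ,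
    (∀ β : ℕ, Odd β → ∀ (a₀ : ℤ) (L : ℕ), ‖∑ i ∈ Finset.range L, eC n β (a₀ + i)‖ ≤ B β) →
    ∀ x : ℝ, 0 ≤ x → ‖J x n‖ ≤ C * (n : ℝ) ^ (-1 / 4 : ℝ) *
      (∑ β ∈ (BS n).filter (fun b => b ^ 2 ≤ 2 * n), B β / β) * (1 + x) ^ (-2 / 3 : ℝ)) :
    ∃ C : ℝ, ∀ n : ℕ, 2 ≤ n → ∀ x : ℝ, 0 ≤ x →
      ‖J x n‖ ≤ C * Real.log n ^ 4 * (1 + x) ^ (-2 / 3 : ℝ) := by
  obtain ⟨C, hC⟩ := h
  obtain ⟨C', B, hB⟩ := jest_sum
  refine ⟨|C| * C', fun n hn x hx => ?_⟩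
  obtain ⟨h1, h2, h3⟩ := hB n hn
  refine (hC n hn B h1 x hx).trans (mul_le_mul_of_nonneg_right ?_ (by positivity))
  rw [mul_assoc, mul_assoc]
  exact mul_le_mul (le_abs_self C) h3 h2 (abs_nonneg C)

theorem JU_bound : ∃ C : ℝ, ∀ n : ℕ, 2 ≤ n → ∀ x : ℝ, 0 ≤ x →
    ‖JU x n‖ ≤ C * Real.log n ^ 4 * (1 + x) ^ (-2 / 3 : ℝ) := jest_fin JU_gen

theorem JL_bound : ∃ C : ℝ, ∀ n : ℕ, 2 ≤ n → ∀ x : ℝ, 0 ≤ x →
    ‖JL x n‖ ≤ C * Real.log n ^ 4 * (1 + x) ^ (-2 / 3 : ℝ) := jest_fin JL_gen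

end

end Pool.Agent.MP_9f080f_an

end

-- part MP_9f080f_an.Final
section

namespace Pool.Agent.MP_9f080f_an
open Complex MeasureTheory Set Filter Topology Metric
open scoped Real

noncomputable section

open scoped FourierTransform

lemma cn_eq {n : ℕ} (hn : 2 ≤ n) {x : ℝ} (hx : 0 ≤ x) :
    cn x n = R1 x n + (MT x n - JU x n - JL x n) := by
  obtain ⟨C, hC⟩ := R1_bound
  have h1 := (hC n hn x hx).1
  obtain ⟨h2, h3⟩ := R2_eq (n := n) (by omega) hx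
  rw [← h3, cn, R1, R2, ← mul_add, ← intervalIntegral.integral_add h1 h2]
  congr 1
  refine intervalIntegral.integral_congr_ae ?_
  have hy : (0 : ℝ) < 1 / n := by positivity
  filter_upwards [ae_tile hy] with t ht _
  have e : (t : ℂ) + ((1 / n : ℝ) : ℂ) * I = hc n t := by rw [hc]; push_cast; ring
  rw [FF_eq hx (hc_pos (by omega) t) (e ▸ ht.1), H0]; ring

lemma cn_bound : ∃ C : ℝ, 0 ≤ C ∧ ∀ n : ℕ, 2 ≤ n → ∀ x : ℝ, 0 ≤ x →
    ‖cn x n‖ ≤ ‖MT x n‖ + C * Real.log n ^ 4 * (1 + x) ^ (-2 / 3 : ℝ) := by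
  obtain ⟨C1, h1⟩ := R1_bound
  obtain ⟨C2, h2⟩ := JU_bound
  obtain ⟨C3, h3⟩ := JL_bound
  refine ⟨|C1| + |C2| + |C3|, by positivity, fun n hn x hx => ?_⟩
  rw [cn_eq hn hx]
  have a1 := (h1 n hn x hx).2
  have a2 := h2 n hn x hx
  have a3 := h3 n hn x hx
  have hp : 0 ≤ Real.log n ^ 4 * (1 + x) ^ (-2 / 3 : ℝ) := by positivity
  rw [mul_assoc] at a1 a2 a3 ⊢
  have b1 := mul_le_mul_of_nonneg_right (le_abs_self C1) hp
  have b2 := mul_le_mul_of_nonneg_right (le_abs_self C2) hp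
  have b3 := mul_le_mul_of_nonneg_right (le_abs_self C3) hp
  have c1 := norm_add_le (R1 x n) (MT x n - JU x n - JL x n)
  have c2 := norm_sub_le (MT x n - JU x n) (JL x n)
  have c3 := norm_sub_le (MT x n) (JU x n)
  linarith

lemma cn_poly : ∃ C : ℝ, ∀ n : ℕ, 2 ≤ n → ∀ x : ℝ, 0 ≤ x → ‖cn x n‖ ≤ C * (1 + n) ^ 10 := by
  obtain ⟨C1, h0, h1⟩ := cn_bound
  obtain ⟨C2, h2⟩ := MT_bound
  refine ⟨|C2| + C1, fun n hn x hx => (h1 n hn x hx).trans ?_⟩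
  obtain ⟨M, hM, -, -, -, hM'⟩ := h2 n hn
  have hn' : (1 : ℝ) ≤ n := by exact_mod_cast (by omega : 1 ≤ n)
  have a1 : ‖MT x n‖ ≤ |C2| * (1 + n) ^ 10 := by
    rw [hM x hx]
    refine (hM' x).trans ((mul_le_mul_of_nonneg_right (le_abs_self C2) (by positivity)).trans ?_)
    gcongr; linarith
  have a2 : (1 + x) ^ (-2 / 3 : ℝ) ≤ 1 :=
    Real.rpow_le_one_of_one_le_of_nonpos (by linarith) (by norm_num)
  have a3 : Real.log n ^ 4 ≤ (1 + n) ^ 10 := by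
    have := Real.log_le_sub_one_of_pos (show (0 : ℝ) < n by linarith)
    calc Real.log n ^ 4 ≤ (1 + n) ^ 4 :=
          pow_le_pow_left₀ (Real.log_nonneg hn') (by linarith) 4
      _ ≤ _ := pow_le_pow_right₀ (by linarith) (by norm_num)
  have a4 : C1 * Real.log n ^ 4 * (1 + x) ^ (-2 / 3 : ℝ) ≤ C1 * (1 + n) ^ 10 * 1 := by gcongr
  linarith

/-- the interpolation formula for even eigenfunctions -/
theorem interp {x : ℝ} (hx : 0 ≤ x) : ∃ a : ℕ → ℂ, (∀ n : ℕ, 1 ≤ n → a n = cn x n) ∧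
    ∀ b : SchwartzMap ℝ ℂ, (∀ r : ℝ, b (-r) = b r) → (∀ ξ : ℝ, 𝓕 (b : ℝ → ℂ) ξ = b ξ) →
      HasSum (fun m : ℕ => a m * b (√m)) (b (√x)) := by
  obtain ⟨a, ha, hs⟩ := FF_hasSum hx
  obtain ⟨C, hC⟩ := cn_poly
  refine ⟨a, ha, fun b he hb => transfer (C := |C| + ‖a 0‖ + ‖a 1‖) (K := 10) (fun m => ?_) hs
    (fun τ hτ => ?_) b he hb⟩
  · have h1 : (1 : ℝ) ≤ (1 + m) ^ 10 := one_le_pow₀ (by linarith [Nat.cast_nonneg (α := ℝ) m])
    have h2 := abs_nonneg C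
    have h3 := norm_nonneg (a 0)
    have h4 := norm_nonneg (a 1)
    rcases (by omega : m = 0 ∨ m = 1 ∨ 2 ≤ m) with h | h | h
    · rw [show a m = a 0 by rw [h]]; nlinarith
    · rw [show a m = a 1 by rw [h]]; nlinarith
    · rw [ha m (by omega)]
      refine (hC m h x hx).trans ?_
      gcongr
      linarith [le_abs_self C]
  · have e : ((√x : ℝ) : ℂ) ^ 2 = x := by rw [← ofReal_pow, Real.sq_sqrt hx]
    rw [e]; exact FF_S hx hτ

theorem val_eq {n : ℕ} (hn : 1 ≤ n) (b : SchwartzMap ℝ ℂ) (he : ∀ r : ℝ, b (-r) = b r)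
    (hb : ∀ ξ : ℝ, 𝓕 (b : ℝ → ℂ) ξ = b ξ) (hv : ∀ m : ℕ, b (√m) = if m = n then 1 else 0)
    {x : ℝ} (hx : 0 ≤ x) : b (√x) = cn x n := by
  obtain ⟨a, ha, hs⟩ := interp hx
  have h := hs b he hb
  simp only [hv, mul_ite, mul_one, mul_zero] at h
  rw [← ha n hn]
  refine h.unique ?_
  have := hasSum_single (f := fun m : ℕ => if m = n then a m else 0) n fun m hm => if_neg hm
  simpa using this

theorem main : ∃ C : ℝ, ∀ n : ℕ, 2 ≤ n → ∀ b : SchwartzMap ℝ ℂ, (∀ r : ℝ, b (-r) = b r) →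
    (∀ ξ : ℝ, 𝓕 (b : ℝ → ℂ) ξ = b ξ) → (∀ m : ℕ, b (√m) = if m = n then 1 else 0) →
    IntegrableOn (fun x : ℝ => ‖b (√x)‖ ^ 2) (Ioi 0) ∧
      ∫ x in Ioi (0 : ℝ), ‖b (√x)‖ ^ 2 ≤ C * Real.log n ^ 9 := by
  obtain ⟨C1, h0, h1⟩ := cn_bound
  obtain ⟨C2, h2⟩ := MT_bound
  have hI : IntegrableOn (fun x : ℝ => (1 + x) ^ (-4 / 3 : ℝ)) (Ioi 0) := by
    have := integrableOn_add_rpow_Ioi_of_lt (a := -4 / 3) (c := 0) (m := 1) (by norm_num) (by norm_num)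
    simpa [add_comm] using this
  set A := ∫ x in Ioi (0 : ℝ), (1 + x) ^ (-4 / 3 : ℝ)
  have hA : 0 ≤ A := setIntegral_nonneg measurableSet_Ioi fun x hx => by
    have : 0 < x := hx
    positivity
  refine ⟨2 * C2 + 2 * C1 ^ 2 * A * 2, fun n hn b he hb hv => ?_⟩
  obtain ⟨M, hM, -, hMi, hM2, -⟩ := h2 n hn
  have hG : IntegrableOn (fun x : ℝ => 2 * ‖M x‖ ^ 2 +
      2 * C1 ^ 2 * Real.log n ^ 8 * (1 + x) ^ (-4 / 3 : ℝ)) (Ioi 0) :=
    (hMi.const_mul 2).integrableOn.add (hI.const_mul _)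
  have hle : ∀ x ∈ Ioi (0 : ℝ), ‖b (√x)‖ ^ 2 ≤ 2 * ‖M x‖ ^ 2 +
      2 * C1 ^ 2 * Real.log n ^ 8 * (1 + x) ^ (-4 / 3 : ℝ) := fun x hx => by
    have hx0 : 0 < x := hx
    have a1 := h1 n hn x hx0.le
    rw [← val_eq (by omega) b he hb hv hx0.le, hM x hx0.le] at a1
    have e : (1 + x) ^ (-4 / 3 : ℝ) = ((1 + x) ^ (-2 / 3 : ℝ)) ^ 2 := by
      rw [← Real.rpow_natCast, ← Real.rpow_mul (by linarith)]; norm_num
    rw [e]
    have a2 := pow_le_pow_left₀ (norm_nonneg _) a1 2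
    nlinarith [sq_nonneg (‖M x‖ - C1 * Real.log n ^ 4 * (1 + x) ^ (-2 / 3 : ℝ))]
  have hc : Continuous fun x : ℝ => ‖b (√x)‖ ^ 2 := by fun_prop
  have hi : IntegrableOn (fun x : ℝ => ‖b (√x)‖ ^ 2) (Ioi 0) :=
    hG.mono' hc.aestronglyMeasurable ((ae_restrict_iff' measurableSet_Ioi).2
      (Eventually.of_forall fun x hx => by simpa using hle x hx))
  refine ⟨hi, (setIntegral_mono_on hi hG measurableSet_Ioi hle).trans ?_⟩
  rw [integral_add (hMi.const_mul 2).integrableOn (hI.const_mul _), integral_const_mul,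
    integral_const_mul]
  have a3 : ∫ x in Ioi (0 : ℝ), ‖M x‖ ^ 2 ≤ ∫ x, ‖M x‖ ^ 2 :=
    setIntegral_le_integral hMi (Eventually.of_forall fun x => by positivity)
  have a4 : 1 / 2 ≤ Real.log n := by
    have := Real.log_le_log two_pos (show (2 : ℝ) ≤ n by exact_mod_cast hn)
    linarith [Real.log_two_gt_d9]
  have a5 : Real.log n ^ 8 ≤ 2 * Real.log n ^ 9 := by
    have : 0 ≤ Real.log n ^ 8 := by positivity
    nlinarith
  have a6 : 2 * C1 ^ 2 * A * Real.log n ^ 8 ≤ 2 * C1 ^ 2 * A * (2 * Real.log n ^ 9) := by gcongr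
  change _ + _ * A ≤ _
  linarith

end

end Pool.Agent.MP_9f080f_an

end

-- part MP_9f080f_an.ShMain
section

namespace Pool.Agent.MP_9f080f_an
open Complex MeasureTheory Set Filter Topology Metric
open scoped Real FourierTransform

noncomputable section

/-! Assembly. -/

lemma shm_good (D : ℕ) : ∃ (C : ℝ) (A : ℕ), 1 ≤ C ∧ ∀ n L : ℕ, 1 ≤ n → 2 ^ L ≤ D * n →
    GoodW (Wf F1 n) L (C * Th n A) ∧ GoodW (WB n) L (C * Th n A) := by
  obtain ⟨C, A, pC, h⟩ := goodW D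
  refine ⟨8 * C + 1, A, by linarith, fun n L hn hL => ?_⟩
  have h0 : 0 ≤ Th n A := by
    have := one_le_ell n
    have := Real.log_natCast_nonneg n
    unfold Th; positivity
  exact ⟨(h F1 n L hn hL).mono (by nlinarith),
    ((h F2 n L hn hL).dilate.add (h F3 n L hn hL)).mono (by nlinarith)⟩

lemma shm_Th (n A : ℕ) : 1 ≤ Th n A :=
  one_le_mul_of_one_le_of_one_le (one_le_pow₀ (one_le_ell n))
    (Real.one_le_rpow (by linarith [Real.log_natCast_nonneg n]) (by linarith [gg_gt]))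

lemma shm_pvw {W : ℤ → ℝ} (h : ∀ m, 0 ≤ W m) (P : ℕ) : 0 ≤ pvw W P :=
  Finset.sum_nonneg fun m _ => div_nonneg (h m) (by positivity)

lemma shm_sum (Y : ℕ) : ∃ C : ℝ, 0 < C ∧ ∀ (W : ℕ → ℤ → ℝ) (n L : ℕ) (Θ : ℝ), 1 ≤ n → GoodW W L Θ →
    4 * (Y * n) ≤ 4 ^ L → ∀ (S : Finset ℕ) (j : ℕ), (j = 1 ∨ j = 2) →
    (∀ c ∈ S, 1 ≤ c ∧ c ^ 2 ≤ Y * n) →
      (n : ℝ) ^ (-1 / 4 : ℝ) * ∑ c ∈ S, √((j * c : ℕ) : ℝ) * pvw (W (j * c)) (j * c) / c ≤ C * √Θ := by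
  obtain ⟨C, pC, h⟩ := pvw_sum
  refine ⟨2 * C * (2 * Y + 1), by positivity, fun W n L Θ hn g hL S j hj hS => ?_⟩
  have h4 : 4 ^ L = (2 ^ L) ^ 2 := by rw [← pow_mul, mul_comm, pow_mul]; norm_num
  set x := 2 * Nat.sqrt (Y * n) with hx
  have hx2 : x ^ 2 ≤ 4 * (Y * n) := by
    have := Nat.sqrt_le' (Y * n)
    rw [hx, mul_pow]; omega
  have hx1 : x ≤ 2 ^ (L + 3) := ((Nat.pow_le_pow_iff_left two_ne_zero).1 (by omega : x ^ 2 ≤ (2 ^ L) ^ 2)).trans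
    (Nat.pow_le_pow_right two_pos (by omega))
  have hj0 : 0 < j := by omega
  have a1 : ∑ c ∈ S, √((j * c : ℕ) : ℝ) * pvw (W (j * c)) (j * c) / c ≤
      2 * ∑ P ∈ S.image (fun c => j * c), pvw (W P) P / √P := by
    rw [Finset.sum_image (fun a _ b _ h => Nat.eq_of_mul_eq_mul_left hj0 h), Finset.mul_sum]
    refine Finset.sum_le_sum fun c hc => ?_
    have c0 : (0 : ℝ) < c := by exact_mod_cast (hS c hc).1
    have c1 : (0 : ℝ) < ((j * c : ℕ) : ℝ) := by exact_mod_cast Nat.mul_pos hj0 (hS c hc).1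
    have c2 : ((j * c : ℕ) : ℝ) ≤ 2 * c := by
      rcases hj with rfl | rfl <;> push_cast <;> linarith
    have c3 := Real.sqrt_pos.2 c1
    have c4 := Real.mul_self_sqrt c1.le
    have c5 := shm_pvw (g.nonneg (j * c)) (j * c)
    rw [mul_div_assoc', div_le_div_iff₀ c0 c3]
    nlinarith [mul_le_mul_of_nonneg_right c2 c5]
  have a2 : ∑ P ∈ S.image (fun c => j * c), pvw (W P) P / √P ≤ C * √x * √Θ := by
    refine le_trans (Finset.sum_le_sum_of_subset_of_nonneg (fun P hP => ?_) fun P _ _ =>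
      div_nonneg (shm_pvw (g.nonneg P) P) (Real.sqrt_nonneg _)) (h W L Θ g x hx1)
    obtain ⟨c, hc, rfl⟩ := Finset.mem_image.1 hP
    have := Nat.le_sqrt'.2 (hS c hc).2
    have := (hS c hc).1
    rcases hj with rfl | rfl <;> exact Finset.mem_Icc.2 ⟨by omega, by omega⟩
  have hn0 : (0 : ℝ) < n := by exact_mod_cast hn
  have a3 : (n : ℝ) ^ (-1 / 4 : ℝ) * √x ≤ 2 * Y + 1 := by
    refine le_of_sq_le_sq (le_of_sq_le_sq ?_ (by positivity)) (by positivity)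
    rw [mul_pow, mul_pow, Real.sq_sqrt x.cast_nonneg, ← pow_mul, ← Real.rpow_natCast,
      ← Real.rpow_mul hn0.le, show (-1 / 4 : ℝ) * ((2 * 2 : ℕ) : ℝ) = -1 by norm_num, Real.rpow_neg_one,
      inv_mul_le_iff₀ hn0]
    have b1 : (x : ℝ) ^ 2 ≤ 4 * (Y * n) := by exact_mod_cast hx2
    have b2 : (0 : ℝ) ≤ Y := Y.cast_nonneg
    have b3 : 4 * (Y : ℝ) ≤ ((2 * Y + 1) ^ 2) ^ 2 := by
      have b4 : 4 * (Y : ℝ) + 1 ≤ (2 * Y + 1) ^ 2 := by nlinarith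
      nlinarith
    nlinarith
  have a4 : 0 ≤ (n : ℝ) ^ (-1 / 4 : ℝ) := by positivity
  calc _ ≤ (n : ℝ) ^ (-1 / 4 : ℝ) * (2 * (C * √x * √Θ)) := by gcongr; linarith
    _ = 2 * C * ((n : ℝ) ^ (-1 / 4 : ℝ) * √x) * √Θ := by ring
    _ ≤ _ := by gcongr

lemma shm_err : ∃ (C : ℝ) (Y : ℕ), 0 < C ∧ 1 ≤ Y ∧ ∀ (n L : ℕ) (Θ : ℝ), 2 ≤ n → 4 * (Y * n) ≤ 4 ^ L →
    1 ≤ Θ → GoodW (Wf F1 n) L Θ → GoodW (WB n) L Θ → ∀ x : ℝ, 0 ≤ x →
      ‖cn x n‖ ≤ ‖MT x n‖ + C * √Θ * (1 + x) ^ (-2 / 3 : ℝ) := by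
  obtain ⟨Y₀, C1, h1⟩ := R1_gen
  obtain ⟨C2, h2⟩ := JU_gen
  obtain ⟨C3, h3⟩ := JL_gen
  obtain ⟨C4, p4, h4⟩ := pvw_short
  obtain ⟨C5, p5, h5⟩ := pvw_long
  obtain ⟨C6, p6, h6⟩ := shm_sum (Y₀ + 2)
  refine ⟨|C1| * (1 + (C4 + C5) * C6) + (|C2| + |C3|) * (C5 * C6) + 1, Y₀ + 2, by positivity, by omega,
    fun n L Θ hn hL hΘ g1 g2 x hx => ?_⟩
  have hT : ∀ c : ℕ, 0 < c → ∀ (a₀ : ℤ) (L : ℕ), L ≤ 2 * c → ‖∑ i ∈ Finset.range L, eT n c (a₀ + i)‖ ≤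
      C4 * √((2 * c : ℕ) : ℝ) * pvw (WB n (2 * c)) (2 * c) := fun c hc a₀ L hL =>
    h4 _ _ _ _ (by omega) (by norm_num) (eT_twW n hc) a₀ L hL
  have hC : ∀ β : ℕ, Odd β → ∀ (a₀ : ℤ) (L : ℕ), ‖∑ i ∈ Finset.range L, eC n β (a₀ + i)‖ ≤
      C5 * √((1 * β : ℕ) : ℝ) * pvw (Wf F1 n (1 * β)) (1 * β) := fun β hβ a₀ L => by
    rw [one_mul]; exact h5 _ _ _ hβ.pos (eC_twW n hβ) a₀ L
  have a1 := h1 n hn _ _ hT hC x hx
  have a2 := h2 n hn _ hC x hx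
  have a3 := h3 n hn _ hC x hx
  have b1 := h6 _ n L Θ (by omega) g2 hL ((Finset.Icc 1 (Y₀ * n)).filter (fun c => c ^ 2 ≤ Y₀ * n)) 2
    (Or.inr rfl) fun c hc => ⟨(Finset.mem_Icc.1 (Finset.mem_filter.1 hc).1).1,
      (Finset.mem_filter.1 hc).2.trans (by nlinarith)⟩
  have b2 := h6 _ n L Θ (by omega) g1 hL
    ((Finset.Icc 1 (Y₀ * n)).filter (fun β => Odd β ∧ β ^ 2 ≤ Y₀ * n)) 1
    (Or.inl rfl) fun c hc => ⟨(Finset.mem_Icc.1 (Finset.mem_filter.1 hc).1).1,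
      (Finset.mem_filter.1 hc).2.2.trans (by nlinarith)⟩
  have b3 := h6 _ n L Θ (by omega) g1 hL ((BS n).filter (fun b => b ^ 2 ≤ 2 * n)) 1
    (Or.inl rfl) fun c hc => ⟨(shf_BS.1 (Finset.mem_filter.1 hc).1).1,
      (Finset.mem_filter.1 hc).2.trans (by nlinarith)⟩
  have n1 : ∀ (W : ℕ → ℤ → ℝ) (S : Finset ℕ) (j : ℕ), (∀ P m, 0 ≤ W P m) →
      0 ≤ (n : ℝ) ^ (-1 / 4 : ℝ) * ∑ c ∈ S, √((j * c : ℕ) : ℝ) * pvw (W (j * c)) (j * c) / c :=
    fun W S j hW => mul_nonneg (by positivity) (Finset.sum_nonneg fun c _ => by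
      have := shm_pvw (hW (j * c)) (j * c)
      positivity)
  have d1 := n1 _ ((Finset.Icc 1 (Y₀ * n)).filter (fun c => c ^ 2 ≤ Y₀ * n)) 2 g2.nonneg
  have d2 := n1 _ ((Finset.Icc 1 (Y₀ * n)).filter (fun β => Odd β ∧ β ^ 2 ≤ Y₀ * n)) 1 g1.nonneg
  have d3 := n1 _ ((BS n).filter (fun b => b ^ 2 ≤ 2 * n)) 1 g1.nonneg
  simp only [mul_assoc C4, mul_assoc C5, mul_div_assoc C4, mul_div_assoc C5, ← Finset.mul_sum]
    at a1 a2 a3
  rw [mul_add ((n : ℝ) ^ (-1 / 4 : ℝ)), mul_left_comm _ C4, mul_left_comm _ C5] at a1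
  rw [mul_assoc C2, mul_left_comm _ C5] at a2
  rw [mul_assoc C3, mul_left_comm _ C5] at a3
  have hs : 1 ≤ √Θ := Real.one_le_sqrt.2 hΘ
  have hX : 0 ≤ (1 + x) ^ (-2 / 3 : ℝ) := by positivity
  generalize (1 + x) ^ (-2 / 3 : ℝ) = X at *
  generalize (n : ℝ) ^ (-1 / 4 : ℝ) * ∑ c ∈ (Finset.Icc 1 (Y₀ * n)).filter (fun c => c ^ 2 ≤ Y₀ * n),
    _ = u1 at *
  generalize (n : ℝ) ^ (-1 / 4 : ℝ) * ∑ c ∈ (Finset.Icc 1 (Y₀ * n)).filter
    (fun β => Odd β ∧ β ^ 2 ≤ Y₀ * n), _ = u2 at *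
  generalize (n : ℝ) ^ (-1 / 4 : ℝ) * ∑ c ∈ (BS n).filter (fun b => b ^ 2 ≤ 2 * n), _ = u3 at *
  have e1 : ‖R1 x n‖ ≤ |C1| * (√Θ + (C4 * (C6 * √Θ) + C5 * (C6 * √Θ))) * X :=
    a1.trans (by gcongr; exact le_abs_self _)
  have e2 : ‖JU x n‖ ≤ |C2| * (C5 * (C6 * √Θ)) * X := a2.trans (by gcongr; exact le_abs_self _)
  have e3 : ‖JL x n‖ ≤ |C3| * (C5 * (C6 * √Θ)) * X := a3.trans (by gcongr; exact le_abs_self _)
  rw [cn_eq hn hx]
  have c1 := norm_add_le (R1 x n) (MT x n - JU x n - JL x n)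
  have c2 := norm_sub_le (MT x n - JU x n) (JL x n)
  have c3 := norm_sub_le (MT x n) (JU x n)
  have c4 : 0 ≤ √Θ * X := by positivity
  nlinarith

theorem sharp : ∃ (C : ℝ) (A : ℕ), ∀ n : ℕ, 2 ≤ n → ∀ b : SchwartzMap ℝ ℂ, (∀ r : ℝ, b (-r) = b r) →
    (∀ ξ : ℝ, 𝓕 (b : ℝ → ℂ) ξ = b ξ) → (∀ m : ℕ, b (√m) = if m = n then 1 else 0) →
    IntegrableOn (fun x : ℝ => ‖b (√x)‖ ^ 2) (Ioi 0) ∧
      ∫ x in Ioi (0 : ℝ), ‖b (√x)‖ ^ 2 ≤ C * Th n A := by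
  obtain ⟨C1, Y, p1, hY, h1⟩ := shm_err
  obtain ⟨C2, p2, h2⟩ := MT_sharp
  obtain ⟨C3, A, p3, h3⟩ := shm_good (16 * Y)
  obtain ⟨C0, h0⟩ := main
  have hI : IntegrableOn (fun x : ℝ => (1 + x) ^ (-4 / 3 : ℝ)) (Ioi 0) := by
    have := integrableOn_add_rpow_Ioi_of_lt (a := -4 / 3) (c := 0) (m := 1) (by norm_num) (by norm_num)
    simpa [add_comm] using this
  set I₀ := ∫ x in Ioi (0 : ℝ), (1 + x) ^ (-4 / 3 : ℝ)
  refine ⟨(2 * C2 + 2 * C1 ^ 2 * I₀) * C3, A, fun n hn b he hb hv => ?_⟩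
  have hi := (h0 n hn b he hb hv).1
  refine ⟨hi, ?_⟩
  have lv : ∀ N : ℕ, 1 ≤ N → 4 * N ≤ 4 ^ Nat.clog 4 (4 * N) ∧ 4 ^ Nat.clog 4 (4 * N) ≤ 16 * N ∧
      2 ^ Nat.clog 4 (4 * N) ≤ 16 * N := fun N hN => by
    have a1 := Nat.pow_pred_clog_lt_self (b := 4) (by norm_num) (x := 4 * N) (by omega)
    have a2 := Nat.clog_pos (b := 4) (n := 4 * N) (by norm_num) (by omega)
    have a3 : 4 ^ Nat.clog 4 (4 * N) ≤ 16 * N := by
      obtain ⟨k, hk⟩ : ∃ k, Nat.clog 4 (4 * N) = k + 1 := ⟨_, (Nat.succ_pred_eq_of_pos a2).symm⟩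
      rw [hk] at a1 ⊢
      rw [Nat.pred_succ] at a1
      rw [pow_succ]; omega
    exact ⟨Nat.le_pow_clog (by norm_num) _, a3, (Nat.pow_le_pow_left (by norm_num) _).trans a3⟩
  have hΘ : 1 ≤ C3 * Th n A := one_le_mul_of_one_le_of_one_le p3 (shm_Th n A)
  obtain ⟨l1, l2, l3⟩ := lv n (by omega)
  obtain ⟨l4, -, l6⟩ := lv (Y * n) (Nat.mul_pos hY (by omega))
  obtain ⟨g1, g2⟩ := h3 n _ (by omega) (l3.trans (by nlinarith))
  obtain ⟨g3, g4⟩ := h3 n _ (by omega) (l6.trans (by rw [mul_assoc]))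
  obtain ⟨g, gi, gl, g0, hg⟩ := h2 n _ _ (by omega) l1 (by omega) hΘ g1 g2
  have k := h1 n _ _ hn l4 hΘ g3 g4
  set Θ := C3 * Th n A with hΘ'
  have hG : IntegrableOn (fun x : ℝ => 2 * g x + 2 * C1 ^ 2 * Θ * (1 + x) ^ (-4 / 3 : ℝ)) (Ioi 0) :=
    (gi.const_mul 2).integrableOn.add (hI.const_mul _)
  have hle : ∀ x ∈ Ioi (0 : ℝ), ‖b (√x)‖ ^ 2 ≤ 2 * g x + 2 * C1 ^ 2 * Θ * (1 + x) ^ (-4 / 3 : ℝ) :=
    fun x hx => by
      have hx0 : 0 < x := hx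
      have a1 := k x hx0.le
      rw [← val_eq (by omega) b he hb hv hx0.le] at a1
      have e : (1 + x) ^ (-4 / 3 : ℝ) = ((1 + x) ^ (-2 / 3 : ℝ)) ^ 2 := by
        rw [← Real.rpow_natCast, ← Real.rpow_mul (by linarith)]; norm_num
      have a2 := pow_le_pow_left₀ (norm_nonneg _) a1 2
      have a3 := hg x hx0.le
      have a4 := Real.sq_sqrt (show 0 ≤ Θ by linarith)
      rw [e, ← a4]
      nlinarith [sq_nonneg (‖MT x n‖ - C1 * √Θ * (1 + x) ^ (-2 / 3 : ℝ))]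
  refine (setIntegral_mono_on hi hG measurableSet_Ioi hle).trans ?_
  rw [integral_add (gi.const_mul 2).integrableOn (hI.const_mul _), integral_const_mul,
    integral_const_mul]
  have a3 : ∫ x in Ioi (0 : ℝ), g x ≤ ∫ x, g x := setIntegral_le_integral gi (Eventually.of_forall g0)
  rw [mul_assoc _ C3, ← hΘ']
  change _ + _ * I₀ ≤ _
  linarith

end

end Pool.Agent.MP_9f080f_an

end

-- part MP_9f080f_an.G.AA
section

namespace Pool.Agent.MP_9f080f_an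
open Complex MeasureTheory Set Filter Topology Metric
open scoped Real

noncomputable section

/-! Definitions for the smoothed circle method. -/

/-- the smooth transition -/
abbrev st : ℝ → ℝ := Real.smoothTransition

/-- distribution function of the height -/
def RR (s : ℝ) : ℝ := st ((s - 2) / 2)
/-- density of the height -/
def rho (s : ℝ) : ℝ := deriv RR s
/-- the weight in the Poincare kernel -/
def WW (s : ℝ) : ℝ := s ^ 2 * rho s
/-- even cutoff, `1` on `[-1/2, 1/2]`, `0` outside `(-1, 1)` -/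
def cw (s : ℝ) : ℝ := 1 - st ((4 * s ^ 2 - 1) / 3)
/-- cutoff, `1` below `1` and `0` above `2` -/
def ps (s : ℝ) : ℝ := 1 - st (s - 1)
/-- smooth cutoff in the frame of the cusp `1` -/
def rA2 (v : ℝ) : ℝ := st (v - 1)
/-- smooth cutoff in the frame of the cusp `∞` -/
def rB2 (v : ℝ) : ℝ := if v ≤ 3 / 4 then 0 else 1 - st (1 / (2 * v - 1) - 1)
/-- outer cutoff in the frame of the cusp `1` -/
def wA (H v : ℝ) : ℝ := cw ((2 * v + 1) / H)
/-- outer cutoff in the frame of the cusp `∞` -/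
def wB (H v : ℝ) : ℝ := cw ((4 * v ^ 2 - 1) / (2 * H))

/-- functions with two bounded derivatives -/
structure Cut (f : ℝ → ℝ) (K : ℝ) : Prop where
  cd : ContDiff ℝ 2 f
  b0 : ∀ s, |f s| ≤ K
  b1 : ∀ s, |deriv f s| ≤ K
  b2 : ∀ s, |deriv (deriv f) s| ≤ K

/-- bounds for the jet of order two at scale `δ` -/
structure J2 (Φ : ℝ → ℂ) (u δ B : ℝ) : Prop where
  cd : ContDiffAt ℝ 2 Φ u
  b0 : ‖Φ u‖ ≤ B
  b1 : δ * ‖deriv Φ u‖ ≤ B
  b2 : δ ^ 2 * ‖deriv (deriv Φ) u‖ ≤ B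

/-- bounds for two derivatives at scale `δ` -/
structure D2 (g : ℝ → ℝ) (u δ A : ℝ) : Prop where
  cd : ContDiffAt ℝ 2 g u
  b1 : δ * |deriv g u| ≤ A
  b2 : δ ^ 2 * |deriv (deriv g) u| ≤ A

/-- the weight for smooth sums -/
def pw2 (W : ℤ → ℝ) (P : ℕ) : ℝ := ∑ m ∈ Finset.Icc (-P : ℤ) P, W m / (1 + (m : ℝ) ^ 2)

/-- sequences with bounded means -/
structure PH1 (w : ℕ → ℝ) (X₁ : ℕ) (Λ : ℝ) : Prop where
  nonneg : ∀ P, 0 ≤ w P
  lam : 0 ≤ Λ
  le : ∀ X ≤ X₁, ∑ P ∈ Finset.Icc 1 X, w P ≤ X * Λ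

/-- bounded means at every frequency -/
def PH (W : ℕ → ℤ → ℝ) (X₁ : ℕ) (Λ : ℝ) : Prop := ∀ m : ℤ, PH1 (fun P => W P m) X₁ Λ

/-- weights with good mean squares -/
structure GoodM (W : ℕ → ℤ → ℝ) (L : ℕ) (Θ : ℝ) : Prop where
  nonneg : ∀ P m, 0 ≤ W P m
  ex : ∃ α γ : ℕ → ℝ, (∀ k, 0 ≤ α k) ∧ (∀ i, 0 ≤ γ i) ∧
    (∀ k i, i ≤ L + 3 → ∀ a₀ : ℤ, ∑ j ∈ Finset.range (2 ^ k),
      (∑ P ∈ Finset.Icc 1 (2 ^ i), W P (a₀ + j)) ^ 2 ≤ 2 ^ k * 4 ^ i * (α k + γ i)) ∧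
    (∀ K, ∑ k ∈ Finset.range K, α k ≤ Θ) ∧ ∑ i ∈ Finset.range (L + 4), γ i ≤ Θ

/-- the horocycle at height `y` -/
def hy (y t : ℝ) : ℂ := t + y * I

/-- the automorphic part at height `y` -/
def R1y (x : ℝ) (n : ℕ) (y : ℝ) : ℂ :=
  1 / 2 * ∫ t in (0 : ℝ)..2, th3 (hy y t) * hk x (sf (hy y t)) * ep (-n * hy y t)

/-- the summand of the cocycle part at height `y` -/
def TTy (x : ℝ) (n : ℕ) (y : ℝ) (g : GT) (t : ℝ) : ℂ :=
  th3 (hy y t) * coc x g (hy y t) * ep (-n * hy y t)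

/-- the height parameter of a point on the vertical line -/
def lamq (n β : ℕ) (q : ℤ) (η : ℝ) : ℝ := n / β ^ 2 * η / (η ^ 2 + ((q : ℝ) / β - 1 / 2) ^ 2)

/-- the part of the vertical line inside the smaller horoball -/
def fBy (x : ℝ) (n β : ℕ) (q : ℤ) (l η : ℝ) : ℂ := if l < lamq n β q η then fC x n β q η else 0

/-- the smooth weight of a cusp -/
def wq (n β : ℕ) (q : ℤ) : ℝ := cw (β * (2 * q - β) / n)

/-- the smooth main term -/
def MT2 (x : ℝ) (n : ℕ) : ℂ :=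
  1 / 2 * ∑ β ∈ BS n, ∑ q ∈ (QS n β).filter (fun q : ℤ => q ≤ 0 ∨ (β : ℤ) < q),
    wq n β q * ∫ η in Ioi (0 : ℝ), fC x n β q η

/-- the upper error term -/
def JU2 (x : ℝ) (n : ℕ) : ℂ :=
  1 / 2 * ∑ β ∈ BS n, ∑ q ∈ QS n β, (wq n β q * ps (β ^ 2 / n) : ℝ) *
    ∫ η in Ioi (1 / 2 : ℝ), (1 - RR (lamq n β q η) : ℝ) * fC x n β q η

/-- the lower error term -/
def JL2 (x : ℝ) (n : ℕ) : ℂ :=
  1 / 2 * ∑ β ∈ BS n, ∑ q ∈ QS n β, (wq n β q * (1 - ps ((2 * q - β) ^ 2 / n)) : ℝ) *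
    ∫ η in Ioc (0 : ℝ) (1 / 2), fC x n β q η

open Classical in
/-- the summand of the automorphic part at height `y` -/
def Ty (x : ℝ) (n : ℕ) (P : Set ℂ) (y : ℝ) (g : GT) (t : ℝ) : ℂ :=
  if g.mob (hy y t) ∈ P then
    g.chi * th3 (hy y t) * ep (-n * hy y t) * (FF x (g.mob (hy y t)) / th3 (g.mob (hy y t))) else 0

open Classical in
/-- the summand in a frame -/
def Uc (n p : ℕ) (e : ℤ → ℂ) (Q : Set ℂ) (G : ℂ → ℂ) (a : ℤ) (τ : ℂ) : ℂ :=
  if (a : ℂ) / p + -1 / (p ^ 2 * τ) ∈ Q then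
    e a * (((√p : ℝ) : ℂ) * rt (-1 / (p ^ 2 * τ)) * ep (-n * τ) * G (a / p + -1 / (p ^ 2 * τ))) else 0

/-- admissible regions -/
structure Reg (Q : Set ℂ) (G : ℂ → ℂ) (v M : ℝ) : Prop where
  meas : MeasurableSet Q
  vpos : 0 < v
  Mpos : 0 ≤ M
  high : ∀ z ∈ Q, v ≤ z.im
  strip : ∀ z ∈ Q, |z.re| ≤ 2
  cont : ∀ z : ℂ, 0 < z.im → ContinuousAt G z
  bd : ∀ z ∈ Q, ‖G z‖ ≤ M * z.im ^ (1 / 6 : ℝ)

/-- the Poincare kernel -/
def kW (H : ℝ) (ω : ℂ) : ℂ := WW (H * ω.im / normSq ω) * (rt ω * ep (H / ω))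

/-- one side of the smooth main term -/
def shS2 (n : ℕ) (σ s : ℝ) : ℂ :=
  ∑ β ∈ BS n, (√β / β ^ 2) *
    mainasmS (fun q => wq n β q * eC n β q) β (n / β ^ 2) σ (mainasmQ n β σ) s

/-- a fan of cusps with the weight `a H v` -/
def fan2 (S : Finset ℕ) (e : ℕ → ℤ → ℂ) (T : ℝ) (a : ℝ → ℝ → ℝ) (s : ℝ) : ℂ :=
  ∑ P ∈ S, ((P : ℝ) ^ (-3 / 2 : ℝ) : ℝ) * ∑' l : ℤ,
    e P (-l) * (a (T / P ^ 2) (l / P) * kk (T / P ^ 2) (s + l / P))

/-- the sum of the combs -/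
def Fc (S : Finset ℕ) (e : ℕ → ℤ → ℂ) (T y Y s : ℝ) : ℂ :=
  ∑ P ∈ S, (((P : ℝ) ^ (-3 / 2 : ℝ) : ℝ) : ℂ) * comb (e P) P (T / P ^ 2) y Y s

/-- normalised Fourier coefficients -/
def fc (e : ℤ → ℂ) (P : ℕ) (m : ℤ) : ℂ :=
  (∑ a ∈ Finset.range P, e a * ep (-2 * (m + (3 / 8 : ℝ)) * a / P)) / (√P : ℝ)

/-- the amplitude at frequency `μ` -/
def aa (S : Finset ℕ) (c : ℕ → ℂ) (T μ y Y : ℝ) : ℂ :=
  ∑ P ∈ S, c P / P * ∫ t in y..Y, kk (T / P ^ 2) t * ep (-2 * μ * t)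

open Classical in
/-- the arithmetic main term at frequency `μ` -/
def Arm (S : Finset ℕ) (c : ℕ → ℂ) (T μ : ℝ) (N : ℕ) : ℝ :=
  if μ < 0 then |μ|⁻¹ * ∑ X ∈ (Finset.Icc 1 N).filter (fun X : ℕ => 9 * (X : ℝ) ^ 2 * |μ| ≤ 2 * T),
    ‖∑ P ∈ S.filter (· ≤ X), c P * ep ((2 * √(2 * |μ| * T) / P : ℝ) : ℂ)‖ ^ 2 / (X : ℝ) ^ 3 else 0

/-- the Fresnel integral -/
def fres (u : ℝ) : ℂ := ∫ s in (0 : ℝ)..u, ep ((s ^ 2 : ℝ) : ℂ)

/-- the stationary phase variable -/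
def UU (H b t : ℝ) : ℝ := √(b * t) - √(H / t)

end

end Pool.Agent.MP_9f080f_an

namespace Pool.Agent.MP_9f080f_an
open Complex MeasureTheory Set Filter Topology Metric
open scoped Real

noncomputable section

/-! The cutoff functions.
`cut_of_const`: `f`, `deriv f`, `deriv (deriv f)` are continuous, bounded on `Icc (a-1) (b+1)` (`IsCompact.exists_bound_of_continuousOn`), and outside of `Icc a b`
the function is locally constant (`Filter.EventuallyEq.deriv`).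
`Real.smoothTransition.contDiff`, `zero_of_nonpos`, `one_of_one_le`, `nonneg`, `le_one`.  For `WW` use `ContDiff.deriv'`/`contDiff_succ_iff_deriv` (`RR` is `C³`);
`rho` vanishes on `Iic 2` and `Ici 4` (locally constant in the interior, continuity at the end points, or one-sided uniqueness of derivatives).
`rB2` is `C²`: near `v > 1/2` it agrees with `1 - st (1/(2v-1) - 1)` (which vanishes on `(1/2, 3/4]`), near `v < 3/4` it vanishes (`contDiff_iff_contDiffAt`).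
`rho_int`, `rA2_int`, `rB2_int`: `shfan_ind` (or a direct split of the interval) and `intervalIntegral.integral_deriv_eq_sub`. -/

lemma aaa_dl {f : ℝ → ℝ} {a c s : ℝ} (h : ∀ s ≤ a, f s = c) (hs : s < a) : deriv f s = 0 := by
  have : f =ᶠ[𝓝 s] fun _ => c := by
    filter_upwards [Iio_mem_nhds hs] with t ht using h t (le_of_lt ht)
  rw [this.deriv_eq, deriv_const]

lemma aaa_dr {f : ℝ → ℝ} {b c s : ℝ} (h : ∀ s, b ≤ s → f s = c) (hs : b < s) : deriv f s = 0 := by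
  have : f =ᶠ[𝓝 s] fun _ => c := by
    filter_upwards [Ioi_mem_nhds hs] with t ht using h t (le_of_lt ht)
  rw [this.deriv_eq, deriv_const]

lemma aaa_bd {f : ℝ → ℝ} (hf : Continuous f) {a b c d : ℝ} (h1 : ∀ s ≤ a, f s = c)
    (h2 : ∀ s, b ≤ s → f s = d) : ∃ K : ℝ, ∀ s, |f s| ≤ K := by
  obtain ⟨K, hK⟩ := (isCompact_Icc (a := a) (b := b)).exists_bound_of_continuousOn hf.continuousOn
  refine ⟨max K (max |c| |d|), fun s => ?_⟩
  rcases le_total s a with h | h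
  · rw [h1 s h]; simp
  rcases le_total b s with h' | h'
  · rw [h2 s h']; simp
  · exact (hK s ⟨h, h'⟩).trans (le_max_left _ _)

lemma aaa_mem (s : ℝ) : 0 ≤ 1 - st s ∧ 1 - st s ≤ 1 :=
  ⟨sub_nonneg.2 (Real.smoothTransition.le_one _), sub_le_self _ (Real.smoothTransition.nonneg _)⟩

theorem cut_of_const {f : ℝ → ℝ} (hf : ContDiff ℝ 2 f) {a b c d : ℝ} (h1 : ∀ s ≤ a, f s = c)
    (h2 : ∀ s, b ≤ s → f s = d) : ∃ K : ℝ, 1 ≤ K ∧ Cut f K := by
  have c1 : ContDiff ℝ 1 (deriv f) := ContDiff.deriv' (n := 1) (by exact_mod_cast hf)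
  have k0 : Continuous f := hf.continuous
  have k1 : Continuous (deriv f) := c1.continuous
  have k2 : Continuous (deriv (deriv f)) := c1.continuous_deriv le_rfl
  obtain ⟨K0, h0⟩ := aaa_bd k0 h1 h2
  obtain ⟨K1, h1'⟩ := aaa_bd k1 (fun s hs => aaa_dl h1 (lt_of_le_of_lt hs (sub_one_lt a)))
    (fun s hs => aaa_dr h2 (lt_of_lt_of_le (lt_add_one b) hs))
  obtain ⟨K2, h2'⟩ := aaa_bd k2 (a := a - 2) (b := b + 2) (c := 0) (d := 0)
    (fun s hs => aaa_dl (a := a - 1) (fun t ht => aaa_dl h1 (by linarith)) (by linarith))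
    (fun s hs => aaa_dr (b := b + 1) (fun t ht => aaa_dr h2 (by linarith)) (by linarith))
  refine ⟨max 1 (max K0 (max K1 K2)), le_max_left _ _, hf, fun s => (h0 s).trans ?_,
    fun s => (h1' s).trans ?_, fun s => (h2' s).trans ?_⟩ <;> simp

lemma Cut.mono {f : ℝ → ℝ} {K K' : ℝ} (h : Cut f K) (hK : K ≤ K') : Cut f K' := by
  exact ⟨h.cd, fun s => (h.b0 s).trans hK, fun s => (h.b1 s).trans hK, fun s => (h.b2 s).trans hK⟩

lemma Cut.one_sub {f : ℝ → ℝ} {K : ℝ} (h : Cut f K) : Cut (fun s => 1 - f s) (K + 1) := by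
  have e : deriv (fun s => 1 - f s) = fun s => - deriv f s := funext fun s => deriv_const_sub 1
  refine ⟨contDiff_const.sub h.cd, fun s => ?_, fun s => ?_, fun s => ?_⟩
  · have := abs_sub (1 : ℝ) (f s)
    rw [abs_one] at this
    linarith [h.b0 s]
  · rw [e, abs_neg]; linarith [h.b1 s]
  · rw [e, deriv.fun_neg, abs_neg]; linarith [h.b2 s]

lemma RR_zero {s : ℝ} (h : s ≤ 2) : RR s = 0 := by
  exact Real.smoothTransition.zero_of_nonpos (by linarith)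

lemma RR_one {s : ℝ} (h : 4 ≤ s) : RR s = 1 := by
  exact Real.smoothTransition.one_of_one_le (by linarith)

lemma RR_mem (s : ℝ) : 0 ≤ RR s ∧ RR s ≤ 1 := by
  exact ⟨Real.smoothTransition.nonneg _, Real.smoothTransition.le_one _⟩

lemma rho_cont : Continuous rho := by
  have : ContDiff ℝ 1 RR :=
    Real.smoothTransition.contDiff.comp ((contDiff_id.sub contDiff_const).div_const 2)
  exact this.continuous_deriv le_rfl

lemma rho_zero {s : ℝ} (h : s ≤ 2 ∨ 4 ≤ s) : rho s = 0 := by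
  have hc : IsClosed {s | rho s = 0} := isClosed_eq rho_cont continuous_const
  rcases h with h | h
  · have : closure (Iio (2 : ℝ)) ⊆ {s | rho s = 0} :=
      closure_minimal (fun t ht => aaa_dl (fun _ => RR_zero) ht) hc
    rw [closure_Iio] at this
    exact this h
  · have : closure (Ioi (4 : ℝ)) ⊆ {s | rho s = 0} :=
      closure_minimal (fun t ht => aaa_dr (fun _ => RR_one) ht) hc
    rw [closure_Ioi] at this
    exact this h

lemma WW_zero {s : ℝ} (h : s ≤ 2 ∨ 4 ≤ s) : WW s = 0 := by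
  rw [WW, rho_zero h, mul_zero]

lemma cw_one {s : ℝ} (h : |s| ≤ 1 / 2) : cw s = 1 := by
  have : s ^ 2 ≤ (1 / 2) ^ 2 := by
    rw [← sq_abs]; exact pow_le_pow_left₀ (abs_nonneg _) h 2
  rw [cw, st, Real.smoothTransition.zero_of_nonpos (by linarith), sub_zero]

lemma cw_zero {s : ℝ} (h : 1 ≤ |s|) : cw s = 0 := by
  have : 1 ≤ s ^ 2 := by
    rw [← sq_abs]; exact one_le_pow₀ h
  rw [cw, st, Real.smoothTransition.one_of_one_le (by linarith), sub_self]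

lemma cw_neg (s : ℝ) : cw (-s) = cw s := by
  rw [cw, cw, neg_sq]

lemma cw_mem (s : ℝ) : 0 ≤ cw s ∧ cw s ≤ 1 := by
  exact aaa_mem _

lemma ps_one {s : ℝ} (h : s ≤ 1) : ps s = 1 := by
  rw [ps, st, Real.smoothTransition.zero_of_nonpos (by linarith), sub_zero]

lemma ps_zero {s : ℝ} (h : 2 ≤ s) : ps s = 0 := by
  rw [ps, st, Real.smoothTransition.one_of_one_le (by linarith), sub_self]

lemma ps_mem (s : ℝ) : 0 ≤ ps s ∧ ps s ≤ 1 := by
  exact aaa_mem _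

lemma rA2_zero {s : ℝ} (h : s ≤ 1) : rA2 s = 0 := by
  exact Real.smoothTransition.zero_of_nonpos (by linarith)

lemma rA2_one {s : ℝ} (h : 2 ≤ s) : rA2 s = 1 := by
  exact Real.smoothTransition.one_of_one_le (by linarith)

lemma rA2_mem (s : ℝ) : 0 ≤ rA2 s ∧ rA2 s ≤ 1 := by
  exact ⟨Real.smoothTransition.nonneg _, Real.smoothTransition.le_one _⟩

lemma rB2_zero {s : ℝ} (h : s ≤ 3 / 4) : rB2 s = 0 := by
  exact if_pos h

lemma rB2_one {s : ℝ} (h : 1 ≤ s) : rB2 s = 1 := by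
  have : 1 / (2 * s - 1) ≤ 1 := by rw [div_le_one (by linarith)]; linarith
  rw [rB2, if_neg (by linarith), st, Real.smoothTransition.zero_of_nonpos (by linarith), sub_zero]

lemma rB2_mem (s : ℝ) : 0 ≤ rB2 s ∧ rB2 s ≤ 1 := by
  unfold rB2
  split_ifs
  · exact ⟨le_rfl, zero_le_one⟩
  · exact aaa_mem _

lemma rAB2 {β c : ℕ} (hβ : 0 < β) (hc : 0 < c) :
    1 - rA2 (c / β) = rB2 (((β + c : ℕ) : ℝ) / ((2 * c : ℕ) : ℝ)) := by
  have hβ' : (0 : ℝ) < β := by exact_mod_cast hβ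
  have hc' : (0 : ℝ) < c := by exact_mod_cast hc
  unfold rB2
  push_cast
  split_ifs with h
  · rw [div_le_iff₀ (by positivity)] at h
    rw [rA2_one (by rw [le_div_iff₀ hβ']; linarith), sub_self]
  · rw [rA2, show 2 * (((β : ℝ) + c) / (2 * c)) - 1 = β / c by field_simp; ring, one_div_div]

end

end Pool.Agent.MP_9f080f_an

namespace Pool.Agent.MP_9f080f_an
open Complex MeasureTheory Set Filter Topology Metric
open scoped Real

noncomputable section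

lemma aa_st {k : ℕ} : ContDiff ℝ k st := Real.smoothTransition.contDiff

lemma aa_RR {k : ℕ} : ContDiff ℝ k RR := aa_st.comp (by fun_prop)

lemma aa_rA2 {k : ℕ} : ContDiff ℝ k rA2 := aa_st.comp (by fun_prop)

lemma aa_WW : ContDiff ℝ 2 WW := by
  have h : ContDiff ℝ 2 (deriv RR) := ContDiff.deriv' (n := 2) (aa_RR (k := 3))
  exact (contDiff_id.pow 2).mul h

lemma aa_cw : ContDiff ℝ 2 cw := contDiff_const.sub ((aa_st (k := 2)).comp (by fun_prop))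

lemma aa_ps : ContDiff ℝ 2 ps := contDiff_const.sub ((aa_st (k := 2)).comp (by fun_prop))

lemma aa_rB2 : ContDiff ℝ 2 rB2 := by
  rw [contDiff_iff_contDiffAt]
  intro v
  by_cases hv : v < 3 / 4
  · refine (contDiffAt_const (c := (0 : ℝ))).congr_of_eventuallyEq ?_
    filter_upwards [Iio_mem_nhds hv] with u hu using rB2_zero (le_of_lt hu)
  · have hv' : 1 / 2 < v := by linarith [not_lt.1 hv]
    have h1 : ContDiffAt ℝ 2 (fun v : ℝ => 1 - st (1 / (2 * v - 1) - 1)) v := by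
      refine contDiffAt_const.sub ((aa_st (k := 2)).contDiffAt.comp v ?_)
      refine ContDiffAt.sub (contDiffAt_const.div (by fun_prop) (by linarith)) contDiffAt_const
    refine h1.congr_of_eventuallyEq ?_
    filter_upwards [Ioi_mem_nhds hv'] with u hu
    have hu' : 1 / 2 < u := hu
    unfold rB2
    split_ifs with h
    · have : 2 ≤ 1 / (2 * u - 1) := by
        rw [le_div_iff₀ (by linarith)]
        linarith
      rw [st, Real.smoothTransition.one_of_one_le (by linarith), sub_self]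
    · rfl

lemma aa_int {f : ℝ → ℝ} (hf : ContDiff ℝ 2 f) {a b : ℝ} (hab : a ≤ b) (h1 : ∀ s ≤ a, f s = 0)
    (h2 : ∀ s, b ≤ s → f s = 1) (v : ℝ) :
    f v = ∫ u in a..b, (if u ≤ v then deriv f u else 0) := by
  rw [shfan_ind _ hab, intervalIntegral.integral_deriv_eq_sub
    (fun x _ => hf.differentiable (by norm_num) x)
    ((hf.continuous_deriv (by norm_num)).intervalIntegrable _ _), h1 a le_rfl, sub_zero]
  rcases le_total v a with h | h
  · rw [h1 v h, min_eq_left (h.trans hab), max_eq_left h, h1 a le_rfl]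
  · rcases le_total v b with h' | h'
    · rw [min_eq_left h', max_eq_right h]
    · rw [min_eq_right h', max_eq_right hab, h2 v h', h2 b le_rfl]

theorem cut_all : ∃ K : ℝ, 1 ≤ K ∧ Cut RR K ∧ Cut WW K ∧ Cut cw K ∧ Cut ps K ∧ Cut rA2 K ∧ Cut rB2 K := by
  obtain ⟨K₁, k1, h1⟩ := cut_of_const (aa_RR (k := 2)) (fun _ h => RR_zero h) fun _ h => RR_one h
  obtain ⟨K₂, k2, h2⟩ := cut_of_const aa_WW (fun _ h => WW_zero (Or.inl h))
    fun _ h => WW_zero (Or.inr h)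
  obtain ⟨K₃, k3, h3⟩ := cut_of_const aa_cw (a := -1) (b := 1)
    (fun s h => cw_zero (le_abs.2 (Or.inr (by linarith)))) fun s h => cw_zero (le_abs.2 (Or.inl h))
  obtain ⟨K₄, k4, h4⟩ := cut_of_const aa_ps (fun _ h => ps_one h) fun _ h => ps_zero h
  obtain ⟨K₅, k5, h5⟩ := cut_of_const (aa_rA2 (k := 2)) (fun _ h => rA2_zero h) fun _ h => rA2_one h
  obtain ⟨K₆, k6, h6⟩ := cut_of_const aa_rB2 (fun _ h => rB2_zero h) fun _ h => rB2_one h
  exact ⟨K₁ + K₂ + K₃ + K₄ + K₅ + K₆, by linarith, h1.mono (by linarith), h2.mono (by linarith),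
    h3.mono (by linarith), h4.mono (by linarith), h5.mono (by linarith), h6.mono (by linarith)⟩

lemma rho_int (s : ℝ) : ∫ l in (2 : ℝ)..4, (if l < s then rho l else 0) = RR s := by
  rw [aa_int (aa_RR (k := 2)) (by norm_num : (2 : ℝ) ≤ 4) (fun _ h => RR_zero h)
    (fun _ h => RR_one h) s]
  refine intervalIntegral.integral_congr_ae ?_
  have h : ∀ᵐ l : ℝ, l ≠ s := by
    rw [ae_iff]
    simp
  filter_upwards [h] with l hl _
  exact if_congr ⟨le_of_lt, fun h' => lt_of_le_of_ne h' hl⟩ rfl rfl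

lemma rho_total : ∫ l in (2 : ℝ)..4, rho l = 1 := by
  unfold rho
  rw [intervalIntegral.integral_deriv_eq_sub
    (fun x _ => (aa_RR (k := 2)).differentiable (by norm_num) x)
    (((aa_RR (k := 2)).continuous_deriv (by norm_num)).intervalIntegrable _ _),
    RR_one le_rfl, RR_zero le_rfl, sub_zero]

lemma rA2_int (v : ℝ) : rA2 v = ∫ u in (1 : ℝ)..2, (if u ≤ v then deriv rA2 u else 0) := by
  exact aa_int (aa_rA2 (k := 2)) (by norm_num) (fun _ h => rA2_zero h) (fun _ h => rA2_one h) v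

lemma rB2_int (v : ℝ) : rB2 v = ∫ u in (3 / 4 : ℝ)..1, (if u ≤ v then deriv rB2 u else 0) := by
  exact aa_int aa_rB2 (by norm_num) (fun _ h => rB2_zero h) (fun _ h => rB2_one h) v

end

end Pool.Agent.MP_9f080f_an

end

-- part MP_9f080f_an.G.AB
section

namespace Pool.Agent.MP_9f080f_an
open Complex MeasureTheory Set Filter Topology Metric
open scoped Real

noncomputable section

/-! Calculus of jets.  If `ContDiffAt ℝ 2 f u` then `f` is differentiable near `u` (`ContDiffAt.eventually`, `ContDiffAt.differentiableAt`) and `deriv f` is differentiable at `u`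
(`ContDiffAt.derivWithin`-free way: `contDiffAt_succ_iff_hasFDerivAt`, or `ContDiffAt.fderiv_right`/`ContDiffAt.deriv'`-like lemmas, or `iteratedDeriv`); first prove this as an auxiliary lemma.
`J2.mul`: `deriv (f g) = f' g + f g'` near `u` (`Filter.EventuallyEq.deriv_eq`), differentiate again.  `Cut.comp`: chain rule twice.
`J2.holo`: `F` is differentiable on an open neighbourhood of `z₀ = a + c u` (the ball), hence analytic at `z₀`; `deriv (fun t => F (a + c t)) = c * deriv F (a + c t)` near `u`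
(`HasDerivAt.comp_ofReal`), and `Complex.norm_iteratedDeriv_le_of_forall_mem_sphere_norm_le` (or `cauchy_est`-like estimates) gives `‖F'‖ ≤ B/r`, `‖F''‖ ≤ 2B/r²`.
`D2.im`: `Complex.imCLM` commutes with `deriv`. -/

lemma aba_ev {f : ℝ → ℂ} {u : ℝ} (h : ContDiffAt ℝ 2 f u) :
    ∀ᶠ t in 𝓝 u, DifferentiableAt ℝ f t :=
  (h.eventually (by simp)).mono fun _ ht => ht.differentiableAt (by simp)

lemma aba_d2 {f : ℝ → ℂ} {u : ℝ} (h : ContDiffAt ℝ 2 f u) : DifferentiableAt ℝ (deriv f) u := by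
  have h1 : ContDiffAt ℝ 1 (fderiv ℝ f) u := h.fderiv_right (by norm_num)
  exact (h1.differentiableAt (by simp)).clm_apply (differentiableAt_const (1 : ℝ))

lemma J2.nonneg {f : ℝ → ℂ} {u δ A : ℝ} (h : J2 f u δ A) : 0 ≤ A := by
  exact (norm_nonneg _).trans h.b0

theorem J2.mul {f g : ℝ → ℂ} {u δ A B : ℝ} (hδ : 0 ≤ δ) (hf : J2 f u δ A) (hg : J2 g u δ B) :
    J2 (fun t => f t * g t) u δ (4 * A * B) := by
  have hA := hf.nonneg
  have hB := hg.nonneg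
  have e1 : deriv (fun t => f t * g t) =ᶠ[𝓝 u] fun t => deriv f t * g t + f t * deriv g t := by
    filter_upwards [aba_ev hf.cd, aba_ev hg.cd] with t h1 h2
    exact deriv_fun_mul h1 h2
  have df := (aba_ev hf.cd).self_of_nhds
  have dg := (aba_ev hg.cd).self_of_nhds
  have e2 : deriv (deriv fun t => f t * g t) u = deriv (deriv f) u * g u + deriv f u * deriv g u +
      (deriv f u * deriv g u + f u * deriv (deriv g) u) := by
    rw [e1.deriv_eq]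
    exact (((aba_d2 hf.cd).hasDerivAt.fun_mul dg.hasDerivAt).fun_add
      (df.hasDerivAt.fun_mul (aba_d2 hg.cd).hasDerivAt)).deriv
  have hAB := mul_nonneg hA hB
  have p00 := mul_le_mul hf.b0 hg.b0 (norm_nonneg _) hA
  have p10 := mul_le_mul hf.b1 hg.b0 (norm_nonneg _) hA
  have p01 := mul_le_mul hf.b0 hg.b1 (mul_nonneg hδ (norm_nonneg _)) hA
  have p11 := mul_le_mul hf.b1 hg.b1 (mul_nonneg hδ (norm_nonneg _)) hA
  have p20 := mul_le_mul hf.b2 hg.b0 (norm_nonneg _) hA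
  have p02 := mul_le_mul hf.b0 hg.b2 (mul_nonneg (sq_nonneg δ) (norm_nonneg _)) hA
  refine ⟨hf.cd.mul hg.cd, ?_, ?_, ?_⟩
  · rw [norm_mul]
    linarith
  · rw [e1.self_of_nhds]
    have h1 : ‖deriv f u * g u + f u * deriv g u‖ ≤ ‖deriv f u‖ * ‖g u‖ + ‖f u‖ * ‖deriv g u‖ :=
      (norm_add_le _ _).trans_eq (by rw [norm_mul, norm_mul])
    have h2 := mul_le_mul_of_nonneg_left h1 hδ
    linarith
  · rw [e2]
    have h1 : ‖deriv (deriv f) u * g u + deriv f u * deriv g u +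
        (deriv f u * deriv g u + f u * deriv (deriv g) u)‖ ≤
        ‖deriv (deriv f) u‖ * ‖g u‖ + ‖deriv f u‖ * ‖deriv g u‖ +
          (‖deriv f u‖ * ‖deriv g u‖ + ‖f u‖ * ‖deriv (deriv g) u‖) := by
      simp only [← norm_mul]
      exact (norm_add_le _ _).trans (add_le_add (norm_add_le _ _) (norm_add_le _ _))
    have h2 := mul_le_mul_of_nonneg_left h1 (sq_nonneg δ)
    linarith

lemma J2.mono {f : ℝ → ℂ} {u δ δ' A B : ℝ} (h : J2 f u δ A) (h0 : 0 ≤ δ') (h1 : δ' ≤ δ) (h2 : A ≤ B) :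
    J2 f u δ' B := by
  refine ⟨h.cd, h.b0.trans h2, ?_, ?_⟩
  · exact (mul_le_mul_of_nonneg_right h1 (norm_nonneg _)).trans (h.b1.trans h2)
  · exact (mul_le_mul_of_nonneg_right (pow_le_pow_left₀ h0 h1 2) (norm_nonneg _)).trans
      (h.b2.trans h2)

lemma J2.scale {f : ℝ → ℂ} {u δ δ' A : ℝ} (h : J2 f u δ A) (h0 : 0 < δ) (h1 : δ ≤ δ') :
    J2 f u δ' (A * (δ' / δ) ^ 2) := by
  have hA := h.nonneg
  have hq : 1 ≤ δ' / δ := (one_le_div h0).2 h1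
  have hq2 : δ' / δ ≤ (δ' / δ) ^ 2 := le_self_pow₀ hq two_ne_zero
  have e : δ' = δ' / δ * δ := (div_mul_cancel₀ _ h0.ne').symm
  refine ⟨h.cd, h.b0.trans (le_mul_of_one_le_right hA (hq.trans hq2)), ?_, ?_⟩
  · calc δ' * ‖deriv f u‖ = δ' / δ * (δ * ‖deriv f u‖) := by rw [← mul_assoc, ← e]
      _ ≤ (δ' / δ) ^ 2 * A := mul_le_mul hq2 h.b1 (mul_nonneg h0.le (norm_nonneg _)) (sq_nonneg _)
      _ = _ := mul_comm _ _
  · calc δ' ^ 2 * ‖deriv (deriv f) u‖ = (δ' / δ) ^ 2 * (δ ^ 2 * ‖deriv (deriv f) u‖) := by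
          rw [← mul_assoc, ← mul_pow, ← e]
      _ ≤ (δ' / δ) ^ 2 * A := mul_le_mul_of_nonneg_left h.b2 (sq_nonneg _)
      _ = _ := mul_comm _ _

lemma J2.congr {f g : ℝ → ℂ} {u δ A : ℝ} (h : J2 f u δ A) (e : f =ᶠ[𝓝 u] g) : J2 g u δ A := by
  refine ⟨h.cd.congr_of_eventuallyEq e.symm, ?_, ?_, ?_⟩
  · rw [← e.self_of_nhds]
    exact h.b0
  · rw [← e.deriv_eq]
    exact h.b1
  · rw [← e.deriv.deriv_eq]
    exact h.b2

lemma J2.const (c : ℂ) (u δ : ℝ) : J2 (fun _ => c) u δ ‖c‖ := by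
  refine ⟨contDiffAt_const, le_rfl, ?_, ?_⟩ <;> simp

lemma J2.zero {f : ℝ → ℂ} {u : ℝ} (e : ∀ᶠ t in 𝓝 u, f t = 0) (δ : ℝ) : J2 f u δ 0 := by
  have h := J2.const 0 u δ
  rw [norm_zero] at h
  exact h.congr (e.mono fun t ht => ht.symm)

lemma J2.comp_mul {f : ℝ → ℂ} {u δ A c : ℝ} (h : J2 f (c * u) (|c| * δ) A) :
    J2 (fun t => f (c * t)) u δ A := by
  have hc : ContinuousAt (fun t : ℝ => c * t) u := (continuous_const.mul continuous_id).continuousAt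
  have e1 : deriv (fun t => f (c * t)) = fun t => c • deriv f (c * t) :=
    funext fun t => deriv_comp_mul_left c f t
  have e2 : deriv (fun t => c • deriv f (c * t)) u = c • c • deriv (deriv f) (c * u) := by
    rw [deriv_fun_const_smul_field c (fun t => deriv f (c * t))]
    exact congrArg _ (deriv_comp_mul_left c (deriv f) u)
  refine ⟨h.cd.comp u (f := fun t => c * t) (contDiffAt_const.mul contDiffAt_id), h.b0, ?_, ?_⟩
  · rw [e1, norm_smul, Real.norm_eq_abs]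
    have := h.b1
    linarith
  · rw [e1, e2, norm_smul, norm_smul, Real.norm_eq_abs]
    have := h.b2
    linarith

end

end Pool.Agent.MP_9f080f_an

namespace Pool.Agent.MP_9f080f_an
open Complex MeasureTheory Set Filter Topology Metric
open scoped Real

noncomputable section

lemma abb_aux {g : ℝ → ℝ} {u : ℝ} (h : ContDiffAt ℝ 2 g u) :
    (∀ᶠ t in 𝓝 u, DifferentiableAt ℝ g t) ∧ DifferentiableAt ℝ (deriv g) u := by
  constructor
  · have h1 : ∀ᶠ t in 𝓝 u, ContDiffAt ℝ 2 g t := h.eventually (by simp)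
    exact h1.mono fun t ht => ht.differentiableAt (by norm_num)
  · have h1 : ContDiffAt ℝ 1 (fderiv ℝ g) u := h.fderiv_right (by norm_num)
    have h2 : DifferentiableAt ℝ (fderiv ℝ g) u := h1.differentiableAt (by norm_num)
    have h3 : deriv g = fun t => fderiv ℝ g t 1 := by
      funext t
      simp
    rw [h3]
    exact h2.clm_apply (differentiableAt_const _)

theorem Cut.comp {f g : ℝ → ℝ} {K u δ A : ℝ} (hf : Cut f K) (hg : D2 g u δ A) (hδ : 0 ≤ δ) (hA : 1 ≤ A) :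
    J2 (fun t => (f (g t) : ℂ)) u δ (2 * K * A ^ 2) := by
  obtain ⟨hg1, hg2⟩ := abb_aux hg.cd
  have hf1 : ∀ s, DifferentiableAt ℝ f s := fun s =>
    (hf.cd.contDiffAt (x := s)).differentiableAt (by norm_num)
  have hf2 : ∀ s, DifferentiableAt ℝ (deriv f) s := fun s => (abb_aux (hf.cd.contDiffAt (x := s))).2
  have hK : 0 ≤ K := (abs_nonneg _).trans (hf.b0 0)
  have hA2 : 1 ≤ A ^ 2 := by nlinarith
  have hAA : A ≤ A ^ 2 := by nlinarith
  have e1 : deriv (fun t => (f (g t) : ℂ)) =ᶠ[𝓝 u]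
      fun t => ((deriv f (g t) * deriv g t : ℝ) : ℂ) := by
    refine hg1.mono fun t ht => ?_
    exact (((hf1 (g t)).hasDerivAt.comp t ht.hasDerivAt).ofReal_comp).deriv
  have hgu : DifferentiableAt ℝ g u := hg1.self_of_nhds
  have e2 : deriv (deriv (fun t => (f (g t) : ℂ))) u =
      ((deriv (deriv f) (g u) * deriv g u * deriv g u + deriv f (g u) * deriv (deriv g) u : ℝ) : ℂ) := by
    rw [e1.deriv_eq]
    exact ((((hf2 (g u)).hasDerivAt.comp u hgu.hasDerivAt).mul hg2.hasDerivAt).ofReal_comp).deriv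
  have p1 : 0 ≤ δ * |deriv g u| := mul_nonneg hδ (abs_nonneg _)
  refine ⟨?_, ?_, ?_, ?_⟩
  · exact Complex.ofRealCLM.contDiff.contDiffAt.comp u ((hf.cd.contDiffAt).comp u hg.cd)
  · rw [Complex.norm_real, Real.norm_eq_abs]
    have := hf.b0 (g u)
    nlinarith
  · rw [e1.self_of_nhds, Complex.norm_real, Real.norm_eq_abs, abs_mul]
    have h1 := hf.b1 (g u)
    have h2 := hg.b1
    calc δ * (|deriv f (g u)| * |deriv g u|) = |deriv f (g u)| * (δ * |deriv g u|) := by ring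
      _ ≤ K * A := mul_le_mul h1 h2 p1 hK
      _ ≤ 2 * K * A ^ 2 := by nlinarith
  · rw [e2, Complex.norm_real, Real.norm_eq_abs]
    have h1 := hf.b1 (g u)
    have h2 := hg.b1
    have h3 := hf.b2 (g u)
    have h4 := hg.b2
    have h5 : (δ * |deriv g u|) ^ 2 ≤ A ^ 2 := pow_le_pow_left₀ p1 h2 2
    have p2 : 0 ≤ δ ^ 2 * |deriv (deriv g) u| := mul_nonneg (sq_nonneg _) (abs_nonneg _)
    have h6 : |deriv (deriv f) (g u) * deriv g u * deriv g u + deriv f (g u) * deriv (deriv g) u| ≤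
        |deriv (deriv f) (g u)| * |deriv g u| * |deriv g u| + |deriv f (g u)| * |deriv (deriv g) u| := by
      refine (abs_add_le _ _).trans (le_of_eq ?_)
      rw [abs_mul, abs_mul, abs_mul]
    calc δ ^ 2 * |deriv (deriv f) (g u) * deriv g u * deriv g u + deriv f (g u) * deriv (deriv g) u|
        ≤ δ ^ 2 * (|deriv (deriv f) (g u)| * |deriv g u| * |deriv g u| + |deriv f (g u)| * |deriv (deriv g) u|) :=
          mul_le_mul_of_nonneg_left h6 (sq_nonneg _)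
      _ = |deriv (deriv f) (g u)| * (δ * |deriv g u|) ^ 2 + |deriv f (g u)| * (δ ^ 2 * |deriv (deriv g) u|) := by ring
      _ ≤ K * A ^ 2 + K * A := add_le_add (mul_le_mul h3 h5 (sq_nonneg _) hK) (mul_le_mul h1 h4 p2 hK)
      _ ≤ 2 * K * A ^ 2 := by nlinarith

lemma D2.quad {a b c u δ A : ℝ} (h1 : δ * |2 * a * u + b| ≤ A) (h2 : δ ^ 2 * |2 * a| ≤ A) :
    D2 (fun t => a * t ^ 2 + b * t + c) u δ A := by
  have e1 : deriv (fun t : ℝ => a * t ^ 2 + b * t + c) = fun t => 2 * a * t + b := by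
    funext t
    have h : HasDerivAt (fun t : ℝ => a * t ^ 2 + b * t + c) (a * (2 * t) + b * 1) t := by
      refine HasDerivAt.add_const c (HasDerivAt.add ?_ ?_)
      · simpa using (hasDerivAt_pow 2 t).const_mul a
      · exact (hasDerivAt_id t).const_mul b
    rw [h.deriv]
    ring
  have e2 : deriv (fun t : ℝ => 2 * a * t + b) u = 2 * a := by
    have h : HasDerivAt (fun t : ℝ => 2 * a * t + b) (2 * a * 1) u :=
      HasDerivAt.add_const b ((hasDerivAt_id u).const_mul (2 * a))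
    rw [h.deriv]
    ring
  refine ⟨?_, ?_, ?_⟩
  · fun_prop
  · rw [e1]
    exact h1
  · rw [e1, e2]
    exact h2

lemma D2.congr {f g : ℝ → ℝ} {u δ A : ℝ} (h : D2 f u δ A) (e : f =ᶠ[𝓝 u] g) : D2 g u δ A := by
  refine ⟨h.cd.congr_of_eventuallyEq e.symm, ?_, ?_⟩
  · rw [← e.deriv_eq]
    exact h.b1
  · rw [← e.deriv.deriv_eq]
    exact h.b2

lemma D2.mono {f : ℝ → ℝ} {u δ A B : ℝ} (h : D2 f u δ A) (h2 : A ≤ B) : D2 f u δ B :=
  ⟨h.cd, h.b1.trans h2, h.b2.trans h2⟩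

end

end Pool.Agent.MP_9f080f_an

namespace Pool.Agent.MP_9f080f_an
open Complex MeasureTheory Set Filter Topology Metric
open scoped Real

noncomputable section

lemma ab_line {G : ℂ → ℂ} {a c : ℂ} {t : ℝ} (h : DifferentiableAt ℂ G (a + c * t)) :
    HasDerivAt (fun t : ℝ => G (a + c * t)) (deriv G (a + c * t) * c) t := by
  have h1 : HasDerivAt (fun w : ℂ => a + c * w) c (t : ℂ) := by
    simpa using ((hasDerivAt_id (t : ℂ)).const_mul c).const_add a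
  exact (HasDerivAt.comp (t : ℂ) h.hasDerivAt h1).comp_ofReal

lemma ab_aux {f : ℝ → ℂ} {u : ℝ} (h : ContDiffAt ℝ 2 f u) :
    (∀ᶠ t in 𝓝 u, DifferentiableAt ℝ f t) ∧ DifferentiableAt ℝ (deriv f) u := by
  refine ⟨(h.eventually (by simp)).mono fun t ht => ht.differentiableAt (by simp), ?_⟩
  have h1 : ContDiffAt ℝ 1 (fderiv ℝ f) u := h.fderiv_right (by norm_num)
  have h2 := (h1.differentiableAt (by simp)).clm_apply (differentiableAt_const (1 : ℝ))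
  exact h2

theorem J2.holo {F : ℂ → ℂ} {a c : ℂ} {u δ r B : ℝ} (hr : 0 < r) (hδ : 0 ≤ δ) (hc : δ * ‖c‖ ≤ r)
    (hF : ∀ w ∈ closedBall (a + c * u) r, DifferentiableAt ℂ F w)
    (hB : ∀ w ∈ closedBall (a + c * u) r, ‖F w‖ ≤ B) : J2 (fun t : ℝ => F (a + c * t)) u δ (2 * B) := by
  have hd : DifferentiableOn ℂ F (ball (a + c * u) r) := fun w hw =>
    (hF w (ball_subset_closedBall hw)).differentiableWithinAt
  have han : AnalyticAt ℂ F (a + c * u) := hd.analyticAt (ball_mem_nhds _ hr)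
  have hdc : DiffContOnCl ℂ F (ball (a + c * u) r) := by
    refine ⟨hd, ?_⟩
    rw [closure_ball _ hr.ne']
    exact fun w hw => (hF w hw).continuousAt.continuousWithinAt
  have hs : ∀ w ∈ sphere (a + c * u) r, ‖F w‖ ≤ B := fun w hw => hB w (sphere_subset_closedBall hw)
  have hB0 : ‖F (a + c * u)‖ ≤ B := hB _ (mem_closedBall_self hr.le)
  have hBn : 0 ≤ B := (norm_nonneg _).trans hB0
  have e1 : ‖deriv F (a + c * u)‖ ≤ B / r := norm_deriv_le_of_forall_mem_sphere_norm_le hr hdc hs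
  have e2 : ‖deriv (deriv F) (a + c * u)‖ ≤ 2 * B / r ^ 2 := by
    have := norm_iteratedDeriv_le_of_forall_mem_sphere_norm_le 2 hr hdc hs
    simpa [iteratedDeriv_succ, iteratedDeriv_zero, Nat.factorial] using this
  have hl : ContDiff ℝ 2 (fun t : ℝ => a + c * t) :=
    contDiff_const.add (contDiff_const.mul Complex.ofRealCLM.contDiff)
  have hev : ∀ᶠ t : ℝ in 𝓝 u, DifferentiableAt ℂ F (a + c * t) :=
    (hl.continuous.continuousAt (x := u)).eventually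
      (han.eventually_analyticAt.mono fun w hw => hw.differentiableAt)
  have d1 : deriv (fun t : ℝ => F (a + c * t)) =ᶠ[𝓝 u] fun t => deriv F (a + c * t) * c :=
    hev.mono fun t ht => (ab_line ht).deriv
  have d2 : deriv (deriv fun t : ℝ => F (a + c * t)) u = deriv (deriv F) (a + c * u) * c * c := by
    rw [d1.deriv_eq]
    exact ((ab_line han.deriv.differentiableAt).mul_const c).deriv
  have hx : 0 ≤ δ * ‖c‖ := mul_nonneg hδ (norm_nonneg _)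
  refine ⟨ContDiffAt.comp (g := F) u (han.contDiffAt.restrict_scalars ℝ) hl.contDiffAt, by linarith,
    ?_, ?_⟩
  · rw [d1.eq_of_nhds, norm_mul]
    calc δ * (‖deriv F (a + c * u)‖ * ‖c‖) = ‖deriv F (a + c * u)‖ * (δ * ‖c‖) := by ring
      _ ≤ B / r * r := mul_le_mul e1 hc hx (by positivity)
      _ = B := by field_simp
      _ ≤ 2 * B := by linarith
  · rw [d2, norm_mul, norm_mul]
    calc δ ^ 2 * (‖deriv (deriv F) (a + c * u)‖ * ‖c‖ * ‖c‖)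
        = ‖deriv (deriv F) (a + c * u)‖ * (δ * ‖c‖) ^ 2 := by ring
      _ ≤ 2 * B / r ^ 2 * r ^ 2 :=
          mul_le_mul e2 (pow_le_pow_left₀ hx hc 2) (by positivity) (by positivity)
      _ = 2 * B := by field_simp

lemma D2.im {Φ : ℝ → ℂ} {c : ℂ} {u δ A : ℝ} (hδ : 0 ≤ δ) (h : J2 (fun t => Φ t - c) u δ A) :
    D2 (fun t => (Φ t).im) u δ A := by
  have hc : ContDiffAt ℝ 2 Φ u := by
    simpa using h.cd.add (contDiffAt_const (c := c))
  have e0 : deriv (fun t => Φ t - c) = deriv Φ := funext fun t => deriv_sub_const c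
  obtain ⟨h1, h2⟩ := ab_aux hc
  have hi : ∀ {f : ℝ → ℂ} {t : ℝ}, DifferentiableAt ℝ f t →
      deriv (fun t => (f t).im) t = (deriv f t).im := fun ht =>
    (Complex.imCLM.hasFDerivAt.comp_hasDerivAt _ ht.hasDerivAt).deriv
  have d1 : deriv (fun t => (Φ t).im) =ᶠ[𝓝 u] fun t => (deriv Φ t).im := h1.mono fun t ht => hi ht
  have b1 := h.b1
  have b2 := h.b2
  rw [e0] at b1 b2
  refine ⟨Complex.imCLM.contDiff.contDiffAt.comp u hc, ?_, ?_⟩
  · rw [d1.eq_of_nhds]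
    exact (mul_le_mul_of_nonneg_left (Complex.abs_im_le_norm _) hδ).trans b1
  · rw [d1.deriv_eq, hi h2]
    exact (mul_le_mul_of_nonneg_left (Complex.abs_im_le_norm _) (by positivity)).trans b2

end

end Pool.Agent.MP_9f080f_an

namespace Pool.Agent.MP_9f080f_an
open Complex MeasureTheory Set Filter Topology Metric
open scoped Real

noncomputable section

/-! Jets of the kernels.  Let `z₀ = a + σ u`, `r = δ ≤ ‖z₀‖/2`.  For `w ∈ closedBall z₀ δ`: `‖z₀‖/2 ≤ ‖w‖ ≤ 3‖z₀‖/2`, `‖H/w - H/z₀‖ ≤ H δ / (‖w‖ ‖z₀‖) ≤ 2A`, so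
`‖ep (H/w)‖ = exp (-π (H/w).im) ≤ exp (3 π A)` (`norm_ep`, `-(H/z₀).im = H z₀.im / normSq z₀ ≤ A`).  The ball avoids the negative imaginary axis
(`‖z₀ + i s‖ ≥ ‖z₀‖` for `s ≥ 0` because `0 ≤ z₀.im`), so `-I * w ∈ slitPlane` and `rt` is differentiable at `w` (`DifferentiableAt.cpow_const`/`HasDerivAt.cpow_const`); `norm_rt`.
Apply `J2.holo`.  `jet_lam`: `D2.im` with `Φ t = -H / (a + σ t)`.  `jet_kk`: `mainasm_kc_pos` (`kc H t = rt 1 * kk H t` for `t > 0`, `shf_norm_rt1`), `J2.congr`, `J2.mul`, `J2.const`. -/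

lemma ac_norm {z w : ℂ} {δ : ℝ} (h1 : 2 * δ ≤ ‖z‖) (hw : w ∈ closedBall z δ) :
    ‖z‖ / 2 ≤ ‖w‖ ∧ ‖w‖ ≤ 2 * ‖z‖ := by
  rw [mem_closedBall_iff_norm] at hw
  have a1 := norm_sub_norm_le w z
  have a2 := norm_sub_norm_le z w
  rw [norm_sub_rev] at a2
  have := norm_nonneg z
  constructor <;> linarith

lemma ac_diff {z w : ℂ} {δ H A : ℝ} (hδ : 0 < δ) (hH : 0 ≤ H) (h1 : 2 * δ ≤ ‖z‖)
    (h2 : H * δ ≤ A * normSq z) (hw : w ∈ closedBall z δ) : ‖(H : ℂ) / w - H / z‖ ≤ 2 * A := by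
  have n0 : 0 < ‖z‖ := by linarith
  have k := (ac_norm h1 hw).1
  have w0 : 0 < ‖w‖ := by linarith
  have hz := norm_pos_iff.1 n0
  have hw0 := norm_pos_iff.1 w0
  rw [Complex.normSq_eq_norm_sq] at h2
  have A0 : 0 ≤ A := by
    by_contra hA
    have : A * ‖z‖ ^ 2 < 0 := mul_neg_of_neg_of_pos (not_le.1 hA) (by positivity)
    have := mul_nonneg hH hδ.le
    linarith
  rw [mem_closedBall_iff_norm'] at hw
  rw [show (H : ℂ) / w - H / z = H * (z - w) / (w * z) by field_simp, norm_div, norm_mul, norm_mul,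
    Complex.norm_real, Real.norm_of_nonneg hH, div_le_iff₀ (by positivity)]
  have k1 := mul_le_mul_of_nonneg_left hw hH
  have k2 := mul_le_mul_of_nonneg_left k (mul_nonneg A0 n0.le)
  nlinarith

lemma ac_im (H : ℝ) (z : ℂ) : (-(H : ℂ) / z).im = H * z.im / normSq z := by
  rw [Complex.div_im]
  simp only [neg_im, ofReal_im, neg_re, ofReal_re]
  ring

lemma ac_slit {z w : ℂ} {δ : ℝ} (hδ : 0 < δ) (h0 : 0 ≤ z.im) (h1 : 2 * δ ≤ ‖z‖)
    (hw : w ∈ closedBall z δ) : -I * w ∈ slitPlane := by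
  rw [mem_slitPlane_iff]
  by_contra hn
  rw [not_or, not_not, not_lt] at hn
  obtain ⟨k1, k2⟩ := hn
  have e1 : w.im ≤ 0 := by simpa using k1
  have e2 : w.re = 0 := by simpa using k2
  rw [mem_closedBall_iff_norm'] at hw
  have k3 : ‖z‖ ^ 2 ≤ ‖z - w‖ ^ 2 := by
    rw [← Complex.normSq_eq_norm_sq, ← Complex.normSq_eq_norm_sq, normSq_apply, normSq_apply,
      sub_re, sub_im, e2]
    nlinarith
  have k4 := pow_le_pow_left₀ (norm_nonneg _) hw 2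
  nlinarith

lemma ac_ep {z w : ℂ} {δ H A : ℝ} (hδ : 0 < δ) (hH : 0 ≤ H) (h1 : 2 * δ ≤ ‖z‖)
    (h2 : H * δ ≤ A * normSq z) (h3 : H * z.im ≤ A * normSq z) (hw : w ∈ closedBall z δ) :
    ‖ep (H / w)‖ ≤ Real.exp (π * (3 * A)) := by
  have n0 : 0 < normSq z := normSq_pos.2 (norm_pos_iff.1 (by linarith))
  have k1 := (abs_le.1 ((abs_im_le_norm _).trans (ac_diff hδ hH h1 h2 hw))).1
  have k2 := ac_im H z
  rw [neg_div, neg_im] at k2
  have k3 : H * z.im / normSq z ≤ A := by rwa [div_le_iff₀ n0]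
  rw [sub_im] at k1
  rw [norm_ep, Real.exp_le_exp, neg_mul, ← mul_neg]
  exact mul_le_mul_of_nonneg_left (by linarith) Real.pi_pos.le

lemma ac_dep (H : ℝ) {w : ℂ} (hw : w ≠ 0) : DifferentiableAt ℂ (fun w => ep (H / w)) w := by
  unfold ep
  exact (((differentiableAt_const _).div differentiableAt_id hw).const_mul _).cexp

lemma ac_drt {w : ℂ} (hw : -I * w ∈ slitPlane) : DifferentiableAt ℂ rt w := by
  unfold rt
  exact (differentiableAt_id.const_mul (-I)).cpow_const hw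

lemma ac_rt {z w : ℂ} (h : ‖w‖ ≤ 2 * ‖z‖) : ‖rt w‖ ≤ 2 * √‖z‖ := by
  rw [norm_rt, Real.sqrt_le_left (by positivity), mul_pow, Real.sq_sqrt (norm_nonneg _)]
  linarith [norm_nonneg z]

lemma ac_pow {n : ℝ} (hn : 0 < n) : n ^ (-3 / 2 : ℝ) = √n / n ^ 2 := by
  rw [Real.sqrt_eq_rpow, ← Real.rpow_natCast, ← Real.rpow_sub hn]
  norm_num

theorem jet_rte {A : ℝ} (hA : 0 ≤ A) : ∃ K : ℝ, 0 < K ∧ ∀ (a : ℂ) (σ u δ H : ℝ), |σ| ≤ 1 → 0 < δ → 0 ≤ H →
    0 ≤ (a + σ * u).im → 2 * δ ≤ ‖a + σ * u‖ → H * δ ≤ A * normSq (a + σ * u) →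
    H * (a + σ * u).im ≤ A * normSq (a + σ * u) →
      J2 (fun t : ℝ => rt (a + σ * t) * ep (H / (a + σ * t))) u δ (K * √‖a + σ * u‖) ∧
      J2 (fun t : ℝ => kc H (a + σ * t)) u δ (K * ‖a + σ * u‖ ^ (-3 / 2 : ℝ)) := by
  refine ⟨16 * Real.exp (π * (3 * A)), by positivity, fun a σ u δ H hσ hδ hH h0 h1 h2 h3 => ?_⟩
  have hc : δ * ‖(σ : ℂ)‖ ≤ δ := by
    rw [Complex.norm_real, Real.norm_eq_abs]
    exact mul_le_of_le_one_right hδ.le hσ
  have n0 : 0 < ‖a + σ * u‖ := by linarith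
  have w0 : ∀ w ∈ closedBall (a + σ * u) δ, w ≠ 0 := fun w hw =>
    norm_pos_iff.1 (by linarith [(ac_norm h1 hw).1])
  have e0 := Real.exp_pos (π * (3 * A))
  have s0 := Real.sqrt_nonneg ‖a + σ * u‖
  constructor
  · refine (J2.holo (F := fun w => rt w * ep (H / w))
      (B := 2 * √‖a + σ * u‖ * Real.exp (π * (3 * A))) hδ hδ.le hc
      (fun w hw => (ac_drt (ac_slit hδ h0 h1 hw)).mul (ac_dep H (w0 w hw)))
      fun w hw => ?_).mono hδ.le le_rfl (by nlinarith)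
    rw [norm_mul]
    exact mul_le_mul (ac_rt (ac_norm h1 hw).2) (ac_ep hδ hH h1 h2 h3 hw) (norm_nonneg _)
      (by positivity)
  · refine (J2.holo (F := kc H)
      (B := 2 * √‖a + σ * u‖ / (‖a + σ * u‖ / 2) ^ 2 * Real.exp (π * (3 * A))) hδ hδ.le hc
      (fun w hw => (((ac_drt (ac_slit hδ h0 h1 hw)).div (differentiableAt_pow 2)
        (pow_ne_zero 2 (w0 w hw))).mul (ac_dep H (w0 w hw))))
      fun w hw => ?_).mono hδ.le le_rfl (le_of_eq ?_)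
    · rw [kc, norm_mul, norm_div, norm_pow]
      refine mul_le_mul ?_ (ac_ep hδ hH h1 h2 h3 hw) (norm_nonneg _) (by positivity)
      exact div_le_div₀ (by positivity) (ac_rt (ac_norm h1 hw).2) (by positivity)
        (pow_le_pow_left₀ (by positivity) (ac_norm h1 hw).1 2)
    · rw [ac_pow n0]
      field_simp
      ring

theorem jet_lam {a : ℂ} {σ u δ H A : ℝ} (hσ : |σ| ≤ 1) (hδ : 0 < δ) (hH : 0 ≤ H)
    (h1 : 2 * δ ≤ ‖a + σ * u‖) (h2 : H * δ ≤ A * normSq (a + σ * u)) :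
    D2 (fun t : ℝ => H * (a + σ * t).im / normSq (a + σ * t)) u δ (4 * A) := by
  have hc : δ * ‖(σ : ℂ)‖ ≤ δ := by
    rw [Complex.norm_real, Real.norm_eq_abs]
    exact mul_le_of_le_one_right hδ.le hσ
  have w0 : ∀ w ∈ closedBall (a + σ * u) δ, w ≠ 0 := fun w hw =>
    norm_pos_iff.1 (by linarith [(ac_norm h1 hw).1])
  have k := J2.holo (F := fun w => -(H : ℂ) / w - -(H : ℂ) / (a + σ * u)) (B := 2 * A) hδ hδ.le hc
    (fun w hw => ((differentiableAt_const _).div differentiableAt_id (w0 w hw)).sub_const _)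
    fun w hw => by
      rw [neg_div, neg_div, neg_sub_neg, norm_sub_rev]
      exact ac_diff hδ hH h1 h2 hw
  have := D2.im (Φ := fun t : ℝ => -(H : ℂ) / (a + σ * t)) hδ.le k
  simp only [ac_im] at this
  exact this.mono (by linarith)

theorem jet_kk {A : ℝ} (hA : 0 ≤ A) : ∃ K : ℝ, 0 < K ∧ ∀ s u δ H : ℝ, 0 < δ → 0 ≤ H → 2 * δ ≤ s + u →
    H * δ ≤ A * (s + u) ^ 2 → J2 (fun v : ℝ => kk H (s + v)) u δ (K * (s + u) ^ (-3 / 2 : ℝ)) := by
  obtain ⟨K, hK, h⟩ := jet_rte hA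
  refine ⟨4 * K, by positivity, fun s u δ H hδ hH h1 h2 => ?_⟩
  have p0 : 0 < s + u := by linarith
  have e : ∀ t : ℝ, (s : ℂ) + (1 : ℝ) * (t : ℂ) = ((s + t : ℝ) : ℂ) := fun t => by
    push_cast; ring
  have n1 : ‖((s + u : ℝ) : ℂ)‖ = s + u := by
    rw [Complex.norm_real, Real.norm_of_nonneg p0.le]
  have n2 : normSq ((s + u : ℝ) : ℂ) = (s + u) ^ 2 := by rw [normSq_ofReal, sq]
  have k := (h s 1 u δ H (by simp) hδ hH (by rw [e, ofReal_im]) (by rw [e, n1]; exact h1)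
    (by rw [e, n2]; exact h2) (by rw [e, n2, ofReal_im, mul_zero]; positivity)).2
  simp only [e, n1] at k
  have r0 : rt 1 ≠ 0 := norm_pos_iff.1 (by rw [shf_norm_rt1]; exact one_pos)
  have k2 := J2.mul hδ.le (J2.const (rt 1)⁻¹ u δ) k
  rw [norm_inv, shf_norm_rt1, inv_one, mul_one, ← mul_assoc] at k2
  refine k2.congr ?_
  have : ∀ᶠ v in 𝓝 u, 0 < s + v :=
    (continuous_const.add continuous_id).continuousAt.eventually (lt_mem_nhds p0)
  filter_upwards [this] with v hv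
  rw [mainasm_kc_pos H hv, inv_mul_cancel_left₀ r0]

end

end Pool.Agent.MP_9f080f_an

end
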