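import Pool.Agent.MP_9f080f_an.Mg.Basic

-- part MP_9f080f_an.GrpA
section

namespace Pool.Agent.MP_9f080f_an
open Complex MeasureTheory Set Filter Topology Metric
open scoped Real

noncomputable section

/-! The theta group: action and generators. -/

namespace GT

lemma den_ne (g : GT) {z : ℂ} (hz : 0 < z.im) : (g.c : ℂ) * z + g.d ≠ 0 := by
  intro h
  have h1 := congrArg Complex.im h
  have h2 := congrArg Complex.re h
  simp at h1 h2
  rcases h1 with h1 | h1
  · have hd := g.det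
    simp [h1] at h2 hd
    rw [h2] at hd; simp at hd
  · exact hz.ne' h1

lemma det_real (g : GT) : (g.a : ℝ) * g.d - g.b * g.c = 1 := by exact_mod_cast g.det

lemma det_cx (g : GT) : (g.a : ℂ) * g.d - g.b * g.c = 1 := by exact_mod_cast g.det

lemma im_mob (g : GT) {z : ℂ} (_hz : 0 < z.im) :
    (g.mob z).im = z.im / normSq ((g.c : ℂ) * z + g.d) := by
  rw [mob, Complex.div_im, ← sub_div]
  congr 1
  simp
  linear_combination z.im * g.det_real

lemma normSq_den_pos (g : GT) {z : ℂ} (hz : 0 < z.im) : 0 < normSq ((g.c : ℂ) * z + g.d) :=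
  normSq_pos.2 (g.den_ne hz)

lemma im_mob_pos (g : GT) {z : ℂ} (hz : 0 < z.im) : 0 < (g.mob z).im := by
  rw [g.im_mob hz]; exact div_pos hz (g.normSq_den_pos hz)

lemma den_mul (g h : GT) {z : ℂ} (hz : 0 < z.im) :
    ((g * h).c : ℂ) * z + (g * h).d = (g.c * h.mob z + g.d) * (h.c * z + h.d) := by
  have := h.den_ne hz
  simp only [mob, mul_c, mul_d]; push_cast; field_simp; ring

lemma mob_mul (g h : GT) {z : ℂ} (hz : 0 < z.im) : (g * h).mob z = g.mob (h.mob z) := by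
  have h1 := h.den_ne hz
  have h2 := g.den_ne (h.im_mob_pos hz)
  have e : ((g * h).a : ℂ) * z + (g * h).b = (g.a * h.mob z + g.b) * (h.c * z + h.d) := by
    simp only [mob, mul_a, mul_b]; push_cast; field_simp; ring
  rw [mob, den_mul g h hz, e, mul_div_mul_right _ _ h1]; rfl

@[simp] lemma mob_one (z : ℂ) : (1 : GT).mob z = z := by simp [mob]
@[simp] lemma mob_S (z : ℂ) : S.mob z = -1 / z := by simp [mob]
@[simp] lemma mob_T (j : ℤ) (z : ℂ) : (T j).mob z = z + 2 * j := by simp [mob]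
@[simp] lemma mob_N (z : ℂ) : N.mob z = z := by simp [mob]

lemma mob_N_mul (g : GT) (z : ℂ) : (N * g).mob z = g.mob z := by
  simp only [mob, mul_a, mul_b, mul_c, mul_d, N_a, N_b, N_c, N_d]
  push_cast
  rw [← neg_div_neg_eq]; congr 1 <;> ring

lemma mob_mul_T (g : GT) (j : ℤ) (z : ℂ) : (g * T j).mob z = g.mob (z + 2 * j) := by
  simp only [mob, mul_a, mul_b, mul_c, mul_d, T_a, T_b, T_c, T_d]
  push_cast
  congr 1 <;> ring

lemma inv_mob (g : GT) {z : ℂ} (hz : 0 < z.im) : g⁻¹.mob (g.mob z) = z := by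
  rw [← mob_mul _ _ hz, inv_mul_cancel, mob_one]

lemma mob_inv (g : GT) {z : ℂ} (hz : 0 < z.im) : g.mob (g⁻¹.mob z) = z := by
  rw [← mob_mul _ _ hz, mul_inv_cancel, mob_one]

lemma hasDerivAt_mob (g : GT) {z : ℂ} (hz : 0 < z.im) :
    HasDerivAt g.mob (1 / ((g.c : ℂ) * z + g.d) ^ 2) z := by
  have h1 : HasDerivAt (fun w : ℂ => (g.a : ℂ) * w + g.b) g.a z := by
    simpa using ((hasDerivAt_id z).const_mul (g.a : ℂ)).add_const (g.b : ℂ)
  have h2 : HasDerivAt (fun w : ℂ => (g.c : ℂ) * w + g.d) g.c z := by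
    simpa using ((hasDerivAt_id z).const_mul (g.c : ℂ)).add_const (g.d : ℂ)
  have h3 := h1.div h2 (g.den_ne hz)
  have e : ((g.a : ℂ) * (g.c * z + g.d) - (g.a * z + g.b) * g.c) = 1 := by
    linear_combination g.det_cx
  rw [e] at h3
  exact h3

lemma continuousAt_mob (g : GT) {z : ℂ} (hz : 0 < z.im) : ContinuousAt g.mob z :=
  (g.hasDerivAt_mob hz).continuousAt

/-- the two parity patterns -/
lemma parity (g : GT) : (Odd g.a ∧ Even g.b ∧ Even g.c ∧ Odd g.d) ∨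
    (Even g.a ∧ Odd g.b ∧ Odd g.c ∧ Even g.d) := by
  have h1 := g.p1; have h2 := g.p2; have h3 := g.par.1; have h4 := g.par.2
  simp only [Int.odd_add, Int.odd_sub, ← Int.not_odd_iff_even] at *
  tauto

lemma chi_mul (g h : GT) : (g * h).chi = g.chi * h.chi := by
  unfold chi
  rcases g.parity with ⟨g1, g2, g3, g4⟩ | ⟨g1, g2, g3, g4⟩ <;>
  rcases h.parity with ⟨h1, h2, h3, h4⟩ | ⟨h1, h2, h3, h4⟩ <;>
  simp [*, parity_simps, Int.not_even_iff_odd.2, Int.not_odd_iff_even.2]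

@[simp] lemma chi_one : (1 : GT).chi = 1 := by simp [chi]
@[simp] lemma chi_S : S.chi = -1 := by simp [chi]
@[simp] lemma chi_T (j : ℤ) : (T j).chi = 1 := by simp [chi]
@[simp] lemma chi_N : N.chi = 1 := by simp [chi]
lemma chi_mul_self (g : GT) : g.chi * g.chi = 1 := by unfold chi; split_ifs <;> simp
lemma norm_chi (g : GT) : ‖g.chi‖ = 1 := by unfold chi; split_ifs <;> simp
lemma N_mul_N : N * N = 1 := by ext <;> simp
lemma S_mul_S : S * S = N := by ext <;> simp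

lemma N_mul_ne (g : GT) : N * g ≠ g := by
  intro h
  have h1 := congrArg GT.a h
  have h2 := congrArg GT.c h
  have := g.p1
  simp at h1 h2
  have e1 : g.a = 0 := by omega
  have e2 : g.c = 0 := by omega
  simp [e1, e2] at this

/-- the stabiliser of the cusp `1` -/
def sig (k : ℤ) : GT := ⟨1 - k, k, -k, 1 + k, by ring, ⟨-k, by ring⟩, ⟨k, by ring⟩⟩

lemma mob_sig (k : ℤ) {z : ℂ} (hz : 0 < z.im) : (sig k).mob (wz z) = wz (z + k) := by
  have h0 := ne_of_im hz
  have h1 : z + k ≠ 0 := ne_of_im (by simpa using hz)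
  have e : (-(k : ℂ)) * (1 - 1 / z) + (1 + k) = (z + k) / z := by field_simp; ring
  simp only [mob, sig, wz]
  push_cast
  rw [e]; field_simp; ring

lemma T_mul_T (i j : ℤ) : T i * T j = T (i + j) := by ext <;> simp; ring

lemma T_zero : T 0 = 1 := by ext <;> simp

lemma eq_of_c_zero {g : GT} (h : g.c = 0) : (∃ j, g = T j) ∨ ∃ j, g = N * T j := by
  have hd := g.det
  rw [h, mul_zero, sub_zero] at hd
  rcases g.parity with ⟨-, ⟨j, hj⟩, -, -⟩ | ⟨-, -, h3, -⟩
  · rcases Int.eq_one_or_neg_one_of_mul_eq_one' hd with ⟨h1, h2⟩ | ⟨h1, h2⟩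
    · left; exact ⟨j, by ext <;> simp [*]; ring⟩
    · right; exact ⟨-j, by ext <;> simp [*]; ring⟩
  · simp [h] at h3

theorem induction {P : GT → Prop} (h1 : P 1) (hN : ∀ g, P g → P (N * g))
    (hT : ∀ j g, P g → P (T j * g)) (hS : ∀ g, P g → P (S * g)) (g : GT) : P g := by
  suffices H : ∀ k : ℕ, ∀ g : GT, g.c.natAbs = k → P g from H _ g rfl
  intro k
  induction k using Nat.strong_induction_on with
  | _ k ih =>
    intro g hg
    by_cases hc : g.c = 0
    · have hTj : ∀ j, P (T j) := fun j => by simpa using hT j 1 h1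
      rcases eq_of_c_zero hc with ⟨j, rfl⟩ | ⟨j, rfl⟩
      · exact hTj j
      · exact hN _ (hTj j)
    · obtain ⟨j, hj⟩ : ∃ j : ℤ, (g.a + 2 * j * g.c).natAbs < g.c.natAbs := by
        have hp := g.p1
        have hpos : (0 : ℤ) < 2 * |g.c| := by positivity
        have e1 := Int.emod_add_mul_ediv (g.a + |g.c|) (2 * |g.c|)
        have e2 := Int.emod_nonneg (g.a + |g.c|) hpos.ne'
        have e3 := Int.emod_lt_of_pos (g.a + |g.c|) hpos
        have e4 : (g.a + |g.c|) % (2 * |g.c|) ≠ 0 := by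
          intro h0
          have hdv : 2 ∣ g.a + |g.c| :=
            (Dvd.intro _ rfl).trans (Int.dvd_of_emod_eq_zero h0)
          obtain ⟨m, hm⟩ := hp
          rcases abs_cases g.c with h | h <;> omega
        set q := (g.a + |g.c|) / (2 * |g.c|)
        set r := (g.a + |g.c|) % (2 * |g.c|)
        rcases abs_cases g.c with h | h
        · refine ⟨-q, ?_⟩
          rw [h.1] at e1 e3
          have : g.a + 2 * -q * g.c = r - g.c := by linear_combination -e1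
          rw [this]; omega
        · refine ⟨q, ?_⟩
          rw [h.1] at e1 e3
          have : g.a + 2 * q * g.c = r + g.c := by linear_combination -e1
          rw [this]; omega
      have h2 : P (S * (T j * g)) := ih _ (by rw [← hg]; simpa using hj) _ rfl
      have h3 := hT (-j) _ (hN _ (hS _ h2))
      have e : T (-j) * (N * (S * (S * (T j * g)))) = g := by
        rw [← mul_assoc S S, S_mul_S, ← mul_assoc N N, N_mul_N, one_mul, ← mul_assoc, T_mul_T]
        simp [T_zero]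
      rwa [e] at h3

lemma adm (g : GT) : Adm g.a g.c :=
  ⟨⟨g.d, -g.b, by linear_combination g.det⟩, g.p1⟩

lemma col_eq {g h : GT} (ha : g.a = h.a) (hc : g.c = h.c) : ∃ j : ℤ, g = h * T j := by
  have h0 : (h⁻¹ * g).c = 0 := by simp [ha, hc]; ring
  have h1 : (h⁻¹ * g).a = 1 := by simp [ha, hc]; linear_combination h.det
  rcases eq_of_c_zero h0 with ⟨j, hj⟩ | ⟨j, hj⟩
  · exact ⟨j, by rw [← hj]; simp⟩
  · rw [hj] at h1; simp at h1

lemma odd_A (g : GT) : Odd (g.a ^ 2 - g.c ^ 2) := by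
  rcases g.parity with ⟨g1, g2, g3, g4⟩ | ⟨g1, g2, g3, g4⟩ <;>
  simp [*, parity_simps, Int.not_odd_iff_even.2]

lemma odd_D (g : GT) : Odd (g.b ^ 2 - g.d ^ 2) := by
  rcases g.parity with ⟨g1, g2, g3, g4⟩ | ⟨g1, g2, g3, g4⟩ <;>
  simp [*, parity_simps, Int.not_odd_iff_even.2]

lemma even_B (g : GT) : Even (g.a * g.b - g.c * g.d) := by
  rcases g.parity with ⟨g1, g2, g3, g4⟩ | ⟨g1, g2, g3, g4⟩ <;>
  simp [*, parity_simps]

lemma disc (g : GT) :
    (g.a * g.b - g.c * g.d) ^ 2 - (g.a ^ 2 - g.c ^ 2) * (g.b ^ 2 - g.d ^ 2) = 1 := by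
  linear_combination (g.a * g.d - g.b * g.c + 1) * g.det

lemma sq_sub_ne (g : GT) : (g.a : ℝ) ^ 2 - (g.c : ℝ) ^ 2 ≠ 0 := by
  have : g.a ^ 2 - g.c ^ 2 ≠ 0 := by
    intro h
    have h2 := g.odd_A
    rw [h] at h2; simp at h2
  exact_mod_cast this

lemma normSq_mob_sub (g : GT) {z : ℂ} (hz : 0 < z.im) : normSq (g.mob z) - 1 =
    (((g.a : ℝ) ^ 2 - (g.c : ℝ) ^ 2) * normSq z + 2 * ((g.a : ℝ) * g.b - g.c * g.d) * z.re +
      ((g.b : ℝ) ^ 2 - (g.d : ℝ) ^ 2)) / normSq ((g.c : ℂ) * z + g.d) := by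
  have h := (g.normSq_den_pos hz).ne'
  rw [mob, map_div₀, div_sub_one h]
  congr 1
  simp [normSq_apply]; ring

end GT

lemma exists_col {a c : ℤ} (h : Adm a c) : ∃ g : GT, g.a = a ∧ g.c = c := by
  obtain ⟨⟨u, v, huv⟩, h2⟩ := h
  by_cases hp : Odd (-v + u)
  · exact ⟨⟨a, -v, c, u, by linear_combination huv, h2, hp⟩, rfl, rfl⟩
  · refine ⟨⟨a, -v + a, c, u + c, by linear_combination huv, h2, ?_⟩, rfl, rfl⟩
    have := (Int.not_odd_iff_even.1 hp).add_odd h2
    rwa [show -v + u + (a + c) = -v + a + (u + c) by ring] at this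

lemma rep_a {a c : ℤ} (h : Adm a c) : (rep a c).a = a := by
  rw [rep, dif_pos (exists_col h)]; exact (exists_col h).choose_spec.1

lemma rep_c {a c : ℤ} (h : Adm a c) : (rep a c).c = c := by
  rw [rep, dif_pos (exists_col h)]; exact (exists_col h).choose_spec.2

end

end Pool.Agent.MP_9f080f_an

end

-- part MP_9f080f_an.GrpB
section

namespace Pool.Agent.MP_9f080f_an
open Complex MeasureTheory Set Filter Topology Metric
open scoped Real

noncomputable section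

/-! The theta group: fundamental domain and finiteness. -/

lemma fd_lin_pos {A B : ℤ} (hA : 0 < A) (h : Odd (A + B)) {w : ℂ} (hw : w ∈ FD) :
    1 < normSq ((A : ℂ) * w + B) := by
  obtain ⟨h1, h2, h3, h4, h5⟩ := hw
  have hA' : (1 : ℝ) ≤ A := by exact_mod_cast hA
  have tri : ∀ (u : ℂ) (C : ℤ), 1 < normSq u → |C| ≤ A - 1 → 1 < normSq ((A : ℂ) * u + C) := by
    intro u C hu hC
    have e1 : 1 < ‖u‖ := by
      rw [normSq_eq_norm_sq] at hu
      exact lt_of_pow_lt_pow_left₀ 2 (norm_nonneg _) (by simpa using hu)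
    have e2 : ‖(A : ℂ) * u‖ ≤ ‖(A : ℂ) * u + C‖ + ‖(C : ℂ)‖ := by
      simpa using norm_sub_le ((A : ℂ) * u + C) (C : ℂ)
    have e3 : ‖(C : ℂ)‖ ≤ A - 1 := by
      rw [Complex.norm_intCast]; exact_mod_cast hC
    rw [norm_mul, Complex.norm_intCast, abs_of_pos (by linarith)] at e2
    have e4 : 1 < ‖(A : ℂ) * u + C‖ := by nlinarith
    rw [normSq_eq_norm_sq]; nlinarith
  obtain ⟨m, hm⟩ := h
  have e : (A : ℂ) * w + B = A * (w - 2) + ((B + 2 * A : ℤ) : ℂ) := by push_cast; ring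
  by_cases c1 : 0 ≤ B
  · have hB : (0 : ℝ) ≤ B := by exact_mod_cast c1
    simp only [normSq_apply] at h4 ⊢
    simp
    have : 0 ≤ (A : ℝ) * B * w.re := by positivity
    nlinarith [sq_nonneg (B : ℝ), mul_le_mul hA' hA' zero_le_one (by linarith)]
  by_cases c2 : B + 2 * A ≤ 0
  · rw [e]
    have hB : ((B + 2 * A : ℤ) : ℝ) ≤ 0 := by exact_mod_cast c2
    generalize B + 2 * A = B' at hB
    simp only [normSq_apply] at h5 ⊢
    simp at h5 ⊢
    have : 0 ≤ (A : ℝ) * (-B') * (2 - w.re) :=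
      mul_nonneg (mul_nonneg (by linarith) (by linarith)) (by linarith)
    nlinarith [sq_nonneg (B' : ℝ), mul_le_mul hA' hA' zero_le_one (by linarith)]
  by_cases c3 : -A < B
  · exact tri w B h4 (by rw [abs_le]; omega)
  · rw [e]; exact tri _ _ h5 (by rw [abs_le]; omega)

lemma fd_lin {A B : ℤ} (hA : A ≠ 0) (h : Odd (A + B)) {w : ℂ} (hw : w ∈ FD) :
    1 < normSq ((A : ℂ) * w + B) := by
  rcases lt_or_gt_of_ne hA with h1 | h1
  · have := fd_lin_pos (A := -A) (B := -B) (by omega) (by rw [← neg_add]; exact h.neg) hw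
    rw [← normSq_neg]
    push_cast at this
    rwa [show -((A : ℂ) * w + B) = -A * w + -B by ring]
  · exact fd_lin_pos h1 h hw

lemma lin_bound {p q : ℤ} {z : ℂ} {m R B : ℝ} (hm : 0 < m) (h1 : m ≤ z.im) (h2 : ‖z‖ ≤ R)
    (h : ‖(p : ℂ) * z + q‖ ≤ B) : |(p : ℝ)| ≤ B / m ∧ |(q : ℝ)| ≤ B + B / m * R := by
  have e1 : |(p : ℝ)| ≤ B / m := by
    have := (Complex.abs_im_le_norm _).trans h
    simp [abs_mul] at this
    rw [le_div_iff₀ hm]
    have h3 : m ≤ |z.im| := h1.trans (le_abs_self _)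
    nlinarith [abs_nonneg (p : ℝ)]
  refine ⟨e1, ?_⟩
  have e2 : ‖(q : ℂ)‖ ≤ ‖(p : ℂ) * z + q‖ + ‖(p : ℂ) * z‖ := by
    simpa using norm_sub_le ((p : ℂ) * z + q) ((p : ℂ) * z)
  rw [Complex.norm_intCast, norm_mul, Complex.norm_intCast] at e2
  have := mul_le_mul e1 h2 (norm_nonneg _) ((abs_nonneg _).trans e1)
  linarith

lemma finite_int (M : ℝ) : {a : ℤ | |(a : ℝ)| ≤ M}.Finite := by
  refine (Set.finite_Icc (-⌈M⌉) ⌈M⌉).subset fun a ha => ?_
  have h := abs_le.1 (show |(a : ℝ)| ≤ M from ha)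
  have := Int.le_ceil M
  constructor
  · have : ((-⌈M⌉ : ℤ) : ℝ) ≤ a := by push_cast; linarith
    exact_mod_cast this
  · have : (a : ℝ) ≤ (⌈M⌉ : ℤ) := by linarith
    exact_mod_cast this

lemma compact_bounds {K : Set ℂ} (hK : IsCompact K) (hK' : ∀ z ∈ K, 0 < z.im) :
    ∃ m R : ℝ, 0 < m ∧ 0 < R ∧ ∀ z ∈ K, m ≤ z.im ∧ ‖z‖ ≤ R := by
  obtain ⟨R, hR0, hR⟩ := hK.isBounded.exists_pos_norm_le
  rcases K.eq_empty_or_nonempty with rfl | hne
  · exact ⟨1, 1, one_pos, one_pos, by simp⟩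
  · obtain ⟨z₀, hz₀, h⟩ := hK.exists_isMinOn hne Complex.continuous_im.continuousOn
    exact ⟨z₀.im, R, hK' _ hz₀, hR0, fun z hz => ⟨h hz, hR z hz⟩⟩

namespace GT

lemma inj4 : Function.Injective fun g : GT => (g.a, g.b, g.c, g.d) := by
  intro g h e
  simp only [Prod.mk.injEq] at e
  ext <;> tauto

instance : Countable GT := inj4.countable

lemma finite_box (M : ℝ) :
    {g : GT | |(g.a : ℝ)| ≤ M ∧ |(g.b : ℝ)| ≤ M ∧ |(g.c : ℝ)| ≤ M ∧ |(g.d : ℝ)| ≤ M}.Finite := by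
  have h := finite_int M
  exact ((h.prod (h.prod (h.prod h))).preimage inj4.injOn).subset fun g hg => hg

theorem finite_of_compact {K L : Set ℂ} (hK : IsCompact K) (hL : IsCompact L)
    (hK' : ∀ z ∈ K, 0 < z.im) (hL' : ∀ z ∈ L, 0 < z.im) :
    {g : GT | ∃ z ∈ K, g.mob z ∈ L}.Finite := by
  obtain ⟨m, R, hm, hR, h⟩ := compact_bounds (hK.union hL) (by
    rintro z (hz | hz); exacts [hK' z hz, hL' z hz])
  set B := (1 + R) * (1 + R / m) with hB
  have hB0 : 0 ≤ B := by positivity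
  refine (finite_box (B / m + (B + B / m * R))).subset ?_
  rintro g ⟨z, hz, hg⟩
  have hz0 := hK' z hz
  obtain ⟨h1, h2⟩ := h z (Or.inl hz)
  obtain ⟨h3, h4⟩ := h _ (Or.inr hg)
  have e1 : ‖(g.c : ℂ) * z + g.d‖ ≤ 1 + R / m := by
    rw [g.im_mob hz0, le_div_iff₀ (g.normSq_den_pos hz0), normSq_eq_norm_sq] at h3
    have h5 : z.im ≤ R := ((le_abs_self _).trans (Complex.abs_im_le_norm z)).trans h2
    have h6 : ‖(g.c : ℂ) * z + g.d‖ ^ 2 ≤ R / m := by rw [le_div_iff₀ hm]; linarith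
    nlinarith [norm_nonneg ((g.c : ℂ) * z + g.d), sq_nonneg (‖(g.c : ℂ) * z + g.d‖ - 1)]
  have hq : 0 ≤ R / m := by positivity
  have e2 : ‖(g.c : ℂ) * z + g.d‖ ≤ B := e1.trans (by nlinarith)
  have e3 : ‖(g.a : ℂ) * z + g.b‖ ≤ B := by
    have : (g.a : ℂ) * z + g.b = g.mob z * (g.c * z + g.d) := by
      rw [mob, div_mul_cancel₀ _ (g.den_ne hz0)]
    rw [this, norm_mul]
    exact mul_le_mul (by linarith) e1 (norm_nonneg _) (by linarith)
  obtain ⟨a1, a2⟩ := lin_bound hm h1 h2 e2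
  obtain ⟨a3, a4⟩ := lin_bound hm h1 h2 e3
  have p1 : 0 ≤ B / m := by positivity
  have p2 : 0 ≤ B + B / m * R := by positivity
  exact ⟨by linarith, by linarith, by linarith, by linarith⟩

theorem chi_of_fix {g : GT} {z : ℂ} (hz : 0 < z.im) (h : g.mob z = z) :
    g = 1 ∨ g = N ∨ g.chi = -1 := by
  rw [mob, div_eq_iff (g.den_ne hz)] at h
  have h1 := congrArg Complex.re h
  have h2 := congrArg Complex.im h
  simp at h1 h2
  have hd := g.det_real
  have e1 : (g.a : ℝ) - g.d = 2 * g.c * z.re := by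
    apply mul_right_cancel₀ hz.ne'; linarith
  rcases g.parity with ⟨g1, g2, g3, g4⟩ | ⟨-, -, g3, -⟩
  · by_cases hc : g.c = 0
    · have ha : g.a = g.d := by
        have : (g.a : ℝ) = g.d := by simp [hc] at e1; linarith
        exact_mod_cast this
      have hb : g.b = 0 := by
        have : (g.b : ℝ) = 0 := by simp [hc, ha] at h1; linarith
        exact_mod_cast this
      have hd' := g.det
      rw [hb, zero_mul, sub_zero] at hd'
      rcases Int.eq_one_or_neg_one_of_mul_eq_one' hd' with ⟨k1, k2⟩ | ⟨k1, k2⟩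
      · left; ext <;> simp [*]
      · right; left; ext <;> simp [*]
    · exfalso
      have hc' : (g.c : ℝ) ≠ 0 := by exact_mod_cast hc
      have e2 : ((g.a : ℝ) + g.d) ^ 2 = 4 - 4 * (g.c * z.im) ^ 2 := by
        have e3 : (g.b : ℝ) = -(g.c * (z.re ^ 2 + z.im ^ 2)) := by
          linear_combination h1 - z.re * e1
        linear_combination 4 * hd + 4 * g.c * e3 + (g.a - g.d + 2 * g.c * z.re) * e1
      have e4 : 0 < ((g.c : ℝ) * z.im) ^ 2 := by positivity
      have e5 : (g.a + g.d) ^ 2 < 4 := by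
        have : ((g.a : ℝ) + g.d) ^ 2 < 4 := by linarith
        exact_mod_cast this
      obtain ⟨k, hk⟩ := g1.add_odd g4
      have e6 : k = 0 := by rw [hk] at e5; nlinarith
      have e7 : g.d = -g.a := by omega
      have hd' := g.det
      obtain ⟨i, hi⟩ := g1
      obtain ⟨j, hj⟩ := g2
      obtain ⟨l, hl⟩ := g3
      rw [e7, hi, hj, hl] at hd'
      have : 4 * (-i * i - i - j * l) = 2 := by linear_combination hd'
      omega
  · right; right; simp [chi, Int.not_even_iff_odd.2 g3]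

theorem exists_fdc {z : ℂ} (hz : 0 < z.im) : ∃ g : GT, g.mob z ∈ FDc := by
  set f : ℤ × ℤ → ℝ := fun p => normSq ((p.1 : ℂ) * z + p.2) with hf
  set P : Set (ℤ × ℤ) := {p | (∃ g : GT, g.c = p.1 ∧ g.d = p.2) ∧ f p ≤ 1} with hP
  have hfin : P.Finite := by
    refine ((finite_int (1 / z.im)).prod (finite_int (1 + 1 / z.im * ‖z‖))).subset ?_
    rintro p ⟨-, hp⟩
    refine lin_bound hz le_rfl le_rfl ?_
    simp only [hf, normSq_eq_norm_sq] at hp
    exact (sq_le_one_iff₀ (norm_nonneg _)).1 hp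
  have h1 : ((0, 1) : ℤ × ℤ) ∈ P := ⟨⟨1, rfl, rfl⟩, by simp [hf]⟩
  obtain ⟨p, ⟨⟨g₀, hc, hd⟩, hp1⟩, hmin⟩ := Set.exists_min_image P f hfin ⟨_, h1⟩
  have hmin' : ∀ g : GT, f p ≤ f (g.c, g.d) := fun g => by
    by_cases h : f (g.c, g.d) ≤ 1
    · exact hmin _ ⟨⟨g, rfl, rfl⟩, h⟩
    · linarith
  set j : ℤ := -⌊(g₀.mob z).re / 2⌋
  set g := T j * g₀ with hg
  have hw : g.mob z = g₀.mob z + 2 * j := by rw [hg, mob_mul _ _ hz, mob_T]
  have hfg : f p = normSq ((g.c : ℂ) * z + g.d) := by simp [hf, hg, hc, hd]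
  have key : ∀ h : GT, 1 ≤ normSq ((h.c : ℂ) * g.mob z + h.d) := fun h => by
    have := hmin' (h * g)
    rw [hfg] at this
    simp only [hf] at this
    rw [den_mul h g hz, map_mul] at this
    exact (le_mul_iff_one_le_left (g.normSq_den_pos hz)).1 this
  have f1 := Int.floor_le ((g₀.mob z).re / 2)
  have f2 := Int.lt_floor_add_one ((g₀.mob z).re / 2)
  refine ⟨g, g.im_mob_pos hz, ?_, ?_, by simpa using key S, ?_⟩
  · rw [hw]; simp [j]; linarith
  · rw [hw]; simp [j]; linarith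
  · simpa [sub_eq_add_neg] using key (S * T (-1))

theorem fd_unique {g : GT} {w : ℂ} (hw : w ∈ FD) (hg : g.mob w ∈ FD) : g = 1 ∨ g = N := by
  by_cases hc : g.c = 0
  · have : ∀ j : ℤ, w + 2 * j ∈ FD → j = 0 := by
      intro j hj
      have h1 := hj.2.1; have h2 := hj.2.2.1; have h3 := hw.2.1; have h4 := hw.2.2.1
      simp at h1 h2
      have e1 : (-1 : ℝ) < j := by linarith
      have e2 : (j : ℝ) < 1 := by linarith
      have e3 : -1 < j := by exact_mod_cast e1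
      have e4 : j < 1 := by exact_mod_cast e2
      omega
    rcases eq_of_c_zero hc with ⟨j, rfl⟩ | ⟨j, rfl⟩
    · left; rw [this j (by simpa using hg), T_zero]
    · right; rw [this j (by simpa [mob_N_mul] using hg), T_zero, mul_one]
  · exfalso
    have p1 : Odd (g.c + g.d) := by
      rcases g.parity with ⟨g1, g2, g3, g4⟩ | ⟨g1, g2, g3, g4⟩ <;>
      simp [*, parity_simps, Int.not_odd_iff_even.2, Int.not_even_iff_odd.2]
    have h1 := fd_lin hc p1 hw
    have h2 := fd_lin (A := (g⁻¹).c) (B := (g⁻¹).d) (by simpa using hc)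
      (by simpa [add_comm, ← sub_eq_add_neg, Int.odd_sub, Int.odd_add] using g.p1) hg
    have h3 := congrArg normSq (den_mul g⁻¹ g hw.1)
    rw [map_mul, inv_mul_cancel] at h3
    simp only [one_c, one_d, Int.cast_zero, zero_mul, Int.cast_one, zero_add, map_one] at h3
    nlinarith

lemma A_mul (g : GT) {z : ℂ} (hz : 0 < z.im) :
    ((g.a : ℝ) ^ 2 - (g.c : ℝ) ^ 2) * (normSq (g.mob z) - 1) * normSq ((g.c : ℂ) * z + g.d) =
      normSq (((g.a ^ 2 - g.c ^ 2 : ℤ) : ℂ) * z + ((g.a * g.b - g.c * g.d : ℤ) : ℂ)) - 1 := by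
  rw [g.normSq_mob_sub hz, mul_assoc, div_mul_cancel₀ _ (g.normSq_den_pos hz).ne']
  have hd : ((g.a : ℝ) * g.b - g.c * g.d) ^ 2 - (g.a ^ 2 - g.c ^ 2) * (g.b ^ 2 - g.d ^ 2) = 1 := by
    exact_mod_cast g.disc
  generalize hA : g.a ^ 2 - g.c ^ 2 = A
  generalize hB : g.a * g.b - g.c * g.d = B
  have hA' : (g.a : ℝ) ^ 2 - (g.c : ℝ) ^ 2 = A := by exact_mod_cast hA
  have hB' : (g.a : ℝ) * g.b - g.c * g.d = B := by exact_mod_cast hB
  rw [hA', hB'] at hd ⊢
  simp [normSq_apply]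
  linear_combination -hd

lemma sg_eq_of_mul_pos {r s : ℝ} (h : 0 < r * s) : sg r = sg s := by
  rcases pos_and_pos_or_neg_and_neg_of_mul_pos h with ⟨h1, h2⟩ | ⟨h1, h2⟩
  · rw [sg_pos h1, sg_pos h2]
  · rw [sg_neg h1, sg_neg h2]

lemma sg_eq_of_lt (g : GT) {z : ℂ} (hz : 0 < z.im)
    (h : 1 < normSq (((g.a ^ 2 - g.c ^ 2 : ℤ) : ℂ) * z + ((g.a * g.b - g.c * g.d : ℤ) : ℂ))) :
    sg ((g.a : ℝ) ^ 2 - (g.c : ℝ) ^ 2) = sg (normSq (g.mob z) - 1) := by
  apply sg_eq_of_mul_pos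
  have := g.A_mul hz
  exact (pos_iff_pos_of_mul_pos (this ▸ sub_pos.2 h)).2 (g.normSq_den_pos hz)

end GT

end

end Pool.Agent.MP_9f080f_an

end

-- part MP_9f080f_an.Grp
section

namespace Pool.Agent.MP_9f080f_an
open Complex MeasureTheory Set Filter Topology Metric
open scoped Real

noncomputable section

/-! The theta group: signs, tiles, unfolding (see also `GrpA`, `GrpB`). -/

namespace GT

theorem sg_fd (g : GT) {w : ℂ} (hw : w ∈ FD) :
    sg (normSq (g.mob w) - 1) = sg ((g.a : ℝ) ^ 2 - (g.c : ℝ) ^ 2) := by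
  refine (g.sg_eq_of_lt hw.1 (fd_lin ?_ (g.odd_A.add_even g.even_B) hw)).symm
  intro h
  have := g.odd_A
  rw [h] at this; simp at this

lemma cls {g : GT} (h : g.a * g.b - g.c * g.d = 0) : g = 1 ∨ g = N ∨ g = S ∨ g = N * S := by
  have h1 := g.disc
  have hd := g.det
  rw [h] at h1
  have h2 : (g.a ^ 2 - g.c ^ 2) * (g.d ^ 2 - g.b ^ 2) = 1 := by linear_combination h1
  have key : ∀ u v : ℤ, u ^ 2 - v ^ 2 = 1 → v = 0 ∧ (u = 1 ∨ u = -1) := by
    intro u v huv
    have : (u - v) * (u + v) = 1 := by linear_combination huv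
    rcases Int.eq_one_or_neg_one_of_mul_eq_one' this with k | k <;> omega
  rcases Int.eq_one_or_neg_one_of_mul_eq_one' h2 with ⟨k1, k2⟩ | ⟨k1, k2⟩
  · obtain ⟨hc, ha⟩ := key _ _ k1
    obtain ⟨hb, -⟩ := key _ _ k2
    rw [hb, zero_mul, sub_zero] at hd
    rcases ha with ha | ha <;> rw [ha] at hd
    · left; ext <;> simp [ha, hb, hc]; omega
    · right; left; ext <;> simp [ha, hb, hc]; omega
  · obtain ⟨ha, hc⟩ := key g.c g.a (by linarith)
    obtain ⟨hd', -⟩ := key g.b g.d (by linarith)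
    rw [ha, zero_mul] at hd
    rcases hc with hc | hc <;> rw [hc] at hd
    · right; right; left; ext <;> simp [ha, hd', hc]; omega
    · right; right; right; ext <;> simp [ha, hd', hc]; omega

theorem on_circle {g : GT} {w : ℂ} (hw : 0 < w.im) (h1 : normSq w = 1)
    (h2 : normSq (g.mob w) = 1) : g = 1 ∨ g = N ∨ g = S ∨ g = N * S := by
  apply cls
  by_contra hB
  have e := g.normSq_mob_sub hw
  rw [h2, sub_self, h1, eq_comm, div_eq_zero_iff] at e
  replace e := e.resolve_right (g.normSq_den_pos hw).ne'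
  have hre : w.re ^ 2 < 1 := by
    rw [normSq_apply] at h1; nlinarith
  have hd := g.disc
  obtain ⟨i, hi⟩ := g.odd_A
  obtain ⟨j, hj⟩ := g.odd_D
  obtain ⟨k, hk⟩ := g.even_B
  have hi' : (g.a : ℝ) ^ 2 - (g.c : ℝ) ^ 2 = 2 * i + 1 := by exact_mod_cast hi
  have hj' : (g.b : ℝ) ^ 2 - (g.d : ℝ) ^ 2 = 2 * j + 1 := by exact_mod_cast hj
  have hk' : (g.a : ℝ) * g.b - g.c * g.d = k + k := by exact_mod_cast hk
  rw [hi', hj', hk'] at e
  rw [hi, hj, hk] at hd
  have hk0 : k ≠ 0 := by rintro rfl; exact hB (by simpa using hk)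
  have hk1 : (0 : ℝ) < (k : ℝ) ^ 2 := by positivity
  have e1 : ((i : ℝ) + j + 1) ^ 2 < (2 * k) ^ 2 := by
    have : (i : ℝ) + j + 1 = -(2 * k) * w.re := by linarith
    rw [this]; nlinarith
  have e2 : (i + j + 1) ^ 2 < (2 * k) ^ 2 := by exact_mod_cast e1
  have e3 : (i + j + 1) ^ 2 = (2 * k) ^ 2 - 1 + (i - j) ^ 2 := by linear_combination -hd
  have e4 : (i - j) ^ 2 = 0 := by nlinarith [sq_nonneg (i - j)]
  have e5 : (2 * k - (i + j + 1)) * (2 * k + (i + j + 1)) = 1 := by linear_combination -e3 - e4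
  rcases Int.eq_one_or_neg_one_of_mul_eq_one' e5 with k | k <;> omega

theorem sg_col (g : GT) (h : sg ((g.a : ℝ) ^ 2 - (g.c : ℝ) ^ 2) ≠ sg ((g.b : ℝ) ^ 2 - (g.d : ℝ) ^ 2)) :
    g = 1 ∨ g = N ∨ g = S ∨ g = N * S := by
  apply cls
  by_contra hB
  apply h
  apply sg_eq_of_mul_pos
  have hd := g.disc
  obtain ⟨k, hk⟩ := g.even_B
  have hk0 : k ≠ 0 := by rintro rfl; exact hB (by simpa using hk)
  have : 0 < (g.a ^ 2 - g.c ^ 2) * (g.b ^ 2 - g.d ^ 2) := by
    rw [hk] at hd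
    have : 0 < k ^ 2 := by positivity
    nlinarith
  exact_mod_cast this

/-- if the signs differ, `z` lies in the closed disc bounded by the geodesic `g⁻¹ (semicircle)` -/
theorem sg_ne_bound {g : GT} {z : ℂ} (hz : 0 < z.im)
    (h : sg ((g.a : ℝ) ^ 2 - (g.c : ℝ) ^ 2) ≠ sg (normSq (g.mob z) - 1)) :
    |(g.a : ℝ) ^ 2 - (g.c : ℝ) ^ 2| * z.im ≤ 1 ∧
      |((g.a : ℝ) ^ 2 - (g.c : ℝ) ^ 2) * z.re + ((g.a : ℝ) * g.b - g.c * g.d)| ≤ 1 := by
  have h1 := not_lt.1 (mt (g.sg_eq_of_lt hz) h)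
  rw [normSq_eq_norm_sq, sq_le_one_iff₀ (norm_nonneg _)] at h1
  have h2 := (Complex.abs_im_le_norm _).trans h1
  have h3 := (Complex.abs_re_le_norm _).trans h1
  simp only [add_im, mul_im, intCast_re, intCast_im, zero_mul, add_zero, add_re, mul_re,
    sub_zero] at h2 h3
  push_cast at h2 h3
  rw [abs_mul, abs_of_pos hz] at h2
  exact ⟨h2, h3⟩

lemma abs_le_A (g : GT) : |g.a| ≤ |g.a ^ 2 - g.c ^ 2| ∧ |g.c| ≤ |g.a ^ 2 - g.c ^ 2| := by
  have h := g.p1
  have e : g.a ^ 2 - g.c ^ 2 = (g.a - g.c) * (g.a + g.c) := by ring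
  have h1 : 1 ≤ |g.a + g.c| := Int.one_le_abs (by obtain ⟨m, hm⟩ := h; omega)
  have h2 : 1 ≤ |g.a - g.c| := Int.one_le_abs (by obtain ⟨m, hm⟩ := h; omega)
  rw [e, abs_mul]
  have h3 : |g.a - g.c| ≤ |g.a - g.c| * |g.a + g.c| := le_mul_of_one_le_right (abs_nonneg _) h1
  have h4 : |g.a + g.c| ≤ |g.a - g.c| * |g.a + g.c| := le_mul_of_one_le_left (abs_nonneg _) h2
  generalize |g.a - g.c| * |g.a + g.c| = M at *
  rw [abs_le] at h3 h4
  constructor <;> rw [abs_le] <;> omega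

theorem coc_finite {K : Set ℂ} (hK : IsCompact K) (hK' : ∀ z ∈ K, 0 < z.im) :
    {g : GT | ∃ z ∈ K, sg ((g.a : ℝ) ^ 2 - (g.c : ℝ) ^ 2) ≠ sg (normSq (g.mob z) - 1)}.Finite := by
  obtain ⟨m, R, hm, hR, h⟩ := compact_bounds hK hK'
  set M := 1 / m with hM
  have hM0 : 0 < M := by positivity
  refine (finite_box (M + M * (1 + M * R))).subset ?_
  rintro g ⟨z, hz, hg⟩
  obtain ⟨h1, h2⟩ := sg_ne_bound (hK' z hz) hg
  obtain ⟨h3, h4⟩ := h z hz
  have hA1 : (1 : ℝ) ≤ |(g.a : ℝ) ^ 2 - (g.c : ℝ) ^ 2| := by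
    have : 1 ≤ |g.a ^ 2 - g.c ^ 2| := Int.one_le_abs (by obtain ⟨m, hm⟩ := g.odd_A; omega)
    exact_mod_cast this
  have ha : |(g.a : ℝ)| ≤ |(g.a : ℝ) ^ 2 - (g.c : ℝ) ^ 2| := by exact_mod_cast g.abs_le_A.1
  have hc : |(g.c : ℝ)| ≤ |(g.a : ℝ) ^ 2 - (g.c : ℝ) ^ 2| := by exact_mod_cast g.abs_le_A.2
  have hd := g.det_real
  have eb : (g.b : ℝ) * ((g.a : ℝ) ^ 2 - (g.c : ℝ) ^ 2) = g.a * (g.a * g.b - g.c * g.d) + g.c := by
    linear_combination g.c * hd
  have ed : (g.d : ℝ) * ((g.a : ℝ) ^ 2 - (g.c : ℝ) ^ 2) = g.c * (g.a * g.b - g.c * g.d) + g.a := by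
    linear_combination g.a * hd
  generalize (g.a : ℝ) ^ 2 - (g.c : ℝ) ^ 2 = A at *
  generalize (g.a : ℝ) * g.b - g.c * g.d = B at *
  have hA : |A| ≤ M := by rw [hM, le_div_iff₀ hm]; nlinarith [abs_nonneg A]
  have hre : |z.re| ≤ R := (Complex.abs_re_le_norm z).trans h4
  have hB : |B| ≤ 1 + M * R := by
    have e1 : |B| ≤ |A * z.re + B| + |A * z.re| := by
      simpa using abs_sub (A * z.re + B) (A * z.re)
    rw [abs_mul] at e1
    have := mul_le_mul hA hre (abs_nonneg _) hM0.le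
    linarith
  have fin : ∀ u p q : ℝ, u * A = p * B + q → |p| ≤ |A| → |q| ≤ |A| → |u| ≤ M + M * (1 + M * R) := by
    intro u p q e hp hq
    have e1 : |u| * |A| ≤ |p| * |B| + |q| := by
      rw [← abs_mul, ← abs_mul, e]; exact abs_add_le _ _
    have e2 := mul_le_mul (hp.trans hA) hB (abs_nonneg _) hM0.le
    nlinarith [abs_nonneg u]
  have hp : 0 ≤ M * (1 + M * R) := by positivity
  exact ⟨by linarith, fin _ _ _ eb ha hc, by linarith, fin _ _ _ ed hc ha⟩

end GT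

lemma good_of_fd {w : ℂ} (hw : w ∈ FD) : Good w := by
  intro g hg
  have h := g.sg_fd hw
  rw [hg, sub_self, sg_zero] at h
  rcases lt_or_gt_of_ne g.sq_sub_ne with h1 | h1
  · rw [sg_neg h1] at h; simp at h
  · rw [sg_pos h1] at h; simp at h

lemma good_mob {τ : ℂ} (hτ : 0 < τ.im) (g : GT) : Good (g.mob τ) ↔ Good τ := by
  constructor
  · intro h k
    have := h (k * g⁻¹)
    rwa [← GT.mob_mul _ _ hτ, inv_mul_cancel_right] at this
  · intro h k
    rw [← GT.mob_mul _ _ hτ]; exact h _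

/-- low points of the closed fundamental domain are high in the frame of the cusp `1` -/
lemma fdc_zw_im {w : ℂ} (hw : w ∈ FDc) : 1 / (2 * w.im) ≤ (zw w).im := by
  obtain ⟨h1, h2, h3, h4, h5⟩ := hw
  rw [im_zw, div_le_div_iff₀ (by positivity) (normSq_pos.2 (one_sub_ne h1))]
  simp only [normSq_apply] at h4 h5 ⊢
  simp at h5 ⊢
  rcases le_total w.re 1 with h | h <;> nlinarith

lemma fd_zw_re {w : ℂ} (hw : w ∈ FD) : |(zw w).re| < 1 / 2 := by
  obtain ⟨h1, h2, h3, h4, h5⟩ := hw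
  have hp := normSq_pos.2 (one_sub_ne h1)
  have e : (zw w).re = (1 - w.re) / normSq (1 - w) := by simp [zw, Complex.inv_re]
  rw [e, abs_lt, lt_div_iff₀ hp, div_lt_iff₀ hp]
  simp only [normSq_apply] at h4 h5 ⊢
  simp at h5 ⊢
  constructor <;> nlinarith

lemma wz_mem_fd {z : ℂ} (h1 : 1 ≤ z.im) (h2 : |z.re| < 1 / 2) : wz z ∈ FD := by
  have hz : 0 < z.im := by linarith
  have h0 := ne_of_im hz
  have hp := normSq_pos.2 h0
  have hn : 1 ≤ normSq z := by rw [normSq_apply]; nlinarith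
  obtain ⟨h3, h4⟩ := abs_lt.1 h2
  have e : (wz z).re = 1 - z.re / normSq z := by simp [wz, Complex.inv_re]
  have e1 := normSq_wz_sub h0
  have e2 : normSq (wz z - 2) = normSq (z + 1) / normSq z := by
    rw [← map_div₀, ← normSq_neg]; congr 1; rw [wz]; field_simp; ring
  refine ⟨im_wz_pos hz, ?_, ?_, ?_, ?_⟩
  · rw [e, sub_pos, div_lt_one hp]; linarith
  · have : -1 < z.re / normSq z := by rw [lt_div_iff₀ hp]; linarith
    rw [e]; linarith
  · have : 0 < (1 - 2 * z.re) / normSq z := div_pos (by linarith) hp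
    linarith
  · rw [e2, one_lt_div hp]; simp [normSq_add]; linarith

lemma finite_quad {p q r : ℝ} (h : p ≠ 0 ∨ q ≠ 0) : {t : ℝ | p * t ^ 2 + q * t + r = 0}.Finite := by
  have hP : (Polynomial.C p * Polynomial.X ^ 2 + Polynomial.C q * Polynomial.X + Polynomial.C r
      : Polynomial ℝ) ≠ 0 := by
    intro h0
    have h2 := congrArg (Polynomial.coeff · 2) h0
    have h1 := congrArg (Polynomial.coeff · 1) h0
    simp [Polynomial.coeff_C] at h1 h2
    tauto
  refine (Polynomial.finite_setOfPred_isRoot hP).subset fun t ht => ?_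
  simpa using ht

/-- almost every point of a horizontal line lies in the interior of a tile -/
theorem ae_tile {y : ℝ} (hy : 0 < y) : ∀ᵐ t : ℝ, Good (t + y * I) ∧
    ∃ g₀ : GT, ∀ g : GT, g.mob (t + y * I) ∈ FD ↔ g = g₀ ∨ g = GT.N * g₀ := by
  have him : ∀ t : ℝ, 0 < ((t : ℂ) + y * I).im := fun t => by simpa using hy
  have h1 : ∀ g : GT, ∀ᵐ t : ℝ, normSq (g.mob (t + y * I)) ≠ 1 := fun g => by
    refine (Set.Finite.measure_zero ?_ volume)
    refine (finite_quad (p := (g.a : ℝ) ^ 2 - (g.c : ℝ) ^ 2) (q := 2 * ((g.a : ℝ) * g.b - g.c * g.d))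
      (r := ((g.a : ℝ) ^ 2 - (g.c : ℝ) ^ 2) * y ^ 2 + ((g.b : ℝ) ^ 2 - (g.d : ℝ) ^ 2))
      (Or.inl g.sq_sub_ne)).subset fun t ht => ?_
    have e := g.normSq_mob_sub (him t)
    simp only [mem_compl_iff, mem_ofPred_eq, not_not] at ht
    rw [ht, sub_self, eq_comm, div_eq_zero_iff] at e
    replace e := e.resolve_right (g.normSq_den_pos (him t)).ne'
    simp [normSq_apply] at e
    simp only [mem_ofPred_eq]
    linear_combination e
  have h2 : ∀ g : GT, ∀ᵐ t : ℝ, (g.mob (t + y * I)).re ≠ 0 := fun g => by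
    refine (Set.Finite.measure_zero ?_ volume)
    refine (finite_quad (p := (g.a : ℝ) * g.c) (q := (g.a : ℝ) * g.d + g.b * g.c)
      (r := (g.a : ℝ) * g.c * y ^ 2 + g.b * g.d) ?_).subset fun t ht => ?_
    · by_contra hh
      push Not at hh
      have hd := g.det_real
      have h3 := hh.2
      rcases mul_eq_zero.1 hh.1 with h | h <;> rw [h] at h3 hd <;> linarith
    · simp only [mem_compl_iff, mem_ofPred_eq, not_not] at ht
      rw [GT.mob, Complex.div_re, ← add_div, div_eq_zero_iff] at ht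
      replace ht := ht.resolve_right (g.normSq_den_pos (him t)).ne'
      simp at ht
      simp only [mem_ofPred_eq]
      linear_combination ht
  filter_upwards [ae_all_iff.2 h1, ae_all_iff.2 h2] with t k1 k2
  refine ⟨k1, ?_⟩
  obtain ⟨g₀, f1, f2, f3, f4, f5⟩ := GT.exists_fdc (him t)
  have e : (GT.T (-1) * g₀).mob (t + y * I) = g₀.mob (t + y * I) - 2 := by
    rw [GT.mob_mul _ _ (him t), GT.mob_T]; push_cast; ring
  have hfd : g₀.mob (t + y * I) ∈ FD := by
    refine ⟨f1, lt_of_le_of_ne f2 (k2 g₀).symm, lt_of_le_of_ne f3 ?_,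
      lt_of_le_of_ne f4 (k1 g₀).symm, lt_of_le_of_ne f5 ?_⟩
    · intro h; apply k2 (GT.T (-1) * g₀); rw [e]; simp [h]
    · rw [← e]; exact (k1 _).symm
  refine ⟨g₀, fun g => ⟨fun hg => ?_, ?_⟩⟩
  · have := GT.fd_unique (g := g * g₀⁻¹) hfd
      (by rwa [← GT.mob_mul _ _ (him t), inv_mul_cancel_right])
    rcases this with h | h
    · left; exact mul_inv_eq_one.1 h
    · right; rw [← h, inv_mul_cancel_right]
  · rintro (rfl | rfl)
    · exact hfd
    · rwa [GT.mob_N_mul]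

theorem good_neBot {τ : ℂ} (hτ : 0 < τ.im) : (𝓝[{z | Good z}] τ).NeBot := by
  rw [← mem_closure_iff_nhdsWithin_neBot]
  have hd : Dense {t : ℝ | Good (t + τ.im * I)} :=
    Measure.dense_of_ae (μ := volume) ((ae_tile hτ).mono fun t ht => ht.1)
  have hc : Continuous fun t : ℝ => (t : ℂ) + τ.im * I := by fun_prop
  have := map_mem_closure hc (hd τ.re) (t := {z | Good z}) fun t ht => ht
  simpa using this

/-- integrals over the line depend only on the first column -/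
lemma integral_col {T : GT → ℝ → ℂ} (hT : ∀ g (j : ℤ) t, T (g * GT.T j) t = T g (t + 2 * j))
    {g h : GT} (ha : g.a = h.a) (hc : g.c = h.c) : ∫ t, T g t = ∫ t, T h t := by
  obtain ⟨j, rfl⟩ := GT.col_eq ha hc
  simp only [hT]
  exact integral_add_right_eq_self (T h) _

/-- unfolding -/
theorem unfold2 {T : GT → ℝ → ℂ} (hT : ∀ g (j : ℤ) t, T (g * GT.T j) t = T g (t + 2 * j))
    (hN : ∀ g t, T (GT.N * g) t = T g t) (V : Finset (ℤ × ℤ)) (hA : ∀ p ∈ V, Adm p.1 p.2)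
    (hV : ∀ g t, T g t ≠ 0 → (g.a, g.c) ∈ V ∨ (-g.a, -g.c) ∈ V) (hV' : ∀ p ∈ V, -p ∉ V)
    (hR : ∀ g, ∃ R : ℝ, ∀ t, R < |t| → T g t = 0)
    (hi : ∀ p ∈ V, Integrable (T (rep p.1 p.2))) :
    IntervalIntegrable (fun t => ∑' g, T g t) volume 0 2 ∧
      ∫ t in (0 : ℝ)..2, ∑' g, T g t = 2 * ∑ p ∈ V, ∫ t, T (rep p.1 p.2) t := by
  classical
  choose R hR using hR
  obtain ⟨M, hM⟩ : ∃ M : ℕ, ∀ p ∈ V, R (rep p.1 p.2) + 4 < 2 * M := by
    obtain ⟨B, hB⟩ := (V.image fun p => R (rep p.1 p.2)).bddAbove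
    obtain ⟨M, hM⟩ := exists_nat_gt (|B| + 4)
    refine ⟨M, fun p hp => ?_⟩
    have := hB (Finset.mem_coe.2 (Finset.mem_image_of_mem _ hp))
    have h2 := le_abs_self B
    have h3 := abs_nonneg B
    linarith
  set φ : (ℤ × ℤ) × ℕ → GT := fun q => rep q.1.1 q.1.2 * GT.T (q.2 - M) with hφ
  have hφa : ∀ q : (ℤ × ℤ) × ℕ, q.1 ∈ V → ((φ q).a, (φ q).c) = q.1 := fun q hq => by
    simp [hφ, rep_a (hA _ hq), rep_c (hA _ hq)]
  have hinj : InjOn φ (V ×ˢ Finset.range (2 * M) : Finset _) := by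
    intro q hq q' hq' e
    have h1 := (Finset.mem_product.1 hq).1
    have h2 := (Finset.mem_product.1 hq').1
    have e1 : q.1 = q'.1 := by rw [← hφa q h1, ← hφa q' h2, e]
    simp only [hφ, e1, mul_right_inj] at e
    have := congrArg GT.b e
    simp at this
    exact Prod.ext e1 this
  have key : ∀ t ∈ uIcc (0 : ℝ) 2, ∑' g, T g t =
      2 * ∑ p ∈ V, ∑ i ∈ Finset.range (2 * M), T (rep p.1 p.2) (t + 2 * (i - M)) := by
    intro t ht
    rw [uIcc_of_le zero_le_two] at ht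
    set f : GT → ℂ := fun g => if (g.a, g.c) ∈ V then T g t else 0 with hf
    have h1 : HasSum f (∑ g ∈ (V ×ˢ Finset.range (2 * M)).image φ, f g) := by
      apply hasSum_sum_of_ne_finset_zero
      intro g hg
      by_contra h0
      apply hg
      have hv : (g.a, g.c) ∈ V := by
        by_contra hv; exact h0 (if_neg hv)
      rw [hf] at h0
      simp only [if_pos hv] at h0
      obtain ⟨j, hj⟩ := GT.col_eq (rep_a (hA _ hv)).symm (rep_c (hA _ hv)).symm
      rw [hj, hT] at h0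
      have h2 := abs_le.1 (not_lt.1 (mt (hR _ _) h0))
      have h3 := hM _ hv
      simp only at h2 h3
      have e1 : (0 : ℝ) ≤ j + M := by linarith [ht.2]
      have e2 : (j : ℝ) + M < 2 * M := by linarith [ht.1]
      have e3 : 0 ≤ j + M := by exact_mod_cast e1
      have e4 : j + M < 2 * M := by exact_mod_cast e2
      refine Finset.mem_image.2 ⟨((g.a, g.c), (j + M).toNat),
        Finset.mem_product.2 ⟨hv, Finset.mem_range.2 (by simp only; omega)⟩, ?_⟩
      simp only [hφ]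
      rw [show (((j + M).toNat : ℕ) : ℤ) - M = j by omega]
      exact hj.symm
    have h2 : ∑ g ∈ (V ×ˢ Finset.range (2 * M)).image φ, f g =
        ∑ p ∈ V, ∑ i ∈ Finset.range (2 * M), T (rep p.1 p.2) (t + 2 * (i - M)) := by
      rw [Finset.sum_image hinj, Finset.sum_product]
      refine Finset.sum_congr rfl fun p hp => Finset.sum_congr rfl fun i _ => ?_
      simp only [hf, hφa (p, i) hp, if_pos hp]
      simp only [hφ, hT]; push_cast; rfl
    rw [h2] at h1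
    have h3 := (Equiv.mulLeft GT.N).hasSum_iff.2 h1
    have h4 := h1.add h3
    rw [← two_mul] at h4
    rw [← h4.tsum_eq]
    refine tsum_congr fun g => ?_
    simp only [hf, Function.comp, Equiv.coe_mulLeft, hN]
    have e : ((GT.N * g).a, (GT.N * g).c) = -(g.a, g.c) := by simp
    rw [e]
    by_cases hv : (g.a, g.c) ∈ V
    · rw [if_pos hv, if_neg (hV' _ hv), add_zero]
    · rw [if_neg hv, zero_add]
      split_ifs with hv'
      · rfl
      · by_contra h0
        exact hv' ((hV g t h0).resolve_left hv)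
  have hint : ∀ p ∈ V, ∀ c : ℝ,
      IntervalIntegrable (fun t => T (rep p.1 p.2) (t + c)) volume 0 2 :=
    fun p hp c => ((hi p hp).comp_add_right c).intervalIntegrable
  have hint2 : ∀ p ∈ V, IntervalIntegrable
      (fun t => ∑ i ∈ Finset.range (2 * M), T (rep p.1 p.2) (t + 2 * (i - M))) volume 0 2 :=
    fun p hp => by
      have := IntervalIntegrable.sum (Finset.range (2 * M))
        (f := fun i t => T (rep p.1 p.2) (t + 2 * (i - M))) fun i _ => hint p hp _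
      rwa [Finset.sum_fn] at this
  constructor
  · have := (IntervalIntegrable.sum V (f := fun p t =>
      ∑ i ∈ Finset.range (2 * M), T (rep p.1 p.2) (t + 2 * (i - M))) hint2).const_mul 2
    refine (intervalIntegrable_congr fun t ht => ?_).1 this
    rw [key t (uIoc_subset_uIcc ht), Finset.sum_apply]
  · rw [intervalIntegral.integral_congr key, intervalIntegral.integral_const_mul,
      intervalIntegral.integral_finsetSum hint2]
    congr 1
    refine Finset.sum_congr rfl fun p hp => ?_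
    rw [intervalIntegral.integral_finsetSum fun i _ => hint p hp _]
    simp only [intervalIntegral.integral_comp_add_right]
    have h1 := intervalIntegral.sum_integral_adjacent_intervals (f := T (rep p.1 p.2)) (μ := volume)
      (a := fun k : ℕ => 2 * ((k : ℝ) - M)) (n := 2 * M) fun k _ => (hi p hp).intervalIntegrable
    rw [← intervalIntegral.integral_eq_integral_of_support_subset (a := 2 * (((0 : ℕ) : ℝ) - M))
      (b := 2 * (((2 * M : ℕ) : ℝ) - M)), ← h1]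
    · refine Finset.sum_congr rfl fun i _ => ?_
      congr 1 <;> push_cast <;> ring
    · intro t ht
      have h2 := abs_le.1 (not_lt.1 (mt (hR _ _) ht))
      have h3 := hM _ hp
      push_cast
      constructor <;> linarith

end

end Pool.Agent.MP_9f080f_an

end

-- part MP_9f080f_an.Theta
section

namespace Pool.Agent.MP_9f080f_an
open Complex MeasureTheory Set Filter Topology Metric
open scoped Real

noncomputable section

/-! Theta functions.  Mathlib: `jacobiTheta₂`, `jacobiTheta₂_functional_equation`,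
`jacobiTheta₂_add_right` (τ+2), `jacobiTheta₂_add_left`, `jacobiTheta₂_add_left'`, `jacobiTheta₂_conj`,
`differentiableAt_jacobiTheta₂_snd`, `hasFDerivAt_jacobiTheta₂`, `hasSum_jacobiTheta₂_term`,
`jacobiTheta_eq_jacobiTheta₂`, `norm_jacobiTheta_sub_one_le`. -/

lemma th3_diff {τ : ℂ} (h : 0 < τ.im) : DifferentiableAt ℂ th3 τ :=
  differentiableAt_jacobiTheta₂_snd 0 h
lemma th4_diff {τ : ℂ} (h : 0 < τ.im) : DifferentiableAt ℂ th4 τ :=
  differentiableAt_jacobiTheta₂_snd (1 / 2) h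

lemma theta_A_diff {τ : ℂ} (h : 0 < τ.im) :
    DifferentiableAt ℂ (fun w : ℂ => jacobiTheta₂ (w / 2) w) τ := by
  have h1 : DifferentiableAt ℂ (fun w : ℂ => ((w / 2, w) : ℂ × ℂ)) τ := by fun_prop
  exact DifferentiableAt.comp (g := fun p : ℂ × ℂ => jacobiTheta₂ p.1 p.2)
    (f := fun w : ℂ => ((w / 2, w) : ℂ × ℂ)) τ
    (hasFDerivAt_jacobiTheta₂ (τ / 2) h).differentiableAt h1

lemma th2_diff {τ : ℂ} (h : 0 < τ.im) : DifferentiableAt ℂ th2 τ := by
  have h1 : DifferentiableAt ℂ (fun w : ℂ => ep (w / 4)) τ := by fun_prop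
  exact h1.mul (theta_A_diff h)

lemma th3_T (τ : ℂ) (j : ℤ) : th3 (τ + 2 * j) = th3 τ := by
  refine tsum_congr fun n => ?_
  simp only [jacobiTheta₂_term]
  rw [Complex.exp_eq_exp_iff_exists_int]
  exact ⟨n ^ 2 * j, by push_cast; ring⟩
/-- compare the series termwise: `n² ≡ n mod 2` -/
lemma th3_add_one (τ : ℂ) : th3 (τ + 1) = th4 τ := by
  refine tsum_congr fun n => ?_
  simp only [jacobiTheta₂_term]
  rw [Complex.exp_eq_exp_iff_exists_int]
  obtain ⟨k, hk⟩ := Int.even_mul_pred_self n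
  have hk' : (n : ℂ) * (n - 1) = k + k := by exact_mod_cast hk
  exact ⟨k, by linear_combination (π * I) * hk'⟩
lemma th4_add_one (τ : ℂ) : th4 (τ + 1) = th3 τ := by
  rw [← th3_add_one, ← th3_T τ 1]
  congr 1
  push_cast; ring

lemma theta_A_add (τ : ℂ) (j : ℤ) :
    jacobiTheta₂ ((τ + j) / 2) (τ + j) = jacobiTheta₂ (τ / 2) τ := by
  refine tsum_congr fun n => ?_
  simp only [jacobiTheta₂_term]
  rw [Complex.exp_eq_exp_iff_exists_int]
  obtain ⟨k, hk⟩ := Int.even_mul_succ_self n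
  have hk' : (n : ℂ) * (n + 1) = k + k := by exact_mod_cast hk
  exact ⟨k * j, by push_cast; linear_combination (π * I * j) * hk'⟩

lemma theta_th2_add (τ : ℂ) (j : ℤ) : th2 (τ + j) = ep (j / 4) * th2 τ := by
  rw [th2, th2, theta_A_add, add_div, ep_add]; ring

lemma th2_add_one (τ : ℂ) : th2 (τ + 1) = ep (1 / 4) * th2 τ := by
  simpa using theta_th2_add τ 1
lemma th3_S {τ : ℂ} (h : 0 < τ.im) : th3 (-1 / τ) = rt τ * th3 τ := by
  have h1 := rt_ne (ne_of_im h)
  have h2 := jacobiTheta₂_functional_equation 0 τ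
  rw [th3, th3, h2, ← rt]
  simp only [zero_div, ne_eq, OfNat.ofNat_ne_zero, not_false_eq_true, zero_pow, mul_zero,
    Complex.exp_zero, mul_one]
  field_simp
lemma th4_S {τ : ℂ} (h : 0 < τ.im) : th4 (-1 / τ) = rt τ * th2 τ := by
  have h0 := ne_of_im h
  have h1 := rt_ne h0
  have h2 := jacobiTheta₂_functional_equation (τ / 2) τ
  have e1 : τ / 2 / τ = 1 / 2 := by field_simp
  have e2 : cexp (-π * I * (τ / 2) ^ 2 / τ) = (ep (τ / 4))⁻¹ := by
    rw [← ep_neg, ep]; congr 1; field_simp; norm_num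
  have h3 := ep_ne (τ / 4)
  rw [th4, th2, h2, ← rt, e1, e2]
  field_simp
lemma th2_S {τ : ℂ} (h : 0 < τ.im) : th2 (-1 / τ) = rt τ * th4 τ := by
  have h0 := ne_of_im h
  have h1 := rt_ne h0
  have h2 := jacobiTheta₂_functional_equation (1 / 2) τ
  have e1 : -1 / τ / 2 = -(1 / 2 / τ) := by field_simp
  have e2 : cexp (-π * I * (1 / 2) ^ 2 / τ) = ep (-1 / τ / 4) := by
    rw [ep]; congr 1; field_simp; norm_num
  rw [th4, th2, h2, ← rt, e1, e2, jacobiTheta₂_neg_left]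
  field_simp

lemma theta_wz (z : ℂ) : wz z = -1 / z + 1 := by rw [wz]; ring

lemma th3_wz {z : ℂ} (h : 0 < z.im) : th3 (wz z) = rt z * th2 z := by
  rw [theta_wz, th3_add_one, th4_S h]

lemma theta_exp_le {s c : ℝ} (hc : 0 < c) (h : c ≤ 1 + s + s ^ 2 / 2) (hs : 0 ≤ s) :
    Real.exp (-s) ≤ 1 / c := by
  rw [Real.exp_neg, ← one_div]
  exact one_div_le_one_div_of_le hc (h.trans (Real.quadratic_le_exp_of_nonneg hs))

lemma theta_A_bd {z : ℂ} (h : 1 / 2 ≤ z.im) :
    ‖jacobiTheta₂ (z / 2) z - 2‖ ≤ 3 * Real.exp (-π * z.im) ^ 2 ∧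
      Real.exp (-π * z.im) ^ 2 ≤ 1 / 9 := by
  have hz : 0 < z.im := by linarith
  have hpi := Real.pi_gt_three
  set r := Real.exp (-π * z.im) ^ 2 with hr
  have hq : Real.exp (-π * z.im) ≤ 1 / 3 := by
    rw [neg_mul]
    have : 3 / 2 ≤ π * z.im := by nlinarith
    exact theta_exp_le (by norm_num) (by nlinarith) (by linarith)
  have hr0 : 0 ≤ r := by positivity
  have hr1 : r ≤ 1 / 9 := by
    have := Real.exp_pos (-π * z.im)
    rw [hr]; nlinarith
  refine ⟨?_, hr1⟩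
  have h1 := (hasSum_jacobiTheta₂_term (z / 2) hz).nat_add_neg_add_one
  rw [← hasSum_nat_add_iff' 1] at h1
  have e0 : ∑ i ∈ Finset.range 1, (jacobiTheta₂_term ((i : ℕ) : ℤ) (z / 2) z +
      jacobiTheta₂_term (-(((i : ℕ) : ℤ) + 1)) (z / 2) z) = 2 := by
    simp only [Finset.sum_range_one, jacobiTheta₂_term]
    push_cast
    rw [show (2 * π * I * 0 * (z / 2) + π * I * 0 ^ 2 * z : ℂ) = 0 by ring,
      show (2 * π * I * -1 * (z / 2) + π * I * (-1) ^ 2 * z : ℂ) = 0 by ring]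
    simp; norm_num
  rw [e0] at h1
  have h2 : HasSum (fun n : ℕ => 2 * r * r ^ n) (2 * r * (1 - r)⁻¹) :=
    (hasSum_geometric_of_lt_one hr0 (by linarith)).mul_left _
  have key : ∀ (n : ℕ) (m : ℤ), (m : ℝ) ^ 2 + m = ((n : ℝ) + 1) ^ 2 + (n + 1) →
      ‖jacobiTheta₂_term m (z / 2) z‖ ≤ r * r ^ n := by
    intro n m hm
    rw [norm_jacobiTheta₂_term, ← pow_succ', hr, ← pow_mul, ← Real.exp_nat_mul, Real.exp_le_exp]
    have e : (z / 2).im = z.im / 2 := by simp
    rw [e]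
    have hn : (0 : ℝ) ≤ n := Nat.cast_nonneg n
    have : 0 ≤ π * z.im * (((n : ℝ) + 1) * n) := by positivity
    push_cast
    have e2 : -π * (m : ℝ) ^ 2 * z.im - 2 * π * m * (z.im / 2) = -π * z.im * (m ^ 2 + m) := by ring
    rw [e2, hm]
    nlinarith
  have h3 := h1.norm_le_of_bounded h2 (fun n => by
    refine (norm_add_le _ _).trans ?_
    have a1 := key n ((n + 1 : ℕ) : ℤ) (by push_cast; ring)
    have a2 := key n (-(((n + 1 : ℕ) : ℤ) + 1)) (by push_cast; ring)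
    linarith)
  refine h3.trans ?_
  rw [← div_eq_mul_inv, div_le_iff₀ (by linarith)]
  nlinarith

/-- `jacobiTheta₂ (z/2) z = ∑ e^{iπ(k²+k)z}`; the terms `k = 0, -1` give `2`, the others are bounded
by a geometric series since `k² + k ≥ 2 |k'|`. -/
lemma th2_bd {z : ℂ} (h : 1 / 2 ≤ z.im) :
    Real.exp (-π * z.im / 4) ≤ ‖th2 z‖ ∧ ‖th2 z‖ ≤ 3 * Real.exp (-π * z.im / 4) := by
  obtain ⟨h1, h2⟩ := theta_A_bd h
  have e : ‖th2 z‖ = Real.exp (-π * z.im / 4) * ‖jacobiTheta₂ (z / 2) z‖ := by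
    rw [th2, norm_mul, norm_ep]; congr 2; simp; ring
  have a1 := norm_sub_norm_le (jacobiTheta₂ (z / 2) z) 2
  have a2 := norm_sub_norm_le (2 : ℂ) (jacobiTheta₂ (z / 2) z)
  rw [norm_sub_rev] at a2
  have a3 : ‖(2 : ℂ)‖ = 2 := by simp
  have hp := Real.exp_pos (-π * z.im / 4)
  rw [e]
  constructor <;> nlinarith

lemma theta_th3_bd {z : ℂ} (h : 1 / 2 ≤ z.im) :
    ‖th3 z - 1‖ ≤ 3 * Real.exp (-π * z.im) ∧ Real.exp (-π * z.im) ≤ 2 / 7 := by
  have hz : 0 < z.im := by linarith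
  have hpi := Real.pi_gt_three
  have hq : Real.exp (-π * z.im) ≤ 2 / 7 := by
    rw [neg_mul, show (2 / 7 : ℝ) = 1 / (7 / 2) by norm_num]
    have : 3 / 2 ≤ π * z.im := by nlinarith
    exact theta_exp_le (by norm_num) (by nlinarith) (by linarith)
  refine ⟨?_, hq⟩
  have h1 := norm_jacobiTheta_sub_one_le hz
  rw [jacobiTheta_eq_jacobiTheta₂] at h1
  refine h1.trans (mul_le_mul_of_nonneg_right ?_ (Real.exp_pos _).le)
  rw [div_le_iff₀ (by linarith)]
  linarith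

lemma theta_th4_bd {z : ℂ} (h : 1 / 2 ≤ z.im) : ‖th4 z - 1‖ ≤ 3 * Real.exp (-π * z.im) := by
  have := (theta_th3_bd (z := z + 1) (by simpa using h)).1
  rw [th3_add_one] at this
  simpa using this

/-- reduce to `FDc` with `GT.exists_fdc` and `GT.induction` (vanishing of `th3` is invariant);
on `FDc` either `im ≥ 1/2` (`norm_jacobiTheta_sub_one_le`) or `(zw w).im ≥ 1/2`
(`fdc_zw_im`) and `th3_wz`, `th2_bd` apply. -/
lemma th3_ne {τ : ℂ} (h : 0 < τ.im) : th3 τ ≠ 0 := by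
  have inv : ∀ g : GT, th3 (g.mob τ) ≠ 0 → th3 τ ≠ 0 := by
    intro g
    refine GT.induction (P := fun g => th3 (g.mob τ) ≠ 0 → th3 τ ≠ 0) ?_ ?_ ?_ ?_ g
    · simp
    · intro g hg; rwa [GT.mob_N_mul]
    · intro j g hg; rwa [GT.mob_mul _ _ h, GT.mob_T, th3_T]
    · intro g hg h1
      rw [GT.mob_mul _ _ h, GT.mob_S, th3_S (g.im_mob_pos h)] at h1
      exact hg (right_ne_zero_of_mul h1)
  obtain ⟨g, hg⟩ := GT.exists_fdc h
  refine inv g ?_
  set w := g.mob τ
  have hw : 0 < w.im := hg.1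
  rcases le_or_gt (1 / 2) w.im with h1 | h1
  · obtain ⟨a1, a2⟩ := theta_th3_bd h1
    intro h0
    rw [h0] at a1
    simp only [zero_sub, norm_neg, norm_one] at a1
    linarith
  · have h2 : 1 / 2 ≤ (zw w).im := by
      refine le_trans ?_ (fdc_zw_im hg)
      exact one_div_le_one_div_of_le (by linarith) (by linarith)
    have h3 := im_zw_pos hw
    rw [← wz_zw w, th3_wz h3]
    refine mul_ne_zero (rt_ne (ne_of_im h3)) ?_
    exact norm_pos_iff.1 ((Real.exp_pos _).trans_le (th2_bd h2).1)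
lemma th2_ne {τ : ℂ} (h : 0 < τ.im) : th2 τ ≠ 0 := by
  have := th3_ne (im_wz_pos h)
  rw [th3_wz h] at this
  exact right_ne_zero_of_mul this

lemma sf_diff {τ : ℂ} (h : 0 < τ.im) : DifferentiableAt ℂ sf τ :=
  (((th4_diff h).pow 4).sub ((th2_diff h).pow 4)).div ((th3_diff h).pow 4)
    (pow_ne_zero 4 (th3_ne h))

lemma theta_inv_diff {z : ℂ} (h : 0 < z.im) : DifferentiableAt ℂ (fun w : ℂ => -1 / w) z :=
  (differentiableAt_const _).div differentiableAt_id (ne_of_im h)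

lemma sh_diff {z : ℂ} (h : 0 < z.im) : DifferentiableAt ℂ sh z := by
  have h1 : DifferentiableAt ℂ wz z :=
    (differentiableAt_const _).sub ((differentiableAt_const _).div differentiableAt_id (ne_of_im h))
  exact (sf_diff (im_wz_pos h)).comp z h1
lemma psi_diff (x : ℝ) {τ : ℂ} (h : 0 < τ.im) : DifferentiableAt ℂ (psi x) τ := by
  have key : ∀ {w : ℂ}, 0 < w.im → DifferentiableAt ℂ (fun w : ℂ => ep (x * w) / th3 w) w := by
    intro w hw
    have h1 : DifferentiableAt ℂ (fun w : ℂ => ep (x * w)) w := by fun_prop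
    exact h1.div (th3_diff hw) (th3_ne hw)
  exact (key h).add ((key (im_neg_inv_pos h)).comp τ (theta_inv_diff h))

lemma theta_ph_diff (x : ℝ) {z : ℂ} (h : 0 < z.im) : DifferentiableAt ℂ (ph x) z := by
  have h0 := ne_of_im h
  have h1 : DifferentiableAt ℂ (fun w : ℂ => -(x : ℂ) / w) z :=
    (differentiableAt_const _).div differentiableAt_id h0
  exact ((differentiable_ep _).comp z h1).div (hasDerivAt_rt h.le h0).differentiableAt (rt_ne h0)

lemma phi_diff (x : ℝ) {z : ℂ} (h : 0 < z.im) : DifferentiableAt ℂ (phi x) z := by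
  have h1 : DifferentiableAt ℂ (fun w : ℂ => w - 1) z := by fun_prop
  have h2 := (theta_ph_diff x (z := z - 1) (by simpa using h)).comp z h1
  exact ((theta_ph_diff x h).const_mul _).add (h2.const_mul _)
lemma psi_S (x : ℝ) (w : ℂ) : psi x (-1 / w) = psi x w := by
  have e : -1 / (-1 / w) = w := by simp
  rw [psi, psi, e, add_comm]

lemma theta_ep4 : ep (1 / 4) ^ 4 = -1 := by
  rw [← ep_nat_mul, ← ep_one]; norm_num

lemma theta_sf_T (τ : ℂ) (j : ℤ) : sf (τ + 2 * j) = sf τ := by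
  have h4 : th4 (τ + 2 * j) = th4 τ := by
    rw [← th3_add_one, ← th3_add_one, ← th3_T (τ + 1) j]; congr 1; ring
  have h2 : th2 (τ + 2 * j) ^ 4 = th2 τ ^ 4 := by
    have := theta_th2_add τ (2 * j)
    push_cast at this
    rw [this, mul_pow, ← ep_nat_mul, show ((4 : ℕ) : ℂ) * (2 * j / 4) = 2 * j by push_cast; ring,
      ep_two_int, one_mul]
  rw [sf, sf, h4, h2, th3_T]

lemma theta_sf_S {τ : ℂ} (h : 0 < τ.im) : sf (-1 / τ) = -sf τ := by
  have h1 := rt_ne (ne_of_im h)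
  have h2 := th3_ne h
  rw [sf, sf, th4_S h, th2_S h, th3_S h]
  field_simp
  ring

/-- `GT.induction` from `sf (τ+2j) = sf τ` and `sf (-1/τ) = - sf τ`. -/
lemma sf_mob (g : GT) {τ : ℂ} (h : 0 < τ.im) : sf (g.mob τ) = g.chi * sf τ := by
  refine GT.induction (P := fun g => sf (g.mob τ) = g.chi * sf τ) ?_ ?_ ?_ ?_ g
  · simp
  · intro g hg; rw [GT.mob_N_mul, GT.chi_mul, GT.chi_N, one_mul, hg]
  · intro j g hg; rw [GT.mob_mul _ _ h, GT.mob_T, theta_sf_T, GT.chi_mul, GT.chi_T, one_mul, hg]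
  · intro g hg
    rw [GT.mob_mul _ _ h, GT.mob_S, theta_sf_S (g.im_mob_pos h), GT.chi_mul, GT.chi_S, hg]
    ring
lemma sh_eq {z : ℂ} (h : 0 < z.im) : sh z = (th3 z ^ 4 + th4 z ^ 4) / th2 z ^ 4 := by
  have h1 := rt_ne (ne_of_im h)
  have h2 := th2_ne h
  rw [sh, sf, th3_wz h, theta_wz, th4_add_one, th2_add_one, th3_S h, th2_S h, mul_pow (ep _),
    theta_ep4]
  field_simp
  ring
lemma sh_add_one {z : ℂ} (h : 0 < z.im) : sh (z + 1) = -sh z := by
  have h2 := th2_ne h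
  rw [sh_eq (by simpa using h), sh_eq h, th3_add_one, th4_add_one, th2_add_one, mul_pow, theta_ep4]
  field_simp
  ring

lemma theta_sh_conj {z : ℂ} (h : 0 < z.im) :
    (starRingEnd ℂ) (sh z) = sh (-(starRingEnd ℂ) z) := by
  have h3 : (starRingEnd ℂ) (th3 z) = th3 (-(starRingEnd ℂ) z) := by
    rw [th3, th3, jacobiTheta₂_conj, map_zero]
  have h4 : (starRingEnd ℂ) (th4 z) = th4 (-(starRingEnd ℂ) z) := by
    rw [th4, th4, jacobiTheta₂_conj]; congr 1; simp [map_ofNat]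
  have h2 : (starRingEnd ℂ) (th2 z) = th2 (-(starRingEnd ℂ) z) := by
    rw [th2, th2, map_mul, jacobiTheta₂_conj, neg_div (2 : ℂ), jacobiTheta₂_neg_left, ep, ep,
      ← Complex.exp_conj]
    congr 2
    · simp [map_ofNat]; ring
    · simp [map_ofNat]
  rw [sh_eq h, sh_eq (by simpa using h), map_div₀, map_add, map_pow, map_pow, map_pow, h2, h3, h4]

/-- `sf (- conj τ) = conj (sf τ)` and `-1/w = - conj w` on the unit circle. -/
lemma sh_ln_re {η : ℝ} (h : 0 < η) : (sh (ln η)).re = 0 := by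
  have h1 := theta_sh_conj (z := ln η) (by simpa using h)
  have h2 := sh_add_one (z := -(starRingEnd ℂ) (ln η)) (by simpa using h)
  have e : -(starRingEnd ℂ) (ln η) + 1 = ln η := by
    apply Complex.ext <;> simp
    norm_num
  rw [e, ← h1] at h2
  have := congrArg Complex.re h2
  simp at this
  linarith

lemma theta_pow4 {a : ℂ} {ε : ℝ} (h : ‖a - 1‖ ≤ ε) (h1 : ε ≤ 1) : ‖a ^ 4 - 1‖ ≤ 15 * ε := by
  have h0 : 0 ≤ ε := (norm_nonneg _).trans h
  have ha : ‖a‖ ≤ 2 := by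
    have := norm_sub_norm_le a 1
    rw [norm_one] at this; linarith
  have hn := norm_nonneg a
  have e : a ^ 4 - 1 = (a ^ 3 + a ^ 2 + a + 1) * (a - 1) := by ring
  have b : ‖a ^ 3 + a ^ 2 + a + 1‖ ≤ 15 := by
    have b1 := norm_add_le (a ^ 3 + a ^ 2 + a) 1
    have b2 := norm_add_le (a ^ 3 + a ^ 2) a
    have b3 := norm_add_le (a ^ 3) (a ^ 2)
    rw [norm_pow, norm_pow] at b3
    rw [norm_one] at b1
    have b4 : ‖a‖ ^ 2 ≤ 2 ^ 2 := pow_le_pow_left₀ hn ha 2
    have b5 : ‖a‖ ^ 3 ≤ 2 ^ 3 := pow_le_pow_left₀ hn ha 3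
    linarith
  rw [e, norm_mul]
  exact mul_le_mul b h (norm_nonneg _) (by norm_num)

lemma top_asymp : ∃ C : ℝ, ∀ τ : ℂ, 1 ≤ τ.im →
    ‖th3 τ - 1‖ ≤ C * Real.exp (-π * τ.im) ∧ ‖sf τ - 1‖ ≤ C * Real.exp (-π * τ.im) := by
  refine ⟨3000, fun τ h => ?_⟩
  have h' : 1 / 2 ≤ τ.im := by linarith
  have hpi := Real.pi_gt_three
  obtain ⟨a3, -⟩ := theta_th3_bd h'
  have a4 := theta_th4_bd h'
  have a2 := (th2_bd h').2
  have hq : Real.exp (-π * τ.im) ≤ 1 / 6 := by
    rw [neg_mul]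
    have : 3 ≤ π * τ.im := by nlinarith
    exact theta_exp_le (by norm_num) (by nlinarith) (by linarith)
  have e4 : Real.exp (-π * τ.im / 4) ^ 4 = Real.exp (-π * τ.im) := by
    rw [← Real.exp_nat_mul]; congr 1; push_cast; ring
  have b2 : ‖th2 τ ^ 4‖ ≤ 81 * Real.exp (-π * τ.im) := by
    rw [norm_pow, ← e4]
    refine (pow_le_pow_left₀ (norm_nonneg _) a2 4).trans_eq (by ring)
  set q := Real.exp (-π * τ.im)
  have hq0 : 0 < q := Real.exp_pos _
  have b3 := theta_pow4 a3 (by linarith)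
  have b4 := theta_pow4 a4 (by linarith)
  have c3 : 1 / 2 ≤ ‖th3 τ‖ := by
    have := norm_sub_norm_le (1 : ℂ) (th3 τ)
    rw [norm_sub_rev, norm_one] at this; linarith
  have d3 : 1 / 16 ≤ ‖th3 τ ^ 4‖ := by
    rw [norm_pow]
    exact le_trans (by norm_num) (pow_le_pow_left₀ (by norm_num) c3 4)
  have h3 := th3_ne (τ := τ) (by linarith)
  refine ⟨by linarith, ?_⟩
  have e : sf τ - 1 = ((th4 τ ^ 4 - 1) - th2 τ ^ 4 - (th3 τ ^ 4 - 1)) / th3 τ ^ 4 := by
    rw [sf]; field_simp; ring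
  have f1 := norm_sub_le (th4 τ ^ 4 - 1 - th2 τ ^ 4) (th3 τ ^ 4 - 1)
  have f2 := norm_sub_le (th4 τ ^ 4 - 1) (th2 τ ^ 4)
  rw [e, norm_div, div_le_iff₀ (by linarith)]
  nlinarith

/-- the correction factor of `sh` at the cusp -/
def theta_u (z : ℂ) : ℂ := (th3 z ^ 4 + th4 z ^ 4) / 2 / (jacobiTheta₂ (z / 2) z / 2) ^ 4

lemma theta_u_bd {z : ℂ} (h : 7000 ≤ z.im) :
    jacobiTheta₂ (z / 2) z ≠ 0 ∧ ‖theta_u z - 1‖ ≤ 1 / 50 := by
  have h' : 1 / 2 ≤ z.im := by linarith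
  have hpi := Real.pi_gt_three
  obtain ⟨a3, -⟩ := theta_th3_bd h'
  have a4 := theta_th4_bd h'
  obtain ⟨a2, -⟩ := theta_A_bd h'
  have hq : Real.exp (-π * z.im) ≤ 1 / 7000 := by
    rw [neg_mul]
    have : 7000 ≤ π * z.im := by nlinarith
    exact theta_exp_le (by norm_num) (by nlinarith) (by linarith)
  set q := Real.exp (-π * z.im)
  have hq0 : 0 < q := Real.exp_pos _
  set A := jacobiTheta₂ (z / 2) z with hAe
  have a2' : ‖A / 2 - 1‖ ≤ q := by
    rw [show A / 2 - 1 = (A - 2) / 2 by ring, norm_div, show ‖(2 : ℂ)‖ = 2 by simp]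
    nlinarith
  have b3 := theta_pow4 a3 (by linarith)
  have b4 := theta_pow4 a4 (by linarith)
  have b2 := theta_pow4 a2' (by linarith)
  have c2 : 1 / 2 ≤ ‖(A / 2) ^ 4‖ := by
    have := norm_sub_norm_le (1 : ℂ) ((A / 2) ^ 4)
    rw [norm_sub_rev, norm_one] at this; linarith
  have hA : A ≠ 0 := by
    intro h0
    rw [h0] at c2
    norm_num at c2
  refine ⟨hA, ?_⟩
  have e : theta_u z - 1 =
      ((th3 z ^ 4 - 1) / 2 + (th4 z ^ 4 - 1) / 2 - ((A / 2) ^ 4 - 1)) / (A / 2) ^ 4 := by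
    rw [theta_u, ← hAe]; field_simp; ring
  have f1 := norm_sub_le ((th3 z ^ 4 - 1) / 2 + (th4 z ^ 4 - 1) / 2) ((A / 2) ^ 4 - 1)
  have f2 := norm_add_le ((th3 z ^ 4 - 1) / 2) ((th4 z ^ 4 - 1) / 2)
  rw [norm_div, norm_div, show ‖(2 : ℂ)‖ = 2 by simp] at f2
  rw [e, norm_div, div_le_iff₀ (by linarith)]
  linarith

lemma theta_lam {z : ℂ} (h : 7000 ≤ z.im) :
    DifferentiableAt ℂ (fun w => -log (theta_u w) / (π * I)) z ∧
      ‖-log (theta_u z) / (π * I)‖ ≤ 1 / 100 := by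
  obtain ⟨hA, hu⟩ := theta_u_bd h
  have hz : 0 < z.im := by linarith
  have hpi := Real.pi_gt_three
  have e : theta_u z = 1 + (theta_u z - 1) := by ring
  constructor
  · have h1 : DifferentiableAt ℂ theta_u z :=
      ((((th3_diff hz).pow 4).add ((th4_diff hz).pow 4)).div_const 2).div
        (((theta_A_diff hz).div_const 2).pow 4) (pow_ne_zero 4 (div_ne_zero hA two_ne_zero))
    have h2 : theta_u z ∈ slitPlane := by
      rw [e]; exact mem_slitPlane_of_norm_lt_one (by linarith)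
    exact (h1.clog h2).neg.div_const _
  · have h1 := Complex.norm_log_one_add_half_le_self (z := theta_u z - 1) (by linarith)
    rw [← e] at h1
    rw [norm_div, norm_neg, norm_mul, norm_I, mul_one, Complex.norm_real, Real.norm_eq_abs,
      abs_of_pos Real.pi_pos, div_le_iff₀ Real.pi_pos]
    linarith

/-- `sh z = (1/8) e^{-iπ z} (1 + ρ z)` with `ρ = O(e^{-π im z})`, `ρ (z+1) = ρ z`; put
`lam = - log (1 + ρ) / (iπ)`; the derivative bound follows from the Cauchy estimate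
(`Complex.norm_deriv_le_of_forall_mem_sphere_norm_le`, radius 1). -/
theorem sh_cusp : ∃ Y : ℝ, 2 ≤ Y ∧ ∃ lam : ℂ → ℂ, ∀ z : ℂ, Y ≤ z.im →
    DifferentiableAt ℂ lam z ∧ sh z = 1 / 8 * ep (-(z + lam z)) ∧ ‖lam z‖ ≤ 1 / 100 ∧
      ‖deriv lam z‖ ≤ 1 / 100 ∧ lam (z + 1) = lam z := by
  refine ⟨7001, by norm_num, fun w => -log (theta_u w) / (π * I), fun z h => ?_⟩
  have h' : 7000 ≤ z.im := by linarith
  have hz : 0 < z.im := by linarith
  obtain ⟨hA, hu⟩ := theta_u_bd h'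
  have hb : ∀ w ∈ closedBall z 1, 7000 ≤ w.im := by
    intro w hw
    have h1 := (Complex.abs_im_le_norm (w - z)).trans (mem_closedBall_iff_norm.1 hw)
    rw [sub_im, abs_le] at h1
    linarith
  refine ⟨(theta_lam h').1, ?_, (theta_lam h').2, ?_, ?_⟩
  · have hu0 : theta_u z ≠ 0 := by
      intro h0
      rw [h0] at hu
      norm_num at hu
    have hp : (π : ℂ) * I ≠ 0 := mul_ne_zero (ofReal_ne_zero.2 Real.pi_ne_zero) I_ne_zero
    have e1 : ep (-(-log (theta_u z) / (π * I))) = theta_u z := by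
      rw [ep, show π * I * -(-log (theta_u z) / (π * I)) = log (theta_u z) by field_simp,
        Complex.exp_log hu0]
    have e2 : ep (z / 4) ^ 4 = ep z := by
      rw [← ep_nat_mul]; congr 1; push_cast; ring
    have h3 := ep_ne z
    simp only []
    rw [neg_add, ep_add, e1, sh_eq hz, th2, mul_pow, e2, ep_neg, theta_u]
    field_simp
    ring
  · have h1 : DiffContOnCl ℂ (fun w => -log (theta_u w) / (π * I)) (ball z 1) := by
      apply DifferentiableOn.diffContOnCl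
      rw [closure_ball z one_ne_zero]
      exact fun w hw => (theta_lam (hb w hw)).1.differentiableWithinAt
    have h2 := Complex.norm_deriv_le_of_forall_mem_sphere_norm_le one_pos h1
      (fun w hw => (theta_lam (hb w (sphere_subset_closedBall hw))).2)
    simpa using h2
  · have e : theta_u (z + 1) = theta_u z := by
      have := theta_A_add z 1
      rw [Int.cast_one] at this
      rw [theta_u, theta_u, this, th3_add_one, th4_add_one, add_comm]
    simp only [e]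

lemma theta_rt_wz {z : ℂ} (h : 0 < z.im) : rt (wz z) * rt z = ep (-(1 / 4)) * rt (z - 1) := by
  have h0 := ne_of_im h
  have a1 := rt_abs_im_lt h
  have a2 := rt_abs_im_lt (im_wz_pos h)
  have a3 := rt_abs_im_lt (z := z - 1) (by simpa using h)
  have e0 : ep (-(1 / 4)) = cexp (((-(π / 4) : ℝ) : ℂ) * I) := by
    rw [ep]; congr 1; push_cast; ring
  have hre : (ep (-(1 / 4))).re = √2 / 2 := by
    rw [e0, Complex.exp_ofReal_mul_I_re, Real.cos_neg, Real.cos_pi_div_four]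
  have him : (ep (-(1 / 4))).im = -(√2 / 2) := by
    rw [e0, Complex.exp_ofReal_mul_I_im, Real.sin_neg, Real.sin_pi_div_four]
  have h2 : √2 ^ 2 = 2 := Real.sq_sqrt (by norm_num)
  have hsq : ep (-(1 / 4)) ^ 2 = -I := by
    apply Complex.ext
    · simp only [sq, mul_re, hre, him]; simp
    · simp only [sq, mul_im, hre, him]; simp; nlinarith
  apply eq_of_sq_eq
  · rw [mul_pow, mul_pow, rt_sq, rt_sq, rt_sq, hsq, wz]
    field_simp
  · rw [mul_re]
    have b1 := abs_nonneg (rt z).im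
    have b2 := abs_nonneg (rt (wz z)).im
    have b3 := le_abs_self ((rt (wz z)).im * (rt z).im)
    rw [abs_mul] at b3
    nlinarith
  · rw [mul_re, hre, him]
    have b1 := neg_abs_le (rt (z - 1)).im
    have b2 : 0 < √2 := by positivity
    nlinarith

/-- uses `rt (wz z) * rt z = ep (-1/4) * rt (z - 1)` (`eq_of_sq_eq`, `rt_abs_im_lt`). -/
lemma phi_eq (x : ℝ) {z : ℂ} (h : 0 < z.im) : th2 z * psi x (wz z) = phi x z := by
  have h0 := ne_of_im h
  have h1 : z - 1 ≠ 0 := ne_of_im (by simpa using h)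
  have r0 := rt_ne h0
  have r1 := rt_ne h1
  have h2 := th2_ne h
  have h4 := ep_ne (1 / 4)
  have e1 : x * wz z = x + -x / z := by rw [wz]; ring
  have e2 : x * (-1 / wz z) = -x + -x / (z - 1) := by
    rw [wz]; field_simp; ring
  rw [psi, th3_S (im_wz_pos h), th3_wz h, ← mul_assoc (rt (wz z)), theta_rt_wz h, e1, e2, ep_add,
    ep_add, phi, ph, ph, ep_neg (1 / 4)]
  field_simp

lemma theta_norm_ph (x : ℝ) (z : ℂ) :
    ‖ph x z‖ = Real.exp (-(π * x * z.im / normSq z)) / √‖z‖ := by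
  rw [ph, norm_div, norm_ep, norm_rt]
  congr 2
  simp [div_eq_mul_inv, Complex.inv_im]
  ring

lemma theta_norm_phi (x : ℝ) (z : ℂ) : ‖phi x z‖ ≤ ‖ph x z‖ + ‖ph x (z - 1)‖ := by
  refine (norm_add_le _ _).trans_eq ?_
  have e1 : ‖ep (1 / 4)‖ = 1 := by simp [norm_ep]
  have e2 : ‖ep (-(x : ℂ))‖ = 1 := by simp [norm_ep]
  rw [norm_mul, norm_mul, norm_mul, norm_ep_real, e1, e2]; ring

lemma theta_decay {x M s : ℝ} (hx : 0 ≤ x) (hM : 1 ≤ M) (hs : x / M ≤ s) :
    Real.exp (-s) ≤ M ^ (2 / 3 : ℝ) * (1 + x) ^ (-2 / 3 : ℝ) := by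
  have hM0 : 0 < M := by linarith
  have h0 : 0 ≤ s := (div_nonneg hx hM0.le).trans hs
  have h1 : (1 + x) / M ≤ 1 + s := by
    have : 1 / M ≤ 1 := (div_le_one hM0).2 hM
    rw [add_div]; linarith
  have h2 : 0 < (1 + x) / M := by positivity
  calc Real.exp (-s) ≤ (1 + s) ^ (-1 : ℝ) := by
        rw [Real.rpow_neg_one, Real.exp_neg]
        exact inv_anti₀ (by linarith) (by linarith [Real.add_one_le_exp s])
    _ ≤ (1 + s) ^ (-2 / 3 : ℝ) :=
        Real.rpow_le_rpow_of_exponent_le (by linarith) (by norm_num)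
    _ ≤ ((1 + x) / M) ^ (-2 / 3 : ℝ) := Real.rpow_le_rpow_of_nonpos h2 h1 (by norm_num)
    _ = M ^ (2 / 3 : ℝ) * (1 + x) ^ (-2 / 3 : ℝ) := by
        rw [Real.div_rpow (by linarith) hM0.le, show (-2 / 3 : ℝ) = -(2 / 3) by ring,
          Real.rpow_neg hM0.le]
        field_simp

lemma theta_ph_up {x : ℝ} (hx : 0 ≤ x) {z : ℂ} (h : 1 / 2 ≤ z.im) (h2 : |z.re| ≤ 2) :
    ‖ph x z‖ ≤ 17 ^ (2 / 3 : ℝ) * z.im ^ (1 / 6 : ℝ) * (1 + x) ^ (-2 / 3 : ℝ) := by
  have hz : 0 < z.im := by linarith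
  have hn : 0 < normSq z := normSq_pos.2 (ne_of_im hz)
  have hpi := Real.pi_gt_three
  have h3 : normSq z ≤ 17 * z.im ^ 2 := by
    have := sq_le_sq' (abs_le.1 h2).1 (abs_le.1 h2).2
    rw [normSq_apply]; nlinarith
  have h4 := theta_decay (M := 17 * z.im) (s := π * x * z.im / normSq z) hx (by linarith) (by
    rw [div_le_div_iff₀ (by positivity) hn]
    have a1 : x * normSq z ≤ x * (17 * z.im ^ 2) := mul_le_mul_of_nonneg_left h3 hx
    have a2 : 0 ≤ x * z.im ^ 2 := by positivity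
    nlinarith)
  have h5 : z.im ^ (1 / 2 : ℝ) ≤ √‖z‖ := by
    rw [← Real.sqrt_eq_rpow]
    exact Real.sqrt_le_sqrt ((le_abs_self _).trans (Complex.abs_im_le_norm z))
  have h6 : z.im ^ (2 / 3 : ℝ) = z.im ^ (1 / 6 : ℝ) * z.im ^ (1 / 2 : ℝ) := by
    rw [← Real.rpow_add hz]; norm_num
  rw [theta_norm_ph]
  refine (div_le_div₀ (by positivity) h4 (by positivity) h5).trans_eq ?_
  rw [Real.mul_rpow (by norm_num) hz.le, h6]
  field_simp

/-- `‖ph x ζ‖ = ‖ζ‖^(-1/2) exp (-π x im ζ / ‖ζ‖²)`, `‖ζ‖² ≤ 17 η²`,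
`exp (-s) ≤ (1+s)^(-2/3)`. -/
lemma phi_up : ∃ C : ℝ, ∀ x : ℝ, 0 ≤ x → ∀ z : ℂ, 1 / 2 ≤ z.im → |z.re| ≤ 1 →
    ‖phi x z‖ ≤ C * z.im ^ (1 / 6 : ℝ) * (1 + x) ^ (-2 / 3 : ℝ) := by
  refine ⟨2 * 17 ^ (2 / 3 : ℝ), fun x hx z h1 h2 => ?_⟩
  have a1 := theta_ph_up hx h1 (by linarith)
  have a2 := theta_ph_up (z := z - 1) hx (by simpa using h1) (by
    rw [abs_le] at h2 ⊢
    simp only [sub_re, one_re]
    constructor <;> linarith)
  simp only [sub_im, one_im, sub_zero] at a2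
  have := theta_norm_phi x z
  linarith

lemma theta_ph_low {x η : ℝ} (hx : 0 ≤ x) (h0 : 0 < η) (h1 : η ≤ 1 / 2) {z : ℂ} (hi : z.im = η)
    (hr : z.re ^ 2 = 1 / 4) : ‖ph x z‖ ≤ 3 / 2 * Real.exp (-(2 * π * x * η)) := by
  have hn : normSq z = 1 / 4 + η ^ 2 := by rw [normSq_apply, hi]; nlinarith
  have h2 : 1 / 2 ≤ ‖z‖ := by
    refine (pow_le_pow_iff_left₀ (by norm_num) (norm_nonneg _) two_ne_zero).1 ?_
    rw [Complex.sq_norm, hn]; nlinarith
  have h3 : 2 / 3 ≤ √‖z‖ := Real.le_sqrt_of_sq_le (by linarith)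
  have h4 : Real.exp (-(π * x * z.im / normSq z)) ≤ Real.exp (-(2 * π * x * η)) := by
    rw [Real.exp_le_exp, neg_le_neg_iff, hi, hn, le_div_iff₀ (by positivity)]
    have a1 : 0 ≤ π * x * η := by positivity
    have a2 : η ^ 2 ≤ 1 / 4 := by nlinarith
    nlinarith
  rw [theta_norm_ph]
  exact (div_le_div₀ (by positivity) h4 (by norm_num) h3).trans_eq (by ring)

lemma phi_low {x η : ℝ} (hx : 0 ≤ x) (h0 : 0 < η) (h1 : η ≤ 1 / 2) :
    ‖phi x (ln η)‖ ≤ 3 * Real.exp (-(2 * π * x * η)) := by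
  have a1 := theta_ph_low hx h0 h1 (z := ln η) (by simp) (by simp; norm_num)
  have a2 := theta_ph_low hx h0 h1 (z := ln η - 1) (by simp) (by simp; norm_num)
  have := theta_norm_phi x (ln η)
  linarith

lemma theta_half_compact {K : Set ℂ} (hK : IsCompact K) (hK' : ∀ z ∈ K, 0 < z.im) :
    ∃ C : ℝ, ∀ x : ℝ, 0 ≤ x → ∀ w ∈ K, ‖ep (x * w) / th3 w‖ ≤ C * (1 + x) ^ (-2 / 3 : ℝ) := by
  obtain ⟨B, hB⟩ := hK.exists_bound_of_continuousOn (f := fun w => (th3 w)⁻¹) (fun w hw =>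
    ((th3_diff (hK' w hw)).continuousAt.inv₀ (th3_ne (hK' w hw))).continuousWithinAt)
  obtain ⟨M, hM⟩ := hK.exists_bound_of_continuousOn (f := fun w : ℂ => (w.im)⁻¹) (fun w hw =>
    (continuous_im.continuousAt.inv₀ (hK' w hw).ne').continuousWithinAt)
  refine ⟨B * (max 1 M) ^ (2 / 3 : ℝ), fun x hx w hw => ?_⟩
  have hw0 := hK' w hw
  have hM1 : 1 ≤ max 1 M := le_max_left _ _
  have h1 : (w.im)⁻¹ ≤ max 1 M := ((le_abs_self _).trans (hM w hw)).trans (le_max_right _ _)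
  have hpi := Real.pi_gt_three
  have h2 := theta_decay (M := max 1 M) (s := π * x * w.im) hx hM1 (by
    rw [div_le_iff₀ (by linarith)]
    have a1 : 1 ≤ w.im * max 1 M := by
      have := mul_le_mul_of_nonneg_left h1 hw0.le
      rwa [mul_inv_cancel₀ hw0.ne'] at this
    have a2 : x * 1 ≤ x * (w.im * max 1 M) := mul_le_mul_of_nonneg_left a1 hx
    nlinarith)
  have e : ‖ep (x * w)‖ = Real.exp (-(π * x * w.im)) := by
    rw [norm_ep]; congr 1; simp; ring
  rw [div_eq_mul_inv, norm_mul, e, mul_comm (Real.exp _), mul_assoc B]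
  exact mul_le_mul (hB w hw) h2 (Real.exp_pos _).le ((norm_nonneg _).trans (hB w hw))

/-- locally uniform decay of `psi` in `x` -/
lemma psi_compact {K : Set ℂ} (hK : IsCompact K) (hK' : ∀ z ∈ K, 0 < z.im) :
    ∃ C : ℝ, ∀ x : ℝ, 0 ≤ x → ∀ w ∈ K, ‖psi x w‖ ≤ C * (1 + x) ^ (-2 / 3 : ℝ) := by
  obtain ⟨C1, h1⟩ := theta_half_compact hK hK'
  have hc : ContinuousOn (fun w : ℂ => -1 / w) K := fun w hw =>
    (theta_inv_diff (hK' w hw)).continuousAt.continuousWithinAt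
  obtain ⟨C2, h2⟩ := theta_half_compact (hK.image_of_continuousOn hc) (by
    rintro _ ⟨w, hw, rfl⟩
    exact im_neg_inv_pos (hK' w hw))
  refine ⟨C1 + C2, fun x hx w hw => (norm_add_le _ _).trans ?_⟩
  have a1 := h1 x hx w hw
  have a2 := h2 x hx _ ⟨w, hw, rfl⟩
  linarith

end

end Pool.Agent.MP_9f080f_an

end
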