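import Mathlib
import Pool.Agent.MP_9f080f_an.Mg.Theta

-- part MP_9f080f_an.HauptA
section

namespace Pool.Agent.MP_9f080f_an
open Complex Set Filter Topology Metric
open scoped Real

/-! General facts on holomorphic functions of one variable. -/

/-- a locally injective analytic function has nonzero derivative -/
theorem haupt_deriv_ne {f : ℂ → ℂ} {z₀ : ℂ} (hf : AnalyticAt ℂ f z₀) {U : Set ℂ} (hU : U ∈ 𝓝 z₀)
    (hi : InjOn f U) : deriv f z₀ ≠ 0 := by
  intro hd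
  have hz₀ : z₀ ∈ U := mem_of_mem_nhds hU
  have hnc : ¬ ∀ᶠ z in 𝓝 z₀, f z - f z₀ = 0 := by
    intro h
    have h2 : ∀ᶠ z in 𝓝 z₀, z = z₀ := by
      filter_upwards [h, hU] with z h1 h2 using hi h2 hz₀ (sub_eq_zero.1 h1)
    have h3 : ∀ᶠ z in 𝓝[≠] z₀, False := by
      filter_upwards [h2.filter_mono nhdsWithin_le_nhds, self_mem_nhdsWithin] with z h1 h2
        using h2 h1
    exact h3.exists.elim fun _ h => h
  have ha : AnalyticAt ℂ (fun z => f z - f z₀) z₀ := hf.sub analyticAt_const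
  obtain ⟨n, g, hg, hg0, he⟩ := ha.exists_eventuallyEq_pow_smul_nonzero_iff.2 hnc
  have hn0 : n ≠ 0 := by
    rintro rfl
    have := he.self_of_nhds
    simp at this
    exact hg0 this.symm
  have hn1 : n ≠ 1 := by
    rintro rfl
    have h1 : HasDerivAt (fun z => (z - z₀) * g z) (1 * g z₀ + (z₀ - z₀) * deriv g z₀) z₀ :=
      ((hasDerivAt_id z₀).sub_const z₀).mul hg.differentiableAt.hasDerivAt
    have h2 : HasDerivAt (fun z => f z - f z₀) (deriv f z₀) z₀ :=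
      hf.differentiableAt.hasDerivAt.sub_const _
    have h3 : (fun z => f z - f z₀) =ᶠ[𝓝 z₀] fun z => (z - z₀) * g z := by
      filter_upwards [he] with z hz
      simpa using hz
    have h4 := h2.unique (h1.congr_of_eventuallyEq h3)
    rw [hd] at h4
    apply hg0
    simpa using h4.symm
  set φ : ℂ → ℂ := fun z => (z - z₀) * (g z / g z₀) ^ ((n : ℂ)⁻¹) with hφ
  have hφa : AnalyticAt ℂ φ z₀ := by
    refine (analyticAt_id.sub analyticAt_const).mul
      (AnalyticAt.cpow (hg.div analyticAt_const hg0) analyticAt_const ?_)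
    rw [div_self hg0]; exact one_mem_slitPlane
  have hφn : ∀ᶠ z in 𝓝 z₀, f z - f z₀ = φ z ^ n * g z₀ := by
    filter_upwards [he] with z hz
    rw [hz, hφ]
    simp only [mul_pow, cpow_nat_inv_pow _ hn0, smul_eq_mul]
    field_simp
  have hφ0 : φ z₀ = 0 := by simp [hφ]
  rcases hφa.eventually_constant_or_nhds_le_map_nhds with h | h
  · apply hnc
    filter_upwards [h, hφn] with z h1 h2
    rw [h2, h1, hφ0, zero_pow hn0, zero_mul]
  · rw [hφ0] at h
    have h1 : φ '' (U ∩ {z | f z - f z₀ = φ z ^ n * g z₀}) ∈ 𝓝 (0 : ℂ) :=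
      h (image_mem_map (inter_mem hU hφn))
    obtain ⟨ε, hε, hb⟩ := Metric.mem_nhds_iff.1 h1
    have hp := isPrimitiveRoot_exp n hn0
    set ζ := cexp (2 * π * I / n) with hζ
    have hζ1 : ζ ≠ 1 := hp.ne_one (by omega)
    have hζn : ζ ^ n = 1 := hp.pow_eq_one
    have hζa : ‖ζ‖ = 1 := hp.norm'_eq_one hn0
    have hε2 : ‖((ε / 2 : ℝ) : ℂ)‖ < ε := by
      rw [Complex.norm_real, Real.norm_eq_abs, abs_of_pos (by linarith)]; linarith
    obtain ⟨z₁, ⟨hz₁, e₁⟩, h₁⟩ := hb (show ((ε / 2 : ℝ) : ℂ) ∈ ball (0 : ℂ) ε by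
      rwa [mem_ball_zero_iff])
    obtain ⟨z₂, ⟨hz₂, e₂⟩, h₂⟩ := hb (show ((ε / 2 : ℝ) : ℂ) * ζ ∈ ball (0 : ℂ) ε by
      rwa [mem_ball_zero_iff, norm_mul, hζa, mul_one])
    have e : f z₁ = f z₂ := by
      have e₁' : f z₁ - f z₀ = φ z₁ ^ n * g z₀ := e₁
      have e₂' : f z₂ - f z₀ = φ z₂ ^ n * g z₀ := e₂
      rw [h₁] at e₁'
      rw [h₂, mul_pow, hζn, mul_one] at e₂'
      linear_combination e₁' - e₂'
    have e' := hi hz₁ hz₂ e
    rw [e', h₂] at h₁
    have hne : ((ε / 2 : ℝ) : ℂ) ≠ 0 := by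
      rw [ofReal_ne_zero]; linarith
    exact hζ1 (mul_left_cancel₀ hne (by rw [h₁, mul_one]))

/-- an analytic function with nonzero derivative is locally injective -/
theorem haupt_injOn {f : ℂ → ℂ} {z₀ : ℂ} (hf : AnalyticAt ℂ f z₀) (hd : deriv f z₀ ≠ 0) :
    ∃ U : Set ℂ, IsOpen U ∧ z₀ ∈ U ∧ InjOn f U := by
  have h := (hf.hasStrictDerivAt).hasStrictFDerivAt_equiv hd
  refine ⟨(h.toOpenPartialHomeomorph f).source, (h.toOpenPartialHomeomorph f).open_source,
    h.mem_toOpenPartialHomeomorph_source, ?_⟩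
  have := (h.toOpenPartialHomeomorph f).injOn
  rwa [h.toOpenPartialHomeomorph_coe] at this

/-- the zeros of a nonzero analytic function are countable -/
theorem haupt_countable {f : ℂ → ℂ} {U : Set ℂ} (hf : AnalyticOnNhd ℂ f U)
    (hU : IsPreconnected U) (hn : ¬ EqOn f 0 U) : {z | z ∈ U ∧ f z = 0}.Countable := by
  have h : ∀ x ∈ {z | z ∈ U ∧ f z = 0}, ({x} : Set ℂ) ∈ 𝓝[{z | z ∈ U ∧ f z = 0}] x := by
    intro x hx
    rcases (hf x hx.1).eventually_eq_zero_or_eventually_ne_zero with h | h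
    · exact (hn (hf.eqOn_zero_of_preconnected_of_eventuallyEq_zero hU hx.1 h)).elim
    · rw [eventually_nhdsWithin_iff] at h
      filter_upwards [h.filter_mono nhdsWithin_le_nhds, self_mem_nhdsWithin] with z h1 h2
      by_contra h3
      exact h1 h3 h2.2
  obtain ⟨t, -, ht, hs⟩ := TopologicalSpace.countable_cover_nhdsWithin h
  refine ht.mono fun x hx => ?_
  obtain ⟨y, hy, hxy⟩ := mem_iUnion₂.1 (hs hx)
  rwa [mem_singleton_iff.1 hxy]

/-- connectedness argument -/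
theorem haupt_conn {W E : Set ℂ} (hE : E.Countable) (hW : IsClosed W)
    (ho : ∀ w ∈ W, w ∉ E → W ∈ 𝓝 w) (hn : (interior W).Nonempty) : W = univ := by
  have hd : Dense Eᶜ := hE.dense_compl ℝ
  have hc : IsPreconnected Eᶜ :=
    (hE.isConnected_compl_of_one_lt_rank (by simp)).isPreconnected
  have h1 : Eᶜ ⊆ interior W := by
    refine hc.subset_of_closure_inter_subset isOpen_interior ?_ ?_
    · obtain ⟨x, hx, hx'⟩ := hd.exists_mem_open isOpen_interior hn
      exact ⟨x, hx, hx'⟩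
    · rintro x ⟨hx, hx'⟩
      exact mem_interior_iff_mem_nhds.2
        (ho x (closure_minimal interior_subset hW hx) hx')
  exact eq_univ_of_univ_subset
    (hd.closure_eq ▸ closure_minimal (h1.trans interior_subset) hW)

end Pool.Agent.MP_9f080f_an

end

-- part MP_9f080f_an.Haupt
section

namespace Pool.Agent.MP_9f080f_an
open Complex MeasureTheory Set Filter Topology Metric
open scoped Real

noncomputable section

/-! `sf ^ 2` is a Hauptmodul for the theta group.  The set `hauptW` of values all of whose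
preimages are equivalent is closed (open mapping theorem, proper discontinuity), a neighbourhood of
each of its points outside a countable set (properness, local injectivity) and contains all large
values (expansion at the cusp `1`); so it is everything. -/

lemma haupt_Hopen : IsOpen {z : ℂ | 0 < z.im} := isOpen_lt continuous_const Complex.continuous_im

lemma haupt_Hconv (Y : ℝ) : Convex ℝ {z : ℂ | Y ≤ z.im} := convex_halfSpace_im_ge Y

lemma haupt_Hconn : IsPreconnected {z : ℂ | 0 < z.im} :=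
  (convex_halfSpace_im_gt 0).isPreconnected

lemma haupt_an : AnalyticOnNhd ℂ sf {z : ℂ | 0 < z.im} :=
  DifferentiableOn.analyticOnNhd (fun _ hz => (sf_diff hz).differentiableWithinAt) haupt_Hopen

lemma haupt_an2 : AnalyticOnNhd ℂ (fun z => sf z ^ 2) {z : ℂ | 0 < z.im} :=
  fun z hz => (haupt_an z hz).pow 2

lemma haupt_inv (g : GT) {τ : ℂ} (h : 0 < τ.im) : sf (g.mob τ) ^ 2 = sf τ ^ 2 := by
  rw [sf_mob g h, mul_pow, sq g.chi, GT.chi_mul_self, one_mul]

lemma haupt_big (M : ℝ) : ∃ Y : ℝ, 1 ≤ Y ∧ ∀ z : ℂ, Y ≤ z.im → M ≤ ‖sh z ^ 2‖ := by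
  obtain ⟨Y, hY, lam, h⟩ := sh_cusp
  refine ⟨max Y (8 * |M| + 9), le_max_of_le_left (by linarith), fun z hz => ?_⟩
  obtain ⟨-, h1, h2, -, -⟩ := h z (le_of_max_le_left hz)
  have h3 : 8 * |M| + 9 ≤ z.im := le_of_max_le_right hz
  have h4 : |(lam z).im| ≤ 1 / 100 := (Complex.abs_im_le_norm _).trans h2
  have h5 : 8 * |M| + 8 ≤ (z + lam z).im := by
    rw [add_im]; linarith [neg_abs_le (lam z).im]
  have h6 : |M| + 1 ≤ ‖sh z‖ := by
    rw [h1, norm_mul, norm_ep]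
    have e : ‖(1 / 8 : ℂ)‖ = 1 / 8 := by simp
    rw [e, neg_im]
    have h7 := Real.add_one_le_exp (-π * -(z + lam z).im)
    have h8 : (z + lam z).im ≤ -π * -(z + lam z).im := by
      nlinarith [Real.pi_gt_three, abs_nonneg M]
    linarith
  rw [norm_pow]
  nlinarith [abs_nonneg M, le_abs_self M]

lemma haupt_low (Y : ℝ) (hY : 1 ≤ Y) {w : ℂ} (hw : w ∈ FDc) (h : w.im ≤ 1 / (2 * Y)) :
    Y ≤ (zw w).im := by
  refine le_trans ?_ (fdc_zw_im hw)
  have h0 : 0 < w.im := hw.1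
  rw [le_div_iff₀ (by positivity)] at h ⊢
  linarith

lemma haupt_nc (c : ℂ) : ¬ EqOn (fun z => sf z ^ 2) (fun _ => c) {z : ℂ | 0 < z.im} := by
  intro h
  obtain ⟨Y, hY, hb⟩ := haupt_big (‖c‖ + 1)
  have h1 : Y ≤ ((Y : ℂ) * I).im := by simp
  have h2 := hb _ h1
  have h3 : sf (wz (Y * I)) ^ 2 = c := h (im_wz_pos (z := Y * I) (by linarith))
  rw [sh, h3] at h2
  linarith

lemma haupt_open {τ : ℂ} (h : 0 < τ.im) :
    𝓝 (sf τ ^ 2) ≤ map (fun z => sf z ^ 2) (𝓝 τ) := by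
  rcases (haupt_an2 τ h).eventually_constant_or_nhds_le_map_nhds with h1 | h1
  · exact (haupt_nc _ (haupt_an2.eqOn_of_preconnected_of_eventuallyEq analyticOnNhd_const
      haupt_Hconn h h1)).elim
  · exact h1

lemma haupt_crit :
    {z : ℂ | z ∈ {z : ℂ | 0 < z.im} ∧ deriv (fun z => sf z ^ 2) z = 0}.Countable := by
  refine haupt_countable haupt_an2.deriv haupt_Hconn fun h => ?_
  have hI : I ∈ {z : ℂ | 0 < z.im} := by simp
  exact haupt_nc _ fun z hz =>
    haupt_Hopen.is_const_of_deriv_eq_zero haupt_Hconn haupt_an2.differentiableOn h hz hI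

lemma haupt_compact {δ : ℝ} (hδ : 0 < δ) (R : ℝ) :
    IsCompact {w : ℂ | w ∈ FDc ∧ δ ≤ w.im ∧ w.im ≤ R} := by
  have e : {w : ℂ | w ∈ FDc ∧ δ ≤ w.im ∧ w.im ≤ R} =
      (Icc (0 : ℝ) 2 ×ℂ Icc δ R) ∩ ({w | 1 ≤ normSq w} ∩ {w | 1 ≤ normSq (w - 2)}) := by
    ext w
    simp only [FDc, mem_ofPred_eq, mem_inter_iff, mem_reProdIm, mem_Icc]
    constructor
    · rintro ⟨⟨-, h2, h3, h4, h5⟩, h6, h7⟩
      exact ⟨⟨⟨h2, h3⟩, h6, h7⟩, h4, h5⟩
    · rintro ⟨⟨⟨h2, h3⟩, h6, h7⟩, h4, h5⟩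
      exact ⟨⟨by linarith, h2, h3, h4, h5⟩, h6, h7⟩
  rw [e]
  refine (isCompact_Icc.reProdIm isCompact_Icc).inter_right (IsClosed.inter ?_ ?_)
  · exact isClosed_le continuous_const Complex.continuous_normSq
  · exact isClosed_le continuous_const
      (Complex.continuous_normSq.comp (continuous_id.sub continuous_const))

/-- proper discontinuity -/
lemma haupt_sep {z τ : ℂ} (hz : 0 < z.im) (hτ : 0 < τ.im) :
    ∃ U ∈ 𝓝 z, ∃ V ∈ 𝓝 τ, ∀ z' ∈ U, ∀ τ' ∈ V, ∀ g : GT, z' = g.mob τ' → z = g.mob τ := by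
  obtain ⟨L, hL, hL1, hL2⟩ := local_compact_nhds (haupt_Hopen.mem_nhds hz)
  obtain ⟨K, hK, hK1, hK2⟩ := local_compact_nhds (haupt_Hopen.mem_nhds hτ)
  have hf := GT.finite_of_compact hK2 hL2 hK1 hL1
  have h1 : ∀ᶠ p : ℂ × ℂ in 𝓝 (z, τ), ∀ g ∈ {g : GT | ∃ z ∈ K, g.mob z ∈ L},
      p.1 = g.mob p.2 → z = g.mob τ := by
    refine (eventually_all_finite hf).2 fun g _ => ?_
    by_cases h : z = g.mob τ
    · exact Eventually.of_forall fun _ _ => h
    · have hc : ContinuousAt (fun p : ℂ × ℂ => p.1 - g.mob p.2) (z, τ) :=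
        continuousAt_fst.sub (ContinuousAt.comp (x := (z, τ)) (f := Prod.snd)
          (g.hasDerivAt_mob hτ).continuousAt continuousAt_snd)
      filter_upwards [hc.eventually_ne (sub_ne_zero.2 h)] with p hp hp'
      exact (hp (sub_eq_zero.2 hp')).elim
  obtain ⟨U, hU, V, hV, h2⟩ := mem_nhds_prod_iff.1 h1
  refine ⟨U ∩ L, inter_mem hU hL, V ∩ K, inter_mem hV hK, fun z' hz' τ' hτ' g hg => ?_⟩
  exact h2 (mk_mem_prod hz'.1 hτ'.1) g ⟨τ', hτ'.2, hg ▸ hz'.2⟩ hg

/-- the values all of whose preimages are equivalent -/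
def hauptW : Set ℂ := {w | ∀ z τ : ℂ, 0 < z.im → 0 < τ.im → sf z ^ 2 = w → sf τ ^ 2 = w →
  ∃ g : GT, z = g.mob τ}

lemma haupt_closed : IsClosed hauptW := by
  refine isClosed_of_closure_subset fun w hw z τ hz hτ e1 e2 => ?_
  obtain ⟨U, hU, V, hV, h⟩ := haupt_sep hz hτ
  have h1 := haupt_open hz (image_mem_map (inter_mem hU (haupt_Hopen.mem_nhds hz)))
  have h2 := haupt_open hτ (image_mem_map (inter_mem hV (haupt_Hopen.mem_nhds hτ)))
  rw [e1] at h1
  rw [e2] at h2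
  obtain ⟨w', ⟨⟨z', hz', e1'⟩, ⟨τ', hτ', e2'⟩⟩, hw'⟩ := mem_closure_iff_nhds.1 hw _ (inter_mem h1 h2)
  obtain ⟨g, hg⟩ := hw' z' τ' hz'.2 hτ'.2 e1' e2'
  exact ⟨g, h z' hz'.1 τ' hτ'.1 g hg⟩

lemma haupt_trans {z τ u : ℂ} (hz : 0 < z.im) (hτ : 0 < τ.im) {g h : GT} (e1 : g.mob z = u)
    (e2 : h.mob τ = u) : z = (g⁻¹ * h).mob τ := by
  rw [GT.mob_mul _ _ hτ, e2, ← e1, GT.inv_mob _ hz]

/-- properness away from the value `1` -/
lemma haupt_proper {w₀ : ℂ} (h1 : w₀ ≠ 1) : ∃ K : Set ℂ, IsCompact K ∧ (∀ z ∈ K, 0 < z.im) ∧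
    ∀ᶠ w in 𝓝 w₀, ∀ z ∈ FDc, sf z ^ 2 = w → z ∈ K := by
  obtain ⟨Y, hY, hb⟩ := haupt_big (‖w₀‖ + 1)
  obtain ⟨C, hC⟩ := top_asymp
  have hε : 0 < ‖w₀ - 1‖ / 2 := by
    have := norm_pos_iff.2 (sub_ne_zero.2 h1); linarith
  have ht : Tendsto (fun t : ℝ => C * Real.exp (-π * t) * (C * Real.exp (-π * t) + 2)) atTop
      (𝓝 (C * 0 * (C * 0 + 2))) := by
    have h0 : Tendsto (fun t : ℝ => Real.exp (-π * t)) atTop (𝓝 0) :=
      Real.tendsto_exp_atBot.comp (tendsto_id.const_mul_atTop_of_neg (by linarith [Real.pi_pos]))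
    exact (h0.const_mul C).mul ((h0.const_mul C).add_const 2)
  rw [mul_zero, zero_mul] at ht
  obtain ⟨R, hR⟩ := eventually_atTop.1 ((ht.eventually_lt_const hε).and (eventually_ge_atTop 1))
  refine ⟨_, haupt_compact (δ := 1 / (2 * Y)) (by positivity) R, fun z hz => hz.1.1, ?_⟩
  filter_upwards [ball_mem_nhds w₀ hε, ball_mem_nhds w₀ one_pos] with w hw1 hw2 z hz e
  rw [mem_ball_iff_norm] at hw1 hw2
  refine ⟨hz, ?_, ?_⟩
  · by_contra h
    have h2 := hb _ (haupt_low Y hY hz (not_le.1 h).le)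
    rw [sh, wz_zw, e] at h2
    have := norm_add_le w₀ (w - w₀)
    rw [add_sub_cancel] at this
    linarith
  · by_contra h
    obtain ⟨h2, h3⟩ := hR z.im (not_le.1 h).le
    have h4 := (hC z h3).2
    have h5 : ‖sf z + 1‖ ≤ C * Real.exp (-π * z.im) + 2 := by
      have := norm_add_le (sf z - 1) 2
      rw [show sf z - 1 + 2 = sf z + 1 by ring] at this
      simp only [Complex.norm_ofNat] at this
      linarith
    have h6 : ‖w - 1‖ ≤ C * Real.exp (-π * z.im) * (C * Real.exp (-π * z.im) + 2) := by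
      rw [← e, show sf z ^ 2 - 1 = (sf z - 1) * (sf z + 1) by ring, norm_mul]
      exact mul_le_mul h4 h5 (norm_nonneg _) ((norm_nonneg _).trans h4)
    have h7 := norm_sub_le (w - 1) (w - w₀)
    rw [show w - 1 - (w - w₀) = w₀ - 1 by ring] at h7
    linarith

lemma haupt_nhds {w₀ : ℂ} (hw : w₀ ∈ hauptW) (h1 : w₀ ≠ 1)
    (hd : ∀ τ : ℂ, 0 < τ.im → sf τ ^ 2 = w₀ → deriv (fun z => sf z ^ 2) τ ≠ 0) :
    hauptW ∈ 𝓝 w₀ := by
  obtain ⟨U, hU, hUi, hU0⟩ : ∃ U : Set ℂ, IsOpen U ∧ InjOn (fun z => sf z ^ 2) U ∧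
      ∀ z : ℂ, 0 < z.im → sf z ^ 2 = w₀ → ∃ g : GT, g.mob z ∈ U := by
    by_cases h : ∃ τ : ℂ, 0 < τ.im ∧ sf τ ^ 2 = w₀
    · obtain ⟨τ, hτ, e⟩ := h
      obtain ⟨U, hU, hτU, hi⟩ := haupt_injOn (haupt_an2 τ hτ) (hd τ hτ e)
      refine ⟨U, hU, hi, fun z hz e' => ?_⟩
      obtain ⟨g, hg⟩ := hw τ z hτ hz e e'
      exact ⟨g, hg ▸ hτU⟩
    · exact ⟨∅, isOpen_empty, injOn_empty _, fun z hz e => (h ⟨z, hz, e⟩).elim⟩
  obtain ⟨K, hK, hK', hp⟩ := haupt_proper h1
  have hO : IsOpen {z : ℂ | 0 < z.im ∧ ∃ g : GT, g.mob z ∈ U} := by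
    refine isOpen_iff_mem_nhds.2 ?_
    rintro z ⟨hz, g, hg⟩
    filter_upwards [haupt_Hopen.mem_nhds hz,
      (g.hasDerivAt_mob hz).continuousAt.preimage_mem_nhds (hU.mem_nhds hg)] with u h1 h2
      using ⟨h1, g, h2⟩
  have hc : IsCompact ((fun z => sf z ^ 2) '' (K \ {z : ℂ | 0 < z.im ∧ ∃ g : GT, g.mob z ∈ U})) :=
    (hK.diff hO).image_of_continuousOn
      (haupt_an2.continuousOn.mono fun z hz => hK' z hz.1)
  have hn : w₀ ∈ ((fun z => sf z ^ 2) '' (K \ {z : ℂ | 0 < z.im ∧ ∃ g : GT, g.mob z ∈ U}))ᶜ := by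
    rintro ⟨z, hz, e⟩
    exact hz.2 ⟨hK' z hz.1, hU0 z (hK' z hz.1) e⟩
  filter_upwards [hp, hc.isClosed.isOpen_compl.mem_nhds hn] with w hw1 hw2
  have key : ∀ z : ℂ, 0 < z.im → sf z ^ 2 = w → ∃ g : GT, g.mob z ∈ U := by
    intro z hz e
    obtain ⟨g, hg⟩ := GT.exists_fdc hz
    have e' : sf (g.mob z) ^ 2 = w := by rw [haupt_inv g hz, e]
    have h3 : g.mob z ∈ {z : ℂ | 0 < z.im ∧ ∃ g : GT, g.mob z ∈ U} := by
      by_contra h
      exact hw2 ⟨g.mob z, ⟨hw1 _ hg e', h⟩, e'⟩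
    obtain ⟨-, h, hh⟩ := h3
    exact ⟨h * g, by rwa [GT.mob_mul _ _ hz]⟩
  intro z τ hz hτ e1 e2
  obtain ⟨g, hg⟩ := key z hz e1
  obtain ⟨h, hh⟩ := key τ hτ e2
  have e : g.mob z = h.mob τ := hUi hg hh (by
    show sf (g.mob z) ^ 2 = sf (h.mob τ) ^ 2
    rw [haupt_inv g hz, haupt_inv h hτ, e1, e2])
  exact ⟨_, haupt_trans hz hτ e rfl⟩

/-- injectivity near the cusp `1` -/
lemma haupt_cusp : ∃ Y : ℝ, 1 ≤ Y ∧ ∀ z u : ℂ, Y ≤ z.im → Y ≤ u.im → sh z ^ 2 = sh u ^ 2 →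
    ∃ k : ℤ, z = u + k := by
  obtain ⟨Y, hY, lam, h⟩ := sh_cusp
  refine ⟨Y, by linarith, fun z u hz hu e => ?_⟩
  have hper : ∀ (k : ℤ) (v : ℂ), Y ≤ v.im → lam (v + k) = lam v := by
    intro k
    induction k using Int.induction_on with
    | zero => intro v _; simp
    | succ k ih =>
      intro v hv
      have := (h (v + (k : ℤ)) (by simpa using hv)).2.2.2.2
      rw [← ih v hv, ← this]
      congr 1
      push_cast; ring
    | pred k ih =>
      intro v hv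
      have := (h (v + ((-(k : ℤ) - 1 : ℤ) : ℂ)) (by simpa using hv)).2.2.2.2
      rw [← ih v hv, ← this]
      congr 1
      push_cast; ring
  rw [(h z hz).2.1, (h u hu).2.1, mul_pow, mul_pow, ← ep_nat_mul, ← ep_nat_mul] at e
  have e2 := mul_left_cancel₀ (by norm_num : (1 / 8 : ℂ) ^ 2 ≠ 0) e
  obtain ⟨k, hk⟩ := Complex.exp_eq_exp_iff_exists_int.1 e2
  have hπ : (2 * π * I : ℂ) ≠ 0 := two_pi_I_ne_zero
  have e3 : z + lam z = (u + (-k : ℤ)) + lam (u + (-k : ℤ)) := by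
    rw [hper _ u hu]
    apply mul_left_cancel₀ hπ
    push_cast at hk ⊢
    linear_combination -hk
  have hu' : Y ≤ (u + (-k : ℤ)).im := by simpa using hu
  have hl := (haupt_Hconv Y).norm_image_sub_le_of_norm_deriv_le (f := lam) (C := 1 / 100)
    (fun v hv => (h v hv).1) (fun v hv => (h v hv).2.2.2.1) hz hu'
  refine ⟨-k, ?_⟩
  rw [show lam (u + (-k : ℤ)) - lam z = -(u + (-k : ℤ) - z) by linear_combination -e3,
    norm_neg] at hl
  have h0 : ‖u + (-k : ℤ) - z‖ = 0 := by linarith [norm_nonneg (u + (-k : ℤ) - z)]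
  exact (sub_eq_zero.1 (norm_eq_zero.1 h0)).symm

lemma haupt_large : ∃ M : ℝ, ∀ w : ℂ, M < ‖w‖ → w ∈ hauptW := by
  obtain ⟨Y, hY, hc⟩ := haupt_cusp
  obtain ⟨C, hC⟩ := top_asymp
  obtain ⟨B, hB⟩ := (haupt_compact (δ := 1 / (2 * Y)) (by positivity) 1).exists_bound_of_continuousOn
    (haupt_an2.continuousOn.mono fun z hz => hz.1.1)
  refine ⟨max B ((|C| + 1) ^ 2), fun w hw => ?_⟩
  have key : ∀ z ∈ FDc, sf z ^ 2 = w → Y ≤ (zw z).im := by
    intro z hz e
    refine haupt_low Y hY hz ?_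
    by_contra h1
    rcases le_total z.im 1 with h2 | h2
    · have := hB z ⟨hz, (not_le.1 h1).le, h2⟩
      rw [e] at this
      linarith [le_max_left B ((|C| + 1) ^ 2)]
    · have h3 := (hC z h2).2
      have h4 : Real.exp (-π * z.im) ≤ 1 :=
        Real.exp_le_one_iff.2 (by nlinarith [Real.pi_pos])
      have h5 : C * Real.exp (-π * z.im) ≤ |C| := by
        nlinarith [le_abs_self C, abs_nonneg C, Real.exp_pos (-π * z.im)]
      have h6 := norm_add_le (sf z - 1) 1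
      rw [sub_add_cancel, norm_one] at h6
      have h7 : ‖w‖ ≤ (|C| + 1) ^ 2 := by
        rw [← e, norm_pow]
        exact pow_le_pow_left₀ (norm_nonneg _) (by linarith) 2
      linarith [le_max_right B ((|C| + 1) ^ 2)]
  intro z τ hz hτ e1 e2
  obtain ⟨g, hg⟩ := GT.exists_fdc hz
  obtain ⟨h, hh⟩ := GT.exists_fdc hτ
  have e1' : sf (g.mob z) ^ 2 = w := by rw [haupt_inv g hz, e1]
  have e2' : sf (h.mob τ) ^ 2 = w := by rw [haupt_inv h hτ, e2]
  obtain ⟨k, hk⟩ := hc _ _ (key _ hg e1') (key _ hh e2') (by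
    rw [sh, sh, wz_zw, wz_zw, e1', e2'])
  have e3 := GT.mob_sig k (im_zw_pos hh.1)
  rw [← hk, wz_zw, wz_zw, ← GT.mob_mul _ _ hτ] at e3
  exact ⟨_, haupt_trans hz hτ rfl e3⟩

lemma haupt_univ : hauptW = univ := by
  refine haupt_conn (E := insert 1 ((fun z => sf z ^ 2) ''
    {z : ℂ | z ∈ {z : ℂ | 0 < z.im} ∧ deriv (fun z => sf z ^ 2) z = 0}))
    ((haupt_crit.image _).insert 1) haupt_closed (fun w hw hE => ?_) ?_
  · refine haupt_nhds hw (fun h => hE (Or.inl h)) fun τ hτ e hd => hE (Or.inr ⟨τ, ⟨hτ, hd⟩, e⟩)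
  · obtain ⟨M, hM⟩ := haupt_large
    refine ⟨((|M| + 1 : ℝ) : ℂ), mem_interior_iff_mem_nhds.2 ?_⟩
    have : M < ‖((|M| + 1 : ℝ) : ℂ)‖ := by
      rw [Complex.norm_real, Real.norm_eq_abs, abs_of_pos (by positivity)]
      linarith [le_abs_self M]
    filter_upwards [continuous_norm.continuousAt.eventually (lt_mem_nhds this)] with w hw
      using hM w hw

theorem sf_sq_inj {z τ : ℂ} (hz : 0 < z.im) (hτ : 0 < τ.im) (h : sf z ^ 2 = sf τ ^ 2) :
    ∃ g : GT, z = g.mob τ :=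
  (haupt_univ.symm ▸ mem_univ (sf τ ^ 2) : sf τ ^ 2 ∈ hauptW) z τ hz hτ h rfl

theorem deriv_sf_ne {τ : ℂ} (hτ : 0 < τ.im) : deriv sf τ ≠ 0 := by
  obtain ⟨U, hU, V, hV, h⟩ := haupt_sep hτ hτ
  refine haupt_deriv_ne (haupt_an τ hτ)
    (inter_mem (inter_mem hU hV) (haupt_Hopen.mem_nhds hτ)) fun z₁ h₁ z₂ h₂ e => ?_
  obtain ⟨g, hg⟩ := sf_sq_inj h₁.2 h₂.2 (by rw [e])
  rcases GT.chi_of_fix hτ (h z₁ h₁.1.1 z₂ h₂.1.2 g hg).symm with h3 | h3 | h3
  · rw [hg, h3, GT.mob_one]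
  · rw [hg, h3, GT.mob_N]
  · have h4 := sf_mob g h₂.2
    rw [← hg, h3, e] at h4
    have h5 : sf z₂ = 0 := by linear_combination h4 / 2
    have h6 := sf_mob g hτ
    rw [← h z₁ h₁.1.1 z₂ h₂.1.2 g hg, h3] at h6
    have h7 : sf τ = 0 := by linear_combination h6 / 2
    have key : ∀ z ∈ U ∩ V ∩ {z : ℂ | 0 < z.im}, sf z = 0 → z = τ := by
      intro z hz e0
      obtain ⟨k, hk⟩ := sf_sq_inj hz.2 hτ (by rw [e0, h7])
      rw [hk, ← h z hz.1.1 τ (mem_of_mem_nhds hV) k hk]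
    rw [key z₁ h₁ (e.trans h5), key z₂ h₂ h5]

theorem deriv_sh_ne {z : ℂ} (hz : 0 < z.im) : deriv sh z ≠ 0 := by
  have h0 := ne_of_im hz
  have h1 : HasDerivAt wz (1 / z ^ 2) z := by
    have := ((hasDerivAt_inv h0).const_sub 1)
    have e : wz = fun x : ℂ => 1 - x⁻¹ := by ext x; simp [wz]
    rw [e, one_div, ← neg_neg ((z ^ 2)⁻¹)]
    exact this
  have h2 : HasDerivAt sh (deriv sf (wz z) * (1 / z ^ 2)) z :=
    (sf_diff (im_wz_pos hz)).hasDerivAt.comp z h1
  rw [h2.deriv]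
  exact mul_ne_zero (deriv_sf_ne (im_wz_pos hz)) (one_div_ne_zero (pow_ne_zero 2 h0))

end

end Pool.Agent.MP_9f080f_an

end

-- part MP_9f080f_an.Kern
section

namespace Pool.Agent.MP_9f080f_an
open Complex MeasureTheory Set Filter Topology Metric
open scoped Real

noncomputable section

/-! The Cauchy type integral `hk`. -/

/-- the integrand of `hk` along an arbitrary path -/
def kern (x : ℝ) (σ z : ℂ) : ℂ := psi x (wz z) * deriv sh z * (2 * σ / (sh z ^ 2 - σ ^ 2))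

lemma hk_eq (x : ℝ) (σ : ℂ) :
    hk x σ = 1 / (2 * π * I) * ∫ η in Ioi (1 / 2 : ℝ), kern x σ (ln η) * I := rfl

lemma hk_neg (x : ℝ) (σ : ℂ) : hk x (-σ) = -hk x σ := by
  rw [hk_eq, hk_eq, ← mul_neg, ← integral_neg]
  congr 2
  funext η
  simp only [kern, neg_sq]
  ring

lemma kern_sh_high : ∃ Y₀ : ℝ, 2 ≤ Y₀ ∧ ∀ z : ℂ, Y₀ ≤ z.im →
    ‖deriv sh z‖ ≤ 4 * ‖sh z‖ ∧ Real.exp (π * z.im - 1) / 8 ≤ ‖sh z‖ := by
  obtain ⟨Y, hY, lam, h⟩ := sh_cusp
  refine ⟨Y + 1, by linarith, fun z hz => ?_⟩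
  obtain ⟨h1, h2, h3, h4, -⟩ := h z (by linarith)
  have hpi := Real.pi_lt_d2
  have hpi0 := Real.pi_pos
  constructor
  · have hev : sh =ᶠ[𝓝 z] fun w => 1 / 8 * ep (-(w + lam w)) := by
      have : ∀ᶠ w in 𝓝 z, Y < w.im :=
        Complex.continuous_im.continuousAt.eventually (lt_mem_nhds (by linarith))
      filter_upwards [this] with w hw using (h w hw.le).2.1
    have hd : HasDerivAt (fun w => 1 / 8 * ep (-(w + lam w)))
        (1 / 8 * (π * I * ep (-(z + lam z)) * -(1 + deriv lam z))) z :=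
      ((hasDerivAt_ep _).comp z ((hasDerivAt_id' z).fun_add h1.hasDerivAt).fun_neg).const_mul _
    have e : deriv sh z = -(π * I * (1 + deriv lam z)) * sh z := by
      rw [(hd.congr_of_eventuallyEq hev).deriv, h2]; ring
    rw [e, norm_mul]
    refine mul_le_mul_of_nonneg_right ?_ (norm_nonneg _)
    have h5 : ‖1 + deriv lam z‖ ≤ 1 + 1 / 100 := by
      refine (norm_add_le _ _).trans ?_
      rw [norm_one]; linarith
    rw [norm_neg, norm_mul, norm_mul, norm_I, mul_one, norm_real, Real.norm_of_nonneg hpi0.le]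
    nlinarith [norm_nonneg (1 + deriv lam z)]
  · rw [h2, norm_mul, norm_ep]
    have h5 : |(lam z).im| ≤ 1 / 100 := (Complex.abs_im_le_norm _).trans h3
    have h6 := abs_le.1 h5
    have e : ‖(1 / 8 : ℂ)‖ = 1 / 8 := by norm_num
    rw [e, div_eq_mul_inv, mul_comm, one_div]
    refine mul_le_mul_of_nonneg_left (Real.exp_le_exp.2 ?_) (by norm_num)
    simp only [neg_im, add_im]
    nlinarith

/-- decay at the cusp: `psi = phi / th2` (`phi_eq`, `phi_up`, `th2_bd`), `sh_cusp` gives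
`‖sh z‖ ≍ ‖deriv sh z‖ ≍ exp (π im z)`. -/
lemma kern_high : ∃ Y₀ : ℝ, 2 ≤ Y₀ ∧ ∃ C : ℝ, ∀ R : ℝ, 0 ≤ R → ∃ Y : ℝ, Y₀ ≤ Y ∧ ∀ x : ℝ, 0 ≤ x →
    ∀ σ z : ℂ, ‖σ‖ ≤ R → Y ≤ z.im → |z.re| ≤ 1 →
      sh z ^ 2 ≠ σ ^ 2 ∧
        ‖kern x σ z‖ ≤ C * R * Real.exp (-z.im) * (1 + x) ^ (-2 / 3 : ℝ) := by
  obtain ⟨Y₀, hY₀, hs⟩ := kern_sh_high
  obtain ⟨C, hC⟩ := phi_up
  refine ⟨Y₀, hY₀, |C| * (128 * Real.exp 1), fun R hR => ⟨max Y₀ (16 * R), le_max_left _ _, ?_⟩⟩
  intro x hx σ z hσ hz hre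
  have hz0 : Y₀ ≤ z.im := (le_max_left _ _).trans hz
  have hzR : 16 * R ≤ z.im := (le_max_right _ _).trans hz
  have hpi := Real.pi_gt_three
  obtain ⟨h1, h2⟩ := hs z hz0
  set S := ‖sh z‖ with hS
  have hS1 : z.im / 8 ≤ S := by
    refine le_trans ?_ h2
    have := Real.add_one_le_exp (π * z.im - 1)
    nlinarith
  have hSpos : 0 < S := by linarith
  have hSR : 2 * R ≤ S := by linarith
  have hden : S ^ 2 / 2 ≤ ‖sh z ^ 2 - σ ^ 2‖ := by
    have h3 := norm_sub_norm_le (sh z ^ 2) (σ ^ 2)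
    rw [norm_pow, norm_pow] at h3
    have h4 : ‖σ‖ ^ 2 ≤ R ^ 2 := pow_le_pow_left₀ (norm_nonneg _) hσ 2
    nlinarith
  have hdpos : 0 < ‖sh z ^ 2 - σ ^ 2‖ := lt_of_lt_of_le (by positivity) hden
  refine ⟨sub_ne_zero.1 (norm_pos_iff.1 hdpos), ?_⟩
  set X := (1 + x) ^ (-2 / 3 : ℝ) with hX
  have hX0 : 0 ≤ X := Real.rpow_nonneg (by linarith) _
  have hzpos : 0 < z.im := by linarith
  have hpsi : ‖psi x (wz z)‖ ≤ |C| * Real.exp z.im * X * Real.exp (π * z.im / 4) := by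
    have e1 := phi_eq x hzpos
    have e2 := hC x hx z (by linarith) hre
    have e3 := (th2_bd (z := z) (by linarith)).1
    have e4 : z.im ^ (1 / 6 : ℝ) ≤ Real.exp z.im := by
      have a1 : z.im ^ (1 / 6 : ℝ) ≤ z.im ^ (1 : ℝ) :=
        Real.rpow_le_rpow_of_exponent_le (by linarith) (by norm_num)
      rw [Real.rpow_one] at a1
      linarith [Real.add_one_le_exp z.im]
    have e5 : ‖phi x z‖ ≤ |C| * Real.exp z.im * X := by
      refine e2.trans (mul_le_mul_of_nonneg_right ?_ hX0)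
      exact mul_le_mul (le_abs_self C) e4 (Real.rpow_nonneg hzpos.le _) (abs_nonneg C)
    have e6 : Real.exp (-π * z.im / 4) * ‖psi x (wz z)‖ ≤ |C| * Real.exp z.im * X := by
      refine le_trans ?_ e5
      rw [← e1, norm_mul]
      exact mul_le_mul_of_nonneg_right e3 (norm_nonneg _)
    have e7 : Real.exp (-π * z.im / 4) * Real.exp (π * z.im / 4) = 1 := by
      rw [← Real.exp_add, ← Real.exp_zero]; congr 1; ring
    calc ‖psi x (wz z)‖ = Real.exp (-π * z.im / 4) * ‖psi x (wz z)‖ * Real.exp (π * z.im / 4) := by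
          rw [mul_right_comm, e7, one_mul]
      _ ≤ _ := mul_le_mul_of_nonneg_right e6 (Real.exp_pos _).le
  have hq : ‖2 * σ / (sh z ^ 2 - σ ^ 2)‖ ≤ 4 * R / S ^ 2 := by
    rw [norm_div, norm_mul, div_le_div_iff₀ hdpos (by positivity)]
    have : ‖(2 : ℂ)‖ = 2 := by norm_num
    rw [this]
    nlinarith [norm_nonneg σ, sq_nonneg S, mul_le_mul_of_nonneg_right hσ (sq_nonneg S)]
  have hinv : 1 / S ≤ 8 * Real.exp (1 - π * z.im) := by
    rw [div_le_iff₀ hSpos]
    have e7 : Real.exp (1 - π * z.im) * Real.exp (π * z.im - 1) = 1 := by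
      rw [← Real.exp_add, ← Real.exp_zero]; congr 1; ring
    have := Real.exp_pos (1 - π * z.im)
    nlinarith
  have hexp : Real.exp z.im * Real.exp (π * z.im / 4) * Real.exp (1 - π * z.im) ≤
      Real.exp 1 * Real.exp (-z.im) := by
    rw [← Real.exp_add, ← Real.exp_add, ← Real.exp_add]
    refine Real.exp_le_exp.2 ?_
    nlinarith
  have hA : 0 ≤ |C| * X * R := by positivity
  calc ‖kern x σ z‖ = ‖psi x (wz z)‖ * ‖deriv sh z‖ * ‖2 * σ / (sh z ^ 2 - σ ^ 2)‖ := by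
        rw [kern, norm_mul, norm_mul]
    _ ≤ (|C| * Real.exp z.im * X * Real.exp (π * z.im / 4)) * (4 * S) * (4 * R / S ^ 2) := by
        gcongr
    _ = 16 * (|C| * X * R) * (Real.exp z.im * Real.exp (π * z.im / 4)) * (1 / S) := by
        field_simp; ring
    _ ≤ 16 * (|C| * X * R) * (Real.exp z.im * Real.exp (π * z.im / 4)) *
          (8 * Real.exp (1 - π * z.im)) := by gcongr
    _ = 128 * (|C| * X * R) *
          (Real.exp z.im * Real.exp (π * z.im / 4) * Real.exp (1 - π * z.im)) := by ring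
    _ ≤ 128 * (|C| * X * R) * (Real.exp 1 * Real.exp (-z.im)) := by gcongr
    _ = _ := by ring

lemma kern_continuous_ln : Continuous ln := by
  unfold ln; fun_prop

lemma kern_sh_diffOn : DifferentiableOn ℂ sh {z : ℂ | 0 < z.im} :=
  fun _ hz => (sh_diff hz).differentiableWithinAt

lemma kern_isOpen : IsOpen {z : ℂ | 0 < z.im} := isOpen_lt continuous_const Complex.continuous_im

lemma kern_deriv_cont {z : ℂ} (hz : 0 < z.im) : ContinuousAt (deriv sh) z :=
  ((kern_sh_diffOn.deriv kern_isOpen).differentiableAt (kern_isOpen.mem_nhds hz)).continuousAt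

lemma kern_wz_cont {z : ℂ} (hz : 0 < z.im) : ContinuousAt wz z := by
  unfold wz
  exact continuousAt_const.sub (continuousAt_const.div continuousAt_id (ne_of_im hz))

lemma kern_contAt (x : ℝ) {σ z : ℂ} (hz : 0 < z.im) (h : sh z ^ 2 ≠ σ ^ 2) :
    ContinuousAt (kern x σ) z := by
  unfold kern
  refine (((psi_diff x (im_wz_pos hz)).continuousAt.comp (kern_wz_cont hz)).mul
    (kern_deriv_cont hz)).mul (continuousAt_const.div ?_ (sub_ne_zero.2 h))
  exact ((sh_diff hz).continuousAt.pow 2).sub continuousAt_const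

lemma kern_meas {L : ℝ} (hL : 0 < L) (x : ℝ) {σ : ℂ}
    (h : ∀ η : ℝ, L ≤ η → sh (ln η) ^ 2 ≠ σ ^ 2) :
    AEStronglyMeasurable (fun η : ℝ => kern x σ (ln η) * I) (volume.restrict (Ioi L)) := by
  refine ContinuousOn.aestronglyMeasurable (fun η hη => ?_) measurableSet_Ioi
  have hη' : L < η := hη
  exact (((kern_contAt x (by rw [ln_im]; linarith) (h η hη'.le)).comp
    kern_continuous_ln.continuousAt).mul continuousAt_const).continuousWithinAt

lemma kern_unif {L : ℝ} (hL : 0 < L) {σ₀ : ℂ} (h : ∀ η : ℝ, L ≤ η → sh (ln η) ^ 2 ≠ σ₀ ^ 2) :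
    ∃ r : ℝ, 0 < r ∧ ∃ C : ℝ, ∀ x : ℝ, 0 ≤ x → ∀ σ ∈ ball σ₀ r, ∀ η : ℝ, L ≤ η →
      sh (ln η) ^ 2 ≠ σ ^ 2 ∧
        ‖kern x σ (ln η)‖ ≤ C * (1 + x) ^ (-2 / 3 : ℝ) * Real.exp (-η) := by
  obtain ⟨Y₀, -, C, hC⟩ := kern_high
  set R := ‖σ₀‖ + 1 with hR
  have hR0 : 0 < R := by positivity
  obtain ⟨Y, -, hY⟩ := hC R hR0.le
  set Y' := max Y L with hY'
  have hK : IsCompact (Icc L Y') := isCompact_Icc
  have hpos : ∀ η ∈ Icc L Y', 0 < (ln η).im := fun η hη => by rw [ln_im]; linarith [hη.1]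
  have hc1 : ContinuousOn (fun η : ℝ => ‖sh (ln η) ^ 2 - σ₀ ^ 2‖) (Icc L Y') := fun η hη =>
    (((((sh_diff (hpos η hη)).continuousAt.comp kern_continuous_ln.continuousAt).pow 2).sub
      continuousAt_const).norm).continuousWithinAt
  obtain ⟨η₀, hη₀, hmin⟩ := hK.exists_isMinOn ⟨L, le_rfl, le_max_right _ _⟩ hc1
  set m := ‖sh (ln η₀) ^ 2 - σ₀ ^ 2‖ with hm
  have hm0 : 0 < m := norm_pos_iff.2 (sub_ne_zero.2 (h η₀ hη₀.1))
  have hc2 : ContinuousOn (fun η : ℝ => wz (ln η)) (Icc L Y') := fun η hη =>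
    ((kern_wz_cont (hpos η hη)).comp kern_continuous_ln.continuousAt).continuousWithinAt
  obtain ⟨C₁, hC₁⟩ := psi_compact (hK.image_of_continuousOn hc2) (by
    rintro _ ⟨η, hη, rfl⟩
    exact im_wz_pos (hpos η hη))
  have hc3 : ContinuousOn (fun η : ℝ => deriv sh (ln η)) (Icc L Y') := fun η hη =>
    ((kern_deriv_cont (hpos η hη)).comp kern_continuous_ln.continuousAt).continuousWithinAt
  obtain ⟨C₂, hC₂⟩ := hK.exists_bound_of_continuousOn hc3
  have hC₂0 : 0 ≤ C₂ := (norm_nonneg _).trans (hC₂ η₀ hη₀)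
  refine ⟨min 1 (m / (4 * R)), lt_min one_pos (by positivity),
    max (C * R) (|C₁| * C₂ * (4 * R / m) * Real.exp Y'), fun x hx σ hσ η hη => ?_⟩
  rw [mem_ball_iff_norm, lt_min_iff] at hσ
  obtain ⟨hσ1, hσ2⟩ := hσ
  have hσR : ‖σ‖ ≤ R := by
    have := norm_sub_norm_le σ σ₀
    linarith
  set X := (1 + x) ^ (-2 / 3 : ℝ) with hX
  have hX0 : 0 ≤ X := Real.rpow_nonneg (by linarith) _
  rcases le_total η Y' with hle | hle
  · have hmem : η ∈ Icc L Y' := ⟨hη, hle⟩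
    have h1 : m ≤ ‖sh (ln η) ^ 2 - σ₀ ^ 2‖ := hmin hmem
    have h2 : ‖σ ^ 2 - σ₀ ^ 2‖ ≤ m / 2 := by
      rw [sq_sub_sq, norm_mul]
      have a1 : ‖σ + σ₀‖ ≤ 2 * R := by
        have := norm_add_le σ σ₀
        linarith
      calc ‖σ + σ₀‖ * ‖σ - σ₀‖ ≤ (2 * R) * (m / (4 * R)) := by gcongr
        _ = m / 2 := by field_simp; ring
    have h3 : m / 2 ≤ ‖sh (ln η) ^ 2 - σ ^ 2‖ := by
      have := norm_add_le (sh (ln η) ^ 2 - σ ^ 2) (σ ^ 2 - σ₀ ^ 2)
      rw [sub_add_sub_cancel] at this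
      linarith
    have hdpos : 0 < ‖sh (ln η) ^ 2 - σ ^ 2‖ := lt_of_lt_of_le (by positivity) h3
    refine ⟨sub_ne_zero.1 (norm_pos_iff.1 hdpos), ?_⟩
    have hq : ‖2 * σ / (sh (ln η) ^ 2 - σ ^ 2)‖ ≤ 4 * R / m := by
      rw [norm_div, norm_mul, div_le_div_iff₀ hdpos hm0]
      have : ‖(2 : ℂ)‖ = 2 := by norm_num
      rw [this]
      nlinarith [mul_le_mul_of_nonneg_right hσR hm0.le]
    have h4 : ‖psi x (wz (ln η))‖ ≤ |C₁| * X :=
      (hC₁ x hx _ ⟨η, hmem, rfl⟩).trans (mul_le_mul_of_nonneg_right (le_abs_self _) hX0)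
    have h5 := hC₂ η hmem
    have h6 : 1 ≤ Real.exp Y' * Real.exp (-η) := by
      rw [← Real.exp_add]; exact Real.one_le_exp (by linarith)
    calc ‖kern x σ (ln η)‖ = ‖psi x (wz (ln η))‖ * ‖deriv sh (ln η)‖ *
          ‖2 * σ / (sh (ln η) ^ 2 - σ ^ 2)‖ := by rw [kern, norm_mul, norm_mul]
      _ ≤ (|C₁| * X) * C₂ * (4 * R / m) := by gcongr
      _ ≤ (|C₁| * X) * C₂ * (4 * R / m) * (Real.exp Y' * Real.exp (-η)) :=
          le_mul_of_one_le_right (by positivity) h6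
      _ = (|C₁| * C₂ * (4 * R / m) * Real.exp Y') * X * Real.exp (-η) := by ring
      _ ≤ _ := by gcongr; exact le_max_right _ _
  · obtain ⟨h1, h2⟩ := hY x hx σ (ln η) hσR (by rw [ln_im]; exact (le_max_left _ _).trans hle)
      (by rw [ln_re]; norm_num [abs_of_pos])
    refine ⟨h1, h2.trans ?_⟩
    rw [ln_im, mul_right_comm]
    gcongr
    exact le_max_left _ _

lemma kern_bound_int (A L : ℝ) : IntegrableOn (fun η : ℝ => A * Real.exp (-η)) (Ioi L) :=
  (integrableOn_exp_neg_Ioi L).const_mul A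

lemma kern_int_of_bound {L : ℝ} (hL : 0 < L) (x : ℝ) {σ : ℂ} {A : ℝ}
    (h : ∀ η : ℝ, L ≤ η → sh (ln η) ^ 2 ≠ σ ^ 2 ∧ ‖kern x σ (ln η)‖ ≤ A * Real.exp (-η)) :
    IntegrableOn (fun η : ℝ => kern x σ (ln η) * I) (Ioi L) := by
  refine Integrable.mono' (kern_bound_int A L) (kern_meas hL x fun η hη => (h η hη).1) ?_
  filter_upwards [ae_restrict_mem measurableSet_Ioi] with η hη
  rw [norm_mul, norm_I, mul_one]
  exact (h η (le_of_lt hη)).2

lemma kern_integrable {x : ℝ} (hx : 0 ≤ x) {σ : ℂ}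
    (h : ∀ η : ℝ, 1 / 2 ≤ η → sh (ln η) ^ 2 ≠ σ ^ 2) :
    IntegrableOn (fun η : ℝ => kern x σ (ln η) * I) (Ioi (1 / 2)) := by
  obtain ⟨r, hr, C, hC⟩ := kern_unif (by norm_num) h
  exact kern_int_of_bound (by norm_num) x (hC x hx σ (mem_ball_self hr))

/-- dominated families of holomorphic functions have holomorphic integrals
(`hasDerivAt_integral_of_dominated_loc_of_deriv_le` and the Cauchy estimate; measurability of the
derivative in the parameter: limit of difference quotients, `aestronglyMeasurable_of_tendsto_ae`) -/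
theorem diffOn_integral {α : Type*} [MeasurableSpace α] {μ : Measure α} {U : Set ℂ} (hU : IsOpen U)
    {F : ℂ → α → ℂ} {bound : α → ℝ} (hm : ∀ z ∈ U, AEStronglyMeasurable (F z) μ)
    (hd : ∀ᵐ a ∂μ, DifferentiableOn ℂ (fun z => F z a) U)
    (hb : ∀ᵐ a ∂μ, ∀ z ∈ U, ‖F z a‖ ≤ bound a) (hi : Integrable bound μ) :
    DifferentiableOn ℂ (fun z => ∫ a, F z a ∂μ) U := by
  intro z₀ hz₀
  obtain ⟨ρ, hρ, hball⟩ := nhds_basis_closedBall.mem_iff.1 (hU.mem_nhds hz₀)
  set r := ρ / 2 with hr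
  have hr0 : 0 < r := by positivity
  have hsub : ∀ z ∈ ball z₀ r, closedBall z r ⊆ U := fun z hz =>
    (closedBall_subset_closedBall' (by rw [mem_ball] at hz; linarith)).trans hball
  have hstep : ∀ n : ℕ, z₀ + ((r / (n + 1) : ℝ) : ℂ) ∈ U := fun n => by
    refine hsub z₀ (mem_ball_self hr0) ?_
    rw [mem_closedBall_iff_norm, add_sub_cancel_left, norm_real,
      Real.norm_of_nonneg (by positivity)]
    exact div_le_self hr0.le (by linarith [(Nat.cast_nonneg n : (0 : ℝ) ≤ n)])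
  have hten : Tendsto (fun n : ℕ => ((r / (n + 1) : ℝ) : ℂ)) atTop (𝓝[≠] 0) := by
    refine tendsto_nhdsWithin_iff.2 ⟨?_, Eventually.of_forall fun n => ?_⟩
    · have := (tendsto_one_div_add_atTop_nhds_zero_nat (𝕜 := ℝ)).const_mul r
      rw [mul_zero] at this
      have h2 := (Complex.continuous_ofReal.tendsto 0).comp this
      rw [ofReal_zero] at h2
      refine h2.congr fun n => ?_
      simp only [Function.comp, mul_one_div]
    · have : (r / (n + 1) : ℝ) ≠ 0 := by positivity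
      exact ofReal_ne_zero.2 this
  have hmeas : AEStronglyMeasurable (fun a => deriv (fun z => F z a) z₀) μ := by
    refine aestronglyMeasurable_of_tendsto_ae atTop
      (f := fun (n : ℕ) a => ((r / (n + 1) : ℝ) : ℂ)⁻¹ •
        (F (z₀ + ((r / (n + 1) : ℝ) : ℂ)) a - F z₀ a))
      (fun n => ((hm _ (hstep n)).sub (hm _ hz₀)).const_smul ((r / (n + 1) : ℝ) : ℂ)⁻¹) ?_
    filter_upwards [hd] with a ha
    exact (ha.differentiableAt (hU.mem_nhds hz₀)).hasDerivAt.tendsto_slope_zero.comp hten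
  have key := hasDerivAt_integral_of_dominated_loc_of_deriv_le (μ := μ) (F := F)
    (F' := fun z a => deriv (fun z => F z a) z) (x₀ := z₀) (s := ball z₀ r)
    (bound := fun a => bound a / r) (ball_mem_nhds z₀ hr0)
    (by filter_upwards [hU.mem_nhds hz₀] with z hz using hm z hz)
    (Integrable.mono' hi (hm _ hz₀) (by filter_upwards [hb] with a ha using ha z₀ hz₀))
    hmeas
    (by
      filter_upwards [hd, hb] with a ha1 ha2 z hz
      refine Complex.norm_deriv_le_of_forall_mem_sphere_norm_le hr0 ?_ fun w hw =>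
        ha2 w (hsub z hz (sphere_subset_closedBall hw))
      exact (ha1.mono ((closure_ball_subset_closedBall).trans (hsub z hz))).diffContOnCl)
    (hi.div_const r)
    (by
      filter_upwards [hd] with a ha z hz
      exact (ha.differentiableAt (hU.mem_nhds (hsub z hz (mem_closedBall_self hr0.le)))).hasDerivAt)
  exact key.2.differentiableAt.differentiableWithinAt

/-- compactness on `[L, Y]` (`psi_compact`), `kern_high` beyond, `diffOn_integral` -/
theorem tail_reg {L : ℝ} (hL : 0 < L) {σ₀ : ℂ} (h : ∀ η : ℝ, L ≤ η → sh (ln η) ^ 2 ≠ σ₀ ^ 2) :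
    ∃ r : ℝ, 0 < r ∧ ∃ C : ℝ, ∀ x : ℝ, 0 ≤ x →
      DifferentiableOn ℂ (fun σ => ∫ η in Ioi L, kern x σ (ln η) * I) (ball σ₀ r) ∧
      ∀ σ ∈ ball σ₀ r, IntegrableOn (fun η : ℝ => kern x σ (ln η) * I) (Ioi L) ∧
        ‖∫ η in Ioi L, kern x σ (ln η) * I‖ ≤ C * (1 + x) ^ (-2 / 3 : ℝ) := by
  obtain ⟨r, hr, C, hC⟩ := kern_unif hL h
  refine ⟨r, hr, C * Real.exp (-L), fun x hx => ⟨?_, fun σ hσ =>
    ⟨kern_int_of_bound hL x (hC x hx σ hσ), ?_⟩⟩⟩
  · refine diffOn_integral (F := fun σ η => kern x σ (ln η) * I) isOpen_ball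
      (fun σ hσ => kern_meas hL x fun η hη => (hC x hx σ hσ η hη).1) ?_ ?_
      (kern_bound_int (C * (1 + x) ^ (-2 / 3 : ℝ)) L)
    · filter_upwards [ae_restrict_mem measurableSet_Ioi] with η hη σ hσ
      have hne := sub_ne_zero.2 (hC x hx σ hσ η (le_of_lt hη)).1
      refine DifferentiableAt.differentiableWithinAt ?_
      unfold kern
      fun_prop (disch := exact hne)
    · filter_upwards [ae_restrict_mem measurableSet_Ioi] with η hη σ hσ
      rw [norm_mul, norm_I, mul_one]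
      exact (hC x hx σ hσ η (le_of_lt hη)).2
  · refine (norm_integral_le_of_norm_le (kern_bound_int (C * (1 + x) ^ (-2 / 3 : ℝ)) L) ?_).trans ?_
    · filter_upwards [ae_restrict_mem measurableSet_Ioi] with η hη
      rw [norm_mul, norm_I, mul_one]
      exact (hC x hx σ hσ η (le_of_lt hη)).2
    · rw [integral_const_mul, integral_exp_neg_Ioi]
      exact le_of_eq (by ring)

/-- from `tail_reg` -/
theorem hk_reg {σ₀ : ℂ} (h : ∀ η : ℝ, 1 / 2 ≤ η → sh (ln η) ^ 2 ≠ σ₀ ^ 2) :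
    ∃ r : ℝ, 0 < r ∧ ∃ C : ℝ, ∀ x : ℝ, 0 ≤ x → DifferentiableOn ℂ (hk x) (ball σ₀ r) ∧
      ∀ σ ∈ ball σ₀ r, ‖hk x σ‖ ≤ C * (1 + x) ^ (-2 / 3 : ℝ) := by
  obtain ⟨r, hr, C, hC⟩ := tail_reg (by norm_num) h
  refine ⟨r, hr, ‖(1 / (2 * π * I) : ℂ)‖ * C, fun x hx => ⟨?_, fun σ hσ => ?_⟩⟩
  · exact (hC x hx).1.const_mul _
  · rw [hk_eq, norm_mul, mul_assoc _ C]
    exact mul_le_mul_of_nonneg_left ((hC x hx).2 σ hσ).2 (norm_nonneg _)

end

end Pool.Agent.MP_9f080f_an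

end

-- part MP_9f080f_an.LocA
section

namespace Pool.Agent.MP_9f080f_an
open Complex MeasureTheory Set Filter Topology Metric
open scoped Real

noncomputable section

/-! Cauchy's formula for a rectangle. -/

lemma loc_log_sub {z : ℂ} (hz : 0 < z.im) : log z - log (-z) = π * I := by
  apply Complex.ext
  · simp [Complex.log_re]
  · simp [Complex.log_im, Complex.arg_neg_eq_arg_sub_pi_of_im_pos hz]

lemma loc_ftc {m q : ℂ} {s t : ℝ} (h : ∀ u ∈ uIcc s t, m * u + q ∈ slitPlane) :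
    ∫ u in s..t, m / (m * u + q) = log (m * t + q) - log (m * s + q) := by
  refine intervalIntegral.integral_eq_sub_of_hasDerivAt (f := fun u : ℝ => log (m * u + q))
    (fun u hu => ?_) (ContinuousOn.intervalIntegrable ?_)
  · have h1 : HasDerivAt (fun w : ℂ => m * w + q) m (u : ℂ) := by
      simpa using ((hasDerivAt_id (u : ℂ)).const_mul m).add_const q
    exact (h1.clog (h u hu)).comp_ofReal
  · exact continuousOn_const.div (by fun_prop) (fun u hu => slitPlane_ne_zero (h u hu))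

lemma loc_wind {a b c d : ℝ} {p : ℂ} (h1 : a < p.re) (h2 : p.re < b) (h3 : c < p.im)
    (h4 : p.im < d) :
    (∫ u in a..b, 1 / ((u : ℂ) + c * I - p)) - (∫ u in a..b, 1 / ((u : ℂ) + d * I - p))
      + I * (∫ v in c..d, 1 / ((b : ℂ) + v * I - p))
      - I * (∫ v in c..d, 1 / ((a : ℂ) + v * I - p)) = 2 * π * I := by
  have e1 := loc_ftc (m := 1) (q := c * I - p) (s := a) (t := b) (fun u _ => by
    rw [mem_slitPlane_iff]; right; simp; linarith)
  have e2 := loc_ftc (m := 1) (q := d * I - p) (s := a) (t := b) (fun u _ => by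
    rw [mem_slitPlane_iff]; right; simp; linarith)
  have e3 := loc_ftc (m := I) (q := b - p) (s := c) (t := d) (fun u _ => by
    rw [mem_slitPlane_iff]; left; simp; linarith)
  have e4 := loc_ftc (m := -I) (q := p - a) (s := c) (t := d) (fun u _ => by
    rw [mem_slitPlane_iff]; left; simp; linarith)
  have f1 : (∫ u in a..b, 1 / ((u : ℂ) + c * I - p)) = ∫ u in a..b, 1 / (1 * (u : ℂ) + (c * I - p)) := by
    congr 1; ext u; congr 1; ring
  have f2 : (∫ u in a..b, 1 / ((u : ℂ) + d * I - p)) = ∫ u in a..b, 1 / (1 * (u : ℂ) + (d * I - p)) := by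
    congr 1; ext u; congr 1; ring
  have f3 : I * (∫ v in c..d, 1 / ((b : ℂ) + v * I - p)) = ∫ v in c..d, I / (I * (v : ℂ) + (b - p)) := by
    rw [← intervalIntegral.integral_const_mul]
    congr 1; ext u
    rw [mul_one_div]; congr 1; ring
  have f4 : I * (∫ v in c..d, 1 / ((a : ℂ) + v * I - p)) =
      ∫ v in c..d, -I / (-I * (v : ℂ) + (p - a)) := by
    rw [← intervalIntegral.integral_const_mul]
    congr 1; ext u
    rw [mul_one_div, show -I * (u : ℂ) + (p - a) = -(a + u * I - p) by ring, neg_div_neg_eq]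
  rw [f1, f2, f3, f4, e1, e2, e3, e4]
  have g1 := loc_log_sub (z := 1 * (a : ℂ) + (d * I - p)) (by simp; linarith)
  have g2 := loc_log_sub (z := -I * (c : ℂ) + (p - a)) (by simp; linarith)
  rw [show -(1 * (a : ℂ) + (d * I - p)) = -I * d + (p - a) by ring] at g1
  rw [show -(-I * (c : ℂ) + (p - a)) = 1 * a + (c * I - p) by ring] at g2
  rw [show I * (d : ℂ) + (b - p) = 1 * b + (d * I - p) by ring,
    show I * (c : ℂ) + (b - p) = 1 * b + (c * I - p) by ring]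
  linear_combination g1 + g2

lemma loc_split {f : ℂ → ℂ} {S : Set ℂ} {p : ℂ} (hf : ContinuousOn (dslope f p) S) {γ : ℝ → ℂ}
    (hγ : Continuous γ) {s t : ℝ} (h1 : ∀ u ∈ uIcc s t, γ u ∈ S) (h2 : ∀ u ∈ uIcc s t, γ u ≠ p) :
    ∫ u in s..t, f (γ u) / (γ u - p) =
      (∫ u in s..t, dslope f p (γ u)) + f p * ∫ u in s..t, 1 / (γ u - p) := by
  rw [← intervalIntegral.integral_const_mul, ← intervalIntegral.integral_add]
  · refine intervalIntegral.integral_congr (fun u hu => ?_)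
    have h3 : γ u - p ≠ 0 := sub_ne_zero.2 (h2 u hu)
    simp only [dslope_of_ne f (h2 u hu), slope_def_field]
    field_simp
    ring
  · exact (hf.comp hγ.continuousOn h1).intervalIntegrable
  · refine ContinuousOn.intervalIntegrable (continuousOn_const.mul (continuousOn_const.div
      (by fun_prop) (fun u hu => sub_ne_zero.2 (h2 u hu))))

theorem loc_rect {f : ℂ → ℂ} {a b c d : ℝ} {p : ℂ} (hf : DifferentiableOn ℂ f (Icc a b ×ℂ Icc c d))
    (h1 : a < p.re) (h2 : p.re < b) (h3 : c < p.im) (h4 : p.im < d) :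
    (∫ u in a..b, f (u + c * I) / (u + c * I - p)) - (∫ u in a..b, f (u + d * I) / (u + d * I - p))
      + I * (∫ v in c..d, f (b + v * I) / (b + v * I - p))
      - I * (∫ v in c..d, f (a + v * I) / (a + v * I - p)) = 2 * π * I * f p := by
  have hab : a ≤ b := (h1.trans h2).le
  have hcd : c ≤ d := (h3.trans h4).le
  have hn : (Icc a b ×ℂ Icc c d) ∈ 𝓝 p :=
    mem_of_superset ((isOpen_Ioo.reProdIm isOpen_Ioo).mem_nhds
      (show p ∈ Ioo a b ×ℂ Ioo c d from ⟨⟨h1, h2⟩, ⟨h3, h4⟩⟩))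
      (inter_subset_inter (preimage_mono Ioo_subset_Icc_self) (preimage_mono Ioo_subset_Icc_self))
  have hd := (Complex.differentiableOn_dslope hn).2 hf
  have h0 := integral_boundary_rect_eq_zero_of_differentiableOn (dslope f p) (a + c * I) (b + d * I)
    (by simpa [uIcc_of_le hab, uIcc_of_le hcd] using hd)
  simp only [add_re, ofReal_re, mul_re, I_re, mul_zero, ofReal_im, I_im, mul_one, sub_self,
    add_zero, add_im, mul_im, zero_add, smul_eq_mul] at h0
  have e1 := loc_split hd.continuousOn (γ := fun u : ℝ => u + c * I) (by fun_prop) (s := a) (t := b)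
    (fun u hu => by rw [uIcc_of_le hab] at hu; simpa [mem_reProdIm, hcd] using hu)
    (fun u _ h => by have := congrArg im h; simp at this; linarith)
  have e2 := loc_split hd.continuousOn (γ := fun u : ℝ => u + d * I) (by fun_prop) (s := a) (t := b)
    (fun u hu => by rw [uIcc_of_le hab] at hu; simpa [mem_reProdIm, hcd] using hu)
    (fun u _ h => by have := congrArg im h; simp at this; linarith)
  have e3 := loc_split hd.continuousOn (γ := fun v : ℝ => b + v * I) (by fun_prop) (s := c) (t := d)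
    (fun u hu => by rw [uIcc_of_le hcd] at hu; simpa [mem_reProdIm, hab] using hu)
    (fun u _ h => by have := congrArg re h; simp at this; linarith)
  have e4 := loc_split hd.continuousOn (γ := fun v : ℝ => a + v * I) (by fun_prop) (s := c) (t := d)
    (fun u hu => by rw [uIcc_of_le hcd] at hu; simpa [mem_reProdIm, hab] using hu)
    (fun u _ h => by have := congrArg re h; simp at this; linarith)
  rw [e1, e2, e3, e4]
  linear_combination h0 + f p * loc_wind h1 h2 h3 h4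

end

end Pool.Agent.MP_9f080f_an

end

-- part MP_9f080f_an.LocB
section

namespace Pool.Agent.MP_9f080f_an
open Complex MeasureTheory Set Filter Topology Metric
open scoped Real

noncomputable section

/-! Pieces of the contour. -/

/-- one half of `psi` -/
def locps (x : ℝ) (w : ℂ) : ℂ := ep (x * w) / th3 w
/-- the Cauchy kernel -/
def lock (σ z : ℂ) : ℂ := deriv sh z * (2 * σ / (sh z ^ 2 - σ ^ 2))
/-- the integrand -/
def locF (x : ℝ) (σ z : ℂ) : ℂ := locps x (wz z) * lock σ z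

lemma loc_psi (x : ℝ) (w : ℂ) : psi x w = locps x w + locps x (-1 / w) := rfl

lemma locF_neg (x : ℝ) (σ z : ℂ) : locF x (-σ) z = -locF x σ z := by
  simp only [locF, lock, neg_sq]; ring

lemma locps_diff (x : ℝ) {w : ℂ} (h : 0 < w.im) : DifferentiableAt ℂ (locps x) w :=
  DifferentiableAt.div (c := fun w => ep (x * w)) (by fun_prop) (th3_diff h) (th3_ne h)

lemma loc_exp {a : ℝ} (ha : 0 < a) {x : ℝ} (hx : 0 ≤ x) :
    Real.exp (-(a * x)) ≤ (1 + 1 / a) * (1 + x) ^ (-2 / 3 : ℝ) := by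
  have h1 : (1 + x) ^ (-1 : ℝ) ≤ (1 + x) ^ (-2 / 3 : ℝ) :=
    Real.rpow_le_rpow_of_exponent_le (by linarith) (by norm_num)
  rw [Real.rpow_neg_one] at h1
  have h2 := Real.add_one_le_exp (a * x)
  have h3 : 0 < 1 / a := by positivity
  have h4 : 1 / a * (a * x) = x := by field_simp
  have h5 : 0 ≤ a * x := by positivity
  have h6 : Real.exp (-(a * x)) ≤ (1 + 1 / a) * (1 + x)⁻¹ := by
    rw [Real.exp_neg, ← div_eq_mul_inv, inv_eq_one_div, div_le_div_iff₀ (Real.exp_pos _) (by linarith)]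
    nlinarith
  exact h6.trans (mul_le_mul_of_nonneg_left h1 (by linarith))

lemma locps_compact {K : Set ℂ} (hK : IsCompact K) (hK' : ∀ z ∈ K, 0 < z.im) :
    ∃ C : ℝ, 0 ≤ C ∧ ∀ x : ℝ, 0 ≤ x → ∀ w ∈ K, ‖locps x w‖ ≤ C * (1 + x) ^ (-2 / 3 : ℝ) := by
  obtain ⟨m, hm, hmK⟩ := hK.exists_forall_le' continuous_im.continuousOn hK'
  obtain ⟨M, hM⟩ := hK.exists_bound_of_continuousOn (f := fun w => (th3 w)⁻¹)
    (fun w hw => ((th3_diff (hK' w hw)).continuousAt.inv₀ (th3_ne (hK' w hw))).continuousWithinAt)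
  have ha : 0 < π * m := by positivity
  refine ⟨(1 + 1 / (π * m)) * |M|, by positivity, fun x hx w hw => ?_⟩
  have h1 : ‖ep (x * w)‖ ≤ (1 + 1 / (π * m)) * (1 + x) ^ (-2 / 3 : ℝ) := by
    refine le_trans ?_ (loc_exp ha hx)
    rw [norm_ep, Real.exp_le_exp]
    have := mul_le_mul_of_nonneg_left (hmK w hw) (mul_nonneg Real.pi_pos.le hx)
    simp only [mul_im, ofReal_re, ofReal_im, zero_mul, add_zero]
    linarith
  rw [locps, div_eq_mul_inv, norm_mul]
  calc _ ≤ ((1 + 1 / (π * m)) * (1 + x) ^ (-2 / 3 : ℝ)) * |M| :=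
        mul_le_mul h1 ((hM w hw).trans (le_abs_self M)) (norm_nonneg _) (by positivity)
    _ = _ := by ring

lemma loc_wz_diff {z : ℂ} (hz : 0 < z.im) : DifferentiableAt ℂ wz z :=
  (differentiableAt_const _).sub ((differentiableAt_const _).div differentiableAt_id (ne_of_im hz))

lemma loc_zw_diff {w : ℂ} (hw : 0 < w.im) : DifferentiableAt ℂ zw w :=
  (differentiableAt_const _).div ((differentiableAt_const _).sub differentiableAt_id) (one_sub_ne hw)

lemma loc_open : IsOpen {z : ℂ | 0 < z.im} := isOpen_lt continuous_const continuous_im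

lemma loc_dsh_diff {z : ℂ} (hz : 0 < z.im) : DifferentiableAt ℂ (deriv sh) z := by
  have h : DifferentiableOn ℂ sh {z : ℂ | 0 < z.im} :=
    fun w hw => (sh_diff hw).differentiableWithinAt
  exact (h.deriv loc_open).differentiableAt (loc_open.mem_nhds hz)

lemma loc_pw_diff (x : ℝ) {z : ℂ} (hz : 0 < z.im) :
    DifferentiableAt ℂ (fun z => locps x (wz z)) z :=
  (locps_diff x (im_wz_pos hz)).comp z (loc_wz_diff hz)

lemma lock_cont {σ z : ℂ} (hz : 0 < z.im) (h : sh z ^ 2 ≠ σ ^ 2) :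
    ContinuousAt (fun p : ℂ × ℂ => lock p.1 p.2) (σ, z) := by
  have h1 : ContinuousAt (fun p : ℂ × ℂ => deriv sh p.2) (σ, z) :=
    ContinuousAt.comp (g := deriv sh) (loc_dsh_diff hz).continuousAt continuousAt_snd
  have h2 : ContinuousAt (fun p : ℂ × ℂ => sh p.2) (σ, z) :=
    ContinuousAt.comp (g := sh) (sh_diff hz).continuousAt continuousAt_snd
  exact h1.mul ((continuousAt_const.mul continuousAt_fst).div
    ((h2.pow 2).sub (continuousAt_fst.pow 2)) (sub_ne_zero.2 h))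

lemma lock_cont' {σ z : ℂ} (hz : 0 < z.im) (h : sh z ^ 2 ≠ σ ^ 2) : ContinuousAt (lock σ) z :=
  ContinuousAt.comp (f := fun w : ℂ => (σ, w)) (g := fun p : ℂ × ℂ => lock p.1 p.2)
    (lock_cont hz h) (by fun_prop)

lemma locF_cont (x : ℝ) {σ z : ℂ} (hz : 0 < z.im) (h : sh z ^ 2 ≠ σ ^ 2) :
    ContinuousAt (locF x σ) z :=
  (loc_pw_diff x hz).continuousAt.mul (lock_cont' hz h)

lemma loc_side {γ : ℝ → ℂ} (hγ : Continuous γ) {s t : ℝ} (hst : s ≤ t) {σ₀ : ℂ}
    (h1 : ∀ u ∈ Icc s t, 0 < (γ u).im) (h2 : ∀ u ∈ Icc s t, sh (γ u) ^ 2 ≠ σ₀ ^ 2) :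
    ∃ r : ℝ, 0 < r ∧ ∃ C : ℝ, ∀ x : ℝ, 0 ≤ x →
      DifferentiableOn ℂ (fun σ => ∫ u in s..t, locF x σ (γ u)) (ball σ₀ r) ∧
      ∀ σ ∈ ball σ₀ r, ‖∫ u in s..t, locF x σ (γ u)‖ ≤ C * (1 + x) ^ (-2 / 3 : ℝ) := by
  have hev : ∀ᶠ σ in 𝓝 σ₀, ∀ u ∈ Icc s t, sh (γ u) ^ 2 ≠ σ ^ 2 := by
    refine isCompact_Icc.eventually_forall_of_forall_eventually
      (P := fun (σ : ℂ) (u : ℝ) => sh (γ u) ^ 2 ≠ σ ^ 2) (fun u hu => ?_)
    have h3 : ContinuousAt (fun p : ℂ × ℝ => sh (γ p.2)) (σ₀, u) :=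
      ContinuousAt.comp (g := sh) (sh_diff (h1 u hu)).continuousAt (by fun_prop)
    have h4 : ContinuousAt (fun p : ℂ × ℝ => sh (γ p.2) ^ 2 - p.1 ^ 2) (σ₀, u) :=
      (h3.pow 2).sub (continuousAt_fst.pow 2)
    exact (h4.eventually_ne (sub_ne_zero.2 (h2 u hu))).mono fun p hp => sub_ne_zero.1 hp
  obtain ⟨r, hr, hb⟩ := nhds_basis_closedBall.eventually_iff.1 hev
  obtain ⟨M, hM⟩ := ((isCompact_closedBall σ₀ r).prod (isCompact_Icc (a := s) (b := t))).exists_bound_of_continuousOn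
    (f := fun p : ℂ × ℝ => lock p.1 (γ p.2)) (fun p hp =>
      (ContinuousAt.comp (f := fun p : ℂ × ℝ => (p.1, γ p.2)) (g := fun p : ℂ × ℂ => lock p.1 p.2)
        (lock_cont (h1 _ hp.2) (hb hp.1 _ hp.2)) (by fun_prop)).continuousWithinAt)
  obtain ⟨C, hC0, hC⟩ := locps_compact (K := (fun u => wz (γ u)) '' Icc s t)
    (isCompact_Icc.image_of_continuousOn (fun u hu =>
      (ContinuousAt.comp (g := wz) (loc_wz_diff (h1 u hu)).continuousAt
        hγ.continuousAt).continuousWithinAt))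
    (by rintro _ ⟨u, hu, rfl⟩; exact im_wz_pos (h1 u hu))
  refine ⟨r, hr, C * |M| * |t - s|, fun x hx => ?_⟩
  have hbd : ∀ u ∈ Icc s t, ∀ σ ∈ ball σ₀ r,
      ‖locF x σ (γ u)‖ ≤ C * (1 + x) ^ (-2 / 3 : ℝ) * |M| := fun u hu σ hσ => by
    rw [locF, norm_mul]
    exact mul_le_mul (hC x hx _ ⟨u, hu, rfl⟩)
      ((hM (σ, u) ⟨ball_subset_closedBall hσ, hu⟩).trans (le_abs_self M)) (norm_nonneg _)
      (by positivity)
  refine ⟨?_, fun σ hσ => ?_⟩
  · simp only [intervalIntegral.integral_of_le hst]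
    refine diffOn_integral isOpen_ball (F := fun σ u => locF x σ (γ u))
      (bound := fun _ => C * (1 + x) ^ (-2 / 3 : ℝ) * |M|) (fun σ hσ => ?_) ?_ ?_ (integrable_const _)
    · refine ContinuousOn.aestronglyMeasurable (fun u hu => ?_) measurableSet_Ioc
      have hu' := Ioc_subset_Icc_self hu
      exact (ContinuousAt.comp (g := locF x σ)
        (locF_cont x (h1 u hu') (hb (ball_subset_closedBall hσ) u hu'))
        hγ.continuousAt).continuousWithinAt
    · refine ae_restrict_of_forall_mem measurableSet_Ioc (fun u hu σ hσ => ?_)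
      have hu' := Ioc_subset_Icc_self hu
      have h5 := sub_ne_zero.2 (hb (ball_subset_closedBall hσ) u hu')
      refine DifferentiableAt.differentiableWithinAt ?_
      unfold locF lock
      fun_prop (disch := exact h5)
    · exact ae_restrict_of_forall_mem measurableSet_Ioc
        (fun u hu σ hσ => hbd u (Ioc_subset_Icc_self hu) σ hσ)
  · have := intervalIntegral.norm_integral_le_of_norm_le_const (a := s) (b := t)
      (f := fun u => locF x σ (γ u)) (C := C * (1 + x) ^ (-2 / 3 : ℝ) * |M|) (fun u hu => by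
        rw [uIoc_of_le hst] at hu
        exact hbd u (Ioc_subset_Icc_self hu) σ hσ)
    refine this.trans (le_of_eq ?_)
    ring

lemma loc_res (x : ℝ) {a b c d : ℝ} (hc : 0 < c) {p : ℂ} (h1 : a < p.re) (h2 : p.re < b)
    (h3 : c < p.im) (h4 : p.im < d) (hu : ∀ z ∈ Icc a b ×ℂ Icc c d, sh z ^ 2 = sh p ^ 2 → z = p)
    (h0 : sh p ≠ 0) :
    (∫ u in a..b, locF x (sh p) (u + c * I)) - (∫ u in a..b, locF x (sh p) (u + d * I))
      + I * (∫ v in c..d, locF x (sh p) (b + v * I))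
      - I * (∫ v in c..d, locF x (sh p) (a + v * I)) = 2 * π * I * locps x (wz p) := by
  have hp : 0 < p.im := hc.trans h3
  have him : ∀ z ∈ Icc a b ×ℂ Icc c d, 0 < z.im := fun z hz => hc.trans_le hz.2.1
  have hn : (Icc a b ×ℂ Icc c d) ∈ 𝓝 p :=
    mem_of_superset ((isOpen_Ioo.reProdIm isOpen_Ioo).mem_nhds
      (show p ∈ Ioo a b ×ℂ Ioo c d from ⟨⟨h1, h2⟩, ⟨h3, h4⟩⟩))
      (inter_subset_inter (preimage_mono Ioo_subset_Icc_self) (preimage_mono Ioo_subset_Icc_self))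
  have hsh : DifferentiableOn ℂ sh (Icc a b ×ℂ Icc c d) :=
    fun z hz => (sh_diff (him z hz)).differentiableWithinAt
  have hd := (Complex.differentiableOn_dslope hn).2 hsh
  have n1 : ∀ z ∈ Icc a b ×ℂ Icc c d, sh z + sh p ≠ 0 := fun z hz h => by
    have e : sh z = -sh p := eq_neg_of_add_eq_zero_left h
    have e2 := hu z hz (by rw [e, neg_sq])
    rw [e2] at h
    exact h0 (by linear_combination h / 2)
  have n2 : ∀ z ∈ Icc a b ×ℂ Icc c d, dslope sh p z ≠ 0 := fun z hz => by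
    by_cases h : z = p
    · rw [h, dslope_same]; exact deriv_sh_ne hp
    · rw [dslope_of_ne sh h, slope_def_field]
      refine div_ne_zero (sub_ne_zero.2 fun e => h (hu z hz (by rw [e]))) (sub_ne_zero.2 h)
  set f : ℂ → ℂ := fun z =>
    locps x (wz z) * deriv sh z * (2 * sh p) / ((sh z + sh p) * dslope sh p z) with hf
  have hfd : DifferentiableOn ℂ f (Icc a b ×ℂ Icc c d) := by
    refine DifferentiableOn.div (fun z hz => ?_) ((hsh.add_const _).mul hd)
      (fun z hz => mul_ne_zero (n1 z hz) (n2 z hz))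
    exact (((loc_pw_diff x (him z hz)).mul (loc_dsh_diff (him z hz))).mul_const _).differentiableWithinAt
  have key : ∀ z, z ≠ p → locF x (sh p) z = f z / (z - p) := fun z hz => by
    have e : sh z ^ 2 - sh p ^ 2 = (sh z + sh p) * dslope sh p z * (z - p) := by
      have := sub_ne_zero.2 hz
      rw [dslope_of_ne sh hz, slope_def_field]
      field_simp
      ring
    simp only [hf, locF, lock, e, div_div]
    ring
  have hfp : f p = locps x (wz p) := by
    have := deriv_sh_ne hp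
    have h5 : sh p + sh p = 2 * sh p := by ring
    simp only [hf, dslope_same, h5]
    field_simp
  rw [← hfp, ← loc_rect hfd h1 h2 h3 h4]
  congr 1
  · congr 1
    · congr 1
      · exact intervalIntegral.integral_congr fun u _ => key _ fun h => by
          have := congrArg im h; simp at this; linarith
      · exact intervalIntegral.integral_congr fun u _ => key _ fun h => by
          have := congrArg im h; simp at this; linarith
    · congr 1
      exact intervalIntegral.integral_congr fun u _ => key _ fun h => by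
        have := congrArg re h; simp at this; linarith
  · congr 1
    exact intervalIntegral.integral_congr fun u _ => key _ fun h => by
      have := congrArg re h; simp at this; linarith

end

end Pool.Agent.MP_9f080f_an

end
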