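import Pool.Agent.MP_9f080f_an.Mg.Basic

namespace Pool.Agent.MP_9f080f_an
open Complex MeasureTheory Set Filter Topology Metric
open scoped Real

noncomputable section

open scoped FourierTransform

/-- continuous functions with rapid decay -/
def TrDec (φ : ℝ → ℂ) : Prop :=
  Continuous φ ∧ ∀ M : ℕ, ∃ A : ℝ, ∀ x : ℝ, ‖φ x‖ * (1 + x ^ 2) ^ M ≤ A

lemma transfer_exp_bound {c : ℝ} (hc : 0 < c) (M : ℕ) :
    ∃ B : ℝ, 0 ≤ B ∧ ∀ y : ℝ, Real.exp (-c * y ^ 2) * (1 + y ^ 2) ^ M ≤ B := by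
  refine ⟨Real.exp c * (M.factorial / c ^ M), by positivity, fun y => ?_⟩
  have h1 : (c * (1 + y ^ 2)) ^ M / M.factorial ≤ Real.exp (c * (1 + y ^ 2)) :=
    Real.pow_div_factorial_le_exp _ (by positivity) M
  have hf : (0 : ℝ) < M.factorial := by positivity
  have hcM : 0 < c ^ M := by positivity
  rw [div_le_iff₀ hf, mul_pow] at h1
  have h2 : (1 + y ^ 2) ^ M ≤ Real.exp (c * (1 + y ^ 2)) * (M.factorial / c ^ M) := by
    rw [← mul_div_assoc, le_div_iff₀ hcM]; linarith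
  calc Real.exp (-c * y ^ 2) * (1 + y ^ 2) ^ M
      ≤ Real.exp (-c * y ^ 2) * (Real.exp (c * (1 + y ^ 2)) * (M.factorial / c ^ M)) := by
        gcongr
    _ = Real.exp c * (M.factorial / c ^ M) := by
        rw [← mul_assoc, ← Real.exp_add]; congr 2; ring

lemma transfer_peetre (M : ℕ) (x y : ℝ) :
    (1 + (x + y) ^ 2) ^ M ≤ 2 ^ M * ((1 + x ^ 2) ^ M * (1 + y ^ 2) ^ M) := by
  rw [← mul_pow, ← mul_pow]
  refine pow_le_pow_left₀ (by positivity) ?_ M
  nlinarith [sq_nonneg (x - y), sq_nonneg (x * y)]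

lemma TrDec.integrable_weight {φ : ℝ → ℂ} (h : TrDec φ) (M : ℕ) :
    Integrable (fun x : ℝ => (1 + x ^ 2) ^ M * ‖φ x‖) := by
  obtain ⟨A, hA⟩ := h.2 (M + 1)
  have hc := h.1
  refine (integrable_inv_one_add_sq.const_mul A).mono' (by fun_prop) (ae_of_all _ fun x => ?_)
  have hp : 0 < 1 + x ^ 2 := by positivity
  rw [Real.norm_of_nonneg (by positivity), ← div_eq_mul_inv, le_div_iff₀ hp]
  have := hA x
  rw [pow_succ] at this
  linarith

lemma TrDec.integrable {φ : ℝ → ℂ} (h : TrDec φ) : Integrable φ := by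
  have := h.integrable_weight 0
  simp only [pow_zero, one_mul] at this
  exact (integrable_norm_iff h.1.aestronglyMeasurable).1 this

lemma transfer_dec_schwartz (b : SchwartzMap ℝ ℂ) : TrDec b := by
  refine ⟨b.continuous, fun M => ?_⟩
  refine ⟨2 ^ (2 * M) * (Finset.Iic (2 * M, 0)).sup
    (fun m => SchwartzMap.seminorm ℝ m.1 m.2) b, fun x => ?_⟩
  have h := SchwartzMap.one_add_le_sup_seminorm_apply (𝕜 := ℝ) (m := (2 * M, 0)) (k := 2 * M)
    (n := 0) le_rfl le_rfl b x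
  rw [norm_iteratedFDeriv_zero] at h
  refine le_trans ?_ h
  rw [mul_comm, pow_mul]
  gcongr
  have : x ^ 2 = ‖x‖ ^ 2 := by rw [Real.norm_eq_abs, sq_abs]
  rw [this]; nlinarith [norm_nonneg x]

lemma transfer_dec_gauss {τ : ℂ} (hτ : 0 < τ.im) : TrDec (fun x : ℝ => ep (x ^ 2 * τ)) := by
  refine ⟨by fun_prop, fun M => ?_⟩
  obtain ⟨B, -, hB⟩ := transfer_exp_bound (mul_pos Real.pi_pos hτ) M
  refine ⟨B, fun x => ?_⟩
  have e : (((x : ℂ) ^ 2 * τ)).im = x ^ 2 * τ.im := by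
    rw [← ofReal_pow, im_ofReal_mul]
  rw [norm_ep, e]
  have := hB x
  rwa [show -(π * τ.im) * x ^ 2 = -π * (x ^ 2 * τ.im) by ring] at this

/-- Gaussian integral with a prescribed square root -/
lemma transfer_gauss {w u : ℂ} (hw : 0 < w.re) (hu : 0 < u.re) (h : u ^ 2 = w) (c d : ℂ) :
    ∫ y : ℝ, cexp (-π * w * y ^ 2 + c * y + d) = u⁻¹ * cexp (d + c ^ 2 / (4 * π * w)) := by
  have hw0 : w ≠ 0 := by rintro rfl; simp at hw
  have hu0 : u ≠ 0 := by rintro rfl; simp at hu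
  have hπ : (π : ℂ) ≠ 0 := ofReal_ne_zero.2 Real.pi_ne_zero
  have hb : (-π * w : ℂ).re < 0 := by
    simp only [neg_mul, neg_re, re_ofReal_mul, neg_lt_zero]; exact mul_pos Real.pi_pos hw
  rw [integral_cexp_quadratic hb]
  have e1 : (π : ℂ) / -(-π * w) = -I * (I * w⁻¹) := by
    rw [← mul_assoc, neg_mul I I, I_mul_I]; field_simp
  have him : 0 < (I * w⁻¹).im := by
    simp only [mul_im, I_re, zero_mul, I_im, one_mul, zero_add, inv_re]
    exact div_pos hw (normSq_pos.2 hw0)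
  have e2 : ((π : ℂ) / -(-π * w)) ^ (1 / 2 : ℂ) = u⁻¹ := by
    rw [e1]
    change rt (I * w⁻¹) = u⁻¹
    refine eq_of_sq_eq ?_ (rt_re_pos him.le (ne_of_im him)) ?_
    · rw [rt_sq, inv_pow, h, ← mul_assoc, neg_mul I I, I_mul_I]; ring
    · rw [inv_re]; exact div_pos hu (normSq_pos.2 hu0)
  rw [e2]
  congr 2
  field_simp
  ring

/-- uniqueness: the even part of a function is determined by the integrals against
`exp (i π t x²)` -/
lemma transfer_unique {P : ℝ → ℂ} (hc : Continuous P) (hi : Integrable P)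
    (h : ∀ t : ℝ, ∫ x : ℝ, P x * ep (x ^ 2 * t) = 0) {x : ℝ} (hx : 0 < x) :
    P x + P (-x) = 0 := by
  set Q : ℝ → ℂ := fun x => P x + P (-x) with hQ
  have hQc : Continuous Q := by fun_prop
  have hQi : Integrable Q := hi.add hi.comp_neg
  have h1 : ∀ t : ℝ, ∫ x in Ioi (0 : ℝ), Q x * ep (x ^ 2 * t) = 0 := by
    intro t
    have hb : ∀ {f : ℝ → ℂ}, Integrable f → Integrable (fun x : ℝ => f x * ep (x ^ 2 * t)) := by
      intro f hf
      refine hf.mul_bdd (c := 1) (by fun_prop) (ae_of_all _ fun x => ?_)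
      rw [← ofReal_pow, ← ofReal_mul, norm_ep_real]
    have e1 : ∫ x in Ioi (0 : ℝ), Q x * ep (x ^ 2 * t) =
        (∫ x in Ioi (0 : ℝ), P x * ep (x ^ 2 * t)) +
          ∫ x in Ioi (0 : ℝ), P (-x) * ep (x ^ 2 * t) := by
      rw [← integral_add (hb hi).integrableOn (hb hi.comp_neg).integrableOn]
      simp only [hQ, add_mul]
    have e2 : ∫ x in Ioi (0 : ℝ), P (-x) * ep (x ^ 2 * t) =
        ∫ x in Iic (0 : ℝ), P x * ep (x ^ 2 * t) := by
      have := integral_comp_neg_Ioi 0 (fun x : ℝ => P x * ep (x ^ 2 * t))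
      simpa using this
    rw [e1, e2, add_comm, ← h t, ← integral_add_compl measurableSet_Iic (hb hi), compl_Iic]
  set g : ℝ → ℂ := (Ioi (0 : ℝ)).indicator
    (fun u : ℝ => (|(1 / 2 : ℝ)| * u ^ ((1 / 2 : ℝ) - 1)) • Q (u ^ (1 / 2 : ℝ))) with hg
  have hgi : Integrable g := by
    rw [hg, integrable_indicator_iff measurableSet_Ioi]
    exact (integrableOn_Ioi_comp_rpow_iff Q (by norm_num)).2 hQi.integrableOn
  have hF : 𝓕 g = 0 := by
    ext ξ
    rw [Real.fourier_real_eq_integral_exp_smul]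
    have e : (fun v : ℝ => cexp (↑(-2 * π * v * ξ) * I) • g v) = (Ioi (0 : ℝ)).indicator
        (fun u : ℝ => (|(1 / 2 : ℝ)| * u ^ ((1 / 2 : ℝ) - 1)) •
          (fun y : ℝ => Q y * ep (y ^ 2 * ((-2 * ξ : ℝ) : ℂ))) (u ^ (1 / 2 : ℝ))) := by
      ext v
      by_cases hv : v ∈ Ioi (0 : ℝ)
      · rw [hg, indicator_of_mem hv, indicator_of_mem hv]
        have hv2 : ((v ^ (1 / 2 : ℝ) : ℝ) : ℂ) ^ 2 = v := by
          rw [← ofReal_pow, ← Real.sqrt_eq_rpow, Real.sq_sqrt (le_of_lt hv)]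
        simp only [hv2, smul_eq_mul, real_smul, ep]
        have : cexp (↑(-2 * π * v * ξ) * I) = cexp (π * I * (v * ((-2 * ξ : ℝ) : ℂ))) := by
          congr 1; push_cast; ring
        rw [this]; ring
      · rw [hg, indicator_of_notMem hv, indicator_of_notMem hv, smul_zero]
    have h0 := integral_comp_rpow_Ioi
      (fun y : ℝ => Q y * ep (y ^ 2 * ((-2 * ξ : ℝ) : ℂ))) (p := 1 / 2) (by norm_num)
    rw [e, integral_indicator measurableSet_Ioi]
    exact h0.trans (h1 _)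
  have hx2 : 0 < x ^ 2 := by positivity
  have hca : ContinuousAt g (x ^ 2) := by
    have h2 : ContinuousAt (fun u : ℝ => (|(1 / 2 : ℝ)| * u ^ ((1 / 2 : ℝ) - 1)) •
        Q (u ^ (1 / 2 : ℝ))) (x ^ 2) := by
      have h₁ : ContinuousAt (fun u : ℝ => u ^ ((1 / 2 : ℝ) - 1)) (x ^ 2) :=
        Real.continuousAt_rpow_const _ _ (Or.inl hx2.ne')
      have h₂ : ContinuousAt (fun u : ℝ => u ^ (1 / 2 : ℝ)) (x ^ 2) :=
        Real.continuousAt_rpow_const _ _ (Or.inl hx2.ne')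
      exact (continuousAt_const.mul h₁).smul
        (ContinuousAt.comp (f := fun u : ℝ => u ^ (1 / 2 : ℝ)) hQc.continuousAt h₂)
    refine h2.congr ?_
    filter_upwards [Ioi_mem_nhds hx2] with u hu
    rw [hg, indicator_of_mem hu]
  have h3 := hgi.fourierInv_fourier_eq (by rw [hF]; exact integrable_zero _ _ _) hca
  rw [hF, hg, indicator_of_mem (mem_Ioi.2 hx2)] at h3
  have h4 : (𝓕⁻ (0 : ℝ → ℂ)) (x ^ 2) = 0 := by
    simp [Real.fourierInv_eq]
  rw [h4, ← Real.sqrt_eq_rpow, Real.sqrt_sq hx.le] at h3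
  have h5 : (|(1 / 2 : ℝ)| * (x ^ 2) ^ ((1 / 2 : ℝ) - 1)) ≠ 0 := by positivity
  exact (smul_eq_zero.1 h3.symm).resolve_left h5

end

end Pool.Agent.MP_9f080f_an
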