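import Mathlib

-- part MP_9f080f_an.Defs
section

/-! Definitions for the polylogarithmic `L²` bound for the Radchenko-Viazovska basis functions. -/

namespace Pool.Agent.MP_9f080f_an
open Complex MeasureTheory Set Filter Topology
open scoped Real

noncomputable section

/-- `e^{iπ z}` -/
def ep (z : ℂ) : ℂ := cexp (π * I * z)
/-- principal square root of `-i z` -/
def rt (z : ℂ) : ℂ := (-I * z) ^ (1 / 2 : ℂ)
def th3 (τ : ℂ) : ℂ := jacobiTheta₂ 0 τ
def th4 (τ : ℂ) : ℂ := jacobiTheta₂ (1 / 2) τ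
def th2 (τ : ℂ) : ℂ := ep (τ / 4) * jacobiTheta₂ (τ / 2) τ
/-- the function `1 - 2 λ` -/
def sf (τ : ℂ) : ℂ := (th4 τ ^ 4 - th2 τ ^ 4) / th3 τ ^ 4
/-- from the frame of the cusp `1` to the standard frame -/
def wz (z : ℂ) : ℂ := 1 - 1 / z
/-- from the standard frame to the frame of the cusp `1` -/
def zw (w : ℂ) : ℂ := 1 / (1 - w)
def sh (z : ℂ) : ℂ := sf (wz z)
/-- the unit semicircle in the frame of the cusp `1` -/
def ln (η : ℝ) : ℂ := 1 / 2 + η * I
def psi (x : ℝ) (w : ℂ) : ℂ := ep (x * w) / th3 w + ep (x * (-1 / w)) / th3 (-1 / w)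
def ph (x : ℝ) (z : ℂ) : ℂ := ep (-x / z) / rt z
def phi (x : ℝ) (z : ℂ) : ℂ := ep x * ph x z + ep (1 / 4) * ep (-x) * ph x (z - 1)
def kc (H : ℝ) (z : ℂ) : ℂ := rt z / z ^ 2 * ep (H / z)
/-- real version of `kc` -/
def kk (H t : ℝ) : ℂ := (t ^ (-3 / 2 : ℝ) : ℝ) * ep (H / t)
/-- the Cauchy type integral over the upper half of the semicircle -/
def hk (x : ℝ) (σ : ℂ) : ℂ :=
  1 / (2 * π * I) * ∫ η in Ioi (1 / 2 : ℝ),
    psi x (wz (ln η)) * deriv sh (ln η) * (2 * σ / (sh (ln η) ^ 2 - σ ^ 2)) * I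

/-- the theta group -/
@[ext] structure GT where
  a : ℤ
  b : ℤ
  c : ℤ
  d : ℤ
  det : a * d - b * c = 1
  p1 : Odd (a + c)
  p2 : Odd (b + d)

namespace GT

instance : Mul GT where
  mul g h := ⟨g.a * h.a + g.b * h.c, g.a * h.b + g.b * h.d, g.c * h.a + g.d * h.c,
    g.c * h.b + g.d * h.d, by
      have := g.det; have := h.det
      linear_combination (h.a * h.d - h.b * h.c) * g.det + h.det,
    by
      have e : g.a * h.a + g.b * h.c + (g.c * h.a + g.d * h.c) =
        (g.a + g.c) * (h.a + h.c) + ((g.b + g.d) - (g.a + g.c)) * h.c := by ring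
      rw [e]; exact (g.p1.mul h.p1).add_even ((g.p2.sub_odd g.p1).mul_right _),
    by
      have e : g.a * h.b + g.b * h.d + (g.c * h.b + g.d * h.d) =
        (g.a + g.c) * (h.b + h.d) + ((g.b + g.d) - (g.a + g.c)) * h.d := by ring
      rw [e]; exact (g.p1.mul h.p2).add_even ((g.p2.sub_odd g.p1).mul_right _)⟩

instance : One GT := ⟨⟨1, 0, 0, 1, by norm_num, by norm_num, by norm_num⟩⟩

lemma par (g : GT) : Odd (g.d - g.c) ∧ Odd (g.a - g.b) := by
  have h := g.det; have h1 := g.p1; have h2 := g.p2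
  have h3 : Odd (g.a * g.d - g.b * g.c) := by rw [h]; exact odd_one
  simp only [Int.odd_add, Int.odd_sub, Int.odd_mul, ← Int.not_odd_iff_even] at *
  tauto

instance : Inv GT where
  inv g := ⟨g.d, -g.b, -g.c, g.a, by linear_combination g.det,
    by simpa [sub_eq_add_neg] using g.par.1,
    by simpa [sub_eq_add_neg, add_comm] using g.par.2⟩

@[simp] lemma mul_a (g h : GT) : (g * h).a = g.a * h.a + g.b * h.c := rfl
@[simp] lemma mul_b (g h : GT) : (g * h).b = g.a * h.b + g.b * h.d := rfl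
@[simp] lemma mul_c (g h : GT) : (g * h).c = g.c * h.a + g.d * h.c := rfl
@[simp] lemma mul_d (g h : GT) : (g * h).d = g.c * h.b + g.d * h.d := rfl
@[simp] lemma one_a : (1 : GT).a = 1 := rfl
@[simp] lemma one_b : (1 : GT).b = 0 := rfl
@[simp] lemma one_c : (1 : GT).c = 0 := rfl
@[simp] lemma one_d : (1 : GT).d = 1 := rfl
@[simp] lemma inv_a (g : GT) : (g⁻¹).a = g.d := rfl
@[simp] lemma inv_b (g : GT) : (g⁻¹).b = -g.b := rfl
@[simp] lemma inv_c (g : GT) : (g⁻¹).c = -g.c := rfl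
@[simp] lemma inv_d (g : GT) : (g⁻¹).d = g.a := rfl

instance : Group GT where
  mul_assoc f g h := by ext <;> simp <;> ring
  one_mul g := by ext <;> simp
  mul_one g := by ext <;> simp
  inv_mul_cancel g := by
    have := g.det
    ext <;> simp <;> linarith

/-- `τ ↦ -1/τ` -/
def S : GT := ⟨0, -1, 1, 0, by norm_num, by norm_num, by norm_num⟩
/-- `τ ↦ τ + 2 j` -/
def T (j : ℤ) : GT := ⟨1, 2 * j, 0, 1, by norm_num, by norm_num, ⟨j, rfl⟩⟩
/-- minus the identity matrix -/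
def N : GT := ⟨-1, 0, 0, -1, by norm_num, by norm_num, by norm_num⟩

@[simp] lemma S_a : S.a = 0 := rfl
@[simp] lemma S_b : S.b = -1 := rfl
@[simp] lemma S_c : S.c = 1 := rfl
@[simp] lemma S_d : S.d = 0 := rfl
@[simp] lemma T_a (j : ℤ) : (T j).a = 1 := rfl
@[simp] lemma T_b (j : ℤ) : (T j).b = 2 * j := rfl
@[simp] lemma T_c (j : ℤ) : (T j).c = 0 := rfl
@[simp] lemma T_d (j : ℤ) : (T j).d = 1 := rfl
@[simp] lemma N_a : N.a = -1 := rfl
@[simp] lemma N_b : N.b = 0 := rfl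
@[simp] lemma N_c : N.c = 0 := rfl
@[simp] lemma N_d : N.d = -1 := rfl

/-- Moebius action -/
def mob (g : GT) (z : ℂ) : ℂ := (g.a * z + g.b) / (g.c * z + g.d)
/-- the sign character -/
def chi (g : GT) : ℂ := if Even g.c then 1 else -1

end GT

/-- admissible first columns -/
def Adm (a c : ℤ) : Prop := IsCoprime a c ∧ Odd (a + c)

open Classical in
/-- an element with prescribed first column -/
def rep (a c : ℤ) : GT := if h : ∃ g : GT, g.a = a ∧ g.c = c then h.choose else 1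

/-- sign -/
def sg (r : ℝ) : ℂ := if 0 < r then 1 else if r < 0 then -1 else 0

/-- the terms of the cocycle sum -/
def coc (x : ℝ) (g : GT) (τ : ℂ) : ℂ :=
  g.chi * (sg ((g.a : ℝ) ^ 2 - (g.c : ℝ) ^ 2) - sg (normSq (g.mob τ) - 1)) * psi x (g.mob τ)

def H0 (x : ℝ) (τ : ℂ) : ℂ := hk x (sf τ) + 1 / 8 * ∑' g : GT, coc x g τ

/-- points outside the orbit of the unit semicircle -/
def Good (τ : ℂ) : Prop := ∀ g : GT, normSq (g.mob τ) ≠ 1

/-- the generating function -/
def FF (x : ℝ) (τ : ℂ) : ℂ := limUnder (𝓝[{z | Good z}] τ) (fun z => th3 z * H0 x z)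

/-- the generating function in the frame of the cusp `1` -/
def Fh (x : ℝ) (z : ℂ) : ℂ := FF x (wz z) / rt z

/-- the horocycle -/
def hc (n : ℕ) (t : ℝ) : ℂ := t + I / n

/-- the coefficients of the generating function -/
def cn (x : ℝ) (n : ℕ) : ℂ := 1 / 2 * ∫ t in (0 : ℝ)..2, FF x (hc n t) * ep (-n * hc n t)

/-- the open fundamental domain -/
def FD : Set ℂ := {w | 0 < w.im ∧ 0 < w.re ∧ w.re < 2 ∧ 1 < normSq w ∧ 1 < normSq (w - 2)}
/-- the closed fundamental domain -/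
def FDc : Set ℂ := {w | 0 < w.im ∧ 0 ≤ w.re ∧ w.re ≤ 2 ∧ 1 ≤ normSq w ∧ 1 ≤ normSq (w - 2)}

/-- twisted periodic sequences with bounded Fourier coefficients -/
structure Tw (e : ℤ → ℂ) (P : ℕ) (κ W : ℝ) : Prop where
  per : ∀ a : ℤ, e (a + P) = ep (2 * κ) * e a
  four : ∀ m : ℤ, ‖∑ a ∈ Finset.range P, e a * ep (-2 * (m + κ) * a / P)‖ ≤ W

end

end Pool.Agent.MP_9f080f_an

end

-- part MP_9f080f_an.Basic
section

namespace Pool.Agent.MP_9f080f_an
open Complex MeasureTheory Set Filter Topology Metric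
open scoped Real

noncomputable section

/-! Elementary facts on `ep`, `rt`, `wz`, `zw`, `ln`, `sg`. -/

lemma ep_add (z w : ℂ) : ep (z + w) = ep z * ep w := by
  simp [ep, mul_add, Complex.exp_add]

lemma ep_ne (z : ℂ) : ep z ≠ 0 := Complex.exp_ne_zero _

@[simp] lemma ep_zero : ep 0 = 1 := by simp [ep]

lemma ep_one : ep 1 = -1 := by simp [ep, Complex.exp_pi_mul_I]

lemma ep_neg (z : ℂ) : ep (-z) = (ep z)⁻¹ := by simp [ep, Complex.exp_neg]

lemma ep_sub (z w : ℂ) : ep (z - w) = ep z / ep w := by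
  rw [sub_eq_add_neg, ep_add, ep_neg, div_eq_mul_inv]

lemma norm_ep (z : ℂ) : ‖ep z‖ = Real.exp (-π * z.im) := by
  simp [ep, Complex.norm_exp]

lemma norm_ep_real (r : ℝ) : ‖ep r‖ = 1 := by simp [norm_ep]

lemma ep_two_int (k : ℤ) : ep (2 * k) = 1 := by
  rw [ep, show (π : ℂ) * I * (2 * k) = k * (2 * π * I) by ring, Complex.exp_int_mul_two_pi_mul_I]

lemma ep_nat_mul (k : ℕ) (z : ℂ) : ep (k * z) = ep z ^ k := by
  rw [ep, ep, ← Complex.exp_nat_mul]; ring_nf

lemma hasDerivAt_ep (z : ℂ) : HasDerivAt ep (π * I * ep z) z := by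
  have := ((hasDerivAt_id z).const_mul (π * I : ℂ)).cexp
  simp only [id, mul_one] at this
  rw [mul_comm (cexp _)] at this
  exact this

@[fun_prop] lemma differentiable_ep : Differentiable ℂ ep :=
  fun z => (hasDerivAt_ep z).differentiableAt

@[fun_prop] lemma continuous_ep : Continuous ep := differentiable_ep.continuous

lemma rt_sq (z : ℂ) : rt z ^ 2 = -I * z := by
  rw [rt, show (1 / 2 : ℂ) = ((2 : ℕ) : ℂ)⁻¹ by norm_num, Complex.cpow_nat_inv_pow _ two_ne_zero]

lemma rt_ne {z : ℂ} (hz : z ≠ 0) : rt z ≠ 0 := by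
  intro h
  have := rt_sq z
  rw [h] at this
  simp [hz] at this

lemma norm_rt (z : ℂ) : ‖rt z‖ = √‖z‖ := by
  have h := congrArg norm (rt_sq z)
  simp only [norm_pow, norm_mul, norm_neg, norm_I, one_mul] at h
  rw [← h, Real.sqrt_sq (norm_nonneg _)]

lemma slit_of_im {z : ℂ} (hz : 0 ≤ z.im) (h0 : z ≠ 0) : -I * z ∈ slitPlane := by
  rw [mem_slitPlane_iff]
  rcases hz.lt_or_eq with h | h
  · left; simpa using h
  · right
    intro h2
    apply h0
    apply Complex.ext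
    · simpa using h2
    · simpa using h.symm

lemma hasDerivAt_rt {z : ℂ} (hz : 0 ≤ z.im) (h0 : z ≠ 0) :
    HasDerivAt rt (rt z / (2 * z)) z := by
  have h1 : HasDerivAt (fun w : ℂ => -I * w) (-I) z := by
    simpa using (hasDerivAt_id z).const_mul (-I)
  have h2 := h1.cpow_const (c := (1 / 2 : ℂ)) (slit_of_im hz h0)
  have hI : -I * z ≠ 0 := mul_ne_zero (neg_ne_zero.2 I_ne_zero) h0
  have e : (1 / 2 : ℂ) * (-I * z) ^ ((1 / 2 : ℂ) - 1) * -I = rt z / (2 * z) := by
    rw [Complex.cpow_sub _ _ hI, Complex.cpow_one, rt]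
    field_simp
  rw [← e]; exact h2

lemma ne_of_im {z : ℂ} (hz : 0 < z.im) : z ≠ 0 := by
  rintro rfl; simp at hz

lemma rt_re_pos {z : ℂ} (hz : 0 ≤ z.im) (h0 : z ≠ 0) : 0 < (rt z).re := by
  have hs := slit_of_im hz h0
  have hI : -I * z ≠ 0 := slitPlane_ne_zero hs
  rw [rt, Complex.cpow_def_of_ne_zero hI, Complex.exp_re]
  refine mul_pos (Real.exp_pos _) (Real.cos_pos_of_mem_Ioo ?_)
  have h1 := Complex.neg_pi_lt_arg (-I * z)
  have h2 := lt_of_le_of_ne (Complex.arg_le_pi (-I * z)) (Complex.slitPlane_arg_ne_pi hs)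
  have e : (log (-I * z) * (1 / 2)).im = arg (-I * z) / 2 := by
    simp [Complex.log_im]; ring
  rw [e]; constructor <;> linarith

lemma rt_abs_im_lt {z : ℂ} (hz : 0 < z.im) : |(rt z).im| < (rt z).re := by
  have h1 := rt_re_pos hz.le (ne_of_im hz)
  have h2 := congrArg Complex.re (rt_sq z)
  simp [sq] at h2
  exact abs_lt_of_sq_lt_sq (by nlinarith) h1.le

/-- two numbers with the same square and positive real parts agree -/
lemma eq_of_sq_eq {u v : ℂ} (h : u ^ 2 = v ^ 2) (hu : 0 < u.re) (hv : 0 < v.re) : u = v := by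
  rcases sq_eq_sq_iff_eq_or_eq_neg.1 h with h | h
  · exact h
  · rw [h] at hu; simp at hu; linarith

lemma im_neg_inv {z : ℂ} : (-1 / z).im = z.im / normSq z := by
  simp [div_eq_mul_inv, Complex.inv_im]

lemma im_neg_inv_pos {z : ℂ} (hz : 0 < z.im) : 0 < (-1 / z).im := by
  rw [im_neg_inv]; exact div_pos hz (normSq_pos.2 (ne_of_im hz))

lemma im_wz (z : ℂ) : (wz z).im = z.im / normSq z := by
  simp [wz, Complex.inv_im, neg_div]

lemma im_wz_pos {z : ℂ} (hz : 0 < z.im) : 0 < (wz z).im := by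
  rw [im_wz]; exact div_pos hz (normSq_pos.2 (ne_of_im hz))

lemma im_zw (w : ℂ) : (zw w).im = w.im / normSq (1 - w) := by
  simp [zw, Complex.inv_im]

lemma one_sub_ne {w : ℂ} (hw : 0 < w.im) : 1 - w ≠ 0 := by
  intro h
  have := congrArg Complex.im h
  simp at this; linarith

lemma im_zw_pos {w : ℂ} (hw : 0 < w.im) : 0 < (zw w).im := by
  rw [im_zw]; exact div_pos hw (normSq_pos.2 (one_sub_ne hw))

@[simp] lemma wz_zw (w : ℂ) : wz (zw w) = w := by simp [wz, zw]

@[simp] lemma zw_wz (z : ℂ) : zw (wz z) = z := by simp [wz, zw]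

@[simp] lemma ln_re (η : ℝ) : (ln η).re = 1 / 2 := by simp [ln]

@[simp] lemma ln_im (η : ℝ) : (ln η).im = η := by simp [ln]

lemma normSq_wz_sub {z : ℂ} (hz : z ≠ 0) :
    normSq (wz z) - 1 = (1 - 2 * z.re) / normSq z := by
  have h : normSq z ≠ 0 := by simpa using hz
  have e : wz z = (z - 1) / z := by rw [wz]; field_simp
  rw [e, map_div₀, normSq_sub]
  field_simp
  simp
  ring

lemma hc_im (n : ℕ) (t : ℝ) : (hc n t).im = 1 / n := by
  have : (I / (n : ℂ)) = ((1 / n : ℝ) : ℂ) * I := by push_cast; ring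
  simp only [hc, this, add_im, ofReal_im, mul_im, ofReal_re, I_im, I_re]; ring

lemma hc_re (n : ℕ) (t : ℝ) : (hc n t).re = t := by
  simp [hc, div_eq_mul_inv]

lemma sg_pos {r : ℝ} (h : 0 < r) : sg r = 1 := by simp [sg, h]

lemma sg_neg {r : ℝ} (h : r < 0) : sg r = -1 := by simp [sg, h, not_lt.2 h.le]

@[simp] lemma sg_zero : sg 0 = 0 := by simp [sg]

lemma sg_neg_arg (r : ℝ) : sg (-r) = -sg r := by
  rcases lt_trichotomy r 0 with h | h | h
  · rw [sg_neg h, sg_pos (by linarith)]; simp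
  · simp [h]
  · rw [sg_pos h, sg_neg (by linarith)]

lemma sg_mul_pos {r c : ℝ} (hc : 0 < c) : sg (c * r) = sg r := by
  rcases lt_trichotomy r 0 with h | h | h
  · rw [sg_neg h, sg_neg (mul_neg_of_pos_of_neg hc h)]
  · simp [h]
  · rw [sg_pos h, sg_pos (mul_pos hc h)]

lemma norm_sg_le (r : ℝ) : ‖sg r‖ ≤ 1 := by
  unfold sg; split_ifs <;> simp

lemma measurable_sg : Measurable sg := by
  unfold sg
  exact Measurable.ite measurableSet_Ioi measurable_const
    (Measurable.ite measurableSet_Iio measurable_const measurable_const)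

end

end Pool.Agent.MP_9f080f_an

end
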