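import Pool.Agent.MP_9f080f_an.Mg.PV

namespace Pool.Agent.MP_9f080f_an
open Complex MeasureTheory Set Filter Topology Metric
open scoped Real

noncomputable section

/-! The contribution of all cusps with a fixed denominator. -/

/-- the horocycle seen from a cusp of denominator `p` -/
def c1om (n p : ℕ) (t : ℝ) : ℂ := -1 / ((p : ℂ) ^ 2 * hc n t)

open Classical in
/-- the shifted integrand -/
def c1U (n p : ℕ) (e : ℤ → ℂ) (Q : Set ℂ) (G : ℂ → ℂ) (a : ℤ) (t : ℝ) : ℂ :=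
  if (a : ℂ) / p + c1om n p t ∈ Q then
    e a * (((√p : ℝ) : ℂ) * rt (c1om n p t) * ep (-n * hc n t) * G (a / p + c1om n p t)) else 0

/-- the majorant -/
def c1h (n p : ℕ) (v t : ℝ) : ℝ :=
  √n / p * (1 + (p * √(n * v) * t) ^ 2)⁻¹ + n / (2 * p ^ 2) * (1 + (n * t) ^ 2)⁻¹

lemma circle1_hc_pos {n : ℕ} (hn : 0 < n) (t : ℝ) : 0 < (hc n t).im := by
  rw [hc_im]; positivity

lemma circle1_normSq_hc {n : ℕ} (hn : 0 < n) (t : ℝ) :
    normSq (hc n t) = (1 + (n * t) ^ 2) / n ^ 2 := by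
  have : (n : ℝ) ≠ 0 := by positivity
  rw [normSq_apply, hc_re, hc_im]; field_simp; ring

lemma circle1_om_im {n p : ℕ} (hn : 0 < n) (hp : 0 < p) (t : ℝ) :
    (c1om n p t).im = n / (p ^ 2 * (1 + (n * t) ^ 2)) := by
  have h1 : (n : ℝ) ≠ 0 := by positivity
  have h2 : (p : ℝ) ≠ 0 := by positivity
  have h3 : ((p : ℂ) ^ 2 * hc n t).im = p ^ 2 / n := by
    rw [show ((p : ℂ)) ^ 2 = (((p : ℝ) ^ 2 : ℝ) : ℂ) by push_cast; ring, im_ofReal_mul, hc_im]; ring
  rw [c1om, im_neg_inv, h3, map_mul, map_pow, normSq_natCast, circle1_normSq_hc hn]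
  field_simp

lemma circle1_om_pos {n p : ℕ} (hn : 0 < n) (hp : 0 < p) (t : ℝ) : 0 < (c1om n p t).im := by
  rw [circle1_om_im hn hp]; positivity

lemma circle1_om_norm {n p : ℕ} (hn : 0 < n) (hp : 0 < p) (t : ℝ) :
    ‖c1om n p t‖ ^ 2 = n ^ 2 / (p ^ 4 * (1 + (n * t) ^ 2)) := by
  have h1 : (n : ℝ) ≠ 0 := by positivity
  have h2 : (p : ℝ) ≠ 0 := by positivity
  rw [← normSq_eq_norm_sq, c1om, map_div₀, map_mul, map_pow, normSq_natCast, circle1_normSq_hc hn]
  simp only [normSq_neg, map_one]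
  field_simp

lemma circle1_om_le {n p : ℕ} (hn : 0 < n) (hp : 0 < p) (t : ℝ) :
    ‖c1om n p t‖ ≤ n / p ^ 2 := by
  refine le_of_sq_le_sq ?_ (by positivity)
  rw [circle1_om_norm hn hp, div_pow]
  refine div_le_div_of_nonneg_left (by positivity) (by positivity) ?_
  have : (0 : ℝ) ≤ (p : ℝ) ^ 4 * (n * t) ^ 2 := by positivity
  nlinarith

lemma circle1_norm_ep {n : ℕ} (hn : 0 < n) (t : ℝ) : ‖ep (-n * hc n t)‖ = Real.exp π := by
  have h1 : (n : ℝ) ≠ 0 := by positivity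
  rw [norm_ep, show (-(n : ℂ)) = ((-(n : ℝ) : ℝ) : ℂ) by push_cast; ring, im_ofReal_mul, hc_im]
  congr 1; field_simp

lemma circle1_lor {k : ℝ} (hk : 0 < k) :
    Integrable (fun t : ℝ => (1 + (k * t) ^ 2)⁻¹) ∧ ∫ t : ℝ, (1 + (k * t) ^ 2)⁻¹ = π / k := by
  refine ⟨integrable_inv_one_add_sq.comp_mul_left' hk.ne', ?_⟩
  rw [Measure.integral_comp_mul_left (fun t : ℝ => (1 + t ^ 2)⁻¹) k, integral_univ_inv_one_add_sq,
    abs_of_pos (inv_pos.2 hk), smul_eq_mul]
  ring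

lemma circle1_h_int {n p : ℕ} (hn : 0 < n) (hp : 0 < p) {v : ℝ} (hv : 0 < v) :
    Integrable (c1h n p v) ∧ ∫ t, c1h n p v t = π * (1 / √v + 1 / 2) / p ^ 2 := by
  have h1 : (0 : ℝ) < n := by positivity
  have h2 : (0 : ℝ) < p := by positivity
  have hk : 0 < p * √(n * v) := by positivity
  have a1 := circle1_lor hk
  have a2 := circle1_lor h1
  refine ⟨(a1.1.const_mul _).add (a2.1.const_mul _), ?_⟩
  unfold c1h
  rw [integral_add (a1.1.const_mul _) (a2.1.const_mul _), integral_const_mul, integral_const_mul,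
    a1.2, a2.2, Real.sqrt_mul h1.le]
  have : 0 < √(n : ℝ) := by positivity
  have : 0 < √v := by positivity
  field_simp

lemma circle1_h_nonneg (n p : ℕ) (v t : ℝ) : 0 ≤ c1h n p v t := by
  unfold c1h; positivity

lemma circle1_supp {n p : ℕ} (hn : 0 < n) (hp : 0 < p) {v : ℝ} (hv : 0 < v) {t : ℝ}
    (h : v ≤ (c1om n p t).im) : v * p ^ 2 ≤ n ∧ (p * √(n * v) * t) ^ 2 ≤ 1 := by
  have h1 : (0 : ℝ) < n := by positivity
  have h2 : (0 : ℝ) < p := by positivity
  rw [circle1_om_im hn hp, le_div_iff₀ (by positivity)] at h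
  have h3 : 0 ≤ v * p ^ 2 * (n * t) ^ 2 := by positivity
  have h4 : 0 ≤ v * p ^ 2 := by positivity
  refine ⟨by nlinarith, ?_⟩
  rw [mul_pow, mul_pow, Real.sq_sqrt (by positivity)]
  have : n * (p ^ 2 * (n * v) * t ^ 2) ≤ n * 1 := by nlinarith
  exact le_of_mul_le_mul_left this h1

lemma circle1_maj {n p : ℕ} (hn : 0 < n) (hp : 0 < p) {v : ℝ} (hv : 0 < v) {t : ℝ}
    (h : v ≤ (c1om n p t).im) : ‖rt (c1om n p t)‖ * √√(c1om n p t).im ≤ c1h n p v t := by
  have h1 : (0 : ℝ) < n := by positivity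
  have h2 : (0 : ℝ) < p := by positivity
  have hs := (circle1_supp hn hp hv h).2
  have hy := circle1_om_im hn hp t
  have hw := circle1_om_norm hn hp t
  have hy0 := circle1_om_pos hn hp t
  set y := (c1om n p t).im
  set w := ‖c1om n p t‖
  have hw0 : 0 ≤ w := norm_nonneg _
  have hr : 0 < √(n : ℝ) := by positivity
  have hr2 : √(n : ℝ) ^ 2 = n := Real.sq_sqrt h1.le
  have hD : (0 : ℝ) < 1 + (n * t) ^ 2 := by positivity
  have e1 : √y = p * w / √n := by
    rw [Real.sqrt_eq_iff_mul_self_eq hy0.le (by positivity)]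
    have : (p * w / √n) * (p * w / √n) = p ^ 2 * w ^ 2 / √n ^ 2 := by ring
    rw [this, hw, hr2, hy]; field_simp
  have e2 : w * √y = √n / p * y := by
    have : w * √y = p * w ^ 2 / √n := by rw [e1]; ring
    rw [this, hw, hy]; field_simp; rw [hr2]
  rw [norm_rt, ← Real.sqrt_mul hw0, e2]
  have e3 : √(√n / p * y) ≤ (√n / p + y) / 2 := by
    rw [Real.sqrt_le_left (by positivity)]
    nlinarith [sq_nonneg (√n / p - y)]
  refine e3.trans ?_
  have e4 : (1 / 2 : ℝ) ≤ (1 + (p * √(n * v) * t) ^ 2)⁻¹ := by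
    rw [one_div]; exact inv_anti₀ (by positivity) (by linarith)
  have e5 : y / 2 = n / (2 * p ^ 2) * (1 + (n * t) ^ 2)⁻¹ := by rw [hy]; field_simp
  have e6 : √n / p * (1 / 2) ≤ √n / p * (1 + (p * √(n * v) * t) ^ 2)⁻¹ :=
    mul_le_mul_of_nonneg_left e4 (by positivity)
  unfold c1h
  linarith

lemma circle1_om_cont {n p : ℕ} (hn : 0 < n) (hp : 0 < p) : Continuous (c1om n p) := by
  unfold c1om
  refine continuous_const.div (by unfold hc; fun_prop) fun t => ?_
  exact mul_ne_zero (pow_ne_zero _ (Nat.cast_ne_zero.2 hp.ne')) (ne_of_im (circle1_hc_pos hn t))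

lemma circle1_im_add (a : ℤ) (p : ℕ) (w : ℂ) : ((a : ℂ) / p + w).im = w.im := by
  rw [show ((a : ℂ) / p) = (((a : ℝ) / p : ℝ) : ℂ) by push_cast; ring]; simp

lemma circle1_re_add (a : ℤ) (p : ℕ) (w : ℂ) : ((a : ℂ) / p + w).re = a / p + w.re := by
  rw [show ((a : ℂ) / p) = (((a : ℝ) / p : ℝ) : ℂ) by push_cast; ring, add_re, ofReal_re]

/-- the data of a region in a frame -/
structure C1Reg (Q : Set ℂ) (G : ℂ → ℂ) (v M : ℝ) : Prop where
  meas : MeasurableSet Q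
  vpos : 0 < v
  Mpos : 0 ≤ M
  high : ∀ z ∈ Q, v ≤ z.im
  oc : ∀ w : ℂ, OrdConnected {u : ℝ | (u : ℂ) + w ∈ Q}
  strip : ∃ u₀ : ℝ, |u₀| ≤ 1 ∧ ∀ z ∈ Q, u₀ < z.re ∧ z.re < u₀ + 2
  diff : ∀ z : ℂ, 0 < z.im → DifferentiableAt ℂ G z
  bd : ∀ z ∈ Q, ‖G z‖ ≤ M * √√z.im ∧ ‖deriv G z‖ ≤ M * √√z.im

lemma circle1_U_ne {n p : ℕ} (hn : 0 < n) (hp : 0 < p) {Q : Set ℂ} {G : ℂ → ℂ} {v M : ℝ}
    (h : C1Reg Q G v M) {a : ℤ} {t : ℝ} (ha : (a : ℂ) / p + c1om n p t ∈ Q) :
    v * p ^ 2 ≤ n ∧ (p * √(n * v) * t) ^ 2 ≤ 1 ∧ |a| ≤ 3 * p + n := by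
  have h1 := h.high _ ha
  rw [circle1_im_add] at h1
  have h2 := circle1_supp hn hp h.vpos h1
  refine ⟨h2.1, h2.2, ?_⟩
  obtain ⟨u₀, hu, hs⟩ := h.strip
  have h3 := hs _ ha
  rw [circle1_re_add] at h3
  have h4 := (abs_re_le_norm _).trans (circle1_om_le hn hp t)
  have hp1 : (1 : ℝ) ≤ p := by exact_mod_cast hp
  have h5 : (n : ℝ) / p ^ 2 ≤ n / p :=
    div_le_div_of_nonneg_left (by positivity) (by positivity) (by nlinarith)
  have h6 : |(a : ℝ) / p| ≤ 3 + n / p := by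
    rw [abs_le] at hu h4 ⊢
    constructor <;> linarith [h3.1, h3.2]
  rw [abs_div, abs_of_pos (by positivity : (0 : ℝ) < p), div_le_iff₀ (by positivity), add_mul,
    div_mul_cancel₀ _ (by positivity)] at h6
  exact_mod_cast h6

lemma circle1_U_int {n p : ℕ} (hn : 0 < n) (hp : 0 < p) {Q : Set ℂ} {G : ℂ → ℂ} {v M : ℝ}
    (h : C1Reg Q G v M) (e : ℤ → ℂ) (a : ℤ) : Integrable (c1U n p e Q G a) := by
  have hc1 := circle1_om_cont hn hp
  have hc2 : Continuous fun t => (a : ℂ) / p + c1om n p t := continuous_const.add hc1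
  have hc3 : Continuous fun t => rt (c1om n p t) := continuous_iff_continuousAt.2 fun t =>
    ContinuousAt.comp (f := c1om n p) (hasDerivAt_rt (circle1_om_pos hn hp t).le
      (ne_of_im (circle1_om_pos hn hp t))).continuousAt hc1.continuousAt
  have hc4 : Continuous fun t => G ((a : ℂ) / p + c1om n p t) :=
    continuous_iff_continuousAt.2 fun t =>
      ContinuousAt.comp (f := fun t => (a : ℂ) / p + c1om n p t)
        (h.diff _ (by rw [circle1_im_add]; exact circle1_om_pos hn hp t)).continuousAt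
        hc2.continuousAt
  have hc5 : Continuous fun t => ep (-n * hc n t) := by unfold hc; fun_prop
  have hm : Measurable (c1U n p e Q G a) := by
    unfold c1U
    refine Measurable.ite (hc2.measurable h.meas) ?_ measurable_const
    exact (continuous_const.mul (((continuous_const.mul hc3).mul hc5).mul hc4)).measurable
  refine Integrable.mono' ((circle1_h_int hn hp h.vpos).1.const_mul
    (‖e a‖ * √p * Real.exp π * M)) hm.aestronglyMeasurable (Eventually.of_forall fun t => ?_)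
  have hM := h.Mpos
  unfold c1U
  split_ifs with ha
  · have h1 := h.high _ ha
    have h2 := (h.bd _ ha).1
    rw [circle1_im_add] at h1 h2
    have h3 := circle1_maj hn hp h.vpos h1
    rw [norm_mul, norm_mul, norm_mul, norm_mul, circle1_norm_ep hn, norm_real,
      Real.norm_of_nonneg (Real.sqrt_nonneg _)]
    calc _ ≤ ‖e a‖ * (√p * ‖rt (c1om n p t)‖ * Real.exp π * (M * √√(c1om n p t).im)) := by gcongr
      _ = ‖e a‖ * √p * Real.exp π * M * (‖rt (c1om n p t)‖ * √√(c1om n p t).im) := by ring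
      _ ≤ _ := by gcongr
  · have := circle1_h_nonneg n p v t
    rw [norm_zero]; positivity

lemma circle1_pt {n p : ℕ} (hn : 0 < n) (hp : 0 < p) {Q : Set ℂ} {G : ℂ → ℂ} {v M : ℝ}
    (h : C1Reg Q G v M) {e : ℤ → ℂ} {B : ℝ}
    (hB : ∀ (a₀ : ℤ) (L : ℕ), L ≤ 2 * p → ‖∑ i ∈ Finset.range L, e (a₀ + i)‖ ≤ B)
    {A : ℕ} (hA : 3 * p + n ≤ A) (t : ℝ) :
    ‖∑ a ∈ Finset.Icc (-A : ℤ) A, c1U n p e Q G a t‖ ≤
      3 * B * M * √p * Real.exp π * c1h n p v t := by
  classical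
  have hB0 : 0 ≤ B := by simpa using hB 0 0 (by omega)
  have hM := h.Mpos
  have hh := circle1_h_nonneg n p v t
  by_cases hv : v ≤ (c1om n p t).im
  swap
  · rw [Finset.sum_eq_zero, norm_zero]
    · positivity
    intro a _
    unfold c1U
    rw [if_neg]
    intro ha
    have h1 := h.high _ ha
    rw [circle1_im_add] at h1
    exact hv h1
  have hp0 : (0 : ℝ) < p := by positivity
  have hw0 := circle1_om_pos hn hp t
  have h3 := circle1_maj hn hp h.vpos hv
  have hne := fun a => circle1_U_ne hn hp h (a := a) (t := t)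
  have hU : ∀ a, c1U n p e Q G a t = if (a : ℂ) / p + c1om n p t ∈ Q then
    e a * (((√p : ℝ) : ℂ) * rt (c1om n p t) * ep (-n * hc n t) * G (a / p + c1om n p t)) else 0 :=
    fun a => rfl
  have hep := circle1_norm_ep hn t
  simp only [hU]
  generalize c1om n p t = w at *
  generalize ep (-n * hc n t) = E at *
  obtain ⟨u₀, -, hs⟩ := h.strip
  set J : Set ℝ := {u : ℝ | (u : ℂ) + w ∈ Q} with hJ
  have cast : ∀ a : ℤ, (((a : ℝ) / p : ℝ) : ℂ) = (a : ℂ) / p := fun a => by push_cast; ring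
  have hJs : J ⊆ Ioo (u₀ - w.re) (u₀ - w.re + 2) := fun u hu => by
    have := hs _ hu
    simp only [add_re, ofReal_re] at this
    constructor <;> linarith [this.1, this.2]
  have hvol : volume J ≤ ENNReal.ofReal 2 := by
    refine (measure_mono hJs).trans ?_
    rw [Real.volume_Ioo]; apply le_of_eq; congr 1; ring
  have hfin : volume J ≠ ⊤ := ne_top_of_le_ne_top ENNReal.ofReal_ne_top hvol
  have him : ∀ u : ℝ, ((u : ℂ) + w).im = w.im := fun u => by simp
  have key := pvbv (e := e) (p := p) (B := B) (M := M * √√w.im) (V := 2 * (M * √√w.im)) hp0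
    (h.oc w) (s := Finset.Icc (-A : ℤ) A) (G := fun u : ℝ => G (u + w))
    (G' := fun u : ℝ => deriv G (u + w)) (φ := fun _ => M * √√w.im) ?_ ?_ ?_ ?_ ?_ ?_ ?_
    (by positivity) (by positivity)
  · have e1 : (∑ a ∈ Finset.Icc (-A : ℤ) A, if (a : ℂ) / p + w ∈ Q then
        e a * (((√p : ℝ) : ℂ) * rt w * E * G (a / p + w)) else 0) =
        ((√p : ℝ) : ℂ) * rt w * E * ∑ a ∈ Finset.Icc (-A : ℤ) A,
          if (a : ℝ) / p ∈ {u : ℝ | (u : ℂ) + w ∈ Q} then e a * G ((((a : ℝ) / p : ℝ) : ℂ) + w)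
          else 0 := by
      rw [Finset.mul_sum]
      refine Finset.sum_congr rfl fun a _ => ?_
      simp only [mem_ofPred_eq, cast]
      split_ifs
      · ring
      · simp
    rw [e1, norm_mul, norm_mul, norm_mul, hep, norm_real, Real.norm_of_nonneg (Real.sqrt_nonneg _)]
    calc _ ≤ √p * ‖rt w‖ * Real.exp π * (B * (M * √√w.im + 2 * (M * √√w.im))) := by
          gcongr
      _ = 3 * B * M * √p * Real.exp π * (‖rt w‖ * √√w.im) := by ring
      _ ≤ _ := by gcongr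
  · intro a ha
    simp only [mem_ofPred_eq, cast] at ha
    have := (hne a ha).2.2
    rw [Finset.mem_Icc, ← abs_le]
    omega
  · intro a₀ L hL
    refine hB a₀ L ?_
    by_contra hlt
    have a1 := hJs (hL 0 (by omega))
    have a2 := hJs (hL (2 * p) (by omega))
    have e2 : ((a₀ + ((2 * p : ℕ) : ℤ) : ℤ) : ℝ) / p = ((a₀ + ((0 : ℕ) : ℤ) : ℤ) : ℝ) / p + 2 := by
      push_cast; field_simp; ring
    rw [e2] at a2
    linarith [a1.1, a2.2]
  · intro u _
    have h1 : HasDerivAt G (deriv G (u + w)) (u + w) := (h.diff _ (by rw [him]; exact hw0)).hasDerivAt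
    exact (h1.comp_add_const (u : ℂ) w).comp_ofReal
  · intro u hu
    have := (h.bd _ hu).1
    rwa [him] at this
  · intro u hu
    have := (h.bd _ hu).2
    rwa [him] at this
  · exact integrableOn_const hfin
  · rw [setIntegral_const, smul_eq_mul]
    gcongr
    exact ENNReal.toReal_le_of_le_ofReal (by norm_num) hvol

theorem circle1_frame {n p : ℕ} (hn : 0 < n) (hp : 0 < p) {Q : Set ℂ} {G : ℂ → ℂ} {v M : ℝ}
    (h : C1Reg Q G v M) {e : ℤ → ℂ} {B : ℝ}
    (hB : ∀ (a₀ : ℤ) (L : ℕ), L ≤ 2 * p → ‖∑ i ∈ Finset.range L, e (a₀ + i)‖ ≤ B * √p)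
    {A : ℕ} (hA : 3 * p + n ≤ A) :
    ‖∑ a ∈ Finset.Icc (-A : ℤ) A, ∫ t, c1U n p e Q G a t‖ ≤
      3 * Real.exp π * (π * (1 / √v + 1 / 2)) * M * (B / p) := by
  have hp0 : (0 : ℝ) < p := by positivity
  rw [← integral_finsetSum _ fun a _ => circle1_U_int hn hp h e a]
  have hi := circle1_h_int hn hp h.vpos
  refine (norm_integral_le_of_norm_le (hi.1.const_mul _)
    (Eventually.of_forall fun t => circle1_pt hn hp h hB hA t)).trans (le_of_eq ?_)
  rw [integral_const_mul, hi.2]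
  have hr2 : √(p : ℝ) * √p = p := Real.mul_self_sqrt hp0.le
  have : 3 * (B * √p) * M * √p = 3 * B * M * p := by linear_combination 3 * B * M * hr2
  rw [this]; field_simp

end

end Pool.Agent.MP_9f080f_an
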