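import Pool.Agent.MP_9f080f_an.Mg.ExtA
import Pool.Agent.MP_9f080f_an.Mg.Circle1A
import Pool.Agent.MP_9f080f_an.Mg.Theta
import Pool.Agent.MP_9f080f_an.Mg.Salie

-- part MP_9f080f_an.Ext
section

namespace Pool.Agent.MP_9f080f_an
open Complex MeasureTheory Set Filter Topology Metric
open scoped Real

noncomputable section

/-! The generating function `FF`. -/

lemma ff_loc {τ₀ : ℂ} (h : 0 < τ₀.im) : ∃ V ∈ 𝓝 τ₀, ∃ C : ℝ, ∀ x : ℝ, 0 ≤ x →
    DifferentiableOn ℂ (FF x) V ∧ (∀ τ ∈ V, ‖FF x τ‖ ≤ C * (1 + x) ^ (-2 / 3 : ℝ)) ∧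
      ∀ τ ∈ V, Good τ → FF x τ = th3 τ * H0 x τ := by
  obtain ⟨V, hV, C, H⟩ := ext_all h
  obtain ⟨B, hB⟩ := (isCompact_closedBall τ₀ (τ₀.im / 2)).exists_bound_of_continuousOn
    (f := th3) fun z hz => (th3_diff (cball_im h hz)).continuousAt.continuousWithinAt
  have hB0 : 0 ≤ B := (norm_nonneg _).trans (hB τ₀ (mem_closedBall_self (by linarith)))
  refine ⟨interior V ∩ closedBall τ₀ (τ₀.im / 2),
    inter_mem (interior_mem_nhds.2 hV) (closedBall_mem_nhds _ (by linarith)), B * C, fun x hx => ?_⟩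
  obtain ⟨G, h1, h2, h3⟩ := H x hx
  have key : ∀ τ ∈ interior V ∩ closedBall τ₀ (τ₀.im / 2), FF x τ = th3 τ * G τ := by
    intro τ hτ
    have hτ0 := cball_im h hτ.2
    have hV' : V ∈ 𝓝 τ := mem_interior_iff_mem_nhds.1 hτ.1
    have := good_neBot hτ0
    apply Tendsto.limUnder_eq
    have hc : ContinuousAt (fun z => th3 z * G z) τ :=
      (th3_diff hτ0).continuousAt.mul (h1.differentiableAt hV').continuousAt
    refine (hc.tendsto.mono_left nhdsWithin_le_nhds).congr' ?_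
    filter_upwards [self_mem_nhdsWithin, mem_nhdsWithin_of_mem_nhds hV'] with z hz hz'
    rw [h3 z hz' hz]
  refine ⟨DifferentiableOn.congr (f := fun z => th3 z * G z) ?_ key, fun τ hτ => ?_,
    fun τ hτ hg => ?_⟩
  · exact DifferentiableOn.mul (fun τ hτ => (th3_diff (cball_im h hτ.2)).differentiableWithinAt)
      (h1.mono fun τ hτ => interior_subset hτ.1)
  · rw [key τ hτ, norm_mul, mul_assoc]
    exact mul_le_mul (hB τ hτ.2) (h2 τ (interior_subset hτ.1)) (norm_nonneg _) hB0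
  · rw [key τ hτ, h3 τ (interior_subset hτ.1) hg]

theorem FF_diff {x : ℝ} (hx : 0 ≤ x) {τ : ℂ} (h : 0 < τ.im) : DifferentiableAt ℂ (FF x) τ := by
  obtain ⟨V, hV, C, H⟩ := ff_loc h
  exact (H x hx).1.differentiableAt hV

theorem FF_eq {x : ℝ} (hx : 0 ≤ x) {τ : ℂ} (h : 0 < τ.im) (hg : Good τ) :
    FF x τ = th3 τ * H0 x τ := by
  obtain ⟨V, hV, C, H⟩ := ff_loc h
  exact (H x hx).2.2 τ (mem_of_mem_nhds hV) hg

theorem FF_fd {x : ℝ} (hx : 0 ≤ x) {w : ℂ} (h : w ∈ FD) : FF x w = th3 w * hk x (sf w) := by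
  rw [FF_eq hx h.1 (good_of_fd h), H0]
  simp [coc_eq_zero (GT.sg_fd _ h).symm]

lemma eq_of_good {f g : ℂ → ℂ} {τ : ℂ} (h : 0 < τ.im) (hf : ContinuousAt f τ)
    (hg : ContinuousAt g τ) (H : ∀ z : ℂ, 0 < z.im → Good z → f z = g z) : f τ = g τ := by
  have := good_neBot h
  refine tendsto_nhds_unique_of_eventuallyEq (l := 𝓝[{z | Good z}] τ)
    (hf.tendsto.mono_left nhdsWithin_le_nhds) (hg.tendsto.mono_left nhdsWithin_le_nhds) ?_
  filter_upwards [self_mem_nhdsWithin, mem_nhdsWithin_of_mem_nhds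
    (Complex.continuous_im.continuousAt.eventually (lt_mem_nhds h))] with z hz hz'
  exact H z hz' hz

theorem FF_T_int {x : ℝ} (hx : 0 ≤ x) {τ : ℂ} (h : 0 < τ.im) (j : ℤ) :
    FF x (τ + 2 * j) = FF x τ := by
  refine eq_of_good (f := fun z => FF x (z + 2 * j)) h ?_ (FF_diff hx h).continuousAt
    fun z hz hg => ?_
  · exact ContinuousAt.comp (f := fun z : ℂ => z + 2 * j)
      (FF_diff hx (by simpa using h)).continuousAt (by fun_prop)
  · have hg' := (good_mob hz (GT.T j)).2 hg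
    rw [GT.mob_T] at hg'
    rw [FF_eq hx (by simpa using hz) hg', FF_eq hx hz hg, th3_T, H0_T x hz]

theorem FF_T {x : ℝ} (hx : 0 ≤ x) {τ : ℂ} (h : 0 < τ.im) : FF x (τ + 2) = FF x τ := by
  simpa using FF_T_int hx h 1

theorem FF_S {x : ℝ} (hx : 0 ≤ x) {τ : ℂ} (h : 0 < τ.im) :
    FF x τ + (rt τ)⁻¹ * FF x (-1 / τ) = ep (x * τ) + (rt τ)⁻¹ * ep (x * (-1 / τ)) := by
  have h0 := ne_of_im h
  have c1 : ContinuousAt (fun z => (rt z)⁻¹) τ :=
    (hasDerivAt_rt h.le h0).continuousAt.inv₀ (rt_ne h0)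
  have c2 : ContinuousAt (fun z : ℂ => -1 / z) τ := continuousAt_const.div continuousAt_id h0
  refine eq_of_good (f := fun z => FF x z + (rt z)⁻¹ * FF x (-1 / z))
    (g := fun z => ep (x * z) + (rt z)⁻¹ * ep (x * (-1 / z))) h ?_ ?_ fun z hz hg => ?_
  · exact (FF_diff hx h).continuousAt.add (c1.mul (ContinuousAt.comp (f := fun z : ℂ => -1 / z)
      (FF_diff hx (im_neg_inv_pos h)).continuousAt c2))
  · exact (continuous_ep.continuousAt.comp (continuousAt_const.mul continuousAt_id)).add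
      (c1.mul (continuous_ep.continuousAt.comp (continuousAt_const.mul c2)))
  · have hg' := (good_mob hz GT.S).2 hg
    rw [GT.mob_S] at hg'
    have e := H0_S x hz
    have r0 := rt_ne (ne_of_im hz)
    have t0 := th3_ne hz
    rw [FF_eq hx (im_neg_inv_pos hz) hg', FF_eq hx hz hg, th3_S hz,
      eq_sub_of_add_eq e, psi, th3_S hz]
    field_simp
    ring

lemma FF_compact {K : Set ℂ} (hK : IsCompact K) (hK' : ∀ z ∈ K, 0 < z.im) :
    ∃ C : ℝ, ∀ x : ℝ, 0 ≤ x → ∀ w ∈ K, ‖FF x w‖ ≤ C * (1 + x) ^ (-2 / 3 : ℝ) := by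
  refine hK.induction_on
    (p := fun s => ∃ C : ℝ, ∀ x : ℝ, 0 ≤ x → ∀ w ∈ s, ‖FF x w‖ ≤ C * (1 + x) ^ (-2 / 3 : ℝ))
    ⟨0, by simp⟩ (fun s t hst ⟨C, hC⟩ => ⟨C, fun x hx w hw => hC x hx w (hst hw)⟩) ?_ ?_
  · rintro s t ⟨C, hC⟩ ⟨C', hC'⟩
    refine ⟨max C C', fun x hx w hw => ?_⟩
    have : 0 ≤ (1 + x) ^ (-2 / 3 : ℝ) := by positivity
    rcases hw with hw | hw
    · exact (hC x hx w hw).trans (by gcongr; exact le_max_left _ _)
    · exact (hC' x hx w hw).trans (by gcongr; exact le_max_right _ _)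
  · intro z hz
    obtain ⟨V, hV, C, H⟩ := ff_loc (hK' z hz)
    exact ⟨V, mem_nhdsWithin_of_mem_nhds hV, C, fun x hx => (H x hx).2.1⟩

lemma sg_high (g : GT) {w : ℂ} (h : 1 < w.im) :
    sg ((g.a : ℝ) ^ 2 - (g.c : ℝ) ^ 2) = sg (normSq (g.mob w) - 1) := by
  by_contra h0
  have h1 := (GT.sg_ne_bound (by linarith) h0).1
  have hA1 : (1 : ℝ) ≤ |(g.a : ℝ) ^ 2 - (g.c : ℝ) ^ 2| := by
    have : 1 ≤ |g.a ^ 2 - g.c ^ 2| := Int.one_le_abs (by obtain ⟨m, hm⟩ := g.odd_A; omega)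
    exact_mod_cast this
  nlinarith

lemma FF_high {x : ℝ} (hx : 0 ≤ x) {w : ℂ} (h : 1 < w.im) : FF x w = th3 w * hk x (sf w) := by
  have hg : Good w := fun g hg => by
    have h1 := sg_high g h
    rw [hg, sub_self, sg_zero] at h1
    rcases lt_or_gt_of_ne g.sq_sub_ne with h2 | h2
    · rw [sg_neg h2] at h1; simp at h1
    · rw [sg_pos h2] at h1; simp at h1
  rw [FF_eq hx (by linarith) hg, H0]
  simp [coc_eq_zero (sg_high _ h)]

lemma FF_top0 {v : ℝ} (hv : 0 < v) : ∃ C : ℝ, ∀ x : ℝ, 0 ≤ x → ∀ w : ℂ, v ≤ w.im →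
    ‖FF x w‖ ≤ C * (1 + x) ^ (-2 / 3 : ℝ) := by
  obtain ⟨r, hr, C, H⟩ := hk_reg (σ₀ := 1) fun η hη e => by
    have h1 := sh_ln_re (η := η) (by linarith)
    have h2 := congrArg Complex.re e
    simp [sq, h1] at h2
    nlinarith [mul_self_nonneg (sh (ln η)).im]
  obtain ⟨A, hA⟩ := top_asymp
  have ht : Tendsto (fun y : ℝ => A * Real.exp (-π * y)) atTop (𝓝 (A * 0)) :=
    (Real.tendsto_exp_atBot.comp
      (tendsto_id.const_mul_atTop_of_neg (neg_neg_of_pos Real.pi_pos))).const_mul A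
  rw [mul_zero] at ht
  obtain ⟨Y, hY⟩ := eventually_atTop.1
    ((ht.eventually (gt_mem_nhds (lt_min hr one_pos))).and (eventually_gt_atTop 1))
  obtain ⟨C', hC'⟩ := FF_compact (K := Icc 0 2 ×ℂ Icc v Y) (isCompact_Icc.reProdIm isCompact_Icc)
    fun z hz => hv.trans_le hz.2.1
  refine ⟨max (2 * C) C', fun x hx w hw => ?_⟩
  have hp : 0 ≤ (1 + x) ^ (-2 / 3 : ℝ) := by positivity
  rcases le_total Y w.im with h | h
  · obtain ⟨h1, h2⟩ := hY _ h
    obtain ⟨h3, h4⟩ := hA w h2.le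
    have h5 := (H x hx).2 (sf w) (mem_ball_iff_norm.2 (h4.trans_lt (h1.trans_le (min_le_left _ _))))
    have h6 : ‖th3 w‖ ≤ 2 := by
      have := norm_le_insert' (th3 w) 1
      have := min_le_right r 1
      simp at *; linarith
    rw [FF_high hx h2, norm_mul]
    refine (mul_le_mul h6 h5 (norm_nonneg _) zero_le_two).trans ?_
    rw [← mul_assoc]; gcongr; exact le_max_left _ _
  · rw [← FF_T_int hx (hv.trans_le hw) (-⌊w.re / 2⌋)]
    refine (hC' x hx _ ?_).trans (by gcongr; exact le_max_right _ _)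
    have f1 := Int.floor_le (w.re / 2)
    have f2 := Int.lt_floor_add_one (w.re / 2)
    refine ⟨⟨?_, ?_⟩, ?_, ?_⟩ <;> simp <;> linarith

lemma cauchy_est {f : ℂ → ℂ} {z : ℂ} {r B : ℝ} (hr : 0 < r)
    (hf : ∀ w ∈ closedBall z r, DifferentiableAt ℂ f w) (hB : ∀ w ∈ closedBall z r, ‖f w‖ ≤ B) :
    ‖deriv f z‖ ≤ B / r := by
  refine Complex.norm_deriv_le_of_forall_mem_sphere_norm_le hr ?_
    fun w hw => hB w (sphere_subset_closedBall hw)
  apply DifferentiableOn.diffContOnCl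
  rw [closure_ball _ hr.ne']
  exact fun w hw => (hf w hw).differentiableWithinAt

lemma cball_coord {z w : ℂ} {r : ℝ} (h : w ∈ closedBall z r) :
    |w.re - z.re| ≤ r ∧ |w.im - z.im| ≤ r := by
  have := mem_closedBall_iff_norm.1 h
  exact ⟨by simpa using (Complex.abs_re_le_norm (w - z)).trans this,
    by simpa using (Complex.abs_im_le_norm (w - z)).trans this⟩

theorem FF_top {v : ℝ} (hv : 0 < v) : ∃ C : ℝ, ∀ x : ℝ, 0 ≤ x → ∀ w : ℂ, v ≤ w.im →
    ‖FF x w‖ ≤ C * (1 + x) ^ (-2 / 3 : ℝ) ∧ ‖deriv (FF x) w‖ ≤ C * (1 + x) ^ (-2 / 3 : ℝ) := by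
  obtain ⟨C, hC⟩ := FF_top0 (half_pos hv)
  refine ⟨max C (C / (v / 2)), fun x hx w hw => ⟨?_, ?_⟩⟩
  · exact (hC x hx w (by linarith)).trans (by gcongr; exact le_max_left _ _)
  · have h : ∀ u ∈ closedBall w (v / 2), v / 2 ≤ u.im := fun u hu => by
      linarith [(abs_le.1 (cball_coord hu).2).1]
    refine (cauchy_est (half_pos hv) (fun u hu => FF_diff hx ((half_pos hv).trans_le (h u hu)))
      fun u hu => hC x hx u (h u hu)).trans ?_
    rw [mul_div_right_comm]; gcongr; exact le_max_right _ _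

theorem Fh_diff {x : ℝ} (hx : 0 ≤ x) {z : ℂ} (h : 0 < z.im) : DifferentiableAt ℂ (Fh x) z := by
  have h0 := ne_of_im h
  have h1 : DifferentiableAt ℂ wz z := by unfold wz; fun_prop (disch := assumption)
  exact ((FF_diff hx (im_wz_pos h)).comp z h1).div (hasDerivAt_rt h.le h0).differentiableAt (rt_ne h0)

lemma Fh_shift {x : ℝ} (hx : 0 ≤ x) {z : ℂ} (h : 0 < z.im) :
    ∃ u : ℂ, ‖u‖ = 1 ∧ Fh x z + u * Fh x (z - 1) = phi x z := by
  have h0 := ne_of_im h
  have h1 : z - 1 ≠ 0 := ne_of_im (by simpa using h)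
  have hw := im_wz_pos h
  have e1 : wz (z - 1) = -1 / wz z + 2 := by
    have : wz z = (z - 1) / z := by rw [wz]; field_simp
    rw [this, wz]; field_simp; ring
  have r0 := rt_ne h0
  have r1 := rt_ne h1
  have r2 := rt_ne (ne_of_im hw)
  refine ⟨rt (z - 1) / (rt (wz z) * rt z), ?_, ?_⟩
  · have : wz z * z = z - 1 := by rw [wz]; field_simp
    rw [norm_div, norm_mul, norm_rt, norm_rt, norm_rt, ← Real.sqrt_mul (norm_nonneg _), ← norm_mul,
      this, div_self (Real.sqrt_pos.2 (norm_pos_iff.2 h1)).ne']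
  · have e2 := FF_S hx hw
    have t0 := th2_ne h
    rw [← phi_eq x h, Fh, Fh, e1, FF_T hx (im_neg_inv_pos hw), eq_sub_of_add_eq e2, psi, th3_S hw,
      th3_wz h]
    field_simp
    ring

lemma Fh_cusp0 : ∃ Y : ℝ, 2 ≤ Y ∧ ∃ C : ℝ, 0 ≤ C ∧ ∀ x : ℝ, 0 ≤ x → ∀ z : ℂ, Y ≤ z.im → |z.re| ≤ 1 →
    ‖Fh x z‖ ≤ C * z.im ^ (1 / 6 : ℝ) * (1 + x) ^ (-2 / 3 : ℝ) := by
  obtain ⟨Y, hY, C, hC⟩ := hk_cusp
  obtain ⟨A, hA⟩ := phi_up
  refine ⟨Y, hY, |C| + |A|, by positivity, fun x hx => ?_⟩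
  have h1 : ∀ z : ℂ, Y ≤ z.im → |z.re| < 1 / 2 →
      ‖Fh x z‖ ≤ |C| * z.im ^ (1 / 6 : ℝ) * (1 + x) ^ (-2 / 3 : ℝ) := fun z hz hr => by
    have hz0 : 0 < z.im := by linarith
    rw [Fh, FF_fd hx (wz_mem_fd (by linarith) hr), th3_wz hz0, mul_assoc,
      mul_div_cancel_left₀ _ (rt_ne (ne_of_im hz0))]
    exact (hC x hx z hz hr).trans (by gcongr; exact le_abs_self _)
  have h2 : ∀ z : ℂ, Y ≤ z.im → |z.re| ≤ 1 →
      ‖phi x z‖ ≤ |A| * z.im ^ (1 / 6 : ℝ) * (1 + x) ^ (-2 / 3 : ℝ) := fun z hz hr => by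
    have hz0 : 0 < z.im := by linarith
    exact (hA x hx z (by linarith) hr).trans (by gcongr; exact le_abs_self _)
  have h3 : ∀ z : ℂ, Y ≤ z.im → |z.re| < 3 / 2 → |z.re| ≠ 1 / 2 → |z.re| ≤ 1 →
      ‖Fh x z‖ ≤ (|C| + |A|) * z.im ^ (1 / 6 : ℝ) * (1 + x) ^ (-2 / 3 : ℝ) := fun z hz hr hr' hr1 => by
    have hz0 : 0 < z.im := by linarith
    rw [add_mul, add_mul]
    rcases lt_or_gt_of_ne hr' with h | h
    · have : 0 ≤ |A| * z.im ^ (1 / 6 : ℝ) * (1 + x) ^ (-2 / 3 : ℝ) := by positivity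
      linarith [h1 z hz h]
    rcases lt_abs.1 h with h | h
    · obtain ⟨u, hu, e⟩ := Fh_shift hx hz0
      have a1 := h1 (z - 1) (by simpa using hz) (by
        rw [abs_lt] at hr ⊢; simp only [sub_re, one_re]; constructor <;> linarith)
      have a2 := h2 z hz hr1
      rw [eq_sub_of_add_eq e]
      refine (norm_sub_le _ _).trans ?_
      rw [norm_mul, hu, one_mul]
      simp only [sub_im, one_im, sub_zero] at a1
      linarith
    · obtain ⟨u, hu, e⟩ := Fh_shift (z := z + 1) hx (by simpa using hz0)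
      have hr2 : |(z + 1).re| < 1 / 2 := by
        rw [abs_lt] at hr ⊢; simp only [add_re, one_re]; constructor <;> linarith
      have a1 := h1 (z + 1) (by simpa using hz) hr2
      have a2 := h2 (z + 1) (by simpa using hz) (by linarith)
      rw [add_sub_cancel_right] at e
      have e2 : ‖Fh x z‖ = ‖phi x (z + 1) - Fh x (z + 1)‖ := by
        rw [← e, add_sub_cancel_left, norm_mul, hu, one_mul]
      rw [e2]
      refine (norm_sub_le _ _).trans ?_
      simp only [add_im, one_im, add_zero] at a1 a2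
      linarith
  intro z hz hr
  by_cases hr' : |z.re| = 1 / 2
  swap
  · exact h3 z hz (by linarith) hr' hr
  have hz0 : 0 < z.im := by linarith
  have hc : ContinuousAt (fun s : ℝ => ‖Fh x (z + s)‖) 0 :=
    (ContinuousAt.comp (g := Fh x) (f := fun s : ℝ => z + s) (x := 0)
      (by simpa using (Fh_diff hx hz0).continuousAt) (by fun_prop)).norm
  have ht := hc.tendsto.mono_left (nhdsWithin_le_nhds (s := Ioi 0))
  simp only [ofReal_zero, add_zero] at ht
  refine le_of_tendsto ht ?_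
  filter_upwards [Ioo_mem_nhdsGT (show (0 : ℝ) < 1 / 4 by norm_num)] with s hs
  have a1 : |(z + s).re| ≤ 3 / 4 := by
    simp only [add_re, ofReal_re]
    exact (abs_add_le _ _).trans (by rw [hr', abs_of_pos hs.1]; linarith [hs.2])
  have := h3 (z + s) (by simpa using hz) (by linarith) (by
    simp only [add_re, ofReal_re]
    intro e
    rcases abs_eq (by norm_num) |>.1 e with e | e <;>
    rcases abs_eq (by norm_num) |>.1 hr' with e' | e' <;> linarith [hs.1, hs.2]) (by linarith)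
  simpa using this

theorem Fh_cusp : ∃ Y : ℝ, 2 ≤ Y ∧ ∃ C : ℝ, ∀ x : ℝ, 0 ≤ x → ∀ z : ℂ, Y ≤ z.im → |z.re| ≤ 1 / 2 →
    ‖Fh x z‖ ≤ C * z.im ^ (1 / 6 : ℝ) * (1 + x) ^ (-2 / 3 : ℝ) ∧
      ‖deriv (Fh x) z‖ ≤ C * z.im ^ (1 / 6 : ℝ) * (1 + x) ^ (-2 / 3 : ℝ) := by
  obtain ⟨Y, hY, C, hC0, hC⟩ := Fh_cusp0
  refine ⟨Y + 1, by linarith, 4 * C, fun x hx z hz hr => ⟨?_, ?_⟩⟩
  · have hz0 : 0 < z.im := by linarith
    exact (hC x hx z (by linarith) (by linarith)).trans (by gcongr; linarith)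
  · have hz0 : 0 < z.im := by linarith
    refine (cauchy_est (r := 1 / 2) (B := C * (2 * z.im ^ (1 / 6 : ℝ)) * (1 + x) ^ (-2 / 3 : ℝ))
      one_half_pos (fun u hu => Fh_diff hx ?_) fun u hu => ?_).trans (le_of_eq (by ring))
    · linarith [(abs_le.1 (cball_coord hu).2).1]
    · obtain ⟨h1, h2⟩ := cball_coord hu
      rw [abs_le] at h1 h2 hr
      refine (hC x hx u (by linarith) (by rw [abs_le]; constructor <;> linarith)).trans ?_
      gcongr
      calc u.im ^ (1 / 6 : ℝ) ≤ (2 * z.im) ^ (1 / 6 : ℝ) := by gcongr <;> linarith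
        _ = 2 ^ (1 / 6 : ℝ) * z.im ^ (1 / 6 : ℝ) := Real.mul_rpow zero_le_two hz0.le
        _ ≤ 2 * z.im ^ (1 / 6 : ℝ) := by
          gcongr
          exact (Real.rpow_le_rpow_of_exponent_le one_le_two (by norm_num)).trans_eq (Real.rpow_one 2)

/-- the Fourier expansion -/
theorem FF_hasSum {x : ℝ} (hx : 0 ≤ x) : ∃ a : ℕ → ℂ, (∀ n : ℕ, 1 ≤ n → a n = cn x n) ∧
    ∀ τ : ℂ, 0 < τ.im → HasSum (fun m : ℕ => a m * ep (m * τ)) (FF x τ) := by
  set f : UpperHalfPlane → ℂ := fun τ => FF x τ with hf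
  have hper : Function.Periodic (f ∘ UpperHalfPlane.ofComplex) ((2 : ℝ) : ℂ) := by
    intro w
    by_cases hw : 0 < w.im
    · have h2 : 0 < (w + (2 : ℝ)).im := by simpa using hw
      simp only [Function.comp, hf, UpperHalfPlane.ofComplex_apply_of_im_pos hw,
        UpperHalfPlane.ofComplex_apply_of_im_pos h2]
      simpa using FF_T hx hw
    · have h2 : (w + (2 : ℝ)).im ≤ 0 := by simpa using hw
      simp only [Function.comp,
        UpperHalfPlane.ofComplex_apply_eq_of_im_nonpos h2 (not_lt.1 hw)]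
  have hhol : MDifferentiable (modelWithCornersSelf ℂ ℂ) (modelWithCornersSelf ℂ ℂ) f := by
    rw [UpperHalfPlane.mdifferentiable_iff]
    refine DifferentiableOn.congr (f := FF x) (fun w hw => (FF_diff hx hw).differentiableWithinAt)
      fun w hw => ?_
    simp only [Function.comp, hf, UpperHalfPlane.ofComplex_apply_of_im_pos hw]
  have hbd : UpperHalfPlane.IsBoundedAtImInfty f := by
    obtain ⟨C, hC⟩ := FF_top0 one_pos
    exact UpperHalfPlane.isBoundedAtImInfty_iff.2 ⟨_, 1, fun z hz => hC x hx z hz⟩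
  have hq : ∀ τ : ℂ, Function.Periodic.qParam 2 τ = ep τ := fun τ => by
    rw [Function.Periodic.qParam, ep]; congr 1; push_cast; ring
  refine ⟨fun m => (UpperHalfPlane.qExpansion 2 f).coeff m, fun n hn => ?_, fun τ hτ => ?_⟩
  · have hn' : (0 : ℝ) < 1 / n := by positivity
    simp only
    rw [UpperHalfPlane.qExpansion_coeff_eq_intervalIntegral two_pos hper hhol hbd n hn', cn]
    congr 1
    refine intervalIntegral.integral_congr fun t _ => ?_
    have e : (t : ℂ) + ((1 / n : ℝ) : ℂ) * I = hc n t := by rw [hc]; push_cast; ring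
    simp only [hf, hq, UpperHalfPlane.coe_I, e, ← ep_nat_mul, neg_mul, ep_neg]
    ring
  · have := UpperHalfPlane.hasSum_qExpansion two_pos hper hhol hbd ⟨τ, hτ⟩
    simpa only [hq, hf, smul_eq_mul, ← ep_nat_mul] using this

end

end Pool.Agent.MP_9f080f_an

end

-- part MP_9f080f_an.Circle1B
section

namespace Pool.Agent.MP_9f080f_an
open Complex MeasureTheory Set Filter Topology Metric
open scoped Real

noncomputable section

/-! Unfolding in a frame. -/

theorem circle1_unf {T : GT → ℝ → ℂ} (hT : ∀ g (j : ℤ) t, T (g * GT.T j) t = T g (t + 2 * j))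
    (hN : ∀ g t, T (GT.N * g) t = T g t) (φ : ℤ × ℤ ≃ ℤ × ℤ) (hφ : ∀ x, φ (-x) = -φ x)
    (U : ℕ → ℤ → ℝ → ℂ) (A K : ℕ) (b : ℕ → ℝ) {b₀ : ℝ} (hb₀ : 0 ≤ b₀)
    (h1 : ∀ (g : GT) (p : ℕ), 0 < p → (φ (g.a, g.c)).2 = p →
      ∃ s : ℝ, ∀ t, T g t = U p (φ (g.a, g.c)).1 (t + s))
    (h0 : ∀ g : GT, (φ (g.a, g.c)).2 = 0 → ((φ (g.a, g.c)).1 = 1 ∨ (φ (g.a, g.c)).1 = -1) ∧
      Integrable (T g) ∧ ‖∫ t, T g t‖ ≤ b₀ ∧ ∃ R : ℝ, ∀ t, R < |t| → T g t = 0)
    (h2 : ∀ p a t, 0 < p → U p a t ≠ 0 →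
      p ≤ K ∧ |a| ≤ A ∧ Adm (φ.symm (a, p)).1 (φ.symm (a, p)).2)
    (h3 : ∀ p, 0 < p → ∃ R : ℝ, ∀ a t, R < |t| → U p a t = 0)
    (h4 : ∀ p a, 0 < p → Integrable (U p a))
    (h5 : ∀ p ∈ Finset.Icc 1 K, ‖∑ a ∈ Finset.Icc (-A : ℤ) A, ∫ t, U p a t‖ ≤ b p) :
    IntervalIntegrable (fun t => ∑' g, T g t) volume 0 2 ∧
      ‖∫ t in (0 : ℝ)..2, ∑' g, T g t‖ ≤ 2 * (b₀ + ∑ p ∈ Finset.Icc 1 K, b p) := by
  classical
  let ι : ℤ × ℕ → ℤ × ℤ := fun y => φ.symm (y.1, y.2)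
  have hι : Function.Injective ι := fun y z h => by
    have := φ.symm.injective h
    simp only [Prod.mk.injEq, Nat.cast_inj] at this
    exact Prod.ext this.1 this.2
  let box : Finset (ℤ × ℕ) := insert (1, 0) (Finset.Icc (-A : ℤ) A ×ˢ Finset.Icc 1 K)
  let W := box.filter fun y => Adm (ι y).1 (ι y).2
  have hNc : ∀ g : GT, φ ((GT.N * g).a, (GT.N * g).c) = -φ (g.a, g.c) := fun g => by
    rw [← hφ]; simp
  have hpos : ∀ (g : GT) t, T g t ≠ 0 → 0 < (φ (g.a, g.c)).2 → (g.a, g.c) ∈ W.image ι := by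
    intro g t ht hp
    obtain ⟨p, hp'⟩ := Int.eq_ofNat_of_zero_le hp.le
    have hp0 : 0 < p := by omega
    obtain ⟨s, hs⟩ := h1 g p hp0 hp'
    rw [hs] at ht
    obtain ⟨a1, a2, a3⟩ := h2 _ _ _ hp0 ht
    refine Finset.mem_image.2 ⟨((φ (g.a, g.c)).1, p), Finset.mem_filter.2 ⟨?_, a3⟩, ?_⟩
    · refine Finset.mem_insert_of_mem (Finset.mem_product.2 ⟨?_, ?_⟩)
      · exact Finset.mem_Icc.2 (abs_le.1 a2)
      · exact Finset.mem_Icc.2 ⟨hp0, a1⟩
    · simp only [ι, ← hp', Prod.mk.eta, Equiv.symm_apply_apply]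
  have hone : ∀ g : GT, φ (g.a, g.c) = (1, 0) → (g.a, g.c) ∈ W.image ι := by
    intro g hg
    have e : ι (1, 0) = (g.a, g.c) := by
      simp only [ι, Nat.cast_zero, ← hg, Equiv.symm_apply_apply]
    refine Finset.mem_image.2 ⟨(1, 0), Finset.mem_filter.2 ⟨Finset.mem_insert_self _ _, ?_⟩, e⟩
    rw [e]; exact g.adm
  have hRpos : ∀ g : GT, 0 < (φ (g.a, g.c)).2 → ∃ R : ℝ, ∀ t, R < |t| → T g t = 0 := by
    intro g hp
    obtain ⟨p, hp'⟩ := Int.eq_ofNat_of_zero_le hp.le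
    have hp0 : 0 < p := by omega
    obtain ⟨s, hs⟩ := h1 g p hp0 hp'
    obtain ⟨R, hR⟩ := h3 p hp0
    refine ⟨R + |s|, fun t ht => ?_⟩
    rw [hs]
    refine hR _ _ ?_
    have := abs_sub (t + s) s
    rw [add_sub_cancel_right] at this
    linarith
  have hrep : ∀ y ∈ W, φ ((rep (ι y).1 (ι y).2).a, (rep (ι y).1 (ι y).2).c) = (y.1, (y.2 : ℤ)) := by
    intro y hy
    have := (Finset.mem_filter.1 hy).2
    rw [rep_a this, rep_c this]
    simp only [ι, Prod.mk.eta, Equiv.apply_symm_apply]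
  have hrep' : ∀ y ∈ W, 0 < y.2 → Integrable (T (rep (ι y).1 (ι y).2)) ∧
      ∫ t, T (rep (ι y).1 (ι y).2) t = ∫ t, U y.2 y.1 t := by
    intro y hy hp
    obtain ⟨s, hs⟩ := h1 _ y.2 hp (by rw [hrep y hy])
    rw [hrep y hy] at hs
    have : T (rep (ι y).1 (ι y).2) = fun t => U y.2 y.1 (t + s) := funext hs
    rw [this]
    exact ⟨(h4 _ _ hp).comp_add_right s, integral_add_right_eq_self (U y.2 y.1) s⟩
  have key := unfold2 hT hN (W.image ι) ?_ ?_ ?_ ?_ ?_
  · refine ⟨key.1, ?_⟩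
    rw [key.2, Finset.sum_image fun y _ z _ h => hι h, Finset.sum_filter, Finset.sum_insert (by simp),
      Finset.sum_product_right, norm_mul, Complex.norm_two]
    refine mul_le_mul_of_nonneg_left ((norm_add_le _ _).trans (add_le_add ?_ ?_)) (by norm_num)
    · split_ifs with h
      · have hy : ((1, 0) : ℤ × ℕ) ∈ W := Finset.mem_filter.2 ⟨Finset.mem_insert_self _ _, h⟩
        exact (h0 _ (by rw [hrep _ hy]; rfl)).2.2.1
      · simpa using hb₀
    · refine (norm_sum_le _ _).trans (Finset.sum_le_sum fun p hp => ?_)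
      refine le_of_eq_of_le ?_ (h5 p hp)
      have hp0 : 0 < p := (Finset.mem_Icc.1 hp).1
      congr 1
      refine Finset.sum_congr rfl fun a ha => ?_
      split_ifs with h
      · have hy : ((a, p) : ℤ × ℕ) ∈ W := Finset.mem_filter.2
          ⟨Finset.mem_insert_of_mem (Finset.mem_product.2 ⟨ha, hp⟩), h⟩
        exact (hrep' _ hy hp0).2
      · have : U p a = fun _ => 0 := funext fun t => by
          by_contra hne
          exact h (h2 p a t hp0 hne).2.2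
        rw [this]; simp
  · intro q hq
    obtain ⟨y, hy, rfl⟩ := Finset.mem_image.1 hq
    exact (Finset.mem_filter.1 hy).2
  · intro g t ht
    have eN : (-g.a, -g.c) = ((GT.N * g).a, (GT.N * g).c) := by simp
    rcases lt_trichotomy (φ (g.a, g.c)).2 0 with h | h | h
    · right
      rw [eN]
      refine hpos _ t (by rwa [hN]) ?_
      rw [hNc]; simpa using h
    · rcases (h0 g h).1 with h' | h'
      · left; exact hone g (Prod.ext h' h)
      · right
        rw [eN]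
        refine hone _ ?_
        rw [hNc]
        exact Prod.ext (by simp [h']) (by simp [h])
    · left; exact hpos g t ht h
  · intro q hq hq'
    obtain ⟨y, hy, rfl⟩ := Finset.mem_image.1 hq
    obtain ⟨z, hz, hz'⟩ := Finset.mem_image.1 hq'
    have e := congrArg φ hz'
    rw [hφ] at e
    simp only [ι, Equiv.apply_symm_apply, Prod.neg_mk, Prod.mk.injEq] at e
    have a1 := (Finset.mem_filter.1 hy).1
    have a2 := (Finset.mem_filter.1 hz).1
    simp only [box, Finset.mem_insert, Finset.mem_product, Finset.mem_Icc, Prod.ext_iff] at a1 a2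
    omega
  · intro g
    rcases lt_trichotomy (φ (g.a, g.c)).2 0 with h | h | h
    · obtain ⟨R, hR⟩ := hRpos (GT.N * g) (by rw [hNc]; simpa using h)
      exact ⟨R, fun t ht => by rw [← hN]; exact hR t ht⟩
    · exact (h0 g h).2.2.2
    · exact hRpos g h
  · intro q hq
    obtain ⟨y, hy, rfl⟩ := Finset.mem_image.1 hq
    rcases Nat.eq_zero_or_pos y.2 with h | h
    · exact (h0 _ (by rw [hrep _ hy]; simpa using h)).2.1
    · exact (hrep' y hy h).1

/-- the arithmetic sums -/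
lemma circle1_sum (k : ℕ) (hk : 0 < k) : ∃ C : ℝ, 0 ≤ C ∧ ∀ n : ℕ, 2 ≤ n →
    ∑ p ∈ Finset.Icc 1 (n * k), (wt p + wt (2 * p)) * (1 + Real.log ((2 * p : ℕ) : ℝ)) / p ≤
      C * Real.log n ^ 4 := by
  obtain ⟨C, hC⟩ := sum_wt
  have hl2 : 0 < Real.log 2 := Real.log_pos (by norm_num)
  have hk1 : (1 : ℝ) ≤ k := by exact_mod_cast hk
  have hlk : 0 ≤ Real.log (2 * k) := Real.log_nonneg (by linarith)
  set D := (1 + Real.log (2 * k)) / Real.log 2 + 1 with hD
  have hD0 : 0 ≤ D := by positivity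
  refine ⟨3 * |C| * D ^ 4, by positivity, fun n hn => ?_⟩
  have hn2 : (2 : ℝ) ≤ n := by exact_mod_cast hn
  have hln : Real.log 2 ≤ Real.log n := Real.log_le_log (by norm_num) hn2
  set N := 2 * (n * k) with hN
  have hN2 : 2 ≤ N := by have := Nat.mul_pos (by omega : 0 < n) hk; omega
  have hlN0 : 0 ≤ Real.log N := Real.log_nonneg (by exact_mod_cast (by omega : 1 ≤ N))
  have hlN : 1 + Real.log N ≤ D * Real.log n := by
    have e : (N : ℝ) = 2 * k * n := by rw [hN]; push_cast; ring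
    rw [e, Real.log_mul (by positivity) (by positivity), hD, add_mul, one_mul]
    have : (1 + Real.log (2 * k)) / Real.log 2 * Real.log 2 ≤
        (1 + Real.log (2 * k)) / Real.log 2 * Real.log n := by gcongr
    rw [div_mul_cancel₀ _ hl2.ne'] at this
    linarith
  have hw : ∀ M : ℕ, 0 ≤ wt M / M := fun M => div_nonneg (by linarith [one_le_wt M]) (by positivity)
  have s0 := hC N hN2
  have s1 : ∑ p ∈ Finset.Icc 1 (n * k), wt p / p ≤ ∑ M ∈ Finset.Icc 1 N, wt M / M :=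
    Finset.sum_le_sum_of_subset_of_nonneg (Finset.Icc_subset_Icc le_rfl (by omega))
      fun M _ _ => hw M
  have s2 : ∑ p ∈ Finset.Icc 1 (n * k), wt (2 * p) / ((2 * p : ℕ) : ℝ) ≤
      ∑ M ∈ Finset.Icc 1 N, wt M / M := by
    rw [← Finset.sum_image (s := Finset.Icc 1 (n * k)) (g := fun p => 2 * p)
      (f := fun M => wt M / M) fun y _ z _ h => by simpa using h]
    refine Finset.sum_le_sum_of_subset_of_nonneg (fun M hM => ?_) fun M _ _ => hw M
    obtain ⟨p, hp, rfl⟩ := Finset.mem_image.1 hM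
    rw [Finset.mem_Icc] at hp ⊢
    omega
  have s3 : C * Real.log N ^ 3 ≤ |C| * (D * Real.log n) ^ 3 := by
    refine (mul_le_mul_of_nonneg_right (le_abs_self C) (by positivity)).trans ?_
    gcongr
    linarith
  calc _ ≤ ∑ p ∈ Finset.Icc 1 (n * k), (D * Real.log n) *
        (wt p / p + 2 * (wt (2 * p) / ((2 * p : ℕ) : ℝ))) := by
        refine Finset.sum_le_sum fun p hp => ?_
        rw [Finset.mem_Icc] at hp
        have hp0 : (0 : ℝ) < p := by exact_mod_cast hp.1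
        have a1 : Real.log ((2 * p : ℕ) : ℝ) ≤ Real.log N :=
          Real.log_le_log (by push_cast; positivity) (by exact_mod_cast (by omega : 2 * p ≤ N))
        have a2 : wt p / p + 2 * (wt (2 * p) / ((2 * p : ℕ) : ℝ)) = (wt p + wt (2 * p)) / p := by
          push_cast; field_simp
        have a3 : 0 ≤ (wt p + wt (2 * p)) / p := by
          have := one_le_wt p; have := one_le_wt (2 * p); positivity
        rw [a2, mul_comm, mul_div_assoc]
        exact mul_le_mul_of_nonneg_right (by linarith) a3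
    _ = (D * Real.log n) * (∑ p ∈ Finset.Icc 1 (n * k), wt p / p +
          2 * ∑ p ∈ Finset.Icc 1 (n * k), wt (2 * p) / ((2 * p : ℕ) : ℝ)) := by
        rw [← Finset.mul_sum, Finset.sum_add_distrib, ← Finset.mul_sum]
    _ ≤ (D * Real.log n) * (3 * (|C| * (D * Real.log n) ^ 3)) :=
        mul_le_mul_of_nonneg_left (by linarith) (by linarith)
    _ = _ := by ring

end

end Pool.Agent.MP_9f080f_an

end
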