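import Pool.Agent.MP_9f080f_an.Mg.LocB

-- part MP_9f080f_an.Loc
section

namespace Pool.Agent.MP_9f080f_an
open Complex MeasureTheory Set Filter Topology Metric
open scoped Real

noncomputable section

/-! Analytic continuation of `hk x ∘ sf` across the unit semicircle.
Let `τ₀ = wz (ln η₀)`.  Choose `L` with `η₀, 1/(4η₀) ∈ (1/(4L), L)`.  With
`ψ w = ep (x w) / th3 w` (so `psi x w = ψ w + ψ (-1/w)`) and `k σ z = deriv sh z * 2σ/(sh z^2 - σ^2)`,
the substitution `η ↦ 1/(4η)` (which is `w ↦ -1/w`: `wz (ln (1/(4η))) = -1 / wz (ln η)`, `sh ↦ -sh`)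
gives `∫_{1/2}^L psi k I = ∫_{1/(4L)}^L ψ k I`.  Take the rectangle `R = [1/2,1/2+δ] × [1/(4L),L]`;
for `δ` and `V` small, `z ∈ R`, `τ ∈ V`, `sh z ^2 = sf τ ^2` forces `z = zw τ` or `z = zw (-1/τ)`
(`sf_sq_inj`, `GT.finite_of_compact`, `GT.on_circle`), and these points stay away from the bottom,
top and right sides.  If `normSq τ < 1` then `zw τ` is inside `R` (residue `ψ τ`) and `zw (-1/τ)` is left
of `R`; if `normSq τ > 1` then `zw (-1/τ)` is inside (residue `-ψ (-1/τ)`).  (`2σ/(s²-σ²) =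
1/(s-σ) - 1/(s+σ)`; Cauchy formula for rectangles from `dslope` and
`integral_boundary_rect_eq_zero_of_differentiableOn`, plus the winding integral of `1/(z-p)`.)
Hence `G τ = (2πi)⁻¹ (bottom + right - top + ∫_L^∞) + ψ (-1/τ)` up to the bookkeeping of signs;
use `diffOn_integral`, `tail_reg`. -/

/-- Cauchy's formula for a rectangle -/
theorem rect_cauchy {f : ℂ → ℂ} {a b c d : ℝ} {p : ℂ} (hf : DifferentiableOn ℂ f (Icc a b ×ℂ Icc c d))
    (h1 : a < p.re) (h2 : p.re < b) (h3 : c < p.im) (h4 : p.im < d) :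
    (∫ u in a..b, f (u + c * I) / (u + c * I - p)) - (∫ u in a..b, f (u + d * I) / (u + d * I - p))
      + I * (∫ v in c..d, f (b + v * I) / (b + v * I - p))
      - I * (∫ v in c..d, f (a + v * I) / (a + v * I - p)) = 2 * π * I * f p :=
  loc_rect hf h1 h2 h3 h4

lemma loc_wz_ln {η : ℝ} (h : 0 < η) : wz (ln (1 / (4 * η))) = -1 / wz (ln η) := by
  have h0 : (η : ℂ) ≠ 0 := ofReal_ne_zero.2 h.ne'
  have h1 : ln η ≠ 0 := ne_of_im (by simpa using h)
  have h2 : ln η - 1 ≠ 0 := by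
    intro e; have := congrArg im e; simp at this; exact h.ne' this
  have h3 : (2 * η * I : ℂ) ≠ 0 := by simp [h0]
  have e1 : ln (1 / (4 * η)) = (ln η - 1) / (2 * η * I) := by
    rw [eq_div_iff h3]
    simp only [ln]
    push_cast
    field_simp
    linear_combination (4 : ℂ) * I_sq
  have e2 : (2 * η * I : ℂ) = 2 * ln η - 1 := by simp only [ln]; ring
  rw [e1, e2, wz, wz]
  field_simp
  ring

lemma loc_sh_ln {η : ℝ} (h : 0 < η) : sh (ln (1 / (4 * η))) = -sh (ln η) := by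
  have := sf_mob GT.S (τ := wz (ln η)) (im_wz_pos (by simpa using h))
  rw [sh, loc_wz_ln h, sh]
  simpa using this

lemma loc_ln_deriv (η : ℝ) : HasDerivAt ln I η := by
  have h1 : HasDerivAt (fun w : ℂ => 1 / 2 + w * I) I (η : ℂ) := by
    simpa using ((hasDerivAt_id (η : ℂ)).mul_const I).const_add (1 / 2 : ℂ)
  exact h1.comp_ofReal

lemma loc_ln_cont : Continuous ln := by
  unfold ln; fun_prop

lemma loc_u_deriv {η : ℝ} (h : 0 < η) :
    HasDerivAt (fun t : ℝ => sh (ln t)) (deriv sh (ln η) * I) η := by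
  have h1 : HasDerivAt (fun w : ℂ => 1 / 2 + w * I) I (η : ℂ) := by
    simpa using ((hasDerivAt_id (η : ℂ)).mul_const I).const_add (1 / 2 : ℂ)
  have h2 : HasDerivAt sh (deriv sh (ln η)) (1 / 2 + η * I) :=
    (sh_diff (z := ln η) (by simpa using h)).hasDerivAt
  exact (h2.comp (η : ℂ) h1).comp_ofReal

lemma loc_inv_deriv {η : ℝ} (h : 0 < η) :
    HasDerivAt (fun t : ℝ => 1 / (4 * t)) (-(1 / (4 * η ^ 2))) η := by
  have h1 := ((hasDerivAt_id η).const_mul 4).inv (by simpa using h.ne')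
  have e : -(1 / (4 * η ^ 2)) = -(4 * 1) / (4 * id η) ^ 2 := by
    simp only [id]; field_simp
  rw [e]
  simp only [one_div]
  exact h1

lemma loc_dsh_ln {η : ℝ} (h : 0 < η) :
    (-(1 / (4 * η ^ 2)) : ℝ) • (deriv sh (ln (1 / (4 * η))) * I) = -(deriv sh (ln η) * I) := by
  have h1 := (loc_u_deriv (η := 1 / (4 * η)) (by positivity)).scomp η (loc_inv_deriv h)
  have h2 := (loc_u_deriv h).neg
  refine h1.unique (h2.congr_of_eventuallyEq ?_)
  filter_upwards [Ioi_mem_nhds h] with t ht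
  exact loc_sh_ln ht

lemma loc_subst (x : ℝ) {L : ℝ} (hL : 1 / 2 ≤ L) {σ : ℂ}
    (h : ∀ η ∈ Icc (1 / (4 * L)) L, sh (ln η) ^ 2 ≠ σ ^ 2) :
    IntervalIntegrable (fun η : ℝ => kern x σ (ln η) * I) volume (1 / 2) L ∧
      ∫ η in (1 / 2 : ℝ)..L, kern x σ (ln η) * I =
        I * ∫ v in (1 / (4 * L))..L, locF x σ (ln v) := by
  have hL0 : 0 < L := by linarith
  have hc : 0 < 1 / (4 * L) := by positivity
  have hc2 : 1 / (4 * L) ≤ 1 / 2 := one_div_le_one_div_of_le (by norm_num) (by linarith)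
  have hF : ContinuousOn (fun v : ℝ => locF x σ (ln v) * I) (Icc (1 / (4 * L)) L) := fun v hv =>
    ((ContinuousAt.comp (g := locF x σ) (locF_cont x (by simpa using hc.trans_le hv.1) (h v hv))
      loc_ln_cont.continuousAt).mul continuousAt_const).continuousWithinAt
  have hmap : ∀ η ∈ uIcc (1 / 2 : ℝ) L, 1 / (4 * η) ∈ Icc (1 / (4 * L)) L := fun η hη => by
    rw [uIcc_of_le hL] at hη
    have h0 : 0 < η := by linarith [hη.1]
    refine ⟨one_div_le_one_div_of_le (by positivity) (by linarith [hη.2]), le_trans ?_ hL⟩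
    exact one_div_le_one_div_of_le (by norm_num) (by linarith [hη.1])
  have hpos : ∀ η ∈ uIcc (1 / 2 : ℝ) L, 0 < η := fun η hη => by
    rw [uIcc_of_le hL] at hη; linarith [hη.1]
  have hd' : ContinuousOn (fun η : ℝ => -(1 / (4 * η ^ 2))) (uIcc (1 / 2 : ℝ) L) :=
    (continuousOn_const.div (by fun_prop) (fun η hη => by have := hpos η hη; positivity)).neg
  have hinv : ContinuousOn (fun η : ℝ => 1 / (4 * η)) (uIcc (1 / 2 : ℝ) L) :=
    fun η hη => (loc_inv_deriv (hpos η hη)).continuousAt.continuousWithinAt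
  have hs := intervalIntegral.integral_deriv_smul_comp' (a := 1 / 2) (b := L)
    (f := fun t : ℝ => 1 / (4 * t)) (f' := fun η : ℝ => -(1 / (4 * η ^ 2)))
    (g := fun v : ℝ => locF x σ (ln v) * I) (fun η hη => loc_inv_deriv (hpos η hη)) hd'
    (hF.mono (by rintro _ ⟨η, hη, rfl⟩; exact hmap η hη))
  have i1 : IntervalIntegrable (fun v : ℝ => locF x σ (ln v) * I) volume (1 / 2) L :=
    (hF.mono (by rw [uIcc_of_le hL]; exact Icc_subset_Icc_left hc2)).intervalIntegrable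
  have i2 : IntervalIntegrable (fun v : ℝ => locF x σ (ln v) * I) volume (1 / (4 * L)) (1 / 2) :=
    (hF.mono (by rw [uIcc_of_le hc2]; exact Icc_subset_Icc_right hL)).intervalIntegrable
  have i3 : IntervalIntegrable (fun η : ℝ => (-(1 / (4 * η ^ 2)) : ℝ) •
      ((fun v : ℝ => locF x σ (ln v) * I) ∘ fun t : ℝ => 1 / (4 * t)) η) volume (1 / 2) L :=
    (hd'.smul (hF.comp hinv hmap)).intervalIntegrable
  have key : EqOn (fun η : ℝ => kern x σ (ln η) * I) (fun η : ℝ => locF x σ (ln η) * I -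
      (-(1 / (4 * η ^ 2)) : ℝ) • ((fun v : ℝ => locF x σ (ln v) * I) ∘ fun t : ℝ => 1 / (4 * t)) η)
      (uIcc (1 / 2 : ℝ) L) := fun η hη => by
    have h0 := hpos η hη
    have e := loc_dsh_ln h0
    simp only [Function.comp, kern, locF, lock, loc_psi, loc_wz_ln h0, loc_sh_ln h0, neg_sq,
      Complex.real_smul] at e ⊢
    linear_combination (locps x (-1 / wz (ln η)) * (2 * σ / (sh (ln η) ^ 2 - σ ^ 2))) * e
  refine ⟨(i1.sub i3).congr (fun η hη => (key (uIoc_subset_uIcc hη)).symm), ?_⟩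
  rw [intervalIntegral.integral_congr key, intervalIntegral.integral_sub i1 i3, hs,
    show (1 : ℝ) / (4 * (1 / 2)) = 1 / 2 by norm_num, intervalIntegral.integral_symm (1 / (4 * L)),
    sub_neg_eq_add, add_comm, intervalIntegral.integral_add_adjacent_intervals i2 i1,
    intervalIntegral.integral_mul_const, mul_comm]

lemma loc_re_zw {w : ℂ} (hw : 0 < w.im) :
    normSq w - 1 = (1 - 2 * (zw w).re) / normSq (zw w) := by
  have := normSq_wz_sub (ne_of_im (im_zw_pos hw))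
  rwa [wz_zw] at this

lemma loc_re_lt {w : ℂ} (hw : 0 < w.im) (h : normSq w < 1) : 1 / 2 < (zw w).re := by
  have h1 := loc_re_zw hw
  have h2 := normSq_pos.2 (ne_of_im (im_zw_pos hw))
  rw [eq_div_iff h2.ne'] at h1
  nlinarith

lemma loc_re_gt {w : ℂ} (hw : 0 < w.im) (h : 1 < normSq w) : (zw w).re < 1 / 2 := by
  have h1 := loc_re_zw hw
  have h2 := normSq_pos.2 (ne_of_im (im_zw_pos hw))
  rw [eq_div_iff h2.ne'] at h1
  nlinarith

lemma loc_re_eq {w : ℂ} (hw : 0 < w.im) (h : normSq w = 1) : (zw w).re = 1 / 2 := by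
  have h1 := loc_re_zw hw
  have h2 := normSq_pos.2 (ne_of_im (im_zw_pos hw))
  rw [eq_div_iff h2.ne', h] at h1
  linarith

lemma loc_normSq {w : ℂ} (hw : 0 < w.im) : normSq (-1 / w) * normSq w = 1 := by
  have h2 := normSq_pos.2 (ne_of_im hw)
  simp only [map_div₀, normSq_neg, map_one]
  field_simp

lemma loc_four {g : GT} (h : g = 1 ∨ g = GT.N ∨ g = GT.S ∨ g = GT.N * GT.S) (τ : ℂ) :
    g.mob τ = τ ∨ g.mob τ = -1 / τ := by
  rcases h with rfl | rfl | rfl | rfl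
  · simp
  · simp
  · simp
  · simp [GT.mob_N_mul]

lemma loc_geo {τ₀ : ℂ} (h0 : 0 < τ₀.im) (h1 : normSq τ₀ = 1) {c : ℝ} (hc : 0 < c) (d : ℝ) :
    ∃ b : ℝ, 1 / 2 < b ∧ ∀ᶠ τ in 𝓝 τ₀, ∀ z ∈ Icc (1 / 2 : ℝ) b ×ℂ Icc c d,
      sh z ^ 2 = sf τ ^ 2 → z = zw τ ∨ z = zw (-1 / τ) := by
  obtain ⟨K, hK, hKs, hKc⟩ := local_compact_nhds (loc_open.mem_nhds h0)
  have hR : IsCompact (Icc (1 / 2 : ℝ) 1 ×ℂ Icc c d) := isCompact_Icc.reProdIm isCompact_Icc
  have him : ∀ z ∈ Icc (1 / 2 : ℝ) 1 ×ℂ Icc c d, 0 < z.im := fun z hz => hc.trans_le hz.2.1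
  have hfin := GT.finite_of_compact hKc (hR.image_of_continuousOn (f := wz)
    (fun z hz => (loc_wz_diff (him z hz)).continuousAt.continuousWithinAt)) hKs
    (by rintro _ ⟨z, hz, rfl⟩; exact im_wz_pos (him z hz))
  have hev : ∀ᶠ q : ℝ × ℂ in 𝓝 (1 / 2, τ₀),
      ∀ g ∈ {g : GT | ∃ z ∈ K, g.mob z ∈ wz '' (Icc (1 / 2 : ℝ) 1 ×ℂ Icc c d)},
        (g = 1 ∨ g = GT.N ∨ g = GT.S ∨ g = GT.N * GT.S) ∨ q.1 ≠ (zw (g.mob q.2)).re := by
    refine (eventually_all_finite hfin).2 (fun g _ => ?_)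
    by_cases hg : g = 1 ∨ g = GT.N ∨ g = GT.S ∨ g = GT.N * GT.S
    · exact Eventually.of_forall fun _ => Or.inl hg
    · have hm := GT.im_mob_pos g h0
      have hne : (1 / 2 : ℝ) - (zw (g.mob τ₀)).re ≠ 0 := by
        intro e
        refine hg (GT.on_circle h0 h1 ?_)
        have h3 := loc_re_zw hm
        rw [show 1 - 2 * (zw (g.mob τ₀)).re = 0 by linarith, zero_div] at h3
        linarith
      have c1 : ContinuousAt (fun q : ℝ × ℂ => g.mob q.2) (1 / 2, τ₀) :=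
        ContinuousAt.comp (g := g.mob) (GT.hasDerivAt_mob g h0).continuousAt continuousAt_snd
      have c2 : ContinuousAt (fun q : ℝ × ℂ => zw (g.mob q.2)) (1 / 2, τ₀) :=
        ContinuousAt.comp (g := zw) (loc_zw_diff hm).continuousAt c1
      have c3 : ContinuousAt (fun q : ℝ × ℂ => q.1 - (zw (g.mob q.2)).re) (1 / 2, τ₀) :=
        continuousAt_fst.sub (continuous_re.continuousAt.comp c2)
      exact (c3.eventually_ne hne).mono fun q hq => Or.inr (sub_ne_zero.1 hq)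
  rw [nhds_prod_eq] at hev
  obtain ⟨pa, hpa, pb, hpb, hp⟩ := eventually_prod_iff.1 hev
  obtain ⟨ε, hε, hb⟩ := nhds_basis_closedBall.eventually_iff.1 hpa
  refine ⟨min (1 / 2 + ε) 1, lt_min (by linarith) (by norm_num), ?_⟩
  filter_upwards [hpb, hK] with τ hτ hτK z hz he
  have hz' : z ∈ Icc (1 / 2 : ℝ) 1 ×ℂ Icc c d :=
    ⟨⟨hz.1.1, hz.1.2.trans (min_le_right _ _)⟩, hz.2⟩
  obtain ⟨g, hg⟩ := sf_sq_inj (im_wz_pos (him z hz')) (hKs hτK) he
  have hzg : z = zw (g.mob τ) := by rw [← hg, zw_wz]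
  have hre : pa z.re := hb (by
    have h3 : z.re ≤ 1 / 2 + ε := hz.1.2.trans (min_le_left _ _)
    have h4 : 1 / 2 ≤ z.re := hz.1.1
    rw [mem_closedBall, Real.dist_eq, abs_le]
    constructor <;> linarith)
  rcases hp hre hτ g ⟨τ, hτK, z, hz', hg⟩ with h | h
  · rcases loc_four h τ with e | e
    · left; rw [hzg, e]
    · right; rw [hzg, e]
  · exact absurd (by rw [← hzg]) h

lemma loc_sh_half : sh (ln (1 / 2)) = 0 := by
  have := loc_sh_ln (η := 1 / 2) (by norm_num)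
  rw [show (1 : ℝ) / (4 * (1 / 2)) = 1 / 2 by norm_num] at this
  linear_combination this / 2

lemma loc_ln_eq (v : ℝ) : ln v = ((1 / 2 : ℝ) : ℂ) + v * I := by simp [ln]

theorem loc_circle {τ₀ : ℂ} (h0 : 0 < τ₀.im) (h1 : normSq τ₀ = 1) :
    ∃ V ∈ 𝓝 τ₀, ∃ C : ℝ, ∀ x : ℝ, 0 ≤ x → ∃ G : ℂ → ℂ, DifferentiableOn ℂ G V ∧
      (∀ τ ∈ V, ‖G τ‖ ≤ C * (1 + x) ^ (-2 / 3 : ℝ)) ∧
      ∀ τ ∈ V, normSq τ ≠ 1 →
        hk x (sf τ) + (if normSq τ < 1 then psi x τ else 0) = G τ := by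
  have h0' := im_neg_inv_pos h0
  have h1' : normSq (-1 / τ₀) = 1 := by have := loc_normSq h0; rwa [h1, mul_one] at this
  have p1 := im_zw_pos h0
  have p2 := im_zw_pos h0'
  have r1 := loc_re_eq h0 h1
  have r2 := loc_re_eq h0' h1'
  obtain ⟨L, hL, a1, a2, a3, a4⟩ : ∃ L : ℝ, 1 / 2 ≤ L ∧ 1 / (4 * L) < (zw τ₀).im ∧
      (zw τ₀).im < L ∧ 1 / (4 * L) < (zw (-1 / τ₀)).im ∧ (zw (-1 / τ₀)).im < L := by
    have q1 := one_div_pos.2 p1
    have q2 := one_div_pos.2 p2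
    refine ⟨1 + (zw τ₀).im + 1 / (zw τ₀).im + (zw (-1 / τ₀)).im + 1 / (zw (-1 / τ₀)).im,
      by linarith, ?_, by linarith, ?_, by linarith⟩
    · exact (one_div_lt (by positivity) p1).2 (by linarith)
    · exact (one_div_lt (by positivity) p2).2 (by linarith)
  have hL0 : 0 < L := by linarith
  have hc : 0 < 1 / (4 * L) := by positivity
  have hc2 : 1 / (4 * L) ≤ 1 / 2 := one_div_le_one_div_of_le (by norm_num) (by linarith)
  have hcL : 1 / (4 * L) ≤ L := hc2.trans hL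
  obtain ⟨b, hb, hgeo⟩ := loc_geo h0 h1 hc L
  have hg0 := hgeo.self_of_nhds
  obtain ⟨ρ1, hρ1, C1, s1⟩ := loc_side (γ := fun u : ℝ => u + (1 / (4 * L) : ℝ) * I) (by fun_prop)
    hb.le (σ₀ := sf τ₀) (fun u _ => by
      simpa only [add_im, ofReal_im, mul_im, ofReal_re, I_im, I_re, mul_one, mul_zero, add_zero,
        zero_add] using hc)
    (fun u hu e => by
      have hi : ((u : ℂ) + (1 / (4 * L) : ℝ) * I).im = 1 / (4 * L) := by
        simp only [add_im, ofReal_im, mul_im, ofReal_re, I_im, I_re, mul_one, mul_zero, add_zero,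
          zero_add]
      have hr : ((u : ℂ) + (1 / (4 * L) : ℝ) * I).re = u := by
        simp only [add_re, ofReal_im, mul_re, ofReal_re, I_im, I_re, mul_one, mul_zero, add_zero,
          sub_zero]
      rcases hg0 _ ⟨by rw [mem_preimage, hr]; exact hu,
        by rw [mem_preimage, hi]; exact ⟨le_rfl, hcL⟩⟩ e with e | e
      · rw [e] at hi; linarith
      · rw [e] at hi; linarith)
  obtain ⟨ρ2, hρ2, C2, s2⟩ := loc_side (γ := fun u : ℝ => u + L * I) (by fun_prop)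
    hb.le (σ₀ := sf τ₀) (fun u _ => by simpa using hL0)
    (fun u hu e => by
      have hi : ((u : ℂ) + L * I).im = L := by simp
      have hr : ((u : ℂ) + L * I).re = u := by simp
      rcases hg0 _ ⟨by rw [mem_preimage, hr]; exact hu,
        by rw [mem_preimage, hi]; exact ⟨hcL, le_rfl⟩⟩ e with e | e
      · rw [e] at hi; linarith
      · rw [e] at hi; linarith)
  obtain ⟨ρ3, hρ3, C3, s3⟩ := loc_side (γ := fun v : ℝ => b + v * I) (by fun_prop)
    hcL (σ₀ := sf τ₀) (fun u hu => by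
      have hi : ((b : ℂ) + u * I).im = u := by simp
      rw [hi]; exact hc.trans_le hu.1)
    (fun u hu e => by
      have hi : ((b : ℂ) + u * I).im = u := by simp
      have hr : ((b : ℂ) + u * I).re = b := by simp
      rcases hg0 _ ⟨by rw [mem_preimage, hr]; exact ⟨hb.le, le_rfl⟩,
        by rw [mem_preimage, hi]; exact hu⟩ e with e | e
      · rw [e] at hr; linarith
      · rw [e] at hr; linarith)
  obtain ⟨ρ4, hρ4, C4, s4⟩ := tail_reg hL0 (σ₀ := sf τ₀) (fun η hη e => by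
    have hη0 : 0 < (ln η).im := by rw [ln_im]; linarith
    obtain ⟨g, hg⟩ := sf_sq_inj (im_wz_pos hη0) h0 e
    have hn : normSq (g.mob τ₀) = 1 := by
      have := normSq_wz_sub (ne_of_im hη0)
      rw [hg, ln_re] at this
      norm_num at this
      linarith
    have hz : ln η = zw (g.mob τ₀) := by rw [← hg, zw_wz]
    have hi := ln_im η
    rcases loc_four (GT.on_circle h0 h1 hn) τ₀ with e | e
    · rw [hz, e] at hi; linarith
    · rw [hz, e] at hi; linarith)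
  obtain ⟨K, hK, hKs, hKc⟩ := local_compact_nhds (loc_open.mem_nhds h0')
  obtain ⟨C5, -, s5⟩ := locps_compact hKc hKs
  have cS : ContinuousAt (fun τ : ℂ => -1 / τ) τ₀ :=
    continuousAt_const.div continuousAt_id (ne_of_im h0)
  have cz1 : ContinuousAt zw τ₀ := (loc_zw_diff h0).continuousAt
  have cz2 : ContinuousAt (fun τ : ℂ => zw (-1 / τ)) τ₀ :=
    ContinuousAt.comp (g := zw) (loc_zw_diff h0').continuousAt cS
  have cs : ContinuousAt sf τ₀ := (sf_diff h0).continuousAt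
  have hO : IsOpen (Iio b ×ℂ Ioo (1 / (4 * L)) L) := isOpen_Iio.reProdIm isOpen_Ioo
  have hV : ∀ᶠ τ in 𝓝 τ₀, (0 < τ.im ∧ -1 / τ ∈ K) ∧
      (sf τ ∈ ball (sf τ₀) ρ1 ∧ sf τ ∈ ball (sf τ₀) ρ2 ∧ sf τ ∈ ball (sf τ₀) ρ3 ∧
        sf τ ∈ ball (sf τ₀) ρ4) ∧
      (zw τ ∈ Iio b ×ℂ Ioo (1 / (4 * L)) L ∧ zw (-1 / τ) ∈ Iio b ×ℂ Ioo (1 / (4 * L)) L) ∧
      ∀ z ∈ Icc (1 / 2 : ℝ) b ×ℂ Icc (1 / (4 * L)) L,
        sh z ^ 2 = sf τ ^ 2 → z = zw τ ∨ z = zw (-1 / τ) := by
    filter_upwards [loc_open.mem_nhds h0, cS.eventually_mem hK,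
      cs.eventually_mem (ball_mem_nhds _ hρ1), cs.eventually_mem (ball_mem_nhds _ hρ2),
      cs.eventually_mem (ball_mem_nhds _ hρ3), cs.eventually_mem (ball_mem_nhds _ hρ4),
      cz1.eventually_mem (hO.mem_nhds ⟨by rw [mem_preimage, r1]; exact hb, a1, a2⟩),
      cz2.eventually_mem (hO.mem_nhds ⟨by rw [mem_preimage, r2]; exact hb, a3, a4⟩), hgeo]
      with τ t1 t2 t3 t4 t5 t6 t7 t8 t9
    exact ⟨⟨t1, t2⟩, ⟨t3, t4, t5, t6⟩, ⟨t7, t8⟩, t9⟩
  refine ⟨_, hV, ‖(1 / (2 * π * I) : ℂ)‖ * (C1 + C2 + C3 + C4) + C5, fun x hx => ?_⟩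
  obtain ⟨d1, n1⟩ := s1 x hx
  obtain ⟨d2, n2⟩ := s2 x hx
  obtain ⟨d3, n3⟩ := s3 x hx
  obtain ⟨d4, n4⟩ := s4 x hx
  refine ⟨fun τ => 1 / (2 * π * I) *
    ((∫ u in (1 / 2 : ℝ)..b, locF x (sf τ) (u + (1 / (4 * L) : ℝ) * I))
      - (∫ u in (1 / 2 : ℝ)..b, locF x (sf τ) (u + L * I))
      + I * (∫ v in (1 / (4 * L))..L, locF x (sf τ) (b + v * I))
      + ∫ η in Ioi L, kern x (sf τ) (ln η) * I) + locps x (-1 / τ), ?_, ?_, ?_⟩
  · rintro τ ⟨⟨t1, -⟩, ⟨t3, t4, t5, t6⟩, -⟩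
    have hs := sf_diff t1
    have e1 := (d1.differentiableAt (isOpen_ball.mem_nhds t3)).comp τ hs
    have e2 := (d2.differentiableAt (isOpen_ball.mem_nhds t4)).comp τ hs
    have e3 := (d3.differentiableAt (isOpen_ball.mem_nhds t5)).comp τ hs
    have e4 := (d4.differentiableAt (isOpen_ball.mem_nhds t6)).comp τ hs
    have e5 : DifferentiableAt ℂ (fun τ : ℂ => locps x (-1 / τ)) τ :=
      (locps_diff x (im_neg_inv_pos t1)).comp τ
        ((differentiableAt_const _).div differentiableAt_id (ne_of_im t1))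
    exact (((((e1.sub e2).add (e3.const_mul I)).add e4).const_mul _).add e5).differentiableWithinAt
  · rintro τ ⟨⟨-, t2⟩, ⟨t3, t4, t5, t6⟩, -⟩
    have e1 := n1 _ t3
    have e2 := n2 _ t4
    have e3 := n3 _ t5
    have e4 := (n4 _ t6).2
    have e5 := s5 x hx _ t2
    refine (norm_add_le _ _).trans ?_
    rw [norm_mul, add_mul, mul_assoc ‖(1 / (2 * π * I) : ℂ)‖]
    refine add_le_add (mul_le_mul_of_nonneg_left ?_ (norm_nonneg _)) e5
    refine (norm_add_le _ _).trans ?_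
    rw [add_mul]
    refine add_le_add ((norm_add_le _ _).trans ?_) e4
    rw [add_mul, norm_mul, norm_I, one_mul]
    refine add_le_add ((norm_sub_le _ _).trans ?_) e3
    rw [add_mul]
    exact add_le_add e1 e2
  · rintro τ ⟨⟨t1, -⟩, ⟨-, -, -, t6⟩, ⟨t7, t8⟩, t9⟩ hn
    have t1' := im_neg_inv_pos t1
    have hns := loc_normSq t1
    have hpos := normSq_pos.2 (ne_of_im t1)
    have hsS : sf (-1 / τ) = -sf τ := by simpa using sf_mob GT.S t1
    have hre : (zw τ).re ≠ 1 / 2 ∧ (zw (-1 / τ)).re ≠ 1 / 2 := by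
      rcases lt_or_gt_of_ne hn with h | h
      · exact ⟨(loc_re_lt t1 h).ne', (loc_re_gt t1' (by nlinarith)).ne⟩
      · exact ⟨(loc_re_gt t1 h).ne, (loc_re_lt t1' (by nlinarith [normSq_nonneg (-1 / τ)])).ne'⟩
    have hleft : ∀ η ∈ Icc (1 / (4 * L)) L, sh (ln η) ^ 2 ≠ sf τ ^ 2 := fun η hη e => by
      rcases t9 (ln η) ⟨by rw [mem_preimage, ln_re]; exact ⟨le_rfl, hb.le⟩,
        by rw [mem_preimage, ln_im]; exact hη⟩ e with e | e
      · exact hre.1 (by rw [← e, ln_re])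
      · exact hre.2 (by rw [← e, ln_re])
    have hσ : sf τ ≠ 0 := fun e => hleft (1 / 2) ⟨hc2, hL⟩ (by rw [loc_sh_half, e])
    obtain ⟨i1, i2⟩ := loc_subst x hL hleft
    have hπ : (2 * π * I : ℂ) ≠ 0 := by simp [Real.pi_ne_zero]
    have hone : 1 / (2 * π * I) * (2 * π * I : ℂ) = 1 := one_div_mul_cancel hπ
    rw [hk_eq, ← intervalIntegral.integral_interval_add_Ioi' i1 (n4 _ t6).1, i2]
    simp only [loc_ln_eq (v := _)] at *
    rcases lt_or_gt_of_ne hn with h | h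
    · have hsp : sh (zw τ) = sf τ := by rw [sh, wz_zw]
      have hq : (zw (-1 / τ)).re < 1 / 2 := loc_re_gt t1' (by nlinarith)
      have := loc_res x hc (loc_re_lt t1 h) t7.1 t7.2.1 t7.2.2 (fun z hz e => by
        rcases t9 z hz (by rw [e, hsp]) with e | e
        · exact e
        · have : 1 / 2 ≤ z.re := hz.1.1
          rw [e] at this; linarith) (by rw [hsp]; exact hσ)
      rw [hsp, wz_zw] at this
      rw [if_pos h, loc_psi]
      linear_combination -(1 / (2 * π * I)) * this - locps x τ * hone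
    · have hsp : sh (zw (-1 / τ)) = -sf τ := by rw [sh, wz_zw, hsS]
      have hq : (zw τ).re < 1 / 2 := loc_re_gt t1 h
      have := loc_res x hc (loc_re_lt t1' (by nlinarith [normSq_nonneg (-1 / τ)])) t8.1 t8.2.1 t8.2.2
        (fun z hz e => by
          rcases t9 z hz (by rw [e, hsp, neg_sq]) with e | e
          · have : 1 / 2 ≤ z.re := hz.1.1
            rw [e] at this; linarith
          · exact e) (by rw [hsp]; exact neg_ne_zero.2 hσ)
      rw [hsp, wz_zw] at this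
      simp only [locF_neg, intervalIntegral.integral_neg] at this
      rw [if_neg (not_lt.2 h.le)]
      linear_combination (1 / (2 * π * I)) * this + locps x (-1 / τ) * hone

end

end Pool.Agent.MP_9f080f_an

end

-- part MP_9f080f_an.Cusp
section

namespace Pool.Agent.MP_9f080f_an
open Complex MeasureTheory Set Filter Topology Metric
open scoped Real

noncomputable section

/-! Bound for `hk` near the cusp `1`.
Let `z` be high, `r = re z ∈ (-1/2,1/2)`, `σ = sh z`.  Choose `c = 1/2` if `|r| ≤ 3/8`, `c = 3/4` if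
`r > 3/8`, `c = 1/4` if `r < -3/8`.  For `im z' ≥ Y₁` (`Y₁ = Y` of `sh_cusp`),
`sh z' ^2 = σ ^2 ↔ ζ z' - ζ z ∈ ℤ ↔ z' - z ∈ ℤ` (`ζ = id + lam` is injective and commutes with `+1`), so
`kern x σ` has no pole with real part between `1/2` and `c`; Cauchy's theorem for rectangles
(`integral_boundary_rect_eq_zero_of_differentiableOn`, top side → 0 by `kern_high`) moves the part
`η > Y₁` of the contour to `[1/2,c] + i Y₁` followed by `c + iη`.  On the new vertical line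
`deriv sh z' * 2σ/(sh z'^2 - σ^2) = π ζ'(z') / sin (π (ζ z' - ζ z))` has norm
`≤ C exp (-π |η - im z|)` (the real part of `ζ z' - ζ z` is at distance `≥ 1/10` from `ℤ`);
`‖th2 z / th2 z'‖ ≤ 3 exp (π |η - im z| / 4)`; `phi_up`.  On the low compact part of the contour `sh`,
`deriv sh`, `1/th2` are bounded and `‖σ‖ ≍ exp (π im z)` is large. -/

lemma cusp_normSq (D : ℂ) : ‖ep (-D) - ep D‖ ^ 2 =
    Real.exp (π * D.im) ^ 2 + Real.exp (-(π * D.im)) ^ 2 - 2 * Real.cos (2 * (π * D.re)) := by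
  have h1 : ep D = cexp ((-(π * D.im) : ℝ) + (π * D.re : ℝ) * I) := by
    rw [ep]; congr 1; apply Complex.ext <;> simp
  have h2 : ep (-D) = cexp (((π * D.im) : ℝ) + (-(π * D.re) : ℝ) * I) := by
    rw [ep]; congr 1; apply Complex.ext <;> simp
  rw [h1, h2, ← Complex.normSq_eq_norm_sq, Complex.normSq_apply]
  simp only [sub_re, sub_im, Complex.exp_re, Complex.exp_im, add_re, add_im, ofReal_re, ofReal_im,
    mul_re, mul_im, I_re, I_im, mul_zero, mul_one, sub_zero, add_zero, zero_add, Real.cos_neg,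
    Real.sin_neg]
  have e : Real.exp (π * D.im) * Real.exp (-(π * D.im)) = 1 := by rw [← Real.exp_add]; simp
  rw [Real.cos_two_mul]
  have := Real.sin_sq_add_cos_sq (π * D.re)
  generalize Real.exp (π * D.im) = A at *
  generalize Real.exp (-(π * D.im)) = B at *
  generalize Real.cos (π * D.re) = c at *
  generalize Real.sin (π * D.re) = t at *
  linear_combination (A ^ 2 + B ^ 2 + 2 * A * B) * this + (2 - 4 * c ^ 2) * e

lemma cusp_lower {D : ℂ} (h : 1 ≤ |D.im| ∨ |D.re - 1 / 2| ≤ 1 / 4) :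
    Real.exp (π * |D.im|) / 2 ≤ ‖ep (-D) - ep D‖ := by
  refine le_of_sq_le_sq (b := ‖ep (-D) - ep D‖) ?_ (norm_nonneg _)
  rw [cusp_normSq]
  have hpi := Real.pi_gt_three
  have h1 : Real.exp (π * |D.im|) ^ 2 ≤
      Real.exp (π * D.im) ^ 2 + Real.exp (-(π * D.im)) ^ 2 := by
    rcases abs_choice D.im with e | e <;> rw [e]
    · linarith [sq_nonneg (Real.exp (-(π * D.im)))]
    · rw [mul_neg]; linarith [sq_nonneg (Real.exp (π * D.im))]
  rcases h with h | h
  · have h2 : 4 ≤ Real.exp (π * |D.im|) := by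
      have := Real.add_one_le_exp (π * |D.im|)
      nlinarith
    have := Real.cos_le_one (2 * (π * D.re))
    nlinarith
  · have h2 : Real.cos (2 * (π * D.re)) ≤ 0 := by
      rw [abs_le] at h
      exact Real.cos_nonpos_of_pi_div_two_le_of_le (by nlinarith) (by nlinarith)
    nlinarith [sq_nonneg (Real.exp (π * |D.im|))]

lemma cusp_inj {Y : ℝ} {lam : ℂ → ℂ}
    (hl : ∀ z : ℂ, Y ≤ z.im → DifferentiableAt ℂ lam z ∧ ‖deriv lam z‖ ≤ 1 / 100) {z w : ℂ}
    (hz : Y ≤ z.im) (hw : Y ≤ w.im) (h : w + lam w = z + lam z) : w = z := by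
  have hc : Convex ℝ {u : ℂ | Y ≤ u.im} := convex_halfSpace_im_ge Y
  have h1 := hc.norm_image_sub_le_of_norm_deriv_le (𝕜 := ℂ) (f := lam) (C := 1 / 100)
    (fun u hu => (hl u hu).1) (fun u hu => (hl u hu).2) hz hw
  have h2 : lam w - lam z = -(w - z) := by linear_combination h
  rw [h2, norm_neg] at h1
  have h3 : ‖w - z‖ = 0 := by linarith [norm_nonneg (w - z)]
  exact sub_eq_zero.1 (norm_eq_zero.1 h3)

/-- the data of `sh_cusp` -/
def cusp_data (Y : ℝ) (lam : ℂ → ℂ) : Prop := ∀ z : ℂ, Y ≤ z.im →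
    DifferentiableAt ℂ lam z ∧ sh z = 1 / 8 * ep (-(z + lam z)) ∧ ‖lam z‖ ≤ 1 / 100 ∧
      ‖deriv lam z‖ ≤ 1 / 100 ∧ lam (z + 1) = lam z

lemma cusp_nopole {Y : ℝ} {lam : ℂ → ℂ} (hl : cusp_data Y lam) {z w : ℂ} (hz : Y ≤ z.im)
    (hw : Y ≤ w.im) (h1 : z.re < w.re) (h2 : w.re < z.re + 1) : sh w ^ 2 ≠ sh z ^ 2 := by
  intro h
  rw [(hl w hw).2.1, (hl z hz).2.1, mul_pow, mul_pow] at h
  have h3 : ep (-(w + lam w)) ^ 2 = ep (-(z + lam z)) ^ 2 := mul_left_cancel₀ (by norm_num) h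
  rw [ep, ep, ← Complex.exp_nat_mul, ← Complex.exp_nat_mul] at h3
  obtain ⟨n, hn⟩ := Complex.exp_eq_exp_iff_exists_int.1 h3
  have hpI : (2 * π * I : ℂ) ≠ 0 := by simp
  have h4 : w + lam w = z + lam z - n := by
    refine mul_left_cancel₀ hpI ?_
    push_cast at hn
    linear_combination -hn
  have h5 := congrArg Complex.re h4
  simp only [add_re, sub_re, intCast_re] at h5
  have b1 := abs_le.1 ((Complex.abs_re_le_norm _).trans (hl w hw).2.2.1)
  have b2 := abs_le.1 ((Complex.abs_re_le_norm _).trans (hl z hz).2.2.1)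
  have n1 : (n : ℝ) < 1 := by linarith
  have n2 : (-2 : ℝ) < n := by linarith
  have n1' : n < 1 := by exact_mod_cast n1
  have n2' : -2 < n := by exact_mod_cast n2
  have hl' : ∀ u : ℂ, Y ≤ u.im → DifferentiableAt ℂ lam u ∧ ‖deriv lam u‖ ≤ 1 / 100 :=
    fun u hu => ⟨(hl u hu).1, (hl u hu).2.2.2.1⟩
  interval_cases n
  · have := cusp_inj hl' (z := z + 1) (by simpa using hz) hw (by
      rw [(hl z hz).2.2.2.2, h4]; push_cast; ring)
    rw [this] at h2
    simp at h2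
  · have := cusp_inj hl' hz hw (by rw [h4]; simp)
    rw [this] at h1
    exact lt_irrefl _ h1

lemma cusp_deriv {Y : ℝ} {lam : ℂ → ℂ} (hl : cusp_data Y lam) {w : ℂ} (hw : Y < w.im) :
    deriv sh w = -(π * I) * (1 + deriv lam w) * sh w := by
  have h1 : sh =ᶠ[𝓝 w] fun u => 1 / 8 * ep (-(u + lam u)) := by
    have : {u : ℂ | Y < u.im} ∈ 𝓝 w := (isOpen_lt continuous_const Complex.continuous_im).mem_nhds hw
    filter_upwards [this] with u hu using (hl u (le_of_lt hu)).2.1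
  have h2 : HasDerivAt (fun u : ℂ => -(u + lam u)) (-(1 + deriv lam w)) w :=
    ((hasDerivAt_id w).add (hl w hw.le).1.hasDerivAt).neg
  have h3 := ((hasDerivAt_ep (-(w + lam w))).comp w h2).const_mul (1 / 8 : ℂ)
  rw [h1.deriv_eq, (hl w hw.le).2.1]
  refine h3.deriv.trans ?_
  ring

lemma cusp_factor {Y : ℝ} {lam : ℂ → ℂ} (hl : cusp_data Y lam) {z w : ℂ} (hz : Y ≤ z.im)
    (hw : Y < w.im) (h : 2 ≤ |w.im - z.im| ∨ w.re = z.re + 1 / 2) :
    ‖deriv sh w * (2 * sh z / (sh w ^ 2 - sh z ^ 2))‖ ≤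
      20 * Real.exp 1 * Real.exp (-(π * |w.im - z.im|)) := by
  set D : ℂ := (w + lam w) - (z + lam z) with hD
  have hpi := Real.pi_gt_three
  have hpi4 := Real.pi_lt_four
  have r1 := abs_le.1 ((Complex.abs_re_le_norm _).trans (hl w hw.le).2.2.1)
  have r2 := abs_le.1 ((Complex.abs_re_le_norm _).trans (hl z hz).2.2.1)
  have i1 := abs_le.1 ((Complex.abs_im_le_norm _).trans (hl w hw.le).2.2.1)
  have i2 := abs_le.1 ((Complex.abs_im_le_norm _).trans (hl z hz).2.2.1)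
  have him : |w.im - z.im| - 1 / 50 ≤ |D.im| := by
    have e : w.im - z.im = D.im - ((lam w).im - (lam z).im) := by simp [hD]; ring
    have := abs_sub D.im ((lam w).im - (lam z).im)
    have h2 : |(lam w).im - (lam z).im| ≤ 1 / 50 := by rw [abs_le]; constructor <;> linarith
    rw [e]
    linarith
  have hlow : Real.exp (π * |D.im|) / 2 ≤ ‖ep (-D) - ep D‖ := by
    refine cusp_lower ?_
    rcases h with h | h
    · left; linarith
    · right
      have e : D.re - 1 / 2 = (lam w).re - (lam z).re := by simp [hD, h]; ring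
      rw [e, abs_le]
      constructor <;> linarith
  have hpos : 0 < ‖ep (-D) - ep D‖ := lt_of_lt_of_le (by positivity) hlow
  have hne : ep (-D) - ep D ≠ 0 := norm_pos_iff.1 hpos
  have hs : sh w = sh z * ep (-D) := by
    rw [(hl w hw.le).2.1, (hl z hz).2.1, mul_assoc, ← ep_add]
    congr 2
    rw [hD]
    ring
  have hz0 : sh z ≠ 0 := by
    rw [(hl z hz).2.1]; exact mul_ne_zero (by norm_num) (ep_ne _)
  have hu : ep (-D) * ep D = 1 := by rw [← ep_add]; simp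
  have e : deriv sh w * (2 * sh z / (sh w ^ 2 - sh z ^ 2)) =
      -(π * I) * (1 + deriv lam w) * 2 / (ep (-D) - ep D) := by
    have e2 : sh w ^ 2 - sh z ^ 2 = sh z ^ 2 * ep (-D) * (ep (-D) - ep D) := by
      rw [hs]; linear_combination (sh z ^ 2) * hu
    have := ep_ne (-D)
    rw [cusp_deriv hl hw, e2, hs]
    field_simp
  rw [e, norm_div, div_le_iff₀ hpos]
  have b1 : ‖-(π * I : ℂ) * (1 + deriv lam w) * 2‖ ≤ 10 := by
    have h1 : ‖(1 : ℂ) + deriv lam w‖ ≤ 1 + 1 / 100 := by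
      refine (norm_add_le _ _).trans ?_
      rw [norm_one]
      linarith [(hl w hw.le).2.2.2.1]
    simp only [norm_mul, norm_neg, Complex.norm_real, Complex.norm_I, Complex.norm_ofNat,
      Real.norm_eq_abs, mul_one]
    rw [abs_of_pos Real.pi_pos]
    nlinarith [norm_nonneg ((1 : ℂ) + deriv lam w)]
  have b2 : 1 ≤ Real.exp 1 * Real.exp (-(π * |w.im - z.im|)) * Real.exp (π * |D.im|) := by
    rw [← Real.exp_add, ← Real.exp_add]
    exact Real.one_le_exp (by nlinarith)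
  have b3 := mul_le_mul_of_nonneg_left hlow
    (show 0 ≤ 20 * Real.exp 1 * Real.exp (-(π * |w.im - z.im|)) by positivity)
  linarith

lemma cusp_point {Y : ℝ} (hY : 2 ≤ Y) {lam : ℂ → ℂ} (hl : cusp_data Y lam) :
    ∃ C : ℝ, 0 ≤ C ∧ ∀ x : ℝ, 0 ≤ x → ∀ z w : ℂ, Y ≤ z.im → Y < w.im → |w.re| ≤ 1 →
      (2 ≤ |w.im - z.im| ∨ w.re = z.re + 1 / 2) →
      ‖th2 z * kern x (sh z) w‖ ≤
        C * (z.im ^ (1 / 6 : ℝ) * (1 + x) ^ (-2 / 3 : ℝ)) * (1 + (w.im - z.im) ^ 2)⁻¹ := by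
  obtain ⟨C, hC⟩ := phi_up
  refine ⟨120 * Real.exp 1 * |C|, by positivity, fun x hx z w hz hw hre h => ?_⟩
  have hpi := Real.pi_gt_three
  have hw0 : 0 < w.im := by linarith
  have hz1 : 1 ≤ z.im := by linarith
  set t := |w.im - z.im| with ht
  have ht0 : 0 ≤ t := abs_nonneg _
  have hwt : w.im ≤ z.im + t := by linarith [le_abs_self (w.im - z.im)]
  have e : th2 z * kern x (sh z) w = th2 z / th2 w * phi x w *
      (deriv sh w * (2 * sh z / (sh w ^ 2 - sh z ^ 2))) := by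
    have := th2_ne hw0
    rw [kern, ← phi_eq x hw0]
    field_simp
  have b1 : ‖th2 z / th2 w‖ ≤ 3 * Real.exp (π * t / 4) := by
    have a1 := (th2_bd (z := z) (by linarith)).2
    have a2 := (th2_bd (z := w) (by linarith)).1
    rw [norm_div, div_le_iff₀ (lt_of_lt_of_le (Real.exp_pos _) a2)]
    have a3 : Real.exp (-π * z.im / 4) ≤ Real.exp (π * t / 4) * Real.exp (-π * w.im / 4) := by
      rw [← Real.exp_add]
      exact Real.exp_le_exp.2 (by nlinarith)
    have a4 := mul_le_mul_of_nonneg_left a2 (Real.exp_pos (π * t / 4)).le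
    linarith
  have b2 : ‖phi x w‖ ≤ |C| * (z.im ^ (1 / 6 : ℝ) * Real.exp (t / 6)) * (1 + x) ^ (-2 / 3 : ℝ) := by
    refine (hC x hx w (by linarith) hre).trans ?_
    have a1 : w.im ≤ z.im * Real.exp t := by
      have := Real.add_one_le_exp t
      nlinarith
    have a2 : w.im ^ (1 / 6 : ℝ) ≤ z.im ^ (1 / 6 : ℝ) * Real.exp (t / 6) := by
      refine (Real.rpow_le_rpow hw0.le a1 (by norm_num)).trans (le_of_eq ?_)
      rw [Real.mul_rpow (by linarith) (Real.exp_pos _).le, ← Real.exp_mul]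
      congr 2
      ring
    refine mul_le_mul_of_nonneg_right ?_ (by positivity)
    exact mul_le_mul (le_abs_self C) a2 (by positivity) (abs_nonneg _)
  have b3 := cusp_factor hl hz hw h
  have b4 : Real.exp (π * t / 4) * Real.exp (t / 6) * Real.exp (-(π * t)) ≤
      2 * (1 + (w.im - z.im) ^ 2)⁻¹ := by
    rw [← Real.exp_add, ← Real.exp_add, ← div_eq_mul_inv, le_div_iff₀ (by positivity), ← sq_abs,
      ← ht]
    have a1 : Real.exp (π * t / 4 + t / 6 + -(π * t)) ≤ Real.exp (-t) :=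
      Real.exp_le_exp.2 (by nlinarith)
    have a2 := Real.quadratic_le_exp_of_nonneg ht0
    have a3 : Real.exp (-t) * Real.exp t = 1 := by rw [← Real.exp_add]; simp
    have a4 : Real.exp (-t) * (1 + t ^ 2) ≤ Real.exp (-t) * (2 * Real.exp t) :=
      mul_le_mul_of_nonneg_left (by linarith) (Real.exp_pos _).le
    have a5 := mul_le_mul_of_nonneg_right a1 (show 0 ≤ 1 + t ^ 2 by positivity)
    linarith
  rw [e, norm_mul, norm_mul]
  have hzp : 0 ≤ z.im ^ (1 / 6 : ℝ) := Real.rpow_nonneg (by linarith) _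
  have hxp : 0 ≤ (1 + x) ^ (-2 / 3 : ℝ) := by positivity
  calc _ ≤ (3 * Real.exp (π * t / 4)) *
        (|C| * (z.im ^ (1 / 6 : ℝ) * Real.exp (t / 6)) * (1 + x) ^ (-2 / 3 : ℝ)) *
        (20 * Real.exp 1 * Real.exp (-(π * t))) := by gcongr
    _ = 60 * Real.exp 1 * |C| * (z.im ^ (1 / 6 : ℝ) * (1 + x) ^ (-2 / 3 : ℝ)) *
        (Real.exp (π * t / 4) * Real.exp (t / 6) * Real.exp (-(π * t))) := by ring
    _ ≤ 60 * Real.exp 1 * |C| * (z.im ^ (1 / 6 : ℝ) * (1 + x) ^ (-2 / 3 : ℝ)) *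
        (2 * (1 + (w.im - z.im) ^ 2)⁻¹) := by gcongr
    _ = _ := by ring

lemma cusp_deriv_diff {w : ℂ} (hw : 0 < w.im) : DifferentiableAt ℂ (deriv sh) w := by
  have hU : IsOpen {u : ℂ | 0 < u.im} := isOpen_lt continuous_const Complex.continuous_im
  have h : DifferentiableOn ℂ sh {u : ℂ | 0 < u.im} :=
    fun u hu => (sh_diff hu).differentiableWithinAt
  exact (h.deriv hU).differentiableAt (hU.mem_nhds hw)

lemma cusp_wz_diff {w : ℂ} (hw : 0 < w.im) : DifferentiableAt ℂ wz w := by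
  have := ne_of_im hw
  unfold wz
  fun_prop (disch := assumption)

lemma cusp_kern_diff (x : ℝ) {σ w : ℂ} (hw : 0 < w.im) (h : sh w ^ 2 ≠ σ ^ 2) :
    DifferentiableAt ℂ (kern x σ) w := by
  have h1 : DifferentiableAt ℂ (fun u => psi x (wz u)) w :=
    (psi_diff x (im_wz_pos hw)).comp w (cusp_wz_diff hw)
  have h2 := cusp_deriv_diff hw
  have h3 : DifferentiableAt ℂ (fun u => 2 * σ / (sh u ^ 2 - σ ^ 2)) w :=
    (differentiableAt_const _).div (((sh_diff hw).pow 2).sub_const _) (sub_ne_zero.2 h)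
  exact (h1.mul h2).mul h3

/-- the high part of the contour -/
lemma cusp_high {Y : ℝ} (hY : 2 ≤ Y) {lam : ℂ → ℂ} (hl : cusp_data Y lam) :
    ∃ C : ℝ, ∀ x : ℝ, 0 ≤ x → ∀ z : ℂ, Y + 3 ≤ z.im → |z.re| < 1 / 2 → ∀ T : ℝ, z.im + 2 ≤ T →
      ‖th2 z * ∫ η in (Y + 1)..T, kern x (sh z) (ln η) * I‖ ≤
        C * (z.im ^ (1 / 6 : ℝ) * (1 + x) ^ (-2 / 3 : ℝ)) := by
  obtain ⟨C, hC0, hC⟩ := cusp_point hY hl
  refine ⟨C * 5, fun x hx z hz hre T hT => ?_⟩
  rw [abs_lt] at hre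
  set B := C * (z.im ^ (1 / 6 : ℝ) * (1 + x) ^ (-2 / 3 : ℝ)) with hB
  have hB0 : 0 ≤ B := by
    have : 0 ≤ z.im ^ (1 / 6 : ℝ) := Real.rpow_nonneg (by linarith) _
    positivity
  set c : ℝ := z.re + 1 / 2 with hc
  set f : ℂ → ℂ := fun w => th2 z * kern x (sh z) w with hf
  have hmem : ∀ u ∈ uIcc (1 / 2 : ℝ) c, z.re < u ∧ u < z.re + 1 ∧ |u| ≤ 1 := by
    intro u hu
    rw [mem_uIcc] at hu
    refine ⟨?_, ?_, abs_le.2 ⟨?_, ?_⟩⟩ <;> rcases hu with hu | hu <;> linarith [hu.1, hu.2]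
  have hLT : Y + 1 ≤ T := by linarith
  have hrect := Complex.integral_boundary_rect_eq_zero_of_differentiableOn f
    (⟨1 / 2, Y + 1⟩ : ℂ) (⟨c, T⟩ : ℂ) (by
      intro w hw
      rw [mem_reProdIm] at hw
      obtain ⟨h1, h2⟩ := hw
      simp only at h1 h2
      rw [uIcc_of_le hLT] at h2
      have h3 := hmem _ h1
      refine DifferentiableAt.differentiableWithinAt ?_
      exact (cusp_kern_diff x (by linarith [h2.1])
        (cusp_nopole hl (by linarith) (by linarith [h2.1]) h3.1 h3.2.1)).const_mul _)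
  simp only [smul_eq_mul] at hrect
  have hor : ∀ s : ℝ, Y < s → 2 ≤ |s - z.im| → ‖∫ u in (1 / 2 : ℝ)..c, f (u + s * I)‖ ≤ B / 2 := by
    intro s hs hs2
    have h1 := intervalIntegral.norm_integral_le_of_norm_le_const (a := 1 / 2) (b := c) (C := B)
      (f := fun u : ℝ => f (u + s * I)) (fun u hu => by
        have h2 := hC x hx z (u + s * I) (by linarith) (by simpa using hs)
          (by simpa using (hmem u (uIoc_subset_uIcc hu)).2.2) (Or.inl (by simpa using hs2))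
        refine h2.trans ?_
        refine mul_le_of_le_one_right hB0 (inv_le_one_of_one_le₀ ?_)
        linarith [sq_nonneg ((u + s * I : ℂ).im - z.im)])
    have h2 : |c - 1 / 2| ≤ 1 / 2 := by rw [abs_le]; constructor <;> linarith
    nlinarith
  have hver : ‖∫ η in (Y + 1)..T, f (c + η * I)‖ ≤ B * 4 := by
    have h1 := intervalIntegral.norm_integral_le_of_norm_le (μ := volume) hLT
      (f := fun η : ℝ => f (c + η * I)) (g := fun η : ℝ => B * (1 + (η - z.im) ^ 2)⁻¹)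
      (Eventually.of_forall fun η hη => by
        have h2 := hC x hx z (c + η * I) (by linarith) (by simpa using (by linarith [hη.1]))
          (by simpa using (hmem c right_mem_uIcc).2.2) (Or.inr (by simp [hc]))
        have e : ((c : ℂ) + η * I).im = η := by simp
        rw [e] at h2
        exact h2)
      (Continuous.intervalIntegrable (by
        refine continuous_const.mul (Continuous.inv₀ (by fun_prop) fun η => ?_)
        positivity) _ _)
    rw [intervalIntegral.integral_const_mul B,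
      intervalIntegral.integral_comp_sub_right (fun t : ℝ => (1 + t ^ 2)⁻¹),
      integral_inv_one_add_sq] at h1
    refine h1.trans (mul_le_mul_of_nonneg_left ?_ hB0)
    linarith [Real.arctan_lt_pi_div_two (T - z.im), Real.neg_pi_div_two_lt_arctan (Y + 1 - z.im),
      Real.pi_lt_four]
  have e : th2 z * ∫ η in (Y + 1)..T, kern x (sh z) (ln η) * I =
      I * ∫ η in (Y + 1)..T, f (((1 / 2 : ℝ) : ℂ) + η * I) := by
    rw [← intervalIntegral.integral_const_mul, ← intervalIntegral.integral_const_mul]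
    refine intervalIntegral.integral_congr fun η _ => ?_
    simp only [hf, ln]
    push_cast
    ring
  rw [e, ← sub_eq_zero.1 hrect]
  have h1 := hor (Y + 1) (by linarith) (by rw [abs_sub_comm, abs_of_nonneg] <;> linarith)
  have h2 := hor T (by linarith) (by rw [abs_of_nonneg] <;> linarith)
  refine (norm_add_le _ _).trans ?_
  rw [norm_mul, Complex.norm_I, one_mul]
  have h3 := norm_sub_le (∫ u in (1 / 2 : ℝ)..c, f (u + (Y + 1 : ℝ) * I))
    (∫ u in (1 / 2 : ℝ)..c, f (u + T * I))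
  linarith

/-- the low part of the contour -/
lemma cusp_low (L : ℝ) : ∃ R C : ℝ, 0 ≤ C ∧ ∀ x : ℝ, 0 ≤ x → ∀ σ : ℂ, R ≤ ‖σ‖ → ∀ η ∈ Icc (1 / 2 : ℝ) L,
    sh (ln η) ^ 2 ≠ σ ^ 2 ∧ ‖kern x σ (ln η)‖ ≤ C * (1 + x) ^ (-2 / 3 : ℝ) := by
  have hln : Continuous ln := by unfold ln; fun_prop
  have hpos : ∀ η ∈ Icc (1 / 2 : ℝ) L, 0 < (ln η).im := fun η hη => by
    rw [ln_im]; linarith [hη.1]
  obtain ⟨M, hM⟩ := isCompact_Icc.exists_bound_of_continuousOn (s := Icc (1 / 2 : ℝ) L)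
    (f := fun η => sh (ln η)) (fun η hη =>
      ((sh_diff (hpos η hη)).continuousAt.comp hln.continuousAt).continuousWithinAt)
  obtain ⟨M1, hM1⟩ := isCompact_Icc.exists_bound_of_continuousOn (s := Icc (1 / 2 : ℝ) L)
    (f := fun η => deriv sh (ln η)) (fun η hη =>
      ((cusp_deriv_diff (hpos η hη)).continuousAt.comp hln.continuousAt).continuousWithinAt)
  obtain ⟨C, hC⟩ := psi_compact (K := (fun η => wz (ln η)) '' Icc (1 / 2 : ℝ) L)
    (isCompact_Icc.image_of_continuousOn (fun η hη =>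
      ((cusp_wz_diff (hpos η hη)).continuousAt.comp hln.continuousAt).continuousWithinAt))
    (by rintro _ ⟨η, hη, rfl⟩; exact im_wz_pos (hpos η hη))
  refine ⟨2 * |M| + 1, |C| * |M1| * 3, by positivity, fun x hx σ hσ η hη => ?_⟩
  have h1 : ‖sh (ln η)‖ ≤ |M| := (hM η hη).trans (le_abs_self _)
  have h0 := norm_nonneg (sh (ln η))
  have hM0 := abs_nonneg M
  have h2 : 3 / 4 * ‖σ‖ ^ 2 ≤ ‖sh (ln η) ^ 2 - σ ^ 2‖ := by
    have := norm_sub_norm_le (σ ^ 2) (sh (ln η) ^ 2)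
    rw [norm_sub_rev, norm_pow, norm_pow] at this
    nlinarith
  have h3 : 0 < ‖sh (ln η) ^ 2 - σ ^ 2‖ := lt_of_lt_of_le (by nlinarith) h2
  refine ⟨sub_ne_zero.1 (norm_pos_iff.1 h3), ?_⟩
  have h4 : ‖2 * σ / (sh (ln η) ^ 2 - σ ^ 2)‖ ≤ 3 := by
    rw [norm_div, div_le_iff₀ h3, norm_mul, Complex.norm_ofNat]
    nlinarith
  have h5 : ‖psi x (wz (ln η))‖ ≤ |C| * (1 + x) ^ (-2 / 3 : ℝ) :=
    (hC x hx _ ⟨η, hη, rfl⟩).trans (mul_le_mul_of_nonneg_right (le_abs_self _) (by positivity))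
  have h6 : ‖deriv sh (ln η)‖ ≤ |M1| := (hM1 η hη).trans (le_abs_self _)
  rw [kern, norm_mul, norm_mul]
  calc _ ≤ |C| * (1 + x) ^ (-2 / 3 : ℝ) * |M1| * 3 := by gcongr
    _ = _ := by ring

theorem hk_cusp : ∃ Y : ℝ, 2 ≤ Y ∧ ∃ C : ℝ, ∀ x : ℝ, 0 ≤ x → ∀ z : ℂ, Y ≤ z.im → |z.re| < 1 / 2 →
    ‖th2 z * hk x (sh z)‖ ≤ C * z.im ^ (1 / 6 : ℝ) * (1 + x) ^ (-2 / 3 : ℝ) := by
  obtain ⟨Y, hY, lam, hl⟩ := sh_cusp
  obtain ⟨C1, hC1⟩ := cusp_high hY hl
  obtain ⟨R, C2, hC20, hC2⟩ := cusp_low (Y + 1)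
  refine ⟨max (Y + 3) (8 * R), by linarith [le_max_left (Y + 3) (8 * R)],
    ‖(1 / (2 * π * I) : ℂ)‖ * (3 * (C2 * (Y + 1)) + C1), fun x hx z hz hre => ?_⟩
  have hz1 : Y + 3 ≤ z.im := (le_max_left _ _).trans hz
  have hz2 : 8 * R ≤ z.im := (le_max_right _ _).trans hz
  have hpi := Real.pi_gt_three
  have hσ : R ≤ ‖sh z‖ := by
    have i2 := abs_le.1 ((Complex.abs_im_le_norm _).trans (hl z (by linarith)).2.2.1)
    rw [(hl z (by linarith)).2.1, norm_mul, norm_ep]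
    have := Real.add_one_le_exp (-π * (-(z + lam z)).im)
    simp only [neg_im, add_im] at this ⊢
    have e : ‖(1 / 8 : ℂ)‖ = 1 / 8 := by simp
    rw [e]
    nlinarith
  have hre' := abs_lt.1 hre
  have hint : IntegrableOn (fun η : ℝ => kern x (sh z) (ln η) * I) (Ioi (1 / 2)) := by
    refine kern_integrable hx fun η hη => ?_
    rcases le_total η (Y + 1) with h | h
    · exact (hC2 x hx _ hσ η ⟨hη, h⟩).1
    · exact cusp_nopole hl (by linarith) (by rw [ln_im]; linarith) (by rw [ln_re]; linarith)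
        (by rw [ln_re]; linarith)
  have hL : (1 / 2 : ℝ) ≤ Y + 1 := by linarith
  have hint2 := hint.mono_set (Ioi_subset_Ioi hL)
  have hzp : 1 ≤ z.im ^ (1 / 6 : ℝ) := Real.one_le_rpow (by linarith) (by norm_num)
  have hxp : 0 ≤ (1 + x) ^ (-2 / 3 : ℝ) := by positivity
  have b1 : ‖th2 z * ∫ η in Ioi (Y + 1), kern x (sh z) (ln η) * I‖ ≤
      C1 * (z.im ^ (1 / 6 : ℝ) * (1 + x) ^ (-2 / 3 : ℝ)) := by
    have ht := ((intervalIntegral_tendsto_integral_Ioi (Y + 1) hint2 tendsto_id).const_mul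
      (th2 z)).norm
    refine le_of_tendsto ht ?_
    filter_upwards [eventually_ge_atTop (z.im + 2)] with T hT using hC1 x hx z hz1 hre T hT
  have b2 : ‖th2 z * ∫ η in (1 / 2 : ℝ)..(Y + 1), kern x (sh z) (ln η) * I‖ ≤
      3 * (C2 * (Y + 1)) * (z.im ^ (1 / 6 : ℝ) * (1 + x) ^ (-2 / 3 : ℝ)) := by
    have h1 := intervalIntegral.norm_integral_le_of_norm_le_const (a := 1 / 2) (b := Y + 1)
      (C := C2 * (1 + x) ^ (-2 / 3 : ℝ)) (f := fun η : ℝ => kern x (sh z) (ln η) * I)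
      (fun η hη => by
        rw [uIoc_of_le hL] at hη
        rw [norm_mul, Complex.norm_I, mul_one]
        exact (hC2 x hx _ hσ η ⟨hη.1.le, hη.2⟩).2)
    have h2 : ‖th2 z‖ ≤ 3 := by
      refine (th2_bd (z := z) (by linarith)).2.trans ?_
      have : Real.exp (-π * z.im / 4) ≤ 1 := Real.exp_le_one_iff.2 (by nlinarith)
      linarith
    have h3 : |Y + 1 - 1 / 2| ≤ Y + 1 := by rw [abs_le]; constructor <;> linarith
    rw [norm_mul]
    calc _ ≤ 3 * (C2 * (1 + x) ^ (-2 / 3 : ℝ) * |Y + 1 - 1 / 2|) := by gcongr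
      _ ≤ 3 * (C2 * (1 + x) ^ (-2 / 3 : ℝ) * (Y + 1)) := by gcongr
      _ = 3 * (C2 * (Y + 1)) * (1 * (1 + x) ^ (-2 / 3 : ℝ)) := by ring
      _ ≤ _ := by gcongr
  rw [hk_eq, ← intervalIntegral.integral_interval_add_Ioi hint hint2, mul_left_comm, norm_mul,
    mul_add (th2 z)]
  refine (mul_le_mul_of_nonneg_left ((norm_add_le _ _).trans (add_le_add b2 b1))
    (norm_nonneg _)).trans (le_of_eq ?_)
  ring

end

end Pool.Agent.MP_9f080f_an

end
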