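import Pool.Agent.MP_9f080f_an.Mg.Cusp

namespace Pool.Agent.MP_9f080f_an
open Complex MeasureTheory Set Filter Topology Metric
open scoped Real

noncomputable section

/-! Local continuation of `H0`. -/

lemma coc_eq_zero {x : ℝ} {g : GT} {τ : ℂ}
    (h : sg ((g.a : ℝ) ^ 2 - (g.c : ℝ) ^ 2) = sg (normSq (g.mob τ) - 1)) : coc x g τ = 0 := by
  simp [coc, h]

lemma coc_summable (x : ℝ) {τ : ℂ} (h : 0 < τ.im) : Summable fun g => coc x g τ := by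
  refine summable_of_hasFiniteSupport ((GT.coc_finite (K := {τ}) isCompact_singleton
    (by simpa using h)).subset fun g hg => ⟨τ, rfl, fun e => hg (coc_eq_zero e)⟩)

lemma coc_mul_T (x : ℝ) (g : GT) (j : ℤ) (τ : ℂ) : coc x (g * GT.T j) τ = coc x g (τ + 2 * j) := by
  simp [coc, GT.chi_mul, GT.mob_mul_T]

lemma coc_N_mul (x : ℝ) (g : GT) (τ : ℂ) : coc x (GT.N * g) τ = coc x g τ := by
  simp [coc, GT.chi_mul, GT.mob_N_mul]

lemma H0_T (x : ℝ) {τ : ℂ} (h : 0 < τ.im) (j : ℤ) : H0 x (τ + 2 * j) = H0 x τ := by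
  have h1 := sf_mob (GT.T j) h
  simp only [GT.mob_T, GT.chi_T, one_mul] at h1
  rw [H0, H0, h1, ← (Equiv.mulRight (GT.T j)).tsum_eq fun g => coc x g τ]
  simp only [Equiv.coe_mulRight, coc_mul_T]

open Classical in
/-- the four elements preserving the unit circle -/
def Q4 : Finset GT := {1, GT.N, GT.S, GT.N * GT.S}

lemma mem_Q4 {g : GT} : g ∈ Q4 ↔ g = 1 ∨ g = GT.N ∨ g = GT.S ∨ g = GT.N * GT.S := by
  simp [Q4]

lemma sum_Q4 (f : GT → ℂ) : ∑ g ∈ Q4, f g = f 1 + f GT.N + f GT.S + f (GT.N * GT.S) := by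
  classical
  rw [Q4, Finset.sum_insert, Finset.sum_insert, Finset.sum_insert, Finset.sum_singleton]
  · ring
  all_goals simp [GT.ext_iff]

lemma neg_inv_inv (τ : ℂ) : -1 / (-1 / τ) = τ := by
  rw [div_div_eq_mul_div]; simp

lemma H0_S (x : ℝ) {τ : ℂ} (h : 0 < τ.im) : H0 x (-1 / τ) + H0 x τ = psi x τ := by
  have h1 := sf_mob GT.S h
  simp only [GT.mob_S, GT.chi_S] at h1
  have h2 : ∑' g, coc x g (-1 / τ) + ∑' g, coc x g τ = 8 * psi x τ := by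
    have hs : Summable fun g => coc x (Equiv.mulRight GT.S g) τ :=
      (Equiv.mulRight GT.S).summable_iff.2 (coc_summable x h)
    rw [← (Equiv.mulRight GT.S).tsum_eq fun g => coc x g τ,
      ← (coc_summable x (im_neg_inv_pos h)).tsum_add hs]
    have e : ∀ g : GT, coc x g (-1 / τ) + coc x (g * GT.S) τ = g.chi *
        (sg ((g.a : ℝ) ^ 2 - (g.c : ℝ) ^ 2) - sg ((g.b : ℝ) ^ 2 - (g.d : ℝ) ^ 2)) *
          psi x (g.mob (-1 / τ)) := fun g => by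
      simp [coc, GT.chi_mul, GT.mob_mul _ _ h]; ring
    simp only [Equiv.coe_mulRight, e]
    rw [tsum_eq_sum (s := Q4), sum_Q4]
    · simp only [GT.mob_N_mul, GT.mob_S, neg_inv_inv, GT.mob_one, GT.mob_N, psi_S, GT.chi_mul]
      simp [sg_pos, sg_neg]; ring
    · intro g hg
      rw [mem_Q4] at hg
      rw [not_not.1 (mt g.sg_col hg)]; simp
  rw [H0, H0, h1, neg_one_mul, hk_neg]
  linear_combination 1 / 8 * h2

/-- `H0` extends holomorphically to a neighbourhood -/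
def Ext (τ₀ : ℂ) : Prop := ∃ V ∈ 𝓝 τ₀, ∃ C : ℝ, ∀ x : ℝ, 0 ≤ x → ∃ G : ℂ → ℂ,
  DifferentiableOn ℂ G V ∧ (∀ τ ∈ V, ‖G τ‖ ≤ C * (1 + x) ^ (-2 / 3 : ℝ)) ∧
    ∀ τ ∈ V, Good τ → H0 x τ = G τ

lemma cball_im {τ₀ : ℂ} (h : 0 < τ₀.im) {z : ℂ} (hz : z ∈ closedBall τ₀ (τ₀.im / 2)) : 0 < z.im := by
  have h1 := (Complex.abs_im_le_norm (z - τ₀)).trans (mem_closedBall_iff_norm.1 hz)
  have := (abs_le.1 h1).1
  simp at this; linarith

lemma sg_eventually {f : ℂ → ℝ} {z : ℂ} (hf : ContinuousAt f z) (h : f z ≠ 0) :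
    ∀ᶠ w in 𝓝 z, sg (f w) = sg (f z) := by
  rcases lt_or_gt_of_ne h with h | h
  · filter_upwards [hf.eventually (gt_mem_nhds h)] with w hw
    rw [sg_neg hw, sg_neg h]
  · filter_upwards [hf.eventually (lt_mem_nhds h)] with w hw
    rw [sg_pos hw, sg_pos h]

lemma rest_ext {τ₀ : ℂ} (h : 0 < τ₀.im) (Q : Finset GT) (hQ : ∀ g ∉ Q, normSq (g.mob τ₀) ≠ 1) :
    ∃ V ∈ 𝓝 τ₀, ∃ C : ℝ, ∀ x : ℝ, 0 ≤ x → ∃ G : ℂ → ℂ,
      DifferentiableOn ℂ G V ∧ (∀ τ ∈ V, ‖G τ‖ ≤ C * (1 + x) ^ (-2 / 3 : ℝ)) ∧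
        ∀ τ ∈ V, ∑' g, coc x g τ = ∑ g ∈ Q, coc x g τ + G τ := by
  classical
  set K := closedBall τ₀ (τ₀.im / 2)
  have hK : IsCompact K := isCompact_closedBall _ _
  have hK' : ∀ z ∈ K, 0 < z.im := fun z hz => cball_im h hz
  set F := (GT.coc_finite hK hK').toFinset
  have hC : ∀ g : GT, ∃ C : ℝ, ∀ x : ℝ, 0 ≤ x → ∀ w ∈ K,
      ‖psi x (g.mob w)‖ ≤ C * (1 + x) ^ (-2 / 3 : ℝ) := fun g => by
    obtain ⟨C, hC⟩ := psi_compact (K := g.mob '' K)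
      (hK.image_of_continuousOn fun z hz => (g.continuousAt_mob (hK' z hz)).continuousWithinAt)
      (by rintro _ ⟨z, hz, rfl⟩; exact g.im_mob_pos (hK' z hz))
    exact ⟨C, fun x hx w hw => hC x hx _ ⟨w, hw, rfl⟩⟩
  choose C hC using hC
  have hev : ∀ᶠ w in 𝓝 τ₀, ∀ g ∈ F \ Q,
      sg (normSq (g.mob w) - 1) = sg (normSq (g.mob τ₀) - 1) := by
    rw [Finset.eventually_all]
    intro g hg
    exact sg_eventually (f := fun w => normSq (g.mob w) - 1)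
      ((continuous_normSq.continuousAt.comp (g.continuousAt_mob h)).sub continuousAt_const)
      (sub_ne_zero.2 (hQ g (Finset.mem_sdiff.1 hg).2))
  refine ⟨K ∩ _, inter_mem (closedBall_mem_nhds _ (by linarith)) hev, ∑ g ∈ F \ Q, 2 * C g,
    fun x hx => ⟨fun τ => ∑ g ∈ F \ Q, g.chi * (sg ((g.a : ℝ) ^ 2 - (g.c : ℝ) ^ 2) -
      sg (normSq (g.mob τ₀) - 1)) * psi x (g.mob τ), ?_, ?_, ?_⟩⟩
  · intro τ hτ
    refine (DifferentiableAt.fun_sum fun g _ => ?_).differentiableWithinAt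
    exact ((psi_diff x (g.im_mob_pos (hK' τ hτ.1))).comp τ
      (g.hasDerivAt_mob (hK' τ hτ.1)).differentiableAt).const_mul _
  · intro τ hτ
    rw [Finset.sum_mul]
    refine norm_sum_le_of_le _ fun g _ => ?_
    rw [norm_mul, norm_mul, g.norm_chi, one_mul, mul_assoc]
    refine mul_le_mul ((norm_sub_le _ _).trans ?_) (hC g x hx τ hτ.1) (norm_nonneg _) zero_le_two
    linarith [norm_sg_le ((g.a : ℝ) ^ 2 - (g.c : ℝ) ^ 2), norm_sg_le (normSq (g.mob τ₀) - 1)]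
  · intro τ hτ
    rw [tsum_eq_sum (s := Q ∪ F \ Q), Finset.sum_union Finset.disjoint_sdiff]
    · congr 1
      refine Finset.sum_congr rfl fun g hg => ?_
      rw [coc, hτ.2 g hg]
    · intro g hg
      apply coc_eq_zero
      by_contra h0
      apply hg
      rw [Finset.union_sdiff_self_eq_union]
      exact Finset.mem_union_right _ ((Set.Finite.mem_toFinset _).2 ⟨τ, hτ.1, h0⟩)

lemma normSq_wz_ln {η : ℝ} (h : 0 < η) : normSq (wz (ln η)) = 1 := by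
  have := normSq_wz_sub (z := ln η) (ne_of_im (by simpa using h))
  simp at this; linarith

lemma no_pole {τ : ℂ} (h : 0 < τ.im) (hg : Good τ) {η : ℝ} (hη : 0 < η) :
    sh (ln η) ^ 2 ≠ sf τ ^ 2 := by
  intro e
  obtain ⟨g, hg'⟩ := sf_sq_inj (im_wz_pos (by simpa using hη)) h e
  exact hg g (hg' ▸ normSq_wz_ln hη)

lemma ext_good {τ₀ : ℂ} (h : 0 < τ₀.im) (hg : Good τ₀) : Ext τ₀ := by
  obtain ⟨V, hV, C, H⟩ := rest_ext h ∅ fun g _ => hg g
  obtain ⟨r, hr, C', H'⟩ := hk_reg (σ₀ := sf τ₀) fun η hη => no_pole h hg (by linarith)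
  have hW : sf ⁻¹' ball (sf τ₀) r ∈ 𝓝 τ₀ := (sf_diff h).continuousAt (ball_mem_nhds _ hr)
  refine ⟨V ∩ (sf ⁻¹' ball (sf τ₀) r ∩ closedBall τ₀ (τ₀.im / 2)),
    inter_mem hV (inter_mem hW (closedBall_mem_nhds _ (by linarith))), C' + 1 / 8 * C,
    fun x hx => ?_⟩
  obtain ⟨G, h1, h2, h3⟩ := H x hx
  obtain ⟨h4, h5⟩ := H' x hx
  refine ⟨fun τ => hk x (sf τ) + 1 / 8 * G τ, ?_, fun τ hτ => ?_, fun τ hτ _ => ?_⟩
  · refine DifferentiableOn.add ?_ ((h1.mono inter_subset_left).const_mul _)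
    exact h4.comp (fun τ hτ => (sf_diff (cball_im h hτ.2.2)).differentiableWithinAt)
      fun τ hτ => hτ.2.1
  · refine (norm_add_le _ _).trans ?_
    have := h5 _ hτ.2.1
    have := h2 _ hτ.1
    rw [norm_mul]; norm_num at *; linarith
  · rw [H0, h3 τ hτ.1]; simp

lemma ext_circle {τ₀ : ℂ} (h : 0 < τ₀.im) (h1 : normSq τ₀ = 1) : Ext τ₀ := by
  obtain ⟨V, hV, C, H⟩ := rest_ext h Q4 fun g hg e => hg (mem_Q4.2 (GT.on_circle h h1 e))
  obtain ⟨V', hV', C', H'⟩ := loc_circle h h1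
  refine ⟨V ∩ (V' ∩ closedBall τ₀ (τ₀.im / 2)),
    inter_mem hV (inter_mem hV' (closedBall_mem_nhds _ (by linarith))), C' + 1 / 8 * C,
    fun x hx => ?_⟩
  obtain ⟨G, h1, h2, h3⟩ := H x hx
  obtain ⟨G', h4, h5, h6⟩ := H' x hx
  refine ⟨fun τ => G' τ + 1 / 8 * G τ, ?_, fun τ hτ => ?_, fun τ hτ hg => ?_⟩
  · exact (h4.mono fun τ hτ => hτ.2.1).add ((h1.mono inter_subset_left).const_mul _)
  · refine (norm_add_le _ _).trans ?_
    have := h5 _ hτ.2.1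
    have := h2 _ hτ.1
    rw [norm_mul]; norm_num at *; linarith
  · have hne : normSq τ ≠ 1 := by simpa using hg 1
    have hτ0 := cball_im h hτ.2.2
    have hp := normSq_pos.2 (ne_of_im hτ0)
    rw [H0, h3 τ hτ.1, sum_Q4]
    simp only
    rw [← h6 τ hτ.2.1 hne, coc_N_mul, show GT.N = GT.N * 1 by simp, coc_N_mul]
    have e : normSq (-1 / τ) - 1 = (normSq τ)⁻¹ * (-(normSq τ - 1)) := by
      simp; field_simp
    simp only [coc, GT.mob_one, GT.mob_S, psi_S, e, sg_mul_pos (inv_pos.2 hp), sg_neg_arg]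
    rcases lt_or_gt_of_ne hne with h7 | h7
    · rw [if_pos h7, sg_neg (sub_neg.2 h7)]; simp [sg_pos, sg_neg]; ring
    · rw [if_neg h7.not_gt, sg_pos (sub_pos.2 h7)]; simp [sg_pos, sg_neg]

lemma ext_step (g : GT) (u v : ℂ)
    (H : ∀ x : ℝ, ∀ τ : ℂ, 0 < τ.im → H0 x τ = u * H0 x (g.mob τ) + v * psi x τ) {τ₀ : ℂ}
    (h : 0 < τ₀.im) (hE : Ext (g.mob τ₀)) : Ext τ₀ := by
  obtain ⟨V, hV, C, hE⟩ := hE
  obtain ⟨C', hC'⟩ := psi_compact (isCompact_closedBall τ₀ (τ₀.im / 2)) fun z hz => cball_im h hz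
  refine ⟨g.mob ⁻¹' V ∩ closedBall τ₀ (τ₀.im / 2),
    inter_mem (g.continuousAt_mob h hV) (closedBall_mem_nhds _ (by linarith)),
    ‖u‖ * C + ‖v‖ * C', fun x hx => ?_⟩
  obtain ⟨G, h1, h2, h3⟩ := hE x hx
  refine ⟨fun τ => u * G (g.mob τ) + v * psi x τ, ?_, fun τ hτ => ?_, fun τ hτ hg => ?_⟩
  · refine DifferentiableOn.add (DifferentiableOn.const_mul ?_ _) (DifferentiableOn.const_mul ?_ _)
    · exact h1.comp (fun τ hτ =>
        (g.hasDerivAt_mob (cball_im h hτ.2)).differentiableAt.differentiableWithinAt) fun τ hτ => hτ.1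
    · exact fun τ hτ => (psi_diff x (cball_im h hτ.2)).differentiableWithinAt
  · refine (norm_add_le _ _).trans ?_
    rw [norm_mul, norm_mul, add_mul, mul_assoc, mul_assoc]
    gcongr
    · exact h2 _ hτ.1
    · exact hC' x hx τ hτ.2
  · have hτ0 := cball_im h hτ.2
    rw [H x τ hτ0, h3 _ hτ.1 ((good_mob hτ0 g).2 hg)]

lemma ext_mob (g : GT) : ∀ τ₀ : ℂ, 0 < τ₀.im → Ext (g.mob τ₀) → Ext τ₀ := by
  refine GT.induction (P := fun g => ∀ τ₀ : ℂ, 0 < τ₀.im → Ext (g.mob τ₀) → Ext τ₀)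
    (fun τ₀ _ h => by simpa using h) (fun g ih τ₀ h0 h => ih τ₀ h0 (by rwa [GT.mob_N_mul] at h))
    (fun j g ih τ₀ h0 h => ih τ₀ h0 ?_) (fun g ih τ₀ h0 h => ih τ₀ h0 ?_) g
  · rw [GT.mob_mul _ _ h0] at h
    exact ext_step (GT.T j) 1 0 (fun x τ hτ => by simp [H0_T x hτ]) (g.im_mob_pos h0) h
  · rw [GT.mob_mul _ _ h0] at h
    refine ext_step GT.S (-1) 1 (fun x τ hτ => ?_) (g.im_mob_pos h0) h
    rw [GT.mob_S]; linear_combination H0_S x hτ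

theorem ext_all {τ₀ : ℂ} (h : 0 < τ₀.im) : Ext τ₀ := by
  by_cases hg : Good τ₀
  · exact ext_good h hg
  · obtain ⟨g, hg⟩ := not_forall.1 hg
    exact ext_mob g τ₀ h (ext_circle (g.im_mob_pos h) (not_not.1 hg))

end

end Pool.Agent.MP_9f080f_an
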