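import Pool.Agent.MP_9f080f_an.Mg.G_AB

-- part MP_9f080f_an.G.AD
section

namespace Pool.Agent.MP_9f080f_an
open Complex MeasureTheory Set Filter Topology Metric
open scoped Real

noncomputable section

/-! Smooth sums of twisted periodic sequences.
`sm_zero`: for `q/p ≤ t ≤ (q+1)/p`, `‖Φ (q/p)‖ ≤ ‖Φ t‖ + ∫_{q/p}^{(q+1)/p} φ`; average over `t` and add up (`intervalIntegral.sum_integral_adjacent_intervals`, or
`hasSum_integral_iUnion`/`integral_biUnion_finset` for the intervals `Ico (q/p) ((q+1)/p)`).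
`sm_two`: with `z = ep (2θ)`, `(z - 1)² ∑ z^q Φ(q/p) = ∑ z^(q+2) (Φ(q/p) - 2 Φ((q+1)/p) + Φ((q+2)/p))` (shift the summation index, `Equiv.tsum_eq` or finite sums), each second difference is
`∫_0^h (Φ'(x + h + a) - Φ'(x + a)) da` of norm at most `h ∫_x^{x + 2h} φ` (`h = 1/p`), so the sum is at most `2 h ∫ φ`; `‖z - 1‖ = 2 |sin π θ| ≥ 4 |θ|` (`pv_norm_sub_one`, `pv_sin_low`).
`pv2_gen`: Fourier inversion `P * e q = ∑_{m ∈ R} c m * ep (2 (m + κ) q / P)` over a complete residue system `R ⊆ Icc (-P) P` with `|m + κ| ≤ P/2` (see the proof of `shpv_short`, `pv_inversion`).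
`pv2A`: `sm_two` with `θ = (m + 3/8)/P`, `P² / (p μ²) ≤ 2 P / μ²`, `1/μ² ≤ 8/(1 + m²)`.  `pv2B`: the same, and `sm_zero` for `m + κ = 0`.
`pv2A_neg`, `pv2B_neg`: apply the unprimed versions to `fun t => Φ (-t)` (`J2.comp_mul` with `c = -1`) and reindex by `Equiv.neg ℤ`. -/

lemma ada_sum {φ : ℝ → ℝ} {p : ℝ} (hp : 0 < p) (hφ : Integrable φ) :
    HasSum (fun q : ℤ => ∫ t in (q / p : ℝ)..((q + 1) / p), φ t) (∫ t, φ t) := by
  have h := ((hφ.comp_div hp.ne').hasSum_intervalIntegral 0).mul_left p⁻¹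
  rw [Measure.integral_comp_div, abs_of_pos hp, smul_eq_mul, inv_mul_cancel_left₀ hp.ne'] at h
  refine (funext fun q => ?_ : _ = fun q : ℤ => ∫ t in (q / p : ℝ)..((q + 1) / p), φ t) ▸ h
  rw [intervalIntegral.integral_comp_div _ hp.ne', smul_eq_mul, inv_mul_cancel_left₀ hp.ne', zero_add]

lemma ada_ftc {F : ℝ → ℂ} {φ : ℝ → ℝ} (hF : ContDiff ℝ 1 F) (h : ∀ t, ‖deriv F t‖ ≤ φ t)
    (hφ : Integrable φ) {c a b d : ℝ} (hca : c ≤ a) (hab : a ≤ b) (hbd : b ≤ d) :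
    ‖F b - F a‖ ≤ ∫ t in c..d, φ t := by
  rw [← intervalIntegral.integral_deriv_eq_sub (fun x _ => hF.differentiable one_ne_zero x)
    ((hF.continuous_deriv le_rfl).intervalIntegrable a b)]
  exact (intervalIntegral.norm_integral_le_of_norm_le hab
    (Eventually.of_forall fun t _ => h t) hφ.intervalIntegrable).trans
    (intervalIntegral.integral_mono_interval hca hab hbd
      (Eventually.of_forall fun t => (norm_nonneg _).trans (h t)) hφ.intervalIntegrable)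

lemma ada_diff {Φ : ℝ → ℂ} {φ : ℝ → ℝ} (hΦ : ContDiff ℝ 2 Φ)
    (h2 : ∀ t, ‖deriv (deriv Φ) t‖ ≤ φ t) (hφ : Integrable φ) (x : ℝ) {h : ℝ} (hh : 0 ≤ h) :
    ‖Φ x - 2 * Φ (x + h) + Φ (x + h + h)‖ ≤ (∫ t in x..(x + h + h), φ t) * h := by
  have h1 : ContDiff ℝ 1 (deriv Φ) := ContDiff.deriv' (n := 1) hΦ
  have hd : ∀ t, HasDerivAt (fun t => Φ (t + h) - Φ t) (deriv Φ (t + h) - deriv Φ t) t := fun t =>
    ((hΦ.differentiable two_ne_zero _).hasDerivAt.comp_add_const t h).sub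
      (hΦ.differentiable two_ne_zero _).hasDerivAt
  have key := norm_image_sub_le_of_norm_deriv_le_segment' (a := x) (b := x + h)
    (fun t _ => (hd t).hasDerivWithinAt)
    (fun t ht => ada_ftc h1 h2 hφ (d := x + h + h) ht.1 (by linarith) (by linarith [ht.2]))
    (x + h) ⟨by linarith, le_rfl⟩
  rw [add_sub_cancel_left] at key
  refine le_trans (le_of_eq ?_) key
  congr 1
  ring

set_option linter.unusedVariables false in
theorem sm_zero {Φ : ℝ → ℂ} {φ : ℝ → ℝ} {p R : ℝ} (hp : 1 ≤ p) (hΦ : ∀ t, J2 Φ t 1 (φ t))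
    (hR : ∀ t, R < |t| → Φ t = 0) (hφ : Integrable φ) :
    ‖∑' q : ℤ, Φ (q / p)‖ ≤ 2 * p * ∫ t, φ t := by
  have hp0 : 0 < p := by linarith
  have h1 : ContDiff ℝ 1 Φ := (contDiff_iff_contDiffAt.2 fun t => (hΦ t).cd).of_le one_le_two
  have h0 : ∀ t, 0 ≤ φ t := fun t => (norm_nonneg _).trans (hΦ t).b0
  refine tsum_of_norm_bounded ((ada_sum hp0 hφ).mul_left (2 * p)) fun q => ?_
  have hab : (q / p : ℝ) ≤ (q + 1) / p := by gcongr; linarith
  set J := ∫ t in (q / p : ℝ)..((q + 1) / p), φ t with hJ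
  have hJ0 : 0 ≤ J := intervalIntegral.integral_nonneg hab fun t _ => h0 t
  have h2 : ∫ _ in (q / p : ℝ)..((q + 1) / p), (‖Φ (q / p)‖ - J) ≤ J := by
    refine intervalIntegral.integral_mono_on hab (by simp) hφ.intervalIntegrable fun t ht => ?_
    have h3 := ada_ftc h1 (fun t => by simpa using (hΦ t).b1) hφ le_rfl ht.1 ht.2
    rw [norm_sub_rev] at h3
    linarith [norm_sub_norm_le (Φ (q / p)) (Φ t), (hΦ t).b0]
  rw [intervalIntegral.integral_const, smul_eq_mul, ← sub_div, add_sub_cancel_left, one_div,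
    inv_mul_le_iff₀ hp0] at h2
  nlinarith

theorem sm_two {Φ : ℝ → ℂ} {φ : ℝ → ℝ} {p R θ : ℝ} (hp : 0 < p) (hΦ : ContDiff ℝ 2 Φ)
    (h2 : ∀ t, ‖deriv (deriv Φ) t‖ ≤ φ t) (hR : ∀ t, R < |t| → Φ t = 0) (hφ : Integrable φ)
    (hθ : |θ| ≤ 1 / 2) : θ ^ 2 * ‖∑' q : ℤ, ep (2 * θ * q) * Φ (q / p)‖ ≤ (∫ t, φ t) / (8 * p) := by
  have hs : Summable fun q : ℤ => ep (2 * θ * q) * Φ (q / p) := by
    refine summable_of_ne_finset_zero (s := Finset.Icc (-⌈R * p⌉) ⌈R * p⌉) fun q hq => ?_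
    rw [hR _ ?_, mul_zero]
    rw [abs_div, abs_of_pos hp, lt_div_iff₀ hp]
    refine (Int.le_ceil _).trans_lt ?_
    rw [Finset.mem_Icc, ← abs_le, not_le] at hq
    exact_mod_cast hq
  set S := ∑' q : ℤ, ep (2 * θ * q) * Φ (q / p)
  have s0 := hs.hasSum
  have s1 := (Equiv.addRight (1 : ℤ)).hasSum_iff.2 s0
  have s2 := (Equiv.addRight (2 : ℤ)).hasSum_iff.2 s0
  have s3 := ((s0.mul_left (ep (2 * θ) ^ 2)).sub (s1.mul_left (2 * ep (2 * θ)))).add s2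
  have t0 := ada_sum hp hφ
  have t1 := (Equiv.addRight (1 : ℤ)).hasSum_iff.2 t0
  have h1 := s3.norm_le_of_bounded ((t0.add t1).mul_right (1 / p)) fun q => by
    simp only [Function.comp, Equiv.coe_addRight, Int.cast_add, Int.cast_one, Int.cast_ofNat]
    rw [intervalIntegral.integral_add_adjacent_intervals hφ.intervalIntegrable
      hφ.intervalIntegrable, show ((q : ℝ) + 1 + 1) / p = q / p + 1 / p + 1 / p by ring,
      show ((q : ℝ) + 2) / p = q / p + 1 / p + 1 / p by ring,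
      show ((q : ℝ) + 1) / p = q / p + 1 / p by ring]
    refine le_trans (le_of_eq ?_) (ada_diff hΦ h2 hφ (q / p) (by positivity))
    have e1 : ‖ep (2 * θ * (q + 2))‖ = 1 := by
      rw [← norm_ep_real (2 * θ * (q + 2))]; push_cast; rfl
    have e2 : ∀ w : ℂ, ‖ep (2 * θ * (q + 2)) * w‖ = ‖w‖ := fun w => by rw [norm_mul, e1, one_mul]
    refine Eq.trans ?_ (e2 _)
    congr 1
    rw [show (2 * θ * (q + 2) : ℂ) = 2 * θ * q + 2 * θ + 2 * θ by ring,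
      show (2 * θ * (q + 1) : ℂ) = 2 * θ * q + 2 * θ by ring]
    simp only [ep_add]
    ring
  rw [show ep (2 * θ) ^ 2 * S - 2 * ep (2 * θ) * S + S = (ep (2 * θ) - 1) ^ 2 * S by ring,
    norm_mul, norm_pow, pv_norm_sub_one] at h1
  have h3 : 2 * |θ| ≤ |Real.sin (π * θ)| := by
    refine (pv_sin_low (abs_nonneg θ) hθ).trans ?_
    rcases abs_choice θ with h | h
    · rw [h]; exact le_abs_self _
    · rw [h, mul_neg, Real.sin_neg]; exact neg_le_abs _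
  have h4 : 16 * θ ^ 2 ≤ (2 * |Real.sin (π * θ)|) ^ 2 := by
    rw [← sq_abs θ]
    nlinarith [abs_nonneg θ]
  have h5 := (mul_le_mul_of_nonneg_right h4 (norm_nonneg S)).trans h1
  have e : (∫ t, φ t) / (8 * p) = ((∫ t, φ t) + ∫ t, φ t) * (1 / p) / 16 := by
    field_simp; ring
  rw [e]
  linarith

end

end Pool.Agent.MP_9f080f_an

namespace Pool.Agent.MP_9f080f_an
open Complex MeasureTheory Set Filter Topology Metric
open scoped Real

noncomputable section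

theorem pv2_gen {e : ℤ → ℂ} {P : ℕ} {κ : ℝ} {W : ℤ → ℝ} (hP : 0 < P) (hκ : |κ| ≤ 1 / 2) (h : TwW e P κ W)
    {f : ℤ → ℂ} (hf : (Function.support f).Finite) {B : ℝ} (hB : 0 ≤ B)
    (hm : ∀ m : ℤ, |m + κ| ≤ P / 2 →
      ‖∑' q : ℤ, ep (2 * (((m + κ) / P : ℝ) : ℂ) * q) * f q‖ ≤ P * B / (1 + (m : ℝ) ^ 2)) :
    ‖∑' q : ℤ, e q * f q‖ ≤ √P * pw2 W P * B := by
  have hP' : (0 : ℝ) < P := by exact_mod_cast hP
  have hP1 : (1 : ℝ) ≤ P := by exact_mod_cast hP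
  have hs : 0 < √(P : ℝ) := Real.sqrt_pos.2 hP'
  have hW : ∀ m, 0 ≤ W m := fun m =>
    nonneg_of_mul_nonneg_right ((norm_nonneg _).trans (h.four m)) hs
  have hz : ∀ g : ℤ → ℂ, ∑' q : ℤ, g q * f q = ∑ q ∈ hf.toFinset, g q * f q := fun g =>
    tsum_eq_sum fun q hq => by
      have : f q = 0 := by simpa using hq
      rw [this, mul_zero]
  set m₀ : ℤ := ⌈-(P : ℝ) / 2 - κ⌉ with hm₀
  have hT : Tw e P (κ + m₀) (∑ a ∈ Finset.range P, ‖e a‖) := by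
    constructor
    · intro a
      rw [h.per]
      push_cast
      rw [mul_add, ep_add, ep_two_int, mul_one]
    · intro m
      refine (norm_sum_le _ _).trans (Finset.sum_le_sum fun a _ => ?_)
      have := norm_ep_real (-2 * (m + (κ + m₀)) * a / P)
      push_cast at this ⊢
      rw [norm_mul, this, mul_one]
  have e1 : (P : ℂ) * ∑' q : ℤ, e q * f q
      = ∑ j ∈ Finset.range P,
        (∑ a ∈ Finset.range P, e a * ep (-2 * (((m₀ + j : ℤ) : ℂ) + κ) * a / P))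
          * ∑' q : ℤ, ep (2 * (((((m₀ + j : ℤ) : ℝ) + κ) / P : ℝ) : ℂ) * q) * f q := by
    simp only [hz, Finset.mul_sum (s := hf.toFinset)]
    rw [Finset.sum_comm]
    refine Finset.sum_congr rfl fun i _ => ?_
    rw [← mul_assoc, ← pv_inversion hP hT, Finset.sum_mul]
    refine Finset.sum_congr rfl fun m _ => ?_
    rw [← mul_assoc]
    congr 2
    · refine Finset.sum_congr rfl fun a _ => ?_
      congr 2
      push_cast
      ring
    · congr 1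
      push_cast
      ring
  have hb : ∀ j ∈ Finset.range P, |((m₀ + j : ℤ) : ℝ) + κ| ≤ P / 2 := by
    intro j hj
    have h1 : (j : ℝ) + 1 ≤ P := by exact_mod_cast Finset.mem_range.1 hj
    have h2 := Int.le_ceil (-(P : ℝ) / 2 - κ)
    have h3 := Int.ceil_lt_add_one (-(P : ℝ) / 2 - κ)
    have h4 : (0 : ℝ) ≤ j := Nat.cast_nonneg j
    rw [← hm₀] at h2 h3
    push_cast
    rw [abs_le]
    constructor <;> linarith
  have k : P * ‖∑' q : ℤ, e q * f q‖ ≤ P * (√P * pw2 W P * B) := by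
    rw [← Complex.norm_natCast P, ← norm_mul, e1, Complex.norm_natCast]
    refine (norm_sum_le _ _).trans ?_
    have k1 : ∀ j ∈ Finset.range P,
        ‖(∑ a ∈ Finset.range P, e a * ep (-2 * (((m₀ + j : ℤ) : ℂ) + κ) * a / P))
          * ∑' q : ℤ, ep (2 * (((((m₀ + j : ℤ) : ℝ) + κ) / P : ℝ) : ℂ) * q) * f q‖
        ≤ P * √P * B * (W (m₀ + j) / (1 + ((m₀ + j : ℤ) : ℝ) ^ 2)) := by
      intro j hj
      rw [norm_mul]
      refine (mul_le_mul (h.four _) (hm _ (hb j hj)) (norm_nonneg _)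
        (mul_nonneg hs.le (hW _))).trans_eq ?_
      ring
    refine (Finset.sum_le_sum k1).trans ?_
    rw [← Finset.mul_sum, show P * (√P * pw2 W P * B) = P * √P * B * pw2 W P by ring]
    refine mul_le_mul_of_nonneg_left ?_ (by positivity)
    rw [pw2, ← Finset.sum_image (s := Finset.range P) (g := fun j : ℕ => m₀ + (j : ℤ))
      (f := fun m : ℤ => W m / (1 + (m : ℝ) ^ 2)) (fun i _ j _ hij => by simpa using hij)]
    refine Finset.sum_le_sum_of_subset_of_nonneg ?_ fun m _ _ => div_nonneg (hW m) (by positivity)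
    intro m hm
    obtain ⟨j, hj, rfl⟩ := Finset.mem_image.1 hm
    have h1 := abs_le.1 (hb j hj)
    have h2 := abs_le.1 hκ
    have h3 : -(P : ℝ) ≤ ((m₀ + j : ℤ) : ℝ) := by linarith [h1.1, h2.2]
    have h4 : ((m₀ + j : ℤ) : ℝ) ≤ P := by linarith [h1.2, h2.1]
    exact Finset.mem_Icc.2 ⟨by exact_mod_cast h3, by exact_mod_cast h4⟩
  exact le_of_mul_le_mul_left k hP'

end

end Pool.Agent.MP_9f080f_an

namespace Pool.Agent.MP_9f080f_an
open Complex MeasureTheory Set Filter Topology Metric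
open scoped Real

noncomputable section

lemma ad_fin {Φ : ℝ → ℂ} {p R : ℝ} (hp : 0 < p) (hR : ∀ t, R < |t| → Φ t = 0) :
    (Function.support fun q : ℤ => Φ (q / p)).Finite := by
  refine (Set.finite_Icc (-⌈R * p⌉) ⌈R * p⌉).subset fun q hq => ?_
  have h1 : |(q : ℝ) / p| ≤ R := by
    by_contra h
    exact hq (hR _ (not_le.mp h))
  rw [abs_div, abs_of_pos hp, div_le_iff₀ hp] at h1
  have h2 : |(q : ℝ)| ≤ (⌈R * p⌉ : ℝ) := h1.trans (Int.le_ceil _)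
  have h3 : |q| ≤ ⌈R * p⌉ := by exact_mod_cast h2
  exact abs_le.mp h3

lemma ad_key {Φ : ℝ → ℂ} {φ : ℝ → ℝ} {p P R μ c : ℝ} (hp : 0 < p) (hP : 0 < P) (hPp : P ≤ 2 * p)
    (hΦ : ContDiff ℝ 2 Φ) (h2 : ∀ t, ‖deriv (deriv Φ) t‖ ≤ φ t) (hR : ∀ t, R < |t| → Φ t = 0)
    (hφ : Integrable φ) (hμ : |μ| ≤ P / 2) (hc : 0 < c) (hcμ : c ≤ 8 * μ ^ 2) :
    ‖∑' q : ℤ, ep (2 * ((μ / P : ℝ) : ℂ) * q) * Φ (q / p)‖ ≤ P * (2 * ∫ t, φ t) / c := by
  have hI : 0 ≤ ∫ t, φ t := integral_nonneg fun t => (norm_nonneg _).trans (h2 t)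
  have hθ : |μ / P| ≤ 1 / 2 := by
    rw [abs_div, abs_of_pos hP, div_le_iff₀ hP]; linarith
  have h := sm_two hp hΦ h2 hR hφ hθ
  generalize ‖∑' q : ℤ, ep (2 * ((μ / P : ℝ) : ℂ) * q) * Φ (q / p)‖ = S at h ⊢
  generalize ∫ t, φ t = J at h hI ⊢
  by_cases hS : S ≤ 0
  · exact hS.trans (by positivity)
  have hS' : 0 < S := not_le.mp hS
  rw [le_div_iff₀ (by positivity), div_pow, div_mul_eq_mul_div, div_mul_eq_mul_div,
    div_le_iff₀ (by positivity)] at h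
  rw [le_div_iff₀ hc]
  have h3 : S * c * P ≤ P * (2 * J) * P := by
    calc S * c * P ≤ S * (8 * μ ^ 2) * (2 * p) := by gcongr
      _ = 2 * (μ ^ 2 * S * (8 * p)) := by ring
      _ ≤ 2 * (J * P ^ 2) := by linarith
      _ = _ := by ring
  exact le_of_mul_le_mul_right h3 hP

lemma ad_38 (m : ℤ) : 1 + (m : ℝ) ^ 2 ≤ 8 * (m + 3 / 8) ^ 2 := by
  rcases le_or_gt 0 m with h | h
  · have : (0 : ℝ) ≤ m := by exact_mod_cast h
    nlinarith
  · have : (m : ℝ) ≤ -1 := by exact_mod_cast Int.le_sub_one_of_lt h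
    nlinarith

lemma ad_0 {m : ℤ} (hm : m ≠ 0) : 1 + (m : ℝ) ^ 2 ≤ 8 * (m + 0) ^ 2 := by
  have : (1 : ℝ) ≤ |(m : ℝ)| := by exact_mod_cast Int.one_le_abs hm
  nlinarith [sq_abs (m : ℝ), abs_nonneg (m : ℝ)]

lemma ad_neg (e : ℤ → ℂ) (Φ : ℝ → ℂ) (p : ℝ) :
    ∑' q : ℤ, e (-q) * Φ (q / p) = ∑' q : ℤ, e q * Φ (-1 * (q / p)) := by
  rw [← (Equiv.neg ℤ).tsum_eq]
  refine tsum_congr fun q => ?_
  simp [neg_div]

theorem pv2A : ∃ K : ℝ, 0 < K ∧ ∀ (e : ℤ → ℂ) (P : ℕ) (W : ℤ → ℝ) (Φ : ℝ → ℂ) (φ : ℝ → ℝ) (R : ℝ), 0 < P →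
    TwW e P (3 / 8) W → (∀ t, ∃ δ B : ℝ, 0 < δ ∧ J2 Φ t δ B ∧ B ≤ δ ^ 2 * φ t) →
    (∀ t, R < |t| → Φ t = 0) → Integrable φ →
      ‖∑' q : ℤ, e q * Φ (q / P)‖ ≤ K * √P * pw2 W P * ∫ t, φ t := by
  refine ⟨2, two_pos, fun e P W Φ φ R hP hT hJ hR hφ => ?_⟩
  have hP' : (0 : ℝ) < P := by exact_mod_cast hP
  have hΦ : ContDiff ℝ 2 Φ := contDiff_iff_contDiffAt.mpr fun t => by
    obtain ⟨δ, B, -, h, -⟩ := hJ t
    exact h.cd
  have h2 : ∀ t, ‖deriv (deriv Φ) t‖ ≤ φ t := fun t => by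
    obtain ⟨δ, B, hδ, h, hB⟩ := hJ t
    exact le_of_mul_le_mul_left (h.b2.trans hB) (by positivity)
  have hI : 0 ≤ ∫ t, φ t := integral_nonneg fun t => (norm_nonneg _).trans (h2 t)
  have h := pv2_gen hP (by rw [abs_of_pos] <;> norm_num) hT (ad_fin hP' hR)
    (B := 2 * ∫ t, φ t) (by positivity) fun m hm =>
      ad_key hP' hP' (by linarith) hΦ h2 hR hφ hm (by positivity) (ad_38 m)
  refine h.trans (le_of_eq ?_)
  ring

theorem pv2B : ∃ K : ℝ, 0 < K ∧ ∀ (e : ℤ → ℂ) (P p : ℕ) (κ : ℝ) (W : ℤ → ℝ) (Φ : ℝ → ℂ) (φ : ℝ → ℝ) (R : ℝ),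
    0 < p → p ≤ P → P ≤ 2 * p → (κ = 0 ∨ κ = 3 / 8) → TwW e P κ W → (∀ t, J2 Φ t 1 (φ t)) →
    (∀ t, R < |t| → Φ t = 0) → Integrable φ →
      ‖∑' q : ℤ, e q * Φ (q / p)‖ ≤ K * √P * pw2 W P * ∫ t, φ t := by
  refine ⟨2, two_pos, fun e P p κ W Φ φ R hp hpP hPp hκ hT hJ hR hφ => ?_⟩
  have hP : 0 < P := hp.trans_le hpP
  have hP' : (0 : ℝ) < P := by exact_mod_cast hP
  have hp' : (0 : ℝ) < p := by exact_mod_cast hp
  have hp1 : (1 : ℝ) ≤ p := by exact_mod_cast hp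
  have hpP' : (p : ℝ) ≤ P := by exact_mod_cast hpP
  have hPp' : (P : ℝ) ≤ 2 * p := by exact_mod_cast hPp
  have hΦ : ContDiff ℝ 2 Φ := contDiff_iff_contDiffAt.mpr fun t => (hJ t).cd
  have h2 : ∀ t, ‖deriv (deriv Φ) t‖ ≤ φ t := fun t => by simpa using (hJ t).b2
  have hI : 0 ≤ ∫ t, φ t := integral_nonneg fun t => (norm_nonneg _).trans (h2 t)
  have hκ' : |κ| ≤ 1 / 2 := by
    rcases hκ with rfl | rfl
    · norm_num
    · rw [abs_of_pos] <;> norm_num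
  have h := pv2_gen hP hκ' hT (ad_fin hp' hR) (B := 2 * ∫ t, φ t) (by positivity) fun m hm => by
    rcases hκ with rfl | rfl
    · by_cases hm0 : m = 0
      · subst hm0
        have h0 := sm_zero hp1 hJ hR hφ
        simp only [Int.cast_zero, add_zero, zero_div, ofReal_zero, mul_zero, zero_mul, ep,
          Complex.exp_zero, one_mul, ne_eq, OfNat.ofNat_ne_zero, not_false_eq_true, zero_pow,
          div_one]
        refine h0.trans ?_
        nlinarith [mul_le_mul_of_nonneg_right hpP' hI]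
      · exact ad_key hp' hP' hPp' hΦ h2 hR hφ hm (by positivity) (ad_0 hm0)
    · exact ad_key hp' hP' hPp' hΦ h2 hR hφ hm (by positivity) (ad_38 m)
  refine h.trans (le_of_eq ?_)
  ring

theorem pv2A_neg : ∃ K : ℝ, 0 < K ∧ ∀ (e : ℤ → ℂ) (P : ℕ) (W : ℤ → ℝ) (Φ : ℝ → ℂ) (φ : ℝ → ℝ) (R : ℝ), 0 < P →
    TwW e P (3 / 8) W → (∀ t, ∃ δ B : ℝ, 0 < δ ∧ J2 Φ t δ B ∧ B ≤ δ ^ 2 * φ t) →
    (∀ t, R < |t| → Φ t = 0) → Integrable φ →
      ‖∑' q : ℤ, e (-q) * Φ (q / P)‖ ≤ K * √P * pw2 W P * ∫ t, φ t := by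
  obtain ⟨K, hK, h⟩ := pv2A
  refine ⟨K, hK, fun e P W Φ φ R hP hT hJ hR hφ => ?_⟩
  have h1 := h e P W (fun t => Φ (-1 * t)) (fun t => φ (-t)) R hP hT (fun t => by
    obtain ⟨δ, B, hδ, hj, hB⟩ := hJ (-t)
    exact ⟨δ, B, hδ, J2.comp_mul (by simpa using hj), hB⟩)
    (fun t ht => hR _ (by simpa using ht)) hφ.comp_neg
  rw [integral_neg_eq_self] at h1
  rw [ad_neg]
  exact h1

theorem pv2B_neg : ∃ K : ℝ, 0 < K ∧ ∀ (e : ℤ → ℂ) (P : ℕ) (W : ℤ → ℝ) (Φ : ℝ → ℂ) (φ : ℝ → ℝ) (R : ℝ),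
    0 < P → TwW e P 0 W → (∀ t, J2 Φ t 1 (φ t)) → (∀ t, R < |t| → Φ t = 0) → Integrable φ →
      ‖∑' q : ℤ, e (-q) * Φ (q / P)‖ ≤ K * √P * pw2 W P * ∫ t, φ t := by
  obtain ⟨K, hK, h⟩ := pv2B
  refine ⟨K, hK, fun e P W Φ φ R hP hT hJ hR hφ => ?_⟩
  have h1 := h e P P 0 W (fun t => Φ (-1 * t)) (fun t => φ (-t)) R hP le_rfl (by omega)
    (Or.inl rfl) hT (fun t => J2.comp_mul (by simpa using hJ (-t)))
    (fun t ht => hR _ (by simpa using ht)) hφ.comp_neg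
  rw [integral_neg_eq_self] at h1
  rw [ad_neg]
  exact h1

end

end Pool.Agent.MP_9f080f_an

end

-- part MP_9f080f_an.G.AO
section

namespace Pool.Agent.MP_9f080f_an
open Complex MeasureTheory Set Filter Topology Metric
open scoped Real

noncomputable section

/-! Oscillatory integrals.
`fresnel`: for `1 ≤ u ≤ u'` integrate by parts, `ep (s²) = (1/(2π i s)) d/ds ep (s²)` (`kb_ibp` with `r s = -1/s`-like monotone factor, or `shosc_ibp`), so `‖fres u' - fres u‖ ≤ 1/u`; hence `fres` has a limit at `∞`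
(`cauchySeq_tendsto_of_complete` along `ℕ`, or `Filter.Tendsto` via `cauchy_map_iff`); for `u ≤ 1` use `‖fres u - fres 1‖ ≤ 1`.
`osc_id`: with `U = UU H b`, `V t = √(b t) + √(H/t)`: `H/t + b t = U² + 2√(bH) = V² - 2√(bH)` and `U' - V' = √H t^(-3/2)`; differentiate the right side in `Y`
(`intervalIntegral.integral_eq_sub_of_hasDerivAt`, `intervalIntegral.integral_hasDerivAt_right` for `fres`).
`osc2`: `F = 2 Φ`; `U y ≤ 0 ↔ b y² ≤ H`; `U Y ≥ √(bY)/2 ≥ √(b y)/2`, `V y ≥ √(b y)`, `V Y ≥ √(b y)`; `fres_neg`.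
`osc_pos`: `shoscR H μ t ≤ H^(-3/4) μ^(-1/4)` (weighted AM-GM: `H + 2μt² ≥ H^(3/4) (μ t²)^(1/4)`); cut at `c = √(H/(6μ))` (`shosc_cut`) and use `shosc_main` with `G = ± shoscR` (`shosc_deriv`, `shosc_contD`). -/

lemma fres_neg (u : ℝ) : fres (-u) = -fres u := by
  unfold fres
  have h := intervalIntegral.integral_comp_neg (a := 0) (b := u)
    (fun s : ℝ => ep ((s ^ 2 : ℝ) : ℂ))
  simp only [neg_sq, neg_zero] at h
  rw [h, intervalIntegral.integral_symm (-u) 0]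

lemma aoa_cont : Continuous fun s : ℝ => ep ((s ^ 2 : ℝ) : ℂ) := by fun_prop

lemma aoa_sub (a b : ℝ) : fres b - fres a = ∫ s in a..b, ep ((s ^ 2 : ℝ) : ℂ) := by
  unfold fres
  exact intervalIntegral.integral_interval_sub_left (aoa_cont.intervalIntegrable _ _)
    (aoa_cont.intervalIntegrable _ _)

lemma aoa_near (a b : ℝ) : ‖fres b - fres a‖ ≤ |b - a| := by
  rw [aoa_sub]
  have := intervalIntegral.norm_integral_le_of_norm_le_const (a := a) (b := b) (C := 1)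
    (f := fun s : ℝ => ep ((s ^ 2 : ℝ) : ℂ)) (fun s _ => (norm_ep_real _).le)
  simpa using this

lemma aoa_far {a b : ℝ} (ha : 0 < a) (hab : a ≤ b) : ‖fres b - fres a‖ ≤ a⁻¹ := by
  have hb : 0 < b := ha.trans_le hab
  have hp : ∀ t ∈ Icc a b, t ≠ 0 := fun t ht => (ha.trans_le ht.1).ne'
  have key := shosc_ibp hab (fun t => t⁻¹) (fun t => -(t ^ 2)⁻¹) (fun t => -t⁻¹)
    (fun t => (t ^ 2)⁻¹) (fun t => ep ((t ^ 2 : ℝ) : ℂ))
    (fun t => π * I * ep ((t ^ 2 : ℝ) : ℂ) * ((2 * t : ℝ) : ℂ))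
    (fun t ht => hasDerivAt_inv (hp t ht))
    (fun t ht => by simpa using (hasDerivAt_inv (hp t ht)).fun_neg)
    (fun t _ => by
      have h1 : HasDerivAt (fun s : ℝ => s ^ 2) (2 * t) t := by
        simpa using hasDerivAt_pow 2 t
      have h2 := (hasDerivAt_ep _).scomp_of_eq (h := fun s : ℝ => ((s ^ 2 : ℝ) : ℂ)) t
        h1.ofReal_comp rfl
      rw [smul_eq_mul, mul_comm] at h2
      exact h2)
    (((continuousOn_id.pow 2).inv₀ fun t ht => pow_ne_zero 2 (hp t ht)).neg)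
    ((continuousOn_id.pow 2).inv₀ fun t ht => pow_ne_zero 2 (hp t ht))
    (by fun_prop)
    (fun t _ => by rw [abs_neg, abs_of_nonneg (by positivity)])
    (fun t _ => (norm_ep_real _).le)
  have e : ∫ t in a..b, ((t⁻¹ : ℝ) : ℂ) * (π * I * ep ((t ^ 2 : ℝ) : ℂ) * ((2 * t : ℝ) : ℂ)) =
      (2 * π * I) * ∫ s in a..b, ep ((s ^ 2 : ℝ) : ℂ) := by
    rw [← intervalIntegral.integral_const_mul]
    refine intervalIntegral.integral_congr fun t ht => ?_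
    rw [uIcc_of_le hab] at ht
    have h0 : (t : ℂ) ≠ 0 := by exact_mod_cast hp t ht
    simp only [ofReal_inv, ofReal_mul, ofReal_ofNat]
    field_simp
  rw [e, norm_mul, ← aoa_sub, abs_of_pos (inv_pos.2 ha), abs_of_pos (inv_pos.2 hb)] at key
  have h2 : ‖(2 * π * I : ℂ)‖ = 2 * π := by
    simp [abs_of_pos Real.pi_pos]
  rw [h2] at key
  have h3 := Real.pi_gt_three
  have h4 := norm_nonneg (fres b - fres a)
  nlinarith

theorem fresnel : ∃ (Φ : ℂ) (K : ℝ), 0 < K ∧ ∀ u : ℝ, 0 ≤ u → ‖fres u - Φ‖ ≤ K / (1 + u) := by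
  have hc : CauchySeq fun n : ℕ => fres ((n : ℝ) + 1) := by
    refine cauchySeq_of_le_tendsto_0' (fun n : ℕ => 1 / ((n : ℝ) + 1)) (fun n m hnm => ?_)
      tendsto_one_div_add_atTop_nhds_zero_nat
    rw [dist_comm, dist_eq_norm, one_div]
    exact aoa_far (by positivity) (by exact_mod_cast Nat.succ_le_succ hnm)
  obtain ⟨Φ, hΦ⟩ := cauchySeq_tendsto_of_complete hc
  have h1 : ∀ u : ℝ, 0 < u → ‖fres u - Φ‖ ≤ u⁻¹ := by
    intro u hu
    have h2 : Tendsto (fun n : ℕ => ‖fres u - fres ((n : ℝ) + 1)‖) atTop (𝓝 ‖fres u - Φ‖) :=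
      (tendsto_const_nhds.sub hΦ).norm
    refine le_of_tendsto h2 ?_
    filter_upwards [eventually_ge_atTop ⌈u⌉₊] with n hn
    rw [norm_sub_rev]
    have h3 : (⌈u⌉₊ : ℝ) ≤ n := by exact_mod_cast hn
    exact aoa_far hu (by linarith [Nat.le_ceil u])
  refine ⟨Φ, 4, by norm_num, fun u hu => ?_⟩
  rw [le_div_iff₀ (by positivity)]
  rcases le_total u 1 with h | h
  · have h2 := h1 1 one_pos
    have h3 := aoa_near 1 u
    rw [abs_of_nonpos (by linarith)] at h3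
    have h4 : ‖fres u - Φ‖ ≤ ‖fres u - fres 1‖ + ‖fres 1 - Φ‖ := norm_sub_le_norm_sub_add_norm_sub _ _ _
    rw [inv_one] at h2
    have h5 : ‖fres u - Φ‖ ≤ 2 := by linarith
    nlinarith [norm_nonneg (fres u - Φ)]
  · have hu0 : 0 < u := by linarith
    have h2 := h1 u hu0
    have h3 : ‖fres u - Φ‖ * u ≤ 1 := by
      have := mul_le_mul_of_nonneg_right h2 hu
      rwa [inv_mul_cancel₀ hu0.ne'] at this
    nlinarith [norm_nonneg (fres u - Φ)]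

end

end Pool.Agent.MP_9f080f_an

namespace Pool.Agent.MP_9f080f_an
open Complex MeasureTheory Set Filter Topology Metric
open scoped Real

noncomputable section

lemma aob_fres (u : ℝ) : HasDerivAt fres (ep ((u ^ 2 : ℝ) : ℂ)) u := by
  have hc : Continuous fun s : ℝ => ep ((s ^ 2 : ℝ) : ℂ) := by fun_prop
  exact intervalIntegral.integral_hasDerivAt_right (hc.intervalIntegrable _ _)
    (hc.stronglyMeasurableAtFilter _ _) hc.continuousAt

lemma aob_rpow {t : ℝ} (ht : 0 < t) : t ^ (-3 / 2 : ℝ) = √t / t ^ 2 := by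
  rw [Real.sqrt_eq_rpow, ← Real.rpow_natCast, ← Real.rpow_sub ht]
  norm_num

lemma aob_deriv {H b t : ℝ} (hH : 0 < H) (hb : 0 < b) (ht : 0 < t) :
    HasDerivAt (fun t : ℝ => (((√H)⁻¹ : ℝ) : ℂ) *
      (ep ((2 * √(b * H) : ℝ) : ℂ) * fres (UU H b t) -
        ep ((-(2 * √(b * H)) : ℝ) : ℂ) * fres (√(b * t) + √(H / t))))
      (kk H t * ep (b * t)) t := by
  have hbt : 0 < b * t := by positivity
  have hHt : 0 < H / t := by positivity
  have hA : HasDerivAt (fun t : ℝ => √(b * t)) (b * 1 / (2 * √(b * t))) t :=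
    ((hasDerivAt_id' t).const_mul b).sqrt hbt.ne'
  have hq : HasDerivAt (fun t : ℝ => H / t) (H * (-(t ^ 2)⁻¹)) t :=
    (hasDerivAt_inv ht.ne').const_mul H
  have hB : HasDerivAt (fun t : ℝ => √(H / t)) (H * (-(t ^ 2)⁻¹) / (2 * √(H / t))) t :=
    hq.sqrt hHt.ne'
  have hU := (aob_fres (UU H b t)).scomp_of_eq (h := fun t : ℝ => UU H b t) t (hA.fun_sub hB) rfl
  have hV := (aob_fres (√(b * t) + √(H / t))).scomp_of_eq
    (h := fun t : ℝ => √(b * t) + √(H / t)) t (hA.fun_add hB) rfl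
  have h := ((hU.const_mul (ep ((2 * √(b * H) : ℝ) : ℂ))).fun_sub
    (hV.const_mul (ep ((-(2 * √(b * H)) : ℝ) : ℂ)))).const_mul (((√H)⁻¹ : ℝ) : ℂ)
  refine h.congr_deriv ?_
  have hAB : √(b * t) * √(H / t) = √(b * H) := by
    rw [← Real.sqrt_mul hbt.le]
    congr 1
    field_simp
  have e1 : ep ((2 * √(b * H) : ℝ) : ℂ) * ep ((UU H b t ^ 2 : ℝ) : ℂ) = ep (H / t) * ep (b * t) := by
    rw [← ep_add, ← ep_add]
    congr 1
    have : 2 * √(b * H) + UU H b t ^ 2 = H / t + b * t := by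
      rw [UU, sub_sq, Real.sq_sqrt hbt.le, Real.sq_sqrt hHt.le, mul_assoc, hAB]
      ring
    exact_mod_cast this
  have e2 : ep ((-(2 * √(b * H)) : ℝ) : ℂ) * ep (((√(b * t) + √(H / t)) ^ 2 : ℝ) : ℂ) =
      ep (H / t) * ep (b * t) := by
    rw [← ep_add, ← ep_add]
    congr 1
    have : -(2 * √(b * H)) + (√(b * t) + √(H / t)) ^ 2 = H / t + b * t := by
      rw [add_sq, Real.sq_sqrt hbt.le, Real.sq_sqrt hHt.le, mul_assoc 2 √(b * t), hAB]
      ring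
    exact_mod_cast this
  have e3 : (√H)⁻¹ * ((b * 1 / (2 * √(b * t)) - H * (-(t ^ 2)⁻¹) / (2 * √(H / t))) -
      (b * 1 / (2 * √(b * t)) + H * (-(t ^ 2)⁻¹) / (2 * √(H / t)))) = t ^ (-3 / 2 : ℝ) := by
    have h1 : 0 < √H := Real.sqrt_pos.2 hH
    have h2 : 0 < √t := Real.sqrt_pos.2 ht
    have h3 : 0 < √(b * t) := Real.sqrt_pos.2 hbt
    have h4 : √H ^ 2 = H := Real.sq_sqrt hH.le
    rw [aob_rpow ht, Real.sqrt_div hH.le]
    field_simp
    rw [h4]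
    ring
  rw [kk, ← e3, real_smul, real_smul, mul_left_comm (ep ((2 * √(b * H) : ℝ) : ℂ)), e1,
    mul_left_comm (ep ((-(2 * √(b * H)) : ℝ) : ℂ)), e2]
  push_cast
  ring

theorem osc_id {H b y Y : ℝ} (hH : 0 < H) (hb : 0 < b) (hy0 : 0 < y) (hY : y ≤ Y) :
    ∫ t in y..Y, kk H t * ep (b * t) = ((√H)⁻¹ : ℝ) *
      (ep ((2 * √(b * H) : ℝ) : ℂ) * (fres (UU H b Y) - fres (UU H b y)) -
        ep ((-(2 * √(b * H)) : ℝ) : ℂ) *
          (fres (√(b * Y) + √(H / Y)) - fres (√(b * y) + √(H / y)))) := by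
  have hpos : ∀ t ∈ uIcc y Y, 0 < t := fun t ht => by
    rw [uIcc_of_le hY] at ht
    exact hy0.trans_le ht.1
  have hc : ContinuousOn (fun t : ℝ => kk H t * ep (b * t)) (uIcc y Y) := by
    intro t ht
    have h0 := hpos t ht
    have h1 : ContinuousAt (fun t : ℝ => t ^ (-3 / 2 : ℝ)) t :=
      Real.continuousAt_rpow_const _ _ (Or.inl h0.ne')
    have h2 : ContinuousAt (fun t : ℝ => (H : ℂ) / t) t :=
      continuousAt_const.div continuous_ofReal.continuousAt (ofReal_ne_zero.2 h0.ne')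
    have h3 : Continuous fun t : ℝ => ep (b * t) := by fun_prop
    exact (((continuous_ofReal.continuousAt.comp h1).mul
      (continuous_ep.continuousAt.comp h2)).mul h3.continuousAt).continuousWithinAt
  rw [intervalIntegral.integral_eq_sub_of_hasDerivAt (fun t ht => aob_deriv hH hb (hpos t ht))
    hc.intervalIntegrable]
  ring

end

end Pool.Agent.MP_9f080f_an

namespace Pool.Agent.MP_9f080f_an
open Complex MeasureTheory Set Filter Topology Metric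
open scoped Real

noncomputable section

theorem osc2 : ∃ (F : ℂ) (K : ℝ), 0 < K ∧ ∀ H b y Y : ℝ, 0 < H → 0 < b → 0 < y → y ≤ Y → 4 * H ≤ b * Y ^ 2 →
    ‖(∫ t in y..Y, kk H t * ep (b * t)) -
        (if b * y ^ 2 ≤ H then F * ((√H)⁻¹ : ℝ) * ep ((2 * √(b * H) : ℝ) : ℂ) else 0)‖ ≤
      K / √H * (1 / (1 + |UU H b y|) + 1 / √(b * y)) := by
  obtain ⟨Φ, K, hK, hΦ⟩ := fresnel
  refine ⟨2 * Φ, 4 * K, by positivity, fun H b y Y hH hb hy hY h4 => ?_⟩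
  have hY0 : 0 < Y := hy.trans_le hY
  have hs : 0 < √(b * y) := Real.sqrt_pos.2 (by positivity)
  have hsY : √(b * y) ≤ √(b * Y) := Real.sqrt_le_sqrt (by gcongr)
  have hfar : ∀ c u : ℝ, 0 < c → √(b * y) ≤ c * u → ‖fres u - Φ‖ ≤ c * K * (1 / √(b * y)) := by
    intro c u hc hu
    have hu0 : 0 < u := (mul_pos_iff_of_pos_left hc).1 (hs.trans_le hu)
    refine (hΦ u hu0.le).trans ?_
    rw [mul_one_div, div_le_div_iff₀ (by linarith) hs]
    nlinarith [mul_le_mul_of_nonneg_left hu hK.le, mul_pos hc hK]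
  have h1 : ‖fres (UU H b Y) - Φ‖ ≤ 2 * K * (1 / √(b * y)) := by
    refine hfar 2 _ two_pos ?_
    have h5 : √(H / Y) ≤ √(b * Y) / 2 := by
      rw [Real.sqrt_le_left (by positivity), div_pow, Real.sq_sqrt (by positivity),
        div_le_div_iff₀ hY0 (by norm_num)]
      nlinarith
    unfold UU
    linarith
  have h2 : ‖fres (√(b * Y) + √(H / Y)) - Φ‖ ≤ 1 * K * (1 / √(b * y)) :=
    hfar 1 _ one_pos (by linarith [Real.sqrt_nonneg (H / Y)])
  have h3 : ‖fres (√(b * y) + √(H / y)) - Φ‖ ≤ 1 * K * (1 / √(b * y)) :=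
    hfar 1 _ one_pos (by linarith [Real.sqrt_nonneg (H / y)])
  have h5 : ‖fres (UU H b y) - (if b * y ^ 2 ≤ H then -Φ else Φ)‖ ≤ K * (1 / (1 + |UU H b y|)) := by
    rw [mul_one_div]
    split_ifs with h
    · have h6 : UU H b y ≤ 0 := by
        unfold UU
        refine sub_nonpos.2 (Real.sqrt_le_sqrt ?_)
        rw [le_div_iff₀ hy]
        nlinarith
      have h7 := hΦ (-UU H b y) (by linarith)
      rw [fres_neg] at h7
      rw [abs_of_nonpos h6, ← norm_neg]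
      refine le_of_eq_of_le (congrArg _ ?_) h7
      ring
    · have h6 : 0 ≤ UU H b y := by
        unfold UU
        refine sub_nonneg.2 (Real.sqrt_le_sqrt ?_)
        rw [div_le_iff₀ hy]
        nlinarith
      rw [abs_of_nonneg h6]
      exact hΦ _ h6
  have e : (∫ t in y..Y, kk H t * ep (b * t)) -
      (if b * y ^ 2 ≤ H then 2 * Φ * ((√H)⁻¹ : ℝ) * ep ((2 * √(b * H) : ℝ) : ℂ) else 0) =
      ((√H)⁻¹ : ℝ) * (ep ((2 * √(b * H) : ℝ) : ℂ) * ((fres (UU H b Y) - Φ) -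
        (fres (UU H b y) - (if b * y ^ 2 ≤ H then -Φ else Φ))) -
        ep ((-(2 * √(b * H)) : ℝ) : ℂ) *
          ((fres (√(b * Y) + √(H / Y)) - Φ) - (fres (√(b * y) + √(H / y)) - Φ))) := by
    rw [osc_id hH hb hy hY]
    split_ifs <;> ring
  rw [e, norm_mul, Complex.norm_real, Real.norm_of_nonneg (by positivity), div_eq_inv_mul (4 * K),
    mul_assoc]
  refine mul_le_mul_of_nonneg_left ((norm_sub_le _ _).trans ?_) (by positivity)
  rw [norm_mul, norm_mul, norm_ep_real, norm_ep_real, one_mul, one_mul]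
  have h6 := norm_sub_le (fres (UU H b Y) - Φ) (fres (UU H b y) - (if b * y ^ 2 ≤ H then -Φ else Φ))
  have h7 := norm_sub_le (fres (√(b * Y) + √(H / Y)) - Φ) (fres (√(b * y) + √(H / y)) - Φ)
  have h8 : 0 ≤ K * (1 / (1 + |UU H b y|)) := by positivity
  linarith

end

end Pool.Agent.MP_9f080f_an

namespace Pool.Agent.MP_9f080f_an
open Complex MeasureTheory Set Filter Topology Metric
open scoped Real

noncomputable section

lemma ao_R {H μ t : ℝ} (hH : 0 < H) (hμ : 0 < μ) (ht : 0 < t) :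
    0 ≤ shoscR H μ t ∧ shoscR H μ t ≤ H ^ (-3 / 4 : ℝ) * μ ^ (-1 / 4 : ℝ) := by
  refine ⟨by unfold shoscR; positivity, ?_⟩
  obtain ⟨h, hh⟩ : ∃ h : ℝ, h = H ^ (1 / 4 : ℝ) := ⟨_, rfl⟩
  obtain ⟨m, hm⟩ : ∃ m : ℝ, m = μ ^ (1 / 4 : ℝ) := ⟨_, rfl⟩
  have h0 : 0 < h := by rw [hh]; positivity
  have m0 : 0 < m := by rw [hm]; positivity
  have h4 : H = h ^ 4 := by
    rw [hh, ← Real.rpow_natCast, ← Real.rpow_mul hH.le]
    norm_num
  have m4 : μ = m ^ 4 := by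
    rw [hm, ← Real.rpow_natCast, ← Real.rpow_mul hμ.le]
    norm_num
  have h3 : H ^ (-3 / 4 : ℝ) = (h ^ 3)⁻¹ := by
    rw [hh, ← Real.rpow_natCast, ← Real.rpow_mul hH.le, ← Real.rpow_neg hH.le]
    norm_num
  have m1 : μ ^ (-1 / 4 : ℝ) = m⁻¹ := by
    rw [hm, ← Real.rpow_neg hμ.le]
    norm_num
  have s0 := Real.sqrt_pos.2 ht
  have s2 := Real.sq_sqrt ht.le
  rw [h3, m1, shoscR, ← mul_inv, ← one_div, div_le_div_iff₀ (by positivity) (by positivity)]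
  generalize √t = s at s0 s2 ⊢
  rw [h4, m4, ← s2]
  have e1 : s * (h ^ 3 * m) = h ^ 3 * (m * s) := by ring
  have e2 : 1 * (h ^ 4 + 2 * m ^ 4 * (s ^ 2) ^ 2) = h ^ 3 * h + 2 * ((m * s) ^ 3 * (m * s)) := by
    ring
  have x0 : 0 < m * s := by positivity
  rw [e1, e2]
  generalize m * s = x at x0 ⊢
  have a1 : 0 < h ^ 3 * h := by positivity
  have a2 : 0 < x ^ 3 * x := by positivity
  rcases le_total x h with hx | hx
  · have := mul_le_mul_of_nonneg_left hx (pow_pos h0 3).le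
    linarith
  · have := mul_le_mul_of_nonneg_right (pow_le_pow_left₀ h0.le hx 3) x0.le
    linarith

theorem osc_pos : ∃ K : ℝ, 0 < K ∧ ∀ H μ y Y : ℝ, 0 < H → 0 < μ → 0 < y → y ≤ Y →
    ‖∫ t in y..Y, kk H t * ep (-2 * μ * t)‖ ≤ K * H ^ (-3 / 4 : ℝ) * μ ^ (-1 / 4 : ℝ) := by
  refine ⟨4, by norm_num, fun H μ y Y hH hμ hy hY => ?_⟩
  obtain ⟨B, hB⟩ : ∃ B : ℝ, B = H ^ (-3 / 4 : ℝ) * μ ^ (-1 / 4 : ℝ) := ⟨_, rfl⟩
  have hB0 : 0 ≤ B := by rw [hB]; positivity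
  have hR : ∀ t, 0 < t → 0 ≤ shoscR H μ t ∧ shoscR H μ t ≤ B := fun t ht => hB ▸ ao_R hH hμ ht
  have hD : ∀ t, 0 < t → H + 2 * μ * t ^ 2 ≠ 0 := fun t ht => by positivity
  have hc : 0 < H / (6 * μ) := by positivity
  have e : 4 * H ^ (-3 / 4 : ℝ) * μ ^ (-1 / 4 : ℝ) = 2 * B + 2 * B := by
    rw [hB]
    ring
  rw [e]
  refine shosc_cut H μ (c := √(H / (6 * μ))) hy hY (by positivity) (by positivity) ?_ ?_
  · intro b hb hbc _
    have hD' : ∀ t ∈ Icc y b, H + 2 * μ * t ^ 2 ≠ 0 := fun t ht => hD t (hy.trans_le ht.1)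
    have key := shosc_main hy hb hD' (shoscR H μ) (shoscD H μ)
      (fun t ht => shosc_deriv (hy.trans_le ht.1) (hD' t ht)) (shosc_contD hy hD')
      (fun t ht => by
        refine (abs_of_nonneg ?_).le
        have ht0 := hy.trans_le ht.1
        have h1 : t ^ 2 ≤ H / (6 * μ) := (Real.le_sqrt ht0.le hc.le).1 (ht.2.trans hbc)
        rw [le_div_iff₀ (by positivity)] at h1
        exact div_nonneg (by linarith) (by positivity))
    have k1 := hR y hy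
    have k2 := hR b (hy.trans_le hb)
    rw [abs_of_nonneg k1.1, abs_of_nonneg k2.1] at key
    linarith [k2.2]
  · intro a ha hca haY
    have ha0 := hy.trans_le ha
    have hD' : ∀ t ∈ Icc a Y, H + 2 * μ * t ^ 2 ≠ 0 := fun t ht => hD t (ha0.trans_le ht.1)
    have key := shosc_main ha0 haY hD' (fun t => -shoscR H μ t) (fun t => -shoscD H μ t)
      (fun t ht => (shosc_deriv (ha0.trans_le ht.1) (hD' t ht)).neg) (shosc_contD ha0 hD').neg
      (fun t ht => by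
        refine (abs_of_nonpos ?_).le
        have ht0 := ha0.trans_le ht.1
        have h1 : H / (6 * μ) ≤ t ^ 2 := (Real.sqrt_le_left ht0.le).1 (hca.trans ht.1)
        rw [div_le_iff₀ (by positivity)] at h1
        exact div_nonpos_of_nonpos_of_nonneg (by linarith) (by positivity))
    have k1 := hR a ha0
    have k2 := hR Y (ha0.trans_le haY)
    rw [abs_of_nonneg k1.1, abs_of_nonneg k2.1] at key
    linarith [k1.2]

end

end Pool.Agent.MP_9f080f_an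

end

-- part MP_9f080f_an.G.AE
section

namespace Pool.Agent.MP_9f080f_an
open Complex MeasureTheory Set Filter Topology Metric
open scoped Real

noncomputable section

/-! Sums of the weights.
`ph_pow`: if `S` is empty the claim is trivial, otherwise `1 ≤ X`.  Use dyadic ranges going down from `X' = min ⌊X⌋₊ X₁`: the `P` with `X'/2^(j+1) < P ≤ X'/2^j` contribute at most
`Λ (X'/2^j) * 2 (X'/2^j)^(-α)`, and `∑ 2^(-j/8)` converges (or use Abel summation / induction on `X'`); for `α ≤ 0` simply bound `P^(-α) ≤ X^(-α)`.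
`ph_pw2`: extend the sum over `m` to `Icc (-X₁) X₁`, swap the sums, `ph_pow` with `α = 1/2`, `∑ 1/(1+m²) ≤ 5`.
`GoodM.ph`: `k = 0`, `i = Nat.clog 2 X`, `shsum_clog`.
`goodM`: `arith (8 D)` with `α k = C ell^A (1 + log n)^(2g-2) (1+k)^(-g)`, `γ i = C ell^A (1+i)^(g-2)`, `shat_sum_gt`, `shat_sum_lt`, `L + 4 ≲ 1 + log n` (see the proof of `goodW`), `gg_gt`, `gg_lt`,
`ell^A ≲ (1 + log n)^(2/5)` (`Real.log_le_rpow_div`), `1 + log n ≤ 3 log n`.  For `WB` use `(a+b)² ≤ 2a² + 2b²` and `∑_{P ≤ 2^i, 2 ∣ P} W (P/2) ≤ ∑_{c ≤ 2^i} W c` (see `GoodW.add`, `GoodW.dilate`).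
`eb_single`: let `Λ = 3 √Θ` (`GoodM.ph`).  `m = 0`: `eb ≤ 2^L Λ / √T ≤ 8 Λ`.  For `m ≠ 0` and `k = shsumK m` (`shsum_abs` with `κ = 0`): in the first sum of `eb`, `P ≤ 2^(L + 3 - k/2)` (empty if `k/2 > L + 3`), use `shsum_block`,
`2^k 4^(L + 3 - k/2) ≤ 2 * 4^(L+3) ≲ T` and `∑_k γ (L + 3 - k/2) ≤ 2 ∑ γ`; in the second sum `1/P ≤ P^(-7/8) (|m|/T)^(1/16)`, use `ph_pow` with `α = 7/8`, `X = 2^L`, and `∑ |m|^(-15/8)` converges. -/

lemma pw2_nonneg {W : ℤ → ℝ} (h : ∀ m, 0 ≤ W m) (P : ℕ) : 0 ≤ pw2 W P := by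
  unfold pw2
  exact Finset.sum_nonneg fun m _ => div_nonneg (h m) (by positivity)

lemma aea_pt {α : ℝ} (h1 : α ≤ 1) {N P : ℕ} (hP : N / 2 < P) (hPN : P ≤ N) :
    (P : ℝ) ^ (-α) ≤ 2 * (N : ℝ) ^ (-α) := by
  have hP0 : (0 : ℝ) < P := by
    have : 0 < P := by omega
    exact_mod_cast this
  have hN0 : (0 : ℝ) < N := by
    have : 0 < N := by omega
    exact_mod_cast this
  have hNp : 0 ≤ (N : ℝ) ^ (-α) := Real.rpow_nonneg hN0.le _
  rcases le_total α 0 with ha | ha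
  · have : (P : ℝ) ^ (-α) ≤ (N : ℝ) ^ (-α) :=
      Real.rpow_le_rpow hP0.le (by exact_mod_cast hPN) (by linarith)
    linarith
  · have h2 : (N : ℝ) / 2 ≤ P := by
      have : N ≤ 2 * P := by omega
      have : (N : ℝ) ≤ 2 * P := by exact_mod_cast this
      linarith
    have h3 : (P : ℝ) ^ (-α) ≤ ((N : ℝ) / 2) ^ (-α) :=
      Real.rpow_le_rpow_of_nonpos (by positivity) h2 (by linarith)
    have h4 : ((N : ℝ) / 2) ^ (-α) = (N : ℝ) ^ (-α) * (2 : ℝ) ^ α := by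
      rw [Real.div_rpow hN0.le (by norm_num), Real.rpow_neg (by norm_num : (0 : ℝ) ≤ 2), div_inv_eq_mul]
    have h5 : (2 : ℝ) ^ α ≤ 2 := by
      calc (2 : ℝ) ^ α ≤ (2 : ℝ) ^ (1 : ℝ) := Real.rpow_le_rpow_of_exponent_le (by norm_num) h1
        _ = 2 := Real.rpow_one 2
    rw [h4] at h3
    nlinarith

lemma aea_ind {c K : ℝ} (hc : c = (1 / 2 : ℝ) ^ (1 / 8 : ℝ)) (hK0 : 0 ≤ K) (hK : K * c + 2 ≤ K)
    {w : ℕ → ℝ} {X₁ : ℕ} {Λ α : ℝ} (h : PH1 w X₁ Λ) (h2 : α ≤ 7 / 8) :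
    ∀ N : ℕ, N ≤ X₁ → ∑ P ∈ Finset.Icc 1 N, w P * (P : ℝ) ^ (-α) ≤ K * Λ * (N : ℝ) ^ (1 - α) := by
  intro N
  induction N using Nat.strong_induction_on with
  | _ N ih =>
    intro hN
    have hΛ := h.lam
    rcases Nat.eq_zero_or_pos N with rfl | hN0
    · have : 0 ≤ K * Λ * ((0 : ℕ) : ℝ) ^ (1 - α) := by positivity
      simpa using this
    have hNr : (0 : ℝ) < N := by exact_mod_cast hN0
    have hsplit : ∑ P ∈ Finset.Icc 1 N, w P * (P : ℝ) ^ (-α) =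
        ∑ P ∈ Finset.Icc 1 (N / 2), w P * (P : ℝ) ^ (-α) + ∑ P ∈ Finset.Ioc (N / 2) N, w P * (P : ℝ) ^ (-α) := by
      rw [← Finset.sum_union]
      · congr 1
        ext P
        simp only [Finset.mem_union, Finset.mem_Icc, Finset.mem_Ioc]
        omega
      · rw [Finset.disjoint_left]
        intro P hP hP'
        simp only [Finset.mem_Icc, Finset.mem_Ioc] at hP hP'
        omega
    have hA := ih (N / 2) (by omega) (by omega)
    have hpow : 0 ≤ (N : ℝ) ^ (1 - α) := Real.rpow_nonneg hNr.le _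
    have hA2 : ((N / 2 : ℕ) : ℝ) ^ (1 - α) ≤ c * (N : ℝ) ^ (1 - α) := by
      have e1 : ((N / 2 : ℕ) : ℝ) ≤ (1 / 2 : ℝ) * N := by
        have := Nat.cast_div_le (α := ℝ) (m := N) (n := 2)
        push_cast at this
        linarith
      calc ((N / 2 : ℕ) : ℝ) ^ (1 - α) ≤ ((1 / 2 : ℝ) * N) ^ (1 - α) :=
            Real.rpow_le_rpow (Nat.cast_nonneg _) e1 (by linarith)
        _ = (1 / 2 : ℝ) ^ (1 - α) * (N : ℝ) ^ (1 - α) := Real.mul_rpow (by norm_num) hNr.le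
        _ ≤ c * (N : ℝ) ^ (1 - α) := by
            refine mul_le_mul_of_nonneg_right ?_ hpow
            rw [hc]
            exact Real.rpow_le_rpow_of_exponent_ge (by norm_num) (by norm_num) (by linarith)
    have hB : ∑ P ∈ Finset.Ioc (N / 2) N, w P * (P : ℝ) ^ (-α) ≤ 2 * Λ * (N : ℝ) ^ (1 - α) := by
      have hNp : 0 ≤ (N : ℝ) ^ (-α) := Real.rpow_nonneg hNr.le _
      calc ∑ P ∈ Finset.Ioc (N / 2) N, w P * (P : ℝ) ^ (-α)
          ≤ ∑ P ∈ Finset.Ioc (N / 2) N, w P * (2 * (N : ℝ) ^ (-α)) := by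
            refine Finset.sum_le_sum fun P hP => ?_
            rw [Finset.mem_Ioc] at hP
            exact mul_le_mul_of_nonneg_left (aea_pt (by linarith) hP.1 hP.2) (h.nonneg P)
        _ = (∑ P ∈ Finset.Ioc (N / 2) N, w P) * (2 * (N : ℝ) ^ (-α)) := by rw [Finset.sum_mul]
        _ ≤ (∑ P ∈ Finset.Icc 1 N, w P) * (2 * (N : ℝ) ^ (-α)) := by
            refine mul_le_mul_of_nonneg_right ?_ (by positivity)
            refine Finset.sum_le_sum_of_subset_of_nonneg ?_ fun P _ _ => h.nonneg P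
            intro P hP
            simp only [Finset.mem_Icc, Finset.mem_Ioc] at hP ⊢
            omega
        _ ≤ (N * Λ) * (2 * (N : ℝ) ^ (-α)) := mul_le_mul_of_nonneg_right (h.le N hN) (by positivity)
        _ = 2 * Λ * (N : ℝ) ^ (1 - α) := by
            rw [sub_eq_add_neg, Real.rpow_add hNr, Real.rpow_one]
            ring
    have hKΛ : 0 ≤ K * Λ := mul_nonneg hK0 hΛ
    have hA3 : K * Λ * ((N / 2 : ℕ) : ℝ) ^ (1 - α) ≤ K * Λ * (c * (N : ℝ) ^ (1 - α)) :=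
      mul_le_mul_of_nonneg_left hA2 hKΛ
    have hfin : (K * c + 2) * (Λ * (N : ℝ) ^ (1 - α)) ≤ K * (Λ * (N : ℝ) ^ (1 - α)) :=
      mul_le_mul_of_nonneg_right hK (mul_nonneg hΛ hpow)
    rw [hsplit]
    nlinarith

theorem ph_pow : ∃ K : ℝ, 0 < K ∧ ∀ (w : ℕ → ℝ) (X₁ : ℕ) (Λ α X : ℝ) (S : Finset ℕ), PH1 w X₁ Λ →
    -1 ≤ α → α ≤ 7 / 8 → 0 < X → S ⊆ Finset.Icc 1 X₁ → (∀ P ∈ S, (P : ℝ) ≤ X) →
      ∑ P ∈ S, w P * (P : ℝ) ^ (-α) ≤ K * Λ * X ^ (1 - α) := by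
  obtain ⟨c, hc⟩ : ∃ c : ℝ, c = (1 / 2 : ℝ) ^ (1 / 8 : ℝ) := ⟨_, rfl⟩
  have hc1 : c < 1 := by
    rw [hc]
    exact Real.rpow_lt_one (by norm_num) (by norm_num) (by norm_num)
  have hd : 0 < 1 - c := by linarith
  have hK0 : 0 < 2 / (1 - c) := by positivity
  have hK : 2 / (1 - c) * c + 2 ≤ 2 / (1 - c) := by
    apply le_of_eq
    field_simp
    ring
  refine ⟨2 / (1 - c), hK0, fun w X₁ Λ α X S h _ h2 hX hS hSX => ?_⟩
  have hN := aea_ind hc hK0.le hK h h2 (min ⌊X⌋₊ X₁) (min_le_right _ _)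
  have hΛ := h.lam
  calc ∑ P ∈ S, w P * (P : ℝ) ^ (-α) ≤ ∑ P ∈ Finset.Icc 1 (min ⌊X⌋₊ X₁), w P * (P : ℝ) ^ (-α) := by
        refine Finset.sum_le_sum_of_subset_of_nonneg ?_ fun P _ _ =>
          mul_nonneg (h.nonneg P) (Real.rpow_nonneg (Nat.cast_nonneg _) _)
        intro P hP
        have h3 := Finset.mem_Icc.1 (hS hP)
        exact Finset.mem_Icc.2 ⟨h3.1, le_min (Nat.le_floor (hSX P hP)) h3.2⟩
    _ ≤ 2 / (1 - c) * Λ * ((min ⌊X⌋₊ X₁ : ℕ) : ℝ) ^ (1 - α) := hN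
    _ ≤ 2 / (1 - c) * Λ * X ^ (1 - α) := by
        refine mul_le_mul_of_nonneg_left ?_ (mul_nonneg hK0.le hΛ)
        refine Real.rpow_le_rpow (Nat.cast_nonneg _) ?_ (by linarith)
        calc ((min ⌊X⌋₊ X₁ : ℕ) : ℝ) ≤ (⌊X⌋₊ : ℝ) := by exact_mod_cast min_le_left _ _
          _ ≤ X := Nat.floor_le hX.le

lemma aea_inv (N : ℕ) : ∑ m ∈ Finset.Icc (-N : ℤ) N, 1 / (1 + (m : ℝ) ^ 2) ≤ 5 - 4 / ((N : ℝ) + 1) := by
  induction N with
  | zero => norm_num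
  | succ N ih =>
    have e : Finset.Icc (-((N + 1 : ℕ) : ℤ)) ((N + 1 : ℕ) : ℤ) =
        insert (-((N : ℤ) + 1)) (insert ((N : ℤ) + 1) (Finset.Icc (-N : ℤ) N)) := by
      ext m
      simp only [Finset.mem_insert, Finset.mem_Icc]
      push_cast
      omega
    rw [e, Finset.sum_insert, Finset.sum_insert]
    · push_cast
      have hN : (0 : ℝ) ≤ N := Nat.cast_nonneg N
      have h1 : 1 / (1 + ((N : ℝ) + 1) ^ 2) ≤ 2 / ((N : ℝ) + 1) - 2 / ((N : ℝ) + 1 + 1) := by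
        rw [div_sub_div _ _ (by positivity) (by positivity), div_le_div_iff₀ (by positivity) (by positivity)]
        nlinarith [mul_nonneg hN hN]
      have h2 : (-((N : ℝ) + 1)) ^ 2 = ((N : ℝ) + 1) ^ 2 := by ring
      have h3 : 4 / ((N : ℝ) + 1) = 2 * (2 / ((N : ℝ) + 1)) := by ring
      have h4 : 4 / ((N : ℝ) + 1 + 1) = 2 * (2 / ((N : ℝ) + 1 + 1)) := by ring
      rw [h2]
      linarith
    · simp only [Finset.mem_Icc]
      omega
    · simp only [Finset.mem_insert, Finset.mem_Icc]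
      omega

theorem ph_pw2 : ∃ K : ℝ, 0 < K ∧ ∀ (W : ℕ → ℤ → ℝ) (X₁ : ℕ) (Λ X : ℝ) (S : Finset ℕ), PH W X₁ Λ →
    0 < X → S ⊆ Finset.Icc 1 X₁ → (∀ P ∈ S, (P : ℝ) ≤ X) →
      ∑ P ∈ S, pw2 (W P) P / √P ≤ K * Λ * √X := by
  obtain ⟨K, hK, hpow⟩ := ph_pow
  refine ⟨5 * K, by positivity, fun W X₁ Λ X S h hX hS hSX => ?_⟩
  have hΛ : 0 ≤ Λ := (h 0).lam
  have hm : ∀ m : ℤ, ∑ P ∈ S, W P m / √P ≤ K * Λ * √X := by
    intro m
    have h1 := hpow (fun P => W P m) X₁ Λ (1 / 2) X S (h m) (by norm_num) (by norm_num) hX hS hSX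
    have h2 : (1 : ℝ) - 1 / 2 = 1 / 2 := by norm_num
    rw [h2, ← Real.sqrt_eq_rpow] at h1
    refine le_of_eq_of_le ?_ h1
    refine Finset.sum_congr rfl fun P _ => ?_
    rw [Real.rpow_neg (Nat.cast_nonneg _), ← Real.sqrt_eq_rpow, div_eq_mul_inv]
  have hB : 0 ≤ K * Λ * √X := by positivity
  calc ∑ P ∈ S, pw2 (W P) P / √P
      ≤ ∑ P ∈ S, ∑ m ∈ Finset.Icc (-X₁ : ℤ) X₁, 1 / (1 + (m : ℝ) ^ 2) * (W P m / √P) := by
        refine Finset.sum_le_sum fun P hP => ?_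
        have h3 := Finset.mem_Icc.1 (hS hP)
        unfold pw2
        rw [Finset.sum_div]
        calc ∑ m ∈ Finset.Icc (-P : ℤ) P, W P m / (1 + (m : ℝ) ^ 2) / √P
            = ∑ m ∈ Finset.Icc (-P : ℤ) P, 1 / (1 + (m : ℝ) ^ 2) * (W P m / √P) :=
              Finset.sum_congr rfl fun m _ => by ring
          _ ≤ _ := by
              refine Finset.sum_le_sum_of_subset_of_nonneg ?_ fun m _ _ =>
                mul_nonneg (by positivity) (div_nonneg ((h m).nonneg P) (Real.sqrt_nonneg _))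
              exact Finset.Icc_subset_Icc (by omega) (by omega)
    _ = ∑ m ∈ Finset.Icc (-X₁ : ℤ) X₁, 1 / (1 + (m : ℝ) ^ 2) * ∑ P ∈ S, W P m / √P := by
        rw [Finset.sum_comm]
        exact Finset.sum_congr rfl fun m _ => by rw [Finset.mul_sum]
    _ ≤ ∑ m ∈ Finset.Icc (-X₁ : ℤ) X₁, 1 / (1 + (m : ℝ) ^ 2) * (K * Λ * √X) :=
        Finset.sum_le_sum fun m _ => mul_le_mul_of_nonneg_left (hm m) (by positivity)
    _ = (∑ m ∈ Finset.Icc (-X₁ : ℤ) X₁, 1 / (1 + (m : ℝ) ^ 2)) * (K * Λ * √X) := by rw [Finset.sum_mul]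
    _ ≤ 5 * (K * Λ * √X) := by
        refine mul_le_mul_of_nonneg_right ?_ hB
        have h5 := aea_inv X₁
        have h6 : 0 ≤ 4 / ((X₁ : ℝ) + 1) := by positivity
        linarith
    _ = 5 * K * Λ * √X := by ring

theorem GoodM.ph {W : ℕ → ℤ → ℝ} {L : ℕ} {Θ : ℝ} (h : GoodM W L Θ) : PH W (2 ^ (L + 3)) (3 * √Θ) := by
  obtain ⟨α, γ, hα, hγ, hb, hsα, hsγ⟩ := h.ex
  intro m
  refine ⟨fun P => h.nonneg P m, by positivity, fun X hX => ?_⟩
  rcases Nat.eq_zero_or_pos X with rfl | hX0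
  · simp
  have hi : Nat.clog 2 X ≤ L + 3 := (Nat.clog_le_iff_le_pow (by norm_num)).2 hX
  have h1 := hb 0 (Nat.clog 2 X) hi m
  simp only [pow_zero, Finset.range_one, Finset.sum_singleton, Nat.cast_zero, add_zero, one_mul] at h1
  have h2 : α 0 ≤ Θ := by simpa using hsα 1
  have h3 : γ (Nat.clog 2 X) ≤ Θ :=
    (Finset.single_le_sum (f := γ) (fun i _ => hγ i) (Finset.mem_range.2 (by omega))).trans hsγ
  have hΘ : 0 ≤ Θ := (hα 0).trans h2
  have h4 : ((2 : ℝ) ^ Nat.clog 2 X) ≤ 2 * X := by exact_mod_cast shsum_clog (P := X) hX0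
  have h5 : ∑ P ∈ Finset.Icc 1 X, W P m ≤ ∑ P ∈ Finset.Icc 1 (2 ^ Nat.clog 2 X), W P m :=
    Finset.sum_le_sum_of_subset_of_nonneg
      (Finset.Icc_subset_Icc le_rfl (Nat.le_pow_clog (by norm_num) X)) fun P _ _ => h.nonneg P m
  refine h5.trans ?_
  have h6 : (4 : ℝ) ^ Nat.clog 2 X = ((2 : ℝ) ^ Nat.clog 2 X) ^ 2 := by
    rw [← pow_mul, mul_comm, pow_mul]
    norm_num
  have h7 : ((2 : ℝ) ^ Nat.clog 2 X) ^ 2 ≤ (2 * X) ^ 2 := pow_le_pow_left₀ (by positivity) h4 2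
  have h8 : (√Θ) ^ 2 = Θ := Real.sq_sqrt hΘ
  have hXr : (0 : ℝ) ≤ X := Nat.cast_nonneg X
  refine le_of_sq_le_sq ?_ (by positivity)
  have h9 : (4 : ℝ) ^ Nat.clog 2 X * (α 0 + γ (Nat.clog 2 X)) ≤ (2 * X) ^ 2 * (2 * Θ) := by
    rw [h6]
    exact mul_le_mul h7 (by linarith) (add_nonneg (hα 0) (hγ _)) (by positivity)
  have h10 : ((X : ℝ) * (3 * √Θ)) ^ 2 = 9 * (X : ℝ) ^ 2 * Θ := by
    rw [mul_pow, mul_pow, h8]
    ring
  have h11 : 0 ≤ (X : ℝ) ^ 2 * Θ := by positivity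
  rw [h10]
  nlinarith

end

end Pool.Agent.MP_9f080f_an

namespace Pool.Agent.MP_9f080f_an
open Complex MeasureTheory Set Filter Topology Metric
open scoped Real

noncomputable section

/-! Mean squares of the weights. -/

lemma aeb_mono {W : ℕ → ℤ → ℝ} {L : ℕ} {Θ Θ' : ℝ} (h : GoodM W L Θ) (hle : Θ ≤ Θ') :
    GoodM W L Θ' := by
  obtain ⟨α, γ, h0, h1, h2, h3, h4⟩ := h.ex
  exact ⟨h.nonneg, α, γ, h0, h1, h2, fun K => (h3 K).trans hle, h4.trans hle⟩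

lemma aeb_add {W W' : ℕ → ℤ → ℝ} {L : ℕ} {Θ : ℝ} (h : GoodM W L Θ) (h' : GoodM W' L Θ) :
    GoodM (fun P m => W P m + W' P m) L (4 * Θ) := by
  obtain ⟨α, γ, h0, h1, h2, h3, h4⟩ := h.ex
  obtain ⟨α', γ', h0', h1', h2', h3', h4'⟩ := h'.ex
  refine ⟨fun P m => add_nonneg (h.nonneg P m) (h'.nonneg P m), fun k => 2 * α k + 2 * α' k,
    fun i => 2 * γ i + 2 * γ' i, fun k => ?_, fun i => ?_, fun k i hi a₀ => ?_, fun K => ?_, ?_⟩
  · linarith [h0 k, h0' k]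
  · linarith [h1 i, h1' i]
  · calc _ ≤ ∑ j ∈ Finset.range (2 ^ k),
          (2 * (∑ P ∈ Finset.Icc 1 (2 ^ i), W P (a₀ + j)) ^ 2 +
            2 * (∑ P ∈ Finset.Icc 1 (2 ^ i), W' P (a₀ + j)) ^ 2) := by
          refine Finset.sum_le_sum fun j _ => ?_
          rw [Finset.sum_add_distrib]
          nlinarith [sq_nonneg ((∑ P ∈ Finset.Icc 1 (2 ^ i), W P (a₀ + j)) -
            ∑ P ∈ Finset.Icc 1 (2 ^ i), W' P (a₀ + j))]
      _ ≤ _ := by
          rw [Finset.sum_add_distrib, ← Finset.mul_sum, ← Finset.mul_sum]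
          linarith [h2 k i hi a₀, h2' k i hi a₀]
  · simp only [Finset.sum_add_distrib, ← Finset.mul_sum]
    linarith [h3 K, h3' K]
  · simp only [Finset.sum_add_distrib, ← Finset.mul_sum]
    linarith

lemma aeb_dilate {W : ℕ → ℤ → ℝ} {L : ℕ} {Θ : ℝ} (h : GoodM W L Θ) :
    GoodM (fun P m => if 2 ∣ P then W (P / 2) m else 0) L Θ := by
  obtain ⟨α, γ, h0, h1, h2, h3, h4⟩ := h.ex
  have hn : ∀ P m, 0 ≤ (if 2 ∣ P then W (P / 2) m else 0) := by
    intro P m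
    split_ifs
    exacts [h.nonneg _ _, le_rfl]
  refine ⟨hn, α, γ, h0, h1, fun k i hi a₀ => le_trans ?_ (h2 k i hi a₀), h3, h4⟩
  refine Finset.sum_le_sum fun j _ => pow_le_pow_left₀ (Finset.sum_nonneg fun P _ => hn _ _) ?_ 2
  rw [← Finset.sum_filter, ← Finset.sum_image (g := fun P : ℕ => P / 2)
    (f := fun P => W P (a₀ + j))]
  · refine Finset.sum_le_sum_of_subset_of_nonneg (fun P hP => ?_) fun P _ _ => h.nonneg _ _
    obtain ⟨Q, hQ, rfl⟩ := Finset.mem_image.mp hP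
    simp only [Finset.mem_filter, Finset.mem_Icc] at hQ ⊢
    omega
  · intro a ha b hb hab
    simp only [Finset.coe_filter, Set.mem_ofPred_eq] at ha hb
    simp only at hab
    omega

lemma aeb_ell (A : ℕ) : ∃ G : ℝ, 0 < G ∧ ∀ (n : ℕ) (s : ℝ), s ≤ 3 / 5 →
    ell n ^ A * (1 + Real.log n) ^ s ≤ G * (1 + Real.log n) := by
  refine ⟨(5 / 2) ^ A * A.factorial * Real.exp (2 / 5), by positivity, fun n s hs => ?_⟩
  have hl := one_le_ell n
  have hK := shat_K n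
  have h1 := Real.pow_div_factorial_le_exp (2 / 5 * ell n) (by positivity) A
  rw [div_le_iff₀ (by positivity)] at h1
  have h2 : Real.exp (2 / 5 * ell n) = Real.exp (2 / 5) * (1 + Real.log n) ^ (2 / 5 : ℝ) := by
    rw [ell, mul_add, mul_one, Real.exp_add, Real.rpow_def_of_pos (by linarith), mul_comm (2 / 5)]
  have h3 : ell n ^ A = (5 / 2) ^ A * (2 / 5 * ell n) ^ A := by
    rw [← mul_pow, ← mul_assoc]
    norm_num
  rw [h2] at h1
  generalize 1 + Real.log n = K at h1 hK ⊢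
  have h4 : K ^ (2 / 5 : ℝ) * K ^ s ≤ K := by
    rw [← Real.rpow_add (by linarith)]
    exact (Real.rpow_le_rpow_of_exponent_le hK (by linarith)).trans_eq (Real.rpow_one K)
  calc ell n ^ A * K ^ s ≤ (5 / 2) ^ A * (Real.exp (2 / 5) * K ^ (2 / 5 : ℝ) * A.factorial) *
        K ^ s := by
        rw [h3]
        gcongr
    _ = (5 / 2) ^ A * A.factorial * Real.exp (2 / 5) * (K ^ (2 / 5 : ℝ) * K ^ s) := by ring
    _ ≤ _ := by gcongr

lemma aeb_wf (D : ℕ) : ∃ C : ℝ, 0 < C ∧ ∀ (F : Fam) (n L : ℕ), 1 ≤ n → 2 ^ L ≤ D * n →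
    GoodM (Wf F n) L (C * (1 + Real.log n)) := by
  obtain ⟨C, A, hC, ha⟩ := arith (8 * D)
  obtain ⟨c, hc0, hc⟩ := shat_sum_gt
  obtain ⟨G, hG, hG'⟩ := aeb_ell A
  have hE : 1 ≤ 1 + Real.log D := shat_K D
  generalize hEE : 1 + Real.log D = E at hE
  refine ⟨C * G * (c + 28 * E), by positivity, fun F n L hn hL => ?_⟩
  have hg1 := gg_gt
  have hg2 := gg_lt
  have hl := one_le_ell n
  have hK := shat_K n
  have hXE := shat_logD hn Nat.one_le_two_pow hL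
  rw [hEE] at hXE
  have hL5 : ((L + 4 : ℕ) : ℝ) ≤ 7 * E * (1 + Real.log n) := by
    push_cast at hXE ⊢
    rw [Real.log_pow] at hXE
    have := Real.log_two_gt_d9
    have h0 : (0 : ℝ) ≤ L := L.cast_nonneg
    have h1 : 1 ≤ E * (1 + Real.log n) := one_le_mul_of_one_le_of_one_le hE hK
    nlinarith
  refine ⟨Wf_nonneg F n,
    fun k => C * ell n ^ A * ((1 + Real.log n) ^ (2 * gg - 2) * (1 + k : ℝ) ^ (-gg)),
    fun i => C * ell n ^ A * (1 + i : ℝ) ^ (gg - 2), fun k => by positivity,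
    fun i => by positivity, fun k i hi a₀ => ?_, fun N => ?_, ?_⟩
  · refine (ha F n i k a₀ hn ?_).trans_eq (by rw [lamf, mul_add (C * ell n ^ A)])
    calc 2 ^ i ≤ 2 ^ (L + 3) := Nat.pow_le_pow_right (by norm_num) hi
      _ = 8 * 2 ^ L := by ring
      _ ≤ 8 * (D * n) := Nat.mul_le_mul_left 8 hL
      _ = _ := by ring
  · simp only [← Finset.mul_sum]
    have h1 := hG' n (2 * gg - 2) (by linarith)
    calc _ ≤ C * ell n ^ A * ((1 + Real.log n) ^ (2 * gg - 2) * c) := by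
          gcongr
          exact hc N
      _ = C * c * (ell n ^ A * (1 + Real.log n) ^ (2 * gg - 2)) := by ring
      _ ≤ C * (c + 28 * E) * (G * (1 + Real.log n)) := by
          gcongr
          linarith
      _ = _ := by ring
  · simp only [← Finset.mul_sum]
    have h1 := shat_sum_lt (s := 2 - gg) (by linarith) (by linarith) (L + 4)
    rw [neg_sub, show 1 - (2 - gg) = gg - 1 by ring] at h1
    have h2 := hG' n (gg - 1) (by linarith)
    have h3 : ((L + 4 : ℕ) : ℝ) ^ (gg - 1) ≤ 7 * E * (1 + Real.log n) ^ (gg - 1) := by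
      refine (Real.rpow_le_rpow (by positivity) hL5 (by linarith)).trans ?_
      rw [Real.mul_rpow (by positivity) (by positivity)]
      exact mul_le_mul_of_nonneg_right ((Real.rpow_le_rpow_of_exponent_le (by linarith)
        (by linarith)).trans_eq (Real.rpow_one _)) (by positivity)
    calc _ ≤ C * ell n ^ A * (4 * (7 * E * (1 + Real.log n) ^ (gg - 1))) :=
          mul_le_mul_of_nonneg_left (by linarith) (by positivity)
      _ = C * (28 * E) * (ell n ^ A * (1 + Real.log n) ^ (gg - 1)) := by ring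
      _ ≤ C * (c + 28 * E) * (G * (1 + Real.log n)) := by
          gcongr
          linarith
      _ = _ := by ring

theorem goodM (D : ℕ) : ∃ C : ℝ, 2 ≤ C ∧ ∀ n L : ℕ, 2 ≤ n → 2 ^ L ≤ D * n →
    GoodM (Wf F1 n) L (C * Real.log n) ∧ GoodM (WB n) L (C * Real.log n) := by
  obtain ⟨C, hC, h⟩ := aeb_wf D
  refine ⟨12 * C + 2, by linarith, fun n L hn hL => ?_⟩
  have h1 : 1 / 2 ≤ Real.log n := by
    have := Real.log_le_log (by norm_num) (show (2 : ℝ) ≤ n by exact_mod_cast hn)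
    linarith [Real.log_two_gt_d9]
  have h2 := mul_le_mul_of_nonneg_left h1 hC.le
  exact ⟨aeb_mono (h F1 n L (by omega) hL) (by linarith),
    aeb_mono (aeb_add (aeb_dilate (h F2 n L (by omega) hL)) (h F3 n L (by omega) hL))
      (by linarith)⟩

end

end Pool.Agent.MP_9f080f_an

namespace Pool.Agent.MP_9f080f_an
open Complex MeasureTheory Set Filter Topology Metric
open scoped Real

noncomputable section

lemma ae_half (g : ℕ → ℝ) (n : ℕ) :
    ∑ k ∈ Finset.range (2 * n), g (k / 2) = 2 * ∑ j ∈ Finset.range n, g j := by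
  induction n with
  | zero => simp
  | succ n ih =>
    rw [show 2 * (n + 1) = 2 * n + 1 + 1 by ring, Finset.sum_range_succ, Finset.sum_range_succ, ih,
      Finset.sum_range_succ, show 2 * n / 2 = n by omega, show (2 * n + 1) / 2 = n by omega]
    ring

lemma ae_range {L P : ℕ} {T : ℝ} {m : ℤ} (hT : T ≤ 4 ^ L) (hP : P ≤ 2 ^ L)
    (h : |(m : ℝ)| * (1 / 4) ^ 2 * (P : ℝ) ^ 2 ≤ T) : 2 ^ (shsumK m / 2) * P ≤ 2 ^ (L + 3) := by
  by_cases hm : m = 0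
  · subst hm
    have h1 : shsumK 0 = 0 := by simp [shsumK]
    rw [h1, pow_add]
    omega
  have h1 : (1 : ℝ) ≤ |(m : ℝ)| := by exact_mod_cast Int.one_le_abs hm
  have h2 := (shsum_bounds_real m).1
  have h3 : ((2 : ℝ) ^ (shsumK m / 2)) ^ 2 ≤ 2 ^ shsumK m := by
    rw [← pow_mul]
    exact pow_le_pow_right₀ (by norm_num) (by omega)
  have h4 : ((2 : ℝ) ^ (L + 3)) ^ 2 = 64 * 4 ^ L := by
    rw [pow_add, mul_pow, ← pow_mul, mul_comm L 2, pow_mul]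
    norm_num [mul_comm]
  have h5 : ((2 : ℝ) ^ (shsumK m / 2) * P) ^ 2 ≤ ((2 : ℝ) ^ (L + 3)) ^ 2 := by
    rw [h4, mul_pow]
    have h6 : ((2 : ℝ) ^ (shsumK m / 2)) ^ 2 * (P : ℝ) ^ 2 ≤ (2 * |(m : ℝ)|) * (P : ℝ) ^ 2 :=
      mul_le_mul_of_nonneg_right (by linarith) (sq_nonneg _)
    have h7 : (0 : ℝ) < 4 ^ L := by positivity
    linarith
  have h6 := (pow_le_pow_iff_left₀ (by positivity) (by positivity) two_ne_zero).mp h5
  exact_mod_cast h6

lemma ae_first {W : ℕ → ℤ → ℝ} {L : ℕ} {Θ T : ℝ} (h : GoodM W L Θ) (hT : T ≤ 4 ^ L)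
    (hT' : 4 ^ L ≤ 64 * T) {U : ℤ → Finset ℕ}
    (hU : ∀ m, ∀ P ∈ U m, P ∈ Finset.Icc 1 (2 ^ L) ∧ |(m : ℝ)| * (1 / 4) ^ 2 * (P : ℝ) ^ 2 ≤ T)
    (t : Finset ℤ) : ∑ m ∈ t, ((√T)⁻¹ * ∑ P ∈ U m, W P m) ^ 2 ≤ 49152 * Θ := by
  have hW := h.nonneg
  obtain ⟨α, γ, hα, hγ, h1, h2, h3⟩ := h.ex
  have hT0 : 0 < T := by
    have : (0 : ℝ) < 4 ^ L := by positivity
    linarith
  have key : ∀ k, ∑ m ∈ t.filter (fun m => shsumK m = k), ((√T)⁻¹ * ∑ P ∈ U m, W P m) ^ 2 ≤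
      16384 * (α k + if k < 2 * (L + 4) then γ (L + 3 - k / 2) else 0) := by
    intro k
    have hr : ∀ m ∈ t.filter (fun m => shsumK m = k), ∀ P ∈ U m,
        1 ≤ P ∧ 2 ^ (k / 2) * P ≤ 2 ^ (L + 3) := fun m hm P hP => by
      obtain ⟨a1, a2⟩ := hU m P hP
      rw [← (Finset.mem_filter.mp hm).2]
      exact ⟨(Finset.mem_Icc.mp a1).1, ae_range hT (Finset.mem_Icc.mp a1).2 a2⟩
    split_ifs with hk
    · have e1 : ∑ m ∈ t.filter (fun m => shsumK m = k), ((√T)⁻¹ * ∑ P ∈ U m, W P m) ^ 2 ≤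
          ∑ m ∈ t.filter (fun m => shsumK m = k),
            T⁻¹ * (∑ P ∈ Finset.Icc 1 (2 ^ (L + 3 - k / 2)), W P m) ^ 2 := by
        refine Finset.sum_le_sum fun m hm => ?_
        rw [mul_pow, inv_pow, Real.sq_sqrt hT0.le]
        refine mul_le_mul_of_nonneg_left (pow_le_pow_left₀
          (Finset.sum_nonneg fun P _ => hW P m) ?_ 2) (by positivity)
        refine Finset.sum_le_sum_of_subset_of_nonneg (fun P hP => ?_) fun P _ _ => hW P m
        obtain ⟨c1, c2⟩ := hr m hm P hP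
        refine Finset.mem_Icc.mpr ⟨c1, ?_⟩
        rw [show L + 3 = k / 2 + (L + 3 - k / 2) by omega, pow_add] at c2
        exact Nat.le_of_mul_le_mul_left c2 (by positivity)
      rw [← Finset.mul_sum] at e1
      have e2 := shsum_block (f := fun m => (∑ P ∈ Finset.Icc 1 (2 ^ (L + 3 - k / 2)), W P m) ^ 2)
        (fun m => sq_nonneg _) (h1 k (L + 3 - k / 2) (by omega)) t
      have e3 : (2 : ℝ) ^ k * 4 ^ (L + 3 - k / 2) ≤ 8192 * T := by
        have a1 : (2 : ℝ) ^ k ≤ 2 * 4 ^ (k / 2) := by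
          rw [show (4 : ℝ) = 2 ^ 2 by norm_num, ← pow_mul, ← pow_succ']
          exact pow_le_pow_right₀ (by norm_num) (by omega)
        have a2 : (4 : ℝ) ^ (k / 2) * 4 ^ (L + 3 - k / 2) = 64 * 4 ^ L := by
          rw [← pow_add, show k / 2 + (L + 3 - k / 2) = 3 + L by omega, pow_add]
          norm_num
        have a3 := mul_le_mul_of_nonneg_right a1 (show (0 : ℝ) ≤ 4 ^ (L + 3 - k / 2) by positivity)
        rw [mul_assoc, a2] at a3
        linarith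
      have e4 : 0 ≤ α k + γ (L + 3 - k / 2) := add_nonneg (hα _) (hγ _)
      calc _ ≤ T⁻¹ * (2 * (2 ^ k * 4 ^ (L + 3 - k / 2) * (α k + γ (L + 3 - k / 2)))) :=
            e1.trans (mul_le_mul_of_nonneg_left e2 (by positivity))
        _ ≤ T⁻¹ * (2 * (8192 * T * (α k + γ (L + 3 - k / 2)))) := by gcongr
        _ = _ := by field_simp; ring
    · rw [Finset.sum_eq_zero]
      · have := hα k
        positivity
      intro m hm
      rw [Finset.sum_eq_zero, mul_zero, zero_pow two_ne_zero]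
      intro P hP
      exfalso
      obtain ⟨c1, c2⟩ := hr m hm P hP
      have c3 : 2 ^ (L + 3) < 2 ^ (k / 2) := Nat.pow_lt_pow_right (by norm_num) (by omega)
      have c4 := Nat.mul_le_mul_left (2 ^ (k / 2)) c1
      omega
  obtain ⟨K, hK⟩ : ∃ K, ∀ m ∈ t, shsumK m ∈ Finset.range K :=
    ⟨t.sup shsumK + 1, fun m hm => Finset.mem_range.mpr (Nat.lt_succ_of_le (Finset.le_sup hm))⟩
  have a1 := Finset.sum_le_sum fun k (_ : k ∈ Finset.range K) => key k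
  rw [Finset.sum_fiberwise_of_maps_to hK, ← Finset.mul_sum, Finset.sum_add_distrib,
    ← Finset.sum_filter] at a1
  have a2 : ∑ k ∈ (Finset.range K).filter (fun k => k < 2 * (L + 4)), γ (L + 3 - k / 2) ≤ 2 * Θ := by
    refine (Finset.sum_le_sum_of_subset_of_nonneg (t := Finset.range (2 * (L + 4)))
      (fun k hk => Finset.mem_range.mpr (Finset.mem_filter.mp hk).2) fun k _ _ => hγ _).trans ?_
    rw [ae_half (fun j => γ (L + 3 - j)) (L + 4)]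
    have a3 := Finset.sum_range_reflect γ (L + 4)
    simp only [show L + 4 - 1 = L + 3 by omega] at a3
    rw [a3]
    linarith
  have a3 := h2 K
  linarith

lemma ae_inv {L P : ℕ} {T a : ℝ} (hP : 1 ≤ P) (ha : 0 ≤ a) (hT' : 4 ^ L ≤ 64 * T)
    (h : T < a * (1 / 4) ^ 2 * (P : ℝ) ^ 2) :
    (P : ℝ)⁻¹ ≤ 2 * a ^ (1 / 16 : ℝ) / ((2 : ℝ) ^ L) ^ (1 / 8 : ℝ) * (P : ℝ) ^ (-(7 / 8) : ℝ) := by
  have hP0 : (0 : ℝ) < P := by exact_mod_cast hP
  have h1 : ((2 : ℝ) ^ L) ^ (1 / 8 : ℝ) ≤ 2 * a ^ (1 / 16 : ℝ) * (P : ℝ) ^ (1 / 8 : ℝ) := by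
    refine (pow_le_pow_iff_left₀ (by positivity) (by positivity) (by norm_num : 16 ≠ 0)).mp ?_
    rw [mul_pow, mul_pow, ← Real.rpow_natCast, ← Real.rpow_natCast (a ^ (1 / 16 : ℝ)),
      ← Real.rpow_natCast ((P : ℝ) ^ (1 / 8 : ℝ)), ← Real.rpow_mul (by positivity),
      ← Real.rpow_mul ha, ← Real.rpow_mul hP0.le]
    norm_num
    rw [← pow_mul, mul_comm L 2, pow_mul]
    have h2 : 0 ≤ a * (P : ℝ) ^ 2 := by positivity
    norm_num
    nlinarith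
  have h2 : (P : ℝ)⁻¹ * (P : ℝ) ^ (1 / 8 : ℝ) = (P : ℝ) ^ (-(7 / 8) : ℝ) := by
    rw [← Real.rpow_neg_one, ← Real.rpow_add hP0]
    norm_num
  rw [div_mul_eq_mul_div, le_div_iff₀ (by positivity), ← h2]
  have h3 := mul_le_mul_of_nonneg_left h1 (inv_pos.mpr hP0).le
  linarith

lemma ae_second : ∃ K : ℝ, 0 < K ∧ ∀ (W : ℕ → ℤ → ℝ) (L : ℕ) (Θ T : ℝ) (m : ℤ) (U : Finset ℕ),
    GoodM W L Θ → 4 ^ L ≤ 64 * T →
    (∀ P ∈ U, P ∈ Finset.Icc 1 (2 ^ L) ∧ T < |(m : ℝ)| * (1 / 4) ^ 2 * (P : ℝ) ^ 2) →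
      ((1 / 4 : ℝ) ^ (-3 / 2 : ℝ) * |(m : ℝ)|⁻¹ * ∑ P ∈ U, W P m / P) ^ 2 ≤
        K * Θ * |(m : ℝ)| ^ (-(15 / 8) : ℝ) := by
  obtain ⟨K, hK, H⟩ := ph_pow
  refine ⟨2304 * K ^ 2, by positivity, fun W L Θ T m U h hT' hU => ?_⟩
  have hΘ : 0 ≤ Θ := by
    obtain ⟨α, γ, -, -, -, h2, -⟩ := h.ex
    simpa using h2 0
  by_cases hm : m = 0
  · subst hm
    simp
  have hm0 : 0 < |(m : ℝ)| := abs_pos.mpr (by exact_mod_cast hm)
  have hW := h.nonneg
  have h1 := H (fun P => W P m) (2 ^ (L + 3)) (3 * √Θ) (7 / 8) (2 ^ L) U (h.ph m) (by norm_num) le_rfl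
    (by positivity) (fun P hP => by
      have a1 := Finset.mem_Icc.mp (hU P hP).1
      exact Finset.mem_Icc.mpr ⟨a1.1, a1.2.trans (Nat.pow_le_pow_right (by norm_num) (by omega))⟩)
    (fun P hP => by exact_mod_cast (Finset.mem_Icc.mp (hU P hP).1).2)
  rw [show (1 - 7 / 8 : ℝ) = 1 / 8 by norm_num] at h1
  have hY : 0 < ((2 : ℝ) ^ L) ^ (1 / 8 : ℝ) := by positivity
  have h2 : ∑ P ∈ U, W P m / P ≤ 2 * |(m : ℝ)| ^ (1 / 16 : ℝ) * (K * (3 * √Θ)) := by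
    calc _ ≤ ∑ P ∈ U, 2 * |(m : ℝ)| ^ (1 / 16 : ℝ) / ((2 : ℝ) ^ L) ^ (1 / 8 : ℝ) *
          (W P m * (P : ℝ) ^ (-(7 / 8) : ℝ)) := Finset.sum_le_sum fun P hP => by
          have a1 := mul_le_mul_of_nonneg_left (ae_inv (Finset.mem_Icc.mp (hU P hP).1).1 hm0.le hT'
            (hU P hP).2) (hW P m)
          rw [div_eq_mul_inv]
          linarith
      _ ≤ 2 * |(m : ℝ)| ^ (1 / 16 : ℝ) / ((2 : ℝ) ^ L) ^ (1 / 8 : ℝ) *
          (K * (3 * √Θ) * ((2 : ℝ) ^ L) ^ (1 / 8 : ℝ)) := by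
          rw [← Finset.mul_sum]
          exact mul_le_mul_of_nonneg_left h1 (by positivity)
      _ = _ := by field_simp
  have h3 : ((1 / 4 : ℝ) ^ (-3 / 2 : ℝ)) ^ 2 = 64 := by
    rw [← Real.rpow_natCast, ← Real.rpow_mul (by positivity)]
    norm_num
  have h4 : (|(m : ℝ)|⁻¹) ^ 2 * (|(m : ℝ)| ^ (1 / 16 : ℝ)) ^ 2 = |(m : ℝ)| ^ (-(15 / 8) : ℝ) := by
    rw [← Real.rpow_neg_one, ← mul_pow, ← Real.rpow_add hm0, ← Real.rpow_natCast,
      ← Real.rpow_mul hm0.le]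
    norm_num
  have h5 : (∑ P ∈ U, W P m / P) ^ 2 ≤ (2 * |(m : ℝ)| ^ (1 / 16 : ℝ) * (K * (3 * √Θ))) ^ 2 :=
    pow_le_pow_left₀ (Finset.sum_nonneg fun P _ => div_nonneg (hW P m) (Nat.cast_nonneg _)) h2 2
  rw [mul_pow, mul_pow, h3, ← h4]
  refine (mul_le_mul_of_nonneg_left h5 (by positivity)).trans (le_of_eq ?_)
  simp only [mul_pow, Real.sq_sqrt hΘ]
  ring

theorem eb_single : ∃ C : ℝ, 0 < C ∧ ∀ (W : ℕ → ℤ → ℝ) (L : ℕ) (Θ T : ℝ) (S : Finset ℕ) (t : Finset ℤ),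
    GoodM W L Θ → S ⊆ Finset.Icc 1 (2 ^ L) → T ≤ 4 ^ L → 4 ^ L ≤ 64 * T →
      ∑ m ∈ t, eb S W T 0 (1 / 4) m ^ 2 ≤ C * Θ := by
  classical
  obtain ⟨K, hK, H⟩ := ae_second
  have hs := Real.summable_abs_int_rpow (b := 15 / 8) (by norm_num)
  obtain ⟨C₁, hC₁, hC₁0⟩ : ∃ C₁ : ℝ, C₁ = ∑' m : ℤ, |(m : ℝ)| ^ (-(15 / 8) : ℝ) ∧ 0 ≤ C₁ :=
    ⟨_, rfl, tsum_nonneg fun m => by positivity⟩
  refine ⟨2 * 49152 + 2 * (K * C₁), by positivity, fun W L Θ T S t h hS hT hT' => ?_⟩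
  have hΘ : 0 ≤ Θ := by
    obtain ⟨α, γ, -, -, -, h2, -⟩ := h.ex
    simpa using h2 0
  have h1 := ae_first h hT hT'
    (U := fun m => S.filter fun P : ℕ => |(m : ℝ)| * (1 / 4) ^ 2 * (P : ℝ) ^ 2 ≤ T)
    (fun m P hP => ⟨hS (Finset.mem_filter.mp hP).1, (Finset.mem_filter.mp hP).2⟩) t
  have h2 := Finset.sum_le_sum fun m (_ : m ∈ t) => H W L Θ T m
    (S.filter fun P : ℕ => T < |(m : ℝ)| * (1 / 4) ^ 2 * (P : ℝ) ^ 2) h hT'
    (fun P hP => ⟨hS (Finset.mem_filter.mp hP).1, (Finset.mem_filter.mp hP).2⟩)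
  have h3 : ∑ m ∈ t, |(m : ℝ)| ^ (-(15 / 8) : ℝ) ≤ C₁ := by
    rw [hC₁]
    exact hs.sum_le_tsum t fun m _ => by positivity
  rw [← Finset.mul_sum] at h2
  have h4 := h2.trans (mul_le_mul_of_nonneg_left h3 (by positivity))
  have h5 : ∀ a b : ℝ, (a + b) ^ 2 ≤ 2 * a ^ 2 + 2 * b ^ 2 := fun a b => by
    nlinarith [sq_nonneg (a - b)]
  unfold eb
  simp only [add_zero]
  refine (Finset.sum_le_sum fun m _ => h5 _ _).trans ?_
  rw [Finset.sum_add_distrib, ← Finset.mul_sum, ← Finset.mul_sum]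
  linarith

end

end Pool.Agent.MP_9f080f_an

end
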