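import Pool.Agent.MP_9f080f_an.Mg.G_AE

namespace Pool.Agent.MP_9f080f_an
open Complex MeasureTheory Set Filter Topology Metric
open scoped Real

noncomputable section

/-! One frequency.  `H = T/P²`.
`freq_far`: `shosc_far`, `1/P ≤ P^(-7/8) (|μ| y²/T)^(1/16)`, `ph_pow` with `α = 7/8`, `X = √T`.
`freq_pos`: `osc_pos`, `ph_pow` with `α = -1/2`, `X = √(T/(μ y²))`.
`freq_neg`: `osc2`; `(1/P) (√H)⁻¹ = (√T)⁻¹`, `√(b T/P²) = √(b T)/P`, the terms with `b y² P² ≤ T` satisfy `b y² P² < 2T`; `ph_pow` with `α = 0`, `X = √(2T/(b y²))`.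
`near_one`: the substitution `u = UU H b y`: `U' ≥ √(b/y)/2 ≥ √(b/Z)/2` on `(0, Z]`, so the integrand is at most `2 √(Z/b) U'/(1 + U²)`, whose integral is a difference of `arctan`.
`near_int`: Cauchy-Schwarz `(∑ w/(1+|U|))² ≤ (∑ w)(∑ w/(1+U²))`, `∑ w ≤ K Λ √(2T/b)/y` (`ph_pow`, `α = 0`); bound the filter by indicators of `y ≤ Z_P = √(2T/b)/P`, integrate termwise, `near_one`, and `ph_pow` with `α = 1/2`,
`X = √(2T/b)` (only `P ≤ X` matter since `y ≥ 1`).  The integrand is measurable (finite sums of indicators) and bounded.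
`main_int`: put `Z = √(T/b)`; the filter is `P ≤ ⌊Z/y⌋₊`.  The integrand is at most `∑_X indicator (Ioc (Z/(X+1)) (Z/X)) ((Z/X) T⁻¹ ‖A X‖²)` over `1 ≤ X ≤ 2Z/3`, and `(Z/X) (Z/X - Z/(X+1)) / T ≤ 1/(b X³)`.
`freq`: split `S` into far and near moduli; `‖a + b + c + d‖² ≤ 4 (…)`; for `μ < 0` put `b = 2|μ| ≥ 3/4`, `ep (-2 μ t) = ep (b t)`; `∫_{3/2}^{Y₀} y^(-7/4) ≤ 2`, `|μ|^(-15/8) , |μ|^(-2) ≲ |μ|^(-3/2)`.
Continuity of `aa` in `y`: `intervalIntegral.continuousOn_primitive_interval_left`-type lemmas or `∫_y^Y = ∫_{y₀}^Y - ∫_{y₀}^y`, `shosc_int`. -/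

lemma apa_exp {x : ℝ} (hx : 0 < x) : ∃ a, x = Real.exp a := ⟨Real.log x, (Real.exp_log hx).symm⟩

lemma apa_sqrt (a : ℝ) : √(Real.exp a) = Real.exp (a / 2) := (Real.exp_half a).symm

lemma apa_far {m y T P : ℝ} (hm : 0 < m) (hy : 0 < y) (hT : 0 < T) (hP : 0 < P)
    (h : T ≤ m * y ^ 2 * P ^ 2) :
    1 / P * (5 * y ^ (-3 / 2 : ℝ) / m) ≤ P ^ (-(7 / 8 : ℝ)) *
      (5 * (m ^ (-15 / 16 : ℝ) * y ^ (-11 / 8 : ℝ)) / √T ^ (1 - 7 / 8 : ℝ)) := by
  obtain ⟨a, rfl⟩ := apa_exp hm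
  obtain ⟨b, rfl⟩ := apa_exp hy
  obtain ⟨t, rfl⟩ := apa_exp hT
  obtain ⟨p, rfl⟩ := apa_exp hP
  rw [← Real.exp_nat_mul, ← Real.exp_nat_mul, ← Real.exp_add, ← Real.exp_add,
    Real.exp_le_exp] at h
  push_cast at h
  simp only [apa_sqrt, ← Real.exp_mul, div_eq_mul_inv, ← Real.exp_neg, one_mul]
  rw [mul_assoc, mul_assoc, mul_left_comm, mul_left_comm _ (5 : ℝ)]
  simp only [← Real.exp_add]
  refine mul_le_mul_of_nonneg_left (Real.exp_le_exp.2 ?_) (by norm_num)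
  linarith

lemma apa_pos {μ y T P : ℝ} (hμ : 0 < μ) (hy : 0 < y) (hT : 0 < T) (hP : 0 < P) (K : ℝ) :
    1 / P * (K * (T / P ^ 2) ^ (-3 / 4 : ℝ) * μ ^ (-1 / 4 : ℝ)) = P ^ (-(-1 / 2 : ℝ)) *
      (K * (μ⁻¹ * y ^ (-3 / 2 : ℝ)) / √(T / (μ * y ^ 2)) ^ (1 - -1 / 2 : ℝ)) := by
  obtain ⟨a, rfl⟩ := apa_exp hμ
  obtain ⟨b, rfl⟩ := apa_exp hy
  obtain ⟨t, rfl⟩ := apa_exp hT
  obtain ⟨p, rfl⟩ := apa_exp hP
  rw [← Real.exp_nat_mul, ← Real.exp_nat_mul, ← Real.exp_add, ← Real.exp_sub, ← Real.exp_sub]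
  simp only [apa_sqrt, ← Real.exp_mul, div_eq_mul_inv, ← Real.exp_neg, one_mul]
  rw [mul_assoc, mul_assoc, mul_left_comm, mul_left_comm _ K]
  simp only [← Real.exp_add]
  congr 2
  push_cast
  ring

lemma apa_sum {S : Finset ℕ} {c : ℕ → ℂ} {w : ℕ → ℝ} {T μ y Y α B : ℝ} {I : ℕ → ℝ}
    (hc : ∀ P ∈ S, ‖c P‖ ≤ w P)
    (hI : ∀ P ∈ S, ‖∫ t in y..Y, kk (T / P ^ 2) t * ep (-2 * μ * t)‖ ≤ I P)
    (h : ∀ P ∈ S, 1 / (P : ℝ) * I P ≤ (P : ℝ) ^ (-α) * B) :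
    ‖aa S c T μ y Y‖ ≤ (∑ P ∈ S, w P * (P : ℝ) ^ (-α)) * B := by
  rw [aa, Finset.sum_mul]
  refine (norm_sum_le _ _).trans (Finset.sum_le_sum fun P hP => ?_)
  have h0 : 0 ≤ w P := (norm_nonneg _).trans (hc P hP)
  rw [norm_mul, norm_div, Complex.norm_natCast, mul_assoc]
  refine le_trans ?_ (mul_le_mul_of_nonneg_left (h P hP) h0)
  rw [← mul_assoc, mul_one_div]
  exact mul_le_mul (div_le_div_of_nonneg_right (hc P hP) (Nat.cast_nonneg _)) (hI P hP)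
    (norm_nonneg _) (by positivity)

open Classical in
theorem freq_far : ∃ K : ℝ, 0 < K ∧ ∀ (S : Finset ℕ) (c : ℕ → ℂ) (w : ℕ → ℝ) (X₁ : ℕ) (Λ T μ y Y : ℝ),
    PH1 w X₁ Λ → S ⊆ Finset.Icc 1 X₁ → (∀ P ∈ S, (P : ℝ) ^ 2 ≤ T ∧ ‖c P‖ ≤ w P) → μ ≠ 0 → 0 < y → y ≤ Y →
    ‖aa (S.filter fun P : ℕ => T ≤ |μ| * y ^ 2 * (P : ℝ) ^ 2) c T μ y Y‖ ≤
      K * Λ * (|μ| ^ (-15 / 16 : ℝ) * y ^ (-11 / 8 : ℝ)) := by
  obtain ⟨K, hK, H⟩ := ph_pow
  refine ⟨5 * K, by positivity, fun S c w X₁ Λ T μ y Y hw hS hc hμ hy hY => ?_⟩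
  have hm : 0 < |μ| := abs_pos.2 hμ
  have hΛ := hw.lam
  have h1 : ∀ P ∈ S, (1 : ℝ) ≤ P := fun P hP => by exact_mod_cast (Finset.mem_Icc.1 (hS hP)).1
  rcases S.eq_empty_or_nonempty with rfl | ⟨P0, hP0⟩
  · rw [Finset.filter_empty, aa, Finset.sum_empty, norm_zero]
    positivity
  have hT : 0 < T := lt_of_lt_of_le (by have := h1 P0 hP0; positivity) (hc P0 hP0).1
  have hs : 0 < √T := Real.sqrt_pos.2 hT
  have h2 := H w X₁ Λ (7 / 8) (√T) (S.filter fun P : ℕ => T ≤ |μ| * y ^ 2 * (P : ℝ) ^ 2) hw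
    (by norm_num) le_rfl hs ((Finset.filter_subset _ _).trans hS)
    fun P hP => Real.le_sqrt_of_sq_le (hc P (Finset.mem_filter.1 hP).1).1
  refine (apa_sum (w := w) (fun P hP => (hc P (Finset.mem_filter.1 hP).1).2)
    (fun P hP => ?_) fun P hP => apa_far hm hy hT
      (lt_of_lt_of_le one_pos (h1 P (Finset.mem_filter.1 hP).1)) (Finset.mem_filter.1 hP).2).trans
    ((mul_le_mul_of_nonneg_right h2 (by positivity)).trans (le_of_eq ?_))
  · have h3 := h1 P (Finset.mem_filter.1 hP).1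
    refine shosc_far (by positivity) hy hY ?_
    rw [div_le_iff₀ (by positivity)]
    exact (Finset.mem_filter.1 hP).2
  · have := (Real.rpow_pos_of_pos hs (1 - 7 / 8)).ne'
    field_simp

open Classical in
theorem freq_pos : ∃ K : ℝ, 0 < K ∧ ∀ (S : Finset ℕ) (c : ℕ → ℂ) (w : ℕ → ℝ) (X₁ : ℕ) (Λ T μ y Y : ℝ),
    PH1 w X₁ Λ → S ⊆ Finset.Icc 1 X₁ → (∀ P ∈ S, ‖c P‖ ≤ w P) → 0 < μ → 0 < y → y ≤ Y →
    ‖aa (S.filter fun P : ℕ => μ * y ^ 2 * (P : ℝ) ^ 2 < T) c T μ y Y‖ ≤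
      K * Λ * (μ⁻¹ * y ^ (-3 / 2 : ℝ)) := by
  obtain ⟨K, hK, H⟩ := ph_pow
  obtain ⟨K', hK', H'⟩ := osc_pos
  refine ⟨K' * K, by positivity, fun S c w X₁ Λ T μ y Y hw hS hc hμ hy hY => ?_⟩
  have hΛ := hw.lam
  have h1 : ∀ P ∈ S, (1 : ℝ) ≤ P := fun P hP => by exact_mod_cast (Finset.mem_Icc.1 (hS hP)).1
  rcases (S.filter fun P : ℕ => μ * y ^ 2 * (P : ℝ) ^ 2 < T).eq_empty_or_nonempty with
    he | ⟨P0, hP0⟩
  · rw [he, aa, Finset.sum_empty, norm_zero]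
    positivity
  have hT : 0 < T := lt_of_le_of_lt (by positivity) (Finset.mem_filter.1 hP0).2
  have hs : 0 < √(T / (μ * y ^ 2)) := Real.sqrt_pos.2 (by positivity)
  have h2 := H w X₁ Λ (-1 / 2) _ (S.filter fun P : ℕ => μ * y ^ 2 * (P : ℝ) ^ 2 < T) hw
    (by norm_num) (by norm_num) hs ((Finset.filter_subset _ _).trans hS)
    fun P hP => Real.le_sqrt_of_sq_le (by
      rw [le_div_iff₀ (by positivity), mul_comm]
      exact (Finset.mem_filter.1 hP).2.le)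
  refine (apa_sum (w := w) (fun P hP => hc P (Finset.mem_filter.1 hP).1)
    (fun P hP => H' _ μ y Y ?_ hμ hy hY) fun P hP => (apa_pos hμ hy hT
      (lt_of_lt_of_le one_pos (h1 P (Finset.mem_filter.1 hP).1)) K').le).trans
    ((mul_le_mul_of_nonneg_right h2 (by positivity)).trans (le_of_eq ?_))
  · have h3 := h1 P (Finset.mem_filter.1 hP).1
    positivity
  · have := (Real.rpow_pos_of_pos hs (1 - -1 / 2)).ne'
    field_simp

end

end Pool.Agent.MP_9f080f_an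

namespace Pool.Agent.MP_9f080f_an
open Complex MeasureTheory Set Filter Topology Metric
open scoped Real

noncomputable section

lemma apb_sqrt {T p : ℝ} (hp : 0 < p) : √(T / p ^ 2) = √T / p := by
  rw [Real.sqrt_div' _ (by positivity), Real.sqrt_sq hp.le]

lemma apb_last {T b y : ℝ} (hT : 0 < T) (hb : 0 < b) (hy : 0 < y) :
    (√T)⁻¹ * (1 / √(b * y)) * √(2 * T / (b * y ^ 2)) ≤ 2 * (b⁻¹ * y ^ (-3 / 2 : ℝ)) := by
  have e : y ^ (-3 / 2 : ℝ) = (y * √y)⁻¹ := by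
    rw [show (-3 / 2 : ℝ) = -(1 + 1 / 2) by norm_num, Real.rpow_neg hy.le, Real.rpow_add hy,
      Real.rpow_one, Real.sqrt_eq_rpow]
  have h2 : √2 ≤ 2 := Real.sqrt_le_iff.2 ⟨by norm_num, by norm_num⟩
  rw [e, Real.sqrt_div' _ (by positivity), Real.sqrt_mul hb.le, Real.sqrt_mul hb.le,
    Real.sqrt_mul zero_le_two, Real.sqrt_sq hy.le]
  obtain ⟨β, hβ, rfl⟩ : ∃ β, 0 < β ∧ b = β ^ 2 := ⟨√b, Real.sqrt_pos.2 hb, (Real.sq_sqrt hb.le).symm⟩
  have h3 := Real.sqrt_pos.2 hT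
  have h4 := Real.sqrt_pos.2 hy
  rw [Real.sqrt_sq hβ.le]
  refine le_trans (le_of_eq ?_) (mul_le_mul_of_nonneg_right h2 (by positivity))
  field_simp

open Classical in
theorem freq_neg : ∃ (F : ℂ) (K : ℝ), 0 < K ∧ ∀ (S : Finset ℕ) (c : ℕ → ℂ) (w : ℕ → ℝ) (X₁ : ℕ)
    (Λ T b y Y : ℝ), PH1 w X₁ Λ → S ⊆ Finset.Icc 1 X₁ → (∀ P ∈ S, ‖c P‖ ≤ w P) → 0 < T → 0 < b → 0 < y →
    y ≤ Y → 4 * T ≤ b * Y ^ 2 →
    ‖aa (S.filter fun P : ℕ => b * y ^ 2 * (P : ℝ) ^ 2 < 2 * T) c T (-b / 2) y Y -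
        F * ((√T)⁻¹ : ℝ) * ∑ P ∈ S.filter (fun P : ℕ => b * y ^ 2 * (P : ℝ) ^ 2 ≤ T),
          c P * ep ((2 * √(b * T) / P : ℝ) : ℂ)‖ ≤
      K * ((√T)⁻¹ * ∑ P ∈ S.filter (fun P : ℕ => b * y ^ 2 * (P : ℝ) ^ 2 < 2 * T),
        w P / (1 + |UU (T / P ^ 2) b y|)) + K * Λ * (b⁻¹ * y ^ (-3 / 2 : ℝ)) := by
  obtain ⟨F, K, hK, H⟩ := osc2
  obtain ⟨K', hK', H'⟩ := ph_pow
  refine ⟨F, K + 2 * K * K', by positivity, fun S c w X₁ Λ T b y Y hw hS hc hT hb hy hY h4 => ?_⟩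
  have hΛ : 0 ≤ Λ := by
    have := H' w X₁ Λ 0 1 ∅ hw (by norm_num) (by norm_num) one_pos (by simp) (by simp)
    simpa [mul_nonneg_iff_of_pos_left hK'] using this
  set S' := S.filter fun P : ℕ => b * y ^ 2 * (P : ℝ) ^ 2 < 2 * T with hS'
  have hP : ∀ P ∈ S', (1 : ℝ) ≤ P := fun P h => by
    exact_mod_cast (Finset.mem_Icc.1 (hS (Finset.mem_filter.1 h).1)).1
  have hw0 : ∀ P ∈ S', 0 ≤ w P := fun P h =>
    (norm_nonneg _).trans (hc P (Finset.mem_filter.1 h).1)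
  have hsT := Real.sqrt_pos.2 hT
  have e1 : S.filter (fun P : ℕ => b * y ^ 2 * (P : ℝ) ^ 2 ≤ T)
      = S'.filter fun P : ℕ => b * y ^ 2 * (P : ℝ) ^ 2 ≤ T := by
    rw [hS', Finset.filter_filter]
    exact Finset.filter_congr fun P _ => ⟨fun h => ⟨by linarith, h⟩, fun h => h.2⟩
  have h1 := H' w X₁ Λ 0 (√(2 * T / (b * y ^ 2))) S' hw (by norm_num) (by norm_num)
    (by positivity) ((Finset.filter_subset _ _).trans hS) fun P h => by
      refine Real.le_sqrt_of_sq_le ?_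
      rw [le_div_iff₀ (by positivity)]
      linarith [(Finset.mem_filter.1 h).2]
  simp only [neg_zero, Real.rpow_zero, mul_one, sub_zero, Real.rpow_one] at h1
  have h2 : ∀ P ∈ S', ‖c P / P * (∫ t in y..Y, kk (T / P ^ 2) t * ep (-2 * ((-b / 2 : ℝ) : ℂ) * t))
      - F * ((√T)⁻¹ : ℝ) * (if b * y ^ 2 * (P : ℝ) ^ 2 ≤ T then
        c P * ep ((2 * √(b * T) / P : ℝ) : ℂ) else 0)‖
      ≤ K * ((√T)⁻¹ * (w P / (1 + |UU (T / P ^ 2) b y|))) + K * ((√T)⁻¹ * (1 / √(b * y))) * w P := by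
    intro P h
    have hP1 := hP P h
    have hP0 : (0 : ℝ) < P := by linarith
    have hPc : (P : ℂ) ≠ 0 := by exact_mod_cast hP0.ne'
    have h3 := H (T / P ^ 2) b y Y (by positivity) hb hy hY (le_trans (by
      have := div_le_self hT.le (one_le_pow₀ hP1 : (1 : ℝ) ≤ P ^ 2)
      linarith) h4)
    have e2 : ∀ t : ℝ, -2 * ((-b / 2 : ℝ) : ℂ) * t = b * t := fun t => by push_cast; ring
    have e3 : F * ((√T)⁻¹ : ℝ) * (if b * y ^ 2 * (P : ℝ) ^ 2 ≤ T then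
        c P * ep ((2 * √(b * T) / P : ℝ) : ℂ) else 0) = c P / P * (if b * y ^ 2 ≤ T / P ^ 2 then
          F * ((√(T / P ^ 2))⁻¹ : ℝ) * ep ((2 * √(b * (T / P ^ 2)) : ℝ) : ℂ) else 0) := by
      simp only [le_div_iff₀ (pow_pos hP0 2)]
      split_ifs
      · rw [← mul_div_assoc b, apb_sqrt hP0, apb_sqrt hP0, ← mul_div_assoc, inv_div,
          div_eq_mul_inv (P : ℝ)]
        rw [Complex.ofReal_mul (P : ℝ), Complex.ofReal_natCast]
        field_simp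
      · simp
    simp only [e2]
    rw [e3, ← mul_sub, norm_mul, norm_div, Complex.norm_natCast]
    refine (mul_le_mul (div_le_div_of_nonneg_right (hc P (Finset.mem_filter.1 h).1) hP0.le) h3
      (norm_nonneg _) (div_nonneg (hw0 P h) hP0.le)).trans (le_of_eq ?_)
    rw [apb_sqrt hP0]
    field_simp
  rw [e1, Finset.sum_filter, Finset.mul_sum, aa, ← Finset.sum_sub_distrib]
  refine (norm_sum_le_of_le _ h2).trans ?_
  rw [Finset.sum_add_distrib, ← Finset.mul_sum, ← Finset.mul_sum, ← Finset.mul_sum]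
  have h5 : 0 ≤ (√T)⁻¹ * ∑ P ∈ S', w P / (1 + |UU (T / P ^ 2) b y|) :=
    mul_nonneg (by positivity) (Finset.sum_nonneg fun P h => div_nonneg (hw0 P h) (by positivity))
  have h6 := mul_le_mul_of_nonneg_left h1 (show 0 ≤ K * ((√T)⁻¹ * (1 / √(b * y))) by positivity)
  have h7 := mul_le_mul_of_nonneg_left (apb_last hT hb hy) (show 0 ≤ K * K' * Λ by positivity)
  have h8 : 0 ≤ K * Λ * (b⁻¹ * y ^ (-3 / 2 : ℝ)) := by positivity
  have h9 := mul_nonneg (show 0 ≤ 2 * K * K' by positivity) h5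
  linarith

end

end Pool.Agent.MP_9f080f_an

namespace Pool.Agent.MP_9f080f_an
open Complex MeasureTheory Set Filter Topology Metric
open scoped Real

noncomputable section

lemma apc_cont {H b y₀ Z : ℝ} (h0 : 0 < y₀) : ContinuousOn (UU H b) (Icc y₀ Z) := by
  unfold UU
  refine ContinuousOn.sub (by fun_prop) (ContinuousOn.sqrt (continuousOn_const.div continuousOn_id
    fun y hy => (lt_of_lt_of_le h0 hy.1).ne'))

lemma apc_cont2 {H b y₀ Z : ℝ} (h0 : 0 < y₀) :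
    ContinuousOn (fun y => 1 / (1 + UU H b y ^ 2)) (Icc y₀ Z) :=
  continuousOn_const.div (continuousOn_const.add ((apc_cont h0).pow 2)) fun y _ => by positivity

lemma apc_deriv {H b y : ℝ} (hH : 0 < H) (hb : 0 < b) (hy : 0 < y) :
    HasDerivAt (UU H b) (b / (2 * √(b * y)) + H / y ^ 2 / (2 * √(H / y))) y := by
  have h1 : HasDerivAt (fun t => √(b * t)) (b / (2 * √(b * y))) y := by
    simpa using ((hasDerivAt_id y).const_mul b).sqrt (by simp [hb.ne', hy.ne'])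
  have h2 : HasDerivAt (fun t => H / t) (-(H / y ^ 2)) y := by
    have := (hasDerivAt_inv hy.ne').const_mul H
    simpa [div_eq_mul_inv] using this
  have h3 := h2.sqrt (div_pos hH hy).ne'
  have h4 := h1.sub h3
  rw [neg_div, sub_neg_eq_add] at h4
  exact h4

theorem near_one {H b y₀ Z : ℝ} (hH : 0 < H) (hb : 0 < b) (h0 : 0 < y₀) (hZ : y₀ ≤ Z) :
    ∫ y in y₀..Z, 1 / (1 + UU H b y ^ 2) ≤ 2 * π * √(Z / b) := by
  have hc : 0 ≤ √(Z / b) := Real.sqrt_nonneg _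
  have key := intervalIntegral.integral_le_sub_of_hasDeriv_right_of_le
    (g := fun y => 2 * √(Z / b) * Real.arctan (UU H b y))
    (g' := fun y => 2 * √(Z / b) * (1 / (1 + UU H b y ^ 2) *
      (b / (2 * √(b * y)) + H / y ^ 2 / (2 * √(H / y)))))
    (φ := fun y => 1 / (1 + UU H b y ^ 2)) hZ
    (continuousOn_const.mul (Real.continuous_arctan.comp_continuousOn (apc_cont h0)))
    (fun y hy => (((apc_deriv hH hb (h0.trans hy.1)).arctan).const_mul _).hasDerivWithinAt)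
    ((apc_cont2 h0).integrableOn_Icc)
    (fun y hy => by
      have hy0 : 0 < y := h0.trans hy.1
      have hs : 0 < √(b * y) := Real.sqrt_pos.2 (by positivity)
      have h1 : √(b * y) ≤ √(Z / b) * b := by
        have e : √(Z / b) * b = √(Z / b * b ^ 2) := by
          rw [Real.sqrt_mul (div_nonneg (h0.le.trans hZ) hb.le), Real.sqrt_sq hb.le]
        rw [e]
        refine Real.sqrt_le_sqrt ?_
        have : Z / b * b ^ 2 = b * Z := by field_simp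
        rw [this]
        exact mul_le_mul_of_nonneg_left hy.2.le hb.le
      have h2 : 1 ≤ 2 * √(Z / b) * (b / (2 * √(b * y))) := by
        have : 2 * √(Z / b) * (b / (2 * √(b * y))) = √(Z / b) * b / √(b * y) := by field_simp
        rw [this, le_div_iff₀ hs, one_mul]
        exact h1
      have h3 : 0 ≤ 2 * √(Z / b) * (H / y ^ 2 / (2 * √(H / y))) := by positivity
      have h4 : 0 ≤ 1 / (1 + UU H b y ^ 2) := by positivity
      have h5 := mul_le_mul_of_nonneg_left (h2.trans (le_add_of_nonneg_right h3)) h4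
      linarith)
  have h1 := Real.arctan_lt_pi_div_two (UU H b Z)
  have h2 := Real.neg_pi_div_two_lt_arctan (UU H b y₀)
  have h3 : 2 * √(Z / b) * (Real.arctan (UU H b Z) - Real.arctan (UU H b y₀)) ≤
      2 * √(Z / b) * π := mul_le_mul_of_nonneg_left (by linarith) (by positivity)
  linarith

lemma apc_meas (H b : ℝ) : Measurable (UU H b) := by
  unfold UU
  fun_prop

lemma apc_ind {H b Y Z : ℝ} (hH : 0 < H) (hb : 0 < b) (hY : 3 / 2 ≤ Y) {s : Set ℝ}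
    (hs : MeasurableSet s) (hsZ : ∀ y ∈ s, 0 < y → y ≤ Z) :
    ∫ y in (3 / 2 : ℝ)..Y, s.indicator (fun y => 1 / (1 + UU H b y ^ 2)) y ≤ 2 * π * √(Z / b) := by
  rw [intervalIntegral.integral_of_le hY, setIntegral_indicator hs]
  have hsub : Ioc (3 / 2 : ℝ) Y ∩ s ⊆ Ioc (3 / 2) Z := fun y hy =>
    ⟨hy.1.1, hsZ y hy.2 (lt_trans (by norm_num) hy.1.1)⟩
  by_cases hZ : 3 / 2 ≤ Z
  · refine le_trans ?_ (near_one hH hb (by norm_num) hZ)
    rw [intervalIntegral.integral_of_le hZ]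
    exact setIntegral_mono_set
      (((apc_cont2 (by norm_num)).integrableOn_Icc).mono_set Ioc_subset_Icc_self)
      (Eventually.of_forall fun y => by positivity) hsub.eventuallyLE
  · rw [Ioc_eq_empty_of_le (not_le.1 hZ).le, subset_empty_iff] at hsub
    rw [hsub, setIntegral_empty]
    positivity

lemma apc_bdd {f : ℝ → ℝ} (hf : Measurable f) {a b C : ℝ} (hab : a ≤ b)
    (h : ∀ y ∈ Ioc a b, |f y| ≤ C) : IntervalIntegrable f volume a b := by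
  rw [intervalIntegrable_iff_integrableOn_Ioc_of_le hab]
  exact Measure.integrableOn_of_bounded (M := C) measure_Ioc_lt_top.ne hf.aestronglyMeasurable
    ((ae_restrict_iff' measurableSet_Ioc).2 (Eventually.of_forall h))

lemma apc_cs (S : Finset ℕ) (w u : ℕ → ℝ) (hw : ∀ P, 0 ≤ w P) :
    (∑ P ∈ S, w P / (1 + |u P|)) ^ 2 ≤ (∑ P ∈ S, w P) * ∑ P ∈ S, w P * (1 / (1 + u P ^ 2)) := by
  refine Finset.sum_sq_le_sum_mul_sum_of_sq_le_mul S (fun P _ => hw P)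
    (fun P _ => mul_nonneg (hw P) (by positivity)) fun P _ => ?_
  rw [div_pow, ← mul_assoc, ← sq, mul_one_div]
  refine div_le_div_of_nonneg_left (sq_nonneg _) (by positivity) ?_
  have := abs_nonneg (u P)
  nlinarith [sq_abs (u P)]

open Classical in
theorem near_int : ∃ K : ℝ, 0 < K ∧ ∀ (S : Finset ℕ) (w : ℕ → ℝ) (X₁ : ℕ) (Λ T b Y₀ : ℝ),
    PH1 w X₁ Λ → S ⊆ Finset.Icc 1 X₁ → 0 < T → 0 < b → 3 / 2 ≤ Y₀ →
    IntervalIntegrable (fun y : ℝ => y * ((√T)⁻¹ *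
      ∑ P ∈ S.filter (fun P : ℕ => b * y ^ 2 * (P : ℝ) ^ 2 < 2 * T),
        w P / (1 + |UU (T / P ^ 2) b y|)) ^ 2) volume (3 / 2) Y₀ ∧
    ∫ y in (3 / 2 : ℝ)..Y₀, y * ((√T)⁻¹ * ∑ P ∈ S.filter (fun P : ℕ => b * y ^ 2 * (P : ℝ) ^ 2 < 2 * T),
      w P / (1 + |UU (T / P ^ 2) b y|)) ^ 2 ≤ K * Λ ^ 2 * b ^ (-3 / 2 : ℝ) := by
  obtain ⟨K, hK, hph⟩ := ph_pow
  refine ⟨4 * π * K ^ 2, by positivity, fun S w X₁ Λ T b Y₀ hw hS hT hb hY => ?_⟩
  have hΛ := hw.lam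
  obtain ⟨X, hXd⟩ : ∃ X : ℝ, X = √(2 * T / b) := ⟨_, rfl⟩
  have hX : 0 < X := by rw [hXd]; exact Real.sqrt_pos.2 (by positivity)
  have hX2 : b * X ^ 2 = 2 * T := by
    rw [hXd, Real.sq_sqrt (by positivity)]; field_simp
  have hle : ∀ (y : ℝ) (P : ℕ), 0 < y → b * y ^ 2 * (P : ℝ) ^ 2 < 2 * T → y * P ≤ X := by
    intro y P hy h
    refine le_of_pow_le_pow_left₀ (n := 2) (by norm_num) hX.le ?_
    have : b * (y * P) ^ 2 ≤ b * X ^ 2 := by rw [hX2, mul_pow, ← mul_assoc]; exact h.le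
    exact le_of_mul_le_mul_left this hb
  have hms : ∀ P : ℕ, MeasurableSet {y : ℝ | b * y ^ 2 * (P : ℝ) ^ 2 < 2 * T} := fun P =>
    measurableSet_lt (by fun_prop) measurable_const
  have hint : IntervalIntegrable (fun y : ℝ => y * ((√T)⁻¹ *
      ∑ P ∈ S.filter (fun P : ℕ => b * y ^ 2 * (P : ℝ) ^ 2 < 2 * T),
        w P / (1 + |UU (T / P ^ 2) b y|)) ^ 2) volume (3 / 2) Y₀ := by
    refine apc_bdd (C := Y₀ * ((√T)⁻¹ * ∑ P ∈ S, w P) ^ 2) ?_ hY fun y hy => ?_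
    · simp only [Finset.sum_filter]
      refine measurable_id.mul (Measurable.pow_const (Measurable.const_mul ?_ _) 2)
      refine Finset.measurable_sum _ fun P _ => Measurable.ite (hms P) ?_ measurable_const
      exact measurable_const.div (measurable_const.add (apc_meas _ _).abs)
    · have hy0 : 0 < y := lt_trans (by norm_num) hy.1
      rw [abs_of_nonneg (by positivity)]
      refine mul_le_mul hy.2 (pow_le_pow_left₀ (mul_nonneg (by positivity)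
        (Finset.sum_nonneg fun P _ => div_nonneg (hw.nonneg P) (by positivity)))
        (mul_le_mul_of_nonneg_left ?_ (by positivity)) 2) (by positivity) (by linarith)
      refine le_trans (Finset.sum_le_sum fun P _ => div_le_self (hw.nonneg P) ?_)
        (Finset.sum_le_sum_of_subset_of_nonneg (Finset.filter_subset _ _) fun P _ _ => hw.nonneg P)
      linarith [abs_nonneg (UU (T / P ^ 2) b y)]
  refine ⟨hint, ?_⟩
  set S' := S.filter fun P : ℕ => (P : ℝ) ≤ X with hS'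
  have hS'sub : S' ⊆ Finset.Icc 1 X₁ := (Finset.filter_subset _ _).trans hS
  let g : ℕ → ℝ → ℝ := fun P => {y : ℝ | b * y ^ 2 * (P : ℝ) ^ 2 < 2 * T}.indicator
    fun y => 1 / (1 + UU (T / P ^ 2) b y ^ 2)
  have hgi : ∀ P, IntervalIntegrable (g P) volume (3 / 2) Y₀ := fun P => by
    have hm : Measurable (g P) := Measurable.indicator (measurable_const.div (measurable_const.add
      ((apc_meas _ _).pow_const 2))) (hms P)
    refine apc_bdd (C := 1) hm hY fun y _ => ?_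
    simp only [g, indicator]
    split_ifs
    · rw [abs_of_nonneg (by positivity), div_le_one (by positivity)]
      linarith [sq_nonneg (UU (T / P ^ 2) b y)]
    · simp
  have hpt : ∀ y ∈ Icc (3 / 2 : ℝ) Y₀, y * ((√T)⁻¹ *
      ∑ P ∈ S.filter (fun P : ℕ => b * y ^ 2 * (P : ℝ) ^ 2 < 2 * T),
        w P / (1 + |UU (T / P ^ 2) b y|)) ^ 2 ≤ T⁻¹ * (K * Λ * X) * ∑ P ∈ S', w P * g P y := by
    intro y hy
    have hy0 : 0 < y := lt_of_lt_of_le (by norm_num) hy.1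
    set F := S.filter fun P : ℕ => b * y ^ 2 * (P : ℝ) ^ 2 < 2 * T with hF
    have h1 := apc_cs F w (fun P => UU (T / P ^ 2) b y) hw.nonneg
    have h2 := hph w X₁ Λ 0 (X / y) F hw (by norm_num) (by norm_num) (by positivity)
      ((Finset.filter_subset _ _).trans hS) fun P hP => by
        rw [le_div_iff₀ hy0, mul_comm]
        exact hle y P hy0 (Finset.mem_filter.1 hP).2
    simp only [neg_zero, Real.rpow_zero, mul_one, sub_zero, Real.rpow_one] at h2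
    have h3 : ∑ P ∈ F, w P * (1 / (1 + UU (T / P ^ 2) b y ^ 2)) ≤ ∑ P ∈ S', w P * g P y := by
      have hFS : F ⊆ S' := fun P hP => Finset.mem_filter.2 ⟨(Finset.mem_filter.1 hP).1, by
        have h := hle y P hy0 (Finset.mem_filter.1 hP).2
        have h0 : (0 : ℝ) ≤ P := Nat.cast_nonneg P
        nlinarith [hy.1]⟩
      refine le_trans (le_of_eq (Finset.sum_congr rfl fun P hP => ?_))
        (Finset.sum_le_sum_of_subset_of_nonneg hFS fun P _ _ => mul_nonneg (hw.nonneg P)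
          (indicator_nonneg (fun y _ => by positivity) y))
      simp only [g]
      rw [indicator_of_mem (by exact (Finset.mem_filter.1 hP).2)]
    have h4 : 0 ≤ ∑ P ∈ F, w P * (1 / (1 + UU (T / P ^ 2) b y ^ 2)) :=
      Finset.sum_nonneg fun P _ => mul_nonneg (hw.nonneg P) (by positivity)
    have h5 := h1.trans (mul_le_mul h2 h3 h4 (by positivity))
    rw [mul_pow, inv_pow, Real.sq_sqrt hT.le]
    calc _ ≤ y * (T⁻¹ * (K * Λ * (X / y) * ∑ P ∈ S', w P * g P y)) := by gcongr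
      _ = _ := by field_simp
  have hsi : IntervalIntegrable (fun y => ∑ P ∈ S', w P * g P y) volume (3 / 2) Y₀ := by
    have := IntervalIntegrable.sum S' (f := fun P y => w P * g P y)
      fun P _ => (hgi P).const_mul (w P)
    have e : (fun y => ∑ P ∈ S', w P * g P y) = ∑ P ∈ S', fun y => w P * g P y := by
      ext y
      simp
    rw [e]
    exact this
  refine le_trans (intervalIntegral.integral_mono_on hY hint (hsi.const_mul _) hpt) ?_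
  rw [intervalIntegral.integral_const_mul,
    intervalIntegral.integral_finsetSum fun P _ => (hgi P).const_mul (w P)]
  have h6 : ∑ P ∈ S', ∫ y in (3 / 2 : ℝ)..Y₀, w P * g P y ≤
      2 * π * √(X / b) * ∑ P ∈ S', w P * (P : ℝ) ^ (-(1 / 2) : ℝ) := by
    rw [Finset.mul_sum]
    refine Finset.sum_le_sum fun P hP => ?_
    have hP1 : (0 : ℝ) < P := by exact_mod_cast (Finset.mem_Icc.1 (hS'sub hP)).1
    rw [intervalIntegral.integral_const_mul]
    have h7 := apc_ind (H := T / P ^ 2) (Z := X / P) (by positivity) hb hY (hms P)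
      fun y hy hy0 => by rw [le_div_iff₀ hP1]; exact hle y P hy0 hy
    have e : √(X / P / b) = √(X / b) * (P : ℝ) ^ (-(1 / 2) : ℝ) := by
      rw [Real.rpow_neg hP1.le, ← Real.sqrt_eq_rpow, ← Real.sqrt_inv,
        ← Real.sqrt_mul (by positivity)]
      congr 1
      field_simp
    rw [e] at h7
    calc _ ≤ w P * (2 * π * (√(X / b) * (P : ℝ) ^ (-(1 / 2) : ℝ))) :=
          mul_le_mul_of_nonneg_left h7 (hw.nonneg P)
      _ = _ := by ring
  have h8 := hph w X₁ Λ (1 / 2) X S' hw (by norm_num) (by norm_num) hX hS'sub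
    fun P hP => (Finset.mem_filter.1 hP).2
  have e1 : X ^ (1 - 1 / 2 : ℝ) = √X := by rw [Real.sqrt_eq_rpow]; norm_num
  rw [e1] at h8
  have hsb : 0 < √b := Real.sqrt_pos.2 hb
  have e2 : √(X / b) * √X = X / √b := by
    rw [Real.sqrt_div hX.le, div_mul_eq_mul_div, Real.mul_self_sqrt hX.le]
  have e3 : b ^ (-3 / 2 : ℝ) = (b * √b)⁻¹ := by
    rw [Real.sqrt_eq_rpow, ← Real.rpow_one_add' hb.le (by norm_num), ← Real.rpow_neg hb.le]
    norm_num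
  calc _ ≤ T⁻¹ * (K * Λ * X) * (2 * π * √(X / b) * (K * Λ * √X)) := by
        refine mul_le_mul_of_nonneg_left (h6.trans ?_) (by positivity)
        exact mul_le_mul_of_nonneg_left h8 (by positivity)
    _ = 2 * π * K ^ 2 * Λ ^ 2 * (T⁻¹ * X * (√(X / b) * √X)) := by ring
    _ = _ := by
        have hT2 : T = b * X ^ 2 / 2 := by linarith
        rw [e2, e3, hT2]
        field_simp
        ring

end

end Pool.Agent.MP_9f080f_an

namespace Pool.Agent.MP_9f080f_an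
open Complex MeasureTheory Set Filter Topology Metric
open scoped Real

noncomputable section

lemma apd_term {a c k u v : ℝ} (ha : 0 ≤ a) (hac : a ≤ c) (hk : 0 ≤ k) (huv : u ≤ v) :
    IntervalIntegrable ((Ioc a c).indicator fun y : ℝ => y * k) volume u v ∧
      ∫ y in u..v, (Ioc a c).indicator (fun y : ℝ => y * k) y ≤ c * (c - a) * k := by
  have hi : Integrable ((Ioc a c).indicator fun y : ℝ => y * k) volume :=
    (Continuous.integrableOn_Ioc (by fun_prop)).integrable_indicator measurableSet_Ioc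
  refine ⟨hi.intervalIntegrable, ?_⟩
  rw [intervalIntegral.integral_of_le huv]
  refine (setIntegral_le_integral hi (Eventually.of_forall fun y => ?_)).trans ?_
  · exact indicator_nonneg (fun y hy => mul_nonneg (ha.trans hy.1.le) hk) y
  · rw [integral_indicator measurableSet_Ioc, ← intervalIntegral.integral_of_le hac,
      intervalIntegral.integral_mul_const, integral_id]
    exact mul_le_mul_of_nonneg_right (by nlinarith [sq_nonneg (c - a)]) hk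

lemma apd_mem {Z y : ℝ} (hZ : 0 < Z) (hy : 0 < y) {X : ℕ} (hX : 1 ≤ X) :
    y ∈ Ioc (Z / (X + 1)) (Z / X) ↔ ⌊Z / y⌋₊ = X := by
  have h0 : (0 : ℝ) < X := by exact_mod_cast hX
  rw [Nat.floor_eq_iff (by positivity), mem_Ioc, div_lt_iff₀ (by positivity), le_div_iff₀ h0,
    le_div_iff₀ hy, div_lt_iff₀ hy, mul_comm y, mul_comm y, and_comm]

open Classical in
theorem main_int (S : Finset ℕ) (z : ℕ → ℂ) {T b Y₀ : ℝ} {N : ℕ} (hS : ∀ P ∈ S, 1 ≤ P) (hT : 0 < T)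
    (hb : 0 < b) (hY : 3 / 2 ≤ Y₀) (hN : 4 * T ≤ 9 * b * N ^ 2) :
    IntervalIntegrable (fun y : ℝ => y * (T⁻¹ *
      ‖∑ P ∈ S.filter (fun P : ℕ => b * y ^ 2 * (P : ℝ) ^ 2 ≤ T), z P‖ ^ 2)) volume (3 / 2) Y₀ ∧
    ∫ y in (3 / 2 : ℝ)..Y₀, y * (T⁻¹ * ‖∑ P ∈ S.filter (fun P : ℕ => b * y ^ 2 * (P : ℝ) ^ 2 ≤ T), z P‖ ^ 2) ≤
      b⁻¹ * ∑ X ∈ (Finset.Icc 1 N).filter (fun X : ℕ => 9 * (X : ℝ) ^ 2 * b ≤ 4 * T),
        ‖∑ P ∈ S.filter (· ≤ X), z P‖ ^ 2 / (X : ℝ) ^ 3 := by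
  obtain ⟨Z, hZ, hZ2⟩ : ∃ Z : ℝ, 0 < Z ∧ T = b * Z ^ 2 :=
    ⟨√(T / b), by positivity, by rw [Real.sq_sqrt (by positivity)]; field_simp⟩
  set A : ℕ → ℝ := fun X => ‖∑ P ∈ S.filter (· ≤ X), z P‖ ^ 2 with hA
  set F := (Finset.Icc 1 N).filter (fun X : ℕ => 9 * (X : ℝ) ^ 2 * b ≤ 4 * T) with hF
  have hA0 : ∀ X, 0 ≤ A X := fun X => sq_nonneg _
  have hsq : ∀ {u v : ℝ}, 0 ≤ u → 0 ≤ v → (b * u ^ 2 ≤ b * v ^ 2 ↔ u ≤ v) := fun hu hv => by
    rw [mul_le_mul_iff_right₀ hb, sq_le_sq₀ hu hv]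
  have key : EqOn (fun y : ℝ => y * (T⁻¹ *
      ‖∑ P ∈ S.filter (fun P : ℕ => b * y ^ 2 * (P : ℝ) ^ 2 ≤ T), z P‖ ^ 2))
      (fun y => ∑ X ∈ F, (Ioc (Z / (X + 1)) (Z / X)).indicator (fun y : ℝ => y * (T⁻¹ * A X)) y)
      (uIcc (3 / 2) Y₀) := by
    intro y hy
    rw [uIcc_of_le hY] at hy
    have hy0 : 0 < y := by linarith [hy.1]
    have e1 : S.filter (fun P : ℕ => b * y ^ 2 * (P : ℝ) ^ 2 ≤ T) = S.filter (· ≤ ⌊Z / y⌋₊) := by
      refine Finset.filter_congr fun P _ => ?_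
      rw [Nat.le_floor_iff (by positivity), le_div_iff₀ hy0, ← hsq (by positivity) hZ.le, hZ2,
        mul_pow, mul_comm ((P : ℝ) ^ 2), mul_assoc]
    show y * (T⁻¹ * _) = ∑ X ∈ F, _
    rw [e1, Finset.sum_eq_single (s := F) ⌊Z / y⌋₊]
    · rcases Nat.eq_zero_or_pos ⌊Z / y⌋₊ with h0 | h0
      · have : S.filter (· ≤ 0) = ∅ :=
          Finset.filter_eq_empty_iff.2 fun P hP => by have := hS P hP; omega
        rw [h0, this, indicator_of_notMem fun h => by simpa using hy0.trans_le h.2]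
        simp
      · rw [indicator_of_mem ((apd_mem hZ hy0 h0).2 rfl)]
    · intro X hX hne
      rw [indicator_of_notMem]
      rw [apd_mem hZ hy0 (Finset.mem_Icc.1 (Finset.mem_filter.1 hX).1).1]
      exact fun e => hne e.symm
    · intro hn
      rcases Nat.eq_zero_or_pos ⌊Z / y⌋₊ with h0 | h0
      · rw [h0, indicator_of_notMem fun h => by simpa using hy0.trans_le h.2]
      · exfalso
        have h1 : (⌊Z / y⌋₊ : ℝ) * y ≤ Z := by
          rw [← le_div_iff₀ hy0]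
          exact Nat.floor_le (by positivity)
        generalize ⌊Z / y⌋₊ = X at hn h0 h1
        have h2 : 3 * (X : ℝ) ≤ 2 * Z := by
          nlinarith [mul_le_mul_of_nonneg_left hy.1 (Nat.cast_nonneg (α := ℝ) X)]
        have h3 := (hsq (by positivity) (by positivity)).2 h2
        have h4 : b * (X : ℝ) ^ 2 ≤ b * (N : ℝ) ^ 2 := by nlinarith
        have h5 := (hsq (by positivity) (by positivity)).1 h4
        exact hn (Finset.mem_filter.2 ⟨Finset.mem_Icc.2 ⟨h0, by exact_mod_cast h5⟩, by nlinarith⟩)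
  have ht : ∀ X ∈ F, _ := fun X (hX : X ∈ F) => apd_term (a := Z / (X + 1)) (c := Z / X)
    (k := T⁻¹ * A X) (by positivity) (by
      have : (0 : ℝ) < X := by exact_mod_cast (Finset.mem_Icc.1 (Finset.mem_filter.1 hX).1).1
      exact div_le_div_of_nonneg_left hZ.le this (by linarith))
    (mul_nonneg (by positivity) (hA0 X)) hY
  constructor
  · refine IntervalIntegrable.congr (fun y hy => (key (uIoc_subset_uIcc hy)).symm) ?_
    have := IntervalIntegrable.sum F fun X hX => (ht X hX).1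
    rwa [Finset.sum_fn] at this
  · rw [intervalIntegral.integral_congr key,
      intervalIntegral.integral_finsetSum fun X hX => (ht X hX).1, Finset.mul_sum]
    refine Finset.sum_le_sum fun X hX => (ht X hX).2.trans ?_
    have h0 : (0 : ℝ) < X := by exact_mod_cast (Finset.mem_Icc.1 (Finset.mem_filter.1 hX).1).1
    have e : Z / X * (Z / X - Z / (X + 1)) * (T⁻¹ * A X) = b⁻¹ * (A X / (X ^ 2 * (X + 1))) := by
      rw [hZ2]
      field_simp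
      ring
    rw [e]
    refine mul_le_mul_of_nonneg_left ?_ (by positivity)
    exact div_le_div_of_nonneg_left (hA0 X) (by positivity) (by nlinarith [sq_nonneg (X : ℝ)])

end

end Pool.Agent.MP_9f080f_an

namespace Pool.Agent.MP_9f080f_an
open Complex MeasureTheory Set Filter Topology Metric
open scoped Real

noncomputable section

lemma ap_pow {m α : ℝ} (hm : 3 / 8 ≤ m) (h0 : 0 ≤ α) (h1 : α ≤ 1) : m ^ (-α) ≤ 3 := by
  calc m ^ (-α) ≤ (3 / 8 : ℝ) ^ (-α) := Real.rpow_le_rpow_of_nonpos (by norm_num) hm (by linarith)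
    _ ≤ (3 / 8 : ℝ) ^ (-1 : ℝ) :=
        Real.rpow_le_rpow_of_exponent_ge (by norm_num) (by norm_num) (by linarith)
    _ ≤ 3 := by rw [Real.rpow_neg_one]; norm_num

/-- the common majorant of the error terms -/
def apE (m y : ℝ) : ℝ := m ^ (-3 / 4 : ℝ) * y ^ (-11 / 8 : ℝ)

lemma ap_E1 {m y : ℝ} (hm : 3 / 8 ≤ m) (hy : 3 / 2 ≤ y) :
    m ^ (-15 / 16 : ℝ) * y ^ (-11 / 8 : ℝ) ≤ 3 * apE m y := by
  have hm0 : 0 < m := by linarith
  have hy0 : 0 < y := by linarith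
  have h1 : m ^ (-15 / 16 : ℝ) = m ^ (-(3 / 16) : ℝ) * m ^ (-3 / 4 : ℝ) := by
    rw [← Real.rpow_add hm0]; norm_num
  have h2 := ap_pow hm (α := 3 / 16) (by norm_num) (by norm_num)
  rw [h1, apE, mul_assoc]
  gcongr

lemma ap_E2 {m y : ℝ} (hm : 3 / 8 ≤ m) (hy : 3 / 2 ≤ y) :
    m⁻¹ * y ^ (-3 / 2 : ℝ) ≤ 3 * apE m y := by
  have hm0 : 0 < m := by linarith
  have hy0 : 0 < y := by linarith
  have h1 : m⁻¹ = m ^ (-(1 / 4) : ℝ) * m ^ (-3 / 4 : ℝ) := by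
    rw [← Real.rpow_add hm0, ← Real.rpow_neg_one]; norm_num
  have h2 := ap_pow hm (α := 1 / 4) (by norm_num) (by norm_num)
  have h3 : y ^ (-3 / 2 : ℝ) ≤ y ^ (-11 / 8 : ℝ) :=
    Real.rpow_le_rpow_of_exponent_le (by linarith) (by norm_num)
  rw [h1, apE, mul_assoc]
  gcongr

lemma ap_E3 {m y : ℝ} (hm : 0 < m) (hy : 0 < y) :
    y * apE m y ^ 2 = m ^ (-3 / 2 : ℝ) * y ^ (-7 / 4 : ℝ) := by
  have h1 : m ^ (-3 / 2 : ℝ) = m ^ (-3 / 4 : ℝ) * m ^ (-3 / 4 : ℝ) := by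
    rw [← Real.rpow_add hm]; norm_num
  have h2 : y ^ (-7 / 4 : ℝ) = y ^ (1 : ℝ) * (y ^ (-11 / 8 : ℝ) * y ^ (-11 / 8 : ℝ)) := by
    rw [← Real.rpow_add hy, ← Real.rpow_add hy]; norm_num
  rw [h1, h2, Real.rpow_one, apE]
  ring

lemma ap_int {Y₀ : ℝ} (hY : 3 / 2 ≤ Y₀) :
    IntervalIntegrable (fun y : ℝ => y ^ (-7 / 4 : ℝ)) volume (3 / 2) Y₀ ∧
      ∫ y in (3 / 2 : ℝ)..Y₀, y ^ (-7 / 4 : ℝ) ≤ 2 := by
  have h0 : (0 : ℝ) ∉ uIcc (3 / 2 : ℝ) Y₀ := by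
    rw [uIcc_of_le hY]
    exact fun h => by linarith [h.1]
  refine ⟨intervalIntegral.intervalIntegrable_rpow (Or.inr h0), ?_⟩
  rw [integral_rpow (Or.inr ⟨by norm_num, h0⟩), div_le_iff_of_neg (by norm_num)]
  have h1 : 0 ≤ Y₀ ^ (-7 / 4 + 1 : ℝ) := Real.rpow_nonneg (by linarith) _
  have h2 : (3 / 2 : ℝ) ^ (-7 / 4 + 1 : ℝ) ≤ 1 :=
    Real.rpow_le_one_of_one_le_of_nonpos (by norm_num) (by norm_num)
  linarith

lemma ap_cont (S : Finset ℕ) (c : ℕ → ℂ) (T μ : ℝ) {Y₀ Y : ℝ} (h0 : 3 / 2 ≤ Y₀) (hY : Y₀ ≤ Y) :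
    ContinuousOn (fun y => aa S c T μ y Y) (Icc (3 / 2) Y₀) := by
  unfold aa
  refine continuousOn_finsetSum _ fun P _ => ContinuousOn.mul continuousOn_const ?_
  have h1 : (3 / 2 : ℝ) ≤ Y := h0.trans hY
  have h2 := shosc_int (T / P ^ 2) μ (a := 3 / 2) (by norm_num) h1
  rw [intervalIntegrable_iff_integrableOn_Icc_of_le h1, ← uIcc_of_le h1] at h2
  refine (intervalIntegral.continuousOn_primitive_interval_left h2).mono ?_
  rw [uIcc_of_le h1]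
  exact Icc_subset_Icc_right hY

lemma ap_split (S : Finset ℕ) (c : ℕ → ℂ) (T μ y Y : ℝ) (p q : ℕ → Prop) [DecidablePred p]
    [DecidablePred q] (h : ∀ P, q P ↔ ¬p P) :
    aa S c T μ y Y = aa (S.filter p) c T μ y Y + aa (S.filter q) c T μ y Y := by
  unfold aa
  rw [Finset.filter_congr fun P _ => h P, Finset.sum_filter_add_sum_filter_not]

lemma ap_arm (S : Finset ℕ) (c : ℕ → ℂ) (T μ : ℝ) (N : ℕ) : 0 ≤ Arm S c T μ N := by
  unfold Arm
  split_ifs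
  · positivity
  · exact le_rfl

lemma ap_sq {x a b c : ℝ} (hx : 0 ≤ x) (h : x ≤ a + b + c) :
    x ^ 2 ≤ 3 * a ^ 2 + 3 * b ^ 2 + 3 * c ^ 2 := by
  have h1 : x ^ 2 ≤ (a + b + c) ^ 2 := by gcongr
  nlinarith [sq_nonneg (a - b), sq_nonneg (a - c), sq_nonneg (b - c)]

theorem freq : ∃ K : ℝ, 0 < K ∧ ∀ (S : Finset ℕ) (c : ℕ → ℂ) (w : ℕ → ℝ) (X₁ N : ℕ) (Λ T μ Y₀ Y : ℝ),
    PH1 w X₁ Λ → S ⊆ Finset.Icc 1 X₁ → (∀ P ∈ S, (P : ℝ) ^ 2 ≤ T ∧ ‖c P‖ ≤ w P) → 0 < T → T ≤ N ^ 2 →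
    3 / 8 ≤ |μ| → 3 / 2 ≤ Y₀ → Y₀ ≤ Y → 6 * T ≤ Y ^ 2 →
    ContinuousOn (fun y => aa S c T μ y Y) (Icc (3 / 2) Y₀) ∧
    ∫ y in (3 / 2 : ℝ)..Y₀, y * ‖aa S c T μ y Y‖ ^ 2 ≤ K * (Λ ^ 2 * |μ| ^ (-3 / 2 : ℝ) + Arm S c T μ N) := by
  classical
  obtain ⟨K₁, hK₁, h₁⟩ := freq_far
  obtain ⟨K₂, hK₂, h₂⟩ := freq_pos
  obtain ⟨F, K₃, hK₃, h₃⟩ := freq_neg
  obtain ⟨K₄, hK₄, h₄⟩ := near_int
  refine ⟨54 * (K₁ + K₂ + K₃) ^ 2 + 3 * K₃ ^ 2 * K₄ + 3 * ‖F‖ ^ 2, by positivity, ?_⟩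
  intro S c w X₁ N Λ T μ Y₀ Y hw hS hc hT hTN hμ hY₀ hY hTY
  have hcont := ap_cont S c T μ hY₀ hY
  refine ⟨hcont, ?_⟩
  have hΛ := hw.lam
  have hm0 : 0 < |μ| := by linarith
  have hμ0 : μ ≠ 0 := abs_pos.1 hm0
  have hi : IntervalIntegrable (fun y => y * ‖aa S c T μ y Y‖ ^ 2) volume (3 / 2) Y₀ := by
    refine ContinuousOn.intervalIntegrable ?_
    rw [uIcc_of_le hY₀]
    exact continuousOn_id.mul (hcont.norm.pow 2)
  obtain ⟨iE, hE⟩ := ap_int hY₀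
  have hA := ap_arm S c T μ N
  have hp : 0 ≤ Λ ^ 2 * |μ| ^ (-3 / 2 : ℝ) := by positivity
  have hfar : ∀ y ∈ Icc (3 / 2 : ℝ) Y₀,
      ‖aa (S.filter fun P : ℕ => T ≤ |μ| * y ^ 2 * (P : ℝ) ^ 2) c T μ y Y‖ ≤
        K₁ * Λ * (3 * apE |μ| y) := fun y hy =>
    (h₁ S c w X₁ Λ T μ y Y hw hS hc hμ0 (by linarith [hy.1]) (hy.2.trans hY)).trans
      (mul_le_mul_of_nonneg_left (ap_E1 hμ hy.1) (by positivity))
  have hEp : ∀ y ∈ Icc (3 / 2 : ℝ) Y₀, 0 ≤ apE |μ| y := fun y hy => by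
    have : 0 < y := by linarith [hy.1]
    unfold apE
    positivity
  have hE2 : ∫ y in (3 / 2 : ℝ)..Y₀, 27 * (K₁ + K₂ + K₃) ^ 2 * (Λ ^ 2 * |μ| ^ (-3 / 2 : ℝ)) *
      y ^ (-7 / 4 : ℝ) ≤ 54 * (K₁ + K₂ + K₃) ^ 2 * (Λ ^ 2 * |μ| ^ (-3 / 2 : ℝ)) := by
    rw [intervalIntegral.integral_const_mul]
    calc _ ≤ 27 * (K₁ + K₂ + K₃) ^ 2 * (Λ ^ 2 * |μ| ^ (-3 / 2 : ℝ)) * 2 := by gcongr
      _ = _ := by ring
  have hE3 : ∀ y ∈ Icc (3 / 2 : ℝ) Y₀, y * (3 * ((K₁ + K₂ + K₃) * Λ * (3 * apE |μ| y)) ^ 2) =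
      27 * (K₁ + K₂ + K₃) ^ 2 * (Λ ^ 2 * |μ| ^ (-3 / 2 : ℝ)) * y ^ (-7 / 4 : ℝ) := fun y hy => by
    have h5 := ap_E3 hm0 (show 0 < y by linarith [hy.1])
    calc _ = 27 * (K₁ + K₂ + K₃) ^ 2 * Λ ^ 2 * (y * apE |μ| y ^ 2) := by ring
      _ = _ := by rw [h5]; ring
  rcases hμ0.lt_or_gt with hneg | hpos
  · have hb : 0 < 2 * |μ| := by positivity
    have hμb : -(2 * |μ|) / 2 = μ := by rw [abs_of_neg hneg]; ring
    obtain ⟨i4, b4⟩ := h₄ S w X₁ Λ T (2 * |μ|) Y₀ hw hS hT hb hY₀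
    obtain ⟨i5, b5⟩ := main_int S (fun P => c P * ep ((2 * √(2 * |μ| * T) / P : ℝ) : ℂ))
      (T := T) (b := 2 * |μ|) (Y₀ := Y₀) (N := N) (fun P hP => (Finset.mem_Icc.1 (hS hP)).1) hT hb
      hY₀ (by nlinarith)
    have b6 : (2 * |μ|) ^ (-3 / 2 : ℝ) ≤ |μ| ^ (-3 / 2 : ℝ) :=
      Real.rpow_le_rpow_of_nonpos hm0 (by linarith) (by norm_num)
    have b7 : (2 * |μ|)⁻¹ ≤ |μ|⁻¹ := inv_anti₀ hm0 (by linarith)
    have b8 : (2 * |μ|)⁻¹ * ∑ X ∈ (Finset.Icc 1 N).filter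
        (fun X : ℕ => 9 * (X : ℝ) ^ 2 * (2 * |μ|) ≤ 4 * T),
        ‖∑ P ∈ S.filter (· ≤ X), c P * ep ((2 * √(2 * |μ| * T) / P : ℝ) : ℂ)‖ ^ 2 / (X : ℝ) ^ 3 ≤
        Arm S c T μ N := by
      unfold Arm
      rw [if_pos hneg, Finset.filter_congr
        (q := fun X : ℕ => 9 * (X : ℝ) ^ 2 * |μ| ≤ 2 * T) fun X _ => by
          constructor <;> intro h <;> linarith]
      exact mul_le_mul_of_nonneg_right b7 (by positivity)
    have key := intervalIntegral.integral_mono_on hY₀ hi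
      (((iE.const_mul (27 * (K₁ + K₂ + K₃) ^ 2 * (Λ ^ 2 * |μ| ^ (-3 / 2 : ℝ)))).add
        (i4.const_mul (3 * K₃ ^ 2))).add (i5.const_mul (3 * ‖F‖ ^ 2))) fun y hy => by
        have hy0 : 0 < y := by linarith [hy.1]
        have h5 := h₃ S c w X₁ Λ T (2 * |μ|) y Y hw hS (fun P hP => (hc P hP).2) hT hb hy0
          (hy.2.trans hY) (by nlinarith)
        rw [hμb] at h5
        have h6 := ap_split S c T μ y Y (fun P : ℕ => T ≤ |μ| * y ^ 2 * (P : ℝ) ^ 2)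
          (fun P : ℕ => 2 * |μ| * y ^ 2 * (P : ℝ) ^ 2 < 2 * T) fun P => by
            rw [not_le]
            constructor <;> intro h <;> linarith
        have h7 := hfar y hy
        have h8 : K₃ * Λ * ((2 * |μ|)⁻¹ * y ^ (-3 / 2 : ℝ)) ≤ K₃ * Λ * (3 * apE |μ| y) := by
          refine mul_le_mul_of_nonneg_left (le_trans ?_ (ap_E2 hμ hy.1)) (by positivity)
          gcongr
        have h9 : 0 ≤ K₂ * Λ * (3 * apE |μ| y) := by
          have := hEp y hy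
          positivity
        set M := ∑ P ∈ S.filter (fun P : ℕ => 2 * |μ| * y ^ 2 * (P : ℝ) ^ 2 ≤ T),
          c P * ep ((2 * √(2 * |μ| * T) / P : ℝ) : ℂ)
        set n := (√T)⁻¹ * ∑ P ∈ S.filter (fun P : ℕ => 2 * |μ| * y ^ 2 * (P : ℝ) ^ 2 < 2 * T),
          w P / (1 + |UU (T / P ^ 2) (2 * |μ|) y|)
        have h10 : ‖F * ((√T)⁻¹ : ℝ) * M‖ ^ 2 = ‖F‖ ^ 2 * (T⁻¹ * ‖M‖ ^ 2) := by
          rw [norm_mul, norm_mul, Complex.norm_real, Real.norm_of_nonneg (by positivity), mul_pow,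
            mul_pow, inv_pow, Real.sq_sqrt hT.le, mul_assoc]
        have h11 : ‖aa S c T μ y Y‖ ≤ (K₁ + K₂ + K₃) * Λ * (3 * apE |μ| y) + K₃ * n +
            ‖F * ((√T)⁻¹ : ℝ) * M‖ := by
          rw [h6]
          refine (norm_add_le _ _).trans ?_
          have h12 := norm_le_norm_sub_add
            (aa (S.filter fun P : ℕ => 2 * |μ| * y ^ 2 * (P : ℝ) ^ 2 < 2 * T) c T μ y Y)
            (F * ((√T)⁻¹ : ℝ) * M)
          linarith
        have h12 := mul_le_mul_of_nonneg_left (ap_sq (norm_nonneg _) h11) hy0.le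
        rw [h10, mul_add, mul_add, hE3 y hy] at h12
        linarith
    rw [intervalIntegral.integral_add ((iE.const_mul _).add (i4.const_mul _)) (i5.const_mul _),
      intervalIntegral.integral_add (iE.const_mul _) (i4.const_mul _),
      intervalIntegral.integral_const_mul (3 * K₃ ^ 2),
      intervalIntegral.integral_const_mul (3 * ‖F‖ ^ 2)] at key
    have b9 := mul_le_mul_of_nonneg_left (b4.trans
      (mul_le_mul_of_nonneg_left b6 (by positivity))) (show 0 ≤ 3 * K₃ ^ 2 by positivity)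
    have b10 := mul_le_mul_of_nonneg_left (b5.trans b8) (show 0 ≤ 3 * ‖F‖ ^ 2 by positivity)
    have b11 : 0 ≤ (54 * (K₁ + K₂ + K₃) ^ 2 + 3 * K₃ ^ 2 * K₄) * Arm S c T μ N := by positivity
    have b12 : 0 ≤ 3 * ‖F‖ ^ 2 * (Λ ^ 2 * |μ| ^ (-3 / 2 : ℝ)) := by positivity
    linarith
  · have key := intervalIntegral.integral_mono_on hY₀ hi
      (iE.const_mul (27 * (K₁ + K₂ + K₃) ^ 2 * (Λ ^ 2 * |μ| ^ (-3 / 2 : ℝ)))) fun y hy => by
        have hy0 : 0 < y := by linarith [hy.1]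
        have h5 := h₂ S c w X₁ Λ T μ y Y hw hS (fun P hP => (hc P hP).2) hpos hy0 (hy.2.trans hY)
        have h6 := ap_split S c T μ y Y (fun P : ℕ => T ≤ |μ| * y ^ 2 * (P : ℝ) ^ 2)
          (fun P : ℕ => μ * y ^ 2 * (P : ℝ) ^ 2 < T) fun P => by rw [not_le, abs_of_pos hpos]
        have h7 := hfar y hy
        have h8 : K₂ * Λ * (μ⁻¹ * y ^ (-3 / 2 : ℝ)) ≤ K₂ * Λ * (3 * apE |μ| y) := by
          refine mul_le_mul_of_nonneg_left (le_trans ?_ (ap_E2 hμ hy.1)) (by positivity)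
          rw [abs_of_pos hpos]
        have h9 : 0 ≤ K₃ * Λ * (3 * apE |μ| y) := by
          have := hEp y hy
          positivity
        have h11 : ‖aa S c T μ y Y‖ ≤ (K₁ + K₂ + K₃) * Λ * (3 * apE |μ| y) + 0 + 0 := by
          rw [h6]
          refine (norm_add_le _ _).trans ?_
          linarith
        have h12 := mul_le_mul_of_nonneg_left (ap_sq (norm_nonneg _) h11) hy0.le
        rw [mul_add, mul_add, hE3 y hy] at h12
        linarith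
    have b11 : 0 ≤ (54 * (K₁ + K₂ + K₃) ^ 2 + 3 * K₃ ^ 2 * K₄ + 3 * ‖F‖ ^ 2) * Arm S c T μ N := by
      positivity
    have b12 : 0 ≤ (3 * K₃ ^ 2 * K₄ + 3 * ‖F‖ ^ 2) * (Λ ^ 2 * |μ| ^ (-3 / 2 : ℝ)) := by positivity
    linarith

end

end Pool.Agent.MP_9f080f_an
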