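import Pool.Agent.MP_9f080f_an.Mg.G_AB
import Pool.Agent.MP_9f080f_an.Mg.G_AE
import Pool.Agent.MP_9f080f_an.Mg.G_AP

-- part MP_9f080f_an.G.AN1
section

namespace Pool.Agent.MP_9f080f_an
open Complex MeasureTheory Set Filter Topology Metric
open scoped Real

noncomputable section

/-! The fans of cusps.
`avg_int`: copy the proof of `avg_le`, keeping the integral over `y`.
`fan2_cont`: each `tsum` is a fixed finite sum (`tsum_eq_sum`, `shpars_mem`); compare `shfan_cont`.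
`fan_split`: all sums are finite.  With `v = l/P`, `t = s + v`, `χ = ps (t/Y)`: `r w = r [t < 2Y] - r (1 - w) χ - r ([t < 2Y] - χ)` because `w χ = w` (`ps_one`, `ps_zero`); `∫ ω u * cut H (s+u) (2Y) t du = r v [t < 2Y] kk H t`
(`comb_eq_sum`, reindex `q = -l`); the last part lives on `Y ≤ t < 2Y`: at most `P Y + 1 ≤ 2 P Y` terms of size `≤ M Y^(-3/2)` (`kb_norm_kk`).
`tailA_pt`: `pv2A_neg`.  Let `m = max (s+1) (H/4)`.  The function vanishes near `v` if `v < 1`, `(2v+1)/H < 1/2` with `v > 0`, or `s + v > 2Y`; otherwise `t = s + v ≥ m`.  For `v ≤ 2H` take `δ = H/10` (if `v ≤ 2` then `H ≤ 10`, so `δ ≤ 1`;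
if `v > 2` then `rA2 = 1` near `v`), for `v > 2H` take `δ = t/2` (`rA2 = 1`, `wA = 0` near `v`).  `φ v = K (indicator (Icc 0 (2H)) (H^(-2) m^(-3/2)) + indicator (Ici (2H)) ((s+v)^(-7/2)))`, and
`H^(-1) s^(-3/2)`, `(s + 2H)^(-5/2) ≲ H^(-1/4) s^(-5/4)`.
`tailB_pt`: `pv2B_neg`.  The function vanishes near `v` unless `3/4 ≤ v`, `H ≤ 4v² - 1`, `s + v ≤ 2Y`; then `t ≥ v/3 ≥ max (1/4) (√H/6)`.  Use `δ = 1/8` and `J2.scale`; if `4v² - 1 > 2H` then `wB = 0` near `v`, otherwise `4v/H ≤ 6`.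
`φ v = K indicator (Ici (√H/2)) (v^(-3/2))`.
`tails`: sum with `P^(-3/2) √P (T/P²)^(-1/4) = T^(-1/4)/√P`, `ph_pw2` (`shfan_W`-free: `PH` gives `0 ≤ W`).
`fc_parseval`: `comb_parseval`, `shfan_pow`.  `sum_int`: monotone convergence (`hasSum_integral_of_summable_integral_norm`, `summable_of_sum_le`, or `lintegral_tsum`).
`head_int`: `fc_parseval` with `s₀ = 0`, `freq` for each `m` (`‖fc‖ ≤ W P m` by `TwW.four`, `3/8 ≤ |m + 3/8|`), `∑ |m + 3/8|^(-3/2)` converges, `sum_int`.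
`fanA2`: `kb_Ioi`, `fan2_cont`.  Given `N`, choose `M` bounding all `e P a` (`shpars_per`), and `Y` so large that `Y ≥ N + T + 3`, `Y² ≥ 6 T`, `2 M #S / √Y ≤ 1/(N+3)`.  On the block `[j + 1/2, j + 3/2]` use `fan_split` (`rA2_int`), `avg_int`
(`measurable_comb`, `comb_bdd`); the inner integral does not depend on `s₀` (`fc_parseval`, `HasSum.unique`), `j + 5/2 ≤ 2 y` for `y ≥ j + 3/2`, and each `y` lies in two of the intervals `[j + 3/2, j + 7/2]`; `head_int`, `tails`, `∑ (j + 5/2) (j+1/2)^(-5/2)` converges.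
`fanB2`: `fan_split` (`rB2_int`), `avg_le`, `comb_L2` with `y₀ = 1/4`, `eb_single`, `tails`, `GoodM.ph`; choose `Y` large. -/

theorem avg_int {F : ℝ → ℝ → ℂ} (hF : Measurable fun p : ℝ × ℝ => F p.1 p.2) {ω : ℝ → ℝ}
    (hω : Measurable ω) {s₀ u₀ u₁ w M : ℝ} (h0 : u₀ ≤ u₁) (h1 : u₁ ≤ u₀ + 1)
    (hw : ∀ u ∈ Icc u₀ u₁, |ω u| ≤ w) (hM : ∀ s y, s₀ + u₀ ≤ y → ‖F s y‖ ≤ M) :
    IntervalIntegrable (fun s => ‖∫ u in u₀..u₁, (ω u : ℂ) * F s (s + u)‖ ^ 2) volume s₀ (s₀ + 1) ∧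
      ∫ s in s₀..s₀ + 1, ‖∫ u in u₀..u₁, (ω u : ℂ) * F s (s + u)‖ ^ 2 ≤
        w ^ 2 * ∫ y in (s₀ + u₀)..(s₀ + 1 + u₁), ∫ s in s₀..s₀ + 1, ‖F s y‖ ^ 2 := by
  have hw0 : 0 ≤ w := (abs_nonneg _).trans (hw u₀ ⟨le_rfl, h0⟩)
  have hM0 : 0 ≤ M := (norm_nonneg _).trans (hM 0 _ le_rfl)
  have hlt : s₀ ≤ s₀ + 1 := by linarith
  have hG : Measurable fun p : ℝ × ℝ => (ω p.2 : ℂ) * F p.1 (p.1 + p.2) :=
    (Complex.measurable_ofReal.comp (hω.comp measurable_snd)).mul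
      (hF.comp (measurable_fst.prodMk (measurable_fst.add measurable_snd)))
  have hsm : StronglyMeasurable fun s => ∫ u in u₀..u₁, (ω u : ℂ) * F s (s + u) := by
    simp only [intervalIntegral.integral_of_le h0]
    exact StronglyMeasurable.integral_prod_right (f := fun s u => (ω u : ℂ) * F s (s + u))
      hG.stronglyMeasurable
  have hpt : ∀ s ∈ Icc s₀ (s₀ + 1), ∀ u ∈ Icc u₀ u₁, ‖F s (s + u)‖ ≤ M := fun s hs u hu =>
    hM s _ (add_le_add hs.1 hu.1)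
  have hsq : ∀ s y, s₀ + u₀ ≤ y → ‖‖F s y‖ ^ 2‖ ≤ M ^ 2 := fun s y hy => by
    rw [norm_pow, norm_norm]
    exact pow_le_pow_left₀ (norm_nonneg _) (hM s y hy) 2
  have hFs : ∀ s, Measurable fun y => F s y := fun s =>
    hF.comp (measurable_const.prodMk measurable_id)
  have hab : s₀ + u₀ ≤ s₀ + 1 + u₁ := by linarith
  have hiy : ∀ s, IntervalIntegrable (fun y => ‖F s y‖ ^ 2) volume (s₀ + u₀) (s₀ + 1 + u₁) :=
    fun s => shpars_ii hab ((hFs s).norm.pow_const 2).aestronglyMeasurable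
      fun y hy => hsq s y hy.1
  have key : ∀ s ∈ Icc s₀ (s₀ + 1), ‖∫ u in u₀..u₁, (ω u : ℂ) * F s (s + u)‖ ^ 2 ≤
      w ^ 2 * ∫ y in s₀ + u₀..s₀ + 1 + u₁, ‖F s y‖ ^ 2 := by
    intro s hs
    have hm : Measurable fun u => ‖F s (s + u)‖ :=
      ((hFs s).comp (measurable_const.add measurable_id)).norm
    have i1 : IntervalIntegrable (fun u => ‖F s (s + u)‖) volume u₀ u₁ :=
      shpars_ii h0 hm.aestronglyMeasurable fun u hu => by rw [norm_norm]; exact hpt s hs u hu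
    have i2 : IntervalIntegrable (fun u => ‖F s (s + u)‖ ^ 2) volume u₀ u₁ :=
      shpars_ii h0 (hm.pow_const 2).aestronglyMeasurable fun u hu =>
        hsq s _ (add_le_add hs.1 hu.1)
    have e1 : ‖∫ u in u₀..u₁, (ω u : ℂ) * F s (s + u)‖ ≤ w * ∫ u in u₀..u₁, ‖F s (s + u)‖ := by
      rw [← intervalIntegral.integral_const_mul]
      refine intervalIntegral.norm_integral_le_of_norm_le h0
        (Eventually.of_forall fun u hu => ?_) (i1.const_mul w)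
      rw [norm_mul, Complex.norm_real]
      exact mul_le_mul_of_nonneg_right (hw u (Ioc_subset_Icc_self hu)) (norm_nonneg _)
    have e2 := shpars_cs h0 h1 i1 i2
    have e3 : ∫ u in u₀..u₁, ‖F s (s + u)‖ ^ 2 ≤ ∫ y in s₀ + u₀..s₀ + 1 + u₁, ‖F s y‖ ^ 2 := by
      rw [intervalIntegral.integral_comp_add_left (fun y => ‖F s y‖ ^ 2)]
      exact intervalIntegral.integral_mono_interval (by linarith [hs.1]) (by linarith)
        (by linarith [hs.2]) (Eventually.of_forall fun _ => sq_nonneg _) (hiy s)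
    calc _ ≤ (w * ∫ u in u₀..u₁, ‖F s (s + u)‖) ^ 2 := pow_le_pow_left₀ (norm_nonneg _) e1 2
      _ = w ^ 2 * (∫ u in u₀..u₁, ‖F s (s + u)‖) ^ 2 := mul_pow _ _ _
      _ ≤ _ := mul_le_mul_of_nonneg_left (e2.trans e3) (sq_nonneg _)
  have hI : IntervalIntegrable (fun s => ‖∫ u in u₀..u₁, (ω u : ℂ) * F s (s + u)‖ ^ 2) volume s₀
      (s₀ + 1) := by
    refine shpars_ii (M := (w * M * |u₁ - u₀|) ^ 2) hlt
      (hsm.norm.measurable.pow_const 2).aestronglyMeasurable fun s hs => ?_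
    rw [norm_pow, norm_norm]
    refine pow_le_pow_left₀ (norm_nonneg _)
      (intervalIntegral.norm_integral_le_of_norm_le_const fun u hu => ?_) 2
    rw [uIoc_of_le h0] at hu
    rw [norm_mul, Complex.norm_real]
    exact mul_le_mul (hw u (Ioc_subset_Icc_self hu)) (hpt s hs u (Ioc_subset_Icc_self hu))
      (norm_nonneg _) hw0
  refine ⟨hI, ?_⟩
  have hprod : IntegrableOn (Function.uncurry fun s y => ‖F s y‖ ^ 2)
      (uIoc s₀ (s₀ + 1) ×ˢ uIoc (s₀ + u₀) (s₀ + 1 + u₁)) := by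
    refine Measure.integrableOn_of_bounded (M := M ^ 2) ?_
      (hF.norm.pow_const 2).aestronglyMeasurable
      (ae_restrict_of_forall_mem (measurableSet_uIoc.prod measurableSet_uIoc) fun q hq => ?_)
    · rw [Measure.volume_eq_prod, Measure.prod_prod, uIoc_of_le hlt, uIoc_of_le hab]
      exact ENNReal.mul_ne_top measure_Ioc_lt_top.ne measure_Ioc_lt_top.ne
    · have := hq.2
      rw [uIoc_of_le hab] at this
      exact hsq _ _ this.1.le
  have hsm2 : StronglyMeasurable fun s => ∫ y in s₀ + u₀..s₀ + 1 + u₁, ‖F s y‖ ^ 2 := by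
    simp only [intervalIntegral.integral_of_le hab]
    exact StronglyMeasurable.integral_prod_right (f := fun s y => ‖F s y‖ ^ 2)
      (hF.norm.pow_const 2).stronglyMeasurable
  have hI2 : IntervalIntegrable (fun s => ∫ y in s₀ + u₀..s₀ + 1 + u₁, ‖F s y‖ ^ 2) volume s₀
      (s₀ + 1) :=
    shpars_ii hlt hsm2.aestronglyMeasurable fun s _ =>
      intervalIntegral.norm_integral_le_of_norm_le_const (C := M ^ 2) fun y hy => by
        rw [uIoc_of_le hab] at hy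
        exact hsq s y hy.1.le
  calc _ ≤ ∫ s in s₀..s₀ + 1, w ^ 2 * ∫ y in s₀ + u₀..s₀ + 1 + u₁, ‖F s y‖ ^ 2 :=
        intervalIntegral.integral_mono_on hlt hI (hI2.const_mul _) key
    _ = w ^ 2 * ∫ y in s₀ + u₀..s₀ + 1 + u₁, ∫ s in s₀..s₀ + 1, ‖F s y‖ ^ 2 := by
        rw [intervalIntegral.integral_const_mul, intervalIntegral_intervalIntegral_swap hprod]

theorem fan2_cont {S : Finset ℕ} (hS : ∀ P ∈ S, 0 < P) (e : ℕ → ℤ → ℂ) (T : ℝ) {a : ℝ → ℝ → ℝ} {u₀ R s : ℝ}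
    (ha : ∀ P ∈ S, ∀ v : ℝ, a (T / P ^ 2) v ≠ 0 → u₀ ≤ v ∧ v ≤ R) (hs : 0 < s + u₀) :
    ContinuousAt (fan2 S e T a) s := by
  have key : fan2 S e T a = fun s => ∑ P ∈ S, ((P : ℝ) ^ (-3 / 2 : ℝ) : ℝ) *
      ∑ l ∈ Finset.Icc ⌊P * u₀⌋ ⌈P * R⌉,
        e P (-l) * (a (T / P ^ 2) (l / P) * kk (T / P ^ 2) (s + l / P)) := by
    funext t
    refine Finset.sum_congr rfl fun P hP => ?_
    rw [tsum_eq_sum fun l hl => ?_]
    have : a (T / P ^ 2) (l / P) = 0 := by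
      by_contra h
      exact hl (shpars_mem (hS P hP) (ha P hP _ h).1 (ha P hP _ h).2)
    simp only [this, Complex.ofReal_zero, zero_mul, mul_zero]
  rw [key]
  refine tendsto_finsetSum _ fun P hP => (continuousAt_const.mul ?_).tendsto
  refine tendsto_finsetSum _ fun l _ => ?_
  by_cases h : a (T / P ^ 2) (l / P) = 0
  · simp only [h, Complex.ofReal_zero, zero_mul]
    exact tendsto_const_nhds
  · exact (continuousAt_const.mul (continuousAt_const.mul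
      (kb_cont_add _ (by linarith [(ha P hP _ h).1])))).tendsto

end

end Pool.Agent.MP_9f080f_an

namespace Pool.Agent.MP_9f080f_an
open Complex MeasureTheory Set Filter Topology Metric
open scoped Real

noncomputable section

lemma anb_ii {ω : ℝ → ℝ} (hω : Continuous ω) (u₀ u₁ v : ℝ) :
    IntervalIntegrable (fun u => if u ≤ v then ω u else 0) volume u₀ u₁ := by
  have h := hω.intervalIntegrable (μ := volume) u₀ u₁
  have e1 : (fun u => if u ≤ v then ω u else 0) = (Iic v).indicator ω := by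
    funext u
    rw [Set.indicator_apply]
    rfl
  rw [e1]
  exact ⟨h.1.indicator measurableSet_Iic, h.2.indicator measurableSet_Iic⟩

lemma anb_cut (ω : ℝ → ℝ) (H Y s v u : ℝ) :
    (ω u : ℂ) * cut H (s + u) Y (s + v) =
      ((if u ≤ v then ω u else 0 : ℝ) : ℂ) * (if s + v < Y then kk H (s + v) else 0) := by
  unfold cut
  by_cases h1 : u ≤ v <;> by_cases h2 : s + v < Y <;> simp [h1, h2]

lemma anb_comb (e : ℤ → ℂ) {P : ℕ} (hP : 0 < P) (H : ℝ) {Y s u₀ u : ℝ} (hu : u₀ ≤ u) :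
    comb e P H (s + u) Y s = ∑ l ∈ Finset.Icc ⌊P * u₀⌋ ⌈P * (Y - s)⌉,
      e (-l) * cut H (s + u) Y (s + l / P) := by
  unfold comb
  rw [← (Equiv.neg ℤ).tsum_eq]
  have e1 : ∀ l : ℤ, s - ((-l : ℤ) : ℝ) / P = s + l / P := fun l => by push_cast; ring
  simp only [Equiv.neg_apply, e1]
  refine tsum_eq_sum fun l hl => ?_
  rw [cut, if_neg fun h => hl (shpars_mem hP (by linarith [h.1]) (by linarith [h.2])), mul_zero]

lemma anb_int (e : ℤ → ℂ) {P : ℕ} (hP : 0 < P) (H : ℝ) {Y s u₀ u₁ : ℝ} {r ω : ℝ → ℝ} (hu : u₀ ≤ u₁)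
    (hω : Continuous ω) (hr : ∀ v, r v = ∫ u in u₀..u₁, (if u ≤ v then ω u else 0)) :
    IntervalIntegrable (fun u => (ω u : ℂ) * comb e P H (s + u) Y s) volume u₀ u₁ ∧
    ∫ u in u₀..u₁, (ω u : ℂ) * comb e P H (s + u) Y s =
      ∑ l ∈ Finset.Icc ⌊P * u₀⌋ ⌈P * (Y - s)⌉,
        e (-l) * (r (l / P) * (if s + l / P < Y then kk H (s + l / P) else 0)) := by
  have hE : EqOn (fun u => (ω u : ℂ) * comb e P H (s + u) Y s)
      (fun u => ∑ l ∈ Finset.Icc ⌊P * u₀⌋ ⌈P * (Y - s)⌉, e (-l) *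
        (((if u ≤ (l : ℝ) / P then ω u else 0 : ℝ) : ℂ) *
          (if s + l / P < Y then kk H (s + l / P) else 0))) (uIcc u₀ u₁) := by
    intro u hu'
    rw [uIcc_of_le hu] at hu'
    simp only
    rw [anb_comb e hP H hu'.1, Finset.mul_sum]
    refine Finset.sum_congr rfl fun l _ => ?_
    rw [← anb_cut]
    ring
  have hI : ∀ l : ℤ, IntervalIntegrable (fun u => e (-l) *
        (((if u ≤ (l : ℝ) / P then ω u else 0 : ℝ) : ℂ) *
          (if s + l / P < Y then kk H (s + l / P) else 0))) volume u₀ u₁ := fun l =>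
    (IntervalIntegrable.mul_const (f := fun u => ((if u ≤ (l : ℝ) / P then ω u else 0 : ℝ) : ℂ))
      ⟨(anb_ii hω u₀ u₁ (l / P)).1.ofReal, (anb_ii hω u₀ u₁ (l / P)).2.ofReal⟩ _).const_mul _
  refine ⟨?_, ?_⟩
  · refine IntervalIntegrable.congr (hE.mono uIoc_subset_uIcc).symm ?_
    have := IntervalIntegrable.sum (Finset.Icc ⌊P * u₀⌋ ⌈P * (Y - s)⌉) fun l _ => hI l
    rwa [Finset.sum_fn] at this
  · rw [intervalIntegral.integral_congr hE, intervalIntegral.integral_finsetSum fun l _ => hI l]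
    refine Finset.sum_congr rfl fun l _ => ?_
    rw [intervalIntegral.integral_const_mul, intervalIntegral.integral_mul_const,
      intervalIntegral.integral_ofReal, ← hr]

lemma anb_one {e : ℤ → ℂ} {P : ℕ} (hP : 0 < P) (H : ℝ) {M Y s u₀ u₁ : ℝ} {r ω w : ℝ → ℝ}
    (hM : ∀ a, ‖e a‖ ≤ M) (hY : 1 ≤ Y) (hu : u₀ ≤ u₁)
    (hω : Continuous ω) (hr : ∀ v, r v = ∫ u in u₀..u₁, (if u ≤ v then ω u else 0))
    (hr0 : ∀ v < u₀, r v = 0) (hr1 : ∀ v, |r v| ≤ 1)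
    (hw : ∀ v, u₀ ≤ v → w v ≠ 0 → s + v ≤ Y) :
    ‖(∑' l : ℤ, e (-l) * (((r (l / P) * w (l / P) : ℝ) : ℂ) * kk H (s + l / P))) -
      ((∫ u in u₀..u₁, (ω u : ℂ) * comb e P H (s + u) (2 * Y) s) -
        ∑' l : ℤ, e (-l) * (((r (l / P) * (1 - w (l / P)) * ps ((s + l / P) / Y) : ℝ) : ℂ) *
          kk H (s + l / P)))‖ ≤ (P * Y + 1) * (M * Y ^ (-3 / 2 : ℝ)) := by
  classical
  have hP0 : (0 : ℝ) < P := by exact_mod_cast hP
  have hY0 : 0 < Y := by linarith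
  have hM0 : 0 ≤ M := (norm_nonneg _).trans (hM 0)
  set L := Finset.Icc ⌊P * u₀⌋ ⌈P * (2 * Y - s)⌉ with hL
  have hout : ∀ l : ℤ, l ∉ L → (l : ℝ) / P < u₀ ∨ (u₀ ≤ (l : ℝ) / P ∧ 2 * Y < s + l / P) := by
    intro l hl
    by_contra hc
    push Not at hc
    exact hl (shpars_mem hP hc.1 (by linarith [hc.2 hc.1]))
  have h1 : (∑' l : ℤ, e (-l) * (((r (l / P) * w (l / P) : ℝ) : ℂ) * kk H (s + l / P))) =
      ∑ l ∈ L, e (-l) * (((r (l / P) * w (l / P) : ℝ) : ℂ) * kk H (s + l / P)) := by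
    refine tsum_eq_sum fun l hl => ?_
    rcases hout l hl with h | h
    · simp [hr0 _ h]
    · have : w (l / P) = 0 := by
        by_contra hc
        linarith [hw _ h.1 hc, h.2]
      simp [this]
  have h2 : (∑' l : ℤ, e (-l) * (((r (l / P) * (1 - w (l / P)) * ps ((s + l / P) / Y) : ℝ) : ℂ) *
          kk H (s + l / P))) =
      ∑ l ∈ L, e (-l) * (((r (l / P) * (1 - w (l / P)) * ps ((s + l / P) / Y) : ℝ) : ℂ) *
          kk H (s + l / P)) := by
    refine tsum_eq_sum fun l hl => ?_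
    rcases hout l hl with h | h
    · simp [hr0 _ h]
    · have : ps ((s + l / P) / Y) = 0 := ps_zero (by rw [le_div_iff₀ hY0]; exact h.2.le)
      simp [this]
  rw [h1, h2, (anb_int e hP H hu hω hr).2, ← hL, ← Finset.sum_sub_distrib, ← Finset.sum_sub_distrib]
  set L' := Finset.Ioo ⌊P * (Y - s)⌋ ⌈P * (2 * Y - s)⌉ with hL'
  have hc : 0 ≤ M * Y ^ (-3 / 2 : ℝ) := by positivity
  have key : ∀ l : ℤ, ‖e (-l) * (((r (l / P) * w (l / P) : ℝ) : ℂ) * kk H (s + l / P)) -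
      (e (-l) * (r (l / P) * (if s + l / P < 2 * Y then kk H (s + l / P) else 0)) -
        e (-l) * (((r (l / P) * (1 - w (l / P)) * ps ((s + l / P) / Y) : ℝ) : ℂ) *
          kk H (s + l / P)))‖ ≤ if l ∈ L' then M * Y ^ (-3 / 2 : ℝ) else 0 := by
    intro l
    have hpos : 0 ≤ if l ∈ L' then M * Y ^ (-3 / 2 : ℝ) else 0 := by split_ifs <;> simp [hc]
    by_cases hv : (l : ℝ) / P < u₀
    · simpa [hr0 _ hv] using hpos
    by_cases ht : s + l / P ≤ Y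
    · rw [if_pos (by linarith), ps_one (by rw [div_le_one hY0]; exact ht)]
      refine le_trans (le_of_eq ?_) hpos
      rw [norm_eq_zero]
      push_cast
      ring
    have hw0 : w (l / P) = 0 := by
      by_contra hc
      exact ht (hw _ (not_lt.1 hv) hc)
    by_cases ht2 : s + l / P < 2 * Y
    · have hmem : l ∈ L' := by
        rw [hL', Finset.mem_Ioo, Int.floor_lt, Int.lt_ceil]
        have e1 : (l : ℝ) = P * (l / P) := by field_simp
        constructor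
        · rw [e1]; exact mul_lt_mul_of_pos_left (by linarith) hP0
        · rw [e1]; exact mul_lt_mul_of_pos_left (by linarith) hP0
      rw [if_pos ht2, if_pos hmem, hw0]
      have e2 : e (-l) * (((r (l / P) * 0 : ℝ) : ℂ) * kk H (s + l / P)) -
          (e (-l) * (r (l / P) * kk H (s + l / P)) -
            e (-l) * (((r (l / P) * (1 - 0) * ps ((s + l / P) / Y) : ℝ) : ℂ) * kk H (s + l / P))) =
          e (-l) * (((r (l / P) * (ps ((s + l / P) / Y) - 1) : ℝ) : ℂ) * kk H (s + l / P)) := by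
        push_cast
        ring
      rw [e2, norm_mul, norm_mul, kb_norm_kk H (by linarith), Complex.norm_real, Real.norm_eq_abs,
        abs_mul]
      refine mul_le_mul (hM _) ?_
        (mul_nonneg (by positivity) (Real.rpow_nonneg (by linarith) _)) hM0
      have h3 : |ps ((s + l / P) / Y) - 1| ≤ 1 := by
        have := ps_mem ((s + l / P) / Y)
        rw [abs_le]
        constructor <;> linarith [this.1, this.2]
      have h4 : (s + l / P) ^ (-3 / 2 : ℝ) ≤ Y ^ (-3 / 2 : ℝ) :=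
        Real.rpow_le_rpow_of_nonpos hY0 (by linarith) (by norm_num)
      have h5 : |r (l / P)| * |ps ((s + l / P) / Y) - 1| ≤ 1 :=
        mul_le_one₀ (hr1 _) (abs_nonneg _) h3
      calc _ ≤ 1 * Y ^ (-3 / 2 : ℝ) :=
            mul_le_mul h5 h4 (Real.rpow_nonneg (by linarith) _) zero_le_one
        _ = _ := one_mul _
    · rw [if_neg ht2, ps_zero (by rw [le_div_iff₀ hY0]; exact not_lt.1 ht2), hw0]
      simpa using hpos
  refine (norm_sum_le _ _).trans ((Finset.sum_le_sum fun l _ => key l).trans ?_)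
  rw [Finset.sum_ite_mem, Finset.sum_const, nsmul_eq_mul]
  refine mul_le_mul_of_nonneg_right ?_ hc
  have h3 : ((L ∩ L').card : ℝ) ≤ L'.card := by
    exact_mod_cast Finset.card_le_card Finset.inter_subset_right
  refine h3.trans ?_
  rw [hL', Int.card_Ioo]
  have h0 : (0 : ℝ) ≤ P * Y := by positivity
  rcases le_total 0 (⌈P * (2 * Y - s)⌉ - ⌊P * (Y - s)⌋ - 1) with h | h
  · rw [← Int.cast_natCast, Int.toNat_of_nonneg h]
    push_cast
    have h1 := Int.ceil_lt_add_one (P * (2 * Y - s))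
    have h2 := Int.sub_one_lt_floor (P * (Y - s))
    linarith
  · rw [Int.toNat_eq_zero.2 h]
    push_cast
    linarith

theorem fan_split {S : Finset ℕ} (hS : ∀ P ∈ S, 0 < P) {e : ℕ → ℤ → ℂ} {T M Y s u₀ u₁ : ℝ} {r ω : ℝ → ℝ}
    {w : ℝ → ℝ → ℝ} (hM : ∀ P ∈ S, ∀ a, ‖e P a‖ ≤ M) (hY : 1 ≤ Y) (hs : 0 < s + u₀) (hu : u₀ ≤ u₁)
    (hω : Continuous ω) (hr : ∀ v, r v = ∫ u in u₀..u₁, (if u ≤ v then ω u else 0))
    (hr0 : ∀ v < u₀, r v = 0) (hr1 : ∀ v, |r v| ≤ 1)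
    (hw : ∀ P ∈ S, ∀ v, u₀ ≤ v → w (T / P ^ 2) v ≠ 0 → s + v ≤ Y) :
    ‖fan2 S e T (fun H v => r v * w H v) s - ((∫ u in u₀..u₁, (ω u : ℂ) * Fc S e T (s + u) (2 * Y) s) -
      fan2 S e T (fun H v => r v * (1 - w H v) * ps ((s + v) / Y)) s)‖ ≤ 2 * M * S.card / √Y := by
  have _ := hs
  have hY0 : 0 < Y := by linarith
  have hI : (∫ u in u₀..u₁, (ω u : ℂ) * Fc S e T (s + u) (2 * Y) s) =
      ∑ P ∈ S, (((P : ℝ) ^ (-3 / 2 : ℝ) : ℝ) : ℂ) *
        ∫ u in u₀..u₁, (ω u : ℂ) * comb (e P) P (T / P ^ 2) (s + u) (2 * Y) s := by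
    have e1 : ∀ u, (ω u : ℂ) * Fc S e T (s + u) (2 * Y) s = ∑ P ∈ S,
        (((P : ℝ) ^ (-3 / 2 : ℝ) : ℝ) : ℂ) * ((ω u : ℂ) * comb (e P) P (T / P ^ 2) (s + u) (2 * Y) s) := by
      intro u
      unfold Fc
      rw [Finset.mul_sum]
      exact Finset.sum_congr rfl fun P _ => by ring
    simp only [e1]
    rw [intervalIntegral.integral_finsetSum fun P hP =>
      (anb_int (e P) (hS P hP) _ hu hω hr).1.const_mul _]
    exact Finset.sum_congr rfl fun P _ => intervalIntegral.integral_const_mul _ _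
  rw [hI]
  unfold fan2
  rw [← Finset.sum_sub_distrib, ← Finset.sum_sub_distrib]
  refine (norm_sum_le _ _).trans ((Finset.sum_le_card_nsmul _ _ (2 * M / √Y) fun P hP => ?_).trans
    (le_of_eq ?_))
  · have hP1 : (1 : ℝ) ≤ P := by exact_mod_cast hS P hP
    have hM0 : 0 ≤ M := (norm_nonneg _).trans (hM P hP 0)
    rw [← mul_sub, ← mul_sub, norm_mul, Complex.norm_real,
      Real.norm_of_nonneg (Real.rpow_nonneg (by linarith) _)]
    refine (mul_le_mul_of_nonneg_left (anb_one (hS P hP) (T / P ^ 2) (w := w (T / P ^ 2))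
      (hM P hP) hY hu hω hr hr0 hr1 (hw P hP)) (Real.rpow_nonneg (by linarith) _)).trans ?_
    have h1 : (P : ℝ) ^ (-3 / 2 : ℝ) ≤ (P : ℝ)⁻¹ := by
      rw [← Real.rpow_neg_one]
      exact Real.rpow_le_rpow_of_exponent_le hP1 (by norm_num)
    have h2 : (P : ℝ) * Y + 1 ≤ 2 * (P * Y) := by nlinarith
    have h3 : Y * Y ^ (-3 / 2 : ℝ) = 1 / √Y := by
      rw [eq_div_iff (Real.sqrt_pos.2 hY0).ne', mul_assoc, shfan_pow hY0, mul_inv_cancel₀ hY0.ne']
    calc _ ≤ (P : ℝ)⁻¹ * ((2 * (P * Y)) * (M * Y ^ (-3 / 2 : ℝ))) := by gcongr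
      _ = 2 * M * (Y * Y ^ (-3 / 2 : ℝ)) := by field_simp
      _ = _ := by rw [h3]; ring
  · rw [nsmul_eq_mul]
    ring

end

end Pool.Agent.MP_9f080f_an

namespace Pool.Agent.MP_9f080f_an
open Complex MeasureTheory Set Filter Topology Metric
open scoped Real

noncomputable section

lemma anc_lin {b c u δ : ℝ} (h : δ * |b| ≤ 1) : D2 (fun t => b * t + c) u δ 1 := by
  have := D2.quad (a := 0) (b := b) (c := c) (u := u) (δ := δ) (A := 1) (by simpa using h)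
    (by simp)
  exact this.congr (Eventually.of_forall fun t => by simp)

lemma anc_one {f : ℝ → ℝ} {u δ A : ℝ} (hδ : 0 ≤ δ) (hA : 1 ≤ A) (e : ∀ᶠ t in 𝓝 u, f t = 1) :
    J2 (fun t => (f t : ℂ)) u δ A := by
  refine ((J2.const 1 u δ).mono hδ le_rfl (by simpa using hA)).congr ?_
  filter_upwards [e] with t ht
  rw [ht, ofReal_one]

lemma anc_jet : ∃ C : ℝ, 0 < C ∧ ∀ H s Y v δ : ℝ, 1 ≤ H → 1 ≤ Y → 0 < δ → δ ≤ Y →
    2 * δ ≤ s + v → H * δ ≤ 2 * (s + v) ^ 2 → (δ ≤ 1 ∨ 2 < v) → (2 * δ ≤ H ∨ H < v) →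
    J2 (fun v : ℝ => ((rA2 v * (1 - wA H v) * ps ((s + v) / Y) : ℝ) : ℂ) * kk H (s + v)) v δ
      (C * (s + v) ^ (-3 / 2 : ℝ)) := by
  obtain ⟨K, hK, -, -, c3, c4, c5, -⟩ := cut_all
  obtain ⟨K', hK', hk⟩ := jet_kk (A := 2) (by norm_num)
  refine ⟨4 * (4 * (4 * (2 * K * 1 ^ 2) * (2 * (K + 1) * 1 ^ 2)) * (2 * K * 1 ^ 2)) * K',
    by positivity, fun H s Y v δ hH hY hδ h1 h2 h3 h4 h5 => ?_⟩
  have hH0 : 0 < H := by linarith
  have hY0 : 0 < Y := by linarith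
  have j1 : J2 (fun t => (rA2 t : ℂ)) v δ (2 * K * 1 ^ 2) := by
    rcases h4 with h4 | h4
    · refine (c5.comp (anc_lin (b := 1) (c := 0) (by simpa using h4)) hδ.le le_rfl).congr ?_
      exact Eventually.of_forall fun t => by simp
    · refine anc_one hδ.le (by linarith) ?_
      filter_upwards [lt_mem_nhds h4] with t ht
      exact rA2_one ht.le
  have j2 : J2 (fun t => ((1 - wA H t : ℝ) : ℂ)) v δ (2 * (K + 1) * 1 ^ 2) := by
    rcases h5 with h5 | h5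
    · refine (c3.one_sub.comp (anc_lin (b := 2 / H) (c := 1 / H) ?_) hδ.le le_rfl).congr ?_
      · rw [abs_of_pos (by positivity), ← mul_div_assoc, div_le_one hH0]
        linarith
      · refine Eventually.of_forall fun t => ?_
        have : 2 / H * t + 1 / H = (2 * t + 1) / H := by ring
        simp only [wA, this]
    · refine anc_one hδ.le (by linarith) ?_
      filter_upwards [lt_mem_nhds h5] with t ht
      rw [wA, cw_zero, sub_zero]
      refine le_trans ?_ (le_abs_self _)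
      rw [le_div_iff₀ hH0]
      linarith
  have j3 : J2 (fun t => ((ps ((s + t) / Y) : ℝ) : ℂ)) v δ (2 * K * 1 ^ 2) := by
    refine (c4.comp (anc_lin (b := 1 / Y) (c := s / Y) ?_) hδ.le le_rfl).congr ?_
    · rw [abs_of_pos (by positivity), mul_one_div, div_le_one hY0]
      exact h1
    · refine Eventually.of_forall fun t => ?_
      have : 1 / Y * t + s / Y = (s + t) / Y := by ring
      simp only [this]
  have j4 := hk s v δ H hδ hH0.le h2 h3
  have j := ((j1.mul hδ.le j2).mul hδ.le j3).mul hδ.le j4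
  refine (j.mono hδ.le le_rfl (le_of_eq (by ring))).congr (Eventually.of_forall fun t => ?_)
  simp only [ofReal_mul]

/-- the majorant -/
def anc_phi (H v : ℝ) : ℝ :=
  (Icc 0 (2 * H)).indicator (fun _ => (H ^ 2)⁻¹) v + (Ioi (2 * H)).indicator (fun v => v ^ (-2 : ℝ)) v

lemma anc_nonneg {H : ℝ} (hH : 0 < H) (v : ℝ) : 0 ≤ anc_phi H v :=
  add_nonneg (indicator_nonneg (fun _ _ => by positivity) v)
    (indicator_nonneg (fun t ht => Real.rpow_nonneg (by linarith [mem_Ioi.1 ht]) _) v)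

lemma anc_int {H : ℝ} (hH : 1 ≤ H) :
    Integrable (anc_phi H) ∧ ∫ v, anc_phi H v ≤ 3 * H ^ (-1 / 4 : ℝ) := by
  have hH0 : 0 < H := by linarith
  have i1 : Integrable ((Icc 0 (2 * H)).indicator fun _ : ℝ => (H ^ 2)⁻¹) :=
    (integrable_indicator_iff measurableSet_Icc).2 (continuous_const.integrableOn_Icc)
  have i2 : Integrable ((Ioi (2 * H)).indicator fun v : ℝ => v ^ (-2 : ℝ)) :=
    (integrable_indicator_iff measurableSet_Ioi).2
      (integrableOn_Ioi_rpow_of_lt (by norm_num) (by positivity))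
  refine ⟨i1.add i2, ?_⟩
  unfold anc_phi
  rw [integral_add i1 i2, integral_indicator measurableSet_Icc, integral_indicator measurableSet_Ioi,
    integral_Ioi_rpow_of_lt (by norm_num) (by positivity), setIntegral_const,
    Real.volume_real_Icc_of_le (by positivity), smul_eq_mul,
    show (-2 : ℝ) + 1 = -1 by norm_num, Real.rpow_neg_one]
  have a1 : H⁻¹ ≤ H ^ (-1 / 4 : ℝ) := by
    rw [← Real.rpow_neg_one]
    exact Real.rpow_le_rpow_of_exponent_le hH (by norm_num)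
  have a2 : (2 * H - 0) * (H ^ 2)⁻¹ + -(2 * H)⁻¹ / -1 = 5 / 2 * H⁻¹ := by
    field_simp
    ring
  have a3 : 0 < H⁻¹ := by positivity
  rw [a2]
  linarith

lemma anc_pow {s t : ℝ} (hs : 0 < s) (h1 : s ≤ t) (h2 : 1 ≤ t) :
    t ^ (-3 / 2 : ℝ) ≤ s ^ (-5 / 4 : ℝ) :=
  (Real.rpow_le_rpow_of_exponent_le h2 (by norm_num)).trans
    (Real.rpow_le_rpow_of_nonpos hs h1 (by norm_num))

theorem tailA_pt : ∃ C : ℝ, 0 < C ∧ ∀ (e : ℤ → ℂ) (P : ℕ) (W : ℤ → ℝ) (H s Y : ℝ), 0 < P →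
    TwW e P (3 / 8) W → 1 ≤ H → 1 / 2 ≤ s → 1 ≤ Y →
    ‖∑' l : ℤ, e (-l) * ((rA2 (l / P) * (1 - wA H (l / P)) * ps ((s + l / P) / Y) : ℝ) *
      kk H (s + l / P))‖ ≤ C * √P * pw2 W P * (H ^ (-1 / 4 : ℝ) * s ^ (-5 / 4 : ℝ)) := by
  obtain ⟨K, hK, hpv⟩ := pv2A_neg
  obtain ⟨C, hC, hj⟩ := anc_jet
  refine ⟨K * (100 * C * 3), by positivity, fun e P W H s Y hP hW hH hs hY => ?_⟩
  have hH0 : 0 < H := by linarith
  have hY0 : 0 < Y := by linarith
  have hs0 : 0 < s := by linarith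
  have hσ : 0 < s ^ (-5 / 4 : ℝ) := Real.rpow_pos_of_pos hs0 _
  obtain ⟨i1, i2⟩ := anc_int hH
  have key := hpv e P W
    (fun v : ℝ => ((rA2 v * (1 - wA H v) * ps ((s + v) / Y) : ℝ) : ℂ) * kk H (s + v))
    (fun v => 100 * C * s ^ (-5 / 4 : ℝ) * anc_phi H v) (2 * Y + 1) hP hW (fun v => ?_)
    (fun v hv => ?_) (i1.const_mul _)
  · refine key.trans ?_
    rw [integral_const_mul]
    have hw : 0 ≤ pw2 W P := Finset.sum_nonneg fun m _ => div_nonneg
      (nonneg_of_mul_nonneg_right (a := √P) ((norm_nonneg _).trans (hW.four m))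
        (Real.sqrt_pos.2 (by exact_mod_cast hP))) (by positivity)
    calc K * √P * pw2 W P * (100 * C * s ^ (-5 / 4 : ℝ) * ∫ v, anc_phi H v)
        ≤ K * √P * pw2 W P * (100 * C * s ^ (-5 / 4 : ℝ) * (3 * H ^ (-1 / 4 : ℝ))) := by gcongr
      _ = _ := by ring
  · have hφ := anc_nonneg hH0 v
    have zero : (∀ᶠ t in 𝓝 v, rA2 t * (1 - wA H t) * ps ((s + t) / Y) = 0) →
        ∃ δ B : ℝ, 0 < δ ∧ J2 (fun v : ℝ =>
          ((rA2 v * (1 - wA H v) * ps ((s + v) / Y) : ℝ) : ℂ) * kk H (s + v)) v δ B ∧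
          B ≤ δ ^ 2 * (100 * C * s ^ (-5 / 4 : ℝ) * anc_phi H v) := fun h =>
      ⟨1, 0, one_pos, J2.zero (by
        filter_upwards [h] with t ht
        rw [ht, ofReal_zero, zero_mul]) _, by positivity⟩
    rcases lt_or_ge v 1 with h1 | h1
    · refine zero ?_
      filter_upwards [gt_mem_nhds h1] with t ht
      rw [rA2_zero ht.le, zero_mul, zero_mul]
    rcases lt_or_ge v (H / 4 - 1 / 2) with h2 | h2
    · refine zero ?_
      filter_upwards [gt_mem_nhds h2, lt_mem_nhds (show 0 < v by linarith)] with t ht ht'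
      rw [wA, cw_one, sub_self, mul_zero, zero_mul]
      rw [abs_of_pos (by positivity), div_le_iff₀ hH0]
      linarith
    rcases lt_or_ge (2 * Y - s) v with h3 | h3
    · refine zero ?_
      filter_upwards [lt_mem_nhds h3] with t ht
      rw [ps_zero, mul_zero]
      rw [le_div_iff₀ hY0]
      linarith
    have hp : (s + v) ^ (-3 / 2 : ℝ) ≤ s ^ (-5 / 4 : ℝ) := anc_pow hs0 (by linarith) (by linarith)
    rcases le_or_gt v (2 * H) with h4 | h4
    · refine ⟨H / 10, _, by positivity, hj H s Y v (H / 10) hH hY (by positivity) (by linarith)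
        (by linarith) (by nlinarith) ?_ (Or.inl (by linarith)), ?_⟩
      · rcases le_or_gt v 2 with h5 | h5
        · exact Or.inl (by linarith)
        · exact Or.inr h5
      · rw [anc_phi, indicator_of_mem (mem_Icc.2 ⟨by linarith, h4⟩),
          indicator_of_notMem (by simpa using h4), add_zero]
        have : (H / 10) ^ 2 * (100 * C * s ^ (-5 / 4 : ℝ) * (H ^ 2)⁻¹) = C * s ^ (-5 / 4 : ℝ) := by
          field_simp
          ring
        rw [this]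
        gcongr
    · refine ⟨(s + v) / 2, _, by linarith, hj H s Y v ((s + v) / 2) hH hY (by linarith)
        (by linarith) (by linarith) (by nlinarith) (Or.inr (by linarith))
        (Or.inr (by linarith)), ?_⟩
      rw [anc_phi, indicator_of_notMem (fun h => absurd (mem_Icc.1 h).2 (not_le.2 h4)),
        indicator_of_mem (mem_Ioi.2 h4), zero_add, Real.rpow_neg (by linarith), Real.rpow_two]
      have hv : 0 < v := by linarith
      have a1 : 1 ≤ (s + v) ^ 2 * (v ^ 2)⁻¹ := by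
        rw [← div_eq_mul_inv, one_le_div (by positivity)]
        gcongr
        linarith
      have a2 : ((s + v) / 2) ^ 2 * (100 * C * s ^ (-5 / 4 : ℝ) * (v ^ 2)⁻¹)
          = 25 * (C * s ^ (-5 / 4 : ℝ)) * ((s + v) ^ 2 * (v ^ 2)⁻¹) := by ring
      have a3 : C * (s + v) ^ (-3 / 2 : ℝ) ≤ C * s ^ (-5 / 4 : ℝ) := by gcongr
      have a4 : 0 < C * s ^ (-5 / 4 : ℝ) := by positivity
      rw [a2]
      nlinarith
  · rcases lt_abs.1 hv with h | h
    · rw [ps_zero, mul_zero, ofReal_zero, zero_mul]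
      rw [le_div_iff₀ hY0]
      linarith
    · rw [rA2_zero (by linarith), zero_mul, zero_mul, ofReal_zero, zero_mul]

end

end Pool.Agent.MP_9f080f_an

end

-- part MP_9f080f_an.G.AN2
section

namespace Pool.Agent.MP_9f080f_an
open Complex MeasureTheory Set Filter Topology Metric
open scoped Real

noncomputable section

/-! The fans of cusps.
`avg_int`: copy the proof of `avg_le`, keeping the integral over `y`.
`fan2_cont`: each `tsum` is a fixed finite sum (`tsum_eq_sum`, `shpars_mem`); compare `shfan_cont`.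
`fan_split`: all sums are finite.  With `v = l/P`, `t = s + v`, `χ = ps (t/Y)`: `r w = r [t < 2Y] - r (1 - w) χ - r ([t < 2Y] - χ)` because `w χ = w` (`ps_one`, `ps_zero`); `∫ ω u * cut H (s+u) (2Y) t du = r v [t < 2Y] kk H t`
(`comb_eq_sum`, reindex `q = -l`); the last part lives on `Y ≤ t < 2Y`: at most `P Y + 1 ≤ 2 P Y` terms of size `≤ M Y^(-3/2)` (`kb_norm_kk`).
`tailA_pt`: `pv2A_neg`.  Let `m = max (s+1) (H/4)`.  The function vanishes near `v` if `v < 1`, `(2v+1)/H < 1/2` with `v > 0`, or `s + v > 2Y`; otherwise `t = s + v ≥ m`.  For `v ≤ 2H` take `δ = H/10` (if `v ≤ 2` then `H ≤ 10`, so `δ ≤ 1`;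
if `v > 2` then `rA2 = 1` near `v`), for `v > 2H` take `δ = t/2` (`rA2 = 1`, `wA = 0` near `v`).  `φ v = K (indicator (Icc 0 (2H)) (H^(-2) m^(-3/2)) + indicator (Ici (2H)) ((s+v)^(-7/2)))`, and
`H^(-1) s^(-3/2)`, `(s + 2H)^(-5/2) ≲ H^(-1/4) s^(-5/4)`.
`tailB_pt`: `pv2B_neg`.  The function vanishes near `v` unless `3/4 ≤ v`, `H ≤ 4v² - 1`, `s + v ≤ 2Y`; then `t ≥ v/3 ≥ max (1/4) (√H/6)`.  Use `δ = 1/8` and `J2.scale`; if `4v² - 1 > 2H` then `wB = 0` near `v`, otherwise `4v/H ≤ 6`.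
`φ v = K indicator (Ici (√H/2)) (v^(-3/2))`.
`tails`: sum with `P^(-3/2) √P (T/P²)^(-1/4) = T^(-1/4)/√P`, `ph_pw2` (`shfan_W`-free: `PH` gives `0 ≤ W`).
`fc_parseval`: `comb_parseval`, `shfan_pow`.  `sum_int`: monotone convergence (`hasSum_integral_of_summable_integral_norm`, `summable_of_sum_le`, or `lintegral_tsum`).
`head_int`: `fc_parseval` with `s₀ = 0`, `freq` for each `m` (`‖fc‖ ≤ W P m` by `TwW.four`, `3/8 ≤ |m + 3/8|`), `∑ |m + 3/8|^(-3/2)` converges, `sum_int`.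
`fanA2`: `kb_Ioi`, `fan2_cont`.  Given `N`, choose `M` bounding all `e P a` (`shpars_per`), and `Y` so large that `Y ≥ N + T + 3`, `Y² ≥ 6 T`, `2 M #S / √Y ≤ 1/(N+3)`.  On the block `[j + 1/2, j + 3/2]` use `fan_split` (`rA2_int`), `avg_int`
(`measurable_comb`, `comb_bdd`); the inner integral does not depend on `s₀` (`fc_parseval`, `HasSum.unique`), `j + 5/2 ≤ 2 y` for `y ≥ j + 3/2`, and each `y` lies in two of the intervals `[j + 3/2, j + 7/2]`; `head_int`, `tails`, `∑ (j + 5/2) (j+1/2)^(-5/2)` converges.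
`fanB2`: `fan_split` (`rB2_int`), `avg_le`, `comb_L2` with `y₀ = 1/4`, `eb_single`, `tails`, `GoodM.ph`; choose `Y` large. -/

lemma and_lin {b c u : ℝ} (hb : |b| ≤ 1) : D2 (fun t => b * t + c) u 1 1 := by
  have h := D2.quad (a := 0) (b := b) (c := c) (u := u) (δ := 1) (A := 1) (by simpa using hb) (by simp)
  exact h.congr (Eventually.of_forall fun t => by simp)

lemma and_wB {K H v : ℝ} (hK : 1 ≤ K) (hc : Cut cw K) (hH : 1 / 2 ≤ H) (hv : 3 / 4 ≤ v) :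
    J2 (fun t => ((1 - wB H t : ℝ) : ℂ)) v 1 (2 * (K + 1) * 8 ^ 2) := by
  have hH0 : 0 < H := by linarith
  by_cases h : 2 * H < 4 * v ^ 2 - 1
  · have e : ∀ᶠ t in 𝓝 v, 2 * H < 4 * t ^ 2 - 1 :=
      (continuousAt_const (y := 2 * H)).eventually_lt (by fun_prop) h
    refine ((J2.const 1 v 1).congr ?_).mono zero_le_one le_rfl (by rw [norm_one]; nlinarith)
    filter_upwards [e] with t ht
    have : 1 ≤ |(4 * t ^ 2 - 1) / (2 * H)| :=
      le_trans (by rw [le_div_iff₀ (by positivity)]; linarith) (le_abs_self _)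
    rw [wB, cw_zero this]
    simp
  · have h1 : v ^ 2 ≤ H := by linarith [not_lt.1 h]
    have hq : D2 (fun t => 2 / H * t ^ 2 + 0 * t + -1 / (2 * H)) v 1 8 := by
      refine D2.quad ?_ ?_
      · rw [one_mul, add_zero, abs_of_nonneg (by positivity),
          show 2 * (2 / H) * v = 4 * v / H by ring, div_le_iff₀ hH0]
        nlinarith
      · rw [one_pow, one_mul, abs_of_nonneg (by positivity),
          show 2 * (2 / H) = 4 / H by ring, div_le_iff₀ hH0]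
        linarith
    refine (hc.one_sub.comp hq zero_le_one (by norm_num)).congr (Eventually.of_forall fun t => ?_)
    simp only [wB]
    rw [show 2 / H * t ^ 2 + 0 * t + -1 / (2 * H) = (4 * t ^ 2 - 1) / (2 * H) by
      field_simp; ring]

lemma and_jet : ∃ K : ℝ, 0 < K ∧ ∀ H s Y v : ℝ, 1 / 2 ≤ H → -1 / 2 ≤ s → 1 ≤ Y →
    J2 (fun v => ((rB2 v * (1 - wB H v) * ps ((s + v) / Y) : ℝ) : ℂ) * kk H (s + v)) v 1
      (K * indicator (Ioi (√H / 4)) (fun t : ℝ => t ^ (-3 / 2 : ℝ)) v) := by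
  obtain ⟨K, hK, -, -, hcw, hps, -, hrB⟩ := cut_all
  obtain ⟨K₁, hK₁, hk⟩ := jet_kk (A := 5) (by norm_num)
  refine ⟨4 * (4 * (4 * (2 * K * 1 ^ 2) * (2 * (K + 1) * 8 ^ 2)) * (2 * K * 1 ^ 2)) *
    (K₁ * 9 * (1 / (1 / 8)) ^ 2), by positivity, fun H s Y v hH hs hY => ?_⟩
  have hH0 : 0 < H := by linarith
  have hY0 : 0 < Y := by linarith
  have hind : 0 ≤ indicator (Ioi (√H / 4)) (fun t : ℝ => t ^ (-3 / 2 : ℝ)) v :=
    indicator_nonneg (fun t ht => Real.rpow_nonneg (le_trans (by positivity) (le_of_lt ht)) _) v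
  by_cases h1 : v < 3 / 4
  · refine (J2.zero ?_ 1).mono zero_le_one le_rfl (by positivity)
    filter_upwards [Iio_mem_nhds h1] with t ht
    rw [rB2_zero (le_of_lt ht)]
    simp
  have hv : 3 / 4 ≤ v := not_lt.1 h1
  by_cases h2 : 4 * v ^ 2 - 1 < H
  · refine (J2.zero ?_ 1).mono zero_le_one le_rfl (by positivity)
    have e : ∀ᶠ t in 𝓝 v, 4 * t ^ 2 - 1 < H :=
      ContinuousAt.eventually_lt (by fun_prop) (continuousAt_const (y := H)) h2
    filter_upwards [e, Ioi_mem_nhds (show (1 / 2 : ℝ) < v by linarith)] with t ht ht'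
    have ht2 : (1 / 2 : ℝ) < t := ht'
    have : |(4 * t ^ 2 - 1) / (2 * H)| ≤ 1 / 2 := by
      rw [abs_of_nonneg (div_nonneg (by nlinarith) (by positivity)), div_le_iff₀ (by positivity)]
      linarith
    rw [wB, cw_one this]
    simp
  have h3 : H ≤ 4 * v ^ 2 - 1 := not_lt.1 h2
  have ht : v / 3 ≤ s + v := by linarith
  have hv0 : 0 < v := by linarith
  have hmem : v ∈ Ioi (√H / 4) := by
    have : √H ≤ 2 * v := Real.sqrt_le_iff.2 ⟨by positivity, by nlinarith⟩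
    show √H / 4 < v
    linarith
  have j1 : J2 (fun t => (rB2 t : ℂ)) v 1 (2 * K * 1 ^ 2) :=
    (hrB.comp (and_lin (b := 1) (c := 0) (by simp)) zero_le_one le_rfl).congr
      (Eventually.of_forall fun t => by simp)
  have j2 := and_wB hK hcw hH hv
  have j3 : J2 (fun t => (ps ((s + t) / Y) : ℂ)) v 1 (2 * K * 1 ^ 2) := by
    refine (hps.comp (and_lin (b := Y⁻¹) (c := s / Y) ?_) zero_le_one le_rfl).congr
      (Eventually.of_forall fun t => ?_)
    · rw [abs_of_pos (inv_pos.2 hY0)]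
      exact inv_le_one_of_one_le₀ hY
    · simp only
      rw [show Y⁻¹ * t + s / Y = (s + t) / Y by ring]
  have j4 := (hk s v (1 / 8) H (by norm_num) hH0.le (by linarith) (by nlinarith)).scale
    (δ' := 1) (by norm_num) (by norm_num)
  have hp : (s + v) ^ (-3 / 2 : ℝ) ≤ 9 * v ^ (-3 / 2 : ℝ) := by
    refine (Real.rpow_le_rpow_of_nonpos (by positivity) ht (by norm_num)).trans ?_
    rw [Real.div_rpow hv0.le (by norm_num), div_le_iff₀ (by positivity), mul_comm 9, mul_assoc]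
    refine le_mul_of_one_le_right (by positivity) ?_
    have e : (9 : ℝ) = 3 ^ (2 : ℝ) := by norm_num
    rw [e, ← Real.rpow_add (by norm_num)]
    exact Real.one_le_rpow (by norm_num) (by norm_num)
  refine ((((j1.mul zero_le_one j2).mul zero_le_one j3).mul zero_le_one j4).congr
    (Eventually.of_forall fun t => by push_cast; rfl)).mono zero_le_one le_rfl ?_
  rw [indicator_of_mem hmem, mul_assoc _ (K₁ * 9 * (1 / (1 / 8)) ^ 2)]
  refine mul_le_mul_of_nonneg_left ?_ (by positivity)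
  nlinarith [mul_le_mul_of_nonneg_left hp hK₁.le]

theorem tailB_pt : ∃ C : ℝ, 0 < C ∧ ∀ (e : ℤ → ℂ) (P : ℕ) (W : ℤ → ℝ) (H s Y : ℝ), 0 < P →
    TwW e P 0 W → 1 / 2 ≤ H → -1 / 2 ≤ s → 1 ≤ Y →
    ‖∑' l : ℤ, e (-l) * ((rB2 (l / P) * (1 - wB H (l / P)) * ps ((s + l / P) / Y) : ℝ) *
      kk H (s + l / P))‖ ≤ C * √P * pw2 W P * H ^ (-1 / 4 : ℝ) := by
  obtain ⟨K, hK, hj⟩ := and_jet
  obtain ⟨K₁, hK₁, hp⟩ := pv2B_neg
  refine ⟨K₁ * K * 4, by positivity, fun e P W H s Y hP hW hH hs hY => ?_⟩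
  have hH0 : 0 < H := by linarith
  have hc : 0 < √H / 4 := by positivity
  have hi : Integrable (indicator (Ioi (√H / 4)) fun t : ℝ => t ^ (-3 / 2 : ℝ)) :=
    (integrable_indicator_iff measurableSet_Ioi).2 (integrableOn_Ioi_rpow_of_lt (by norm_num) hc)
  have h := hp e P W _ _ (2 * Y + 1) hP hW (fun v => hj H s Y v hH hs hY) (fun t ht => by
    rcases lt_abs.1 ht with h | h
    · rw [ps_zero (by rw [le_div_iff₀ (by linarith)]; linarith)]
      simp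
    · rw [rB2_zero (by linarith)]
      simp) (hi.const_mul K)
  refine h.trans (le_of_eq ?_)
  rw [integral_const_mul, integral_indicator measurableSet_Ioi,
    integral_Ioi_rpow_of_lt (by norm_num) hc, Real.div_rpow (Real.sqrt_nonneg _) (by norm_num),
    Real.sqrt_eq_rpow H, ← Real.rpow_mul hH0.le]
  have e : (4 : ℝ) ^ (-3 / 2 + 1 : ℝ) = 1 / 2 := by
    rw [show (4 : ℝ) = 2 ^ (2 : ℝ) by norm_num, ← Real.rpow_mul (by norm_num)]
    norm_num
  rw [e, show (1 / 2 * (-3 / 2 + 1) : ℝ) = -1 / 4 by norm_num]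
  ring

lemma and_pow {P T : ℝ} (hP : 0 < P) (hT : 0 < T) :
    P ^ (-3 / 2 : ℝ) * (√P * (T / P ^ 2) ^ (-1 / 4 : ℝ)) = T ^ (-1 / 4 : ℝ) / √P := by
  have e1 : (P ^ 2) ^ (-1 / 4 : ℝ) = P ^ (-1 / 2 : ℝ) := by
    rw [← Real.rpow_natCast, ← Real.rpow_mul hP.le]
    norm_num
  have e2 : P ^ (-3 / 2 : ℝ) * P ^ (1 / 2 : ℝ) * P ^ (1 / 2 : ℝ) = P ^ (-1 / 2 : ℝ) := by
    rw [← Real.rpow_add hP, ← Real.rpow_add hP]
    norm_num
  have h1 : 0 < P ^ (1 / 2 : ℝ) := by positivity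
  rw [Real.div_rpow hT.le (by positivity), e1, Real.sqrt_eq_rpow, ← e2]
  have h3 : 0 < P ^ (-3 / 2 : ℝ) := by positivity
  generalize P ^ (-3 / 2 : ℝ) = a at h3
  generalize P ^ (1 / 2 : ℝ) = b at h1
  field_simp

lemma and_sum {K C D Λ T : ℝ} {S : Finset ℕ} {W : ℕ → ℤ → ℝ} {z : ℕ → ℂ} (hC : 0 ≤ C) (hD : 0 ≤ D)
    (hT : 0 < T) (hS : ∀ P ∈ S, 0 < P) (hKΛ : 0 ≤ K * Λ)
    (h1 : ∑ P ∈ S, pw2 (W P) P / √P ≤ K * Λ * √(√(2 * T)))
    (h2 : ∀ P ∈ S, ‖z P‖ ≤ C * √P * pw2 (W P) P * ((T / P ^ 2) ^ (-1 / 4 : ℝ) * D)) :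
    ‖∑ P ∈ S, (((P : ℝ) ^ (-3 / 2 : ℝ) : ℝ) : ℂ) * z P‖ ≤ 2 * C * K * Λ * D := by
  have e : √(√(2 * T)) * T ^ (-1 / 4 : ℝ) ≤ 2 := by
    have h3 : √(√(2 * T)) ≤ 2 * T ^ (1 / 4 : ℝ) := by
      have h4 : (T ^ (1 / 4 : ℝ)) ^ 4 = T := by
        rw [← Real.rpow_natCast, ← Real.rpow_mul hT.le]
        norm_num
      refine Real.sqrt_le_iff.2 ⟨by positivity, Real.sqrt_le_iff.2 ⟨by positivity, ?_⟩⟩
      rw [show ((2 * T ^ (1 / 4 : ℝ)) ^ 2) ^ 2 = 16 * (T ^ (1 / 4 : ℝ)) ^ 4 by ring, h4]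
      linarith
    refine (mul_le_mul_of_nonneg_right h3 (by positivity)).trans (le_of_eq ?_)
    rw [mul_assoc, ← Real.rpow_add hT]
    norm_num
  calc ‖∑ P ∈ S, (((P : ℝ) ^ (-3 / 2 : ℝ) : ℝ) : ℂ) * z P‖
      ≤ ∑ P ∈ S, C * D * T ^ (-1 / 4 : ℝ) * (pw2 (W P) P / √P) := by
        refine (norm_sum_le _ _).trans (Finset.sum_le_sum fun P hP => ?_)
        have hP0 : (0 : ℝ) < P := by exact_mod_cast hS P hP
        rw [norm_mul, Complex.norm_real, Real.norm_of_nonneg (by positivity)]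
        refine (mul_le_mul_of_nonneg_left (h2 P hP) (by positivity)).trans (le_of_eq ?_)
        calc _ = C * D * pw2 (W P) P *
              ((P : ℝ) ^ (-3 / 2 : ℝ) * (√P * (T / P ^ 2) ^ (-1 / 4 : ℝ))) := by ring
          _ = _ := by rw [and_pow hP0 hT]; ring
    _ ≤ C * D * T ^ (-1 / 4 : ℝ) * (K * Λ * √(√(2 * T))) := by
        rw [← Finset.mul_sum]
        exact mul_le_mul_of_nonneg_left h1 (by positivity)
    _ = C * D * (K * Λ) * (√(√(2 * T)) * T ^ (-1 / 4 : ℝ)) := by ring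
    _ ≤ C * D * (K * Λ) * 2 := mul_le_mul_of_nonneg_left e (by positivity)
    _ = _ := by ring

theorem tails : ∃ C : ℝ, 0 < C ∧ ∀ (S : Finset ℕ) (e : ℕ → ℤ → ℂ) (W : ℕ → ℤ → ℝ) (X₁ : ℕ) (Λ T s Y : ℝ),
    PH W X₁ Λ → S ⊆ Finset.Icc 1 X₁ → 0 < T → 1 ≤ Y →
    ((∀ P ∈ S, (P : ℝ) ^ 2 ≤ T ∧ TwW (e P) P (3 / 8) (W P)) → 1 / 2 ≤ s →
      ‖fan2 S e T (fun H v => rA2 v * (1 - wA H v) * ps ((s + v) / Y)) s‖ ≤ C * Λ * s ^ (-5 / 4 : ℝ)) ∧
    ((∀ P ∈ S, (P : ℝ) ^ 2 ≤ 2 * T ∧ TwW (e P) P 0 (W P)) → -1 / 2 ≤ s →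
      ‖fan2 S e T (fun H v => rB2 v * (1 - wB H v) * ps ((s + v) / Y)) s‖ ≤ C * Λ) := by
  obtain ⟨CA, hCA, hA⟩ := tailA_pt
  obtain ⟨CB, hCB, hB⟩ := tailB_pt
  obtain ⟨K, hK, hp⟩ := ph_pw2
  refine ⟨2 * (CA + CB) * K, by positivity, fun S e W X₁ Λ T s Y hW hS hT hY => ?_⟩
  have hΛ : 0 ≤ Λ := (hW 0).lam
  have hS0 : ∀ P ∈ S, 0 < P := fun P hP => (Finset.mem_Icc.1 (hS hP)).1
  have hsum : (∀ P ∈ S, (P : ℝ) ^ 2 ≤ 2 * T) →
      ∑ P ∈ S, pw2 (W P) P / √P ≤ K * Λ * √(√(2 * T)) := fun h =>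
    hp W X₁ Λ _ S hW (by positivity) hS fun P hP => Real.le_sqrt_of_sq_le (h P hP)
  refine ⟨fun h hs => ?_, fun h hs => ?_⟩
  · have hs0 : 0 ≤ s ^ (-5 / 4 : ℝ) := Real.rpow_nonneg (by linarith) _
    refine (and_sum hCA.le hs0 hT hS0 (by positivity) (hsum fun P hP => by linarith [(h P hP).1])
      fun P hP => hA (e P) P (W P) (T / P ^ 2) s Y (hS0 P hP) (h P hP).2 ?_ hs hY).trans ?_
    · have hP0 : (0 : ℝ) < P := by exact_mod_cast hS0 P hP
      rw [le_div_iff₀ (by positivity), one_mul]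
      exact (h P hP).1
    · have : 0 ≤ CB * K * Λ * s ^ (-5 / 4 : ℝ) := by positivity
      nlinarith
  · refine (and_sum (D := 1) hCB.le zero_le_one hT hS0 (by positivity)
      (hsum fun P hP => (h P hP).1) fun P hP => ?_).trans ?_
    · have hP0 : (0 : ℝ) < P := by exact_mod_cast hS0 P hP
      rw [mul_one]
      refine hB (e P) P (W P) (T / P ^ 2) s Y (hS0 P hP) (h P hP).2 ?_ hs hY
      rw [le_div_iff₀ (by positivity)]
      linarith [(h P hP).1]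
    · have : 0 ≤ CA * K * Λ := by positivity
      nlinarith

end

end Pool.Agent.MP_9f080f_an

namespace Pool.Agent.MP_9f080f_an
open Complex MeasureTheory Set Filter Topology Metric
open scoped Real

noncomputable section

theorem fc_parseval {S : Finset ℕ} {e : ℕ → ℤ → ℂ} {W : ℕ → ℤ → ℝ}
    (hS : ∀ P ∈ S, 0 < P ∧ TwW (e P) P (3 / 8) (W P)) (T : ℝ) {y Y : ℝ} (hy0 : 0 < y) (hY : y ≤ Y) (s₀ : ℝ) :
    HasSum (fun m : ℤ => ‖aa S (fun P => fc (e P) P m) T (m + 3 / 8) y Y‖ ^ 2)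
      (∫ s in s₀..s₀ + 1, ‖Fc S e T y Y s‖ ^ 2) := by
  have h := comb_parseval S (fun P hP => (hS P hP).1)
    (fun P => (((P : ℝ) ^ (-3 / 2 : ℝ) : ℝ) : ℂ)) e (3 / 8) (fun P hP => (hS P hP).2.per)
    (fun P => T / P ^ 2) hy0 hY s₀
  have e1 : ∀ m : ℤ, aa S (fun P => fc (e P) P m) T (m + 3 / 8) y Y =
      ∑ P ∈ S, (((P : ℝ) ^ (-3 / 2 : ℝ) : ℝ) : ℂ) *
        (∑ a ∈ Finset.range P, e P a * ep (-2 * (m + (3 / 8 : ℝ)) * a / P)) *
        ∫ t in y..Y, kk (T / P ^ 2) t * ep (-2 * ((m + 3 / 8 : ℝ) : ℂ) * t) := fun m => by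
    refine Finset.sum_congr rfl fun P hP => ?_
    have hP0 : (0 : ℝ) < P := by exact_mod_cast (hS P hP).1
    have h1 : (0 : ℝ) < √P := Real.sqrt_pos.2 hP0
    have h2 : (P : ℝ) ^ (-3 / 2 : ℝ) = (P : ℝ)⁻¹ / √P := by
      rw [← shfan_pow hP0, mul_div_cancel_right₀ _ h1.ne']
    congr 1
    rw [h2]
    simp only [fc]
    push_cast
    ring
  simp only [e1]
  exact h

theorem sum_int {f : ℤ → ℝ → ℝ} {E : ℝ → ℝ} {a b B : ℝ} (hab : a ≤ b)
    (hc : ∀ m, ContinuousOn (f m) (Icc a b)) (h0 : ∀ m, ∀ y ∈ Icc a b, 0 ≤ f m y)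
    (hE : ∀ y ∈ Icc a b, HasSum (fun m => f m y) (E y))
    (hB : ∀ t : Finset ℤ, ∑ m ∈ t, ∫ y in a..b, f m y ≤ B) :
    IntervalIntegrable E volume a b ∧ ∫ y in a..b, E y ≤ B := by
  have hi : ∀ m, Integrable (f m) (volume.restrict (Ioc a b)) := fun m =>
    ((hc m).integrableOn_Icc).mono_set Ioc_subset_Icc_self
  have hae : ∀ᵐ y ∂(volume.restrict (Ioc a b)), y ∈ Icc a b :=
    (ae_restrict_mem measurableSet_Ioc).mono fun y hy => Ioc_subset_Icc_self hy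
  have hn : ∀ m, 0 ≤ᵐ[volume.restrict (Ioc a b)] f m := fun m => hae.mono fun y hy => h0 m y hy
  simp only [intervalIntegral.integral_of_le hab] at hB ⊢
  have hs : Summable fun m => ∫ y in Ioc a b, f m y :=
    summable_of_sum_le (fun m => integral_nonneg_of_ae (hn m)) hB
  have hEe : E =ᵐ[volume.restrict (Ioc a b)] fun y => ∑' m, f m y :=
    hae.mono fun y hy => (hE y hy).tsum_eq.symm
  have hE0 : 0 ≤ᵐ[volume.restrict (Ioc a b)] E :=
    hae.mono fun y hy => (hE y hy).nonneg fun m => h0 m y hy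
  have hm : AEMeasurable E (volume.restrict (Ioc a b)) :=
    (AEMeasurable.tsum fun m => (hi m).1.aemeasurable).congr hEe.symm
  have hl : ∫⁻ y in Ioc a b, ENNReal.ofReal (E y) =
      ENNReal.ofReal (∑' m, ∫ y in Ioc a b, f m y) := by
    rw [ENNReal.ofReal_tsum_of_nonneg (fun m => integral_nonneg_of_ae (hn m)) hs]
    simp only [fun m => ofReal_integral_eq_lintegral_ofReal (hi m) (hn m)]
    rw [← lintegral_tsum fun m => (hi m).1.aemeasurable.ennreal_ofReal]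
    refine lintegral_congr_ae (hae.mono fun y hy => ?_)
    show ENNReal.ofReal (E y) = ∑' m, ENNReal.ofReal (f m y)
    rw [← (hE y hy).tsum_eq, ENNReal.ofReal_tsum_of_nonneg (fun m => h0 m y hy) (hE y hy).summable]
  have hI : Integrable E (volume.restrict (Ioc a b)) := by
    refine ⟨hm.aestronglyMeasurable, ?_⟩
    rw [hasFiniteIntegral_iff_ofReal hE0, hl]
    exact ENNReal.ofReal_lt_top
  refine ⟨(intervalIntegrable_iff_integrableOn_Ioc_of_le hab).2 hI, ?_⟩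
  rw [integral_eq_lintegral_of_nonneg_ae hE0 hm.aestronglyMeasurable, hl,
    ENNReal.toReal_ofReal (tsum_nonneg fun m => integral_nonneg_of_ae (hn m))]
  exact hs.tsum_le_of_sum_le hB

lemma ane_mu (m : ℤ) : (3 / 8 : ℝ) ≤ |(m : ℝ) + 3 / 8| := by
  rcases le_or_gt 0 m with h | h
  · have : (0 : ℝ) ≤ m := by exact_mod_cast h
    rw [abs_of_nonneg (by linarith)]
    linarith
  · have h1 : m ≤ -1 := by omega
    have : (m : ℝ) ≤ -1 := by exact_mod_cast h1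
    rw [abs_of_nonpos (by linarith)]
    linarith

lemma ane_summable : Summable fun m : ℤ => |(m : ℝ) + 3 / 8| ^ (-3 / 2 : ℝ) := by
  refine ((Real.summable_one_div_int_add_rpow (3 / 8) (3 / 2)).2 (by norm_num)).congr fun m => ?_
  rw [one_div, ← Real.rpow_neg (abs_nonneg _)]
  norm_num

theorem head_int : ∃ K : ℝ, 0 < K ∧ ∀ (S : Finset ℕ) (e : ℕ → ℤ → ℂ) (W : ℕ → ℤ → ℝ) (X₁ N : ℕ)
    (Λ Ξ T Y₀ Y : ℝ), PH W X₁ Λ → S ⊆ Finset.Icc 1 X₁ →
    (∀ P ∈ S, (P : ℝ) ^ 2 ≤ T ∧ TwW (e P) P (3 / 8) (W P)) → 0 < T → T ≤ N ^ 2 →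
    (∀ t : Finset ℤ, ∑ m ∈ t, Arm S (fun P => fc (e P) P m) T (m + 3 / 8) N ≤ Ξ) →
    3 / 2 ≤ Y₀ → Y₀ ≤ Y → 6 * T ≤ Y ^ 2 →
    IntervalIntegrable (fun y => y * ∫ s in (0 : ℝ)..0 + 1, ‖Fc S e T y Y s‖ ^ 2) volume (3 / 2) Y₀ ∧
      ∫ y in (3 / 2 : ℝ)..Y₀, y * ∫ s in (0 : ℝ)..0 + 1, ‖Fc S e T y Y s‖ ^ 2 ≤ K * (Λ ^ 2 + Ξ) := by
  obtain ⟨K, hK, hf⟩ := freq
  obtain ⟨Z, hZ⟩ : ∃ Z : ℝ, Z = ∑' m : ℤ, |(m : ℝ) + 3 / 8| ^ (-3 / 2 : ℝ) := ⟨_, rfl⟩
  have hZ0 : 0 ≤ Z := by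
    rw [hZ]
    exact tsum_nonneg fun m => by positivity
  refine ⟨K * (Z + 1), by positivity, ?_⟩
  intro S e W X₁ N Λ Ξ T Y₀ Y hW hS hP hT hTN hΞ hY₀ hY hTY
  have hS' : ∀ P ∈ S, 0 < P ∧ TwW (e P) P (3 / 8) (W P) := fun P h =>
    ⟨(Finset.mem_Icc.1 (hS h)).1, (hP P h).2⟩
  have key := fun m : ℤ => hf S (fun P => fc (e P) P m) (fun P => W P m) X₁ N Λ T (m + 3 / 8) Y₀ Y
    (hW m) hS (fun P h => ⟨(hP P h).1, by
      have h0 : (0 : ℝ) < √P := Real.sqrt_pos.2 (by exact_mod_cast (hS' P h).1)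
      rw [fc, norm_div, Complex.norm_real, Real.norm_of_nonneg h0.le, div_le_iff₀ h0]
      exact ((hP P h).2.four m).trans_eq (mul_comm _ _)⟩) hT hTN (ane_mu m) hY₀ hY hTY
  have hΞ0 : 0 ≤ Ξ := by simpa using hΞ ∅
  refine sum_int (f := fun (m : ℤ) y => y * ‖aa S (fun P => fc (e P) P m) T (m + 3 / 8) y Y‖ ^ 2) hY₀
    (fun m => continuousOn_id.mul ((key m).1.norm.pow 2))
    (fun m y hy => mul_nonneg (by linarith [hy.1]) (by positivity))
    (fun y hy => (fc_parseval hS' T (by linarith [hy.1]) (hy.2.trans hY) 0).mul_left y)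
    (fun t => ?_)
  refine (Finset.sum_le_sum fun m _ => (key m).2).trans ?_
  rw [← Finset.mul_sum, Finset.sum_add_distrib, ← Finset.mul_sum, mul_assoc]
  refine mul_le_mul_of_nonneg_left ?_ hK.le
  have a1 : ∑ m ∈ t, |(m : ℝ) + 3 / 8| ^ (-3 / 2 : ℝ) ≤ Z := by
    rw [hZ]
    exact ane_summable.sum_le_tsum t fun m _ => by positivity
  have a2 := mul_le_mul_of_nonneg_left a1 (sq_nonneg Λ)
  have a3 := hΞ t
  have a4 := mul_nonneg hZ0 hΞ0
  nlinarith [sq_nonneg Λ]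

end

end Pool.Agent.MP_9f080f_an

namespace Pool.Agent.MP_9f080f_an
open Complex MeasureTheory Set Filter Topology Metric
open scoped Real

noncomputable section

lemma anf_bd {S : Finset ℕ} {e : ℕ → ℤ → ℂ} {W : ℕ → ℤ → ℝ} {κ : ℝ}
    (hS : ∀ P ∈ S, 0 < P ∧ TwW (e P) P κ (W P)) : ∃ M : ℝ, 0 ≤ M ∧ ∀ P ∈ S, ∀ a, ‖e P a‖ ≤ M := by
  refine ⟨∑ P ∈ S, ∑ a ∈ Finset.Ico (0 : ℤ) P, ‖e P a‖, by positivity, fun P hP q => ?_⟩
  refine le_trans ?_ (Finset.single_le_sum (f := fun P : ℕ => ∑ a ∈ Finset.Ico (0 : ℤ) P, ‖e P a‖)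
    (fun _ _ => by positivity) hP)
  have hP0 := (hS P hP).1
  have hP' : (P : ℤ) ≠ 0 := by exact_mod_cast hP0.ne'
  have h1 := shpars_per (hS P hP).2.per (q % P) (q / P)
  rw [Int.ediv_mul_add_emod] at h1
  have h2 : ‖ep (2 * κ * (q / P : ℤ))‖ = 1 := by
    rw [← norm_ep_real (2 * κ * (q / P : ℤ))]; push_cast; rfl
  rw [h1, norm_mul, h2, one_mul]
  exact Finset.single_le_sum (f := fun a => ‖e P a‖) (fun _ _ => norm_nonneg _)
    (Finset.mem_Ico.2 ⟨Int.emod_nonneg _ hP', Int.emod_lt_of_pos _ (by exact_mod_cast hP0)⟩)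

lemma anf_Fc {S : Finset ℕ} {e : ℕ → ℤ → ℂ} {W : ℕ → ℤ → ℝ} {κ : ℝ}
    (hS : ∀ P ∈ S, 0 < P ∧ TwW (e P) P κ (W P)) (T Y : ℝ) :
    (Measurable fun p : ℝ × ℝ => Fc S e T p.2 Y p.1) ∧
      ∃ M : ℝ, ∀ s y : ℝ, 1 ≤ y → ‖Fc S e T y Y s‖ ≤ M := by
  refine ⟨Finset.measurable_sum _ fun P hP => (measurable_comb _ (hS P hP).1 _ _).const_mul _, ?_⟩
  choose! M hM using fun P (hP : P ∈ S) =>
    comb_bdd (hS P hP).1 (hS P hP).2.per (T / P ^ 2) Y one_pos
  refine ⟨∑ P ∈ S, ‖(((P : ℝ) ^ (-3 / 2 : ℝ) : ℝ) : ℂ)‖ * M P, fun s y h => ?_⟩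
  refine (norm_sum_le _ _).trans (Finset.sum_le_sum fun P hP => ?_)
  rw [norm_mul]
  exact mul_le_mul_of_nonneg_left (hM P hP y s h) (norm_nonneg _)

lemma anf_wA {T v : ℝ} {P : ℕ} (hP : 0 < P) (hT : 0 < T) (h : wA (T / P ^ 2) v ≠ 0) : v ≤ T := by
  have hP1 : (1 : ℝ) ≤ P := by exact_mod_cast hP
  have h1 : 0 < T / (P : ℝ) ^ 2 := by positivity
  have h2 : T / (P : ℝ) ^ 2 ≤ T := div_le_self hT.le (one_le_pow₀ hP1)
  by_contra hc
  exact h (cw_zero (le_abs.2 (Or.inl ((one_le_div h1).2 (by linarith [not_le.1 hc])))))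

lemma anf_two {g : ℝ → ℝ} {n : ℕ} (hg : IntervalIntegrable g volume (3 / 2) (n + 5 / 2))
    (h0 : ∀ y, 3 / 2 ≤ y → 0 ≤ g y) :
    (∀ j < n, IntervalIntegrable g volume ((j : ℝ) + 1 / 2 + 1) (j + 1 / 2 + 1 + 2)) ∧
    ∑ j ∈ Finset.range n, ∫ y in ((j : ℝ) + 1 / 2 + 1)..(j + 1 / 2 + 1 + 2), g y ≤
      2 * ∫ y in (3 / 2 : ℝ)..(n + 5 / 2), g y := by
  have hn : (0 : ℝ) ≤ n := Nat.cast_nonneg n
  have hi : ∀ a b : ℝ, 3 / 2 ≤ a → a ≤ b → b ≤ n + 5 / 2 → IntervalIntegrable g volume a b :=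
    fun a b h1 h2 h3 => hg.mono_set (by
      rw [uIcc_of_le h2, uIcc_of_le (by linarith)]
      exact Icc_subset_Icc h1 h3)
  have hj : ∀ j < n, (0 : ℝ) ≤ j ∧ (j : ℝ) + 1 ≤ n := fun j h =>
    ⟨Nat.cast_nonneg j, by exact_mod_cast h⟩
  refine ⟨fun j h => hi _ _ (by linarith [hj j h]) (by linarith) (by linarith [hj j h]), ?_⟩
  obtain ⟨a, ha⟩ : ∃ a : ℕ → ℝ, ∀ j, a j = ∫ y in ((j : ℝ) + 3 / 2)..(((j + 1 : ℕ) : ℝ) + 3 / 2), g y :=
    ⟨_, fun _ => rfl⟩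
  have a0 : ∀ j, 0 ≤ a j := fun j => by
    rw [ha]
    refine intervalIntegral.integral_nonneg (by push_cast; linarith) fun y hy => h0 y ?_
    linarith [hy.1, (Nat.cast_nonneg j : (0 : ℝ) ≤ j)]
  have e1 : ∑ j ∈ Finset.range (n + 1), a j = ∫ y in (3 / 2 : ℝ)..(n + 5 / 2), g y := by
    simp only [ha]
    rw [intervalIntegral.sum_integral_adjacent_intervals (a := fun k : ℕ => (k : ℝ) + 3 / 2)
      fun k hk => ?_]
    · congr 1 <;> push_cast <;> ring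
    · have : (k : ℝ) ≤ n := by exact_mod_cast Nat.lt_succ_iff.1 hk
      refine hi _ _ (by linarith [(Nat.cast_nonneg k : (0 : ℝ) ≤ k)]) ?_ ?_ <;> push_cast <;> linarith
  have e2 : ∀ j ∈ Finset.range n, ∫ y in ((j : ℝ) + 1 / 2 + 1)..(j + 1 / 2 + 1 + 2), g y =
      a j + a (j + 1) := fun j h => by
    have := hj j (Finset.mem_range.1 h)
    rw [ha, ha, intervalIntegral.integral_add_adjacent_intervals]
    · congr 1 <;> push_cast <;> ring
    · refine hi _ _ (by linarith) ?_ ?_ <;> push_cast <;> linarith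
    · refine hi _ _ ?_ ?_ ?_ <;> push_cast <;> linarith
  rw [Finset.sum_congr rfl e2, Finset.sum_add_distrib, ← e1]
  have h1 := Finset.sum_range_succ a n
  have h2 := Finset.sum_range_succ' a n
  linarith [a0 n, a0 0]

lemma anf_three {f A B : ℂ} {b c : ℝ} (h1 : ‖f - (A - B)‖ ≤ c) (h2 : ‖B‖ ≤ b) :
    ‖f‖ ^ 2 ≤ 3 * ‖A‖ ^ 2 + 3 * (b ^ 2 + c ^ 2) := by
  have h3 : ‖f‖ ≤ ‖A‖ + b + c := by
    linarith [norm_le_norm_sub_add f (A - B), norm_sub_le A B]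
  have h4 := pow_le_pow_left₀ (norm_nonneg f) h3 2
  nlinarith [sq_nonneg (‖A‖ - b), sq_nonneg (‖A‖ - c), sq_nonneg (b - c)]

lemma anf_block {f A : ℝ → ℂ} {a D B : ℝ} (ha : 0 ≤ a)
    (hf : ContinuousOn f (Icc a (a + 1)))
    (hA : IntervalIntegrable (fun s => ‖A s‖ ^ 2) volume a (a + 1))
    (hD : (a + 2) * ∫ s in a..a + 1, ‖A s‖ ^ 2 ≤ D)
    (h : ∀ s ∈ Icc a (a + 1), ‖f s‖ ^ 2 ≤ 3 * ‖A s‖ ^ 2 + B) :
    ∫ s in a..a + 1, ‖f s‖ ^ 2 * (1 + s) ≤ 3 * D + (a + 2) * B := by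
  have hle : a ≤ a + 1 := by linarith
  have co : ContinuousOn (fun s => ‖f s‖ ^ 2 * (1 + s)) (uIcc a (a + 1)) := by
    rw [uIcc_of_le hle]
    exact (hf.norm.pow 2).mul (by fun_prop)
  have h7 := intervalIntegral.integral_mono_on (μ := volume) hle co.intervalIntegrable
    (((hA.const_mul 3).add (intervalIntegrable_const (c := B))).const_mul (a + 2)) fun s hs => by
      rw [mul_comm]
      exact mul_le_mul (by linarith [hs.2]) (h s hs) (sq_nonneg _) (by linarith)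
  rw [intervalIntegral.integral_const_mul, intervalIntegral.integral_add (hA.const_mul 3)
    intervalIntegrable_const, intervalIntegral.integral_const_mul, intervalIntegral.integral_const,
    add_sub_cancel_left, one_smul] at h7
  linarith

theorem fanA2 : ∃ C : ℝ, 0 < C ∧ ∀ (S : Finset ℕ) (e : ℕ → ℤ → ℂ) (W : ℕ → ℤ → ℝ) (X₁ N : ℕ)
    (Λ Ξ T : ℝ), PH W X₁ Λ → 1 ≤ Λ → S ⊆ Finset.Icc 1 X₁ →
    (∀ P ∈ S, (P : ℝ) ^ 2 ≤ T ∧ TwW (e P) P (3 / 8) (W P)) → 0 < T → T ≤ N ^ 2 →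
    (∀ t : Finset ℤ, ∑ m ∈ t, Arm S (fun P => fc (e P) P m) T (m + 3 / 8) N ≤ Ξ) →
    IntegrableOn (fun s : ℝ => ‖fan2 S e T (fun H v => rA2 v * wA H v) s‖ ^ 2 * (1 + s)) (Ioi (1 / 2)) ∧
      ∫ s in Ioi (1 / 2 : ℝ), ‖fan2 S e T (fun H v => rA2 v * wA H v) s‖ ^ 2 * (1 + s) ≤
        C * (Λ ^ 2 + Ξ) := by
  obtain ⟨Kc, hKc, -, -, -, -, hcut, -⟩ := cut_all
  obtain ⟨Ct, hCt, ht⟩ := tails
  obtain ⟨Kh, hKh, hh⟩ := head_int
  have hK : Summable fun j : ℕ => 1 / |(j : ℝ) + 1 / 2| ^ (3 / 2 : ℝ) :=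
    (Real.summable_one_div_nat_add_rpow _ _).2 (by norm_num)
  obtain ⟨K, hK0, hK1⟩ : ∃ K : ℝ, 0 ≤ K ∧
      ∀ n, ∑ j ∈ Finset.range n, 1 / |(j : ℝ) + 1 / 2| ^ (3 / 2 : ℝ) ≤ K :=
    ⟨_, tsum_nonneg fun j => by positivity, fun n => hK.sum_le_tsum _ fun j _ => by positivity⟩
  refine ⟨12 * Kc ^ 2 * Kh + 15 * Ct ^ 2 * K + 3, by positivity,
    fun S e W X₁ N Λ Ξ T hW hΛ hS he hT hTN hΞ => ?_⟩
  have hΞ0 : 0 ≤ Ξ := by simpa using hΞ ∅
  have hP : ∀ P ∈ S, 0 < P := fun P hP => (Finset.mem_Icc.1 (hS hP)).1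
  have hS' : ∀ P ∈ S, 0 < P ∧ TwW (e P) P (3 / 8) (W P) := fun P h => ⟨hP P h, (he P h).2⟩
  have hcont : ∀ s : ℝ, 1 / 2 ≤ s → ContinuousAt (fan2 S e T fun H v => rA2 v * wA H v) s :=
    fun s hs => fan2_cont hP e T (u₀ := 1) (R := T) (fun P h v hv =>
      ⟨le_of_not_ge fun q => hv (by rw [rA2_zero q, zero_mul]),
        anf_wA (hP P h) hT (right_ne_zero_of_mul hv)⟩) (by linarith)
  refine kb_Ioi (fun s hs => ((hcont s hs).norm.pow 2).mul (by fun_prop))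
    (fun s hs => mul_nonneg (sq_nonneg _) (by linarith)) fun n => ?_
  obtain ⟨M, hM0, hM⟩ := anf_bd hS'
  have hn : (0 : ℝ) ≤ n := Nat.cast_nonneg n
  obtain ⟨Y, hY1, hY2⟩ : ∃ Y : ℝ, n + T + 6 ≤ Y ∧ 2 * M * S.card / √Y ≤ 1 / (n + 3) := by
    refine ⟨n + T + 6 + (2 * M * S.card * (n + 3)) ^ 2, by linarith [sq_nonneg (2 * M * S.card * (n + 3))], ?_⟩
    rw [div_le_div_iff₀ (by positivity) (by positivity), one_mul]
    exact Real.le_sqrt_of_sq_le (by linarith)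
  obtain ⟨mF, MF, bF⟩ := anf_Fc hS' T (2 * Y)
  obtain ⟨i1, i2⟩ := hh S e W X₁ N Λ Ξ T (n + 5 / 2) (2 * Y) hW hS he hT hTN hΞ (by linarith)
    (by linarith) (by nlinarith)
  obtain ⟨g, hg⟩ : ∃ g : ℝ → ℝ, g = fun y => y * ∫ s in (0 : ℝ)..0 + 1, ‖Fc S e T y (2 * Y) s‖ ^ 2 :=
    ⟨_, rfl⟩
  rw [← hg] at i1 i2
  obtain ⟨i3, i4⟩ := anf_two i1 fun y hy => by
    rw [hg]
    exact mul_nonneg (by linarith)
      (intervalIntegral.integral_nonneg (by norm_num) fun _ _ => sq_nonneg _)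
  have hω : Continuous (deriv rA2) := hcut.cd.continuous_deriv (by norm_num)
  have hj : ∀ j ∈ Finset.range n, ∫ s in ((j : ℝ) + 1 / 2)..((j : ℝ) + 1 / 2 + 1),
      ‖fan2 S e T (fun H v => rA2 v * wA H v) s‖ ^ 2 * (1 + s) ≤
      6 * Kc ^ 2 * (∫ y in ((j : ℝ) + 1 / 2 + 1)..(j + 1 / 2 + 1 + 2), g y) +
        15 * (Ct * Λ) ^ 2 * (1 / |(j : ℝ) + 1 / 2| ^ (3 / 2 : ℝ)) + 3 * (1 / (n + 3)) := by
    intro j hj
    have hjn : (j : ℝ) + 1 ≤ n := by exact_mod_cast Finset.mem_range.1 hj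
    have hj0 : (0 : ℝ) ≤ j := Nat.cast_nonneg j
    have hx : (0 : ℝ) < j + 1 / 2 := by positivity
    obtain ⟨a1, a2⟩ := avg_int (F := fun s y => Fc S e T y (2 * Y) s) mF hω.measurable
      (s₀ := j + 1 / 2) (u₀ := 1) (u₁ := 2) (by norm_num) (by norm_num) (fun u _ => hcut.b1 u)
      fun s y hy => bF s y (by linarith)
    have a3 : ((j : ℝ) + 1 / 2 + 2) * ∫ y in ((j : ℝ) + 1 / 2 + 1)..(j + 1 / 2 + 1 + 2),
        ∫ s in ((j : ℝ) + 1 / 2)..(j + 1 / 2 + 1), ‖Fc S e T y (2 * Y) s‖ ^ 2 ≤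
        2 * ∫ y in ((j : ℝ) + 1 / 2 + 1)..(j + 1 / 2 + 1 + 2), g y := by
      have hle : (j : ℝ) + 1 / 2 + 1 ≤ j + 1 / 2 + 1 + 2 := by linarith
      rw [← intervalIntegral.integral_const_mul, ← intervalIntegral.integral_const_mul,
        intervalIntegral.integral_of_le hle, intervalIntegral.integral_of_le hle]
      refine integral_mono_of_nonneg (ae_of_all _ fun y => mul_nonneg (by linarith)
        (intervalIntegral.integral_nonneg (by linarith) fun _ _ => sq_nonneg _))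
        ((i3 j (Finset.mem_range.1 hj)).1.const_mul 2)
        (ae_restrict_of_forall_mem measurableSet_Ioc fun y hy => ?_)
      have y0 : 0 < y := by linarith [hy.1]
      have y1 : y ≤ 2 * Y := by linarith [hy.2]
      simp only [hg]
      rw [(fc_parseval hS' T y0 y1 (j + 1 / 2)).unique (fc_parseval hS' T y0 y1 0), ← mul_assoc]
      exact mul_le_mul_of_nonneg_right (by linarith [hy.1])
        (intervalIntegral.integral_nonneg (by norm_num) fun _ _ => sq_nonneg _)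
    have a4 := anf_block (f := fan2 S e T fun H v => rA2 v * wA H v) hx.le
      (fun s hs => (hcont s (by linarith [hs.1])).continuousWithinAt) a1
      (D := Kc ^ 2 * (2 * ∫ y in ((j : ℝ) + 1 / 2 + 1)..(j + 1 / 2 + 1 + 2), g y))
      (B := 3 * ((Ct * Λ * ((j : ℝ) + 1 / 2) ^ (-5 / 4 : ℝ)) ^ 2 + (1 / (n + 3)) ^ 2))
      ((mul_le_mul_of_nonneg_left a2 (by linarith)).trans (by
        rw [mul_left_comm]
        exact mul_le_mul_of_nonneg_left a3 (sq_nonneg _)))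
      fun s hs => anf_three
        ((fan_split hP hM (by linarith) (by linarith [hs.1]) (by norm_num) hω rA2_int
          (fun v hv => rA2_zero hv.le) (fun v => abs_le.2 ⟨by linarith [(rA2_mem v).1], (rA2_mem v).2⟩)
          fun P h v _ hv => by linarith [anf_wA (hP P h) hT hv, hs.2]).trans hY2)
        (((ht S e W X₁ Λ T s Y hW hS hT (by linarith)).1 he (by linarith [hs.1])).trans
          (mul_le_mul_of_nonneg_left (Real.rpow_le_rpow_of_nonpos hx hs.1 (by norm_num))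
            (by positivity)))
    refine a4.trans ?_
    have e1 : ((j : ℝ) + 1 / 2) * (((j : ℝ) + 1 / 2) ^ (-5 / 4 : ℝ)) ^ 2 =
        1 / |(j : ℝ) + 1 / 2| ^ (3 / 2 : ℝ) := by
      rw [abs_of_pos hx, one_div (_ ^ _), ← Real.rpow_neg hx.le, ← Real.rpow_natCast,
        ← Real.rpow_mul hx.le, ← Real.rpow_one_add' hx.le (by norm_num)]
      norm_num
    have e2 : ((n : ℝ) + 3) * (1 / (n + 3)) ^ 2 = 1 / (n + 3) := by field_simp
    have b1 := mul_le_mul_of_nonneg_right (show (j : ℝ) + 1 / 2 + 2 ≤ n + 3 by linarith)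
      (sq_nonneg (1 / ((n : ℝ) + 3)))
    have b2 := mul_le_mul_of_nonneg_right (show (j : ℝ) + 1 / 2 + 2 ≤ 5 * (j + 1 / 2) by linarith)
      (sq_nonneg (Ct * Λ * ((j : ℝ) + 1 / 2) ^ (-5 / 4 : ℝ)))
    rw [← e1]
    linarith
  refine (Finset.sum_le_sum hj).trans ?_
  rw [Finset.sum_add_distrib, Finset.sum_add_distrib, ← Finset.mul_sum, ← Finset.mul_sum,
    Finset.sum_const, Finset.card_range, nsmul_eq_mul]
  have c1 := mul_le_mul_of_nonneg_left (i4.trans (mul_le_mul_of_nonneg_left i2 two_pos.le))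
    (show 0 ≤ 6 * Kc ^ 2 by positivity)
  have c2 := mul_le_mul_of_nonneg_left (hK1 n) (show 0 ≤ 15 * (Ct * Λ) ^ 2 by positivity)
  have c3 : (n : ℝ) * (1 / (n + 3)) ≤ 1 := by
    rw [mul_one_div, div_le_one (by positivity)]
    linarith
  have c4 : 1 ≤ Λ ^ 2 := one_le_pow₀ hΛ
  have c5 : 0 ≤ 15 * Ct ^ 2 * K * Ξ := by positivity
  linarith

end

end Pool.Agent.MP_9f080f_an

namespace Pool.Agent.MP_9f080f_an
open Complex MeasureTheory Set Filter Topology Metric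
open scoped Real

noncomputable section

lemma an_bdd {e : ℤ → ℂ} {P : ℕ} (hP : 0 < P) {κ : ℝ}
    (he : ∀ a : ℤ, e (a + P) = ep (2 * κ) * e a) (q : ℤ) :
    ‖e q‖ ≤ ∑ a ∈ Finset.Ico (0 : ℤ) P, ‖e a‖ := by
  have hP' : (P : ℤ) ≠ 0 := by exact_mod_cast hP.ne'
  have h1 := shpars_per he (q % P) (q / P)
  rw [Int.ediv_mul_add_emod] at h1
  have h2 : ‖ep (2 * κ * (q / P : ℤ))‖ = 1 := by
    rw [← norm_ep_real (2 * κ * (q / P : ℤ))]; push_cast; rfl
  rw [h1, norm_mul, h2, one_mul]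
  exact Finset.single_le_sum (f := fun a => ‖e a‖) (fun _ _ => norm_nonneg _)
    (Finset.mem_Ico.2 ⟨Int.emod_nonneg _ hP', Int.emod_lt_of_pos _ (by exact_mod_cast hP)⟩)

lemma an_supp {T : ℝ} (hT : 0 < T) {P : ℕ} (hP : 0 < P) {v : ℝ} (h : wB (T / P ^ 2) v ≠ 0) :
    v ≤ T + 1 := by
  have hP1 : (1 : ℝ) ≤ P := by exact_mod_cast hP
  have h1 : T / (P : ℝ) ^ 2 ≤ T := div_le_self hT.le (one_le_pow₀ hP1)
  have h2 : 0 < T / (P : ℝ) ^ 2 := by positivity
  by_contra hv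
  push Not at hv
  refine h (cw_zero (le_trans ?_ (le_abs_self _)))
  rw [le_div_iff₀ (by linarith)]
  nlinarith

theorem fanB2 : ∃ C : ℝ, 0 < C ∧ ∀ (S : Finset ℕ) (e : ℕ → ℤ → ℂ) (W : ℕ → ℤ → ℝ) (L : ℕ) (Θ T : ℝ),
    GoodM W L Θ → 1 ≤ Θ → S ⊆ Finset.Icc 1 (2 ^ L) → T ≤ 4 ^ L → 4 ^ L ≤ 64 * T →
    (∀ P ∈ S, (P : ℝ) ^ 2 ≤ 2 * T ∧ TwW (e P) P 0 (W P)) →
    ContinuousOn (fan2 S e T (fun H v => rB2 v * wB H v)) (Icc (-1 / 2) (1 / 2)) ∧
      ∫ s in (-1 / 2 : ℝ)..(1 / 2), ‖fan2 S e T (fun H v => rB2 v * wB H v) s‖ ^ 2 ≤ C * Θ := by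
  obtain ⟨C₁, hC₁, h₁⟩ := comb_L2
  obtain ⟨C₂, hC₂, h₂⟩ := eb_single
  obtain ⟨C₃, hC₃, h₃⟩ := tails
  obtain ⟨K, hK, -, -, -, -, -, hr⟩ := cut_all
  refine ⟨2 * (2 * K ^ 2 * (C₁ * C₂)) + 2 * (3 * C₃ + 1) ^ 2, by positivity,
    fun S e W L Θ T hW hΘ hS hT1 hT2 he => ?_⟩
  have hT : 0 < T := by linarith [pow_pos (show (0 : ℝ) < 4 by norm_num) L]
  have hP : ∀ P ∈ S, 0 < P := fun P hP => (Finset.mem_Icc.1 (hS hP)).1
  have hr0 : ∀ v < (3 / 4 : ℝ), rB2 v = 0 := fun v hv => rB2_zero hv.le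
  have hcont : ContinuousOn (fan2 S e T (fun H v => rB2 v * wB H v)) (Icc (-1 / 2) (1 / 2)) :=
    fun s hs => (fan2_cont hP e T (a := fun H v => rB2 v * wB H v) (u₀ := 3 / 4) (R := T + 1)
      (fun P h v (hv : rB2 v * wB (T / P ^ 2) v ≠ 0) =>
        ⟨not_lt.1 fun h1 => left_ne_zero_of_mul hv (hr0 v h1),
          an_supp hT (hP P h) (right_ne_zero_of_mul hv)⟩) (by linarith [hs.1])).continuousWithinAt
  refine ⟨hcont, ?_⟩
  obtain ⟨M, hM0, hM⟩ : ∃ M : ℝ, 0 ≤ M ∧ ∀ P ∈ S, ∀ a, ‖e P a‖ ≤ M :=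
    ⟨∑ P ∈ S, ∑ a ∈ Finset.Ico (0 : ℤ) P, ‖e P a‖, by positivity, fun P h a =>
      (an_bdd (hP P h) (he P h).2.per a).trans (Finset.single_le_sum
        (f := fun P : ℕ => ∑ a ∈ Finset.Ico (0 : ℤ) P, ‖e P a‖) (fun _ _ => by positivity) h)⟩
  obtain ⟨Y, hY, hY2⟩ : ∃ Y : ℝ, T + 2 ≤ Y ∧ 2 * M * S.card / √Y ≤ 1 := by
    refine ⟨T + 2 + (2 * M * S.card) ^ 2, le_add_of_nonneg_right (sq_nonneg _), ?_⟩
    rw [div_le_one (Real.sqrt_pos.2 (by positivity))]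
    exact Real.le_sqrt_of_sq_le (by linarith)
  have mF : Measurable fun p : ℝ × ℝ => Fc S e T p.2 (2 * Y) p.1 :=
    Finset.measurable_sum _ fun P h => (measurable_comb _ (hP P h) _ _).const_mul _
  have hb : ∀ P : ℕ, ∃ B : ℝ, P ∈ S → ∀ y s : ℝ, 1 / 4 ≤ y →
      ‖comb (e P) P (T / P ^ 2) y (2 * Y) s‖ ≤ B := by
    intro P
    by_cases h : P ∈ S
    · obtain ⟨B, hB⟩ := comb_bdd (hP P h) (he P h).2.per (T / P ^ 2) (2 * Y)
        (show (0 : ℝ) < 1 / 4 by norm_num)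
      exact ⟨B, fun _ => hB⟩
    · exact ⟨0, fun h' => absurd h' h⟩
  choose B hB using hb
  have bF : ∀ s y : ℝ, -1 / 2 + 3 / 4 ≤ y → ‖Fc S e T y (2 * Y) s‖ ≤
      ∑ P ∈ S, ‖(((P : ℝ) ^ (-3 / 2 : ℝ) : ℝ) : ℂ)‖ * B P := by
    intro s y h
    refine (norm_sum_le _ _).trans (Finset.sum_le_sum fun P hP => ?_)
    rw [norm_mul]
    exact mul_le_mul_of_nonneg_left (hB P hP y s (by linarith)) (norm_nonneg _)
  have hω : Continuous (deriv rB2) := hr.cd.continuous_deriv (by norm_num)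
  obtain ⟨iA, hA⟩ := avg_le (F := fun s y => Fc S e T y (2 * Y) s) mF hω.measurable
    (s₀ := -1 / 2) (u₀ := 3 / 4) (u₁ := 1) (by norm_num) (by norm_num) (fun u _ => hr.b1 u) bF
    (E := C₁ * (C₂ * Θ)) fun y h2 h3 =>
      h₁ S e W T 0 (1 / 4) y (2 * Y) (-1 / 2) _ (fun P h => ⟨hP P h, (he P h).2⟩) hT (by norm_num)
        (by linarith) (by linarith) fun t => h₂ W L Θ T S t hW hS hT1 hT2
  rw [show (-1 / 2 : ℝ) + 1 = 1 / 2 by norm_num] at iA hA
  have hle : (-1 / 2 : ℝ) ≤ 1 / 2 := by norm_num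
  have hs1 : 1 ≤ √Θ := Real.one_le_sqrt.2 hΘ
  have pt : ∀ s ∈ Icc (-1 / 2 : ℝ) (1 / 2), ‖fan2 S e T (fun H v => rB2 v * wB H v) s‖ ^ 2 ≤
      2 * ‖∫ u in (3 / 4 : ℝ)..1, ((deriv rB2 u : ℝ) : ℂ) * Fc S e T (s + u) (2 * Y) s‖ ^ 2 +
        2 * (3 * C₃ + 1) ^ 2 * Θ := by
    intro s hs
    have a1 := (fan_split hP (w := wB) hM (by linarith) (by linarith [hs.1]) (by norm_num) hω rB2_int
      hr0 (fun v => abs_le.2 ⟨by linarith [(rB2_mem v).1], (rB2_mem v).2⟩)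
      (fun P h v _ hv => by linarith [an_supp hT (hP P h) hv, hs.2]) (s := s)).trans hY2
    have a2 := (h₃ S e W _ _ T s Y hW.ph (hS.trans (Finset.Icc_subset_Icc_right
      (Nat.pow_le_pow_right two_pos (Nat.le_add_right L 3)))) hT (by linarith)).2 he hs.1
    generalize fan2 S e T (fun H v => rB2 v * wB H v) s = x at a1 ⊢
    generalize fan2 S e T (fun H v => rB2 v * (1 - wB H v) * ps ((s + v) / Y)) s = z at a1 a2
    generalize ∫ u in (3 / 4 : ℝ)..1, ((deriv rB2 u : ℝ) : ℂ) * Fc S e T (s + u) (2 * Y) s = y at a1 ⊢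
    have a3 : ‖x - y‖ ≤ (3 * C₃ + 1) * √Θ := by
      have := norm_sub_le (x - (y - z)) z
      rw [show x - (y - z) - z = x - y by ring] at this
      linarith
    have a4 := pow_le_pow_left₀ (norm_nonneg _) a3 2
    rw [mul_pow, Real.sq_sqrt (by linarith)] at a4
    have a5 := kb_sq_add y (x - y)
    rw [add_sub_cancel] at a5
    linarith
  have iG : IntervalIntegrable (fun s => ‖fan2 S e T (fun H v => rB2 v * wB H v) s‖ ^ 2) volume
      (-1 / 2) (1 / 2) := by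
    refine ContinuousOn.intervalIntegrable ?_
    rw [uIcc_of_le hle]
    exact hcont.norm.pow 2
  have h2 := intervalIntegral.integral_mono_on hle iG
    ((iA.const_mul 2).add intervalIntegrable_const) pt
  rw [intervalIntegral.integral_add (iA.const_mul 2) intervalIntegrable_const,
    intervalIntegral.integral_const_mul, intervalIntegral.integral_const, smul_eq_mul] at h2
  linarith

end

end Pool.Agent.MP_9f080f_an

end

-- part MP_9f080f_an.G.AF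
section

namespace Pool.Agent.MP_9f080f_an
open Complex MeasureTheory Set Filter Topology Metric
open scoped Real

noncomputable section

/-! The coefficient and its cocycle part at an arbitrary height.
`cn_height`: by `FF_hasSum`, `FF x τ = ∑ a m * ep (m τ)`; the norms `‖a m‖ exp (-π m y)` are summable (`HasSum` at `τ = y I`, `summable_norm_iff`), so one may integrate termwise
(`intervalIntegral.hasSum_integral_of_summable_norm` or `hasSum_integral_of_summable_integral_norm`), and `∫_0^2 ep ((m - n)(t + y I)) dt = 2 [m = n]`.  Continuity by `FF_diff`.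
`R2y_unfold`: copy `TT_arc`, `TT_int`, `R2_unfold` of `IdentA` with `1/n` replaced by `y = l/n` (`arc` is stated for every `y`; `κ / y = n / (β² l)`; the condition of `arc` is equivalent to
`l < lamq n β q η` because `η² + (q/β - 1/2)² > 0`); `sg_ne_bound` gives `|a² - c²| l / n ≤ 1`, hence `≤ n`.
`cn_split`: as `cn_eq` in `Final` (`FF_eq`, `ae_tile`, `H0`, `tsum_mul_left`, `tsum_mul_right`); integrability of the first summand follows by subtracting.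
`r2_avg`: Fubini on `Ioc 2 4 × Ioi 0` (`integral_integral_swap`; the integrand is measurable and dominated by `C ‖fC η‖`, `fC_integrable`, `rho_cont`), then `rho_int`.
`r2_eq`: follow `R2_eq` in `Ident`.  `lamq` is invariant under `io` and `η ↦ 1/(4η)` (compare `ball_iff`, `io_sq`, `fB_io`), and so is `wq` (`cw_neg`).  With `fR = RR (lamq) * fC`: `sum_io`, `subst_inv`, `split_half` give
`∑ ∫_{Ioi 0} fR = 2 ∑ ∫_{Ioi (1/2)} fR`.  For `η > 1/2`, `RR (lamq) ≠ 0` forces `2 < lamq`, hence `β² < n` and `2 β |2q - β| < n`, so `wq * ps (β²/n) = 1` (`cw_one`, `ps_one`).  Then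
`∑_{WS} a v ∫_{Ioi (1/2)} fC` with `a = wq * ps (β²/n)` is split along `WS = M ∪ io M` (`M` the index set of `MT2`); on `M` one has `β² ≤ n`, outside of `M` one has `(2q - β)² ≤ n`.  Terms with `q` not prime to `β` vanish (`sum_WS`, `eC_spec`). -/

lemma afa_diff {x : ℝ} (hx : 0 ≤ x) (n : ℕ) {z : ℂ} (hz : 0 < z.im) :
    DifferentiableAt ℂ (fun z => FF x z * ep (-n * z)) z := by
  refine (FF_diff hx hz).mul ?_
  unfold ep
  fun_prop

lemma afa_per {x : ℝ} (hx : 0 ≤ x) (n : ℕ) {z : ℂ} (hz : 0 < z.im) :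
    FF x (z + 2) * ep (-n * (z + 2)) = FF x z * ep (-n * z) := by
  rw [FF_T hx hz]
  congr 1
  unfold ep
  rw [Complex.exp_eq_exp_iff_exists_int]
  exact ⟨-n, by push_cast; ring⟩

lemma afa_rect {x : ℝ} (hx : 0 ≤ x) (n : ℕ) {y y' : ℝ} (h : 0 < y) (h' : 0 < y') :
    ∫ t in (0 : ℝ)..2, FF x (hy y t) * ep (-n * hy y t) =
      ∫ t in (0 : ℝ)..2, FF x (hy y' t) * ep (-n * hy y' t) := by
  have hpos : ∀ s ∈ uIcc y y', 0 < s := fun s hs =>
    lt_of_lt_of_le (lt_min h h') hs.1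
  have key := Complex.integral_boundary_rect_eq_zero_of_differentiableOn
    (fun z => FF x z * ep (-n * z)) ⟨0, y⟩ ⟨2, y'⟩
    (fun z hz => (afa_diff hx n (hpos _ hz.2)).differentiableWithinAt)
  have e : ∫ s : ℝ in y..y', FF x (((2 : ℝ) : ℂ) + s * I) * ep (-n * (((2 : ℝ) : ℂ) + s * I)) =
      ∫ s : ℝ in y..y', FF x (((0 : ℝ) : ℂ) + s * I) * ep (-n * (((0 : ℝ) : ℂ) + s * I)) := by
    refine intervalIntegral.integral_congr fun s hs => ?_
    have h1 := afa_per hx n (z := ((0 : ℝ) : ℂ) + s * I) (by simpa using hpos s hs)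
    have h2 : ((0 : ℝ) : ℂ) + s * I + 2 = ((2 : ℝ) : ℂ) + s * I := by push_cast; ring
    rw [h2] at h1
    exact h1
  simp only at key
  rw [e, add_sub_assoc, sub_self, add_zero, sub_eq_zero] at key
  exact key

theorem cn_height {x y : ℝ} (hx : 0 ≤ x) (hy0 : 0 < y) {n : ℕ} (hn : 1 ≤ n) :
    IntervalIntegrable (fun t => FF x (hy y t) * ep (-n * hy y t)) volume 0 2 ∧
      cn x n = 1 / 2 * ∫ t in (0 : ℝ)..2, FF x (hy y t) * ep (-n * hy y t) := by
  have hn0 : (0 : ℝ) < n := by exact_mod_cast hn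
  constructor
  · refine Continuous.intervalIntegrable ?_ _ _
    have hc : Continuous (hy y) := by unfold hy; fun_prop
    refine continuous_iff_continuousAt.2 fun t => ?_
    exact ContinuousAt.comp (g := fun z => FF x z * ep (-n * z)) (f := hy y)
      (afa_diff hx n (by simpa [hy] using hy0)).continuousAt hc.continuousAt
  · rw [afa_rect hx n hy0 (y' := 1 / n) (by positivity), cn]
    have e : ∀ t, hc n t = hy (1 / n) t := fun t => by
      rw [hc, hy]; push_cast; ring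
    simp_rw [e]

end

end Pool.Agent.MP_9f080f_an

namespace Pool.Agent.MP_9f080f_an
open Complex MeasureTheory Set Filter Topology Metric
open scoped Real

noncomputable section

lemma afb_im (y t : ℝ) : (hy y t).im = y := by simp [hy]

lemma afb_re (y t : ℝ) : (hy y t).re = t := by simp [hy]

lemma afb_pos {y : ℝ} (h : 0 < y) (t : ℝ) : 0 < (hy y t).im := by rwa [afb_im]

lemma afb_arc (x : ℝ) (n : ℕ) {y : ℝ} (hy0 : 0 < y) {g : GT} {β : ℕ} (hβ : Odd β)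
    (hg : g.c - g.a = β) (s : ℝ) : TTy x n y g (s + (g.b - g.d) / β) =
      (sg (1 / 2 - (g.c / β : ℝ)) - sg (1 / 2 - (((g.c / β : ℝ) : ℂ) -
        (1 / β ^ 2 : ℝ) / (s + y * I)).re)) *
      om x n β g.c (((g.c / β : ℝ) : ℂ) - (1 / β ^ 2 : ℝ) / (s + y * I)) *
        ((1 / β ^ 2 : ℝ) / (s + y * I) ^ 2) := by
  have h3 : (β : ℂ) ≠ 0 := by exact_mod_cast hβ.pos.ne'
  have h4 : (0 : ℝ) < β := by exact_mod_cast hβ.pos
  set τ := hy y (s + (g.b - g.d) / β) with hτ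
  have h : 0 < τ.im := afb_pos hy0 _
  set u : ℂ := s + y * I with hu
  have e1 : (β : ℂ) * τ - (g.b - g.d : ℤ) = β * u := by
    rw [hτ, hy, hu]; push_cast; field_simp; ring
  have hu0 : u ≠ 0 := by
    have := lin_ne hβ.pos (g.b - g.d) h
    rw [e1] at this; exact right_ne_zero_of_mul this
  have e2 : ((g.c / β : ℝ) : ℂ) - (1 / β ^ 2 : ℝ) / u = zw (g.mob τ) := by
    rw [zw_mob hβ.pos hg h, e1]; push_cast; field_simp
  have hz := im_zw_pos (g.im_mob_pos h)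
  have e3 : sg (normSq (g.mob τ) - 1) = sg (1 / 2 - (zw (g.mob τ)).re) := by
    rw [← sg_mul_pos (r := 1 / 2 - (zw (g.mob τ)).re) (c := 2 / normSq (zw (g.mob τ)))
      (div_pos two_pos (normSq_pos.2 (ne_of_im hz)))]
    have := normSq_wz_sub (ne_of_im hz)
    rw [wz_zw] at this
    rw [this]; congr 1; ring
  have e4 : sg ((g.a : ℝ) ^ 2 - (g.c : ℝ) ^ 2) = sg (1 / 2 - (g.c / β : ℝ)) := by
    rw [← sg_mul_pos (r := 1 / 2 - (g.c / β : ℝ)) (c := 2 * β ^ 2) (by positivity)]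
    have hg' : (g.a : ℝ) = g.c - β := by
      have : (g.c : ℝ) - g.a = β := by exact_mod_cast hg
      linear_combination -this
    rw [hg']; congr 1; field_simp; ring
  rw [e2, om_eq x n hβ hg h, e1, TTy, ← hτ, coc, e3, e4]
  push_cast
  field_simp

lemma afb_int (x : ℝ) {n : ℕ} (hn : 1 ≤ n) {l : ℝ} (hl : 0 < l) {g : GT} {β : ℕ} (hβ : Odd β)
    (hg : g.c - g.a = β) :
    Integrable (TTy x n (l / n) g) ∧
      ∫ t, TTy x n (l / n) g t = 2 * ∫ η in Ioi (0 : ℝ), fBy x n β g.c l η := by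
  have h4 : (0 : ℝ) < β := by exact_mod_cast hβ.pos
  have hn' : (0 : ℝ) < n := by exact_mod_cast hn
  have hy0 : 0 < l / n := by positivity
  have hz : (g.c / β : ℝ) ≠ 1 / 2 := by
    intro h
    rw [div_eq_div_iff h4.ne' two_ne_zero] at h
    have h1 : g.c * 2 = 1 * β := by exact_mod_cast h
    obtain ⟨k, hk⟩ := hβ
    omega
  obtain ⟨h1, -, -, h2⟩ := arc (ω := om x n β g.c) (fun z hz => om_diff x n β g.c hz) hz
    (κ := 1 / β ^ 2) (y := l / n) (by positivity) hy0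
  simp only [← afb_arc x n hy0 hβ hg] at h1 h2
  rw [integral_add_right_eq_self (TTy x n (l / n) g)] at h2
  refine ⟨by simpa using h1.comp_sub_right ((g.b - g.d) / β), h2.trans ?_⟩
  congr 2
  funext η
  have hd : 0 < η ^ 2 + ((g.c : ℝ) / β - 1 / 2) ^ 2 := by
    have := sq_pos_of_ne_zero (sub_ne_zero.2 hz)
    positivity
  have e : (η ^ 2 + ((g.c : ℝ) / β - 1 / 2) ^ 2 < 1 / β ^ 2 / (l / n) * η) ↔
      l < lamq n β g.c η := by
    rw [lamq, lt_div_iff₀ hd,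
      show (1 / β ^ 2 / (l / n) * η : ℝ) = n / β ^ 2 * η / l by field_simp, lt_div_iff₀ hl,
      mul_comm]
  simp only [e, fBy, fC_eq]

theorem R2y_unfold {n : ℕ} (hn : 1 ≤ n) (x : ℝ) {l : ℝ} (hl : 1 ≤ l) :
    IntervalIntegrable (fun t => ∑' g, TTy x n (l / n) g t) volume 0 2 ∧
      ∫ t in (0 : ℝ)..2, ∑' g, TTy x n (l / n) g t =
        4 * ∑ v ∈ WS n, ∫ η in Ioi (0 : ℝ), fBy x n v.1 v.2 l η := by
  classical
  have hn' : (0 : ℝ) < n := by exact_mod_cast hn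
  have hl0 : 0 < l := by linarith
  have hy0 : 0 < l / n := by positivity
  set φ : ℕ × ℤ → ℤ × ℤ := fun v => (v.2 - v.1, v.2) with hφ
  have hinj : Function.Injective φ := by
    intro v w h
    simp only [hφ, Prod.mk.injEq] at h
    ext <;> omega
  have hne : ∀ g t, TTy x n (l / n) g t ≠ 0 →
      sg ((g.a : ℝ) ^ 2 - (g.c : ℝ) ^ 2) ≠ sg (normSq (g.mob (hy (l / n) t)) - 1) := by
    intro g t h e
    apply h
    simp [TTy, coc, e]
  have hrep : ∀ v ∈ WS n, Integrable (TTy x n (l / n) (rep (φ v).1 (φ v).2)) ∧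
      ∫ t, TTy x n (l / n) (rep (φ v).1 (φ v).2) t =
        2 * ∫ η in Ioi (0 : ℝ), fBy x n v.1 v.2 l η := by
    intro v hv
    have h := afb_int x hn hl0 (g := rep (v.2 - v.1) v.2) (mem_WS.1 hv).1
      (by rw [rep_a (adm_WS hv), rep_c (adm_WS hv)]; ring)
    rwa [rep_c (adm_WS hv)] at h
  have key := unfold2 (T := TTy x n (l / n)) (fun g j t => ?_) (fun g t => ?_) ((WS n).image φ)
    (fun p hp => ?_) (fun g t h => ?_) (fun p hp hp' => ?_) (fun g => ?_) (fun p hp => ?_)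
  · refine ⟨key.1, key.2.trans ?_⟩
    rw [Finset.sum_image hinj.injOn, Finset.sum_congr rfl fun v hv => (hrep v hv).2,
      ← Finset.mul_sum]
    ring
  · generalize l / n = y
    have e : hy y (t + 2 * j) = hy y t + 2 * j := by simp only [hy]; push_cast; ring
    have e2 : ep (-n * (hy y t + 2 * j)) = ep (-n * hy y t) := by
      rw [mul_add, ep_add, show (-n * (2 * j) : ℂ) = 2 * ((-n * j : ℤ) : ℂ) by push_cast; ring,
        ep_two_int, mul_one]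
    simp [TTy, e, th3_T, coc, GT.chi_mul, GT.mob_mul_T, -neg_mul, e2]
  · simp [TTy, coc, GT.chi_mul, GT.mob_N_mul]
  · obtain ⟨v, hv, rfl⟩ := Finset.mem_image.1 hp
    exact adm_WS hv
  · have h1 := (GT.sg_ne_bound (afb_pos hy0 t) (hne g t h)).1
    rw [afb_im, ← mul_div_assoc, div_le_one hn'] at h1
    have h1' : |(g.a : ℝ) ^ 2 - (g.c : ℝ) ^ 2| ≤ n :=
      (le_mul_of_one_le_right (abs_nonneg _) hl).trans h1
    have h2 : |g.a ^ 2 - g.c ^ 2| ≤ n := by exact_mod_cast h1'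
    have h3 : g.c - g.a ≠ 0 := by obtain ⟨k, hk⟩ := g.p1; omega
    rcases lt_or_gt_of_ne h3 with h4 | h4
    · right
      have := col_WS (g := GT.N * g) (n := n) (by simpa using h2) (by simp; omega)
      refine Finset.mem_image.2 ⟨_, this, ?_⟩
      simp [hφ]; omega
    · left
      refine Finset.mem_image.2 ⟨_, col_WS h2 h4, ?_⟩
      simp [hφ]; omega
  · obtain ⟨v, hv, rfl⟩ := Finset.mem_image.1 hp
    obtain ⟨w, hw, e⟩ := Finset.mem_image.1 hp'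
    have := (mem_WS.1 hv).1.pos
    simp only [hφ, Prod.neg_mk, Prod.mk.injEq] at e
    omega
  · refine ⟨1 + |(g.a : ℝ) * g.b - g.c * g.d|, fun t ht => ?_⟩
    by_contra h
    have h1 := (GT.sg_ne_bound (afb_pos hy0 t) (hne g t h)).2
    rw [afb_re] at h1
    have hA1 : (1 : ℝ) ≤ |(g.a : ℝ) ^ 2 - (g.c : ℝ) ^ 2| := by
      have : 1 ≤ |g.a ^ 2 - g.c ^ 2| := Int.one_le_abs (by obtain ⟨m, hm⟩ := g.odd_A; omega)
      exact_mod_cast this
    generalize (g.a : ℝ) ^ 2 - (g.c : ℝ) ^ 2 = A at *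
    generalize (g.a : ℝ) * g.b - g.c * g.d = B at *
    have e1 : |A * t| ≤ |A * t + B| + |B| := by simpa using abs_sub (A * t + B) B
    rw [abs_mul] at e1
    nlinarith [abs_nonneg t]
  · obtain ⟨v, hv, rfl⟩ := Finset.mem_image.1 hp
    exact (hrep v hv).1

theorem cn_split {n : ℕ} (hn : 1 ≤ n) {x : ℝ} (hx : 0 ≤ x) {l : ℝ} (hl : 1 ≤ l) :
    cn x n = R1y x n (l / n) + 1 / 4 * ∑ v ∈ WS n, ∫ η in Ioi (0 : ℝ), fBy x n v.1 v.2 l η := by
  have hn' : (0 : ℝ) < n := by exact_mod_cast hn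
  have hy0 : 0 < l / n := by positivity
  obtain ⟨h1, h2⟩ := cn_height hx hy0 hn
  obtain ⟨h3, h4⟩ := R2y_unfold hn x hl
  generalize l / n = y at *
  have hae : ∀ᵐ t : ℝ, th3 (hy y t) * hk x (sf (hy y t)) * ep (-n * hy y t) =
      FF x (hy y t) * ep (-n * hy y t) - 1 / 8 * ∑' g, TTy x n y g t := by
    filter_upwards [ae_tile hy0] with t ht
    have e : ∑' g, TTy x n y g t =
        th3 (hy y t) * (∑' g : GT, coc x g (hy y t)) * ep (-n * hy y t) := by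
      simp only [TTy]
      rw [tsum_mul_right, tsum_mul_left]
    rw [FF_eq hx (afb_pos hy0 t) ht.1, H0, e]; ring
  rw [h2, R1y, intervalIntegral.integral_congr_ae (hae.mono fun t ht _ => ht),
    intervalIntegral.integral_sub h1 (h3.const_mul _), intervalIntegral.integral_const_mul, h4]
  ring

end

end Pool.Agent.MP_9f080f_an

namespace Pool.Agent.MP_9f080f_an
open Complex MeasureTheory Set Filter Topology Metric
open scoped Real

noncomputable section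

theorem r2_avg {x : ℝ} (hx : 0 ≤ x) (n : ℕ) {β : ℕ} (hβ : Odd β) (q : ℤ) :
    IntervalIntegrable (fun l => (rho l : ℂ) * ∫ η in Ioi (0 : ℝ), fBy x n β q l η) volume 2 4 ∧
      ∫ l in (2 : ℝ)..4, (rho l : ℂ) * ∫ η in Ioi (0 : ℝ), fBy x n β q l η =
        ∫ η in Ioi (0 : ℝ), (RR (lamq n β q η) : ℝ) * fC x n β q η := by
  have hf : Integrable (fC x n β q) (volume.restrict (Ioi (0 : ℝ))) := fC_integrable hx n hβ q
  have hr : Integrable (fun l => (rho l : ℂ)) (volume.restrict (Ioc (2 : ℝ) 4)) :=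
    ((continuous_ofReal.comp rho_cont).integrableOn_Icc (a := 2) (b := 4)).mono_set
      Ioc_subset_Icc_self
  have hm : Measurable (lamq n β q) := by unfold lamq; fun_prop
  have hS : MeasurableSet {p : ℝ × ℝ | p.1 < lamq n β q p.2} :=
    measurableSet_lt measurable_fst (hm.comp measurable_snd)
  have hI : Integrable (Function.uncurry fun l η : ℝ => (rho l : ℂ) * fBy x n β q l η)
      ((volume.restrict (Ioc (2 : ℝ) 4)).prod (volume.restrict (Ioi (0 : ℝ)))) := by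
    refine ((hr.mul_prod hf).indicator hS).congr (Eventually.of_forall fun p => ?_)
    simp only [indicator, mem_ofPred_eq, Function.uncurry, fBy]
    split_ifs <;> simp
  have e1 : (fun l => (rho l : ℂ) * ∫ η in Ioi (0 : ℝ), fBy x n β q l η)
      = fun l => ∫ η in Ioi (0 : ℝ), (rho l : ℂ) * fBy x n β q l η :=
    funext fun l => (integral_const_mul _ _).symm
  rw [e1]
  refine ⟨(intervalIntegrable_iff_integrableOn_Ioc_of_le (by norm_num)).2 hI.integral_prod_left, ?_⟩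
  rw [intervalIntegral.integral_of_le (by norm_num), integral_integral_swap hI]
  refine integral_congr_ae (Eventually.of_forall fun η => ?_)
  simp only
  rw [← rho_int, intervalIntegral.integral_of_le (by norm_num), ← integral_complex_ofReal,
    ← integral_mul_const]
  refine integral_congr_ae (Eventually.of_forall fun l => ?_)
  simp only [fBy]
  split_ifs <;> simp

end

end Pool.Agent.MP_9f080f_an

namespace Pool.Agent.MP_9f080f_an
open Complex MeasureTheory Set Filter Topology Metric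
open scoped Real

noncomputable section

lemma af_lamq (n : ℕ) {β : ℕ} (hβ : 0 < β) (q : ℤ) (η : ℝ) :
    lamq n β q η = 4 * n * η / (4 * β ^ 2 * η ^ 2 + (2 * q - β) ^ 2) := by
  have h : (0 : ℝ) < β := by exact_mod_cast hβ
  have e1 : 4 * (β : ℝ) ^ 2 * (η ^ 2 + ((q : ℝ) / β - 1 / 2) ^ 2) =
      4 * β ^ 2 * η ^ 2 + (2 * q - β) ^ 2 := by field_simp; ring
  have e2 : 4 * (β : ℝ) ^ 2 * (n / β ^ 2 * η) = 4 * n * η := by field_simp
  rw [lamq, ← e1, ← e2, mul_div_mul_left _ _ (by positivity)]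

lemma af_lamq_io {n : ℕ} {v : ℕ × ℤ} (hv : v ∈ WS n) {η : ℝ} (h : 0 < η) :
    lamq n (io v).1 (io v).2 (1 / (4 * η)) = lamq n v.1 v.2 η := by
  have h1 := (mem_WS.1 hv).1
  have h2 := (mem_WS.1 (io_mem hv)).1
  have e1 : ((io v).1 : ℝ) ^ 2 = (2 * v.2 - v.1) ^ 2 := by exact_mod_cast (io_sq h1).1
  have e2 : (2 * (io v).2 - (io v).1 : ℝ) ^ 2 = (v.1 : ℝ) ^ 2 := by exact_mod_cast (io_sq h1).2
  have e3 : 4 * η ^ 2 * (4 * (2 * v.2 - v.1 : ℝ) ^ 2 * (1 / (4 * η)) ^ 2 + (v.1 : ℝ) ^ 2) =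
      4 * v.1 ^ 2 * η ^ 2 + (2 * v.2 - v.1) ^ 2 := by field_simp; ring
  have e4 : 4 * η ^ 2 * (4 * n * (1 / (4 * η))) = 4 * n * η := by field_simp
  rw [af_lamq n h1.pos, af_lamq n h2.pos, e1, e2, ← e3, ← e4, mul_div_mul_left _ _ (by positivity)]

lemma af_wq_io {n : ℕ} {v : ℕ × ℤ} (hv : v ∈ WS n) : wq n (io v).1 (io v).2 = wq n v.1 v.2 := by
  have e : ((io v).1 : ℤ) * (2 * (io v).2 - (io v).1) = -(v.1 * (2 * v.2 - v.1)) := by
    rcases io_cases (mem_WS.1 hv).1 with ⟨-, k1, k2⟩ | ⟨-, k1, k2⟩ <;> rw [k1, k2] <;> ring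
  have e2 : ((io v).1 : ℝ) * (2 * (io v).2 - (io v).1) = -(v.1 * (2 * v.2 - v.1)) := by
    exact_mod_cast e
  rw [wq, wq, e2, neg_div, cw_neg]

lemma af_one {n β : ℕ} (hn : 1 ≤ n) (hβ : 0 < β) {q : ℤ} {η : ℝ} (hη : 1 / 2 < η)
    (h : 2 < lamq n β q η) : wq n β q * ps (β ^ 2 / n) = 1 := by
  have h0 : (0 : ℝ) < β := by exact_mod_cast hβ
  have hn0 : (0 : ℝ) < n := by exact_mod_cast hn
  have hη0 : 0 < η := by linarith
  rw [af_lamq n hβ, lt_div_iff₀ (by positivity), ← sq_abs (2 * q - β : ℝ)] at h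
  have e : |(β : ℝ) * (2 * q - β) / n| = β * |(2 * q - β : ℝ)| / n := by
    rw [abs_div, abs_mul, abs_of_pos h0, abs_of_pos hn0]
  have h1 : η * (2 * (β * |(2 * q - β : ℝ)|)) ≤ η * n := by
    nlinarith [sq_nonneg (2 * β * η - |(2 * q - β : ℝ)|)]
  have h2 : η * (2 * (β ^ 2 * η)) ≤ η * n := by nlinarith [sq_nonneg |(2 * q - β : ℝ)|]
  have h3 := le_of_mul_le_mul_left h1 hη0
  have h4 := le_of_mul_le_mul_left h2 hη0
  rw [wq, cw_one, ps_one, one_mul]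
  · rw [div_le_one hn0]
    nlinarith [sq_nonneg (β : ℝ)]
  · rw [e, div_le_iff₀ hn0]
    linarith

lemma af_integrable {x : ℝ} (hx : 0 ≤ x) (n : ℕ) {β : ℕ} (hβ : Odd β) (q : ℤ) :
    IntegrableOn (fun η => (RR (lamq n β q η) : ℝ) * fC x n β q η) (Ioi 0) := by
  refine Integrable.bdd_mul (c := 1) (fC_integrable hx n hβ q) ?_ (Eventually.of_forall fun η => ?_)
  · have h1 : Continuous RR := by
      unfold RR
      exact Real.smoothTransition.continuous.comp (by fun_prop)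
    have h2 : Measurable (lamq n β q) := by unfold lamq; fun_prop
    exact (measurable_ofReal.comp (h1.measurable.comp h2)).aestronglyMeasurable
  · rw [norm_real, Real.norm_of_nonneg (RR_mem _).1]
    exact (RR_mem _).2

theorem r2_eq {n : ℕ} (hn : 1 ≤ n) {x : ℝ} (hx : 0 ≤ x) :
    1 / 4 * ∑ v ∈ WS n, ∫ η in Ioi (0 : ℝ), (RR (lamq n v.1 v.2 η) : ℝ) * fC x n v.1 v.2 η =
      MT2 x n - JU2 x n - JL2 x n := by
  have hz : ∀ (β : ℕ) (q : ℤ), Odd β → ¬IsCoprime q β → ∀ η, fC x n β q η = 0 :=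
    fun β q hβ hq η => by simp [fC, (eC_spec n hβ).2.1 q hq]
  have hs : Ioi (1 / 2 : ℝ) ⊆ Ioi 0 := Ioi_subset_Ioi (by norm_num)
  obtain ⟨FU, hFU⟩ : ∃ FU : ℕ × ℤ → ℂ, FU = fun v => ∫ η in Ioi (1 / 2 : ℝ), fC x n v.1 v.2 η :=
    ⟨_, rfl⟩
  obtain ⟨PU, hPU⟩ : ∃ PU : ℕ × ℤ → ℂ, PU = fun v =>
    ∫ η in Ioi (1 / 2 : ℝ), (RR (lamq n v.1 v.2 η) : ℝ) * fC x n v.1 v.2 η := ⟨_, rfl⟩
  have hFL : ∀ v ∈ WS n, ∫ η in Ioc (0 : ℝ) (1 / 2), fC x n v.1 v.2 η = FU (io v) := fun v hv => by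
    have := subst_inv fun η hη => fC_io x (io_mem hv) hη
    rw [hFU]
    rwa [io_io hv] at this
  have hPL : ∀ v ∈ WS n, ∫ η in Ioc (0 : ℝ) (1 / 2),
      (RR (lamq n v.1 v.2 η) : ℝ) * fC x n v.1 v.2 η = PU (io v) := fun v hv => by
    rw [hPU]
    refine subst_inv fun η hη => ?_
    have h1 := fC_io x (io_mem hv) hη
    have h2 := af_lamq_io (io_mem hv) hη
    rw [io_io hv] at h1 h2
    simp only [h1, h2]
    ring
  have e1 : ∑ v ∈ WS n, ∫ η in Ioi (0 : ℝ), (RR (lamq n v.1 v.2 η) : ℝ) * fC x n v.1 v.2 η =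
      2 * ∑ v ∈ WS n, PU v := by
    rw [two_mul]
    nth_rewrite 1 [← sum_io n PU]
    rw [← Finset.sum_add_distrib]
    refine Finset.sum_congr rfl fun v hv => ?_
    rw [split_half (af_integrable hx n (mem_WS.1 hv).1 _), hPL v hv, hPU]
  have e2 : MT2 x n = 1 / 2 * ∑ v ∈ WS n, wq n v.1 v.2 * FU v := by
    rw [MT2]
    congr 1
    simp only [Finset.sum_filter]
    rw [sum_WS n (fun β q => if q ≤ 0 ∨ (β : ℤ) < q then
      wq n β q * ∫ η in Ioi (0 : ℝ), fC x n β q η else 0)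
      fun β q hβ hq => by simp [hz β q hβ hq]]
    have : ∑ v ∈ WS n, (if v.2 ≤ 0 ∨ (v.1 : ℤ) < v.2 then wq n v.1 v.2 * FU (io v) else 0) =
        ∑ v ∈ WS n, (if v.2 ≤ 0 ∨ (v.1 : ℤ) < v.2 then 0 else wq n v.1 v.2 * FU v) := by
      rw [← sum_io]
      refine Finset.sum_congr rfl fun v hv => ?_
      rw [io_io hv, af_wq_io hv, ← ite_not]
      refine if_congr ?_ rfl rfl
      have := (mem_WS.1 hv).1.pos
      rcases io_cases (mem_WS.1 hv).1 with k | k <;> omega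
    calc _ = ∑ v ∈ WS n, ((if v.2 ≤ 0 ∨ (v.1 : ℤ) < v.2 then wq n v.1 v.2 * FU (io v) else 0) +
          if v.2 ≤ 0 ∨ (v.1 : ℤ) < v.2 then wq n v.1 v.2 * FU v else 0) := by
          refine Finset.sum_congr rfl fun v hv => ?_
          rw [split_half (fC_integrable hx n (mem_WS.1 hv).1 _), hFL v hv]
          split_ifs <;> simp [hFU, mul_add]
      _ = _ := by
          rw [Finset.sum_add_distrib, this, ← Finset.sum_add_distrib]
          refine Finset.sum_congr rfl fun v _ => ?_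
          split_ifs <;> simp
  have e3 : JU2 x n = 1 / 2 * ∑ v ∈ WS n,
      (wq n v.1 v.2 * ps (v.1 ^ 2 / n) : ℝ) * (FU v - PU v) := by
    rw [JU2]
    congr 1
    rw [sum_WS n (fun β q => (wq n β q * ps (β ^ 2 / n) : ℝ) *
      ∫ η in Ioi (1 / 2 : ℝ), (1 - RR (lamq n β q η) : ℝ) * fC x n β q η)
      fun β q hβ hq => by simp [hz β q hβ hq]]
    refine Finset.sum_congr rfl fun v hv => ?_
    simp only [hFU, hPU]
    rw [← integral_sub ((fC_integrable hx n (mem_WS.1 hv).1 _).mono_set hs)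
      ((af_integrable hx n (mem_WS.1 hv).1 _).mono_set hs)]
    congr 2; ext η
    push_cast; ring
  have e4 : JL2 x n = 1 / 2 * ∑ v ∈ WS n,
      (wq n v.1 v.2 * (1 - ps (v.1 ^ 2 / n)) : ℝ) * FU v := by
    rw [JL2]
    congr 1
    rw [sum_WS n (fun β q => (wq n β q * (1 - ps ((2 * q - β) ^ 2 / n)) : ℝ) *
      ∫ η in Ioc (0 : ℝ) (1 / 2), fC x n β q η)
      fun β q hβ hq => by simp [hz β q hβ hq], ← sum_io]
    refine Finset.sum_congr rfl fun v hv => ?_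
    have e : (2 * (io v).2 - (io v).1 : ℝ) ^ 2 = (v.1 : ℝ) ^ 2 := by
      exact_mod_cast (io_sq (mem_WS.1 hv).1).2
    rw [hFL _ (io_mem hv), io_io hv, e, af_wq_io hv]
  have e5 : ∀ v ∈ WS n, (wq n v.1 v.2 * ps (v.1 ^ 2 / n) : ℝ) * PU v = PU v := fun v hv => by
    simp only [hPU]
    rw [← integral_const_mul]
    refine setIntegral_congr_fun measurableSet_Ioi fun η hη => ?_
    by_cases h : 2 < lamq n v.1 v.2 η
    · simp only [af_one hn (mem_WS.1 hv).1.pos hη h, ofReal_one, one_mul]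
    · simp only [RR_zero (not_lt.1 h), ofReal_zero, zero_mul, mul_zero]
  rw [e1, e2, e3, e4, ← mul_sub, ← mul_sub, ← Finset.sum_sub_distrib, ← Finset.sum_sub_distrib]
  have : ∑ v ∈ WS n, (wq n v.1 v.2 * FU v - (wq n v.1 v.2 * ps (v.1 ^ 2 / n) : ℝ) * (FU v - PU v) -
      (wq n v.1 v.2 * (1 - ps (v.1 ^ 2 / n)) : ℝ) * FU v) = ∑ v ∈ WS n, PU v := by
    refine Finset.sum_congr rfl fun v hv => ?_
    have h := e5 v hv
    generalize ps (v.1 ^ 2 / n) = c at h ⊢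
    push_cast at h ⊢
    linear_combination h
  rw [this]; ring

/-- average `cn_split` against `rho` (`rho_total`, `r2_avg`, `r2_eq`); the first summand is integrable as a difference -/
theorem cn_eq2 {n : ℕ} (hn : 1 ≤ n) {x : ℝ} (hx : 0 ≤ x) :
    cn x n = (∫ l in (2 : ℝ)..4, (rho l : ℂ) * R1y x n (l / n)) + (MT2 x n - JU2 x n - JL2 x n) := by
  have hi := fun v (hv : v ∈ WS n) => r2_avg hx n (mem_WS.1 hv).1 v.2
  have hρ : IntervalIntegrable (fun l => (rho l : ℂ) * cn x n) volume 2 4 :=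
    ((continuous_ofReal.comp rho_cont).mul continuous_const).intervalIntegrable _ _
  have e : ∫ l in (2 : ℝ)..4, (rho l : ℂ) * R1y x n (l / n) =
      ∫ l in (2 : ℝ)..4, ((rho l : ℂ) * cn x n - 1 / 4 * ∑ v ∈ WS n,
        (rho l : ℂ) * ∫ η in Ioi (0 : ℝ), fBy x n v.1 v.2 l η) := by
    refine intervalIntegral.integral_congr fun l hl => ?_
    rw [uIcc_of_le (by norm_num)] at hl
    simp only [← Finset.mul_sum]
    rw [cn_split hn hx (l := l) (by linarith [hl.1])]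
    ring
  have hs : IntervalIntegrable (fun l => ∑ v ∈ WS n,
      (rho l : ℂ) * ∫ η in Ioi (0 : ℝ), fBy x n v.1 v.2 l η) volume 2 4 := by
    have := IntervalIntegrable.sum (WS n) fun v hv => (hi v hv).1
    rwa [Finset.sum_fn] at this
  rw [e, intervalIntegral.integral_sub hρ (hs.const_mul _), intervalIntegral.integral_const_mul,
    intervalIntegral.integral_finsetSum fun v hv => (hi v hv).1,
    Finset.sum_congr rfl fun v hv => (hi v hv).2, r2_eq hn hx, intervalIntegral.integral_mul_const,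
    intervalIntegral.integral_ofReal, rho_total]
  simp

end

end Pool.Agent.MP_9f080f_an

end
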