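import Pool.Agent.MP_9f080f_an.Mg.G_AB
import Pool.Agent.MP_9f080f_an.Mg.G_AE

namespace Pool.Agent.MP_9f080f_an
open Complex MeasureTheory Set Filter Topology Metric
open scoped Real

noncomputable section

/-! The two error terms on the vertical line.  Write `z t = ln η - t = ln η + (-1) * t`, `normSq (z t) = η² + (t - 1/2)²` (`jest_normsq`), and use `cut_all`, `Cut.comp`, `Cut.one_sub`, `D2.quad`, `jet_rte`,
`jet_lam`, `J2.mul`, `J2.zero`.
`ju_pt`: `pv2A` with `δ = min η H / 2 ≥ 1/4`.  If `|2t - 1| > H` or `H η / normSq > 4` the function vanishes near `t`.  Otherwise `normSq ≥ max (H η/4) η²`, the jets are `≲ normSq^(-3/4)`, and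
`φ t = K δ^(-2) (m² + (t - 1/2)²)^(-3/4)` (or a simpler majorant such as `indicator`) on `|t - 1/2| ≤ H/2`, `m² = max (Hη/8) (η²/2)`-like.  If `η ≤ H` then `∫ φ ≲ η^(-2) (H η)^(-1/4)`, if `H < η` then `∫ φ ≲ H^(-2) H η^(-3/2)`;
both are `≲ H^(-1/4) η^(-5/4)` since `H, η ≥ 1/2`.  (For the first case: `∫ (m + |s|)^(-3/2) ds = 4 m^(-1/2)`.)
`jl_pt`: `pv2B` (or `pv2A` with `δ = 1/4`); the function vanishes near `t` unless `H ≤ (2t-1)² ≤ H²`; there `‖z‖ ≥ √H/2 ≥ 1/2`, `H ≤ 4 normSq`; `∫_{|s| ≥ √H/2} |s|^(-3/2) ≲ H^(-1/4)`.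
`ju2`, `jl2`: as in `JU_gen`, `JL_gen` (`jest_fC`, `jest_QS`, `jest_H`): move the finite sum over `q` inside the integral (`fC_integrable`); it equals the `tsum` because `wq` vanishes outside of `QS n β`
(`β (2q - β)/n = (2 q/β - 1)/H`, `H = n/β²`); `eC_twW`, `phi_up` (`∫ η^(1/6 - 5/4)` converges), `phi_low` (`∫_0^(1/2) exp (-2π x η) ≲ (1+x)^(-2/3)`); only `β² ≤ 2n` matter; `ph_pw2` with `X = √(2n)`. -/

lemma aia_key {H η : ℝ} (hH : 1 / 2 ≤ H) (hη : 1 / 2 ≤ η) : ∃ M m : ℝ, 0 < M ∧ 0 < m ∧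
    m ≤ 512 * (H ^ (-1 / 4 : ℝ) * η ^ (-5 / 4 : ℝ)) * ((min η H / 2) ^ 2 * M ^ 3) ∧
    ∀ s : ℝ, |s| ≤ H / 2 → H * η ≤ 4 * (η ^ 2 + s ^ 2) →
      M ^ 4 * (1 + (s / m) ^ 2) ≤ η ^ 2 + s ^ 2 := by
  have rt4 : ∀ x : ℝ, 1 / 2 ≤ x → ∃ a : ℝ, 1 / 2 ≤ a ∧ x = a ^ 4 := by
    intro x hx
    have h : (x ^ (((4 : ℕ) : ℝ)⁻¹)) ^ 4 = x := Real.rpow_inv_natCast_pow (by linarith) (by norm_num)
    refine ⟨_, ?_, h.symm⟩
    refine le_of_pow_le_pow_left₀ (n := 4) (by norm_num) (by positivity) ?_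
    rw [h]
    linarith [show ((1 : ℝ) / 2) ^ 4 ≤ 1 / 2 by norm_num]
  obtain ⟨a, ha, rfl⟩ := rt4 H hH
  obtain ⟨b, hb, rfl⟩ := rt4 η hη
  have ha0 : 0 < a := by linarith
  have hb0 : 0 < b := by linarith
  have e1 : (a ^ 4) ^ (-1 / 4 : ℝ) = a⁻¹ := by
    rw [← Real.rpow_natCast, ← Real.rpow_mul ha0.le, ← Real.rpow_neg_one]
    norm_num
  have e2 : (b ^ 4) ^ (-5 / 4 : ℝ) = (b ^ 5)⁻¹ := by
    rw [← Real.rpow_natCast, ← Real.rpow_mul hb0.le, ← Real.rpow_natCast, ← Real.rpow_neg hb0.le]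
    norm_num
  rw [e1, e2]
  rcases le_total (b ^ 4) (a ^ 4) with h | h
  · rw [min_eq_left h]
    refine ⟨a * b / 2, a ^ 2 * b ^ 2 / 2, by positivity, by positivity, ?_, fun s _ h2 => ?_⟩
    · have e : 512 * (a⁻¹ * (b ^ 5)⁻¹) * ((b ^ 4 / 2) ^ 2 * (a * b / 2) ^ 3) =
          a ^ 2 * b ^ 2 / 2 * (32 * b ^ 4) := by field_simp; norm_num
      rw [e]
      exact le_mul_of_one_le_right (by positivity) (by linarith)
    · have e : (a * b / 2) ^ 4 * (1 + (s / (a ^ 2 * b ^ 2 / 2)) ^ 2) =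
          a ^ 4 * b ^ 4 / 16 + s ^ 2 / 4 := by field_simp; ring
      rw [e]
      nlinarith [sq_nonneg s, sq_nonneg (b ^ 4)]
  · rw [min_eq_right h]
    refine ⟨b ^ 2 / 2, a ^ 4, by positivity, by positivity, ?_, fun s h1 _ => ?_⟩
    · have e : 512 * (a⁻¹ * (b ^ 5)⁻¹) * ((a ^ 4 / 2) ^ 2 * (b ^ 2 / 2) ^ 3) =
          a ^ 4 * (16 * (a ^ 3 * b)) := by field_simp; norm_num
      rw [e]
      have h3 : (1 / 2) ^ 3 * (1 / 2) ≤ a ^ 3 * b :=
        mul_le_mul (pow_le_pow_left₀ (by norm_num) ha 3) hb (by norm_num) (by positivity)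
      exact le_mul_of_one_le_right (by positivity) (by linarith)
    · have h3 : (s / a ^ 4) ^ 2 ≤ 1 := by
        rw [sq_le_one_iff_abs_le_one, abs_div, abs_of_pos (by positivity : 0 < a ^ 4),
          div_le_one (by positivity)]
        linarith
      have h4 := mul_le_mul_of_nonneg_left (add_le_add_right h3 1)
        (by positivity : 0 ≤ (b ^ 2 / 2) ^ 4)
      nlinarith [sq_nonneg s, sq_nonneg (b ^ 4)]

lemma aia_normSq (η t : ℝ) : normSq (ln η + ((-1 : ℝ) : ℂ) * t) = η ^ 2 + (t - 1 / 2) ^ 2 := by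
  rw [normSq_apply]
  simp [ln]
  ring

lemma aia_im (η t : ℝ) : (ln η + ((-1 : ℝ) : ℂ) * t).im = η := by simp [ln]

lemma aia_jet : ∃ K : ℝ, 0 < K ∧ ∀ H η t : ℝ, 1 / 2 ≤ H → 1 / 2 ≤ η → |t - 1 / 2| ≤ H / 2 →
    H * η ≤ 4 * (η ^ 2 + (t - 1 / 2) ^ 2) →
    J2 (fun t : ℝ => ((cw ((2 * t - 1) / H) * (1 - RR (H * η / (η ^ 2 + (t - 1 / 2) ^ 2))) : ℝ) : ℂ) *
      kc H (ln η - t)) t (min η H / 2) (K * (η ^ 2 + (t - 1 / 2) ^ 2) ^ (-3 / 4 : ℝ)) := by
  obtain ⟨K1, hK1, c1, -, c2, -⟩ := cut_all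
  obtain ⟨K2, hK2, hj⟩ := jet_rte (A := 4) (by norm_num)
  refine ⟨4 * (4 * (2 * K1 * 1 ^ 2) * (2 * (K1 + 1) * (4 * 4) ^ 2)) * K2, by positivity,
    fun H η t hH hη h1 h2 => ?_⟩
  have hH0 : 0 < H := by linarith
  have hη0 : 0 < η := by linarith
  have hδ : 0 < min η H / 2 := half_pos (lt_min hη0 hH0)
  have a1 : 2 * (min η H / 2) ≤ ‖ln η + ((-1 : ℝ) : ℂ) * t‖ := by
    have := (le_abs_self _).trans (abs_im_le_norm (ln η + ((-1 : ℝ) : ℂ) * t))
    rw [aia_im] at this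
    linarith [min_le_left η H]
  have a2 : H * (min η H / 2) ≤ 4 * normSq (ln η + ((-1 : ℝ) : ℂ) * t) := by
    rw [aia_normSq]
    nlinarith [min_le_left η H, mul_pos hH0 hη0]
  have b1 := (hj (ln η) (-1) t _ H (by norm_num) hδ hH0.le (by rw [aia_im]; exact hη0.le) a1 a2
    (by rw [aia_im, aia_normSq]; exact h2)).2
  have b2 := c1.one_sub.comp (jet_lam (by norm_num) hδ hH0.le a1 a2) hδ.le (by norm_num)
  have b3 := c2.comp (D2.quad (a := 0) (b := 2 / H) (c := -1 / H) (u := t) (δ := min η H / 2)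
    (A := 1) (by
      rw [mul_zero, zero_mul, zero_add, abs_of_pos (by positivity), ← le_div_iff₀ (by positivity),
        one_div_div]
      linarith [min_le_right η H]) (by simp)) hδ.le le_rfl
  have e : ‖ln η + ((-1 : ℝ) : ℂ) * t‖ ^ (-3 / 2 : ℝ) = (η ^ 2 + (t - 1 / 2) ^ 2) ^ (-3 / 4 : ℝ) := by
    rw [← aia_normSq, normSq_eq_norm_sq, ← Real.rpow_natCast, ← Real.rpow_mul (norm_nonneg _)]
    norm_num
  rw [e] at b1
  refine (((b3.mul hδ.le b2).mul hδ.le b1).congr (Eventually.of_forall fun u => ?_)).mono hδ.le le_rfl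
    (le_of_eq (by ring))
  simp only [aia_im, aia_normSq]
  rw [show 0 * u ^ 2 + 2 / H * u + -1 / H = (2 * u - 1) / H by ring,
    show ln η + ((-1 : ℝ) : ℂ) * u = ln η - u by push_cast; ring, ofReal_mul]

theorem ju_pt : ∃ C : ℝ, 0 < C ∧ ∀ (e : ℤ → ℂ) (P : ℕ) (W : ℤ → ℝ) (H η : ℝ), 0 < P → TwW e P (3 / 8) W →
    1 / 2 ≤ H → 1 / 2 ≤ η →
    ‖∑' q : ℤ, e q * ((cw ((2 * (q / P) - 1) / H) * (1 - RR (H * η / (η ^ 2 + (q / P - 1 / 2) ^ 2))) : ℝ) *
      kc H (ln η - ((q / P : ℝ) : ℂ)))‖ ≤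
      C * √P * pw2 W P * (H ^ (-1 / 4 : ℝ) * η ^ (-5 / 4 : ℝ)) := by
  obtain ⟨K1, hK1, hpv⟩ := pv2A
  obtain ⟨K2, hK2, hj⟩ := aia_jet
  let ψ : ℝ → ℝ := fun x => (1 + x ^ 2) ^ (-3 / 4 : ℝ)
  have hψ : Integrable ψ := by
    have := integrable_rpow_neg_one_add_norm_sq (E := ℝ) (μ := volume) (r := 3 / 2)
      (by rw [Module.finrank_self]; norm_num)
    refine this.congr (Eventually.of_forall fun x => ?_)
    simp only [ψ, Real.norm_eq_abs, sq_abs]
    norm_num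
  have hI : 0 ≤ ∫ x, ψ x := integral_nonneg fun x => by simp only [ψ]; positivity
  refine ⟨K1 * (K2 * 512 * (∫ x, ψ x) + 1), by positivity, fun e P W H η hP hW hH hη => ?_⟩
  obtain ⟨M, m, hM, hm, k1, k2⟩ := aia_key hH hη
  have hH0 : 0 < H := by linarith
  have hη0 : 0 < η := by linarith
  have hδ : 0 < min η H / 2 := half_pos (lt_min hη0 hH0)
  have z1 : ∀ t : ℝ, H / 2 < |t - 1 / 2| → cw ((2 * t - 1) / H) = 0 := fun t ht => cw_zero (by
    rw [abs_div, abs_of_pos hH0, one_le_div hH0, show 2 * t - 1 = 2 * (t - 1 / 2) by ring, abs_mul,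
      abs_two]
    linarith)
  have key := hpv e P W (fun t : ℝ => ((cw ((2 * t - 1) / H) *
      (1 - RR (H * η / (η ^ 2 + (t - 1 / 2) ^ 2))) : ℝ) : ℂ) * kc H (ln η - t))
    (fun t => K2 / ((min η H / 2) ^ 2 * M ^ 3) * ψ ((t - 1 / 2) / m)) (H + 1) hP hW
    (fun t => ?_) (fun t ht => ?_) (((hψ.comp_div hm.ne').comp_sub_right _).const_mul _)
  · refine key.trans ?_
    have hp : 0 ≤ pw2 W P := Finset.sum_nonneg fun k _ => div_nonneg
      (nonneg_of_mul_nonneg_right ((norm_nonneg _).trans (hW.four k)) (by positivity)) (by positivity)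
    rw [integral_const_mul, integral_sub_right_eq_self (fun t => ψ (t / m)),
      Measure.integral_comp_div, abs_of_pos hm, smul_eq_mul]
    have k3 : K2 / ((min η H / 2) ^ 2 * M ^ 3) * (m * ∫ x, ψ x) ≤
        (K2 * 512 * (∫ x, ψ x) + 1) * (H ^ (-1 / 4 : ℝ) * η ^ (-5 / 4 : ℝ)) := by
      rw [← div_le_iff₀ (by positivity)] at k1
      have h0 : 0 ≤ H ^ (-1 / 4 : ℝ) * η ^ (-5 / 4 : ℝ) := by positivity
      have h1 := mul_le_mul_of_nonneg_left k1 (mul_nonneg hK2.le hI)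
      calc _ = K2 * (∫ x, ψ x) * (m / ((min η H / 2) ^ 2 * M ^ 3)) := by ring
        _ ≤ _ := h1
        _ ≤ _ := by linarith
    calc _ ≤ K1 * √P * pw2 W P * ((K2 * 512 * (∫ x, ψ x) + 1) *
          (H ^ (-1 / 4 : ℝ) * η ^ (-5 / 4 : ℝ))) := mul_le_mul_of_nonneg_left k3 (by positivity)
      _ = _ := by ring
  · have hφ : 0 ≤ (min η H / 2) ^ 2 * (K2 / ((min η H / 2) ^ 2 * M ^ 3) * ψ ((t - 1 / 2) / m)) := by
      simp only [ψ]; positivity
    by_cases h1 : H / 2 < |t - 1 / 2|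
    · refine ⟨_, 0, hδ, J2.zero ?_ _, hφ⟩
      filter_upwards [(continuousAt_const (y := H / 2)).eventually_lt
        (show ContinuousAt (fun t : ℝ => |t - 1 / 2|) t by fun_prop) h1] with u hu
      rw [z1 u hu]
      simp
    by_cases h2 : 4 * (η ^ 2 + (t - 1 / 2) ^ 2) < H * η
    · refine ⟨_, 0, hδ, J2.zero ?_ _, hφ⟩
      filter_upwards [(show ContinuousAt (fun t : ℝ => 4 * (η ^ 2 + (t - 1 / 2) ^ 2)) t by
        fun_prop).eventually_lt (continuousAt_const (y := H * η)) h2] with u hu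
      rw [RR_one ((le_div_iff₀ (by positivity)).2 hu.le)]
      simp
    rw [not_lt] at h1 h2
    refine ⟨_, _, hδ, hj H η t hH hη h1 h2, ?_⟩
    have e1 : (M ^ 4) ^ (-3 / 4 : ℝ) = (M ^ 3)⁻¹ := by
      rw [← Real.rpow_natCast, ← Real.rpow_mul hM.le, ← Real.rpow_natCast, ← Real.rpow_neg hM.le]
      norm_num
    have h3 := Real.rpow_le_rpow_of_nonpos (by positivity) (k2 _ h1 h2)
      (show (-3 / 4 : ℝ) ≤ 0 by norm_num)
    rw [Real.mul_rpow (by positivity) (by positivity), e1] at h3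
    refine (mul_le_mul_of_nonneg_left h3 hK2.le).trans (le_of_eq ?_)
    simp only [ψ]
    field_simp
  · have : H / 2 < |t - 1 / 2| := by
      have := abs_sub_abs_le_abs_sub t (1 / 2)
      rw [abs_of_pos (show (0 : ℝ) < 1 / 2 by norm_num)] at this
      linarith
    rw [z1 t this]
    simp

end

end Pool.Agent.MP_9f080f_an

namespace Pool.Agent.MP_9f080f_an
open Complex MeasureTheory Set Filter Topology Metric
open scoped Real

noncomputable section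

lemma aib_tsum {n β : ℕ} (hn : 1 ≤ n) (hβ : β ∈ BS n) (x η : ℝ) :
    ∑ q ∈ QS n β, (wq n β q : ℂ) * ((1 - RR (lamq n β q η) : ℝ) * fC x n β q η) =
      (√β / β ^ 2 : ℝ) * phi x (ln η) * I * ∑' q : ℤ, eC n β q *
        ((cw ((2 * (q / β) - 1) / (n / β ^ 2)) *
          (1 - RR (n / β ^ 2 * η / (η ^ 2 + (q / β - 1 / 2) ^ 2))) : ℝ) *
          kc (n / β ^ 2) (ln η - ((q / β : ℝ) : ℂ))) := by
  have hodd : Odd β := (Finset.mem_filter.1 hβ).2
  have hb : (0 : ℝ) < β := by exact_mod_cast hodd.pos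
  have hn0 : (0 : ℝ) < n := by exact_mod_cast hn
  have hH : (0 : ℝ) < n / β ^ 2 := by positivity
  rw [tsum_eq_sum (s := QS n β), Finset.mul_sum]
  · refine Finset.sum_congr rfl fun q _ => ?_
    have e : (β : ℝ) * (2 * q - β) / n = (2 * (q / β) - 1) / (n / β ^ 2) := by field_simp
    rw [jest_fC, wq, lamq, e, ofReal_mul]
    ring
  · intro q hq
    rw [jest_QS hβ, not_le] at hq
    have h1 : 1 ≤ |(2 * ((q : ℝ) / β) - 1) / (n / β ^ 2)| := by
      rw [abs_div, abs_of_pos hH, one_le_div hH,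
        show 2 * ((q : ℝ) / β) - 1 = 2 * ((q : ℝ) / β - 1 / 2) by ring, abs_mul, abs_two]
      linarith
    rw [cw_zero h1, zero_mul, ofReal_zero, zero_mul, mul_zero]

lemma aib_int {n β : ℕ} (hβ : Odd β) {x : ℝ} (hx : 0 ≤ x) (q : ℤ) :
    IntegrableOn (fun η => ((1 - RR (lamq n β q η) : ℝ) : ℂ) * fC x n β q η) (Ioi (1 / 2)) := by
  have h1 : IntegrableOn (fC x n β q) (Ioi (1 / 2)) :=
    (fC_integrable hx n hβ q).mono_set (Ioi_subset_Ioi (by norm_num))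
  have h2 : Continuous RR := Real.smoothTransition.continuous.comp (by fun_prop)
  have h3 : Measurable (lamq n β q) := by unfold lamq; fun_prop
  refine Integrable.bdd_mul (c := 1) h1 (Complex.measurable_ofReal.comp
    (measurable_const.sub (h2.measurable.comp h3))).aestronglyMeasurable
    (Eventually.of_forall fun η => ?_)
  have h4 := RR_mem (lamq n β q η)
  rw [Complex.norm_real, Real.norm_of_nonneg (by linarith [h4.2])]
  linarith [h4.1]

lemma aib_one : ∃ C : ℝ, 0 ≤ C ∧ ∀ (n β : ℕ) (x : ℝ), 1 ≤ n → β ∈ BS n → β ^ 2 ≤ 2 * n → 0 ≤ x →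
    (∀ m, 0 ≤ Wf F1 n β m) →
    ‖∑ q ∈ QS n β, (wq n β q : ℂ) *
      ∫ η in Ioi (1 / 2 : ℝ), (1 - RR (lamq n β q η) : ℝ) * fC x n β q η‖ ≤
      C * (n : ℝ) ^ (-1 / 4 : ℝ) * (1 + x) ^ (-2 / 3 : ℝ) * (pw2 (Wf F1 n β) β / √β) := by
  obtain ⟨C₃, hP⟩ := phi_up
  obtain ⟨K, hK, hJ⟩ := ju_pt
  have hint : IntegrableOn (fun η : ℝ => η ^ (-13 / 12 : ℝ)) (Ioi (1 / 2)) :=
    integrableOn_Ioi_rpow_of_lt (by norm_num) (by norm_num)
  set I₀ : ℝ := ∫ η in Ioi (1 / 2 : ℝ), η ^ (-13 / 12 : ℝ) with hI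
  have hI0 : 0 ≤ I₀ := setIntegral_nonneg measurableSet_Ioi fun η hη =>
    Real.rpow_nonneg (by linarith [mem_Ioi.1 hη]) _
  refine ⟨K * |C₃| * I₀, by positivity, fun n β x hn hβ hβn hx hW => ?_⟩
  have hX : 0 ≤ (1 + x) ^ (-2 / 3 : ℝ) := by positivity
  have hodd : Odd β := (Finset.mem_filter.1 hβ).2
  have hb : (0 : ℝ) < β := by exact_mod_cast hodd.pos
  have hn0 : (0 : ℝ) < n := by exact_mod_cast hn
  have hH0 : (0 : ℝ) < n / β ^ 2 := by positivity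
  have hH1 : (1 / 2 : ℝ) ≤ n / β ^ 2 := by
    have h8 : (β : ℝ) ^ 2 ≤ 2 * n := by exact_mod_cast hβn
    rw [le_div_iff₀ (by positivity)]; linarith
  have hHe : ((n : ℝ) / β ^ 2) ^ (-1 / 4 : ℝ) = (n : ℝ) ^ (-1 / 4 : ℝ) * √β := by
    rw [← jest_H (by omega : 0 < n) hodd.pos, Real.sqrt_eq_rpow, Real.sqrt_eq_rpow,
      ← Real.rpow_mul hH0.le, one_div (_ ^ _), ← Real.rpow_neg hH0.le]
    norm_num
  have hpw := pw2_nonneg hW β
  have hsb : 0 < √(β : ℝ) := Real.sqrt_pos.2 hb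
  simp only [← integral_const_mul]
  rw [← integral_finsetSum _ fun q _ => (aib_int hodd hx q).const_mul _]
  refine (norm_integral_le_of_norm_le (hint.const_mul (√β / β ^ 2 * (|C₃| * (1 + x) ^ (-2 / 3 : ℝ)) *
      (K * √β * pw2 (Wf F1 n β) β * ((n : ℝ) ^ (-1 / 4 : ℝ) * √β)))) ?_).trans (le_of_eq ?_)
  swap
  · rw [integral_const_mul, ← hI]
    have e : (β : ℝ) ^ 2 = √β * √β * √β * √β := by
      rw [mul_assoc (√β * √β), Real.mul_self_sqrt hb.le, pow_two]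
    rw [e]
    field_simp
  rw [ae_restrict_iff' measurableSet_Ioi]
  refine Eventually.of_forall fun η hη => ?_
  have hη' : 1 / 2 < η := hη
  have hη0 : 0 < η := by linarith
  have key := hJ (eC n β) β (Wf F1 n β) (n / β ^ 2) η hodd.pos (eC_twW n hodd) hH1 hη'.le
  have hphi : ‖phi x (ln η)‖ ≤ |C₃| * η ^ (1 / 6 : ℝ) * (1 + x) ^ (-2 / 3 : ℝ) := by
    have := hP x hx (ln η) (by rw [ln_im]; exact hη'.le) (by rw [ln_re]; norm_num [abs_le])
    rw [ln_im] at this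
    refine this.trans ?_
    gcongr
    exact le_abs_self _
  have e2 : η ^ (-13 / 12 : ℝ) = η ^ (1 / 6 : ℝ) * η ^ (-5 / 4 : ℝ) := by
    rw [← Real.rpow_add hη0]
    norm_num
  rw [hHe] at key
  rw [aib_tsum hn hβ, norm_mul, norm_mul, norm_mul, norm_I, mul_one, Complex.norm_real,
    Real.norm_of_nonneg (by positivity), e2]
  calc _ ≤ √β / β ^ 2 * (|C₃| * η ^ (1 / 6 : ℝ) * (1 + x) ^ (-2 / 3 : ℝ)) *
        (K * √β * pw2 (Wf F1 n β) β * ((n : ℝ) ^ (-1 / 4 : ℝ) * √β * η ^ (-5 / 4 : ℝ))) := by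
        gcongr
    _ = _ := by ring

theorem ju2 : ∃ C : ℝ, 0 < C ∧ ∀ (n X₁ : ℕ) (Λ x : ℝ), 1 ≤ n → PH (Wf F1 n) X₁ Λ → 2 * n ≤ X₁ ^ 2 → 0 ≤ x →
    ‖JU2 x n‖ ≤ C * Λ * (1 + x) ^ (-2 / 3 : ℝ) := by
  classical
  obtain ⟨C, hC, h1⟩ := aib_one
  obtain ⟨K, hK, h2⟩ := ph_pw2
  refine ⟨C * K * 2 + 1, by positivity, fun n X₁ Λ x hn hW hX₁ hx => ?_⟩
  have hX : 0 ≤ (1 + x) ^ (-2 / 3 : ℝ) := by positivity
  have hΛ : 0 ≤ Λ := (hW 0).lam
  have hn0 : (0 : ℝ) < n := by exact_mod_cast hn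
  have h3 := h2 _ X₁ Λ √(2 * n) ((BS n).filter fun b => b ^ 2 ≤ 2 * n) hW (by positivity)
    (fun b hb => by
      obtain ⟨b1, b2⟩ := Finset.mem_filter.1 hb
      exact Finset.mem_Icc.2 ⟨(Finset.mem_Icc.1 (Finset.mem_filter.1 b1).1).1,
        (Nat.pow_le_pow_iff_left two_ne_zero).1 (b2.trans hX₁)⟩)
    (fun b hb => Real.le_sqrt_of_sq_le (by exact_mod_cast (Finset.mem_filter.1 hb).2))
  have h4 : (n : ℝ) ^ (-1 / 4 : ℝ) * √√(2 * n) ≤ 2 := by
    have h5 := jest_H (β := 1) (by omega : 0 < n) one_pos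
    rw [Nat.cast_one, Real.sqrt_one, mul_one, one_pow, div_one] at h5
    have h6 : 0 < √√(n : ℝ) := by positivity
    rw [← h5, one_div_mul_eq_div, div_le_iff₀ h6]
    have h7 : √(2 * (n : ℝ)) ≤ 4 * √(n : ℝ) := by
      refine Real.sqrt_le_iff.2 ⟨by positivity, ?_⟩
      rw [mul_pow, Real.sq_sqrt hn0.le]; linarith
    refine Real.sqrt_le_iff.2 ⟨by positivity, ?_⟩
    rw [mul_pow, Real.sq_sqrt (Real.sqrt_nonneg _)]; linarith
  have h5 : ‖JU2 x n‖ ≤ C * (n : ℝ) ^ (-1 / 4 : ℝ) * (1 + x) ^ (-2 / 3 : ℝ) *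
      ∑ β ∈ (BS n).filter (fun b => b ^ 2 ≤ 2 * n), pw2 (Wf F1 n β) β / √β := by
    refine (jest_half _).trans ?_
    rw [Finset.mul_sum, Finset.sum_filter]
    refine norm_sum_le_of_le _ fun β hβ => ?_
    have e : ∑ q ∈ QS n β, ((wq n β q * ps (β ^ 2 / n) : ℝ) : ℂ) *
        ∫ η in Ioi (1 / 2 : ℝ), (1 - RR (lamq n β q η) : ℝ) * fC x n β q η =
        (ps (β ^ 2 / n) : ℝ) * ∑ q ∈ QS n β, (wq n β q : ℂ) *
          ∫ η in Ioi (1 / 2 : ℝ), (1 - RR (lamq n β q η) : ℝ) * fC x n β q η := by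
      rw [Finset.mul_sum]
      refine Finset.sum_congr rfl fun q _ => ?_
      rw [ofReal_mul]
      ring
    rw [e]
    split_ifs with hc
    · have h6 := ps_mem ((β : ℝ) ^ 2 / n)
      rw [norm_mul, Complex.norm_real, Real.norm_of_nonneg h6.1]
      exact (mul_le_of_le_one_left (norm_nonneg _) h6.2).trans
        (h1 n β x hn hβ hc hx fun m => (hW m).nonneg β)
    · have h6 : (2 : ℝ) * n ≤ (β : ℝ) ^ 2 := by exact_mod_cast (not_le.1 hc).le
      rw [ps_zero ((le_div_iff₀ hn0).2 h6), ofReal_zero, zero_mul, norm_zero]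
  calc _ ≤ _ := h5
    _ ≤ C * (n : ℝ) ^ (-1 / 4 : ℝ) * (1 + x) ^ (-2 / 3 : ℝ) * (K * Λ * √√(2 * n)) := by gcongr
    _ = C * K * ((n : ℝ) ^ (-1 / 4 : ℝ) * √√(2 * n)) * Λ * (1 + x) ^ (-2 / 3 : ℝ) := by ring
    _ ≤ _ := by
      gcongr
      have := mul_le_mul_of_nonneg_left h4 (mul_nonneg hC hK.le)
      linarith

end

end Pool.Agent.MP_9f080f_an

namespace Pool.Agent.MP_9f080f_an
open Complex MeasureTheory Set Filter Topology Metric
open scoped Real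

noncomputable section

/-- the one-sided majorant -/
def aic_g (m s : ℝ) : ℝ := (Ioi m).indicator (fun s => s ^ (-3 / 2 : ℝ)) s

lemma aic_g_nonneg {m : ℝ} (hm : 0 < m) (s : ℝ) : 0 ≤ aic_g m s :=
  indicator_nonneg (fun _ h => Real.rpow_nonneg (hm.trans h).le _) s

lemma aic_g_int {m : ℝ} (hm : 0 < m) : Integrable (aic_g m) :=
  (integrable_indicator_iff measurableSet_Ioi).2
    (integrableOn_Ioi_rpow_of_lt (by norm_num) hm)

lemma aic_g_val {H : ℝ} (hH : 0 < H) : ∫ s, aic_g (√H / 4) s = 4 * H ^ (-1 / 4 : ℝ) := by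
  have hm : 0 < √H / 4 := by positivity
  unfold aic_g
  rw [integral_indicator measurableSet_Ioi, integral_Ioi_rpow_of_lt (by norm_num) hm,
    Real.div_rpow (Real.sqrt_nonneg H) (by norm_num), Real.sqrt_eq_rpow, ← Real.rpow_mul hH.le]
  have h4 : (4 : ℝ) ^ (-3 / 2 + 1 : ℝ) = 1 / 2 := by
    rw [show (4 : ℝ) = 2 ^ (2 : ℝ) by norm_num, ← Real.rpow_mul (by norm_num)]
    norm_num
  rw [h4, show (1 / 2 * (-3 / 2 + 1) : ℝ) = -1 / 4 by norm_num]
  ring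

lemma aic_major {m s x : ℝ} (hm : 0 < m) (h : m < |s|) (hx : |s| ≤ x) :
    x ^ (-3 / 2 : ℝ) ≤ aic_g m s + aic_g m (-s) := by
  have h1 : x ^ (-3 / 2 : ℝ) ≤ |s| ^ (-3 / 2 : ℝ) :=
    Real.rpow_le_rpow_of_nonpos (hm.trans h) hx (by norm_num)
  have h2 : aic_g m |s| = |s| ^ (-3 / 2 : ℝ) := indicator_of_mem (mem_Ioi.2 h) _
  rcases abs_cases s with ⟨e, -⟩ | ⟨e, -⟩
  · have := aic_g_nonneg hm (-s)
    rw [← h2] at h1
    rw [e] at h1
    linarith
  · have := aic_g_nonneg hm s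
    rw [← h2] at h1
    rw [e] at h1
    linarith

lemma aic_cw_zero {H t : ℝ} (hH : 0 < H) (h : H ^ 2 ≤ (2 * t - 1) ^ 2) : cw ((2 * t - 1) / H) = 0 := by
  apply cw_zero
  rw [abs_div, abs_of_pos hH, one_le_div hH]
  have := sq_le_sq.1 h
  rwa [abs_of_pos hH] at this

lemma aic_ps_one {H t : ℝ} (hH : 0 < H) (h : (2 * t - 1) ^ 2 ≤ H) : ps ((2 * t - 1) ^ 2 / H) = 1 :=
  ps_one ((div_le_one hH).2 h)

theorem jl_pt : ∃ C : ℝ, 0 < C ∧ ∀ (e : ℤ → ℂ) (P : ℕ) (W : ℤ → ℝ) (H η : ℝ), 0 < P → TwW e P (3 / 8) W →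
    0 < H → 0 < η → η ≤ 1 / 2 →
    ‖∑' q : ℤ, e q * ((cw ((2 * (q / P) - 1) / H) * (1 - ps ((2 * (q / P) - 1) ^ 2 / H)) : ℝ) *
      kc H (ln η - ((q / P : ℝ) : ℂ)))‖ ≤
      if 1 ≤ H then C * √P * pw2 W P * H ^ (-1 / 4 : ℝ) else 0 := by
  obtain ⟨K, hK1, -, -, hcw, hps, -, -⟩ := cut_all
  obtain ⟨K₁, hK₁, hjet⟩ := jet_rte (A := 4) (by norm_num)
  obtain ⟨K₂, hK₂, hpv⟩ := pv2A
  set M : ℝ := 4 * (4 * (2 * K * 1 ^ 2) * (2 * (K + 1) * 1 ^ 2)) * K₁ with hM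
  have hM0 : 0 < M := by positivity
  refine ⟨K₂ * (16 * M * 8), by positivity, fun e P W H η hP hT hH hη hη2 => ?_⟩
  split_ifs with hH1
  swap
  · push Not at hH1
    have : ∀ t : ℝ, cw ((2 * t - 1) / H) * (1 - ps ((2 * t - 1) ^ 2 / H)) = 0 := by
      intro t
      rcases le_total (H ^ 2) ((2 * t - 1) ^ 2) with h | h
      · rw [aic_cw_zero hH h, zero_mul]
      · rw [aic_ps_one hH (by nlinarith), sub_self, mul_zero]
    simp [this]
  have hm : 0 < √H / 4 := by positivity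
  have key := hpv e P W (fun t => ((cw ((2 * t - 1) / H) * (1 - ps ((2 * t - 1) ^ 2 / H)) : ℝ) : ℂ) *
      kc H (ln η - (t : ℂ)))
    (fun t => 16 * M * (aic_g (√H / 4) (t - 1 / 2) + aic_g (√H / 4) (1 / 2 - t))) (H + 1) hP hT ?_ ?_
    ((((aic_g_int hm).comp_sub_right _).add ((aic_g_int hm).comp_sub_left _)).const_mul _)
  · rw [integral_const_mul, integral_add ((aic_g_int hm).comp_sub_right _)
      ((aic_g_int hm).comp_sub_left _), integral_sub_right_eq_self (aic_g (√H / 4)),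
      integral_sub_left_eq_self (aic_g (√H / 4)), aic_g_val hH] at key
    refine key.trans (le_of_eq ?_)
    ring
  · intro t
    have hφ : 0 ≤ (1 / 4 : ℝ) ^ 2 *
        (16 * M * (aic_g (√H / 4) (t - 1 / 2) + aic_g (√H / 4) (1 / 2 - t))) := by
      have := aic_g_nonneg hm (t - 1 / 2)
      have := aic_g_nonneg hm (1 / 2 - t)
      positivity
    have hc : Continuous fun u : ℝ => (2 * u - 1) ^ 2 := by fun_prop
    by_cases h1 : (2 * t - 1) ^ 2 < H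
    · refine ⟨1 / 4, 0, by norm_num, J2.zero ?_ _, hφ⟩
      filter_upwards [hc.continuousAt.eventually_lt continuousAt_const h1] with u hu
      rw [aic_ps_one hH hu.le]
      simp
    by_cases h2 : H ^ 2 < (2 * t - 1) ^ 2
    · refine ⟨1 / 4, 0, by norm_num, J2.zero ?_ _, hφ⟩
      filter_upwards [continuousAt_const.eventually_lt hc.continuousAt h2] with u hu
      rw [aic_cw_zero hH hu.le]
      simp
    push Not at h1 h2
    have habs : |2 * t - 1| ≤ H := abs_le_of_sq_le_sq h2 hH.le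
    have hiH : 1 / H ≤ 1 := (div_le_one hH).2 hH1
    have hiH0 : 0 < 1 / H := by positivity
    have d1 : D2 (fun u : ℝ => (2 * u - 1) / H) t (1 / 4) 1 := by
      refine (D2.quad (a := 0) (b := 2 * (1 / H)) (c := -(1 / H)) ?_ ?_).congr
        (Eventually.of_forall fun u => by simp only; ring)
      · rw [mul_zero, zero_mul, zero_add, abs_of_pos (by positivity)]
        linarith
      · simp
    have d2 : D2 (fun u : ℝ => (2 * u - 1) ^ 2 / H) t (1 / 4) 1 := by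
      refine (D2.quad (a := 4 * (1 / H)) (b := -(4 * (1 / H))) (c := 1 / H) ?_ ?_).congr
        (Eventually.of_forall fun u => by simp only; ring)
      · rw [show 2 * (4 * (1 / H)) * t + -(4 * (1 / H)) = 4 * ((2 * t - 1) / H) by ring, abs_mul,
          abs_div, abs_of_pos hH, abs_of_pos (by norm_num : (0 : ℝ) < 4)]
        have := (div_le_one hH).2 habs
        linarith
      · rw [abs_of_pos (by positivity)]
        linarith
    have ez : ∀ u : ℝ, ln η + ((-1 : ℝ) : ℂ) * u = ln η - u := fun u => by push_cast; ring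
    have hn := jest_normsq η t
    have hn1 : H / 4 ≤ ‖ln η - t‖ ^ 2 := by nlinarith [sq_nonneg η]
    have hk := (hjet (ln η) (-1) t (1 / 4) H (by simp) (by norm_num) hH.le
      (by rw [ez, jest_im]; exact hη.le)
      (by rw [ez]; exact le_of_sq_le_sq (by nlinarith) (norm_nonneg _))
      (by rw [ez, Complex.normSq_eq_norm_sq]; linarith)
      (by rw [ez, Complex.normSq_eq_norm_sq, jest_im]; nlinarith)).2
    simp only [ez] at hk
    have hall := ((hcw.comp d1 (by norm_num) le_rfl).mul (by norm_num)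
      (hps.one_sub.comp d2 (by norm_num) le_rfl)).mul (by norm_num) hk
    refine ⟨1 / 4, _, by norm_num, hall.congr (Eventually.of_forall fun u => by
      simp only [Complex.ofReal_mul]), ?_⟩
    have hs : √H / 4 < |t - 1 / 2| := by
      have h3 : √H ≤ |2 * t - 1| := by
        rw [← Real.sqrt_sq_eq_abs]
        exact Real.sqrt_le_sqrt h1
      rw [show 2 * t - 1 = 2 * (t - 1 / 2) by ring, abs_mul, abs_two] at h3
      linarith
    have hx : |t - 1 / 2| ≤ ‖ln η - t‖ :=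
      abs_le_of_sq_le_sq (by nlinarith [sq_nonneg η]) (norm_nonneg _)
    have hmaj := aic_major hm hs hx
    rw [neg_sub] at hmaj
    calc _ = M * ‖ln η - t‖ ^ (-3 / 2 : ℝ) := by rw [hM]; ring
      _ ≤ M * (aic_g (√H / 4) (t - 1 / 2) + aic_g (√H / 4) (1 / 2 - t)) :=
          mul_le_mul_of_nonneg_left hmaj hM0.le
      _ = _ := by ring
  · intro t ht
    have : H ^ 2 ≤ (2 * t - 1) ^ 2 := by
      rw [← sq_abs (2 * t - 1)]
      refine pow_le_pow_left₀ hH.le ?_ 2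
      rcases abs_cases t with ⟨e1, -⟩ | ⟨e1, -⟩ <;> rcases abs_cases (2 * t - 1) with ⟨e2, _⟩ | ⟨e2, _⟩ <;>
        linarith
    simp only [aic_cw_zero hH this, zero_mul, Complex.ofReal_zero]

end

end Pool.Agent.MP_9f080f_an

namespace Pool.Agent.MP_9f080f_an
open Complex MeasureTheory Set Filter Topology Metric
open scoped Real

noncomputable section

lemma ai_cw {s : ℝ} (h : 1 ≤ |s|) : cw s = 0 := by
  have h1 : 1 ≤ s ^ 2 := by rw [← sq_abs]; nlinarith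
  rw [cw, st, Real.smoothTransition.one_of_one_le (by linarith), sub_self]

lemma ai_H {n β : ℕ} (hn : 0 < n) (hβ : 0 < β) :
    ((n : ℝ) / β ^ 2) ^ (-1 / 4 : ℝ) = 1 / √√(n : ℝ) * √β := by
  have hn' : (0 : ℝ) < n := by exact_mod_cast hn
  have hb : (0 : ℝ) < β := by exact_mod_cast hβ
  have key : ∀ y : ℝ, 0 < y → y ^ (-1 / 4 : ℝ) = 1 / √√y := by
    intro y hy
    rw [Real.sqrt_eq_rpow √y, Real.sqrt_eq_rpow y, ← Real.rpow_mul hy.le,
      show (-1 / 4 : ℝ) = -(1 / 2 * (1 / 2)) by norm_num, Real.rpow_neg hy.le, one_div (y ^ _)]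
  rw [key _ (by positivity), jest_H hn hβ, key _ hn']

lemma ai_sum (x : ℝ) {n β : ℕ} (hn : 0 < n) (hβ : β ∈ BS n) (η : ℝ) :
    ∑ q ∈ QS n β, ((wq n β q * (1 - ps ((2 * q - β) ^ 2 / n)) : ℝ) : ℂ) * fC x n β q η =
      (√β / β ^ 2 : ℝ) * phi x (ln η) * I * ∑' q : ℤ, eC n β q *
        ((cw ((2 * (q / β) - 1) / (n / β ^ 2)) * (1 - ps ((2 * (q / β) - 1) ^ 2 / (n / β ^ 2))) : ℝ) *
          kc (n / β ^ 2) (ln η - ((q / β : ℝ) : ℂ))) := by
  have hodd : Odd β := (Finset.mem_filter.1 hβ).2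
  have hb : (0 : ℝ) < β := by exact_mod_cast hodd.pos
  have hn0 : (0 : ℝ) < n := by exact_mod_cast hn
  rw [tsum_eq_sum (s := QS n β), Finset.mul_sum]
  · refine Finset.sum_congr rfl fun q _ => ?_
    have e1 : (β : ℝ) * (2 * q - β) / n = (2 * (q / β) - 1) / (n / β ^ 2) := by field_simp
    have e2 : (2 * (q : ℝ) - β) ^ 2 / n = (2 * (q / β) - 1) ^ 2 / (n / β ^ 2) := by field_simp
    rw [jest_fC, wq, e1, e2]
    ring
  · intro q hq
    have h1 := not_le.1 (mt (jest_QS hβ q).2 hq)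
    have hH : (0 : ℝ) < n / β ^ 2 := by positivity
    have h2 : 1 ≤ |(2 * ((q : ℝ) / β) - 1) / (n / β ^ 2)| := by
      rw [abs_div, abs_of_pos hH, le_div_iff₀ hH,
        show 2 * ((q : ℝ) / β) - 1 = 2 * (q / β - 1 / 2) by ring, abs_mul, abs_two]
      linarith
    rw [ai_cw h2]
    simp

theorem jl2 : ∃ C : ℝ, 0 < C ∧ ∀ (n X₁ : ℕ) (Λ x : ℝ), 1 ≤ n → PH (Wf F1 n) X₁ Λ → 2 * n ≤ X₁ ^ 2 → 0 ≤ x →
    ‖JL2 x n‖ ≤ C * Λ * (1 + x) ^ (-2 / 3 : ℝ) := by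
  classical
  obtain ⟨C, hC, hpt⟩ := jl_pt
  obtain ⟨K, hK, hpw⟩ := ph_pw2
  refine ⟨C * (3 * Real.exp 1) * K, by positivity, fun n X₁ Λ x hn hPH hX₁ hx => ?_⟩
  have hX : 0 ≤ (1 + x) ^ (-2 / 3 : ℝ) := by positivity
  have hn0 : (0 : ℝ) < n := by exact_mod_cast hn
  have hs0 : 0 < √√(n : ℝ) := by positivity
  set S := (BS n).filter fun b => b ^ 2 ≤ n with hS
  have hsum := hpw (Wf F1 n) X₁ Λ √n S hPH (by positivity) (fun β hβ => by
    obtain ⟨h1, h2⟩ := Finset.mem_filter.1 hβ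
    refine Finset.mem_Icc.2 ⟨(Finset.mem_filter.1 h1).2.pos, ?_⟩
    exact le_of_pow_le_pow_left₀ two_ne_zero (Nat.zero_le _) (by omega)) (fun β hβ => by
    refine Real.le_sqrt_of_sq_le ?_
    exact_mod_cast (Finset.mem_filter.1 hβ).2)
  have hsub : Ioc (0 : ℝ) (1 / 2) ⊆ Ioi 0 := Ioc_subset_Ioi_self
  have hx1 : 0 < 1 + x := by linarith
  have hint : IntegrableOn (fun η : ℝ => Real.exp (-(1 + x) * η)) (Ioi 0) :=
    exp_neg_integrableOn_Ioi 0 hx1
  have hI : ∫ η in Ioc (0 : ℝ) (1 / 2), Real.exp (-(1 + x) * η) ≤ (1 + x) ^ (-2 / 3 : ℝ) := by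
    refine (setIntegral_mono_set hint (Eventually.of_forall fun η => (Real.exp_pos _).le)
      hsub.eventuallyLE).trans ?_
    rw [integral_exp_mul_Ioi (by linarith), mul_zero, Real.exp_zero, neg_div_neg_eq, one_div,
      ← Real.rpow_neg_one]
    exact Real.rpow_le_rpow_of_exponent_le (by linarith) (by norm_num)
  have hmain : ‖JL2 x n‖ ≤ ∑ β ∈ S, C * (3 * Real.exp 1) * (1 / √√(n : ℝ)) *
      (1 + x) ^ (-2 / 3 : ℝ) * (pw2 (Wf F1 n β) β / √β) := by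
    refine (jest_half _).trans ?_
    rw [hS, Finset.sum_filter]
    refine norm_sum_le_of_le _ fun β hβ => ?_
    have hodd : Odd β := (Finset.mem_filter.1 hβ).2
    have hb : (0 : ℝ) < β := by exact_mod_cast hodd.pos
    have hH0 : (0 : ℝ) < n / β ^ 2 := by positivity
    have hp0 : 0 ≤ pw2 (Wf F1 n β) β :=
      Finset.sum_nonneg fun m _ => div_nonneg ((hPH m).nonneg β) (by positivity)
    have hiff : (1 : ℝ) ≤ n / β ^ 2 ↔ β ^ 2 ≤ n := by
      rw [le_div_iff₀ (by positivity), one_mul]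
      exact_mod_cast Iff.rfl
    set B : ℝ := if (1 : ℝ) ≤ n / β ^ 2 then
      C * √β * pw2 (Wf F1 n β) β * ((n : ℝ) / β ^ 2) ^ (-1 / 4 : ℝ) else 0 with hB
    have hB0 : 0 ≤ B := by rw [hB]; split_ifs <;> positivity
    simp_rw [← integral_const_mul]
    rw [← integral_finsetSum _ fun q _ => ((fC_integrable hx n hodd q).mono_set hsub).const_mul _]
    refine (norm_integral_le_of_norm_le ((hint.mono_set hsub).const_mul
      (√β / β ^ 2 * B * (3 * Real.exp 1))) ?_).trans ?_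
    · rw [ae_restrict_iff' measurableSet_Ioc]
      refine Eventually.of_forall fun η hη => ?_
      have key := hpt (eC n β) β (Wf F1 n β) (n / β ^ 2) η hodd.pos (eC_twW n hodd) hH0 hη.1 hη.2
      have hphi : ‖phi x (ln η)‖ ≤ 3 * Real.exp 1 * Real.exp (-(1 + x) * η) := by
        refine (phi_low hx hη.1 hη.2).trans ?_
        rw [mul_assoc 3, ← Real.exp_add]
        have h1 := Real.pi_gt_three
        have h2 := mul_nonneg hx hη.1.le
        have h3 := hη.2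
        gcongr
        nlinarith
      rw [ai_sum x hn hβ, norm_mul, norm_mul, norm_mul, norm_I, mul_one, Complex.norm_real,
        Real.norm_of_nonneg (by positivity)]
      rw [← hB] at key
      calc _ ≤ √β / β ^ 2 * (3 * Real.exp 1 * Real.exp (-(1 + x) * η)) * B := by gcongr
        _ = _ := by ring
    · rw [integral_const_mul]
      refine (mul_le_mul_of_nonneg_left hI (by positivity)).trans (le_of_eq ?_)
      by_cases h : β ^ 2 ≤ n
      · rw [if_pos h, hB, if_pos (hiff.2 h), ai_H hn hodd.pos]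
        have h1 : 0 < √(β : ℝ) := by positivity
        have h2 : (β : ℝ) ^ 2 = √β ^ 4 := by
          rw [show (4 : ℕ) = 2 * 2 from rfl, pow_mul, Real.sq_sqrt hb.le]
        rw [h2]
        field_simp
      · rw [if_neg h, hB, if_neg (fun h' => h (hiff.1 h'))]
        simp
  rw [← Finset.mul_sum] at hmain
  refine hmain.trans ((mul_le_mul_of_nonneg_left hsum (by positivity)).trans (le_of_eq ?_))
  field_simp

end

end Pool.Agent.MP_9f080f_an
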