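import Pool.Agent.MP_9f080f_an.Mg.G_AB
import Pool.Agent.MP_9f080f_an.Mg.G_AE

-- part MP_9f080f_an.G.AJ
section

namespace Pool.Agent.MP_9f080f_an
open Complex MeasureTheory Set Filter Topology Metric
open scoped Real

noncomputable section

/-! The automorphic part, one frame.
`kW_supp`: `WW_zero`.  `kW_bd`: `Cut`, `norm_rt`, `norm_ep`.
`poin`: `pv2B` with `Φ t = kW H (w + (-1) * t)`, `v = w.im`; if `λ = H v / normSq ∉ [2, 4]` then `Φ` vanishes near `t`; otherwise use `jet_lam`, `Cut.comp`, `jet_rte` at scale `δ = min (v/2) 1 ≥ min (v₀/2) 1`, `J2.scale`, and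
`φ = indicator (Icc (w.re - √(Hv)) (w.re + √(Hv))) (K (Hv)^(1/4))`.
`cov_inv`: `integral_image_eq_integral_abs_det_fderiv_smul`, `integrableOn_image_iff_integrableOn_abs_det_fderiv_smul` for `f ω = -1/(c ω)`, which maps the upper half plane onto itself;
`HasDerivAt.hasFDerivAt.restrictScalars ℝ` (or `HasDerivAt.complexToReal_fderiv`), and the determinant of the real linear map `z ↦ d z` is `normSq d` (`LinearMap.det_restrictScalars`, `Algebra.norm_complex_eq`, or the matrix in `Complex.basisOneI`).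
`int_prod`: `Complex.volume_preserving_equiv_real_prod`, `integral_prod_symm`, `Integrable.integral_prod_right`.
`uc_supp`: with `ω = -1/(p² τ)`, `v ≤ ω.im ≤ ‖ω‖ = 1/(p² ‖τ‖) ≤ n/p²`.  `uc_int`: measurable, bounded, bounded support (compare `circle1_U_int`).
`r1_cov`: put `F τ = n * rho (n τ.im) * Uc τ` (it vanishes unless `2 ≤ n τ.im ≤ 4`).  For `ω` in the upper half plane, with `H = n/p²`: `n (-1/(p² ω)).im = H ω.im / normSq ω =: λ`, `-n (-1/(p²ω)) = H/ω`,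
`n / (p⁴ normSq ω ²) = λ² / (n ω.im²)`, so `F (-1/(p²ω)) / (p⁴ normSq ω²) = indicator Q (…) (a/p + ω)`.  This is integrable (bounded by `kW_bd`, bounded support by `kW_supp`); use `cov_inv`, translation invariance
(`integral_add_left_eq_self`), `int_prod`, and the substitution `y = l/n` (`integral_comp_div`/`Measure.integral_comp_mul_left`).
`r1_frame`: `r1_cov`, move the sum inside (`integral_finsetSum`), it equals the `tsum` of `poin` on `Q` (`kW_supp`), then `‖G w‖ / v² (H v)^(3/4) ≤ M H^(3/4) v^(-13/12)`, whose integral over `Icc (-2) 2 ×ℂ Ici v₀` is `48 v₀^(-1/12)`;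
`√p √P H^(3/4) / n ≤ 2 n^(-1/4) / √P`.  If `n < v p²` every `Uc` vanishes on the horocycles (`uc_supp`). -/

lemma kW_supp {H : ℝ} {ω : ℂ} (hω : 0 < ω.im) (h : kW H ω ≠ 0) :
    2 * normSq ω < H * ω.im ∧ H * ω.im < 4 * normSq ω ∧ ‖ω‖ ≤ H / 2 := by
  have hN : 0 < normSq ω := normSq_pos.2 fun e => by simp [e] at hω
  have h1 : ¬(H * ω.im / normSq ω ≤ 2 ∨ 4 ≤ H * ω.im / normSq ω) := fun hc =>
    h (by rw [kW, WW_zero hc, ofReal_zero, zero_mul])
  rw [not_or, not_le, not_le, lt_div_iff₀ hN, div_lt_iff₀ hN] at h1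
  refine ⟨h1.1, h1.2, ?_⟩
  have hH : 0 < H := pos_of_mul_pos_right (by linarith : 0 < ω.im * H) hω.le
  have h2 : ω.im ≤ ‖ω‖ := (le_abs_self _).trans (abs_im_le_norm ω)
  have h3 := mul_le_mul_of_nonneg_left h2 hH.le
  have h4 := h1.1
  rw [normSq_eq_norm_sq] at h4
  have h5 : 0 < ‖ω‖ := hω.trans_le h2
  refine le_of_mul_le_mul_right ?_ h5
  linarith [sq ‖ω‖]

lemma kW_bd : ∃ K : ℝ, 0 < K ∧ ∀ (H : ℝ) (ω : ℂ), 0 < ω.im → ‖kW H ω‖ ≤ K * √‖ω‖ := by
  obtain ⟨K, hK, -, hW, -⟩ := cut_all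
  refine ⟨K * Real.exp (4 * π), by positivity, fun H ω hω => ?_⟩
  by_cases h : kW H ω = 0
  · rw [h, norm_zero]; positivity
  have hN : 0 < normSq ω := normSq_pos.2 fun e => by simp [e] at hω
  have h1 := (div_lt_iff₀ hN).2 (kW_supp hω h).2.1
  have h2 : ((H : ℂ) / ω).im = -(H * ω.im / normSq ω) := by
    rw [div_im]; simp
  rw [kW, norm_mul, norm_mul, norm_rt, norm_ep, h2, Complex.norm_real, Real.norm_eq_abs]
  have h3 : Real.exp (-π * -(H * ω.im / normSq ω)) ≤ Real.exp (4 * π) := by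
    rw [Real.exp_le_exp]
    have := mul_le_mul_of_nonneg_left h1.le Real.pi_pos.le
    linarith
  calc _ ≤ K * (√‖ω‖ * Real.exp (4 * π)) :=
        mul_le_mul (hW.b0 _) (mul_le_mul_of_nonneg_left h3 (Real.sqrt_nonneg _)) (by positivity)
          (by linarith)
    _ = _ := by ring

theorem aja_jet {v₀ : ℝ} (hv : 0 < v₀) : ∃ K : ℝ, 0 < K ∧ ∀ (H : ℝ) (w : ℂ) (t : ℝ), 0 < H →
    v₀ ≤ w.im → J2 (fun t : ℝ => kW H (w + ((-1 : ℝ) : ℂ) * t)) t 1
      ((Icc (w.re - √(H * w.im)) (w.re + √(H * w.im))).indicator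
        (fun _ => K * √(√(H * w.im))) t) := by
  obtain ⟨K, hK, -, hW, -⟩ := cut_all
  obtain ⟨K', hK', hj⟩ := jet_rte (A := 4) (by norm_num)
  have hδ : 0 < min (v₀ / 2) 1 := lt_min (by linarith) one_pos
  have hδ1 := min_le_left (v₀ / 2) 1
  have hδ2 := min_le_right (v₀ / 2) 1
  generalize min (v₀ / 2) 1 = δ at hδ hδ1 hδ2
  refine ⟨4 * (2 * K * (4 * 4) ^ 2) * K' * (1 / δ) ^ 2, by positivity, fun H w t hH hw => ?_⟩
  have him : ∀ u : ℝ, (w + ((-1 : ℝ) : ℂ) * u).im = w.im := fun u => by simp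
  have hre : ∀ u : ℝ, (w + ((-1 : ℝ) : ℂ) * u).re = w.re - u := fun u => by simp; ring
  have hv0 : 0 < w.im := hv.trans_le hw
  have hN : ∀ u : ℝ, 0 < normSq (w + ((-1 : ℝ) : ℂ) * u) := fun u =>
    normSq_pos.2 fun e => by have := him u; rw [e, zero_im] at this; linarith
  by_cases h : H * w.im / normSq (w + ((-1 : ℝ) : ℂ) * t) ∈ Icc (2 : ℝ) 4
  · obtain ⟨h2, h4⟩ := h
    rw [le_div_iff₀ (hN t)] at h2
    rw [div_le_iff₀ (hN t)] at h4
    have a1 : 2 * δ ≤ ‖w + ((-1 : ℝ) : ℂ) * t‖ := by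
      have := (le_abs_self _).trans (abs_im_le_norm (w + ((-1 : ℝ) : ℂ) * t))
      rw [him] at this
      linarith
    have a2 : H * δ ≤ 4 * normSq (w + ((-1 : ℝ) : ℂ) * t) :=
      (mul_le_mul_of_nonneg_left (by linarith) hH.le).trans h4
    have j1 := hW.comp (jet_lam (σ := -1) (by simp) hδ hH.le a1 a2) hδ.le (by norm_num)
    have j2 := (hj w (-1) t δ H (by simp) hδ hH.le (by rw [him]; exact hv0.le) a1 a2
      (by rw [him]; exact h4)).1
    have j3 := (j1.mul hδ.le j2).scale hδ hδ2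
    have b1 : ‖w + ((-1 : ℝ) : ℂ) * t‖ ≤ √(H * w.im) := by
      refine Real.le_sqrt_of_sq_le ?_
      rw [← normSq_eq_norm_sq]
      linarith [hN t]
    have b2 : t ∈ Icc (w.re - √(H * w.im)) (w.re + √(H * w.im)) := by
      have := abs_le.1 ((abs_re_le_norm _).trans b1)
      rw [hre] at this
      constructor <;> linarith [this.1, this.2]
    rw [indicator_of_mem b2]
    refine j3.mono zero_le_one le_rfl ?_
    have b3 := Real.sqrt_le_sqrt b1
    calc _ = 4 * (2 * K * (4 * 4) ^ 2) * K' * (1 / δ) ^ 2 * √‖w + ((-1 : ℝ) : ℂ) * t‖ := by ring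
      _ ≤ _ := mul_le_mul_of_nonneg_left b3 (by positivity)
  · have hc : Continuous fun u : ℝ => H * w.im / normSq (w + ((-1 : ℝ) : ℂ) * u) :=
      continuous_const.div (continuous_normSq.comp (by fun_prop)) fun u => (hN u).ne'
    have he : ∀ᶠ u : ℝ in 𝓝 t, kW H (w + ((-1 : ℝ) : ℂ) * u) = 0 := by
      filter_upwards [hc.continuousAt.eventually (isClosed_Icc.isOpen_compl.mem_nhds h)] with u hu
      have : H * w.im / normSq (w + ((-1 : ℝ) : ℂ) * u) ≤ 2 ∨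
          4 ≤ H * w.im / normSq (w + ((-1 : ℝ) : ℂ) * u) := by
        by_contra hc
        rw [not_or, not_le, not_le] at hc
        exact hu ⟨hc.1.le, hc.2.le⟩
      rw [kW, him, WW_zero this, ofReal_zero, zero_mul]
    exact (J2.zero he 1).mono zero_le_one le_rfl
      (indicator_nonneg (fun _ _ => by positivity) t)

theorem poin {v₀ : ℝ} (hv : 0 < v₀) : ∃ K : ℝ, 0 < K ∧ ∀ (e : ℤ → ℂ) (P p : ℕ) (κ H : ℝ) (W : ℤ → ℝ) (w : ℂ),
    0 < p → p ≤ P → P ≤ 2 * p → (κ = 0 ∨ κ = 3 / 8) → TwW e P κ W → 0 < H → v₀ ≤ w.im →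
      ‖∑' a : ℤ, e a * kW H (w - a / p)‖ ≤ K * √P * pw2 W P * (H * w.im) ^ (3 / 4 : ℝ) := by
  obtain ⟨K, hK, hp⟩ := pv2B
  obtain ⟨K', hK', hj⟩ := aja_jet hv
  refine ⟨2 * K * K', by positivity, fun e P p κ H W w h0 h1 h2 hκ hT hH hw => ?_⟩
  have hv0 : 0 < w.im := hv.trans_le hw
  have h3 := hp e P p κ W _ _ (‖w‖ + H / 2) h0 h1 h2 hκ hT (fun t => hj H w t hH hw)
    (fun t ht => by
      by_contra hne
      have a1 := (kW_supp (by simpa using hv0) hne).2.2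
      have a2 := norm_sub_le w (w + ((-1 : ℝ) : ℂ) * t)
      rw [show w - (w + ((-1 : ℝ) : ℂ) * t) = t by push_cast; ring, Complex.norm_real,
        Real.norm_eq_abs] at a2
      linarith)
    ((integrable_indicator_iff measurableSet_Icc).2
      (integrableOn_const (by rw [Real.volume_Icc]; exact ENNReal.ofReal_ne_top)))
  have hx : 0 < H * w.im := by positivity
  have h4 : (H * w.im) ^ (3 / 4 : ℝ) = √(H * w.im) * √(√(H * w.im)) := by
    rw [Real.sqrt_eq_rpow, Real.sqrt_eq_rpow, ← Real.rpow_mul hx.le, ← Real.rpow_add hx]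
    norm_num
  rw [integral_indicator_const _ measurableSet_Icc, Real.volume_real_Icc_of_le
    (by linarith [Real.sqrt_nonneg (H * w.im)]), smul_eq_mul] at h3
  refine le_of_eq_of_le ?_ (h3.trans (le_of_eq ?_))
  · congr 1
    refine tsum_congr fun a => ?_
    congr 2
    push_cast
    ring
  · rw [h4]
    ring

end

end Pool.Agent.MP_9f080f_an

namespace Pool.Agent.MP_9f080f_an
open Complex MeasureTheory Set Filter Topology Metric
open scoped Real

noncomputable section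

theorem ajb_det (d : ℂ) : (d • (1 : ℂ →L[ℝ] ℂ)).det = normSq d := by
  rw [ContinuousLinearMap.det, ← LinearMap.det_toMatrix Complex.basisOneI, Matrix.det_fin_two]
  simp [LinearMap.toMatrix_apply, Complex.normSq_apply]

theorem ajb_ne {z : ℂ} (hz : 0 < z.im) : z ≠ 0 := fun h => by simp [h] at hz

theorem ajb_im {c : ℝ} (hc : 0 < c) {z : ℂ} (hz : 0 < z.im) : 0 < (-1 / (c * z) : ℂ).im := by
  have h0 : 0 < normSq ((c : ℂ) * z) :=
    normSq_pos.2 (mul_ne_zero (ofReal_ne_zero.2 hc.ne') (ajb_ne hz))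
  have e : (-1 / (c * z) : ℂ).im = c * z.im / normSq ((c : ℂ) * z) := by
    rw [Complex.div_im]
    simp only [neg_im, one_im, neg_zero, zero_mul, zero_div, neg_re, one_re, mul_im, ofReal_re,
      ofReal_im, add_zero]
    ring
  rw [e]
  positivity

theorem ajb_image {c : ℝ} (hc : 0 < c) :
    (fun ω : ℂ => -1 / (c * ω)) '' {z | 0 < z.im} = {z | 0 < z.im} := by
  ext z
  constructor
  · rintro ⟨ω, hω, rfl⟩
    exact ajb_im hc hω
  · intro hz
    refine ⟨-1 / (c * z), ajb_im hc hz, ?_⟩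
    have h1 : (c : ℂ) ≠ 0 := ofReal_ne_zero.2 hc.ne'
    have h2 := ajb_ne hz
    field_simp

theorem ajb_inj {c : ℝ} (hc : 0 < c) : InjOn (fun ω : ℂ => -1 / (c * ω)) {z | 0 < z.im} := by
  intro x hx y hy h
  have h1 : (c : ℂ) ≠ 0 := ofReal_ne_zero.2 hc.ne'
  have h2 := ajb_ne hx
  have h3 := ajb_ne hy
  have h4 : (-1 : ℂ) / (c * x) = -1 / (c * y) := h
  rw [div_eq_div_iff (mul_ne_zero h1 h2) (mul_ne_zero h1 h3)] at h4
  have h5 : (c : ℂ) * x = c * y := by linear_combination h4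
  exact mul_left_cancel₀ h1 h5

theorem ajb_deriv {c : ℝ} (hc : 0 < c) {z : ℂ} (hz : 0 < z.im) :
    HasDerivAt (fun ω : ℂ => -1 / (c * ω)) (1 / (c * z ^ 2)) z := by
  have h1 : (c : ℂ) ≠ 0 := ofReal_ne_zero.2 hc.ne'
  have h2 := ajb_ne hz
  have h := (hasDerivAt_const z (-1 : ℂ)).fun_div ((hasDerivAt_id' z).const_mul (c : ℂ))
    (mul_ne_zero h1 h2)
  refine h.congr_deriv ?_
  field_simp
  ring

theorem ajb_smul (c : ℝ) (z w : ℂ) :
    |(((1 / (c * z ^ 2) : ℂ)) • (1 : ℂ →L[ℝ] ℂ)).det| • w = w / (c ^ 2 * normSq z ^ 2 : ℝ) := by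
  rw [ajb_det, abs_of_nonneg (normSq_nonneg _), map_div₀, map_one, map_mul, map_pow, normSq_ofReal,
    real_smul]
  push_cast
  ring

theorem cov_inv {c : ℝ} (hc : 0 < c) (F : ℂ → ℂ) :
    (IntegrableOn F {z | 0 < z.im} ↔
      IntegrableOn (fun ω => F (-1 / (c * ω)) / (c ^ 2 * normSq ω ^ 2 : ℝ)) {z | 0 < z.im}) ∧
    ∫ z in {z | 0 < z.im}, F z = ∫ ω in {z | 0 < z.im}, F (-1 / (c * ω)) / (c ^ 2 * normSq ω ^ 2 : ℝ) := by
  have hs : MeasurableSet {z : ℂ | 0 < z.im} :=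
    (isOpen_lt continuous_const Complex.continuous_im).measurableSet
  have hd : ∀ z ∈ {z : ℂ | 0 < z.im}, HasFDerivWithinAt (fun ω : ℂ => -1 / (c * ω))
      (((1 / (c * z ^ 2) : ℂ)) • (1 : ℂ →L[ℝ] ℂ)) {z : ℂ | 0 < z.im} z := fun z hz =>
    (ajb_deriv hc hz).complexToReal_fderiv.hasFDerivWithinAt
  have h1 := integrableOn_image_iff_integrableOn_abs_det_fderiv_smul volume hs hd (ajb_inj hc) F
  have h2 := integral_image_eq_integral_abs_det_fderiv_smul volume hs hd (ajb_inj hc) F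
  rw [ajb_image hc] at h1 h2
  simp only [ajb_smul] at h1 h2
  exact ⟨h1, h2⟩

theorem int_prod {F : ℂ → ℂ} (hF : Integrable F) :
    Integrable (fun y : ℝ => ∫ t : ℝ, F (hy y t)) ∧ ∫ z, F z = ∫ y : ℝ, ∫ t : ℝ, F (hy y t) := by
  have hm := Complex.volume_preserving_equiv_real_prod.symm
  have e : ∀ t y : ℝ, measurableEquivRealProd.symm (t, y) = hy y t := fun t y => by
    apply Complex.ext <;> simp [hy]
  have h1 : Integrable (F ∘ measurableEquivRealProd.symm) (volume.prod volume) :=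
    (hm.integrable_comp_emb measurableEquivRealProd.symm.measurableEmbedding).2 hF
  have h2 := h1.integral_prod_right
  have h3 := integral_prod_symm _ h1
  have h4 : ∫ z, F z = ∫ z, (F ∘ measurableEquivRealProd.symm) z ∂(volume.prod volume) :=
    (hm.integral_comp' F).symm
  rw [h3] at h4
  simp only [Function.comp_apply, e] at h2 h4
  exact ⟨h2, h4⟩

end

end Pool.Agent.MP_9f080f_an

namespace Pool.Agent.MP_9f080f_an
open Complex MeasureTheory Set Filter Topology Metric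
open scoped Real

noncomputable section

lemma ajc_ne {y : ℝ} (hy0 : 0 < y) (t : ℝ) : hy y t ≠ 0 := fun h => by
  have := congrArg Complex.im h
  simp [hy] at this
  exact hy0.ne' this

lemma ajc_pos {p : ℕ} (hp : 0 < p) {y : ℝ} (hy0 : 0 < y) (t : ℝ) :
    0 < (-1 / ((p : ℂ) ^ 2 * hy y t)).im := by
  have h0 : (0 : ℝ) < p := by exact_mod_cast hp
  have h1 : ((p : ℂ) ^ 2 * hy y t).im = p ^ 2 * y := by simp [hy, sq]
  have h2 : 0 < normSq ((p : ℂ) ^ 2 * hy y t) :=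
    normSq_pos.2 (mul_ne_zero (pow_ne_zero _ (by exact_mod_cast hp.ne')) (ajc_ne hy0 t))
  rw [neg_div, one_div, neg_im, inv_im, h1, neg_div, neg_neg]
  positivity

lemma ajc_im (p : ℕ) (a : ℤ) (w : ℂ) : ((a : ℂ) / p + w).im = w.im := by
  have : ((a : ℂ) / p) = (((a : ℝ) / p : ℝ) : ℂ) := by push_cast; rfl
  rw [add_im, this, ofReal_im, zero_add]

lemma ajc_mem {n p : ℕ} (hn : 0 < n) (hp : 0 < p) {Q : Set ℂ} {G : ℂ → ℂ} {v M : ℝ}
    (h : Reg Q G v M) {a : ℤ} {l t : ℝ} (hl : 1 ≤ l)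
    (hQ : (a : ℂ) / p + -1 / (p ^ 2 * hy (l / n) t) ∈ Q) :
    v * p ^ 2 ≤ n ∧ |a| ≤ 2 * p + n ∧ |t| ≤ 1 / v := by
  have n0 : (0 : ℝ) < n := by exact_mod_cast hn
  have p1 : (1 : ℝ) ≤ p := by exact_mod_cast hp
  have hy0 : 0 < l / n := by positivity
  have hv := h.vpos
  have h1 := h.high _ hQ
  have h2 := h.strip _ hQ
  rw [ajc_im] at h1
  have e : ((a : ℂ) / p) = (((a : ℝ) / p : ℝ) : ℂ) := by push_cast; rfl
  rw [add_re, e, ofReal_re] at h2
  have t0 : 0 < ‖hy (l / n) t‖ := norm_pos_iff.2 (ajc_ne hy0 t)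
  have t1 : |t| ≤ ‖hy (l / n) t‖ := by simpa [hy] using abs_re_le_norm (hy (l / n) t)
  have t2 : l / n ≤ ‖hy (l / n) t‖ := by
    have := im_le_norm (hy (l / n) t)
    have e2 : ∀ y : ℝ, (hy y t).im = y := fun y => by simp [hy]
    rwa [e2] at this
  have w0 : ‖-1 / ((p : ℂ) ^ 2 * hy (l / n) t)‖ * (p ^ 2 * ‖hy (l / n) t‖) = 1 := by
    rw [norm_div, norm_neg, norm_one, norm_mul, norm_pow, norm_natCast]
    field_simp
  have w1 := im_le_norm (-1 / ((p : ℂ) ^ 2 * hy (l / n) t))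
  have w2 := abs_re_le_norm (-1 / ((p : ℂ) ^ 2 * hy (l / n) t))
  have w3 := norm_nonneg (-1 / ((p : ℂ) ^ 2 * hy (l / n) t))
  generalize (-1 / ((p : ℂ) ^ 2 * hy (l / n) t)).re = r at *
  generalize ‖-1 / ((p : ℂ) ^ 2 * hy (l / n) t)‖ = w at *
  generalize ‖hy (l / n) t‖ = τ at *
  rw [div_le_iff₀ n0] at t2
  have k1 : w * p ^ 2 ≤ n := by
    nlinarith [mul_le_mul_of_nonneg_left (hl.trans t2) (mul_nonneg w3 (sq_nonneg (p : ℝ)))]
  have k2 : v ≤ w := h1.trans w1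
  refine ⟨(mul_le_mul_of_nonneg_right k2 (sq_nonneg _)).trans k1, ?_, t1.trans ?_⟩
  · have k3 : |(a : ℝ) / p| ≤ 2 + w := by
      have := abs_sub ((a : ℝ) / p + r) r
      rw [add_sub_cancel_right] at this
      linarith
    rw [abs_div, abs_of_pos (show (0 : ℝ) < p by linarith), div_le_iff₀ (by linarith)] at k3
    have k4 : |(a : ℝ)| ≤ 2 * p + n := by
      nlinarith [mul_nonneg (mul_nonneg w3 (Nat.cast_nonneg (α := ℝ) p)) (sub_nonneg.2 p1)]
    exact_mod_cast k4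
  · rw [le_div_iff₀ hv]
    have k5 : τ ≤ p ^ 2 * τ := le_mul_of_one_le_left t0.le (one_le_pow₀ p1)
    nlinarith [mul_le_mul k2 k5 t0.le w3]

lemma uc_supp {n p : ℕ} (hn : 0 < n) (hp : 0 < p) {Q : Set ℂ} {G : ℂ → ℂ} {v M : ℝ} (h : Reg Q G v M)
    {e : ℤ → ℂ} {a : ℤ} {l t : ℝ} (hl : 1 ≤ l) (hne : Uc n p e Q G a (hy (l / n) t) ≠ 0) :
    v * p ^ 2 ≤ n ∧ |a| ≤ 2 * p + n ∧ |t| ≤ 1 / v ∧ e a ≠ 0 := by
  unfold Uc at hne
  split_ifs at hne with hQ
  · obtain ⟨h1, h2, h3⟩ := ajc_mem hn hp h hl hQ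
    exact ⟨h1, h2, h3, left_ne_zero_of_mul hne⟩
  · exact absurd rfl hne

lemma uc_int {n p : ℕ} (hn : 0 < n) (hp : 0 < p) {Q : Set ℂ} {G : ℂ → ℂ} {v M : ℝ} (h : Reg Q G v M)
    (e : ℤ → ℂ) (a : ℤ) {l : ℝ} (hl : 1 ≤ l) : Integrable fun t => Uc n p e Q G a (hy (l / n) t) := by
  have hy0 : 0 < l / n := by positivity
  have hc0 : Continuous fun t => hy (l / n) t := by unfold hy; fun_prop
  have hc1 : Continuous fun t => -1 / ((p : ℂ) ^ 2 * hy (l / n) t) :=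
    continuous_const.div (continuous_const.mul hc0) fun t =>
      mul_ne_zero (pow_ne_zero _ (by exact_mod_cast hp.ne')) (ajc_ne hy0 t)
  have hc2 : Continuous fun t => (a : ℂ) / p + -1 / ((p : ℂ) ^ 2 * hy (l / n) t) :=
    continuous_const.add hc1
  have hc3 : Continuous fun t => rt (-1 / ((p : ℂ) ^ 2 * hy (l / n) t)) :=
    continuous_iff_continuousAt.2 fun t =>
      ContinuousAt.comp (f := fun t => -1 / ((p : ℂ) ^ 2 * hy (l / n) t))
        (hasDerivAt_rt (ajc_pos hp hy0 t).le (ne_of_im (ajc_pos hp hy0 t))).continuousAt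
        hc1.continuousAt
  have hc4 : Continuous fun t => G ((a : ℂ) / p + -1 / ((p : ℂ) ^ 2 * hy (l / n) t)) :=
    continuous_iff_continuousAt.2 fun t =>
      ContinuousAt.comp (f := fun t => (a : ℂ) / p + -1 / ((p : ℂ) ^ 2 * hy (l / n) t))
        (h.cont _ (by rw [ajc_im]; exact ajc_pos hp hy0 t)) hc2.continuousAt
  have hc5 : Continuous fun t => ep (-n * hy (l / n) t) :=
    continuous_ep.comp (continuous_const.mul hc0)
  have hc : Continuous fun t => e a * (((√p : ℝ) : ℂ) * rt (-1 / (p ^ 2 * hy (l / n) t)) *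
      ep (-n * hy (l / n) t) * G (a / p + -1 / (p ^ 2 * hy (l / n) t))) :=
    continuous_const.mul (((continuous_const.mul hc3).mul hc5).mul hc4)
  have hi := ((hc.integrableOn_Icc (μ := volume) (a := -(1 / v)) (b := 1 / v)).mono_set
    (s := (fun t => (a : ℂ) / p + -1 / ((p : ℂ) ^ 2 * hy (l / n) t)) ⁻¹' Q)
    fun t ht => abs_le.1 (ajc_mem hn hp h hl ht).2.2).integrable_indicator (hc2.measurable h.meas)
  refine hi.congr (Eventually.of_forall fun t => ?_)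
  unfold Uc
  dsimp only
  split_ifs with hQ
  · rw [indicator_of_mem]
    exact hQ
  · rw [indicator_of_notMem]
    exact hQ

end

end Pool.Agent.MP_9f080f_an

namespace Pool.Agent.MP_9f080f_an
open Complex MeasureTheory Set Filter Topology Metric
open scoped Real

noncomputable section

lemma ajd_cont_kW (H : ℝ) {ω : ℂ} (hω : 0 < ω.im) : ContinuousAt (kW H) ω := by
  have h0 : ω ≠ 0 := fun h => by simp [h] at hω
  have hW : Continuous WW := (continuous_pow 2).mul rho_cont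
  have h1 : ContinuousAt (fun z : ℂ => H * z.im / normSq z) ω :=
    (continuous_const.mul continuous_im).continuousAt.div continuous_normSq.continuousAt
      (normSq_pos.2 h0).ne'
  have h2 : ContinuousAt rt ω := by
    refine ContinuousAt.cpow (continuous_const.mul continuous_id).continuousAt continuousAt_const ?_
    left
    simpa using hω
  have h3 : ContinuousAt (fun z : ℂ => ep (H / z)) ω :=
    continuous_ep.continuousAt.comp (continuousAt_const.div continuousAt_id h0)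
  exact ((continuous_ofReal.comp hW).continuousAt.comp h1).mul (h2.mul h3)

lemma ajd_im (a : ℤ) (p : ℕ) : ((a : ℂ) / p).im = 0 := by
  have : (a : ℂ) / p = (((a : ℝ) / p : ℝ) : ℂ) := by push_cast; rfl
  rw [this, ofReal_im]

lemma ajd_int {Q : Set ℂ} {G : ℂ → ℂ} {v M : ℝ} (h : Reg Q G v M) (H : ℝ) {b : ℂ}
    (hb : b.im = 0) : IntegrableOn (fun w => G w / (w.im ^ 2 : ℝ) * kW H (w - b)) Q := by
  have hv := h.vpos
  have hK : IsCompact (closedBall b (H / 2) ∩ {z : ℂ | v ≤ z.im}) :=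
    (isCompact_closedBall _ _).inter_right (isClosed_le continuous_const continuous_im)
  have hc : ContinuousOn (fun w => G w / (w.im ^ 2 : ℝ) * kW H (w - b))
      (closedBall b (H / 2) ∩ {z : ℂ | v ≤ z.im}) := by
    intro w hw
    have h1 : 0 < w.im := hv.trans_le hw.2
    have h2 : 0 < (w - b).im := by rwa [sub_im, hb, sub_zero]
    have h3 : ContinuousAt (fun w : ℂ => ((w.im ^ 2 : ℝ) : ℂ)) w :=
      (continuous_ofReal.comp (continuous_im.pow 2)).continuousAt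
    have h4 : ContinuousAt (fun w : ℂ => kW H (w - b)) w :=
      ContinuousAt.comp (f := fun w : ℂ => w - b) (ajd_cont_kW H h2)
        (continuous_id.sub continuous_const).continuousAt
    exact (((h.cont w h1).div h3 (ofReal_ne_zero.2 (pow_pos h1 2).ne')).mul h4).continuousWithinAt
  refine (hc.integrableOn_compact hK).of_forall_sdiff_eq_zero h.meas fun w hw => ?_
  have h1 : v ≤ w.im := h.high w hw.1
  have h2 : 0 < (w - b).im := by
    rw [sub_im, hb, sub_zero]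
    linarith
  have h3 : kW H (w - b) = 0 := by
    by_contra hne
    exact hw.2 ⟨by rw [mem_closedBall, dist_eq_norm]; exact (kW_supp h2 hne).2.2, h1⟩
  rw [h3, mul_zero]

lemma ajd_pt {n p : ℕ} (hn : 0 < n) (hp : 0 < p) (Q : Set ℂ) (G : ℂ → ℂ) (e : ℤ → ℂ) (a : ℤ)
    {ω : ℂ} (hω : 0 < ω.im) :
    (n : ℂ) * (rho (n * (-1 / ((((p : ℝ) ^ 2 : ℝ) : ℂ) * ω)).im) : ℂ) *
        Uc n p e Q G a (-1 / ((((p : ℝ) ^ 2 : ℝ) : ℂ) * ω)) /
        ((((p : ℝ) ^ 2) ^ 2 * normSq ω ^ 2 : ℝ) : ℂ) =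
      (√p / n : ℝ) * e a * Q.indicator
        (fun w => G w / (w.im ^ 2 : ℝ) * kW (n / p ^ 2) (w - a / p)) (a / p + ω) := by
  have h0 : ω ≠ 0 := fun h => by simp [h] at hω
  have hp' : (p : ℝ) ≠ 0 := by positivity
  have hn' : (n : ℝ) ≠ 0 := by positivity
  have hpc : (p : ℂ) ≠ 0 := by exact_mod_cast hp.ne'
  have hnc : (n : ℂ) ≠ 0 := by exact_mod_cast hn.ne'
  have hN : normSq ω ≠ 0 := (normSq_pos.2 h0).ne'
  have e1 : -1 / ((p : ℂ) ^ 2 * (-1 / ((((p : ℝ) ^ 2 : ℝ) : ℂ) * ω))) = ω := by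
    push_cast
    field_simp
  have e2 : -(n : ℂ) * (-1 / ((((p : ℝ) ^ 2 : ℝ) : ℂ) * ω)) = (((n : ℝ) / p ^ 2 : ℝ) : ℂ) / ω := by
    push_cast
    field_simp
  have e3 : (n : ℝ) * (-1 / ((((p : ℝ) ^ 2 : ℝ) : ℂ) * ω)).im =
      (n : ℝ) / p ^ 2 * ω.im / normSq ω := by
    have : -1 / ((((p : ℝ) ^ 2 : ℝ) : ℂ) * ω) = ((-1 / (p : ℝ) ^ 2 : ℝ) : ℂ) * ω⁻¹ := by
      push_cast
      field_simp
    rw [this, im_ofReal_mul, inv_im]
    field_simp
  have e4 : ((a : ℂ) / p + ω).im = ω.im := by rw [add_im, ajd_im, zero_add]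
  have e5 : (a : ℂ) / p + ω - a / p = ω := add_sub_cancel_left _ _
  rw [e3]
  unfold Uc
  rw [e1, e2]
  by_cases hQ : (a : ℂ) / p + ω ∈ Q
  · rw [if_pos hQ, indicator_of_mem hQ, e4, e5]
    unfold kW WW
    have hI : ((ω.im : ℝ) : ℂ) ≠ 0 := ofReal_ne_zero.2 hω.ne'
    have hNc : ((normSq ω : ℝ) : ℂ) ≠ 0 := ofReal_ne_zero.2 hN
    generalize rho ((n : ℝ) / p ^ 2 * ω.im / normSq ω) = r
    generalize ep ((((n : ℝ) / p ^ 2 : ℝ) : ℂ) / ω) = E
    push_cast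
    field_simp
  · rw [if_neg hQ, indicator_of_notMem hQ, mul_zero, zero_div, mul_zero]

theorem r1_cov {n p : ℕ} (hn : 0 < n) (hp : 0 < p) {Q : Set ℂ} {G : ℂ → ℂ} {v M : ℝ} (h : Reg Q G v M)
    (e : ℤ → ℂ) (a : ℤ) :
    IntervalIntegrable (fun l => (rho l : ℂ) * ∫ t, Uc n p e Q G a (hy (l / n) t)) volume 2 4 ∧
    IntegrableOn (fun w => G w / (w.im ^ 2 : ℝ) * kW (n / p ^ 2) (w - a / p)) Q ∧
    ∫ l in (2 : ℝ)..4, (rho l : ℂ) * ∫ t, Uc n p e Q G a (hy (l / n) t) =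
      (√p / n : ℝ) * e a * ∫ w in Q, G w / (w.im ^ 2 : ℝ) * kW (n / p ^ 2) (w - a / p) := by
  have hn' : (n : ℝ) ≠ 0 := by positivity
  have hnc : (n : ℂ) ≠ 0 := by exact_mod_cast hn.ne'
  have hU : MeasurableSet {z : ℂ | 0 < z.im} :=
    (isOpen_lt continuous_const continuous_im).measurableSet
  have hg := ajd_int h ((n : ℝ) / p ^ 2) (ajd_im a p)
  obtain ⟨g, hgd⟩ : ∃ g : ℂ → ℂ,
      g = fun w => G w / (w.im ^ 2 : ℝ) * kW (n / p ^ 2) (w - a / p) := ⟨_, rfl⟩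
  obtain ⟨F, hF⟩ : ∃ F : ℂ → ℂ,
      F = fun τ => (n : ℂ) * (rho (n * τ.im) : ℂ) * Uc n p e Q G a τ := ⟨_, rfl⟩
  obtain ⟨Φ, hΦ⟩ : ∃ Φ : ℝ → ℂ,
      Φ = fun l => (rho l : ℂ) * ∫ t, Uc n p e Q G a (hy (l / n) t) := ⟨_, rfl⟩
  rw [← hgd] at hg
  rw [← hgd, ← hΦ]
  have g1 : Integrable (Q.indicator g) := (integrable_indicator_iff h.meas).2 hg
  have g2 : Integrable fun ω => (√p / n : ℝ) * e a * Q.indicator g (a / p + ω) :=
    (g1.comp_add_left _).const_mul _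
  have g3 : ∫ ω, (√p / n : ℝ) * e a * Q.indicator g (a / p + ω) =
      (√p / n : ℝ) * e a * ∫ w in Q, g w := by
    rw [integral_const_mul, integral_add_left_eq_self (Q.indicator g), integral_indicator h.meas]
  have g4 : ∀ ω, ω ∉ {z : ℂ | 0 < z.im} →
      (√p / n : ℝ) * e a * Q.indicator g (a / p + ω) = 0 := by
    intro ω hω
    have hQ : (a : ℂ) / p + ω ∉ Q := by
      intro hQ
      have h1 := h.high _ hQ
      rw [add_im, ajd_im, zero_add] at h1
      exact hω (h.vpos.trans_le h1)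
    rw [indicator_of_notMem hQ, mul_zero]
  have hpt : EqOn (fun ω => F (-1 / ((((p : ℝ) ^ 2 : ℝ) : ℂ) * ω)) /
      ((((p : ℝ) ^ 2) ^ 2 * normSq ω ^ 2 : ℝ) : ℂ))
      (fun ω => (√p / n : ℝ) * e a * Q.indicator g (a / p + ω)) {z : ℂ | 0 < z.im} := by
    intro ω hω
    rw [hF, hgd]
    exact ajd_pt hn hp Q G e a hω
  obtain ⟨c1, c2⟩ := cov_inv (c := (p : ℝ) ^ 2) (by positivity) F
  have f1 : IntegrableOn F {z : ℂ | 0 < z.im} :=
    c1.2 (g2.integrableOn.congr_fun hpt.symm hU)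
  have f0 : ∀ τ, τ ∉ {z : ℂ | 0 < z.im} → F τ = 0 := by
    intro τ hτ
    have h1 : τ.im ≤ 0 := not_lt.1 hτ
    have h2 : (n : ℝ) * τ.im ≤ 0 := mul_nonpos_of_nonneg_of_nonpos (by positivity) h1
    rw [hF]
    show (n : ℂ) * (rho (n * τ.im) : ℂ) * Uc n p e Q G a τ = 0
    rw [rho_zero (Or.inl (by linarith)), ofReal_zero, mul_zero, zero_mul]
  have f2 : Integrable F := f1.integrable_of_forall_notMem_eq_zero f0
  have f3 : ∫ z, F z = (√p / n : ℝ) * e a * ∫ w in Q, g w := by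
    rw [← setIntegral_eq_integral_of_forall_compl_eq_zero f0, c2, setIntegral_congr_fun hU hpt,
      setIntegral_eq_integral_of_forall_compl_eq_zero g4, g3]
  obtain ⟨p1, p2⟩ := int_prod f2
  have q1 : (fun y : ℝ => ∫ t : ℝ, F (hy y t)) = fun y => (n : ℂ) * Φ (n * y) := by
    funext y
    have h1 : ∀ t : ℝ, (hy y t).im = y := fun t => by simp [hy]
    rw [hF, hΦ]
    simp only [h1]
    rw [integral_const_mul, mul_div_cancel_left₀ y hn', mul_assoc]
  rw [q1] at p1 p2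
  have q2 : Integrable Φ :=
    (integrable_comp_mul_left_iff Φ hn').1 ((integrable_const_mul_iff (IsUnit.mk0 _ hnc) _).1 p1)
  have q3 : Function.support Φ ⊆ Ioc 2 4 := by
    intro l hl
    by_contra hc
    refine hl ?_
    have h1 : l ≤ 2 ∨ 4 ≤ l := by
      by_contra h2
      rw [not_or, not_le, not_le] at h2
      exact hc ⟨h2.1, h2.2.le⟩
    rw [hΦ]
    show (rho l : ℂ) * _ = 0
    rw [rho_zero h1, ofReal_zero, zero_mul]
  refine ⟨q2.intervalIntegrable, hg, ?_⟩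
  rw [intervalIntegral.integral_eq_integral_of_support_subset q3, ← f3, p2, integral_const_mul,
    Measure.integral_comp_mul_left, abs_of_nonneg (by positivity), real_smul]
  push_cast
  field_simp

end

end Pool.Agent.MP_9f080f_an

namespace Pool.Agent.MP_9f080f_an
open Complex MeasureTheory Set Filter Topology Metric
open scoped Real

noncomputable section

lemma aj_int {v : ℝ} (hv : 0 < v) : IntegrableOn (fun w : ℂ => w.im ^ (-13 / 12 : ℝ))
    (Complex.measurableEquivRealProd ⁻¹' (Icc (-2 : ℝ) 2 ×ˢ Ioi v)) := by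
  have h1 : IntegrableOn (fun _ : ℝ => (1 : ℝ)) (Icc (-2 : ℝ) 2) := continuous_const.integrableOn_Icc
  have h2 : IntegrableOn (fun t : ℝ => t ^ (-13 / 12 : ℝ)) (Ioi v) :=
    integrableOn_Ioi_rpow_of_lt (by norm_num) hv
  have h3 : IntegrableOn (fun z : ℝ × ℝ => (1 : ℝ) * z.2 ^ (-13 / 12 : ℝ)) (Icc (-2 : ℝ) 2 ×ˢ Ioi v) := by
    rw [IntegrableOn, Measure.volume_eq_prod, ← Measure.prod_restrict]
    exact Integrable.mul_prod h1 h2
  have h4 := (Complex.volume_preserving_equiv_real_prod.integrableOn_comp_preimage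
    Complex.measurableEquivRealProd.measurableEmbedding).2 h3
  refine h4.congr_fun (fun w _ => ?_) (Complex.measurableEquivRealProd.measurable
    (measurableSet_Icc.prod measurableSet_Ioi))
  simp

lemma aj_num {n p P : ℕ} (hn : 0 < n) (hp : 0 < p) (hpP : p ≤ P) (hP : P ≤ 2 * p) :
    √p / n * (√P * ((n : ℝ) / p ^ 2) ^ (3 / 4 : ℝ)) ≤ 2 * (n : ℝ) ^ (-1 / 4 : ℝ) / √P := by
  have hn' : (0 : ℝ) < n := Nat.cast_pos.2 hn
  have hp' : (0 : ℝ) < p := Nat.cast_pos.2 hp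
  have hP' : (0 : ℝ) < P := Nat.cast_pos.2 (by omega)
  have hP2 : (P : ℝ) ≤ 2 * p := by exact_mod_cast hP
  have e1 : ((p : ℝ) ^ 2) ^ (3 / 4 : ℝ) = p * √p := by
    rw [← Real.rpow_natCast, ← Real.rpow_mul hp'.le, Real.sqrt_eq_rpow, ← Real.rpow_one_add' hp'.le]
    · norm_num
    · norm_num
  have e2 : (n : ℝ) ^ (3 / 4 : ℝ) = n * (n : ℝ) ^ (-1 / 4 : ℝ) := by
    rw [← Real.rpow_one_add' hn'.le]
    · norm_num
    · norm_num
  have s1 : 0 < √(p : ℝ) := Real.sqrt_pos.2 hp'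
  have s2 : 0 < √(P : ℝ) := Real.sqrt_pos.2 hP'
  have s3 : 0 < (n : ℝ) ^ (-1 / 4 : ℝ) := Real.rpow_pos_of_pos hn' _
  rw [Real.div_rpow hn'.le (by positivity), e1, e2, le_div_iff₀ s2]
  have e3 : √p / n * (√P * (n * (n : ℝ) ^ (-1 / 4 : ℝ) / (p * √p))) * √P =
      (√P * √P) / p * (n : ℝ) ^ (-1 / 4 : ℝ) := by
    field_simp
  rw [e3, Real.mul_self_sqrt hP'.le]
  exact mul_le_mul_of_nonneg_right ((div_le_iff₀ hp').2 hP2) s3.le

lemma aj_tsum {n p A : ℕ} (hp : 0 < p) (hA : 2 * p + n ≤ A) (e : ℤ → ℂ) {w : ℂ} (h1 : 0 < w.im)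
    (h2 : |w.re| ≤ 2) : ∑ a ∈ Finset.Icc (-A : ℤ) A, e a * kW (n / p ^ 2) (w - a / p) =
      ∑' a : ℤ, e a * kW (n / p ^ 2) (w - a / p) := by
  refine (tsum_eq_sum fun a ha => ?_).symm
  by_contra hne
  have hp' : (1 : ℝ) ≤ p := by exact_mod_cast hp
  have e1 : (w - a / p : ℂ) = w - ((a / p : ℝ) : ℂ) := by push_cast; ring
  have h3 := (kW_supp (by rw [e1]; simpa using h1) (right_ne_zero_of_mul hne)).2.2
  have h4 := (Complex.abs_re_le_norm _).trans h3
  rw [e1, Complex.sub_re, Complex.ofReal_re] at h4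
  have h5 : |(a : ℝ) / p| ≤ 2 + n / p := by
    have a1 := abs_sub_abs_le_abs_sub ((a : ℝ) / p) w.re
    rw [abs_sub_comm] at a1
    have a2 : (n : ℝ) / p ^ 2 ≤ n / p :=
      div_le_div_of_nonneg_left (Nat.cast_nonneg n) (by linarith) (by nlinarith)
    have a3 : (0 : ℝ) ≤ n / p := by positivity
    linarith
  rw [abs_div, abs_of_pos (by linarith : (0 : ℝ) < p), div_le_iff₀ (by linarith), add_mul,
    div_mul_cancel₀ _ (by linarith)] at h5
  have h6 : (2 * p + n : ℝ) ≤ A := by exact_mod_cast hA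
  have h7 : |a| ≤ A := by exact_mod_cast h5.trans h6
  exact ha (Finset.mem_Icc.2 (abs_le.1 h7))

theorem r1_frame {v : ℝ} (hv : 0 < v) : ∃ K : ℝ, 0 < K ∧ ∀ (n p P A : ℕ) (Q : Set ℂ) (G : ℂ → ℂ) (M κ : ℝ)
    (e : ℤ → ℂ) (W : ℤ → ℝ), 0 < n → 0 < p → p ≤ P → P ≤ 2 * p → (κ = 0 ∨ κ = 3 / 8) → TwW e P κ W →
    Reg Q G v M → 2 * p + n ≤ A →
    ‖∑ a ∈ Finset.Icc (-A : ℤ) A, ∫ l in (2 : ℝ)..4, (rho l : ℂ) * ∫ t, Uc n p e Q G a (hy (l / n) t)‖ ≤
      if v * p ^ 2 ≤ n then K * M * (n : ℝ) ^ (-1 / 4 : ℝ) * (pw2 W P / √P) else 0 := by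
  obtain ⟨K, hK, hpoin⟩ := poin hv
  have hint := aj_int (half_pos hv)
  set S := Complex.measurableEquivRealProd ⁻¹' (Icc (-2 : ℝ) 2 ×ˢ Ioi (v / 2)) with hS
  have hSm : MeasurableSet S :=
    Complex.measurableEquivRealProd.measurable (measurableSet_Icc.prod measurableSet_Ioi)
  have hnn : ∀ᵐ w ∂volume.restrict S, 0 ≤ w.im ^ (-13 / 12 : ℝ) := by
    filter_upwards [ae_restrict_mem hSm] with w hw
    exact Real.rpow_nonneg ((half_pos hv).trans hw.2).le _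
  set J := ∫ w in S, w.im ^ (-13 / 12 : ℝ) with hJ
  have hJ0 : 0 ≤ J := integral_nonneg_of_ae hnn
  refine ⟨2 * K * (J + 1), by positivity, ?_⟩
  intro n p P A Q G M κ e W hn hp hpP hP hκ hW hQ hA
  split_ifs with hc
  swap
  · rw [norm_le_zero_iff]
    refine Finset.sum_eq_zero fun a _ => ?_
    rw [intervalIntegral.integral_congr (g := fun _ => 0) fun l hl => ?_]
    · simp
    · rw [uIcc_of_le (by norm_num)] at hl
      have h0 : ∀ t, Uc n p e Q G a (hy (l / n) t) = 0 := fun t => by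
        by_contra hne
        exact hc (uc_supp hn hp hQ (by linarith [hl.1]) hne).1
      simp [h0]
  have hn' : (0 : ℝ) < n := Nat.cast_pos.2 hn
  have hp' : (0 : ℝ) < p := Nat.cast_pos.2 hp
  have hP' : 0 < √(P : ℝ) := Real.sqrt_pos.2 (Nat.cast_pos.2 (by omega))
  have hH : (0 : ℝ) < n / p ^ 2 := by positivity
  have hpw : 0 ≤ pw2 W P := Finset.sum_nonneg fun m _ =>
    div_nonneg (nonneg_of_mul_nonneg_right ((norm_nonneg _).trans (hW.four m)) hP') (by positivity)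
  have hM := hQ.Mpos
  have hQS : Q ⊆ S := fun w hw =>
    ⟨abs_le.1 (hQ.strip w hw), (half_lt_self hv).trans_le (hQ.high w hw)⟩
  have e1 : ∑ a ∈ Finset.Icc (-A : ℤ) A, ∫ l in (2 : ℝ)..4, (rho l : ℂ) *
      ∫ t, Uc n p e Q G a (hy (l / n) t) = (√p / n : ℝ) * ∫ w in Q, ∑ a ∈ Finset.Icc (-A : ℤ) A,
        e a * (G w / (w.im ^ 2 : ℝ) * kW (n / p ^ 2) (w - a / p)) := by
    rw [integral_finsetSum _ fun a _ => (r1_cov hn hp hQ e a).2.1.const_mul (e a), Finset.mul_sum]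
    refine Finset.sum_congr rfl fun a _ => ?_
    rw [(r1_cov hn hp hQ e a).2.2, integral_const_mul, mul_assoc]
  set C := M * (K * √P * pw2 W P * ((n : ℝ) / p ^ 2) ^ (3 / 4 : ℝ)) with hC
  have hC0 : 0 ≤ C := by positivity
  have e2 : ‖∫ w in Q, ∑ a ∈ Finset.Icc (-A : ℤ) A,
      e a * (G w / (w.im ^ 2 : ℝ) * kW (n / p ^ 2) (w - a / p))‖ ≤ C * J := by
    refine (norm_integral_le_of_norm_le ((hint.mono_set hQS).const_mul C) ?_).trans ?_
    · filter_upwards [ae_restrict_mem hQ.meas] with w hw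
      have h1 : 0 < w.im := hv.trans_le (hQ.high w hw)
      have h2 : ∑ a ∈ Finset.Icc (-A : ℤ) A,
          e a * (G w / (w.im ^ 2 : ℝ) * kW (n / p ^ 2) (w - a / p)) =
          G w / (w.im ^ 2 : ℝ) * ∑' a : ℤ, e a * kW (n / p ^ 2) (w - a / p) := by
        rw [← aj_tsum hp hA e h1 (hQ.strip w hw), Finset.mul_sum]
        exact Finset.sum_congr rfl fun a _ => by ring
      have h3 := hpoin e P p κ _ W w hp hpP hP hκ hW hH (hQ.high w hw)
      have h4 : ‖G w / (w.im ^ 2 : ℝ)‖ ≤ M * w.im ^ (1 / 6 : ℝ) / w.im ^ 2 := by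
        rw [norm_div, Complex.norm_real, Real.norm_eq_abs, abs_of_pos (by positivity)]
        exact div_le_div_of_nonneg_right (hQ.bd w hw) (by positivity)
      have h5 : w.im ^ (-13 / 12 : ℝ) = w.im ^ (1 / 6 : ℝ) * w.im ^ (3 / 4 : ℝ) / w.im ^ 2 := by
        rw [← Real.rpow_add h1, ← Real.rpow_natCast, ← Real.rpow_sub h1]
        norm_num
      rw [h2, norm_mul]
      refine (mul_le_mul h4 h3 (norm_nonneg _) (by positivity)).trans (le_of_eq ?_)
      rw [Real.mul_rpow hH.le h1.le, h5, hC]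
      ring
    · rw [integral_const_mul]
      exact mul_le_mul_of_nonneg_left (setIntegral_mono_set hint hnn hQS.eventuallyLE) hC0
  rw [e1, norm_mul, Complex.norm_real, Real.norm_eq_abs, abs_of_nonneg (by positivity)]
  have e3 := mul_le_mul_of_nonneg_right (aj_num hn hp hpP hP)
    (show 0 ≤ M * K * pw2 W P * (J + 1) by positivity)
  calc _ ≤ √p / n * (C * (J + 1)) :=
        mul_le_mul_of_nonneg_left (e2.trans (mul_le_mul_of_nonneg_left (by linarith) hC0))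
          (by positivity)
    _ = _ := by rw [hC]; ring
    _ ≤ _ := e3
    _ = _ := by ring

end

end Pool.Agent.MP_9f080f_an

end

-- part MP_9f080f_an.G.AL
section

namespace Pool.Agent.MP_9f080f_an
open Complex MeasureTheory Set Filter Topology Metric
open scoped Real

noncomputable section

/-! The automorphic part.
`unf_eq`: copy `circle1_unf` (without the column `(1, 0)`).
`r1_top`, `r1_cusp`: copy the second halves of `shr1_top`, `shr1_cusp` with `hc n` replaced by `hy (l/n)`, using `uc_supp`, `uc_int`.  In `r1_top` an element with `g.c = 0` has `(g.mob τ).im = τ.im = l/n < v`, so `Ty` vanishes.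
`r1_split`: copy the almost everywhere identity in `R1_bound` (`ae_tile`, `circle1_tsum`, `circle1_val`, `fd_zw_re`, `wz_mem_fd`), now with two regions only.
`r1_avg`: take `Y` from `Fh_cusp`, `v = 1/(2Y)`, `P₁ = {w ∈ FD | (zw w).im ≤ Y}` (`circle1_low`, `circle1_fd_meas`, `circle1_zw_meas`), `Reg P₁ (FF x) v (C (1+x)^(-2/3))` by `FF_top0`, `shr1_rpow_le`, and
`Reg Q (Fh x) v (C (1+x)^(-2/3))`.  For `n > 8 Y` and `l ∈ [2,4]`, `R1y` is the finite sum given by `r1_split`, `r1_top`, `r1_cusp`; swap the finite sums with the `l`-integral (`r1_cov`), use `r1_frame` with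
`eT_twW` (`P = 2p`), `eC_twW` (`P = p`; for even `p`, `eC n p = 0`), and `ph_pw2` with `X = 2 √(2 Y n)`. -/

theorem unf_eq {T : GT → ℝ → ℂ} (hT : ∀ g (j : ℤ) t, T (g * GT.T j) t = T g (t + 2 * j))
    (hN : ∀ g t, T (GT.N * g) t = T g t) (φ : ℤ × ℤ ≃ ℤ × ℤ) (hφ : ∀ x, φ (-x) = -φ x)
    (U : ℕ → ℤ → ℝ → ℂ) (A K : ℕ)
    (h1 : ∀ (g : GT) (p : ℕ), 0 < p → (φ (g.a, g.c)).2 = p →
      ∃ s : ℝ, ∀ t, T g t = U p (φ (g.a, g.c)).1 (t + s))
    (h0 : ∀ g : GT, (φ (g.a, g.c)).2 = 0 → ∀ t, T g t = 0)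
    (h2 : ∀ p a t, 0 < p → U p a t ≠ 0 →
      p ≤ K ∧ |a| ≤ A ∧ Adm (φ.symm (a, p)).1 (φ.symm (a, p)).2)
    (h3 : ∀ p, 0 < p → ∃ R : ℝ, ∀ a t, R < |t| → U p a t = 0)
    (h4 : ∀ p a, 0 < p → Integrable (U p a)) :
    IntervalIntegrable (fun t => ∑' g, T g t) volume 0 2 ∧
      ∫ t in (0 : ℝ)..2, ∑' g, T g t =
        2 * ∑ p ∈ Finset.Icc 1 K, ∑ a ∈ Finset.Icc (-A : ℤ) A, ∫ t, U p a t := by
  classical
  let ι : ℤ × ℕ → ℤ × ℤ := fun y => φ.symm (y.1, y.2)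
  have hι : Function.Injective ι := fun y z h => by
    have := φ.symm.injective h
    simp only [Prod.mk.injEq, Nat.cast_inj] at this
    exact Prod.ext this.1 this.2
  let box : Finset (ℤ × ℕ) := Finset.Icc (-A : ℤ) A ×ˢ Finset.Icc 1 K
  let W := box.filter fun y => Adm (ι y).1 (ι y).2
  have hNc : ∀ g : GT, φ ((GT.N * g).a, (GT.N * g).c) = -φ (g.a, g.c) := fun g => by
    rw [← hφ]; simp
  have hpos : ∀ (g : GT) t, T g t ≠ 0 → 0 < (φ (g.a, g.c)).2 → (g.a, g.c) ∈ W.image ι := by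
    intro g t ht hp
    obtain ⟨p, hp'⟩ := Int.eq_ofNat_of_zero_le hp.le
    have hp0 : 0 < p := by omega
    obtain ⟨s, hs⟩ := h1 g p hp0 hp'
    rw [hs] at ht
    obtain ⟨a1, a2, a3⟩ := h2 _ _ _ hp0 ht
    refine Finset.mem_image.2 ⟨((φ (g.a, g.c)).1, p), Finset.mem_filter.2 ⟨?_, a3⟩, ?_⟩
    · exact Finset.mem_product.2 ⟨Finset.mem_Icc.2 (abs_le.1 a2), Finset.mem_Icc.2 ⟨hp0, a1⟩⟩
    · simp only [ι, ← hp', Prod.mk.eta, Equiv.symm_apply_apply]
  have hRpos : ∀ g : GT, 0 < (φ (g.a, g.c)).2 → ∃ R : ℝ, ∀ t, R < |t| → T g t = 0 := by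
    intro g hp
    obtain ⟨p, hp'⟩ := Int.eq_ofNat_of_zero_le hp.le
    have hp0 : 0 < p := by omega
    obtain ⟨s, hs⟩ := h1 g p hp0 hp'
    obtain ⟨R, hR⟩ := h3 p hp0
    refine ⟨R + |s|, fun t ht => ?_⟩
    rw [hs]
    refine hR _ _ ?_
    have := abs_sub (t + s) s
    rw [add_sub_cancel_right] at this
    linarith
  have hrep : ∀ y ∈ W, φ ((rep (ι y).1 (ι y).2).a, (rep (ι y).1 (ι y).2).c) = (y.1, (y.2 : ℤ)) := by
    intro y hy
    have := (Finset.mem_filter.1 hy).2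
    rw [rep_a this, rep_c this]
    simp only [ι, Prod.mk.eta, Equiv.apply_symm_apply]
  have hrep' : ∀ y ∈ W, Integrable (T (rep (ι y).1 (ι y).2)) ∧
      ∫ t, T (rep (ι y).1 (ι y).2) t = ∫ t, U y.2 y.1 t := by
    intro y hy
    have hp : 0 < y.2 := (Finset.mem_Icc.1 (Finset.mem_product.1 (Finset.mem_filter.1 hy).1).2).1
    obtain ⟨s, hs⟩ := h1 _ y.2 hp (by rw [hrep y hy])
    rw [hrep y hy] at hs
    have : T (rep (ι y).1 (ι y).2) = fun t => U y.2 y.1 (t + s) := funext hs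
    rw [this]
    exact ⟨(h4 _ _ hp).comp_add_right s, integral_add_right_eq_self (U y.2 y.1) s⟩
  have key := unfold2 hT hN (W.image ι) ?_ ?_ ?_ ?_ ?_
  · refine ⟨key.1, ?_⟩
    rw [key.2, Finset.sum_image fun y _ z _ h => hι h, Finset.sum_filter, Finset.sum_product_right]
    congr 1
    refine Finset.sum_congr rfl fun p hp => Finset.sum_congr rfl fun a ha => ?_
    split_ifs with h
    · exact (hrep' (a, p) (Finset.mem_filter.2 ⟨Finset.mem_product.2 ⟨ha, hp⟩, h⟩)).2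
    · have : U p a = fun _ => 0 := funext fun t => by
        by_contra hne
        exact h (h2 p a t (Finset.mem_Icc.1 hp).1 hne).2.2
      rw [this]; simp
  · intro q hq
    obtain ⟨y, hy, rfl⟩ := Finset.mem_image.1 hq
    exact (Finset.mem_filter.1 hy).2
  · intro g t ht
    have eN : (-g.a, -g.c) = ((GT.N * g).a, (GT.N * g).c) := by simp
    rcases lt_trichotomy (φ (g.a, g.c)).2 0 with h | h | h
    · right
      rw [eN]
      refine hpos _ t (by rwa [hN]) ?_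
      rw [hNc]; simpa using h
    · exact absurd (h0 g h t) ht
    · left; exact hpos g t ht h
  · intro q hq hq'
    obtain ⟨y, hy, rfl⟩ := Finset.mem_image.1 hq
    obtain ⟨z, hz, hz'⟩ := Finset.mem_image.1 hq'
    have e := congrArg φ hz'
    rw [hφ] at e
    simp only [ι, Equiv.apply_symm_apply, Prod.neg_mk, Prod.mk.injEq] at e
    have a1 := (Finset.mem_filter.1 hy).1
    have a2 := (Finset.mem_filter.1 hz).1
    simp only [box, Finset.mem_product, Finset.mem_Icc] at a1 a2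
    omega
  · intro g
    rcases lt_trichotomy (φ (g.a, g.c)).2 0 with h | h | h
    · obtain ⟨R, hR⟩ := hRpos (GT.N * g) (by rw [hNc]; simpa using h)
      exact ⟨R, fun t ht => by rw [← hN, hR t ht]⟩
    · exact ⟨0, fun t _ => h0 g h t⟩
    · exact hRpos g h
  · intro q hq
    obtain ⟨y, hy, rfl⟩ := Finset.mem_image.1 hq
    exact (hrep' y hy).1

end

end Pool.Agent.MP_9f080f_an

namespace Pool.Agent.MP_9f080f_an
open Complex MeasureTheory Set Filter Topology Metric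
open scoped Real

noncomputable section

lemma alb_hy_im (y t : ℝ) : (hy y t).im = y := by simp [hy]

lemma alb_hy_add (y t s : ℝ) : hy y (t + s) = hy y t + s := by
  unfold hy; push_cast; ring

lemma alb_hT (x : ℝ) (n : ℕ) (P : Set ℂ) (y : ℝ) (g : GT) (j : ℤ) (t : ℝ) :
    Ty x n P y (g * GT.T j) t = Ty x n P y g (t + 2 * j) := by
  have e : hy y (t + 2 * j) = hy y t + 2 * j := by rw [alb_hy_add]; push_cast; ring
  have e2 : ep (-n * (hy y t + 2 * j)) = ep (-n * hy y t) := by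
    rw [show -(n : ℂ) * (hy y t + 2 * j) = -n * hy y t + 2 * ((-n * j : ℤ) : ℂ) by push_cast; ring,
      ep_add, ep_two_int, mul_one]
  unfold Ty
  rw [e, GT.mob_mul_T, GT.chi_mul, GT.chi_T, mul_one, th3_T, e2]

lemma alb_hN (x : ℝ) (n : ℕ) (P : Set ℂ) (y : ℝ) (g : GT) (t : ℝ) :
    Ty x n P y (GT.N * g) t = Ty x n P y g t := by
  unfold Ty
  rw [GT.mob_N_mul, GT.chi_mul, GT.chi_N, one_mul]

lemma alb_K {n p K A : ℕ} (hn : 0 < n) (hp : 0 < p) {Q : Set ℂ} {G : ℂ → ℂ} {v M : ℝ}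
    (h : Reg Q G v M) {e : ℤ → ℂ} {a : ℤ} {l t : ℝ} (hl : 1 ≤ l) (hK : n ≤ v * K)
    (hA : 2 * K + n ≤ A) (hne : Uc n p e Q G a (hy (l / n) t) ≠ 0) :
    p ≤ K ∧ |a| ≤ A ∧ e a ≠ 0 := by
  obtain ⟨a1, a2, -, a4⟩ := uc_supp hn hp h hl hne
  have hv := h.vpos
  have hp1 : (1 : ℝ) ≤ p := by exact_mod_cast hp
  have b1 : (p : ℝ) ^ 2 ≤ K := le_of_mul_le_mul_left (a1.trans hK) hv
  have b2 : (p : ℝ) ≤ K := by nlinarith
  have b3 : p ≤ K := by exact_mod_cast b2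
  exact ⟨b3, by omega, a4⟩

lemma alb_R {n p : ℕ} (hn : 0 < n) (hp : 0 < p) {Q : Set ℂ} {G : ℂ → ℂ} {v M : ℝ}
    (h : Reg Q G v M) (e : ℤ → ℂ) {l : ℝ} (hl : 1 ≤ l) :
    ∃ R : ℝ, ∀ a t, R < |t| → Uc n p e Q G a (hy (l / n) t) = 0 := by
  refine ⟨1 / v, fun a t ht => ?_⟩
  by_contra hne
  exact absurd (uc_supp hn hp h hl hne).2.2.1 (not_le.2 ht)

theorem r1_top {n K A : ℕ} (hn : 0 < n) {x v M l : ℝ} {P : Set ℂ} (h : Reg P (FF x) v M) (hl : 1 ≤ l)
    (hl' : l / n < v) (hK : n ≤ v * K) (hA : 2 * K + n ≤ A) :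
    IntervalIntegrable (fun t => ∑' g, Ty x n P (l / n) g t) volume 0 2 ∧
      ∫ t in (0 : ℝ)..2, ∑' g, Ty x n P (l / n) g t = 2 * ∑ p ∈ Finset.Icc 1 K,
        ∑ a ∈ Finset.Icc (-A : ℤ) A, ∫ t, Uc n p (eT n p) P (FF x) a (hy (l / n) t) := by
  have hy0 : 0 < l / n := by positivity
  have hτ : ∀ t, 0 < (hy (l / n) t).im := fun t => by rw [alb_hy_im]; exact hy0
  refine unf_eq (alb_hT x n P _) (alb_hN x n P _) (Equiv.refl _) (fun _ => rfl)
    (fun p a t => Uc n p (eT n p) P (FF x) a (hy (l / n) t)) A K ?_ ?_ ?_ ?_ ?_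
  · intro g p hp hg
    simp only [Equiv.refl_apply] at hg ⊢
    refine ⟨g.d / p, fun t => ?_⟩
    have hp' : (p : ℂ) ≠ 0 := Nat.cast_ne_zero.2 hp.ne'
    have e1 : hy (l / n) (t + g.d / p) = hy (l / n) t + g.d / p := by
      rw [alb_hy_add]; push_cast; ring
    have hτ' := hτ t
    unfold Ty Uc
    rw [e1]
    generalize hy (l / n) t = τ at hτ' ⊢
    have hd := g.den_ne hτ'
    have hcc : (g.c : ℂ) = p := by rw [hg]; simp
    have hdet : (g.a : ℂ) * g.d - g.b * p = 1 := by rw [← hcc]; exact_mod_cast g.det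
    rw [hcc] at hd
    have e2 : g.mob τ = (g.a : ℂ) / p + -1 / (p ^ 2 * (τ + g.d / p)) := by
      have e : (p : ℂ) ^ 2 * (τ + g.d / p) = p * (p * τ + g.d) := by field_simp
      rw [GT.mob, e, hcc, div_add_div _ _ hp' (mul_ne_zero hp' hd),
        div_eq_div_iff hd (mul_ne_zero hp' (mul_ne_zero hp' hd))]
      linear_combination -(p * (p * τ + g.d)) * hdet
    have e3 := (eT_spec n hp).2.2 g hg _ hτ'
    have e4 := th3_ne (g.im_mob_pos hτ')
    rw [e3, ← e2]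
    split_ifs
    · rw [show -1 / ((p : ℂ) ^ 2 * (τ + g.d / p)) = g.mob τ - g.a / p by rw [e2]; ring]
      field_simp
    · rfl
  · intro g hg t
    simp only [Equiv.refl_apply] at hg
    have hdet := g.det
    rw [hg, mul_zero, sub_zero] at hdet
    have hd := Int.eq_one_or_neg_one_of_mul_eq_one' hdet
    unfold Ty
    rw [if_neg]
    intro hm
    have a1 := h.high _ hm
    rw [g.im_mob (hτ t), hg, alb_hy_im] at a1
    rcases hd with ⟨-, hd⟩ | ⟨-, hd⟩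
    · rw [hd] at a1
      simp at a1
      linarith
    · rw [hd] at a1
      simp at a1
      linarith
  · intro p a t hp hne
    obtain ⟨a1, a2, a3⟩ := alb_K hn hp h hl hK hA hne
    refine ⟨a1, a2, ?_⟩
    by_contra h
    exact a3 ((eT_spec n hp).2.1 a h)
  · intro p hp
    exact alb_R hn hp h _ hl
  · intro p a hp
    exact uc_int hn hp h _ a hl

theorem r1_cusp {n K A : ℕ} (hn : 0 < n) {x v M l : ℝ} {Q : Set ℂ} (h : Reg Q (Fh x) v M) (hl : 1 ≤ l)
    (hK : n ≤ v * K) (hA : 2 * K + n ≤ A) :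
    IntervalIntegrable (fun t => ∑' g, Ty x n (zw ⁻¹' Q) (l / n) g t) volume 0 2 ∧
      ∫ t in (0 : ℝ)..2, ∑' g, Ty x n (zw ⁻¹' Q) (l / n) g t = 2 * ∑ p ∈ Finset.Icc 1 K,
        ∑ a ∈ Finset.Icc (-A : ℤ) A, ∫ t, Uc n p (eC n p) Q (Fh x) a (hy (l / n) t) := by
  have hy0 : 0 < l / n := by positivity
  have hτ : ∀ t, 0 < (hy (l / n) t).im := fun t => by rw [alb_hy_im]; exact hy0
  let φ : ℤ × ℤ ≃ ℤ × ℤ := ⟨fun y => (y.2, y.2 - y.1), fun y => (y.1 - y.2, y.1),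
    fun y => by simp, fun y => by simp⟩
  have hφ : ∀ y, φ y = (y.2, y.2 - y.1) := fun _ => rfl
  have hφ' : ∀ y, φ.symm y = (y.1 - y.2, y.1) := fun _ => rfl
  have hodd : ∀ g : GT, Odd (g.c - g.a) := fun g => by
    have := g.p1
    rw [show g.c - g.a = g.a + g.c - 2 * g.a by ring]
    exact this.sub_even (even_two_mul _)
  refine unf_eq (alb_hT x n _ _) (alb_hN x n _ _) φ
    (fun y => by simp only [hφ, Prod.fst_neg, Prod.snd_neg, Prod.neg_mk]; congr 1; ring)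
    (fun p a t => Uc n p (eC n p) Q (Fh x) a (hy (l / n) t)) A K ?_ ?_ ?_ ?_ ?_
  · intro g p hp hg
    simp only [hφ] at hg ⊢
    refine ⟨-((g.b - g.d) / p), fun t => ?_⟩
    have hpo : Odd p := by
      have := hodd g
      rw [hg] at this
      exact_mod_cast this
    have hp' : (p : ℂ) ≠ 0 := Nat.cast_ne_zero.2 hp.ne'
    have e1 : hy (l / n) (t + -((g.b - g.d) / p)) = hy (l / n) t - (g.b - g.d) / p := by
      rw [alb_hy_add]; push_cast; ring
    have hτ' := hτ t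
    unfold Ty Uc
    rw [e1]
    generalize hy (l / n) t = τ at hτ' ⊢
    have hd := g.den_ne hτ'
    have hw := g.im_mob_pos hτ'
    have hcc : (g.a : ℂ) = g.c - p := by
      have : (g.c : ℂ) - g.a = p := by exact_mod_cast hg
      linear_combination -this
    have hdet : ((g.c : ℂ) - p) * g.d - g.b * g.c = 1 := by rw [← hcc]; exact_mod_cast g.det
    have hd2 : (p : ℂ) * τ - (g.b - g.d) ≠ 0 := by
      intro h
      have := congrArg Complex.im h
      simp at this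
      rcases this with h | h
      · omega
      · linarith
    have e2 : zw (g.mob τ) = (g.c : ℂ) / p + -1 / (p ^ 2 * (τ - (g.b - g.d) / p)) := by
      have e : (p : ℂ) ^ 2 * (τ - (g.b - g.d) / p) = p * (p * τ - (g.b - g.d)) := by
        field_simp
      have e' : 1 - g.mob τ = (p * τ - (g.b - g.d)) / (g.c * τ + g.d) := by
        rw [GT.mob, hcc]; field_simp; ring
      rw [zw, e', e, one_div_div, div_add_div _ _ hp' (mul_ne_zero hp' hd2),
        div_eq_div_iff hd2 (mul_ne_zero hp' (mul_ne_zero hp' hd2))]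
      linear_combination -(p * (p * τ - (g.b - g.d))) * hdet
    have e3 := (eC_spec n hpo).2.2 g hg _ hτ'
    have hz := im_zw_pos hw
    have e4 := th2_ne hz
    have e5 := rt_ne (ne_of_im hz)
    have e6 := th3_wz hz
    rw [wz_zw] at e6
    rw [e3, ← e2, e6]
    by_cases hm : zw (g.mob τ) ∈ Q
    · rw [if_pos hm, if_pos (show g.mob τ ∈ zw ⁻¹' Q from hm),
        show -1 / ((p : ℂ) ^ 2 * (τ - (g.b - g.d) / p)) = zw (g.mob τ) - g.c / p by rw [e2]; ring,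
        Fh, wz_zw]
      field_simp
    · rw [if_neg hm, if_neg (show g.mob τ ∉ zw ⁻¹' Q from hm)]
  · intro g hg
    simp only [hφ] at hg
    have := hodd g
    rw [hg] at this
    simp at this
  · intro p a t hp hne
    obtain ⟨a1, a2, a3⟩ := alb_K hn hp h hl hK hA hne
    refine ⟨a1, a2, ?_⟩
    have hpo : Odd p := by
      by_contra h
      exact a3 (by rw [eC, dif_neg h]; rfl)
    have hco : IsCoprime a p := by
      by_contra h
      exact a3 ((eC_spec n hpo).2.1 a h)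
    simp only [hφ']
    constructor
    · obtain ⟨u, w, h⟩ := hco
      exact ⟨-w, u + w, by linear_combination h⟩
    · rw [show a - p + a = 2 * a - p by ring]
      exact (even_two_mul a).sub_odd (by exact_mod_cast hpo)
  · intro p hp
    exact alb_R hn hp h _ hl
  · intro p a hp
    exact uc_int hn hp h _ a hl

end

end Pool.Agent.MP_9f080f_an

namespace Pool.Agent.MP_9f080f_an
open Complex MeasureTheory Set Filter Topology Metric
open scoped Real

noncomputable section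

lemma alc_hN (x : ℝ) (n : ℕ) (P : Set ℂ) (y : ℝ) (g : GT) (t : ℝ) :
    Ty x n P y (GT.N * g) t = Ty x n P y g t := by
  unfold Ty
  rw [GT.mob_N_mul, GT.chi_mul, GT.chi_N, one_mul]

lemma alc_tsum {x y : ℝ} {n : ℕ} {t : ℝ} {g₀ : GT}
    (h : ∀ g : GT, g.mob (hy y t) ∈ FD ↔ g = g₀ ∨ g = GT.N * g₀) {P : Set ℂ} (hP : P ⊆ FD) :
    ∑' g, Ty x n P y g t = 2 * Ty x n P y g₀ t := by
  classical
  rw [tsum_eq_sum (s := {g₀, GT.N * g₀}), Finset.sum_pair (GT.N_mul_ne g₀).symm, alc_hN, two_mul]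
  intro g hg
  unfold Ty
  rw [if_neg]
  intro hm
  exact hg (by simpa using (h g).1 (hP hm))

theorem r1_split {x y Y : ℝ} (hx : 0 ≤ x) (hy0 : 0 < y) (hY : 2 ≤ Y) (n : ℕ)
    (h1 : IntervalIntegrable (fun t => ∑' g, Ty x n {w | w ∈ FD ∧ (zw w).im ≤ Y} y g t) volume 0 2)
    (h2 : IntervalIntegrable (fun t => ∑' g,
      Ty x n (zw ⁻¹' {z | Y < z.im ∧ |z.re| < 1 / 2}) y g t) volume 0 2) :
    R1y x n y = 1 / 4 * ((∫ t in (0 : ℝ)..2, ∑' g, Ty x n {w | w ∈ FD ∧ (zw w).im ≤ Y} y g t) +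
      ∫ t in (0 : ℝ)..2, ∑' g, Ty x n (zw ⁻¹' {z | Y < z.im ∧ |z.re| < 1 / 2}) y g t) := by
  set P₁ : Set ℂ := {w | w ∈ FD ∧ (zw w).im ≤ Y} with hP₁
  set P₃ : Set ℂ := zw ⁻¹' {z | Y < z.im ∧ |z.re| < 1 / 2} with hP₃
  have h3 : P₃ ⊆ FD := fun w hw => by
    have := wz_mem_fd (z := zw w) (by linarith [hw.1]) hw.2
    rwa [wz_zw] at this
  have hae : ∀ᵐ t : ℝ, th3 (hy y t) * hk x (sf (hy y t)) * ep (-n * hy y t) =
      1 / 2 * ((∑' g, Ty x n P₁ y g t) + ∑' g, Ty x n P₃ y g t) := by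
    filter_upwards [ae_tile hy0] with t ht
    obtain ⟨-, g₀, hg⟩ := ht
    change ∀ g : GT, g.mob (hy y t) ∈ FD ↔ _ at hg
    have h0 := (hg g₀).2 (Or.inl rfl)
    have him : 0 < (hy y t).im := by simpa [hy] using hy0
    rw [alc_tsum hg (P := P₁) fun _ h => h.1, alc_tsum hg h3, ← circle1_val hx him h0]
    unfold Ty
    by_cases c1 : (zw (g₀.mob (hy y t))).im ≤ Y
    · rw [if_pos (show g₀.mob (hy y t) ∈ P₁ from ⟨h0, c1⟩),
        if_neg (show g₀.mob (hy y t) ∉ P₃ from fun h => absurd h.1 (not_lt.2 c1))]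
      ring
    · rw [if_neg (show g₀.mob (hy y t) ∉ P₁ from fun h => c1 h.2),
        if_pos (show g₀.mob (hy y t) ∈ P₃ from ⟨not_le.1 c1, fd_zw_re h0⟩)]
      ring
  rw [R1y, intervalIntegral.integral_congr_ae (hae.mono fun t ht _ => ht),
    intervalIntegral.integral_const_mul, intervalIntegral.integral_add h1 h2]
  ring

end

end Pool.Agent.MP_9f080f_an

namespace Pool.Agent.MP_9f080f_an
open Complex MeasureTheory Set Filter Topology Metric
open scoped Real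

noncomputable section

lemma al_root {Y n : ℝ} (hY : 0 < Y) (hn : 0 < n) : n ^ (-1 / 4 : ℝ) * √√(Y * n) = √√Y := by
  rw [Real.sqrt_mul hY.le, Real.sqrt_mul (Real.sqrt_nonneg _)]
  have e : √√n = n ^ (1 / 4 : ℝ) := by
    rw [Real.sqrt_eq_rpow, Real.sqrt_eq_rpow, ← Real.rpow_mul hn.le]; norm_num
  rw [e, mul_left_comm, ← Real.rpow_add hn]
  norm_num

theorem al_main {v : ℝ} (hv : 0 < v) : ∃ C : ℝ, 0 < C ∧ ∀ (Y₀ n K X₁ : ℕ) (Q : Set ℂ) (G : ℂ → ℂ)
    (M κ Λ : ℝ) (e : ℕ → ℤ → ℂ) (W : ℕ → ℤ → ℝ) (f : ℕ → ℕ), 0 < n → Function.Injective f →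
    (∀ p, p ≤ f p ∧ f p ≤ 2 * p) → (κ = 0 ∨ κ = 3 / 8) → (∀ p, 0 < p → TwW (e p) (f p) κ (W (f p))) →
    Reg Q G v M → PH W X₁ Λ → 4 ≤ v * Y₀ → Y₀ * n ≤ X₁ ^ 2 →
    IntervalIntegrable (fun l => (rho l : ℂ) * (2 * ∑ p ∈ Finset.Icc 1 K,
      ∑ a ∈ Finset.Icc (-(2 * K + n : ℕ) : ℤ) (2 * K + n : ℕ), ∫ t, Uc n p (e p) Q G a (hy (l / n) t)))
      volume 2 4 ∧
    ‖∫ l in (2 : ℝ)..4, (rho l : ℂ) * (2 * ∑ p ∈ Finset.Icc 1 K,
      ∑ a ∈ Finset.Icc (-(2 * K + n : ℕ) : ℤ) (2 * K + n : ℕ), ∫ t, Uc n p (e p) Q G a (hy (l / n) t))‖ ≤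
      C * √√Y₀ * M * Λ := by
  classical
  obtain ⟨K₁, hK₁, h₁⟩ := r1_frame hv
  obtain ⟨K₂, hK₂, h₂⟩ := ph_pw2
  refine ⟨2 * K₁ * K₂, by positivity, ?_⟩
  intro Y₀ n K X₁ Q G M κ Λ e W f hn hf hfp hκ hT hR hP hY hX
  set A : ℕ := 2 * K + n with hA
  have e1 : (fun l : ℝ => (rho l : ℂ) * (2 * ∑ p ∈ Finset.Icc 1 K,
      ∑ a ∈ Finset.Icc (-A : ℤ) A, ∫ t, Uc n p (e p) Q G a (hy (l / n) t))) = fun l : ℝ =>
      2 * ∑ p ∈ Finset.Icc 1 K, ∑ a ∈ Finset.Icc (-A : ℤ) A,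
        (rho l : ℂ) * ∫ t, Uc n p (e p) Q G a (hy (l / n) t) := by
    funext l
    rw [mul_left_comm, Finset.mul_sum]
    simp only [Finset.mul_sum]
  have i1 : ∀ p ∈ Finset.Icc 1 K, ∀ a ∈ Finset.Icc (-A : ℤ) A, IntervalIntegrable
      (fun l : ℝ => (rho l : ℂ) * ∫ t, Uc n p (e p) Q G a (hy (l / n) t)) volume 2 4 :=
    fun p hp a _ => (r1_cov hn (Finset.mem_Icc.1 hp).1 hR (e p) a).1
  have i2 : ∀ p ∈ Finset.Icc 1 K, IntervalIntegrable (fun l : ℝ => ∑ a ∈ Finset.Icc (-A : ℤ) A,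
      (rho l : ℂ) * ∫ t, Uc n p (e p) Q G a (hy (l / n) t)) volume 2 4 := fun p hp => by
    have := IntervalIntegrable.sum _ (i1 p hp)
    rwa [Finset.sum_fn] at this
  rw [e1]
  constructor
  · have := IntervalIntegrable.sum _ i2
    rw [Finset.sum_fn] at this
    exact this.const_mul 2
  rw [intervalIntegral.integral_const_mul, intervalIntegral.integral_finsetSum i2, norm_mul]
  have hn0 : (0 : ℝ) < n := by exact_mod_cast hn
  have hY0 : (0 : ℝ) < Y₀ := by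
    by_contra h
    have := mul_nonpos_of_nonneg_of_nonpos hv.le (not_lt.1 h)
    linarith
  have hb : ‖∑ p ∈ Finset.Icc 1 K, ∫ l in (2 : ℝ)..4, ∑ a ∈ Finset.Icc (-A : ℤ) A,
      (rho l : ℂ) * ∫ t, Uc n p (e p) Q G a (hy (l / n) t)‖ ≤ ∑ p ∈ Finset.Icc 1 K,
      if v * p ^ 2 ≤ n then K₁ * M * (n : ℝ) ^ (-1 / 4 : ℝ) * (pw2 (W (f p)) (f p) / √(f p)) else 0 := by
    refine norm_sum_le_of_le _ fun p hp => ?_
    obtain ⟨p1, p2⟩ := Finset.mem_Icc.1 hp
    rw [intervalIntegral.integral_finsetSum (i1 p hp)]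
    exact h₁ n p (f p) A Q G M κ (e p) (W (f p)) hn p1 (hfp p).1 (hfp p).2 hκ (hT p p1) hR (by omega)
  rw [← Finset.sum_filter, ← Finset.mul_sum] at hb
  have hsq : ∀ p : ℕ, v * p ^ 2 ≤ n → ((f p : ℕ) : ℝ) ^ 2 ≤ Y₀ * n := fun p hp => by
    have a1 : ((f p : ℕ) : ℝ) ≤ 2 * p := by exact_mod_cast (hfp p).2
    have a2 : ((f p : ℕ) : ℝ) ^ 2 ≤ (2 * p) ^ 2 := pow_le_pow_left₀ (Nat.cast_nonneg _) a1 2
    have a3 : 4 * (p : ℝ) ^ 2 ≤ v * Y₀ * p ^ 2 := mul_le_mul_of_nonneg_right hY (sq_nonneg _)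
    have a4 := mul_le_mul_of_nonneg_left hp hY0.le
    nlinarith
  have hs := h₂ W X₁ Λ (√(Y₀ * n)) (((Finset.Icc 1 K).filter fun p : ℕ => v * p ^ 2 ≤ n).image f) hP
    (by positivity) (fun P hP' => by
      obtain ⟨p, hp, rfl⟩ := Finset.mem_image.1 hP'
      obtain ⟨hp1, hp2⟩ := Finset.mem_filter.1 hp
      refine Finset.mem_Icc.2 ⟨(Finset.mem_Icc.1 hp1).1.trans (hfp p).1, ?_⟩
      have a1 : f p ^ 2 ≤ Y₀ * n := by exact_mod_cast hsq p hp2
      exact (Nat.pow_le_pow_iff_left two_ne_zero).1 (a1.trans hX)) (fun P hP' => by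
      obtain ⟨p, hp, rfl⟩ := Finset.mem_image.1 hP'
      exact Real.le_sqrt_of_sq_le (hsq p (Finset.mem_filter.1 hp).2))
  rw [Finset.sum_image fun a _ b _ h => hf h] at hs
  have hM := hR.Mpos
  have h3 := hb.trans (mul_le_mul_of_nonneg_left hs (by positivity))
  have h4 : K₁ * M * (n : ℝ) ^ (-1 / 4 : ℝ) * (K₂ * Λ * √√(Y₀ * n)) = K₁ * K₂ * √√Y₀ * M * Λ := by
    rw [← al_root hY0 hn0]; ring
  rw [h4] at h3
  have h5 : ‖(2 : ℂ)‖ = 2 := by simp
  rw [h5]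
  linarith

theorem r1_avg : ∃ (Y₀ : ℕ) (C : ℝ), 0 < C ∧ 2 ≤ Y₀ ∧ ∀ (n X₁ : ℕ) (Λ x : ℝ), Y₀ ≤ n → PH (Wf F1 n) X₁ Λ →
    PH (WB n) X₁ Λ → Y₀ * n ≤ X₁ ^ 2 → 0 ≤ x →
    ‖∫ l in (2 : ℝ)..4, (rho l : ℂ) * R1y x n (l / n)‖ ≤ C * Λ * (1 + x) ^ (-2 / 3 : ℝ) := by
  obtain ⟨Y, hY, C₁, hC₁⟩ := Fh_cusp
  have hv : 0 < 1 / (2 * Y) := by positivity
  obtain ⟨C₂, hC₂⟩ := FF_top0 hv
  obtain ⟨C₃, hC₃, h₃⟩ := al_main hv
  set Y₀ : ℕ := ⌈8 * Y⌉₊ + 2 with hY₀
  have hY1 : 8 * Y < Y₀ := by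
    have := Nat.le_ceil (8 * Y)
    rw [hY₀]; push_cast; linarith
  refine ⟨Y₀, C₃ * √√Y₀ * (|C₂| / (1 / (2 * Y)) ^ (1 / 6 : ℝ) + |C₁|) + 1, by positivity, by omega, ?_⟩
  intro n X₁ Λ x hn hP1 hP2 hX hx
  have hn0 : 0 < n := by omega
  have hn1 : (Y₀ : ℝ) ≤ n := by exact_mod_cast hn
  have hn2 : (0 : ℝ) < n := by exact_mod_cast hn0
  set X := (1 + x) ^ (-2 / 3 : ℝ) with hXd
  have hX0 : 0 < X := by positivity
  have r1 : Reg {w | w ∈ FD ∧ (zw w).im ≤ Y} (FF x) (1 / (2 * Y))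
      (|C₂| / (1 / (2 * Y)) ^ (1 / 6 : ℝ) * X) :=
    { meas := circle1_fd_meas.inter
        (measurableSet_le (measurable_im.comp circle1_zw_meas) measurable_const)
      vpos := hv
      Mpos := by positivity
      high := fun z hz => (circle1_low hY hz.1 hz.2).1
      strip := fun z hz => by
        obtain ⟨-, a1, a2⟩ := circle1_low hY hz.1 hz.2
        rw [abs_le]; constructor <;> linarith
      cont := fun z hz => (FF_diff hx hz).continuousAt
      bd := fun z hz => by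
        have a0 := (circle1_low hY hz.1 hz.2).1
        have a1 := hC₂ x hx z a0
        rw [← hXd] at a1
        have a2 := mul_le_mul_of_nonneg_right (shr1_rpow_le hv a0 (C := C₂)) hX0.le
        linarith }
  have r2 : Reg {z | Y < z.im ∧ |z.re| < 1 / 2} (Fh x) (1 / (2 * Y)) (|C₁| * X) :=
    { meas := (measurableSet_lt measurable_const measurable_im).inter
        (measurableSet_lt (continuous_abs.measurable.comp measurable_re) measurable_const)
      vpos := hv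
      Mpos := by positivity
      high := fun z hz => by
        have : 1 / (2 * Y) ≤ 1 := by rw [div_le_one (by positivity)]; linarith
        linarith [hz.1]
      strip := fun z hz => by linarith [hz.2]
      cont := fun z hz => (Fh_diff hx hz).continuousAt
      bd := fun z hz => by
        have a1 := (hC₁ x hx z hz.1.le hz.2.le).1
        rw [← hXd] at a1
        have a0 : 0 < z.im := by linarith [hz.1]
        have a3 : C₁ * z.im ^ (1 / 6 : ℝ) * X ≤ |C₁| * z.im ^ (1 / 6 : ℝ) * X :=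
          mul_le_mul_of_nonneg_right (mul_le_mul_of_nonneg_right (le_abs_self _) (by positivity)) hX0.le
        linarith }
  have hY4 : 4 ≤ 1 / (2 * Y) * Y₀ := by
    rw [one_div, inv_mul_eq_div, le_div_iff₀ (by positivity)]; linarith
  have hK : (n : ℝ) ≤ 1 / (2 * Y) * (Y₀ * n : ℕ) := by
    push_cast
    nlinarith
  obtain ⟨i1, b1⟩ := h₃ Y₀ n (Y₀ * n) X₁ _ _ _ 0 Λ (eT n) (WB n) (fun p => 2 * p) hn0
    (fun a b h => by simpa using h) (fun p => ⟨by omega, le_rfl⟩) (Or.inl rfl)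
    (fun p hp => eT_twW n hp) r1 hP2 hY4 hX
  obtain ⟨i2, b2⟩ := h₃ Y₀ n (Y₀ * n) X₁ _ _ _ (3 / 8) Λ (eC n) (Wf F1 n) (fun p => p) hn0
    (fun a b h => h) (fun p => ⟨le_rfl, by omega⟩) (Or.inr rfl)
    (fun p _ => by
      by_cases ho : Odd p
      · exact eC_twW n ho
      · have e0 : eC n p = 0 := dif_neg ho
        rw [e0]
        refine ⟨fun a => by simp, fun m => ?_⟩
        have := (hP1 m).nonneg p
        simp only [Pi.zero_apply, zero_mul, Finset.sum_const_zero, norm_zero]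
        positivity) r2 hP1 hY4 hX
  have b3 := (norm_add_le _ _).trans (add_le_add b1 b2)
  rw [← intervalIntegral.integral_add i1 i2] at b3
  have b6 := mul_le_mul_of_nonneg_left b3 (norm_nonneg (1 / 4 : ℂ))
  rw [← norm_mul, ← intervalIntegral.integral_const_mul] at b6
  refine le_trans (le_of_eq (congrArg _ ?_)) (b6.trans ?_)
  · refine intervalIntegral.integral_congr fun l hl => ?_
    rw [uIcc_of_le (by norm_num)] at hl
    have l1 : 1 ≤ l := by linarith [hl.1]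
    have l2 : l / n < 1 / (2 * Y) := by
      rw [div_lt_div_iff₀ hn2 (by positivity)]
      nlinarith [hl.2]
    obtain ⟨t1, t2⟩ := r1_top hn0 r1 l1 l2 hK le_rfl
    obtain ⟨c1, c2⟩ := r1_cusp hn0 r2 l1 hK le_rfl
    rw [r1_split hx (by positivity) hY n t1 c1, t2, c2]
    ring
  have h4 : ‖(1 / 4 : ℂ)‖ = 1 / 4 := by simp
  rw [h4]
  have hΛ := (hP1 0).lam
  have b4 : 0 ≤ Λ * X := by positivity
  have b5 : 0 ≤ C₃ * √√Y₀ * (|C₂| / (1 / (2 * Y)) ^ (1 / 6 : ℝ) + |C₁|) * (Λ * X) := by positivity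
  linarith

end

end Pool.Agent.MP_9f080f_an

end
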