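import Pool.Agent.MP_9f080f_an.Mg.PV

namespace Pool.Agent.MP_9f080f_an
open Complex Finset
open scoped Real

noncomputable section

/-! Core lemma, part A: sets of primes without short relations.
`good_rel`: prove by strong induction on `T' ⊆ T` (`Finset.strongInduction`): if `τ, τ'` take values in
`insertNone T'.powerset` and `dd T' ∣ NN T' τ τ'`, then the counts agree for every nonempty `S`.  If `S ⊄ T'` both counts vanish.
Otherwise pick `q ∈ S`, put `τq a = some (S_a.erase q)` if `τ a = some S_a` with `q ∈ S_a` and `none` otherwise.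
Terms with `q ∉ S_a` are divisible by `q`, and `T' \ S_a = T'.erase q \ S_a.erase q` if `q ∈ S_a`, so `q ∣ N₁ = NN (T'.erase q) τq τq'`.
Moreover `NN (T.erase q) τq τq' = dd (T \ T') * N₁`, so `¬ Bad` forces `N₁ = 0`.  By induction the counts of `τq, τq'` agree for
nonempty sets; writing `N₁ = ∑_S (count - count') dd (T'.erase q \ S)` they also agree for `∅`.  The count of `S` for `τ` is the
count of `S.erase q` for `τq`.
`moment`: `‖G‖^(2s) = G^s * conj G^s`, expand (`Finset.prod_univ_sum`), `1 / dd S = dd (T \ S) / dd T`, `pv_orth`.  Only pairs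
`σ, σ'` of nonempty sets with `dd T ∣ NN` survive; for them the counts agree, so `∏ ‖β (σ' a)‖ = ∏ ‖β (σ a)‖`
(`Finset.prod_comp`/`prod_fiberwise`) and each `σ' a` is one of the `σ b` (at most `s^s` choices of `σ'`). -/

/-- the product of a set of primes -/
def dd (S : Finset ℕ) : ℕ := ∏ q ∈ S, q

/-- numerators -/
def nv (T : Finset ℕ) : Option (Finset ℕ) → ℤ
  | none => 0
  | some S => dd (T \ S)

/-- the numerator of a relation -/
def NN (T : Finset ℕ) {s : ℕ} (τ τ' : Fin s → Option (Finset ℕ)) : ℤ :=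
  ∑ a, nv T (τ a) - ∑ a, nv T (τ' a)

/-- tuples of optional subsets -/
def opts (s : ℕ) (T : Finset ℕ) : Finset (Fin s → Option (Finset ℕ)) :=
  Fintype.piFinset fun _ => insertNone T.powerset

/-- some prime divides a nonzero numerator built from the other primes -/
def Bad (s : ℕ) (T : Finset ℕ) : Prop :=
  ∃ q ∈ T, ∃ τ ∈ opts s (T.erase q), ∃ τ' ∈ opts s (T.erase q),
    NN (T.erase q) τ τ' ≠ 0 ∧ (q : ℤ) ∣ NN (T.erase q) τ τ'

/-- keep the sets that contain `q` and remove `q` from them -/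
def caaE (q : ℕ) : Option (Finset ℕ) → Option (Finset ℕ)
  | none => none
  | some S => if q ∈ S then some (S.erase q) else none

lemma caa_mem {s : ℕ} {T : Finset ℕ} {τ : Fin s → Option (Finset ℕ)} :
    τ ∈ opts s T ↔ ∀ a S, τ a = some S → S ⊆ T := by
  simp [opts, Fintype.mem_piFinset, mem_insertNone]

lemma caa_E_mem {s q : ℕ} {T : Finset ℕ} {τ : Fin s → Option (Finset ℕ)} (h : τ ∈ opts s T) :
    (fun a => caaE q (τ a)) ∈ opts s (T.erase q) := by
  rw [caa_mem] at h ⊢
  intro a S hS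
  cases ha : τ a with
  | none => simp [ha, caaE] at hS
  | some S' =>
    rw [ha, caaE] at hS
    split_ifs at hS
    obtain rfl := Option.some.inj hS
    exact erase_subset_erase _ (h a S' ha)

lemma caa_E_iff {q : ℕ} {S : Finset ℕ} (hq : q ∈ S) (o : Option (Finset ℕ)) :
    o = some S ↔ caaE q o = some (S.erase q) := by
  cases o with
  | none => simp [caaE]
  | some S' =>
    rw [caaE]
    split_ifs with h
    · simp only [Option.some.injEq]
      refine ⟨fun e => by rw [e], fun e => ?_⟩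
      rw [← insert_erase h, e, insert_erase hq]
    · simp only [Option.some.injEq, iff_false]
      rintro rfl
      exact h hq

lemma caa_dvd {q : ℕ} {T : Finset ℕ} (hq : q ∈ T) (o : Option (Finset ℕ)) :
    (q : ℤ) ∣ nv T o - nv (T.erase q) (caaE q o) := by
  cases o with
  | none => simp [caaE, nv]
  | some S =>
    rw [caaE]
    split_ifs with h
    · have : T.erase q \ S.erase q = T \ S := by
        ext a
        simp only [Finset.mem_sdiff, mem_erase]
        constructor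
        · rintro ⟨⟨h1, h2⟩, h3⟩
          exact ⟨h2, fun h4 => h3 ⟨h1, h4⟩⟩
        · rintro ⟨h1, h2⟩
          exact ⟨⟨fun e => h2 (e ▸ h), h1⟩, fun h3 => h2 h3.2⟩
      simp [nv, this]
    · simp only [nv, sub_zero]
      exact Int.natCast_dvd_natCast.2 (dvd_prod_of_mem _ (Finset.mem_sdiff.2 ⟨hq, h⟩))

lemma caa_scale {A B : Finset ℕ} (hAB : A ⊆ B) {o : Option (Finset ℕ)}
    (ho : ∀ S, o = some S → S ⊆ A) : nv B o = dd (B \ A) * nv A o := by
  cases o with
  | none => simp [nv]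
  | some S =>
    have hS := ho S rfl
    have : B \ S = B \ A ∪ A \ S := by
      ext a
      simp only [Finset.mem_sdiff, mem_union]
      constructor
      · rintro ⟨h1, h2⟩
        by_cases h : a ∈ A
        · exact Or.inr ⟨h, h2⟩
        · exact Or.inl ⟨h1, h⟩
      · rintro (⟨h1, h2⟩ | ⟨h1, h2⟩)
        · exact ⟨h1, fun h => h2 (hS h)⟩
        · exact ⟨hAB h1, h2⟩
    simp only [nv, dd]
    rw [this, prod_union (disjoint_left.2 fun a h h' =>
      (Finset.mem_sdiff.1 h).2 (Finset.mem_sdiff.1 h').1)]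
    push_cast
    rfl

lemma caa_ne {T S : Finset ℕ} (hT : ∀ q ∈ T, q.Prime) (hS : S ⊆ T) : (dd S : ℤ) ≠ 0 :=
  Int.natCast_ne_zero.2 (prod_ne_zero_iff.2 fun q hq => (hT q (hS hq)).ne_zero)

lemma caa_count {s : ℕ} {A : Finset ℕ} {τ : Fin s → Option (Finset ℕ)} (h : τ ∈ opts s A) :
    ∑ a, nv A (τ a) = ∑ S ∈ A.powerset, (#{a | τ a = some S} : ℤ) * dd (A \ S) := by
  have e : ∀ a, nv A (τ a) = ∑ S ∈ A.powerset, if τ a = some S then (dd (A \ S) : ℤ) else 0 := by
    intro a
    cases ha : τ a with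
    | none => simp [nv]
    | some S' =>
      simp only [Option.some.injEq]
      rw [sum_ite_eq, if_pos (mem_powerset.2 (caa_mem.1 h a S' ha))]
      rfl
  simp only [e]
  rw [sum_comm]
  refine sum_congr rfl fun S _ => ?_
  rw [← sum_filter, sum_const, nsmul_eq_mul]

lemma caa_empty {s : ℕ} {A : Finset ℕ} (hA : (dd A : ℤ) ≠ 0) {τ τ' : Fin s → Option (Finset ℕ)}
    (h : τ ∈ opts s A) (h' : τ' ∈ opts s A) (h0 : NN A τ τ' = 0)
    (hc : ∀ S : Finset ℕ, S.Nonempty → #{a | τ a = some S} = #{a | τ' a = some S})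
    (S : Finset ℕ) : #{a | τ a = some S} = #{a | τ' a = some S} := by
  rcases S.eq_empty_or_nonempty with rfl | hS
  · rw [NN, caa_count h, caa_count h', ← sum_sub_distrib,
      sum_eq_single_of_mem ∅ (empty_mem_powerset _) fun S _ hS => by
        rw [hc S (nonempty_iff_ne_empty.2 hS), sub_self], ← sub_mul, sdiff_empty] at h0
    exact_mod_cast sub_eq_zero.1 ((mul_eq_zero.1 h0).resolve_right hA)
  · exact hc S hS

lemma caa_ind {s : ℕ} {T : Finset ℕ} (hT : ∀ q ∈ T, q.Prime) (hg : ¬Bad s T) (T' : Finset ℕ) :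
    T' ⊆ T → ∀ τ ∈ opts s T', ∀ τ' ∈ opts s T', (dd T' : ℤ) ∣ NN T' τ τ' →
      ∀ S : Finset ℕ, S.Nonempty → #{a | τ a = some S} = #{a | τ' a = some S} := by
  induction T' using Finset.strongInduction with
  | H T' ih =>
    intro hT' τ hτ τ' hτ' h S hS
    by_cases hST : S ⊆ T'
    · obtain ⟨q, hq⟩ := hS
      have hqT := hST hq
      have m1 := caa_E_mem (q := q) hτ
      have m2 := caa_E_mem (q := q) hτ'
      have d1 : (q : ℤ) ∣ NN T' τ τ' :=
        (Int.natCast_dvd_natCast.2 (dvd_prod_of_mem _ hqT)).trans h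
      have d2 : (q : ℤ) ∣ NN T' τ τ' -
          NN (T'.erase q) (fun a => caaE q (τ a)) fun a => caaE q (τ' a) := by
        have := dvd_sub (dvd_sum fun a (_ : a ∈ univ) => caa_dvd hqT (τ a))
          (dvd_sum fun a (_ : a ∈ univ) => caa_dvd hqT (τ' a))
        rw [sum_sub_distrib, sum_sub_distrib] at this
        refine (dvd_iff_dvd_of_dvd_sub ?_).2 this
        unfold NN
        exact ⟨0, by ring⟩
      have d3 := dvd_sub d1 d2
      rw [sub_sub_cancel] at d3
      have hsub : T'.erase q ⊆ T.erase q := erase_subset_erase _ hT'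
      have e : NN (T.erase q) (fun a => caaE q (τ a)) (fun a => caaE q (τ' a)) =
          dd (T.erase q \ T'.erase q) *
            NN (T'.erase q) (fun a => caaE q (τ a)) fun a => caaE q (τ' a) := by
        unfold NN
        rw [mul_sub, mul_sum, mul_sum]
        congr 1
        · exact sum_congr rfl fun a _ => caa_scale hsub (caa_mem.1 m1 a)
        · exact sum_congr rfl fun a _ => caa_scale hsub (caa_mem.1 m2 a)
      have h0 : NN (T'.erase q) (fun a => caaE q (τ a)) (fun a => caaE q (τ' a)) = 0 := by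
        by_contra hne
        refine hg ⟨q, hT' hqT, _, caa_mem.2 fun a S h => (caa_mem.1 m1 a S h).trans hsub, _,
          caa_mem.2 fun a S h => (caa_mem.1 m2 a S h).trans hsub, ?_, ?_⟩
        · rw [e]
          exact mul_ne_zero (caa_ne hT (sdiff_subset.trans (erase_subset _ _))) hne
        · rw [e]
          exact d3.mul_left _
      have hsub' : T'.erase q ⊆ T := (erase_subset _ _).trans hT'
      have := caa_empty (caa_ne hT hsub') m1 m2 h0
        (ih _ (erase_ssubset hqT) hsub' _ m1 _ m2 (by rw [h0]; exact dvd_zero _)) (S.erase q)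
      simpa only [← caa_E_iff hq] using this
    · rw [filter_eq_empty_iff.2 fun a _ ha => hST (caa_mem.1 hτ a S ha),
        filter_eq_empty_iff.2 fun a _ ha => hST (caa_mem.1 hτ' a S ha)]

theorem good_rel {s : ℕ} {T : Finset ℕ} (hT : ∀ q ∈ T, q.Prime) (hg : ¬Bad s T)
    {τ τ' : Fin s → Option (Finset ℕ)} (hτ : τ ∈ opts s T) (hτ' : τ' ∈ opts s T)
    (h : (dd T : ℤ) ∣ NN T τ τ') {S : Finset ℕ} (hS : S.Nonempty) :
    #{a | τ a = some S} = #{a | τ' a = some S} := by
  exact caa_ind hT hg T subset_rfl τ hτ τ' hτ' h S hS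

end

end Pool.Agent.MP_9f080f_an

namespace Pool.Agent.MP_9f080f_an
open Complex Finset
open scoped Real

noncomputable section

lemma ca_conj (r : ℝ) : (starRingEnd ℂ) (ep r) = ep (-r) := by
  unfold ep
  rw [← Complex.exp_conj]
  simp

lemma ca_ep_sum {s : ℕ} (f : Fin s → ℂ) : ∏ a, ep (f a) = ep (∑ a, f a) := by
  unfold ep
  rw [mul_sum, Complex.exp_sum]

lemma ca_pow {s : ℕ} {T : Finset ℕ} (hT : ∀ q ∈ T, q.Prime) (β : Finset ℕ → ℂ) (x : ℕ) :
    (∑ S ∈ T.powerset, β S * ep (2 * (x : ℂ) / dd S)) ^ s =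
      ∑ σ ∈ Fintype.piFinset fun _ : Fin s => T.powerset, (∏ a, β (σ a)) *
        ep ((2 * x * (∑ a, nv T (some (σ a)) : ℤ) / dd T : ℝ)) := by
  rw [← Fin.prod_const, prod_univ_sum]
  refine sum_congr rfl fun σ hσ => ?_
  rw [prod_mul_distrib, ca_ep_sum]
  congr 2
  push_cast
  rw [mul_sum, sum_div]
  refine sum_congr rfl fun a _ => ?_
  have h1 : σ a ⊆ T := mem_powerset.1 (Fintype.mem_piFinset.1 hσ a)
  have h2 : (dd (σ a) : ℂ) ≠ 0 := by exact_mod_cast caa_ne hT h1
  have h3 : (dd (T \ σ a) : ℂ) ≠ 0 := by exact_mod_cast caa_ne hT sdiff_subset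
  have h4 : (dd T : ℂ) = dd (T \ σ a) * dd (σ a) := by
    unfold dd
    rw [← prod_sdiff h1]
    push_cast
    rfl
  rw [h4]
  simp only [nv, Int.cast_natCast]
  field_simp

lemma ca_expand {s : ℕ} {T : Finset ℕ} (hT : ∀ q ∈ T, q.Prime) (β : Finset ℕ → ℂ) :
    ((∑ x ∈ range (dd T), ‖∑ S ∈ T.powerset, β S * ep (2 * (x : ℂ) / dd S)‖ ^ (2 * s) : ℝ) : ℂ) =
      ∑ σ ∈ Fintype.piFinset fun _ : Fin s => T.powerset,
        ∑ σ' ∈ Fintype.piFinset fun _ : Fin s => T.powerset,
          (∏ a, β (σ a)) * (starRingEnd ℂ) (∏ a, β (σ' a)) *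
            if (dd T : ℤ) ∣ NN T (fun a => some (σ a)) fun a => some (σ' a) then (dd T : ℂ)
            else 0 := by
  have hP : 0 < dd T := Nat.pos_of_ne_zero (by exact_mod_cast caa_ne hT subset_rfl)
  simp only [← pv_orth hP, mul_sum]
  rw [Complex.ofReal_sum, sum_congr rfl fun _ _ => sum_comm (t := range (dd T)),
    sum_comm (t := range (dd T))]
  refine sum_congr rfl fun x _ => ?_
  rw [mul_comm 2 s, pow_mul, ← norm_pow, ← Complex.normSq_eq_norm_sq, ← Complex.mul_conj,
    ca_pow hT, map_sum, sum_mul_sum]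
  refine sum_congr rfl fun σ _ => sum_congr rfl fun σ' _ => ?_
  rw [map_mul, ca_conj, mul_mul_mul_comm, ← ep_add]
  congr 2
  unfold NN
  push_cast
  ring

lemma ca_term {s : ℕ} {T : Finset ℕ} (hT : ∀ q ∈ T, q.Prime) (hg : ¬Bad s T) (β : Finset ℕ → ℂ)
    (h0 : β ∅ = 0) {σ σ' : Fin s → Finset ℕ} (hσ : ∀ a, σ a ⊆ T) (hσ' : ∀ a, σ' a ⊆ T)
    (h : (dd T : ℤ) ∣ NN T (fun a => some (σ a)) fun a => some (σ' a)) :
    ‖∏ a, β (σ a)‖ * ‖∏ a, β (σ' a)‖ ≤
      if σ' ∈ univ.image (fun f : Fin s → Fin s => σ ∘ f) then ‖∏ a, β (σ a)‖ ^ 2 else 0 := by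
  by_cases h1 : ∏ a, β (σ a) = 0
  · simp [h1]
  by_cases h2 : ∏ a, β (σ' a) = 0
  · rw [h2, norm_zero, mul_zero]
    split_ifs <;> positivity
  have hc : ∀ S, #{a | σ a = S} = #{a | σ' a = S} := by
    intro S
    rcases S.eq_empty_or_nonempty with rfl | hS
    · rw [filter_eq_empty_iff.2 fun a _ ha => h1 (prod_eq_zero (mem_univ a) (by rw [ha, h0])),
        filter_eq_empty_iff.2 fun a _ ha => h2 (prod_eq_zero (mem_univ a) (by rw [ha, h0]))]
    · have := good_rel hT hg (caa_mem.2 fun a S h => Option.some.inj h ▸ hσ a)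
        (caa_mem.2 fun a S h => Option.some.inj h ▸ hσ' a) h hS
      simpa only [Option.some.injEq] using this
  have e : ∏ a, β (σ' a) = ∏ a, β (σ a) := by
    rw [← prod_fiberwise_of_maps_to' (fun a _ => mem_powerset.2 (hσ a)) β,
      ← prod_fiberwise_of_maps_to' (fun a _ => mem_powerset.2 (hσ' a)) β]
    simp only [prod_const, hc]
  have hex : ∀ a, ∃ b, σ b = σ' a := fun a => by
    have : 0 < #{b | σ' b = σ' a} := card_pos.2 ⟨a, by simp⟩
    rw [← hc] at this
    obtain ⟨b, hb⟩ := card_pos.1 this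
    exact ⟨b, (mem_filter.1 hb).2⟩
  choose f hf using hex
  rw [if_pos (mem_image.2 ⟨f, mem_univ _, funext hf⟩), e, sq]

theorem moment {s : ℕ} {T : Finset ℕ} (hT : ∀ q ∈ T, q.Prime) (hg : ¬Bad s T) (β : Finset ℕ → ℂ)
    (h0 : β ∅ = 0) :
    ∑ x ∈ range (dd T), ‖∑ S ∈ T.powerset, β S * ep (2 * (x : ℂ) / dd S)‖ ^ (2 * s) ≤
      dd T * ((s : ℝ) ^ s * (∑ S ∈ T.powerset, ‖β S‖ ^ 2) ^ s) := by
  have h1 := (Complex.re_le_norm _).trans_eq (congrArg norm (ca_expand (s := s) hT β))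
  rw [Complex.ofReal_re] at h1
  refine h1.trans ((norm_sum_le _ _).trans ?_)
  rw [← Fin.prod_const s (∑ S ∈ T.powerset, ‖β S‖ ^ 2), prod_univ_sum, mul_sum, mul_sum]
  refine sum_le_sum fun σ hσ => (norm_sum_le _ _).trans ?_
  have hm : ∀ σ ∈ Fintype.piFinset fun _ : Fin s => T.powerset, ∀ a, σ a ⊆ T := fun σ hσ a =>
    mem_powerset.1 (Fintype.mem_piFinset.1 hσ a)
  have h2 : ∀ σ' ∈ Fintype.piFinset fun _ : Fin s => T.powerset,
      ‖(∏ a, β (σ a)) * (starRingEnd ℂ) (∏ a, β (σ' a)) *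
        if (dd T : ℤ) ∣ NN T (fun a => some (σ a)) fun a => some (σ' a) then (dd T : ℂ) else 0‖ ≤
      dd T * if σ' ∈ univ.image (fun f : Fin s → Fin s => σ ∘ f) then ‖∏ a, β (σ a)‖ ^ 2
        else 0 := by
    intro σ' hσ'
    by_cases h : (dd T : ℤ) ∣ NN T (fun a => some (σ a)) fun a => some (σ' a)
    · rw [if_pos h, norm_mul, norm_mul, Complex.norm_conj, Complex.norm_natCast, mul_comm]
      exact mul_le_mul_of_nonneg_left (ca_term hT hg β h0 (hm σ hσ) (hm σ' hσ') h)
        (Nat.cast_nonneg _)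
    · rw [if_neg h, mul_zero, norm_zero]
      split_ifs <;> positivity
  refine (sum_le_sum h2).trans ?_
  rw [← mul_sum, ← sum_filter, sum_const, nsmul_eq_mul, prod_pow, ← norm_prod]
  refine mul_le_mul_of_nonneg_left (mul_le_mul_of_nonneg_right ?_ (by positivity))
    (Nat.cast_nonneg _)
  have h3 : #{σ' ∈ Fintype.piFinset fun _ : Fin s => T.powerset |
      σ' ∈ univ.image fun f : Fin s → Fin s => σ ∘ f} ≤ s ^ s :=
    (card_le_card fun _ h => (mem_filter.1 h).2).trans (card_image_le.trans (by simp))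
  exact_mod_cast h3

end

end Pool.Agent.MP_9f080f_an
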