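import Pool.Agent.MP_9f080f_an.Mg.ShAT
import Pool.Agent.MP_9f080f_an.Mg.G_C1

namespace Pool.Agent.MP_9f080f_an
open Complex Finset
open scoped Real

noncomputable section

/-! Definitions for the arithmetic part. -/

/-- the normalised Salie type sum -/
def sal (q : ℕ) (v : ℤ) (n : ℕ) (C : ℤ) : ℂ :=
  if h : q = 0 then 0 else
    haveI : NeZero q := ⟨h⟩
    TS q ZMod.stdAddChar ((v * (-4) : ℤ) : ZMod q) ((v * (4 * n) : ℤ) : ZMod q) ((v * C : ℤ) : ZMod q) / q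

/-- the twisted sum over the moduli -/
def Aw (n C : ℕ) (σ : ℝ) (X : ℕ) : ℂ :=
  ∑ P ∈ (Icc 1 X).filter Odd, sal P (iv 8 P) n C * ep ((σ * √(n * C) / P : ℝ) : ℂ)

/-- roots of a quadratic congruence -/
def Rt (D : ℤ) (e g : ℕ) : Finset ℕ :=
  (range g).filter fun ν : ℕ => (g : ℤ) ∣ 4 * (e : ℤ) ^ 2 * (ν : ℤ) ^ 2 - D

/-- the sign at a prime -/
def lamp (n : ℕ) (C : ℤ) (p : ℕ) : ℂ :=
  ((if (p : ℤ) ∣ C then jacobiSym n p else jacobiSym C p : ℤ) : ℂ)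

/-- squarefull numbers -/
def Full (e : ℕ) : Prop := ∀ p : ℕ, p.Prime → p ∣ e → p ^ 2 ∣ e

open Classical in
/-- odd squarefull numbers up to `X` -/
def Fu (X : ℕ) : Finset ℕ := (Icc 1 X).filter fun e => Odd e ∧ Full e

/-- squarefree numbers up to `Y` prime to `2 e` -/
def Gq (e Y : ℕ) : Finset ℕ := (Icc 1 Y).filter fun g => Squarefree g ∧ g.Coprime (2 * e)

/-- the general term -/
def trm (e : ℕ) (G : ℝ) (σ lm : ℕ → ℂ) (g : ℕ) (ν : ℤ) : ℂ :=
  σ (g % e) * (∏ p ∈ g.primeFactors, lm p) * ep ((2 * ν / g + G / (e * g) : ℝ) : ℂ)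

/-- the sum over moduli and roots -/
def inr (D : ℤ) (e : ℕ) (G : ℝ) (Y : ℕ) (σ lm : ℕ → ℂ) (a : ℕ → ℕ → ℂ) : ℂ :=
  ∑ g ∈ Gq e Y, ∑ ν ∈ Rt D e g, a g ν * trm e G σ lm g ν

/-- the lower end of the range of primes -/
def ww (u : ℕ) : ℕ := ⌊Real.exp ((u : ℝ) ^ 6)⌋₊

/-- the upper end of the range of primes -/
def yy (u : ℕ) : ℕ := ⌊Real.exp ((u : ℝ) ^ 95)⌋₊

/-- the threshold for small factors -/
def Gm (u : ℕ) : ℕ := ⌈Real.exp ((u : ℝ) ^ 98)⌉₊

/-- split primes in a range -/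
def QQ (D : ℤ) (e w y : ℕ) : Finset ℕ :=
  (Ioc w y).filter fun q : ℕ => q.Prime ∧ ¬(q : ℤ) ∣ D ∧ (Rt D e q).Nonempty

/-- the part of `g` prime to `Q` -/
def cp (Q : Finset ℕ) (g : ℕ) : ℕ := ∏ p ∈ g.primeFactors \ Q, p

/-- the left end of the window -/
def zz (G : ℝ) (e : ℕ) : ℤ := ⌈-G / (2 * e)⌉

/-- the representative in the window -/
def zr (z₀ : ℤ) (c : ℕ) (ν : ℤ) : ℤ := z₀ + (ν - z₀) % c

/-- moduli prime to `Q` with a root in the window -/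
def Ob (D : ℤ) (e Y : ℕ) (Q : Finset ℕ) (z₀ : ℤ) : Finset (ℕ × ℤ) :=
  (Gq e Y ×ˢ Ico z₀ (z₀ + Y)).filter fun i =>
    (∀ q ∈ Q, ¬q ∣ i.1) ∧ i.2 < z₀ + i.1 ∧ (i.1 : ℤ) ∣ 4 * (e : ℤ) ^ 2 * i.2 ^ 2 - D

/-- the collision number -/
def col (D : ℤ) (e : ℕ) (i i' : ℕ × ℤ) : ℤ :=
  D * ((i'.1 : ℤ) - i.1) ^ 2 - 4 * (e : ℤ) ^ 2 * (i'.1 * i.2 - i.1 * i'.2) ^ 2

/-- the primes of `c` not dividing `2 e z + g` -/
def cpl (e : ℕ) (g : ℤ) (i : ℕ × ℤ) : ℕ :=
  ∏ p ∈ i.1.primeFactors.filter fun p : ℕ => ¬(p : ℤ) ∣ 2 * e * i.2 + g, p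

/-- the standing assumptions on the parameters -/
structure Par (u : ℕ) (D : ℤ) (e Y : ℕ) : Prop where
  D1 : 1 ≤ D
  D2 : Real.log D ≤ Real.exp u
  e1 : 1 ≤ e
  e2 : (e : ℝ) ≤ Real.exp ((u : ℝ) ^ 2)
  Y1 : Real.exp ((u : ℝ) ^ 100 / 2) ≤ Y
  Y2 : (Y : ℝ) ≤ Real.exp (2 * (u : ℝ) ^ 100)

end

end Pool.Agent.MP_9f080f_an

namespace Pool.Agent.MP_9f080f_an
open Complex Finset
open scoped Real

noncomputable section

/-! Exact formulas for the Salie type sums.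
`sal_mul`: `TS_mul_std_int`.  `sal_prime`: `TS = salieT`; if `p ∤ C` use `salieT_field_exact` (`A = -4v`, `-(A C') = 4 v² C`, the roots
`r² = 4 v² n C` correspond to `ν = 2 r`, `4 w² ν² = n C` because `8 w v = 1`); if `p ∣ C` the sum is
`∑_r ∑_d ψ (d (A r² + B)) = p #{r | A r² + B = 0} - p` (`salie_sum_units`), which is `p χ(-A B) = p χ(n)`
(`quadraticChar_card_sqrts`), and `0` is the only root.  `jacobiSym.legendreSym.to_jacobiSym`, `ZMod.stdAddChar_coe`.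
`rt_mul`: `(ν₁, ν₂) ↦ (b ν₁ + a ν₂) % (a b)` is a bijection `Rt D (w b) a × Rt D (w a) b → Rt D w (a b)`.
`sal_sqfree`: induction on `g` (`Nat.recOnPosPrimePosCoprime` or `induction_on_primes`), generalising `w, v`.
`rt_card_le`: `ν ↦ (ν % p)_p` is injective, or induction with the bijection above (the number of roots does not change when
`w` is multiplied by a unit; alternatively `ν ↦ (ν % a, ν % b)` injects `Rt D e (a b)` into `Rt D e a × Rt D e b`). -/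

lemma norm_sal (q : ℕ) (v : ℤ) (n : ℕ) (C : ℤ) : ‖sal q v n C‖ = STT q v (-4) (4 * n) C := by
  unfold sal STT
  split_ifs with h
  · simp
  · rw [norm_div, Complex.norm_natCast]

lemma sal_congr {q : ℕ} {v v' : ℤ} (h : v ≡ v' [ZMOD q]) (n : ℕ) (C : ℤ) :
    sal q v n C = sal q v' n C := by
  have e : (v : ZMod q) = (v' : ZMod q) := (ZMod.intCast_eq_intCast_iff _ _ _).2 h
  unfold sal
  simp only [Int.cast_mul, e]

lemma saa_inv {a b : ℕ} {u : ℤ} (hu : u * b ≡ 1 [ZMOD a]) : (b : ZMod a)⁻¹ = (u : ZMod a) := by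
  have e : ((u * b : ℤ) : ZMod a) = ((1 : ℤ) : ZMod a) := (ZMod.intCast_eq_intCast_iff _ _ _).2 hu
  push_cast at e
  exact ZMod.inv_eq_of_mul_eq_one _ _ _ (by rw [mul_comm]; exact e)

theorem sal_mul {a b : ℕ} (h : a.Coprime b) (ha : a ≠ 0) (hb : b ≠ 0) {u₁ u₂ : ℤ}
    (hu₂ : u₂ * b ≡ 1 [ZMOD a]) (hu₁ : u₁ * a ≡ 1 [ZMOD b]) (v : ℤ) (n : ℕ) (C : ℤ) :
    sal (a * b) v n C = sal a (v * u₂) n C * sal b (v * u₁) n C := by
  have hab : a * b ≠ 0 := mul_ne_zero ha hb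
  have : NeZero a := ⟨ha⟩
  have : NeZero b := ⟨hb⟩
  have : NeZero (a * b) := ⟨hab⟩
  unfold sal
  rw [dif_neg ha, dif_neg hb, dif_neg hab, TS_mul_std_int h, saa_inv hu₂, saa_inv hu₁,
    div_mul_div_comm, Nat.cast_mul]
  congr 3 <;> (push_cast; ring)

lemma saa_rt (p : ℕ) [NeZero p] (D : ℤ) (w : ℕ) :
    ∑ ν ∈ Rt D w p, ep (2 * (ν : ℂ) / p) =
      ∑ x : ZMod p with 4 * (w : ZMod p) ^ 2 * x ^ 2 = D, ZMod.stdAddChar x := by
  have key : ∀ ν : ℕ, (p : ℤ) ∣ 4 * (w : ℤ) ^ 2 * (ν : ℤ) ^ 2 - D ↔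
      4 * (w : ZMod p) ^ 2 * (ν : ZMod p) ^ 2 = D := by
    intro ν
    rw [← ZMod.intCast_zmod_eq_zero_iff_dvd, ← sub_eq_zero (a := 4 * (w : ZMod p) ^ 2 * _)]
    push_cast
    rfl
  refine sum_bij' (fun ν _ => (ν : ZMod p)) (fun x _ => x.val) ?_ ?_ ?_ ?_ ?_
  · intro ν hν
    rw [Rt, mem_filter] at hν
    exact mem_filter.2 ⟨mem_univ _, (key ν).1 hν.2⟩
  · intro x hx
    rw [mem_filter] at hx
    rw [Rt, mem_filter, mem_range, key, ZMod.natCast_zmod_val]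
    exact ⟨ZMod.val_lt x, hx.2⟩
  · intro ν hν
    rw [Rt, mem_filter, mem_range] at hν
    exact ZMod.val_cast_of_lt hν.1
  · intro x _
    exact ZMod.natCast_zmod_val x
  · intro ν _
    have := ZMod.stdAddChar_coe (N := p) (ν : ℤ)
    push_cast at this
    rw [this, ep]
    congr 1
    ring

theorem sal_prime {p : ℕ} (hp : p.Prime) (h2 : p ≠ 2) {w : ℕ} {v : ℤ} (h : 8 * w * v ≡ 1 [ZMOD p])
    (n : ℕ) (C : ℤ) :
    sal p v n C = lamp n C p * ∑ ν ∈ Rt (n * C) w p, ep (2 * (ν : ℂ) / p) := by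
  have : Fact p.Prime := ⟨hp⟩
  have hF : ringChar (ZMod p) ≠ 2 := by rw [ZMod.ringChar_zmod_n]; exact h2
  have h2' : (2 : ZMod p) ≠ 0 := Ring.two_ne_zero hF
  have hψ := ZMod.isPrimitive_stdAddChar p
  have hp0 : (p : ℂ) ≠ 0 := by exact_mod_cast hp.ne_zero
  have e : (8 : ZMod p) * w * v = 1 := by
    have : ((8 * w * v : ℤ) : ZMod p) = ((1 : ℤ) : ZMod p) :=
      (ZMod.intCast_eq_intCast_iff _ _ _).2 h
    push_cast at this
    exact this
  have hv : (v : ZMod p) ≠ 0 := by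
    intro h0; rw [h0, mul_zero] at e; exact zero_ne_one e
  have hw : (w : ZMod p) ≠ 0 := by
    intro h0; rw [h0, mul_zero, zero_mul] at e; exact zero_ne_one e
  have h4 : (4 : ZMod p) ≠ 0 := by
    rw [show (4 : ZMod p) = 2 * 2 by norm_num]; exact mul_ne_zero h2' h2'
  have hA : (v : ZMod p) * (-4) ≠ 0 := mul_ne_zero hv (neg_ne_zero.2 h4)
  have hj : ∀ a : ℤ, jacobiSym a p = quadraticChar (ZMod p) (a : ZMod p) := fun a => by
    rw [← jacobiSym.legendreSym.to_jacobiSym]; rfl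
  rw [saa_rt]
  unfold sal lamp
  rw [dif_neg hp.ne_zero, div_eq_iff hp0]
  change salieT _ _ _ _ = _
  push_cast
  by_cases hC : (p : ℤ) ∣ C
  · have hC0 : (C : ZMod p) = 0 := (ZMod.intCast_zmod_eq_zero_iff_dvd C p).2 hC
    rw [if_pos hC, hC0, mul_zero, mul_zero, hj]
    have e1 : (univ.filter fun x : ZMod p => 4 * (w : ZMod p) ^ 2 * x ^ 2 = 0) = {0} := by
      ext x
      simp [h4, hw]
    rw [e1, sum_singleton, AddChar.map_zero_eq_one, mul_one, salieT, sum_comm]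
    have e2 : ∀ r : ZMod p, ∑ d : (ZMod p)ˣ, ZMod.stdAddChar
        ((v : ZMod p) * (-4) * (d : ZMod p) * r ^ 2 + (v : ZMod p) * (4 * (n : ZMod p)) *
          (d : ZMod p) + 0 * ((d⁻¹ : (ZMod p)ˣ) : ZMod p)) =
        (if r ^ 2 = (n : ZMod p) then (p : ℂ) else 0) - 1 := by
      intro r
      have e3 := salie_sum_units hψ ((v : ZMod p) * (-4) * (r ^ 2 - n))
      rw [ZMod.card] at e3
      simp only [mul_eq_zero, hv, neg_eq_zero, h4, false_or, sub_eq_zero] at e3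
      rw [← e3]
      refine sum_congr rfl fun d _ => ?_
      congr 1
      ring
    simp only [e2]
    rw [sum_sub_distrib, ← sum_filter, sum_const, sum_const, card_univ, ZMod.card]
    have e4 := quadraticChar_card_sqrts hF (n : ZMod p)
    rw [Set.toFinset_ofPred] at e4
    have e5 := congrArg (Int.cast : ℤ → ℂ) e4
    push_cast at e5 ⊢
    simp only [nsmul_eq_mul]
    rw [e5]
    ring
  · have hC0 : (C : ZMod p) ≠ 0 := mt (ZMod.intCast_zmod_eq_zero_iff_dvd C p).1 hC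
    rw [if_neg hC, salieT_field_exact hF hψ hA _ (mul_ne_zero hv hC0), ZMod.card, hj]
    have e1 : quadraticChar (ZMod p) (-((v : ZMod p) * (-4) * (v * C))) =
        quadraticChar (ZMod p) (C : ZMod p) := by
      rw [show -((v : ZMod p) * (-4) * (v * C)) = (2 * v) ^ 2 * C by ring, map_mul,
        quadraticChar_sq_one' (mul_ne_zero h2' hv), one_mul]
    rw [e1, mul_right_comm]
    congr 2
    refine sum_bij' (fun r _ => 2 * r) (fun x _ => x / 2) ?_ ?_ ?_ ?_ ?_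
    · intro r hr
      rw [mem_filter] at hr
      refine mem_filter.2 ⟨mem_univ _, ?_⟩
      linear_combination 16 * (w : ZMod p) ^ 2 * hr.2 +
        (8 * (w : ZMod p) * v + 1) * ((n : ZMod p) * C) * e
    · intro x hx
      rw [mem_filter] at hx
      refine mem_filter.2 ⟨mem_univ _, ?_⟩
      rw [div_pow, div_eq_iff (pow_ne_zero 2 h2')]
      linear_combination 16 * (v : ZMod p) ^ 2 * hx.2 - (8 * (w : ZMod p) * v + 1) * x ^ 2 * e
    · intro r _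
      exact mul_div_cancel_left₀ r h2'
    · intro x _
      exact mul_div_cancel₀ x h2'
    · intro r _
      rfl

end

end Pool.Agent.MP_9f080f_an

namespace Pool.Agent.MP_9f080f_an
open Complex Finset
open scoped Real

noncomputable section

lemma sab_mem {a b : ℕ} (D : ℤ) (w : ℕ) {ν x : ℕ} (h : ν ≡ b * x [MOD a]) :
    (a : ℤ) ∣ 4 * (w : ℤ) ^ 2 * (ν : ℤ) ^ 2 - D ↔
      (a : ℤ) ∣ 4 * ((w * b : ℕ) : ℤ) ^ 2 * (x : ℤ) ^ 2 - D := by
  have h1 : (ν : ℤ) ≡ b * x [ZMOD a] := by exact_mod_cast Int.natCast_modEq_iff.2 h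
  have h2 : 4 * (w : ℤ) ^ 2 * (ν : ℤ) ^ 2 - D ≡ 4 * ((w * b : ℕ) : ℤ) ^ 2 * (x : ℤ) ^ 2 - D [ZMOD a] := by
    have := ((h1.pow 2).mul_left (4 * (w : ℤ) ^ 2)).sub_right D
    convert this using 2
    push_cast
    ring
  exact h2.dvd_iff

lemma sab_left (a b x y : ℕ) : (b * x + a * y) % (a * b) ≡ b * x [MOD a] := by
  have h1 : (b * x + a * y) % (a * b) ≡ b * x + a * y [MOD a] :=
    (Nat.mod_modEq _ _).of_mul_right b
  refine h1.trans ?_
  simp [Nat.ModEq]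

lemma sab_right (a b x y : ℕ) : (b * x + a * y) % (a * b) ≡ a * y [MOD b] := by
  have := sab_left b a y x
  rwa [add_comm, mul_comm b a] at this

lemma sab_ep {a b : ℕ} (ha : a ≠ 0) (hb : b ≠ 0) (x y : ℕ) :
    ep (2 * (x : ℂ) / a) * ep (2 * (y : ℂ) / b) =
      ep (2 * (((b * x + a * y) % (a * b) : ℕ) : ℂ) / (a * b : ℕ)) := by
  have ha' : (a : ℂ) ≠ 0 := Nat.cast_ne_zero.2 ha
  have hb' : (b : ℂ) ≠ 0 := Nat.cast_ne_zero.2 hb
  have h1 := Nat.mod_add_div (b * x + a * y) (a * b)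
  set r := (b * x + a * y) % (a * b)
  set k := (b * x + a * y) / (a * b)
  have h2 : (r : ℂ) + a * b * k = b * x + a * y := by exact_mod_cast h1
  have h3 : 2 * (x : ℂ) / a + 2 * (y : ℂ) / b = 2 * (r : ℂ) / (a * b : ℕ) + 2 * ((k : ℤ) : ℂ) := by
    push_cast
    field_simp
    linear_combination (-1 : ℂ) * h2
  rw [← ep_add, h3, ep_add, ep_two_int, mul_one]

theorem rt_mul {a b : ℕ} (h : a.Coprime b) (ha : a ≠ 0) (hb : b ≠ 0) (D : ℤ) (w : ℕ) :
    ∑ ν ∈ Rt D w (a * b), ep (2 * (ν : ℂ) / (a * b : ℕ)) =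
      (∑ ν ∈ Rt D (w * b) a, ep (2 * (ν : ℂ) / a)) * ∑ ν ∈ Rt D (w * a) b, ep (2 * (ν : ℂ) / b) := by
  rw [Finset.sum_mul_sum, ← Finset.sum_product']
  symm
  have hab : 0 < a * b := Nat.pos_of_ne_zero (mul_ne_zero ha hb)
  refine Finset.sum_bij (fun i _ => (b * i.1 + a * i.2) % (a * b)) ?_ ?_ ?_ ?_
  · rintro ⟨x, y⟩ hi
    simp only [Rt, mem_product, mem_filter, mem_range] at hi ⊢
    refine ⟨Nat.mod_lt _ hab, ?_⟩
    rw [Nat.cast_mul]
    exact IsCoprime.mul_dvd (Nat.isCoprime_iff_coprime.2 h)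
      ((sab_mem D w (sab_left a b x y)).2 hi.1.2) ((sab_mem D w (sab_right a b x y)).2 hi.2.2)
  · rintro ⟨x, y⟩ hi ⟨x', y'⟩ hi' he
    simp only [Rt, mem_product, mem_filter, mem_range] at hi hi' he
    have h1 : b * x ≡ b * x' [MOD a] :=
      (sab_left a b x y).symm.trans (he ▸ sab_left a b x' y')
    have h2 : a * y ≡ a * y' [MOD b] :=
      (sab_right a b x y).symm.trans (he ▸ sab_right a b x' y')
    have h3 := (Nat.ModEq.cancel_left_of_coprime h h1).eq_of_lt_of_lt hi.1.1 hi'.1.1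
    have h4 := (Nat.ModEq.cancel_left_of_coprime h.symm h2).eq_of_lt_of_lt hi.2.1 hi'.2.1
    exact Prod.ext h3 h4
  · intro ν hν
    simp only [Rt, mem_filter, mem_range] at hν
    obtain ⟨x, hx, hx'⟩ := Nat.exists_mul_mod_eq_of_coprime ν h.symm ha
    obtain ⟨y, hy, hy'⟩ := Nat.exists_mul_mod_eq_of_coprime ν h hb
    have hx2 : ν ≡ b * x [MOD a] := hx'.symm
    have hy2 : ν ≡ a * y [MOD b] := hy'.symm
    have hd := hν.2
    rw [Nat.cast_mul] at hd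
    refine ⟨(x, y), ?_, ?_⟩
    · simp only [Rt, mem_product, mem_filter, mem_range]
      exact ⟨⟨hx, (sab_mem D w hx2).1 ((Dvd.intro _ rfl).trans hd)⟩,
        hy, (sab_mem D w hy2).1 ((Dvd.intro_left _ rfl).trans hd)⟩
    · have h1 : (b * x + a * y) % (a * b) ≡ ν [MOD a * b] :=
        (Nat.modEq_and_modEq_iff_modEq_mul h).1
          ⟨(sab_left a b x y).trans hx2.symm, (sab_right a b x y).trans hy2.symm⟩
      exact h1.eq_of_lt_of_lt (Nat.mod_lt _ hab) hν.1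
  · rintro ⟨x, y⟩ -
    exact sab_ep ha hb x y

lemma sab_one (v : ℤ) (n : ℕ) (C : ℤ) : sal 1 v n C = 1 := by
  rw [sal, dif_neg one_ne_zero, TS]
  have h : ∀ x : ZMod 1, ZMod.stdAddChar x = 1 := fun x => by
    rw [Subsingleton.elim x 0, AddChar.map_zero_eq_one]
  simp [h]

lemma sab_inv {a b : ℕ} (h : a.Coprime b) : ∃ u : ℤ, u * b ≡ 1 [ZMOD a] := by
  obtain ⟨x, y, hxy⟩ := Nat.isCoprime_iff_coprime.2 h
  refine ⟨y, (Int.modEq_iff_dvd.2 ⟨x, ?_⟩)⟩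
  linear_combination (-1 : ℤ) * hxy

theorem sal_sqfree {g : ℕ} (hg : Squarefree g) (ho : Odd g) {w : ℕ} {v : ℤ}
    (h : 8 * w * v ≡ 1 [ZMOD g]) (n : ℕ) (C : ℤ) :
    sal g v n C = (∏ p ∈ g.primeFactors, lamp n C p) * ∑ ν ∈ Rt (n * C) w g, ep (2 * (ν : ℂ) / g) := by
  induction g using Nat.recOnPosPrimePosCoprime generalizing w v with
  | prime_pow p k hp hk =>
    have hk1 : k = 1 := ((Nat.squarefree_pow_iff hp.ne_one hk.ne').1 hg).2
    subst hk1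
    rw [pow_one] at ho h ⊢
    have h2 : p ≠ 2 := by
      rintro rfl
      exact absurd ho (by decide)
    rw [sal_prime hp h2 h, hp.primeFactors, Finset.prod_singleton]
  | zero => exact absurd hg not_squarefree_zero
  | one =>
    rw [sab_one]
    simp [Rt]
  | coprime a b ha hb hab iha ihb =>
    have ha0 : a ≠ 0 := by omega
    have hb0 : b ≠ 0 := by omega
    obtain ⟨u₂, hu₂⟩ := sab_inv hab
    obtain ⟨u₁, hu₁⟩ := sab_inv hab.symm
    rw [Nat.cast_mul] at h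
    have e1 : 8 * ((w * b : ℕ) : ℤ) * (v * u₂) ≡ 1 [ZMOD a] := by
      have := (h.of_mul_right b).mul hu₂
      rw [mul_one] at this
      convert this using 1
      push_cast
      ring
    have e2 : 8 * ((w * a : ℕ) : ℤ) * (v * u₁) ≡ 1 [ZMOD b] := by
      have := (h.of_mul_left a).mul hu₁
      rw [mul_one] at this
      convert this using 1
      push_cast
      ring
    rw [sal_mul hab ha0 hb0 hu₂ hu₁, iha hg.of_mul_left (Nat.odd_mul.1 ho).1 e1,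
      ihb hg.of_mul_right (Nat.odd_mul.1 ho).2 e2, rt_mul hab ha0 hb0, hab.primeFactors_mul,
      Finset.prod_union hab.disjoint_primeFactors]
    ring

lemma norm_lamp (n : ℕ) (C : ℤ) (p : ℕ) : ‖lamp n C p‖ ≤ 1 := by
  have h : ∀ (a : ℤ), ‖((jacobiSym a p : ℤ) : ℂ)‖ ≤ 1 := fun a => by
    rcases jacobiSym.trichotomy a p with h | h | h <;> simp [h]
  unfold lamp
  split_ifs
  · exact h _
  · exact h _

end

end Pool.Agent.MP_9f080f_an

namespace Pool.Agent.MP_9f080f_an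
open Complex Finset
open scoped Real

noncomputable section

theorem rt_card_le {g : ℕ} (hg : Squarefree g) (D : ℤ) (e : ℕ) :
    #(Rt D e g) ≤ ∏ p ∈ g.primeFactors, #(Rt D e p) := by
  rw [← card_pi]
  refine card_le_card_of_injOn (fun ν p _ => ν % p) (fun ν hν => ?_) (fun ν hν ν' hν' h => ?_)
  · simp only [mem_coe, mem_pi]
    intro p hp
    have hp0 := (Nat.prime_of_mem_primeFactors hp).pos
    have h1 : (p : ℤ) ∣ 4 * (e : ℤ) ^ 2 * (ν : ℤ) ^ 2 - D :=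
      (Int.natCast_dvd_natCast.2 (Nat.dvd_of_mem_primeFactors hp)).trans (mem_filter.1 hν).2
    refine mem_filter.2 ⟨mem_range.2 (Nat.mod_lt _ hp0), ?_⟩
    have h2 : ((ν % p : ℕ) : ℤ) = ν - p * ((ν / p : ℕ) : ℤ) := by
      have := Nat.mod_add_div ν p
      rw [eq_sub_iff_add_eq]; exact_mod_cast this
    rw [h2]
    have h3 : 4 * (e : ℤ) ^ 2 * (ν - p * ((ν / p : ℕ) : ℤ)) ^ 2 - D =
        (4 * (e : ℤ) ^ 2 * (ν : ℤ) ^ 2 - D) + p * (4 * (e : ℤ) ^ 2 *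
          (p * ((ν / p : ℕ) : ℤ) ^ 2 - 2 * ν * ((ν / p : ℕ) : ℤ))) := by ring
    rw [h3]
    exact dvd_add h1 (dvd_mul_right _ _)
  · have h1 : g ∣ ((ν' : ℤ) - ν).natAbs := by
      rw [← Nat.prod_primeFactors_of_squarefree hg]
      refine Finset.prod_primes_dvd _ (fun p hp => (Nat.prime_of_mem_primeFactors hp).prime)
        fun p hp => ?_
      have h2 : ν % p = ν' % p := congrFun (congrFun h p) hp
      exact Int.natCast_dvd.1 (Nat.ModEq.dvd h2)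
    have a1 := mem_range.1 (mem_filter.1 hν).1
    have a2 := mem_range.1 (mem_filter.1 hν').1
    have := Nat.eq_zero_of_dvd_of_lt h1 (by omega)
    omega

theorem rt_card_prime {p e : ℕ} (hp : p.Prime) (h : p.Coprime (2 * e)) (D : ℤ) :
    #(Rt D e p) ≤ 2 ∧ ((p : ℤ) ∣ D → #(Rt D e p) ≤ 1) := by
  have hp' : Prime (p : ℤ) := Nat.prime_iff_prime_int.1 hp
  have h0 : ∀ x : ℤ, (p : ℤ) ∣ 4 * (e : ℤ) ^ 2 * x → (p : ℤ) ∣ x := by
    intro x hx
    refine (hp'.dvd_or_dvd hx).resolve_left fun h1 => ?_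
    rw [show 4 * (e : ℤ) ^ 2 = ((2 * e : ℕ) : ℤ) ^ 2 by push_cast; ring] at h1
    exact (hp.coprime_iff_not_dvd.1 h) (Int.natCast_dvd_natCast.1 (hp'.dvd_of_dvd_pow h1))
  constructor
  · rcases (Rt D e p).eq_empty_or_nonempty with h1 | ⟨a, ha⟩
    · simp [h1]
    refine (card_le_card (t := {a, p - a}) fun b hb => ?_).trans card_le_two
    have a1 := mem_range.1 (mem_filter.1 ha).1
    have b1 := mem_range.1 (mem_filter.1 hb).1
    have h2 := dvd_sub (mem_filter.1 hb).2 (mem_filter.1 ha).2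
    rw [show 4 * (e : ℤ) ^ 2 * (b : ℤ) ^ 2 - D - (4 * (e : ℤ) ^ 2 * (a : ℤ) ^ 2 - D) =
      4 * (e : ℤ) ^ 2 * (((b : ℤ) - a) * (b + a - p + p)) by ring] at h2
    simp only [mem_insert, mem_singleton]
    rcases hp'.dvd_or_dvd (h0 _ h2) with h3 | h3
    · have := Int.eq_zero_of_abs_lt_dvd h3 (by rw [abs_lt]; omega)
      omega
    · by_cases hz : a = 0 ∧ b = 0
      · omega
      have := Int.eq_zero_of_abs_lt_dvd ((dvd_add_left (dvd_refl _)).1 h3) (by rw [abs_lt]; omega)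
      omega
  · intro hD
    refine (card_le_card (t := {0}) fun b hb => ?_).trans (by simp)
    have b1 := mem_range.1 (mem_filter.1 hb).1
    have h2 := hp'.dvd_of_dvd_pow (h0 _ ((dvd_sub_left hD).1 (mem_filter.1 hb).2))
    have := Int.eq_zero_of_abs_lt_dvd h2 (by rw [abs_lt]; omega)
    rw [mem_singleton]
    omega

theorem rt_card_tau {g e Y : ℕ} (hg : g ∈ Gq e Y) (D : ℤ) : #(Rt D e g) ≤ #g.divisors := by
  obtain ⟨-, h1, h2⟩ := mem_filter.1 hg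
  refine (rt_card_le h1 D e).trans ?_
  rw [Nat.card_divisors h1.ne_zero]
  refine prod_le_prod' fun p hp => ?_
  have hp' := Nat.prime_of_mem_primeFactors hp
  have h3 := (rt_card_prime hp' (h2.coprime_dvd_left (Nat.dvd_of_mem_primeFactors hp)) D).1
  have h4 := hp'.factorization_pos_of_dvd h1.ne_zero (Nat.dvd_of_mem_primeFactors hp)
  omega

lemma norm_trm {e : ℕ} (G : ℝ) {σ lm : ℕ → ℂ} (hσ : ∀ r, ‖σ r‖ ≤ 1) (hl : ∀ p, ‖lm p‖ ≤ 1) (g : ℕ)
    (ν : ℤ) : ‖trm e G σ lm g ν‖ ≤ 1 := by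
  rw [trm, norm_mul, norm_mul, norm_ep_real, mul_one, norm_prod]
  exact mul_le_one₀ (hσ _) (prod_nonneg fun _ _ => norm_nonneg _)
    (prod_le_one (fun _ _ => norm_nonneg _) fun _ _ => hl _)

end

end Pool.Agent.MP_9f080f_an
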