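import Pool.Agent.MP_9f080f_an.Mg.G_E2
import Pool.Agent.MP_9f080f_an.Mg.G_SA

namespace Pool.Agent.MP_9f080f_an
open Complex Finset
open scoped Real ComplexConjugate

noncomputable section

/-! The mean square over the frequencies.
`aw_triv`: for odd `P`, `‖sal P (iv 8 P) n (8k-3)‖ = Wf F1 n P (-k)` (`norm_sal`), then `shat_small`; and `‖sal‖ ≤ √(2P)` (`STT_crude`).
`sj_off`: `sal P v n (8k-3) = P⁻¹ ∑_{d,r} c d r * ep (2 (8 v (d⁻¹).val / P) k)` with `‖c d r‖ = 1` (`ZMod.stdAddChar_coe`, `AddChar.map_add_eq_mul`); there are at most `P²` pairs.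
`msq_gen`: `‖z‖² = z * conj z`, expand, swap sums.  The diagonal `P = P'` gives `aw_triv` (second part), for `P ≠ P'` use `sj_off` with
`w k = ep (σ √(n(8k-3)) (1/P - 1/P')) = ep (2 Λ √(k - 3/8))`, `Λ = σ √(2n) (1/P - 1/P')` (`√(n (8k-3)) = 2 √(2n) √(k - 3/8)`), `√n / X² ≤ |Λ| ≤ 2 √n`.
`msq`: the set of `k` is `Ico M b` with `b ≤ 2M` (or empty; the condition is monotone in `k`); if it is not empty then `5 M X² ≤ 2n`, so `M ≤ n`.  Let `ℓ = ell n`, `R = ⌈ℓ^800⌉₊ + 1`.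
`expsum` applies: `M^(7/8) ≤ M^(1/2) n^(3/8) ≤ |Λ| √M` because `X² ≤ exp (2 ℓ^101) ≤ n^(1/8)`, and `2 √n √M ≤ M^R` because `n ≤ M^(ℓ^800)`, `M ≥ 2`.
With `log n = exp (ℓ - 1) - 1 ≥ ℓ^10000` for large `n`: `X^4 2^(300(2R+2)^8) M^(-1/(256(2R+2)^3)) ≤ 1` (`2R + 2 ≤ 8 ℓ^800`; take logarithms).
Finally `X^(3/2) (1 + log X)^3 ≲ X^(7/4)` (`Real.log_le_rpow_div`). -/

lemma sja_cast {k : ℕ} (hk : 1 ≤ k) : ((8 * k - 3 : ℕ) : ℤ) = 8 * k - 3 := by omega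

lemma sja_cop {P : ℕ} (hP : Odd P) (j : ℕ) : IsCoprime ((2 : ℤ) ^ j) (P : ℤ) := by
  have h : Nat.Coprime 2 P := (Nat.coprime_two_left).2 hP
  have h2 : IsCoprime (2 : ℤ) (P : ℤ) := by
    have := Nat.isCoprime_iff_coprime.2 h
    simpa using this
  exact h2.pow_left

lemma sja_W {P : ℕ} (hP : Odd P) (n : ℕ) {k : ℕ} (hk : 1 ≤ k) :
    ‖sal P (iv 8 P) n (8 * k - 3 : ℕ)‖ = Wf F1 n P (-k) := by
  have h1 : IsCoprime (F1.h * F1.A) (P : ℤ) := by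
    have := (sja_cop hP 5).neg_left
    have e : F1.h * F1.A = -2 ^ 5 := by simp only [F1]; norm_num
    rwa [e]
  rw [norm_sal, Wf, if_pos h1, sja_cast hk]
  simp only [F1]
  congr 1
  ring

lemma sja_crude {P : ℕ} (hP : Odd P) (n : ℕ) (C : ℤ) : ‖sal P (iv 8 P) n C‖ ≤ √(2 * P) := by
  rw [norm_sal]
  refine STT_crude ?_ _ _
  have hP0 : P ≠ 0 := by rintro rfl; simp at hP
  have h8 : IsCoprime (8 : ℤ) (P : ℤ) := by simpa using sja_cop hP 3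
  have h4 : IsCoprime (-4 : ℤ) (P : ℤ) := by simpa using (sja_cop hP 2).neg_left
  refine IsCoprime.mul_left ?_ h4
  obtain ⟨t, ht⟩ := (iv_mul hP0 h8).dvd
  exact ⟨8, t, by linarith⟩

theorem aw_triv : ∃ K : ℝ, 0 < K ∧ ∀ (n k X : ℕ) (σ : ℝ), 1 ≤ k → 1 ≤ X →
    ‖Aw n (8 * k - 3) σ X‖ ≤ K * X * (1 + Real.log X) ^ 3 ∧
    ∑ P ∈ (Icc 1 X).filter Odd, ‖sal P (iv 8 P) n (8 * k - 3 : ℕ)‖ ^ 2 ≤
      K * (X : ℝ) ^ (3 / 2 : ℝ) * (1 + Real.log X) ^ 3 := by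
  obtain ⟨C, hC, hs⟩ := shat_small
  refine ⟨2 * C, by positivity, fun n k X σ hk hX => ?_⟩
  have hX0 : (1 : ℝ) ≤ X := by exact_mod_cast hX
  have hl : 0 ≤ Real.log X := Real.log_nonneg hX0
  have h1 : ∑ P ∈ (Icc 1 X).filter Odd, ‖sal P (iv 8 P) n (8 * k - 3 : ℕ)‖ ≤
      C * X * (1 + Real.log X) ^ 3 := by
    refine le_trans ?_ (hs F1 n X (-k) hX)
    refine le_trans (le_of_eq (Finset.sum_congr rfl fun P hP => sja_W (mem_filter.1 hP).2 n hk)) ?_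
    exact Finset.sum_le_sum_of_subset_of_nonneg (filter_subset _ _) fun P _ _ => Wf_nonneg ..
  constructor
  · refine le_trans (norm_sum_le _ _) ?_
    simp only [norm_mul, norm_ep_real, mul_one]
    refine h1.trans ?_
    have : 0 ≤ C * X * (1 + Real.log X) ^ 3 := by positivity
    linarith
  · have h2 : √(2 * X) ≤ 2 * (X : ℝ) ^ (1 / 2 : ℝ) := by
      rw [Real.sqrt_mul (by norm_num), Real.sqrt_eq_rpow (X : ℝ)]
      refine mul_le_mul_of_nonneg_right ?_ (by positivity)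
      rw [Real.sqrt_le_left (by norm_num)]
      norm_num
    have h3 : (X : ℝ) ^ (3 / 2 : ℝ) = (X : ℝ) ^ (1 / 2 : ℝ) * X := by
      rw [← Real.rpow_add_one (by linarith)]; norm_num
    calc _ ≤ ∑ P ∈ (Icc 1 X).filter Odd, √(2 * X) * ‖sal P (iv 8 P) n (8 * k - 3 : ℕ)‖ := by
          refine Finset.sum_le_sum fun P hP => ?_
          obtain ⟨hP1, hP2⟩ := mem_filter.1 hP
          rw [sq]
          refine mul_le_mul_of_nonneg_right ((sja_crude hP2 n _).trans ?_) (norm_nonneg _)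
          have : (P : ℝ) ≤ X := by exact_mod_cast (mem_Icc.1 hP1).2
          exact Real.sqrt_le_sqrt (by linarith)
      _ = √(2 * X) * ∑ P ∈ (Icc 1 X).filter Odd, ‖sal P (iv 8 P) n (8 * k - 3 : ℕ)‖ := by
          rw [Finset.mul_sum]
      _ ≤ (2 * (X : ℝ) ^ (1 / 2 : ℝ)) * (C * X * (1 + Real.log X) ^ 3) :=
          mul_le_mul h2 h1 (Finset.sum_nonneg fun _ _ => norm_nonneg _) (by positivity)
      _ = _ := by rw [h3]; ring

lemma sja_rep {P : ℕ} (hP : 1 ≤ P) (v : ℤ) (n : ℕ) :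
    ∃ (ι : Type) (_ : Fintype ι) (c : ι → ℂ) (a : ι → ℝ), (Fintype.card ι : ℝ) ≤ (P : ℝ) ^ 2 ∧
      (∀ i, ‖c i‖ ≤ 1) ∧ ∀ k : ℕ, 1 ≤ k →
        sal P v n (8 * k - 3 : ℕ) = (P : ℂ)⁻¹ * ∑ i, c i * ep (2 * ((a i * k : ℝ) : ℂ)) := by
  have hP0 : P ≠ 0 := by omega
  have : NeZero P := ⟨hP0⟩
  refine ⟨(ZMod P)ˣ × ZMod P, inferInstance, fun i : (ZMod P)ˣ × ZMod P => ZMod.stdAddChar
      (((v * (-4) : ℤ) : ZMod P) * (i.1 : ZMod P) * i.2 ^ 2 +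
        ((v * (4 * n) : ℤ) : ZMod P) * (i.1 : ZMod P) +
        ((v * (-3) : ℤ) : ZMod P) * ((i.1⁻¹ : (ZMod P)ˣ) : ZMod P)),
    fun i : (ZMod P)ˣ × ZMod P => 8 * v * (((i.1⁻¹ : (ZMod P)ˣ) : ZMod P).val : ℝ) / P, ?_, fun i => ?_, fun k hk => ?_⟩
  · rw [Fintype.card_prod, ZMod.card, ZMod.card_units_eq_totient, Nat.cast_mul, sq]
    have : (P.totient : ℝ) ≤ P := by exact_mod_cast Nat.totient_le P
    exact mul_le_mul_of_nonneg_right this (Nat.cast_nonneg _)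
  · exact (AddChar.norm_apply _ _).le
  · rw [sal, dif_neg hP0, TS, div_eq_inv_mul, Fintype.sum_prod_type]
    congr 1
    refine Finset.sum_congr rfl fun d _ => Finset.sum_congr rfl fun r _ => ?_
    have e : ep (2 * ((8 * v * (((d⁻¹ : (ZMod P)ˣ) : ZMod P).val : ℝ) / P * k : ℝ) : ℂ)) =
        ZMod.stdAddChar (((8 * v * (((d⁻¹ : (ZMod P)ˣ) : ZMod P).val : ℤ) * k : ℤ)) : ZMod P) := by
      rw [ZMod.stdAddChar_coe, ep]
      congr 1
      push_cast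
      ring
    simp only
    rw [e, ← AddChar.map_add_eq_mul, sja_cast hk]
    congr 1
    simp only [Int.cast_mul, Int.cast_natCast, ZMod.natCast_zmod_val, Int.cast_sub, Int.cast_ofNat,
      Int.cast_neg]
    ring

lemma sja_conj (r : ℝ) : conj (ep (2 * (r : ℂ))) = ep (-(2 * (r : ℂ))) := by
  rw [ep, ep, ← Complex.exp_conj]
  congr 1
  simp only [map_mul, conj_ofReal, conj_I, map_ofNat]
  ring

theorem sj_off {P P' : ℕ} (hP : 1 ≤ P) (hP' : 1 ≤ P') (v v' : ℤ) (n : ℕ) {I : Finset ℕ} (hI : ∀ k ∈ I, 1 ≤ k)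
    (w : ℕ → ℂ) {δ : ℝ} (h : ∀ α : ℝ, ‖∑ k ∈ I, ep (2 * ((α * k : ℝ) : ℂ)) * w k‖ ≤ δ) :
    ‖∑ k ∈ I, sal P v n (8 * k - 3 : ℕ) * conj (sal P' v' n (8 * k - 3 : ℕ)) * w k‖ ≤ P * P' * δ := by
  obtain ⟨ι, _, c, a, hι, hc, ha⟩ := sja_rep hP v n
  obtain ⟨ι', _, c', a', hι', hc', ha'⟩ := sja_rep hP' v' n
  have hδ : 0 ≤ δ := (norm_nonneg _).trans (h 0)
  have hP0 : (0 : ℝ) < P := by exact_mod_cast hP
  have hP0' : (0 : ℝ) < P' := by exact_mod_cast hP'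
  have e : ∑ k ∈ I, sal P v n (8 * k - 3 : ℕ) * conj (sal P' v' n (8 * k - 3 : ℕ)) * w k =
      (P : ℂ)⁻¹ * (P' : ℂ)⁻¹ * ∑ i, ∑ j, c i * conj (c' j) *
        ∑ k ∈ I, ep (2 * (((a i - a' j) * k : ℝ) : ℂ)) * w k := by
    simp only [Finset.mul_sum]
    rw [Finset.sum_comm]
    rw [show (∑ j, ∑ i, ∑ k ∈ I, (P : ℂ)⁻¹ * (P' : ℂ)⁻¹ * (c i * conj (c' j) *
        (ep (2 * (((a i - a' j) * k : ℝ) : ℂ)) * w k))) = ∑ j, ∑ k ∈ I, ∑ i,
        (P : ℂ)⁻¹ * (P' : ℂ)⁻¹ * (c i * conj (c' j) *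
        (ep (2 * (((a i - a' j) * k : ℝ) : ℂ)) * w k)) from
      Finset.sum_congr rfl fun j _ => Finset.sum_comm, Finset.sum_comm]
    refine Finset.sum_congr rfl fun k hk => ?_
    rw [ha k (hI k hk), ha' k (hI k hk), map_mul, map_sum, map_inv₀, conj_natCast, Finset.mul_sum,
      Finset.mul_sum, Finset.mul_sum, Finset.sum_mul]
    refine Finset.sum_congr rfl fun j _ => ?_
    rw [Finset.sum_mul, Finset.sum_mul]
    refine Finset.sum_congr rfl fun i _ => ?_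
    have e2 : ep (2 * (((a i - a' j) * k : ℝ) : ℂ)) =
        ep (2 * ((a i * k : ℝ) : ℂ)) * ep (-(2 * ((a' j * k : ℝ) : ℂ))) := by
      rw [← ep_add]; congr 1; push_cast; ring
    rw [map_mul, sja_conj, e2]
    ring
  have h1 : ‖∑ i, ∑ j, c i * conj (c' j) * ∑ k ∈ I, ep (2 * (((a i - a' j) * k : ℝ) : ℂ)) * w k‖ ≤
      (P : ℝ) ^ 2 * ((P' : ℝ) ^ 2 * δ) := by
    refine le_trans (norm_sum_le _ _) ?_
    refine le_trans (Finset.sum_le_card_nsmul _ _ ((P' : ℝ) ^ 2 * δ) fun i _ => ?_) ?_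
    · refine le_trans (norm_sum_le _ _) ?_
      refine le_trans (Finset.sum_le_card_nsmul _ _ δ fun j _ => ?_) ?_
      · rw [norm_mul, norm_mul, RCLike.norm_conj]
        calc _ ≤ 1 * 1 * δ := mul_le_mul (mul_le_mul (hc i) (hc' j) (norm_nonneg _) zero_le_one)
              (h _) (norm_nonneg _) (by norm_num)
          _ = δ := by ring
      · rw [nsmul_eq_mul, Finset.card_univ]
        exact mul_le_mul_of_nonneg_right hι' hδ
    · rw [nsmul_eq_mul, Finset.card_univ]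
      exact mul_le_mul_of_nonneg_right hι (by positivity)
  rw [e, norm_mul, norm_mul, norm_inv, norm_inv, norm_natCast, norm_natCast]
  calc _ ≤ (P : ℝ)⁻¹ * (P' : ℝ)⁻¹ * ((P : ℝ) ^ 2 * ((P' : ℝ) ^ 2 * δ)) :=
        mul_le_mul_of_nonneg_left h1 (by positivity)
    _ = _ := by field_simp

end

end Pool.Agent.MP_9f080f_an

namespace Pool.Agent.MP_9f080f_an
open Complex Finset
open scoped Real ComplexConjugate

noncomputable section

theorem sjb_expand (J S : Finset ℕ) (f : ℕ → ℕ → ℂ) (g : ℕ → ℕ → ℝ)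
    (hg0 : ∀ P ∈ S, 0 ≤ g P P)
    (hg : ∀ P ∈ S, ∀ P' ∈ S, P ≠ P' → ‖∑ k ∈ J, f k P * conj (f k P')‖ ≤ g P P') :
    ∑ k ∈ J, ‖∑ P ∈ S, f k P‖ ^ 2 ≤
      ∑ k ∈ J, ∑ P ∈ S, ‖f k P‖ ^ 2 + ∑ P ∈ S, ∑ P' ∈ S, g P P' := by
  have h1 : ((∑ k ∈ J, ‖∑ P ∈ S, f k P‖ ^ 2 : ℝ) : ℂ) =
      ∑ P ∈ S, ∑ P' ∈ S, ∑ k ∈ J, f k P * conj (f k P') := by
    have : ∀ k, ((‖∑ P ∈ S, f k P‖ ^ 2 : ℝ) : ℂ) = ∑ P ∈ S, ∑ P' ∈ S, f k P * conj (f k P') := by
      intro k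
      rw [ofReal_pow, ← Complex.mul_conj', map_sum, sum_mul_sum]
    rw [ofReal_sum]
    simp only [this]
    rw [sum_comm]
    exact sum_congr rfl fun P _ => sum_comm
  have h0 : 0 ≤ ∑ k ∈ J, ‖∑ P ∈ S, f k P‖ ^ 2 := sum_nonneg fun k _ => sq_nonneg _
  have h2 : ∑ k ∈ J, ‖∑ P ∈ S, f k P‖ ^ 2 =
      ‖∑ P ∈ S, ∑ P' ∈ S, ∑ k ∈ J, f k P * conj (f k P')‖ := by
    rw [← h1, Complex.norm_real, Real.norm_of_nonneg h0]
  rw [h2, sum_comm (s := J), ← sum_add_distrib]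
  refine (norm_sum_le _ _).trans (sum_le_sum fun P hP => (norm_sum_le _ _).trans ?_)
  rw [← add_sum_erase _ _ hP, ← add_sum_erase S (g P) hP]
  have h3 : ‖∑ k ∈ J, f k P * conj (f k P)‖ ≤ ∑ k ∈ J, ‖f k P‖ ^ 2 := by
    refine (norm_sum_le _ _).trans (sum_le_sum fun k _ => ?_)
    rw [norm_mul, Complex.norm_conj, sq]
  have h4 : ∑ P' ∈ S.erase P, ‖∑ k ∈ J, f k P * conj (f k P')‖ ≤ ∑ P' ∈ S.erase P, g P P' :=
    sum_le_sum fun P' hP' => hg P hP P' (mem_of_mem_erase hP') (ne_of_mem_erase hP').symm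
  linarith [hg0 P hP]

theorem sjb_conj (r : ℝ) : conj (ep r) = ep ((-r : ℝ) : ℂ) := by
  unfold ep
  rw [← Complex.exp_conj]
  congr 1
  simp

theorem sjb_sqrt (n : ℕ) {k : ℕ} (hk : 1 ≤ k) :
    √((n : ℝ) * ((8 * k - 3 : ℕ) : ℝ)) = 2 * √(2 * n) * √(k - 3 / 8) := by
  have h : ((8 * k - 3 : ℕ) : ℝ) = 8 * k - 3 := by
    rw [Nat.cast_sub (by omega)]; push_cast; ring
  rw [h, show (n : ℝ) * (8 * k - 3) = 2 ^ 2 * (2 * n * (k - 3 / 8)) by ring,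
    Real.sqrt_mul (by positivity), Real.sqrt_sq (by norm_num), Real.sqrt_mul (by positivity),
    mul_assoc]

theorem sjb_lam (n : ℕ) {X P P' : ℕ} (hP : P ∈ Icc 1 X) (hP' : P' ∈ Icc 1 X) (hne : P ≠ P')
    {σ : ℝ} (hσ : σ = 1 ∨ σ = -1) :
    √n / (X : ℝ) ^ 2 ≤ |σ * √(2 * n) * (1 / P - 1 / P')| ∧
      |σ * √(2 * n) * (1 / P - 1 / P')| ≤ 2 * √n := by
  obtain ⟨h1, h2⟩ := mem_Icc.1 hP
  obtain ⟨h3, h4⟩ := mem_Icc.1 hP'
  have a1 : (1 : ℝ) ≤ P := by exact_mod_cast h1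
  have a2 : (P : ℝ) ≤ X := by exact_mod_cast h2
  have a3 : (1 : ℝ) ≤ P' := by exact_mod_cast h3
  have a4 : (P' : ℝ) ≤ X := by exact_mod_cast h4
  have hs : |σ| = 1 := by rcases hσ with rfl | rfl <;> simp
  have hn : (0 : ℝ) ≤ n := Nat.cast_nonneg n
  have b1 : √n ≤ √(2 * (n : ℝ)) := Real.sqrt_le_sqrt (by linarith)
  have b2 : √(2 * (n : ℝ)) ≤ 2 * √n := by
    rw [show 2 * √(n : ℝ) = √(2 ^ 2 * n) by
      rw [Real.sqrt_mul (by positivity), Real.sqrt_sq (by norm_num)]]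
    exact Real.sqrt_le_sqrt (by linarith)
  rw [abs_mul, abs_mul, hs, one_mul, abs_of_nonneg (Real.sqrt_nonneg _)]
  have c1 : 1 / (X : ℝ) ^ 2 ≤ |1 / (P : ℝ) - 1 / P'| := by
    rw [show 1 / (P : ℝ) - 1 / P' = (P' - P) / (P * P') by field_simp, abs_div,
      abs_of_pos (by positivity : (0 : ℝ) < P * P')]
    have d1 : (1 : ℝ) ≤ |(P' : ℝ) - P| := by
      have : (1 : ℤ) ≤ |(P' : ℤ) - P| := Int.one_le_abs (by omega)
      exact_mod_cast this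
    have d2 : (P : ℝ) * P' ≤ (X : ℝ) ^ 2 := by
      rw [sq]; exact mul_le_mul a2 a4 (by linarith) (by linarith)
    exact div_le_div₀ (abs_nonneg _) d1 (by positivity) d2
  have c2 : |1 / (P : ℝ) - 1 / P'| ≤ 1 := by
    have e1 : 1 / (P : ℝ) ≤ 1 := by rw [div_le_one (by positivity)]; exact a1
    have e2 : 1 / (P' : ℝ) ≤ 1 := by rw [div_le_one (by positivity)]; exact a3
    have e3 : 0 ≤ 1 / (P : ℝ) := by positivity
    have e4 : 0 ≤ 1 / (P' : ℝ) := by positivity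
    rw [abs_le]; constructor <;> linarith
  constructor
  · rw [div_eq_mul_one_div]
    exact mul_le_mul b1 c1 (by positivity) (Real.sqrt_nonneg _)
  · exact (mul_le_of_le_one_right (Real.sqrt_nonneg _) c2).trans b2

theorem msq_gen : ∃ K : ℝ, 0 < K ∧ ∀ (n X a b : ℕ) (σ δ : ℝ), 1 ≤ X → 1 ≤ a → (σ = 1 ∨ σ = -1) → 0 ≤ δ →
    (∀ α Λ : ℝ, √n / (X : ℝ) ^ 2 ≤ |Λ| → |Λ| ≤ 2 * √n →
      ‖∑ m ∈ Ico a b, ep (2 * ((α * m + Λ * √(m - 3 / 8) : ℝ) : ℂ))‖ ≤ δ) →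
    ∑ k ∈ Ico a b, ‖Aw n (8 * k - 3) σ X‖ ^ 2 ≤
      K * (b - a : ℕ) * (X : ℝ) ^ (3 / 2 : ℝ) * (1 + Real.log X) ^ 3 + (X : ℝ) ^ 4 * δ := by
  obtain ⟨K, hK, h⟩ := aw_triv
  refine ⟨K, hK, fun n X a b σ δ hX ha hσ hδ hexp => ?_⟩
  have hI : ∀ k ∈ Ico a b, 1 ≤ k := fun k hk => ha.trans (mem_Ico.1 hk).1
  have h1 := sjb_expand (Ico a b) ((Icc 1 X).filter Odd)
    (fun k P => sal P (iv 8 P) n (8 * k - 3 : ℕ) *
      ep ((σ * √(n * ((8 * k - 3 : ℕ) : ℝ)) / P : ℝ) : ℂ))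
    (fun P P' => P * P' * δ) (fun P _ => by positivity) (by
      intro P hP P' hP' hne
      have hP1 := (mem_filter.1 hP).1
      have hP2 := (mem_filter.1 hP').1
      obtain ⟨l1, l2⟩ := sjb_lam n hP1 hP2 hne hσ
      set Λ := σ * √(2 * n) * (1 / P - 1 / P') with hΛ
      have h2 := sj_off (mem_Icc.1 hP1).1 (mem_Icc.1 hP2).1 (iv 8 P) (iv 8 P') n hI
        (fun k => ep (2 * ((Λ * √(k - 3 / 8) : ℝ) : ℂ))) (δ := δ) (by
          intro α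
          refine le_of_eq_of_le ?_ (hexp α Λ l1 l2)
          congr 1
          refine sum_congr rfl fun k _ => ?_
          rw [← ep_add]
          congr 1
          push_cast
          ring)
      refine le_of_eq_of_le ?_ h2
      congr 1
      refine sum_congr rfl fun k hk => ?_
      have e : ep (2 * ((Λ * √(k - 3 / 8) : ℝ) : ℂ)) =
          ep ((σ * √(n * ((8 * k - 3 : ℕ) : ℝ)) / P : ℝ) : ℂ) *
            conj (ep ((σ * √(n * ((8 * k - 3 : ℕ) : ℝ)) / P' : ℝ) : ℂ)) := by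
        rw [sjb_conj, ← ep_add, sjb_sqrt n (hI k hk), hΛ]
        congr 1
        push_cast
        ring
      rw [e, map_mul]
      ring)
  refine le_trans (le_of_eq rfl) (h1.trans (add_le_add ?_ ?_))
  · have : ∀ k ∈ Ico a b, ∑ P ∈ (Icc 1 X).filter Odd, ‖sal P (iv 8 P) n (8 * k - 3 : ℕ) *
        ep ((σ * √(n * ((8 * k - 3 : ℕ) : ℝ)) / P : ℝ) : ℂ)‖ ^ 2 ≤
        K * (X : ℝ) ^ (3 / 2 : ℝ) * (1 + Real.log X) ^ 3 := by
      intro k hk
      simp only [norm_mul, norm_ep_real, mul_one]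
      exact (h n k X σ (hI k hk) hX).2
    refine (sum_le_sum this).trans (le_of_eq ?_)
    rw [sum_const, Nat.card_Ico, nsmul_eq_mul]
    ring
  · have hs : ∑ P ∈ (Icc 1 X).filter Odd, (P : ℝ) ≤ (X : ℝ) ^ 2 := by
      have e1 : ∑ P ∈ (Icc 1 X).filter Odd, (P : ℝ) ≤ ∑ _P ∈ (Icc 1 X).filter Odd, (X : ℝ) :=
        sum_le_sum fun P hP => by exact_mod_cast (mem_Icc.1 (mem_filter.1 hP).1).2
      have e2 : (((Icc 1 X).filter Odd).card : ℝ) ≤ X := by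
        have := card_filter_le (Icc 1 X) Odd
        rw [Nat.card_Icc] at this
        exact_mod_cast this
      rw [sum_const, nsmul_eq_mul] at e1
      rw [sq]
      exact e1.trans (mul_le_mul_of_nonneg_right e2 (Nat.cast_nonneg X))
    have h0 : 0 ≤ ∑ P ∈ (Icc 1 X).filter Odd, (P : ℝ) := sum_nonneg fun P _ => Nat.cast_nonneg P
    simp only [← sum_mul, ← mul_sum]
    refine mul_le_mul_of_nonneg_right ?_ hδ
    rw [show (X : ℝ) ^ 4 = (X : ℝ) ^ 2 * (X : ℝ) ^ 2 by ring]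
    exact mul_le_mul hs hs h0 (by positivity)

end

end Pool.Agent.MP_9f080f_an

namespace Pool.Agent.MP_9f080f_an
open Complex Finset
open scoped Real ComplexConjugate

noncomputable section

lemma sj_filter (p : ℕ → Prop) [DecidablePred p] (hp : ∀ k k', k ≤ k' → p k' → p k) (a c : ℕ) :
    ∃ b ≤ c, (Ico a c).filter p = Ico a b := by
  induction c with
  | zero => exact ⟨0, le_rfl, by simp⟩
  | succ c ih =>
    by_cases h : p c
    · exact ⟨c + 1, le_rfl, filter_true_of_mem fun k hk =>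
        hp k c (Nat.lt_succ_iff.1 (mem_Ico.1 hk).2) h⟩
    · obtain ⟨b, hb, e⟩ := ih
      refine ⟨b, by omega, ?_⟩
      rw [← e]
      ext k
      simp only [mem_filter, mem_Ico]
      constructor
      · rintro ⟨⟨h1, h2⟩, h3⟩
        refine ⟨⟨h1, ?_⟩, h3⟩
        rcases Nat.lt_succ_iff_lt_or_eq.1 h2 with h4 | rfl
        · exact h4
        · exact absurd h3 h
      · rintro ⟨⟨h1, h2⟩, h3⟩
        exact ⟨⟨h1, by omega⟩, h3⟩

lemma sj_big : ∃ n₀ : ℕ, ∀ n ≥ n₀, 10 ^ 15 * (ell n ^ 800) ^ 12 ≤ Real.log n := by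
  have h1 := (Real.isLittleO_pow_log_id_atTop (n := 9600)).bound
    (show (0 : ℝ) < 1 / (6 * 10 ^ 15) by positivity)
  have h2 : Filter.Tendsto (fun n : ℕ => Real.log n) Filter.atTop Filter.atTop :=
    Real.tendsto_log_atTop.comp tendsto_natCast_atTop_atTop
  have h3 : Filter.Tendsto (fun n : ℕ => Real.exp 1 * (1 + Real.log n)) Filter.atTop
      Filter.atTop :=
    (Filter.tendsto_atTop_add_const_left _ 1 h2).const_mul_atTop (Real.exp_pos 1)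
  obtain ⟨n₀, h⟩ := Filter.eventually_atTop.1 ((h3.eventually h1).and (h2.eventually_ge_atTop 1))
  refine ⟨n₀, fun n hn => ?_⟩
  obtain ⟨a1, a2⟩ := h n hn
  have e : Real.log (Real.exp 1 * (1 + Real.log n)) = ell n := by
    rw [Real.log_mul (Real.exp_pos 1).ne' (by positivity), Real.log_exp, ell]
  have a3 : Real.exp 1 ≤ 3 := Real.exp_one_lt_d9.le.trans (by norm_num)
  have a4 : Real.exp 1 * (1 + Real.log n) ≤ 3 * (2 * Real.log n) :=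
    mul_le_mul a3 (by linarith) (by positivity) (by norm_num)
  rw [e, id, Real.norm_of_nonneg (pow_nonneg (by linarith [one_le_ell n]) _),
    Real.norm_of_nonneg (by positivity)] at a1
  rw [← pow_mul]
  generalize ell n ^ (800 * 12) = z at *
  linarith

lemma sj_log {X : ℝ} (hX : 1 ≤ X) :
    X ^ (3 / 2 : ℝ) * (1 + Real.log X) ^ 3 ≤ 2197 * X ^ (7 / 4 : ℝ) := by
  have h0 : 0 < X := by linarith
  have h1 := Real.log_le_rpow_div h0.le (show (0 : ℝ) < 1 / 12 by norm_num)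
  have h2 : 1 ≤ X ^ (1 / 12 : ℝ) := Real.one_le_rpow hX (by norm_num)
  have h3 : 1 + Real.log X ≤ 13 * X ^ (1 / 12 : ℝ) := by linarith
  have h4 : (1 + Real.log X) ^ 3 ≤ (13 * X ^ (1 / 12 : ℝ)) ^ 3 :=
    pow_le_pow_left₀ (by linarith [Real.log_nonneg hX]) h3 3
  have h5 : X ^ (3 / 2 : ℝ) * (13 * X ^ (1 / 12 : ℝ)) ^ 3 = 2197 * X ^ (7 / 4 : ℝ) := by
    rw [mul_pow, ← Real.rpow_natCast (X ^ (1 / 12 : ℝ)), ← Real.rpow_mul h0.le, mul_left_comm,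
      ← Real.rpow_add h0]
    norm_num
  rw [← h5]
  exact mul_le_mul_of_nonneg_left h4 (by positivity)

lemma sj_num {u S LX LM Ln : ℝ} (hu : 1 ≤ u) (hS0 : 0 < S) (hS : S ≤ 8 * u) (hX : LX ≤ u)
    (hM : Ln ≤ LM * u) (hn : 10 ^ 15 * u ^ 12 ≤ Ln) :
    4 * LX + 300 * S ^ 8 + LM * (-1 / (256 * S ^ 3)) ≤ 0 := by
  have u0 : 0 < u := by linarith
  have h1 : S ^ 8 ≤ (8 * u) ^ 8 := pow_le_pow_left₀ hS0.le hS 8
  have h2 : S ^ 3 ≤ (8 * u) ^ 3 := pow_le_pow_left₀ hS0.le hS 3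
  have h3 : u ≤ u ^ 8 := le_self_pow₀ hu (by norm_num)
  have h4 : 10 ^ 15 * u ^ 11 ≤ LM := by
    refine le_of_mul_le_mul_right ?_ u0
    calc 10 ^ 15 * u ^ 11 * u = 10 ^ 15 * u ^ 12 := by ring
      _ ≤ _ := hn.trans hM
  have h5 : 4 * LX + 300 * S ^ 8 ≤ 6 * 10 ^ 9 * u ^ 8 := by
    rw [mul_pow] at h1
    have : 0 ≤ u ^ 8 := by positivity
    linarith
  have h6 : 6 * 10 ^ 9 * u ^ 8 * (256 * S ^ 3) ≤ LM := by
    calc 6 * 10 ^ 9 * u ^ 8 * (256 * S ^ 3) ≤ 6 * 10 ^ 9 * u ^ 8 * (256 * (8 * u) ^ 3) := by gcongr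
      _ = 6 * 10 ^ 9 * 256 * 512 * u ^ 11 := by ring
      _ ≤ 10 ^ 15 * u ^ 11 := by gcongr; norm_num
      _ ≤ _ := h4
  have h7 : 6 * 10 ^ 9 * u ^ 8 ≤ LM / (256 * S ^ 3) := (le_div_iff₀ (by positivity)).2 h6
  have h8 : LM * (-1 / (256 * S ^ 3)) = -(LM / (256 * S ^ 3)) := by ring
  linarith

theorem msq : ∃ (n₀ : ℕ) (K : ℝ), 0 < K ∧ ∀ (n X M : ℕ) (σ : ℝ), n₀ ≤ n → 1 ≤ X → 1 ≤ M → (σ = 1 ∨ σ = -1) →
    Real.log X ≤ ell n ^ 101 → Real.log n / ell n ^ 800 ≤ Real.log M →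
    ∑ k ∈ (Ico M (2 * M)).filter (fun k => X ^ 2 * (8 * k - 3) ≤ 2 * n), ‖Aw n (8 * k - 3) σ X‖ ^ 2 ≤
      K * M * (X : ℝ) ^ (7 / 4 : ℝ) := by
  obtain ⟨K, hK, hgen⟩ := msq_gen
  obtain ⟨n₀, hbig⟩ := sj_big
  refine ⟨n₀, 2197 * K + 1, by positivity, fun n X M σ hn hX hM hσ hLX hLM => ?_⟩
  have X1 : (1 : ℝ) ≤ X := by exact_mod_cast hX
  have M1 : (1 : ℝ) ≤ M := by exact_mod_cast hM
  have X0 : (0 : ℝ) < X := by linarith
  have M0 : (0 : ℝ) < M := by linarith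
  obtain ⟨b, hb, e⟩ := sj_filter (fun k => X ^ 2 * (8 * k - 3) ≤ 2 * n)
    (fun k k' h h' => le_trans (Nat.mul_le_mul_left _ (by omega)) h') M (2 * M)
  by_cases hne : b ≤ M
  · rw [e, Ico_eq_empty_of_le hne, sum_empty]
    positivity
  have hMn : M ≤ n := by
    have h1 : M ∈ Ico M b := mem_Ico.2 ⟨le_rfl, by omega⟩
    rw [← e] at h1
    have h2 := (mem_filter.1 h1).2
    have h3 : 1 * (8 * M - 3) ≤ X ^ 2 * (8 * M - 3) :=
      Nat.mul_le_mul_right _ (Nat.one_le_pow _ _ hX)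
    omega
  have hMn' : (M : ℝ) ≤ n := by exact_mod_cast hMn
  have n0 : (0 : ℝ) < n := by linarith
  have hb0 := hbig n hn
  have hl1 := one_le_ell n
  have hXu : Real.log X ≤ ell n ^ 800 := hLX.trans (pow_le_pow_right₀ hl1 (by norm_num))
  have hu : 1 ≤ ell n ^ 800 := one_le_pow₀ hl1
  generalize ell n ^ 800 = u at hb0 hXu hu hLM
  have u0 : 0 < u := by linarith
  rw [div_le_iff₀ u0] at hLM
  have hu12 : u ≤ u ^ 12 := le_self_pow₀ hu (by norm_num)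
  obtain ⟨R, hR⟩ : ∃ R : ℕ, R = ⌈u⌉₊ + 1 := ⟨_, rfl⟩
  have hR1 : u + 1 ≤ R := by
    rw [hR]
    push_cast
    linarith [Nat.le_ceil u]
  have hR2 : (R : ℝ) ≤ u + 2 := by
    rw [hR]
    push_cast
    linarith [(Nat.ceil_lt_add_one u0.le).le]
  have LM0 : 0 ≤ Real.log M := Real.log_nonneg M1
  have hLM2 : 2 ≤ Real.log M := by
    refine le_of_mul_le_mul_right ?_ u0
    linarith
  have sn : √(n : ℝ) = Real.exp (Real.log n / 2) := by
    rw [Real.sqrt_eq_rpow, Real.rpow_def_of_pos n0]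
    congr 1
    ring
  have sM : √(M : ℝ) = Real.exp (Real.log M / 2) := by
    rw [Real.sqrt_eq_rpow, Real.rpow_def_of_pos M0]
    congr 1
    ring
  have hmain := hgen n X M b σ
    (2 ^ (300 * (2 * R + 2) ^ 8) * M * (M : ℝ) ^ (-1 / (256 * (2 * R + 2 : ℝ) ^ 3))) hX hM hσ
    (by positivity) (by
      intro α Λ h1 h2
      refine expsum (κ := 3 / 8) (by norm_num) (by norm_num) hM le_rfl hb ?_ ?_
      · refine le_trans ?_ (mul_le_mul_of_nonneg_right h1 (Real.sqrt_nonneg _))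
        have a1 : (X : ℝ) ^ 2 = Real.exp (2 * Real.log X) := by
          rw [two_mul, Real.exp_add, Real.exp_log X0, sq]
        have a2 : Real.log M ≤ Real.log n := Real.log_le_log M0 hMn'
        rw [sn, sM, a1, Real.rpow_def_of_pos M0, ← Real.exp_sub, ← Real.exp_add, Real.exp_le_exp]
        linarith
      · refine (mul_le_mul_of_nonneg_right h2 (Real.sqrt_nonneg _)).trans ?_
        have a1 : (2 : ℝ) ≤ Real.exp 1 := by linarith [Real.add_one_le_exp (1 : ℝ)]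
        have a2 : (M : ℝ) ^ R = Real.exp (R * Real.log M) := by
          rw [Real.exp_nat_mul, Real.exp_log M0]
        have a3 : (u + 1) * Real.log M ≤ R * Real.log M := mul_le_mul_of_nonneg_right hR1 LM0
        have a4 : 0 ≤ Real.log M * u := by positivity
        calc 2 * √(n : ℝ) * √(M : ℝ) ≤ Real.exp 1 * √(n : ℝ) * √(M : ℝ) := by gcongr
          _ ≤ _ := by
            rw [sn, sM, a2, ← Real.exp_add, ← Real.exp_add, Real.exp_le_exp]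
            linarith)
  have hsmall : (X : ℝ) ^ 4 *
      (2 ^ (300 * (2 * R + 2) ^ 8) * M * (M : ℝ) ^ (-1 / (256 * (2 * R + 2 : ℝ) ^ 3))) ≤ M := by
    have a1 : (X : ℝ) ^ 4 = Real.exp (4 * Real.log X) := by
      rw [show (4 : ℝ) = (4 : ℕ) by norm_num, Real.exp_nat_mul, Real.exp_log X0]
    have a2 : (2 : ℝ) ^ (300 * (2 * R + 2) ^ 8) ≤ Real.exp (300 * (2 * R + 2 : ℝ) ^ 8) := by
      have : (2 : ℝ) ≤ Real.exp 1 := by linarith [Real.add_one_le_exp (1 : ℝ)]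
      refine (pow_le_pow_left₀ (by norm_num) this _).trans (le_of_eq ?_)
      rw [← Real.exp_nat_mul]
      congr 1
      push_cast
      ring
    have a3 := sj_num (S := 2 * R + 2) hu (by positivity) (by linarith) hXu hLM hb0
    calc _ ≤ (X : ℝ) ^ 4 * (Real.exp (300 * (2 * R + 2 : ℝ) ^ 8) * M *
          (M : ℝ) ^ (-1 / (256 * (2 * R + 2 : ℝ) ^ 3))) := by gcongr
      _ = M * Real.exp (4 * Real.log X + 300 * (2 * R + 2 : ℝ) ^ 8 +
          Real.log M * (-1 / (256 * (2 * R + 2 : ℝ) ^ 3))) := by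
        rw [a1, Real.rpow_def_of_pos M0, Real.exp_add, Real.exp_add]
        ring
      _ ≤ M * 1 := mul_le_mul_of_nonneg_left (Real.exp_le_one_iff.2 a3) M0.le
      _ = M := mul_one _
  have hbM : ((b - M : ℕ) : ℝ) ≤ M := by exact_mod_cast (by omega : b - M ≤ M)
  have h74 : 1 ≤ (X : ℝ) ^ (7 / 4 : ℝ) := Real.one_le_rpow X1 (by norm_num)
  have hlog := sj_log X1
  have hl0 : 0 ≤ (X : ℝ) ^ (3 / 2 : ℝ) * (1 + Real.log X) ^ 3 := by
    have := Real.log_nonneg X1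
    positivity
  rw [e]
  calc _ ≤ _ := hmain
    _ ≤ K * M * (2197 * (X : ℝ) ^ (7 / 4 : ℝ)) + M * (X : ℝ) ^ (7 / 4 : ℝ) := by
      refine add_le_add ?_ (hsmall.trans (le_mul_of_one_le_right M0.le h74))
      rw [mul_assoc (K * _)]
      exact mul_le_mul (mul_le_mul_of_nonneg_left hbM hK.le) hlog hl0 (by positivity)
    _ = _ := by ring

end

end Pool.Agent.MP_9f080f_an
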