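import Pool.Agent.MP_9f080f_an.Mg.G_SI
import Pool.Agent.MP_9f080f_an.Mg.G_SJ

namespace Pool.Agent.MP_9f080f_an
open Complex Finset
open scoped Real

noncomputable section

/-! The arithmetic theorem.  Let `ℓ = ell n`, `L = 1 + log n = exp (ℓ - 1)`, `C = 8k - 3`, so `k ≤ C ≤ 2n` on `Prs n`; `∑_{k ≤ N} 1/k ≤ 1 + log N` (`harmonic_le_one_add_log`).
`sq_sum`: write `n = a² n₀`, `C = b² C₁` with `n₀, C₁` squarefree (`Nat.sq_mul_squarefree`); if `n C` is a square then `n₀ C₁` is a square, so `C₁ = n₀` (compare factorizations);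
`C ↦ b` is injective, `C ≥ b²`, and `∑ b^(-9/8)` converges (`Real.summable_nat_rpow`).
`log_sum`: dyadic blocks `2^j ≤ X < 2^(j+1)` give `∑ (j log 2)^(-114/100)`; or telescoping.
`at_a`: `aw_nonsq`, `log_sum` (`log X ≥ 1` forces `X ≥ 2`), bound the sum over `Prs n` by a product of two sums.
`at_b`: if `C ≤ L^16` use `aw_sq` and `ell C ^ 6 ≲ C^(7/16)`, if `C > L^16` use `aw_triv`, `(1 + log X)^6 ≤ L^6` and `1/C ≤ C^(-9/16) L^(-7)`; then `sq_sum` (`k ↦ 8k-3` is injective) and `∑ 1/X ≤ L`.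
`at_c`: group the `k` by `j = Nat.log 2 k`, `M = 2^j`, `j ≤ Nat.log 2 n ≤ 2 log n`; `msq`, `1/C ≤ 1/M`, `∑ X^(-5/4)` converges.
`at_d`: `aw_triv`; `k < 2 M` with `log M < log n / ℓ^800`, so `∑ 1/k ≤ 2 + log n / ℓ^800`, and `∑ (1 + log X)^6 / X ≤ (2 ℓ^101)^7`; `ℓ^707 ≲ L`.
`AT`: every pair lies in one of the four sets; for `n < n₀` bound by the finite sum of all values and use `log n ≥ 1/2`; `L ≤ 3 log n`. -/

/-- the pairs `(k, X)` -/
def Prs (n : ℕ) : Finset (ℕ × ℕ) :=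
  (Icc 1 n ×ˢ Icc 1 n).filter fun p => p.2 ^ 2 * (8 * p.1 - 3) ≤ 2 * n

/-- the terms of the arithmetic theorem -/
def atT (n : ℕ) (σ : ℝ) (p : ℕ × ℕ) : ℝ :=
  ‖Aw n (8 * p.1 - 3) σ p.2‖ ^ 2 / ((8 * p.1 - 3 : ℕ) * (p.2 : ℝ) ^ 3)

lemma ska_eq {x y c : ℕ} (hx : Squarefree x) (hy : Squarefree y) (hc : c ≠ 0)
    (h : IsSquare (c ^ 2 * (x * y))) : x = y := by
  obtain ⟨r, hr⟩ := h
  have hx0 := hx.ne_zero
  have hy0 := hy.ne_zero
  have hr0 : r ≠ 0 := by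
    rintro rfl
    exact absurd hr (by positivity)
  refine Nat.eq_of_factorization_eq hx0 hy0 fun p => ?_
  have e := congrArg (fun m => m.factorization p) hr
  simp only [Nat.factorization_mul (pow_ne_zero 2 hc) (mul_ne_zero hx0 hy0),
    Nat.factorization_mul hx0 hy0, Nat.factorization_mul hr0 hr0, Nat.factorization_pow,
    Finsupp.add_apply, Finsupp.smul_apply, smul_eq_mul] at e
  have h1 := hx.natFactorization_le_one p
  have h2 := hy.natFactorization_le_one p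
  omega

theorem sq_sum : ∃ K : ℝ, 0 < K ∧ ∀ n N : ℕ, 1 ≤ n →
    ∑ C ∈ (Icc 1 N).filter (fun C => IsSquare (n * C)), (C : ℝ) ^ (-9 / 16 : ℝ) ≤ K := by
  have hs : Summable fun b : ℕ => (b : ℝ) ^ (-9 / 8 : ℝ) := Real.summable_nat_rpow.2 (by norm_num)
  have h0 : 0 ≤ ∑' b : ℕ, (b : ℝ) ^ (-9 / 8 : ℝ) := tsum_nonneg fun b => by positivity
  refine ⟨∑' b : ℕ, (b : ℝ) ^ (-9 / 8 : ℝ) + 1, by linarith, fun n N hn => ?_⟩
  obtain ⟨n₀, a, hna, hn₀⟩ := Nat.sq_mul_squarefree n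
  have ha : a ≠ 0 := by
    rintro rfl
    simp at hna
    omega
  have hsub : (Icc 1 N).filter (fun C => IsSquare (n * C)) ⊆
      (Icc 1 N).image fun b => b ^ 2 * n₀ := by
    intro C hC
    rw [mem_filter, mem_Icc] at hC
    obtain ⟨C₁, b, hCb, hC₁⟩ := Nat.sq_mul_squarefree C
    have hb : b ≠ 0 := by
      rintro rfl
      simp at hCb
      omega
    have e : n₀ = C₁ := ska_eq hn₀ hC₁ (mul_ne_zero ha hb) (by
      rw [show (a * b) ^ 2 * (n₀ * C₁) = (a ^ 2 * n₀) * (b ^ 2 * C₁) by ring, hna, hCb]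
      exact hC.2)
    refine mem_image.2 ⟨b, mem_Icc.2 ⟨Nat.pos_of_ne_zero hb, ?_⟩, by rw [e, hCb]⟩
    have h1 : 1 ≤ C₁ := Nat.pos_of_ne_zero hC₁.ne_zero
    have h2 : b ≤ b ^ 2 * C₁ := by nlinarith [Nat.pos_of_ne_zero hb]
    omega
  refine (sum_le_sum_of_subset_of_nonneg hsub fun C _ _ => by positivity).trans ?_
  refine (sum_image_le_of_nonneg fun C _ => by positivity).trans ?_
  refine le_trans ?_ ((hs.sum_le_tsum (Icc 1 N) fun b _ => by positivity).trans (by linarith))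
  refine sum_le_sum fun b hb => ?_
  have hb1 : (0 : ℝ) < b := by exact_mod_cast (mem_Icc.1 hb).1
  have h1 : (1 : ℝ) ≤ n₀ := by exact_mod_cast Nat.pos_of_ne_zero hn₀.ne_zero
  have h2 : (b : ℝ) ^ (-9 / 8 : ℝ) = ((b : ℝ) ^ 2) ^ (-9 / 16 : ℝ) := by
    rw [← Real.rpow_natCast, ← Real.rpow_mul hb1.le]; norm_num
  rw [h2]
  refine Real.rpow_le_rpow_of_nonpos (by positivity) ?_ (by norm_num)
  push_cast
  nlinarith [sq_nonneg (b : ℝ)]

theorem log_sum : ∃ K : ℝ, 0 < K ∧ ∀ N : ℕ,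
    ∑ X ∈ Icc 2 N, Real.log X ^ (-114 / 100 : ℝ) / X ≤ K := by
  have hnn : ∀ X : ℕ, 0 ≤ Real.log X ^ (-114 / 100 : ℝ) / X := fun X =>
    div_nonneg (Real.rpow_nonneg (Real.log_natCast_nonneg X) _) (Nat.cast_nonneg X)
  have hs : Summable fun X : ℕ => Real.log X ^ (-114 / 100 : ℝ) / X := by
    rw [← summable_condensed_iff_of_eventually_nonneg (Filter.Eventually.of_forall hnn)]
    · have h1 : Summable fun k : ℕ => Real.log 2 ^ (-114 / 100 : ℝ) *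
          (k : ℝ) ^ (-114 / 100 : ℝ) := (Real.summable_nat_rpow.2 (by norm_num)).mul_left _
      refine h1.congr fun k => ?_
      push_cast
      rw [Real.log_pow, Real.mul_rpow (Nat.cast_nonneg k) (Real.log_nonneg (by norm_num))]
      field_simp
    · filter_upwards [Filter.eventually_ge_atTop 2] with k hk
      have hk' : (2 : ℝ) ≤ k := by exact_mod_cast hk
      have h1 : 0 < Real.log k := Real.log_pos (by linarith)
      push_cast
      refine div_le_div₀ (Real.rpow_nonneg h1.le _) ?_ (by linarith) (by linarith)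
      exact Real.rpow_le_rpow_of_nonpos h1 (Real.log_le_log (by linarith) (by linarith))
        (by norm_num)
  have h0 : 0 ≤ ∑' X : ℕ, Real.log X ^ (-114 / 100 : ℝ) / X := tsum_nonneg hnn
  exact ⟨∑' X : ℕ, Real.log X ^ (-114 / 100 : ℝ) / X + 1, by linarith,
    fun N => (hs.sum_le_tsum _ fun X _ => hnn X).trans (by linarith)⟩

end

end Pool.Agent.MP_9f080f_an

namespace Pool.Agent.MP_9f080f_an
open Complex Finset
open scoped Real

noncomputable section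

lemma skb_harm (n : ℕ) : ∑ k ∈ Icc 1 n, (k : ℝ)⁻¹ ≤ 1 + Real.log n := by
  have := harmonic_le_one_add_log n
  rw [harmonic_eq_sum_Icc] at this
  push_cast at this
  exact this

open Classical in
theorem at_a : ∃ (n₀ : ℕ) (K : ℝ), 0 < K ∧ ∀ (n : ℕ) (σ : ℝ), n₀ ≤ n → (σ = 1 ∨ σ = -1) →
    ∑ p ∈ (Prs n).filter (fun p => ell n ^ 101 ≤ Real.log p.2 ∧ ¬IsSquare (n * (8 * p.1 - 3))),
      atT n σ p ≤ K * (1 + Real.log n) := by
  obtain ⟨n₀, K, hK, h⟩ := aw_nonsq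
  obtain ⟨K', hK', h'⟩ := log_sum
  refine ⟨n₀, K ^ 2 * K', by positivity, fun n σ hn hσ => ?_⟩
  have hs : |σ| ≤ 1 := by rcases hσ with rfl | rfl <;> simp
  have hf : ∀ p : ℕ × ℕ, 0 ≤ K ^ 2 * ((p.1 : ℝ)⁻¹ * (Real.log p.2 ^ (-114 / 100 : ℝ) / p.2)) :=
    fun p => by
      have := Real.rpow_nonneg (Real.log_natCast_nonneg p.2) (-114 / 100 : ℝ)
      positivity
  have h1 : ∀ p ∈ (Prs n).filter
      (fun p => ell n ^ 101 ≤ Real.log p.2 ∧ ¬IsSquare (n * (8 * p.1 - 3))),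
      p ∈ Icc 1 n ×ˢ Icc 2 n ∧
        atT n σ p ≤ K ^ 2 * ((p.1 : ℝ)⁻¹ * (Real.log p.2 ^ (-114 / 100 : ℝ) / p.2)) := by
    intro p hp
    simp only [Prs, mem_filter, mem_product, mem_Icc] at hp
    obtain ⟨⟨⟨⟨k1, kn⟩, x1, xn⟩, hC⟩, hl, hq⟩ := hp
    have x2 : 2 ≤ p.2 := by
      by_contra hx
      rw [show p.2 = 1 by omega, Nat.cast_one, Real.log_one] at hl
      linarith [one_le_pow₀ (n := 101) (one_le_ell n)]
    have hC' : 8 * p.1 - 3 ≤ 2 * n :=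
      (Nat.le_mul_of_pos_left _ (by positivity)).trans hC
    refine ⟨mem_product.2 ⟨mem_Icc.2 ⟨k1, kn⟩, mem_Icc.2 ⟨x2, xn⟩⟩, ?_⟩
    have h2 := pow_le_pow_left₀ (norm_nonneg _)
      (h n (8 * p.1 - 3) p.2 σ hn (by omega) hC' x1 hs hl hq) 2
    have e : (Real.log p.2 ^ (-57 / 100 : ℝ)) ^ 2 = Real.log p.2 ^ (-114 / 100 : ℝ) := by
      rw [← Real.rpow_natCast, ← Real.rpow_mul (Real.log_natCast_nonneg _)]
      norm_num
    rw [mul_pow, mul_pow, e] at h2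
    have h0 := Real.rpow_nonneg (Real.log_natCast_nonneg p.2) (-114 / 100 : ℝ)
    have k0 : (0 : ℝ) < p.1 := by exact_mod_cast k1
    have x0 : (0 : ℝ) < p.2 := by exact_mod_cast x1
    have kC : (p.1 : ℝ) ≤ (8 * p.1 - 3 : ℕ) := by exact_mod_cast (by omega : p.1 ≤ 8 * p.1 - 3)
    unfold atT
    refine (div_le_div₀ (by positivity) h2 (by positivity)
      (mul_le_mul_of_nonneg_right kC (by positivity))).trans_eq ?_
    field_simp
  refine (sum_le_sum fun p hp => (h1 p hp).2).trans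
    ((sum_le_sum_of_subset_of_nonneg (fun p hp => (h1 p hp).1) fun p _ _ => hf p).trans ?_)
  rw [← mul_sum, sum_product' (f := fun k X : ℕ =>
    (k : ℝ)⁻¹ * (Real.log X ^ (-114 / 100 : ℝ) / X)), ← sum_mul_sum, mul_assoc, mul_comm K']
  refine mul_le_mul_of_nonneg_left (mul_le_mul (skb_harm n) (h' n) (sum_nonneg fun X _ =>
    div_nonneg (Real.rpow_nonneg (Real.log_natCast_nonneg _) _) (Nat.cast_nonneg _)) ?_)
    (by positivity)
  linarith [Real.log_natCast_nonneg n]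

end

end Pool.Agent.MP_9f080f_an

namespace Pool.Agent.MP_9f080f_an
open Complex Finset
open scoped Real

noncomputable section

lemma skc_ell {C : ℕ} (hC : 1 ≤ C) : ell C ≤ 15 * (C : ℝ) ^ (7 / 96 : ℝ) := by
  have h1 : (1 : ℝ) ≤ C := by exact_mod_cast hC
  have h2 := Real.log_nonneg h1
  have h3 := Real.log_le_sub_one_of_pos (by linarith : 0 < 1 + Real.log C)
  have h4 := Real.log_le_rpow_div (by linarith : (0 : ℝ) ≤ C) (by norm_num : (0 : ℝ) < 7 / 96)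
  have h5 := Real.one_le_rpow h1 (by norm_num : (0 : ℝ) ≤ 7 / 96)
  unfold ell
  linarith

lemma skc_term {K A : ℝ} {C X : ℕ} (hC : 1 ≤ C) (hX : 1 ≤ X) (hA : 0 ≤ A)
    (h : A ≤ K * X * ((C : ℝ) ^ (7 / 96 : ℝ)) ^ 3) :
    A ^ 2 / (C * (X : ℝ) ^ 3) ≤ K ^ 2 * ((C : ℝ) ^ (-9 / 16 : ℝ) * (X : ℝ)⁻¹) := by
  have h1 : (0 : ℝ) < C := by exact_mod_cast hC
  have h2 : (0 : ℝ) < X := by exact_mod_cast hX
  have h3 : (C : ℝ) ^ (-9 / 16 : ℝ) = ((C : ℝ) ^ (7 / 96 : ℝ)) ^ 6 / C := by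
    rw [← Real.rpow_mul_natCast h1.le, ← Real.rpow_sub_one h1.ne']
    norm_num
  refine (div_le_div_of_nonneg_right (pow_le_pow_left₀ hA h 2) (by positivity)).trans_eq ?_
  rw [h3]
  field_simp

open Classical in
theorem at_b : ∃ (n₀ : ℕ) (K : ℝ), 0 < K ∧ ∀ (n : ℕ) (σ : ℝ), n₀ ≤ n → (σ = 1 ∨ σ = -1) →
    ∑ p ∈ (Prs n).filter (fun p => ell n ^ 101 ≤ Real.log p.2 ∧ IsSquare (n * (8 * p.1 - 3))),
      atT n σ p ≤ K * (1 + Real.log n) := by
  obtain ⟨n₁, K1, hK1, H1⟩ := aw_sq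
  obtain ⟨K2, hK2, H2⟩ := aw_triv
  obtain ⟨K3, hK3, H3⟩ := sq_sum
  refine ⟨n₁ + 1, (K1 * 15 ^ 3 + K2) ^ 2 * K3, by positivity, fun n σ hn hσ => ?_⟩
  have hn1 : (1 : ℝ) ≤ n := by exact_mod_cast (by omega : 1 ≤ n)
  have hL := Real.log_nonneg hn1
  have key : ∀ p ∈ (Prs n).filter
      (fun p => ell n ^ 101 ≤ Real.log p.2 ∧ IsSquare (n * (8 * p.1 - 3))), atT n σ p ≤
      (K1 * 15 ^ 3 + K2) ^ 2 * (((8 * p.1 - 3 : ℕ) : ℝ) ^ (-9 / 16 : ℝ) * (p.2 : ℝ)⁻¹) := by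
    rintro ⟨k, X⟩ hp
    obtain ⟨hp, h1, h2⟩ := mem_filter.1 hp
    obtain ⟨hp, h3⟩ := mem_filter.1 hp
    simp only [mem_product, mem_Icc] at hp h1 h2 h3
    obtain ⟨⟨hk, -⟩, hX, hXn⟩ := hp
    have hC : 1 ≤ 8 * k - 3 := by omega
    have hC1 : (1 : ℝ) ≤ (8 * k - 3 : ℕ) := by exact_mod_cast hC
    have hX1 : (1 : ℝ) ≤ X := by exact_mod_cast hX
    refine skc_term hC hX (norm_nonneg _) ?_
    rcases le_or_gt (((8 * k - 3 : ℕ) : ℝ)) ((1 + Real.log n) ^ 16) with h | h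
    · refine (H1 n _ X σ (by omega) hC ((Nat.le_mul_of_pos_left _ (by positivity)).trans h3) hX hσ
        h1 h2 h).trans ?_
      have h4 := pow_le_pow_left₀ (zero_le_one.trans (one_le_ell _)) (skc_ell hC) 3
      calc _ ≤ K1 * X * (15 * ((8 * k - 3 : ℕ) : ℝ) ^ (7 / 96 : ℝ)) ^ 3 := by gcongr
        _ = K1 * 15 ^ 3 * X * (((8 * k - 3 : ℕ) : ℝ) ^ (7 / 96 : ℝ)) ^ 3 := by ring
        _ ≤ _ := by gcongr; linarith
    · refine (H2 n k X σ hk hX).1.trans ?_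
      have h4 : 1 + Real.log n ≤ ((8 * k - 3 : ℕ) : ℝ) ^ (7 / 96 : ℝ) := by
        refine (lt_of_pow_lt_pow_left₀ 16 (by positivity) (h.trans_le ?_)).le
        rw [← Real.rpow_mul_natCast (by positivity)]
        exact Real.self_le_rpow_of_one_le hC1 (by norm_num)
      have h5 : Real.log X ≤ Real.log n := Real.log_le_log (by linarith) (by exact_mod_cast hXn)
      have h6 := Real.log_nonneg hX1
      have h7 : 0 ≤ K1 * 15 ^ 3 := by positivity
      gcongr <;> linarith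
  have s1 : ∑ k ∈ (Icc 1 n).filter (fun k => IsSquare (n * (8 * k - 3))),
      ((8 * k - 3 : ℕ) : ℝ) ^ (-9 / 16 : ℝ) ≤ K3 := by
    rw [← sum_image (f := fun C : ℕ => (C : ℝ) ^ (-9 / 16 : ℝ)) (g := fun k => 8 * k - 3)]
    · refine le_trans (sum_le_sum_of_subset_of_nonneg (fun C hC => ?_) fun _ _ _ => by positivity)
        (H3 n (8 * n) (by omega))
      obtain ⟨k, hk, rfl⟩ := mem_image.1 hC
      obtain ⟨h1, h2⟩ := mem_filter.1 hk
      rw [mem_Icc] at h1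
      exact mem_filter.2 ⟨mem_Icc.2 ⟨by omega, by omega⟩, h2⟩
    · intro a ha b hb hab
      have h1 := mem_Icc.1 (mem_filter.1 ha).1
      have h2 := mem_Icc.1 (mem_filter.1 hb).1
      simp only at hab
      omega
  have s2 : ∑ X ∈ Icc 1 n, (X : ℝ)⁻¹ ≤ 1 + Real.log n := by
    simpa [harmonic_eq_sum_Icc] using harmonic_le_one_add_log n
  refine (sum_le_sum key).trans ?_
  rw [← mul_sum, mul_assoc]
  refine mul_le_mul_of_nonneg_left (le_trans ?_ (mul_le_mul s1 s2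
    (sum_nonneg fun _ _ => by positivity) hK3.le)) (by positivity)
  rw [sum_mul_sum, ← sum_product']
  refine sum_le_sum_of_subset_of_nonneg (fun p hp => ?_) fun _ _ _ => by positivity
  obtain ⟨hp, -, h2⟩ := mem_filter.1 hp
  obtain ⟨h3, h4⟩ := mem_product.1 (mem_filter.1 hp).1
  exact mem_product.2 ⟨mem_filter.2 ⟨h3, h2⟩, h4⟩

end

end Pool.Agent.MP_9f080f_an

namespace Pool.Agent.MP_9f080f_an
open Complex Finset
open scoped Real

noncomputable section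

/-! The arithmetic theorem: the dyadic range and the small range. -/

theorem skd_harm (S : Finset ℕ) {B : ℝ} (hB : 0 ≤ B) (h : ∀ k ∈ S, 1 ≤ k ∧ Real.log k ≤ B) :
    ∑ k ∈ S, ((k : ℝ))⁻¹ ≤ 1 + B := by
  rcases S.eq_empty_or_nonempty with rfl | hS
  · rw [sum_empty]
    linarith
  have h1 : ∑ k ∈ S, ((k : ℝ))⁻¹ ≤ ∑ k ∈ Icc 1 (S.max' hS), ((k : ℝ))⁻¹ :=
    sum_le_sum_of_subset_of_nonneg (fun k hk => mem_Icc.2 ⟨(h k hk).1, S.le_max' k hk⟩)
      fun _ _ _ => by positivity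
  have h2 := harmonic_le_one_add_log (S.max' hS)
  rw [harmonic_eq_sum_Icc] at h2
  push_cast at h2
  linarith [(h _ (S.max'_mem hS)).2]

theorem skd_pow (m : ℕ) : ∃ F : ℝ, 0 < F ∧ ∀ n : ℕ, 1 ≤ ell n ∧ ell n ^ m ≤ F * (1 + Real.log n) := by
  refine ⟨m.factorial * Real.exp 1, by positivity, fun n => ?_⟩
  have h0 := Real.log_natCast_nonneg n
  have h1 : 1 ≤ ell n := by
    have := Real.log_nonneg (show 1 ≤ 1 + Real.log n by linarith)
    rw [ell]
    linarith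
  refine ⟨h1, ?_⟩
  have h2 := Real.pow_div_factorial_le_exp (ell n) (by linarith) m
  rw [div_le_iff₀ (by positivity)] at h2
  have h3 : Real.exp (ell n) = Real.exp 1 * (1 + Real.log n) := by
    rw [ell, Real.exp_add, Real.exp_log (by linarith)]
  rw [h3] at h2
  linarith

theorem skd_log {n : ℕ} (hn : 1 ≤ n) : ((Nat.log 2 n + 1 : ℕ) : ℝ) ≤ 2 * (1 + Real.log n) := by
  have h1 : ((2 ^ Nat.log 2 n : ℕ) : ℝ) ≤ n := by exact_mod_cast Nat.pow_log_le_self 2 (by omega)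
  have h2 := Real.log_le_log (by positivity) h1
  push_cast at h2 ⊢
  rw [Real.log_pow] at h2
  have h3 := mul_le_mul_of_nonneg_left Real.log_two_gt_d9.le (Nat.cast_nonneg (α := ℝ) (Nat.log 2 n))
  have h4 : (0 : ℝ) ≤ Nat.log 2 n := Nat.cast_nonneg _
  linarith

theorem skd_mem {n : ℕ} {p : ℕ × ℕ} (h : p ∈ Prs n) :
    (1 ≤ p.1 ∧ p.1 ≤ n) ∧ (1 ≤ p.2 ∧ p.2 ≤ n) ∧ p.2 ^ 2 * (8 * p.1 - 3) ≤ 2 * n := by
  simp only [Prs, mem_filter, mem_product, mem_Icc] at h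
  exact ⟨h.1.1, h.1.2, h.2⟩

theorem skd_nonneg (n : ℕ) (σ : ℝ) (p : ℕ × ℕ) : 0 ≤ atT n σ p := by
  rw [atT]
  positivity

theorem skd_le (n : ℕ) (σ : ℝ) {k X M : ℕ} (hX : 1 ≤ X) (hM : 1 ≤ M) (hk : M ≤ k) :
    atT n σ (k, X) ≤ ‖Aw n (8 * k - 3) σ X‖ ^ 2 / (M * (X : ℝ) ^ 3) := by
  have h1 : (M : ℝ) ≤ (8 * k - 3 : ℕ) := by exact_mod_cast (by omega : M ≤ 8 * k - 3)
  exact div_le_div_of_nonneg_left (by positivity) (by positivity)
    (mul_le_mul_of_nonneg_right h1 (by positivity))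

open Classical in
theorem at_c : ∃ (n₀ : ℕ) (K : ℝ), 0 < K ∧ ∀ (n : ℕ) (σ : ℝ), n₀ ≤ n → (σ = 1 ∨ σ = -1) →
    ∑ p ∈ (Prs n).filter (fun p => Real.log p.2 < ell n ^ 101 ∧
      Real.log n / ell n ^ 800 ≤ Real.log (2 ^ Nat.log 2 p.1 : ℕ)), atT n σ p ≤ K * (1 + Real.log n) := by
  obtain ⟨n₀, K, hK, h⟩ := msq
  have hsum : Summable fun X : ℕ => (X : ℝ) ^ (-5 / 4 : ℝ) := Real.summable_nat_rpow.2 (by norm_num)
  have hZ : 0 ≤ ∑' X : ℕ, (X : ℝ) ^ (-5 / 4 : ℝ) := tsum_nonneg fun X => by positivity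
  refine ⟨max n₀ 1, 2 * K * (∑' X : ℕ, (X : ℝ) ^ (-5 / 4 : ℝ)) + 1, by positivity,
    fun n σ hn hσ => ?_⟩
  have hn1 : 1 ≤ n := (le_max_right _ _).trans hn
  rw [← sum_fiberwise_of_maps_to (t := Icc 1 n ×ˢ range (Nat.log 2 n + 1))
    (g := fun p : ℕ × ℕ => (p.2, Nat.log 2 p.1)) fun p hp => ?_]
  swap
  · obtain ⟨h1, h2, -⟩ := skd_mem (mem_filter.1 hp).1
    exact mem_product.2 ⟨mem_Icc.2 h2, mem_range.2 (Nat.lt_succ_of_le (Nat.log_mono_right (b := 2) h1.2))⟩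
  refine le_trans (sum_le_sum (g := fun q : ℕ × ℕ => K * (q.1 : ℝ) ^ (-5 / 4 : ℝ)) ?_) ?_
  · rintro ⟨X, j⟩ -
    generalize hS : ((Prs n).filter (fun p : ℕ × ℕ => Real.log p.2 < ell n ^ 101 ∧
      Real.log n / ell n ^ 800 ≤ Real.log (2 ^ Nat.log 2 p.1 : ℕ))).filter
        (fun p => (p.2, Nat.log 2 p.1) = (X, j)) = S
    rcases S.eq_empty_or_nonempty with rfl | ⟨y, hy⟩
    · rw [sum_empty]
      positivity
    have hmem : ∀ p ∈ S, p ∈ Prs n ∧ Real.log X < ell n ^ 101 ∧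
        Real.log n / ell n ^ 800 ≤ Real.log (2 ^ j : ℕ) ∧ p.2 = X ∧ Nat.log 2 p.1 = j := by
      intro p hp
      rw [← hS] at hp
      obtain ⟨h1, h2⟩ := mem_filter.1 hp
      obtain ⟨h3, h4, h5⟩ := mem_filter.1 h1
      obtain ⟨h6, h7⟩ := Prod.mk.inj h2
      exact ⟨h3, h6 ▸ h4, h7 ▸ h5, h6, h7⟩
    obtain ⟨y1, y2, y3, y4, -⟩ := hmem y hy
    have hX : 1 ≤ X := y4 ▸ (skd_mem y1).2.1.1
    have hM : 1 ≤ 2 ^ j := Nat.one_le_two_pow
    have h1 := h n X (2 ^ j) σ ((le_max_left _ _).trans hn) hX hM hσ y2.le y3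
    have hsub : S ⊆ ((Ico (2 ^ j) (2 * 2 ^ j)).filter
        (fun k => X ^ 2 * (8 * k - 3) ≤ 2 * n)).image fun k => (k, X) := by
      intro p hp
      obtain ⟨p1, -, -, rfl, rfl⟩ := hmem p hp
      obtain ⟨h2, -, h3⟩ := skd_mem p1
      refine mem_image.2 ⟨p.1, mem_filter.2 ⟨mem_Ico.2 ⟨Nat.pow_log_le_self 2 (by omega), ?_⟩, h3⟩,
        rfl⟩
      rw [← pow_succ']
      exact Nat.lt_pow_succ_log_self one_lt_two _
    refine (sum_le_sum_of_subset_of_nonneg hsub fun p _ _ => skd_nonneg n σ p).trans ?_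
    rw [sum_image fun k _ k' _ e => (Prod.mk.inj e).1]
    refine (sum_le_sum fun k hk => skd_le n σ hX hM (mem_Ico.1 (mem_filter.1 hk).1).1).trans ?_
    rw [← sum_div, div_le_iff₀ (by positivity)]
    refine h1.trans_eq ?_
    have h2 : (X : ℝ) ^ (7 / 4 : ℝ) = (X : ℝ) ^ (-5 / 4 : ℝ) * (X : ℝ) ^ 3 := by
      rw [← Real.rpow_natCast, ← Real.rpow_add (by positivity)]
      norm_num
    rw [h2]
    ring
  · rw [sum_product]
    simp only [sum_const, card_range, nsmul_eq_mul, ← mul_sum]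
    have h1 := hsum.sum_le_tsum (Icc 1 n) fun X _ => by positivity
    have h2 := mul_le_mul (skd_log hn1) (mul_le_mul_of_nonneg_left h1 hK.le)
      (mul_nonneg hK.le (sum_nonneg fun X _ => by positivity))
      (by linarith [Real.log_natCast_nonneg n])
    linarith [Real.log_natCast_nonneg n]

open Classical in
theorem at_d : ∃ K : ℝ, 0 < K ∧ ∀ (n : ℕ) (σ : ℝ), 1 ≤ n →
    ∑ p ∈ (Prs n).filter (fun p => Real.log p.2 < ell n ^ 101 ∧
      Real.log (2 ^ Nat.log 2 p.1 : ℕ) < Real.log n / ell n ^ 800), atT n σ p ≤ K * (1 + Real.log n) := by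
  obtain ⟨K, hK, h⟩ := aw_triv
  obtain ⟨F, hF, hF'⟩ := skd_pow 707
  refine ⟨K ^ 2 * 2 ^ 7 * (2 * F + 1), by positivity, fun n σ _ => ?_⟩
  obtain ⟨hl, hl'⟩ := hF' n
  have hn0 := Real.log_natCast_nonneg n
  generalize ell n = l at hl hl' ⊢
  have hl1 : 1 ≤ l ^ 101 := one_le_pow₀ hl
  have hsub : (Prs n).filter (fun p => Real.log p.2 < l ^ 101 ∧
      Real.log (2 ^ Nat.log 2 p.1 : ℕ) < Real.log n / l ^ 800) ⊆
      (Icc 1 n).filter (fun k : ℕ => Real.log k ≤ 1 + Real.log n / l ^ 800) ×ˢ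
        (Icc 1 n).filter (fun X : ℕ => Real.log X ≤ l ^ 101) := by
    intro p hp
    obtain ⟨h1, h2, h3⟩ := mem_filter.1 hp
    obtain ⟨h4, h5, -⟩ := skd_mem h1
    refine mem_product.2 ⟨mem_filter.2 ⟨mem_Icc.2 h4, ?_⟩, mem_filter.2 ⟨mem_Icc.2 h5, h2.le⟩⟩
    have h6 : (p.1 : ℝ) ≤ 2 * (2 ^ Nat.log 2 p.1 : ℕ) := by
      have := Nat.lt_pow_succ_log_self one_lt_two p.1
      rw [pow_succ'] at this
      exact_mod_cast this.le
    have h7 := Real.log_le_log (by exact_mod_cast h4.1) h6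
    rw [Real.log_mul two_ne_zero (by positivity)] at h7
    linarith [Real.log_two_lt_d9]
  refine (sum_le_sum_of_subset_of_nonneg hsub fun p _ _ => skd_nonneg n σ p).trans ?_
  refine le_trans (sum_le_sum (g := fun p : ℕ × ℕ =>
    K ^ 2 * (2 * l ^ 101) ^ 6 * ((p.1 : ℝ)⁻¹ * (p.2 : ℝ)⁻¹)) ?_) ?_
  · rintro ⟨k, X⟩ hp
    obtain ⟨h1, h2⟩ := mem_product.1 hp
    have hk : 1 ≤ k := (mem_Icc.1 (mem_filter.1 h1).1).1
    have hX : 1 ≤ X := (mem_Icc.1 (mem_filter.1 h2).1).1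
    have h3 : 1 + Real.log X ≤ 2 * l ^ 101 := by linarith [(mem_filter.1 h2).2]
    have h4 := (h n k X σ hk hX).1.trans (mul_le_mul_of_nonneg_left
      (pow_le_pow_left₀ (by linarith [Real.log_natCast_nonneg X]) h3 3) (by positivity))
    refine (skd_le n σ hX hk le_rfl).trans ((div_le_div_of_nonneg_right
      (pow_le_pow_left₀ (norm_nonneg _) h4 2) (by positivity)).trans_eq ?_)
    generalize 2 * l ^ 101 = u
    field_simp
  · rw [← mul_sum, sum_product]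
    dsimp only
    rw [← sum_mul_sum]
    have hq : 0 ≤ Real.log n / l ^ 800 := by positivity
    have h1 := skd_harm ((Icc 1 n).filter fun k : ℕ => Real.log k ≤ 1 + Real.log n / l ^ 800)
      (by linarith) fun k hk => ⟨(mem_Icc.1 (mem_filter.1 hk).1).1, (mem_filter.1 hk).2⟩
    have h2 := skd_harm ((Icc 1 n).filter fun X : ℕ => Real.log X ≤ l ^ 101)
      (by linarith) fun k hk => ⟨(mem_Icc.1 (mem_filter.1 hk).1).1, (mem_filter.1 hk).2⟩
    have h3 := mul_le_mul h1 (h2.trans (show 1 + l ^ 101 ≤ 2 * l ^ 101 by linarith))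
      (sum_nonneg fun X _ => by positivity) (by linarith)
    refine (mul_le_mul_of_nonneg_left h3 (by positivity)).trans ?_
    have h4 : l ^ 707 * (Real.log n / l ^ 800) ≤ Real.log n := by
      rw [mul_div_assoc', div_le_iff₀ (by positivity), mul_comm]
      exact mul_le_mul_of_nonneg_left (pow_le_pow_right₀ hl (by norm_num)) hn0
    have h5 : (2 * l ^ 101) ^ 6 * (2 * l ^ 101) = 2 ^ 7 * l ^ 707 := by
      rw [← pow_succ, mul_pow, ← pow_mul]
    generalize Real.log n / l ^ 800 = r at h4 ⊢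
    calc _ = K ^ 2 * ((2 * l ^ 101) ^ 6 * (2 * l ^ 101)) * (2 + r) := by
          generalize 2 * l ^ 101 = u
          ring
      _ = K ^ 2 * 2 ^ 7 * (2 * l ^ 707 + l ^ 707 * r) := by
          rw [h5]
          generalize l ^ 707 = u
          ring
      _ ≤ K ^ 2 * 2 ^ 7 * ((2 * F + 1) * (1 + Real.log n)) :=
          mul_le_mul_of_nonneg_left (by linarith) (by positivity)
      _ = _ := by ring

end

end Pool.Agent.MP_9f080f_an

namespace Pool.Agent.MP_9f080f_an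
open Complex Finset
open scoped Real

noncomputable section

theorem sk_atT_nonneg (n : ℕ) (σ : ℝ) (p : ℕ × ℕ) : 0 ≤ atT n σ p := by
  unfold atT
  positivity

theorem sk_log_half {n : ℕ} (hn : 2 ≤ n) : 1 / 2 ≤ Real.log n := by
  have h2 : (2 : ℝ) ≤ n := by exact_mod_cast hn
  have h := Real.log_le_log (by norm_num) h2
  have := Real.log_two_gt_d9
  linarith

open Classical in
theorem sk_split (n : ℕ) (σ : ℝ) :
    ∑ p ∈ Prs n, atT n σ p =
      (∑ p ∈ (Prs n).filter (fun p => ell n ^ 101 ≤ Real.log p.2 ∧ ¬IsSquare (n * (8 * p.1 - 3))),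
        atT n σ p +
      ∑ p ∈ (Prs n).filter (fun p => ell n ^ 101 ≤ Real.log p.2 ∧ IsSquare (n * (8 * p.1 - 3))),
        atT n σ p) +
      (∑ p ∈ (Prs n).filter (fun p => Real.log p.2 < ell n ^ 101 ∧
        Real.log n / ell n ^ 800 ≤ Real.log (2 ^ Nat.log 2 p.1 : ℕ)), atT n σ p +
      ∑ p ∈ (Prs n).filter (fun p => Real.log p.2 < ell n ^ 101 ∧
        Real.log (2 ^ Nat.log 2 p.1 : ℕ) < Real.log n / ell n ^ 800), atT n σ p) := by
  simp only [Finset.sum_filter, ← Finset.sum_add_distrib]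
  refine Finset.sum_congr rfl fun p _ => ?_
  by_cases h1 : ell n ^ 101 ≤ Real.log p.2
  · have h1' : ¬ Real.log p.2 < ell n ^ 101 := not_lt.mpr h1
    by_cases h2 : IsSquare (n * (8 * p.1 - 3))
    · simp only [h1, h1', h2, not_true_eq_false, and_false, and_self, false_and, if_true,
        if_false, zero_add, add_zero]
    · simp only [h1, h1', h2, not_false_eq_true, and_false, and_self, false_and, if_true,
        if_false, zero_add, add_zero]
  · have h1' : Real.log p.2 < ell n ^ 101 := not_le.mp h1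
    by_cases h2 : Real.log n / ell n ^ 800 ≤ Real.log (2 ^ Nat.log 2 p.1 : ℕ)
    · have h2' : ¬ Real.log (2 ^ Nat.log 2 p.1 : ℕ) < Real.log n / ell n ^ 800 := not_lt.mpr h2
      simp only [h1, h1', h2, h2', and_false, and_self, false_and, if_true, if_false, zero_add,
        add_zero]
    · have h2' : Real.log (2 ^ Nat.log 2 p.1 : ℕ) < Real.log n / ell n ^ 800 := not_le.mp h2
      simp only [h1, h1', h2, h2', and_false, and_self, false_and, if_true, if_false, zero_add,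
        add_zero]

theorem AT : ∃ K : ℝ, 0 < K ∧ ∀ (n : ℕ) (σ : ℝ), 2 ≤ n → (σ = 1 ∨ σ = -1) →
    ∑ p ∈ Prs n, atT n σ p ≤ K * Real.log n := by
  obtain ⟨na, Ka, hKa, ha⟩ := at_a
  obtain ⟨nb, Kb, hKb, hb⟩ := at_b
  obtain ⟨nc, Kc, hKc, hc⟩ := at_c
  obtain ⟨Kd, hKd, hd⟩ := at_d
  set N : ℕ := na + nb + nc with hN
  set S : ℝ := ∑ m ∈ range N, (∑ p ∈ Prs m, atT m 1 p + ∑ p ∈ Prs m, atT m (-1) p) with hS
  have hterm : ∀ m : ℕ, ∀ τ : ℝ, 0 ≤ ∑ p ∈ Prs m, atT m τ p := fun m τ =>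
    Finset.sum_nonneg fun p _ => sk_atT_nonneg m τ p
  have hS0 : 0 ≤ S := Finset.sum_nonneg fun m _ => add_nonneg (hterm m 1) (hterm m (-1))
  refine ⟨3 * (Ka + Kb + Kc + Kd) + 2 * S, by positivity, fun n σ hn hσ => ?_⟩
  have hl := sk_log_half hn
  have hK : 0 < Ka + Kb + Kc + Kd := by positivity
  by_cases hnN : n < N
  · have h1 : ∑ p ∈ Prs n, atT n 1 p + ∑ p ∈ Prs n, atT n (-1) p ≤ S :=
      Finset.single_le_sum (f := fun m => ∑ p ∈ Prs m, atT m 1 p + ∑ p ∈ Prs m, atT m (-1) p)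
        (fun m _ => add_nonneg (hterm m 1) (hterm m (-1))) (Finset.mem_range.mpr hnN)
    have h2 : ∑ p ∈ Prs n, atT n σ p ≤ S := by
      rcases hσ with rfl | rfl
      · linarith [hterm n (-1)]
      · linarith [hterm n 1]
    nlinarith [mul_nonneg hS0 (sub_nonneg.mpr hl), mul_nonneg hK.le (sub_nonneg.mpr hl)]
  · have hN' : N ≤ n := not_lt.mp hnN
    have h1 := ha n σ (by omega) hσ
    have h2 := hb n σ (by omega) hσ
    have h3 := hc n σ (by omega) hσ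
    have h4 := hd n σ (by omega)
    rw [sk_split]
    have h5 : (Ka + Kb + Kc + Kd) * (1 + Real.log n) ≤ (Ka + Kb + Kc + Kd) * (3 * Real.log n) :=
      mul_le_mul_of_nonneg_left (by linarith) hK.le
    have h6 : 0 ≤ S * Real.log n := mul_nonneg hS0 (by linarith)
    nlinarith

end

end Pool.Agent.MP_9f080f_an
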