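import Pool.Agent.MP_9f080f_an.Mg.G_AF
import Pool.Agent.MP_9f080f_an.Mg.G_SK
import Pool.Agent.MP_9f080f_an.Mg.G_AI
import Pool.Agent.MP_9f080f_an.Mg.G_AL

namespace Pool.Agent.MP_9f080f_an
open Complex MeasureTheory Set Filter Topology Metric
open scoped Real

noncomputable section

/-! The smooth main term.
`fan2_A`, `fan2_B`: the `tsum` is a finite sum: `rA2 v = 0` for `v ≤ 1`, `wA (n/β²) (l/β) = cw (β (2l + β)/n)` vanishes for `l ≥ LA n β` (`shf_LA`, `cw_zero`); `wB (2n/(2c)²) (a/(2c)) = cw ((a² - c²)/n)` vanishes for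
`a ≥ LB n (2c)`; then as `shf_fanA`, `shf_fanB`.
`side1`, `side2`: copy `shf_side1`, `shf_side2`, `shf_split`, `shf_reindex` with `rA2`, `rB2` (`rAB2`, `rB2_zero`) and the extra factor `cw (β (2l + β)/n) = cw (((β + l)² - l²)/n)`, which is
`wq n β (-l)` (`cw_neg`) and `wq n β (β + l)`; `|cw| ≤ 1` for the term `(1, 0)`.
`fc_eC`: `shmult_eC`, `shmult_cusp_four`; with `v = iv 8 β`, `8 v = 1` in `ZMod β` (`iv_mul`), `8 t ≡ 3`.  `fc_rfl`: see the proof of `TwW.refl`.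
`link_sum`: only `m ≤ -1` count; put `k = -m`, `C = 8k - 3`, `|μ| = C/8`; for the `X` in the sum `X² C ≤ 2n`, so `(k, X) ∈ Prs n`, `X² ≤ n` and `(SA n).filter (· ≤ X) = (Icc 1 X).filter Odd`;
`2 √(2 |μ| n) = √(n C)`; `‖ep n‖ = 1`; for the reflected sequence take complex conjugates (`shpv_conj_ep`).
`mt2_S`: copy `shm_S` (`shm_L2`, `shm_meas`), with `fanA2` (`T = N = n`, `Λ = 3√Θ`, `GoodM.ph`, `link_sum`), `fanB2` (`T = 2n`).  `mt2`: copy `mainasm_side_eq`, `shm_int`, `shm_eq`, `shm_MT`, `MT_sharp` with `eC n β` replaced by `wq * eC`. -/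

lemma ama_tsum (f : ℤ → ℂ) (L : ℕ) (h1 : ∀ l < 0, f l = 0) (h2 : ∀ l : ℕ, L ≤ l → f l = 0) :
    ∑' l, f l = ∑ l ∈ Finset.range L, f l := by
  rw [tsum_eq_sum (s := (Finset.range L).image (Nat.cast : ℕ → ℤ)),
    Finset.sum_image fun a _ b _ h => by exact_mod_cast h]
  intro l hl
  rcases lt_or_ge l 0 with h | h
  · exact h1 l h
  · lift l to ℕ using h
    exact h2 l (not_lt.1 fun h' => hl (Finset.mem_image_of_mem _ (Finset.mem_range.2 h')))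

lemma fan2_A {n : ℕ} (hn : 1 ≤ n) (e : ℕ → ℤ → ℂ) (s : ℝ) :
    fan2 (SA n) e n (fun H v => rA2 v * wA H v) s = ∑ β ∈ (BS n).filter (fun β => β ^ 2 ≤ n),
      ∑ l ∈ Finset.range (LA n β), (rA2 (l / β) * cw (β * (2 * l + β) / n) : ℝ) *
        (e β (-l) * (√β / β ^ 2) * kk (n / β ^ 2) (s + l / β)) := by
  rw [fan2, SA]
  refine Finset.sum_congr rfl fun β hβ => ?_
  have hβ1 := (shf_BS.1 (Finset.mem_filter.1 hβ).1).1
  have h0 : (0 : ℝ) < β := by exact_mod_cast hβ1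
  have hn0 : (0 : ℝ) < n := by exact_mod_cast hn
  have hw : ∀ l : ℝ, wA (n / β ^ 2) (l / β) = cw (β * (2 * l + β) / n) := fun l => by
    rw [wA]
    congr 1
    field_simp
  rw [ama_tsum _ (LA n β), Finset.mul_sum, mainasm_pow h0]
  · refine Finset.sum_congr rfl fun a _ => ?_
    simp only [hw]
    push_cast
    ring
  · intro l hl
    have : (l : ℝ) / β ≤ 1 :=
      (div_nonpos_of_nonpos_of_nonneg (by exact_mod_cast hl.le) h0.le).trans zero_le_one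
    simp [rA2_zero this]
  · intro l hl
    have h1 : (n : ℝ) < β * (2 * l + β) := by
      exact_mod_cast not_le.1 (mt (shf_LA hβ1).2 (not_lt.2 hl))
    have h2 : cw (β * (2 * l + β) / n) = 0 :=
      cw_zero ((one_le_div hn0).2 h1.le |>.trans (le_abs_self _))
    simp [hw, h2]

lemma fan2_B {n : ℕ} (hn : 1 ≤ n) (e : ℕ → ℤ → ℂ) {s : ℝ} (hs : -1 / 2 ≤ s) :
    fan2 (SB n) e (2 * n) (fun H v => rB2 v * wB H v) s = ∑ c ∈ Finset.Icc 1 (Nat.sqrt n),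
      ∑ a ∈ Finset.range (LB n (2 * c)), (rB2 (a / (2 * c : ℕ)) * cw ((a ^ 2 - c ^ 2) / n) : ℝ) *
        (e (2 * c) (-a) * (√c / c ^ 2) * kk (n / c ^ 2) (a / c + 2 * s)) := by
  rw [fan2, SB, Finset.sum_image (fun a _ b _ h => by simpa using h)]
  refine Finset.sum_congr rfl fun c hc => ?_
  have hc0 : (0 : ℝ) < c := by exact_mod_cast (Finset.mem_Icc.1 hc).1
  have hn0 : (0 : ℝ) < n := by exact_mod_cast hn
  have hw : ∀ l : ℝ, wB (2 * n / (2 * c : ℕ) ^ 2) (l / (2 * c : ℕ)) = cw ((l ^ 2 - c ^ 2) / n) :=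
    fun l => by
      rw [wB]
      congr 1
      push_cast
      field_simp
      ring
  rw [ama_tsum _ (LB n (2 * c)), Finset.mul_sum]
  · refine Finset.sum_congr rfl fun a _ => ?_
    simp only [hw, Int.cast_natCast]
    by_cases h : (a : ℝ) / (2 * c : ℕ) ≤ 3 / 4
    · rw [rB2_zero h]; simp
    · have h1 := shf_kk (n / c ^ 2) hc0 (t := s + a / (2 * c : ℕ)) (by linarith [not_le.1 h])
      have e1 : 2 * (s + a / (2 * c : ℕ)) = a / c + 2 * s := by push_cast; field_simp; ring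
      have e2 : (n : ℝ) / c ^ 2 / 2 = 2 * n / ((2 * c : ℕ) : ℝ) ^ 2 := by push_cast; field_simp
      have e3 : (2 * c : ℝ) = ((2 * c : ℕ) : ℝ) := by push_cast; ring
      rw [e1, e2, e3] at h1
      rw [mul_assoc (e _ _)]
      push_cast at h1 ⊢
      rw [h1]
      ring
  · intro l hl
    have : (l : ℝ) / (2 * c : ℕ) ≤ 3 / 4 :=
      (div_nonpos_of_nonpos_of_nonneg (by exact_mod_cast hl.le) (Nat.cast_nonneg _)).trans
        (by norm_num)
    simp only [rB2_zero this, zero_mul, ofReal_zero, mul_zero]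
  · intro l hl
    have h0 : n + c ^ 2 < l ^ 2 := by
      rw [LB, Nat.mul_div_cancel_left c two_pos] at hl
      exact Nat.sqrt_lt'.1 hl
    have h1 : (n : ℝ) + c ^ 2 < l ^ 2 := by exact_mod_cast h0
    have h2 : cw ((l ^ 2 - c ^ 2) / n) = 0 :=
      cw_zero ((one_le_div hn0).2 (by linarith) |>.trans (le_abs_self _))
    simp only [hw, Int.cast_natCast, h2, zero_mul, ofReal_zero, mul_zero]

end

end Pool.Agent.MP_9f080f_an

namespace Pool.Agent.MP_9f080f_an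
open Complex MeasureTheory Set Filter Topology Metric
open scoped Real

noncomputable section

lemma amb_split (n : ℕ) (X : ℕ → ℕ → ℂ) :
    ∑ β ∈ BS n, ∑ l ∈ Finset.Ico 1 (LA n β), X β l =
      ∑ β ∈ (BS n).filter (fun β => β ^ 2 ≤ n), ∑ l ∈ Finset.range (LA n β), (rA2 (l / β) : ℝ) * X β l +
        ∑ β ∈ BS n, ∑ l ∈ Finset.Ico 1 (LA n β), (1 - rA2 (l / β) : ℝ) * X β l := by
  rw [Finset.sum_filter, ← Finset.sum_add_distrib]
  refine Finset.sum_congr rfl fun β _ => ?_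
  split_ifs with h
  · have h1 : 0 < LA n β := by rw [LA, if_pos h]; exact Nat.succ_pos _
    rw [Finset.range_eq_Ico, Finset.sum_eq_sum_Ico_succ_bot h1]
    have h2 : rA2 (((0 : ℕ) : ℝ) / β) = 0 := rA2_zero (by simp)
    rw [h2]
    simp only [ofReal_zero, zero_mul, zero_add]
    rw [← Finset.sum_add_distrib]
    refine Finset.sum_congr rfl fun l _ => ?_
    push_cast
    ring
  · rw [LA, if_neg h]
    simp

lemma amb_reindex (n : ℕ) (X : ℕ → ℕ → ℂ) (hX : ∀ c a, 0 < c → ¬Odd (a + c) → X c a = 0) :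
    ∑ β ∈ BS n, ∑ l ∈ Finset.Ico 1 (LA n β), (1 - rA2 (l / β) : ℝ) * X l (β + l) =
      ∑ c ∈ Finset.Icc 1 (Nat.sqrt n), ∑ a ∈ Finset.range (LB n (2 * c)),
        (rB2 (a / (2 * c : ℕ)) : ℝ) * X c a := by
  rw [Finset.sum_sigma', Finset.sum_sigma']
  have hz : ∀ c a : ℕ, 0 < c → 2 * a ≤ 3 * c → rB2 ((a : ℝ) / (2 * c : ℕ)) = 0 := by
    intro c a hc h
    have hc0 : (0 : ℝ) < c := by exact_mod_cast hc
    have h' : (2 * a : ℝ) ≤ 3 * c := by exact_mod_cast h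
    apply rB2_zero
    push_cast
    rw [div_le_iff₀ (by positivity)]
    linarith
  refine Finset.sum_bij_ne_zero (fun p _ _ => ⟨p.2, p.1 + p.2⟩) ?_ ?_ ?_ ?_
  · rintro ⟨β, l⟩ hp hne
    obtain ⟨h1, h2⟩ := Finset.mem_sigma.1 hp
    obtain ⟨h3, -, -⟩ := shf_BS.1 h1
    obtain ⟨h4, h5⟩ := Finset.mem_Ico.1 h2
    rw [shf_LA h3] at h5
    dsimp only at *
    have h6 : l < 2 * β := by
      by_contra h7
      apply hne
      rw [rAB2 h3 h4, hz l (β + l) h4 (by omega)]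
      simp
    refine Finset.mem_sigma.2 ⟨Finset.mem_Icc.2 ⟨h4, Nat.le_sqrt'.2 (by nlinarith)⟩,
      Finset.mem_range.2 ?_⟩
    dsimp only
    rw [LB, Nat.lt_succ_iff, Nat.le_sqrt', Nat.mul_div_cancel_left _ two_pos]
    nlinarith
  · rintro ⟨β, l⟩ _ _ ⟨β', l'⟩ _ _ h
    simp only [Sigma.mk.injEq, heq_eq_eq] at h ⊢
    omega
  · rintro ⟨c, a⟩ hp hne
    obtain ⟨h1, h2⟩ := Finset.mem_sigma.1 hp
    obtain ⟨h3, -⟩ := Finset.mem_Icc.1 h1
    dsimp only at *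
    rw [Finset.mem_range, LB, Nat.lt_succ_iff, Nat.le_sqrt', Nat.mul_div_cancel_left _ two_pos] at h2
    have h4 : 3 * c < 2 * a := by
      by_contra h7
      apply hne
      rw [hz c a h3 (by omega)]
      simp
    have h5 : Odd (a + c) := by
      by_contra h7
      apply hne
      rw [hX c a h3 h7, mul_zero]
    obtain ⟨β, rfl⟩ : ∃ β, a = β + c := ⟨a - c, by omega⟩
    have h6 : 1 ≤ β := by omega
    have h7 : β * (2 * c + β) ≤ n := by nlinarith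
    have h8 : Odd β := by
      obtain ⟨k, hk⟩ := h5
      exact ⟨k - c, by omega⟩
    refine ⟨⟨β, c⟩, Finset.mem_sigma.2 ⟨shf_BS.2 ⟨h6, by nlinarith, h8⟩,
      Finset.mem_Ico.2 ⟨h3, (shf_LA h6).2 h7⟩⟩, ?_, rfl⟩
    dsimp only
    rwa [rAB2 h6 h3]
  · rintro ⟨β, l⟩ hp _
    obtain ⟨h1, h2⟩ := Finset.mem_sigma.1 hp
    dsimp only at *
    rw [rAB2 (shf_BS.1 h1).1 (Finset.mem_Ico.1 h2).1]

lemma amb_pos {c a : ℕ} (hc : 0 < c) {ζ : ℝ} (hζ : 0 < ζ) (h : rB2 (a / (2 * c : ℕ)) ≠ 0) :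
    0 < (a : ℝ) / c - (1 - 1 / ζ) := by
  have hc0 : (0 : ℝ) < c := by exact_mod_cast hc
  have h1 : ¬(a : ℝ) / (2 * c : ℕ) ≤ 3 / 4 := fun h1 => h (rB2_zero h1)
  have h2 : (a : ℝ) / (2 * c : ℕ) = a / c / 2 := by push_cast; field_simp
  have h3 : 0 < 1 / ζ := by positivity
  rw [h2] at h1
  linarith [not_le.1 h1]

lemma amb_wq1 (n β l : ℕ) : wq n β (-l) = cw (β * (2 * l + β) / n) := by
  rw [wq, ← cw_neg]
  congr 1
  push_cast
  ring

lemma amb_wq2 (n β l : ℕ) : wq n β (β + l : ℕ) = cw (β * (2 * l + β) / n) := by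
  rw [wq]
  congr 1
  push_cast
  ring

lemma amb_cw (n β l : ℕ) :
    cw ((((β + l : ℕ) : ℝ) ^ 2 - l ^ 2) / n) = cw (β * (2 * l + β) / n) := by
  congr 1
  push_cast
  ring

theorem side1 {n : ℕ} (hn : 1 ≤ n) {s : ℝ} (hs : 0 < s) :
    ‖shS2 n 1 s‖ ≤ wt 1 * (s + 1 / 2) ^ (-3 / 2 : ℝ) +
      ‖fan2 (SA n) (eC n) n (fun H v => rA2 v * wA H v) (s + 1 / 2)‖ +
      (s + 1 / 2) ^ (-3 / 2 : ℝ) * ‖fan2 (SB n) (fun P => rfl' (eT n (P / 2))) (2 * n)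
        (fun H v => rB2 v * wB H v) ((1 / (s + 1 / 2) - 1) / 2)‖ := by
  set ζ := s + 1 / 2 with hζ
  have hζ0 : 0 < ζ := by linarith
  have hζ1 : (ζ : ℂ) ≠ 0 := by exact_mod_cast hζ0.ne'
  set X : ℕ → ℕ → ℂ := fun β l => (cw (β * (2 * l + β) / n) : ℝ) *
    (eC n β (-l) * (√β / β ^ 2) * kc (n / β ^ 2) ((ζ + l / β : ℝ) : ℂ)) with hX
  have e1 : shS2 n 1 s = X 1 0 + ∑ β ∈ BS n, ∑ l ∈ Finset.Ico 1 (LA n β), X β l := by
    have a1 : X 1 0 = ∑ β ∈ BS n, if β ^ 2 ≤ n then X β 0 else 0 := by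
      rw [Finset.sum_eq_single 1, if_pos (by simpa using hn)]
      · intro β hβ h1
        split_ifs
        · rw [hX]
          dsimp only
          rw [(eC_spec n (shf_BS.1 hβ).2.2).2.1 _
            (by simpa [isCoprime_zero_left, Int.isUnit_iff_natAbs_eq] using h1)]
          simp
        · rfl
      · intro h; exact absurd (shf_BS.2 ⟨le_rfl, hn, odd_one⟩) h
    rw [a1, ← Finset.sum_add_distrib, shS2]
    refine Finset.sum_congr rfl fun β hβ => ?_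
    rw [mainasmS, shf_Q1 (shf_BS.1 hβ).1, Finset.sum_image (fun a _ b _ h => by simpa using h),
      Finset.mul_sum]
    have a2 : ∀ l : ℕ, (√β / β ^ 2 : ℂ) * (wq n β (-l) * eC n β (-l) * kc (n / β ^ 2)
        (((1 / 2 : ℝ) : ℂ) + (1 : ℝ) * s - ((((-(l : ℤ) : ℤ) : ℝ) / β : ℝ) : ℂ))) = X β l := fun l => by
      have a3 : ((1 / 2 : ℝ) : ℂ) + (1 : ℝ) * s - ((((-(l : ℤ) : ℤ) : ℝ) / β : ℝ) : ℂ) =
          ((ζ + l / β : ℝ) : ℂ) := by
        rw [hζ]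
        push_cast
        ring
      rw [hX, a3, amb_wq1]
      ring
    simp only [a2]
    split_ifs with h
    · rw [Finset.range_eq_Ico, Finset.sum_eq_sum_Ico_succ_bot (by
        rw [LA, if_pos h]; exact Nat.succ_pos _)]
    · rw [LA, if_neg h]
      simp
  have e2 : ∑ β ∈ (BS n).filter (fun β => β ^ 2 ≤ n), ∑ l ∈ Finset.range (LA n β),
      (rA2 (l / β) : ℝ) * X β l = rt 1 * fan2 (SA n) (eC n) n (fun H v => rA2 v * wA H v) ζ := by
    rw [fan2_A hn, Finset.mul_sum]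
    refine Finset.sum_congr rfl fun β _ => ?_
    rw [Finset.mul_sum]
    refine Finset.sum_congr rfl fun l _ => ?_
    rw [hX]
    dsimp only
    rw [mainasm_kc_pos _ (by positivity), ofReal_mul (rA2 _)]
    ring
  have e3 : ∑ β ∈ BS n, ∑ l ∈ Finset.Ico 1 (LA n β), (1 - rA2 (l / β) : ℝ) * X β l =
      rt ζ / ζ ^ 2 * rt (-1) * (starRingEnd ℂ) (fan2 (SB n) (fun P => rfl' (eT n (P / 2))) (2 * n)
        (fun H v => rB2 v * wB H v) ((1 / ζ - 1) / 2)) := by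
    have a1 := amb_reindex n (fun c a => (cw ((a ^ 2 - c ^ 2) / n) : ℝ) * (eT n c a * (√c / c ^ 2) *
      kc (n / c ^ 2) (-((a / c - (1 - 1 / ζ) : ℝ) : ℂ)) * rt ζ / ζ ^ 2)) (fun c a hc h => by
        rw [(eT_spec n hc).2.1 _ (fun h' => h (by exact_mod_cast h'.2))]; simp)
    rw [fan2_B hn _ (by have : 0 < 1 / ζ := by positivity
                        linarith), map_sum, Finset.mul_sum]
    refine Eq.trans (Finset.sum_congr rfl fun β hβ => Finset.sum_congr rfl fun l hl => ?_)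
      (a1.trans (Finset.sum_congr rfl fun c hc => ?_))
    · rw [← shf_E1 n (shf_BS.1 hβ).2.2 (Finset.mem_Ico.1 hl).1 hζ0, hX,
        mul_div_cancel_right₀ _ (pow_ne_zero _ hζ1), amb_cw]
    · rw [map_sum, Finset.mul_sum]
      refine Finset.sum_congr rfl fun a _ => ?_
      by_cases h : rB2 (a / (2 * c : ℕ)) = 0
      · rw [h]; simp
      · rw [mainasm_kc_neg _ (amb_pos (Finset.mem_Icc.1 hc).1 hζ0 h), rfl',
          Nat.mul_div_cancel_left _ two_pos, neg_neg,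
          show (a : ℝ) / c + 2 * ((1 / ζ - 1) / 2) = a / c - (1 - 1 / ζ) by ring,
          ofReal_mul (rB2 _)]
        simp only [map_mul, map_div₀, map_pow, conj_ofReal, conj_natCast, conj_conj]
        ring
  rw [e1, amb_split, e2, e3, ← add_assoc]
  refine norm_add_le_of_le (norm_add_le_of_le ?_ ?_) ?_
  · have a1 := (eC_spec n odd_one).1.four 0
    simp only [Finset.range_one, Finset.sum_singleton, Nat.cast_zero, mul_zero, zero_div, ep_zero,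
      mul_one, Nat.cast_one, Real.sqrt_one] at a1
    rw [hX]
    dsimp only
    rw [norm_mul, norm_real, Real.norm_of_nonneg (cw_mem _).1]
    refine (mul_le_of_le_one_left (norm_nonneg _) (cw_mem _).2).trans ?_
    rw [norm_mul, norm_mul, mainasm_norm_kc _ (by simpa using hζ0.ne')]
    simp only [Nat.cast_zero, neg_zero, Nat.cast_one, Real.sqrt_one, ofReal_one, one_pow, div_one,
      norm_one, mul_one, add_zero, abs_of_pos hζ0]
    gcongr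
  · rw [norm_mul, shf_norm_rt1, one_mul]
  · rw [norm_mul, norm_mul, shf_norm_rt2, mul_one, RCLike.norm_conj, norm_div, norm_rt, norm_pow,
      norm_real, Real.norm_of_nonneg hζ0.le, mainasm_pow hζ0]

theorem side2 {n : ℕ} (hn : 1 ≤ n) {s : ℝ} (hs : 0 < s) :
    ‖shS2 n (-1) s‖ ≤ ‖fan2 (SA n) (fun β => rfl' (eC n β)) n (fun H v => rA2 v * wA H v) (s + 1 / 2)‖ +
      (s + 1 / 2) ^ (-3 / 2 : ℝ) * ‖fan2 (SB n) (fun P => eT n (P / 2)) (2 * n)
        (fun H v => rB2 v * wB H v) ((1 / (s + 1 / 2) - 1) / 2)‖ := by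
  set ζ := s + 1 / 2 with hζ
  have hζ0 : 0 < ζ := by linarith
  have hζ1 : (ζ : ℂ) ≠ 0 := by exact_mod_cast hζ0.ne'
  set X : ℕ → ℕ → ℂ := fun β l => (cw (β * (2 * l + β) / n) : ℝ) *
    (eC n β (β + l : ℕ) * (√β / β ^ 2) * kc (n / β ^ 2) (-((ζ + l / β : ℝ) : ℂ))) with hX
  have e1 : shS2 n (-1) s = ∑ β ∈ BS n, ∑ l ∈ Finset.Ico 1 (LA n β), X β l := by
    refine Finset.sum_congr rfl fun β hβ => ?_
    have h0 : (β : ℂ) ≠ 0 := by exact_mod_cast (shf_BS.1 hβ).2.2.pos.ne'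
    rw [mainasmS, shf_Q2 (shf_BS.1 hβ).1, Finset.sum_image (fun a _ b _ h => by simpa using h),
      Finset.mul_sum]
    refine Finset.sum_congr rfl fun l _ => ?_
    have a3 : ((1 / 2 : ℝ) : ℂ) + (-1 : ℝ) * s - ((((((β + l : ℕ) : ℤ) : ℝ) / β : ℝ)) : ℂ) =
        -((ζ + l / β : ℝ) : ℂ) := by
      rw [hζ]
      push_cast
      field_simp
      ring
    rw [hX, a3, amb_wq2]
    ring
  have e2 : ∑ β ∈ (BS n).filter (fun β => β ^ 2 ≤ n), ∑ l ∈ Finset.range (LA n β),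
      (rA2 (l / β) : ℝ) * X β l = ep (2 * (3 / 8 : ℝ)) * rt (-1) *
        (starRingEnd ℂ) (fan2 (SA n) (fun β => rfl' (eC n β)) n (fun H v => rA2 v * wA H v) ζ) := by
    rw [fan2_A hn, map_sum, Finset.mul_sum]
    refine Finset.sum_congr rfl fun β hβ => ?_
    rw [map_sum, Finset.mul_sum]
    refine Finset.sum_congr rfl fun l _ => ?_
    have a1 := (eC_spec n (shf_BS.1 (Finset.mem_filter.1 hβ).1).2.2).1.per l
    rw [hX]
    dsimp only
    rw [mainasm_kc_neg _ (by positivity), rfl', neg_neg, show ((β + l : ℕ) : ℤ) = l + β by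
      push_cast; ring, a1, ofReal_mul (rA2 _)]
    simp only [map_mul, map_div₀, map_pow, conj_ofReal, conj_natCast, conj_conj]
    ring
  have e3 : ∑ β ∈ BS n, ∑ l ∈ Finset.Ico 1 (LA n β), (1 - rA2 (l / β) : ℝ) * X β l =
      -(ep (-(1 / 4)) * (rt (-ζ) / ζ ^ 2) * rt 1) * fan2 (SB n) (fun P => eT n (P / 2)) (2 * n)
        (fun H v => rB2 v * wB H v) ((1 / ζ - 1) / 2) := by
    have a1 := amb_reindex n (fun c a => (cw ((a ^ 2 - c ^ 2) / n) : ℝ) *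
      (-(eT n c (-a) * (√c / c ^ 2) *
      kc (n / c ^ 2) ((a / c - (1 - 1 / ζ) : ℝ) : ℂ) * (ep (-(1 / 4)) * rt (-ζ))) / ζ ^ 2))
      (fun c a hc h => by
        rw [(eT_spec n hc).2.1 _ (fun h' => h (by
          obtain ⟨k, hk⟩ := h'.2
          have : Odd ((a + c : ℕ) : ℤ) := ⟨k + a, by push_cast; linarith⟩
          exact_mod_cast this))]
        simp)
    rw [fan2_B hn _ (by have : 0 < 1 / ζ := by positivity
                        linarith), Finset.mul_sum]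
    refine Eq.trans (Finset.sum_congr rfl fun β hβ => Finset.sum_congr rfl fun l hl => ?_)
      (a1.trans (Finset.sum_congr rfl fun c hc => ?_))
    · rw [← shf_E2 n (shf_BS.1 hβ).2.2 (Finset.mem_Ico.1 hl).1 hζ0, hX,
        mul_div_cancel_right₀ _ (pow_ne_zero _ hζ1), amb_cw]
    · rw [Finset.mul_sum]
      refine Finset.sum_congr rfl fun a _ => ?_
      by_cases h : rB2 (a / (2 * c : ℕ)) = 0
      · rw [h]; simp
      · rw [mainasm_kc_pos _ (amb_pos (Finset.mem_Icc.1 hc).1 hζ0 h),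
          Nat.mul_div_cancel_left _ two_pos,
          show (a : ℝ) / c + 2 * ((1 / ζ - 1) / 2) = a / c - (1 - 1 / ζ) by ring,
          ofReal_mul (rB2 _)]
        ring
  rw [e1, amb_split, e2, e3]
  have n1 := norm_ep_real (2 * (3 / 8))
  have n2 := norm_ep_real (-(1 / 4))
  push_cast at n1 n2
  refine norm_add_le_of_le ?_ ?_
  · rw [norm_mul, norm_mul, shf_norm_rt2, RCLike.norm_conj]
    push_cast
    rw [n1, one_mul, one_mul]
  · rw [norm_mul, norm_neg, norm_mul, norm_mul, shf_norm_rt1, n2, mul_one, one_mul, norm_div,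
      norm_rt, norm_neg, norm_pow, norm_real, Real.norm_of_nonneg hζ0.le, mainasm_pow hζ0]

end

end Pool.Agent.MP_9f080f_an

namespace Pool.Agent.MP_9f080f_an
open Complex MeasureTheory Set Filter Topology Metric
open scoped Real

noncomputable section

theorem fc_eC (n : ℕ) {β : ℕ} (hβ : Odd β) (m : ℤ) :
    fc (eC n β) β m = ep n * sal β (iv 8 β) n (-8 * m - 3) := by
  have hc : 0 < β := hβ.pos
  have : NeZero β := ⟨hc.ne'⟩
  obtain ⟨j, hj⟩ : Odd (β : ℤ) := by exact_mod_cast hβ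
  obtain ⟨t, ht⟩ := mult_even_sq j
  have key := shmult_cusp_four n β hj ht m
  have h2 := shmult_two hβ
  have h8 : ((iv 8 β : ℤ) : ZMod β) = 2⁻¹ ^ 3 := by
    rw [iv, Int.cast_natCast, ZMod.natCast_zmod_val, ← shmult_inv hβ]
    congr 1
    push_cast
    norm_num
  have h3 : (8 : ZMod β) * t = 3 := by
    have h4 : 8 * t = 3 + (β - 4) * β := by rw [hj]; linear_combination (-4) * ht
    have h5 := congrArg (Int.cast : ℤ → ZMod β) h4
    simpa using h5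
  have e1 : ((iv 8 β * (-4) : ℤ) : ZMod β) = -2⁻¹ := by
    push_cast
    rw [h8]
    linear_combination (-(2 : ZMod β)⁻¹ * (2⁻¹ * 2 + 1)) * h2
  have e2 : ((iv 8 β * (4 * n) : ℤ) : ZMod β) = n * 2⁻¹ := by
    push_cast
    rw [h8]
    linear_combination ((n : ZMod β) * 2⁻¹ * (2⁻¹ * 2 + 1)) * h2
  have e3 : ((iv 8 β * (-8 * m - 3) : ℤ) : ZMod β) = -(t + m) := by
    push_cast
    rw [h8]
    linear_combination (-((t : ZMod β) + m) * ((2⁻¹ * 2) ^ 2 + 2⁻¹ * 2 + 1)) * h2 +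
      (2 : ZMod β)⁻¹ ^ 3 * h3
  rw [fc, sal, dif_neg hc.ne', e1, e2, e3, ← key]
  simp_rw [shmult_eC n hβ]
  have h0 : (0 : ℝ) < β := by exact_mod_cast hc
  have hs : ((√β : ℝ) : ℂ) ≠ 0 := by exact_mod_cast (Real.sqrt_pos.2 h0).ne'
  have hss : (β : ℂ) = ((√β : ℝ) : ℂ) * ((√β : ℝ) : ℂ) := by
    rw [← ofReal_mul, Real.mul_self_sqrt h0.le, ofReal_natCast]
  have hn := ep_ne n
  generalize ∑ a ∈ Finset.range β, multC n β a * ep (-2 * (m + (3 / 8 : ℝ)) * a / β) = S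
  rw [hss]
  field_simp

theorem fc_rfl {e : ℤ → ℂ} {P : ℕ} {W : ℤ → ℝ} (h : TwW e P (3 / 8) W) (m : ℤ) :
    fc (rfl' e) P m = (starRingEnd ℂ) (fc e P m) := by
  rcases Nat.eq_zero_or_pos P with rfl | hP
  · simp [fc]
  have hP' : (P : ℂ) ≠ 0 := by exact_mod_cast hP.ne'
  obtain ⟨κ, hκ⟩ : ∃ κ : ℝ, κ = 3 / 8 := ⟨_, rfl⟩
  rw [fc, fc]
  rw [← hκ] at h ⊢
  let g : ℤ → ℂ := fun a => e a * ep (-2 * (m + κ) * a / P)
  have hg : ∀ a, g (a + P) = g a := by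
    intro a
    have e1 : (-2 * (m + κ) * ((a + P : ℤ) : ℂ) / P : ℂ)
        = -2 * (m + κ) * a / P + (2 * ((-m : ℤ) : ℂ) + -(2 * κ)) := by
      push_cast
      field_simp
      ring
    simp only [g]
    rw [h.per, e1, ep_add, ep_add, ep_two_int, ep_neg]
    have := ep_ne (2 * κ)
    field_simp
  have e1 : ∑ a ∈ Finset.range P, rfl' e a * ep (-2 * (m + κ) * a / P)
      = (starRingEnd ℂ) (∑ a ∈ Finset.range P, g (-(a : ℤ))) := by
    rw [map_sum]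
    refine Finset.sum_congr rfl fun a _ => ?_
    have h2 := shpv_conj_ep (-2 * (m + κ) * (-a) / P)
    push_cast at h2
    simp only [g, map_mul, rfl']
    push_cast
    rw [h2]
    congr 2
    ring
  have e2 : ∑ a ∈ Finset.range P, g (-(a : ℤ)) = ∑ a ∈ Finset.range P, g a := by
    have e3 : ∑ a ∈ Finset.range P, g (-(a : ℤ)) = ∑ a ∈ Finset.range P, g ((a + 1 : ℕ) : ℤ) := by
      rw [← Finset.sum_range_reflect (fun a => g ((a + 1 : ℕ) : ℤ)) P]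
      refine Finset.sum_congr rfl fun a ha => ?_
      rw [← hg]
      congr 1
      have := Finset.mem_range.1 ha
      omega
    have e4 := Finset.sum_range_succ (fun a : ℕ => g a) P
    have e5 := Finset.sum_range_succ' (fun a : ℕ => g a) P
    have e6 := hg 0
    rw [zero_add] at e6
    simp only [Nat.cast_zero] at e5
    rw [e3]
    linear_combination e4 - e5 + e6
  rw [e1, e2, map_div₀, conj_ofReal]
  simp only [g, Int.cast_natCast]

theorem amc_atT_nonneg (n : ℕ) (σ : ℝ) (p : ℕ × ℕ) : 0 ≤ atT n σ p := by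
  unfold atT
  positivity

theorem amc_filter {n X : ℕ} (hX : X ^ 2 ≤ n) :
    (SA n).filter (· ≤ X) = (Finset.Icc 1 X).filter Odd := by
  ext P
  simp only [SA, Finset.mem_filter, shf_BS, Finset.mem_Icc]
  constructor
  · rintro ⟨⟨⟨a, -, b⟩, -⟩, c⟩
    exact ⟨⟨a, c⟩, b⟩
  · rintro ⟨⟨a, c⟩, b⟩
    have h1 : P ^ 2 ≤ n := (Nat.pow_le_pow_left c 2).trans hX
    exact ⟨⟨⟨a, le_trans (by nlinarith) h1, b⟩, h1⟩, c⟩

theorem amc_link {n : ℕ} (hn : 1 ≤ n) (t : Finset ℤ) (c : ℤ → ℕ → ℂ) (σ : ℝ)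
    (hc : ∀ k X : ℕ, 1 ≤ k → ‖∑ P ∈ (Finset.Icc 1 X).filter Odd,
      c (-k) P * ep ((√(n * (8 * k - 3 : ℕ)) / P : ℝ) : ℂ)‖ = ‖Aw n (8 * k - 3) σ X‖) :
    ∑ m ∈ t, Arm (SA n) (c m) n (m + 3 / 8) n ≤ 8 * ∑ p ∈ Prs n, atT n σ p := by
  have h1 : ∀ m : ℤ, Arm (SA n) (c m) n (m + 3 / 8) n ≤
      8 * ∑ p ∈ (Prs n).filter (fun p => -(p.1 : ℤ) = m), atT n σ p := by
    intro m
    have hR : 0 ≤ 8 * ∑ p ∈ (Prs n).filter (fun p => -(p.1 : ℤ) = m), atT n σ p :=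
      mul_nonneg (by norm_num) (Finset.sum_nonneg fun p _ => amc_atT_nonneg n σ p)
    rw [Arm]
    split_ifs with hμ
    swap
    · exact hR
    have hm : m < 0 := by
      have : (m : ℝ) < 0 := by linarith
      exact_mod_cast this
    obtain ⟨k, rfl⟩ : ∃ k : ℕ, m = -(k : ℤ) := ⟨(-m).toNat, by omega⟩
    have hk : 1 ≤ k := by omega
    have hC : ((8 * k - 3 : ℕ) : ℝ) = 8 * k - 3 := by
      rw [Nat.cast_sub (by omega)]; push_cast; ring
    have hC0 : (0 : ℝ) < (8 * k - 3 : ℕ) := by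
      have : 0 < 8 * k - 3 := by omega
      exact_mod_cast this
    have hab : |((-(k : ℤ) : ℤ) : ℝ) + 3 / 8| = (8 * k - 3 : ℕ) / 8 := by
      rw [abs_of_neg hμ, hC]; push_cast; ring
    have hsq : 2 * √(2 * (((8 * k - 3 : ℕ) : ℝ) / 8) * n) = √(n * (8 * k - 3 : ℕ)) := by
      rw [show (n : ℝ) * (8 * k - 3 : ℕ) = 2 ^ 2 * (2 * (((8 * k - 3 : ℕ) : ℝ) / 8) * n) by ring,
        Real.sqrt_mul (x := 2 ^ 2) (by norm_num), Real.sqrt_sq (by norm_num)]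
    rw [hab, hsq]
    set F := (Finset.Icc 1 n).filter
      (fun X : ℕ => 9 * (X : ℝ) ^ 2 * (((8 * k - 3 : ℕ) : ℝ) / 8) ≤ 2 * n) with hF
    have hX : ∀ X ∈ F, X ^ 2 * (8 * k - 3) ≤ 2 * n := by
      intro X hX
      have a := (Finset.mem_filter.1 hX).2
      have b : (0 : ℝ) ≤ (X : ℝ) ^ 2 * (8 * k - 3 : ℕ) := by positivity
      have : (X : ℝ) ^ 2 * (8 * k - 3 : ℕ) ≤ 2 * n := by linarith
      exact_mod_cast this
    calc _ = 8 * ∑ X ∈ F, atT n σ (k, X) := by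
          rw [Finset.mul_sum, Finset.mul_sum]
          refine Finset.sum_congr rfl fun X hXF => ?_
          have a := hX X hXF
          have b : X ^ 2 * 2 ≤ X ^ 2 * (8 * k - 3) := Nat.mul_le_mul_left _ (by omega)
          rw [amc_filter (by omega), hc k X hk, atT]
          have hX0 : (X : ℝ) ≠ 0 := by
            have := (Finset.mem_Icc.1 (Finset.mem_filter.1 hXF).1).1
            positivity
          field_simp
      _ = 8 * ∑ p ∈ F.image (fun X => (k, X)), atT n σ p := by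
          rw [Finset.sum_image fun a _ b _ h => (Prod.ext_iff.1 h).2]
      _ ≤ _ := by
          refine mul_le_mul_of_nonneg_left (Finset.sum_le_sum_of_subset_of_nonneg ?_
            fun p _ _ => amc_atT_nonneg n σ p) (by norm_num)
          intro p hp
          obtain ⟨X, hXF, rfl⟩ := Finset.mem_image.1 hp
          have a := hX X hXF
          have b := (Finset.mem_filter.1 hXF).1
          have d : 1 * (8 * k - 3) ≤ X ^ 2 * (8 * k - 3) :=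
            Nat.mul_le_mul_right _ (Nat.one_le_pow _ _ (Finset.mem_Icc.1 b).1)
          refine Finset.mem_filter.2 ⟨Finset.mem_filter.2
            ⟨Finset.mem_product.2 ⟨Finset.mem_Icc.2 ⟨hk, ?_⟩, b⟩, a⟩, rfl⟩
          show k ≤ n
          omega
  refine (Finset.sum_le_sum fun m _ => h1 m).trans ?_
  rw [← Finset.mul_sum, Finset.sum_fiberwise_eq_sum_filter]
  exact mul_le_mul_of_nonneg_left (Finset.sum_le_sum_of_subset_of_nonneg (Finset.filter_subset _ _)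
    fun p _ _ => amc_atT_nonneg n σ p) (by norm_num)

theorem link_sum {n : ℕ} (hn : 1 ≤ n) (t : Finset ℤ) :
    ∑ m ∈ t, Arm (SA n) (fun β => fc (eC n β) β m) n (m + 3 / 8) n ≤ 8 * ∑ p ∈ Prs n, atT n 1 p ∧
    ∑ m ∈ t, Arm (SA n) (fun β => fc (rfl' (eC n β)) β m) n (m + 3 / 8) n ≤
      8 * ∑ p ∈ Prs n, atT n (-1) p := by
  have hn1 : ‖ep n‖ = 1 := by simpa using norm_ep_real n
  have hfc : ∀ k P : ℕ, 1 ≤ k → Odd P →
      fc (eC n P) P (-k) = ep n * sal P (iv 8 P) n ((8 * k - 3 : ℕ) : ℤ) := by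
    intro k P hk hP
    rw [fc_eC n hP, show (-8 * -(k : ℤ) - 3 : ℤ) = ((8 * k - 3 : ℕ) : ℤ) by omega]
  have hz : ∀ z : ℂ, ‖z‖ = ‖ep n * z‖ := fun z => by rw [norm_mul, hn1, one_mul]
  constructor
  · refine amc_link hn t (fun m β => fc (eC n β) β m) 1 fun k X hk => ?_
    rw [hz (Aw _ _ _ _), Aw, Finset.mul_sum]
    congr 1
    refine Finset.sum_congr rfl fun P hP => ?_
    rw [hfc k P hk (Finset.mem_filter.1 hP).2, one_mul, mul_assoc]
  · refine amc_link hn t (fun m β => fc (rfl' (eC n β)) β m) (-1) fun k X hk => ?_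
    rw [hz (Aw _ _ _ _), Aw, Finset.mul_sum, ← RCLike.norm_conj, map_sum]
    congr 1
    refine Finset.sum_congr rfl fun P hP => ?_
    have hP' := (Finset.mem_filter.1 hP).2
    rw [fc_rfl (eC_twW n hP'), map_mul, conj_conj, shpv_conj_ep, hfc k P hk hP', mul_assoc]
    congr 3
    push_cast
    ring

end

end Pool.Agent.MP_9f080f_an

namespace Pool.Agent.MP_9f080f_an
open Complex MeasureTheory Set Filter Topology Metric
open scoped Real

noncomputable section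

lemma am_meas (n : ℕ) (σ : ℝ) : Measurable (shS2 n σ) := by
  have h : ∀ H : ℝ, Measurable (kc H) := fun H => by
    have h1 : Measurable rt := by unfold rt; fun_prop
    have h2 := continuous_ep.measurable
    unfold kc
    fun_prop
  unfold shS2 mainasmS
  fun_prop

theorem mt2_S : ∃ C : ℝ, 0 < C ∧ ∀ (n L : ℕ) (Θ σ : ℝ), 1 ≤ n → 4 * n ≤ 4 ^ L → 4 ^ L ≤ 64 * n → 1 ≤ Θ →
    GoodM (Wf F1 n) L Θ → GoodM (WB n) L Θ → (σ = 1 ∨ σ = -1) → ∑ p ∈ Prs n, atT n σ p ≤ Θ →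
    IntegrableOn (fun s : ℝ => ‖shS2 n σ s‖ ^ 2 * (1 + (s + 1 / 2))) (Ioi 0) ∧
      ∫ s in Ioi (0 : ℝ), ‖shS2 n σ s‖ ^ 2 * (1 + (s + 1 / 2)) ≤ C * Θ := by
  obtain ⟨CA, pA, hA⟩ := fanA2
  obtain ⟨CB, pB, hB⟩ := fanB2
  refine ⟨18 * wt 1 ^ 2 + 51 * CA + 18 * CB, by positivity,
    fun n L Θ σ hn h1 h2 hΘ g1 g2 hσ hat => ?_⟩
  have h1' : (4 * n : ℝ) ≤ 4 ^ L := by exact_mod_cast h1
  have h2' : (4 : ℝ) ^ L ≤ 64 * n := by exact_mod_cast h2
  have hn' : (1 : ℝ) ≤ n := by exact_mod_cast hn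
  have h4 : 4 ^ L = (2 ^ L) ^ 2 := by rw [← pow_mul, mul_comm, pow_mul]; norm_num
  have sA : SA n ⊆ Finset.Icc 1 (2 ^ (L + 3)) := fun β hβ => by
    obtain ⟨a1, a2⟩ := Finset.mem_filter.1 hβ
    refine Finset.mem_Icc.2 ⟨(shf_BS.1 a1).1, le_trans ?_ (Nat.pow_le_pow_right two_pos (Nat.le_add_right L 3))⟩
    exact (Nat.pow_le_pow_iff_left two_ne_zero).1 (by omega)
  have mB : ∀ P ∈ SB n, ∃ c, 1 ≤ c ∧ c ^ 2 ≤ n ∧ P = 2 * c := fun P hP => by
    obtain ⟨c, a1, rfl⟩ := Finset.mem_image.1 hP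
    exact ⟨c, (Finset.mem_Icc.1 a1).1, Nat.le_sqrt'.1 (Finset.mem_Icc.1 a1).2, rfl⟩
  have sB : SB n ⊆ Finset.Icc 1 (2 ^ L) := fun P hP => by
    obtain ⟨c, a1, a2, rfl⟩ := mB P hP
    refine Finset.mem_Icc.2 ⟨by omega, ?_⟩
    exact (Nat.pow_le_pow_iff_left two_ne_zero).1 (by rw [mul_pow]; omega)
  have oA : ∀ β ∈ SA n, Odd β := fun β hβ => (shf_BS.1 (Finset.mem_filter.1 hβ).1).2.2
  have lA : ∀ β ∈ SA n, (β : ℝ) ^ 2 ≤ n := fun β hβ => by
    exact_mod_cast (Finset.mem_filter.1 hβ).2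
  have lB : ∀ P ∈ SB n, (P : ℝ) ^ 2 ≤ 2 * (2 * n) := fun P hP => by
    obtain ⟨c, -, a2, rfl⟩ := mB P hP
    have a3 : (c : ℝ) ^ 2 ≤ n := by exact_mod_cast a2
    push_cast
    linarith
  have tB : ∀ P ∈ SB n, 0 < P ∧ TwW (eT n (P / 2)) P 0 (WB n P) := fun P hP => by
    obtain ⟨c, a1, -, rfl⟩ := mB P hP
    rw [Nat.mul_div_cancel_left _ two_pos]
    exact ⟨by omega, eT_twW n a1⟩
  have hs : 1 ≤ √Θ := Real.one_le_sqrt.2 hΘ
  have hq : (3 * √Θ) ^ 2 + 8 * Θ = 17 * Θ := by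
    rw [mul_pow, Real.sq_sqrt (by linarith)]; ring
  have hN : (n : ℝ) ≤ (n : ℝ) ^ 2 := by nlinarith
  have fin : ∀ w : ℝ, w ^ 2 ≤ wt 1 ^ 2 →
      18 * w ^ 2 + 3 * (CA * ((3 * √Θ) ^ 2 + 8 * Θ)) + 18 * (CB * Θ) ≤
      (18 * wt 1 ^ 2 + 51 * CA + 18 * CB) * Θ := fun w hw => by
    rw [hq]; nlinarith [sq_nonneg (wt 1)]
  rcases hσ with rfl | rfl
  · obtain ⟨a1, a2⟩ := hA _ (eC n) _ _ n (3 * √Θ) (8 * Θ) n g1.ph (by linarith) sA
      (fun β hβ => ⟨lA β hβ, eC_twW n (oA β hβ)⟩) (by linarith) hN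
      (fun t => (link_sum hn t).1.trans (by linarith))
    obtain ⟨b1, b2⟩ := hB _ (fun P => rfl' (eT n (P / 2))) _ L Θ (2 * n) g2 hΘ sB (by linarith)
      (by linarith) (fun P hP => ⟨lB P hP, (tB P hP).2.refl (tB P hP).1⟩)
    obtain ⟨k1, k2⟩ := shm_L2 (am_meas n 1) (fun s hs => side1 hn hs) a1 a2 b1 b2
    exact ⟨k1, k2.trans (fin _ le_rfl)⟩
  · obtain ⟨a1, a2⟩ := hA _ (fun β => rfl' (eC n β)) _ _ n (3 * √Θ) (8 * Θ) n g1.ph (by linarith) sA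
      (fun β hβ => ⟨lA β hβ, (eC_twW n (oA β hβ)).refl (oA β hβ).pos⟩) (by linarith) hN
      (fun t => (link_sum hn t).2.trans (by linarith))
    obtain ⟨b1, b2⟩ := hB _ (fun P => eT n (P / 2)) _ L Θ (2 * n) g2 hΘ sB (by linarith)
      (by linarith) (fun P hP => ⟨lB P hP, (tB P hP).2⟩)
    obtain ⟨k1, k2⟩ := shm_L2 (w := 0) (am_meas n (-1)) (fun s hs => by
      simpa only [zero_mul, zero_add] using side2 hn hs) a1 a2 b1 b2
    exact ⟨k1, k2.trans (fin _ (by simpa using sq_nonneg (wt 1)))⟩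

/-- one quarter of the smooth main term -/
def amM (n : ℕ) (σ c₀ x : ℝ) : ℂ :=
  ∫ s in Ioi (0 : ℝ), ph x ((1 / 2 - c₀ + σ * s : ℝ) : ℂ) * shS2 n σ s

lemma am_side_eq {n β : ℕ} {σ x : ℝ} (hx : 0 ≤ x) (hσ : σ = 1 ∨ σ = -1) :
    ∑ q ∈ mainasmQ n β σ, wq n β q * ∫ η in Ioi (0 : ℝ), fC x n β q η =
      (σ * (√β / β ^ 2) * ep x) *
        mainasmM (fun q => wq n β q * eC n β q) β (n / β ^ 2) σ 0 (mainasmQ n β σ) x
      + (σ * (√β / β ^ 2) * (ep (1 / 4) * ep (-x)))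
        * mainasmM (fun q => wq n β q * eC n β q) β (n / β ^ 2) σ 1 (mainasmQ n β σ) x := by
  have hH : (0 : ℝ) ≤ n / β ^ 2 := by positivity
  have hA : ∀ q ∈ mainasmQ n β σ, 1 / 2 ≤ σ * (1 / 2 - (q : ℝ) / β) :=
    fun q hq => (Finset.mem_filter.1 hq).2.1
  have e0 := mainasm_eq (e := fun q => wq n β q * eC n β q) (c₀ := 0) hx hH hσ (by norm_num) hA
  have e1 := mainasm_eq (e := fun q => wq n β q * eC n β q) (c₀ := 1) hx hH hσ (by norm_num) hA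
  have e2 : ∀ q ∈ mainasmQ n β σ, wq n β q * ∫ η in Ioi (0 : ℝ), fC x n β q η
      = ((√β / β ^ 2) * ep x) * (wq n β q * eC n β q * ∫ η in Ioi (0 : ℝ), ph x (ln η - (0 : ℝ))
          * kc (n / β ^ 2) (ln η - ((q / β : ℝ) : ℂ)) * I)
        + ((√β / β ^ 2) * (ep (1 / 4) * ep (-x))) * (wq n β q * eC n β q * ∫ η in Ioi (0 : ℝ),
          ph x (ln η - (1 : ℝ)) * kc (n / β ^ 2) (ln η - ((q / β : ℝ) : ℂ)) * I) := by
    intro q hq
    have i0 := (mainasm_ray (c₀ := 0) hx hH hσ (by norm_num) (hA q hq)).1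
    have i1 := (mainasm_ray (c₀ := 1) hx hH hσ (by norm_num) (hA q hq)).1
    rw [← integral_const_mul, ← integral_const_mul, ← integral_const_mul, ← integral_const_mul,
      ← integral_const_mul,
      ← integral_add ((i0.const_mul _).const_mul _) ((i1.const_mul _).const_mul _)]
    refine integral_congr_ae (Eventually.of_forall fun η => ?_)
    simp only [fC, phi]
    push_cast
    rw [sub_zero]
    ring
  rw [Finset.sum_congr rfl e2, Finset.sum_add_distrib, ← Finset.mul_sum, ← Finset.mul_sum, e0, e1]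
  ring

lemma am_int (e : ℤ → ℂ) (n β : ℕ) {σ c₀ : ℝ} (x : ℝ) (hσ : σ = 1 ∨ σ = -1) (hc : c₀ ≠ 1 / 2) :
    IntegrableOn (fun s : ℝ => ph x ((1 / 2 - c₀ + σ * s : ℝ) : ℂ) *
      mainasmS e β (n / β ^ 2) σ (mainasmQ n β σ) s) (Ioi 0) := by
  simp only [mainasm_split]
  exact integrable_finsetSum _ fun q hq =>
    (mainasm_int (by positivity) hσ hc (Finset.mem_filter.1 hq).2.1).const_mul _

lemma am_eq (n : ℕ) {σ c₀ : ℝ} (x : ℝ) (hσ : σ = 1 ∨ σ = -1) (hc : c₀ ≠ 1 / 2) :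
    IntegrableOn (fun s : ℝ => ph x ((1 / 2 - c₀ + σ * s : ℝ) : ℂ) * shS2 n σ s) (Ioi 0) ∧
    amM n σ c₀ x = ∑ β ∈ BS n, (√β / β ^ 2) *
      mainasmM (fun q => wq n β q * eC n β q) β (n / β ^ 2) σ c₀ (mainasmQ n β σ) x := by
  have e : ∀ s : ℝ, ph x ((1 / 2 - c₀ + σ * s : ℝ) : ℂ) * shS2 n σ s = ∑ β ∈ BS n, (√β / β ^ 2) *
      (ph x ((1 / 2 - c₀ + σ * s : ℝ) : ℂ) *
        mainasmS (fun q => wq n β q * eC n β q) β (n / β ^ 2) σ (mainasmQ n β σ) s) := fun s => by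
    rw [shS2, Finset.mul_sum]
    exact Finset.sum_congr rfl fun β _ => by ring
  simp only [amM, e]
  refine ⟨integrable_finsetSum _ fun β _ => (am_int _ n β x hσ hc).const_mul _, ?_⟩
  rw [integral_finsetSum _ fun β _ => (am_int _ n β x hσ hc).const_mul _]
  exact Finset.sum_congr rfl fun β _ => integral_const_mul _ _

lemma am_MT (n : ℕ) {x : ℝ} (hx : 0 ≤ x) : ‖MT2 x n‖ ^ 2 ≤ ‖amM n 1 0 x‖ ^ 2 + ‖amM n 1 1 x‖ ^ 2 +
    ‖amM n (-1) 0 x‖ ^ 2 + ‖amM n (-1) 1 x‖ ^ 2 := by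
  have e : MT2 x n = 1 / 2 * ((ep x * amM n 1 0 x + ep (1 / 4) * ep (-x) * amM n 1 1 x) -
      (ep x * amM n (-1) 0 x + ep (1 / 4) * ep (-x) * amM n (-1) 1 x)) := by
    rw [MT2, (am_eq n x (Or.inl rfl) (by norm_num)).2, (am_eq n x (Or.inl rfl) (by norm_num)).2,
      (am_eq n x (Or.inr rfl) (by norm_num)).2, (am_eq n x (Or.inr rfl) (by norm_num)).2]
    congr 1
    simp only [Finset.mul_sum, ← Finset.sum_add_distrib, ← Finset.sum_sub_distrib]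
    refine Finset.sum_congr rfl fun β hβ => ?_
    have hβ1 : 1 ≤ β := (shf_BS.1 hβ).1
    have e1 : (QS n β).filter (fun q : ℤ => q ≤ 0 ∨ (β : ℤ) < q) =
        mainasmQ n β 1 ∪ mainasmQ n β (-1) := by
      ext q
      rw [Finset.mem_union, mainasm_mem_pos hβ1, mainasm_mem_neg hβ1, Finset.mem_filter, and_or_left]
    rw [e1, Finset.sum_union, am_side_eq hx (Or.inl rfl), am_side_eq hx (Or.inr rfl)]
    · push_cast
      ring
    · rw [Finset.disjoint_left]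
      intro q h1 h2
      rw [mainasm_mem_pos hβ1] at h1
      rw [mainasm_mem_neg hβ1] at h2
      omega
  have c1 := norm_ep_real (1 / 4)
  have c2 := norm_ep_real (-x)
  push_cast at c1 c2
  have a1 : ∀ u v : ℂ, ‖ep x * u + ep (1 / 4) * ep (-x) * v‖ ≤ ‖u‖ + ‖v‖ := fun u v => by
    refine (norm_add_le _ _).trans_eq ?_
    rw [norm_mul, norm_mul, norm_mul, c1, c2, norm_ep_real]
    ring
  have a2 : ‖MT2 x n‖ ≤ (‖amM n 1 0 x‖ + ‖amM n 1 1 x‖ + (‖amM n (-1) 0 x‖ + ‖amM n (-1) 1 x‖)) / 2 := by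
    rw [e, norm_mul]
    have := norm_sub_le_of_le (a1 (amM n 1 0 x) (amM n 1 1 x)) (a1 (amM n (-1) 0 x) (amM n (-1) 1 x))
    norm_num
    linarith
  have a3 := pow_le_pow_left₀ (norm_nonneg _) a2 2
  generalize ‖amM n 1 0 x‖ = a at *
  generalize ‖amM n 1 1 x‖ = b at *
  generalize ‖amM n (-1) 0 x‖ = c at *
  generalize ‖amM n (-1) 1 x‖ = d at *
  nlinarith [sq_nonneg (a - b), sq_nonneg (a - c), sq_nonneg (a - d), sq_nonneg (b - c),
    sq_nonneg (b - d), sq_nonneg (c - d)]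

theorem mt2 : ∃ C : ℝ, 0 < C ∧ ∀ (n L : ℕ) (Θ : ℝ), 1 ≤ n → 4 * n ≤ 4 ^ L → 4 ^ L ≤ 64 * n → 1 ≤ Θ →
    GoodM (Wf F1 n) L Θ → GoodM (WB n) L Θ → ∑ p ∈ Prs n, atT n 1 p ≤ Θ → ∑ p ∈ Prs n, atT n (-1) p ≤ Θ →
    ∃ g : ℝ → ℝ, Integrable g ∧ ∫ x, g x ≤ C * Θ ∧ (∀ x, 0 ≤ g x) ∧ ∀ x, 0 ≤ x → ‖MT2 x n‖ ^ 2 ≤ g x := by
  obtain ⟨C, pC, hC⟩ := mt2_S
  refine ⟨8 * C, by positivity, fun n L Θ hn h1 h2 hΘ g1 g2 t1 t2 => ?_⟩
  have key : ∀ σ c₀ : ℝ, (σ = 1 ∨ σ = -1) → (c₀ = 0 ∨ c₀ = 1) →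
      (Integrable fun x => ‖amM n σ c₀ x‖ ^ 2) ∧ ∫ x, ‖amM n σ c₀ x‖ ^ 2 ≤ 2 * (C * Θ) := by
    intro σ c₀ hσ hc
    obtain ⟨k1, k2⟩ := hC n L Θ σ hn h1 h2 hΘ g1 g2 hσ (by rcases hσ with rfl | rfl <;> assumption)
    obtain ⟨-, m2, m3⟩ := mainasm_planch (c := 1 / 2 - c₀) hσ
      (by rcases hc with rfl | rfl <;> norm_num [abs_le])
      (am_eq n 0 hσ (by rcases hc with rfl | rfl <;> norm_num)).1 k1
    exact ⟨m2, m3.trans (by linarith)⟩
  obtain ⟨i1, j1⟩ := key 1 0 (Or.inl rfl) (Or.inl rfl)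
  obtain ⟨i2, j2⟩ := key 1 1 (Or.inl rfl) (Or.inr rfl)
  obtain ⟨i3, j3⟩ := key (-1) 0 (Or.inr rfl) (Or.inl rfl)
  obtain ⟨i4, j4⟩ := key (-1) 1 (Or.inr rfl) (Or.inr rfl)
  refine ⟨_, ((i1.add i2).add i3).add i4, ?_, fun x => by simp only [Pi.add_apply]; positivity,
    fun x hx => am_MT n hx⟩
  rw [integral_add' ((i1.add i2).add i3) i4, integral_add' (i1.add i2) i3, integral_add' i1 i2]
  linarith

end

end Pool.Agent.MP_9f080f_an

namespace Pool.Agent.MP_9f080f_an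
open Complex MeasureTheory Set Filter Topology Metric
open scoped Real

noncomputable section

/-! The full bound. -/

lemma goodM_mono {W : ℕ → ℤ → ℝ} {L : ℕ} {Θ Θ' : ℝ} (h : GoodM W L Θ) (hΘ : Θ ≤ Θ') : GoodM W L Θ' := by
  obtain ⟨α, γ, h0, h1, h2, h3, h4⟩ := h.ex
  exact ⟨h.nonneg, α, γ, h0, h1, h2, fun K => (h3 K).trans hΘ, h4.trans hΘ⟩

lemma ar_lv {N : ℕ} (hN : 1 ≤ N) : ∃ L : ℕ, 4 * N ≤ 4 ^ L ∧ 4 ^ L ≤ 16 * N ∧ 2 ^ L ≤ 16 * N := by
  have a1 := Nat.pow_pred_clog_lt_self (b := 4) (by norm_num) (x := 4 * N) (by omega)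
  have a2 := Nat.clog_pos (b := 4) (n := 4 * N) (by norm_num) (by omega)
  have a3 : 4 ^ Nat.clog 4 (4 * N) ≤ 16 * N := by
    obtain ⟨k, hk⟩ : ∃ k, Nat.clog 4 (4 * N) = k + 1 := ⟨_, (Nat.succ_pred_eq_of_pos a2).symm⟩
    rw [hk] at a1 ⊢
    rw [Nat.pred_succ] at a1
    rw [pow_succ]
    omega
  exact ⟨_, Nat.le_pow_clog (by norm_num) _, a3, (Nat.pow_le_pow_left (by norm_num) _).trans a3⟩

lemma ar_err : ∃ (C : ℝ) (Y : ℕ), 0 < C ∧ 2 ≤ Y ∧ ∀ (n L : ℕ) (Θ : ℝ), Y ≤ n → 4 * (Y * n) ≤ 4 ^ L →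
    GoodM (Wf F1 n) L Θ → GoodM (WB n) L Θ → ∀ x : ℝ, 0 ≤ x →
      ‖cn x n‖ ≤ ‖MT2 x n‖ + C * √Θ * (1 + x) ^ (-2 / 3 : ℝ) := by
  obtain ⟨Y, C1, p1, hY, h1⟩ := r1_avg
  obtain ⟨C2, p2, h2⟩ := ju2
  obtain ⟨C3, p3, h3⟩ := jl2
  refine ⟨3 * (C1 + C2 + C3), Y, by positivity, hY, fun n L Θ hn hL g1 g2 x hx => ?_⟩
  have h4 : Y * n ≤ (2 ^ (L + 3)) ^ 2 := by
    have : (2 ^ (L + 3)) ^ 2 = 64 * 4 ^ L := by
      rw [← pow_mul, mul_comm, pow_mul, pow_add, mul_comm]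
      norm_num
    omega
  have h5 : 2 * n ≤ (2 ^ (L + 3)) ^ 2 := (Nat.mul_le_mul_right n hY).trans h4
  have a1 := h1 n _ _ x hn g1.ph g2.ph h4 hx
  have a2 := h2 n _ _ x (by omega) g1.ph h5 hx
  have a3 := h3 n _ _ x (by omega) g1.ph h5 hx
  rw [cn_eq2 (by omega) hx]
  have c1 := norm_add_le (∫ l in (2 : ℝ)..4, (rho l : ℂ) * R1y x n (l / n))
    (MT2 x n - JU2 x n - JL2 x n)
  have c2 := norm_sub_le (MT2 x n - JU2 x n) (JL2 x n)
  have c3 := norm_sub_le (MT2 x n) (JU2 x n)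
  linarith

open scoped FourierTransform in
theorem full : ∃ C : ℝ, ∀ n : ℕ, 2 ≤ n → ∀ b : SchwartzMap ℝ ℂ, (∀ r : ℝ, b (-r) = b r) →
    (∀ ξ : ℝ, 𝓕 (b : ℝ → ℂ) ξ = b ξ) → (∀ m : ℕ, b (√m) = if m = n then 1 else 0) →
    IntegrableOn (fun x : ℝ => ‖b (√x)‖ ^ 2) (Ioi 0) ∧
      ∫ x in Ioi (0 : ℝ), ‖b (√x)‖ ^ 2 ≤ C * Real.log n := by
  obtain ⟨C1, Y, p1, hY, h1⟩ := ar_err
  obtain ⟨C2, p2, h2⟩ := mt2
  obtain ⟨C3, p3, h3⟩ := goodM (16 * Y)
  obtain ⟨K, pK, hK⟩ := AT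
  obtain ⟨C0, h0⟩ := main
  have hI : IntegrableOn (fun x : ℝ => (1 + x) ^ (-4 / 3 : ℝ)) (Ioi 0) := by
    have := integrableOn_add_rpow_Ioi_of_lt (a := -4 / 3) (c := 0) (m := 1) (by norm_num) (by norm_num)
    simpa [add_comm] using this
  set I₀ := ∫ x in Ioi (0 : ℝ), (1 + x) ^ (-4 / 3 : ℝ)
  refine ⟨max (|C0| * Real.log Y ^ 8) ((2 * C2 + 2 * C1 ^ 2 * I₀) * (C3 + K)),
    fun n hn b he hb hv => ?_⟩
  obtain ⟨hi, hi'⟩ := h0 n hn b he hb hv
  refine ⟨hi, ?_⟩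
  have hl : 1 / 2 ≤ Real.log n := by
    have := Real.log_le_log (by norm_num) (show (2 : ℝ) ≤ n by exact_mod_cast hn)
    linarith [Real.log_two_gt_d9]
  rcases le_total n Y with hnY | hnY
  · refine hi'.trans (le_trans ?_ (mul_le_mul_of_nonneg_right (le_max_left _ _) (by linarith)))
    have a1 : Real.log n ≤ Real.log Y := Real.log_le_log (by positivity) (by exact_mod_cast hnY)
    rw [pow_succ, mul_assoc]
    gcongr
    exact le_abs_self _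
  refine le_trans ?_ (mul_le_mul_of_nonneg_right (le_max_right _ _) (by linarith))
  have hΘ : 1 ≤ (C3 + K) * Real.log n := by nlinarith
  have m1 : C3 * Real.log n ≤ (C3 + K) * Real.log n := by nlinarith
  have m2 : K * Real.log n ≤ (C3 + K) * Real.log n := by nlinarith
  obtain ⟨L, l1, l2, l3⟩ := ar_lv (N := n) (by omega)
  obtain ⟨L', l4, -, l6⟩ := ar_lv (N := Y * n) (Nat.mul_pos (by omega) (by omega))
  obtain ⟨g1, g2⟩ := h3 n L hn (l3.trans (by nlinarith))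
  obtain ⟨g3, g4⟩ := h3 n L' hn (l6.trans (by rw [mul_assoc]))
  obtain ⟨g, gi, gl, g0, hg⟩ := h2 n L _ (by omega) l1 (by omega) hΘ (goodM_mono g1 m1)
    (goodM_mono g2 m1) ((hK n 1 hn (Or.inl rfl)).trans m2) ((hK n (-1) hn (Or.inr rfl)).trans m2)
  have k := h1 n L' _ hnY l4 (goodM_mono g3 m1) (goodM_mono g4 m1)
  rw [mul_assoc]
  generalize (C3 + K) * Real.log n = Θ at *
  have hG : IntegrableOn (fun x : ℝ => 2 * g x + 2 * C1 ^ 2 * Θ * (1 + x) ^ (-4 / 3 : ℝ)) (Ioi 0) :=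
    (gi.const_mul 2).integrableOn.add (hI.const_mul _)
  have hle : ∀ x ∈ Ioi (0 : ℝ), ‖b (√x)‖ ^ 2 ≤ 2 * g x + 2 * C1 ^ 2 * Θ * (1 + x) ^ (-4 / 3 : ℝ) :=
    fun x hx => by
      have hx0 : 0 < x := hx
      have a1 := k x hx0.le
      rw [← val_eq (by omega) b he hb hv hx0.le] at a1
      have e : (1 + x) ^ (-4 / 3 : ℝ) = ((1 + x) ^ (-2 / 3 : ℝ)) ^ 2 := by
        rw [← Real.rpow_natCast, ← Real.rpow_mul (by linarith)]; norm_num
      have a2 := pow_le_pow_left₀ (norm_nonneg _) a1 2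
      have a3 := hg x hx0.le
      have a4 := Real.sq_sqrt (show 0 ≤ Θ by linarith)
      rw [e, ← a4]
      nlinarith [sq_nonneg (‖MT2 x n‖ - C1 * √Θ * (1 + x) ^ (-2 / 3 : ℝ))]
  refine (setIntegral_mono_on hi hG measurableSet_Ioi hle).trans ?_
  rw [integral_add (gi.const_mul 2).integrableOn (hI.const_mul _), integral_const_mul,
    integral_const_mul]
  have a3 : ∫ x in Ioi (0 : ℝ), g x ≤ ∫ x, g x := setIntegral_le_integral gi (Eventually.of_forall g0)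
  change _ + _ * I₀ ≤ _
  linarith

end

end Pool.Agent.MP_9f080f_an
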