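import Pool.Agent.MP_9f080f_an.Mg.G_C1

namespace Pool.Agent.MP_9f080f_an
open Complex Finset
open scoped Real

noncomputable section

/-! Core lemma, part B: random sets of primes.
`om_sup`, `om_gen`: `Finset.prod_add` (`∑_{T ⊆ Q} ∏_T f ∏_{Q \ T} g = ∏ (f + g)`), and `1 + x ≤ exp x`.
`primes_dvd_card`: the product of the primes divides `N`, so `2^card ≤ |N|`.
`om_bad`: a bad `T` is `insert q T₀` with `T₀ = T.erase q`, `#T₀ < k`, `q ∈ Q \ T₀` dividing one of at most `(2^k+1)^(2s)` nonzero numbers of size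
`≤ 2 s y^k` (or `s = 0`, when nothing is bad); `omg (insert q T₀) = omg T₀ * (t/q) / (1 - t/q) ≤ omg T₀ * (2 t / w)`, and `∑ omg T₀ ≤ 1`. -/

/-- the probability of a random subset -/
def omg (t : ℝ) (Q T : Finset ℕ) : ℝ := (∏ q ∈ T, t / q) * ∏ q ∈ Q \ T, (1 - t / q)

lemma cba_fac {t : ℝ} {q : ℕ} (ht : 0 ≤ t) (hq : t ≤ q) : 0 ≤ 1 - t / q ∧ 1 - t / q ≤ 1 := by
  have h0 : 0 ≤ t / q := by positivity
  have h1 : t / q ≤ 1 := div_le_one_of_le₀ hq (Nat.cast_nonneg _)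
  constructor <;> linarith

lemma om_nonneg {t : ℝ} {Q T : Finset ℕ} (ht : 0 ≤ t) (hQ : ∀ q ∈ Q, t ≤ q) : 0 ≤ omg t Q T := by
  unfold omg
  refine mul_nonneg (Finset.prod_nonneg fun q _ => by positivity) (Finset.prod_nonneg fun q hq => ?_)
  exact (cba_fac ht (hQ q (Finset.mem_sdiff.1 hq).1)).1

lemma om_le {t : ℝ} {Q T : Finset ℕ} (ht : 0 ≤ t) (hQ : ∀ q ∈ Q, t ≤ q) :
    omg t Q T ≤ ∏ q ∈ T, t / q := by
  unfold omg
  refine mul_le_of_le_one_right (Finset.prod_nonneg fun q _ => by positivity) ?_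
  exact Finset.prod_le_one (fun q hq => (cba_fac ht (hQ q (Finset.mem_sdiff.1 hq).1)).1)
    (fun q hq => (cba_fac ht (hQ q (Finset.mem_sdiff.1 hq).1)).2)

lemma om_sup (t : ℝ) {Q S : Finset ℕ} (hS : S ⊆ Q) :
    ∑ T ∈ Q.powerset with S ⊆ T, omg t Q T = ∏ q ∈ S, t / q := by
  classical
  have h1 := Finset.prod_add (fun q : ℕ => t / q) (fun q : ℕ => if q ∈ S then (0 : ℝ) else 1 - t / q) Q
  have h2 : ∏ q ∈ Q, (t / q + if q ∈ S then (0 : ℝ) else 1 - t / q) = ∏ q ∈ S, t / q := by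
    rw [← Finset.prod_sdiff hS]
    have ha : ∏ q ∈ Q \ S, (t / q + if q ∈ S then (0 : ℝ) else 1 - t / q) = 1 := by
      refine Finset.prod_eq_one fun q hq => ?_
      rw [if_neg (Finset.mem_sdiff.1 hq).2]; ring
    rw [ha, one_mul]
    refine Finset.prod_congr rfl fun q hq => ?_
    rw [if_pos hq, add_zero]
  rw [← h2, h1, Finset.sum_filter]
  refine Finset.sum_congr rfl fun T _ => ?_
  split_ifs with hT
  · unfold omg
    congr 1
    refine Finset.prod_congr rfl fun q hq => ?_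
    rw [if_neg fun h => (Finset.mem_sdiff.1 hq).2 (hT h)]
  · obtain ⟨q, hqS, hqT⟩ := Finset.not_subset.1 hT
    rw [Finset.prod_eq_zero (i := q) (Finset.mem_sdiff.2 ⟨hS hqS, hqT⟩) (by rw [if_pos hqS]), mul_zero]

lemma om_gen {t z : ℝ} (Q : Finset ℕ) (ht : 0 ≤ t) (hz : 1 ≤ z) :
    ∑ T ∈ Q.powerset, omg t Q T * z ^ #T ≤ Real.exp ((z - 1) * t * ∑ q ∈ Q, (1 : ℝ) / q) := by
  classical
  have h1 := Finset.prod_add (fun q : ℕ => z * (t / q)) (fun q : ℕ => 1 - t / q) Q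
  have h2 : ∑ T ∈ Q.powerset, omg t Q T * z ^ #T = ∏ q ∈ Q, (z * (t / q) + (1 - t / q)) := by
    rw [h1]
    refine Finset.sum_congr rfl fun T _ => ?_
    unfold omg
    rw [Finset.prod_mul_distrib, Finset.prod_const]
    ring
  rw [h2, Finset.mul_sum, Real.exp_sum]
  have hz' : 0 ≤ z - 1 := by linarith
  refine Finset.prod_le_prod (fun q _ => ?_) (fun q _ => ?_)
  · have : 0 ≤ (z - 1) * (t / q) := by positivity
    nlinarith
  · have h3 := Real.add_one_le_exp ((z - 1) * t * (1 / (q : ℝ)))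
    have h4 : z * (t / q) + (1 - t / q) = (z - 1) * t * (1 / (q : ℝ)) + 1 := by ring
    rw [h4]; exact h3

lemma primes_dvd_card {Q : Finset ℕ} (hQ : ∀ q ∈ Q, q.Prime) {N : ℤ} (hN : N ≠ 0) :
    (#(Q.filter fun q : ℕ => (q : ℤ) ∣ N) : ℝ) ≤ 2 * Real.log |(N : ℝ)| := by
  classical
  set P := Q.filter fun q : ℕ => (q : ℤ) ∣ N with hP
  have hsub : P ⊆ N.natAbs.primeFactors := by
    intro q hq
    obtain ⟨hq1, hq2⟩ := Finset.mem_filter.1 hq
    exact Nat.mem_primeFactors.2 ⟨hQ q hq1, Int.natCast_dvd.1 hq2, Int.natAbs_ne_zero.2 hN⟩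
  have hdvd : ∏ q ∈ P, q ∣ N.natAbs :=
    (Finset.prod_dvd_prod_of_subset _ _ _ hsub).trans (Nat.prod_primeFactors_dvd _)
  have hle : ∏ q ∈ P, q ≤ N.natAbs := Nat.le_of_dvd (Int.natAbs_pos.2 hN) hdvd
  have h2 : 2 ^ #P ≤ ∏ q ∈ P, q := by
    refine Finset.pow_card_le_prod P (fun q => q) 2 fun q hq => ?_
    exact (hQ q (Finset.mem_filter.1 hq).1).two_le
  have h3 : (2 : ℝ) ^ #P ≤ |(N : ℝ)| := by
    have h4 : ((2 ^ #P : ℕ) : ℝ) ≤ (N.natAbs : ℝ) := by exact_mod_cast h2.trans hle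
    rw [Nat.cast_natAbs, Int.cast_abs] at h4
    exact_mod_cast h4
  have h5 := Real.log_le_log (by positivity) h3
  rw [Real.log_pow] at h5
  have h6 := Real.log_two_gt_d9
  have h7 : (0 : ℝ) ≤ #P := Nat.cast_nonneg _
  nlinarith

end

end Pool.Agent.MP_9f080f_an

namespace Pool.Agent.MP_9f080f_an
open Complex Finset
open scoped Real

noncomputable section

lemma cb_insert {t : ℝ} {w q : ℕ} {Q T : Finset ℕ} (ht : 0 ≤ t) (hw : 2 * t ≤ w)
    (hQ : ∀ q ∈ Q, w < q) (hq : q ∈ Q) (hqT : q ∉ T) :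
    omg t Q (insert q T) ≤ 2 * t / w * omg t Q T := by
  have hQ' : ∀ q ∈ Q, t ≤ q := fun q hq => by
    have : (w : ℝ) < q := by exact_mod_cast hQ q hq
    linarith
  have hwq : (w : ℝ) < q := by exact_mod_cast hQ q hq
  have hw0 : (0 : ℝ) ≤ w := Nat.cast_nonneg _
  have hq0 : (0 : ℝ) < q := by linarith
  have e : Q \ T = insert q (Q \ insert q T) := by
    ext x
    simp only [mem_sdiff, mem_insert]
    constructor
    · rintro ⟨h1, h2⟩
      by_cases hx : x = q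
      · exact Or.inl hx
      · exact Or.inr ⟨h1, fun h => h.elim hx h2⟩
    · rintro (rfl | ⟨h1, h2⟩)
      · exact ⟨hq, hqT⟩
      · exact ⟨h1, fun h => h2 (Or.inr h)⟩
  have e1 : omg t Q (insert q T) * (1 - t / q) = t / q * omg t Q T := by
    unfold omg
    rw [e, prod_insert hqT, prod_insert (by simp)]
    ring
  have h0 := om_nonneg (T := T) ht hQ'
  have h1 := om_nonneg (T := insert q T) ht hQ'
  have h2 : t / q ≤ 1 / 2 := by
    rw [div_le_iff₀ hq0]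
    linarith
  have h3 : 2 * (t / q) ≤ 2 * t / w := by
    rcases hw0.eq_or_lt with h | h
    · have : t = 0 := by linarith
      simp [this]
    · rw [mul_div_assoc]
      have := div_le_div_of_nonneg_left ht h hwq.le
      linarith
  have h4 := mul_le_mul_of_nonneg_right h3 h0
  nlinarith [mul_le_mul_of_nonneg_left h2 h1]

lemma cb_nv {y k : ℕ} {T : Finset ℕ} (hy : 1 ≤ y) (hT : ∀ q ∈ T, q ≤ y) (hk : #T ≤ k)
    (o : Option (Finset ℕ)) : 0 ≤ nv T o ∧ nv T o ≤ (y : ℤ) ^ k := by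
  cases o with
  | none => exact ⟨le_rfl, by simp only [nv]; positivity⟩
  | some S =>
    refine ⟨by simp only [nv]; positivity, ?_⟩
    have h1 : dd (T \ S) ≤ y ^ #(T \ S) :=
      prod_le_pow_card _ _ _ fun q hq => hT q (mem_sdiff.1 hq).1
    have h2 : y ^ #(T \ S) ≤ y ^ k :=
      Nat.pow_le_pow_right hy ((card_le_card sdiff_subset).trans hk)
    simp only [nv]
    exact_mod_cast h1.trans h2

lemma cb_log {y k s : ℕ} {T : Finset ℕ} (hy : 1 ≤ y) (hT : ∀ q ∈ T, q ≤ y) (hk : #T ≤ k)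
    {τ τ' : Fin s → Option (Finset ℕ)} (h : NN T τ τ' ≠ 0) :
    2 * Real.log |(NN T τ τ' : ℝ)| ≤ 4 * s + 2 * k * Real.log y := by
  have hs : ∀ τ : Fin s → Option (Finset ℕ),
      0 ≤ ∑ a, nv T (τ a) ∧ ∑ a, nv T (τ a) ≤ s * (y : ℤ) ^ k := fun τ =>
    ⟨sum_nonneg fun a _ => (cb_nv hy hT hk _).1, by
      have := sum_le_card_nsmul univ (fun a => nv T (τ a)) _ fun a _ => (cb_nv hy hT hk (τ a)).2
      simpa using this⟩
  have h1 : |NN T τ τ'| ≤ s * (y : ℤ) ^ k := by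
    unfold NN
    rw [abs_le]
    constructor <;> linarith [(hs τ).1, (hs τ).2, (hs τ').1, (hs τ').2]
  have h2 : |(NN T τ τ' : ℝ)| ≤ s * (y : ℝ) ^ k := by exact_mod_cast h1
  have h3 : 0 < |(NN T τ τ' : ℝ)| := abs_pos.2 (by exact_mod_cast h)
  have hy0 : (0 : ℝ) < y := by exact_mod_cast hy
  have hs0 : (0 : ℝ) < s := by
    by_contra hc
    have : (s : ℝ) = 0 := le_antisymm (not_lt.1 hc) (Nat.cast_nonneg _)
    rw [this] at h2
    linarith
  have h4 := Real.log_le_log h3 h2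
  rw [Real.log_mul hs0.ne' (by positivity), Real.log_pow] at h4
  have h5 := Real.log_le_sub_one_of_pos hs0
  linarith

lemma cb_opts {k : ℕ} (s : ℕ) {T : Finset ℕ} (hk : #T ≤ k) : #(opts s T) ≤ (2 ^ k + 1) ^ s := by
  unfold opts
  rw [Fintype.card_piFinset_const, card_insertNone, card_powerset]
  exact Nat.pow_le_pow_left (Nat.succ_le_succ (Nat.pow_le_pow_right two_pos hk)) _

lemma cb_B {y k : ℕ} (s : ℕ) {Q : Finset ℕ} (T : Finset ℕ) (hy : 1 ≤ y) (hQ : ∀ q ∈ Q, q.Prime) :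
    ∃ B : Finset ℕ, B ⊆ Q \ T ∧
      (∀ q ∈ Q \ T, ∀ τ ∈ opts s T, ∀ τ' ∈ opts s T, NN T τ τ' ≠ 0 → (q : ℤ) ∣ NN T τ τ' → q ∈ B) ∧
      ((∀ q ∈ T, q ≤ y) → #T ≤ k →
        (#B : ℝ) ≤ (2 ^ k + 1) ^ (2 * s) * (4 * s + 2 * k * Real.log y)) := by
  have hM : (0 : ℝ) ≤ 4 * s + 2 * k * Real.log y := by
    have := Real.log_nonneg (show (1 : ℝ) ≤ y by exact_mod_cast hy)
    positivity
  obtain ⟨P, hP, hP'⟩ : ∃ P : Finset ((Fin s → Option (Finset ℕ)) × (Fin s → Option (Finset ℕ))),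
      (∀ p, p ∈ P ↔ p ∈ opts s T ×ˢ opts s T ∧ NN T p.1 p.2 ≠ 0) ∧
        #P ≤ #(opts s T ×ˢ opts s T) :=
    ⟨(opts s T ×ˢ opts s T).filter fun p => NN T p.1 p.2 ≠ 0, fun p => mem_filter,
      card_filter_le _ _⟩
  obtain ⟨F, hF⟩ : ∃ F : ℤ → Finset ℕ, ∀ N, F N = (Q \ T).filter fun q : ℕ => (q : ℤ) ∣ N :=
    ⟨_, fun _ => rfl⟩
  refine ⟨P.biUnion fun p => F (NN T p.1 p.2), fun q hq => ?_,
    fun q hq τ hτ τ' hτ' h1 h2 => ?_, fun hT hk => ?_⟩
  · obtain ⟨p, -, hp⟩ := mem_biUnion.1 hq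
    rw [hF] at hp
    exact (mem_filter.1 hp).1
  · refine mem_biUnion.2 ⟨(τ, τ'), (hP _).2 ⟨mem_product.2 ⟨hτ, hτ'⟩, h1⟩, ?_⟩
    rw [hF]
    exact mem_filter.2 ⟨hq, h2⟩
  have h1 : (#(P.biUnion fun p => F (NN T p.1 p.2)) : ℝ) ≤
      ∑ p ∈ P, (#(F (NN T p.1 p.2)) : ℝ) := by
    have := card_biUnion_le (s := P) (t := fun p => F (NN T p.1 p.2))
    exact_mod_cast this
  have h2 : ∑ p ∈ P, (#(F (NN T p.1 p.2)) : ℝ) ≤ #P • (4 * s + 2 * k * Real.log y) := by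
    refine sum_le_card_nsmul P _ _ fun p hp => ?_
    have h := ((hP p).1 hp).2
    rw [hF]
    exact (primes_dvd_card (Q := Q \ T) (fun q hq => hQ q (mem_sdiff.1 hq).1) h).trans
      (cb_log hy hT hk h)
  have h3 : #P ≤ (2 ^ k + 1) ^ (2 * s) := by
    refine hP'.trans ?_
    rw [card_product, two_mul, pow_add]
    exact Nat.mul_le_mul (cb_opts s hk) (cb_opts s hk)
  have h4 : (#P : ℝ) ≤ (2 ^ k + 1) ^ (2 * s) := by exact_mod_cast h3
  rw [nsmul_eq_mul] at h2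
  exact h1.trans (h2.trans (mul_le_mul_of_nonneg_right h4 hM))

open Classical in
theorem om_bad {t : ℝ} {w y k s : ℕ} {Q : Finset ℕ} (ht : 0 ≤ t) (hw : 2 * t ≤ w) (hy : 1 ≤ y)
    (hQ : ∀ q ∈ Q, q.Prime ∧ w < q ∧ q ≤ y) :
    ∑ T ∈ Q.powerset with #T ≤ k ∧ Bad s T, omg t Q T ≤
      2 * t / w * ((2 ^ k + 1) ^ (2 * s) * (4 * s + 2 * k * Real.log y)) := by
  have hQ' : ∀ q ∈ Q, t ≤ q := fun q hq => by
    have : (w : ℝ) < q := by exact_mod_cast (hQ q hq).2.1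
    linarith
  have hc : 0 ≤ 2 * t / w := by positivity
  obtain ⟨M, hM⟩ : ∃ M : ℝ, M = (2 ^ k + 1) ^ (2 * s) * (4 * s + 2 * k * Real.log y) := ⟨_, rfl⟩
  have hM0 : 0 ≤ M := by
    have := Real.log_nonneg (show (1 : ℝ) ≤ y by exact_mod_cast hy)
    rw [hM]
    positivity
  choose B hB1 hB2 hB3 using fun T => cb_B (k := k) s T hy fun q hq => (hQ q hq).1
  rw [← hM] at hB3 ⊢
  have hsub : (Q.powerset.filter fun T => #T ≤ k ∧ Bad s T) ⊆
      ((Q.powerset.filter fun T => #T ≤ k).sigma fun T => B T).image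
        fun x => insert x.2 x.1 := by
    intro T hT
    obtain ⟨h1, h2, q, hq, τ, hτ, τ', hτ', h3, h4⟩ := mem_filter.1 hT
    have h1' := mem_powerset.1 h1
    refine mem_image.2 ⟨⟨T.erase q, q⟩, mem_sigma.2 ⟨mem_filter.2 ⟨mem_powerset.2
      ((erase_subset _ _).trans h1'), (card_erase_le).trans h2⟩, ?_⟩, insert_erase hq⟩
    exact hB2 _ q (mem_sdiff.2 ⟨h1' hq, notMem_erase _ _⟩) τ hτ τ' hτ' h3 h4
  have hall : ∑ T ∈ Q.powerset, omg t Q T = 1 := by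
    have := om_sup t (empty_subset Q)
    simpa using this
  calc _ ≤ _ := sum_le_sum_of_subset_of_nonneg hsub fun T _ _ => om_nonneg ht hQ'
    _ ≤ ∑ x ∈ (Q.powerset.filter fun T => #T ≤ k).sigma fun T => B T,
        omg t Q (insert x.2 x.1) := sum_image_le_of_nonneg fun T _ => om_nonneg ht hQ'
    _ = ∑ T ∈ Q.powerset.filter fun T => #T ≤ k, ∑ q ∈ B T, omg t Q (insert q T) :=
        sum_sigma _ _ _
    _ ≤ ∑ T ∈ Q.powerset.filter fun T => #T ≤ k, 2 * t / w * M * omg t Q T := by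
        refine sum_le_sum fun T hT => ?_
        obtain ⟨h1, h2⟩ := mem_filter.1 hT
        have h1' := mem_powerset.1 h1
        have h3 := sum_le_card_nsmul (B T) (fun q => omg t Q (insert q T))
          (2 * t / w * omg t Q T) fun q hq => by
            have := mem_sdiff.1 (hB1 T hq)
            exact cb_insert ht hw (fun q hq => (hQ q hq).2.1) this.1 this.2
        have h4 := hB3 T (fun q hq => (hQ q (h1' hq)).2.2) h2
        rw [nsmul_eq_mul] at h3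
        have h5 := mul_le_mul_of_nonneg_right h4
          (mul_nonneg hc (om_nonneg (T := T) ht hQ'))
        linarith
    _ ≤ ∑ T ∈ Q.powerset, 2 * t / w * M * omg t Q T :=
        sum_le_sum_of_subset_of_nonneg (filter_subset _ _) fun T _ _ =>
          mul_nonneg (mul_nonneg hc hM0) (om_nonneg ht hQ')
    _ = _ := by rw [← mul_sum, hall, mul_one]

end

end Pool.Agent.MP_9f080f_an

namespace Pool.Agent.MP_9f080f_an
open Complex Finset
open scoped Real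

noncomputable section

/-! The core lemma.
Put `β S = b S * dd S / t^#S`, so `‖β S‖ ≤ h (2/t)^#S`, `β ∅ = 0`, and by `om_sup` (`∏_{q ∈ S} t/q = t^#S / dd S`)
`∑_{S ⊆ Q} b S e(x / dd S) = ∑_{T ⊆ Q} omg T * G T x` with `G T x = ∑_{S ⊆ T} β S e(x / dd S)`, `‖G T x‖ ≤ h (1 + 2/t)^#T ≤ h (3/2)^#T`.
`cc_good`: `G` only depends on `x` modulo `dd T` (`x % dd T`, `dd S ∣ dd T`).  Let `B = √(∑ ‖β S‖²)`, `λ = 2 √s B` (if `B = 0` then `G = 0`), `N x = #{i | X i ≡ x}`.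
The `i` with `‖G (X i)‖ ≤ λ` give at most `#I λ`; the others give `∑_x N x ‖G x‖ [λ < ‖G x‖] ≤ √(∑ N x ²) √(∑ ‖G x‖^(2s) / λ^(2s-2))`
(`Finset.sum_mul_sq_le_sq_mul_sq` or `inner_mul_le_norm_mul_norm`), `∑ N x ² = colT`, and `moment`.
`cc_beta`: swap the sums, `om_sup`: the left side is `∑_S ‖b S‖² dd S / t^#S ≤ (4/t)^(2k₂) ∑_{dd S ≤ h} dd S ≤ (4/t)^(2k₂) h²` because `dd` is injective on
sets of primes (`Nat.primeFactors_prod`), so there are at most `h` such `S`.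
`cc_col`: swap the sums; for a pair `(i, i')` only `T ⊆ Q' = {q ∈ Q | q ∣ X i - X i'}` count, `omg T * dd T ≤ t^#T` (`om_le`) and
`∑_{T ⊆ Q', #T ≤ k} t^#T = ∑_{j ≤ k} choose #Q' j * t^j ≤ ∑_{j ≤ k} choose k j * (t #Q')^j = (1 + t #Q')^k` (`Nat.choose_le_pow`); `#Q' ≤ #Q ≤ y` always.
`core`: split the `T`: `#T > k` (use `1 ≤ 2^(#T - k)` and `om_gen` with `z = 3`), `#T ≤ k` and bad (`om_bad`), `#T ≤ k` and good
(`cc_good`, Cauchy-Schwarz with weights `omg T`, `∑ omg T = 1` by `om_sup` with `S = ∅`, `cc_beta`, `cc_col`,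
`√(#I² + #I E) ≤ 2 #I + E`). -/

open Classical in
/-- the number of collisions modulo `dd T` -/
def colT {ι : Type} (I : Finset ι) (X : ι → ℤ) (T : Finset ℕ) : ℕ :=
  #{p ∈ I ×ˢ I | (dd T : ℤ) ∣ X p.1 - X p.2}

lemma cca_fib {ι : Type} (I : Finset ι) (r : ι → ℕ) (D : ℕ) (hr : ∀ i ∈ I, r i ∈ range D)
    (a : ℕ → ℝ) :
    ∑ x ∈ range D, (∑ i ∈ I, if r i = x then (1 : ℝ) else 0) * a x = ∑ i ∈ I, a (r i) := by
  simp only [sum_mul]
  rw [sum_comm]
  refine sum_congr rfl fun i hi => ?_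
  simp only [ite_mul, one_mul, zero_mul]
  rw [sum_ite_eq, if_pos (hr i hi)]

lemma cca_real {ι : Type} (I : Finset ι) (r : ι → ℕ) (D n : ℕ) (hr : ∀ i ∈ I, r i ∈ range D)
    (g : ℕ → ℝ) (hg : ∀ x, 0 ≤ g x) (u C : ℝ) (hu : 0 ≤ u)
    (hm : ∑ x ∈ range D, g x ^ (2 * (n + 1)) ≤ D * u ^ (2 * (n + 1)))
    (hC : ∑ i ∈ I, ∑ j ∈ I, (if r j = r i then (1 : ℝ) else 0) ≤ C) :
    ∑ i ∈ I, g (r i) ≤ u * (2 * #I + √(C * D / 4 ^ n)) := by
  rcases hu.eq_or_lt with h | hu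
  · subst h
    have h1 : ∀ x ∈ range D, g x ^ (2 * (n + 1)) = 0 := by
      rw [← sum_eq_zero_iff_of_nonneg fun x _ => pow_nonneg (hg x) _]
      refine le_antisymm (hm.trans ?_) (sum_nonneg fun x _ => pow_nonneg (hg x) _)
      simp
    rw [zero_mul]
    exact (sum_eq_zero fun i hi => pow_eq_zero_iff (by omega) |>.1 (h1 _ (hr i hi))).le
  have hl : 0 < (2 * u) ^ n := by positivity
  have h1 : ∀ x, g x ≤ 2 * u + g x ^ (n + 1) / (2 * u) ^ n := by
    intro x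
    have := hg x
    rcases le_total (g x) (2 * u) with h | h
    · have : 0 ≤ g x ^ (n + 1) / (2 * u) ^ n := by positivity
      linarith
    · have h2 : g x ≤ g x ^ (n + 1) / (2 * u) ^ n := by
        rw [le_div_iff₀ hl, pow_succ']
        gcongr
      linarith
  set N : ℕ → ℝ := fun x => ∑ i ∈ I, if r i = x then (1 : ℝ) else 0 with hN
  have h2 : ∑ x ∈ range D, N x ^ 2 ≤ C := by
    refine le_trans (le_of_eq ?_) hC
    simp only [pow_two]
    exact cca_fib I r D hr N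
  have hC0 : 0 ≤ C := le_trans (sum_nonneg fun x _ => sq_nonneg _) h2
  have h3 : ∑ i ∈ I, g (r i) ^ (n + 1) ≤ √(C * D) * u ^ (n + 1) := by
    rw [← cca_fib I r D hr fun x => g x ^ (n + 1)]
    refine Real.le_sqrt_of_sq_le ?_ |>.trans (le_of_eq ?_) (b := √(C * D * (u ^ (n + 1)) ^ 2))
    · refine (sum_mul_sq_le_sq_mul_sq _ _ _).trans ?_
      rw [mul_assoc]
      refine mul_le_mul h2 ?_ (sum_nonneg fun x _ => sq_nonneg _) hC0
      simp only [← pow_mul, mul_comm (n + 1) 2]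
      exact hm
    · rw [Real.sqrt_mul (by positivity), Real.sqrt_sq (by positivity)]
  have h4 : √(C * D / 4 ^ n) = √(C * D) / 2 ^ n := by
    rw [Real.sqrt_div (by positivity), show (4 : ℝ) ^ n = (2 ^ n) ^ 2 by
      rw [← pow_mul, mul_comm, pow_mul]; norm_num, Real.sqrt_sq (by positivity)]
  calc ∑ i ∈ I, g (r i) ≤ ∑ i ∈ I, (2 * u + g (r i) ^ (n + 1) / (2 * u) ^ n) :=
        sum_le_sum fun i _ => h1 _
    _ = #I * (2 * u) + (∑ i ∈ I, g (r i) ^ (n + 1)) / (2 * u) ^ n := by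
        rw [sum_add_distrib, sum_const, nsmul_eq_mul, sum_div]
    _ ≤ #I * (2 * u) + √(C * D) * u ^ (n + 1) / (2 * u) ^ n := by gcongr
    _ = _ := by
        rw [h4, mul_pow, pow_succ]
        field_simp

lemma cca_per {T S : Finset ℕ} (hT : ∀ q ∈ T, q.Prime) (hS : S ⊆ T) (x : ℤ) :
    ep (2 * (x : ℂ) / dd S) = ep (2 * (((x % dd T).toNat : ℕ) : ℂ) / dd S) := by
  have hD : 0 < dd T := prod_pos fun q hq => (hT q hq).pos
  have hS0 : 0 < dd S := prod_pos fun q hq => (hT q (hS hq)).pos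
  obtain ⟨c, hc⟩ : dd S ∣ dd T := prod_dvd_prod_of_subset _ _ _ hS
  have h1 : (((x % dd T).toNat : ℕ) : ℤ) = x % dd T :=
    Int.toNat_of_nonneg (Int.emod_nonneg _ (by exact_mod_cast hD.ne'))
  have h2 : x = ((x % dd T).toNat : ℕ) + dd S * (c * (x / dd T)) := by
    rw [h1, ← mul_assoc, ← Nat.cast_mul, ← hc]
    exact (Int.emod_add_mul_ediv x _).symm
  generalize (x % dd T).toNat = y at h2
  generalize (c * (x / dd T) : ℤ) = k at h2
  have h3 : (dd S : ℂ) ≠ 0 := by exact_mod_cast hS0.ne'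
  rw [h2, show (2 * (((y : ℤ) + dd S * k : ℤ) : ℂ) / dd S) = 2 * (y : ℂ) / dd S + 2 * k by
    push_cast; field_simp, ep_add, ep_two_int, mul_one]

theorem cc_good {s : ℕ} {T : Finset ℕ} (hs : 1 ≤ s) (hT : ∀ q ∈ T, q.Prime) (hg : ¬Bad s T)
    (β : Finset ℕ → ℂ) (h0 : β ∅ = 0) {ι : Type} (I : Finset ι) (X : ι → ℤ) :
    ∑ i ∈ I, ‖∑ S ∈ T.powerset, β S * ep (2 * (X i : ℂ) / dd S)‖ ≤
      √s * √(∑ S ∈ T.powerset, ‖β S‖ ^ 2) * (2 * #I + √(colT I X T * dd T / 4 ^ (s - 1))) := by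
  classical
  obtain ⟨n, rfl⟩ : ∃ n, s = n + 1 := ⟨s - 1, by omega⟩
  have hD : 0 < dd T := prod_pos fun q hq => (hT q hq).pos
  have hD' : (0 : ℤ) < dd T := by exact_mod_cast hD
  have h1 : ∀ x : ℤ, (((x % dd T).toNat : ℕ) : ℤ) = x % dd T := fun x =>
    Int.toNat_of_nonneg (Int.emod_nonneg _ hD'.ne')
  have key := cca_real I (fun i => (X i % dd T).toNat) (dd T) n
    (fun i _ => by
      rw [mem_range]
      have := Int.emod_lt_of_pos (X i) hD'
      have := h1 (X i)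
      omega)
    (fun x => ‖∑ S ∈ T.powerset, β S * ep (2 * (x : ℂ) / dd S)‖) (fun _ => norm_nonneg _)
    (√((n + 1 : ℕ) : ℝ) * √(∑ S ∈ T.powerset, ‖β S‖ ^ 2)) (colT I X T) (by positivity)
    (by
      refine (moment hT hg β h0).trans (le_of_eq ?_)
      rw [pow_mul, mul_pow, Real.sq_sqrt (by positivity), Real.sq_sqrt (by positivity), mul_pow])
    (by
      rw [← sum_product', colT, card_filter]
      push_cast
      refine sum_le_sum fun p _ => ?_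
      split_ifs with ha hb hb
      · exact le_rfl
      · refine absurd ?_ hb
        have h2 := h1 (X p.1)
        rw [← ha, h1] at h2
        exact Int.ModEq.dvd h2
      · exact zero_le_one
      · exact le_rfl)
  rw [Nat.add_sub_cancel]
  refine le_trans (le_of_eq (sum_congr rfl fun i _ => ?_)) key
  congr 1
  exact sum_congr rfl fun S hS => by rw [cca_per hT (mem_powerset.1 hS)]

end

end Pool.Agent.MP_9f080f_an

namespace Pool.Agent.MP_9f080f_an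
open Complex Finset
open scoped Real

noncomputable section

lemma ccb_prod (t : ℝ) (S : Finset ℕ) : ∏ q ∈ S, t / q = t ^ #S / dd S := by
  rw [prod_div_distrib, prod_const, dd, Nat.cast_prod]

lemma ccb_pos {S : Finset ℕ} (h : ∀ q ∈ S, q.Prime) : 0 < dd S :=
  prod_pos fun q hq => (h q hq).pos

lemma ccb_card {h : ℝ} {Q : Finset ℕ} (hQ : ∀ q ∈ Q, q.Prime) (hh : 0 ≤ h)
    {F : Finset (Finset ℕ)} (hF : ∀ S ∈ F, S ⊆ Q ∧ (dd S : ℝ) ≤ h) : (#F : ℝ) ≤ h := by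
  have h1 : #F ≤ #(Icc 1 ⌊h⌋₊) := by
    refine card_le_card_of_injOn dd (fun S hS => ?_) fun S hS S' hS' e => ?_
    · exact mem_coe.2 (mem_Icc.2 ⟨ccb_pos fun q hq => hQ q ((hF S hS).1 hq),
        Nat.le_floor (hF S hS).2⟩)
    · rw [← Nat.primeFactors_prod fun q hq => hQ q ((hF S hS).1 hq),
        ← Nat.primeFactors_prod fun q hq => hQ q ((hF S' hS').1 hq)]
      exact congrArg Nat.primeFactors e
  rw [Nat.card_Icc, Nat.add_sub_cancel] at h1
  exact (Nat.cast_le.2 h1).trans (Nat.floor_le hh)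

lemma ccb_pow {t : ℝ} (ht : 0 ≤ t) (Q : Finset ℕ) (k : ℕ) :
    ∑ T ∈ Q.powerset with #T ≤ k, t ^ #T ≤ (1 + t * #Q) ^ k := by
  rw [← sum_fiberwise_of_maps_to (g := card) (t := range (k + 1))
    (fun T hT => mem_range.2 (Nat.lt_succ_of_le (mem_filter.1 hT).2)), add_comm (1 : ℝ), add_pow]
  refine sum_le_sum fun j hj => ?_
  have h1 : (1 : ℝ) ≤ k.choose j :=
    Nat.one_le_cast.2 (Nat.choose_pos (Nat.lt_succ_iff.1 (mem_range.1 hj)))
  have h2 : ((#Q).choose j : ℝ) ≤ (#Q : ℝ) ^ j := by exact_mod_cast Nat.choose_le_pow _ _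
  calc _ = ∑ T ∈ (Q.powerset.filter fun T => #T ≤ k) with #T = j, t ^ j :=
        sum_congr rfl fun T hT => by rw [(mem_filter.1 hT).2]
    _ ≤ ∑ T ∈ powersetCard j Q, t ^ j := by
        refine sum_le_sum_of_subset_of_nonneg (fun T hT => ?_) fun _ _ _ => pow_nonneg ht _
        exact mem_powersetCard.2
          ⟨mem_powerset.1 (mem_filter.1 (mem_filter.1 hT).1).1, (mem_filter.1 hT).2⟩
    _ = ((#Q).choose j : ℝ) * t ^ j := by rw [sum_const, card_powersetCard, nsmul_eq_mul]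
    _ ≤ (#Q : ℝ) ^ j * t ^ j := mul_le_mul_of_nonneg_right h2 (pow_nonneg ht _)
    _ = (t * #Q) ^ j * 1 ^ (k - j) * 1 := by ring
    _ ≤ _ := mul_le_mul_of_nonneg_left h1 (by positivity)

theorem cc_beta {t h : ℝ} {k₂ : ℕ} {Q : Finset ℕ} (ht : 4 ≤ t) (hQ : ∀ q ∈ Q, q.Prime) (hh : 0 ≤ h)
    (b : Finset ℕ → ℂ) (hb : ∀ S ⊆ Q, ‖b S‖ ≤ 2 ^ #S)
    (hb0 : ∀ S ⊆ Q, b S ≠ 0 → 2 * k₂ ≤ #S ∧ (dd S : ℝ) ≤ h) :
    ∑ T ∈ Q.powerset, omg t Q T * ∑ S ∈ T.powerset, ‖b S * dd S / (t : ℂ) ^ #S‖ ^ 2 ≤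
      (h * (4 / t) ^ k₂) ^ 2 := by
  have t0 : 0 < t := by linarith
  have c0 : 0 ≤ 4 / t := by positivity
  have c1 : 4 / t ≤ 1 := (div_le_one t0).2 ht
  simp_rw [mul_sum]
  rw [sum_comm' (t' := Q.powerset) (s' := fun S => Q.powerset.filter fun T => S ⊆ T)
    (fun T S => by
      simp only [mem_powerset, mem_filter]
      exact ⟨fun h => ⟨h, h.2.trans h.1⟩, fun h => h.1⟩)]
  have key : ∀ S ∈ Q.powerset, ∑ T ∈ Q.powerset with S ⊆ T,
      omg t Q T * ‖b S * dd S / (t : ℂ) ^ #S‖ ^ 2 ≤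
        if b S ≠ 0 then (4 / t) ^ (2 * k₂) * h else 0 := by
    intro S hS
    have hS' := mem_powerset.1 hS
    rw [← sum_mul, om_sup t hS', ccb_prod]
    split_ifs with h0
    · obtain ⟨h1, h2⟩ := hb0 S hS' h0
      have d0 : (0 : ℝ) < dd S := Nat.cast_pos.2 (ccb_pos fun q hq => hQ q (hS' hq))
      have h3 : ‖b S‖ ^ 2 ≤ 4 ^ #S := by
        calc _ ≤ ((2 : ℝ) ^ #S) ^ 2 := pow_le_pow_left₀ (norm_nonneg _) (hb S hS') 2
          _ = _ := by rw [← pow_mul, mul_comm, pow_mul]; norm_num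
      rw [norm_div, norm_mul, norm_pow, Complex.norm_natCast, Complex.norm_real,
        Real.norm_of_nonneg t0.le]
      calc _ = ‖b S‖ ^ 2 / t ^ #S * dd S := by field_simp
        _ ≤ 4 ^ #S / t ^ #S * h := by gcongr
        _ ≤ _ := by
          rw [← div_pow]
          exact mul_le_mul_of_nonneg_right (pow_le_pow_of_le_one c0 c1 h1) hh
    · rw [not_not.1 h0]
      simp
  refine (sum_le_sum key).trans ?_
  rw [← sum_filter, sum_const, nsmul_eq_mul]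
  have h4 := ccb_card hQ hh (F := Q.powerset.filter fun S => b S ≠ 0) fun S hS =>
    ⟨mem_powerset.1 (mem_filter.1 hS).1,
      (hb0 S (mem_powerset.1 (mem_filter.1 hS).1) (mem_filter.1 hS).2).2⟩
  calc _ ≤ h * ((4 / t) ^ (2 * k₂) * h) := mul_le_mul_of_nonneg_right h4 (by positivity)
    _ = _ := by ring

open Classical in
theorem cc_col {t : ℝ} {y k U E₀ : ℕ} {Q : Finset ℕ} (ht : 0 ≤ t)
    (hQ : ∀ q ∈ Q, q.Prime ∧ t ≤ q ∧ q ≤ y) {ι : Type} (I : Finset ι) (X : ι → ℤ)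
    (hcol : ∀ i ∈ I, #{i' ∈ I | U < #(Q.filter fun q : ℕ => (q : ℤ) ∣ X i - X i')} ≤ E₀) :
    ∑ T ∈ Q.powerset with #T ≤ k, omg t Q T * (colT I X T * dd T) ≤
      (#I : ℝ) ^ 2 * (1 + t * U) ^ k + #I * (E₀ * (1 + t * y) ^ k) := by
  have hy : #Q ≤ y := by
    have : Q ⊆ Icc 1 y := fun q hq => mem_Icc.2 ⟨(hQ q hq).1.pos, (hQ q hq).2.2⟩
    simpa using card_le_card this
  have key : ∀ N : ℤ, ∑ T ∈ Q.powerset with #T ≤ k,
      (if (dd T : ℤ) ∣ N then omg t Q T * dd T else 0) ≤ (1 + t * U) ^ k +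
        if U < #(Q.filter fun q : ℕ => (q : ℤ) ∣ N) then (1 + t * y) ^ k else 0 := by
    intro N
    have h1 : ∑ T ∈ Q.powerset with #T ≤ k, (if (dd T : ℤ) ∣ N then omg t Q T * dd T else 0) ≤
        (1 + t * #(Q.filter fun q : ℕ => (q : ℤ) ∣ N)) ^ k := by
      rw [← sum_filter]
      refine le_trans (sum_le_sum fun T hT => ?_) (le_trans
        (sum_le_sum_of_subset_of_nonneg (fun T hT => ?_) fun _ _ _ => pow_nonneg ht _)
        (ccb_pow ht _ k))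
      · have hT' := mem_powerset.1 (mem_filter.1 (mem_filter.1 hT).1).1
        have d0 : (0 : ℝ) < dd T := Nat.cast_pos.2 (ccb_pos fun q hq => (hQ q (hT' hq)).1)
        rw [← le_div_iff₀ d0, ← ccb_prod]
        exact om_le ht fun q hq => (hQ q hq).2.1
      · obtain ⟨h2, h3⟩ := mem_filter.1 hT
        obtain ⟨h4, h5⟩ := mem_filter.1 h2
        refine mem_filter.2 ⟨mem_powerset.2 fun q hq =>
          mem_filter.2 ⟨mem_powerset.1 h4 hq, dvd_trans ?_ h3⟩, h5⟩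
        exact Int.natCast_dvd_natCast.2 (dvd_prod_of_mem (fun q => q) hq)
    refine h1.trans ?_
    split_ifs with h2
    · have h3 : (#(Q.filter fun q : ℕ => (q : ℤ) ∣ N) : ℝ) ≤ y :=
        Nat.cast_le.2 ((card_filter_le _ _).trans hy)
      refine le_add_of_nonneg_of_le (by positivity) ?_
      gcongr
    · have h3 : (#(Q.filter fun q : ℕ => (q : ℤ) ∣ N) : ℝ) ≤ U := Nat.cast_le.2 (not_lt.1 h2)
      rw [add_zero]
      gcongr
  have e1 : ∀ T, omg t Q T * (colT I X T * dd T) = ∑ p ∈ I ×ˢ I,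
      if (dd T : ℤ) ∣ X p.1 - X p.2 then omg t Q T * dd T else 0 := by
    intro T
    rw [← sum_filter, sum_const, nsmul_eq_mul, colT]
    ring
  simp_rw [e1]
  rw [sum_comm]
  refine (sum_le_sum fun p _ => key (X p.1 - X p.2)).trans ?_
  rw [sum_add_distrib, sum_const, card_product, nsmul_eq_mul, Nat.cast_mul, ← sq, sum_product]
  refine add_le_add le_rfl ?_
  rw [← nsmul_eq_mul]
  refine sum_le_card_nsmul _ _ _ fun i hi => ?_
  rw [← sum_filter, sum_const, nsmul_eq_mul]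
  exact mul_le_mul_of_nonneg_right (Nat.cast_le.2 (hcol i hi)) (by positivity)

end

end Pool.Agent.MP_9f080f_an

namespace Pool.Agent.MP_9f080f_an
open Complex Finset
open scoped Real

noncomputable section

lemma cc_cs {κ : Type} (A : Finset κ) {ω f g : κ → ℝ} (hω : ∀ i, 0 ≤ ω i) (hf : ∀ i, 0 ≤ f i)
    (hg : ∀ i, 0 ≤ g i) {u v : ℝ} (hu : 0 ≤ u) (hv : 0 ≤ v) (h1 : ∑ i ∈ A, ω i * f i ≤ u ^ 2)
    (h2 : ∑ i ∈ A, ω i * g i ≤ v ^ 2) : ∑ i ∈ A, ω i * (√(f i) * √(g i)) ≤ u * v := by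
  have h := Real.sum_sqrt_mul_sqrt_le A (fun i => mul_nonneg (hω i) (hf i))
    fun i => mul_nonneg (hω i) (hg i)
  refine le_trans (le_of_eq (sum_congr rfl fun i _ => ?_)) (h.trans
    (mul_le_mul (Real.sqrt_le_iff.2 ⟨hu, h1⟩) (Real.sqrt_le_iff.2 ⟨hv, h2⟩) (Real.sqrt_nonneg _) hu))
  rw [Real.sqrt_mul (hω i), Real.sqrt_mul (hω i), mul_mul_mul_comm, Real.mul_self_sqrt (hω i)]

lemma cc_expand {t : ℝ} (ht : 0 < t) {Q : Finset ℕ} (hQ : ∀ q ∈ Q, q.Prime) (b c : Finset ℕ → ℂ) :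
    ∑ S ∈ Q.powerset, b S * c S = ∑ T ∈ Q.powerset, (omg t Q T : ℂ) *
      ∑ S ∈ T.powerset, b S * dd S / (t : ℂ) ^ #S * c S := by
  simp only [mul_sum]
  rw [sum_comm' (t' := Q.powerset) (s' := fun S => Q.powerset.filter fun T => S ⊆ T) (by
    intro T S
    simp only [mem_powerset, mem_filter]
    exact ⟨fun h => ⟨h, h.2.trans h.1⟩, fun h => h.1⟩)]
  refine sum_congr rfl fun S hS => ?_
  rw [mem_powerset] at hS
  have h1 : (dd S : ℂ) ≠ 0 := by
    rw [Nat.cast_ne_zero]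
    exact prod_ne_zero_iff.2 fun q hq => (hQ q (hS hq)).ne_zero
  have h2 : (t : ℂ) ≠ 0 := ofReal_ne_zero.2 ht.ne'
  rw [← sum_mul, ← ofReal_sum, om_sup t hS, prod_div_distrib, prod_const, ← Nat.cast_prod]
  change _ = ((t ^ #S / (dd S : ℝ) : ℝ) : ℂ) * _
  push_cast
  field_simp

lemma cc_sup {t h : ℝ} {k₂ : ℕ} {Q T : Finset ℕ} (ht : 4 ≤ t) (hh : 0 ≤ h) (hT : T ⊆ Q)
    {b : Finset ℕ → ℂ} (hb : ∀ S ⊆ Q, ‖b S‖ ≤ 2 ^ #S)
    (hb0 : ∀ S ⊆ Q, b S ≠ 0 → 2 * k₂ ≤ #S ∧ (dd S : ℝ) ≤ h) (x : ℤ) :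
    ‖∑ S ∈ T.powerset, b S * dd S / (t : ℂ) ^ #S * ep (2 * (x : ℂ) / dd S)‖ ≤
      h * (3 / 2) ^ #T := by
  have e : (3 / 2 : ℝ) ^ #T = ∑ S ∈ T.powerset, (1 / 2 : ℝ) ^ #S := by
    have := prod_one_add (f := fun _ => (1 / 2 : ℝ)) T
    simp only [prod_const] at this
    rw [← this]; norm_num
  rw [e, mul_sum]
  refine (norm_sum_le _ _).trans (sum_le_sum fun S hS => ?_)
  have hS' := (mem_powerset.1 hS).trans hT
  have e1 : ‖ep (2 * (x : ℂ) / dd S)‖ = 1 := by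
    rw [← norm_ep_real (2 * x / dd S)]; push_cast; rfl
  rw [norm_mul, e1, mul_one]
  by_cases h0 : b S = 0
  · rw [h0]; simp only [zero_mul, zero_div, norm_zero]; positivity
  · rw [norm_div, norm_mul, norm_pow, norm_natCast, norm_real, Real.norm_of_nonneg (by linarith),
      div_le_iff₀ (by positivity), mul_assoc, ← mul_pow, mul_comm]
    refine mul_le_mul (hb0 S hS' h0).2 ((hb S hS').trans ?_) (norm_nonneg _) hh
    exact pow_le_pow_left₀ (by norm_num) (by linarith) _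

open Classical in
theorem core {t L h : ℝ} {w y k s k₂ U E₀ : ℕ} {Q : Finset ℕ} (ht : 4 ≤ t) (hw : 2 * t ≤ w) (hy : 1 ≤ y)
    (hQ : ∀ q ∈ Q, q.Prime ∧ w < q ∧ q ≤ y) (hL : ∑ q ∈ Q, (1 : ℝ) / q ≤ L) (hs : 1 ≤ s) (hk₂ : 1 ≤ k₂)
    (hU : (1 + t * U) ^ k ≤ 4 ^ (s - 1)) {ι : Type} (I : Finset ι) (X : ι → ℤ) (a : ι → ℂ)
    (ha : ∀ i ∈ I, ‖a i‖ ≤ 1)
    (hcol : ∀ i ∈ I, #{i' ∈ I | U < #(Q.filter fun q : ℕ => (q : ℤ) ∣ X i - X i')} ≤ E₀) (hh : 0 ≤ h)
    (b : Finset ℕ → ℂ) (hb : ∀ S ⊆ Q, ‖b S‖ ≤ 2 ^ #S)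
    (hb0 : ∀ S ⊆ Q, b S ≠ 0 → 2 * k₂ ≤ #S ∧ (dd S : ℝ) ≤ h) :
    ‖∑ i ∈ I, a i * ∑ S ∈ Q.powerset, b S * ep (2 * (X i : ℂ) / dd S)‖ ≤
      h * ((4 * #I + E₀ * (1 + t * y) ^ k) * √s * (4 / t) ^ k₂ +
        #I * (Real.exp (2 * t * L) / 2 ^ k +
          2 ^ k * (2 * t / w * ((2 ^ k + 1) ^ (2 * s) * (4 * s + 2 * k * Real.log y))))) := by
  have ht0 : 0 < t := by linarith
  have hP : ∀ q ∈ Q, q.Prime := fun q hq => (hQ q hq).1
  have htq : ∀ q ∈ Q, t ≤ q := fun q hq => by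
    have : (w : ℝ) < q := by exact_mod_cast (hQ q hq).2.1
    linarith
  have hω : ∀ T, 0 ≤ omg t Q T := fun T => om_nonneg ht0.le htq
  set β : Finset ℕ → ℂ := fun S => b S * dd S / (t : ℂ) ^ #S with hβ
  have hβ0 : β ∅ = 0 := by
    have : b ∅ = 0 := by_contra fun h0 => by
      have := (hb0 ∅ (empty_subset _) h0).1
      rw [card_empty] at this; omega
    simp [hβ, this]
  set F : Finset ℕ → ℝ := fun T =>
    ∑ i ∈ I, ‖∑ S ∈ T.powerset, β S * ep (2 * (X i : ℂ) / dd S)‖ with hF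
  set N : ℝ := ((#I : ℕ) : ℝ) with hN
  have hN0 : 0 ≤ N := Nat.cast_nonneg _
  have h1 : ‖∑ i ∈ I, a i * ∑ S ∈ Q.powerset, b S * ep (2 * (X i : ℂ) / dd S)‖ ≤
      ∑ T ∈ Q.powerset, omg t Q T * F T := by
    rw [sum_congr rfl fun T _ => mul_sum I _ (omg t Q T), sum_comm]
    refine (norm_sum_le _ _).trans (sum_le_sum fun i hi => ?_)
    rw [norm_mul, cc_expand ht0 hP]
    refine (mul_le_of_le_one_left (norm_nonneg _) (ha i hi)).trans
      ((norm_sum_le _ _).trans (sum_le_sum fun T _ => le_of_eq ?_))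
    rw [norm_mul, norm_real, Real.norm_of_nonneg (hω T)]
  have h2 : ∀ T ⊆ Q, F T ≤ N * (h * (3 / 2) ^ #T) := fun T hT => by
    have := sum_le_card_nsmul I _ _ fun i _ => cc_sup ht hh hT hb hb0 (X i)
    rwa [nsmul_eq_mul] at this
  set B : Finset ℕ → ℝ := fun T => ∑ S ∈ T.powerset, ‖β S‖ ^ 2 with hB
  set C : Finset ℕ → ℝ := fun T => colT I X T * dd T / 4 ^ (s - 1) with hC
  have hB0 : ∀ T, 0 ≤ B T := fun T => sum_nonneg fun _ _ => sq_nonneg _
  have hC0 : ∀ T, 0 ≤ C T := fun T => by positivity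
  have h3 : ∀ T ∈ Q.powerset, omg t Q T * F T ≤ N * h / 2 ^ k * (omg t Q T * 3 ^ #T) +
      (if #T ≤ k ∧ Bad s T then N * h * 2 ^ k * omg t Q T else 0) +
      if #T ≤ k then √s * (2 * N * (omg t Q T * (√(B T) * √1)) +
        omg t Q T * (√(B T) * √(C T))) else 0 := by
    intro T hT
    rw [mem_powerset] at hT
    have a0 := hω T
    have a1 : 0 ≤ N * h / 2 ^ k * (omg t Q T * 3 ^ #T) := by positivity
    have a2 : 0 ≤ √s * (2 * N * (omg t Q T * (√(B T) * √1)) +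
        omg t Q T * (√(B T) * √(C T))) := by positivity
    have a3 := mul_le_mul_of_nonneg_left (h2 T hT) a0
    by_cases hk : #T ≤ k
    · rw [if_pos hk]
      by_cases hbad : Bad s T
      · rw [if_pos ⟨hk, hbad⟩]
        have a4 : (3 / 2 : ℝ) ^ #T ≤ 2 ^ k :=
          (pow_le_pow_left₀ (by norm_num) (by norm_num) _).trans (pow_le_pow_right₀ one_le_two hk)
        have a5 := mul_le_mul_of_nonneg_left a4 (show 0 ≤ omg t Q T * N * h by positivity)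
        refine le_add_of_le_of_nonneg (le_add_of_nonneg_of_le a1 ?_) a2
        exact (a3.trans_eq (by ring)).trans (a5.trans_eq (by ring))
      · rw [if_neg fun h => hbad h.2]
        have a4 := mul_le_mul_of_nonneg_left
          (cc_good hs (fun q hq => hP q (hT hq)) hbad β hβ0 I X) a0
        rw [Real.sqrt_one]
        change omg t Q T * F T ≤ omg t Q T * (√s * √(B T) * (2 * N + √(C T))) at a4
        linarith
    · rw [if_neg hk, if_neg fun h => hk h.1]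
      have a4 : (3 / 2 : ℝ) ^ #T ≤ 3 ^ #T / 2 ^ k := by
        rw [div_pow]
        exact div_le_div_of_nonneg_left (by positivity) (by positivity)
          (pow_le_pow_right₀ one_le_two (by omega))
      have a5 := mul_le_mul_of_nonneg_left a4 (show 0 ≤ omg t Q T * N * h by positivity)
      have a6 : N * h / 2 ^ k * (omg t Q T * 3 ^ #T) = omg t Q T * N * h * (3 ^ #T / 2 ^ k) := by
        ring
      linarith
  have h4 := sum_le_sum h3
  rw [sum_add_distrib, sum_add_distrib, ← sum_filter, ← sum_filter, ← mul_sum, ← mul_sum, ← mul_sum,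
    sum_add_distrib, ← mul_sum] at h4
  have b1 : ∑ T ∈ Q.powerset, omg t Q T * 3 ^ #T ≤ Real.exp (2 * t * L) := by
    refine (om_gen Q ht0.le (by norm_num)).trans (Real.exp_le_exp.2 ?_)
    rw [show (3 : ℝ) - 1 = 2 by norm_num]
    exact mul_le_mul_of_nonneg_left hL (by positivity)
  have b2 := om_bad (k := k) (s := s) ht0.le hw hy hQ
  set u : ℝ := h * (4 / t) ^ k₂ with hu
  set E : ℝ := (E₀ : ℝ) * (1 + t * y) ^ k with hE
  have hu0 : 0 ≤ u := by positivity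
  have hE0 : 0 ≤ E := by positivity
  have b3 : ∑ T ∈ Q.powerset with #T ≤ k, omg t Q T * B T ≤ u ^ 2 :=
    (sum_le_sum_of_subset_of_nonneg (filter_subset _ _) fun T _ _ =>
      mul_nonneg (hω T) (hB0 T)).trans (cc_beta ht hP hh b hb hb0)
  have b4 : ∑ T ∈ Q.powerset with #T ≤ k, omg t Q T * 1 ≤ 1 ^ 2 := by
    have := om_gen (z := 1) Q ht0.le le_rfl
    simp only [one_pow, sub_self, zero_mul, Real.exp_zero] at this
    rw [one_pow]
    exact (sum_le_sum_of_subset_of_nonneg (filter_subset _ _) fun T _ _ =>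
      mul_nonneg (hω T) zero_le_one).trans this
  have b5 : ∑ T ∈ Q.powerset with #T ≤ k, omg t Q T * C T ≤ (2 * N + E) ^ 2 := by
    have c1 := cc_col (k := k) ht0.le (fun q hq => ⟨hP q hq, htq q hq, (hQ q hq).2.2⟩) I X hcol
    have c2 : (1 : ℝ) ≤ 4 ^ (s - 1) := one_le_pow₀ (by norm_num)
    simp only [hC, ← mul_div_assoc]
    rw [← sum_div, div_le_iff₀ (by positivity)]
    have c3 := mul_le_mul_of_nonneg_left hU (sq_nonneg N)
    have c4 := mul_le_mul_of_nonneg_left c2 (mul_nonneg hN0 hE0)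
    have c5 : N ^ 2 + N * E ≤ (2 * N + E) ^ 2 := by nlinarith [mul_nonneg hN0 hE0]
    have c6 := mul_le_mul_of_nonneg_right c5 (zero_le_one.trans c2)
    linarith
  have b6 := cc_cs _ hω hB0 (fun _ => zero_le_one) hu0 zero_le_one b3 b4
  have b7 := cc_cs _ hω hB0 hC0 hu0 (by positivity) b3 b5
  have d1 := mul_le_mul_of_nonneg_left b1 (show 0 ≤ N * h / 2 ^ k by positivity)
  have d2 := mul_le_mul_of_nonneg_left b2 (show 0 ≤ N * h * 2 ^ k by positivity)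
  have d3 := mul_le_mul_of_nonneg_left
    (add_le_add (mul_le_mul_of_nonneg_left b6 (show 0 ≤ 2 * N by positivity)) b7)
    (Real.sqrt_nonneg s)
  refine (h1.trans (h4.trans (add_le_add (add_le_add d1 d2) d3))).trans (le_of_eq ?_)
  rw [hu]
  ring

end

end Pool.Agent.MP_9f080f_an
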