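import Pool.Agent.MP_9f080f_an.Mg.PV

namespace Pool.Agent.MP_9f080f_an
open Complex Finset
open scoped Real

noncomputable section

/-! Vinogradov mean value theorem, part A: energies and orthogonality.
`en_ortho`: expand the square, swap sums, factor the sum over `ξ` as a product over `j`
(`Finset.prod_univ_sum`, `ep` of a sum is a product), use `pv_orth` in each coordinate and `|d| < L, L ∣ d → d = 0`.
`en_rep`: the square of the fibre injects into the set of pairs.  `en_shift`: with `r v = #fibre`,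
the count is `∑ u, r (u + v) * r u ≤ ∑ r u ^ 2` (`2ab ≤ a² + b²`, sums over the finite image), and `En = ∑ r u ^ 2`.
`sum_tup`: `Finset.prod_univ_sum`. -/

/-- the vector of power sums -/
def pw (k : ℕ) {α : Type} [Fintype α] (x : α → ℕ) : Fin k → ℤ :=
  fun j => ∑ i, (x i : ℤ) ^ (j.val + 1)

open Classical in
/-- the number of coincidences -/
def En {X : Type} {k : ℕ} (A : Finset X) (φ : X → Fin k → ℤ) : ℕ :=
  #{p ∈ A ×ˢ A | φ p.1 = φ p.2}

/-- tuples with entries below `N` -/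
def tup (s N : ℕ) : Finset (Fin s → ℕ) := Fintype.piFinset fun _ => range N

/-- the Vinogradov count -/
def Jv (s k N : ℕ) : ℕ := En (tup s N) (pw k)

/-- characters of the grid -/
def ch (L : ℕ) {k : ℕ} (ξ : Fin k → ℕ) (v : Fin k → ℤ) : ℂ :=
  ep (2 * (∑ j, (ξ j : ℂ) * v j) / L)

lemma ch_add (L : ℕ) {k : ℕ} (ξ : Fin k → ℕ) (v w : Fin k → ℤ) :
    ch L ξ (v + w) = ch L ξ v * ch L ξ w := by
  unfold ch
  rw [← ep_add]
  congr 1
  simp only [Pi.add_apply, Int.cast_add, mul_add, sum_add_distrib, add_div]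

lemma norm_ch (L : ℕ) {k : ℕ} (ξ : Fin k → ℕ) (v : Fin k → ℤ) : ‖ch L ξ v‖ = 1 := by
  rw [← norm_ep_real (2 * (∑ j, (ξ j : ℝ) * v j) / L), ch]
  push_cast
  rfl

lemma va_prod {ι : Type} (S : Finset ι) (f : ι → ℂ) : ep (∑ i ∈ S, f i) = ∏ i ∈ S, ep (f i) := by
  simp only [ep, mul_sum, Complex.exp_sum]

lemma va_orth {k L : ℕ} (hL : 0 < L) (d : Fin k → ℤ) (h : ∀ j, |d j| < L) :
    ∑ ξ ∈ tup k L, ch L ξ d = if d = 0 then (L : ℂ) ^ k else 0 := by
  have e : ∀ ξ : Fin k → ℕ, ch L ξ d = ∏ j, ep (2 * (ξ j : ℂ) * d j / L) := fun ξ => by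
    rw [ch, ← va_prod, mul_sum, sum_div]
    simp only [mul_assoc]
  simp only [e]
  rw [tup, ← prod_univ_sum (fun _ : Fin k => range L) fun j (m : ℕ) => ep (2 * (m : ℂ) * d j / L)]
  simp only [pv_orth hL]
  split_ifs with h0
  · simp [h0]
  · obtain ⟨j, hj⟩ := Function.ne_iff.1 h0
    exact prod_eq_zero (mem_univ j) (if_neg fun hd => hj (Int.eq_zero_of_abs_lt_dvd hd (h j)))

theorem en_ortho {X : Type} {k L : ℕ} (hL : 0 < L) (A : Finset X) (φ : X → Fin k → ℤ)
    (h : ∀ x ∈ A, ∀ y ∈ A, ∀ j, |φ x j - φ y j| < L) :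
    ∑ ξ ∈ tup k L, ‖∑ x ∈ A, ch L ξ (φ x)‖ ^ 2 = (L : ℝ) ^ k * En A φ := by
  classical
  have e : ∀ ξ : Fin k → ℕ, ((‖∑ x ∈ A, ch L ξ (φ x)‖ ^ 2 : ℝ) : ℂ) =
      ∑ p ∈ A ×ˢ A, ch L ξ (φ p.1 - φ p.2) := by
    intro ξ
    rw [ofReal_pow, ← Complex.mul_conj', map_sum, sum_mul_sum, sum_product]
    refine sum_congr rfl fun x _ => sum_congr rfl fun y _ => ?_
    have h1 := ch_add L ξ (φ x - φ y) (φ y)
    have h2 := Complex.mul_conj' (ch L ξ (φ y))
    rw [norm_ch] at h2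
    rw [sub_add_cancel] at h1
    rw [h1, mul_assoc, h2]
    simp
  apply Complex.ofReal_injective
  rw [ofReal_sum, sum_congr rfl fun ξ _ => e ξ, sum_comm,
    sum_congr rfl fun p hp => va_orth hL (φ p.1 - φ p.2)
      (h _ (mem_product.1 hp).1 _ (mem_product.1 hp).2), ← sum_filter, sum_const, En]
  simp only [sub_eq_zero, nsmul_eq_mul]
  push_cast
  rw [mul_comm]

open Classical in
theorem en_rep {X : Type} {k : ℕ} (A : Finset X) (φ : X → Fin k → ℤ) (v : Fin k → ℤ) :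
    #{x ∈ A | φ x = v} ^ 2 ≤ En A φ := by
  rw [sq, ← card_product]
  refine card_le_card fun p hp => ?_
  simp only [mem_product, mem_filter] at hp ⊢
  exact ⟨⟨hp.1.1, hp.2.1⟩, hp.1.2.trans hp.2.2.symm⟩

open Classical in
lemma va_count {X : Type} {k : ℕ} (A : Finset X) (φ : X → Fin k → ℤ) (v : Fin k → ℤ) :
    #{p ∈ A ×ˢ A | φ p.1 - φ p.2 = v} =
      ∑ u ∈ A.image φ, #{x ∈ A | φ x = u + v} * #{x ∈ A | φ x = u} := by
  rw [card_eq_sum_card_fiberwise (f := fun p : X × X => φ p.2) (t := A.image φ)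
    fun p hp => mem_coe.2 (mem_image_of_mem _ (mem_product.1 (mem_filter.1 hp).1).2)]
  refine sum_congr rfl fun u _ => ?_
  rw [← card_product]
  congr 1
  ext p
  simp only [mem_filter, mem_product]
  constructor
  · rintro ⟨⟨⟨a, b⟩, c⟩, d⟩
    exact ⟨⟨a, by rw [← c, ← d]; abel⟩, b, d⟩
  · rintro ⟨⟨a, c⟩, b, d⟩
    exact ⟨⟨⟨a, b⟩, by rw [c, d]; abel⟩, d⟩

open Classical in
theorem en_shift {X : Type} {k : ℕ} (A : Finset X) (φ : X → Fin k → ℤ) (v : Fin k → ℤ) :
    #{p ∈ A ×ˢ A | φ p.1 - φ p.2 = v} ≤ En A φ := by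
  have h0 : En A φ = ∑ u ∈ A.image φ, #{x ∈ A | φ x = u} ^ 2 := by
    have := va_count A φ 0
    simp only [sub_eq_zero, add_zero, ← sq] at this
    rw [← this, En]
  have h1 : ∑ u ∈ A.image φ, #{x ∈ A | φ x = u + v} ^ 2 ≤
      ∑ u ∈ A.image φ, #{x ∈ A | φ x = u} ^ 2 := by
    rw [← sum_image (f := fun w => #{x ∈ A | φ x = w} ^ 2) (g := fun u => u + v)
      fun a _ b _ e => add_right_cancel e]
    refine sum_le_sum_of_ne_zero fun w _ hw => ?_
    obtain ⟨x, hx⟩ := card_ne_zero.1 (pow_ne_zero_iff two_ne_zero |>.1 hw)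
    exact mem_image.2 ⟨x, (mem_filter.1 hx).1, (mem_filter.1 hx).2⟩
  have h2 : ∑ u ∈ A.image φ, 2 * (#{x ∈ A | φ x = u + v} * #{x ∈ A | φ x = u}) ≤
      ∑ u ∈ A.image φ, (#{x ∈ A | φ x = u + v} ^ 2 + #{x ∈ A | φ x = u} ^ 2) :=
    sum_le_sum fun u _ => by rw [← mul_assoc]; exact two_mul_le_add_sq _ _
  rw [← mul_sum, sum_add_distrib] at h2
  rw [va_count, h0]
  omega

theorem Jv_mono (s k : ℕ) {N N' : ℕ} (h : N ≤ N') : Jv s k N ≤ Jv s k N' := by
  have : tup s N ⊆ tup s N' := Fintype.piFinset_subset _ _ fun _ => range_subset_range.2 h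
  exact card_le_card (filter_subset_filter _ (product_subset_product this this))

theorem Jv_triv (s k N : ℕ) : Jv s k N ≤ N ^ (2 * s) := by
  refine (card_filter_le _ _).trans (le_of_eq ?_)
  simp [tup, two_mul, pow_add]

theorem sum_tup (L s : ℕ) {k : ℕ} (ξ : Fin k → ℕ) (B : Finset ℕ) :
    ∑ x ∈ Fintype.piFinset (fun _ : Fin s => B), ch L ξ (pw k x) =
      (∑ b ∈ B, ch L ξ (fun j => (b : ℤ) ^ (j.val + 1))) ^ s := by
  have e : ∀ x : Fin s → ℕ, ch L ξ (pw k x) =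
      ∏ i, ch L ξ (fun j => (x i : ℤ) ^ (j.val + 1)) := fun x => by
    simp only [ch, pw]
    rw [← va_prod, ← sum_div, ← mul_sum, sum_comm]
    simp only [Int.cast_sum, mul_sum]
  simp only [e]
  rw [← prod_univ_sum (fun _ : Fin s => B)
    fun _ (b : ℕ) => ch L ξ fun j => (b : ℤ) ^ (j.val + 1), prod_const, card_univ, Fintype.card_fin]

/-- power sums of tuples below `N` lie in `[0, s N^k]` -/
lemma pw_bound {s k N : ℕ} {x : Fin s → ℕ} (hx : x ∈ tup s N) (j : Fin k) :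
    0 ≤ pw k x j ∧ pw k x j ≤ s * N ^ k := by
  refine ⟨sum_nonneg fun i _ => by positivity, ?_⟩
  refine (sum_le_card_nsmul univ _ ((N : ℤ) ^ k) fun i _ => ?_).trans (by simp)
  have h : x i < N := mem_range.1 (Fintype.mem_piFinset.1 hx i)
  exact_mod_cast (Nat.pow_le_pow_left h.le _).trans (Nat.pow_le_pow_right (by omega) j.2)

theorem Jv_ortho {s k N L : ℕ} (hL : s * N ^ k < L) :
    ∑ ξ ∈ tup k L, ‖∑ h ∈ range N, ch L ξ (fun j => (h : ℤ) ^ (j.val + 1))‖ ^ (2 * s) =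
      (L : ℝ) ^ k * Jv s k N := by
  rw [Jv, ← en_ortho (by omega) (tup s N) (pw k) fun x hx y hy j => ?_]
  · refine sum_congr rfl fun ξ _ => ?_
    rw [tup, sum_tup, norm_pow, ← pow_mul, mul_comm]
  · have h1 := pw_bound (k := k) hx j
    have h2 := pw_bound (k := k) hy j
    have h3 : (s : ℤ) * N ^ k < L := by exact_mod_cast hL
    rw [abs_lt]
    constructor <;> linarith [h1.1, h1.2, h2.1, h2.2]

end

end Pool.Agent.MP_9f080f_an

namespace Pool.Agent.MP_9f080f_an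
open Complex Finset
open scoped Real

noncomputable section

/-! Vinogradov mean value theorem, part B: the lemma of Linnik.
`newton_prod`: in a commutative ring in which `1, …, k` are units, equal power sums give equal elementary
symmetric functions (`MvPolynomial.mul_esymm_eq_sum` or `psum_eq_mul_esymm_sub_sum` under `aeval`, strong induction),
hence `∏ (t - y i) = ∏ (t - z i)` (`Multiset.prod_X_sub_C_eq_sum_esymm`, `Finset.prod_sub...`, or
`MvPolynomial.prod_X_add_C_eq_sum_esymm`-type lemmas).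
`linnik`: map `y` to `(∑ (y i - a)^(j+1) mod p^k)_j`; because of the congruences modulo `p^(j+1)` the image has at most
`∏ p^(k-j-1) = p^(k(k-1)/2)` elements.  Fibres: if `y, z` have the same image, then in `ZMod (p^k)`
`∏_l (z i - y l) = 0`; the `y l` are distinct modulo `p`, so at most one factor is divisible by `p`, hence
`p^k ∣ z i - y l` for some `l`, and `z i = y l` as both are `< N ≤ p^k`; so `z = y ∘ f`, at most `k^k` choices. -/

theorem vba_esymm {R : Type} [CommRing R] {k : ℕ} (hu : ∀ m : ℕ, 1 ≤ m → m ≤ k → IsUnit (m : R))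
    (y z : Fin k → R) (h : ∀ j : ℕ, 1 ≤ j → j ≤ k → ∑ i, y i ^ j = ∑ i, z i ^ j) (m : ℕ)
    (hm : m ≤ k) : MvPolynomial.aeval y (MvPolynomial.esymm (Fin k) R m) =
      MvPolynomial.aeval z (MvPolynomial.esymm (Fin k) R m) := by
  induction m using Nat.strong_induction_on with
  | _ m ih =>
    rcases Nat.eq_zero_or_pos m with rfl | h0
    · simp
    refine (hu m h0 hm).mul_left_cancel ?_
    have h1 := congrArg (MvPolynomial.aeval y) (MvPolynomial.mul_esymm_eq_sum (Fin k) R m)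
    have h2 := congrArg (MvPolynomial.aeval z) (MvPolynomial.mul_esymm_eq_sum (Fin k) R m)
    simp only [map_mul, map_natCast, map_pow, map_neg, map_one, map_sum, MvPolynomial.psum,
      MvPolynomial.aeval_X] at h1 h2
    rw [h1, h2]
    congr 1
    refine sum_congr rfl fun a ha => ?_
    obtain ⟨h3, h4⟩ := mem_filter.1 ha
    have h5 := mem_antidiagonal.1 h3
    rw [ih a.1 h4 (by omega), h a.2 (by omega) (by omega)]

theorem newton_prod {R : Type} [CommRing R] {k : ℕ} (hu : ∀ m : ℕ, 1 ≤ m → m ≤ k → IsUnit (m : R))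
    (y z : Fin k → R) (h : ∀ j : ℕ, 1 ≤ j → j ≤ k → ∑ i, y i ^ j = ∑ i, z i ^ j) (t : R) :
    ∏ i, (t - y i) = ∏ i, (t - z i) := by
  have key : ∀ w : Fin k → R, ∏ i, (t - w i) = ∑ j ∈ range (k + 1),
      (-1) ^ j * (MvPolynomial.aeval w (MvPolynomial.esymm (Fin k) R j) * t ^ (k - j)) := fun w => by
    have h1 := congrArg (Polynomial.eval t)
      (Multiset.prod_X_sub_X_eq_sum_esymm (univ.val.map w))
    simp only [Polynomial.eval_multiset_prod, Multiset.map_map, Function.comp_def,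
      Polynomial.eval_sub, Polynomial.eval_X, Polynomial.eval_C, Multiset.card_map, card_val,
      card_univ, Fintype.card_fin, Polynomial.eval_finsetSum, Polynomial.eval_mul,
      Polynomial.eval_pow, Polynomial.eval_neg, Polynomial.eval_one] at h1
    simp only [MvPolynomial.aeval_esymm_eq_multiset_esymm]
    exact h1
  rw [key, key]
  exact sum_congr rfl fun j hj => by
    rw [vba_esymm hu y z h j (Nat.lt_succ_iff.1 (mem_range.1 hj))]

open Classical in
/-- tuples with entries distinct modulo `p` -/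
def dtup (k N p : ℕ) : Finset (Fin k → ℕ) :=
  {x ∈ tup k N | Function.Injective fun i => x i % p}

end

end Pool.Agent.MP_9f080f_an

namespace Pool.Agent.MP_9f080f_an
open Complex Finset
open scoped Real

noncomputable section

/-! Vinogradov mean value theorem, part B: the lemma of Linnik. -/

/-- equal power sums modulo `p ^ k` force the entries of `z` to be entries of `y` -/
lemma vb_fibre {k N p : ℕ} (hp : p.Prime) (hk : k < p) (hN : N ≤ p ^ k) (a : ℤ)
    {y z : Fin k → ℕ} (hy : y ∈ dtup k N p) (hz : z ∈ dtup k N p)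
    (h : ∀ j : Fin k, (p : ℤ) ^ k ∣
      ∑ i, ((y i : ℤ) - a) ^ (j.val + 1) - ∑ i, ((z i : ℤ) - a) ^ (j.val + 1)) (i : Fin k) :
    ∃ l, z i = y l := by
  classical
  simp only [dtup, tup, mem_filter, Fintype.mem_piFinset, mem_range] at hy hz
  have h1 := newton_prod (R := ZMod (p ^ k)) (k := k)
    (fun m hm hm' => (ZMod.isUnit_iff_coprime m _).2
      (Nat.Coprime.pow_right _ (Nat.coprime_of_lt_prime (by omega) (by omega) hp).symm))
    (fun l => (((y l : ℤ) - a : ℤ) : ZMod (p ^ k))) (fun l => (((z l : ℤ) - a : ℤ) : ZMod (p ^ k)))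
    (fun j hj hj' => by
      have h2 := h ⟨j - 1, by omega⟩
      rw [show ((⟨j - 1, by omega⟩ : Fin k) : ℕ) + 1 = j by dsimp only; omega] at h2
      have h3 := (ZMod.intCast_zmod_eq_zero_iff_dvd _ (p ^ k)).2 (by exact_mod_cast h2)
      rw [Int.cast_sub, sub_eq_zero, Int.cast_sum, Int.cast_sum] at h3
      simpa only [Int.cast_pow] using h3)
    (((z i : ℤ) - a : ℤ) : ZMod (p ^ k))
  rw [prod_eq_zero (f := fun l => (((z i : ℤ) - a : ℤ) : ZMod (p ^ k)) -
    (((z l : ℤ) - a : ℤ) : ZMod (p ^ k))) (mem_univ i) (sub_self _)] at h1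
  have h2 : (p : ℤ) ^ k ∣ ∏ l, ((z i : ℤ) - y l) := by
    have h3 : ((∏ l, ((z i : ℤ) - y l) : ℤ) : ZMod (p ^ k)) = 0 := by
      rw [← h1, Int.cast_prod]
      exact prod_congr rfl fun l _ => by rw [← Int.cast_sub]; congr 1; ring
    exact_mod_cast (ZMod.intCast_zmod_eq_zero_iff_dvd _ (p ^ k)).1 h3
  have hpz : Prime (p : ℤ) := Nat.prime_iff_prime_int.1 hp
  obtain ⟨l, -, hl⟩ := (Prime.dvd_finsetProd_iff hpz _).1
    ((dvd_pow_self (p : ℤ) (by have := i.2; omega)).trans h2)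
  refine ⟨l, ?_⟩
  rw [← mul_prod_erase _ _ (mem_univ l)] at h2
  have h3 : (p : ℤ) ^ k ∣ (z i : ℤ) - y l := by
    refine hpz.pow_dvd_of_dvd_mul_right k (fun h4 => ?_) h2
    obtain ⟨l', hl', h5⟩ := (Prime.dvd_finsetProd_iff hpz _).1 h4
    refine ne_of_mem_erase hl' (hy.2 ?_)
    have h6 : (p : ℤ) ∣ (y l : ℤ) - y l' := by
      have h7 := dvd_sub h5 hl
      rwa [sub_sub_sub_cancel_left] at h7
    exact (Nat.modEq_iff_dvd).2 h6
  have h4 : (N : ℤ) ≤ (p : ℤ) ^ k := by exact_mod_cast hN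
  have h5 := hy.1 l
  have h6 := hz.1 i
  have h7 := Int.eq_zero_of_abs_lt_dvd h3 (abs_lt.2 ⟨by omega, by omega⟩)
  omega

open Classical in
theorem linnik {k N p : ℕ} (hp : p.Prime) (hk : k < p) (hN : N ≤ p ^ k) (a : ℤ) (v : Fin k → ℤ) :
    #{y ∈ dtup k N p | ∀ j : Fin k, (p : ℤ) ^ (j.val + 1) ∣ ∑ i, ((y i : ℤ) - a) ^ (j.val + 1) - v j} ≤
      k ^ k * p ^ (k * (k - 1) / 2) := by
  have hp0 : (0 : ℤ) < p := by exact_mod_cast hp.pos
  have hc : #(Fintype.piFinset fun j : Fin k => Ico (0 : ℤ) ((p : ℤ) ^ (k - 1 - j.val))) =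
      p ^ (k * (k - 1) / 2) := by
    rw [Fintype.card_piFinset, ← sum_range_id, ← sum_range_reflect, ← prod_pow_eq_pow_sum,
      ← Fin.prod_univ_eq_prod_range fun j => p ^ (k - 1 - j)]
    refine prod_congr rfl fun j _ => ?_
    rw [Int.card_Ico, sub_zero]
    exact_mod_cast Int.toNat_natCast (p ^ (k - 1 - j.val))
  rw [← hc]
  refine card_le_mul_card_image_of_maps_to (f := fun (y : Fin k → ℕ) (j : Fin k) =>
    ((∑ i, ((y i : ℤ) - a) ^ (j.val + 1) - v j) / (p : ℤ) ^ (j.val + 1)) %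
      (p : ℤ) ^ (k - 1 - j.val)) (fun y _ => ?_) _ fun b _ => ?_
  · refine Fintype.mem_piFinset.2 fun j => mem_Ico.2 ⟨?_, ?_⟩
    · exact Int.emod_nonneg _ (pow_pos hp0 _).ne'
    · exact Int.emod_lt_of_pos _ (pow_pos hp0 _)
  · by_contra hcon
    obtain ⟨y, hy⟩ := card_pos.1 ((Nat.zero_le _).trans_lt (not_le.1 hcon))
    refine hcon ?_
    refine (card_le_card (t := univ.image fun g : Fin k → Fin k => y ∘ g) fun z hz => ?_).trans
      (card_image_le.trans (by simp))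
    simp only [mem_filter] at hy hz
    choose g hg using vb_fibre hp hk hN a hy.1.1 hz.1.1 fun j => by
      obtain ⟨c, hc⟩ := hy.1.2 j
      obtain ⟨c', hc'⟩ := hz.1.2 j
      have h1 := congrFun (hy.2.trans hz.2.symm) j
      rw [hc, hc', Int.mul_ediv_cancel_left _ (pow_pos hp0 _).ne',
        Int.mul_ediv_cancel_left _ (pow_pos hp0 _).ne'] at h1
      obtain ⟨e, he⟩ := Int.ModEq.dvd h1.symm
      refine ⟨e, ?_⟩
      have h2 : (p : ℤ) ^ k = (p : ℤ) ^ (j.val + 1) * (p : ℤ) ^ (k - 1 - j.val) := by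
        rw [← pow_add]; congr 1; have := j.2; omega
      rw [h2]
      linear_combination hc - hc' + (p : ℤ) ^ (j.val + 1) * he
    exact mem_image.2 ⟨g, mem_univ _, (funext hg).symm⟩

end

end Pool.Agent.MP_9f080f_an

namespace Pool.Agent.MP_9f080f_an
open Complex Finset
open scoped Real

noncomputable section

/-! Vinogradov mean value theorem, part C: one prime.
`pw_shift`: binomial theorem (`sub_pow`/`add_pow`), the terms of degree `0` agree because both sides have the same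
number of variables.
`vm_class`: write `u i = a + p * u' i` with `u' ∈ tup s (N / p + 1)`.  A coincidence `((x,u),(y,v))` gives, by
`pw_shift`, `∑ (y i - a)^j - ∑ (x i - a)^j = p^j (∑ u' i ^ j - ∑ v' i ^ j)`.  Choose `x` (`N^k` ways), then `y` (`linnik`),
then `(u', v')` (`en_shift`; the difference `pw u' - pw v'` is determined by `x, y`).
`vm_prime`: choose `L` large, `en_ortho`, `ch_add`, `sum_tup`: the energy is `L^(-k) ∑ ξ ‖F ξ‖² ‖f ξ‖^(2s)` with
`f = ∑_{a<p} f_a`; power mean `‖f‖^(2s) ≤ p^(2s-1) ∑ ‖f_a‖^(2s)` (`Finset.pow_sum_le_card_mul_sum_pow`-type lemma,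
`pow_sum_le_card_mul_sum_pow`), and `en_ortho` again for each class. -/

lemma pw_shift {α β : Type} [Fintype α] [Fintype β] {k : ℕ} (x y : α → ℤ) (u v : β → ℤ) (a : ℤ)
    (h : ∀ j : ℕ, 1 ≤ j → j ≤ k → ∑ i, x i ^ j + ∑ i, u i ^ j = ∑ i, y i ^ j + ∑ i, v i ^ j)
    (j : ℕ) (hj : j ≤ k) :
    ∑ i, (x i - a) ^ j + ∑ i, (u i - a) ^ j = ∑ i, (y i - a) ^ j + ∑ i, (v i - a) ^ j := by
  have e : ∀ {γ : Type} [Fintype γ] (z : γ → ℤ), ∑ i, (z i - a) ^ j =
      ∑ m ∈ range (j + 1), (∑ i, z i ^ m) * ((-a) ^ (j - m) * (j.choose m : ℤ)) := by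
    intro γ _ z
    simp only [sub_eq_add_neg, add_pow, sum_mul]
    rw [sum_comm]
    exact sum_congr rfl fun m _ => sum_congr rfl fun i _ => by ring
  rw [e x, e u, e y, e v, ← sum_add_distrib, ← sum_add_distrib]
  refine sum_congr rfl fun m hm => ?_
  rw [← add_mul, ← add_mul]
  congr 1
  rcases Nat.eq_zero_or_pos m with rfl | hm0
  · simp
  · exact h m hm0 (by have := mem_range.1 hm; omega)

lemma vca_cast {p a b : ℕ} (h : b % p = a) : (b : ℤ) - a = p * (b / p : ℕ) := by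
  have h1 := Nat.div_add_mod b p
  rw [h] at h1
  have h2 : ((p * (b / p) + a : ℕ) : ℤ) = b := by rw [h1]
  push_cast at h2 ⊢
  linarith

lemma vca_key {s k p a : ℕ} {x y : Fin k → ℕ} {u v : Fin s → ℕ} (hu : ∀ i, u i % p = a)
    (hv : ∀ i, v i % p = a) (h : pw k x + pw k u = pw k y + pw k v) (j : Fin k) :
    ∑ i, ((y i : ℤ) - a) ^ (j.val + 1) - ∑ i, ((x i : ℤ) - a) ^ (j.val + 1) =
      (p : ℤ) ^ (j.val + 1) * (pw k (fun i => u i / p) j - pw k (fun i => v i / p) j) := by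
  have h1 := pw_shift (k := k) (fun i => (x i : ℤ)) (fun i => (y i : ℤ)) (fun i => (u i : ℤ))
    (fun i => (v i : ℤ)) a (fun m h1 h2 => by
      have h3 := congrFun h ⟨m - 1, by omega⟩
      simp only [pw, Pi.add_apply, show m - 1 + 1 = m by omega] at h3
      exact h3) (j.val + 1) j.2
  simp only [vca_cast (hu _), vca_cast (hv _), mul_pow, ← mul_sum] at h1
  unfold pw
  linarith

theorem vm_class {s k N p a : ℕ} (hp : p.Prime) (hk : k < p) (hN : N ≤ p ^ k) (ha : a < p) :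
    En (dtup k N p ×ˢ Fintype.piFinset fun _ : Fin s => (range N).filter fun b => b % p = a)
        (fun z => pw k z.1 + pw k z.2) ≤
      N ^ k * (k ^ k * p ^ (k * (k - 1) / 2)) * Jv s k (N / p + 1) := by
  classical
  have hp0 : (p : ℤ) ≠ 0 := by exact_mod_cast hp.ne_zero
  let P : Finset ((Fin k → ℕ) × (Fin k → ℕ)) := {q ∈ dtup k N p ×ˢ dtup k N p | ∀ j : Fin k,
    (p : ℤ) ^ (j.val + 1) ∣
      ∑ i, ((q.2 i : ℤ) - a) ^ (j.val + 1) - ∑ i, ((q.1 i : ℤ) - a) ^ (j.val + 1)}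
  have hD : #(dtup k N p) ≤ N ^ k := by
    refine (card_filter_le _ _).trans ?_
    simp [tup]
  have hP : #P ≤ (k ^ k * p ^ (k * (k - 1) / 2)) * #(dtup k N p) := by
    refine card_le_mul_card_image_of_maps_to (f := Prod.fst)
      (fun q hq => (mem_product.1 (mem_filter.1 hq).1).1) _ fun x _ => ?_
    refine le_trans ?_ (linnik hp hk hN a fun j => ∑ i, ((x i : ℤ) - a) ^ (j.val + 1))
    refine card_le_card_of_injOn Prod.snd (fun q hq => ?_) fun q hq q' hq' h => ?_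
    · obtain ⟨h1, h2⟩ := mem_filter.1 (mem_coe.1 hq)
      obtain ⟨h3, h4⟩ := mem_filter.1 h1
      refine mem_coe.2 (mem_filter.2 ⟨(mem_product.1 h3).2, ?_⟩)
      rw [← h2]
      exact h4
    · exact Prod.ext ((mem_filter.1 (mem_coe.1 hq)).2.trans (mem_filter.1 (mem_coe.1 hq')).2.symm) h
  have hU : ∀ u ∈ Fintype.piFinset fun _ : Fin s => (range N).filter fun b => b % p = a,
      (∀ i, u i % p = a) ∧ (fun i => u i / p) ∈ tup s (N / p + 1) := by
    intro u hu
    have h1 := fun i => mem_filter.1 (Fintype.mem_piFinset.1 hu i)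
    refine ⟨fun i => (h1 i).2, Fintype.mem_piFinset.2 fun i => mem_range.2 ?_⟩
    exact Nat.lt_succ_of_le (Nat.div_le_div_right (mem_range.1 (h1 i).1).le)
  have hS : En (dtup k N p ×ˢ Fintype.piFinset fun _ : Fin s => (range N).filter fun b => b % p = a)
      (fun z => pw k z.1 + pw k z.2) ≤ Jv s k (N / p + 1) * #P := by
    unfold En
    refine card_le_mul_card_image_of_maps_to (f := fun q => (q.1.1, q.2.1)) (fun q hq => ?_) _
      fun b _ => ?_
    · obtain ⟨h1, h2⟩ := mem_filter.1 hq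
      obtain ⟨h3, h4⟩ := mem_product.1 h1
      refine mem_filter.2 ⟨mem_product.2 ⟨(mem_product.1 h3).1, (mem_product.1 h4).1⟩, fun j => ?_⟩
      exact ⟨_, vca_key (hU _ (mem_product.1 h3).2).1 (hU _ (mem_product.1 h4).2).1 h2 j⟩
    · refine le_trans ?_ (en_shift (tup s (N / p + 1)) (pw k) fun j =>
        (∑ i, ((b.2 i : ℤ) - a) ^ (j.val + 1) - ∑ i, ((b.1 i : ℤ) - a) ^ (j.val + 1)) /
          (p : ℤ) ^ (j.val + 1))
      refine card_le_card_of_injOn (fun q => (fun i => q.1.2 i / p, fun i => q.2.2 i / p))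
        (fun q hq => ?_) fun q hq q' hq' h => ?_
      · obtain ⟨h0, rfl⟩ := mem_filter.1 (mem_coe.1 hq)
        obtain ⟨h1, h2⟩ := mem_filter.1 h0
        obtain ⟨h3, h4⟩ := mem_product.1 h1
        refine mem_coe.2 (mem_filter.2 ⟨mem_product.2
          ⟨(hU _ (mem_product.1 h3).2).2, (hU _ (mem_product.1 h4).2).2⟩, funext fun j => ?_⟩)
        dsimp only
        rw [vca_key (hU _ (mem_product.1 h3).2).1 (hU _ (mem_product.1 h4).2).1 h2 j,
          Int.mul_ediv_cancel_left _ (pow_ne_zero _ hp0), Pi.sub_apply]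
      · obtain ⟨h0, hb⟩ := mem_filter.1 (mem_coe.1 hq)
        obtain ⟨h0', hb'⟩ := mem_filter.1 (mem_coe.1 hq')
        obtain ⟨h3, h4⟩ := mem_product.1 (mem_filter.1 h0).1
        obtain ⟨h3', h4'⟩ := mem_product.1 (mem_filter.1 h0').1
        have e := hb.trans hb'.symm
        have key : ∀ u u' : Fin s → ℕ, (∀ i, u i % p = a) → (∀ i, u' i % p = a) →
            ((fun i => u i / p) = fun i => u' i / p) → u = u' := by
          intro u u' h1 h2 h5
          funext i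
          have h6 : u i / p = u' i / p := congrFun h5 i
          rw [← Nat.div_add_mod (u i) p, ← Nat.div_add_mod (u' i) p, h6, h1, h2]
        refine Prod.ext (Prod.ext (Prod.mk.inj e).1 ?_) (Prod.ext (Prod.mk.inj e).2 ?_)
        · exact key _ _ (hU _ (mem_product.1 h3).2).1 (hU _ (mem_product.1 h3').2).1
            (Prod.mk.inj h).1
        · exact key _ _ (hU _ (mem_product.1 h4).2).1 (hU _ (mem_product.1 h4').2).1
            (Prod.mk.inj h).2
  calc _ ≤ Jv s k (N / p + 1) * #P := hS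
    _ ≤ Jv s k (N / p + 1) * ((k ^ k * p ^ (k * (k - 1) / 2)) * N ^ k) :=
        Nat.mul_le_mul_left _ (hP.trans (Nat.mul_le_mul_left _ hD))
    _ = _ := by ring

end

end Pool.Agent.MP_9f080f_an

namespace Pool.Agent.MP_9f080f_an
open Complex Finset
open scoped Real

noncomputable section

lemma vc_en {s k N p : ℕ} (B : Finset ℕ) (hB : B ⊆ range N) :
    ∑ ξ ∈ tup k (k * N ^ k + s * N ^ k + 1), ‖∑ x ∈ dtup k N p, ch (k * N ^ k + s * N ^ k + 1) ξ (pw k x)‖ ^ 2 *
      ‖∑ b ∈ B, ch (k * N ^ k + s * N ^ k + 1) ξ (fun j => (b : ℤ) ^ (j.val + 1))‖ ^ (2 * s) =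
      ((k * N ^ k + s * N ^ k + 1 : ℕ) : ℝ) ^ k *
        En (dtup k N p ×ˢ Fintype.piFinset fun _ : Fin s => B) (fun z => pw k z.1 + pw k z.2) := by
  classical
  have hb : ∀ z ∈ dtup k N p ×ˢ Fintype.piFinset fun _ : Fin s => B, ∀ j,
      0 ≤ (pw k z.1 + pw k z.2) j ∧ (pw k z.1 + pw k z.2) j ≤ k * N ^ k + s * N ^ k := by
    intro z hz j
    obtain ⟨h1, h2⟩ := mem_product.1 hz
    have a1 := pw_bound (k := k) (mem_filter.1 h1).1 j
    have a2 := pw_bound (k := k) (Fintype.piFinset_subset _ _ (fun _ => hB) h2) j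
    exact ⟨add_nonneg a1.1 a2.1, add_le_add a1.2 a2.2⟩
  rw [← en_ortho (Nat.succ_pos _)]
  · refine sum_congr rfl fun ξ _ => ?_
    rw [sum_product, mul_comm 2 s, pow_mul, ← mul_pow, ← norm_pow, ← norm_mul, ← sum_tup, sum_mul_sum]
    simp only [ch_add]
  · intro x hx y hy j
    have a1 := hb x hx j
    have a2 := hb y hy j
    rw [abs_lt]
    push_cast
    constructor <;> linarith [a1.1, a1.2, a2.1, a2.2]

lemma vc_pow {s p : ℕ} (hs : 1 ≤ s) (f : ℕ → ℂ) :
    ‖∑ a ∈ range p, f a‖ ^ (2 * s) ≤ (p : ℝ) ^ (2 * s - 1) * ∑ a ∈ range p, ‖f a‖ ^ (2 * s) := by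
  obtain ⟨n, hn⟩ : ∃ n, 2 * s = n + 1 := ⟨2 * s - 1, by omega⟩
  rw [hn, Nat.add_sub_cancel]
  refine (pow_le_pow_left₀ (norm_nonneg _) (norm_sum_le _ _) _).trans ?_
  simpa using pow_sum_le_card_mul_sum_pow (s := range p) (f := fun a => ‖f a‖)
    (fun _ _ => norm_nonneg _) n

theorem vm_prime {s k N p : ℕ} (hs : 1 ≤ s) (hp : p.Prime) (hk : k < p) (hN : N ≤ p ^ k) :
    En (dtup k N p ×ˢ tup s N) (fun z => pw k z.1 + pw k z.2) ≤
      p ^ (2 * s) * (N ^ k * (k ^ k * p ^ (k * (k - 1) / 2)) * Jv s k (N / p + 1)) := by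
  obtain ⟨L, hL⟩ : ∃ L, L = k * N ^ k + s * N ^ k + 1 := ⟨_, rfl⟩
  obtain ⟨C, hC⟩ : ∃ C, C = N ^ k * (k ^ k * p ^ (k * (k - 1) / 2)) * Jv s k (N / p + 1) := ⟨_, rfl⟩
  have hL0 : (0 : ℝ) < (L : ℝ) ^ k := by rw [hL]; positivity
  have h1 := vc_en (s := s) (k := k) (p := p) (range N) subset_rfl
  have h2 : ∀ a ∈ range p, ∑ ξ ∈ tup k L, ‖∑ x ∈ dtup k N p, ch L ξ (pw k x)‖ ^ 2 *
      ‖∑ b ∈ (range N).filter fun b => b % p = a, ch L ξ (fun j => (b : ℤ) ^ (j.val + 1))‖ ^ (2 * s) ≤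
      (L : ℝ) ^ k * C := fun a ha => by
    rw [hL, vc_en _ (filter_subset _ _), ← hL, hC]
    exact mul_le_mul_of_nonneg_left (Nat.cast_le.2 (vm_class hp hk hN (mem_range.1 ha))) hL0.le
  rw [← hL] at h1
  rw [← hC, ← Nat.cast_le (α := ℝ)]
  refine le_of_mul_le_mul_left (h1.ge.trans ?_) hL0
  calc _ ≤ ∑ ξ ∈ tup k L, (p : ℝ) ^ (2 * s - 1) * ∑ a ∈ range p,
        ‖∑ x ∈ dtup k N p, ch L ξ (pw k x)‖ ^ 2 * ‖∑ b ∈ (range N).filter fun b => b % p = a,
          ch L ξ (fun j => (b : ℤ) ^ (j.val + 1))‖ ^ (2 * s) := by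
        refine sum_le_sum fun ξ _ => ?_
        rw [← mul_sum, mul_left_comm, ← sum_fiberwise_of_maps_to (s := range N) (t := range p)
          (g := fun b => b % p) (fun b _ => mem_range.2 (Nat.mod_lt _ hp.pos))]
        exact mul_le_mul_of_nonneg_left (vc_pow hs _) (by positivity)
    _ ≤ (p : ℝ) ^ (2 * s - 1) * ∑ a ∈ range p, (L : ℝ) ^ k * C := by
        rw [← mul_sum, sum_comm]
        exact mul_le_mul_of_nonneg_left (sum_le_sum h2) (by positivity)
    _ = _ := by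
        obtain ⟨n, hn⟩ : ∃ n, 2 * s = n + 1 := ⟨2 * s - 1, by omega⟩
        rw [hn, Nat.add_sub_cancel, sum_const, card_range, nsmul_eq_mul]
        push_cast
        ring

end

end Pool.Agent.MP_9f080f_an
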