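import Pool.Agent.MP_9f080f_an.Mg.Basic

namespace Pool.Agent.MP_9f080f_an
open Complex MeasureTheory Set Filter Topology Metric
open scoped Real ComplexConjugate

noncomputable section

/-! Mean square of the twisted sums of translates of `kk`. -/

lemma kb_norm_kk (H : ℝ) {t : ℝ} (ht : 0 < t) : ‖kk H t‖ = t ^ (-3 / 2 : ℝ) := by
  have : (H : ℂ) / t = ((H / t : ℝ) : ℂ) := by push_cast; ring
  rw [kk, norm_mul, this, norm_ep_real, mul_one, Complex.norm_real, Real.norm_eq_abs,
    abs_of_pos (Real.rpow_pos_of_pos ht _)]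

lemma kb_cont (H : ℝ) {t : ℝ} (ht : 0 < t) : ContinuousAt (kk H) t := by
  unfold kk
  have h1 : ContinuousAt (fun t : ℝ => t ^ (-3 / 2 : ℝ)) t :=
    Real.continuousAt_rpow_const _ _ (Or.inl ht.ne')
  have h2 : ContinuousAt (fun t : ℝ => (H : ℂ) / (t : ℂ)) t :=
    continuousAt_const.div continuous_ofReal.continuousAt (by exact_mod_cast ht.ne')
  exact (continuous_ofReal.continuousAt.comp h1).mul (continuous_ep.continuousAt.comp h2)

lemma kb_sq_rpow {t : ℝ} (ht : 0 < t) : (t ^ (-3 / 2 : ℝ)) ^ 2 = 1 / t ^ 3 := by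
  rw [← Real.rpow_natCast, ← Real.rpow_mul ht.le,
    show (-3 / 2 : ℝ) * ((2 : ℕ) : ℝ) = -((3 : ℕ) : ℝ) by norm_num, Real.rpow_neg ht.le,
    Real.rpow_natCast, one_div]

lemma kb_ep_lip (s s' : ℝ) : ‖ep s - ep s'‖ ≤ π * |s - s'| := by
  have e : ep s - ep s' = ep s' * (cexp (I * ((π * (s - s') : ℝ) : ℂ)) - 1) := by
    rw [mul_sub, mul_one, ep, ep, ← Complex.exp_add]
    congr 2
    push_cast; ring
  rw [e, norm_mul, norm_ep_real, one_mul]
  refine (Real.norm_exp_I_mul_ofReal_sub_one_le).trans ?_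
  rw [Real.norm_eq_abs, abs_mul, abs_of_pos Real.pi_pos]

lemma kb_ep_far {x : ℝ} (h0 : 0 ≤ x) (h1 : x ≤ 1 / 4) : 1 ≤ ‖ep ((-3 / 4 - x : ℝ) : ℂ) - 1‖ := by
  have h : (ep ((-3 / 4 - x : ℝ) : ℂ)).re ≤ 0 := by
    have e : ep ((-3 / 4 - x : ℝ) : ℂ) = cexp (((π * (-3 / 4 - x) : ℝ) : ℂ) * I) := by
      rw [ep]; congr 1; push_cast; ring
    rw [e, Complex.exp_ofReal_mul_I_re, show π * (-3 / 4 - x) = -(π * (3 / 4 + x)) by ring,
      Real.cos_neg]
    exact Real.cos_nonpos_of_pi_div_two_le_of_le (by nlinarith [Real.pi_pos])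
      (by nlinarith [Real.pi_pos])
  have h2 := Complex.abs_re_le_norm (ep ((-3 / 4 - x : ℝ) : ℂ) - 1)
  rw [sub_re, one_re] at h2
  have := neg_abs_le ((ep ((-3 / 4 - x : ℝ) : ℂ)).re - 1)
  linarith

/-- summation by parts for oscillating sums -/
lemma kb_osc (z r : ℕ → ℂ) (a v : ℕ → ℝ) (hz : ∀ i, ‖z i‖ = 1) (hr : ∀ i, z (i + 1) = r i * z i)
    (h1 : ∀ i, 1 ≤ ‖r i - 1‖) (hv : ∀ i, ‖r i - r (i + 1)‖ ≤ v i - v (i + 1)) (hv0 : ∀ i, 0 ≤ v i)
    (hv1 : v 0 ≤ 1) (ha : ∀ i, a (i + 1) ≤ a i) (ha0 : ∀ i, 0 ≤ a i) (n : ℕ) :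
    ‖∑ i ∈ Finset.range n, (a i : ℂ) * z i‖ ≤ 3 * a 0 := by
  have hne : ∀ i, r i - 1 ≠ 0 := fun i h => by
    have := h1 i
    rw [h, norm_zero] at this
    linarith
  have hc : ∀ i, ‖(r i - 1)⁻¹‖ ≤ 1 := fun i => by
    rw [norm_inv]; exact inv_le_one_of_one_le₀ (h1 i)
  have haa : ∀ i, a i ≤ a 0 := fun i => antitone_nat_of_succ_le ha (Nat.zero_le i)
  have key : ∀ n, ‖∑ i ∈ Finset.range n, (a i : ℂ) * z i - a n * (r n - 1)⁻¹ * z n‖ ≤
      a 0 + (a 0 - a n) + a 0 * (v 0 - v n) := by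
    intro n
    induction n with
    | zero =>
      simp only [Finset.range_zero, Finset.sum_empty, zero_sub, norm_neg, norm_mul, hz, mul_one,
        sub_self, add_zero, mul_zero, Complex.norm_real, Real.norm_eq_abs, abs_of_nonneg (ha0 0)]
      exact mul_le_of_le_one_right (ha0 0) (hc 0)
    | succ n ih =>
      have e : ∑ i ∈ Finset.range (n + 1), (a i : ℂ) * z i - a (n + 1) * (r (n + 1) - 1)⁻¹ * z (n + 1) =
          (∑ i ∈ Finset.range n, (a i : ℂ) * z i - a n * (r n - 1)⁻¹ * z n) +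
            (((a n - a (n + 1) : ℝ) : ℂ) * (r n - 1)⁻¹ -
              a (n + 1) * ((r n - r (n + 1)) * (r n - 1)⁻¹ * (r (n + 1) - 1)⁻¹)) * z (n + 1) := by
        rw [Finset.sum_range_succ, hr n]
        have := hne n
        have := hne (n + 1)
        push_cast
        field_simp
        ring
      have b1 : ‖((a n - a (n + 1) : ℝ) : ℂ) * (r n - 1)⁻¹‖ ≤ a n - a (n + 1) := by
        rw [norm_mul, Complex.norm_real, Real.norm_eq_abs, abs_of_nonneg (by linarith [ha n])]
        exact mul_le_of_le_one_right (by linarith [ha n]) (hc n)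
      have b2 : ‖(a (n + 1) : ℂ) * ((r n - r (n + 1)) * (r n - 1)⁻¹ * (r (n + 1) - 1)⁻¹)‖ ≤
          a 0 * (v n - v (n + 1)) := by
        rw [norm_mul, Complex.norm_real, Real.norm_eq_abs, abs_of_nonneg (ha0 _)]
        refine mul_le_mul (haa _) ?_ (norm_nonneg _) (ha0 0)
        rw [norm_mul, norm_mul]
        refine le_trans ?_ (hv n)
        refine (mul_le_of_le_one_right (by positivity) (hc _)).trans ?_
        exact mul_le_of_le_one_right (by positivity) (hc _)
      rw [e]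
      refine (norm_add_le _ _).trans ?_
      rw [norm_mul, hz, mul_one]
      have := (norm_sub_le _ _).trans (add_le_add b1 b2)
      nlinarith
  have h2 := key n
  have h3 : ‖(a n : ℂ) * (r n - 1)⁻¹ * z n‖ ≤ a n := by
    rw [norm_mul, hz, mul_one, norm_mul, Complex.norm_real, Real.norm_eq_abs, abs_of_nonneg (ha0 _)]
    exact mul_le_of_le_one_right (ha0 n) (hc n)
  have h4 := norm_le_norm_sub_add (∑ i ∈ Finset.range n, (a i : ℂ) * z i) (a n * (r n - 1)⁻¹ * z n)
  have h5 : a 0 * (v 0 - v n) ≤ a 0 * 1 := mul_le_mul_of_nonneg_left (by linarith [hv0 n]) (ha0 0)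
  linarith

/-- the tail -/
lemma kb_tail {H t : ℝ} (hH : 0 ≤ H) (ht : 0 < t) (h4 : 4 * H ≤ t ^ 2) (c n : ℕ) :
    ‖∑ i ∈ Finset.range n, ep (-3 / 4 * ((c + i : ℕ) : ℂ)) * kk H (t + i)‖ ^ 2 ≤ 9 / t ^ 3 := by
  have hp : ∀ i : ℕ, 0 < t + i := fun i => by positivity
  set x : ℕ → ℝ := fun i => H / ((t + i) * (t + i + 1)) with hx
  have hx0 : ∀ i, 0 ≤ x i := fun i => by have := hp i; positivity
  have hxa : ∀ i, x (i + 1) ≤ x i := fun i => by
    have := hp i
    simp only [hx]
    push_cast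
    exact div_le_div_of_nonneg_left hH (by positivity) (by nlinarith)
  have hx1 : x 0 ≤ 1 / 4 := by
    simp only [hx, Nat.cast_zero, add_zero]
    rw [div_le_iff₀ (by positivity)]
    nlinarith
  have hx2 : ∀ i, x i ≤ 1 / 4 := fun i => (antitone_nat_of_succ_le hxa (Nat.zero_le i)).trans hx1
  have key := kb_osc (fun i => ep (((-3 / 4 * (c + i) + H / (t + i) : ℝ)) : ℂ))
    (fun i => ep ((-3 / 4 - x i : ℝ) : ℂ)) (fun i => (t + i) ^ (-3 / 2 : ℝ)) (fun i => π * x i)
    (fun i => norm_ep_real _) ?_ (fun i => kb_ep_far (hx0 i) (hx2 i)) ?_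
    (fun i => mul_nonneg Real.pi_pos.le (hx0 i)) (by nlinarith [Real.pi_lt_four, hx0 0]) ?_
    (fun i => (Real.rpow_pos_of_pos (hp i) _).le) n
  · have e : ∀ i : ℕ, ep (-3 / 4 * ((c + i : ℕ) : ℂ)) * kk H (t + i) =
        (((t + i) ^ (-3 / 2 : ℝ) : ℝ) : ℂ) * ep (((-3 / 4 * (c + i) + H / (t + i) : ℝ)) : ℂ) := by
      intro i
      rw [kk, mul_left_comm, ← ep_add]
      congr 2
      push_cast; ring
    simp only [e]
    refine (pow_le_pow_left₀ (norm_nonneg _) key 2).trans ?_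
    simp only [Nat.cast_zero, add_zero]
    rw [mul_pow, kb_sq_rpow ht]
    apply le_of_eq; ring
  · intro i
    rw [← ep_add, ← Complex.ofReal_add]
    congr 2
    have := (hp i).ne'
    have : t + i + 1 ≠ 0 := by have := hp i; positivity
    simp only [hx]
    push_cast
    rw [← add_assoc t]
    field_simp
    ring
  · intro i
    refine (kb_ep_lip _ _).trans ?_
    rw [abs_of_nonpos (by linarith [hxa i])]
    apply le_of_eq; ring
  · intro i
    exact Real.rpow_le_rpow_of_nonpos (hp i) (by push_cast; linarith) (by norm_num)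

/-- expansion of the square along diagonals -/
lemma kb_expand (a : ℕ → ℂ) (n : ℕ) : ‖∑ i ∈ Finset.range n, a i‖ ^ 2 =
    (∑ h ∈ Finset.range n, (if h = 0 then 1 else 2 : ℂ) *
      ∑ i ∈ Finset.range (n - h), a (i + h) * conj (a i)).re := by
  induction n with
  | zero => simp
  | succ n ih =>
    have e1 : ∑ h ∈ Finset.range (n + 1), (if h = 0 then 1 else 2 : ℂ) *
        ∑ i ∈ Finset.range (n + 1 - h), a (i + h) * conj (a i) =
        ∑ h ∈ Finset.range n, (if h = 0 then 1 else 2 : ℂ) *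
          ∑ i ∈ Finset.range (n - h), a (i + h) * conj (a i) +
        ∑ h ∈ Finset.range (n + 1), (if h = 0 then 1 else 2 : ℂ) * (a n * conj (a (n - h))) := by
      have : ∑ h ∈ Finset.range n, (if h = 0 then 1 else 2 : ℂ) *
          ∑ i ∈ Finset.range (n - h), a (i + h) * conj (a i) =
          ∑ h ∈ Finset.range (n + 1), (if h = 0 then 1 else 2 : ℂ) *
          ∑ i ∈ Finset.range (n - h), a (i + h) * conj (a i) := by
        rw [Finset.sum_range_succ]; simp
      rw [this, ← Finset.sum_add_distrib]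
      refine Finset.sum_congr rfl fun h hh => ?_
      have hh' : h ≤ n := Nat.lt_succ_iff.mp (Finset.mem_range.mp hh)
      rw [show n + 1 - h = (n - h) + 1 by omega, Finset.sum_range_succ, Nat.sub_add_cancel hh', mul_add]
    have e2 : ∑ h ∈ Finset.range (n + 1), (if h = 0 then 1 else 2 : ℂ) * (a n * conj (a (n - h))) =
        a n * conj (a n) + 2 * (a n * conj (∑ i ∈ Finset.range n, a i)) := by
      rw [Finset.sum_range_succ', map_sum, Finset.mul_sum, Finset.mul_sum, add_comm,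
        ← Finset.sum_range_reflect (fun i => 2 * (a n * conj (a i))) n]
      simp only [if_true, one_mul, Nat.sub_zero, Nat.succ_ne_zero, if_false]
      congr 1
      refine Finset.sum_congr rfl fun h _ => ?_
      rw [show n - (h + 1) = n - 1 - h by omega]
    rw [e1, e2, add_re, ← ih, Finset.sum_range_succ]
    set S := ∑ i ∈ Finset.range n, a i
    simp only [Complex.sq_norm, normSq_apply, add_re, add_im, mul_re, mul_im, conj_re, conj_im,
      re_ofNat, im_ofNat]
    ring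

lemma kb_ibp {a b : ℝ} (hab : a ≤ b) (r r' : ℝ → ℝ) (E E' : ℝ → ℂ)
    (hr : ∀ t ∈ Icc a b, HasDerivAt r (r' t) t) (hE : ∀ t ∈ Icc a b, HasDerivAt E (E' t) t)
    (hr' : ContinuousOn r' (Icc a b)) (hE' : ContinuousOn E' (Icc a b))
    (h0 : ∀ t ∈ Icc a b, 0 ≤ r' t) (h1 : ∀ t ∈ Icc a b, ‖E t‖ ≤ 1) (ha : 0 ≤ r a) (hb : 0 ≤ r b) :
    ‖∫ t in a..b, (r t : ℂ) * E' t‖ ≤ 2 * r b := by
  have hu : uIcc a b = Icc a b := uIcc_of_le hab
  have i1 : IntervalIntegrable r' volume a b := (hu ▸ hr').intervalIntegrable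
  have i2 : IntervalIntegrable (fun t => (r' t : ℂ)) volume a b :=
    (hu ▸ continuous_ofReal.comp_continuousOn hr').intervalIntegrable
  have i3 : IntervalIntegrable E' volume a b := (hu ▸ hE').intervalIntegrable
  rw [intervalIntegral.integral_mul_deriv_eq_deriv_mul (u := fun t => (r t : ℂ))
    (u' := fun t => (r' t : ℂ)) (v := E) (v' := E')
    (fun t ht => (hr t (hu ▸ ht)).ofReal_comp) (fun t ht => hE t (hu ▸ ht)) i2 i3]
  have b1 : ‖∫ t in a..b, (r' t : ℂ) * E t‖ ≤ r b - r a := by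
    rw [← intervalIntegral.integral_eq_sub_of_hasDerivAt (fun t ht => hr t (hu ▸ ht)) i1]
    refine intervalIntegral.norm_integral_le_of_norm_le hab (Eventually.of_forall fun t ht => ?_) i1
    have ht' : t ∈ Icc a b := Ioc_subset_Icc_self ht
    rw [norm_mul, Complex.norm_real, Real.norm_eq_abs, abs_of_nonneg (h0 t ht')]
    exact mul_le_of_le_one_right (h0 t ht') (h1 t ht')
  have b2 : ‖(r b : ℂ) * E b‖ ≤ r b := by
    rw [norm_mul, Complex.norm_real, Real.norm_eq_abs, abs_of_nonneg hb]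
    exact mul_le_of_le_one_right hb (h1 b ⟨hab, le_rfl⟩)
  have b3 : ‖(r a : ℂ) * E a‖ ≤ r a := by
    rw [norm_mul, Complex.norm_real, Real.norm_eq_abs, abs_of_nonneg ha]
    exact mul_le_of_le_one_right ha (h1 a ⟨le_rfl, hab⟩)
  have := (norm_sub_le _ _).trans (add_le_add ((norm_sub_le _ _).trans (add_le_add b2 b3)) b1)
  linarith

lemma kb_conj_ep (s : ℝ) : conj (ep s) = ep (-s) := by
  rw [ep, ep, ← Complex.exp_conj]
  congr 1
  simp

lemma kb_rpow_sqrt {x : ℝ} (hx : 0 < x) : x ^ (-3 / 2 : ℝ) = √x / x ^ 2 := by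
  rw [Real.sqrt_eq_rpow, ← Real.rpow_natCast, ← Real.rpow_sub hx]
  norm_num

/-- off-diagonal terms -/
lemma kb_off {H a b h : ℝ} (hH : 0 < H) (ha : 0 < a) (hab : a ≤ b) (hh : 0 < h) :
    ‖∫ s in a..b, kk H (s + h) * conj (kk H s)‖ ≤ 1 / (π * H * h) := by
  have hu : uIcc a b = Icc a b := uIcc_of_le hab
  have key := kb_ibp hab (fun s => √(s * (s + h)) / (2 * s + h))
    (fun s => h ^ 2 / (2 * √(s * (s + h)) * (2 * s + h) ^ 2))
    (fun s => ep ((H / (s + h) - H / s : ℝ) : ℂ))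
    (fun s => π * I * ep ((H / (s + h) - H / s : ℝ) : ℂ) *
      ((H * h * (2 * s + h) / (s * (s + h)) ^ 2 : ℝ) : ℂ)) ?_ ?_ ?_ ?_ ?_
    (fun t _ => (norm_ep_real _).le) (by positivity) (by have : 0 < b := ha.trans_le hab; positivity)
  · have e : ∫ s in a..b, kk H (s + h) * conj (kk H s) = (π * I * (H * h))⁻¹ *
        ∫ s in a..b, ((√(s * (s + h)) / (2 * s + h) : ℝ) : ℂ) *
          (π * I * ep ((H / (s + h) - H / s : ℝ) : ℂ) *
            ((H * h * (2 * s + h) / (s * (s + h)) ^ 2 : ℝ) : ℂ)) := by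
      rw [← intervalIntegral.integral_const_mul]
      refine intervalIntegral.integral_congr fun s hs => ?_
      have hs0 : 0 < s := ha.trans_le (hu ▸ hs).1
      have hs1 : 0 < s + h := by positivity
      have e1 : (H : ℂ) / (s : ℝ) = ((H / s : ℝ) : ℂ) := by push_cast; ring
      have e2 : (H : ℂ) / ((s + h : ℝ) : ℂ) = ((H / (s + h) : ℝ) : ℂ) := by push_cast; ring
      have e3 : ep ((H / (s + h) - H / s : ℝ) : ℂ) =
          ep ((H / (s + h) : ℝ) : ℂ) * ep (-((H / s : ℝ) : ℂ)) := by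
        rw [← ep_add]; congr 1; push_cast; ring
      have e4 : (s + h) ^ (-3 / 2 : ℝ) * s ^ (-3 / 2 : ℝ) = √(s * (s + h)) / (s * (s + h)) ^ 2 := by
        rw [← Real.mul_rpow hs1.le hs0.le, mul_comm (s + h), kb_rpow_sqrt (by positivity)]
      have e5 : √(s * (s + h)) / (2 * s + h) * (H * h * (2 * s + h) / (s * (s + h)) ^ 2) =
          H * h * (√(s * (s + h)) / (s * (s + h)) ^ 2) := by
        field_simp
      simp only [kk, map_mul, conj_ofReal, e1, e2, kb_conj_ep, e3]
      have hπ : (π : ℂ) ≠ 0 := by exact_mod_cast Real.pi_pos.ne'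
      have hH' : (H : ℂ) ≠ 0 := by exact_mod_cast hH.ne'
      have hh' : (h : ℂ) ≠ 0 := by exact_mod_cast hh.ne'
      have e6 := congrArg (fun x : ℝ => (x : ℂ)) (e5.trans (by rw [← e4]))
      simp only [Complex.ofReal_mul] at e6
      have e7 : (π * I * (H * h) : ℂ)⁻¹ * (π * I * (H * h)) = 1 :=
        inv_mul_cancel₀ (mul_ne_zero (mul_ne_zero hπ I_ne_zero) (mul_ne_zero hH' hh'))
      generalize ((√(s * (s + h)) / (2 * s + h) : ℝ) : ℂ) = p at e6 ⊢
      generalize ((H * h * (2 * s + h) / (s * (s + h)) ^ 2 : ℝ) : ℂ) = q at e6 ⊢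
      generalize (π * I * (H * h) : ℂ)⁻¹ = w at e7 ⊢
      generalize ep ((H / (s + h) : ℝ) : ℂ) = E1
      generalize ep (-((H / s : ℝ) : ℂ)) = E2
      generalize (((s + h) ^ (-3 / 2 : ℝ) : ℝ) : ℂ) = A1 at e6 ⊢
      generalize ((s ^ (-3 / 2 : ℝ) : ℝ) : ℂ) = A2 at e6 ⊢
      linear_combination (-(w * π * I * E1 * E2)) * e6 - (A1 * A2 * E1 * E2) * e7
    rw [e, norm_mul, norm_inv, norm_mul, norm_mul, norm_mul, norm_I, mul_one, Complex.norm_real,
      Complex.norm_real, Complex.norm_real, Real.norm_eq_abs, Real.norm_eq_abs, Real.norm_eq_abs,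
      abs_of_pos Real.pi_pos, abs_of_pos hH, abs_of_pos hh, one_div, mul_assoc]
    refine mul_le_of_le_one_right (by positivity) (key.trans ?_)
    have hb : 0 < b := ha.trans_le hab
    rw [← mul_div_assoc, div_le_one (by positivity)]
    have : √(b * (b + h)) ≤ (2 * b + h) / 2 := Real.sqrt_le_iff.mpr ⟨by positivity, by nlinarith⟩
    linarith
  · intro s hs
    have hs0 : 0 < s := ha.trans_le hs.1
    have hp : 0 < s * (s + h) := by positivity
    have d1 : HasDerivAt (fun s : ℝ => s * (s + h)) (1 * (s + h) + s * 1) s :=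
      (hasDerivAt_id s).mul ((hasDerivAt_id s).add_const h)
    have d2 : HasDerivAt (fun s : ℝ => 2 * s + h) (2 * 1) s :=
      ((hasDerivAt_id s).const_mul 2).add_const h
    have d3 := (d1.sqrt hp.ne').div d2 (by positivity)
    refine d3.congr_deriv ?_
    have q := Real.mul_self_sqrt hp.le
    have q0 := (Real.sqrt_pos.mpr hp).ne'
    have : 2 * s + h ≠ 0 := by positivity
    field_simp
    nlinarith
  · intro s hs
    have hs0 : 0 < s := ha.trans_le hs.1
    have hs1 : 0 < s + h := by positivity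
    have d1 : HasDerivAt (fun s : ℝ => H / (s + h) - H / s)
        (H * h * (2 * s + h) / (s * (s + h)) ^ 2) s := by
      have d2 := (hasDerivAt_const s H).div ((hasDerivAt_id s).add_const h) hs1.ne'
      have d3 := (hasDerivAt_const s H).div (hasDerivAt_id s) hs0.ne'
      refine (d2.sub d3).congr_deriv ?_
      simp only [id]
      field_simp
      ring
    exact (hasDerivAt_ep _).scomp_of_eq (h := fun s : ℝ => ((H / (s + h) - H / s : ℝ) : ℂ)) s
      d1.ofReal_comp rfl |>.congr_deriv (by rw [smul_eq_mul]; ring)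
  · refine ContinuousOn.div continuousOn_const (by fun_prop) fun s hs => ?_
    have hs0 : 0 < s := ha.trans_le hs.1
    have : 0 < √(s * (s + h)) := Real.sqrt_pos.mpr (by positivity)
    positivity
  · have c1 : ContinuousOn (fun s : ℝ => H / (s + h) - H / s) (Icc a b) :=
      (continuousOn_const.div (by fun_prop) fun s hs => by
        have hs0 : 0 < s := ha.trans_le hs.1
        positivity).sub (continuousOn_const.div (by fun_prop) fun s hs => (ha.trans_le hs.1).ne')
    have c2 : ContinuousOn (fun s : ℝ => H * h * (2 * s + h) / (s * (s + h)) ^ 2) (Icc a b) :=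
      ContinuousOn.div (by fun_prop) (by fun_prop) fun s hs => by
        have hs0 : 0 < s := ha.trans_le hs.1
        positivity
    exact (continuousOn_const.mul (continuous_ep.comp_continuousOn
      (continuous_ofReal.comp_continuousOn c1))).mul (continuous_ofReal.comp_continuousOn c2)
  · intro s hs
    have hs0 : 0 < s := ha.trans_le hs.1
    positivity

/-- diagonal term -/
lemma kb_diag {H a b : ℝ} (ha : 0 < a) (hab : a ≤ b) :
    ‖∫ s in a..b, kk H (s + (0 : ℕ)) * conj (kk H s)‖ ≤ 1 / (2 * a ^ 2) := by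
  have hu : uIcc a b = Icc a b := uIcc_of_le hab
  have hb : 0 < b := ha.trans_le hab
  have i1 : IntervalIntegrable (fun s : ℝ => 1 / s ^ 3) volume a b := by
    refine ContinuousOn.intervalIntegrable ?_
    rw [hu]
    exact continuousOn_const.div (by fun_prop) fun s hs => by
      have hs0 : 0 < s := ha.trans_le hs.1
      positivity
  have e : ∫ s in a..b, 1 / s ^ 3 = -1 / (2 * b ^ 2) - -1 / (2 * a ^ 2) := by
    refine intervalIntegral.integral_eq_sub_of_hasDerivAt (f := fun s : ℝ => -1 / (2 * s ^ 2))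
      (fun s hs => ?_) i1
    have hs0 : 0 < s := ha.trans_le (hu ▸ hs).1
    have d := (hasDerivAt_const s (-1 : ℝ)).div (((hasDerivAt_id s).pow 2).const_mul 2)
      (by simp only [id, Pi.pow_apply]; positivity)
    refine d.congr_deriv ?_
    simp only [id, Pi.pow_apply]
    field_simp
    ring
  have : ‖∫ s in a..b, kk H (s + (0 : ℕ)) * conj (kk H s)‖ ≤ ∫ s in a..b, 1 / s ^ 3 := by
    refine intervalIntegral.norm_integral_le_of_norm_le hab (Eventually.of_forall fun t ht => ?_) i1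
    have ht0 : 0 < t := ha.trans ht.1
    rw [Nat.cast_zero, add_zero, norm_mul, Complex.norm_conj, kb_norm_kk H ht0, ← sq, kb_sq_rpow ht0]
  rw [e] at this
  have h2 : 0 < 1 / (2 * b ^ 2) := by positivity
  have e2 : -1 / (2 * b ^ 2) - -1 / (2 * a ^ 2) = 1 / (2 * a ^ 2) - 1 / (2 * b ^ 2) := by ring
  linarith

end

end Pool.Agent.MP_9f080f_an
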