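import Pool.Agent.MP_9f080f_an.Mg.Basic
import Pool.Agent.MP_9f080f_an.Mg.G_V1
import Pool.Agent.MP_9f080f_an.Mg.KBA

namespace Pool.Agent.MP_9f080f_an
open Complex Finset
open scoped Real

noncomputable section

/-! Exponential sums, part A: Taylor expansion of the square root and spacing.
`bc l` is the binomial coefficient `(1/2 choose l)`.
`sqrt_taylor`: Lagrange remainder (`taylor_mean_remainder_lagrange` with `Real.iter_deriv_rpow_const`, or a direct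
induction: the `l`-th derivative of `t ↦ t^(1/2)` on `t > 0` is `l! * bc l * t^(1/2 - l)`), `|bc| ≤ 1`, `ξ ≥ b`.
`rpow_gap`: mean value theorem.
`spacing`: for each integer `j` the `m` with `|g m - β - j| ≤ ε` lie in a window of length `≤ 2ε/δ`, so there are at most
`2ε/δ + 1` of them; the relevant `j` lie in an interval of length `≤ Δ (B - A) + 2ε`. -/

/-- binomial coefficients of exponent one half -/
def bc : ℕ → ℝ
  | 0 => 1
  | l + 1 => bc l * (1 / 2 - l) / (l + 1)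

lemma eaa_abs_bc_succ (l : ℕ) : |bc (l + 1)| = |bc l| * (|1 / 2 - (l : ℝ)| / (l + 1)) := by
  rw [bc, abs_div, abs_mul, abs_of_pos (by positivity : (0 : ℝ) < l + 1), mul_div_assoc]

lemma abs_bc_le (l : ℕ) : |bc l| ≤ 1 := by
  induction l with
  | zero => simp [bc]
  | succ l ih =>
    rw [eaa_abs_bc_succ]
    have h0 : (0 : ℝ) ≤ l := Nat.cast_nonneg l
    refine mul_le_one₀ ih (by positivity) ?_
    rw [div_le_one (by positivity), abs_le]
    constructor <;> linarith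

lemma le_abs_bc (l : ℕ) : (1 / 4 : ℝ) ^ l ≤ |bc l| := by
  induction l with
  | zero => simp [bc]
  | succ l ih =>
    rw [eaa_abs_bc_succ, pow_succ]
    refine mul_le_mul ih ?_ (by norm_num) (abs_nonneg _)
    rw [le_div_iff₀ (by positivity)]
    rcases Nat.eq_zero_or_pos l with rfl | hl
    · norm_num
    · have h1 : (1 : ℝ) ≤ l := by exact_mod_cast hl
      rw [abs_sub_comm, abs_of_nonneg (by linarith)]
      linarith

lemma eaa_deriv (y : ℝ) {t : ℝ} (ht : 0 < t) (k : ℕ) :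
    HasDerivAt (fun t : ℝ => ∑ l ∈ range (k + 1), bc l * t ^ (1 / 2 - l : ℝ) * (y - t) ^ l)
      ((k + 1) * bc (k + 1) * t ^ (1 / 2 - (k + 1) : ℝ) * (y - t) ^ k) t := by
  induction k with
  | zero =>
    have h := Real.hasDerivAt_rpow_const (x := t) (p := 1 / 2) (Or.inl ht.ne')
    simpa [bc] using h
  | succ k ih =>
    have h1 := Real.hasDerivAt_rpow_const (x := t) (p := 1 / 2 - ((k + 1 : ℕ) : ℝ)) (Or.inl ht.ne')
    have h2 := ((hasDerivAt_id t).const_sub y).fun_pow (k + 1)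
    have h3 := ih.fun_add ((h1.const_mul (bc (k + 1))).fun_mul h2)
    have h4 : (fun t : ℝ => ∑ l ∈ range (k + 1 + 1), bc l * t ^ (1 / 2 - l : ℝ) * (y - t) ^ l) =
        fun t : ℝ => ∑ l ∈ range (k + 1), bc l * t ^ (1 / 2 - l : ℝ) * (y - t) ^ l +
          bc (k + 1) * t ^ (1 / 2 - ((k + 1 : ℕ) : ℝ)) * (y - t) ^ (k + 1) := by
      funext t; rw [Finset.sum_range_succ]
    rw [h4]
    refine h3.congr_deriv ?_
    have h5 : bc (k + 1 + 1) = bc (k + 1) * (1 / 2 - ((k + 1 : ℕ) : ℝ)) / (((k + 1 : ℕ) : ℝ) + 1) :=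
      rfl
    rw [h5, show (1 / 2 - ((k + 1 : ℕ) : ℝ) - 1) = 1 / 2 - (((k + 1 : ℕ) : ℝ) + 1) by ring]
    simp only [id, Nat.add_sub_cancel]
    push_cast
    field_simp
    ring

theorem sqrt_taylor {b h : ℝ} (hb : 0 < b) (hh : 0 ≤ h) (k : ℕ) :
    |√(b + h) - ∑ l ∈ range (k + 1), bc l * b ^ (1 / 2 - l : ℝ) * h ^ l| ≤
      b ^ (1 / 2 - (k + 1) : ℝ) * h ^ (k + 1) := by
  have hG : ∀ y : ℝ, ∑ l ∈ range (k + 1), bc l * y ^ (1 / 2 - l : ℝ) * (y - y) ^ l = √y := by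
    intro y
    rw [Finset.sum_range_succ', Real.sqrt_eq_rpow]
    simp [bc]
  rcases hh.eq_or_lt with rfl | hh
  · have := hG b
    rw [sub_self] at this
    rw [this]; simp
  have hlt : b < b + h := by linarith
  obtain ⟨c, hc, he⟩ := exists_ratio_hasDerivAt_eq_ratio_slope
    (fun t : ℝ => ∑ l ∈ range (k + 1), bc l * t ^ (1 / 2 - l : ℝ) * (b + h - t) ^ l)
    (fun t => (k + 1) * bc (k + 1) * t ^ (1 / 2 - (k + 1) : ℝ) * (b + h - t) ^ k) hlt
    (fun t ht => (eaa_deriv (b + h) (hb.trans_le ht.1) k).continuousAt.continuousWithinAt)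
    (fun t ht => eaa_deriv (b + h) (hb.trans ht.1) k)
    (fun t => (b + h - t) ^ (k + 1)) (fun t => -((k + 1) * (b + h - t) ^ k)) (by fun_prop)
    (fun t _ => by simpa using ((hasDerivAt_id t).const_sub (b + h)).fun_pow (k + 1))
  rw [hG, add_sub_cancel_left] at he
  have hc2 : 0 < b + h - c := by linarith [hc.2]
  have h1 : √(b + h) - ∑ l ∈ range (k + 1), bc l * b ^ (1 / 2 - l : ℝ) * h ^ l =
      bc (k + 1) * c ^ (1 / 2 - (k + 1) : ℝ) * h ^ (k + 1) := by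
    have h2 : ((k : ℝ) + 1) * (b + h - c) ^ k ≠ 0 := by positivity
    apply mul_right_cancel₀ h2
    rw [sub_self, zero_pow (Nat.succ_ne_zero k)] at he
    linear_combination he
  have hc0 : 0 < c := hb.trans hc.1
  rw [h1, abs_mul, abs_mul, abs_of_pos (Real.rpow_pos_of_pos hc0 _), abs_of_pos (pow_pos hh _)]
  refine mul_le_mul_of_nonneg_right ?_ (by positivity)
  have h0 : (0 : ℝ) ≤ k := Nat.cast_nonneg k
  exact (mul_le_of_le_one_left (Real.rpow_nonneg hc0.le _) (abs_bc_le _)).trans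
    (Real.rpow_le_rpow_of_nonpos hb hc.1.le (by linarith))

theorem rpow_gap {b b' e : ℝ} (hb : 0 < b) (h : b ≤ b') (he : 0 ≤ e) :
    e * b' ^ (-e - 1) * (b' - b) ≤ b ^ (-e) - b' ^ (-e) ∧
      b ^ (-e) - b' ^ (-e) ≤ e * b ^ (-e - 1) * (b' - b) := by
  rcases h.eq_or_lt with rfl | h
  · simp
  obtain ⟨c, hc, hs⟩ := exists_hasDerivAt_eq_slope (fun t : ℝ => t ^ (-e))
    (fun t => -e * t ^ (-e - 1)) h
    (fun t ht => (Real.hasDerivAt_rpow_const (x := t) (p := -e)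
      (Or.inl (hb.trans_le ht.1).ne')).continuousAt.continuousWithinAt)
    (fun t ht => Real.hasDerivAt_rpow_const (Or.inl (hb.trans ht.1).ne'))
  have h1 : 0 < b' - b := by linarith
  rw [eq_div_iff h1.ne'] at hs
  have h2 : b ^ (-e) - b' ^ (-e) = e * c ^ (-e - 1) * (b' - b) := by linarith
  rw [h2]
  constructor
  · exact mul_le_mul_of_nonneg_right (mul_le_mul_of_nonneg_left
      (Real.rpow_le_rpow_of_nonpos (hb.trans hc.1) hc.2.le (by linarith)) he) h1.le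
  · exact mul_le_mul_of_nonneg_right (mul_le_mul_of_nonneg_left
      (Real.rpow_le_rpow_of_nonpos hb hc.1.le (by linarith)) he) h1.le

end

end Pool.Agent.MP_9f080f_an

namespace Pool.Agent.MP_9f080f_an
open Complex Finset
open scoped Real

noncomputable section

theorem ea_card (T : Finset ℤ) {D : ℝ} (hD : 0 ≤ D) (h : ∀ a ∈ T, ∀ b ∈ T, (b : ℝ) - a ≤ D) :
    (#T : ℝ) ≤ D + 1 := by
  rcases T.eq_empty_or_nonempty with rfl | hne
  · simp only [card_empty, Nat.cast_zero]; linarith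
  have h1 : #T ≤ #(Icc (T.min' hne) (T.max' hne)) :=
    card_le_card fun x hx => mem_Icc.2 ⟨T.min'_le x hx, T.le_max' x hx⟩
  have h2 := Int.card_Icc_of_le (T.min' hne) (T.max' hne)
    (by linarith [T.min'_le _ (T.max'_mem hne)])
  have h3 : ((#(Icc (T.min' hne) (T.max' hne)) : ℤ) : ℝ) = T.max' hne + 1 - T.min' hne := by
    rw [h2]; push_cast; ring
  have h4 := h _ (T.min'_mem hne) _ (T.max'_mem hne)
  have h5 : (#T : ℝ) ≤ #(Icc (T.min' hne) (T.max' hne)) := by exact_mod_cast h1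
  rw [Int.cast_natCast] at h3
  linarith

open Classical in
theorem spacing {A B : ℕ} {g : ℕ → ℝ} {σ δ Δ ε : ℝ} (hσ : σ = 1 ∨ σ = -1) (hδ : 0 < δ) (hΔ : 0 ≤ Δ)
    (hε : 0 ≤ ε) (hAB : A ≤ B)
    (hg : ∀ m ∈ Ico A B, ∀ m' ∈ Ico A B, m ≤ m' →
      δ * (m' - m) ≤ σ * (g m' - g m) ∧ σ * (g m' - g m) ≤ Δ * (m' - m)) (β : ℝ) :
    (#{m ∈ Ico A B | ∃ j : ℤ, |g m - β - j| ≤ ε} : ℝ) ≤ (Δ * (B - A) + 2 * ε + 1) * (2 * ε / δ + 1) := by
  set S := {m ∈ Ico A B | ∃ j : ℤ, |g m - β - j| ≤ ε} with hS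
  have hBA : (0 : ℝ) ≤ B - A := sub_nonneg.2 (by exact_mod_cast hAB)
  have hch : ∀ m : ℕ, ∃ j : ℤ, m ∈ S → |g m - β - j| ≤ ε := fun m => by
    by_cases hm : m ∈ S
    · obtain ⟨j, hj⟩ := (mem_filter.1 hm).2
      exact ⟨j, fun _ => hj⟩
    · exact ⟨0, fun h => absurd h hm⟩
  choose j hj using hch
  have hI : ∀ m ∈ S, m ∈ Ico A B := fun m hm => (mem_filter.1 hm).1
  have habs : ∀ x : ℝ, |σ * x| = |x| := fun x => by rcases hσ with rfl | rfl <;> simp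
  have hup : ∀ m ∈ S, ∀ m' ∈ S, m ≤ m' → |g m' - g m| ≤ Δ * (B - A) := by
    intro m hm m' hm' h
    obtain ⟨h1, h2⟩ := hg m (hI m hm) m' (hI m' hm') h
    have h3 : (0 : ℝ) ≤ m' - m := sub_nonneg.2 (by exact_mod_cast h)
    have h4 : (A : ℝ) ≤ m := by exact_mod_cast (mem_Ico.1 (hI m hm)).1
    have h5 : (m' : ℝ) ≤ B := by exact_mod_cast (mem_Ico.1 (hI m' hm')).2.le
    rw [← habs, abs_of_nonneg ((mul_nonneg hδ.le h3).trans h1)]
    exact h2.trans (mul_le_mul_of_nonneg_left (by linarith) hΔ)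
  have hJ : (#(S.image j) : ℝ) ≤ Δ * (B - A) + 2 * ε + 1 := by
    refine ea_card _ (by positivity) fun a ha b hb => ?_
    obtain ⟨m, hm, rfl⟩ := mem_image.1 ha
    obtain ⟨m', hm', rfl⟩ := mem_image.1 hb
    have h1 := abs_le.1 (hj m hm)
    have h2 := abs_le.1 (hj m' hm')
    have h3 : g m' - g m ≤ Δ * (B - A) := by
      rcases le_total m m' with h | h
      · exact (le_abs_self _).trans (hup m hm m' hm' h)
      · linarith [neg_abs_le (g m - g m'), hup m' hm' m hm h]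
    linarith
  have hF : ∀ a ∈ S.image j, (#{m ∈ S | j m = a} : ℝ) ≤ 2 * ε / δ + 1 := by
    intro a _
    rw [← card_image_of_injective _ (Nat.cast_injective (R := ℤ))]
    refine ea_card _ (by positivity) fun x hx y hy => ?_
    obtain ⟨m, hm, rfl⟩ := mem_image.1 hx
    obtain ⟨m', hm', rfl⟩ := mem_image.1 hy
    obtain ⟨hm, e1⟩ := mem_filter.1 hm
    obtain ⟨hm', e2⟩ := mem_filter.1 hm'
    rw [Int.cast_natCast, Int.cast_natCast]
    rcases le_total m m' with h | h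
    · have h1 := abs_le.1 (hj m hm)
      have h2 := abs_le.1 (hj m' hm')
      rw [e1] at h1
      rw [e2] at h2
      have h3 : |g m' - g m| ≤ 2 * ε := abs_le.2 ⟨by linarith, by linarith⟩
      rw [← habs] at h3
      rw [le_div_iff₀ hδ]
      linarith [(hg m (hI m hm) m' (hI m' hm') h).1, le_abs_self (σ * (g m' - g m))]
    · have h3 : (m' : ℝ) ≤ m := by exact_mod_cast h
      have : 0 ≤ 2 * ε / δ := by positivity
      linarith
  rw [card_eq_sum_card_image j S]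
  push_cast
  refine (sum_le_card_nsmul _ _ _ hF).trans ?_
  rw [nsmul_eq_mul]
  exact mul_le_mul_of_nonneg_right hJ (by positivity)

end

end Pool.Agent.MP_9f080f_an

namespace Pool.Agent.MP_9f080f_an
open Complex Finset
open scoped Real

noncomputable section

/-! Exponential sums, part B: comparison with the grid.
Choose `L` with `s H^k < L` and `H^k ≤ ε L`; `W l = ⌈ε L / H^(l+1)⌉₊`, so `ε L / H^(l+1) ≤ W l ≤ 2 ε L / H^(l+1) ≤ L`.
For `m ∈ I` and `j ∈ piFinset (range (W l))` let `ξ(m,j) l = ((⌊L α m l⌋ + j l) % L).toNat ∈ range L`, and let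
`Tg ξ = ∑ h < H, ch L ξ (h^(l+1))`.  Since `ch` only depends on `ξ` modulo `L` and
`|α m l - (⌊L α m l⌋ + j l)/L| ≤ W l / L ≤ 2ε/H^(l+1)`, `kb_ep_lip` gives `‖T m‖ ≤ ‖Tg ξ(m,j)‖ + 4 π k ε H`.
Average over `j`, use `x ≤ λ + x^(2s)/λ^(2s-1)` (`λ = H ρ`).  For fixed `ξ` and `m` there is at most one `j` with
`ξ(m,j) = ξ` (`W l ≤ L`), and then `|α m l₀ - ξ l₀ / L - integer| ≤ 2ε/H^(l₀+1)`; so every `ξ ∈ tup k L` is hit at most `μ`
times (`Finset.sum_fiberwise_of_maps_to` / `card_eq_sum_card_fiberwise`).  Finish with `Jv_ortho` and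
`L^k / ∏ W l ≤ ε^(-k) ∏ H^(l+1) = ε^(-k) H^(k(k+1)/2)`. -/

lemma eb_blk (f : ℕ → ℂ) (hf : ∀ m, ‖f m‖ ≤ 1) (a h : ℕ) : ‖∑ m ∈ Ico a (a + h), f m‖ ≤ h := by
  refine (norm_sum_le _ _).trans ((sum_le_sum fun m _ => hf m).trans ?_)
  simp

lemma eb_shift (f : ℕ → ℂ) (hf : ∀ m, ‖f m‖ ≤ 1) (a b h : ℕ) :
    ‖∑ m ∈ Ico a b, f m - ∑ m ∈ Ico a b, f (m + h)‖ ≤ 2 * h := by
  rcases le_or_gt a b with hab | hab
  · rw [sum_Ico_add' f a b h]
    have e1 := sum_Ico_consecutive f hab (Nat.le_add_right b h)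
    have e2 := sum_Ico_consecutive f (Nat.le_add_right a h) (Nat.add_le_add_right hab h)
    have e : ∑ m ∈ Ico a b, f m - ∑ m ∈ Ico (a + h) (b + h), f m
        = ∑ m ∈ Ico a (a + h), f m - ∑ m ∈ Ico b (b + h), f m := by
      linear_combination e1 - e2
    rw [e]
    refine (norm_sub_le _ _).trans ?_
    linarith [eb_blk f hf a h, eb_blk f hf b h]
  · rw [Ico_eq_empty_of_le hab.le]
    simp

/-- averaging over shifts -/
theorem shift_avg (f : ℕ → ℂ) (hf : ∀ m, ‖f m‖ ≤ 1) {a b H : ℕ} (hH : 1 ≤ H) :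
    ‖∑ m ∈ Ico a b, f m‖ ≤ (∑ m ∈ Ico a b, ‖∑ h ∈ range H, f (m + h)‖) / H + 2 * H := by
  have hH0 : (0 : ℝ) < H := by exact_mod_cast hH
  have e : (H : ℂ) * ∑ m ∈ Ico a b, f m = ∑ h ∈ range H, (∑ m ∈ Ico a b, f m
      - ∑ m ∈ Ico a b, f (m + h)) + ∑ m ∈ Ico a b, ∑ h ∈ range H, f (m + h) := by
    rw [sum_sub_distrib, sum_comm (s := Ico a b)]
    simp
  have h1 : (H : ℝ) * ‖∑ m ∈ Ico a b, f m‖ ≤ H * (2 * H)
      + ∑ m ∈ Ico a b, ‖∑ h ∈ range H, f (m + h)‖ := by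
    have e2 : (H : ℝ) * ‖∑ m ∈ Ico a b, f m‖ = ‖(H : ℂ) * ∑ m ∈ Ico a b, f m‖ := by simp
    rw [e2, e]
    refine (norm_add_le _ _).trans (add_le_add ?_ (norm_sum_le _ _))
    refine (norm_sum_le _ _).trans ((sum_le_sum fun h hh => (eb_shift f hf a b h).trans
      (?_ : (2 : ℝ) * h ≤ 2 * H)).trans (by simp))
    have : (h : ℝ) ≤ H := by exact_mod_cast (mem_range.1 hh).le
    linarith
  rw [div_add' _ _ _ hH0.ne', le_div_iff₀ hH0]
  linarith

lemma eb_pow {x y : ℝ} (hx : 0 ≤ x) (hy : 0 < y) {s : ℕ} (hs : 1 ≤ s) :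
    x ≤ y + x ^ (2 * s) / y ^ (2 * s - 1) := by
  rcases le_or_gt x y with h | h
  · exact h.trans (le_add_of_nonneg_right (by positivity))
  · have h1 : x ≤ x ^ (2 * s) / y ^ (2 * s - 1) := by
      rw [le_div_iff₀ (by positivity)]
      have e : x ^ (2 * s) = x * x ^ (2 * s - 1) := by
        rw [← pow_succ']; congr 1; omega
      rw [e]
      exact mul_le_mul_of_nonneg_left (pow_le_pow_left₀ hy.le h.le _) hx
    linarith

lemma eb_gauss (k : ℕ) : ∑ l : Fin k, (l.val + 1) = k * (k + 1) / 2 := by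
  rw [Fin.sum_univ_eq_sum_range (fun l => l + 1) k]
  have h : 2 * ∑ l ∈ range k, (l + 1) = k * (k + 1) := by
    induction k with
    | zero => simp
    | succ k ih => rw [sum_range_succ, mul_add, ih]; ring
  omega

/-- the character of the grid at a reduced vector -/
lemma eb_ch {k L : ℕ} (hL : 0 < L) (g : Fin k → ℤ) (h : ℕ) :
    ch L (fun l => (g l % L).toNat) (fun l => (h : ℤ) ^ (l.val + 1))
      = ep ((2 * ∑ l, (g l : ℝ) / L * (h : ℝ) ^ (l.val + 1) : ℝ) : ℂ) := by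
  have hL' : (L : ℂ) ≠ 0 := by exact_mod_cast hL.ne'
  have e : ∀ l, (((g l % L).toNat : ℕ) : ℂ) = g l - L * ((g l / L : ℤ) : ℂ) := by
    intro l
    have h1 : (((g l % L).toNat : ℕ) : ℤ) = g l - L * (g l / L) := by
      rw [Int.toNat_of_nonneg (Int.emod_nonneg _ (by exact_mod_cast hL.ne')), Int.emod_def]
    exact_mod_cast congrArg (fun z : ℤ => (z : ℂ)) h1
  have e2 : 2 * (∑ l, (((g l % L).toNat : ℕ) : ℂ) * (((h : ℤ) ^ (l.val + 1) : ℤ) : ℂ)) / L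
      = ((2 * ∑ l, (g l : ℝ) / L * (h : ℝ) ^ (l.val + 1) : ℝ) : ℂ)
        + 2 * ((-∑ l, g l / L * (h : ℤ) ^ (l.val + 1) : ℤ) : ℂ) := by
    push_cast
    rw [mul_div_assoc, sum_div, ← mul_add, ← sub_eq_add_neg, ← sum_sub_distrib]
    congr 1
    refine sum_congr rfl fun l _ => ?_
    rw [e l]
    field_simp
  rw [ch, e2, ep_add, ep_two_int, mul_one]

lemma eb_near {k L H : ℕ} (hL : 0 < L) (hH : 1 ≤ H) (a : Fin k → ℝ) (g : Fin k → ℤ) {ε : ℝ}
    (hε : 0 < ε) (hg : ∀ l, |a l - g l / L| ≤ 2 * ε / (H : ℝ) ^ (l.val + 1)) :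
    ‖∑ h ∈ range H, ep (2 * ((∑ l, a l * (h : ℝ) ^ (l.val + 1) : ℝ) : ℂ))‖ ≤
      ‖∑ h ∈ range H, ch L (fun l => (g l % L).toNat) (fun l => (h : ℤ) ^ (l.val + 1))‖
        + 4 * π * k * ε * H := by
  have hH0 : (0 : ℝ) < H := by exact_mod_cast hH
  refine (norm_le_insert' _ (∑ h ∈ range H,
    ch L (fun l => (g l % L).toNat) (fun l => (h : ℤ) ^ (l.val + 1)))).trans (add_le_add le_rfl ?_)
  rw [← sum_sub_distrib]
  refine (norm_sum_le _ _).trans ((sum_le_sum (g := fun _ => 4 * π * k * ε) fun h hh => ?_).trans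
    (by simp [mul_comm]))
  have e : 2 * ((∑ l, a l * (h : ℝ) ^ (l.val + 1) : ℝ) : ℂ)
      = ((2 * ∑ l, a l * (h : ℝ) ^ (l.val + 1) : ℝ) : ℂ) := by push_cast; rfl
  rw [eb_ch hL, e]
  refine (kb_ep_lip _ _).trans ?_
  rw [← mul_sub, ← sum_sub_distrib, abs_mul, abs_two]
  have h1 : |∑ l : Fin k, (a l * (h : ℝ) ^ (l.val + 1) - (g l : ℝ) / L * (h : ℝ) ^ (l.val + 1))|
      ≤ k * (2 * ε) := by
    refine (abs_sum_le_sum_abs _ _).trans ((sum_le_sum (g := fun _ => 2 * ε) fun l _ => ?_).trans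
      (by simp))
    rw [← sub_mul, abs_mul, abs_of_nonneg (by positivity : (0 : ℝ) ≤ (h : ℝ) ^ (l.val + 1))]
    have h2 : (h : ℝ) ^ (l.val + 1) ≤ (H : ℝ) ^ (l.val + 1) :=
      pow_le_pow_left₀ (by positivity) (by exact_mod_cast (mem_range.1 hh).le) _
    refine (mul_le_mul (hg l) h2 (by positivity) (by positivity)).trans (le_of_eq ?_)
    field_simp
  nlinarith [Real.pi_pos]

open Classical in
theorem grid {k s H : ℕ} (hs : 1 ≤ s) (hH : 1 ≤ H) (I : Finset ℕ) (α : ℕ → Fin k → ℝ) (l₀ : Fin k)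
    {ε ρ μ : ℝ} (hε : 0 < ε) (hε' : ε ≤ 1 / 2) (hρ : 0 < ρ)
    (hμ : ∀ β : ℝ, (#{m ∈ I | ∃ j : ℤ, |α m l₀ - β - j| ≤ 2 * ε / (H : ℝ) ^ (l₀.val + 1)} : ℝ) ≤ μ) :
    ∑ m ∈ I, ‖∑ h ∈ range H, ep (2 * ((∑ l, α m l * (h : ℝ) ^ (l.val + 1) : ℝ) : ℂ))‖ ≤
      #I * (H * ρ + 4 * π * k * ε * H) +
        μ * ((Jv s k H : ℝ) * (H : ℝ) ^ (k * (k + 1) / 2)) / (ε ^ k * (H * ρ) ^ (2 * s - 1)) := by
  have hH0 : (0 : ℝ) < H := by exact_mod_cast hH
  have hH1 : (1 : ℝ) ≤ H := by exact_mod_cast hH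
  have hμ0 : 0 ≤ μ := le_trans (Nat.cast_nonneg _) (hμ 0)
  obtain ⟨L, hL⟩ := exists_nat_gt ((s * H ^ k : ℕ) + (H : ℝ) ^ k / ε)
  have hL1 : s * H ^ k < L := by
    have : ((s * H ^ k : ℕ) : ℝ) < L := lt_of_le_of_lt (le_add_of_nonneg_right (by positivity)) hL
    exact_mod_cast this
  have hL0 : 0 < L := by omega
  have hLr : (0 : ℝ) < L := by exact_mod_cast hL0
  have hL2 : (H : ℝ) ^ k ≤ ε * L := by
    have : (H : ℝ) ^ k / ε ≤ L := le_trans (le_add_of_nonneg_left (by positivity)) hL.le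
    rwa [div_le_iff₀' hε] at this
  set W : Fin k → ℕ := fun l => ⌈ε * L / (H : ℝ) ^ (l.val + 1)⌉₊ with hW
  have x1 : ∀ l : Fin k, 1 ≤ ε * L / (H : ℝ) ^ (l.val + 1) := by
    intro l
    rw [one_le_div (by positivity)]
    exact (pow_le_pow_right₀ hH1 l.2).trans hL2
  have w1 : ∀ l, ε * L / (H : ℝ) ^ (l.val + 1) ≤ W l := fun l => Nat.le_ceil _
  have w2 : ∀ l, (W l : ℝ) ≤ 2 * (ε * L / (H : ℝ) ^ (l.val + 1)) := by
    intro l
    have := Nat.ceil_lt_add_one (zero_le_one.trans (x1 l))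
    linarith [x1 l]
  have w3 : ∀ l, W l ≤ L := by
    intro l
    have h1 : ε * L / (H : ℝ) ^ (l.val + 1) ≤ ε * L :=
      div_le_self (by positivity) (one_le_pow₀ hH1)
    have : (W l : ℝ) ≤ L := by nlinarith [w2 l]
    exact_mod_cast this
  set J : Finset (Fin k → ℕ) := Fintype.piFinset fun l => range (W l) with hJ
  set g : ℕ → (Fin k → ℕ) → Fin k → ℤ := fun m j l => ⌊L * α m l⌋ + j l with hg
  set ξ : ℕ × (Fin k → ℕ) → Fin k → ℕ := fun p l => (g p.1 p.2 l % L).toNat with hξ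
  set Tg : (Fin k → ℕ) → ℝ := fun η =>
    ‖∑ h ∈ range H, ch L η (fun l => (h : ℤ) ^ (l.val + 1))‖ with hTg
  have hcast : ∀ p l, (ξ p l : ℤ) = g p.1 p.2 l % L := fun p l =>
    Int.toNat_of_nonneg (Int.emod_nonneg _ (by exact_mod_cast hL0.ne'))
  have hnear : ∀ m, ∀ j ∈ J, ∀ l, |α m l - g m j l / L| ≤ 2 * ε / (H : ℝ) ^ (l.val + 1) := by
    intro m j hj l
    have h1 : (j l : ℝ) ≤ W l := by exact_mod_cast (mem_range.1 (Fintype.mem_piFinset.1 hj l)).le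
    have h2 := Int.floor_le (L * α m l)
    have h3 := Int.lt_floor_add_one (L * α m l)
    have h4 : (0 : ℝ) ≤ j l := Nat.cast_nonneg _
    have e : α m l - g m j l / L = (L * α m l - (⌊L * α m l⌋ + j l)) / L := by
      rw [hg]; push_cast; field_simp
    have e2 : 2 * ε / (H : ℝ) ^ (l.val + 1) = 2 * (ε * L / (H : ℝ) ^ (l.val + 1)) / L := by
      field_simp
    rw [e, e2, abs_div, abs_of_pos hLr]
    refine div_le_div_of_nonneg_right (abs_le.2 ⟨?_, ?_⟩) hLr.le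
    · linarith [w2 l]
    · linarith [x1 l]
  have hmap : ∀ p ∈ I ×ˢ J, ξ p ∈ tup k L := by
    intro p _
    refine Fintype.mem_piFinset.2 fun l => mem_range.2 ?_
    have h1 := Int.emod_lt_of_pos (g p.1 p.2 l) (by exact_mod_cast hL0 : (0 : ℤ) < L)
    rw [← hcast] at h1
    exact_mod_cast h1
  have hfib : ∀ η, (#{p ∈ I ×ˢ J | ξ p = η} : ℝ) ≤ μ := by
    intro η
    refine le_trans ?_ (hμ (η l₀ / L))
    refine Nat.cast_le.2 (card_le_card_of_injOn (fun p => p.1) ?_ ?_)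
    · intro p hp
      obtain ⟨hp, e⟩ := mem_filter.1 hp
      obtain ⟨h1, h2⟩ := mem_product.1 hp
      refine mem_coe.2 (mem_filter.2 ⟨h1, g p.1 p.2 l₀ / L, ?_⟩)
      have h3 : ((η l₀ : ℕ) : ℤ) = g p.1 p.2 l₀ - L * (g p.1 p.2 l₀ / L) := by
        rw [← e, hcast, Int.emod_def]
      have h4 : ((η l₀ : ℕ) : ℝ) = g p.1 p.2 l₀ - L * ((g p.1 p.2 l₀ / L : ℤ) : ℝ) := by
        exact_mod_cast congrArg (fun z : ℤ => (z : ℝ)) h3
      have e2 : α p.1 l₀ - η l₀ / L - ((g p.1 p.2 l₀ / L : ℤ) : ℝ) = α p.1 l₀ - g p.1 p.2 l₀ / L := by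
        rw [h4]; field_simp; ring
      rw [e2]
      exact hnear _ _ h2 _
    · rintro ⟨m, j⟩ hp ⟨m', j'⟩ hp' e
      obtain rfl : m = m' := e
      obtain ⟨hp, e1⟩ := mem_filter.1 hp
      obtain ⟨hp', e2⟩ := mem_filter.1 hp'
      refine Prod.ext rfl (funext fun l => ?_)
      have h1 := (mem_range.1 (Fintype.mem_piFinset.1 (mem_product.1 hp).2 l)).trans_le (w3 l)
      have h2 := (mem_range.1 (Fintype.mem_piFinset.1 (mem_product.1 hp').2 l)).trans_le (w3 l)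
      have h3 : g m j l ≡ g m j' l [ZMOD L] := by
        rw [Int.ModEq, ← hcast (m, j), ← hcast (m, j'), e1, e2]
      have h4 : (j l : ℤ) ≡ j' l [ZMOD L] := Int.ModEq.add_left_cancel' _ h3
      exact Nat.ModEq.eq_of_lt_of_lt (Int.natCast_modEq_iff.1 h4) h1 h2
  have hsum : ∑ p ∈ I ×ˢ J, Tg (ξ p) ^ (2 * s) ≤ μ * ((L : ℝ) ^ k * Jv s k H) := by
    rw [← Jv_ortho hL1, mul_sum, ← sum_fiberwise_of_maps_to hmap]
    refine sum_le_sum fun η _ => ?_
    rw [sum_congr rfl (g := fun _ => Tg η ^ (2 * s)) fun p hp => by rw [(mem_filter.1 hp).2],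
      sum_const, nsmul_eq_mul]
    exact mul_le_mul_of_nonneg_right (hfib η) (by positivity)
  have hP : ε ^ k * (L : ℝ) ^ k / (H : ℝ) ^ (k * (k + 1) / 2) ≤ #J := by
    rw [hJ, Fintype.card_piFinset, ← eb_gauss, ← prod_pow_eq_pow_sum, ← mul_pow]
    push_cast
    simp only [card_range]
    refine le_trans (le_of_eq ?_) (prod_le_prod (fun l _ => zero_le_one.trans (x1 l)) fun l _ => w1 l)
    rw [prod_div_distrib]
    simp
  have hP0 : (0 : ℝ) < #J := lt_of_lt_of_le (by positivity) hP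
  have hlam : 0 < H * ρ := by positivity
  have main : #J * ∑ m ∈ I, ‖∑ h ∈ range H, ep (2 * ((∑ l, α m l * (h : ℝ) ^ (l.val + 1) : ℝ) : ℂ))‖
      ≤ #J * (#I * (H * ρ + 4 * π * k * ε * H))
        + (∑ p ∈ I ×ˢ J, Tg (ξ p) ^ (2 * s)) / (H * ρ) ^ (2 * s - 1) := by
    rw [sum_product, sum_div, mul_sum, mul_left_comm, ← nsmul_eq_mul, ← sum_const,
      ← sum_add_distrib]
    refine sum_le_sum fun m _ => ?_
    rw [sum_div, ← nsmul_eq_mul, ← nsmul_eq_mul, ← sum_const, ← sum_const, ← sum_add_distrib]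
    refine sum_le_sum fun j hj => ?_
    have h1 := eb_near hL0 hH (α m) (g m j) hε (hnear m j hj)
    have h2 := eb_pow (x := Tg (ξ (m, j))) (norm_nonneg _) hlam hs
    have h3 : Tg (ξ (m, j)) = ‖∑ h ∈ range H,
      ch L (fun l => (g m j l % L).toNat) (fun l => (h : ℤ) ^ (l.val + 1))‖ := rfl
    linarith
  refine le_of_mul_le_mul_left (main.trans ?_) hP0
  rw [mul_add (#J : ℝ)]
  refine add_le_add le_rfl ((div_le_div_of_nonneg_right hsum (pow_pos hlam _).le).trans ?_)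
  refine le_trans (le_of_eq ?_) (mul_le_mul_of_nonneg_right hP (by positivity))
  field_simp

end

end Pool.Agent.MP_9f080f_an
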