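import Pool.Agent.MP_9f080f_an.Mg.G_SA

namespace Pool.Agent.MP_9f080f_an
open Complex Finset
open scoped Real

noncomputable section

/-! Removing the squarefull part.
`sum_full`: `(e, g) ↦ e g` is a bijection (existence: `shhool_split 0` or `1`; uniqueness: a prime divides `g` iff it divides `P` exactly once).
`STT_sq_le'`: for `p ∤ C` exchange the roles of `B` and `C` (`d ↦ d⁻¹` in `shloca_salie`, then `shloca_kl` as in `shloca_sq`).
`full_sum`: take `W = shhoolW F1 n m`-like maximum over the twists (or define it directly as a `Finset.sup'`/sum over `range e`), which is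
submultiplicative by `STT_mul`; put `f q = if Odd q ∧ Full q then W q * q^(η-1) else 0` and use `shhool_euler` or `euler_le`:
`f p = 0`, `f (p²) ≤ 2 p^(2η-2)` if `p ∤ N` (`STT_sq_le`, `STT_sq_le'`), `f (p²) ≤ p^(2η-1)` always, `f (p^k)` by `STT_crude`, `shhool_tail`.
For `p ∣ N`: with `Z = ⌈(1 + log N)²⌉₊ + 1`, primes `p ≤ Z` have `p^(2η) ≤ exp 1 ≤ 3` and `prod_primes_le` gives `(log Z)^3 ≲ ell N ^ 3`; primes `p > Z` have
`p^(2η-1) ≤ 1/√Z`, use `shhool_omega`.  Compare `shhool_sumH`.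
`red`: by `sum_full`, `sal_mul`, `sal_sqfree`, `sal_congr`, `iv_mul`: the term of `P = e g` is
`sal e (iv (8 * (g % e)) e) n C * ∏ lamp * ∑ ν ∈ Rt, ep (2ν/g + σ√(nC)/(e g))`, so `Aw = ∑ e, W e * inr … (σ_e) …` with
`σ_e r = sal e (iv (8 r) e) n C / W e` if `r` is prime to `e` and `0` otherwise.  For `e ≤ Z` use the hypothesis and `full_sum` with `η = 0`;
for `e > Z` use `‖inr‖ ≤ ∑ #divisors ≤ (X/e)(1 + log X)` (`rt_card_tau`, `sum_divisors_card`), `1 ≤ (e/Z)^η`, `η = 1/(12 ell N)`. -/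

lemma sba_dvd {e g e' g' : ℕ} (h : e * g = e' * g') (he' : Full e') (hg : Squarefree g)
    (hc : g.Coprime e) : g ∣ g' := by
  have h1 : g.Coprime e' := by
    refine Nat.coprime_of_dvd fun p hp hpg hpe => ?_
    have h2 : p ^ 2 ∣ e * g := h ▸ (he' p hp hpe).mul_right g'
    have h3 : (p ^ 2).Coprime e := (Nat.Coprime.coprime_dvd_left hpg hc).pow_left 2
    exact hp.not_isUnit (hg p (sq p ▸ h3.dvd_of_dvd_mul_left h2))
  exact h1.dvd_of_dvd_mul_left (h ▸ Dvd.intro_left e rfl)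

theorem sum_full (X : ℕ) (F : ℕ → ℂ) :
    ∑ P ∈ (Icc 1 X).filter Odd, F P = ∑ e ∈ Fu X, ∑ g ∈ Gq e (X / e), F (e * g) := by
  classical
  rw [sum_sigma']
  refine (sum_bij (fun x _ => x.1 * x.2) ?_ ?_ ?_ fun _ _ => rfl).symm
  · rintro ⟨e, g⟩ hx
    simp only [mem_sigma, Fu, Gq, mem_filter, mem_Icc] at hx ⊢
    obtain ⟨⟨⟨h1, -⟩, h2, -⟩, ⟨h3, h4⟩, -, h5⟩ := hx
    refine ⟨⟨Nat.mul_pos h1 h3, ?_⟩, h2.mul (Nat.coprime_two_right.1 h5.coprime_mul_right_right)⟩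
    rw [mul_comm]
    exact (Nat.le_div_iff_mul_le h1).1 h4
  · rintro ⟨e, g⟩ hx ⟨e', g'⟩ hx' h
    simp only [mem_sigma, Fu, Gq, mem_filter, mem_Icc] at hx hx' h
    obtain rfl : g = g' := Nat.dvd_antisymm
      (sba_dvd h hx'.1.2.2 hx.2.2.1 hx.2.2.2.coprime_mul_left_right)
      (sba_dvd h.symm hx.1.2.2 hx'.2.2.1 hx'.2.2.2.coprime_mul_left_right)
    obtain rfl : e = e' := Nat.eq_of_mul_eq_mul_right hx.2.1.1 h
    rfl
  · intro P hP
    simp only [mem_filter, mem_Icc] at hP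
    obtain ⟨e, g, rfl, h1, h2, h3, -⟩ := shhool_split 0 P (by omega)
    have he : 0 < e := Nat.pos_of_mul_pos_right hP.1.1
    have hg : 0 < g := Nat.pos_of_mul_pos_left hP.1.1
    refine ⟨⟨e, g⟩, ?_, rfl⟩
    simp only [mem_sigma, Fu, Gq, mem_filter, mem_Icc]
    refine ⟨⟨⟨he, (Nat.le_mul_of_pos_right e hg).trans hP.1.2⟩, (Nat.odd_mul.1 hP.2).1,
      fun p hp => h2 p hp hp.pos⟩, ⟨hg, (Nat.le_div_iff_mul_le he).2 (mul_comm e g ▸ hP.1.2)⟩, h3, ?_⟩
    exact (Nat.coprime_two_right.2 (Nat.odd_mul.1 hP.2).2).mul_right h1.symm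

lemma sba_symm {p : ℕ} (hp : p.Prime) (h2 : p ≠ 2) [NeZero (p ^ 2)]
    {ψ : AddChar (ZMod (p ^ 2)) ℂ} (h : ψ.IsPrimitive) {A : ZMod (p ^ 2)} (hA : IsUnit A)
    (B C : ZMod (p ^ 2)) : ‖TS (p ^ 2) ψ A B C‖ = ‖TS (p ^ 2) ψ A C B‖ := by
  have hw : (p : ZMod (p ^ 2)) * p = 0 := by rw [← Nat.cast_mul, ← sq, ZMod.natCast_self]
  have hu : IsUnit (2 : ZMod (p ^ 2)) := by
    have := (ZMod.isUnit_iff_coprime 2 (p ^ 2)).2
      (((Nat.coprime_primes Nat.prime_two hp).2 h2.symm).pow_right 2)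
    exact_mod_cast this
  have hsq : ∀ r : ZMod (p ^ 2), (p : ZMod (p ^ 2)) * r = 0 → r ^ 2 = 0 := fun r hr => by
    rw [← ZMod.natCast_zmod_val r, ← Nat.cast_mul, ZMod.natCast_eq_zero_iff] at hr
    obtain ⟨k, hk⟩ : p ∣ r.val := Nat.dvd_of_mul_dvd_mul_left hp.pos (by rwa [← sq])
    rw [← ZMod.natCast_zmod_val r, hk]
    push_cast
    linear_combination (k : ZMod (p ^ 2)) ^ 2 * hw
  change ‖salieT ψ A B C‖ = ‖salieT ψ A C B‖
  rw [shloca_salie h hw hu hsq hA B C, shloca_salie h hw hu hsq hA C B]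
  congr 2
  refine Fintype.sum_equiv (Equiv.inv _) _ _ fun d => ?_
  rw [Equiv.inv_apply, inv_inv, add_comm]

theorem STT_sq_le' {p : ℕ} (hp : p.Prime) (h2 : p ≠ 2) {a A : ℤ} (hc : ¬(p : ℤ) ∣ a * A) (B : ℤ)
    {C : ℤ} (hC : ¬(p : ℤ) ∣ C) : STT (p ^ 2) a A B C ≤ 2 := by
  have : NeZero (p ^ 2) := ⟨pow_ne_zero 2 hp.ne_zero⟩
  have h := STT_sq_le hp h2 hc C B
  rw [if_neg hC, shloc_eq, shlocT] at h
  rwa [shloc_eq, shlocT, sba_symm hp h2 (ZMod.isPrimitive_stdAddChar (p ^ 2))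
    (shloc_unit (by push_cast; exact (shloc_cop hp hc).pow_right))]

end

end Pool.Agent.MP_9f080f_an

namespace Pool.Agent.MP_9f080f_an
open Complex Finset
open scoped Real

noncomputable section

/-- the maximum over the twists -/
def sbbW (n : ℕ) (C : ℤ) (q : ℕ) : ℝ :=
  sSup ((fun a => STT q a (-4) (4 * n) C) '' {a | IsCoprime a (q : ℤ)})

lemma sbbW_nonneg (n : ℕ) (C : ℤ) (q : ℕ) : 0 ≤ sbbW n C q :=
  Real.sSup_nonneg (by rintro _ ⟨a, -, rfl⟩; exact STT_nonneg ..)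

lemma sbbW_le {n : ℕ} {C : ℤ} {q : ℕ} {w : ℝ} (hw : 0 ≤ w)
    (h : ∀ a : ℤ, IsCoprime a (q : ℤ) → STT q a (-4) (4 * n) C ≤ w) : sbbW n C q ≤ w :=
  Real.sSup_le (by rintro _ ⟨a, ha, rfl⟩; exact h a ha) hw

lemma sbb_four {q : ℕ} (h : Odd q) : IsCoprime (-4 : ℤ) q := by
  have h2 : IsCoprime ((2 : ℕ) : ℤ) q := shhool_icop (Nat.coprime_two_left.2 h)
  have h3 := (h2.pow_left (m := 2)).neg_left
  norm_num at h3 ⊢
  exact h3

lemma sbb_le_W (n : ℕ) (C : ℤ) {q : ℕ} (h : Odd q) {a : ℤ} (ha : IsCoprime a (q : ℤ)) :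
    STT q a (-4) (4 * n) C ≤ sbbW n C q :=
  le_csSup ⟨√(2 * q), by
    rintro _ ⟨b, hb, rfl⟩; exact STT_crude (IsCoprime.mul_left hb (sbb_four h)) _ _⟩ ⟨a, ha, rfl⟩

lemma sbb_full {a b : ℕ} (h : a.Coprime b) (hab : Full (a * b)) : Full a := fun p hp hd =>
  (Nat.Coprime.pow_left 2 (h.coprime_dvd_left hd)).dvd_of_dvd_mul_right (hab p hp (hd.mul_right b))

open Classical in
/-- the submultiplicative function -/
def sbbF (n : ℕ) (C : ℤ) (η : ℝ) (q : ℕ) : ℝ :=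
  if Odd q ∧ Full q then sbbW n C q * (q : ℝ) ^ (η - 1) else 0

lemma sbbF_nonneg (n : ℕ) (C : ℤ) (η : ℝ) (q : ℕ) : 0 ≤ sbbF n C η q := by
  have := sbbW_nonneg n C q
  unfold sbbF; split_ifs <;> positivity

lemma sbbF_le {n : ℕ} {C : ℤ} {η : ℝ} {q : ℕ} {w : ℝ} (hw : 0 ≤ w)
    (h : ∀ a : ℤ, IsCoprime (a * (-4)) (q : ℤ) → STT q a (-4) (4 * n) C ≤ w) :
    sbbF n C η q ≤ w * (q : ℝ) ^ (η - 1) := by
  unfold sbbF
  split_ifs with h1
  · exact mul_le_mul_of_nonneg_right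
      (sbbW_le hw fun a ha => h a (ha.mul_left (sbb_four h1.1))) (by positivity)
  · positivity

lemma sbbF_mul (n : ℕ) (C : ℤ) (η : ℝ) {a b : ℕ} (hab : a.Coprime b) :
    sbbF n C η (a * b) ≤ sbbF n C η a * sbbF n C η b := by
  by_cases h : Odd (a * b) ∧ Full (a * b)
  · have ha : Odd a ∧ Full a := ⟨(Nat.odd_mul.1 h.1).1, sbb_full hab h.2⟩
    have hb : Odd b ∧ Full b := ⟨(Nat.odd_mul.1 h.1).2, sbb_full hab.symm (mul_comm a b ▸ h.2)⟩
    have hu₂ := iv_mul ha.1.pos.ne' (shhool_icop hab.symm)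
    have hu₁ := iv_mul hb.1.pos.ne' (shhool_icop hab)
    have hw : sbbW n C (a * b) ≤ sbbW n C a * sbbW n C b := by
      refine sbbW_le (mul_nonneg (sbbW_nonneg ..) (sbbW_nonneg ..)) fun t ht => ?_
      push_cast at ht
      rw [STT_mul hab ha.1.pos.ne' hb.1.pos.ne' hu₂ hu₁]
      exact mul_le_mul
        (sbb_le_W n C ha.1 (ht.of_mul_right_left.mul_left (shhool_cop hu₂)))
        (sbb_le_W n C hb.1 (ht.of_mul_right_right.mul_left (shhool_cop hu₁)))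
        (STT_nonneg ..) (sbbW_nonneg ..)
    unfold sbbF
    rw [if_pos h, if_pos ha, if_pos hb]
    push_cast
    rw [Real.mul_rpow a.cast_nonneg b.cast_nonneg, mul_mul_mul_comm]
    gcongr
  · rw [sbbF, if_neg h]
    exact mul_nonneg (sbbF_nonneg ..) (sbbF_nonneg ..)

lemma sbb_Z {N : ℕ} : ∃ Z : ℕ, 2 ≤ Z ∧ (1 + Real.log N) ^ 2 ≤ Z ∧ Real.log Z ≤ 2 * ell N := by
  have h0 := Real.log_natCast_nonneg N
  have h1 : 1 ≤ (1 + Real.log N) ^ 2 := one_le_pow₀ (by linarith)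
  have h2 := Nat.le_ceil ((1 + Real.log N) ^ 2)
  have h3 := (Nat.ceil_lt_add_one (zero_le_one.trans h1)).le
  refine ⟨⌈(1 + Real.log N) ^ 2⌉₊ + 1, ?_, by push_cast; linarith, ?_⟩
  · have : 1 ≤ ⌈(1 + Real.log N) ^ 2⌉₊ := by exact_mod_cast h1.trans h2
    omega
  · push_cast
    refine (Real.log_le_log (by positivity)
      (show _ ≤ 3 * (1 + Real.log N) ^ 2 by linarith)).trans ?_
    rw [Real.log_mul (by norm_num) (by positivity), Real.log_pow, ell]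
    have := Real.log_le_sub_one_of_pos (show (0 : ℝ) < 3 by norm_num)
    push_cast
    linarith

theorem full_sum : ∃ K : ℝ, 0 < K ∧ ∀ (n : ℕ) (C : ℤ) (N : ℕ), 1 ≤ N →
    (∀ p : ℕ, p.Prime → p ∣ n → (p : ℤ) ∣ C → p ∣ N) → ∃ W : ℕ → ℝ, (∀ e, 0 ≤ W e) ∧
      (∀ (e : ℕ) (v : ℤ), Odd e → IsCoprime v e → ‖sal e v n C‖ ≤ W e) ∧
      ∀ (η : ℝ) (X : ℕ), 0 ≤ η → η ≤ 1 / (12 * ell N) →
        ∑ e ∈ Fu X, W e * (e : ℝ) ^ (η - 1) ≤ K * ell N ^ 3 := by
  classical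
  obtain ⟨K, hK, H⟩ := shhool_euler (c := 2) (by positivity)
  obtain ⟨D, hD, HD⟩ := prod_primes_le (γ := 3) (by norm_num)
  refine ⟨K * (Real.exp 2 * (D * 8)), by positivity, fun n C N hN hnC => ⟨sbbW n C,
    sbbW_nonneg n C, fun e v he hv => by rw [norm_sal]; exact sbb_le_W n C he hv,
    fun η X hη0 hη1 => ?_⟩⟩
  obtain ⟨Z, hZ, hNZ, hZN⟩ := sbb_Z (N := N)
  have hl := one_le_ell N
  have hη : η ≤ 1 / 12 := hη1.trans (one_div_le_one_div_of_le (by norm_num) (by linarith))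
  have hα : ∀ p : ℕ, 1 ≤ 1 + (3 : ℝ) / p := fun p => by
    have : 0 ≤ (3 : ℝ) / p := by positivity
    linarith
  have hβ : 1 ≤ 1 + 1 / √(Z : ℝ) := by
    have : 0 ≤ 1 / √(Z : ℝ) := by positivity
    linarith
  obtain ⟨PZ, hPZ⟩ : ∃ PZ, PZ = (Finset.range (Z + 1)).filter Nat.Prime := ⟨_, rfl⟩
  have e0 : ∑ e ∈ Fu X, sbbW n C e * (e : ℝ) ^ (η - 1) = ∑ q ∈ Finset.Icc 1 X, sbbF n C η q := by
    unfold Fu sbbF
    rw [Finset.sum_filter]
  rw [e0]
  refine (H (sbbF n C η) (sbbF_nonneg n C η) ?_ (fun a b hab => sbbF_mul n C η hab)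
    (fun p hp k => ?_)
    (fun p => (if p ∈ N.primeFactors then 1 + 1 / √(Z : ℝ) else 1) *
      (if p ∈ PZ then 1 + (3 : ℝ) / p else 1)) (fun p hp => ?_) (fun p hp h2 => ?_) X).trans ?_
  · simpa using sbbF_le (n := n) (C := C) (η := η) (q := 1) zero_le_one
      fun a _ => (STT_one ..).le
  · exact (sbbF_le (Real.sqrt_nonneg _) fun a ha => STT_crude ha _ _).trans (shhool_tail hp k hη)
  · refine one_le_mul_of_one_le_of_one_le ?_ ?_ <;> split_ifs
    exacts [hβ, le_rfl, hα p, le_rfl]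
  · have hp2 : (2 : ℝ) ≤ p := by exact_mod_cast hp.two_le
    have hp0 : (0 : ℝ) < p := by linarith
    obtain ⟨s, hs⟩ : ∃ s : ℝ, s = (p : ℝ) ^ (-(5 / 4) : ℝ) := ⟨_, rfl⟩
    rw [← hs]
    have hs0 : 0 ≤ s := by rw [hs]; positivity
    have hsq : ((p ^ 2 : ℕ) : ℝ) ^ (η - 1) = (p : ℝ) ^ (2 * (η - 1)) := by
      push_cast
      rw [Real.rpow_mul hp0.le]; norm_num
    have e2 : sbbF n C η (p ^ 2) ≤ p * (p : ℝ) ^ (2 * (η - 1)) := by
      rw [← hsq]
      refine sbbF_le hp0.le fun a ha => ?_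
      refine (STT_sq_le hp h2 (shhool_ndvd hp two_ne_zero ha) _ _).trans ?_
      split_ifs <;> linarith
    have hb1 : 1 ≤ (if p ∈ N.primeFactors then 1 + 1 / √(Z : ℝ) else 1) := by
      split_ifs
      exacts [hβ, le_rfl]
    have e1 : sbbF n C η p = 0 := by
      rw [sbbF, if_neg]
      intro h
      have := Nat.le_of_dvd hp.pos (h.2 p hp dvd_rfl)
      nlinarith [hp.two_le]
    rw [e1, add_zero]
    by_cases hZp : Z < p
    · have hps : p ∉ PZ := fun h => by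
        rw [hPZ] at h
        have := Finset.mem_range.1 (Finset.mem_filter.1 h).1; omega
      rw [if_neg hps, mul_one]
      by_cases hn' : p ∣ N
      · rw [if_pos (Nat.mem_primeFactors.2 ⟨hp, hn', by omega⟩)]
        have e3 : p * (p : ℝ) ^ (2 * (η - 1)) ≤ 1 / √(Z : ℝ) := by
          have hZ0 : (0 : ℝ) < Z := by exact_mod_cast (by omega : 0 < Z)
          have hZp' : (Z : ℝ) ≤ p := by exact_mod_cast hZp.le
          calc p * (p : ℝ) ^ (2 * (η - 1)) = (p : ℝ) ^ (1 + 2 * (η - 1)) := by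
                rw [Real.rpow_add hp0, Real.rpow_one]
            _ ≤ (p : ℝ) ^ (-(1 / 2) : ℝ) :=
                Real.rpow_le_rpow_of_exponent_le (by linarith) (by linarith)
            _ ≤ (Z : ℝ) ^ (-(1 / 2) : ℝ) := Real.rpow_le_rpow_of_nonpos hZ0 hZp' (by norm_num)
            _ = _ := by rw [Real.rpow_neg hZ0.le, Real.sqrt_eq_rpow, one_div (_ ^ _)]
        nlinarith [mul_nonneg (zero_le_one.trans hβ) hs0]
      · rw [if_neg (fun h => hn' (Nat.dvd_of_mem_primeFactors h)), one_mul]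
        have e3 : sbbF n C η (p ^ 2) ≤ 2 * (p : ℝ) ^ (2 * (η - 1)) := by
          rw [← hsq]
          refine sbbF_le (by norm_num) fun a ha => ?_
          have h3 := shhool_ndvd hp two_ne_zero ha
          by_cases hC : (p : ℤ) ∣ C
          · have := STT_sq_le hp h2 h3 (4 * n) C
            have h4 : ¬(p : ℤ) ∣ 4 * n := fun h => hn' (hnC p hp ((shhool_B F1 hp h2).1 h) hC)
            rwa [if_neg h4] at this
          · exact STT_sq_le' hp h2 h3 _ hC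
        have e4 : (p : ℝ) ^ (2 * (η - 1)) ≤ s := by
          rw [hs]
          exact Real.rpow_le_rpow_of_exponent_le (by linarith) (by linarith)
        linarith
    · have hps : p ∈ PZ := by
        rw [hPZ]
        exact Finset.mem_filter.2 ⟨Finset.mem_range.2 (by omega), hp⟩
      rw [if_pos hps]
      have e3 : (p : ℝ) ^ (2 * η) ≤ 3 := by
        have h3 : Real.log p ≤ Real.log Z := Real.log_le_log hp0 (by exact_mod_cast not_lt.1 hZp)
        rw [Real.rpow_def_of_pos hp0]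
        refine le_trans (Real.exp_le_exp.2 ?_) (by linarith [Real.exp_one_lt_d9] : Real.exp 1 ≤ _)
        rw [le_div_iff₀ (by positivity)] at hη1
        nlinarith [mul_le_mul_of_nonneg_left (h3.trans hZN) hη0]
      have e6 : p * (p : ℝ) ^ (2 * (η - 1)) = (p : ℝ) ^ (2 * η) / p := by
        rw [mul_sub, Real.rpow_sub hp0, mul_one, Real.rpow_two]; field_simp
      have e9 : 1 + sbbF n C η (p ^ 2) ≤ 1 + 3 / p := by
        rw [e6] at e2
        have := div_le_div_of_nonneg_right e3 hp0.le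
        linarith
      refine e9.trans ?_
      have e10 := hα p
      calc 1 + (3 : ℝ) / p = 1 * (1 + 3 / p) * 1 := by ring
        _ ≤ _ := by gcongr; linarith
  · rw [mul_assoc, mul_assoc]
    refine mul_le_mul_of_nonneg_left ?_ hK.le
    rw [Finset.prod_mul_distrib]
    refine mul_le_mul ((shhool_prod_ite _ _ (fun _ => 1 + 1 / √(Z : ℝ)) fun p _ => hβ).trans
      (shhool_omega hN (by omega) hNZ)) ((shhool_prod_ite _ _ _ fun p _ => hα p).trans ?_)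
      (Finset.prod_nonneg fun p _ => ?_) (by positivity)
    · have := HD Z hZ PZ fun p hp => by
        rw [hPZ] at hp
        obtain ⟨h1, h2⟩ := Finset.mem_filter.1 hp
        exact ⟨h2, by have := Finset.mem_range.1 h1; omega⟩
      refine this.trans ?_
      rw [show (3 : ℝ) = (3 : ℕ) by norm_num, Real.rpow_natCast, mul_assoc]
      refine mul_le_mul_of_nonneg_left ?_ hD.le
      calc Real.log Z ^ 3 ≤ (2 * ell N) ^ 3 :=
            pow_le_pow_left₀ (Real.log_natCast_nonneg Z) hZN 3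
        _ = _ := by ring
    · split_ifs
      exacts [zero_le_one.trans (hα p), zero_le_one]

end

end Pool.Agent.MP_9f080f_an

namespace Pool.Agent.MP_9f080f_an
open Complex Finset
open scoped Real

noncomputable section

lemma sb_term {e g Y : ℕ} (he : Odd e) (hg : g ∈ Gq e Y) (n : ℕ) (C : ℤ) :
    IsCoprime (iv (8 * (g % e : ℕ)) e) (e : ℤ) ∧
      sal (e * g) (iv 8 (e * g)) n C = sal e (iv (8 * (g % e : ℕ)) e) n C *
        ((∏ p ∈ g.primeFactors, lamp n C p) * ∑ ν ∈ Rt (n * C) e g, ep (2 * (ν : ℂ) / g)) := by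
  obtain ⟨-, hsq, hcop⟩ := mem_filter.1 hg
  have ha : e ≠ 0 := he.pos.ne'
  have hb : g ≠ 0 := hsq.ne_zero
  have hab : e.Coprime g := (hcop.coprime_mul_left_right).symm
  have hgo : Odd g := Nat.coprime_two_right.1 hcop.coprime_mul_right_right
  have h8 : ∀ q : ℕ, Odd q → IsCoprime (8 : ℤ) q := fun q hq => by
    have : Nat.Coprime (2 ^ 3) q := Nat.Coprime.pow_left 3 (Nat.coprime_two_left.2 hq)
    exact_mod_cast shhool_icop this
  have hu₂ := iv_mul ha (shhool_icop hab.symm)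
  have hu₁ := iv_mul hb (shhool_icop hab)
  have ht := iv_mul (mul_ne_zero ha hb) (h8 _ (he.mul hgo))
  have hm : ((g % e : ℕ) : ℤ) ≡ g [ZMOD e] := by
    push_cast; exact Int.mod_modEq _ _
  have hcr : IsCoprime (8 * ((g % e : ℕ) : ℤ)) (e : ℤ) :=
    (h8 e he).mul_left (shhool_icop
      (Nat.coprime_iff_gcd_eq_one.2 (by rw [← Nat.gcd_rec]; exact hab)))
  have hv := iv_mul ha hcr
  refine ⟨shhool_cop hv, ?_⟩
  rw [sal_mul hab ha hb hu₂ hu₁]
  congr 1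
  · refine sal_congr ?_ n C
    have ht' : iv 8 (e * g) * 8 ≡ 1 [ZMOD e] := ht.of_dvd (by push_cast; exact dvd_mul_right _ _)
    have h1 : iv (8 * (g % e : ℕ)) e * (8 * g) ≡ 1 [ZMOD e] :=
      ((hm.symm.mul_left _).mul_left _).trans hv
    calc iv 8 (e * g) * iv g e ≡ iv 8 (e * g) * iv g e * (iv (8 * (g % e : ℕ)) e * (8 * g))
          [ZMOD e] := by simpa using (h1.symm.mul_left (iv 8 (e * g) * iv g e))
      _ = (iv 8 (e * g) * 8) * (iv g e * g) * iv (8 * (g % e : ℕ)) e := by ring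
      _ ≡ 1 * 1 * iv (8 * (g % e : ℕ)) e [ZMOD e] := (ht'.mul hu₂).mul_right _
      _ = _ := by ring
  · refine sal_sqfree hsq hgo ?_ n C
    have ht' : iv 8 (e * g) * 8 ≡ 1 [ZMOD g] := ht.of_dvd (by push_cast; exact dvd_mul_left _ _)
    calc 8 * (e : ℤ) * (iv 8 (e * g) * iv e g) = (iv 8 (e * g) * 8) * (iv e g * e) := by ring
      _ ≡ 1 * 1 [ZMOD g] := ht'.mul hu₁
      _ = 1 := by ring

lemma sb_crude (D : ℤ) (e : ℕ) (G : ℝ) (Y : ℕ) {σ lm : ℕ → ℂ} (hσ : ∀ r, ‖σ r‖ ≤ 1)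
    (hl : ∀ p, ‖lm p‖ ≤ 1) : ‖inr D e G Y σ lm (fun _ _ => 1)‖ ≤ Y * (1 + Real.log Y) := by
  refine le_trans ?_ (sum_divisors_card Y)
  refine (norm_sum_le _ _).trans (le_trans (sum_le_sum fun g hg => ?_)
    (sum_le_sum_of_subset_of_nonneg (filter_subset _ _) fun _ _ _ => Nat.cast_nonneg _))
  refine (norm_sum_le _ _).trans ?_
  refine (sum_le_card_nsmul _ _ 1 fun ν _ => ?_).trans ?_
  · rw [one_mul]
    exact norm_trm G hσ hl g ν
  · rw [nsmul_eq_mul, mul_one]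
    exact_mod_cast rt_card_tau hg D

lemma sb_eq (n C X : ℕ) (s : ℝ) {W : ℕ → ℝ} (hW0 : ∀ e, 0 ≤ W e)
    (hW : ∀ (e : ℕ) (v : ℤ), Odd e → IsCoprime v e → ‖sal e v n C‖ ≤ W e) :
    ∃ σ : ℕ → ℕ → ℂ, (∀ e r, ‖σ e r‖ ≤ 1) ∧ Aw n C s X = ∑ e ∈ Fu X,
      W e * inr (n * C) e (s * √(n * C)) (X / e) (σ e) (lamp n C) (fun _ _ => 1) := by
  classical
  refine ⟨fun e r => if ‖sal e (iv (8 * (r : ℕ)) e) n C‖ ≤ W e then
    sal e (iv (8 * (r : ℕ)) e) n C / W e else 0, fun e r => ?_, ?_⟩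
  · dsimp only
    split_ifs with h
    · rw [norm_div, Complex.norm_real, Real.norm_of_nonneg (hW0 e)]
      exact div_le_one_of_le₀ h (hW0 e)
    · simp
  rw [Aw, sum_full]
  refine sum_congr rfl fun e he => ?_
  have ho : Odd e := by
    unfold Fu at he
    exact (mem_filter.1 he).2.1
  rw [inr, mul_sum]
  refine sum_congr rfl fun g hg => ?_
  obtain ⟨hc, ht⟩ := sb_term ho hg n C
  have hb := hW e _ ho hc
  have e1 : (W e : ℂ) * (sal e (iv (8 * (g % e : ℕ)) e) n C / W e)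
      = sal e (iv (8 * (g % e : ℕ)) e) n C := by
    by_cases h0 : W e = 0
    · rw [h0] at hb
      rw [norm_le_zero_iff.1 hb]
      simp
    · have : (W e : ℂ) ≠ 0 := by exact_mod_cast h0
      field_simp
  rw [ht, mul_sum, mul_sum, sum_mul, mul_sum]
  refine sum_congr rfl fun ν _ => ?_
  simp only [trm, if_pos hb, one_mul]
  rw [← mul_assoc, ← mul_assoc, ← mul_assoc, e1, Complex.ofReal_add, ep_add, ← mul_assoc]
  push_cast
  rfl

theorem red : ∃ K : ℝ, 0 < K ∧ ∀ (n C N X : ℕ) (s Z B : ℝ), 1 ≤ N → 1 ≤ X → 1 ≤ Z → 0 ≤ B →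
    (∀ p : ℕ, p.Prime → p ∣ n → p ∣ C → p ∣ N) →
    (∀ e ∈ Fu X, (e : ℝ) ≤ Z → ∀ σ : ℕ → ℂ, (∀ r, ‖σ r‖ ≤ 1) →
      ‖inr (n * C) e (s * √(n * C)) (X / e) σ (lamp n C) (fun _ _ => 1)‖ ≤ B * (X / e : ℕ)) →
    ‖Aw n C s X‖ ≤ K * X * ell N ^ 3 * (B + Z ^ (-1 / (12 * ell N)) * (1 + Real.log X)) := by
  classical
  obtain ⟨K, hK, H⟩ := full_sum
  refine ⟨K, hK, fun n C N X s Z B hN hX hZ hB hp h => ?_⟩
  obtain ⟨W, hW0, hW, hsum⟩ := H n C N hN fun p pp h1 h2 => hp p pp h1 (by exact_mod_cast h2)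
  obtain ⟨σ, hσ, hA⟩ := sb_eq n C X s hW0 hW
  have hl := one_le_ell N
  set η : ℝ := 1 / (12 * ell N) with hη
  have hη0 : 0 ≤ η := by positivity
  have hX' : (1 : ℝ) ≤ X := by exact_mod_cast hX
  have hL : 0 ≤ 1 + Real.log X := by linarith [Real.log_nonneg hX']
  have hZ0 : 0 < Z := by linarith
  have hZη : 0 < Z ^ (-η) := Real.rpow_pos_of_pos hZ0 _
  have key : ∀ e ∈ Fu X,
      ‖inr (n * C) e (s * √(n * C)) (X / e) (σ e) (lamp n C) (fun _ _ => 1)‖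
        ≤ X * B * (e : ℝ) ^ ((0 : ℝ) - 1) + X * (Z ^ (-η) * (1 + Real.log X)) * (e : ℝ) ^ (η - 1) := by
    intro e he
    have he1 : 1 ≤ e ∧ e ≤ X := by
      unfold Fu at he
      exact mem_Icc.1 (mem_filter.1 he).1
    have he0 : (0 : ℝ) < e := by exact_mod_cast he1.1
    have hd : ((X / e : ℕ) : ℝ) ≤ X / e := Nat.cast_div_le
    rw [zero_sub, Real.rpow_neg_one]
    rcases le_or_gt (e : ℝ) Z with hle | hlt
    · refine (h e he hle (σ e) (hσ e)).trans (le_add_of_le_of_nonneg ?_ (by positivity))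
      calc B * ((X / e : ℕ) : ℝ) ≤ B * (X / e) := by gcongr
        _ = _ := by field_simp
    · refine (sb_crude _ e _ _ (hσ e) (norm_lamp n C)).trans
        (le_add_of_nonneg_of_le (by positivity) ?_)
      have h1 : (1 : ℝ) ≤ ((X / e : ℕ) : ℝ) := by exact_mod_cast Nat.div_pos he1.2 he1.1
      have h2 : Real.log ((X / e : ℕ) : ℝ) ≤ Real.log X :=
        Real.log_le_log (by linarith) (by exact_mod_cast Nat.div_le_self X e)
      have h3 : 1 ≤ Z ^ (-η) * (e : ℝ) ^ η := by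
        rw [Real.rpow_neg hZ0.le, ← div_eq_inv_mul, one_le_div (Real.rpow_pos_of_pos hZ0 _)]
        exact Real.rpow_le_rpow hZ0.le hlt.le hη0
      have h4 : 0 ≤ 1 + Real.log ((X / e : ℕ) : ℝ) := by linarith [Real.log_nonneg h1]
      calc ((X / e : ℕ) : ℝ) * (1 + Real.log ((X / e : ℕ) : ℝ))
          ≤ X / e * (1 + Real.log X) * 1 := by rw [mul_one]; gcongr
        _ ≤ X / e * (1 + Real.log X) * (Z ^ (-η) * (e : ℝ) ^ η) := by gcongr
        _ = _ := by rw [Real.rpow_sub_one he0.ne']; field_simp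
  have h0 := hsum 0 X le_rfl hη0
  have h1 := hsum η X hη0 le_rfl
  rw [hA, show -1 / (12 * ell N) = -η by rw [hη]; ring]
  calc _ ≤ ∑ e ∈ Fu X, W e * (X * B * (e : ℝ) ^ ((0 : ℝ) - 1)
          + X * (Z ^ (-η) * (1 + Real.log X)) * (e : ℝ) ^ (η - 1)) := by
        refine (norm_sum_le _ _).trans (sum_le_sum fun e he => ?_)
        rw [norm_mul, Complex.norm_real, Real.norm_of_nonneg (hW0 e)]
        exact mul_le_mul_of_nonneg_left (key e he) (hW0 e)
    _ = X * B * (∑ e ∈ Fu X, W e * (e : ℝ) ^ ((0 : ℝ) - 1))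
          + X * (Z ^ (-η) * (1 + Real.log X)) * ∑ e ∈ Fu X, W e * (e : ℝ) ^ (η - 1) := by
        rw [mul_sum, mul_sum, ← sum_add_distrib]
        exact sum_congr rfl fun e _ => by ring
    _ ≤ X * B * (K * ell N ^ 3) + X * (Z ^ (-η) * (1 + Real.log X)) * (K * ell N ^ 3) := by
        gcongr
    _ = _ := by ring

end

end Pool.Agent.MP_9f080f_an
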