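import Pool.Agent.MP_9f080f_an.Mg.G_SA

namespace Pool.Agent.MP_9f080f_an
open Complex Finset
open scoped Real

noncomputable section

/-! Moduli with few or many prime factors in the range.
`sqf_rankin`: `g ↦ g.primeFactors` is injective on squarefree numbers and `∏ (1 + x p) = ∑ over subsets` (`Finset.prod_one_add`), or `euler_le`.
`ht` (Hall, Tenenbaum): with `F g = ∏ f p`, `F g log Y = F g log (Y/g) + ∑_{p ∣ g} F g log p`; `log (Y/g) ≤ Y/g`; write `g = m p`,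
`F g ≤ 2 F m`, `∑_{p ≤ Y/m} log p ≤ log 4 * Y/m` (`Chebyshev.theta_le_log4_mul_x` or `primorial_le_four_pow`).
`tau_sum`: `∑ τ(c)/c ≤ (∑ 1/a)²`.  `om_big`: `τ g = 2^ω`, `1 ≤ 2^(ω - k)`, `sqf_rankin` with `f = 4`, `prod_primes_le`.
`om_small`: `#Rt ≤ ∏ #Rt p` (`rt_card_le`), `1 ≤ 10^526 * 10^(-#(primeFactors ∩ Q))`; apply `ht` to
`f p = if p.Coprime (2e) then #Rt p * (if p ∈ Q then 1/10 else 1) else 0`.  For `ww u < p ≤ yy u`: `f p ≤ 1/5 + [p ∣ D]` (`rt_card_prime`).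
So the product is at most `∏_{p ≤ w}(1+2/p) ∏_{w<p≤y}(1 + (1/5)/p) ∏_{p ∣ D, p > w}(1+1/p) ∏_{y<p≤Y}(1+2/p)`, which by `prod_primes_le`,
`prod_primes_Ioc`, `primes_dvd_card`-like count (`ω(D) ≤ 2 log D ≤ 2 e^u ≤ w`), `shat_floor` is `≲ u^12 * (2u^89)^(1/5) * e * (4 u^5)^2 ≤ K u^40`; and `log Y ≥ u^100/2`. -/

theorem sca_inj {α β : Type*} [DecidableEq β] (A : Finset α) (B : Finset β) (φ : α → β)
    (h : α → ℝ) (k : β → ℝ) (hinj : Set.InjOn φ A) (hm : ∀ x ∈ A, φ x ∈ B)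
    (hk : ∀ y ∈ B, 0 ≤ k y) (hle : ∀ x ∈ A, h x ≤ k (φ x)) : ∑ x ∈ A, h x ≤ ∑ y ∈ B, k y := by
  calc ∑ x ∈ A, h x ≤ ∑ x ∈ A, k (φ x) := sum_le_sum hle
    _ = ∑ y ∈ A.image φ, k y := (sum_image hinj).symm
    _ ≤ ∑ y ∈ B, k y := by
      refine sum_le_sum_of_subset_of_nonneg ?_ fun y hy _ => hk y hy
      intro y hy
      obtain ⟨x, hx, rfl⟩ := mem_image.1 hy
      exact hm x hx

theorem sca_cast {g : ℕ} (hg : Squarefree g) : (g : ℝ) = ∏ p ∈ g.primeFactors, (p : ℝ) := by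
  rw [← Nat.cast_prod, Nat.prod_primeFactors_of_squarefree hg]

theorem sqf_rankin {f : ℕ → ℝ} (hf : ∀ p, 0 ≤ f p) (Y : ℕ) :
    ∑ g ∈ (Icc 1 Y).filter Squarefree, (∏ p ∈ g.primeFactors, f p) / g ≤
      ∏ p ∈ (Icc 1 Y).filter Nat.Prime, (1 + f p / p) := by
  rw [prod_one_add]
  refine sca_inj _ _ (fun g => g.primeFactors) _ _ ?_ ?_ ?_ ?_
  · intro a ha b hb hab
    have ha' := (mem_filter.1 (mem_coe.1 ha)).2
    have hb' := (mem_filter.1 (mem_coe.1 hb)).2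
    simp only at hab
    rw [← Nat.prod_primeFactors_of_squarefree ha', ← Nat.prod_primeFactors_of_squarefree hb', hab]
  · intro g hg
    obtain ⟨hg1, -⟩ := mem_filter.1 hg
    obtain ⟨h1, h2⟩ := mem_Icc.1 hg1
    refine mem_powerset.2 fun p hp => ?_
    have hp1 := Nat.prime_of_mem_primeFactors hp
    exact mem_filter.2 ⟨mem_Icc.2 ⟨hp1.one_lt.le, (Nat.le_of_mem_primeFactors hp).trans h2⟩, hp1⟩
  · intro S _
    exact prod_nonneg fun p _ => div_nonneg (hf p) (Nat.cast_nonneg _)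
  · intro g hg
    rw [prod_div_distrib, ← sca_cast (mem_filter.1 hg).2]

theorem sca_theta (x : ℝ) (hx : 0 ≤ x) :
    ∑ p ∈ (Ioc 0 ⌊x⌋₊).filter Nat.Prime, Real.log p ≤ 3 / 2 * x := by
  have h := Chebyshev.theta_le_log4_mul_x hx
  unfold Chebyshev.theta at h
  have h4 : Real.log 4 ≤ 3 / 2 := by
    have : Real.log 4 = 2 * Real.log 2 := by
      rw [show (4 : ℝ) = 2 ^ 2 by norm_num, Real.log_pow]; norm_num
    have := Real.log_two_lt_d9
    linarith
  exact h.trans (mul_le_mul_of_nonneg_right h4 hx)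

theorem sca_split {f : ℕ → ℝ} {g p : ℕ} (hg : Squarefree g) (hp : p ∈ g.primeFactors) :
    ∏ q ∈ g.primeFactors, f q = f p * ∏ q ∈ (g / p).primeFactors, f q := by
  have hp1 := Nat.prime_of_mem_primeFactors hp
  have hd := Nat.dvd_of_mem_primeFactors hp
  obtain ⟨m, rfl⟩ := hd
  have hco : p.Coprime m := (Nat.squarefree_mul_iff.1 hg).1
  rw [Nat.mul_div_cancel_left _ hp1.pos, hco.primeFactors_mul,
    prod_union hco.disjoint_primeFactors, hp1.primeFactors, prod_singleton]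

theorem sca_second {f : ℕ → ℝ} (hf : ∀ p, 0 ≤ f p) (hf2 : ∀ p, f p ≤ 2) (Y : ℕ) :
    ∑ g ∈ (Icc 1 Y).filter Squarefree, ∑ p ∈ g.primeFactors,
        (∏ q ∈ g.primeFactors, f q) * Real.log p ≤
      3 * Y * ∑ g ∈ (Icc 1 Y).filter Squarefree, (∏ p ∈ g.primeFactors, f p) / g := by
  have hF : ∀ g : ℕ, 0 ≤ ∏ q ∈ g.primeFactors, f q := fun g => prod_nonneg fun q _ => hf q
  calc _ ≤ ∑ m ∈ (Icc 1 Y).filter Squarefree, ∑ p ∈ (Ioc 0 ⌊(Y : ℝ) / m⌋₊).filter Nat.Prime,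
        2 * (∏ q ∈ m.primeFactors, f q) * Real.log p := by
        rw [sum_sigma', sum_sigma']
        refine sca_inj _ _ (fun x => (⟨x.1 / x.2, x.2⟩ : (_ : ℕ) × ℕ)) _ _ ?_ ?_ ?_ ?_
        · rintro ⟨a, p⟩ ha ⟨b, q⟩ hb hab
          have ha' := Nat.dvd_of_mem_primeFactors (mem_sigma.1 (mem_coe.1 ha)).2
          have hb' := Nat.dvd_of_mem_primeFactors (mem_sigma.1 (mem_coe.1 hb)).2
          simp only [Sigma.mk.injEq, heq_eq_eq] at hab ha' hb' ⊢
          obtain ⟨h1, rfl⟩ := hab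
          refine ⟨?_, rfl⟩
          rw [← Nat.div_mul_cancel ha', ← Nat.div_mul_cancel hb', h1]
        · rintro ⟨g, p⟩ hx
          obtain ⟨hg, hp⟩ := mem_sigma.1 hx
          obtain ⟨hg1, hg2⟩ := mem_filter.1 hg
          obtain ⟨h1, h2⟩ := mem_Icc.1 hg1
          simp only at hg1 hg2 hp h1 h2
          have hp1 := Nat.prime_of_mem_primeFactors hp
          obtain ⟨m, rfl⟩ := Nat.dvd_of_mem_primeFactors hp
          have hm : 0 < m := Nat.pos_of_mul_pos_left h1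
          simp only [mem_sigma, mem_filter, mem_Icc, mem_Ioc, Nat.mul_div_cancel_left _ hp1.pos]
          refine ⟨⟨⟨hm, le_trans (Nat.le_mul_of_pos_left _ hp1.pos) h2⟩,
            (Nat.squarefree_mul_iff.1 hg2).2.2⟩, ⟨hp1.pos, ?_⟩, hp1⟩
          refine Nat.le_floor ?_
          rw [le_div_iff₀ (by exact_mod_cast hm)]
          exact_mod_cast h2
        · rintro ⟨m, p⟩ _
          exact mul_nonneg (mul_nonneg (by norm_num) (hF m)) (Real.log_natCast_nonneg _)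
        · rintro ⟨g, p⟩ hx
          obtain ⟨hg, hp⟩ := mem_sigma.1 hx
          simp only
          refine mul_le_mul_of_nonneg_right ?_ (Real.log_natCast_nonneg _)
          rw [sca_split (mem_filter.1 hg).2 hp]
          exact mul_le_mul_of_nonneg_right (hf2 p) (hF _)
    _ ≤ _ := by
        rw [mul_sum]
        refine sum_le_sum fun m _ => ?_
        rw [← mul_sum]
        have h := sca_theta ((Y : ℝ) / m) (by positivity)
        calc _ ≤ 2 * (∏ q ∈ m.primeFactors, f q) * (3 / 2 * ((Y : ℝ) / m)) :=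
              mul_le_mul_of_nonneg_left h (mul_nonneg (by norm_num) (hF m))
          _ = _ := by ring

theorem ht {f : ℕ → ℝ} (hf : ∀ p, 0 ≤ f p) (hf2 : ∀ p, f p ≤ 2) (Y : ℕ) :
    (∑ g ∈ (Icc 1 Y).filter Squarefree, ∏ p ∈ g.primeFactors, f p) * Real.log Y ≤
      4 * Y * ∏ p ∈ (Icc 1 Y).filter Nat.Prime, (1 + f p / p) := by
  have hF : ∀ g : ℕ, 0 ≤ ∏ q ∈ g.primeFactors, f q := fun g => prod_nonneg fun q _ => hf q
  have h1 := sca_second hf hf2 Y
  have h2 := sqf_rankin hf Y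
  have h3 : (∑ g ∈ (Icc 1 Y).filter Squarefree, ∏ p ∈ g.primeFactors, f p) * Real.log Y ≤
      Y * (∑ g ∈ (Icc 1 Y).filter Squarefree, (∏ p ∈ g.primeFactors, f p) / g) +
      ∑ g ∈ (Icc 1 Y).filter Squarefree, ∑ p ∈ g.primeFactors,
        (∏ q ∈ g.primeFactors, f q) * Real.log p := by
    rw [sum_mul, mul_sum, ← sum_add_distrib]
    refine sum_le_sum fun g hg => ?_
    obtain ⟨hg1, hg2⟩ := mem_filter.1 hg
    obtain ⟨g1, g2⟩ := mem_Icc.1 hg1
    have g1' : (0 : ℝ) < g := by exact_mod_cast g1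
    have hY : (0 : ℝ) < Y := by exact_mod_cast lt_of_lt_of_le g1 g2
    have e1 : ∑ p ∈ g.primeFactors, Real.log p = Real.log g := by
      rw [sca_cast hg2, Real.log_prod]
      intro p hp
      exact_mod_cast (Nat.prime_of_mem_primeFactors hp).ne_zero
    rw [← mul_sum, e1]
    have e2 : Real.log Y ≤ Y / g + Real.log g := by
      have := Real.log_le_sub_one_of_pos (div_pos hY g1')
      rw [Real.log_div hY.ne' g1'.ne'] at this
      linarith
    calc _ ≤ (∏ p ∈ g.primeFactors, f p) * (Y / g + Real.log g) :=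
          mul_le_mul_of_nonneg_left e2 (hF g)
      _ = _ := by ring
  have hY : (0 : ℝ) ≤ Y := Nat.cast_nonneg _
  have h4 := mul_le_mul_of_nonneg_left h2 (mul_nonneg (by norm_num : (0 : ℝ) ≤ 4) hY)
  linarith

theorem tau_sum (Y : ℕ) : ∑ c ∈ Icc 1 Y, (#c.divisors : ℝ) / c ≤ (1 + Real.log Y) ^ 2 := by
  have hH : ∑ a ∈ Icc 1 Y, (1 : ℝ) / a ≤ 1 + Real.log Y := by
    have h := harmonic_le_one_add_log Y
    rw [harmonic_eq_sum_Icc] at h
    push_cast at h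
    simpa only [one_div] using h
  have h0 : 0 ≤ ∑ a ∈ Icc 1 Y, (1 : ℝ) / a := sum_nonneg fun a _ => by positivity
  calc ∑ c ∈ Icc 1 Y, (#c.divisors : ℝ) / c = ∑ c ∈ Icc 1 Y, ∑ _d ∈ c.divisors, (1 : ℝ) / c := by
        refine sum_congr rfl fun c _ => ?_
        rw [sum_const, nsmul_eq_mul]; ring
    _ ≤ ∑ x ∈ Icc 1 Y ×ˢ Icc 1 Y, (1 : ℝ) / x.1 * (1 / x.2) := by
        rw [sum_sigma']
        refine sca_inj _ _ (fun x => (x.2, x.1 / x.2)) _ _ ?_ ?_ ?_ ?_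
        · rintro ⟨a, p⟩ ha ⟨b, q⟩ hb hab
          have ha' := Nat.dvd_of_mem_divisors (mem_sigma.1 (mem_coe.1 ha)).2
          have hb' := Nat.dvd_of_mem_divisors (mem_sigma.1 (mem_coe.1 hb)).2
          simp only [Sigma.mk.injEq, heq_eq_eq, Prod.mk.injEq] at hab ha' hb' ⊢
          obtain ⟨rfl, h1⟩ := hab
          refine ⟨?_, rfl⟩
          rw [← Nat.div_mul_cancel ha', ← Nat.div_mul_cancel hb', h1]
        · rintro ⟨c, d⟩ hx
          obtain ⟨hc, hd⟩ := mem_sigma.1 hx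
          obtain ⟨h1, h2⟩ := mem_Icc.1 hc
          simp only at h1 h2 hd
          obtain ⟨m, rfl⟩ := Nat.dvd_of_mem_divisors hd
          have hm : 0 < m := Nat.pos_of_mul_pos_left h1
          have hd0 : 0 < d := Nat.pos_of_mul_pos_right h1
          simp only [mem_product, mem_Icc, Nat.mul_div_cancel_left _ hd0]
          exact ⟨⟨hd0, le_trans (Nat.le_mul_of_pos_right _ hm) h2⟩,
            hm, le_trans (Nat.le_mul_of_pos_left _ hd0) h2⟩
        · rintro ⟨a, b⟩ _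
          positivity
        · rintro ⟨c, d⟩ hx
          obtain ⟨hc, hd⟩ := mem_sigma.1 hx
          obtain ⟨h1, h2⟩ := mem_Icc.1 hc
          simp only at h1 h2 hd ⊢
          obtain ⟨m, rfl⟩ := Nat.dvd_of_mem_divisors hd
          have hd0 : 0 < d := Nat.pos_of_mul_pos_right h1
          rw [Nat.mul_div_cancel_left _ hd0, one_div_mul_one_div]
          push_cast
          exact le_rfl
    _ = (∑ a ∈ Icc 1 Y, (1 : ℝ) / a) ^ 2 := by
        rw [sum_product, sq, sum_mul_sum]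
    _ ≤ _ := pow_le_pow_left₀ h0 hH 2

end

end Pool.Agent.MP_9f080f_an

namespace Pool.Agent.MP_9f080f_an
open Complex Finset
open scoped Real

noncomputable section

theorem scb_tau {g : ℕ} (hg : Squarefree g) : #g.divisors = 2 ^ #g.primeFactors := by
  rw [Nat.card_divisors hg.ne_zero, ← Finset.prod_const]
  refine Finset.prod_congr rfl fun p hp => ?_
  rw [Nat.factorization_eq_one_of_squarefree hg (Nat.prime_of_mem_primeFactors hp)
    (Nat.dvd_of_mem_primeFactors hp)]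

theorem om_big : ∃ K : ℝ, 0 < K ∧ ∀ (Q : Finset ℕ) (Y k : ℕ),
    ∑ g ∈ (Icc 1 Y).filter (fun g => Squarefree g ∧ k < #(g.primeFactors ∩ Q)), (#g.divisors : ℝ) / g ≤
      K * (1 + Real.log Y) ^ 4 / 2 ^ k := by
  obtain ⟨C, hC, h⟩ := prod_primes_le (γ := 4) (by norm_num)
  refine ⟨C + 1, by linarith, fun Q Y k => ?_⟩
  have hlog : 0 ≤ Real.log Y := Real.log_natCast_nonneg Y
  have h1 : ∏ p ∈ (Icc 1 Y).filter Nat.Prime, (1 + (4 : ℝ) / p) ≤
      (C + 1) * (1 + Real.log Y) ^ 4 := by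
    have h2 : (1 : ℝ) ≤ (1 + Real.log Y) ^ 4 := one_le_pow₀ (by linarith)
    by_cases hY : 2 ≤ Y
    · have h3 := h Y hY ((Icc 1 Y).filter Nat.Prime) fun p hp => by
        rw [mem_filter, mem_Icc] at hp
        exact ⟨hp.2, hp.1.2⟩
      have h4 : Real.log Y ^ (4 : ℝ) = Real.log Y ^ 4 := by
        rw [← Real.rpow_natCast]; norm_num
      have h5 : Real.log Y ^ 4 ≤ (1 + Real.log Y) ^ 4 := pow_le_pow_left₀ hlog (by linarith) _
      rw [h4] at h3
      nlinarith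
    · have h3 : (Icc 1 Y).filter Nat.Prime = ∅ := by
        refine filter_eq_empty_iff.2 fun p hp hpp => ?_
        have := hpp.two_le
        rw [mem_Icc] at hp
        omega
      rw [h3, prod_empty]
      nlinarith
  have h2 := sqf_rankin (f := fun _ => 4) (fun _ => by norm_num) Y
  rw [le_div_iff₀ (by positivity), sum_mul]
  refine le_trans ?_ (h2.trans h1)
  refine le_trans (sum_le_sum (g := fun g : ℕ => (∏ _p ∈ g.primeFactors, (4 : ℝ)) / g) ?_)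
    (sum_le_sum_of_subset_of_nonneg ?_ fun g _ _ => by positivity)
  · intro g hg
    rw [mem_filter] at hg
    obtain ⟨-, hs, hk⟩ := hg
    have h3 : k ≤ #g.primeFactors := hk.le.trans (card_le_card inter_subset_left)
    have h4 : (2 : ℝ) ^ k ≤ 2 ^ #g.primeFactors := pow_le_pow_right₀ (by norm_num) h3
    rw [scb_tau hs, prod_const, div_mul_eq_mul_div]
    refine div_le_div_of_nonneg_right ?_ (Nat.cast_nonneg g)
    rw [show (4 : ℝ) = 2 * 2 by norm_num, mul_pow]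
    push_cast
    exact mul_le_mul_of_nonneg_left h4 (by positivity)
  · intro g hg
    rw [mem_filter] at hg ⊢
    exact ⟨hg.1, hg.2.1⟩

end

end Pool.Agent.MP_9f080f_an

namespace Pool.Agent.MP_9f080f_an
open Complex Finset
open scoped Real

noncomputable section

/-- the local weight -/
def scf (D : ℤ) (e : ℕ) (Q : Finset ℕ) (p : ℕ) : ℝ :=
  if p.Prime ∧ p.Coprime (2 * e) then (#(Rt D e p) : ℝ) * (if p ∈ Q then 1 / 10 else 1) else 0

lemma sc_nonneg (D : ℤ) (e : ℕ) (Q : Finset ℕ) (p : ℕ) : 0 ≤ scf D e Q p := by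
  unfold scf
  split_ifs <;> positivity

lemma sc_le_two (D : ℤ) (e : ℕ) (Q : Finset ℕ) (p : ℕ) : scf D e Q p ≤ 2 := by
  unfold scf
  split_ifs with h h'
  · have : (#(Rt D e p) : ℝ) ≤ 2 := by exact_mod_cast (rt_card_prime h.1 h.2 D).1
    linarith
  · have : (#(Rt D e p) : ℝ) ≤ 2 := by exact_mod_cast (rt_card_prime h.1 h.2 D).1
    linarith
  · norm_num

lemma sc_mid (D : ℤ) (e w y p : ℕ) (h1 : w < p) (h2 : p ≤ y) :
    scf D e (QQ D e w y) p ≤ 1 / 5 + if (p : ℤ) ∣ D then 1 else 0 := by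
  have h0 : (0 : ℝ) ≤ if (p : ℤ) ∣ D then 1 else 0 := by split_ifs <;> norm_num
  unfold scf
  by_cases h : p.Prime ∧ p.Coprime (2 * e)
  · rw [if_pos h]
    have h3 := rt_card_prime h.1 h.2 D
    by_cases hq : p ∈ QQ D e w y
    · rw [if_pos hq]
      have : (#(Rt D e p) : ℝ) ≤ 2 := by exact_mod_cast h3.1
      linarith
    · rw [if_neg hq, mul_one]
      by_cases hd : (p : ℤ) ∣ D
      · rw [if_pos hd]
        have : (#(Rt D e p) : ℝ) ≤ 1 := by exact_mod_cast h3.2 hd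
        linarith
      · have : Rt D e p = ∅ := by
          by_contra hne
          exact hq (mem_filter.2 ⟨mem_Ioc.2 ⟨h1, h2⟩, h.1, hd, nonempty_iff_ne_empty.2 hne⟩)
        rw [this]
        simp only [card_empty, Nat.cast_zero]
        linarith
  · rw [if_neg h]
    linarith

lemma sc_term (D : ℤ) {e Y : ℕ} (Q : Finset ℕ) (k : ℕ) {g : ℕ} (hg : g ∈ Gq e Y)
    (hk : #(g.primeFactors ∩ Q) < k) :
    (#(Rt D e g) : ℝ) ≤ 10 ^ k * ∏ p ∈ g.primeFactors, scf D e Q p := by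
  obtain ⟨-, hs, hc⟩ := mem_filter.1 hg
  have h1 : ∏ p ∈ g.primeFactors, scf D e Q p =
      (∏ p ∈ g.primeFactors, (#(Rt D e p) : ℝ)) * (1 / 10) ^ #(g.primeFactors ∩ Q) := by
    rw [← prod_const, ← prod_ite_mem g.primeFactors Q, ← prod_mul_distrib]
    refine prod_congr rfl fun p hp => ?_
    unfold scf
    rw [if_pos ⟨Nat.prime_of_mem_primeFactors hp,
      Nat.Coprime.coprime_dvd_left (Nat.dvd_of_mem_primeFactors hp) hc⟩]
  have h2 : (#(Rt D e g) : ℝ) ≤ ∏ p ∈ g.primeFactors, (#(Rt D e p) : ℝ) := by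
    exact_mod_cast rt_card_le hs D e
  have h3 : (1 : ℝ) ≤ 10 ^ k * (1 / 10) ^ #(g.primeFactors ∩ Q) := by
    rw [one_div, inv_pow, ← div_eq_mul_inv, le_div_iff₀ (by positivity), one_mul]
    exact pow_le_pow_right₀ (by norm_num) hk.le
  have h4 : (0 : ℝ) ≤ ∏ p ∈ g.primeFactors, (#(Rt D e p) : ℝ) := prod_nonneg fun _ _ => by positivity
  rw [h1]
  nlinarith

lemma sc_omega {n : ℕ} (hn : n ≠ 0) : (#n.primeFactors : ℝ) ≤ 2 * Real.log n := by
  have h1 : 2 ^ #n.primeFactors ≤ n :=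
    le_trans (pow_card_le_prod _ (fun p => p) 2 fun p hp => (Nat.prime_of_mem_primeFactors hp).two_le)
      (Nat.le_of_dvd (Nat.pos_of_ne_zero hn) (Nat.prod_primeFactors_dvd n))
  have h2 : (2 : ℝ) ^ #n.primeFactors ≤ n := by exact_mod_cast h1
  have h3 := Real.log_le_log (by positivity) h2
  rw [Real.log_pow] at h3
  have h4 := Real.log_two_gt_d9
  have h5 : (0 : ℝ) ≤ #n.primeFactors := by positivity
  nlinarith

lemma sc_div {D : ℤ} (hD : 1 ≤ D) {w : ℕ} (hw0 : 0 < w) (hw : 2 * Real.log D ≤ w) (S : Finset ℕ)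
    (hS : ∀ p ∈ S, p.Prime ∧ w < p) :
    ∑ p ∈ S, (if (p : ℤ) ∣ D then 1 else 0 : ℝ) / p ≤ 1 := by
  have hw1 : (0 : ℝ) < w := by exact_mod_cast hw0
  have hn : D.natAbs ≠ 0 := by omega
  have hc : ((D.natAbs : ℕ) : ℝ) = D := by
    rw [← Int.cast_natCast, Int.natAbs_of_nonneg (by omega)]
  have h1 : ∑ p ∈ S, (if (p : ℤ) ∣ D then 1 else 0 : ℝ) / p ≤
      ∑ p ∈ S, (if p ∈ D.natAbs.primeFactors then 1 / (w : ℝ) else 0) := by
    refine sum_le_sum fun p hp => ?_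
    by_cases hd : (p : ℤ) ∣ D
    · rw [if_pos hd, if_pos (Nat.mem_primeFactors.2 ⟨(hS p hp).1, Int.natCast_dvd.1 hd, hn⟩)]
      exact one_div_le_one_div_of_le hw1 (by exact_mod_cast (hS p hp).2.le)
    · rw [if_neg hd, zero_div]
      split_ifs <;> positivity
  refine h1.trans ?_
  rw [sum_ite_mem, sum_const, nsmul_eq_mul, mul_one_div, div_le_one hw1]
  have h2 : (#(S ∩ D.natAbs.primeFactors) : ℝ) ≤ #D.natAbs.primeFactors := by
    exact_mod_cast card_le_card inter_subset_right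
  have h3 := sc_omega hn
  rw [hc] at h3
  linarith

lemma sc_split (F : ℕ → ℝ) {w y Y : ℕ} (h0 : 2 ≤ w) (h1 : w ≤ y) (h2 : y ≤ Y) :
    ∑ p ∈ (Icc 1 Y).filter Nat.Prime, F p = F 2 + ∑ p ∈ (Ioc 2 w).filter Nat.Prime, F p +
      ∑ p ∈ (Ioc w y).filter Nat.Prime, F p + ∑ p ∈ (Ioc y Y).filter Nat.Prime, F p := by
  simp only [sum_filter]
  have h3 : Icc 1 Y = Ioc 0 Y := rfl
  have h4 : ∑ p ∈ Ioc 0 2, (if p.Prime then F p else 0) = F 2 := by
    have : Ioc 0 2 = ({1, 2} : Finset ℕ) := by decide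
    rw [this, sum_pair (by norm_num), if_neg Nat.not_prime_one, if_pos Nat.prime_two, zero_add]
  rw [h3, ← sum_Ioc_consecutive _ (Nat.zero_le y) h2, ← sum_Ioc_consecutive _ (Nat.zero_le w) h1,
    ← sum_Ioc_consecutive _ (Nat.zero_le 2) h0, h4]

lemma sc_log {a b c : ℝ} {u : ℝ} {m : ℕ} (hu : 0 < u) (hc : 0 < c) (ha : 0 < a) (hb : 0 < b)
    (h : a ≤ c * u ^ m * b) : Real.log (a / b) ≤ Real.log c + m * Real.log u := by
  rw [← Real.log_pow, ← Real.log_mul hc.ne' (by positivity)]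
  exact Real.log_le_log (by positivity) ((div_le_iff₀ hb).2 h)

lemma sc_sum : ∃ C : ℝ, ∀ (u : ℕ) (D : ℤ) (e Y : ℕ), 2 ≤ u → Par u D e Y →
    ∑ p ∈ (Icc 1 Y).filter Nat.Prime, scf D e (QQ D e (ww u) (yy u)) p / p ≤
      C + 40 * Real.log u := by
  obtain ⟨C, hC⟩ := mertens
  refine ⟨2 + 2 * (C + Real.log 2) + 1 / 5 * (C + Real.log 2) + 2 * (C + Real.log 4),
    fun u D e Y hu hP => ?_⟩
  have hu2 : (2 : ℝ) ≤ u := by exact_mod_cast hu
  have hu1 : (1 : ℝ) ≤ u := by linarith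
  have hu0 : (0 : ℝ) < u := by linarith
  have p5 : (32 : ℝ) ≤ (u : ℝ) ^ 5 := le_trans (by norm_num) (pow_le_pow_left₀ (by norm_num) hu2 5)
  have p6 : 32 * (u : ℝ) ≤ (u : ℝ) ^ 6 := by rw [pow_succ]; nlinarith
  have p95 : (u : ℝ) ^ 6 ≤ (u : ℝ) ^ 95 := pow_le_pow_right₀ hu1 (by norm_num)
  have p100 : (u : ℝ) ^ 100 = (u : ℝ) ^ 5 * (u : ℝ) ^ 95 := by rw [← pow_add]
  have p89 : (u : ℝ) ^ 95 = (u : ℝ) ^ 89 * (u : ℝ) ^ 6 := by rw [← pow_add]
  have q95 : (0 : ℝ) < (u : ℝ) ^ 95 := by positivity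
  have q89 : (0 : ℝ) < (u : ℝ) ^ 89 := by positivity
  have q6 : (0 : ℝ) < (u : ℝ) ^ 6 := by positivity
  have q5 : (0 : ℝ) < (u : ℝ) ^ 5 := by positivity
  have q100 : 32 * (u : ℝ) ^ 95 ≤ (u : ℝ) ^ 100 := by
    rw [p100]; exact mul_le_mul_of_nonneg_right p5 q95.le
  obtain ⟨w1, w2, w3, w4⟩ := shat_floor (t := (u : ℝ) ^ 6) (by linarith)
  obtain ⟨y1, -, y3, y4⟩ := shat_floor (t := (u : ℝ) ^ 95) (by linarith)
  change 2 ≤ ww u at w1
  change _ ≤ (ww u : ℝ) at w2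
  change _ ≤ Real.log (ww u) at w3
  change Real.log (ww u) ≤ _ at w4
  change 2 ≤ yy u at y1
  change _ ≤ Real.log (yy u) at y3
  change Real.log (yy u) ≤ _ at y4
  have hwy : ww u ≤ yy u := Nat.floor_le_floor (Real.exp_le_exp.2 p95)
  have hyY : yy u ≤ Y := Nat.floor_le_of_le ((Real.exp_le_exp.2 (by linarith)).trans hP.Y1)
  have hY0 : (0 : ℝ) < Y := (Real.exp_pos _).trans_le hP.Y1
  have lY1 : (u : ℝ) ^ 100 / 2 ≤ Real.log Y := (Real.le_log_iff_exp_le hY0).2 hP.Y1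
  have lY2 : Real.log Y ≤ 2 * (u : ℝ) ^ 100 := (Real.log_le_iff_le_exp hY0).2 hP.Y2
  have l2 := Real.log_two_gt_d9
  have m1 := hC 2 (ww u) le_rfl w1
  have m2 := hC (ww u) (yy u) w1 hwy
  have m3 := hC (yy u) Y y1 hyY
  have n1 : Real.log (Real.log (ww u) / Real.log (2 : ℕ)) ≤ Real.log 2 + (6 : ℕ) * Real.log u :=
    sc_log hu0 two_pos (by linarith) (by push_cast; linarith) (by
      have := mul_le_mul_of_nonneg_left l2.le q6.le
      push_cast; linarith)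
  have n2 : Real.log (Real.log (yy u) / Real.log (ww u)) ≤ Real.log 2 + (89 : ℕ) * Real.log u :=
    sc_log hu0 two_pos (by linarith) (by linarith) (by
      have := mul_le_mul_of_nonneg_left w3 q89.le
      linarith)
  have n3 : Real.log (Real.log Y / Real.log (yy u)) ≤ Real.log 4 + (5 : ℕ) * Real.log u :=
    sc_log hu0 four_pos (by linarith) (by linarith) (by
      have := mul_le_mul_of_nonneg_left y3 q5.le
      linarith)
  have hD : 2 * Real.log D ≤ ww u := by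
    have e1 : Real.exp ((u : ℝ) ^ 6) = Real.exp u * Real.exp ((u : ℝ) ^ 6 - u) := by
      rw [← Real.exp_add]; congr 1; ring
    have e2 := Real.add_one_le_exp ((u : ℝ) ^ 6 - u)
    have e3 := Real.exp_pos (u : ℝ)
    have e4 := hP.D2
    have e5 := mul_le_mul_of_nonneg_left (show 4 ≤ Real.exp ((u : ℝ) ^ 6 - u) by linarith) e3.le
    linarith
  have m4 := sc_div hP.D1 (by omega) hD ((Ioc (ww u) (yy u)).filter Nat.Prime)
    fun p hp => ⟨(mem_filter.1 hp).2, (mem_Ioc.1 (mem_filter.1 hp).1).1⟩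
  have k1 : ∀ S : Finset ℕ, ∑ p ∈ S, scf D e (QQ D e (ww u) (yy u)) p / p ≤ 2 * ∑ p ∈ S, (1 : ℝ) / p := by
    intro S
    rw [mul_sum]
    refine sum_le_sum fun p _ => ?_
    rw [mul_one_div]
    exact div_le_div_of_nonneg_right (sc_le_two _ _ _ _) p.cast_nonneg
  have k2 : ∑ p ∈ (Ioc (ww u) (yy u)).filter Nat.Prime, scf D e (QQ D e (ww u) (yy u)) p / p ≤
      1 / 5 * ∑ p ∈ (Ioc (ww u) (yy u)).filter Nat.Prime, (1 : ℝ) / p +
        ∑ p ∈ (Ioc (ww u) (yy u)).filter Nat.Prime, (if (p : ℤ) ∣ D then 1 else 0 : ℝ) / p := by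
    rw [mul_sum, ← sum_add_distrib]
    refine sum_le_sum fun p hp => ?_
    rw [mul_one_div, ← add_div]
    have := mem_Ioc.1 (mem_filter.1 hp).1
    exact div_le_div_of_nonneg_right (sc_mid D e _ _ p this.1 this.2) p.cast_nonneg
  have k3 : scf D e (QQ D e (ww u) (yy u)) 2 / (2 : ℕ) ≤ 1 := by
    have := sc_le_two D e (QQ D e (ww u) (yy u)) 2
    push_cast
    linarith
  have lu : 0 ≤ Real.log u := Real.log_nonneg hu1
  rw [sc_split _ w1 hwy hyY]
  have k4 := k1 ((Ioc 2 (ww u)).filter Nat.Prime)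
  have k5 := k1 ((Ioc (yy u) Y).filter Nat.Prime)
  push_cast at n1 n2 n3 m1 k3 ⊢
  linarith

lemma sc_main (k : ℕ) : ∃ (u₀ : ℕ) (K : ℝ), 0 < K ∧ ∀ (u : ℕ) (D : ℤ) (e Y : ℕ), u₀ ≤ u → Par u D e Y →
    ∑ g ∈ (Gq e Y).filter (fun g => #(g.primeFactors ∩ QQ D e (ww u) (yy u)) < k),
      (#(Rt D e g) : ℝ) ≤ K * Y / (u : ℝ) ^ 60 := by
  obtain ⟨C, hC⟩ := sc_sum
  refine ⟨2, 10 ^ k * (8 * Real.exp C), by positivity, fun u D e Y hu hP => ?_⟩
  have hu0 : (0 : ℝ) < u := by exact_mod_cast (by omega : 0 < u)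
  have hY0 : (0 : ℝ) < Y := (Real.exp_pos _).trans_le hP.Y1
  have lY1 : (u : ℝ) ^ 100 / 2 ≤ Real.log Y := (Real.le_log_iff_exp_le hY0).2 hP.Y1
  set Q := QQ D e (ww u) (yy u) with hQ
  set S := ∑ g ∈ (Icc 1 Y).filter Squarefree, ∏ p ∈ g.primeFactors, scf D e Q p with hS
  have hS0 : 0 ≤ S := sum_nonneg fun g _ => prod_nonneg fun p _ => sc_nonneg _ _ _ _
  have h1 : ∑ g ∈ (Gq e Y).filter (fun g => #(g.primeFactors ∩ Q) < k), (#(Rt D e g) : ℝ) ≤
      10 ^ k * S := by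
    rw [hS, mul_sum]
    refine (sum_le_sum fun g hg => sc_term D Q k (mem_filter.1 hg).1 (mem_filter.1 hg).2).trans
      (sum_le_sum_of_subset_of_nonneg (fun g hg => ?_) fun g _ _ => ?_)
    · have := mem_filter.1 (mem_filter.1 hg).1
      exact mem_filter.2 ⟨this.1, this.2.1⟩
    · exact mul_nonneg (by positivity) (prod_nonneg fun p _ => sc_nonneg _ _ _ _)
  have h2 := ht (sc_nonneg D e Q) (sc_le_two D e Q) Y
  have h3 : ∏ p ∈ (Icc 1 Y).filter Nat.Prime, (1 + scf D e Q p / p) ≤ Real.exp C * (u : ℝ) ^ 40 := by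
    have e1 : Real.exp C * (u : ℝ) ^ 40 = Real.exp (C + 40 * Real.log u) := by
      rw [Real.exp_add, show (40 : ℝ) * Real.log u = ((40 : ℕ) : ℝ) * Real.log u by norm_num,
        Real.exp_nat_mul, Real.exp_log hu0]
    rw [e1]
    refine le_trans ?_ (Real.exp_le_exp.2 (hC u D e Y hu hP))
    rw [Real.exp_sum]
    refine prod_le_prod (fun p _ => ?_) fun p _ => ?_
    · have := div_nonneg (sc_nonneg D e Q p) (p.cast_nonneg (α := ℝ))
      linarith
    · rw [add_comm]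
      exact Real.add_one_le_exp _
  have h4 : S * ((u : ℝ) ^ 100 / 2) ≤ 4 * Y * (Real.exp C * (u : ℝ) ^ 40) :=
    (mul_le_mul_of_nonneg_left lY1 hS0).trans (h2.trans (mul_le_mul_of_nonneg_left h3 (by positivity)))
  have h5 : S ≤ 8 * Real.exp C * Y / (u : ℝ) ^ 60 := by
    rw [le_div_iff₀ (by positivity)]
    have e2 : (u : ℝ) ^ 100 = (u : ℝ) ^ 60 * (u : ℝ) ^ 40 := by rw [← pow_add]
    have e3 : (0 : ℝ) < (u : ℝ) ^ 40 := by positivity
    rw [e2] at h4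
    refine le_of_mul_le_mul_right ?_ e3
    linarith
  refine h1.trans ?_
  rw [mul_assoc, mul_div_assoc]
  exact mul_le_mul_of_nonneg_left h5 (by positivity)

theorem om_small : ∃ (u₀ : ℕ) (K : ℝ), 0 < K ∧ ∀ (u : ℕ) (D : ℤ) (e Y : ℕ), u₀ ≤ u → Par u D e Y →
    ∑ g ∈ (Gq e Y).filter (fun g => #(g.primeFactors ∩ QQ D e (ww u) (yy u)) < 526),
      (#(Rt D e g) : ℝ) ≤ K * Y / (u : ℝ) ^ 60 :=
  sc_main 526

end

end Pool.Agent.MP_9f080f_an
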