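import Pool.Agent.MP_9f080f_an.Mg.G_SA

namespace Pool.Agent.MP_9f080f_an
open Complex Finset
open scoped Real

noncomputable section

/-! Reindexing by the part prime to `Q`, and averaging over sign patterns.
`reidx`: `(g, ν) ↦ ((cp Q g, zr z₀ (cp Q g) ν), g.primeFactors ∩ Q, ν)` with inverse `(i, S, ν) ↦ (i.1 * dd S, ν)`
(`Finset.sum_sigma'`, `Finset.sum_bij'`/`sum_nbij'`; `Nat.prod_primeFactors_of_squarefree`, `Nat.primeFactors_prod`, `Nat.primeFactors_mul`).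
`exists_X`: Chinese remainder theorem (induction on `Q`, or `Nat.chineseRemainderOfFinset`).
`rootavg`: the map `E ↦ ((z + c X E) % (c dd S)).toNat` sends `Q.powerset` into the set of roots; a root `ν` is congruent to `r q` or `-r q`
modulo each `q ∈ S` (not both), and its fibre is `{E | E ∩ S = {q ∈ S | q ∣ ν - r q}}`, of size `2^(#Q - #S)`.
`col_dvd`: with `ρ = ± r q`: `c X ≡ ρ - z`, `c' X ≡ ρ - z'` give `ρ (c' - c) ≡ c' z - c z'`; square and use `4 e² ρ² ≡ D`. -/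

lemma sda_split (Q : Finset ℕ) {g : ℕ} (hg : Squarefree g) :
    cp Q g * dd (g.primeFactors ∩ Q) = g := by
  have h := Finset.prod_sdiff (f := fun p : ℕ => p) (inter_subset_left (s₁ := g.primeFactors) (s₂ := Q))
  rw [sdiff_inter_self_left, Nat.prod_primeFactors_of_squarefree hg] at h
  exact h

lemma sda_ndvd {Q : Finset ℕ} (hQ : ∀ q ∈ Q, q.Prime) (g : ℕ) {q : ℕ} (hq : q ∈ Q) :
    ¬q ∣ cp Q g := by
  intro h
  obtain ⟨p, hp, hqp⟩ := (Prime.dvd_finsetProd_iff (hQ q hq).prime _).1 h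
  rw [mem_sdiff] at hp
  have := (Nat.prime_dvd_prime_iff_eq (hQ q hq) (Nat.prime_of_mem_primeFactors hp.1)).1 hqp
  exact hp.2 (this ▸ hq)

lemma sda_dd_ne {S : Finset ℕ} (hS : ∀ q ∈ S, q.Prime) : dd S ≠ 0 :=
  prod_ne_zero_iff.2 fun q hq => (hS q hq).ne_zero

lemma sda_pf {S : Finset ℕ} (hS : ∀ q ∈ S, q.Prime) {c : ℕ} (hc : c ≠ 0) :
    (c * dd S).primeFactors = c.primeFactors ∪ S := by
  rw [Nat.primeFactors_mul hc (sda_dd_ne hS), dd, Nat.primeFactors_prod hS]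

lemma sda_inter {Q S : Finset ℕ} (hQ : ∀ q ∈ Q, q.Prime) (hS : S ⊆ Q) {c : ℕ} (hc : c ≠ 0)
    (hn : ∀ q ∈ Q, ¬q ∣ c) : (c * dd S).primeFactors ∩ Q = S := by
  rw [sda_pf (fun q hq => hQ q (hS hq)) hc]
  ext p
  simp only [mem_inter, mem_union]
  constructor
  · rintro ⟨h1 | h1, h2⟩
    · exact absurd (Nat.dvd_of_mem_primeFactors h1) (hn p h2)
    · exact h1
  · intro h
    exact ⟨Or.inr h, hS h⟩

lemma sda_cp {Q S : Finset ℕ} (hQ : ∀ q ∈ Q, q.Prime) (hS : S ⊆ Q) {c : ℕ} (hc : Squarefree c)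
    (hn : ∀ q ∈ Q, ¬q ∣ c) : cp Q (c * dd S) = c := by
  have e : (c * dd S).primeFactors \ Q = c.primeFactors := by
    rw [sda_pf (fun q hq => hQ q (hS hq)) hc.ne_zero]
    ext p
    simp only [mem_sdiff, mem_union]
    constructor
    · rintro ⟨h1 | h1, h2⟩
      · exact h1
      · exact absurd (hS h1) h2
    · intro h
      exact ⟨Or.inl h, fun h2 => hn p h2 (Nat.dvd_of_mem_primeFactors h)⟩
  rw [cp, e, Nat.prod_primeFactors_of_squarefree hc]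

lemma sda_sqf {Q S : Finset ℕ} (hQ : ∀ q ∈ Q, q.Prime) (hS : S ⊆ Q) {c : ℕ} (hc : Squarefree c)
    (hn : ∀ q ∈ Q, ¬q ∣ c) : Squarefree (c * dd S) := by
  have h1 : c.Coprime (dd S) := Nat.Coprime.prod_right fun q hq =>
    ((Nat.Prime.coprime_iff_not_dvd (hQ q (hS hq))).2 (hn q (hS hq))).symm
  rw [Nat.squarefree_mul h1]
  refine ⟨hc, ?_⟩
  refine Finset.squarefree_prod_of_pairwise_isCoprime ?_ fun q hq => (hQ q (hS hq)).squarefree
  intro p hp q hq hpq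
  exact Nat.coprime_iff_isRelPrime.1
    ((Nat.coprime_primes (hQ p (hS hp)) (hQ q (hS hq))).2 hpq)

lemma sda_zr_dvd (z₀ : ℤ) (c : ℕ) (ν : ℤ) : (c : ℤ) ∣ ν - zr z₀ c ν := by
  refine ⟨(ν - z₀) / c, ?_⟩
  have := Int.emod_add_mul_ediv (ν - z₀) c
  rw [zr]
  linarith

lemma sda_zr_eq {z₀ z ν : ℤ} {c : ℕ} (h1 : z₀ ≤ z) (h2 : z < z₀ + c) (h : (c : ℤ) ∣ ν - z) :
    zr z₀ c ν = z := by
  obtain ⟨k, hk⟩ := h
  have e : ν - z₀ = (z - z₀) + c * k := by linarith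
  rw [zr, e, Int.add_mul_emod_self_left, Int.emod_eq_of_lt (by linarith) (by linarith)]
  ring

lemma sda_mem_Gq {e Y g : ℕ} :
    g ∈ Gq e Y ↔ (1 ≤ g ∧ g ≤ Y) ∧ Squarefree g ∧ g.Coprime (2 * e) := by
  rw [Gq, mem_filter, mem_Icc]

lemma sda_mem_Ob {D : ℤ} {e Y : ℕ} {Q : Finset ℕ} {z₀ : ℤ} {i : ℕ × ℤ} :
    i ∈ Ob D e Y Q z₀ ↔ (i.1 ∈ Gq e Y ∧ z₀ ≤ i.2 ∧ i.2 < z₀ + Y) ∧
      (∀ q ∈ Q, ¬q ∣ i.1) ∧ i.2 < z₀ + i.1 ∧ (i.1 : ℤ) ∣ 4 * (e : ℤ) ^ 2 * i.2 ^ 2 - D := by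
  rw [Ob, mem_filter, mem_product, mem_Ico]

theorem reidx (D : ℤ) (e Y : ℕ) {Q : Finset ℕ} (hQ : ∀ q ∈ Q, q.Prime ∧ q.Coprime (2 * e)) (z₀ : ℤ)
    (F : ℕ × ℤ → Finset ℕ → ℕ → ℕ → ℂ) :
    ∑ g ∈ Gq e Y, ∑ ν ∈ Rt D e g, F (cp Q g, zr z₀ (cp Q g) ν) (g.primeFactors ∩ Q) g ν =
      ∑ i ∈ Ob D e Y Q z₀, ∑ S ∈ Q.powerset with i.1 * dd S ≤ Y,
        ∑ ν ∈ (Rt D e (i.1 * dd S)).filter (fun ν : ℕ => (i.1 : ℤ) ∣ ν - i.2), F i S (i.1 * dd S) ν := by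
  have hP : ∀ q ∈ Q, q.Prime := fun q hq => (hQ q hq).1
  rw [sum_sigma']
  simp only [sum_sigma']
  refine sum_nbij'
    (fun x => (⟨(cp Q x.1, zr z₀ (cp Q x.1) x.2), ⟨x.1.primeFactors ∩ Q, x.2⟩⟩ :
      Σ _ : ℕ × ℤ, Σ _ : Finset ℕ, ℕ))
    (fun y => (⟨y.1.1 * dd y.2.1, y.2.2⟩ : Σ _ : ℕ, ℕ)) ?_ ?_ ?_ ?_ ?_
  · rintro ⟨g, ν⟩ hx
    rw [mem_sigma] at hx
    obtain ⟨hg, hν⟩ := hx
    obtain ⟨⟨hg1, hg2⟩, hsq, hco⟩ := sda_mem_Gq.1 hg
    have hs := sda_split Q hsq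
    have hd : cp Q g ∣ g := Dvd.intro _ hs
    have hc0 : 0 < cp Q g := Nat.pos_of_dvd_of_pos hd hg1
    have hcg : cp Q g ≤ g := Nat.le_of_dvd hg1 hd
    have hc0' : (0 : ℤ) < cp Q g := by exact_mod_cast hc0
    have hcY : (cp Q g : ℤ) ≤ Y := by exact_mod_cast hcg.trans hg2
    have hz1 : z₀ ≤ zr z₀ (cp Q g) ν := by
      have := Int.emod_nonneg ((ν : ℤ) - z₀) hc0'.ne'
      rw [zr]
      linarith
    have hz2 : zr z₀ (cp Q g) ν < z₀ + cp Q g := by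
      have := Int.emod_lt_of_pos ((ν : ℤ) - z₀) hc0'
      rw [zr]
      linarith
    have hzd := sda_zr_dvd z₀ (cp Q g) ν
    simp only [mem_sigma, mem_filter, mem_powerset, hs]
    refine ⟨sda_mem_Ob.2 ⟨⟨sda_mem_Gq.2 ⟨⟨hc0, hcg.trans hg2⟩, hsq.squarefree_of_dvd hd,
      Nat.Coprime.coprime_dvd_left hd hco⟩, hz1, by linarith⟩, fun q hq => sda_ndvd hP g hq, hz2, ?_⟩,
      ⟨inter_subset_right, hg2⟩, hν, hzd⟩
    have h1 : (cp Q g : ℤ) ∣ 4 * (e : ℤ) ^ 2 * (ν : ℤ) ^ 2 - D :=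
      (Int.natCast_dvd_natCast.2 hd).trans (mem_filter.1 hν).2
    have h2 : 4 * (e : ℤ) ^ 2 * (zr z₀ (cp Q g) ν) ^ 2 - D =
        (4 * (e : ℤ) ^ 2 * (ν : ℤ) ^ 2 - D) -
          (ν - zr z₀ (cp Q g) ν) * (4 * (e : ℤ) ^ 2 * (ν + zr z₀ (cp Q g) ν)) := by ring
    show (cp Q g : ℤ) ∣ 4 * (e : ℤ) ^ 2 * (zr z₀ (cp Q g) ν) ^ 2 - D
    rw [h2]
    exact dvd_sub h1 (hzd.mul_right _)
  · rintro ⟨i, S, ν⟩ hy
    simp only [mem_sigma, mem_filter, mem_powerset] at hy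
    obtain ⟨hi, ⟨hS, hY⟩, hν, -⟩ := hy
    obtain ⟨⟨hg, -, -⟩, hn, -, -⟩ := sda_mem_Ob.1 hi
    obtain ⟨⟨hg1, -⟩, hsq, hco⟩ := sda_mem_Gq.1 hg
    rw [mem_sigma]
    refine ⟨sda_mem_Gq.2 ⟨⟨?_, hY⟩, sda_sqf hP hS hsq hn, ?_⟩, hν⟩
    · exact Nat.mul_pos hg1 (Nat.pos_of_ne_zero (sda_dd_ne fun q hq => hP q (hS hq)))
    · exact Nat.Coprime.mul_left hco (Nat.Coprime.prod_left fun q hq => (hQ q (hS hq)).2)
  · rintro ⟨g, ν⟩ hx
    rw [mem_sigma] at hx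
    obtain ⟨-, hsq, -⟩ := sda_mem_Gq.1 hx.1
    simp only [sda_split Q hsq]
  · rintro ⟨⟨c, z⟩, S, ν⟩ hy
    simp only [mem_sigma, mem_filter, mem_powerset] at hy
    obtain ⟨hi, ⟨hS, -⟩, -, hd⟩ := hy
    obtain ⟨⟨hg, hz1, -⟩, hn, hz2, -⟩ := sda_mem_Ob.1 hi
    obtain ⟨-, hsq, -⟩ := sda_mem_Gq.1 hg
    simp only at hsq hn hz1 hz2 hd
    simp only [sda_cp hP hS hsq hn, sda_inter hP hS hsq.ne_zero hn, sda_zr_eq hz1 hz2 hd]
  · rintro ⟨g, ν⟩ hx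
    rw [mem_sigma] at hx
    obtain ⟨-, hsq, -⟩ := sda_mem_Gq.1 hx.1
    simp only [sda_split Q hsq]

end

end Pool.Agent.MP_9f080f_an

namespace Pool.Agent.MP_9f080f_an
open Complex Finset
open scoped Real

noncomputable section

theorem exists_X {Q : Finset ℕ} (hQ : ∀ q ∈ Q, q.Prime) {c : ℕ} (hc : ∀ q ∈ Q, ¬q ∣ c) (f : ℕ → ℤ) :
    ∃ X : ℤ, ∀ q ∈ Q, (q : ℤ) ∣ c * X - f q := by
  induction Q using Finset.induction_on with
  | empty => exact ⟨0, by simp⟩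
  | insert q Q hq ih =>
    obtain ⟨X, hX⟩ := ih (fun p hp => hQ p (mem_insert_of_mem hp))
      (fun p hp => hc p (mem_insert_of_mem hp))
    have hp : q.Prime := hQ q (mem_insert_self _ _)
    have h1 : q.Coprime (c * dd Q) := by
      refine Nat.Coprime.mul_right ((Nat.Prime.coprime_iff_not_dvd hp).2 (hc q (mem_insert_self _ _))) ?_
      refine Nat.Coprime.prod_right fun p hp' => ?_
      refine (Nat.coprime_primes hp (hQ p (mem_insert_of_mem hp'))).2 ?_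
      rintro rfl
      exact hq hp'
    obtain ⟨a, b, hab⟩ := Nat.isCoprime_iff_coprime.2 h1
    refine ⟨X + dd Q * (b * (f q - c * X)), fun p hp' => ?_⟩
    rcases mem_insert.1 hp' with rfl | hp'
    · refine ⟨-(a * (f p - c * X)), ?_⟩
      push_cast at hab
      linear_combination (f p - c * X) * hab
    · have h2 : (p : ℤ) ∣ (dd Q : ℤ) := Int.natCast_dvd_natCast.2 (dvd_prod_of_mem _ hp')
      have e : (c : ℤ) * (X + dd Q * (b * (f q - c * X))) - f p =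
          (c * X - f p) + dd Q * (c * (b * (f q - c * X))) := by ring
      rw [e]
      exact dvd_add (hX p hp') (h2.mul_right _)

lemma sd_dvd_iff {c : ℕ} {S : Finset ℕ} (hS : ∀ q ∈ S, q.Prime ∧ ¬q ∣ c) (x : ℤ) :
    ((c * dd S : ℕ) : ℤ) ∣ x ↔ (c : ℤ) ∣ x ∧ ∀ q ∈ S, (q : ℤ) ∣ x := by
  constructor
  · intro h
    push_cast at h
    refine ⟨(dvd_mul_right _ _).trans h, fun q hq => ?_⟩
    have h2 : (q : ℤ) ∣ (dd S : ℤ) := Int.natCast_dvd_natCast.2 (dvd_prod_of_mem _ hq)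
    exact (h2.mul_left _).trans h
  · rintro ⟨h1, h2⟩
    have h3 : ((dd S : ℕ) : ℤ) ∣ x := by
      unfold dd
      push_cast
      refine Finset.prod_dvd_of_coprime (fun p hp q hq hpq => ?_) h2
      exact Nat.isCoprime_iff_coprime.2 ((Nat.coprime_primes (hS p hp).1 (hS q hq).1).2 hpq)
    have h4 : c.Coprime (dd S) :=
      Nat.Coprime.prod_right fun q hq => ((Nat.Prime.coprime_iff_not_dvd (hS q hq).1).2 (hS q hq).2).symm
    push_cast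
    exact (Nat.isCoprime_iff_coprime.2 h4).mul_dvd h1 h3

lemma sd_card {Q S T : Finset ℕ} (hS : S ⊆ Q) (hT : T ⊆ S) :
    #(Q.powerset.filter fun E => ∀ q ∈ S, (q ∈ E ↔ q ∈ T)) = 2 ^ (#Q - #S) := by
  rw [← card_sdiff_of_subset hS, ← card_powerset]
  refine card_nbij' (fun E => E \ S) (fun E => E ∪ T) ?_ ?_ ?_ ?_
  · intro E hE
    simp only [coe_filter, mem_powerset, Set.mem_ofPred_eq, coe_powerset, Set.mem_preimage,
      Set.mem_powerset_iff, coe_subset] at hE ⊢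
    exact sdiff_subset_sdiff hE.1 (Subset.refl _)
  · intro E hE
    simp only [coe_filter, mem_powerset, Set.mem_ofPred_eq, coe_powerset, Set.mem_preimage,
      Set.mem_powerset_iff, coe_subset] at hE ⊢
    refine ⟨union_subset (hE.trans sdiff_subset) (hT.trans hS), fun q hq => ?_⟩
    have : q ∉ E := fun h => (mem_sdiff.1 (hE h)).2 hq
    simp [this]
  · intro E hE
    simp only [coe_filter, mem_powerset, Set.mem_ofPred_eq] at hE
    ext q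
    simp only [mem_union, mem_sdiff]
    constructor
    · rintro (h | h)
      · exact h.1
      · exact (hE.2 q (hT h)).2 h
    · intro h
      by_cases hq : q ∈ S
      · exact Or.inr ((hE.2 q hq).1 h)
      · exact Or.inl ⟨h, hq⟩
  · intro E hE
    simp only [coe_powerset, Set.mem_preimage, Set.mem_powerset_iff, coe_subset] at hE
    ext q
    simp only [mem_union, mem_sdiff]
    constructor
    · rintro ⟨h | h, h'⟩
      · exact h
      · exact absurd (hT h) h'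
    · intro h
      exact ⟨Or.inl h, (mem_sdiff.1 (hE h)).2⟩

lemma sd_pm {D : ℤ} {e q : ℕ} (hq : q.Prime) (he : q.Coprime (2 * e)) (hD : ¬(q : ℤ) ∣ D) {r ν : ℤ}
    (hr : (q : ℤ) ∣ 4 * (e : ℤ) ^ 2 * r ^ 2 - D) (hν : (q : ℤ) ∣ 4 * (e : ℤ) ^ 2 * ν ^ 2 - D) :
    (q : ℤ) ∣ -r - ν ↔ ¬(q : ℤ) ∣ r - ν := by
  have hp : Prime (q : ℤ) := Nat.prime_iff_prime_int.1 hq
  have h2 : ¬(q : ℤ) ∣ 2 * e := by
    intro h
    have : q ∣ 2 * e := by exact_mod_cast h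
    exact (Nat.Prime.coprime_iff_not_dvd hq).1 he this
  constructor
  · intro h1 h3
    have h4 : (q : ℤ) ∣ 2 * r := by
      have := dvd_sub h3 h1
      rwa [show r - ν - (-r - ν) = 2 * r by ring] at this
    rcases hp.dvd_or_dvd h4 with h | h
    · exact h2 (h.mul_right _)
    · apply hD
      have := dvd_sub (h.mul_left (4 * (e : ℤ) ^ 2 * r)) hr
      rwa [show 4 * (e : ℤ) ^ 2 * r * r - (4 * (e : ℤ) ^ 2 * r ^ 2 - D) = D by ring] at this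
  · intro h3
    have h4 : (q : ℤ) ∣ (2 * e) * ((2 * e) * ((r - ν) * (-r - ν))) := by
      have := dvd_sub hν hr
      rwa [show 4 * (e : ℤ) ^ 2 * ν ^ 2 - D - (4 * (e : ℤ) ^ 2 * r ^ 2 - D) =
        (2 * e) * ((2 * e) * ((r - ν) * (-r - ν))) by ring] at this
    rcases hp.dvd_or_dvd h4 with h | h
    · exact absurd h h2
    rcases hp.dvd_or_dvd h with h | h
    · exact absurd h h2
    rcases hp.dvd_or_dvd h with h | h
    · exact absurd h h3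
    · exact h

lemma sd_sq {D : ℤ} {e : ℕ} {m x y : ℤ} (h : m ∣ x - y) (hy : m ∣ 4 * (e : ℤ) ^ 2 * y ^ 2 - D) :
    m ∣ 4 * (e : ℤ) ^ 2 * x ^ 2 - D := by
  have := dvd_add (h.mul_left (4 * (e : ℤ) ^ 2 * (x + y))) hy
  rwa [show 4 * (e : ℤ) ^ 2 * (x + y) * (x - y) + (4 * (e : ℤ) ^ 2 * y ^ 2 - D) =
    4 * (e : ℤ) ^ 2 * x ^ 2 - D by ring] at this

lemma sd_mod {m : ℕ} (hm : 0 < m) (x : ℤ) :
    (x % m).toNat < m ∧ (((x % m).toNat : ℕ) : ℤ) = x % m ∧ (m : ℤ) ∣ x - x % m := by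
  have h0 : (0 : ℤ) < m := by exact_mod_cast hm
  have h1 := Int.emod_nonneg x h0.ne'
  have h2 := Int.emod_lt_of_pos x h0
  refine ⟨by omega, Int.toNat_of_nonneg h1, ?_⟩
  exact ⟨x / m, by have := Int.emod_add_mul_ediv x m; linarith⟩

theorem rootavg {D : ℤ} {e c : ℕ} {z : ℤ} {Q S : Finset ℕ} (hS : S ⊆ Q) (hc0 : 1 ≤ c)
    (hQ : ∀ q ∈ Q, q.Prime ∧ q.Coprime (2 * e) ∧ ¬(q : ℤ) ∣ D ∧ ¬q ∣ c)
    (hz : (c : ℤ) ∣ 4 * (e : ℤ) ^ 2 * z ^ 2 - D) {r : ℕ → ℤ}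
    (hr : ∀ q ∈ Q, (q : ℤ) ∣ 4 * (e : ℤ) ^ 2 * r q ^ 2 - D) {X : Finset ℕ → ℤ}
    (hX : ∀ E ⊆ Q, ∀ q ∈ Q, (q : ℤ) ∣ c * X E - ((if q ∈ E then r q else -r q) - z))
    {F : ℤ → ℂ} (hF : ∀ ν ν' : ℤ, ((c * dd S : ℕ) : ℤ) ∣ ν - ν' → F ν = F ν') :
    ∑ ν ∈ (Rt D e (c * dd S)).filter (fun ν : ℕ => (c : ℤ) ∣ ν - z), F ν =
      2 ^ #S / 2 ^ #Q * ∑ E ∈ Q.powerset, F (z + c * X E) := by
  classical
  have hS' : ∀ q ∈ S, q.Prime ∧ ¬q ∣ c := fun q hq => ⟨(hQ q (hS hq)).1, (hQ q (hS hq)).2.2.2⟩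
  have hm : 0 < c * dd S := Nat.mul_pos hc0 (prod_pos fun q hq => (hS' q hq).1.pos)
  set m := c * dd S with hmdef
  set R := (Rt D e m).filter (fun ν : ℕ => (c : ℤ) ∣ ν - z) with hR
  set g : Finset ℕ → ℕ := fun E => ((z + c * X E) % m).toNat with hg
  have hcm : (c : ℤ) ∣ (m : ℤ) := by rw [hmdef]; push_cast; exact dvd_mul_right _ _
  have hgd : ∀ E, (m : ℤ) ∣ (z + c * X E) - g E := fun E => by
    have := sd_mod hm (z + c * X E)
    simp only [hg]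
    rw [this.2.1]
    exact this.2.2
  have hXq : ∀ E ⊆ Q, ∀ q ∈ Q, (q : ℤ) ∣ (z + c * X E) - (if q ∈ E then r q else -r q) := by
    intro E hE q hq
    have := hX E hE q hq
    rwa [show (c : ℤ) * X E - ((if q ∈ E then r q else -r q) - z) =
      (z + c * X E) - (if q ∈ E then r q else -r q) by ring] at this
  have h1 : ∀ E ∈ Q.powerset, g E ∈ R := by
    intro E hE
    have hE' := mem_powerset.1 hE
    have h3 : (m : ℤ) ∣ (g E : ℤ) - (z + c * X E) := by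
      have := (hgd E).neg_right
      rwa [neg_sub] at this
    simp only [hR, Rt, mem_filter, mem_range]
    refine ⟨⟨(sd_mod hm _).1, sd_sq h3 ?_⟩, ?_⟩
    · refine (sd_dvd_iff hS' _).2 ⟨sd_sq ?_ hz, fun q hq => sd_sq (hXq E hE' q (hS hq)) ?_⟩
      · exact ⟨X E, by ring⟩
      · have := hr q (hS hq)
        split_ifs
        · exact this
        · rwa [neg_sq]
    · have := dvd_add (hcm.trans h3) (dvd_mul_right (c : ℤ) (X E))
      rwa [show (g E : ℤ) - (z + c * X E) + c * X E = g E - z by ring] at this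
  have h2 : ∀ ν ∈ R, #(Q.powerset.filter fun E => g E = ν) = 2 ^ (#Q - #S) := by
    intro ν hν
    simp only [hR, Rt, mem_filter, mem_range] at hν
    obtain ⟨⟨hν1, hν2⟩, hν3⟩ := hν
    rw [← sd_card hS (filter_subset (fun q : ℕ => (q : ℤ) ∣ r q - ν) S)]
    congr 1
    refine filter_congr fun E hE => ?_
    have hE' := mem_powerset.1 hE
    have e1 : g E = ν ↔ (m : ℤ) ∣ (z + c * X E) - ν := by
      constructor
      · intro h
        rw [← h]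
        exact hgd E
      · intro h
        have h4 : (m : ℤ) ∣ (g E : ℤ) - ν := by
          have := dvd_sub h (hgd E)
          rwa [show z + c * X E - ν - (z + c * X E - g E) = (g E : ℤ) - ν by ring] at this
        have h5 : g E < m := (sd_mod hm _).1
        have h6 := Int.eq_zero_of_abs_lt_dvd h4 (by rw [abs_lt]; constructor <;> omega)
        omega
    rw [e1, hmdef, sd_dvd_iff hS']
    have e2 : (c : ℤ) ∣ z + c * X E - ν := by
      have := dvd_sub (dvd_mul_right (c : ℤ) (X E)) hν3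
      rwa [show (c : ℤ) * X E - (ν - z) = z + c * X E - ν by ring] at this
    simp only [e2, true_and]
    refine forall₂_congr fun q hq => ?_
    have hq' := hQ q (hS hq)
    have e3 : (q : ℤ) ∣ z + c * X E - ν ↔ (q : ℤ) ∣ (if q ∈ E then r q else -r q) - ν := by
      have := hXq E hE' q (hS hq)
      rw [show z + c * X E - ν = (z + c * X E - (if q ∈ E then r q else -r q)) +
        ((if q ∈ E then r q else -r q) - ν) by ring]
      exact dvd_add_right this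
    have e4 := sd_pm hq'.1 hq'.2.1 hq'.2.2.1 (hr q (hS hq)) (((sd_dvd_iff hS' _).1 hν2).2 q hq)
    rw [e3]
    simp only [mem_filter, hq, true_and]
    by_cases h : q ∈ E
    · simp [h]
    · simp only [h, if_false, e4, false_iff]
  have h3 : ∑ E ∈ Q.powerset, F (z + c * X E) = 2 ^ (#Q - #S) * ∑ ν ∈ R, F ν := by
    rw [← sum_fiberwise_of_maps_to h1, mul_sum]
    refine sum_congr rfl fun ν hν => ?_
    rw [sum_congr rfl (g := fun _ => F ν), sum_const, h2 ν hν]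
    · simp
    · intro E hE
      rw [← (mem_filter.1 hE).2]
      exact hF _ _ (hgd E)
  rw [h3, ← mul_assoc]
  have h4 : (2 : ℂ) ^ #S / 2 ^ #Q * 2 ^ (#Q - #S) = 1 := by
    have := card_le_card hS
    rw [div_mul_eq_mul_div, ← pow_add, Nat.add_sub_cancel' this]
    exact div_self (pow_ne_zero _ two_ne_zero)
  rw [h4, one_mul]

theorem col_dvd {D : ℤ} {e q : ℕ} {i i' : ℕ × ℤ} {ρ X X' : ℤ} (hρ : (q : ℤ) ∣ 4 * (e : ℤ) ^ 2 * ρ ^ 2 - D)
    (h : (q : ℤ) ∣ i.1 * X - (ρ - i.2)) (h' : (q : ℤ) ∣ i'.1 * X' - (ρ - i'.2)) (hX : (q : ℤ) ∣ X - X') :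
    (q : ℤ) ∣ col D e i i' := by
  obtain ⟨a, ha⟩ := hρ
  obtain ⟨b, hb⟩ := h
  obtain ⟨b', hb'⟩ := h'
  obtain ⟨x, hx⟩ := hX
  have h1 : (q : ℤ) ∣ (i'.1 * i.2 - i.1 * i'.2) - ρ * ((i'.1 : ℤ) - i.1) :=
    ⟨i'.1 * b - i.1 * b' - i.1 * i'.1 * x, by
      linear_combination (i'.1 : ℤ) * hb - (i.1 : ℤ) * hb' - (i.1 : ℤ) * i'.1 * hx⟩
  obtain ⟨y, hy⟩ := h1
  refine ⟨-(a * ((i'.1 : ℤ) - i.1) ^ 2) - 4 * (e : ℤ) ^ 2 * y *
    ((i'.1 * i.2 - i.1 * i'.2) + ρ * ((i'.1 : ℤ) - i.1)), ?_⟩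
  unfold col
  linear_combination (-((i'.1 : ℤ) - i.1) ^ 2) * ha - 4 * (e : ℤ) ^ 2 *
    ((i'.1 * i.2 - i.1 * i'.2) + ρ * ((i'.1 : ℤ) - i.1)) * hy

/-- for each modulus the number of objects is at most the number of roots -/
theorem ob_sum (D : ℤ) (e Y : ℕ) (Q : Finset ℕ) (z₀ : ℤ) {f : ℕ → ℝ} (hf : ∀ c, 0 ≤ f c) :
    ∑ i ∈ Ob D e Y Q z₀, f i.1 ≤ ∑ c ∈ Icc 1 Y, #c.divisors * f c := by
  have h1 : ∀ i ∈ Ob D e Y Q z₀, i.1 ∈ Icc 1 Y := by
    intro i hi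
    simp only [Ob, Gq, mem_filter, mem_product] at hi
    exact hi.1.1.1
  rw [← sum_fiberwise_of_maps_to h1]
  refine sum_le_sum fun c hc => ?_
  rw [sum_congr rfl (g := fun _ => f c) (fun i hi => by rw [(mem_filter.1 hi).2]), sum_const,
    nsmul_eq_mul]
  refine mul_le_mul_of_nonneg_right ?_ (hf c)
  have hc0 : 0 < c := (mem_Icc.1 hc).1
  rcases ((Ob D e Y Q z₀).filter fun i => i.1 = c).eq_empty_or_nonempty with h | ⟨j, hj⟩
  · rw [h]; simp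
  have hG : c ∈ Gq e Y := by
    have := mem_filter.1 hj
    rw [← this.2]
    exact (mem_product.1 (mem_filter.1 this.1).1).1
  refine Nat.cast_le.2 (le_trans ?_ (rt_card_tau hG D))
  refine card_le_card_of_injOn (fun i => (i.2 % c).toNat) ?_ ?_
  · intro i hi
    have hi' := mem_filter.1 (mem_coe.1 hi)
    have h2 := (mem_filter.1 hi'.1).2.2.2
    rw [hi'.2] at h2
    have h3 := sd_mod hc0 i.2
    simp only [Rt, coe_filter, mem_range, Set.mem_ofPred_eq]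
    refine ⟨h3.1, sd_sq ?_ h2⟩
    rw [h3.2.1]
    have := h3.2.2.neg_right
    rwa [neg_sub] at this
  · intro i hi i' hi' h
    have a1 := mem_filter.1 (mem_coe.1 hi)
    have a2 := mem_filter.1 (mem_coe.1 hi')
    have b1 := mem_filter.1 a1.1
    have b2 := mem_filter.1 a2.1
    have c1 := (mem_Ico.1 (mem_product.1 b1.1).2).1
    have c2 := (mem_Ico.1 (mem_product.1 b2.1).2).1
    have d1 := b1.2.2.1
    have d2 := b2.2.2.1
    rw [a1.2] at d1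
    rw [a2.2] at d2
    have e1 := sd_mod hc0 i.2
    have e2 := sd_mod hc0 i'.2
    have e3 : i.2 % c = i'.2 % c := by
      rw [← e1.2.1, ← e2.2.1]
      exact congrArg _ h
    have e4 : (c : ℤ) ∣ i.2 - i'.2 := by
      have := dvd_sub e1.2.2 e2.2.2
      rwa [e3, show i.2 - i'.2 % c - (i'.2 - i'.2 % c) = i.2 - i'.2 by ring] at this
    have e5 := Int.eq_zero_of_abs_lt_dvd e4 (by rw [abs_lt]; constructor <;> omega)
    exact Prod.ext (a1.2.trans a2.2.symm) (by omega)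

end

end Pool.Agent.MP_9f080f_an
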