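import Pool.Agent.MP_9f080f_an.Mg.KBA
import Pool.Agent.MP_9f080f_an.Mg.G_C2
import Pool.Agent.MP_9f080f_an.Mg.G_SC
import Pool.Agent.MP_9f080f_an.Mg.G_SD

namespace Pool.Agent.MP_9f080f_an
open Complex Finset
open scoped Real

noncomputable section

/-! Application of the core lemma.  `Q = QQ D e w y`, `z₀ = zz G e`; the primes of `Q` are `> w ≥ 2e`, hence prime to `2e`.
`se_phase`: for `g ∈ Gq e Y`, `ν ∈ Rt D e g` let `c = cp Q g`, `z = zr z₀ c ν`, so `0 ≤ 2 e z + G < 2 e c` and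
`2ν/g + G/(e g) = 2(ν - z)/g + (2 e z + G)/(e g)`; since `g = c * dd S` with `S` nonempty, `dd S > w` and `kb_ep_lip` shows that dropping the last
summand costs at most `2π/w` per term; there are at most `∑ #divisors ≤ Y (1 + log Y)` terms (`rt_card_tau`, `sum_divisors_card`).  Write the filter as an `if`,
apply `reidx`, then `rootavg` with `F ν = ep (2 (ν - z)/(c dd S))`, `F (z + c X) = ep (2 X / dd S)`;
`(c * dd S).primeFactors = c.primeFactors ∪ S` (disjoint), `c * dd S ≤ Y ↔ dd S ≤ Y / c`; finally swap the sums.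
`se_class`: drop the `i` with `a i = 0` and group the others by `κ i = (i.1 % e, min (Y / i.1) (y^k₁)) ∈ range e ×ˢ range (y^k₁ + 1)`
(`Finset.sum_fiberwise_of_maps_to`).  For `S ⊆ Q`: `bS … i.1 (Y / i.1) S = bS … (κ i).1 (κ i).2 S` since `#S ≤ k₁` gives `dd S ≤ y^k₁`.  Apply `core` to each class with
`h = (κ i).2`; `∑_κ h #I_κ ≤ ∑_{i ∈ Ob} Y / i.1 ≤ Y (1 + log Y)²` (`ob_sum`, `tau_sum`), and there are at most `2 e y^k₁` classes, each with `h ≤ y^k₁`.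
`app_mid`: choose `r q ∈ Rt D e q`, `X i E` by `exists_X`; `se_phase`, and `se_class` for each `E` with `a i * ∏ lm`; by `col_dvd` (with `ρ = if q ∈ E then r q else -r q`) a pair
with more than `U` primes dividing `X i E - X i' E` has `col = 0`.
`se_U`: `|2 e z| ≤ √D + 2 e (1 + Y)` for `z` in the window, `|col| ≤ D Y² + 4 e² (…)² ≤ 100 D e² Y^4`, `primes_dvd_card`,
`2 (log 100 + e^u + 2 u² + 8 u^100) ≤ 4 e^u` for large `u`.  `se_L`: `mertens`, `shat_floor`.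
`se_num`: `1 + log Y ≤ 3 u^100`; `√(8u³) ≤ 3 u^(3/2) ≤ 3 u²`, so the first term is `≲ u^(202 - 263)`; `exp (2u²) / 2^(4u²) ≤ exp (-u²/2)`;
`ww u ≥ exp (u^6)/2` beats `2^(4u²) (2^(4u²)+1)^(16u³) · poly ≤ exp (100 u^5)`; `e y^(2u) (1 + u y)^(4u²) √s ≤ exp (10 u^97)`.  It is convenient to prove first
`∀ j, ∃ u₀, ∀ u ≥ u₀, u^j ≤ exp u` (or use `Real.pow_div_factorial_le_exp`) and to bound every term by `K Y / u^60`.
`app`: split `Gq e Y` by the size of `g.primeFactors ∩ Q`: `< 526` (`om_small`, `norm_trm`), `> u` (`rt_card_tau`, `1 ≤ Y / g`, `om_big`, `(3u^100)^4 / 2^u ≲ u^(-60)`), and the middle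
(`app_mid` with `t = L = u`, `k = 4u²`, `s = 8u³`, `k₁ = u`, `k₂ = 263`, `U = ⌈4 exp u⌉₊`). -/

/-- the coefficients in the core lemma -/
def bS (e k₁ k₂ : ℕ) (σ lm : ℕ → ℂ) (r h : ℕ) (S : Finset ℕ) : ℂ :=
  if 2 * k₂ ≤ #S ∧ #S ≤ k₁ ∧ dd S ≤ h then σ (r * dd S % e) * 2 ^ #S * ∏ q ∈ S, lm q else 0

/-- the small terms in the core lemma -/
def eta0 (t L : ℝ) (w y k s : ℕ) : ℝ :=
  Real.exp (2 * t * L) / 2 ^ k + 2 ^ k * (2 * t / w * ((2 ^ k + 1) ^ (2 * s) * (4 * s + 2 * k * Real.log y)))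

/-- the middle part -/
def mid (D : ℤ) (e Y : ℕ) (Q : Finset ℕ) (k₁ k₂ : ℕ) (G : ℝ) (σ lm : ℕ → ℂ) (a : ℕ × ℤ → ℂ) : ℂ :=
  ∑ g ∈ (Gq e Y).filter (fun g => 2 * k₂ ≤ #(g.primeFactors ∩ Q) ∧ #(g.primeFactors ∩ Q) ≤ k₁),
    ∑ ν ∈ Rt D e g, a (cp Q g, zr (zz G e) (cp Q g) ν) * trm e G σ lm g ν

/-- the primes for the parameter `u` -/
def Qu (u : ℕ) (D : ℤ) (e : ℕ) : Finset ℕ := QQ D e (ww u) (yy u)

/-- the objects for the parameter `u` -/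
def Obu (u : ℕ) (D : ℤ) (e Y : ℕ) (G : ℝ) : Finset (ℕ × ℤ) := Ob D e Y (Qu u D e) (zz G e)

/-- coefficients depending only on the object -/
def lft (u : ℕ) (D : ℤ) (e : ℕ) (G : ℝ) (a : ℕ × ℤ → ℂ) (g ν : ℕ) : ℂ :=
  a (cp (Qu u D e) g, zr (zz G e) (cp (Qu u D e) g) ν)

lemma sea_Q {D : ℤ} {e w y q : ℕ} (he : 1 ≤ e) (hew : 2 * e ≤ w) (hq : q ∈ QQ D e w y) :
    q.Prime ∧ q.Coprime (2 * e) ∧ ¬(q : ℤ) ∣ D ∧ w < q := by
  obtain ⟨h1, h2, h3, -⟩ := mem_filter.1 hq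
  have h4 := (mem_Ioc.1 h1).1
  exact ⟨h2, h2.coprime_iff_not_dvd.2 (Nat.not_dvd_of_pos_of_lt (by omega) (by omega)), h3, h4⟩

/-- the term without the small phase -/
def seaT (e k₁ k₂ : ℕ) (σ lm : ℕ → ℂ) (a : ℕ × ℤ → ℂ) (i : ℕ × ℤ) (S : Finset ℕ) (g : ℕ)
    (ν : ℤ) : ℂ :=
  if 2 * k₂ ≤ #S ∧ #S ≤ k₁ then
    a i * (σ (g % e) * (∏ p ∈ g.primeFactors, lm p) * ep ((2 * (ν - i.2) / g : ℝ) : ℂ)) else 0

lemma sea_phase {e g w : ℕ} {G : ℝ} {Q : Finset ℕ} (he : 1 ≤ e) (hw : 0 < w) (hg : Squarefree g)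
    (hQ : ∀ q ∈ Q, w < q) (hS : (g.primeFactors ∩ Q).Nonempty) (ν : ℤ) :
    |(2 * ν / g + G / (e * g) : ℝ) - 2 * (ν - zr (zz G e) (cp Q g) ν) / g| ≤ 2 / w := by
  have h1 : cp Q g * dd (g.primeFactors ∩ Q) = g := by
    rw [cp, dd, mul_comm, prod_inter_mul_prod_sdiff, Nat.prod_primeFactors_of_squarefree hg]
  have hg0 : 0 < g := Nat.pos_of_ne_zero hg.ne_zero
  have hc : 0 < cp Q g := Nat.pos_of_mul_pos_right (h1.symm ▸ hg0)
  have hd : w ≤ dd (g.primeFactors ∩ Q) := by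
    obtain ⟨q, hq⟩ := hS
    refine (hQ q (mem_inter.1 hq).2).le.trans (Nat.le_of_dvd ?_ (dvd_prod_of_mem _ hq))
    exact Nat.pos_of_mul_pos_left (h1.symm ▸ hg0)
  have hcw : (cp Q g : ℝ) * w ≤ g := by
    exact_mod_cast (Nat.mul_le_mul_left _ hd).trans h1.le
  generalize cp Q g = c at hc hcw
  have hc' : (0 : ℤ) < c := by exact_mod_cast hc
  have m1 : ((zz G e : ℤ) : ℝ) ≤ zr (zz G e) c ν := by
    exact_mod_cast le_add_of_nonneg_right (Int.emod_nonneg (ν - zz G e) hc'.ne')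
  have m2 : ((zr (zz G e) c ν : ℤ) : ℝ) + 1 ≤ zz G e + c := by
    have := Int.emod_lt_of_pos (ν - zz G e) hc'
    have h : zr (zz G e) c ν + 1 ≤ zz G e + c := by unfold zr; omega
    exact_mod_cast h
  have he' : (0 : ℝ) < e := by exact_mod_cast he
  have hg' : (0 : ℝ) < g := by exact_mod_cast hg0
  have hw' : (0 : ℝ) < w := by exact_mod_cast hw
  have m3 : -G / (2 * e) ≤ zz G e := Int.le_ceil _
  have m4 : (zz G e : ℝ) < -G / (2 * e) + 1 := Int.ceil_lt_add_one _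
  generalize zr (zz G e) c ν = z at m1 m2
  have e1 : (2 * ν / g + G / (e * g) : ℝ) - 2 * (ν - z) / g = 2 * (z - -G / (2 * e)) / g := by
    field_simp
    ring
  rw [e1, abs_of_nonneg (div_nonneg (by linarith) hg'.le), div_le_div_iff₀ hg' hw']
  have : (z - -G / (2 * e)) * w ≤ c * w := by gcongr; linarith
  linarith

lemma sea_term {e g w k₁ k₂ : ℕ} {G : ℝ} {Q : Finset ℕ} {σ lm : ℕ → ℂ} {a : ℕ × ℤ → ℂ}
    (he : 1 ≤ e) (hw : 0 < w) (hg : Squarefree g) (hQ : ∀ q ∈ Q, w < q) (hk₂ : 1 ≤ k₂)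
    (hσ : ∀ r, ‖σ r‖ ≤ 1) (hl : ∀ p, ‖lm p‖ ≤ 1) (ha : ∀ i, ‖a i‖ ≤ 1) (ν : ℤ) :
    ‖(if 2 * k₂ ≤ #(g.primeFactors ∩ Q) ∧ #(g.primeFactors ∩ Q) ≤ k₁ then
        a (cp Q g, zr (zz G e) (cp Q g) ν) * trm e G σ lm g ν else 0) -
      seaT e k₁ k₂ σ lm a (cp Q g, zr (zz G e) (cp Q g) ν) (g.primeFactors ∩ Q) g ν‖ ≤
      4 * π / w := by
  have hw' : (0 : ℝ) < w := by exact_mod_cast hw
  unfold seaT trm
  split_ifs with h
  · have h1 := sea_phase (G := G) he hw hg hQ (card_pos.1 (by omega)) ν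
    have h2 := (kb_ep_lip _ _).trans (mul_le_mul_of_nonneg_left h1 Real.pi_pos.le)
    have h3 : ‖∏ p ∈ g.primeFactors, lm p‖ ≤ 1 := by
      rw [norm_prod]
      exact prod_le_one (fun _ _ => norm_nonneg _) fun p _ => hl p
    rw [← mul_sub, ← mul_sub, norm_mul, norm_mul, norm_mul]
    have h4 := ha (cp Q g, zr (zz G e) (cp Q g) ν)
    have h5 := hσ (g % e)
    calc _ ≤ 1 * (1 * 1 * (π * (2 / w))) := by gcongr
      _ = 2 * π / w := by ring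
      _ ≤ _ := by gcongr; norm_num
  · rw [sub_self, norm_zero]
    positivity

lemma sea_per (e k₁ k₂ : ℕ) (σ lm : ℕ → ℂ) (a : ℕ × ℤ → ℂ) (i : ℕ × ℤ) (S : Finset ℕ) {g : ℕ}
    (hg : g ≠ 0) (ν ν' : ℤ) (h : (g : ℤ) ∣ ν - ν') :
    seaT e k₁ k₂ σ lm a i S g ν = seaT e k₁ k₂ σ lm a i S g ν' := by
  obtain ⟨k, hk⟩ := h
  obtain rfl : ν = ν' + g * k := by linarith
  have hg' : (g : ℂ) ≠ 0 := by exact_mod_cast hg
  have e1 : ((2 * (((ν' + g * k : ℤ) : ℝ) - i.2) / g : ℝ) : ℂ) =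
      ((2 * (ν' - i.2) / g : ℝ) : ℂ) + 2 * k := by
    push_cast
    field_simp
    ring
  unfold seaT
  rw [e1, ep_add, ep_two_int, mul_one]

lemma sea_val {e k₁ k₂ Y : ℕ} {σ lm : ℕ → ℂ} {a : ℕ × ℤ → ℂ} {i : ℕ × ℤ} {S : Finset ℕ}
    (hi : 1 ≤ i.1) (hS : ∀ q ∈ S, q.Prime ∧ ¬q ∣ i.1) (hY : i.1 * dd S ≤ Y) (X : ℤ) :
    2 ^ #S * seaT e k₁ k₂ σ lm a i S (i.1 * dd S) (i.2 + i.1 * X) =
      (a i * ∏ p ∈ i.1.primeFactors, lm p) *
        (bS e k₁ k₂ σ lm i.1 (Y / i.1) S * ep (2 * (X : ℂ) / dd S)) := by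
  have hd : dd S ≠ 0 := prod_ne_zero_iff.2 fun q hq => (hS q hq).1.ne_zero
  have hY' : dd S ≤ Y / i.1 := (Nat.le_div_iff_mul_le hi).2 (by rwa [mul_comm])
  have h1 : (i.1 * dd S).primeFactors = i.1.primeFactors ∪ S := by
    rw [Nat.primeFactors_mul (by omega) hd, dd, Nat.primeFactors_prod fun q hq => (hS q hq).1]
  have h2 : Disjoint i.1.primeFactors S :=
    disjoint_right.2 fun q hq h => (hS q hq).2 (Nat.dvd_of_mem_primeFactors h)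
  have hc : (i.1 : ℂ) ≠ 0 := by exact_mod_cast (by omega : i.1 ≠ 0)
  have hd' : (dd S : ℂ) ≠ 0 := by exact_mod_cast hd
  have e1 : ((2 * (((i.2 + i.1 * X : ℤ) : ℝ) - i.2) / (i.1 * dd S : ℕ) : ℝ) : ℂ) =
      2 * (X : ℂ) / dd S := by
    push_cast
    field_simp
    ring
  unfold seaT bS
  rw [e1, h1, prod_union h2]
  by_cases h : 2 * k₂ ≤ #S ∧ #S ≤ k₁
  · rw [if_pos h, if_pos ⟨h.1, h.2, hY'⟩]
    ring
  · rw [if_neg h, if_neg fun h' => h ⟨h'.1, h'.2.1⟩]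
    ring

theorem se_phase {D : ℤ} {e Y w y k₁ k₂ : ℕ} {G : ℝ} {σ lm : ℕ → ℂ} {a : ℕ × ℤ → ℂ} (he : 1 ≤ e)
    (hew : 2 * e ≤ w) (hk₂ : 1 ≤ k₂) (hσ : ∀ r, ‖σ r‖ ≤ 1) (hl : ∀ p, ‖lm p‖ ≤ 1) (ha : ∀ i, ‖a i‖ ≤ 1)
    {r : ℕ → ℤ} (hr : ∀ q ∈ QQ D e w y, (q : ℤ) ∣ 4 * (e : ℤ) ^ 2 * r q ^ 2 - D)
    {X : ℕ × ℤ → Finset ℕ → ℤ}
    (hX : ∀ i ∈ Ob D e Y (QQ D e w y) (zz G e), ∀ E ⊆ QQ D e w y, ∀ q ∈ QQ D e w y,
      (q : ℤ) ∣ i.1 * X i E - ((if q ∈ E then r q else -r q) - i.2)) :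
    ‖mid D e Y (QQ D e w y) k₁ k₂ G σ lm a - 1 / 2 ^ #(QQ D e w y) * ∑ E ∈ (QQ D e w y).powerset,
      ∑ i ∈ Ob D e Y (QQ D e w y) (zz G e), (a i * ∏ p ∈ i.1.primeFactors, lm p) *
        ∑ S ∈ (QQ D e w y).powerset, bS e k₁ k₂ σ lm i.1 (Y / i.1) S * ep (2 * (X i E : ℂ) / dd S)‖ ≤
      Y * (1 + Real.log Y) * (4 * π / w) := by
  have hw : 0 < w := by omega
  have hQ := fun q (hq : q ∈ QQ D e w y) => sea_Q he hew hq
  generalize QQ D e w y = Q at hr hX hQ ⊢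
  have key : 1 / 2 ^ #Q * ∑ E ∈ Q.powerset,
      ∑ i ∈ Ob D e Y Q (zz G e), (a i * ∏ p ∈ i.1.primeFactors, lm p) *
        ∑ S ∈ Q.powerset, bS e k₁ k₂ σ lm i.1 (Y / i.1) S * ep (2 * (X i E : ℂ) / dd S) =
      ∑ g ∈ Gq e Y, ∑ ν ∈ Rt D e g, seaT e k₁ k₂ σ lm a (cp Q g, zr (zz G e) (cp Q g) ν)
        (g.primeFactors ∩ Q) g ν := by
    rw [reidx D e Y (fun q hq => ⟨(hQ q hq).1, (hQ q hq).2.1⟩) (zz G e)
      fun i S g ν => seaT e k₁ k₂ σ lm a i S g ν, sum_comm, mul_sum]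
    refine sum_congr rfl fun i hi => ?_
    obtain ⟨h1, h2, -, h3⟩ := mem_filter.1 hi
    have hi1 : 1 ≤ i.1 := (mem_Icc.1 (mem_filter.1 (mem_product.1 h1).1).1).1
    simp only [mul_sum]
    rw [sum_comm, sum_filter]
    refine sum_congr rfl fun S hS => ?_
    have hSQ := mem_powerset.1 hS
    have hS' : ∀ q ∈ S, q.Prime ∧ ¬q ∣ i.1 := fun q hq => ⟨(hQ q (hSQ hq)).1, h2 q (hSQ hq)⟩
    split_ifs with hY
    · have hd : i.1 * dd S ≠ 0 :=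
        mul_ne_zero (by omega) (prod_ne_zero_iff.2 fun q hq => (hS' q hq).1.ne_zero)
      rw [rootavg hSQ hi1 (fun q hq => ⟨(hQ q hq).1, (hQ q hq).2.1, (hQ q hq).2.2.1, h2 q hq⟩) h3
        hr (hX i hi) (sea_per e k₁ k₂ σ lm a i S hd), mul_sum]
      refine sum_congr rfl fun E _ => ?_
      rw [← sea_val hi1 hS' hY]
      ring
    · refine sum_eq_zero fun E _ => ?_
      rw [bS, if_neg fun h => hY (by rw [mul_comm]; exact (Nat.le_div_iff_mul_le hi1).1 h.2.2)]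
      ring
  rw [key, mid, sum_filter, ← sum_sub_distrib]
  have hc : 0 ≤ 4 * π / w := by positivity
  refine (norm_sum_le_of_le (n := fun g => (#g.divisors : ℝ) * (4 * π / w)) _
    fun g hg => ?_).trans ?_
  · have e1 : (if 2 * k₂ ≤ #(g.primeFactors ∩ Q) ∧ #(g.primeFactors ∩ Q) ≤ k₁ then
        ∑ ν ∈ Rt D e g, a (cp Q g, zr (zz G e) (cp Q g) ν) * trm e G σ lm g ν else 0) =
        ∑ ν ∈ Rt D e g, if 2 * k₂ ≤ #(g.primeFactors ∩ Q) ∧ #(g.primeFactors ∩ Q) ≤ k₁ then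
          a (cp Q g, zr (zz G e) (cp Q g) ν) * trm e G σ lm g ν else 0 := by
      split_ifs <;> simp
    rw [e1, ← sum_sub_distrib]
    refine (norm_sum_le_of_le (n := fun _ => 4 * π / w) _ fun (ν : ℕ) _ =>
      sea_term he hw (mem_filter.1 hg).2.1 (fun q hq => (hQ q hq).2.2.2) hk₂ hσ hl ha ν).trans ?_
    rw [sum_const, nsmul_eq_mul]
    exact mul_le_mul_of_nonneg_right (by exact_mod_cast rt_card_tau hg D) hc
  · rw [← sum_mul]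
    refine mul_le_mul_of_nonneg_right (le_trans ?_ (sum_divisors_card Y)) hc
    exact sum_le_sum_of_subset_of_nonneg (filter_subset _ _) fun _ _ _ => Nat.cast_nonneg _

end

end Pool.Agent.MP_9f080f_an

namespace Pool.Agent.MP_9f080f_an
open Complex Finset
open scoped Real

noncomputable section

theorem seb_dd_le {y k₁ : ℕ} {Q S : Finset ℕ} (hy : 1 ≤ y) (hQ : ∀ q ∈ Q, q ≤ y) (hS : S ⊆ Q)
    (h : #S ≤ k₁) : dd S ≤ y ^ k₁ :=
  (Finset.prod_le_pow_card S (fun q => q) y fun q hq => hQ q (hS hq)).trans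
    (Nat.pow_le_pow_right hy h)

theorem seb_bS {e k₁ k₂ y : ℕ} {σ lm : ℕ → ℂ} {Q S : Finset ℕ} (hy : 1 ≤ y) (hQ : ∀ q ∈ Q, q ≤ y)
    (hS : S ⊆ Q) (r h : ℕ) :
    bS e k₁ k₂ σ lm r h S = bS e k₁ k₂ σ lm (r % e) (min h (y ^ k₁)) S := by
  unfold bS
  rw [Nat.mod_mul_mod]
  refine if_congr ?_ rfl rfl
  constructor
  · rintro ⟨h1, h2, h3⟩
    exact ⟨h1, h2, le_min h3 (seb_dd_le hy hQ hS h2)⟩
  · rintro ⟨h1, h2, h3⟩
    exact ⟨h1, h2, h3.trans (min_le_left _ _)⟩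

theorem seb_norm {e k₁ k₂ : ℕ} {σ lm : ℕ → ℂ} (hσ : ∀ r, ‖σ r‖ ≤ 1) (hl : ∀ p, ‖lm p‖ ≤ 1)
    (r h : ℕ) (S : Finset ℕ) : ‖bS e k₁ k₂ σ lm r h S‖ ≤ 2 ^ #S := by
  unfold bS
  split_ifs
  · rw [norm_mul, norm_mul, norm_pow, norm_prod, Complex.norm_ofNat]
    have h1 : ∏ q ∈ S, ‖lm q‖ ≤ 1 := Finset.prod_le_one (fun _ _ => norm_nonneg _) fun q _ => hl q
    calc ‖σ (r * dd S % e)‖ * 2 ^ #S * ∏ q ∈ S, ‖lm q‖ ≤ 1 * 2 ^ #S * 1 := by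
          gcongr
          exact hσ _
      _ = 2 ^ #S := by ring
  · simp

theorem seb_ob {D z₀ : ℤ} {e Y : ℕ} {Q : Finset ℕ} :
    ∑ i ∈ Ob D e Y Q z₀, ((Y / i.1 : ℕ) : ℝ) ≤ Y * (1 + Real.log Y) ^ 2 := by
  calc ∑ i ∈ Ob D e Y Q z₀, ((Y / i.1 : ℕ) : ℝ) ≤ ∑ i ∈ Ob D e Y Q z₀, (Y : ℝ) / i.1 :=
        Finset.sum_le_sum fun i _ => Nat.cast_div_le
    _ ≤ ∑ c ∈ Icc 1 Y, #c.divisors * ((Y : ℝ) / c) :=
        ob_sum D e Y Q z₀ (f := fun c => (Y : ℝ) / c) fun c => by positivity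
    _ = Y * ∑ c ∈ Icc 1 Y, (#c.divisors : ℝ) / c := by
        rw [Finset.mul_sum]
        exact Finset.sum_congr rfl fun c _ => by ring
    _ ≤ Y * (1 + Real.log Y) ^ 2 := by
        gcongr
        exact tau_sum Y

open Classical in
theorem se_class {t L : ℝ} {D z₀ : ℤ} {e Y w y k s k₁ k₂ U E₀ : ℕ} {Q : Finset ℕ} {σ lm : ℕ → ℂ}
    {a : ℕ × ℤ → ℂ} (he : 1 ≤ e) (ht : 4 ≤ t) (hw : 2 * t ≤ w) (hy : 1 ≤ y)
    (hQ : ∀ q ∈ Q, q.Prime ∧ w < q ∧ q ≤ y) (hL : ∑ q ∈ Q, (1 : ℝ) / q ≤ L) (hs : 1 ≤ s) (hk₂ : 1 ≤ k₂)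
    (hU : (1 + t * U) ^ k ≤ 4 ^ (s - 1)) (hσ : ∀ r, ‖σ r‖ ≤ 1) (hl : ∀ p, ‖lm p‖ ≤ 1) (ha : ∀ i, ‖a i‖ ≤ 1)
    (X : ℕ × ℤ → ℤ) (hcol : ∀ i ∈ Ob D e Y Q z₀, a i ≠ 0 →
      #{i' ∈ Ob D e Y Q z₀ | a i' ≠ 0 ∧ U < #(Q.filter fun q : ℕ => (q : ℤ) ∣ X i - X i')} ≤ E₀) :
    ‖∑ i ∈ Ob D e Y Q z₀, a i *
        ∑ S ∈ Q.powerset, bS e k₁ k₂ σ lm i.1 (Y / i.1) S * ep (2 * (X i : ℂ) / dd S)‖ ≤
      Y * (1 + Real.log Y) ^ 2 * (4 * √s * (4 / t) ^ k₂ + eta0 t L w y k s) +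
        2 * e * (y : ℝ) ^ (2 * k₁) * (E₀ * (1 + t * y) ^ k * √s) := by
  set O := (Ob D e Y Q z₀).filter fun i => a i ≠ 0 with hO
  set M := y ^ k₁ with hM
  have hM1 : 1 ≤ M := Nat.one_le_pow _ _ hy
  let κ : ℕ × ℤ → ℕ × ℕ := fun i => (i.1 % e, min (Y / i.1) M)
  have hκ : ∀ i ∈ O, κ i ∈ range e ×ˢ range (M + 1) := fun i _ =>
    mem_product.2 ⟨mem_range.2 (Nat.mod_lt _ he),
      mem_range.2 (Nat.lt_succ_of_le (min_le_right _ _))⟩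
  have hQy : ∀ q ∈ Q, q ≤ y := fun q hq => (hQ q hq).2.2
  have ht0 : 0 < t := by linarith
  set A := 4 * √s * (4 / t) ^ k₂ + eta0 t L w y k s with hA
  set B : ℝ := E₀ * (1 + t * y) ^ k * √s with hB
  have hA0 : 0 ≤ A := by
    have : 0 ≤ Real.log y := Real.log_natCast_nonneg y
    rw [hA, eta0]
    positivity
  have hB0 : 0 ≤ B := by positivity
  have h4 : (4 / t) ^ k₂ ≤ 1 := pow_le_one₀ (by positivity) ((div_le_one ht0).2 ht)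
  have h1 : ∑ i ∈ Ob D e Y Q z₀, a i *
      ∑ S ∈ Q.powerset, bS e k₁ k₂ σ lm i.1 (Y / i.1) S * ep (2 * (X i : ℂ) / dd S) =
      ∑ c ∈ range e ×ˢ range (M + 1), ∑ i ∈ O with κ i = c, a i *
        ∑ S ∈ Q.powerset, bS e k₁ k₂ σ lm c.1 c.2 S * ep (2 * (X i : ℂ) / dd S) := by
    rw [← Finset.sum_filter_of_ne (p := fun i => a i ≠ 0)
      (fun i _ h => left_ne_zero_of_mul h), ← hO, ← Finset.sum_fiberwise_of_maps_to hκ]
    refine Finset.sum_congr rfl fun c _ => Finset.sum_congr rfl fun i hi => ?_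
    rw [← (mem_filter.1 hi).2]
    congr 1
    refine Finset.sum_congr rfl fun S hS => ?_
    rw [seb_bS hy hQy (mem_powerset.1 hS)]
  have h2 : ∀ c ∈ range e ×ˢ range (M + 1), ‖∑ i ∈ O with κ i = c, a i *
      ∑ S ∈ Q.powerset, bS e k₁ k₂ σ lm c.1 c.2 S * ep (2 * (X i : ℂ) / dd S)‖ ≤
      (∑ i ∈ O with κ i = c, (((κ i).2 : ℕ) : ℝ)) * A + M * B := by
    intro c hc
    have hcM : (c.2 : ℝ) ≤ M := by
      exact_mod_cast Nat.le_of_lt_succ (mem_range.1 (mem_product.1 hc).2)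
    have h3 := core (h := (c.2 : ℝ)) (E₀ := E₀) ht hw hy hQ hL hs hk₂ hU
      (O.filter fun i => κ i = c) X a (fun i _ => ha i) (fun i hi => by
        have hi' := mem_filter.1 (mem_filter.1 hi).1
        refine le_trans (card_le_card fun j hj => ?_) (hcol i hi'.1 hi'.2)
        have hj' := mem_filter.1 hj
        have hj'' := mem_filter.1 (mem_filter.1 hj'.1).1
        exact mem_filter.2 ⟨hj''.1, hj''.2, hj'.2⟩) (Nat.cast_nonneg _)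
      (bS e k₁ k₂ σ lm c.1 c.2) (fun S _ => seb_norm hσ hl _ _ S) (fun S _ h => by
        unfold bS at h
        split_ifs at h with h'
        · exact ⟨h'.1, by exact_mod_cast h'.2.2⟩
        · exact absurd rfl h)
    refine h3.trans ?_
    have h5 : ∑ i ∈ O with κ i = c, (((κ i).2 : ℕ) : ℝ) = #(O.filter fun i => κ i = c) * c.2 := by
      rw [Finset.sum_congr rfl (g := fun _ => (c.2 : ℝ))
        (fun i hi => by rw [(mem_filter.1 hi).2]), Finset.sum_const, nsmul_eq_mul]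
    rw [h5]
    have h6 : (c.2 : ℝ) * (B * (4 / t) ^ k₂) ≤ M * B := by
      calc (c.2 : ℝ) * (B * (4 / t) ^ k₂) ≤ M * (B * 1) := by gcongr
        _ = M * B := by ring
    refine le_trans (le_of_eq ?_) (add_le_add_right h6 _)
    rw [hA, hB, eta0]
    ring
  rw [h1]
  refine (norm_sum_le _ _).trans ((Finset.sum_le_sum h2).trans ?_)
  rw [Finset.sum_add_distrib, ← Finset.sum_mul, Finset.sum_fiberwise_of_maps_to hκ,
    Finset.sum_const, nsmul_eq_mul, card_product, card_range, card_range]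
  refine add_le_add ?_ ?_
  · refine mul_le_mul_of_nonneg_right (le_trans ?_ (seb_ob (D := D) (z₀ := z₀) (e := e) (Q := Q))) hA0
    calc ∑ i ∈ O, (((κ i).2 : ℕ) : ℝ) ≤ ∑ i ∈ O, ((Y / i.1 : ℕ) : ℝ) :=
          Finset.sum_le_sum fun i _ => by exact_mod_cast min_le_left _ _
      _ ≤ ∑ i ∈ Ob D e Y Q z₀, ((Y / i.1 : ℕ) : ℝ) :=
          Finset.sum_le_sum_of_subset_of_nonneg (filter_subset _ _) fun _ _ _ => by positivity
  · have h7 : (y : ℝ) ^ (2 * k₁) = M * M := by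
      rw [hM]
      push_cast
      ring
    have h8 : (1 : ℝ) ≤ M := by exact_mod_cast hM1
    rw [h7]
    push_cast
    calc (e : ℝ) * (M + 1) * (M * B) ≤ e * (M + M) * (M * B) := by gcongr
      _ = 2 * e * (M * M) * B := by ring

end

end Pool.Agent.MP_9f080f_an

namespace Pool.Agent.MP_9f080f_an
open Complex Finset
open scoped Real

noncomputable section

/-! Application of the core lemma to the middle part. -/

open Classical in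
theorem app_mid {t L G : ℝ} {D : ℤ} {e Y w y k s k₁ k₂ U E₀ : ℕ} {σ lm : ℕ → ℂ} {a : ℕ × ℤ → ℂ}
    (he : 1 ≤ e) (hew : 2 * e ≤ w) (ht : 4 ≤ t) (hw : 2 * t ≤ w) (hy : 1 ≤ y)
    (hL : ∑ q ∈ QQ D e w y, (1 : ℝ) / q ≤ L) (hs : 1 ≤ s) (hk₂ : 1 ≤ k₂)
    (hU : (1 + t * U) ^ k ≤ 4 ^ (s - 1)) (hσ : ∀ r, ‖σ r‖ ≤ 1) (hl : ∀ p, ‖lm p‖ ≤ 1) (ha : ∀ i, ‖a i‖ ≤ 1)
    (hcU : ∀ i ∈ Ob D e Y (QQ D e w y) (zz G e), ∀ i' ∈ Ob D e Y (QQ D e w y) (zz G e), col D e i i' ≠ 0 →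
      #((QQ D e w y).filter fun q : ℕ => (q : ℤ) ∣ col D e i i') ≤ U)
    (hdeg : ∀ i ∈ Ob D e Y (QQ D e w y) (zz G e), a i ≠ 0 →
      #{i' ∈ Ob D e Y (QQ D e w y) (zz G e) | a i' ≠ 0 ∧ col D e i i' = 0} ≤ E₀) :
    ‖mid D e Y (QQ D e w y) k₁ k₂ G σ lm a‖ ≤
      Y * (1 + Real.log Y) ^ 2 * (4 * √s * (4 / t) ^ k₂ + eta0 t L w y k s) +
        2 * e * (y : ℝ) ^ (2 * k₁) * (E₀ * (1 + t * y) ^ k * √s) + Y * (1 + Real.log Y) * (4 * π / w) := by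
  have hQ : ∀ q ∈ QQ D e w y, q.Prime ∧ w < q ∧ q ≤ y := fun q hq => by
    simp only [QQ, mem_filter, mem_Ioc] at hq
    exact ⟨hq.2.1, hq.1.1, hq.1.2⟩
  have h1 : ∀ q : ℕ, ∃ r : ℤ, q ∈ QQ D e w y → (q : ℤ) ∣ 4 * (e : ℤ) ^ 2 * r ^ 2 - D := fun q => by
    by_cases hq : q ∈ QQ D e w y
    · obtain ⟨ν, hν⟩ := (mem_filter.1 hq).2.2.2
      exact ⟨ν, fun _ => (mem_filter.1 hν).2⟩
    · exact ⟨0, fun h => absurd h hq⟩
  choose r hr using h1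
  have h2 : ∀ (i : ℕ × ℤ) (E : Finset ℕ), ∃ X : ℤ, i ∈ Ob D e Y (QQ D e w y) (zz G e) →
      ∀ q ∈ QQ D e w y, (q : ℤ) ∣ i.1 * X - ((if q ∈ E then r q else -r q) - i.2) := fun i E => by
    by_cases hi : i ∈ Ob D e Y (QQ D e w y) (zz G e)
    · obtain ⟨X, hX⟩ := exists_X (fun q hq => (hQ q hq).1) (mem_filter.1 hi).2.1
        fun q => (if q ∈ E then r q else -r q) - i.2
      exact ⟨X, fun _ => hX⟩
    · exact ⟨0, fun h => absurd h hi⟩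
  choose X hX using h2
  have h3 := se_phase (k₁ := k₁) (G := G) (Y := Y) he hew hk₂ hσ hl ha hr
    (X := X) fun i hi E _ => hX i E hi
  have h4 : ∀ E ∈ (QQ D e w y).powerset, ‖∑ i ∈ Ob D e Y (QQ D e w y) (zz G e),
      (a i * ∏ p ∈ i.1.primeFactors, lm p) * ∑ S ∈ (QQ D e w y).powerset,
        bS e k₁ k₂ σ lm i.1 (Y / i.1) S * ep (2 * (X i E : ℂ) / dd S)‖ ≤
      Y * (1 + Real.log Y) ^ 2 * (4 * √s * (4 / t) ^ k₂ + eta0 t L w y k s) +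
        2 * e * (y : ℝ) ^ (2 * k₁) * (E₀ * (1 + t * y) ^ k * √s) := fun E _ => by
    refine se_class (a := fun i => a i * ∏ p ∈ i.1.primeFactors, lm p) he ht hw hy hQ hL hs hk₂ hU
      hσ hl (fun i => ?_) (fun i => X i E) fun i hi h0 => ?_
    · rw [norm_mul, norm_prod]
      exact mul_le_one₀ (ha i) (prod_nonneg fun _ _ => norm_nonneg _)
        (prod_le_one (fun _ _ => norm_nonneg _) fun p _ => hl p)
    · refine le_trans (card_le_card fun i' hi' => ?_) (hdeg i hi (left_ne_zero_of_mul h0))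
      obtain ⟨hi', h5, h6⟩ := mem_filter.1 hi'
      refine mem_filter.2 ⟨hi', left_ne_zero_of_mul h5, ?_⟩
      by_contra hc
      refine absurd (h6.trans_le (card_le_card fun q hq => ?_)) (not_lt.2 (hcU i hi i' hi' hc))
      obtain ⟨hq, h7⟩ := mem_filter.1 hq
      refine mem_filter.2 ⟨hq, col_dvd (ρ := if q ∈ E then r q else -r q) ?_ (hX i E hi q hq)
        (hX i' E hi' q hq) h7⟩
      split_ifs
      · exact hr q hq
      · rw [neg_sq]; exact hr q hq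
  have h5 := (norm_sum_le _ _).trans (sum_le_card_nsmul _ _ _ h4)
  rw [card_powerset, nsmul_eq_mul] at h5
  refine (norm_le_norm_add_norm_sub' _ _).trans (add_le_add ?_ h3)
  rw [norm_mul, norm_div, norm_one, norm_pow, Complex.norm_two, one_div,
    inv_mul_le_iff₀ (by positivity)]
  exact_mod_cast h5

end

end Pool.Agent.MP_9f080f_an

namespace Pool.Agent.MP_9f080f_an
open Complex Finset
open scoped Real

noncomputable section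

lemma sed_pow (c j : ℕ) : ∃ u₀ : ℕ, ∀ u : ℕ, u₀ ≤ u → (c : ℝ) * (u : ℝ) ^ j ≤ Real.exp u := by
  refine ⟨c * (j + 1).factorial, fun u hu => le_trans ?_
    (Real.pow_div_factorial_le_exp u u.cast_nonneg (j + 1))⟩
  have h1 : (c : ℝ) * (j + 1).factorial ≤ u := by exact_mod_cast hu
  rw [le_div_iff₀ (by exact_mod_cast (j + 1).factorial_pos), pow_succ, mul_right_comm, mul_comm]
  exact mul_le_mul_of_nonneg_left h1 (by positivity)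

lemma sed_base {u : ℕ} (hu : 7 ≤ u) :
    (1 + u * (⌈4 * Real.exp u⌉₊ : ℝ)) ^ (4 * u ^ 2) ≤ 4 ^ (8 * u ^ 3 - 1) := by
  have h1 : Real.exp u ≤ 3 ^ u := by
    rw [← mul_one (u : ℝ), Real.exp_nat_mul]
    exact pow_le_pow_left₀ (Real.exp_pos _).le (by linarith [Real.exp_one_lt_d9]) u
  have h2 : (u : ℝ) ≤ 2 ^ u := by exact_mod_cast (Nat.lt_two_pow_self (n := u)).le
  have h3 := (Nat.ceil_lt_add_one (show 0 ≤ 4 * Real.exp u by positivity)).le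
  have h4 : (1 : ℝ) ≤ 3 ^ u := one_le_pow₀ (by norm_num)
  have h5 : (1 : ℝ) ≤ 2 ^ u := one_le_pow₀ (by norm_num)
  have h6 : (6 : ℝ) ≤ (4 / 3) ^ u :=
    le_trans (by norm_num) (pow_le_pow_right₀ (by norm_num : (1 : ℝ) ≤ 4 / 3) hu)
  have h7 : (8 : ℝ) ^ u = 2 ^ u * 3 ^ u * (4 / 3) ^ u := by
    rw [← mul_pow, ← mul_pow]; norm_num
  have h8 : u * (⌈4 * Real.exp u⌉₊ : ℝ) ≤ 2 ^ u * (5 * 3 ^ u) :=
    mul_le_mul h2 (by linarith) (by positivity) (by positivity)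
  have h9 : 1 + u * (⌈4 * Real.exp u⌉₊ : ℝ) ≤ 8 ^ u := by
    have a1 := one_le_mul_of_one_le_of_one_le h5 h4
    have a2 := mul_le_mul_of_nonneg_left h6 (zero_le_one.trans a1)
    rw [h7]
    linarith
  refine (pow_le_pow_left₀ (by positivity) h9 _).trans ?_
  rw [show (8 : ℝ) = 2 ^ 3 by norm_num, show (4 : ℝ) = 2 ^ 2 by norm_num, ← pow_mul, ← pow_mul,
    ← pow_mul]
  refine pow_le_pow_right₀ one_le_two ?_
  have : 1 ≤ u ^ 3 := Nat.one_le_pow _ _ (by omega)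
  have e : 3 * (u * (4 * u ^ 2)) = 12 * u ^ 3 := by ring
  omega

lemma sed_win {e Y : ℕ} (he : 1 ≤ e) {G : ℝ} {z : ℤ} (hz : z ∈ Ico (zz G e) (zz G e + Y)) :
    |2 * e * (z : ℝ)| ≤ |G| + 2 * e * (1 + Y) := by
  have he0 : (0 : ℝ) < 2 * e := by positivity
  obtain ⟨h1, h2⟩ := mem_Ico.1 hz
  have h3 : -G / (2 * e) ≤ z := (Int.le_ceil _).trans (Int.cast_le.2 h1)
  have h4 : (z : ℝ) ≤ -G / (2 * e) + (1 + Y) := by
    have a1 : (z : ℝ) ≤ (zz G e : ℝ) + Y := by exact_mod_cast h2.le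
    have a2 : (zz G e : ℝ) < -G / (2 * e) + 1 := Int.ceil_lt_add_one _
    linarith
  rw [div_le_iff₀ he0] at h3
  have h5 := mul_le_mul_of_nonneg_left h4 he0.le
  rw [mul_add, mul_div_cancel₀ _ he0.ne'] at h5
  have h6 : (0 : ℝ) ≤ 2 * e * (1 + Y) := by positivity
  rw [abs_le]
  constructor <;> linarith [le_abs_self G, neg_abs_le G]

lemma sed_col {D : ℤ} {e Y : ℕ} (hD : 1 ≤ D) (he : 1 ≤ e) {G : ℝ} (hG : G ^ 2 ≤ D)
    {Q : Finset ℕ} {i i' : ℕ × ℤ} (hi : i ∈ Ob D e Y Q (zz G e)) (hi' : i' ∈ Ob D e Y Q (zz G e)) :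
    1 ≤ Y ∧ |(col D e i i' : ℝ)| ≤ 137 * D * (e : ℝ) ^ 2 * (Y : ℝ) ^ 4 := by
  obtain ⟨a1, a2⟩ := mem_product.1 (mem_filter.1 hi).1
  obtain ⟨b1, b2⟩ := mem_product.1 (mem_filter.1 hi').1
  obtain ⟨a3, a4⟩ := mem_Icc.1 (mem_filter.1 a1).1
  obtain ⟨b3, b4⟩ := mem_Icc.1 (mem_filter.1 b1).1
  refine ⟨a3.trans a4, ?_⟩
  have w1 := sed_win he a2
  have w2 := sed_win he b2
  have hY : (1 : ℝ) ≤ Y := by exact_mod_cast a3.trans a4
  have he' : (1 : ℝ) ≤ e := by exact_mod_cast he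
  have hD' : (1 : ℝ) ≤ D := by exact_mod_cast hD
  have c1 : (i.1 : ℝ) ≤ Y := by exact_mod_cast a4
  have c2 : (i'.1 : ℝ) ≤ Y := by exact_mod_cast b4
  have c3 : (0 : ℝ) ≤ i.1 := by positivity
  have c4 : (0 : ℝ) ≤ i'.1 := by positivity
  have e1 : (col D e i i' : ℝ) = D * ((i'.1 : ℝ) - i.1) ^ 2 -
      (i'.1 * (2 * e * (i.2 : ℝ)) - i.1 * (2 * e * (i'.2 : ℝ))) ^ 2 := by
    unfold col; push_cast; ring
  rw [e1]
  generalize 2 * e * (i.2 : ℝ) = x at w1 ⊢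
  generalize 2 * e * (i'.2 : ℝ) = x' at w2 ⊢
  generalize (i.1 : ℝ) = c at c1 c3 ⊢
  generalize (i'.1 : ℝ) = c' at c2 c4 ⊢
  obtain ⟨B, hB⟩ : ∃ B, B = |G| + 2 * e * (1 + (Y : ℝ)) := ⟨_, rfl⟩
  rw [← hB] at w1 w2
  have hB0 : 0 ≤ B := (abs_nonneg _).trans w1
  have hP : 1 ≤ (e : ℝ) ^ 2 * (Y : ℝ) ^ 2 :=
    one_le_mul_of_one_le_of_one_le (one_le_pow₀ he') (one_le_pow₀ hY)
  have f1 : B ^ 2 ≤ 34 * (D * ((e : ℝ) ^ 2 * (Y : ℝ) ^ 2)) := by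
    have g1 : B ≤ |G| + 4 * e * Y := by rw [hB]; nlinarith
    have g2 : B ^ 2 ≤ 2 * G ^ 2 + 32 * ((e : ℝ) ^ 2 * (Y : ℝ) ^ 2) := by
      refine (pow_le_pow_left₀ hB0 g1 2).trans ?_
      rw [← sq_abs G]
      nlinarith [sq_nonneg (|G| - 4 * e * Y)]
    have g3 := mul_le_mul_of_nonneg_left hP (zero_le_one.trans hD')
    have g4 := mul_le_mul_of_nonneg_right hD' (zero_le_one.trans hP)
    linarith
  have f2 : (c' - c) ^ 2 ≤ (Y : ℝ) ^ 2 := sq_le_sq' (by linarith) (by linarith)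
  have f3 : (c' * x - c * x') ^ 2 ≤ (2 * Y * B) ^ 2 := by
    rw [← sq_abs]
    refine pow_le_pow_left₀ (abs_nonneg _) ((abs_sub _ _).trans ?_) 2
    rw [abs_mul, abs_mul, abs_of_nonneg c3, abs_of_nonneg c4]
    have g1 := mul_le_mul c2 w1 (abs_nonneg _) (by linarith)
    have g2 := mul_le_mul c1 w2 (abs_nonneg _) (by linarith)
    linarith
  have f4 := mul_le_mul_of_nonneg_left f2 (zero_le_one.trans hD')
  have f5 := mul_le_mul_of_nonneg_left f1 (show 0 ≤ 4 * (Y : ℝ) ^ 2 by positivity)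
  have f6 := mul_le_mul_of_nonneg_left hP (show 0 ≤ D * (Y : ℝ) ^ 2 by positivity)
  have f7 : 0 ≤ D * (c' - c) ^ 2 := by positivity
  have f8 := sq_nonneg (c' * x - c * x')
  rw [abs_le]
  constructor <;> linarith

theorem se_U : ∃ u₀ : ℕ, ∀ (u : ℕ) (D : ℤ) (e Y : ℕ) (G : ℝ), u₀ ≤ u → Par u D e Y → G ^ 2 ≤ D →
    (1 + u * (⌈4 * Real.exp u⌉₊ : ℝ)) ^ (4 * u ^ 2) ≤ 4 ^ (8 * u ^ 3 - 1) ∧
    ∀ i ∈ Obu u D e Y G, ∀ i' ∈ Obu u D e Y G, col D e i i' ≠ 0 →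
      #((Qu u D e).filter fun q : ℕ => (q : ℤ) ∣ col D e i i') ≤ ⌈4 * Real.exp u⌉₊ := by
  obtain ⟨u₁, h₁⟩ := sed_pow 146 100
  refine ⟨max 7 u₁, fun u D e Y G hu hP hG => ⟨sed_base (le_of_max_le_left hu),
    fun i hi i' hi' h0 => ?_⟩⟩
  obtain ⟨hY, hc⟩ := sed_col hP.D1 hP.e1 hG hi hi'
  have h1 := primes_dvd_card (Q := Qu u D e) (fun q hq => (mem_filter.1 hq).2.1) h0
  have h2 := h₁ u (le_of_max_le_right hu)
  have hu1 : (1 : ℝ) ≤ u := by exact_mod_cast le_trans (by norm_num) (le_of_max_le_left hu)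
  have hY' : (0 : ℝ) < Y := by exact_mod_cast hY
  have he' : (0 : ℝ) < e := by exact_mod_cast hP.e1
  have hD' : (0 : ℝ) < D := by exact_mod_cast hP.D1
  have h3 := Real.log_le_log (abs_pos.2 (by exact_mod_cast h0)) hc
  rw [Real.log_mul (by positivity) (by positivity), Real.log_mul (by positivity) (by positivity),
    Real.log_mul (by positivity) (by positivity), Real.log_pow, Real.log_pow] at h3
  have h4 := (Real.log_le_iff_le_exp he').2 hP.e2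
  have h5 := (Real.log_le_iff_le_exp hY').2 hP.Y2
  have h6 := Real.log_le_sub_one_of_pos (show (0 : ℝ) < 137 by norm_num)
  have h7 : (u : ℝ) ^ 2 ≤ (u : ℝ) ^ 100 := pow_le_pow_right₀ hu1 (by norm_num)
  have h8 : 1 ≤ (u : ℝ) ^ 100 := one_le_pow₀ hu1
  have h9 := hP.D2
  have h10 := Nat.le_ceil (4 * Real.exp u)
  push_cast at h2 h3
  generalize (u : ℝ) ^ 100 = t at *
  exact_mod_cast h1.trans (by linarith : _ ≤ ((⌈4 * Real.exp u⌉₊ : ℕ) : ℝ))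

theorem se_L : ∃ u₀ : ℕ, ∀ (u : ℕ) (D : ℤ) (e Y : ℕ), u₀ ≤ u → Par u D e Y →
    ∑ q ∈ Qu u D e, (1 : ℝ) / q ≤ u ∧ 2 * e ≤ ww u ∧ 2 * (u : ℝ) ≤ ww u ∧ 1 ≤ yy u := by
  obtain ⟨C, hC⟩ := mertens
  obtain ⟨u₁, h₁⟩ := sed_pow ⌈2 * Real.exp C⌉₊ 89
  refine ⟨max 2 u₁, fun u D e Y hu hP => ?_⟩
  have hu2 : (2 : ℝ) ≤ u := by exact_mod_cast le_of_max_le_left hu
  have hu0 : (0 : ℝ) < u := by linarith
  have h2 := h₁ u (le_of_max_le_right hu)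
  have p4 : (16 : ℝ) ≤ (u : ℝ) ^ 4 :=
    le_trans (by norm_num) (pow_le_pow_left₀ (by norm_num) hu2 4)
  have p2 : 2 * (u : ℝ) ≤ (u : ℝ) ^ 2 := by nlinarith
  have p6 : 16 * (u : ℝ) ^ 2 ≤ (u : ℝ) ^ 6 := by
    rw [show (u : ℝ) ^ 6 = (u : ℝ) ^ 4 * (u : ℝ) ^ 2 by ring]
    exact mul_le_mul_of_nonneg_right p4 (by positivity)
  have p95 : (u : ℝ) ^ 6 ≤ (u : ℝ) ^ 95 := pow_le_pow_right₀ (by linarith) (by norm_num)
  obtain ⟨a1, a2, a3, -⟩ := shat_floor (t := (u : ℝ) ^ 6) (by linarith)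
  obtain ⟨b1, -, -, b4⟩ := shat_floor (t := (u : ℝ) ^ 95) (by linarith)
  change 2 ≤ ww u at a1
  change _ ≤ (ww u : ℝ) at a2
  change _ ≤ Real.log (ww u) at a3
  change 2 ≤ yy u at b1
  change Real.log (yy u) ≤ _ at b4
  have hwy : ww u ≤ yy u := Nat.floor_mono (Real.exp_le_exp.2 p95)
  refine ⟨?_, ?_, ?_, by omega⟩
  · refine le_trans (sum_le_sum_of_subset_of_nonneg (fun q hq => ?_) fun _ _ _ => by positivity)
      ((hC _ _ a1 hwy).trans ?_)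
    · exact mem_filter.2 ⟨(mem_filter.1 hq).1, (mem_filter.1 hq).2.1⟩
    have h3 : 0 < Real.log (ww u) := by linarith
    have h4 : 0 < Real.log (yy u) := Real.log_pos (by exact_mod_cast b1)
    have h5 : Real.log (yy u) / Real.log (ww u) ≤ 2 * (u : ℝ) ^ 89 := by
      rw [div_le_iff₀ h3]
      have := mul_le_mul_of_nonneg_left a3 (show 0 ≤ 2 * (u : ℝ) ^ 89 by positivity)
      have e : 2 * (u : ℝ) ^ 89 * ((u : ℝ) ^ 6 / 2) = (u : ℝ) ^ 95 := by ring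
      linarith
    rw [← le_sub_iff_add_le, Real.log_le_iff_le_exp (div_pos h4 h3), Real.exp_sub,
      le_div_iff₀ (Real.exp_pos _)]
    refine le_trans ?_ h2
    calc _ ≤ 2 * (u : ℝ) ^ 89 * Real.exp C := mul_le_mul_of_nonneg_right h5 (Real.exp_pos _).le
      _ = 2 * Real.exp C * (u : ℝ) ^ 89 := by ring
      _ ≤ _ := mul_le_mul_of_nonneg_right (Nat.le_ceil _) (by positivity)
  · have h3 : Real.exp ((u : ℝ) ^ 2) * Real.exp 3 ≤ Real.exp ((u : ℝ) ^ 6) := by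
      rw [← Real.exp_add]; exact Real.exp_le_exp.2 (by linarith)
    have h4 := mul_le_mul_of_nonneg_left (Real.add_one_le_exp 3) (Real.exp_pos ((u : ℝ) ^ 2)).le
    have h5 := hP.e2
    exact_mod_cast (by linarith : 2 * (e : ℝ) ≤ ww u)
  · linarith [Real.add_one_le_exp ((u : ℝ) ^ 6)]

end

end Pool.Agent.MP_9f080f_an

namespace Pool.Agent.MP_9f080f_an
open Complex Finset
open scoped Real

noncomputable section

theorem see_tail (j : ℕ) : ∃ K : ℝ, 0 < K ∧ ∀ x : ℝ, 0 < x → x ^ j * Real.exp (-x) ≤ K / x ^ 60 := by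
  refine ⟨(j + 60).factorial, by exact_mod_cast Nat.factorial_pos _, fun x hx => ?_⟩
  have h := Real.pow_div_factorial_le_exp x hx.le (j + 60)
  have hf : (0 : ℝ) < (j + 60).factorial := by exact_mod_cast Nat.factorial_pos _
  rw [div_le_iff₀ hf] at h
  rw [le_div_iff₀ (by positivity), Real.exp_neg]
  calc x ^ j * (Real.exp x)⁻¹ * x ^ 60 = x ^ (j + 60) * (Real.exp x)⁻¹ := by ring
    _ ≤ (Real.exp x * (j + 60).factorial) * (Real.exp x)⁻¹ := by gcongr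
    _ = (j + 60).factorial := by field_simp

theorem see_two_pow (n : ℕ) : (2 : ℝ) ^ n ≤ Real.exp n := by
  have h : (2 : ℝ) ≤ Real.exp 1 := by linarith [Real.add_one_le_exp (1 : ℝ)]
  calc (2 : ℝ) ^ n ≤ Real.exp 1 ^ n := by gcongr
    _ = Real.exp n := by rw [← Real.exp_nat_mul, mul_one]

theorem see_two_pow' (n : ℕ) : Real.exp (5 / 8 * n) ≤ (2 : ℝ) ^ n := by
  have h : Real.exp (5 / 8) ≤ 2 := by
    have := Real.log_two_gt_d9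
    calc Real.exp (5 / 8) ≤ Real.exp (Real.log 2) := Real.exp_le_exp.mpr (by linarith)
      _ = 2 := Real.exp_log (by norm_num)
  calc Real.exp (5 / 8 * n) = Real.exp (5 / 8) ^ n := by rw [← Real.exp_nat_mul, mul_comm]
    _ ≤ 2 ^ n := by gcongr

theorem see_mono {x : ℝ} (hx : 1 ≤ x) {a b : ℕ} (h : a ≤ b) : x ^ a ≤ x ^ b := pow_le_pow_right₀ hx h

theorem see_step {x : ℝ} (hx : 100 ≤ x) (a : ℕ) : 100 * x ^ a ≤ x ^ (a + 1) := by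
  rw [pow_succ, mul_comm]
  exact mul_le_mul_of_nonneg_left hx (by positivity)

theorem see_sqrt (u : ℕ) (hu : 1 ≤ u) : √((8 * u ^ 3 : ℕ) : ℝ) ≤ 3 * (u : ℝ) ^ 2 := by
  have hx : (1 : ℝ) ≤ u := by exact_mod_cast hu
  refine Real.sqrt_le_iff.mpr ⟨by positivity, ?_⟩
  have h1 := see_mono hx (show 3 ≤ 4 by norm_num)
  have h2 : (0 : ℝ) ≤ (u : ℝ) ^ 4 := by positivity
  push_cast
  calc (8 : ℝ) * (u : ℝ) ^ 3 ≤ 9 * (u : ℝ) ^ 4 := by linarith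
    _ = (3 * (u : ℝ) ^ 2) ^ 2 := by ring

theorem see_ww (u : ℕ) : ((ww u : ℝ))⁻¹ ≤ 2 * Real.exp (-(u : ℝ) ^ 6) := by
  have h1 : (1 : ℝ) ≤ Real.exp ((u : ℝ) ^ 6) := Real.one_le_exp (by positivity)
  have h2 : (1 : ℝ) ≤ ww u := by
    have : 1 ≤ ww u := Nat.le_floor (by rw [Nat.cast_one]; exact h1)
    exact_mod_cast this
  have h3 : Real.exp ((u : ℝ) ^ 6) < ww u + 1 := Nat.lt_floor_add_one _
  rw [Real.exp_neg, inv_eq_one_div, ← div_eq_mul_inv, div_le_div_iff₀ (by linarith) (by linarith)]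
  linarith

theorem see_yy (u : ℕ) : (1 : ℝ) ≤ yy u ∧ (yy u : ℝ) ≤ Real.exp ((u : ℝ) ^ 95) := by
  have h1 : (1 : ℝ) ≤ Real.exp ((u : ℝ) ^ 95) := Real.one_le_exp (by positivity)
  refine ⟨?_, Nat.floor_le (by positivity)⟩
  have : 1 ≤ yy u := Nat.le_floor (by rw [Nat.cast_one]; exact h1)
  exact_mod_cast this

theorem see_A (u : ℕ) (hu : 100 ≤ u) :
    (u : ℝ) ^ 200 * (4 * √((8 * u ^ 3 : ℕ) : ℝ) * (4 / u : ℝ) ^ 263) ≤ 12 * 4 ^ 263 / (u : ℝ) ^ 60 := by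
  have hx : (100 : ℝ) ≤ u := by exact_mod_cast hu
  have hx0 : (0 : ℝ) < u := by linarith
  have h1 := see_sqrt u (by omega)
  generalize (u : ℝ) = x at *
  generalize √((8 * u ^ 3 : ℕ) : ℝ) = r at *
  rw [div_pow]
  generalize hc : (4 : ℝ) ^ 263 = c
  have hc0 : 0 ≤ c := by rw [← hc]; positivity
  calc x ^ 200 * (4 * r * (c / x ^ 263)) ≤ x ^ 200 * (4 * (3 * x ^ 2) * (c / x ^ 263)) := by gcongr
    _ = 12 * c / x ^ 61 := by field_simp; ring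
    _ ≤ 12 * c / x ^ 60 := by
      have := see_mono (show (1 : ℝ) ≤ x by linarith) (show 60 ≤ 61 by norm_num)
      gcongr

theorem see_B (u : ℕ) (hu : 100 ≤ u) :
    Real.exp (2 * u * u) / 2 ^ (4 * u ^ 2) ≤ Real.exp (-(u : ℝ)) := by
  have hx : (100 : ℝ) ≤ u := by exact_mod_cast hu
  have h1 := see_two_pow' (4 * u ^ 2)
  rw [div_le_iff₀ (by positivity)]
  refine le_trans ?_ (mul_le_mul_of_nonneg_left h1 (by positivity))
  rw [← Real.exp_add]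
  refine Real.exp_le_exp.mpr ?_
  push_cast
  nlinarith

theorem see_C (u : ℕ) (hu : 100 ≤ u) :
    (2 : ℝ) ^ (4 * u ^ 2) * (2 * (u : ℝ) / ww u * ((2 ^ (4 * u ^ 2) + 1) ^ (2 * (8 * u ^ 3)) *
      (4 * ((8 * u ^ 3 : ℕ) : ℝ) + 2 * ((4 * u ^ 2 : ℕ) : ℝ) * Real.log (yy u)))) ≤
      160 * ((u : ℝ) ^ 98 * Real.exp (-(u : ℝ))) := by
  have hx : (100 : ℝ) ≤ u := by exact_mod_cast hu
  have hx1 : (1 : ℝ) ≤ u := by linarith
  obtain ⟨y1, y2⟩ := see_yy u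
  have hl : Real.log (yy u) ≤ (u : ℝ) ^ 95 := (Real.log_le_iff_le_exp (by linarith)).mpr y2
  have hl0 : 0 ≤ Real.log (yy u) := Real.log_nonneg y1
  have h1 : (2 : ℝ) ^ (4 * u ^ 2) ≤ Real.exp (4 * (u : ℝ) ^ 2) := by
    have h0 := see_two_pow (4 * u ^ 2)
    rwa [Nat.cast_mul, Nat.cast_pow, Nat.cast_ofNat] at h0
  have h2 : (2 : ℝ) ^ (4 * u ^ 2) + 1 ≤ Real.exp (5 * (u : ℝ) ^ 2) := by
    have h3 := see_two_pow (4 * u ^ 2 + 1)
    have h4 : (1 : ℝ) ≤ 2 ^ (4 * u ^ 2) := one_le_pow₀ (by norm_num)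
    have h5 : (1 : ℝ) ≤ (u : ℝ) ^ 2 := one_le_pow₀ hx1
    rw [pow_succ] at h3
    refine le_trans (by linarith) (h3.trans (Real.exp_le_exp.mpr ?_))
    push_cast
    linarith
  have h3 : ((2 : ℝ) ^ (4 * u ^ 2) + 1) ^ (2 * (8 * u ^ 3)) ≤ Real.exp (80 * (u : ℝ) ^ 5) := by
    refine (pow_le_pow_left₀ (by positivity) h2 _).trans (le_of_eq ?_)
    rw [← Real.exp_nat_mul]
    congr 1
    push_cast
    ring
  have h4 : 4 * ((8 * u ^ 3 : ℕ) : ℝ) + 2 * ((4 * u ^ 2 : ℕ) : ℝ) * Real.log (yy u) ≤ 40 * (u : ℝ) ^ 97 := by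
    have h5 := see_mono hx1 (show 3 ≤ 97 by norm_num)
    have h6 : (u : ℝ) ^ 2 * Real.log (yy u) ≤ (u : ℝ) ^ 97 := by
      calc (u : ℝ) ^ 2 * Real.log (yy u) ≤ (u : ℝ) ^ 2 * (u : ℝ) ^ 95 := by gcongr
        _ = (u : ℝ) ^ 97 := by ring
    push_cast
    linarith
  have h5 := see_ww u
  have h6 : 4 * (u : ℝ) ^ 2 + -(u : ℝ) ^ 6 + 80 * (u : ℝ) ^ 5 ≤ -(u : ℝ) := by
    have a1 := see_step hx 5
    have a2 := see_mono hx1 (show 2 ≤ 5 by norm_num)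
    have a3 := see_mono hx1 (show 1 ≤ 5 by norm_num)
    have a4 : (0 : ℝ) ≤ (u : ℝ) ^ 5 := by positivity
    norm_num at a1 a3
    linarith
  rw [div_eq_mul_inv]
  calc _ ≤ Real.exp (4 * (u : ℝ) ^ 2) * (2 * (u : ℝ) * (2 * Real.exp (-(u : ℝ) ^ 6)) *
        (Real.exp (80 * (u : ℝ) ^ 5) * (40 * (u : ℝ) ^ 97))) := by gcongr
    _ = 160 * ((u : ℝ) ^ 98 * Real.exp (4 * (u : ℝ) ^ 2 + -(u : ℝ) ^ 6 + 80 * (u : ℝ) ^ 5)) := by
        rw [Real.exp_add, Real.exp_add]; ring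
    _ ≤ _ := by gcongr

theorem see_D (u : ℕ) (hu : 100 ≤ u) (e Y E₀ : ℝ) (he : e ≤ Real.exp ((u : ℝ) ^ 2)) (hE0 : 0 ≤ E₀)
    (hE : E₀ * Real.exp ((u : ℝ) ^ 98) ≤ 6 * Y) :
    2 * e * (yy u : ℝ) ^ (2 * u) * (E₀ * (1 + u * (yy u : ℝ)) ^ (4 * u ^ 2) * √((8 * u ^ 3 : ℕ) : ℝ)) ≤
      36 * Y * ((u : ℝ) ^ 2 * Real.exp (-(u : ℝ))) := by
  have hx : (100 : ℝ) ≤ u := by exact_mod_cast hu
  have hx1 : (1 : ℝ) ≤ u := by linarith
  obtain ⟨y1, y2⟩ := see_yy u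
  have hY : 0 ≤ Y := by
    have : 0 ≤ E₀ * Real.exp ((u : ℝ) ^ 98) := by positivity
    linarith
  have h1 : (yy u : ℝ) ^ (2 * u) ≤ Real.exp (2 * (u : ℝ) ^ 96) := by
    refine (pow_le_pow_left₀ (by positivity) y2 _).trans (le_of_eq ?_)
    rw [← Real.exp_nat_mul]
    congr 1
    push_cast
    ring
  have h2 : 1 + u * (yy u : ℝ) ≤ Real.exp (2 * (u : ℝ) ^ 95) := by
    have a1 := Real.add_one_le_exp (u : ℝ)
    have a2 : Real.exp (u : ℝ) ≤ Real.exp ((u : ℝ) ^ 95) :=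
      Real.exp_le_exp.mpr (by simpa using see_mono hx1 (show 1 ≤ 95 by norm_num))
    calc 1 + u * (yy u : ℝ) ≤ (u + 1) * (yy u : ℝ) := by rw [add_mul]; linarith
      _ ≤ Real.exp ((u : ℝ) ^ 95) * Real.exp ((u : ℝ) ^ 95) := by gcongr; linarith
      _ = _ := by rw [← Real.exp_add]; congr 1; ring
  have h3 : (1 + u * (yy u : ℝ)) ^ (4 * u ^ 2) ≤ Real.exp (8 * (u : ℝ) ^ 97) := by
    refine (pow_le_pow_left₀ (by positivity) h2 _).trans (le_of_eq ?_)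
    rw [← Real.exp_nat_mul]
    congr 1
    push_cast
    ring
  have h4 : E₀ ≤ 6 * Y * Real.exp (-(u : ℝ) ^ 98) := by
    rw [Real.exp_neg, ← div_eq_mul_inv, le_div_iff₀ (by positivity)]
    exact hE
  have h5 := see_sqrt u (by omega)
  have h6 : (u : ℝ) ^ 2 + 2 * (u : ℝ) ^ 96 + -(u : ℝ) ^ 98 + 8 * (u : ℝ) ^ 97 ≤ -(u : ℝ) := by
    have a1 := see_step hx 97
    have a2 := see_mono hx1 (show 2 ≤ 97 by norm_num)
    have a3 := see_mono hx1 (show 1 ≤ 97 by norm_num)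
    have a5 := see_mono hx1 (show 96 ≤ 97 by norm_num)
    have a4 : (0 : ℝ) ≤ (u : ℝ) ^ 97 := by positivity
    rw [pow_one] at a3
    rw [show 97 + 1 = 98 from rfl] at a1
    linarith
  calc _ ≤ 2 * Real.exp ((u : ℝ) ^ 2) * Real.exp (2 * (u : ℝ) ^ 96) *
        (6 * Y * Real.exp (-(u : ℝ) ^ 98) * Real.exp (8 * (u : ℝ) ^ 97) * (3 * (u : ℝ) ^ 2)) := by gcongr
    _ = 36 * Y * ((u : ℝ) ^ 2 *
        Real.exp ((u : ℝ) ^ 2 + 2 * (u : ℝ) ^ 96 + -(u : ℝ) ^ 98 + 8 * (u : ℝ) ^ 97)) := by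
        rw [Real.exp_add, Real.exp_add, Real.exp_add]; ring
    _ ≤ _ := by gcongr

theorem see_E (u : ℕ) (hu : 100 ≤ u) : 4 * π / ww u ≤ 32 * Real.exp (-(u : ℝ)) := by
  have hx1 : (1 : ℝ) ≤ u := by exact_mod_cast (by omega : 1 ≤ u)
  have h5 := see_ww u
  have h6 : Real.exp (-(u : ℝ) ^ 6) ≤ Real.exp (-(u : ℝ)) :=
    Real.exp_le_exp.mpr (neg_le_neg (by simpa using see_mono hx1 (show 1 ≤ 6 by norm_num)))
  have h7 := Real.pi_le_four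
  rw [div_eq_mul_inv]
  calc 4 * π * ((ww u : ℝ))⁻¹ ≤ 4 * 4 * (2 * Real.exp (-(u : ℝ))) := by
        gcongr
        exact h5.trans (by gcongr)
    _ = _ := by ring

theorem se_num : ∃ (u₀ : ℕ) (K : ℝ), 0 < K ∧ ∀ (u : ℕ) (D : ℤ) (e Y E₀ : ℕ), u₀ ≤ u → Par u D e Y →
    E₀ * Real.exp ((u : ℝ) ^ 98) ≤ 6 * Y →
    Y * (1 + Real.log Y) ^ 2 * (4 * √(8 * u ^ 3 : ℕ) * (4 / u : ℝ) ^ 263 +
        eta0 u u (ww u) (yy u) (4 * u ^ 2) (8 * u ^ 3)) +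
      2 * e * (yy u : ℝ) ^ (2 * u) * (E₀ * (1 + u * (yy u : ℝ)) ^ (4 * u ^ 2) * √(8 * u ^ 3 : ℕ)) +
      Y * (1 + Real.log Y) * (4 * π / ww u) ≤ K * Y / (u : ℝ) ^ 60 := by
  obtain ⟨K1, hK1, h1⟩ := see_tail 200
  obtain ⟨K2, hK2, h2⟩ := see_tail 298
  obtain ⟨K3, hK3, h3⟩ := see_tail 2
  obtain ⟨K4, hK4, h4⟩ := see_tail 100
  obtain ⟨K0, hK0, h0⟩ : ∃ K0 : ℝ, 0 < K0 ∧ ∀ u : ℕ, 100 ≤ u →
      (u : ℝ) ^ 200 * (4 * √((8 * u ^ 3 : ℕ) : ℝ) * (4 / u : ℝ) ^ 263) ≤ K0 / (u : ℝ) ^ 60 :=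
    ⟨_, by positivity, see_A⟩
  refine ⟨100, 9 * (K0 + K1 + 160 * K2) + 36 * K3 + 96 * K4, by positivity, fun u D e Y E₀ hu hP hE => ?_⟩
  have hx : (100 : ℝ) ≤ u := by exact_mod_cast hu
  have hx0 : (0 : ℝ) < u := by linarith
  have hY1 : (1 : ℝ) ≤ Y := (Real.one_le_exp (by positivity)).trans hP.Y1
  have hL0 : 0 ≤ 1 + Real.log Y := by linarith [Real.log_nonneg hY1]
  have hL : 1 + Real.log Y ≤ 3 * (u : ℝ) ^ 100 := by
    have a1 : Real.log Y ≤ 2 * (u : ℝ) ^ 100 := (Real.log_le_iff_le_exp (by linarith)).mpr hP.Y2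
    have a2 : (1 : ℝ) ≤ (u : ℝ) ^ 100 := one_le_pow₀ (by linarith)
    linarith
  have hL2 : (1 + Real.log Y) ^ 2 ≤ 9 * (u : ℝ) ^ 200 :=
    (pow_le_pow_left₀ hL0 hL 2).trans (le_of_eq (by ring))
  have hA := h0 u hu
  have hB := see_B u hu
  have hC := see_C u hu
  have hD := see_D u hu e Y E₀ hP.e2 (by positivity) hE
  have hE' := see_E u hu
  have hη : eta0 u u (ww u) (yy u) (4 * u ^ 2) (8 * u ^ 3) ≤
      Real.exp (-(u : ℝ)) + 160 * ((u : ℝ) ^ 98 * Real.exp (-(u : ℝ))) := add_le_add hB hC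
  have k1 := h1 u hx0
  have k2 := h2 u hx0
  have k3 := h3 u hx0
  have k4 := h4 u hx0
  have ha0 : 0 ≤ 4 * √((8 * u ^ 3 : ℕ) : ℝ) * (4 / u : ℝ) ^ 263 := by positivity
  generalize 4 * √((8 * u ^ 3 : ℕ) : ℝ) * (4 / u : ℝ) ^ 263 = a at *
  generalize eta0 u u (ww u) (yy u) (4 * u ^ 2) (8 * u ^ 3) = η at *
  have hw0 : 0 ≤ 4 * π / ww u := by positivity
  generalize 4 * π / ww u = w at *
  have t1 : Y * (1 + Real.log Y) ^ 2 * (a + η) ≤ Y * (9 * (K0 + K1 + 160 * K2) / (u : ℝ) ^ 60) := by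
    rw [mul_assoc]
    refine mul_le_mul_of_nonneg_left ?_ (by positivity)
    calc (1 + Real.log Y) ^ 2 * (a + η)
        ≤ (1 + Real.log Y) ^ 2 * (a + (Real.exp (-(u : ℝ)) + 160 * ((u : ℝ) ^ 98 * Real.exp (-(u : ℝ))))) := by
          gcongr
      _ ≤ 9 * (u : ℝ) ^ 200 * (a + (Real.exp (-(u : ℝ)) + 160 * ((u : ℝ) ^ 98 * Real.exp (-(u : ℝ))))) := by
          gcongr
      _ = 9 * ((u : ℝ) ^ 200 * a + (u : ℝ) ^ 200 * Real.exp (-(u : ℝ)) +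
            160 * ((u : ℝ) ^ 298 * Real.exp (-(u : ℝ)))) := by ring
      _ ≤ 9 * (K0 / (u : ℝ) ^ 60 + K1 / (u : ℝ) ^ 60 + 160 * (K2 / (u : ℝ) ^ 60)) := by gcongr
      _ = _ := by ring
  have t2 : 36 * Y * ((u : ℝ) ^ 2 * Real.exp (-(u : ℝ))) ≤ 36 * Y * (K3 / (u : ℝ) ^ 60) := by gcongr
  have t3 : Y * (1 + Real.log Y) * w ≤ Y * (96 * (K4 / (u : ℝ) ^ 60)) := by
    rw [mul_assoc]
    refine mul_le_mul_of_nonneg_left ?_ (by positivity)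
    calc (1 + Real.log Y) * w ≤ 3 * (u : ℝ) ^ 100 * (32 * Real.exp (-(u : ℝ))) := by gcongr
      _ = 96 * ((u : ℝ) ^ 100 * Real.exp (-(u : ℝ))) := by ring
      _ ≤ _ := by gcongr
  refine (add_le_add (add_le_add t1 (hD.trans t2)) t3).trans (le_of_eq ?_)
  ring

end

end Pool.Agent.MP_9f080f_an

namespace Pool.Agent.MP_9f080f_an
open Complex Finset
open scoped Real

noncomputable section

lemma se_pow (j : ℕ) : ∃ C : ℝ, 0 < C ∧ ∀ u : ℕ, (u : ℝ) ^ j ≤ C * 2 ^ u := by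
  have h2 : 0 < Real.log 2 := Real.log_pos one_lt_two
  have hf : (0 : ℝ) < j.factorial := by exact_mod_cast j.factorial_pos
  refine ⟨j.factorial / Real.log 2 ^ j, by positivity, fun u => ?_⟩
  have h := Real.pow_div_factorial_le_exp (u * Real.log 2) (by positivity) j
  rw [Real.exp_nat_mul, Real.exp_log two_pos, mul_pow, div_le_iff₀ hf] at h
  rw [div_mul_eq_mul_div, le_div_iff₀ (by positivity)]
  linarith

lemma se_split (s : Finset ℕ) (F : ℕ → ℂ) (n : ℕ → ℕ) (A B : ℕ) :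
    ‖∑ g ∈ s, F g‖ ≤ ‖∑ g ∈ s.filter (fun g => A ≤ n g ∧ n g ≤ B), F g‖ +
      (∑ g ∈ s.filter (fun g => n g < A), ‖F g‖ + ∑ g ∈ s.filter (fun g => B < n g), ‖F g‖) := by
  rw [← sum_filter_add_sum_filter_not s (fun g => A ≤ n g ∧ n g ≤ B)]
  refine (norm_add_le _ _).trans (add_le_add_right ((norm_sum_le _ _).trans ?_) _)
  rw [sum_filter, sum_filter, sum_filter, ← sum_add_distrib]
  refine sum_le_sum fun g _ => ?_
  have := norm_nonneg (F g)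
  split_ifs <;> first | linarith | omega

open Classical in
theorem app : ∃ (u₀ : ℕ) (K : ℝ), 0 < K ∧ ∀ (u : ℕ) (D : ℤ) (e Y E₀ : ℕ) (G : ℝ) (σ lm : ℕ → ℂ)
    (a : ℕ × ℤ → ℂ), u₀ ≤ u → Par u D e Y → G ^ 2 ≤ D → (∀ r, ‖σ r‖ ≤ 1) → (∀ p, ‖lm p‖ ≤ 1) →
    (∀ i, ‖a i‖ ≤ 1) →
    (∀ i ∈ Obu u D e Y G, a i ≠ 0 → #{i' ∈ Obu u D e Y G | a i' ≠ 0 ∧ col D e i i' = 0} ≤ E₀) →
    E₀ * Real.exp ((u : ℝ) ^ 98) ≤ 6 * Y →
    ‖inr D e G Y σ lm (lft u D e G a)‖ ≤ K * Y / (u : ℝ) ^ 60 := by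
  obtain ⟨u1, hU⟩ := se_U
  obtain ⟨u2, hL⟩ := se_L
  obtain ⟨u3, K3, hK3, hN⟩ := se_num
  obtain ⟨u4, K4, hK4, hS⟩ := om_small
  obtain ⟨K5, hK5, hB⟩ := om_big
  obtain ⟨C, hC, hP⟩ := se_pow 460
  refine ⟨u1 + u2 + u3 + u4 + 4, K3 + (K4 + K5 * (81 * C)), by positivity, ?_⟩
  intro u D e Y E₀ G σ lm a hu hp hG hσ hl ha hdeg hE
  obtain ⟨U1, U2⟩ := hU u D e Y G (by omega) hp hG
  obtain ⟨L1, L2, L3, L4⟩ := hL u D e Y (by omega) hp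
  have hu4 : (4 : ℝ) ≤ u := by exact_mod_cast (by omega : 4 ≤ u)
  have hu0 : (0 : ℝ) < u := by linarith
  have hY : (0 : ℝ) < Y := (Real.exp_pos _).trans_le hp.Y1
  have hY1 : (1 : ℝ) ≤ Y := by exact_mod_cast (Nat.cast_pos.1 hY)
  have hs : 1 ≤ 8 * u ^ 3 := Nat.mul_pos (by norm_num) (pow_pos (by omega) 3)
  have m1 := (app_mid (k₁ := u) (k₂ := 263) hp.e1 L2 hu4 L3 L4 L1 hs (by norm_num) U1 hσ hl ha U2
    hdeg).trans (hN u D e Y E₀ (by omega) hp hE)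
  have hF : ∀ g, ‖∑ ν ∈ Rt D e g, lft u D e G a g ν * trm e G σ lm g ν‖ ≤ #(Rt D e g) := fun g => by
    refine (norm_sum_le _ _).trans ((sum_le_card_nsmul _ _ 1 fun ν _ => ?_).trans (by simp))
    rw [norm_mul]
    exact mul_le_one₀ (ha _) (norm_nonneg _) (norm_trm G hσ hl g ν)
  have m2 := (sum_le_sum fun g _ => hF g).trans (hS u D e Y (by omega) hp)
  have m3 : ∑ g ∈ (Gq e Y).filter (fun g => u < #(g.primeFactors ∩ Qu u D e)),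
      ‖∑ ν ∈ Rt D e g, lft u D e G a g ν * trm e G σ lm g ν‖ ≤
        K5 * (81 * C) * Y / (u : ℝ) ^ 60 := by
    have b1 : 1 + Real.log Y ≤ 3 * (u : ℝ) ^ 100 := by
      have := (Real.log_le_iff_le_exp hY).2 hp.Y2
      have := one_le_pow₀ (n := 100) (by linarith : (1 : ℝ) ≤ u)
      linarith
    have b0 : 0 ≤ 1 + Real.log Y := by have := Real.log_nonneg hY1; linarith
    have b2 : K5 * (1 + Real.log Y) ^ 4 / 2 ^ u ≤ K5 * (81 * C) / (u : ℝ) ^ 60 := by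
      rw [div_le_div_iff₀ (by positivity) (by positivity), mul_assoc, mul_assoc, mul_assoc]
      refine mul_le_mul_of_nonneg_left ?_ hK5.le
      calc _ ≤ (3 * (u : ℝ) ^ 100) ^ 4 * (u : ℝ) ^ 60 := by gcongr
        _ = 81 * (u : ℝ) ^ 460 := by ring
        _ ≤ _ := mul_le_mul_of_nonneg_left (hP u) (by norm_num)
    calc _ ≤ ∑ g ∈ (Gq e Y).filter (fun g => u < #(g.primeFactors ∩ Qu u D e)),
          (#g.divisors : ℝ) / g * Y := by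
          refine sum_le_sum fun g hg => (hF g).trans ?_
          have hg' := (mem_filter.1 hg).1
          have h1 := mem_Icc.1 (mem_filter.1 hg').1
          have h2 : (0 : ℝ) < g := by exact_mod_cast h1.1
          have h3 : (g : ℝ) ≤ Y := by exact_mod_cast h1.2
          rw [div_mul_eq_mul_div, le_div_iff₀ h2]
          exact mul_le_mul (Nat.cast_le.2 (rt_card_tau hg' D)) h3 h2.le (Nat.cast_nonneg _)
      _ ≤ K5 * (1 + Real.log Y) ^ 4 / 2 ^ u * Y := by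
          rw [← sum_mul]
          refine mul_le_mul_of_nonneg_right (le_trans (sum_le_sum_of_subset_of_nonneg ?_
            fun _ _ _ => by positivity) (hB (Qu u D e) Y u)) hY.le
          intro g hg
          have h1 := mem_filter.1 hg
          have h2 := mem_filter.1 h1.1
          exact mem_filter.2 ⟨h2.1, h2.2.1, h1.2⟩
      _ ≤ _ := (mul_le_mul_of_nonneg_right b2 hY.le).trans_eq (mul_div_right_comm _ _ _).symm
  refine (se_split _ _ (fun g => #(g.primeFactors ∩ Qu u D e)) (2 * 263) u).trans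
    ((add_le_add m1 (add_le_add m2 m3)).trans_eq (by ring))

end

end Pool.Agent.MP_9f080f_an
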