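import Pool.Agent.MP_9f080f_an.Mg.G_SB
import Pool.Agent.MP_9f080f_an.Mg.G_SE

namespace Pool.Agent.MP_9f080f_an
open Complex Finset
open scoped Real

noncomputable section

/-! The case that `n C` is not a square.
`inr_nonsq`: `app` with `a = 1`, `E₀ = 1`: if `col D e i i' = 0` and `i'.1 ≠ i.1` then `D (c' - c)²` is a square, so `D` is a square
(`Int.sq_mul_squarefree`-free way: `(c'-c)² ∣ m²` gives `c' - c ∣ m`, `Int.pow_dvd_pow_iff`); so `i'.1 = i.1 ≥ 1` and then `i'.2 = i.2`.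
`sf_par`: `uu X ≤ (log X)^(1/100) < uu X + 1`, `ell n ^ (101/100) ≤ (log X)^(1/100)`, and `ell n → ∞`
(`ell n ≥ ℓ₀` for `n ≥ n₀`; `ℓ^(101/100) ≥ ℓ + 2` once `ℓ ≥ 3^100`); `exp (ell n + 1) = e² (1 + log n) ≥ log (2 n²)`; `X / e ≥ X/e - 1` (real division);
`(u+1)^100 ≤ 2 u^100` for `u ≥ 200`.
`aw_nonsq`: `red` with `N = n`, `Z = exp (u²)`, `B = K / u^60`; `ell n ^ 3 ≤ (log X)^(3/100)`, `u^(-60) ≤ 2^60 (log X)^(-60/100)`,
`Z^(-1/(12 ell n)) ≤ exp (-u/12)`, `1 + log X ≤ 3 u^100`, `exp (-u/12) u^160` is bounded. -/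

/-- the parameter attached to `X` -/
def uu (X : ℕ) : ℕ := ⌊Real.log X ^ (1 / 100 : ℝ)⌋₊

lemma sfa_sq {D a m : ℤ} (ha : a ≠ 0) (h : D * a ^ 2 = m ^ 2) : IsSquare D := by
  have hd : a ^ 2 ∣ m ^ 2 := ⟨D, by rw [← h]; ring⟩
  obtain ⟨k, hk⟩ := (Int.pow_dvd_pow_iff two_ne_zero).1 hd
  refine ⟨k, ?_⟩
  have h2 : a ^ 2 * D = a ^ 2 * (k * k) := by rw [mul_comm, h, hk]; ring
  exact mul_left_cancel₀ (pow_ne_zero 2 ha) h2

lemma sfa_col {D : ℤ} {e : ℕ} (he : 1 ≤ e) (hD : ¬IsSquare D) {i i' : ℕ × ℤ} (hi : 1 ≤ i.1)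
    (h : col D e i i' = 0) : i' = i := by
  unfold col at h
  have h1 : ((i'.1 : ℤ) - i.1) = 0 := by
    by_contra hne
    exact hD (sfa_sq (m := 2 * e * (i'.1 * i.2 - i.1 * i'.2)) hne (by linear_combination h))
  have h2 : i'.1 = i.1 := by omega
  rw [h1, h2] at h
  have he0 : (e : ℤ) ≠ 0 := by omega
  have hi0 : (i.1 : ℤ) ≠ 0 := by omega
  have h3 : (2 * (e : ℤ) * i.1 * (i.2 - i'.2)) ^ 2 = 0 := by linear_combination -h
  have h4 := pow_eq_zero_iff (two_ne_zero) |>.1 h3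
  have h5 : i.2 - i'.2 = 0 := by
    rcases mul_eq_zero.1 h4 with h6 | h6
    · exact absurd h6 (mul_ne_zero (mul_ne_zero two_ne_zero he0) hi0)
    · exact h6
  exact Prod.ext h2 (by omega)

theorem inr_nonsq : ∃ (u₀ : ℕ) (K : ℝ), 0 < K ∧ ∀ (u : ℕ) (D : ℤ) (e Y : ℕ) (G : ℝ) (σ lm : ℕ → ℂ),
    u₀ ≤ u → Par u D e Y → G ^ 2 ≤ D → ¬IsSquare D → (∀ r, ‖σ r‖ ≤ 1) → (∀ p, ‖lm p‖ ≤ 1) →
    ‖inr D e G Y σ lm (fun _ _ => 1)‖ ≤ K * Y / (u : ℝ) ^ 60 := by
  classical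
  obtain ⟨u₀, K, hK, H⟩ := app
  refine ⟨max u₀ 2, K, hK, fun u D e Y G σ lm hu hP hG hD hσ hl => ?_⟩
  have hu0 : u₀ ≤ u := le_trans (le_max_left _ _) hu
  have hu2 : (2 : ℝ) ≤ u := by exact_mod_cast le_trans (le_max_right _ _) hu
  have key := H u D e Y 1 G σ lm (fun _ => 1) hu0 hP hG hσ hl (fun _ => by simp) ?_ ?_
  · exact key
  · intro i hi _
    have hi1 : 1 ≤ i.1 := by
      unfold Obu Ob Gq at hi
      exact (mem_Icc.1 (mem_filter.1 (mem_product.1 (mem_filter.1 hi).1).1).1).1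
    refine card_le_one.2 fun a ha b hb => ?_
    rw [sfa_col hP.e1 hD hi1 (mem_filter.1 ha).2.2, sfa_col hP.e1 hD hi1 (mem_filter.1 hb).2.2]
  · have h1 : (u : ℝ) ^ 98 ≤ (u : ℝ) ^ 100 / 2 := by
      have h2 : (0 : ℝ) ≤ (u : ℝ) ^ 98 := by positivity
      have h3 : (2 : ℝ) ≤ (u : ℝ) ^ 2 := by nlinarith
      have h4 : (u : ℝ) ^ 100 = (u : ℝ) ^ 98 * (u : ℝ) ^ 2 := by ring
      rw [h4]
      nlinarith
    have h5 := (Real.exp_le_exp.2 h1).trans hP.Y1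
    have h6 : (0 : ℝ) ≤ Y := by positivity
    push_cast
    linarith

end

end Pool.Agent.MP_9f080f_an

namespace Pool.Agent.MP_9f080f_an
open Complex Finset
open scoped Real

noncomputable section

theorem sfb_ell_tendsto : Filter.Tendsto ell Filter.atTop Filter.atTop := by
  unfold ell
  refine Filter.tendsto_atTop_add_const_left _ _ ?_
  refine Real.tendsto_log_atTop.comp ?_
  refine Filter.tendsto_atTop_add_const_left _ _ ?_
  exact Real.tendsto_log_atTop.comp tendsto_natCast_atTop_atTop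

theorem sfb_pow_le (u : ℝ) (hu : 200 ≤ u) : (u + 1) ^ 100 ≤ 2 * u ^ 100 := by
  have hu0 : 0 < u := by linarith
  have h1 : u + 1 ≤ u * Real.exp (1 / u) := by
    have := Real.add_one_le_exp (1 / u)
    have h2 : u * (1 / u + 1) ≤ u * Real.exp (1 / u) := mul_le_mul_of_nonneg_left this hu0.le
    have h3 : u * (1 / u + 1) = u + 1 := by field_simp; ring
    linarith
  have h2 : (u + 1) ^ 100 ≤ (u * Real.exp (1 / u)) ^ 100 :=
    pow_le_pow_left₀ (by linarith) h1 100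
  have h3 : Real.exp (1 / u) ^ 100 ≤ 2 := by
    rw [← Real.exp_nat_mul]
    have h4 : ((100 : ℕ) : ℝ) * (1 / u) ≤ 1 / 2 := by
      rw [mul_one_div, div_le_div_iff₀ hu0 (by norm_num)]
      push_cast
      linarith
    have h5 : Real.exp (1 / 2) ≤ 2 := by
      have h6 : (1 / 2 : ℝ) ≤ Real.log 2 := by
        have := Real.log_two_gt_d9
        linarith
      calc Real.exp (1 / 2) ≤ Real.exp (Real.log 2) := Real.exp_le_exp.mpr h6
        _ = 2 := Real.exp_log (by norm_num)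
    exact (Real.exp_le_exp.mpr h4).trans h5
  rw [mul_pow] at h2
  have h4 : 0 ≤ u ^ 100 := by positivity
  nlinarith

theorem sfb_div (u : ℝ) (hu : 200 ≤ u) (X e : ℕ) (he : 1 ≤ e) (he2 : (e : ℝ) ≤ Real.exp (u ^ 2))
    (hX : Real.exp (u ^ 100) ≤ X) : Real.exp (u ^ 100 / 2) ≤ ((X / e : ℕ) : ℝ) := by
  have he0 : (0 : ℝ) < e := by exact_mod_cast he
  have h1 : (X : ℝ) < ((X / e : ℕ) + 1 : ℝ) * e := by
    have : X < (X / e + 1) * e := by
      have h := Nat.div_add_mod X e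
      have h' := Nat.mod_lt X (show 0 < e from he)
      nlinarith
    exact_mod_cast this
  have h2 : u ^ 100 / 2 + 1 + u ^ 2 ≤ u ^ 100 := by
    have h3 : u ^ 100 = u ^ 97 * u * u ^ 2 := by ring
    have h4 : 1 ≤ u ^ 97 := one_le_pow₀ (by linarith)
    have h5 : 1 ≤ u ^ 2 := one_le_pow₀ (by linarith)
    have h6 : 200 ≤ u ^ 97 * u := by nlinarith
    have h7 : 200 * u ^ 2 ≤ u ^ 97 * u * u ^ 2 := by nlinarith
    linarith
  have h3 : Real.exp (u ^ 100 / 2 + 1) * Real.exp (u ^ 2) ≤ X := by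
    rw [← Real.exp_add]
    exact (Real.exp_le_exp.mpr h2).trans hX
  have h4 : Real.exp (u ^ 100 / 2 + 1) * e ≤ X :=
    (mul_le_mul_of_nonneg_left he2 (Real.exp_pos _).le).trans h3
  have h5 : Real.exp (u ^ 100 / 2 + 1) < ((X / e : ℕ) + 1 : ℝ) :=
    lt_of_mul_lt_mul_right (h4.trans_lt h1) he0.le
  have h6 : Real.exp (u ^ 100 / 2) + 1 ≤ Real.exp (u ^ 100 / 2 + 1) := by
    rw [Real.exp_add]
    have h7 : (1 : ℝ) + 1 ≤ Real.exp 1 := Real.add_one_le_exp 1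
    have h8 : 1 ≤ Real.exp (u ^ 100 / 2) := Real.one_le_exp (by positivity)
    nlinarith
  linarith

theorem sf_par (u₀ : ℕ) : ∃ n₀ : ℕ, ∀ n C X : ℕ, n₀ ≤ n → 1 ≤ C → C ≤ 2 * n → 1 ≤ X →
    ell n ^ 101 ≤ Real.log X → u₀ ≤ uu X ∧ ell n + 1 ≤ uu X ∧ (uu X : ℝ) ^ 100 ≤ Real.log X ∧
      Real.log X ≤ 2 * (uu X : ℝ) ^ 100 ∧
      ∀ e : ℕ, 1 ≤ e → (e : ℝ) ≤ Real.exp ((uu X : ℝ) ^ 2) → Par (uu X) (n * C) e (X / e) := by
  obtain ⟨n₀, hn₀⟩ := Filter.eventually_atTop.mp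
    (sfb_ell_tendsto.eventually_ge_atTop ((3 : ℝ) ^ 100 + u₀ + 200))
  refine ⟨max n₀ 1, fun n C X hn hC hC2 hX hL => ?_⟩
  have hn1 : 1 ≤ n := le_trans (le_max_right _ _) hn
  have hl := hn₀ n (le_trans (le_max_left _ _) hn)
  have h3 : (0 : ℝ) < 3 ^ 100 := by positivity
  have hu0 : (0 : ℝ) ≤ u₀ := Nat.cast_nonneg _
  set l := ell n with hldef
  set L := Real.log X with hLdef
  have hl200 : 200 ≤ l := by linarith
  have hL0 : 0 ≤ L := le_trans (by positivity) hL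
  set t := L ^ (1 / 100 : ℝ) with htdef
  have ht0 : 0 ≤ t := Real.rpow_nonneg hL0 _
  have ht100 : t ^ 100 = L := by
    rw [htdef, ← Real.rpow_natCast, ← Real.rpow_mul hL0]
    norm_num
  have hlt : l + 2 ≤ t := by
    have h1 : (l + 2) ^ 100 ≤ t ^ 100 := by
      rw [ht100]
      have h2 : (l + 2) ^ 100 ≤ (3 * l) ^ 100 := pow_le_pow_left₀ (by linarith) (by linarith) 100
      have h4 : (3 * l) ^ 100 ≤ l ^ 101 := by
        rw [mul_pow, pow_succ' l 100]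
        exact mul_le_mul_of_nonneg_right (by linarith) (by positivity)
      linarith
    exact le_of_pow_le_pow_left₀ (by norm_num) ht0 h1
  have huu : uu X = ⌊t⌋₊ := rfl
  have hu1 : (uu X : ℝ) ≤ t := by rw [huu]; exact Nat.floor_le ht0
  have hu2 : t < (uu X : ℝ) + 1 := by rw [huu]; exact Nat.lt_floor_add_one t
  have hu3 : l + 1 ≤ (uu X : ℝ) := by linarith
  have hu200 : (200 : ℝ) ≤ uu X := by linarith
  have hA : (uu X : ℝ) ^ 100 ≤ L := by
    rw [← ht100]; exact pow_le_pow_left₀ (by linarith) hu1 100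
  have hB : L ≤ 2 * (uu X : ℝ) ^ 100 := by
    rw [← ht100]
    exact (pow_le_pow_left₀ ht0 hu2.le 100).trans (sfb_pow_le _ hu200)
  have hX0 : (0 : ℝ) < X := by exact_mod_cast hX
  have hXe : Real.exp L = X := Real.exp_log hX0
  refine ⟨?_, hu3, hA, hB, fun e he he2 => ⟨?_, ?_, he, he2, ?_, ?_⟩⟩
  · have : (u₀ : ℝ) ≤ uu X := by linarith
    exact_mod_cast this
  · have : 1 ≤ n * C := Nat.mul_pos hn1 hC
    exact_mod_cast this
  · have hn0 : (0 : ℝ) < n := by exact_mod_cast hn1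
    have hC0 : (0 : ℝ) < C := by exact_mod_cast hC
    have hC3 : (C : ℝ) ≤ 2 * n := by exact_mod_cast hC2
    have hlog : 0 ≤ Real.log n := Real.log_natCast_nonneg n
    have h1 : Real.log ((((n : ℤ) * (C : ℤ) : ℤ) : ℝ)) ≤ Real.log 2 + 2 * Real.log n := by
      push_cast
      rw [Real.log_mul hn0.ne' hC0.ne']
      have h2 : Real.log C ≤ Real.log (2 * n) := Real.log_le_log hC0 hC3
      rw [Real.log_mul (by norm_num) hn0.ne'] at h2
      linarith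
    have h2 : Real.exp (l + 1) = Real.exp 2 * (1 + Real.log n) := by
      rw [hldef, ell, show 1 + Real.log (1 + Real.log n) + 1 = 2 + Real.log (1 + Real.log n) by ring,
        Real.exp_add, Real.exp_log (by linarith)]
    have h4 : (2 : ℝ) + 1 ≤ Real.exp 2 := Real.add_one_le_exp 2
    have h5 : Real.log 2 ≤ 1 := by
      have := Real.log_two_lt_d9
      linarith
    have h6 : Real.exp (l + 1) ≤ Real.exp (uu X) := Real.exp_le_exp.mpr hu3
    have h7 : 3 * (1 + Real.log n) ≤ Real.exp 2 * (1 + Real.log n) :=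
      mul_le_mul_of_nonneg_right (by linarith) (by linarith)
    linarith
  · exact sfb_div _ hu200 X e he he2 (by rw [← hXe]; exact Real.exp_le_exp.mpr hA)
  · have h1 : ((X / e : ℕ) : ℝ) ≤ X := by exact_mod_cast Nat.div_le_self X e
    rw [← hXe] at h1
    exact h1.trans (Real.exp_le_exp.mpr hB)

end

end Pool.Agent.MP_9f080f_an

namespace Pool.Agent.MP_9f080f_an
open Complex Finset
open scoped Real

noncomputable section

theorem sf_bdd : ∃ K : ℝ, 0 < K ∧ ∀ u : ℝ, 0 ≤ u → Real.exp (-(u / 12)) * u ^ 160 ≤ K := by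
  obtain ⟨F, hF⟩ : ∃ F : ℝ, F = ((Nat.factorial 160 : ℕ) : ℝ) := ⟨_, rfl⟩
  have hF0 : 0 < F := by rw [hF]; exact_mod_cast Nat.factorial_pos 160
  obtain ⟨T, hT⟩ : ∃ T : ℝ, T = 12 ^ 160 := ⟨_, rfl⟩
  have hT0 : 0 < T := by rw [hT]; positivity
  refine ⟨T * F, mul_pos hT0 hF0, fun u hu => ?_⟩
  have h := Real.pow_div_factorial_le_exp (u / 12) (by positivity) 160
  rw [← hF, div_pow, ← hT, div_div, div_le_iff₀ (mul_pos hT0 hF0)] at h
  have he := Real.exp_pos (u / 12)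
  rw [Real.exp_neg, inv_mul_le_iff₀ he]
  exact h

theorem sf_pow {u L : ℝ} (hu : 1 ≤ u) (h1 : u ^ 100 ≤ L) (h2 : L ≤ 2 * u ^ 100) :
    1 / u ^ 57 ≤ 2 * L ^ (-57 / 100 : ℝ) := by
  have hu0 : 0 < u := by linarith
  have hL : 0 < L := lt_of_lt_of_le (pow_pos hu0 _) h1
  have a : L ^ (57 / 100 : ℝ) ≤ 2 * u ^ 57 := by
    calc L ^ (57 / 100 : ℝ) ≤ (2 * u ^ 100) ^ (57 / 100 : ℝ) :=
          Real.rpow_le_rpow hL.le h2 (by norm_num)
      _ = 2 ^ (57 / 100 : ℝ) * u ^ 57 := by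
          rw [Real.mul_rpow (by norm_num) (by positivity), ← Real.rpow_natCast u 100,
            ← Real.rpow_mul hu0.le, ← Real.rpow_natCast u 57]
          norm_num
      _ ≤ 2 * u ^ 57 := by
          refine mul_le_mul_of_nonneg_right ?_ (by positivity)
          calc (2 : ℝ) ^ (57 / 100 : ℝ) ≤ 2 ^ (1 : ℝ) :=
                Real.rpow_le_rpow_of_exponent_le (by norm_num) (by norm_num)
            _ = 2 := Real.rpow_one 2
  have b : 0 < L ^ (57 / 100 : ℝ) := Real.rpow_pos_of_pos hL _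
  rw [show (-57 / 100 : ℝ) = -(57 / 100) by norm_num, Real.rpow_neg hL.le, ← div_eq_mul_inv,
    div_le_div_iff₀ (by positivity) b]
  linarith

theorem aw_nonsq : ∃ (n₀ : ℕ) (K : ℝ), 0 < K ∧ ∀ (n C X : ℕ) (s : ℝ), n₀ ≤ n → 1 ≤ C → C ≤ 2 * n → 1 ≤ X →
    |s| ≤ 1 → ell n ^ 101 ≤ Real.log X → ¬IsSquare (n * C) →
    ‖Aw n C s X‖ ≤ K * X * Real.log X ^ (-57 / 100 : ℝ) := by
  obtain ⟨u₀, K₁, hK₁, h₁⟩ := inr_nonsq
  obtain ⟨n₀, h₂⟩ := sf_par u₀
  obtain ⟨K₂, hK₂, h₃⟩ := red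
  obtain ⟨K₃, hK₃, h₄⟩ := sf_bdd
  refine ⟨n₀, K₂ * (K₁ + 3 * K₃) * 2, by positivity, ?_⟩
  intro n C X s hn hC hC2 hX hs hl hsq
  obtain ⟨hu₀, hlu, hL1, hL2, hpar⟩ := h₂ n C X hn hC hC2 hX hl
  have hn1 : 1 ≤ n := by omega
  have hl1 : 1 ≤ ell n := by
    unfold ell
    have : 0 ≤ Real.log (n : ℝ) := Real.log_natCast_nonneg n
    have : 0 ≤ Real.log (1 + Real.log (n : ℝ)) := Real.log_nonneg (by linarith)
    linarith
  have hu1 : (1 : ℝ) ≤ uu X := by linarith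
  have hsq' : ¬IsSquare ((n : ℤ) * C) := by
    intro h
    apply hsq
    rw [← Int.isSquare_natCast_iff]
    exact_mod_cast h
  have hG : (s * √((n : ℝ) * C)) ^ 2 ≤ (((n : ℤ) * C : ℤ) : ℝ) := by
    have h0 : (0 : ℝ) ≤ (n : ℝ) * C := by positivity
    rw [mul_pow, Real.sq_sqrt h0]
    push_cast
    have : s ^ 2 ≤ 1 := by rw [← sq_abs]; exact pow_le_one₀ (abs_nonneg s) hs
    nlinarith
  have key := h₃ n C n X s (Real.exp ((uu X : ℝ) ^ 2)) (K₁ / (uu X : ℝ) ^ 60) hn1 hX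
    (Real.one_le_exp (by positivity)) (by positivity) (fun p _ h _ => h) (by
      intro e he heZ σ hσ
      have he1 : 1 ≤ e := by
        classical
        unfold Fu at he
        exact (mem_Icc.1 (mem_of_mem_filter e he)).1
      have := h₁ (uu X) ((n : ℤ) * C) e (X / e) (s * √((n : ℝ) * C)) σ (lamp n C) hu₀
        (hpar e he1 heZ) hG hsq' hσ (norm_lamp n C)
      refine this.trans (le_of_eq ?_)
      ring)
  refine key.trans ?_
  generalize (uu X : ℝ) = u at *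
  generalize Real.log (X : ℝ) = L at *
  generalize ell n = l at *
  have hu0 : 0 < u := by linarith
  have hZ : Real.exp (u ^ 2) ^ (-1 / (12 * l)) ≤ Real.exp (-(u / 12)) := by
    rw [← Real.exp_mul]
    apply Real.exp_le_exp.2
    rw [show u ^ 2 * (-1 / (12 * l)) = -(u ^ 2 / (12 * l)) by ring, neg_le_neg_iff,
      div_le_div_iff₀ (by norm_num) (by positivity)]
    nlinarith
  have hp : (1 : ℝ) ≤ u ^ 100 := one_le_pow₀ hu1
  have h5 : Real.exp (u ^ 2) ^ (-1 / (12 * l)) * (1 + L) ≤ 3 * K₃ / u ^ 60 := by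
    calc Real.exp (u ^ 2) ^ (-1 / (12 * l)) * (1 + L) ≤ Real.exp (-(u / 12)) * (3 * u ^ 100) :=
          mul_le_mul hZ (by linarith) (by linarith) (Real.exp_pos _).le
      _ ≤ 3 * K₃ / u ^ 60 := by
          rw [le_div_iff₀ (by positivity)]
          have := h₄ u hu0.le
          calc Real.exp (-(u / 12)) * (3 * u ^ 100) * u ^ 60
              = 3 * (Real.exp (-(u / 12)) * u ^ 160) := by ring
            _ ≤ 3 * K₃ := by linarith
  have h6 : l ^ 3 ≤ u ^ 3 := pow_le_pow_left₀ (by linarith) (by linarith) 3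
  have h7 := sf_pow hu1 hL1 hL2
  have hX0 : (0 : ℝ) ≤ K₂ * X := by positivity
  calc K₂ * X * l ^ 3 * (K₁ / u ^ 60 + Real.exp (u ^ 2) ^ (-1 / (12 * l)) * (1 + L))
      ≤ K₂ * X * u ^ 3 * (K₁ / u ^ 60 + 3 * K₃ / u ^ 60) := by
        refine mul_le_mul (mul_le_mul_of_nonneg_left h6 hX0) (by linarith) ?_ (by positivity)
        have : 0 ≤ Real.exp (u ^ 2) ^ (-1 / (12 * l)) * (1 + L) :=
          mul_nonneg (Real.rpow_nonneg (Real.exp_pos _).le _) (by linarith)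
        positivity
    _ = K₂ * X * (K₁ + 3 * K₃) * (1 / u ^ 57) := by
        field_simp
    _ ≤ K₂ * X * (K₁ + 3 * K₃) * (2 * L ^ (-57 / 100 : ℝ)) :=
        mul_le_mul_of_nonneg_left h7 (by positivity)
    _ = K₂ * (K₁ + 3 * K₃) * 2 * X * L ^ (-57 / 100 : ℝ) := by ring

end

end Pool.Agent.MP_9f080f_an
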