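import Pool.Agent.MP_9f080f_an.Mg.KBA
import Pool.Agent.MP_9f080f_an.Mg.G_SA

namespace Pool.Agent.MP_9f080f_an
open Complex Finset
open scoped Real

noncomputable section

/-! Sums with a Ramanujan type cancellation.
`ram_norm`: `V ↦ (a * iv V r) % r` permutes the residues prime to `r`, so the sum is `∑_{x < r, (x,r)=1} e(x/r) = μ(r)`:
write the indicator of coprimality as `∑_{d ∣ gcd x r} μ d` (`ArithmeticFunction.coe_moebius_mul_coe_zeta`, `sum_moebius`-type lemmas), the inner sums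
`∑_{y < r/d} e(y/(r/d))` vanish unless `d = r` (`pv_orth`).  (Alternatively work in `ZMod r` with units, or induct on `r` with `crt_sum`.)
`crt_sum`: a sum of a `q r`-periodic function over `q r` consecutive integers equals the sum over `range (q r)`
(`Nat.sum_Ico_periodic`-like: `Function.Periodic.map_mod_nat`, `Nat.filter_Ico_card_eq_of_periodic` style, or induction on `A`), and `V ↦ (V % q, V % r)` is a bijection
(`Nat.chineseRemainder`; compare `MP_d0fd9b_nt.Sieve`).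
`ramsum`: the `V ≤ Y/Γ` give at most `Y/Γ`.  Cut `Ioc ⌊Y/Γ⌋₊ Y` into at most `Y/(q r)` blocks of length `q r` and a rest of length `< q r`.  On a block starting at `A > Y/Γ`
replace `ep (τ/V)` by `ep (τ/A)`: `kb_ep_lip` gives the error `π |τ| (q r)/A² ≤ 4 π Γ³ q r / Y` per term; the main term is at most `q * 1` by `crt_sum`, `ram_norm`
(`iv` is periodic in `V`).
`ramsum_sq`: let `PP` be the primes `p ≤ z` with `p ∤ r`, `q' = q * ∏ p²  ≤ q * 16^z` (`primorial_le_four_pow`), `φ' V = if ∀ p ∈ PP, ¬ p² ∣ V then φ V else 0`.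
A number `V ≤ Y` prime to `r` with `φ' V ≠ 0` that is not squarefree is divisible by `m²` with `m > z`; there are at most `∑_{m > z} Y/m² ≤ Y/z` of them
(`sum_Ioc_inv_sq_le_sub`). -/

lemma sga_ind (V : ℕ) {r : ℕ} (hr : r ≠ 0) :
    ∑ d ∈ r.divisors.filter (· ∣ V), (ArithmeticFunction.moebius d : ℂ) =
      if V.Coprime r then 1 else 0 := by
  have e : r.divisors.filter (· ∣ V) = (V.gcd r).divisors := by
    ext d
    simp only [mem_filter, Nat.mem_divisors, Nat.dvd_gcd_iff, ne_eq, Nat.gcd_eq_zero_iff]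
    tauto
  have h := congrArg (fun f : ArithmeticFunction ℂ => f (V.gcd r))
    (ArithmeticFunction.coe_moebius_mul_coe_zeta (R := ℂ))
  simp only [ArithmeticFunction.coe_mul_zeta_apply, ArithmeticFunction.one_apply,
    ArithmeticFunction.intCoe_apply] at h
  rw [e, h]

lemma sga_inner {d e : ℕ} (hd : 0 < d) (he : 0 < e) :
    ∑ V ∈ (range (d * e)).filter (d ∣ ·), ep (2 * (V : ℂ) / (d * e : ℕ)) =
      if e = 1 then 1 else 0 := by
  have h1 : (range (d * e)).filter (d ∣ ·) = (range e).image (d * ·) := by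
    ext V
    simp only [mem_filter, mem_range, mem_image]
    constructor
    · rintro ⟨h, y, rfl⟩
      exact ⟨y, lt_of_mul_lt_mul_left h d.zero_le, rfl⟩
    · rintro ⟨y, h, rfl⟩
      exact ⟨Nat.mul_lt_mul_of_pos_left h hd, y, rfl⟩
  have hd' : (d : ℂ) ≠ 0 := by exact_mod_cast hd.ne'
  have h2 := pv_orth he 1
  rw [h1, sum_image fun x _ y _ h => Nat.eq_of_mul_eq_mul_left hd h]
  have h3 : ∀ y : ℕ, ep (2 * ((d * y : ℕ) : ℂ) / (d * e : ℕ)) = ep (2 * y * ((1 : ℤ) : ℂ) / e) :=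
    fun y => by
      congr 1
      push_cast
      rw [mul_left_comm, mul_div_mul_left _ _ hd', mul_one]
  simp only [h3, h2]
  by_cases h : e = 1
  · simp [h]
  · rw [if_neg h, if_neg]
    intro h'
    exact h (Nat.dvd_one.1 (by exact_mod_cast h'))

lemma sga_ram {r : ℕ} (hr : 1 ≤ r) :
    ∑ V ∈ (range r).filter (fun V => V.Coprime r), ep (2 * (V : ℂ) / r) =
      ArithmeticFunction.moebius r := by
  have hr0 : r ≠ 0 := by omega
  calc _ = ∑ V ∈ range r, ∑ d ∈ r.divisors,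
        if d ∣ V then (ArithmeticFunction.moebius d : ℂ) * ep (2 * (V : ℂ) / r) else 0 := by
        rw [sum_filter]
        refine sum_congr rfl fun V _ => ?_
        rw [← sum_filter, ← sum_mul, sga_ind V hr0]
        split_ifs <;> simp
    _ = ∑ d ∈ r.divisors, if d = r then (ArithmeticFunction.moebius d : ℂ) else 0 := by
        rw [sum_comm]
        refine sum_congr rfl fun d hd => ?_
        obtain ⟨e, rfl⟩ := Nat.dvd_of_mem_divisors hd
        have hd0 : 0 < d := Nat.pos_of_mem_divisors hd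
        have he0 : 0 < e := Nat.pos_of_mul_pos_left hr
        rw [← sum_filter, ← mul_sum, sga_inner hd0 he0]
        by_cases h : e = 1
        · simp [h]
        · rw [if_neg h, if_neg, mul_zero]
          intro h'
          exact h (Nat.eq_of_mul_eq_mul_left hd0 (by rw [← h', mul_one]))
    _ = _ := by rw [sum_ite_eq', if_pos (Nat.mem_divisors_self r hr0)]

lemma sga_ep {r : ℕ} [NeZero r] (z : ℤ) :
    ep (2 * (z : ℂ) / r) = ep (2 * ((z : ZMod r).val : ℂ) / r) := by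
  have hr : (r : ℂ) ≠ 0 := by exact_mod_cast NeZero.ne r
  have h : (z : ℂ) = ((z : ZMod r).val : ℂ) + r * (z / r : ℤ) := by
    have h1 := ZMod.val_intCast (n := r) z
    have h2 := Int.emod_add_mul_ediv z r
    rw [← h1] at h2
    exact_mod_cast h2.symm
  conv_lhs => rw [h, mul_add, add_div, ep_add, mul_left_comm, mul_div_cancel_left₀ _ hr,
    ep_two_int, mul_one]

theorem ram_norm {r : ℕ} (hr : 1 ≤ r) {a : ℤ} (ha : IsCoprime a r) :
    ‖∑ V ∈ (range r).filter (fun V => V.Coprime r), ep (2 * ((a * iv V r : ℤ) : ℂ) / r)‖ ≤ 1 := by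
  have : NeZero r := ⟨by omega⟩
  have hu : IsUnit (a : ZMod r) := (ZMod.coe_int_isUnit_iff_isCoprime a r).2 ha.symm
  have h1 : ∀ V ∈ (range r).filter (fun V => V.Coprime r),
      ((a : ZMod r) * (V : ZMod r)⁻¹).val ∈ (range r).filter (fun V => V.Coprime r) := by
    intro V hV
    refine mem_filter.2 ⟨mem_range.2 (ZMod.val_lt _), ?_⟩
    rw [← ZMod.isUnit_iff_coprime, ZMod.natCast_zmod_val]
    exact hu.mul (IsUnit.of_mul_eq_one _
      (ZMod.inv_mul_of_unit _ ((ZMod.isUnit_iff_coprime V r).2 (mem_filter.1 hV).2)))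
  have h2 : ∀ V ∈ (range r).filter (fun V => V.Coprime r),
      ((a : ZMod r) * ((((a : ZMod r) * (V : ZMod r)⁻¹).val : ℕ) : ZMod r)⁻¹).val = V := by
    intro V hV
    have hv := ZMod.inv_mul_of_unit _ ((ZMod.isUnit_iff_coprime V r).2 (mem_filter.1 hV).2)
    have hi := ZMod.mul_inv_of_unit _ hu
    rw [ZMod.natCast_zmod_val, ZMod.inv_eq_of_mul_eq_one r _ ((a : ZMod r)⁻¹ * V)
      (by rw [mul_mul_mul_comm, hi, hv, mul_one]), ← mul_assoc, hi, one_mul,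
      ZMod.val_cast_of_lt (mem_range.1 (mem_filter.1 hV).1)]
  rw [sum_nbij' (g := fun V : ℕ => ep (2 * (V : ℂ) / r))
    (fun V : ℕ => ((a : ZMod r) * (V : ZMod r)⁻¹).val)
    (fun V : ℕ => ((a : ZMod r) * (V : ZMod r)⁻¹).val) h1 h1 h2 h2 fun V _ => ?_, sga_ram hr, Complex.norm_intCast]
  · exact_mod_cast ArithmeticFunction.abs_moebius_le_one
  · rw [sga_ep, iv]
    simp only [Int.cast_mul, Int.cast_natCast, ZMod.natCast_zmod_val]

lemma sga_shift {F : ℕ → ℂ} {n : ℕ} (hF : ∀ V, F (V + n) = F V) (A : ℕ) :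
    ∑ V ∈ Ico A (A + n), F V = ∑ V ∈ range n, F V := by
  induction A with
  | zero => rw [zero_add, range_eq_Ico]
  | succ A ih =>
    have h1 := sum_Ico_succ_top (Nat.le_add_right A n) F
    have h2 := sum_eq_sum_Ico_succ_bot (show A < A + n + 1 by omega) F
    rw [h2, hF, ih, add_comm] at h1
    rw [add_right_comm]
    exact add_right_cancel h1

theorem crt_sum {q r : ℕ} (h : q.Coprime r) {φ ψ : ℕ → ℂ} (hφ : ∀ V, φ (V + q) = φ V)
    (hψ : ∀ V, ψ (V + r) = ψ V) (A : ℕ) :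
    ∑ V ∈ Ico A (A + q * r), φ V * ψ V = (∑ V ∈ range q, φ V) * ∑ V ∈ range r, ψ V := by
  have pφ : Function.Periodic φ q := hφ
  have pψ : Function.Periodic ψ r := hψ
  rw [sga_shift (F := fun V => φ V * ψ V) fun V => by
    rw [show φ (V + q * r) = φ V from mul_comm r q ▸ pφ.nat_mul r V,
      show ψ (V + q * r) = ψ V from pψ.nat_mul q V], sum_mul_sum, ← sum_product']
  have h1 : ∀ V ∈ range (q * r), (V % q, V % r) ∈ range q ×ˢ range r := fun V hV => by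
    have h0 : 0 < q * r := (Nat.zero_le V).trans_lt (mem_range.1 hV)
    exact mem_product.2 ⟨mem_range.2 (Nat.mod_lt _ (Nat.pos_of_mul_pos_right h0)),
      mem_range.2 (Nat.mod_lt _ (Nat.pos_of_mul_pos_left h0))⟩
  have h2 : Set.InjOn (fun V => (V % q, V % r)) (range (q * r) : Finset ℕ) := fun V hV W hW e =>
    Nat.ModEq.eq_of_lt_of_lt ((Nat.modEq_and_modEq_iff_modEq_mul h).1 (Prod.mk.inj e))
      (mem_range.1 hV) (mem_range.1 hW)
  refine sum_nbij (fun V => (V % q, V % r)) h1 h2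
    (surjOn_of_injOn_of_card_le _ h1 h2 (by simp)) fun V _ => ?_
  rw [pφ.map_mod_nat, pψ.map_mod_nat]

end

end Pool.Agent.MP_9f080f_an

namespace Pool.Agent.MP_9f080f_an
open Complex Finset
open scoped Real

noncomputable section

lemma sgb_triv {f : ℕ → ℂ} (hf : ∀ V, ‖f V‖ ≤ 1) (A B : ℕ) :
    ‖∑ V ∈ Ico A B, f V‖ ≤ ((B - A : ℕ) : ℝ) := by
  refine (norm_sum_le _ _).trans ((sum_le_card_nsmul _ _ 1 fun V _ => hf V).trans ?_)
  rw [Nat.card_Ico, nsmul_eq_mul, mul_one]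

lemma sgb_blocks {f g : ℕ → ℂ} {L A₀ : ℕ} {B ε : ℝ} (hf : ∀ V, ‖f V‖ ≤ 1) (hg : ∀ V, ‖g V‖ ≤ 1)
    (hB : ∀ A, ‖∑ V ∈ Ico A (A + L), f V‖ ≤ B)
    (hε : ∀ A, A₀ ≤ A → ∀ V ∈ Ico A (A + L), ‖g V - g A‖ ≤ ε) (n : ℕ) :
    ‖∑ V ∈ Ico A₀ (A₀ + n * L), f V * g V‖ ≤ n * (B + L * ε) := by
  induction n with
  | zero => simp
  | succ n ih =>
    rw [← sum_Ico_consecutive _ (Nat.le_add_right A₀ (n * L))
      (by rw [add_mul]; omega), add_mul n 1 L, one_mul, ← add_assoc]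
    set A := A₀ + n * L
    have e : ∑ V ∈ Ico A (A + L), f V * g V = (∑ V ∈ Ico A (A + L), f V) * g A +
        ∑ V ∈ Ico A (A + L), f V * (g V - g A) := by
      rw [sum_mul, ← sum_add_distrib]
      exact sum_congr rfl fun V _ => by ring
    have h1 : ‖(∑ V ∈ Ico A (A + L), f V) * g A‖ ≤ B := by
      rw [norm_mul]
      exact (mul_le_of_le_one_right (norm_nonneg _) (hg A)).trans (hB A)
    have h2 : ‖∑ V ∈ Ico A (A + L), f V * (g V - g A)‖ ≤ L * ε := by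
      refine (norm_sum_le _ _).trans ((sum_le_card_nsmul _ _ ε fun V hV => ?_).trans ?_)
      · rw [norm_mul]
        exact (mul_le_of_le_one_left (norm_nonneg _) (hf V)).trans
          (hε A (Nat.le_add_right _ _) V hV)
      · rw [Nat.card_Ico, Nat.add_sub_cancel_left, nsmul_eq_mul]
    have h3 := norm_add_le (∑ V ∈ Ico A₀ A, f V * g V) (∑ V ∈ Ico A (A + L), f V * g V)
    have h4 := (e ▸ norm_add_le _ _ : ‖∑ V ∈ Ico A (A + L), f V * g V‖ ≤ _)
    push_cast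
    linarith

lemma sgb_lip {Γ τ Y L A V : ℝ} (hΓ : 1 ≤ Γ) (hY : 0 < Y) (hτ : |τ| ≤ 4 * Γ * Y)
    (hA : Y / Γ ≤ A) (h1 : A ≤ V) (h2 : V ≤ A + L) : |τ / V - τ / A| ≤ 4 * Γ ^ 3 * L / Y := by
  have g0 : 0 < Γ := by linarith
  have c0 : 0 < Y / Γ := by positivity
  have a0 : 0 < A := c0.trans_le hA
  have v0 : 0 < V := a0.trans_le h1
  have l0 : 0 ≤ V - A := by linarith
  have l1 : V - A ≤ L := by linarith
  have l2 : 0 ≤ L := l0.trans l1
  have e : τ / V - τ / A = -(τ * ((V - A) / (V * A))) := by field_simp; ring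
  rw [e, abs_neg, abs_mul, abs_of_nonneg (by positivity : 0 ≤ (V - A) / (V * A))]
  calc _ ≤ 4 * Γ * Y * (L / (Y / Γ * (Y / Γ))) := by
        gcongr
        exact hA.trans h1
    _ = _ := by field_simp

theorem ramsum {q r Y : ℕ} (hq : 1 ≤ q) (hr : 1 ≤ r) (h : q.Coprime r) {a : ℤ} (ha : IsCoprime a r)
    {φ : ℕ → ℂ} (hφ : ∀ V, φ (V + q) = φ V) (hφ1 : ∀ V, ‖φ V‖ ≤ 1) {Γ τ : ℝ} (hΓ : 1 ≤ Γ)
    (hτ : |τ| ≤ 4 * Γ * Y) :
    ‖∑ V ∈ (Icc 1 Y).filter (fun V => V.Coprime r),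
        φ V * ep (2 * ((a * iv V r : ℤ) : ℂ) / r) * ep ((τ / V : ℝ) : ℂ)‖ ≤
      Y / r + Y / Γ + q * r * (1 + 4 * π * Γ ^ 3) := by
  have g0 : 0 < Γ := by linarith
  rcases Nat.eq_zero_or_pos Y with rfl | hY
  · simp only [zero_lt_one, Icc_eq_empty_of_lt, filter_empty, sum_empty, norm_zero]
    positivity
  have y0 : (0 : ℝ) < Y := Nat.cast_pos.2 hY
  have q0 : (0 : ℝ) < q := Nat.cast_pos.2 hq
  have r0 : (0 : ℝ) < r := Nat.cast_pos.2 hr
  set ψ : ℕ → ℂ := fun V => if V.Coprime r then ep (2 * ((a * iv V r : ℤ) : ℂ) / r) else 0 with hψ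
  have p1 : ∀ V, ψ (V + r) = ψ V := fun V => by
    simp only [hψ, Nat.coprime_add_self_left, iv, Nat.cast_add, Int.cast_natCast,
      ZMod.natCast_self, add_zero]
  have p2 : ∀ V, ‖ψ V‖ ≤ 1 := fun V => by
    simp only [hψ]
    split_ifs
    · rw [show 2 * ((a * iv V r : ℤ) : ℂ) / r = ((2 * ((a * iv V r : ℤ) : ℝ) / r : ℝ) : ℂ) by
        push_cast; rfl, norm_ep_real]
    · rw [norm_zero]; exact zero_le_one
  have p3 : ∀ V, ‖φ V * ψ V‖ ≤ 1 := fun V => by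
    rw [norm_mul]
    exact mul_le_one₀ (hφ1 V) (norm_nonneg _) (p2 V)
  have p4 : ∀ V : ℕ, ‖φ V * ψ V * ep ((τ / V : ℝ) : ℂ)‖ ≤ 1 := fun V => by
    rw [norm_mul, norm_ep_real, mul_one]
    exact p3 V
  have p5 : ∀ A, ‖∑ V ∈ Ico A (A + q * r), φ V * ψ V‖ ≤ q := fun A => by
    rw [crt_sum h hφ p1, norm_mul, hψ, ← sum_filter]
    refine (mul_le_of_le_one_right (norm_nonneg _) (ram_norm hr ha)).trans ?_
    rw [range_eq_Ico]
    exact sgb_triv hφ1 0 q
  have e : ∑ V ∈ (Icc 1 Y).filter (fun V => V.Coprime r),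
      φ V * ep (2 * ((a * iv V r : ℤ) : ℂ) / r) * ep ((τ / V : ℝ) : ℂ) =
      ∑ V ∈ Ico 1 (Y + 1), φ V * ψ V * ep ((τ / V : ℝ) : ℂ) := by
    rw [sum_filter]
    refine sum_congr rfl fun V _ => ?_
    simp only [hψ]
    split_ifs
    · rfl
    · rw [mul_zero, zero_mul]
  obtain ⟨m, hm⟩ : ∃ m, m = ⌊(Y : ℝ) / Γ⌋₊ := ⟨_, rfl⟩
  have m1 : (m : ℝ) ≤ Y / Γ := hm ▸ Nat.floor_le (by positivity)
  have m2 : (Y : ℝ) / Γ ≤ ((m + 1 : ℕ) : ℝ) := by
    rw [Nat.cast_succ, hm]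
    exact (Nat.lt_floor_add_one _).le
  have m3 : m ≤ Y := Nat.cast_le.1 (m1.trans (div_le_self y0.le hΓ))
  obtain ⟨n, hn⟩ : ∃ n, n = (Y - m) / (q * r) := ⟨_, rfl⟩
  have n1 : n * (q * r) ≤ Y - m := hn ▸ Nat.div_mul_le_self _ _
  have n2 : Y - m < n * (q * r) + q * r := hn ▸ Nat.lt_div_mul_add (Nat.mul_pos hq hr)
  have n3 : (n : ℝ) * (q * r) ≤ Y := by exact_mod_cast n1.trans (Nat.sub_le _ _)
  have b1 := sgb_triv p4 1 (m + 1)
  have b2 := sgb_blocks (g := fun V : ℕ => ep ((τ / V : ℝ) : ℂ)) (A₀ := m + 1)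
    (ε := π * (4 * Γ ^ 3 * (q * r : ℕ) / Y)) p3 (fun V => (norm_ep_real _).le) p5
    (fun A hA V hV => (kb_ep_lip _ _).trans (mul_le_mul_of_nonneg_left
      (sgb_lip hΓ y0 hτ (m2.trans (Nat.cast_le.2 hA)) (Nat.cast_le.2 (mem_Ico.1 hV).1)
        (by exact_mod_cast (mem_Ico.1 hV).2.le)) Real.pi_pos.le)) n
  have b3 := (sgb_triv p4 (m + 1 + n * (q * r)) (Y + 1)).trans
    (Nat.cast_le.2 (by omega : Y + 1 - (m + 1 + n * (q * r)) ≤ q * r))
  have b4 : (n : ℝ) * q ≤ Y / r := by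
    rw [le_div_iff₀ r0, mul_assoc]
    exact n3
  have b5 : (n : ℝ) * (q * r * (π * (4 * Γ ^ 3 * (q * r) / Y))) ≤ q * r * (4 * π * Γ ^ 3) := by
    calc _ = n * (q * r) * (π * (4 * Γ ^ 3 * (q * r) / Y)) := by ring
      _ ≤ Y * (π * (4 * Γ ^ 3 * (q * r) / Y)) := mul_le_mul_of_nonneg_right n3 (by positivity)
      _ = _ := by field_simp
  rw [e, ← sum_Ico_consecutive _ (by omega : 1 ≤ m + 1) (by omega : m + 1 ≤ Y + 1),
    ← sum_Ico_consecutive _ (Nat.le_add_right (m + 1) (n * (q * r)))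
      (by omega : m + 1 + n * (q * r) ≤ Y + 1)]
  rw [Nat.add_sub_cancel] at b1
  refine (norm_add_le_of_le b1 (norm_add_le_of_le b2 b3)).trans ?_
  push_cast
  linarith

end

end Pool.Agent.MP_9f080f_an

namespace Pool.Agent.MP_9f080f_an
open Complex Finset
open scoped Real

noncomputable section

lemma sg_bad {Y z : ℕ} (hz : 1 ≤ z) :
    (#((Icc 1 Y).filter fun V => ∃ m ∈ Ioc z Y, m ^ 2 ∣ V) : ℝ) ≤ Y / z := by
  have h1 : (Icc 1 Y).filter (fun V => ∃ m ∈ Ioc z Y, m ^ 2 ∣ V) ⊆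
      (Ioc z Y).biUnion fun m => (Ioc 0 Y).filter fun V => m ^ 2 ∣ V := by
    intro V hV
    obtain ⟨h, m, hm, hd⟩ := mem_filter.1 hV
    exact mem_biUnion.2 ⟨m, hm, mem_filter.2 ⟨h, hd⟩⟩
  have h2 := (card_le_card h1).trans card_biUnion_le
  simp only [Nat.Ioc_filter_dvd_card_eq_div] at h2
  have h3 : (#((Icc 1 Y).filter fun V => ∃ m ∈ Ioc z Y, m ^ 2 ∣ V) : ℝ) ≤
      ∑ m ∈ Ioc z Y, (Y : ℝ) * ((m : ℝ) ^ 2)⁻¹ := by
    refine le_trans (by exact_mod_cast h2 : _ ≤ ∑ m ∈ Ioc z Y, ((Y / m ^ 2 : ℕ) : ℝ))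
      (sum_le_sum fun m _ => ?_)
    have := Nat.cast_div_le (α := ℝ) (m := Y) (n := m ^ 2)
    rwa [Nat.cast_pow, div_eq_mul_inv] at this
  refine h3.trans ?_
  rw [← mul_sum, div_eq_mul_inv]
  refine mul_le_mul_of_nonneg_left ?_ Y.cast_nonneg
  rcases le_total z Y with h | h
  · have := sum_Ioc_inv_sq_le_sub (α := ℝ) (by omega : z ≠ 0) h
    have h0 : (0 : ℝ) ≤ (Y : ℝ)⁻¹ := by positivity
    linarith
  · rw [Ioc_eq_empty (by omega), sum_empty]
    positivity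

theorem ramsum_sq {q r Y z : ℕ} (hq : 1 ≤ q) (hr : 1 ≤ r) (hz : 1 ≤ z) (h : q.Coprime r) {a : ℤ}
    (ha : IsCoprime a r) {φ : ℕ → ℂ} (hφ : ∀ V, φ (V + q) = φ V) (hφ1 : ∀ V, ‖φ V‖ ≤ 1) {Γ τ : ℝ}
    (hΓ : 1 ≤ Γ) (hτ : |τ| ≤ 4 * Γ * Y) :
    ‖∑ V ∈ (Icc 1 Y).filter (fun V => Squarefree V ∧ V.Coprime r),
        φ V * ep (2 * ((a * iv V r : ℤ) : ℂ) / r) * ep ((τ / V : ℝ) : ℂ)‖ ≤
      Y / r + Y / Γ + Y / z + q * 16 ^ z * r * (1 + 4 * π * Γ ^ 3) := by
  classical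
  set PP := (range (z + 1)).filter fun p => p.Prime ∧ ¬p ∣ r with hPP
  set M := ∏ p ∈ PP, p with hM
  have hM0 : 0 < M := prod_pos fun p hp => (mem_filter.1 hp).2.1.pos
  have hM1 : M ≤ 4 ^ z := by
    refine le_trans ?_ (primorial_le_four_pow z)
    refine Nat.le_of_dvd (primorial_pos z) (prod_dvd_prod_of_subset _ _ _ fun p hp => ?_)
    exact mem_filter.2 ⟨(mem_filter.1 hp).1, (mem_filter.1 hp).2.1⟩
  have hMr : M.Coprime r := Nat.Coprime.prod_left fun p hp =>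
    (Nat.Prime.coprime_iff_not_dvd (mem_filter.1 hp).2.1).2 (mem_filter.1 hp).2.2
  set ψ : ℕ → ℂ := fun V => if ∀ p ∈ PP, ¬p ^ 2 ∣ V then φ V else 0 with hψ
  have hper : ∀ k V, φ (V + q * k) = φ V := by
    intro k
    induction k with
    | zero => simp
    | succ k ih => intro V; rw [Nat.mul_succ, ← add_assoc, hφ, ih]
  have hψp : ∀ V, ψ (V + q * M ^ 2) = ψ V := by
    intro V
    have : (∀ p ∈ PP, ¬p ^ 2 ∣ V + q * M ^ 2) ↔ ∀ p ∈ PP, ¬p ^ 2 ∣ V :=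
      forall₂_congr fun p hp => not_congr (Nat.dvd_add_iff_left
        (Dvd.dvd.mul_left (pow_dvd_pow_of_dvd (dvd_prod_of_mem _ hp) 2) q)).symm
    simp only [hψ, this, hper]
  have hψ1 : ∀ V, ‖ψ V‖ ≤ 1 := by
    intro V
    simp only [hψ]
    split_ifs
    exacts [hφ1 V, by simp]
  have key := ramsum (Y := Y) (Nat.mul_pos hq (pow_pos hM0 2)) hr (Nat.Coprime.mul_left h (hMr.pow_left 2)) ha
    hψp hψ1 hΓ hτ
  set T : ℕ → ℂ := fun V => ep (2 * ((a * iv V r : ℤ) : ℂ) / r) * ep ((τ / V : ℝ) : ℂ) with hT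
  have hT1 : ∀ V, ‖T V‖ = 1 := by
    intro V
    have e1 : (2 * ((a * iv V r : ℤ) : ℂ) / r) = ((2 * ((a * iv V r : ℤ) : ℝ) / r : ℝ) : ℂ) := by
      push_cast; rfl
    simp only [hT]
    rw [norm_mul, e1, norm_ep_real, norm_ep_real, mul_one]
  simp only [mul_assoc (φ _), mul_assoc (ψ _)] at key ⊢
  change ‖∑ V ∈ _, ψ V * T V‖ ≤ _ at key
  change ‖∑ V ∈ _, φ V * T V‖ ≤ _
  have hsplit := sum_filter_add_sum_filter_not ((Icc 1 Y).filter fun V => V.Coprime r) Squarefree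
    fun V => ψ V * T V
  have e2 : ∑ V ∈ ((Icc 1 Y).filter fun V => V.Coprime r).filter Squarefree, ψ V * T V =
      ∑ V ∈ (Icc 1 Y).filter (fun V => Squarefree V ∧ V.Coprime r), φ V * T V := by
    rw [filter_filter]
    refine sum_congr (filter_congr fun V _ => and_comm) fun V hV => ?_
    have hs := (mem_filter.1 hV).2.1
    simp only [hψ]
    rw [if_pos]
    intro p hp hd
    exact (mem_filter.1 hp).2.1.prime.not_isUnit (hs p (by rwa [← sq]))
  have e3 : ‖∑ V ∈ ((Icc 1 Y).filter fun V => V.Coprime r).filter (fun V => ¬Squarefree V), ψ V * T V‖ ≤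
      Y / z := by
    refine (norm_sum_le _ _).trans (le_trans ?_ (sg_bad hz))
    rw [card_filter]
    push_cast
    refine le_trans (sum_le_sum fun V hV => ?_) (sum_le_sum_of_subset_of_nonneg
      ((filter_subset _ _).trans (filter_subset _ _)) fun V _ _ => by split_ifs <;> norm_num)
    rw [norm_mul, hT1, mul_one]
    obtain ⟨hV1, hV2⟩ := mem_filter.1 hV
    obtain ⟨hV3, hV4⟩ := mem_filter.1 hV1
    by_cases hb : ∃ m ∈ Ioc z Y, m ^ 2 ∣ V
    · rw [if_pos hb]; exact hψ1 V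
    · rw [if_neg hb]
      obtain ⟨p, hp, hd⟩ : ∃ p : ℕ, p.Prime ∧ p * p ∣ V := by
        by_contra hc
        exact hV2 (Nat.squarefree_iff_prime_squarefree.2 fun p hp hd => hc ⟨p, hp, hd⟩)
      have hpV : p ∣ V := Dvd.dvd.trans (dvd_mul_right p p) hd
      have hV5 := mem_Icc.1 hV3
      have hpz : p ≤ z := by
        by_contra hlt
        exact hb ⟨p, mem_Ioc.2 ⟨by omega, (Nat.le_of_dvd hV5.1 hpV).trans hV5.2⟩, by rwa [sq]⟩
      have hpP : p ∈ PP := mem_filter.2 ⟨mem_range.2 (by omega), hp, fun hpr =>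
        hp.one_lt.ne' (Nat.eq_one_of_dvd_coprimes hV4 hpV hpr)⟩
      simp only [hψ]
      rw [if_neg fun hall => hall p hpP (by rwa [sq]), norm_zero]
  have e4 : ((q * M ^ 2 : ℕ) : ℝ) ≤ q * 16 ^ z := by
    have : M ^ 2 ≤ 16 ^ z := by
      rw [show (16 : ℕ) = 4 ^ 2 by norm_num, ← pow_mul, mul_comm, pow_mul]
      exact Nat.pow_le_pow_left hM1 2
    exact_mod_cast Nat.mul_le_mul_left q this
  have e5 : ((q * M ^ 2 : ℕ) : ℝ) * r * (1 + 4 * π * Γ ^ 3) ≤ q * 16 ^ z * r * (1 + 4 * π * Γ ^ 3) := by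
    have := Real.pi_pos
    have hΓ0 : 0 < Γ := by linarith
    exact mul_le_mul_of_nonneg_right (mul_le_mul_of_nonneg_right e4 r.cast_nonneg) (by positivity)
  rw [← e2, eq_sub_of_add_eq hsplit]
  refine (norm_sub_le _ _).trans ?_
  linarith

end

end Pool.Agent.MP_9f080f_an
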