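import Pool.Agent.MP_9f080f_an.Mg.G_SF
import Pool.Agent.MP_9f080f_an.Mg.G_SG

namespace Pool.Agent.MP_9f080f_an
open Complex Finset
open scoped Real

noncomputable section

/-! The square case `D = g²`, part one: the terms with a Ramanujan type cancellation.
`lam_per`: let `d = gcd n C`, `n = d a²`, `C = d b²` (the coprime numbers `n/d`, `C/d` have square product: `Nat.sq_mul_squarefree`-free way `Int.sq_of_isCoprime`,
`Nat.eq_sq_of_mul_eq_sq`, or `exists_associated_pow_of_mul_eq_pow`; the case `n = 0` is direct).  Then `lamp n C p = J(d | p)` for every odd prime `p`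
(`jacobiSym.mul_left`, `jacobiSym.sq_one'`, `jacobiSym.eq_zero_iff_not_coprime`), the product over the primes of `V` is `J(d | V)` (`jacobiSym.mul_right`, induction),
and `χ V = if Odd V then J(d | V) else 0` has period `4 d ∣ 4 C` (`jacobiSym.mod_right'`).
`rtv_spec`: `iv_mul`.  `ram_reidx`: `(r, V) ↦ (r V, rtv e g r V)`, with inverse `(m, ν) ↦ (∏ p ∣ m with p ∤ 2eν + g, ∏ p ∣ m with p ∣ 2eν + g)`; every prime
`p ∣ m` divides `(2eν + g)(2eν - g)`; a root is determined by its classes modulo the primes of the squarefree `m` (`Finset.sum_sigma'`, `sum_nbij'` or `sum_bij`).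
`cpl_rtv`: `zr z₀ c ν ≡ ν` modulo `c`; a prime of `V` divides `2eν + g`, a prime of `r` does not (`2eν + g ≡ 2g`).
`rtv_phase`: `2eν + g = V j`, and `j ≡ g * iv r (2e) * iv V (2e) * r + 2 g * iv (2e) r * iv V r * (2e)` modulo `2 e r` (check modulo `2e` and modulo `r`); `ep (2 k) = 1` for integers `k`.
`ram_inner`: `ramsum_sq` with `q = 2 e q₀`, `φ V = if V.Coprime (2e) then σ (r V % e) * χ V * ep (…) else 0`, `τ = (G - g)/(e r)`, `Y / r ≤ 2 (Y / r : ℕ)`; the factor `∏_{p ∣ r} lm p` has norm `≤ 1`.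
`ram_part`: `ram_reidx`, `cpl_rtv`; let `Γ = Gm u`, `R₀ = Γ * yy u ^ u`, `z = u^98`.  For `r ≤ R₀` use `ram_inner`, `∑ 1/r² ≤ 2`, `∑_{r ≤ R₀} 1/r ≤ 1 + log R₀ ≤ 4 u^98`,
`R₀² 2 e q₀ 16^z (1 + 4πΓ³) ≤ exp (20 u^98) ≤ Y`.  For `r > R₀` with `cp Q r ≤ Γ`: `r = cp Q r * ∏ (primeFactors ∩ Q)`, so more than `u` primes of `Q` divide `r`; the inner sum is at most `Y/r`
(`norm_trm`), use `om_big`. -/

/-- the signs come from a periodic function -/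
structure PerL (lm : ℕ → ℂ) (q₀ : ℕ) (g : ℤ) : Prop where
  pos : 1 ≤ q₀
  dvd : ∀ p : ℕ, p.Prime → p ∣ q₀ → (p : ℤ) ∣ 2 * g
  ex : ∃ χ : ℕ → ℂ, (∀ V, ‖χ V‖ ≤ 1) ∧ (∀ V, χ (V + q₀) = χ V) ∧
    ∀ V, Squarefree V → Odd V → ∏ p ∈ V.primeFactors, lm p = χ V

/-- the root with prescribed signs -/
def rtv (e : ℕ) (g : ℤ) (r V : ℕ) : ℕ :=
  ((iv (2 * e) (r * V) * g * (V * iv V r - r * iv r V)) % (r * V : ℕ)).toNat

/-- the indicator of a small factor -/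
def sm (u e : ℕ) (g : ℤ) (i : ℕ × ℤ) : ℂ := if cpl e g i ≤ Gm u then 1 else 0

theorem sha_prod (a : ℤ) (s : Finset ℕ) (hs : ∀ p ∈ s, p ≠ 0) :
    jacobiSym a (∏ p ∈ s, p) = ∏ p ∈ s, jacobiSym a p := by
  induction s using Finset.induction_on with
  | empty => simp
  | insert p s hp ih =>
    rw [prod_insert hp, prod_insert hp, jacobiSym.mul_right' a (hs p (mem_insert_self _ _))
      (prod_ne_zero_iff.2 fun q hq => hs q (mem_insert_of_mem hq)),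
      ih fun q hq => hs q (mem_insert_of_mem hq)]

theorem sha_sq {x y z : ℤ} (hx : 0 ≤ x) (h : IsCoprime x y) (e : x * y = z ^ 2) : ∃ a : ℤ, x = a ^ 2 := by
  obtain ⟨a, h | h⟩ := Int.sq_of_isCoprime h e
  · exact ⟨a, h⟩
  · exact ⟨0, by nlinarith [sq_nonneg a]⟩

theorem sha_one {p : ℕ} (hp : p.Prime) {a : ℤ} (h : ¬(p : ℤ) ∣ a) : jacobiSym (a ^ 2) p = 1 := by
  refine jacobiSym.sq_one' ?_
  rw [Int.gcd_comm]
  exact Int.isCoprime_iff_gcd_eq_one.1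
    ((Nat.prime_iff_prime_int.1 hp).irreducible.coprime_iff_not_dvd.2 h)

theorem lam_per {n C : ℕ} (hC : 1 ≤ C) {g : ℤ} (h : (n : ℤ) * C = g ^ 2) : PerL (lamp n C) (4 * C) g := by
  obtain ⟨n', C', hco, hn, hC'⟩ := Nat.exists_coprime n C
  set d := n.gcd C with hd
  have hd0 : 0 < d := Nat.gcd_pos_of_pos_right _ hC
  have hdg : (d : ℤ) ∣ g := by
    rw [← Int.pow_dvd_pow_iff two_ne_zero, ← h]
    exact ⟨n' * C', by rw [hn, hC']; push_cast; ring⟩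
  obtain ⟨g', rfl⟩ := hdg
  have e : (n' : ℤ) * C' = g' ^ 2 := by
    have h0 : (d : ℤ) ^ 2 ≠ 0 := by positivity
    refine mul_left_cancel₀ h0 ?_
    rw [← mul_pow, ← h]
    conv_rhs => rw [hn, hC']
    push_cast; ring
  have hco' : IsCoprime (n' : ℤ) C' := Nat.isCoprime_iff_coprime.2 hco
  obtain ⟨a, ha⟩ := sha_sq (Int.natCast_nonneg _) hco' e
  obtain ⟨b, hb⟩ := sha_sq (Int.natCast_nonneg _) hco'.symm (by rw [mul_comm]; exact e)
  have e1 : (n : ℤ) = d * a ^ 2 := by rw [← ha, mul_comm]; exact_mod_cast hn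
  have e2 : (C : ℤ) = d * b ^ 2 := by rw [← hb, mul_comm]; exact_mod_cast hC'
  have hl : ∀ p : ℕ, p.Prime → lamp n C p = (jacobiSym d p : ℤ) := by
    intro p hp
    have hp' := Nat.prime_iff_prime_int.1 hp
    unfold lamp
    congr 1
    split_ifs with c
    · rw [e1, jacobiSym.mul_left]
      by_cases c' : (p : ℤ) ∣ d
      · have : jacobiSym d p = 0 := by
          refine jacobiSym.eq_zero_iff.2 ⟨hp.ne_zero, fun h1 => ?_⟩
          exact hp'.not_isUnit ((Int.isCoprime_iff_gcd_eq_one.2 h1).isUnit_of_dvd' c' dvd_rfl)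
        rw [this, zero_mul]
      · rw [sha_one hp, mul_one]
        intro h1
        rw [e2] at c
        have h2 := (hp'.dvd_or_dvd c).resolve_left c'
        rw [← hb] at h2
        exact hp'.not_isUnit (hco'.isUnit_of_dvd' (ha ▸ dvd_pow h1 two_ne_zero) h2)
    · rw [e2, jacobiSym.mul_left, sha_one hp, mul_one]
      exact fun h1 => c (e2 ▸ (dvd_pow h1 two_ne_zero).mul_left _)
  refine ⟨by omega, fun p hp hd => ?_, fun V => if Odd V then (jacobiSym d V : ℤ) else 0,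
    fun V => ?_, fun V => ?_, fun V hV hO => ?_⟩
  · rcases (Nat.Prime.dvd_mul hp).1 hd with h1 | h1
    · have h2 : p ∣ 2 := hp.dvd_of_dvd_pow (n := 2) (by simpa using h1)
      exact Dvd.dvd.mul_right (by exact_mod_cast h2) _
    · refine Dvd.dvd.mul_left ((Nat.prime_iff_prime_int.1 hp).dvd_of_dvd_pow (n := 2) ?_) _
      rw [← h]
      exact Dvd.dvd.mul_left (by exact_mod_cast h1) _
  · dsimp only
    split_ifs
    · rcases jacobiSym.trichotomy d V with h1 | h1 | h1 <;> simp [h1]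
    · simp
  · have hev : Even (4 * C) := ⟨2 * C, by ring⟩
    by_cases hO : Odd V
    · have hO' : Odd (V + 4 * C) := hO.add_even hev
      simp only [if_pos hO, if_pos hO']
      rw [jacobiSym.mod_right' d hO, jacobiSym.mod_right' d hO',
        show V + 4 * C = V + 4 * d * C' by rw [hC']; ring, Nat.add_mul_mod_self_left]
    · have hO' : ¬Odd (V + 4 * C) := by
        rw [Nat.odd_iff] at hO ⊢; omega
      simp only [if_neg hO, if_neg hO']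
  · simp only [if_pos hO]
    rw [prod_congr rfl fun p hp => hl p (Nat.prime_of_mem_primeFactors hp), ← Int.cast_prod,
      ← sha_prod _ _ fun p hp => (Nat.prime_of_mem_primeFactors hp).ne_zero,
      Nat.prod_primeFactors_of_squarefree hV]

end

end Pool.Agent.MP_9f080f_an

namespace Pool.Agent.MP_9f080f_an
open Complex Finset
open scoped Real

noncomputable section

theorem rtv_spec {e r V : ℕ} (g : ℤ) (hr : 1 ≤ r) (hV : 1 ≤ V) (h : V.Coprime r) (h1 : r.Coprime (2 * e))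
    (h2 : V.Coprime (2 * e)) :
    rtv e g r V < r * V ∧ (V : ℤ) ∣ 2 * e * rtv e g r V + g ∧ (r : ℤ) ∣ 2 * e * rtv e g r V - g := by
  have hm : r * V ≠ 0 := by positivity
  have hm' : (0 : ℤ) < ((r * V : ℕ) : ℤ) := by exact_mod_cast Nat.pos_of_ne_zero hm
  have hI : iv (2 * e) (r * V) * (2 * e) ≡ 1 [ZMOD ((r * V : ℕ) : ℤ)] := by
    refine iv_mul hm ?_
    have := Nat.isCoprime_iff_coprime.2 (Nat.Coprime.mul_left h1 h2).symm
    simpa using this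
  have ha : iv V r * V ≡ 1 [ZMOD r] := iv_mul (by omega) (Nat.isCoprime_iff_coprime.2 h)
  have hb : iv r V * r ≡ 1 [ZMOD V] := iv_mul (by omega) (Nat.isCoprime_iff_coprime.2 h.symm)
  set I := iv (2 * e) (r * V)
  set a := iv V r
  set b := iv r V
  have hv : (rtv e g r V : ℤ) = (I * g * (V * a - r * b)) % ((r * V : ℕ) : ℤ) :=
    Int.toNat_of_nonneg (Int.emod_nonneg _ hm'.ne')
  have hlt : (rtv e g r V : ℤ) < ((r * V : ℕ) : ℤ) := hv ▸ Int.emod_lt_of_pos _ hm'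
  obtain ⟨k₁, hk₁⟩ := hI.dvd
  obtain ⟨k₂, hk₂⟩ := ha.dvd
  obtain ⟨k₃, hk₃⟩ := hb.dvd
  have hq := Int.emod_add_mul_ediv (I * g * (V * a - r * b)) ((r * V : ℕ) : ℤ)
  rw [← hv] at hq
  set k := I * g * (V * a - r * b) / ((r * V : ℕ) : ℤ)
  push_cast at hq hk₁
  refine ⟨by exact_mod_cast hlt, ⟨g * a + g * k₃ - r * k₁ * g * (V * a - r * b) - 2 * e * r * k, ?_⟩,
    ⟨-(g * b) - g * k₂ - V * k₁ * g * (V * a - r * b) - 2 * e * V * k, ?_⟩⟩
  · linear_combination (2 * e) * hq - g * (V * a - r * b) * hk₁ + g * hk₃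
  · linear_combination (2 * e) * hq - g * (V * a - r * b) * hk₁ - g * hk₂

theorem cpl_rtv {e r V Y : ℕ} {g : ℤ} (hr : r ∈ Gq e Y) (hV : V ∈ Gq e (Y / r)) (h : V.Coprime r)
    (hg : r.Coprime g.natAbs) (Q : Finset ℕ) (z₀ : ℤ) :
    cpl e g (cp Q (r * V), zr z₀ (cp Q (r * V)) (rtv e g r V)) = cp Q r := by
  simp only [Gq, mem_filter, mem_Icc] at hr hV
  obtain ⟨-, hdV, hdr⟩ := rtv_spec g hr.1.1 hV.1.1 h hr.2.2 hV.2.2
  have hr0 : r ≠ 0 := by omega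
  have hV0 : V ≠ 0 := by omega
  have hpf : (cp Q (r * V)).primeFactors = (r * V).primeFactors \ Q :=
    Nat.primeFactors_prod fun p hp => Nat.prime_of_mem_primeFactors (mem_sdiff.1 hp).1
  have hz : ((cp Q (r * V) : ℕ) : ℤ) ∣ zr z₀ (cp Q (r * V)) (rtv e g r V) - rtv e g r V := by
    have hq := Int.emod_add_mul_ediv ((rtv e g r V : ℤ) - z₀) (cp Q (r * V) : ℕ)
    exact ⟨-(((rtv e g r V : ℤ) - z₀) / (cp Q (r * V) : ℕ)), by rw [zr]; linear_combination hq⟩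
  unfold cpl
  rw [cp.eq_1 Q r]
  refine prod_congr ?_ fun _ _ => rfl
  ext p
  simp only [mem_filter]
  have key : p.Prime → p ∣ cp Q (r * V) →
      ((p : ℤ) ∣ 2 * e * zr z₀ (cp Q (r * V)) (rtv e g r V) + g ↔ (p : ℤ) ∣ 2 * e * rtv e g r V + g) := by
    intro _ hpc
    have h3 : (p : ℤ) ∣ 2 * e * (zr z₀ (cp Q (r * V)) (rtv e g r V) - rtv e g r V) :=
      ((Int.natCast_dvd_natCast.2 hpc).trans hz).mul_left _
    constructor
    · intro h4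
      exact (dvd_sub h4 h3).trans (dvd_of_eq (by ring))
    · intro h4
      exact (dvd_add h4 h3).trans (dvd_of_eq (by ring))
  constructor
  · rintro ⟨hp, hn⟩
    have hpp := Nat.prime_of_mem_primeFactors hp
    have hpc := Nat.dvd_of_mem_primeFactors hp
    rw [hpf, mem_sdiff] at hp
    rw [key hpp hpc] at hn
    refine mem_sdiff.2 ⟨?_, hp.2⟩
    rcases (Nat.Prime.dvd_mul hpp).1 (Nat.dvd_of_mem_primeFactors hp.1) with h5 | h5
    · exact Nat.mem_primeFactors.2 ⟨hpp, h5, hr0⟩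
    · exact absurd ((Int.natCast_dvd_natCast.2 h5).trans hdV) hn
  · intro hp
    rw [mem_sdiff] at hp
    have hpp := Nat.prime_of_mem_primeFactors hp.1
    have hpr := Nat.dvd_of_mem_primeFactors hp.1
    have hp' : p ∈ (cp Q (r * V)).primeFactors := by
      rw [hpf, mem_sdiff]
      exact ⟨Nat.mem_primeFactors.2 ⟨hpp, hpr.mul_right _, by positivity⟩, hp.2⟩
    refine ⟨hp', ?_⟩
    rw [key hpp (Nat.dvd_of_mem_primeFactors hp')]
    intro h4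
    have h5 : (p : ℤ) ∣ 2 * g :=
      (dvd_sub h4 ((Int.natCast_dvd_natCast.2 hpr).trans hdr)).trans (dvd_of_eq (by ring))
    have h6 : p ∣ 2 * g.natAbs := by
      have := Int.natAbs_dvd_natAbs.2 h5
      simpa [Int.natAbs_mul] using this
    have h7 : r.Coprime (2 * g.natAbs) :=
      Nat.Coprime.mul_right (hr.2.2.coprime_dvd_right (dvd_mul_right 2 e)) hg
    exact hpp.one_lt.ne' (Nat.dvd_one.1 (h7.gcd_eq_one ▸ Nat.dvd_gcd hpr h6))

theorem rtv_phase {e r V : ℕ} (g : ℤ) (G : ℝ) (he : 1 ≤ e) (hr : 1 ≤ r) (hV : 1 ≤ V) (h : V.Coprime r)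
    (h1 : r.Coprime (2 * e)) (h2 : V.Coprime (2 * e)) :
    ep ((2 * (rtv e g r V : ℤ) / (r * V : ℕ) + G / (e * (r * V : ℕ)) : ℝ) : ℂ) =
      ep (2 * ((g * iv r (2 * e) * iv V (2 * e) : ℤ) : ℂ) / (2 * e : ℕ)) *
        ep (2 * ((2 * g * iv (2 * e) r * iv V r : ℤ) : ℂ) / r) * ep (((G - g) / (e * r) / V : ℝ) : ℂ) := by
  obtain ⟨-, ⟨j, hj⟩, ⟨l, hl⟩⟩ := rtv_spec g hr hV h h1 h2
  have he2 : 2 * e ≠ 0 := by omega
  have ha : iv r (2 * e) * r ≡ 1 [ZMOD ((2 * e : ℕ) : ℤ)] := iv_mul he2 (Nat.isCoprime_iff_coprime.2 h1)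
  have hb : iv V (2 * e) * V ≡ 1 [ZMOD ((2 * e : ℕ) : ℤ)] := iv_mul he2 (Nat.isCoprime_iff_coprime.2 h2)
  have hc : iv (2 * e) r * (2 * e) ≡ 1 [ZMOD r] := by
    refine iv_mul (by omega) ?_
    have := Nat.isCoprime_iff_coprime.2 h1.symm
    simpa using this
  have hd : iv V r * V ≡ 1 [ZMOD r] := iv_mul (by omega) (Nat.isCoprime_iff_coprime.2 h)
  set a := iv r (2 * e)
  set b := iv V (2 * e)
  set c := iv (2 * e) r
  set d := iv V r
  set ν : ℤ := (rtv e g r V : ℤ)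
  obtain ⟨k₁, hk₁⟩ := ha.dvd
  obtain ⟨k₂, hk₂⟩ := hb.dvd
  obtain ⟨k₃, hk₃⟩ := hc.dvd
  obtain ⟨k₄, hk₄⟩ := hd.dvd
  push_cast at hk₁ hk₂
  have d1 : ((2 * e : ℕ) : ℤ) ∣ j - g * a * b * r - 2 * e * (2 * g * c * d) := by
    refine (Nat.isCoprime_iff_coprime.2 h2.symm).dvd_of_dvd_mul_left
      ⟨ν + g * k₁ + g * k₂ * (a * r) - V * (2 * g * c * d), ?_⟩
    push_cast
    linear_combination -hj + g * hk₁ + g * (a * r) * hk₂
  have d2 : (r : ℤ) ∣ j - g * a * b * r - 2 * e * (2 * g * c * d) := by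
    refine (Nat.isCoprime_iff_coprime.2 h.symm).dvd_of_dvd_mul_left
      ⟨l - V * (g * a * b) + 2 * g * k₃ + 2 * g * k₄ * (c * (2 * e)), ?_⟩
    linear_combination -hj + hl + 2 * g * hk₃ + 2 * g * (c * (2 * e)) * hk₄
  obtain ⟨k, hk⟩ := (Nat.isCoprime_iff_coprime.2 h1.symm).mul_dvd d1 d2
  have hkc : (j : ℂ) - g * a * b * r - 2 * e * (2 * g * c * d) = 2 * e * r * k := by
    exact_mod_cast hk
  have hjc : 2 * (e : ℂ) * ν + g = V * j := by exact_mod_cast hj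
  have e0 : (e : ℂ) ≠ 0 := by exact_mod_cast (by omega : e ≠ 0)
  have r0 : (r : ℂ) ≠ 0 := by exact_mod_cast (by omega : r ≠ 0)
  have V0 : (V : ℂ) ≠ 0 := by exact_mod_cast (by omega : V ≠ 0)
  rw [← ep_add, ← ep_add, ← mul_one (ep (_ + _ + _)), ← ep_two_int k, ← ep_add]
  congr 1
  push_cast
  field_simp
  linear_combination hjc + V * hkc

end

end Pool.Agent.MP_9f080f_an

namespace Pool.Agent.MP_9f080f_an
open Complex Finset
open scoped Real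

noncomputable section

theorem shc_mem {e Y m : ℕ} : m ∈ Gq e Y ↔ (1 ≤ m ∧ m ≤ Y) ∧ Squarefree m ∧ m.Coprime (2 * e) := by
  simp only [Gq, mem_filter, mem_Icc]

theorem shc_rt {e m ν : ℕ} {g : ℤ} :
    ν ∈ Rt (g ^ 2) e m ↔ ν < m ∧ (m : ℤ) ∣ (2 * e * ν + g) * (2 * e * ν - g) := by
  have : (4 : ℤ) * (e : ℤ) ^ 2 * (ν : ℤ) ^ 2 - g ^ 2 = (2 * e * ν + g) * (2 * e * ν - g) := by ring
  simp only [Rt, mem_filter, mem_range, this]

/-- the factor `V` is a greatest common divisor -/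
theorem shc_gcd {e r V : ℕ} {g x : ℤ} (h1 : r.Coprime (2 * e)) (hg : r.Coprime g.natAbs)
    (hV : (V : ℤ) ∣ x + g) (hr : (r : ℤ) ∣ x - g) : Nat.gcd (r * V) (x + g).natAbs = V := by
  have h2 : r.Coprime (2 * g).natAbs := by
    rw [Int.natAbs_mul]
    exact Nat.Coprime.mul_right (Nat.Coprime.coprime_mul_right_right h1) hg
  have h3 : r.Coprime (x + g).natAbs := by
    refine Nat.eq_one_of_dvd_one ?_
    rw [← h2]
    refine Nat.dvd_gcd (Nat.gcd_dvd_left _ _) ?_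
    have a1 : ((Nat.gcd r (x + g).natAbs : ℕ) : ℤ) ∣ x + g :=
      Int.natCast_dvd.2 (Nat.gcd_dvd_right _ _)
    have a2 : ((Nat.gcd r (x + g).natAbs : ℕ) : ℤ) ∣ x - g :=
      (Int.natCast_dvd_natCast.2 (Nat.gcd_dvd_left _ _)).trans hr
    have a3 := dvd_sub a1 a2
    rw [show x + g - (x - g) = 2 * g by ring] at a3
    exact Int.natCast_dvd.1 a3
  rw [h3.gcd_mul_left_cancel, Nat.gcd_eq_left (Int.natCast_dvd.1 hV)]

/-- a root is determined by its classes -/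
theorem shc_uniq {e r V ν ν' : ℕ} {g : ℤ} (h : V.Coprime r) (h1 : (r * V).Coprime (2 * e))
    (a : ν < r * V) (a' : ν' < r * V) (b : (V : ℤ) ∣ 2 * e * ν + g) (b' : (V : ℤ) ∣ 2 * e * ν' + g)
    (c : (r : ℤ) ∣ 2 * e * ν - g) (c' : (r : ℤ) ∣ 2 * e * ν' - g) : ν = ν' := by
  have d1 := dvd_sub b' b
  have d2 := dvd_sub c' c
  rw [show (2 * e * ν' + g - (2 * e * ν + g) : ℤ) = (2 * e : ℕ) * (ν' - ν) by push_cast; ring] at d1
  rw [show (2 * e * ν' - g - (2 * e * ν - g) : ℤ) = (2 * e : ℕ) * (ν' - ν) by push_cast; ring] at d2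
  have d3 := (Nat.isCoprime_iff_coprime.2 h.symm).mul_dvd d2 d1
  rw [← Nat.cast_mul] at d3
  have d4 := (Nat.isCoprime_iff_coprime.2 h1).dvd_of_dvd_mul_left d3
  exact Nat.ModEq.eq_of_lt_of_lt (Nat.modEq_iff_dvd.2 d4) a a'

/-- every root splits the modulus -/
theorem shc_split {m : ℕ} {g x : ℤ} (hm : Squarefree m) (h : (m : ℤ) ∣ (x + g) * (x - g)) :
    ∃ r V : ℕ, r * V = m ∧ V.Coprime r ∧ r.Coprime g.natAbs ∧ (V : ℤ) ∣ x + g ∧
      (r : ℤ) ∣ x - g := by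
  obtain ⟨r, hr⟩ := Nat.gcd_dvd_left m (x + g).natAbs
  have hV : ((Nat.gcd m (x + g).natAbs : ℕ) : ℤ) ∣ x + g :=
    Int.natCast_dvd.2 (Nat.gcd_dvd_right _ _)
  have hc : (Nat.gcd m (x + g).natAbs).Coprime r := Nat.coprime_of_squarefree_mul (hr ▸ hm)
  have hrm : r ∣ m := Dvd.intro_left _ hr.symm
  have h3 : r.Coprime (x + g).natAbs := by
    refine Nat.eq_one_of_dvd_one ?_
    rw [← hc]
    exact Nat.dvd_gcd (Nat.dvd_gcd ((Nat.gcd_dvd_left _ _).trans hrm) (Nat.gcd_dvd_right _ _))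
      (Nat.gcd_dvd_left _ _)
  have h4 : (r : ℤ) ∣ x - g := by
    have a1 : IsCoprime (r : ℤ) (x + g) := by
      rw [Int.isCoprime_iff_gcd_eq_one]
      simpa [Int.gcd] using h3
    exact a1.dvd_of_dvd_mul_left ((Int.natCast_dvd_natCast.2 hrm).trans h)
  refine ⟨r, _, by rw [mul_comm]; exact hr.symm, hc, ?_, hV, h4⟩
  refine Nat.eq_one_of_dvd_one ?_
  rw [← h3]
  refine Nat.dvd_gcd (Nat.gcd_dvd_left _ _) ?_
  have a1 : ((Nat.gcd r g.natAbs : ℕ) : ℤ) ∣ g := Int.natCast_dvd.2 (Nat.gcd_dvd_right _ _)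
  have a2 : ((Nat.gcd r g.natAbs : ℕ) : ℤ) ∣ x - g :=
    (Int.natCast_dvd_natCast.2 (Nat.gcd_dvd_left _ _)).trans h4
  have a3 := dvd_add a2 (a1.mul_left 2)
  rw [show x - g + 2 * g = x + g by ring] at a3
  exact Int.natCast_dvd.1 a3

theorem ram_reidx (e Y : ℕ) (g : ℤ) (F : ℕ → ℕ → ℂ) :
    ∑ m ∈ Gq e Y, ∑ ν ∈ Rt (g ^ 2) e m, F m ν =
      ∑ r ∈ (Gq e Y).filter (fun r => r.Coprime g.natAbs),
        ∑ V ∈ (Gq e (Y / r)).filter (fun V => V.Coprime r), F (r * V) (rtv e g r V) := by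
  rw [sum_sigma', sum_sigma']
  symm
  refine sum_bij (fun p _ => (⟨p.1 * p.2, rtv e g p.1 p.2⟩ : Σ _ : ℕ, ℕ)) ?_ ?_ ?_ fun _ _ => rfl
  · rintro ⟨r, V⟩ hp
    simp only [mem_sigma, mem_filter, shc_mem] at hp
    obtain ⟨⟨⟨⟨r1, r2⟩, r3, r4⟩, r5⟩, ⟨⟨v1, v2⟩, v3, v4⟩, v5⟩ := hp
    obtain ⟨a, b, c⟩ := rtv_spec g r1 v1 v5 r4 v4
    simp only [mem_sigma, shc_mem, shc_rt]
    refine ⟨⟨⟨Nat.mul_pos r1 v1, ?_⟩, (Nat.squarefree_mul v5.symm).2 ⟨r3, v3⟩,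
      Nat.Coprime.mul_left r4 v4⟩, a, ?_⟩
    · rw [mul_comm]; exact (Nat.le_div_iff_mul_le r1).1 v2
    · rw [mul_comm r V, Nat.cast_mul]; exact mul_dvd_mul b c
  · rintro ⟨r, V⟩ hp ⟨r', V'⟩ hp' h
    simp only [mem_sigma, mem_filter, shc_mem] at hp hp'
    obtain ⟨⟨⟨⟨r1, r2⟩, r3, r4⟩, r5⟩, ⟨⟨v1, v2⟩, v3, v4⟩, v5⟩ := hp
    obtain ⟨⟨⟨⟨r1', r2'⟩, r3', r4'⟩, r5'⟩, ⟨⟨v1', v2'⟩, v3', v4'⟩, v5'⟩ := hp'
    obtain ⟨a, b, c⟩ := rtv_spec g r1 v1 v5 r4 v4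
    obtain ⟨a', b', c'⟩ := rtv_spec g r1' v1' v5' r4' v4'
    simp only [Sigma.mk.injEq, heq_eq_eq] at h
    have e1 := shc_gcd r4 r5 b c
    have e2 := shc_gcd r4' r5' b' c'
    rw [h.1, h.2, e2] at e1
    subst e1
    have := Nat.eq_of_mul_eq_mul_right v1 h.1
    subst this
    rfl
  · rintro ⟨m, ν⟩ hp
    simp only [mem_sigma, shc_mem, shc_rt] at hp
    obtain ⟨⟨⟨m1, m2⟩, m3, m4⟩, n1, n2⟩ := hp
    obtain ⟨r, V, rfl, h1, h2, h3, h4⟩ := shc_split m3 n2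
    have r1 : 1 ≤ r := Nat.pos_of_mul_pos_right m1
    have v1 : 1 ≤ V := Nat.pos_of_mul_pos_left m1
    have r4 := Nat.Coprime.coprime_mul_right m4
    have v4 := Nat.Coprime.coprime_mul_left m4
    obtain ⟨a, b, c⟩ := rtv_spec g r1 v1 h1 r4 v4
    refine ⟨⟨r, V⟩, ?_, ?_⟩
    · simp only [mem_sigma, mem_filter, shc_mem]
      refine ⟨⟨⟨⟨r1, (Nat.le_mul_of_pos_right r v1).trans m2⟩, m3.of_mul_left, r4⟩, h2⟩,
        ⟨⟨v1, ?_⟩, m3.of_mul_right, v4⟩, h1⟩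
      rw [Nat.le_div_iff_mul_le r1, mul_comm]; exact m2
    · rw [shc_uniq h1 m4 a n1 b h3 c h4]

end

end Pool.Agent.MP_9f080f_an

namespace Pool.Agent.MP_9f080f_an
open Complex Finset
open scoped Real

noncomputable section

theorem ram_inner {e r Y q₀ z : ℕ} {g : ℤ} {G Γ : ℝ} {σ lm : ℕ → ℂ} (he : 1 ≤ e) (hz : 1 ≤ z) (hΓ : 1 ≤ Γ)
    (hr : r ∈ Gq e Y) (hg : r.Coprime g.natAbs) (hL : PerL lm q₀ g) (hσ : ∀ r, ‖σ r‖ ≤ 1)
    (hl : ∀ p, ‖lm p‖ ≤ 1) (hG : |G - g| ≤ 2 * e * Y * Γ) :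
    ‖∑ V ∈ (Gq e (Y / r)).filter (fun V => V.Coprime r), trm e G σ lm (r * V) (rtv e g r V)‖ ≤
      Y / r ^ 2 + Y / r * (1 / Γ + 1 / z) + 2 * e * q₀ * 16 ^ z * r * (1 + 4 * π * Γ ^ 3) := by
  classical
  simp only [Gq, mem_filter, mem_Icc] at hr
  obtain ⟨⟨hr1, hrY⟩, hrs, hr2⟩ := hr
  obtain ⟨χ, hχ1, hχ2, hχ3⟩ := hL.ex
  have hY' : 1 ≤ Y / r := (Nat.le_div_iff_mul_le hr1).2 (by omega)
  have hr0 : (0 : ℝ) < r := by exact_mod_cast hr1
  have he0 : (0 : ℝ) < e := by exact_mod_cast he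
  have h2g : IsCoprime (2 * g) (r : ℤ) := by
    refine IsCoprime.mul_left ?_ ?_
    · exact_mod_cast Nat.isCoprime_iff_coprime.2 hr2.coprime_mul_right_right.symm
    · exact Int.isCoprime_iff_gcd_eq_one.2 (by simpa [Int.gcd] using hg.symm)
  have hq : (2 * e * q₀).Coprime r := by
    refine Nat.Coprime.mul_left hr2.symm (Nat.coprime_of_dvd fun p hp h1 h2 => ?_)
    exact (Nat.prime_iff_prime_int.1 hp).not_isUnit
      (h2g.isUnit_of_dvd' (hL.dvd p hp h1) (Int.natCast_dvd_natCast.2 h2))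
  have ha : IsCoprime (2 * g * iv (2 * e) r) (r : ℤ) := by
    refine h2g.mul_left ?_
    obtain ⟨k, hk⟩ := (iv_mul (h := 2 * e) (q := r) (by omega)
      (by exact_mod_cast Nat.isCoprime_iff_coprime.2 hr2.symm)).dvd
    exact ⟨2 * e, k, by linear_combination -hk⟩
  set φ : ℕ → ℂ := fun V => if V.Coprime (2 * e) then σ (r * V % e) * χ V *
    ep (2 * ((g * iv r (2 * e) * iv V (2 * e) : ℤ) : ℂ) / (2 * e : ℕ)) else 0 with hφ
  have hφ1 : ∀ V, φ (V + 2 * e * q₀) = φ V := fun V => by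
    have e1 : (V + 2 * e * q₀).Coprime (2 * e) ↔ V.Coprime (2 * e) := Nat.coprime_add_mul_left_left _ _ _
    have e2 : r * (V + 2 * e * q₀) % e = r * V % e := by
      rw [show r * (V + 2 * e * q₀) = r * V + e * (2 * r * q₀) by ring, Nat.add_mul_mod_self_left]
    have e3 : χ (V + 2 * e * q₀) = χ V := by
      simpa using Function.Periodic.nat_mul (f := χ) (c := q₀) hχ2 (2 * e) V
    have e4 : iv ((V + 2 * e * q₀ : ℕ) : ℤ) (2 * e) = iv V (2 * e) := by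
      unfold iv
      rw [Int.cast_natCast, Int.cast_natCast, Nat.cast_add, Nat.cast_mul, ZMod.natCast_self, zero_mul,
        add_zero]
    simp only [hφ, e1, e2, e3, e4]
  have hφ2 : ∀ V, ‖φ V‖ ≤ 1 := fun V => by
    simp only [hφ]
    split_ifs
    · have := norm_ep_real (2 * ((g * iv r (2 * e) * iv V (2 * e) : ℤ) : ℝ) / (2 * e : ℕ))
      simp only [ofReal_div, ofReal_mul, ofReal_ofNat, ofReal_intCast, ofReal_natCast] at this
      rw [norm_mul, norm_mul, this, mul_one]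
      exact mul_le_one₀ (hσ _) (norm_nonneg _) (hχ1 V)
    · simp
  have hfl : ((Y / r : ℕ) : ℝ) ≤ Y / r := Nat.cast_div_le
  have hτ : |(G - g) / (e * r)| ≤ 4 * Γ * (Y / r : ℕ) := by
    have h1 : Y ≤ 2 * (Y / r) * r := by
      have := Nat.div_add_mod Y r
      have := Nat.mod_lt Y hr1
      nlinarith
    have h2 : (Y : ℝ) ≤ 2 * (Y / r : ℕ) * r := by exact_mod_cast h1
    rw [abs_div, abs_of_pos (mul_pos he0 hr0), div_le_iff₀ (mul_pos he0 hr0)]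
    refine hG.trans ?_
    have h3 : 0 ≤ 2 * e * Γ := by positivity
    nlinarith [mul_le_mul_of_nonneg_left h2 h3]
  have key := ramsum_sq (q := 2 * e * q₀) (Y := Y / r) (Nat.mul_pos (by omega) hL.pos) hr1 hz hq ha
    hφ1 hφ2 hΓ hτ
  have e0 : ∑ V ∈ (Gq e (Y / r)).filter (fun V => V.Coprime r),
      trm e G σ lm (r * V) (rtv e g r V) = (∏ p ∈ r.primeFactors, lm p) *
      ∑ V ∈ (Icc 1 (Y / r)).filter (fun V => Squarefree V ∧ V.Coprime r),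
        φ V * ep (2 * ((2 * g * iv (2 * e) r * iv V r : ℤ) : ℂ) / r) *
          ep (((G - g) / (e * r) / V : ℝ) : ℂ) := by
    rw [mul_sum, Gq, filter_filter, sum_filter, sum_filter]
    refine sum_congr rfl fun V hV => ?_
    by_cases h1 : Squarefree V ∧ V.Coprime r
    · by_cases h2 : V.Coprime (2 * e)
      · rw [if_pos ⟨⟨h1.1, h2⟩, h1.2⟩, if_pos h1, trm,
          rtv_phase g G he hr1 (mem_Icc.1 hV).1 h1.2 hr2 h2, h1.2.symm.primeFactors_mul,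
          prod_union h1.2.symm.disjoint_primeFactors,
          hχ3 V h1.1 (Nat.coprime_two_right.1 h2.coprime_mul_right_right)]
        simp only [hφ, if_pos h2]
        ring
      · rw [if_neg fun h => h2 h.1.2, if_pos h1]
        simp only [hφ, if_neg h2, zero_mul, mul_zero]
    · rw [if_neg fun h => h1 ⟨h.1.1, h.2⟩, if_neg h1]
  have hp : ‖∏ p ∈ r.primeFactors, lm p‖ ≤ 1 := by
    rw [norm_prod]
    exact prod_le_one (fun _ _ => norm_nonneg _) fun p _ => hl p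
  rw [e0, norm_mul]
  refine (mul_le_of_le_one_left (norm_nonneg _) hp).trans (key.trans ?_)
  have hz0 : (0 : ℝ) < z := by exact_mod_cast hz
  have k1 : ((Y / r : ℕ) : ℝ) / r ≤ Y / r ^ 2 := by
    rw [sq, ← div_div]
    exact div_le_div_of_nonneg_right hfl hr0.le
  have k2 : ((Y / r : ℕ) : ℝ) / Γ ≤ Y / r * (1 / Γ) := by
    rw [mul_one_div]
    exact div_le_div_of_nonneg_right hfl (by linarith)
  have k3 : ((Y / r : ℕ) : ℝ) / z ≤ Y / r * (1 / z) := by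
    rw [mul_one_div]
    exact div_le_div_of_nonneg_right hfl hz0.le
  rw [mul_add, Nat.cast_mul, Nat.cast_mul, Nat.cast_ofNat]
  linarith

end

end Pool.Agent.MP_9f080f_an

namespace Pool.Agent.MP_9f080f_an
open Complex Finset
open scoped Real

noncomputable section

lemma sh_harm (N : ℕ) : ∑ r ∈ Icc 1 N, (1 : ℝ) / r ≤ 1 + Real.log N := by
  have := harmonic_le_one_add_log N
  simpa only [harmonic_eq_sum_Icc, Rat.cast_sum, Rat.cast_inv, Rat.cast_natCast, one_div] using this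

lemma sh_sq (N : ℕ) : ∑ r ∈ Icc 1 N, (1 : ℝ) / (r : ℝ) ^ 2 ≤ 2 := by
  rcases Nat.eq_zero_or_pos N with h | h
  · subst h; simp
  · have h1 := sum_Ioc_inv_sq_le_sub (α := ℝ) (k := 1) (n := N) one_ne_zero h
    have h2 : Icc 1 N = insert 1 (Ioc 1 N) := by
      ext x; simp only [mem_Icc, mem_insert, mem_Ioc]; omega
    rw [h2, sum_insert (by simp)]
    have h3 : (0 : ℝ) ≤ (N : ℝ)⁻¹ := by positivity
    simp only [one_div, Nat.cast_one, one_pow, inv_one] at h1 ⊢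
    linarith

lemma sh_card {Q : Finset ℕ} {r y Γ u : ℕ} (hr : Squarefree r) (hy : 1 ≤ y) (hQ : ∀ q ∈ Q, q ≤ y)
    (hc : cp Q r ≤ Γ) (h : Γ * y ^ u < r) : u < #(r.primeFactors ∩ Q) := by
  by_contra hn
  have hn' : #(r.primeFactors ∩ Q) ≤ u := not_lt.mp hn
  have h1 := Finset.prod_inter_mul_prod_sdiff r.primeFactors Q (fun p : ℕ => p)
  rw [Nat.prod_primeFactors_of_squarefree hr] at h1
  have h2 : ∏ p ∈ r.primeFactors ∩ Q, p ≤ y ^ #(r.primeFactors ∩ Q) :=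
    Finset.prod_le_pow_card _ _ _ fun x hx => hQ x (mem_inter.mp hx).2
  have h3 : y ^ #(r.primeFactors ∩ Q) ≤ y ^ u := Nat.pow_le_pow_right hy hn'
  have h4 : r ≤ y ^ u * Γ := by
    calc r = (∏ p ∈ r.primeFactors ∩ Q, p) * cp Q r := h1.symm
      _ ≤ y ^ u * Γ := Nat.mul_le_mul (h2.trans h3) hc
  rw [mul_comm] at h4
  omega

lemma sh_poly (k : ℕ) : ∃ C : ℝ, 0 < C ∧ ∀ u : ℕ, (u : ℝ) ^ k / 2 ^ u ≤ C := by
  have hf : (0 : ℝ) < (Nat.factorial k : ℕ) := by exact_mod_cast Nat.factorial_pos k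
  refine ⟨2 ^ k * (Nat.factorial k : ℕ), mul_pos (pow_pos two_pos _) hf, fun u => ?_⟩
  have h1 := Real.pow_div_factorial_le_exp ((u : ℝ) / 2) (by positivity) k
  have h2 : Real.exp ((u : ℝ) / 2) ≤ 2 ^ u := by
    have h3 : Real.exp (1 / 2) ≤ 2 := by
      have h4 : Real.exp (1 / 2) ^ 2 ≤ 2 ^ 2 := by
        rw [← Real.exp_nat_mul]
        have := Real.exp_one_lt_d9
        norm_num
        linarith
      exact le_of_sq_le_sq h4 (by norm_num)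
    calc Real.exp ((u : ℝ) / 2) = Real.exp (1 / 2) ^ u := by
          rw [← Real.exp_nat_mul]; congr 1; ring
      _ ≤ 2 ^ u := pow_le_pow_left₀ (Real.exp_pos _).le h3 u
  rw [div_pow, div_div, div_le_iff₀ (mul_pos (pow_pos two_pos _) hf)] at h1
  rw [div_le_iff₀ (pow_pos two_pos _)]
  calc (u : ℝ) ^ k ≤ Real.exp ((u : ℝ) / 2) * (2 ^ k * (Nat.factorial k : ℕ)) := h1
    _ ≤ 2 ^ u * (2 ^ k * (Nat.factorial k : ℕ)) :=
        mul_le_mul_of_nonneg_right h2 (mul_pos (pow_pos two_pos _) hf).le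
    _ = 2 ^ k * (Nat.factorial k : ℕ) * 2 ^ u := mul_comm _ _

lemma sh_yy (u : ℕ) : 1 ≤ yy u := by
  unfold yy
  exact Nat.le_floor (by simp)

lemma sh_Gm_ge (u : ℕ) : Real.exp ((u : ℝ) ^ 98) ≤ Gm u := Nat.le_ceil _

lemma sh_Gm_le {u : ℕ} (hu : 1 ≤ u) : (Gm u : ℝ) ≤ Real.exp (2 * (u : ℝ) ^ 98) := by
  have h1 : (Gm u : ℝ) < Real.exp ((u : ℝ) ^ 98) + 1 := Nat.ceil_lt_add_one (Real.exp_pos _).le
  have hx : (1 : ℝ) ≤ (u : ℝ) ^ 98 := one_le_pow₀ (by exact_mod_cast hu)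
  have h2 : (u : ℝ) ^ 98 + 1 ≤ Real.exp ((u : ℝ) ^ 98) := Real.add_one_le_exp _
  rw [two_mul, Real.exp_add]
  nlinarith

lemma sh_R_le {u : ℕ} (hu : 1 ≤ u) : ((Gm u * yy u ^ u : ℕ) : ℝ) ≤ Real.exp (3 * (u : ℝ) ^ 98) := by
  have hx : (1 : ℝ) ≤ u := by exact_mod_cast hu
  have h1 : (yy u : ℝ) ≤ Real.exp ((u : ℝ) ^ 95) := Nat.floor_le (Real.exp_pos _).le
  have h2 : (yy u : ℝ) ^ u ≤ Real.exp ((u : ℝ) ^ 98) := by
    calc (yy u : ℝ) ^ u ≤ Real.exp ((u : ℝ) ^ 95) ^ u := pow_le_pow_left₀ (Nat.cast_nonneg _) h1 u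
      _ = Real.exp ((u : ℝ) ^ 96) := by rw [← Real.exp_nat_mul]; congr 1; ring
      _ ≤ Real.exp ((u : ℝ) ^ 98) := Real.exp_le_exp.mpr (pow_le_pow_right₀ hx (by norm_num))
  push_cast
  calc (Gm u : ℝ) * (yy u : ℝ) ^ u ≤ Real.exp (2 * (u : ℝ) ^ 98) * Real.exp ((u : ℝ) ^ 98) :=
        mul_le_mul (sh_Gm_le hu) h2 (by positivity) (Real.exp_pos _).le
    _ = Real.exp (3 * (u : ℝ) ^ 98) := by rw [← Real.exp_add]; congr 1; ring

lemma sh_third {u e Y q₀ : ℕ} (hu : 7 ≤ u) (he : (e : ℝ) ≤ Real.exp ((u : ℝ) ^ 2))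
    (hq : (q₀ : ℝ) ≤ Real.exp ((u : ℝ) ^ 2)) (hY : Real.exp ((u : ℝ) ^ 100 / 2) ≤ Y) :
    2 * (e : ℝ) * q₀ * 16 ^ (u ^ 98) * (1 + 4 * π * (Gm u : ℝ) ^ 3) * ((Gm u * yy u ^ u : ℕ) : ℝ) ^ 2 ≤ Y := by
  have hu1 : 1 ≤ u := by omega
  have hx : (7 : ℝ) ≤ u := by exact_mod_cast hu
  have hx1 : (1 : ℝ) ≤ u := by linarith
  obtain ⟨t, ht⟩ : ∃ t : ℝ, t = (u : ℝ) ^ 98 := ⟨_, rfl⟩
  have ht1 : 1 ≤ t := ht ▸ one_le_pow₀ hx1
  have h2t : (u : ℝ) ^ 2 ≤ t := ht ▸ pow_le_pow_right₀ hx1 (by norm_num)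
  have hE : (2 : ℝ) ≤ Real.exp t := by have := Real.add_one_le_exp t; linarith
  have he' : (e : ℝ) ≤ Real.exp t := he.trans (Real.exp_le_exp.mpr h2t)
  have hq' : (q₀ : ℝ) ≤ Real.exp t := hq.trans (Real.exp_le_exp.mpr h2t)
  have h16 : (16 : ℝ) ≤ Real.exp 3 := by
    have h1 := Real.exp_one_gt_d9
    have h2 : Real.exp 3 = Real.exp 1 ^ 3 := by rw [← Real.exp_nat_mul]; norm_num
    have h3 : (2.7 : ℝ) ^ 3 ≤ Real.exp 1 ^ 3 := pow_le_pow_left₀ (by norm_num) (by linarith) 3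
    rw [h2]; linarith [show (16 : ℝ) ≤ 2.7 ^ 3 by norm_num]
  have hz : (16 : ℝ) ^ (u ^ 98) ≤ Real.exp t ^ 3 := by
    calc (16 : ℝ) ^ (u ^ 98) ≤ Real.exp 3 ^ (u ^ 98) := pow_le_pow_left₀ (by norm_num) h16 _
      _ = Real.exp t ^ 3 := by
        rw [← Real.exp_nat_mul, ← Real.exp_nat_mul, ht]; congr 1; push_cast; ring
  have hG : (Gm u : ℝ) ≤ Real.exp t ^ 2 := by
    rw [← Real.exp_nat_mul, ht]; exact_mod_cast sh_Gm_le hu1
  have hR : ((Gm u * yy u ^ u : ℕ) : ℝ) ≤ Real.exp t ^ 3 := by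
    rw [← Real.exp_nat_mul, ht]; exact_mod_cast sh_R_le hu1
  have hfin : Real.exp t ^ 22 ≤ Y := by
    refine le_trans ?_ hY
    rw [← Real.exp_nat_mul]
    refine Real.exp_le_exp.mpr ?_
    have h1 : (u : ℝ) ^ 100 = t * (u : ℝ) ^ 2 := by rw [ht]; ring
    have h2 : (49 : ℝ) ≤ (u : ℝ) ^ 2 := by nlinarith
    rw [h1]; push_cast; nlinarith
  generalize Real.exp t = E at hE he' hq' hz hG hR hfin
  have hE0 : (0 : ℝ) ≤ E := by linarith
  have hG3 : (Gm u : ℝ) ^ 3 ≤ E ^ 6 := by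
    calc (Gm u : ℝ) ^ 3 ≤ (E ^ 2) ^ 3 := pow_le_pow_left₀ (Nat.cast_nonneg _) hG 3
      _ = E ^ 6 := by ring
  have hE6 : (1 : ℝ) ≤ E ^ 6 := one_le_pow₀ (by linarith)
  have hE4 : (16 : ℝ) ≤ E ^ 4 := by
    calc (16 : ℝ) = 2 ^ 4 := by norm_num
      _ ≤ E ^ 4 := pow_le_pow_left₀ (by norm_num) hE 4
  have hP : 1 + 4 * π * (Gm u : ℝ) ^ 3 ≤ E ^ 10 := by
    have hpi := Real.pi_lt_d2
    have h1 : 4 * π * (Gm u : ℝ) ^ 3 ≤ 15 * E ^ 6 :=
      mul_le_mul (by linarith) hG3 (by positivity) (by norm_num)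
    calc 1 + 4 * π * (Gm u : ℝ) ^ 3 ≤ 16 * E ^ 6 := by linarith
      _ ≤ E ^ 4 * E ^ 6 := mul_le_mul_of_nonneg_right hE4 (by positivity)
      _ = E ^ 10 := by ring
  have hR2 : ((Gm u * yy u ^ u : ℕ) : ℝ) ^ 2 ≤ (E ^ 3) ^ 2 := pow_le_pow_left₀ (Nat.cast_nonneg _) hR 2
  refine le_trans ?_ hfin
  calc 2 * (e : ℝ) * q₀ * 16 ^ (u ^ 98) * (1 + 4 * π * (Gm u : ℝ) ^ 3) * ((Gm u * yy u ^ u : ℕ) : ℝ) ^ 2
      ≤ E * E * E * E ^ 3 * E ^ 10 * (E ^ 3) ^ 2 := by gcongr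
    _ = E ^ 22 := by ring

lemma sh_small {u e Y q₀ : ℕ} {g : ℤ} {G : ℝ} {σ lm : ℕ → ℂ} (hu : 7 ≤ u) (hP : Par u (g ^ 2) e Y)
    (hL : PerL lm q₀ g) (hq : (q₀ : ℝ) ≤ Real.exp ((u : ℝ) ^ 2)) (hσ : ∀ r, ‖σ r‖ ≤ 1) (hl : ∀ p, ‖lm p‖ ≤ 1)
    (hG : |G - g| ≤ 2 * e * Y * Gm u) :
    ∑ r ∈ ((Gq e Y).filter (fun r => r.Coprime g.natAbs)).filter (fun r => r ≤ Gm u * yy u ^ u),
      ‖∑ V ∈ (Gq e (Y / r)).filter (fun V => V.Coprime r), trm e G σ lm (r * V) (rtv e g r V)‖ ≤ 11 * Y := by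
  have hu1 : 1 ≤ u := by omega
  have hx1 : (1 : ℝ) ≤ u := by exact_mod_cast hu1
  obtain ⟨R, hR⟩ : ∃ R : ℕ, R = Gm u * yy u ^ u := ⟨_, rfl⟩
  have ht1 : (1 : ℝ) ≤ (u : ℝ) ^ 98 := one_le_pow₀ hx1
  have hΓ : (u : ℝ) ^ 98 ≤ Gm u := by
    have := Real.add_one_le_exp ((u : ℝ) ^ 98)
    linarith [sh_Gm_ge u]
  have hΓ1 : (1 : ℝ) ≤ Gm u := ht1.trans hΓ
  have hR1 : 1 ≤ R := by
    rw [hR]
    exact Nat.mul_pos (by exact_mod_cast hΓ1) (Nat.pow_pos (sh_yy u))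
  have hz : 1 ≤ u ^ 98 := Nat.pow_pos hu1
  obtain ⟨c, hc⟩ : ∃ c : ℝ, c = 2 * (e : ℝ) * q₀ * 16 ^ (u ^ 98) * (1 + 4 * π * (Gm u : ℝ) ^ 3) := ⟨_, rfl⟩
  have hc0 : 0 ≤ c := by rw [hc]; positivity
  obtain ⟨δ, hδ⟩ : ∃ δ : ℝ, δ = 1 / (Gm u : ℝ) + 1 / ((u ^ 98 : ℕ) : ℝ) := ⟨_, rfl⟩
  have hδ0 : 0 ≤ δ := by rw [hδ]; positivity
  have hδ1 : δ ≤ 2 / (u : ℝ) ^ 98 := by
    have h1 : 1 / (Gm u : ℝ) ≤ 1 / (u : ℝ) ^ 98 := one_div_le_one_div_of_le (by linarith) hΓ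
    rw [hδ]; push_cast
    have : 2 / (u : ℝ) ^ 98 = 1 / (u : ℝ) ^ 98 + 1 / (u : ℝ) ^ 98 := by ring
    linarith
  have hlog : 1 + Real.log R ≤ 4 * (u : ℝ) ^ 98 := by
    have h1 : Real.log R ≤ 3 * (u : ℝ) ^ 98 := by
      rw [Real.log_le_iff_le_exp (by exact_mod_cast hR1), hR]
      exact sh_R_le hu1
    linarith
  have hY0 : (0 : ℝ) ≤ Y := Nat.cast_nonneg _
  rw [← hR]
  calc ∑ r ∈ ((Gq e Y).filter (fun r => r.Coprime g.natAbs)).filter (fun r => r ≤ R),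
        ‖∑ V ∈ (Gq e (Y / r)).filter (fun V => V.Coprime r), trm e G σ lm (r * V) (rtv e g r V)‖
      ≤ ∑ r ∈ ((Gq e Y).filter (fun r => r.Coprime g.natAbs)).filter (fun r => r ≤ R),
          (Y * (1 / (r : ℝ) ^ 2) + Y * δ * (1 / (r : ℝ)) + c * R) := by
        refine sum_le_sum fun r hr => ?_
        obtain ⟨hr1, hr2⟩ := mem_filter.mp hr
        obtain ⟨hr3, hr4⟩ := mem_filter.mp hr1
        have h1 := ram_inner hP.e1 hz hΓ1 hr3 hr4 hL hσ hl hG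
        refine h1.trans ?_
        have h2 : c * r ≤ c * R := mul_le_mul_of_nonneg_left (by exact_mod_cast hr2) hc0
        have h3 : 2 * (e : ℝ) * q₀ * 16 ^ (u ^ 98) * r * (1 + 4 * π * (Gm u : ℝ) ^ 3) = c * r := by
          rw [hc]; ring
        rw [h3, ← hδ]
        have h4 : (Y : ℝ) / (r : ℝ) ^ 2 = Y * (1 / (r : ℝ) ^ 2) := by ring
        have h5 : (Y : ℝ) / (r : ℝ) * δ = Y * δ * (1 / (r : ℝ)) := by ring
        rw [h4, h5]
        linarith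
    _ ≤ ∑ r ∈ Icc 1 R, (Y * (1 / (r : ℝ) ^ 2) + Y * δ * (1 / (r : ℝ)) + c * R) := by
        refine sum_le_sum_of_subset_of_nonneg (fun r hr => ?_) fun r _ _ => by positivity
        obtain ⟨hr1, hr2⟩ := mem_filter.mp hr
        obtain ⟨hr3, _⟩ := mem_filter.mp hr1
        exact mem_Icc.mpr ⟨(mem_Icc.mp (mem_filter.mp hr3).1).1, hr2⟩
    _ = Y * ∑ r ∈ Icc 1 R, (1 / (r : ℝ) ^ 2) + Y * δ * ∑ r ∈ Icc 1 R, (1 / (r : ℝ)) + c * (R : ℝ) ^ 2 := by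
        rw [sum_add_distrib, sum_add_distrib, ← mul_sum, ← mul_sum, sum_const, Nat.card_Icc, nsmul_eq_mul]
        simp only [add_tsub_cancel_right]
        ring
    _ ≤ Y * 2 + Y * 8 + Y := by
        have h1 : (Y : ℝ) * ∑ r ∈ Icc 1 R, (1 / (r : ℝ) ^ 2) ≤ Y * 2 := mul_le_mul_of_nonneg_left (sh_sq R) hY0
        have h2 : δ * ∑ r ∈ Icc 1 R, (1 / (r : ℝ)) ≤ 8 := by
          calc δ * ∑ r ∈ Icc 1 R, (1 / (r : ℝ)) ≤ 2 / (u : ℝ) ^ 98 * (4 * (u : ℝ) ^ 98) :=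
                mul_le_mul hδ1 ((sh_harm R).trans hlog) (sum_nonneg fun r _ => by positivity) (by positivity)
            _ = 8 := by field_simp; norm_num
        have h3 : (Y : ℝ) * δ * ∑ r ∈ Icc 1 R, (1 / (r : ℝ)) ≤ Y * 8 := by
          rw [mul_assoc]; exact mul_le_mul_of_nonneg_left h2 hY0
        have h4 : c * (R : ℝ) ^ 2 ≤ Y := by
          rw [hc, hR]; exact sh_third hu hP.e2 hq hP.Y1
        linarith
    _ = 11 * Y := by ring

lemma sh_triv {e r Y : ℕ} {g : ℤ} {G : ℝ} {σ lm : ℕ → ℂ} (hr : 1 ≤ r) (hσ : ∀ r, ‖σ r‖ ≤ 1)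
    (hl : ∀ p, ‖lm p‖ ≤ 1) :
    ‖∑ V ∈ (Gq e (Y / r)).filter (fun V => V.Coprime r), trm e G σ lm (r * V) (rtv e g r V)‖ ≤
      Y * ((#r.divisors : ℝ) / r) := by
  have h1 : #((Gq e (Y / r)).filter (fun V => V.Coprime r)) ≤ Y / r := by
    calc #((Gq e (Y / r)).filter (fun V => V.Coprime r)) ≤ #(Icc 1 (Y / r)) :=
          card_le_card ((filter_subset _ _).trans (filter_subset _ _))
      _ = Y / r := by simp
  have h2 : (1 : ℝ) ≤ #r.divisors := by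
    exact_mod_cast card_pos.mpr ⟨1, Nat.one_mem_divisors.mpr (by omega)⟩
  have hr0 : (0 : ℝ) < r := by exact_mod_cast hr
  calc ‖∑ V ∈ (Gq e (Y / r)).filter (fun V => V.Coprime r), trm e G σ lm (r * V) (rtv e g r V)‖
      ≤ ∑ V ∈ (Gq e (Y / r)).filter (fun V => V.Coprime r), (1 : ℝ) :=
        norm_sum_le_of_le _ fun V _ => norm_trm G hσ hl _ _
    _ = #((Gq e (Y / r)).filter (fun V => V.Coprime r)) := by simp
    _ ≤ ((Y / r : ℕ) : ℝ) := by exact_mod_cast h1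
    _ ≤ (Y : ℝ) / r := Nat.cast_div_le
    _ = Y * (1 / r) := by ring
    _ ≤ Y * ((#r.divisors : ℝ) / r) := by gcongr

theorem ram_part : ∃ (u₀ : ℕ) (K : ℝ), 0 < K ∧ ∀ (u e Y q₀ : ℕ) (g : ℤ) (G : ℝ) (σ lm : ℕ → ℂ), u₀ ≤ u →
    Par u (g ^ 2) e Y → PerL lm q₀ g → (q₀ : ℝ) ≤ Real.exp ((u : ℝ) ^ 2) → (∀ r, ‖σ r‖ ≤ 1) →
    (∀ p, ‖lm p‖ ≤ 1) → |G - g| ≤ 2 * e * Y * Gm u →
    ‖inr (g ^ 2) e G Y σ lm (lft u (g ^ 2) e G (sm u e g))‖ ≤ K * Y := by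
  obtain ⟨K, hK, hom⟩ := om_big
  obtain ⟨C, hC, hpoly⟩ := sh_poly 400
  refine ⟨7, 11 + K * (81 * C), by positivity, fun u e Y q₀ g G σ lm hu hP hL hq hσ hl hG => ?_⟩
  have hx1 : (1 : ℝ) ≤ u := by exact_mod_cast (by omega : 1 ≤ u)
  obtain ⟨Q, hQ⟩ : ∃ Q, Q = Qu u (g ^ 2) e := ⟨_, rfl⟩
  have hQy : ∀ q ∈ Q, q ≤ yy u := fun q hq => by
    rw [hQ] at hq
    exact (mem_Ioc.mp (mem_filter.mp hq).1).2
  obtain ⟨I, hI⟩ : ∃ I : ℕ → ℂ, ∀ r, I r =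
      ∑ V ∈ (Gq e (Y / r)).filter (fun V => V.Coprime r), trm e G σ lm (r * V) (rtv e g r V) := ⟨_, fun _ => rfl⟩
  have h1 : inr (g ^ 2) e G Y σ lm (lft u (g ^ 2) e G (sm u e g)) =
      ∑ r ∈ (Gq e Y).filter (fun r => r.Coprime g.natAbs), (if cp Q r ≤ Gm u then I r else 0) := by
    unfold inr
    rw [ram_reidx e Y g fun m ν => lft u (g ^ 2) e G (sm u e g) m ν * trm e G σ lm m ν]
    refine sum_congr rfl fun r hr => ?_
    obtain ⟨hr1, hr2⟩ := mem_filter.mp hr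
    have h2 : ∀ V ∈ (Gq e (Y / r)).filter (fun V => V.Coprime r),
        lft u (g ^ 2) e G (sm u e g) (r * V) (rtv e g r V) = if cp Q r ≤ Gm u then 1 else 0 := fun V hV => by
      obtain ⟨hV1, hV2⟩ := mem_filter.mp hV
      unfold lft sm
      rw [cpl_rtv hr1 hV1 hV2 hr2, hQ]
    rw [sum_congr rfl fun V hV => by rw [h2 V hV], ← mul_sum, ← hI]
    split_ifs <;> simp
  have hY0 : (0 : ℝ) ≤ Y := Nat.cast_nonneg _
  have hsm := sh_small hu hP hL hq hσ hl hG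
  simp only [← hI] at hsm
  have hbig : ∑ r ∈ ((Gq e Y).filter (fun r => r.Coprime g.natAbs)).filter (fun r => ¬r ≤ Gm u * yy u ^ u),
      ‖(if cp Q r ≤ Gm u then I r else 0)‖ ≤ K * (81 * C) * Y := by
    have hlogY : 1 + Real.log Y ≤ 3 * (u : ℝ) ^ 100 := by
      have hY1 : (0 : ℝ) < Y := (Real.exp_pos _).trans_le hP.Y1
      have h2 : Real.log Y ≤ 2 * (u : ℝ) ^ 100 := (Real.log_le_iff_le_exp hY1).mpr hP.Y2
      have h3 : (1 : ℝ) ≤ (u : ℝ) ^ 100 := one_le_pow₀ hx1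
      linarith
    have hlog0 : 0 ≤ 1 + Real.log Y := by have := Real.log_natCast_nonneg Y; linarith
    have h4 : (1 + Real.log Y) ^ 4 / 2 ^ u ≤ 81 * C := by
      calc (1 + Real.log Y) ^ 4 / 2 ^ u ≤ (3 * (u : ℝ) ^ 100) ^ 4 / 2 ^ u := by gcongr
        _ = 81 * ((u : ℝ) ^ 400 / 2 ^ u) := by ring
        _ ≤ 81 * C := mul_le_mul_of_nonneg_left (hpoly u) (by norm_num)
    calc ∑ r ∈ ((Gq e Y).filter (fun r => r.Coprime g.natAbs)).filter (fun r => ¬r ≤ Gm u * yy u ^ u),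
          ‖(if cp Q r ≤ Gm u then I r else 0)‖
        = ∑ r ∈ (((Gq e Y).filter (fun r => r.Coprime g.natAbs)).filter
            (fun r => ¬r ≤ Gm u * yy u ^ u)).filter (fun r => cp Q r ≤ Gm u), ‖I r‖ := by
          rw [sum_filter (fun r => cp Q r ≤ Gm u)]
          refine sum_congr rfl fun r _ => ?_
          split_ifs <;> simp
      _ ≤ ∑ r ∈ (((Gq e Y).filter (fun r => r.Coprime g.natAbs)).filter
            (fun r => ¬r ≤ Gm u * yy u ^ u)).filter (fun r => cp Q r ≤ Gm u), Y * ((#r.divisors : ℝ) / r) := by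
          refine sum_le_sum fun r hr => ?_
          have h5 := (mem_filter.mp (mem_filter.mp (mem_filter.mp hr).1).1).1
          rw [hI]
          exact sh_triv (mem_Icc.mp (mem_filter.mp h5).1).1 hσ hl
      _ ≤ ∑ r ∈ (Icc 1 Y).filter (fun r => Squarefree r ∧ u < #(r.primeFactors ∩ Q)),
            Y * ((#r.divisors : ℝ) / r) := by
          refine sum_le_sum_of_subset_of_nonneg (fun r hr => ?_) fun r _ _ => by positivity
          obtain ⟨h5, h6⟩ := mem_filter.mp hr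
          obtain ⟨h7, h8⟩ := mem_filter.mp h5
          obtain ⟨h9, h10⟩ := mem_filter.mp (mem_filter.mp h7).1
          exact mem_filter.mpr ⟨h9, h10.1, sh_card h10.1 (sh_yy u) hQy h6 (not_le.mp h8)⟩
      _ ≤ Y * (K * (1 + Real.log Y) ^ 4 / 2 ^ u) := by
          rw [← mul_sum]; exact mul_le_mul_of_nonneg_left (hom Q Y u) hY0
      _ ≤ Y * (K * (81 * C)) := by
          rw [mul_div_assoc]
          exact mul_le_mul_of_nonneg_left (mul_le_mul_of_nonneg_left h4 hK.le) hY0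
      _ = K * (81 * C) * Y := mul_comm _ _
  have hsm' : ∑ r ∈ ((Gq e Y).filter (fun r => r.Coprime g.natAbs)).filter (fun r => r ≤ Gm u * yy u ^ u),
      ‖(if cp Q r ≤ Gm u then I r else 0)‖ ≤ 11 * Y := by
    refine le_trans (sum_le_sum fun r _ => ?_) hsm
    split_ifs <;> simp
  rw [h1]
  refine (norm_sum_le _ _).trans ?_
  rw [← sum_filter_add_sum_filter_not _ (fun r => r ≤ Gm u * yy u ^ u)]
  linarith

end

end Pool.Agent.MP_9f080f_an
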