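import Pool.Agent.MP_9f080f_an.Mg.G_SH

namespace Pool.Agent.MP_9f080f_an
open Complex Finset
open scoped Real

noncomputable section

/-! The square case, part two.
`col_split`: `sq_eq_sq_iff_eq_or_eq_neg`.  `deg_one`: every prime of `cpl e g i` divides `i'.1`, so `cpl e g i ∣ i'.1` (`Finset.prod_primes_dvd`), and `i'.1` determines `i'.2`;
`Nat.card_multiples`/`Nat.Ioc_filter_dvd_card_eq_div`.  `deg_far`: with `A = 2ez + g ∈ [0, 2ec)` and `A'` alike, `2 g (c - c') = c A' - c' A`, so `|c - c'| < Y/Γ`.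
`deg_small`: `i ↦ (cpl e g i, cpl e (-g) i, gcd i.1 |g|) ∈ Icc 1 Γ ×ˢ Icc 1 Γ ×ˢ divisors |g|` is injective: each prime of `c` divides exactly one of the three
numbers, so `c` is their product, and `2 e z ≡ g` modulo the primes of the first, `≡ -g` modulo the others; `#divisors ≤ 2 √` by `shrough_half` (or `Nat.card_divisors_le...`).
`inr_sq`: let `Γ = Gm u`, `exp (u^98) ≤ Γ ≤ 2 exp (u^98)`.  `inr` is linear in the coefficients.  If `e Y Γ ≤ |g|` write `1 = sm g + (1 - sm g)`; use `ram_part` (`G = g`) and `app` with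
`E₀ = ⌊3Y/Γ + 1⌋₊` (`col_split`, `deg_one`, `deg_far`).  Otherwise `1 = sm g + sm (-g) - sm g * sm (-g) + (1 - sm g)(1 - sm (-g))`; use `ram_part` for `g` and `-g` (`G = g`,
`(-g)² = g²`), `app` with `E₀ = ⌊2 Γ² √(e Y Γ)⌋₊` (`deg_small`) and `app` with `E₀ = ⌊2Y/Γ⌋₊` (`deg_one` for `g` and `-g`).
`aw_sq`: `n C = r²`, `g = ± r`, `s √(nC) = g`; `red` with `N = C`, `Z = exp (u²)`, `B = K`, `u = uu X`, `sf_par`, `lam_per`; `ell C ≤ ell n + 1 ≤ u`,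
`4 C ≤ 4 exp (16 ell n) ≤ exp (u²)`, and `exp (-u/12) (1 + 2u^100)` is bounded. -/

lemma sia_mem {D z₀ : ℤ} {e Y : ℕ} {Q : Finset ℕ} {i : ℕ × ℤ} (hi : i ∈ Ob D e Y Q z₀) :
    1 ≤ i.1 ∧ i.1 ≤ Y ∧ z₀ ≤ i.2 ∧ i.2 < z₀ + i.1 := by
  simp only [Ob, Gq, mem_filter, mem_product, mem_Icc, mem_Ico] at hi
  exact ⟨hi.1.1.1.1, hi.1.1.1.2, hi.1.2.1, hi.2.2.1⟩

lemma sia_inj {e : ℕ} (he : 1 ≤ e) {g : ℤ} {i a b : ℕ × ℤ} (hi : 1 ≤ i.1)
    (ha : a.1 * (2 * e * i.2 + g) = i.1 * (2 * e * a.2 + g))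
    (hb : b.1 * (2 * e * i.2 + g) = i.1 * (2 * e * b.2 + g)) (h : a.1 = b.1) : a = b := by
  rw [h, hb] at ha
  have h1 : (i.1 : ℤ) ≠ 0 := by omega
  have h2 : (2 * e : ℤ) ≠ 0 := by omega
  exact Prod.ext h (mul_left_cancel₀ h2 (add_right_cancel (mul_left_cancel₀ h1 ha))).symm

lemma sia_win {D g : ℤ} {e Y : ℕ} {Q : Finset ℕ} (he : 1 ≤ e) {i : ℕ × ℤ}
    (hi : i ∈ Ob D e Y Q (zz g e)) :
    (0 : ℝ) ≤ 2 * e * i.2 + g ∧ (2 * e * i.2 + g : ℝ) ≤ 2 * e * i.1 := by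
  obtain ⟨-, -, h1, h2⟩ := sia_mem hi
  have he' : (0 : ℝ) < 2 * e := by
    have : (1 : ℝ) ≤ e := by exact_mod_cast he
    linarith
  have h3 : -(g : ℝ) / (2 * e) ≤ i.2 := Int.ceil_le.1 h1
  have h4 : (zz g e : ℝ) < -(g : ℝ) / (2 * e) + 1 := Int.ceil_lt_add_one _
  have h5 : (i.2 : ℝ) + 1 ≤ zz g e + i.1 := by exact_mod_cast h2
  have h6 : (i.2 : ℝ) - i.1 ≤ -(g : ℝ) / (2 * e) := by linarith
  rw [div_le_iff₀ he'] at h3
  rw [le_div_iff₀ he'] at h6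
  constructor <;> linarith

theorem col_split {e : ℕ} {g : ℤ} {i i' : ℕ × ℤ} (h : col (g ^ 2) e i i' = 0) :
    i'.1 * (2 * e * i.2 + g) = i.1 * (2 * e * i'.2 + g) ∨
      i'.1 * (2 * e * i.2 + -g) = i.1 * (2 * e * i'.2 + -g) := by
  have h1 : (g * ((i'.1 : ℤ) - i.1)) ^ 2 = (2 * e * (i'.1 * i.2 - i.1 * i'.2)) ^ 2 := by
    unfold col at h
    linear_combination h
  rcases sq_eq_sq_iff_eq_or_eq_neg.1 h1 with h2 | h2
  · right; linear_combination -h2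
  · left; linear_combination h2

theorem deg_one {D z₀ : ℤ} {e Y : ℕ} {Q : Finset ℕ} (he : 1 ≤ e) (g : ℤ) {i : ℕ × ℤ}
    (hi : i ∈ Ob D e Y Q z₀) :
    #{i' ∈ Ob D e Y Q z₀ | i'.1 * (2 * e * i.2 + g) = i.1 * (2 * e * i'.2 + g)} ≤ Y / cpl e g i := by
  rw [← Nat.Ioc_filter_dvd_card_eq_div]
  refine card_le_card_of_injOn Prod.fst (fun a ha => ?_) fun a ha b hb h =>
    sia_inj he (sia_mem hi).1 (mem_filter.1 ha).2 (mem_filter.1 hb).2 h
  obtain ⟨h1, h2⟩ := mem_filter.1 ha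
  refine mem_filter.2 ⟨mem_Ioc.2 ⟨(sia_mem h1).1, (sia_mem h1).2.1⟩, ?_⟩
  refine Finset.prod_primes_dvd _ (fun p hp => ?_) fun p hp => ?_
  · exact (Nat.prime_of_mem_primeFactors (mem_filter.1 hp).1).prime
  · obtain ⟨h3, h4⟩ := mem_filter.1 hp
    have h5 : (p : ℤ) ∣ a.1 * (2 * e * i.2 + g) := by
      rw [h2]
      exact (Int.natCast_dvd_natCast.2 (Nat.dvd_of_mem_primeFactors h3)).mul_right _
    exact Int.natCast_dvd_natCast.1 (((Nat.prime_iff_prime_int.1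
      (Nat.prime_of_mem_primeFactors h3)).dvd_or_dvd h5).resolve_right h4)

theorem deg_far {D g : ℤ} {e Y : ℕ} {Q : Finset ℕ} {Γ : ℝ} (he : 1 ≤ e) (hΓ : 0 < Γ)
    (hg : e * Y * Γ ≤ |(g : ℝ)|) {i : ℕ × ℤ} (hi : i ∈ Ob D e Y Q (zz g e)) :
    (#{i' ∈ Ob D e Y Q (zz g e) | i'.1 * (2 * e * i.2 + -g) = i.1 * (2 * e * i'.2 + -g)} : ℝ) ≤
      2 * Y / Γ + 1 := by
  obtain ⟨c1, cY, -, -⟩ := sia_mem hi
  obtain ⟨a0, a1⟩ := sia_win he hi
  have he' : (1 : ℝ) ≤ e := by exact_mod_cast he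
  have c1' : (1 : ℝ) ≤ i.1 := by exact_mod_cast c1
  have cY' : (i.1 : ℝ) ≤ Y := by exact_mod_cast cY
  have hY : (0 : ℝ) < Y := by linarith
  have hm : (⌊Y / Γ⌋₊ : ℝ) ≤ Y / Γ := Nat.floor_le (by positivity)
  have key : #{i' ∈ Ob D e Y Q (zz g e) |
      i'.1 * (2 * e * i.2 + -g) = i.1 * (2 * e * i'.2 + -g)} ≤
      #(Icc ((i.1 : ℤ) - ⌊Y / Γ⌋₊) (i.1 + ⌊Y / Γ⌋₊)) := by
    refine card_le_card_of_injOn (fun a => (a.1 : ℤ)) (fun a ha => ?_) fun a ha b hb h =>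
      sia_inj he c1 (mem_filter.1 ha).2 (mem_filter.1 hb).2 (Int.natCast_inj.1 h)
    obtain ⟨h1, h2⟩ := mem_filter.1 ha
    obtain ⟨b0, b1⟩ := sia_win he h1
    have d0 : (0 : ℝ) ≤ a.1 := Nat.cast_nonneg _
    have dY : (a.1 : ℝ) ≤ Y := by exact_mod_cast (sia_mem h1).2.1
    have h3 : (a.1 : ℝ) * (2 * e * i.2 + -g) = i.1 * (2 * e * a.2 + -g) := by exact_mod_cast h2
    have h4 : |(g : ℝ) * (a.1 - i.1)| ≤ e * (i.1 * a.1) := by
      have t1 := mul_nonneg d0 a0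
      have t2 := mul_le_mul_of_nonneg_left a1 d0
      have t3 := mul_nonneg (zero_le_one.trans c1') b0
      have t4 := mul_le_mul_of_nonneg_left b1 (zero_le_one.trans c1')
      rw [abs_le]
      constructor <;> linarith
    have h5 : (e : ℝ) * (i.1 * a.1) ≤ e * (Y * Y) :=
      mul_le_mul_of_nonneg_left (mul_le_mul cY' dY d0 hY.le) (by linarith)
    have h6 := mul_le_mul_of_nonneg_right hg (abs_nonneg ((a.1 : ℝ) - i.1))
    rw [← abs_mul] at h6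
    have h7 : |(a.1 : ℝ) - i.1| ≤ Y / Γ := by
      rw [le_div_iff₀ hΓ]
      have : (e * Y : ℝ) * (|(a.1 : ℝ) - i.1| * Γ) ≤ e * Y * Y := by linarith
      exact le_of_mul_le_mul_left this (by positivity)
    have h8 : ((a.1 : ℤ) - i.1).natAbs ≤ ⌊Y / Γ⌋₊ := by
      refine Nat.le_floor ?_
      rw [Nat.cast_natAbs]
      push_cast
      exact h7
    exact mem_Icc.2 ⟨by show _ ≤ (a.1 : ℤ); omega, by show (a.1 : ℤ) ≤ _; omega⟩
  rw [Int.card_Icc, show (i.1 : ℤ) + ⌊Y / Γ⌋₊ + 1 - (i.1 - ⌊Y / Γ⌋₊) =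
    ((2 * ⌊Y / Γ⌋₊ + 1 : ℕ) : ℤ) by push_cast; ring, Int.toNat_natCast] at key
  have key' : (#{i' ∈ Ob D e Y Q (zz g e) |
      i'.1 * (2 * e * i.2 + -g) = i.1 * (2 * e * i'.2 + -g)} : ℝ) ≤ 2 * ⌊Y / Γ⌋₊ + 1 := by
    exact_mod_cast key
  rw [mul_div_assoc]
  linarith

end

end Pool.Agent.MP_9f080f_an

namespace Pool.Agent.MP_9f080f_an
open Complex Finset
open scoped Real

noncomputable section

lemma sib_div (m : ℕ) : (#m.divisors : ℝ) ≤ 2 * √(m : ℝ) := by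
  have h1 : #(m.divisors.filter fun e => e * e ≤ m) ≤ Nat.sqrt m := by
    refine (card_le_card (t := Icc 1 (Nat.sqrt m)) fun d hd => ?_).trans (by simp)
    obtain ⟨h2, h3⟩ := mem_filter.1 hd
    exact mem_Icc.2 ⟨Nat.pos_of_mem_divisors h2, Nat.le_sqrt.2 h3⟩
  have h2 : ((Nat.sqrt m : ℕ) : ℝ) ≤ √(m : ℝ) := Real.nat_sqrt_le_real_sqrt
  have h3 : (#m.divisors : ℝ) ≤ 2 * (Nat.sqrt m : ℕ) := by
    exact_mod_cast (shrough_half m).trans (Nat.mul_le_mul_left 2 h1)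
  linarith

lemma sib_pf (e : ℕ) (g : ℤ) (i : ℕ × ℤ) :
    (cpl e g i).primeFactors =
      i.1.primeFactors.filter fun p : ℕ => ¬(p : ℤ) ∣ 2 * e * i.2 + g :=
  Nat.primeFactors_prod fun _ hp => Nat.prime_of_mem_primeFactors (mem_filter.1 hp).1

lemma sib_pos (e : ℕ) (g : ℤ) (i : ℕ × ℤ) : 1 ≤ cpl e g i :=
  prod_pos fun _ hp => (Nat.prime_of_mem_primeFactors (mem_filter.1 hp).1).pos

lemma sib_nd {e c p : ℕ} (hc : c.Coprime (2 * e)) (hp : p ∈ c.primeFactors) :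
    ¬(p : ℤ) ∣ 2 * e := by
  intro h
  have h1 : p ∣ 2 * e := by exact_mod_cast h
  exact (Nat.prime_of_mem_primeFactors hp).one_lt.ne'
    (Nat.eq_one_of_dvd_coprimes hc (Nat.dvd_of_mem_primeFactors hp) h1)

lemma sib_sub {g : ℤ} {e : ℕ} {i i' : ℕ × ℤ} (hc : i.1.Coprime (2 * e))
    (h0 : i'.1 ≠ 0) (h1 : cpl e g i = cpl e g i') (h2 : cpl e (-g) i = cpl e (-g) i')
    (h3 : i.1.gcd g.natAbs = i'.1.gcd g.natAbs) : i.1.primeFactors ⊆ i'.1.primeFactors := by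
  intro p hp
  have hpp := Nat.prime_of_mem_primeFactors hp
  by_cases ha : (p : ℤ) ∣ 2 * e * i.2 + g
  · by_cases hb : (p : ℤ) ∣ 2 * e * i.2 + -g
    · have h4 : (p : ℤ) ∣ 2 * g := by
        have := dvd_sub ha hb
        rwa [show 2 * e * i.2 + g - (2 * e * i.2 + -g) = 2 * g by ring] at this
      have h5 : (p : ℤ) ∣ g :=
        ((Nat.prime_iff_prime_int.1 hpp).dvd_or_dvd h4).resolve_left fun h =>
          sib_nd hc hp (h.mul_right _)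
      have h6 : p ∣ i.1.gcd g.natAbs :=
        Nat.dvd_gcd (Nat.dvd_of_mem_primeFactors hp) (Int.natCast_dvd.1 h5)
      rw [h3] at h6
      exact Nat.mem_primeFactors.2 ⟨hpp, h6.trans (Nat.gcd_dvd_left _ _), h0⟩
    · have h4 : p ∈ (cpl e (-g) i).primeFactors := by rw [sib_pf]; exact mem_filter.2 ⟨hp, hb⟩
      rw [h2, sib_pf] at h4
      exact (mem_filter.1 h4).1
  · have h4 : p ∈ (cpl e g i).primeFactors := by rw [sib_pf]; exact mem_filter.2 ⟨hp, ha⟩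
    rw [h1, sib_pf] at h4
    exact (mem_filter.1 h4).1

lemma sib_or {g z : ℤ} {e c p : ℕ} (hp : p ∈ c.primeFactors)
    (h : (c : ℤ) ∣ 4 * (e : ℤ) ^ 2 * z ^ 2 - g ^ 2) (ha : ¬(p : ℤ) ∣ 2 * e * z + g) :
    (p : ℤ) ∣ 2 * e * z - g := by
  have h1 : (p : ℤ) ∣ (2 * e * z + g) * (2 * e * z - g) := by
    rw [show (2 * e * z + g) * (2 * e * z - g) = 4 * (e : ℤ) ^ 2 * z ^ 2 - g ^ 2 by ring]
    exact (Int.natCast_dvd_natCast.2 (Nat.dvd_of_mem_primeFactors hp)).trans h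
  exact ((Nat.prime_iff_prime_int.1 (Nat.prime_of_mem_primeFactors hp)).dvd_or_dvd h1).resolve_left ha

lemma sib_eq {g z z' : ℤ} {e c : ℕ} (hs : Squarefree c) (hc : c.Coprime (2 * e))
    (h : (c : ℤ) ∣ 4 * (e : ℤ) ^ 2 * z ^ 2 - g ^ 2)
    (h' : (c : ℤ) ∣ 4 * (e : ℤ) ^ 2 * z' ^ 2 - g ^ 2)
    (h1 : cpl e g (c, z) = cpl e g (c, z')) : (c : ℤ) ∣ z - z' := by
  have h2 := congrArg Nat.primeFactors h1
  rw [sib_pf, sib_pf] at h2
  rw [Int.natCast_dvd, ← Nat.prod_primeFactors_of_squarefree hs]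
  refine prod_primes_dvd _ (fun p hp => (Nat.prime_of_mem_primeFactors hp).prime) fun p hp => ?_
  rw [← Int.natCast_dvd]
  have h3 : (¬(p : ℤ) ∣ 2 * e * z + g) ↔ ¬(p : ℤ) ∣ 2 * e * z' + g := by
    have := Finset.ext_iff.1 h2 p
    simpa only [mem_filter, hp, true_and] using this
  have h4 : (p : ℤ) ∣ 2 * e * (z - z') := by
    by_cases ha : (p : ℤ) ∣ 2 * e * z + g
    · have hb : (p : ℤ) ∣ 2 * e * z' + g := not_not.1 fun hb => h3.2 hb ha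
      have := dvd_sub ha hb
      rwa [show 2 * e * z + g - (2 * e * z' + g) = 2 * e * (z - z') by ring] at this
    · have := dvd_sub (sib_or hp h ha) (sib_or hp h' (h3.1 ha))
      rwa [show 2 * e * z - g - (2 * e * z' - g) = 2 * e * (z - z') by ring] at this
  exact ((Nat.prime_iff_prime_int.1 (Nat.prime_of_mem_primeFactors hp)).dvd_or_dvd h4).resolve_left
    (sib_nd hc hp)

theorem deg_small {g z₀ : ℤ} {e Y : ℕ} {Q : Finset ℕ} (hg : g ≠ 0) (Γ : ℕ) :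
    (#{i ∈ Ob (g ^ 2) e Y Q z₀ | cpl e g i ≤ Γ ∧ cpl e (-g) i ≤ Γ} : ℝ) ≤ Γ ^ 2 * (2 * √|(g : ℝ)|) := by
  have key : #{i ∈ Ob (g ^ 2) e Y Q z₀ | cpl e g i ≤ Γ ∧ cpl e (-g) i ≤ Γ} ≤
      #(Icc 1 Γ ×ˢ Icc 1 Γ ×ˢ g.natAbs.divisors) := by
    refine card_le_card_of_injOn (fun i => (cpl e g i, cpl e (-g) i, i.1.gcd g.natAbs))
      (fun i hi => ?_) fun i hi i' hi' h => ?_
    · obtain ⟨-, h1, h2⟩ := mem_filter.1 (mem_coe.1 hi)
      exact mem_coe.2 (mem_product.2 ⟨mem_Icc.2 ⟨sib_pos _ _ _, h1⟩, mem_product.2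
        ⟨mem_Icc.2 ⟨sib_pos _ _ _, h2⟩,
          Nat.mem_divisors.2 ⟨Nat.gcd_dvd_right _ _, Int.natAbs_ne_zero.2 hg⟩⟩⟩)
    · obtain ⟨a1, -, a2, a3⟩ := mem_filter.1 (mem_filter.1 (mem_coe.1 hi)).1
      obtain ⟨b1, -, b2, b3⟩ := mem_filter.1 (mem_filter.1 (mem_coe.1 hi')).1
      obtain ⟨a4, a5⟩ := mem_product.1 a1
      obtain ⟨b4, b5⟩ := mem_product.1 b1
      obtain ⟨-, a6, a7⟩ := mem_filter.1 a4
      obtain ⟨-, b6, b7⟩ := mem_filter.1 b4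
      simp only [Prod.mk.injEq] at h
      obtain ⟨h1, h2, h3⟩ := h
      have h4 : i.1 = i'.1 := by
        rw [← Nat.prod_primeFactors_of_squarefree a6, ← Nat.prod_primeFactors_of_squarefree b6,
          Subset.antisymm (sib_sub a7 b6.ne_zero h1 h2 h3)
            (sib_sub b7 a6.ne_zero h1.symm h2.symm h3.symm)]
      obtain ⟨c, z⟩ := i
      obtain ⟨c', z'⟩ := i'
      simp only at h4 a2 b2 a3 b3 a5 b5 a6 a7
      subst h4
      have h5 := sib_eq a6 a7 a3 b3 h1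
      have a8 := (mem_Ico.1 a5).1
      have b8 := (mem_Ico.1 b5).1
      have h6 : z - z' = 0 := Int.eq_zero_of_abs_lt_dvd h5 (abs_lt.2 ⟨by omega, by omega⟩)
      rw [sub_eq_zero.1 h6]
  rw [card_product, card_product, Nat.card_Icc, Nat.add_sub_cancel] at key
  have h1 := sib_div g.natAbs
  rw [Nat.cast_natAbs, Int.cast_abs] at h1
  calc _ ≤ ((Γ * (Γ * #g.natAbs.divisors) : ℕ) : ℝ) := by exact_mod_cast key
    _ = Γ ^ 2 * (#g.natAbs.divisors : ℝ) := by push_cast; ring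
    _ ≤ _ := by gcongr

end

end Pool.Agent.MP_9f080f_an

namespace Pool.Agent.MP_9f080f_an
open Complex Finset
open scoped Real

noncomputable section

lemma sic_lin2 (u : ℕ) (D : ℤ) (e : ℕ) (G : ℝ) (Y : ℕ) (σ lm : ℕ → ℂ) (a b : ℕ × ℤ → ℂ)
    (h : ∀ i, a i + b i = 1) :
    inr D e G Y σ lm (fun _ _ => 1) =
      inr D e G Y σ lm (lft u D e G a) + inr D e G Y σ lm (lft u D e G b) := by
  simp only [inr, lft, ← sum_add_distrib, ← add_mul, h]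

lemma sic_lin4 (u : ℕ) (D : ℤ) (e : ℕ) (G : ℝ) (Y : ℕ) (σ lm : ℕ → ℂ) (a b c d : ℕ × ℤ → ℂ)
    (h : ∀ i, a i + b i - c i + d i = 1) :
    inr D e G Y σ lm (fun _ _ => 1) =
      inr D e G Y σ lm (lft u D e G a) + inr D e G Y σ lm (lft u D e G b) -
        inr D e G Y σ lm (lft u D e G c) + inr D e G Y σ lm (lft u D e G d) := by
  simp only [inr, lft, ← sum_add_distrib, ← sum_sub_distrib, ← add_mul, ← sub_mul, h]

lemma sic_sm_norm (u e : ℕ) (g : ℤ) (i : ℕ × ℤ) : ‖sm u e g i‖ ≤ 1 := by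
  unfold sm
  split_ifs <;> simp

lemma sic_sm_norm' (u e : ℕ) (g : ℤ) (i : ℕ × ℤ) : ‖1 - sm u e g i‖ ≤ 1 := by
  unfold sm
  split_ifs <;> simp

lemma sic_sm_ne {u e : ℕ} {g : ℤ} {i : ℕ × ℤ} (h : sm u e g i ≠ 0) : cpl e g i ≤ Gm u := by
  unfold sm at h
  by_contra hc
  exact h (if_neg hc)

lemma sic_sm_ne' {u e : ℕ} {g : ℤ} {i : ℕ × ℤ} (h : 1 - sm u e g i ≠ 0) : Gm u ≤ cpl e g i := by
  unfold sm at h
  by_contra hc
  apply h
  rw [if_pos (by omega), sub_self]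

lemma sic_split {z₀ g : ℤ} {e Y : ℕ} {Q : Finset ℕ} (a : ℕ × ℤ → ℂ) (i : ℕ × ℤ) :
    #{i' ∈ Ob (g ^ 2) e Y Q z₀ | a i' ≠ 0 ∧ col (g ^ 2) e i i' = 0} ≤
      #{i' ∈ Ob (g ^ 2) e Y Q z₀ | i'.1 * (2 * e * i.2 + g) = i.1 * (2 * e * i'.2 + g)} +
        #{i' ∈ Ob (g ^ 2) e Y Q z₀ | i'.1 * (2 * e * i.2 + -g) = i.1 * (2 * e * i'.2 + -g)} := by
  refine le_trans (card_le_card ?_) (card_union_le _ _)
  intro i' hi'
  rw [mem_filter] at hi'
  rw [mem_union, mem_filter, mem_filter]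
  rcases col_split hi'.2.2 with h | h
  · exact Or.inl ⟨hi'.1, h⟩
  · exact Or.inr ⟨hi'.1, h⟩

lemma sic_num {u e Y : ℕ} {D : ℤ} (hu : 6 ≤ u) (hP : Par u D e Y) :
    2 ≤ Real.exp ((u : ℝ) ^ 98) ∧ (e : ℝ) ≤ Real.exp ((u : ℝ) ^ 98) ∧
      Real.exp ((u : ℝ) ^ 98) ^ 14 ≤ Y := by
  have hu' : (6 : ℝ) ≤ u := by exact_mod_cast hu
  have h1 : (1 : ℝ) ≤ (u : ℝ) ^ 98 := one_le_pow₀ (by linarith)
  refine ⟨?_, hP.e2.trans (Real.exp_le_exp.2 (pow_le_pow_right₀ (by linarith) (by norm_num))), ?_⟩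
  · have := Real.add_one_le_exp ((u : ℝ) ^ 98)
    linarith
  · refine le_trans ?_ hP.Y1
    rw [← Real.exp_nat_mul]
    apply Real.exp_le_exp.2
    have h2 : (u : ℝ) ^ 100 = (u : ℝ) ^ 2 * (u : ℝ) ^ 98 := by ring
    have h3 : (36 : ℝ) ≤ (u : ℝ) ^ 2 := by nlinarith
    rw [h2]
    push_cast
    nlinarith

theorem inr_sq : ∃ (u₀ : ℕ) (K : ℝ), 0 < K ∧ ∀ (u e Y q₀ : ℕ) (g : ℤ) (σ lm : ℕ → ℂ), u₀ ≤ u →
    Par u (g ^ 2) e Y → PerL lm q₀ g → (q₀ : ℝ) ≤ Real.exp ((u : ℝ) ^ 2) → (∀ r, ‖σ r‖ ≤ 1) →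
    (∀ p, ‖lm p‖ ≤ 1) → ‖inr (g ^ 2) e g Y σ lm (fun _ _ => 1)‖ ≤ K * Y := by
  obtain ⟨u₁, K₁, hK₁, ram⟩ := ram_part
  obtain ⟨u₂, K₂, hK₂, ap⟩ := app
  refine ⟨max (max u₁ u₂) 6, 2 * K₁ + 2 * K₂, by positivity, ?_⟩
  intro u e Y q₀ g σ lm hu hP hL hq hσ hl
  have hu₁ : u₁ ≤ u := (le_max_left _ _).trans ((le_max_left _ _).trans hu)
  have hu₂ : u₂ ≤ u := (le_max_right _ _).trans ((le_max_left _ _).trans hu)
  have hu6 : 6 ≤ u := (le_max_right _ _).trans hu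
  obtain ⟨hE2, heE, hEY⟩ := sic_num hu6 hP
  have hΓ1 : Real.exp ((u : ℝ) ^ 98) ≤ Gm u := Nat.le_ceil _
  have hΓ2 : (Gm u : ℝ) < Real.exp ((u : ℝ) ^ 98) + 1 := Nat.ceil_lt_add_one (Real.exp_pos _).le
  generalize hE : Real.exp ((u : ℝ) ^ 98) = E at hE2 heE hEY hΓ1 hΓ2
  have hY0 : (0 : ℝ) ≤ Y := Nat.cast_nonneg _
  have he0 : (0 : ℝ) ≤ e := Nat.cast_nonneg _
  have hΓ0 : (0 : ℝ) < Gm u := by linarith
  have hΓ0' : 0 < Gm u := by exact_mod_cast hΓ0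
  have hE0 : 0 < E := by linarith
  have hEY1 : E ≤ Y := le_trans (le_self_pow₀ (by linarith) (by norm_num)) hEY
  have hdiv : (Y : ℝ) / Gm u * E ≤ Y := by
    rw [div_mul_eq_mul_div, div_le_iff₀ hΓ0]
    exact mul_le_mul_of_nonneg_left hΓ1 hY0
  have hg0 : g ≠ 0 := by
    rintro rfl
    have := hP.D1
    norm_num at this
  have ap' : ∀ (E₀ : ℕ) (a : ℕ × ℤ → ℂ), (∀ i, ‖a i‖ ≤ 1) →
      (∀ i ∈ Obu u (g ^ 2) e Y g, a i ≠ 0 →
        #{i' ∈ Obu u (g ^ 2) e Y g | a i' ≠ 0 ∧ col (g ^ 2) e i i' = 0} ≤ E₀) →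
      E₀ * E ≤ 6 * Y → ‖inr (g ^ 2) e g Y σ lm (lft u (g ^ 2) e g a)‖ ≤ K₂ * Y := by
    intro E₀ a ha h1 h2
    refine (ap u (g ^ 2) e Y E₀ g σ lm a hu₂ hP (by push_cast; exact le_rfl) hσ hl ha h1
      (by rw [hE]; exact h2)).trans ?_
    have hu' : (6 : ℝ) ≤ u := by exact_mod_cast hu6
    exact div_le_self (by positivity) (one_le_pow₀ (by linarith))
  have r1 : ‖inr (g ^ 2) e g Y σ lm (lft u (g ^ 2) e g (sm u e g))‖ ≤ K₁ * Y :=
    ram u e Y q₀ g g σ lm hu₁ hP hL hq hσ hl (by rw [sub_self, abs_zero]; positivity)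
  have k1 : 0 ≤ K₁ * Y := by positivity
  have k2 : 0 ≤ K₂ * Y := by positivity
  rcases le_or_gt ((e : ℝ) * Y * Gm u) |(g : ℝ)| with hc | hc
  · rw [sic_lin2 u (g ^ 2) e g Y σ lm (sm u e g) (fun i => 1 - sm u e g i) (fun i => by ring)]
    have r2 := ap' ⌊3 * ((Y : ℝ) / Gm u) + 1⌋₊ (fun i => 1 - sm u e g i) (sic_sm_norm' u e g)
      (fun i hi hne => by
        have a1 := sic_split (g := g) (z₀ := zz g e) (e := e) (Y := Y) (Q := Qu u (g ^ 2) e)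
          (fun i => 1 - sm u e g i) i
        have a2 := (deg_one hP.e1 g hi).trans (Nat.div_le_div_left (sic_sm_ne' hne) hΓ0')
        have a3 := deg_far hP.e1 hΓ0 hc hi
        have a4 : ((Y / Gm u : ℕ) : ℝ) ≤ (Y : ℝ) / Gm u := Nat.cast_div_le
        have a1' := (Nat.cast_le (α := ℝ)).2 a1
        have a2' := (Nat.cast_le (α := ℝ)).2 a2
        rw [Nat.cast_add] at a1'
        rw [mul_div_assoc] at a3
        apply Nat.le_floor
        unfold Obu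
        linarith)
      (by
        have a1 : ((⌊3 * ((Y : ℝ) / Gm u) + 1⌋₊ : ℕ) : ℝ) ≤ 3 * ((Y : ℝ) / Gm u) + 1 :=
          Nat.floor_le (by positivity)
        have a2 := mul_le_mul_of_nonneg_right a1 hE0.le
        linarith)
    refine (norm_add_le _ _).trans ?_
    linarith
  · rw [sic_lin4 u (g ^ 2) e g Y σ lm (sm u e g) (sm u e (-g)) (fun i => sm u e g i * sm u e (-g) i)
      (fun i => (1 - sm u e g i) * (1 - sm u e (-g) i)) (fun i => by ring)]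
    have r2 : ‖inr (g ^ 2) e g Y σ lm (lft u (g ^ 2) e g (sm u e (-g)))‖ ≤ K₁ * Y := by
      have := ram u e Y q₀ (-g) g σ lm hu₁ (by rw [neg_sq]; exact hP)
        ⟨hL.pos, fun p hp hd => by rw [mul_neg, dvd_neg]; exact hL.dvd p hp hd, hL.ex⟩ hq hσ hl
        (by
          have e1 : (g : ℝ) - ((-g : ℤ) : ℝ) = 2 * g := by
            push_cast
            ring
          rw [e1, abs_mul, abs_two]
          linarith)
      rwa [neg_sq] at this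
    have hs : √|(g : ℝ)| ≤ Y / E ^ 5 := by
      apply Real.sqrt_le_iff.2
      refine ⟨by positivity, ?_⟩
      have b0 : E + 1 ≤ E ^ 2 := by nlinarith
      have b1 : (Gm u : ℝ) ≤ E ^ 3 :=
        (hΓ2.le.trans b0).trans (pow_le_pow_right₀ (by linarith) (by norm_num))
      have b2 : (e : ℝ) * Y * Gm u ≤ E * Y * E ^ 3 :=
        mul_le_mul (mul_le_mul_of_nonneg_right heE hY0) b1 hΓ0.le (by positivity)
      have b3 : E * Y * E ^ 3 ≤ (Y / E ^ 5) ^ 2 := by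
        rw [div_pow, le_div_iff₀ (by positivity)]
        calc E * Y * E ^ 3 * (E ^ 5) ^ 2 = (Y : ℝ) * E ^ 14 := by ring
          _ ≤ (Y : ℝ) * Y := mul_le_mul_of_nonneg_left hEY hY0
          _ = (Y : ℝ) ^ 2 := by ring
      linarith
    have r3 := ap' ⌊(Gm u : ℝ) ^ 2 * (2 * √|(g : ℝ)|)⌋₊ (fun i => sm u e g i * sm u e (-g) i)
      (fun i => by
        rw [norm_mul]
        exact mul_le_one₀ (sic_sm_norm _ _ _ _) (norm_nonneg _) (sic_sm_norm _ _ _ _))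
      (fun i _ _ => by
        apply Nat.le_floor
        refine le_trans ?_ (deg_small (e := e) (Y := Y) (Q := Qu u (g ^ 2) e) (z₀ := zz g e) hg0 (Gm u))
        apply Nat.cast_le.2
        apply card_le_card
        intro i' hi'
        rw [mem_filter] at hi' ⊢
        exact ⟨hi'.1, sic_sm_ne (left_ne_zero_of_mul hi'.2.1), sic_sm_ne (right_ne_zero_of_mul hi'.2.1)⟩)
      (by
        have a1 : ((⌊(Gm u : ℝ) ^ 2 * (2 * √|(g : ℝ)|)⌋₊ : ℕ) : ℝ) ≤ (Gm u : ℝ) ^ 2 * (2 * √|(g : ℝ)|) :=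
          Nat.floor_le (by positivity)
        have b1 : (Gm u : ℝ) ≤ E ^ 2 := by nlinarith
        have b2 : (Gm u : ℝ) ^ 2 * (2 * √|(g : ℝ)|) ≤ (E ^ 2) ^ 2 * (2 * (Y / E ^ 5)) :=
          mul_le_mul (pow_le_pow_left₀ hΓ0.le b1 2) (by linarith) (by positivity) (by positivity)
        have b3 : (E ^ 2) ^ 2 * (2 * (Y / E ^ 5)) * E = 2 * Y := by field_simp
        have a2 := mul_le_mul_of_nonneg_right (a1.trans b2) hE0.le
        linarith)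
    have r4 := ap' (2 * (Y / Gm u)) (fun i => (1 - sm u e g i) * (1 - sm u e (-g) i))
      (fun i => by
        rw [norm_mul]
        exact mul_le_one₀ (sic_sm_norm' _ _ _ _) (norm_nonneg _) (sic_sm_norm' _ _ _ _))
      (fun i hi hne => by
        have a1 := sic_split (g := g) (z₀ := zz g e) (e := e) (Y := Y) (Q := Qu u (g ^ 2) e)
          (fun i => (1 - sm u e g i) * (1 - sm u e (-g) i)) i
        have a2 := (deg_one hP.e1 g hi).trans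
          (Nat.div_le_div_left (sic_sm_ne' (left_ne_zero_of_mul hne)) hΓ0')
        have a3 := (deg_one hP.e1 (-g) hi).trans
          (Nat.div_le_div_left (sic_sm_ne' (right_ne_zero_of_mul hne)) hΓ0')
        unfold Obu
        omega)
      (by
        have a4 : ((Y / Gm u : ℕ) : ℝ) ≤ (Y : ℝ) / Gm u := Nat.cast_div_le
        have a2 := mul_le_mul_of_nonneg_right a4 hE0.le
        rw [Nat.cast_mul, Nat.cast_ofNat]
        linarith)
    refine (norm_add_le _ _).trans ?_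
    have := (norm_sub_le _ _).trans (add_le_add ((norm_add_le _ _).trans (add_le_add r1 r2)) r3)
    linarith

end

end Pool.Agent.MP_9f080f_an

namespace Pool.Agent.MP_9f080f_an
open Complex Finset
open scoped Real

noncomputable section

theorem aw_sq : ∃ (n₀ : ℕ) (K : ℝ), 0 < K ∧ ∀ (n C X : ℕ) (s : ℝ), n₀ ≤ n → 1 ≤ C → C ≤ 2 * n → 1 ≤ X →
    (s = 1 ∨ s = -1) → ell n ^ 101 ≤ Real.log X → IsSquare (n * C) → (C : ℝ) ≤ (1 + Real.log n) ^ 16 →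
    ‖Aw n C s X‖ ≤ K * X * ell C ^ 3 := by
  obtain ⟨u₀, K₁, hK₁, h1⟩ := inr_sq
  obtain ⟨K₂, hK₂, h2⟩ := red
  obtain ⟨n₀, h3⟩ := sf_par (max u₀ 20)
  obtain ⟨M, hM0, hM⟩ : ∃ M : ℝ, 0 < M ∧ ∀ u : ℝ, 0 ≤ u → u ^ 100 ≤ M * Real.exp (u / 12) := by
    refine ⟨12 ^ 100 * (Nat.factorial 100 : ℕ), by positivity, fun u hu => ?_⟩
    have h := Real.pow_div_factorial_le_exp (u / 12) (by positivity) 100
    rw [div_le_iff₀ (by positivity), div_pow, div_le_iff₀ (by positivity)] at h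
    calc u ^ 100 ≤ _ := h
      _ = _ := by ring
  refine ⟨n₀, K₂ * (K₁ + (1 + 2 * M)), by positivity, fun n C X s hn hC hC2 hX hs hl hsq hC3 => ?_⟩
  obtain ⟨a1, a2, -, a4, a5⟩ := h3 n C X hn hC hC2 hX hl
  set u := uu X with hu
  have u20 : (20 : ℝ) ≤ u := by exact_mod_cast (le_max_right _ _).trans a1
  have hn1 : (1 : ℝ) ≤ n := by exact_mod_cast (show 1 ≤ n by omega)
  have hC1 : (1 : ℝ) ≤ C := by exact_mod_cast hC
  have ln0 := Real.log_nonneg hn1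
  have lC0 := Real.log_nonneg hC1
  have e1 : ell C ≤ u := by
    refine le_trans ?_ a2
    have b1 : Real.log C ≤ Real.log 2 + Real.log n := by
      rw [← Real.log_mul (by norm_num) (by positivity)]
      exact Real.log_le_log (by positivity) (by exact_mod_cast hC2)
    have b2 : Real.log 2 ≤ 1 := by linarith [Real.log_two_lt_d9]
    have b3 : Real.log (1 + Real.log C) ≤ Real.log 2 + Real.log (1 + Real.log n) := by
      rw [← Real.log_mul (by norm_num) (by positivity)]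
      exact Real.log_le_log (by positivity) (by linarith)
    unfold ell
    linarith
  have e2 : ((4 * C : ℕ) : ℝ) ≤ Real.exp ((u : ℝ) ^ 2) := by
    have b1 : 1 + Real.log n ≤ Real.exp u := by
      rw [← Real.exp_log (show 0 < 1 + Real.log n by positivity)]
      unfold ell at a2
      exact Real.exp_le_exp.2 (by linarith)
    have b2 : (4 : ℝ) ≤ Real.exp 3 := by linarith [Real.add_one_le_exp 3]
    push_cast
    calc 4 * (C : ℝ) ≤ Real.exp 3 * Real.exp u ^ 16 := by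
          gcongr
          exact hC3.trans (by gcongr)
      _ = Real.exp (3 + 16 * u) := by rw [Real.exp_add, ← Real.exp_nat_mul]; norm_num
      _ ≤ _ := Real.exp_le_exp.2 (by nlinarith)
  obtain ⟨r, hr⟩ := hsq
  obtain ⟨g, hg1, hg2⟩ : ∃ g : ℤ, (n : ℤ) * C = g ^ 2 ∧ s * √(n * C) = g := by
    have b1 : (n : ℤ) * C = (r : ℤ) ^ 2 := by rw [sq]; exact_mod_cast hr
    have b2 : √((n : ℝ) * C) = r := by
      rw [show (n : ℝ) * C = r * r by exact_mod_cast hr, Real.sqrt_mul_self (by positivity)]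
    rcases hs with rfl | rfl
    · exact ⟨r, b1, by rw [b2]; simp⟩
    · exact ⟨-r, by rw [b1]; ring, by rw [b2]; simp⟩
  have h4 := h2 n C C X s (Real.exp ((u : ℝ) ^ 2)) K₁ hC hX (Real.one_le_exp (by positivity)) hK₁.le
    (fun _ _ _ h => h) (fun e he hZ σ hσ => by
      have he1 : 1 ≤ e := by
        classical
        unfold Fu at he
        exact (mem_Icc.1 (mem_filter.1 he).1).1
      rw [hg2, hg1]
      exact h1 u e (X / e) (4 * C) g σ (lamp n C) ((le_max_left _ _).trans a1)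
        (hg1 ▸ a5 e he1 hZ) (lam_per hC hg1) e2 hσ (norm_lamp n C))
  refine h4.trans ?_
  have l1 := one_le_ell C
  have e3 : Real.exp ((u : ℝ) ^ 2) ^ (-1 / (12 * ell C)) ≤ (Real.exp (u / 12))⁻¹ := by
    rw [← Real.exp_mul, ← Real.exp_neg]
    refine Real.exp_le_exp.2 ?_
    rw [mul_div_assoc', div_le_iff₀ (by positivity)]
    nlinarith
  have e4 : (Real.exp (u / 12))⁻¹ * (1 + Real.log X) ≤ 1 + 2 * M := by
    rw [inv_mul_le_iff₀ (Real.exp_pos _)]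
    have b1 := hM u (by positivity)
    have b2 := Real.one_le_exp (show (0 : ℝ) ≤ u / 12 by positivity)
    nlinarith
  have lX : 0 ≤ Real.log X := Real.log_natCast_nonneg X
  calc _ ≤ K₂ * X * ell C ^ 3 * (K₁ + (1 + 2 * M)) := by
        gcongr
        exact le_trans (by gcongr) e4
    _ = _ := by ring

end

end Pool.Agent.MP_9f080f_an
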