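import Pool.Agent.MP_9f080f_an.Mg.Basic

/-! Salie type sums over finite commutative rings. -/

namespace Pool.Agent.MP_9f080f_an
open Complex Finset ComplexConjugate

noncomputable section

/-- the Salie type sum over a finite ring -/
def salieT {R : Type} [CommRing R] [Fintype R] [Fintype Rˣ] (ψ : AddChar R ℂ) (A B C : R) : ℂ :=
  ∑ d : Rˣ, ∑ r : R, ψ (A * d * r ^ 2 + B * d + C * (d⁻¹ : Rˣ))

section prod
variable {R R₁ R₂ : Type} [CommRing R] [CommRing R₁] [CommRing R₂]

/-- first component of a character of a product ring -/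
def salieL (e : R ≃+* R₁ × R₂) (ψ : AddChar R ℂ) : AddChar R₁ ℂ :=
  ψ.compAddMonoidHom (e.symm.toAddMonoidHom.comp (AddMonoidHom.inl R₁ R₂))

/-- second component of a character of a product ring -/
def salieR (e : R ≃+* R₁ × R₂) (ψ : AddChar R ℂ) : AddChar R₂ ℂ :=
  ψ.compAddMonoidHom (e.symm.toAddMonoidHom.comp (AddMonoidHom.inr R₁ R₂))

lemma salieL_apply (e : R ≃+* R₁ × R₂) (ψ : AddChar R ℂ) (a : R₁) :
    salieL e ψ a = ψ (e.symm (a, 0)) := rfl

lemma salieR_apply (e : R ≃+* R₁ × R₂) (ψ : AddChar R ℂ) (a : R₂) :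
    salieR e ψ a = ψ (e.symm (0, a)) := rfl

lemma salie_split (e : R ≃+* R₁ × R₂) (ψ : AddChar R ℂ) (x : R) :
    ψ x = salieL e ψ (e x).1 * salieR e ψ (e x).2 := by
  rw [salieL_apply, salieR_apply, ← AddChar.map_add_eq_mul, ← map_add, Prod.mk_add_mk, add_zero,
    zero_add, Prod.mk.eta, e.symm_apply_apply]

lemma salieL_prim (e : R ≃+* R₁ × R₂) {ψ : AddChar R ℂ} (h : ψ.IsPrimitive) :
    (salieL e ψ).IsPrimitive := fun a ha h1 => by
  refine h (a := e.symm (a, 0)) (fun h0 => ha ?_) ?_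
  · exact congrArg Prod.fst ((map_eq_zero_iff _ e.symm.injective).1 h0)
  · ext x
    have := DFunLike.congr_fun h1 (e x).1
    rw [AddChar.mulShift_apply, AddChar.one_apply] at this ⊢
    rw [salie_split e, map_mul, e.apply_symm_apply, Prod.fst_mul, Prod.snd_mul, this, zero_mul,
      AddChar.map_zero_eq_one, one_mul]

lemma salieR_prim (e : R ≃+* R₁ × R₂) {ψ : AddChar R ℂ} (h : ψ.IsPrimitive) :
    (salieR e ψ).IsPrimitive := fun a ha h1 => by
  refine h (a := e.symm (0, a)) (fun h0 => ha ?_) ?_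
  · exact congrArg Prod.snd ((map_eq_zero_iff _ e.symm.injective).1 h0)
  · ext x
    have := DFunLike.congr_fun h1 (e x).2
    rw [AddChar.mulShift_apply, AddChar.one_apply] at this ⊢
    rw [salie_split e, map_mul, e.apply_symm_apply, Prod.fst_mul, Prod.snd_mul, this, zero_mul,
      AddChar.map_zero_eq_one, one_mul]

lemma salieT_prod [Fintype R] [Fintype Rˣ] [Fintype R₁] [Fintype R₁ˣ] [Fintype R₂] [Fintype R₂ˣ]
    (e : R ≃+* R₁ × R₂) (ψ : AddChar R ℂ) (A B C : R) :
    salieT ψ A B C = salieT (salieL e ψ) (e A).1 (e B).1 (e C).1 *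
      salieT (salieR e ψ) (e A).2 (e B).2 (e C).2 := by
  symm
  rw [salieT, salieT, salieT, sum_mul_sum, ← Fintype.sum_prod_type']
  let U : Rˣ ≃ R₁ˣ × R₂ˣ := ((Units.mapEquiv e.toMulEquiv).trans MulEquiv.prodUnits).toEquiv
  rw [← U.sum_comp]
  refine sum_congr rfl fun d _ => ?_
  rw [sum_mul_sum, ← Fintype.sum_prod_type']
  rw [← e.toEquiv.sum_comp]
  refine sum_congr rfl fun r _ => ?_
  rw [salie_split e ψ]
  simp only [map_add, map_mul, map_pow]
  rfl

end prod

section general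
variable {R : Type} [CommRing R] [Fintype R] [DecidableEq R]

/-- the trivial bound for quadratic Gauss sums -/
lemma salie_gauss_sq {ψ : AddChar R ℂ} (h : ψ.IsPrimitive) {a : R} (ha : IsUnit a) :
    ‖∑ r : R, ψ (a * r ^ 2)‖ ^ 2 ≤ Fintype.card R * #{x : R | 2 * x = 0} := by
  have e : (((‖∑ r : R, ψ (a * r ^ 2)‖ ^ 2 : ℝ)) : ℂ) =
      ∑ x : R, ψ (a * x ^ 2) * (if 2 * x = 0 then (Fintype.card R : ℂ) else 0) := by
    rw [← normSq_eq_norm_sq, ← mul_conj, map_sum, sum_mul_sum, sum_comm]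
    have e1 : ∀ s : R, ∑ r : R, ψ (a * r ^ 2) * conj (ψ (a * s ^ 2)) =
        ∑ x : R, ψ (a * x ^ 2) * ψ (s * (a * (2 * x))) := fun s => by
      refine (Fintype.sum_equiv (Equiv.addRight s) _ _ fun x => ?_).symm
      rw [← AddChar.map_neg_eq_conj, ← AddChar.map_add_eq_mul, ← AddChar.map_add_eq_mul,
        Equiv.coe_addRight]
      congr 1
      ring
    simp only [e1]
    rw [sum_comm]
    refine sum_congr rfl fun x _ => ?_
    rw [← mul_sum, AddChar.sum_mulShift _ h]
    simp only [ha.mul_right_eq_zero, Nat.cast_ite, Nat.cast_zero]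
  have e2 := congrArg norm e
  rw [norm_real, Real.norm_of_nonneg (sq_nonneg _)] at e2
  rw [e2]
  refine (norm_sum_le _ _).trans (le_of_eq ?_)
  simp only [norm_mul, AddChar.norm_apply, one_mul, apply_ite norm, norm_natCast, norm_zero]
  rw [← sum_filter, sum_const, nsmul_eq_mul, mul_comm]

lemma salieT_le [Fintype Rˣ] {ψ : AddChar R ℂ} (h : ψ.IsPrimitive) {A : R} (hA : IsUnit A)
    (B C : R) {t : ℕ} (ht : #{x : R | 2 * x = 0} ≤ t) :
    ‖salieT ψ A B C‖ ≤ Real.sqrt (t * Fintype.card R) * Fintype.card R := by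
  refine (norm_sum_le _ _).trans ?_
  refine (sum_le_card_nsmul _ _ (Real.sqrt (t * Fintype.card R)) fun d _ => ?_).trans ?_
  · simp only [add_assoc, AddChar.map_add_eq_mul (ψ := ψ) (A * d * _)]
    rw [← sum_mul, norm_mul, AddChar.norm_apply, mul_one]
    refine Real.le_sqrt_of_sq_le ((salie_gauss_sq h (hA.mul d.isUnit)).trans ?_)
    rw [mul_comm]
    gcongr
  · rw [nsmul_eq_mul, mul_comm, card_univ]
    gcongr
    exact Fintype.card_le_of_injective _ Units.val_injective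

end general

section field
variable {F : Type} [Field F] [Fintype F] [DecidableEq F]

lemma salie_sum_units [Fintype Fˣ] {ψ : AddChar F ℂ} (h : ψ.IsPrimitive) (b : F) :
    ∑ d : Fˣ, ψ (d * b) = (if b = 0 then (Fintype.card F : ℂ) else 0) - 1 := by
  have e1 : ∑ d : Fˣ, ψ (d * b) = ∑ x : {a : F // a ≠ 0}, ψ (x * b) :=
    Fintype.sum_equiv unitsEquivNeZero _ _ fun _ => rfl
  have e2 : ∑ x ∈ univ.erase (0 : F), ψ (x * b) = ∑ x : {a : F // a ≠ 0}, ψ (x * b) :=
    sum_subtype _ (fun x => by simp) fun x => ψ (x * b)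
  have e3 := add_sum_erase univ (fun x : F => ψ (x * b)) (mem_univ 0)
  rw [AddChar.sum_mulShift _ h, zero_mul, AddChar.map_zero_eq_one] at e3
  rw [e1, ← e2, eq_sub_iff_add_eq', e3]
  simp only [Nat.cast_ite, Nat.cast_zero]

lemma salie_card_roots {u : F} (hu : u ≠ 0) (B : F) : #{r : F | u * r ^ 2 + B = 0} ≤ 2 := by
  rcases (filter (fun r : F => u * r ^ 2 + B = 0) univ).eq_empty_or_nonempty with h | ⟨s, hs⟩
  · rw [h]; simp
  · refine le_trans (card_le_card (t := {s, -s}) fun r hr => ?_) card_le_two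
    rw [mem_filter] at hs hr
    rw [mem_insert, mem_singleton, ← sq_eq_sq_iff_eq_or_eq_neg]
    exact mul_left_cancel₀ hu (by linear_combination hr.2 - hs.2)

lemma salie_gauss_char (hF : ringChar F ≠ 2) {ψ : AddChar F ℂ} (h : ψ.IsPrimitive) {s : F}
    (hs : s ≠ 0) : ∑ r : F, ψ (s * r ^ 2) = ∑ x : F, (quadraticChar F x : ℂ) * ψ (s * x) := by
  rw [← sum_fiberwise univ (fun r : F => r ^ 2)]
  have e : ∀ x : F, ∑ r with r ^ 2 = x, ψ (s * r ^ 2) =
      (quadraticChar F x : ℂ) * ψ (s * x) + ψ (x * s) := fun x => by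
    rw [sum_congr rfl (g := fun _ => ψ (s * x)) fun r hr => by rw [(mem_filter.1 hr).2], sum_const,
      nsmul_eq_mul]
    have := quadraticChar_card_sqrts hF x
    rw [Set.toFinset_ofPred] at this
    have h2 : ((#{r : F | r ^ 2 = x} : ℕ) : ℂ) = (quadraticChar F x : ℂ) + 1 := by
      exact_mod_cast congrArg (Int.cast : ℤ → ℂ) this
    rw [h2, mul_comm x s]
    ring
  simp only [e]
  rw [sum_add_distrib, AddChar.sum_mulShift _ h, if_neg hs, Nat.cast_zero, add_zero]

lemma salie_gauss_mul (hF : ringChar F ≠ 2) {ψ : AddChar F ℂ} (h : ψ.IsPrimitive) {s w : F}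
    (hs : s ≠ 0) (hw : w ≠ 0) :
    ∑ r : F, ψ (w * s * r ^ 2) = (quadraticChar F w⁻¹ : ℂ) * ∑ r : F, ψ (s * r ^ 2) := by
  rw [salie_gauss_char hF h hs, salie_gauss_char hF h (mul_ne_zero hw hs), mul_sum]
  refine Fintype.sum_equiv (Equiv.mulLeft₀ w hw) _ _ fun x => ?_
  rw [Equiv.mulLeft₀_apply, ← mul_assoc, ← Int.cast_mul, ← map_mul, inv_mul_cancel_left₀ hw,
    mul_comm w s, mul_assoc]

lemma salie_aux {f : F → ℂ} (hf : ∀ r, ‖f r‖ = 1) {u : F} (hu : u ≠ 0) (B : F) :
    ‖∑ r : F, f r * (if u * r ^ 2 + B = 0 then (Fintype.card F : ℂ) else 0)‖ ≤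
      2 * Fintype.card F := by
  refine (norm_sum_le _ _).trans ?_
  simp only [norm_mul, hf, one_mul, apply_ite norm, norm_natCast, norm_zero]
  rw [← sum_filter, sum_const, nsmul_eq_mul]
  gcongr
  exact_mod_cast salie_card_roots hu B

lemma salieT_field [Fintype Fˣ] (hF : ringChar F ≠ 2) {ψ : AddChar F ℂ} (h : ψ.IsPrimitive)
    {A : F} (hA : A ≠ 0) (B C : F) : ‖salieT ψ A B C‖ ≤ 2 * Fintype.card F := by
  by_cases hC : C = 0
  · have e : salieT ψ A B C = (#{r : F | A * r ^ 2 + B = 0} - 1) * Fintype.card F := by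
      rw [salieT, sum_comm]
      have e1 : ∀ r : F, ∑ d : Fˣ, ψ (A * d * r ^ 2 + B * d + C * (d⁻¹ : Fˣ)) =
          (if A * r ^ 2 + B = 0 then (Fintype.card F : ℂ) else 0) - 1 := fun r => by
        rw [← salie_sum_units h]
        refine sum_congr rfl fun d _ => ?_
        rw [hC]
        congr 1
        ring
      simp only [e1]
      rw [sum_sub_distrib, ← sum_filter, sum_const, sum_const, card_univ, nsmul_eq_mul,
        nsmul_eq_mul]
      ring
    rw [e, norm_mul, norm_natCast]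
    gcongr
    have := salie_card_roots hA B
    interval_cases #{r : F | A * r ^ 2 + B = 0} <;> norm_num
  · have hu : -C⁻¹ ≠ 0 := neg_ne_zero.2 (inv_ne_zero hC)
    have hw : -(A * C) ≠ 0 := neg_ne_zero.2 (mul_ne_zero hA hC)
    have h2 : (2 : F) ≠ 0 := Ring.two_ne_zero hF
    have e1 : ∀ d : Fˣ, ∑ r : F, ψ (A * d * r ^ 2 + B * d + C * (d⁻¹ : Fˣ)) =
        (quadraticChar F (-(A * C))⁻¹ : ℂ) *
          ∑ r : F, ψ (r * 2) * ψ (d * (-C⁻¹ * r ^ 2 + B)) := fun d => by
      have hd := d.ne_zero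
      simp only [add_assoc, AddChar.map_add_eq_mul (ψ := ψ) (A * d * _)]
      rw [← sum_mul, show A * d = -(A * C) * (-C⁻¹ * d) by field_simp,
        salie_gauss_mul hF h (mul_ne_zero hu hd) hw, mul_assoc, sum_mul]
      congr 1
      refine (Fintype.sum_equiv (Equiv.addRight (-C * (d : F)⁻¹)) _ _ fun r => ?_).symm
      rw [← AddChar.map_add_eq_mul, ← AddChar.map_add_eq_mul, Equiv.coe_addRight,
        Units.val_inv_eq_inv_val]
      congr 1
      field_simp
      ring
    have e : salieT ψ A B C = (quadraticChar F (-(A * C))⁻¹ : ℂ) *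
        ∑ r : F, ψ (r * 2) * (if -C⁻¹ * r ^ 2 + B = 0 then (Fintype.card F : ℂ) else 0) := by
      simp only [salieT, e1]
      rw [← mul_sum, sum_comm]
      congr 1
      simp only [← mul_sum, salie_sum_units h, mul_sub, mul_one]
      rw [sum_sub_distrib, AddChar.sum_mulShift _ h, if_neg h2, Nat.cast_zero, sub_zero]
    rw [e, norm_mul]
    have h3 : ‖(quadraticChar F (-(A * C))⁻¹ : ℂ)‖ = 1 := by
      rcases quadraticChar_dichotomy (inv_ne_zero hw) with h | h <;> rw [h] <;> simp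
    rw [h3, one_mul]
    exact salie_aux (fun r => AddChar.norm_apply _ _) hu B

end field

end

end Pool.Agent.MP_9f080f_an
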