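import Pool.Agent.MP_9f080f_an.Mg.Salie

/-! Explicit forms of the Salie type sums: multiplicativity with the standard character,
the exact value at an odd prime, the crude bound. -/

namespace Pool.Agent.MP_9f080f_an
open Complex Finset

noncomputable section

lemma salieT_mulShift {R : Type} [CommRing R] [Fintype R] [Fintype Rˣ] (ψ : AddChar R ℂ)
    (u A B C : R) : salieT (ψ.mulShift u) A B C = salieT ψ (u * A) (u * B) (u * C) := by
  refine sum_congr rfl fun d _ => sum_congr rfl fun r _ => ?_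
  rw [AddChar.mulShift_apply]
  congr 1
  ring

lemma stdAddChar_mul_natCast {a b : ℕ} [NeZero a] [NeZero (a * b)] (k : ℤ) :
    ZMod.stdAddChar ((b * k : ℤ) : ZMod (a * b)) = ZMod.stdAddChar ((k : ℤ) : ZMod a) := by
  have hb : (b : ℂ) ≠ 0 := Nat.cast_ne_zero.2 (right_ne_zero_of_mul (NeZero.ne (a * b)))
  have ha : (a : ℂ) ≠ 0 := Nat.cast_ne_zero.2 (NeZero.ne a)
  rw [ZMod.stdAddChar_coe, ZMod.stdAddChar_coe]
  congr 1
  push_cast
  field_simp

lemma salieL_std {a b : ℕ} [NeZero a] [NeZero b] [NeZero (a * b)] (hab : a.Coprime b) :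
    salieL (ZMod.chineseRemainder hab) ZMod.stdAddChar =
      (ZMod.stdAddChar (N := a)).mulShift (b : ZMod a)⁻¹ := by
  ext x
  rw [salieL_apply, AddChar.mulShift_apply]
  obtain ⟨k, hk⟩ := ZMod.intCast_surjective ((b : ZMod a)⁻¹ * x)
  have h1 : (ZMod.chineseRemainder hab).symm (x, 0) = ((b * k : ℤ) : ZMod (a * b)) := by
    rw [RingEquiv.symm_apply_eq, map_intCast]
    refine Prod.ext ?_ ?_
    · rw [Prod.fst_intCast]
      push_cast
      rw [hk, ← mul_assoc, ZMod.coe_mul_inv_eq_one _ hab.symm, one_mul]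
    · rw [Prod.snd_intCast]
      push_cast
      rw [ZMod.natCast_self, zero_mul]
  rw [h1, stdAddChar_mul_natCast, hk]

lemma salieR_std {a b : ℕ} [NeZero a] [NeZero b] [NeZero (a * b)] (hab : a.Coprime b) :
    salieR (ZMod.chineseRemainder hab) ZMod.stdAddChar =
      (ZMod.stdAddChar (N := b)).mulShift (a : ZMod b)⁻¹ := by
  ext x
  rw [salieR_apply, AddChar.mulShift_apply]
  obtain ⟨k, hk⟩ := ZMod.intCast_surjective ((a : ZMod b)⁻¹ * x)
  have h1 : (ZMod.chineseRemainder hab).symm (0, x) = ((a * k : ℤ) : ZMod (a * b)) := by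
    rw [RingEquiv.symm_apply_eq, map_intCast]
    refine Prod.ext ?_ ?_
    · rw [Prod.fst_intCast]
      push_cast
      rw [ZMod.natCast_self, zero_mul]
    · rw [Prod.snd_intCast]
      push_cast
      rw [hk, ← mul_assoc, ZMod.coe_mul_inv_eq_one _ hab, one_mul]
  have hb : (b : ℂ) ≠ 0 := Nat.cast_ne_zero.2 (NeZero.ne b)
  have ha : (a : ℂ) ≠ 0 := Nat.cast_ne_zero.2 (NeZero.ne a)
  rw [h1, ← hk, ZMod.stdAddChar_coe, ZMod.stdAddChar_coe]
  congr 1
  push_cast
  field_simp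

/-- multiplicativity with the standard characters -/
lemma TS_mul_std {a b : ℕ} [NeZero a] [NeZero b] [NeZero (a * b)] (hab : a.Coprime b)
    (A B C : ZMod (a * b)) :
    TS (a * b) ZMod.stdAddChar A B C =
      TS a ZMod.stdAddChar ((b : ZMod a)⁻¹ * ZMod.cast A) ((b : ZMod a)⁻¹ * ZMod.cast B)
          ((b : ZMod a)⁻¹ * ZMod.cast C) *
        TS b ZMod.stdAddChar ((a : ZMod b)⁻¹ * ZMod.cast A) ((a : ZMod b)⁻¹ * ZMod.cast B)
          ((a : ZMod b)⁻¹ * ZMod.cast C) := by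
  have e := salieT_prod (ZMod.chineseRemainder hab) ZMod.stdAddChar A B C
  rw [salieL_std, salieR_std, salieT_mulShift, salieT_mulShift] at e
  have h1 : ∀ x : ZMod (a * b), (ZMod.chineseRemainder hab x).1 = ZMod.cast x := fun x => by
    obtain ⟨k, rfl⟩ := ZMod.intCast_surjective x
    rw [map_intCast, Prod.fst_intCast, ZMod.cast_intCast (dvd_mul_right a b)]
  have h2 : ∀ x : ZMod (a * b), (ZMod.chineseRemainder hab x).2 = ZMod.cast x := fun x => by
    obtain ⟨k, rfl⟩ := ZMod.intCast_surjective x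
    rw [map_intCast, Prod.snd_intCast, ZMod.cast_intCast (dvd_mul_left b a)]
  simp only [h1, h2] at e
  exact e

/-- multiplicativity, integer arguments -/
lemma TS_mul_std_int {a b : ℕ} [NeZero a] [NeZero b] [NeZero (a * b)] (hab : a.Coprime b)
    (A B C : ℤ) :
    TS (a * b) ZMod.stdAddChar A B C =
      TS a ZMod.stdAddChar ((b : ZMod a)⁻¹ * A) ((b : ZMod a)⁻¹ * B) ((b : ZMod a)⁻¹ * C) *
        TS b ZMod.stdAddChar ((a : ZMod b)⁻¹ * A) ((a : ZMod b)⁻¹ * B) ((a : ZMod b)⁻¹ * C) := by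
  rw [TS_mul_std hab]
  simp only [ZMod.cast_intCast (dvd_mul_right a b), ZMod.cast_intCast (dvd_mul_left b a)]

section field
variable {F : Type} [Field F] [Fintype F] [DecidableEq F]

lemma salieT_field_zero [Fintype Fˣ] {ψ : AddChar F ℂ} (h : ψ.IsPrimitive)
    {A : F} (hA : A ≠ 0) (B : F) : ‖salieT ψ A B 0‖ ≤ Fintype.card F := by
  have e : salieT ψ A B 0 = (#{r : F | A * r ^ 2 + B = 0} - 1) * Fintype.card F := by
    rw [salieT, sum_comm]
    have e1 : ∀ r : F, ∑ d : Fˣ, ψ (A * d * r ^ 2 + B * d + 0 * (d⁻¹ : Fˣ)) =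
        (if A * r ^ 2 + B = 0 then (Fintype.card F : ℂ) else 0) - 1 := fun r => by
      rw [← salie_sum_units h]
      refine sum_congr rfl fun d _ => ?_
      congr 1
      ring
    simp only [e1]
    rw [sum_sub_distrib, ← sum_filter, sum_const, sum_const, card_univ, nsmul_eq_mul,
      nsmul_eq_mul]
    ring
  rw [e, norm_mul, norm_natCast]
  refine mul_le_of_le_one_left (Nat.cast_nonneg _) ?_
  have := salie_card_roots hA B
  interval_cases #{r : F | A * r ^ 2 + B = 0} <;> norm_num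

lemma salieT_field_exact [Fintype Fˣ] (hF : ringChar F ≠ 2) {ψ : AddChar F ℂ} (h : ψ.IsPrimitive)
    {A : F} (hA : A ≠ 0) (B : F) {C : F} (hC : C ≠ 0) :
    salieT ψ A B C = (quadraticChar F (-(A * C)) : ℂ) * Fintype.card F *
      ∑ r : F with r ^ 2 = B * C, ψ (2 * r) := by
  have hu : -C⁻¹ ≠ 0 := neg_ne_zero.2 (inv_ne_zero hC)
  have hw : -(A * C) ≠ 0 := neg_ne_zero.2 (mul_ne_zero hA hC)
  have h2 : (2 : F) ≠ 0 := Ring.two_ne_zero hF
  have e1 : ∀ d : Fˣ, ∑ r : F, ψ (A * d * r ^ 2 + B * d + C * (d⁻¹ : Fˣ)) =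
      (quadraticChar F (-(A * C))⁻¹ : ℂ) *
        ∑ r : F, ψ (r * 2) * ψ (d * (-C⁻¹ * r ^ 2 + B)) := fun d => by
    have hd := d.ne_zero
    simp only [add_assoc, AddChar.map_add_eq_mul (ψ := ψ) (A * d * _)]
    rw [← sum_mul, show A * d = -(A * C) * (-C⁻¹ * d) by field_simp,
      salie_gauss_mul hF h (mul_ne_zero hu hd) hw, mul_assoc, sum_mul]
    congr 1
    refine (Fintype.sum_equiv (Equiv.addRight (-C * (d : F)⁻¹)) _ _ fun r => ?_).symm
    rw [← AddChar.map_add_eq_mul, ← AddChar.map_add_eq_mul, Equiv.coe_addRight,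
      Units.val_inv_eq_inv_val]
    congr 1
    field_simp
    ring
  have e : salieT ψ A B C = (quadraticChar F (-(A * C))⁻¹ : ℂ) *
      ∑ r : F, ψ (r * 2) * (if -C⁻¹ * r ^ 2 + B = 0 then (Fintype.card F : ℂ) else 0) := by
    simp only [salieT, e1]
    rw [← mul_sum, sum_comm]
    congr 1
    simp only [← mul_sum, salie_sum_units h, mul_sub, mul_one]
    rw [sum_sub_distrib, AddChar.sum_mulShift _ h, if_neg h2, Nat.cast_zero, sub_zero]
  have h3 : quadraticChar F (-(A * C))⁻¹ = quadraticChar F (-(A * C)) := by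
    have h4 : quadraticChar F (-(A * C))⁻¹ * quadraticChar F (-(A * C)) = 1 := by
      rw [← map_mul, inv_mul_cancel₀ hw, map_one]
    rcases quadraticChar_dichotomy hw with h5 | h5 <;> rw [h5] at h4 ⊢ <;> linarith
  rw [e, h3, mul_assoc]
  congr 1
  rw [mul_sum, sum_filter]
  refine sum_congr rfl fun r _ => ?_
  have h5 : -C⁻¹ * r ^ 2 + B = 0 ↔ r ^ 2 = B * C := by
    constructor
    · intro h6
      field_simp at h6
      linear_combination -h6
    · intro h6
      rw [h6]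
      field_simp
      ring
  simp only [h5]
  split_ifs
  · rw [mul_comm r 2, mul_comm]
  · simp

end field

/-- exact value at an odd prime, `C ≠ 0` -/
lemma TS_prime_exact {p : ℕ} [Fact p.Prime] (h2 : p ≠ 2) {ψ : AddChar (ZMod p) ℂ}
    (h : ψ.IsPrimitive) {A : ZMod p} (hA : A ≠ 0) (B : ZMod p) {C : ZMod p} (hC : C ≠ 0) :
    ‖TS p ψ A B C‖ = p * ‖∑ r : ZMod p with r ^ 2 = B * C, ψ (2 * r)‖ := by
  have hF : ringChar (ZMod p) ≠ 2 := by rw [ZMod.ringChar_zmod_n]; exact h2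
  have e := salieT_field_exact hF h hA B hC
  rw [ZMod.card] at e
  change ‖salieT ψ A B C‖ = _
  have h3 : ‖(quadraticChar (ZMod p) (-(A * C)) : ℂ)‖ = 1 := by
    rcases quadraticChar_dichotomy (neg_ne_zero.2 (mul_ne_zero hA hC)) with h | h <;>
      rw [h] <;> simp
  rw [e, norm_mul, norm_mul, h3, one_mul, norm_natCast]

/-- odd or even prime, `C = 0` -/
lemma TS_prime_zero {p : ℕ} [Fact p.Prime] {ψ : AddChar (ZMod p) ℂ}
    (h : ψ.IsPrimitive) {A : ZMod p} (hA : A ≠ 0) (B : ZMod p) : ‖TS p ψ A B 0‖ ≤ p := by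
  have e := salieT_field_zero h hA B
  rwa [ZMod.card] at e

/-- crude bound -/
lemma TS_crude (M : ℕ) [NeZero M] {ψ : AddChar (ZMod M) ℂ} (h : ψ.IsPrimitive) {A : ZMod M}
    (hA : IsUnit A) (B C : ZMod M) : ‖TS M ψ A B C‖ ≤ M * Real.sqrt (2 * M) := by
  have := salieBd_two M ‹_› ψ h A B C hA
  rw [mul_comm] at this
  exact_mod_cast this

/-- crude bound for odd moduli -/
lemma TS_crude_odd {M : ℕ} [NeZero M] (hM : Odd M) {ψ : AddChar (ZMod M) ℂ} (h : ψ.IsPrimitive)
    {A : ZMod M} (hA : IsUnit A) (B C : ZMod M) : ‖TS M ψ A B C‖ ≤ M * Real.sqrt M := by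
  have := salieBd_odd hM ‹_› ψ h A B C hA
  rw [mul_comm, Nat.cast_one, one_mul] at this
  exact this

end

end Pool.Agent.MP_9f080f_an
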