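import Pool.Agent.MP_9f080f_an.Mg.MainAsm

namespace Pool.Agent.MP_9f080f_an
open Complex MeasureTheory Set Filter Topology Metric
open scoped Real

noncomputable section

/-! Change of frame for a single cusp. -/

lemma shf_sub_ne {z : ℂ} (hz : 0 < z.im) (r : ℝ) : z - r ≠ 0 := ne_of_im (by simpa using hz)

lemma shf_top (n : ℕ) {c : ℕ} (hc : 0 < c) (g : GT) (hg : g.c = c) {w : ℂ} (hw : 0 < w.im) :
    g.chi * th3 (g⁻¹.mob w) * ep (-n * g⁻¹.mob w) =
      eT n c g.a * √c * rt (w - g.a / c) * th3 w * ep (n / c ^ 2 / (w - g.a / c)) := by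
  have h := (eT_spec n hc).2.2 g hg _ (GT.im_mob_pos g⁻¹ hw)
  rw [GT.mob_inv g hw] at h
  rw [h]
  congr 2
  have hc0 : (c : ℂ) ≠ 0 := by exact_mod_cast hc.ne'
  have h1 := GT.den_ne g⁻¹ hw
  have h2 : w - g.a / c ≠ 0 := by
    have := shf_sub_ne hw (g.a / c)
    push_cast at this
    exact this
  have hd : (g.a : ℂ) * g.d - g.b * c = 1 := by
    have := g.det
    rw [hg] at this
    exact_mod_cast this
  simp only [GT.mob, GT.inv_a, GT.inv_b, GT.inv_c, GT.inv_d, hg] at h1 ⊢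
  push_cast at h1 ⊢
  have h3 : w * c - g.a ≠ 0 := fun h0 => h1 (by linear_combination -h0)
  have e : w - g.a / c = (w * c - g.a) / c := by field_simp
  have e2 : -(c : ℂ) * w + g.a = -(w * c - g.a) := by ring
  rw [e, e2]
  field_simp
  linear_combination (n : ℂ) * hd

lemma shf_cusp (n : ℕ) {β : ℕ} (hβ : Odd β) (g : GT) (hg : g.c - g.a = β) {z : ℂ} (hz : 0 < z.im) :
    g.chi * th3 (g⁻¹.mob (wz z)) * ep (-n * g⁻¹.mob (wz z)) =
      eC n β g.c * √β * rt (z - g.c / β) * th2 z * ep (n / β ^ 2 / (z - g.c / β)) := by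
  have hw := im_wz_pos hz
  have h := (eC_spec n hβ).2.2 g hg _ (GT.im_mob_pos g⁻¹ hw)
  rw [GT.mob_inv g hw, zw_wz] at h
  rw [h]
  congr 2
  have hc0 : (β : ℂ) ≠ 0 := by exact_mod_cast hβ.pos.ne'
  have h1 := GT.den_ne g⁻¹ hw
  have hz0 := ne_of_im hz
  have h2 : z - g.c / β ≠ 0 := by
    have := shf_sub_ne hz (g.c / β)
    push_cast at this
    exact this
  have hd : (g.a : ℂ) * g.d - g.b * g.c = 1 := by exact_mod_cast g.det
  have ha : (g.a : ℂ) = g.c - β := by
    have : (g.c : ℂ) - g.a = β := by exact_mod_cast hg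
    linear_combination -this
  rw [ha] at hd
  simp only [GT.mob, GT.inv_a, GT.inv_b, GT.inv_c, GT.inv_d, wz] at h1 ⊢
  push_cast at h1 ⊢
  have e : z - g.c / β = (z * β - g.c) / β := by field_simp
  have h3 : z * β - g.c ≠ 0 := fun h0 => h2 (by rw [e, h0, zero_div])
  have e2 : -(g.c : ℂ) * (1 - 1 / z) + g.a = -(z * β - g.c) / z := by
    rw [ha]; field_simp; ring
  rw [e, e2]
  field_simp
  linear_combination (n : ℂ) * hd

lemma shf_ext {f g : ℂ → ℂ} {r : ℝ} (hf : ContinuousAt f r) (hg : ContinuousAt g r)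
    (h : ∀ z : ℂ, 0 < z.im → f z = g z) : f r = g r := by
  have hc : Tendsto (fun ε : ℝ => (r : ℂ) + ε * I) (𝓝[>] 0) (𝓝 (r : ℂ)) := by
    have : Continuous fun ε : ℝ => (r : ℂ) + ε * I := by fun_prop
    simpa using (this.tendsto 0).mono_left nhdsWithin_le_nhds
  refine tendsto_nhds_unique (hf.tendsto.comp hc) ((hg.tendsto.comp hc).congr' ?_)
  filter_upwards [self_mem_nhdsWithin] with ε hε
  exact (h _ (by simpa using hε)).symm

lemma shf_cont_kc (H : ℝ) {f : ℂ → ℂ} {z : ℂ} (hf : ContinuousAt f z) {r : ℝ} (h : f z = r)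
    (hr : r ≠ 0) : ContinuousAt (fun w => kc H (f w)) z :=
  ContinuousAt.comp (g := kc H) (by
    rw [h]; exact (hasDerivAt_kc H (by simp) (by exact_mod_cast hr)).continuousAt) hf

lemma shf_cont_rt {f : ℂ → ℂ} {z : ℂ} (hf : ContinuousAt f z) {r : ℝ} (h : f z = r)
    (hr : r ≠ 0) : ContinuousAt (fun w => rt (f w)) z :=
  ContinuousAt.comp (g := rt) (by
    rw [h]; exact (hasDerivAt_rt (by simp) (by exact_mod_cast hr)).continuousAt) hf

lemma shf_cop {β c : ℤ} : IsCoprime (β + c) c ↔ IsCoprime β c := by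
  have := IsCoprime.add_mul_right_left_iff (x := β) (y := c) (z := 1)
  rwa [one_mul] at this

lemma shf_E1 (n : ℕ) {β c : ℕ} (hβ : Odd β) (hc : 0 < c) {ζ : ℝ} (hζ : 0 < ζ) :
    eC n β (-c) * (√β / β ^ 2) * kc (n / β ^ 2) ((ζ + c / β : ℝ) : ℂ) * ζ ^ 2 =
      eT n c (β + c : ℕ) * (√c / c ^ 2) * kc (n / c ^ 2) (-(((β + c : ℕ) / c - (1 - 1 / ζ) : ℝ) : ℂ))
        * rt ζ := by
  have hβ0 : (0 : ℝ) < β := by exact_mod_cast hβ.pos
  have hc0 : (0 : ℝ) < c := by exact_mod_cast hc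
  have hβ1 : (β : ℂ) ≠ 0 := by exact_mod_cast hβ.pos.ne'
  have hc1 : (c : ℂ) ≠ 0 := by exact_mod_cast hc.ne'
  by_cases hco : IsCoprime (β : ℤ) c
  swap
  · rw [(eC_spec n hβ).2.1 _ (fun h => hco ((IsCoprime.neg_right_iff _ _).1 h.symm)),
      (eT_spec n hc).2.1 _ (fun h => hco (shf_cop.1 (by simpa using h.1)))]
    simp
  have hA : Adm (β + c : ℕ) c := ⟨by push_cast; exact shf_cop.2 hco, by
    obtain ⟨k, hk⟩ := hβ
    exact ⟨k + c, by push_cast [hk]; ring⟩⟩
  have hζ1 : (ζ : ℂ) ≠ 0 := by exact_mod_cast hζ.ne'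
  obtain ⟨g, ga, gc⟩ : ∃ g : GT, g.a = (β + c : ℕ) ∧ g.c = c := ⟨_, rep_a hA, rep_c hA⟩
  have key := shf_ext (r := ζ)
    (f := fun z => eC n β (-c) * (√β / β ^ 2) * kc (n / β ^ 2) (z + c / β) * z ^ 2)
    (g := fun z => eT n c (β + c : ℕ) * (√c / c ^ 2) * kc (n / c ^ 2) (wz z - (β + c : ℕ) / c) * rt z)
    ((continuousAt_const.mul (shf_cont_kc _ (by fun_prop) (r := ζ + c / β) (by push_cast; ring)
      (by positivity))).mul (by fun_prop))
    ((continuousAt_const.mul (shf_cont_kc _ (by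
      unfold wz
      fun_prop (disch := assumption)) (r := -(β / c + 1 / ζ)) (by
        show 1 - 1 / (ζ : ℂ) - _ = _
        push_cast; field_simp; ring) (neg_ne_zero.2 (by positivity)))).mul
      (shf_cont_rt continuousAt_id rfl hζ.ne'))
    (fun z hz => by
      have hw := im_wz_pos hz
      have hz0 := ne_of_im hz
      have h1 := shf_top n hc g gc hw
      have h2 := shf_cusp n hβ (GT.N * g) (by simp [ga, gc]) hz
      have e1 : (GT.N * g)⁻¹.mob (wz z) = g⁻¹.mob (wz z) := by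
        conv_lhs => rw [← GT.mob_inv g hw, ← GT.mob_N_mul g]
        exact GT.inv_mob _ (GT.im_mob_pos _ hw)
      have e2 : (GT.N * g).c = -c := by simp [gc]
      rw [e1, GT.chi_mul, GT.chi_N, one_mul, h1, e2, ga, th3_wz hz] at h2
      have h3 := th2_ne hz
      have e3 : z - ((-c : ℤ) : ℂ) / β = z + c / β := by push_cast; ring
      rw [e3] at h2
      have e4 : (((β + c : ℕ) : ℤ) : ℂ) = ((β + c : ℕ) : ℂ) := by push_cast; ring
      rw [e4] at h2
      have h4 : z + c / β ≠ 0 := by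
        have := shf_sub_ne hz (-(c / β))
        push_cast at this
        rwa [sub_neg_eq_add] at this
      have e5 : wz z - (β + c : ℕ) / c = -(β * (z + c / β)) / (c * z) := by
        rw [wz]; push_cast; field_simp; ring
      have h5 := mul_right_cancel₀ h3 (show (eT n c (β + c : ℕ) * √c * rt (wz z - (β + c : ℕ) / c)
        * rt z * ep (n / c ^ 2 / (wz z - (β + c : ℕ) / c))) * th2 z =
          (eC n β (-c) * √β * rt (z + c / β) * ep (n / β ^ 2 / (z + c / β))) * th2 z by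
        linear_combination h2)
      simp only [kc]
      push_cast at h5 e5 ⊢
      generalize ep (n / c ^ 2 / (wz z - (β + c) / c)) = E1 at h5 ⊢
      generalize ep (n / β ^ 2 / (z + c / β)) = E2 at h5 ⊢
      generalize rt (wz z - (β + c) / c) = R1 at h5 ⊢
      rw [e5]
      generalize z + c / β = Z at h5 h4 ⊢
      field_simp
      linear_combination -h5)
  have e6 : wz ζ - (β + c : ℕ) / c = -(((β + c : ℕ) / c - (1 - 1 / ζ) : ℝ) : ℂ) := by
    rw [wz]; push_cast; ring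
  simp only [e6] at key
  push_cast at key ⊢
  exact key

lemma shf_E2 (n : ℕ) {β c : ℕ} (hβ : Odd β) (hc : 0 < c) {ζ : ℝ} (hζ : 0 < ζ) :
    eC n β (β + c : ℕ) * (√β / β ^ 2) * kc (n / β ^ 2) (-((ζ + c / β : ℝ) : ℂ)) * ζ ^ 2 =
      -(eT n c (-(β + c : ℕ)) * (√c / c ^ 2) *
        kc (n / c ^ 2) (((β + c : ℕ) / c - (1 - 1 / ζ) : ℝ) : ℂ) * (ep (-(1 / 4)) * rt (-ζ))) := by
  have hβ0 : (0 : ℝ) < β := by exact_mod_cast hβ.pos
  have hc0 : (0 : ℝ) < c := by exact_mod_cast hc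
  have hβ1 : (β : ℂ) ≠ 0 := by exact_mod_cast hβ.pos.ne'
  have hc1 : (c : ℂ) ≠ 0 := by exact_mod_cast hc.ne'
  have hζ1 : (ζ : ℂ) ≠ 0 := by exact_mod_cast hζ.ne'
  by_cases hco : IsCoprime (β : ℤ) c
  swap
  · rw [(eC_spec n hβ).2.1 _ (fun h => hco (by
        push_cast at h
        rw [add_comm] at h
        exact (shf_cop.1 h).symm)),
      (eT_spec n hc).2.1 _ (fun h => hco (shf_cop.1 (by simpa using h.1.neg_left)))]
    simp
  have hA : Adm (-(β + c : ℕ)) c := ⟨by push_cast; exact (shf_cop.2 hco).neg_left, by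
    obtain ⟨k, hk⟩ := hβ
    exact ⟨-k - 1, by push_cast [hk]; ring⟩⟩
  obtain ⟨g, ga, gc⟩ : ∃ g : GT, g.a = -(β + c : ℕ) ∧ g.c = c := ⟨_, rep_a hA, rep_c hA⟩
  have key := shf_ext (r := 1 - ζ)
    (f := fun z => eC n β (β + c : ℕ) * (√β / β ^ 2) * kc (n / β ^ 2) (z - (β + c : ℕ) / β)
      * (1 - z) ^ 2)
    (g := fun z => -(eT n c (-(β + c : ℕ)) * (√c / c ^ 2) * kc (n / c ^ 2)
      (z / (1 - z) + (β + c : ℕ) / c) * (ep (-(1 / 4)) * rt (z - 1))))
    ((continuousAt_const.mul (shf_cont_kc _ (by fun_prop) (r := -(ζ + c / β)) (by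
      push_cast; field_simp; ring) (neg_ne_zero.2 (by positivity)))).mul (by fun_prop))
    (((continuousAt_const.mul (shf_cont_kc _ (by
      have : (1 : ℂ) - ((1 - ζ : ℝ) : ℂ) ≠ 0 := by push_cast; simpa using hζ1
      fun_prop (disch := assumption)) (r := β / c + 1 / ζ) (by
        push_cast; rw [sub_sub_cancel]; field_simp; ring) (by positivity))).mul
      (continuousAt_const.mul (shf_cont_rt (by fun_prop) (r := -ζ) (by push_cast; ring)
        (neg_ne_zero.2 hζ.ne')))).neg)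
    (fun z hz => by
      have hw := im_wz_pos hz
      have hw' := im_neg_inv_pos hw
      have hz0 := ne_of_im hz
      have hz1 := one_sub_ne hz
      have h1 := shf_top n hc g gc hw'
      have h2 := shf_cusp n hβ (GT.N * (GT.S * g)) (by simp [ga, gc]) hz
      have e0 : -1 / (-1 / wz z) = wz z := by
        have := ne_of_im hw
        field_simp
      have e1 : (GT.N * (GT.S * g))⁻¹.mob (wz z) = g⁻¹.mob (-1 / wz z) := by
        have a1 : (GT.N * (GT.S * g)).mob (g⁻¹.mob (-1 / wz z)) = wz z := by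
          rw [GT.mob_N_mul, GT.mob_mul _ _ (GT.im_mob_pos _ hw'), GT.mob_inv g hw', GT.mob_S, e0]
        have a2 := GT.inv_mob (GT.N * (GT.S * g)) (GT.im_mob_pos g⁻¹ hw')
        rwa [a1] at a2
      have e2 : (GT.N * (GT.S * g)).c = (β + c : ℕ) := by simp [ga]
      rw [e1, GT.chi_mul, GT.chi_N, one_mul, GT.chi_mul, GT.chi_S, e2] at h2
      rw [ga, th3_S hw, th3_wz hz, ← mul_assoc (rt (wz z)), theta_rt_wz hz] at h1
      have h3 := th2_ne hz
      have e3 : -1 / wz z - ((-(β + c : ℕ) : ℤ) : ℂ) / c = z / (1 - z) + (β + c : ℕ) / c := by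
        have : z - 1 ≠ 0 := fun h => hz1 (by linear_combination -h)
        rw [wz, show 1 - 1 / z = (z - 1) / z by field_simp]; push_cast; field_simp; ring
      rw [e3] at h1
      have e4 : (((β + c : ℕ) : ℤ) : ℂ) = ((β + c : ℕ) : ℂ) := by push_cast; ring
      rw [e4] at h2
      have h4 : z - (β + c : ℕ) / β ≠ 0 := by
        have := shf_sub_ne hz ((β + c : ℕ) / β)
        push_cast at this ⊢
        exact this
      have e5 : z / (1 - z) + (β + c : ℕ) / c = -(β * (z - (β + c : ℕ) / β)) / (c * (1 - z)) := by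
        push_cast; field_simp; ring
      have h5 := mul_right_cancel₀ h3 (show (eT n c (-(β + c : ℕ)) * √c *
        rt (z / (1 - z) + (β + c : ℕ) / c) * (ep (-(1 / 4)) * rt (z - 1))
          * ep (n / c ^ 2 / (z / (1 - z) + (β + c : ℕ) / c))) * th2 z =
          -(eC n β (β + c : ℕ) * √β * rt (z - (β + c : ℕ) / β)
            * ep (n / β ^ 2 / (z - (β + c : ℕ) / β))) * th2 z by
        linear_combination -h1 - h2)
      simp only [kc]
      push_cast at h5 e5 h4 ⊢
      generalize ep (n / c ^ 2 / (z / (1 - z) + (β + c) / c)) = E1 at h5 ⊢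
      generalize ep (n / β ^ 2 / (z - (β + c) / β)) = E2 at h5 ⊢
      generalize rt (z / (1 - z) + (β + c) / c) = R1 at h5 ⊢
      rw [e5]
      generalize z - (β + c) / β = Z at h5 h4 ⊢
      generalize ep (-(1 / 4)) = u at h5 ⊢
      field_simp
      linear_combination h5)
  have e6 : ((1 - ζ : ℝ) : ℂ) - (β + c : ℕ) / β = -((ζ + c / β : ℝ) : ℂ) := by
    push_cast; field_simp; ring
  have e7 : ((1 - ζ : ℝ) : ℂ) / (1 - ((1 - ζ : ℝ) : ℂ)) + (β + c : ℕ) / c =
      (((β + c : ℕ) / c - (1 - 1 / ζ) : ℝ) : ℂ) := by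
    push_cast; rw [sub_sub_cancel]; field_simp; ring
  have e8 : ((1 - ζ : ℝ) : ℂ) - 1 = -ζ := by push_cast; ring
  have e9 : 1 - ((1 - ζ : ℝ) : ℂ) = ζ := by push_cast; ring
  simp only [e6, e7, e8] at key
  rw [e9] at key
  exact key

end

end Pool.Agent.MP_9f080f_an
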