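import Pool.Agent.MP_9f080f_an.Mg.ShRough
import Pool.Agent.MP_9f080f_an.Mg.ShLoc

namespace Pool.Agent.MP_9f080f_an
open Complex MeasureTheory Set Filter Topology Metric
open scoped Real

noncomputable section

open Pool.Agent.MP_a96b63_al (hh)

/-! Hooley's argument.  Write `q ≤ x` (coprime to `h A`) as `q = q₁ q₂`, where `q₂` is the product of the
primes `p > Z` dividing `q` exactly once.  Then `q₂` is squarefree, odd, rough, coprime to `q₁`, and `q₁` is
`Z`-full: every prime `p > Z` with `p ∣ q₁` has `p² ∣ q₁`.  By `STT_mul`, `STT_congr`, `STT_squarefree`: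
`Wf F n q m ≤ STT q₁ (iv (h (q₂ % q₁)) q₁) A B C * τ(q₂)`.  So the sum is at most
`∑_{q₁ full} ∑_{q₂ ≤ x/q₁ rough, coprime to q₁} …` (the map `q ↦ (q₁,q₂)` is injective).
(1) `q₁^4 ≤ x`: group `q₂` by its class `r mod q₁`, use `rough_sum` (`Z^10 q₁² ≤ x / q₁` since
`(Z^10 q₁³)^4 ≤ x^4`) and `Gs_inv`; this gives `C x log x / log² Z ∑ f q₁` with
`f q = 1[q full, coprime to h A] Gs q * hh q / q²`, which is multiplicative (`Gs_mul`, `hh_mul_coprime`).
`euler_le` over all primes `≤ x`: by `Gs_le`, `hh_mul_totient`, `f (p^k) ≤ w / p^k` when `STT (p^k) ≤ w`;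
`p = 2`: `∑ √(2 2^k)/2^k ≤ 5`; odd `p`: `k ≥ 3` gives `≤ 5 p^(-3/2)` (`STT_crude`), `k = 2` gives `2/p²` or
`1/p` if `p ∣ n` (`STT_sq_le`, `F.two`), `k = 1` gives `0` if `p > Z`, `1/p` if `p ∣ n`, and
`(hq + c/p)/p` otherwise (`Gs_prime`).  Hence `1 + u p ≤ (1 + hq/p or 1) (1 + 1/(p-1))^2 (only if p ∣ n)
(1 + c' p^(-3/2))`; `prod_conv`.
(2) `x < q₁^4`: with `η = 1/log Z ≤ 1/12`, `1 ≤ q₁^η exp (-log x/(4 log Z))`; bound the first factor by the
multiplicative `w q₁ = ∏ w(p^k)` (or define `w q` as the maximum of `STT q a` over units `a`, which is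
submultiplicative by `STT_mul`), use `sum_divisors_card`, and `euler_le` for `1[full] w q q^(η-1)`:
`p ≤ Z`: `p^η ≤ e`, `u p ≤ 13/p + C p^(-5/4)`; `p > Z`: `u p ≤ C p^(-5/4) + 1[p ∣ n] p^(-5/6)`, and
`∑_{p ∣ n, p > Z} p^(-5/6) ≤ (2 log n) Z^(-1/2) ≤ 2`.  `prod_primes_le` with `γ = 13`. -/

/-- admissible smooth or squarefull parts -/
def shhoolOk (F : Fam) (Z q : ℕ) : Prop :=
  q ≠ 0 ∧ (∀ p : ℕ, p.Prime → Z < p → p ∣ q → p ^ 2 ∣ q) ∧ IsCoprime (F.h * F.A) (q : ℤ)

lemma shhool_ok_left {F : Fam} {Z a b : ℕ} (h : a.Coprime b) (hab : shhoolOk F Z (a * b)) :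
    shhoolOk F Z a := by
  obtain ⟨h0, h1, h2⟩ := hab
  refine ⟨left_ne_zero_of_mul h0, fun p hp hZ hpa => ?_, ?_⟩
  · have hpb : (p ^ 2).Coprime b := (Nat.Coprime.coprime_dvd_left hpa h).pow_left 2
    exact hpb.dvd_of_dvd_mul_right (h1 p hp hZ (hpa.mul_right b))
  · push_cast at h2
    exact h2.of_mul_right_left

lemma shhool_ok_right {F : Fam} {Z a b : ℕ} (h : a.Coprime b) (hab : shhoolOk F Z (a * b)) :
    shhoolOk F Z b := shhool_ok_left h.symm (by rwa [mul_comm])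

lemma shhool_split (Z : ℕ) (q : ℕ) (hq : q ≠ 0) : ∃ a b : ℕ, q = a * b ∧ a.Coprime b ∧
    (∀ p : ℕ, p.Prime → Z < p → p ∣ a → p ^ 2 ∣ a) ∧ Squarefree b ∧ Rough Z b := by
  induction q using Nat.recOnPosPrimePosCoprime with
  | zero => exact absurd rfl hq
  | one => exact ⟨1, 1, rfl, by simp, fun p hp _ h => absurd (Nat.dvd_one.1 h) hp.one_lt.ne',
      squarefree_one, fun p hp h => absurd (Nat.dvd_one.1 h) hp.one_lt.ne'⟩
  | prime_pow p k hp hk =>
    by_cases h : Z < p ∧ k = 1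
    · obtain ⟨h1, rfl⟩ := h
      refine ⟨1, p, by simp, by simp, fun r hr _ h => absurd (Nat.dvd_one.1 h) hr.one_lt.ne',
        hp.prime.squarefree, fun r hr h => ?_⟩
      rwa [(Nat.prime_dvd_prime_iff_eq hr hp).1 h]
    · refine ⟨p ^ k, 1, by simp, by simp, fun r hr hZ h' => ?_, squarefree_one,
        fun r hr h => absurd (Nat.dvd_one.1 h) hr.one_lt.ne'⟩
      obtain rfl := (Nat.prime_dvd_prime_iff_eq hr hp).1 (hr.dvd_of_dvd_pow h')
      exact pow_dvd_pow _ (by by_contra h2; exact h ⟨hZ, by omega⟩)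
  | coprime a b ha hb hab iha ihb =>
    obtain ⟨a₁, a₂, rfl, h1, h2, h3, h4⟩ := iha (by omega)
    obtain ⟨b₁, b₂, rfl, k1, k2, k3, k4⟩ := ihb (by omega)
    have c1 : a₁.Coprime b₂ := (hab.coprime_mul_right).coprime_mul_left_right
    have c2 : a₂.Coprime b₁ := (hab.coprime_mul_left).coprime_mul_right_right
    have c3 : a₂.Coprime b₂ := (hab.coprime_mul_left).coprime_mul_left_right
    refine ⟨a₁ * b₁, a₂ * b₂, by ring, ?_, fun p hp hZ h => ?_, ?_, fun p hp h => ?_⟩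
    · exact Nat.Coprime.mul_left (h1.mul_right c1) (c2.symm.mul_right k1)
    · rcases (hp.dvd_mul).1 h with h | h
      exacts [(h2 p hp hZ h).mul_right _, (k2 p hp hZ h).mul_left _]
    · exact (Nat.squarefree_mul c3).2 ⟨h3, k3⟩
    · rcases (hp.dvd_mul).1 h with h | h
      exacts [h4 p hp h, k4 p hp h]

lemma shhool_cop {a b : ℤ} {q : ℕ} (h : a * b ≡ 1 [ZMOD q]) : IsCoprime a (q : ℤ) := by
  obtain ⟨c, hc⟩ := h.dvd
  exact ⟨b, c, by linarith⟩

lemma shhool_icop {a b : ℕ} (h : a.Coprime b) : IsCoprime (a : ℤ) (b : ℤ) :=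
  Nat.isCoprime_iff_coprime.2 h

/-- the first factor -/
def shhoolG (F : Fam) (n : ℕ) (m : ℤ) (a r : ℕ) : ℝ :=
  STT a (iv (F.h * r) a) F.A (F.B * n) (F.c₁ * m + F.c₀)

lemma shhool_Wf (F : Fam) (n : ℕ) (m : ℤ) {Z a b : ℕ} (hZ : 2 ≤ Z) (ha : a ≠ 0) (hab : a.Coprime b)
    (hb : Squarefree b) (hr : Rough Z b) (hc : IsCoprime (F.h * F.A) ((a * b : ℕ) : ℤ)) :
    Wf F n (a * b) m ≤ shhoolG F n m a (b % a) * b.divisors.card := by
  have hb0 : b ≠ 0 := hb.ne_zero
  have hu₂ := iv_mul ha (shhool_icop hab.symm)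
  have hu₁ := iv_mul hb0 (shhool_icop hab)
  have ht := iv_mul (mul_ne_zero ha hb0) hc.of_mul_left_left
  have hc' := hc
  push_cast at hc'
  rw [Wf, if_pos hc, STT_mul hab ha hb0 hu₂ hu₁]
  have hodd : Odd b := by
    rw [← Nat.not_even_iff_odd, even_iff_two_dvd]
    intro h; have := hr 2 Nat.prime_two h; omega
  refine mul_le_mul (le_of_eq (STT_congr ?_ _ _ _)) (STT_squarefree hb hodd ?_ _ _) (STT_nonneg ..)
    (STT_nonneg ..)
  · have hm : ((b % a : ℕ) : ℤ) ≡ b [ZMOD a] := by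
      push_cast; exact Int.mod_modEq _ _
    have hcr : IsCoprime (F.h * (b % a : ℕ)) (a : ℤ) := by
      refine hc'.of_mul_left_left.of_mul_right_left.mul_left (shhool_icop ?_)
      exact (Nat.coprime_iff_gcd_eq_one.2 (by rw [← Nat.gcd_rec]; exact hab))
    have hv := iv_mul ha hcr
    have ht' : iv F.h (a * b) * F.h ≡ 1 [ZMOD a] := ht.of_dvd (by push_cast; exact dvd_mul_right _ _)
    have h1 : iv (F.h * (b % a : ℕ)) a * (F.h * b) ≡ 1 [ZMOD a] :=
      ((hm.symm.mul_left _).mul_left _).trans hv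
    calc iv F.h (a * b) * iv b a ≡ iv F.h (a * b) * iv b a * (iv (F.h * (b % a : ℕ)) a * (F.h * b))
          [ZMOD a] := by simpa using (h1.symm.mul_left (iv F.h (a * b) * iv b a))
      _ = (iv F.h (a * b) * F.h) * (iv b a * b) * iv (F.h * (b % a : ℕ)) a := by ring
      _ ≡ 1 * 1 * iv (F.h * (b % a : ℕ)) a [ZMOD a] := (ht'.mul hu₂).mul_right _
      _ = _ := by ring
  · have ht' : iv F.h (a * b) * F.h ≡ 1 [ZMOD b] := ht.of_dvd (by push_cast; exact dvd_mul_left _ _)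
    exact ((shhool_cop ht').mul_left (shhool_cop hu₁)).mul_left hc'.of_mul_left_right.of_mul_right_right

open Classical in
/-- the inner sum -/
def shhoolI (F : Fam) (n : ℕ) (m : ℤ) (Z x a : ℕ) : ℝ :=
  ∑ b ∈ (Finset.Icc 1 (x / a)).filter (fun b => a.Coprime b ∧ Rough Z b),
    shhoolG F n m a (b % a) * b.divisors.card

open Classical in
lemma shhool_decomp (F : Fam) (n : ℕ) (m : ℤ) {Z : ℕ} (x : ℕ) (hZ : 2 ≤ Z) :
    ∑ q ∈ Finset.Icc 1 x, Wf F n q m ≤
      ∑ a ∈ (Finset.Icc 1 x).filter (shhoolOk F Z), shhoolI F n m Z x a := by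
  unfold shhoolI
  rw [Finset.sum_sigma']
  set S := ((Finset.Icc 1 x).filter (shhoolOk F Z)).sigma
    fun a => (Finset.Icc 1 (x / a)).filter (fun b => a.Coprime b ∧ Rough Z b) with hS
  have hG : ∀ s : (_ : ℕ) × ℕ, 0 ≤ shhoolG F n m s.1 (s.2 % s.1) * s.2.divisors.card :=
    fun s => mul_nonneg (STT_nonneg ..) (Nat.cast_nonneg _)
  refine le_trans (Finset.sum_le_sum fun q hq => ?_)
    (Finset.sum_fiberwise_le_sum_of_sum_fiber_nonneg (s := S) (t := Finset.Icc 1 x)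
      (g := fun s => s.1 * s.2) fun y _ => Finset.sum_nonneg fun s _ => hG s)
  by_cases hc : IsCoprime (F.h * F.A) (q : ℤ)
  · rw [Finset.mem_Icc] at hq
    obtain ⟨a, b, rfl, h1, h2, h3, h4⟩ := shhool_split Z q (by omega)
    have ha : a ≠ 0 := by rintro rfl; simp at hq
    have hb : b ≠ 0 := h3.ne_zero
    refine (shhool_Wf F n m hZ ha h1 h3 h4 hc).trans ?_
    refine Finset.single_le_sum (f := fun s : (_ : ℕ) × ℕ =>
      shhoolG F n m s.1 (s.2 % s.1) * s.2.divisors.card) (fun s _ => hG s) (a := ⟨a, b⟩) ?_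
    simp only [hS, Finset.mem_filter, Finset.mem_sigma, Finset.mem_Icc, and_true]
    refine ⟨⟨⟨by omega, le_trans (Nat.le_mul_of_pos_right _ (by omega)) hq.2⟩, ha, h2, ?_⟩,
      ⟨by omega, (Nat.le_div_iff_mul_le (by omega)).2 (by rw [mul_comm]; exact hq.2)⟩, h1, h4⟩
    push_cast at hc
    exact hc.of_mul_right_left
  · rw [Wf, if_neg hc]
    exact Finset.sum_nonneg fun s _ => hG s

lemma shhool_euler {c : ℝ} (hc : 0 ≤ c) : ∃ C : ℝ, 0 < C ∧ ∀ f : ℕ → ℝ, (∀ q, 0 ≤ f q) → f 1 ≤ 1 →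
    (∀ a b : ℕ, a.Coprime b → f (a * b) ≤ f a * f b) →
    (∀ p : ℕ, p.Prime → ∀ k, f (p ^ k) ≤ 2 * ((p : ℝ) ^ (-5 / 12 : ℝ)) ^ k) →
    ∀ γ : ℕ → ℝ, (∀ p, p.Prime → 1 ≤ γ p) →
    (∀ p : ℕ, p.Prime → p ≠ 2 → 1 + f p + f (p ^ 2) ≤ γ p * (1 + c * (p : ℝ) ^ (-(5 / 4) : ℝ))) →
    ∀ x : ℕ, ∑ q ∈ Finset.Icc 1 x, f q ≤ C * ∏ p ∈ (Finset.Icc 1 x).filter Nat.Prime, γ p := by
  set t₀ : ℝ := (2 : ℝ) ^ (-5 / 12 : ℝ) with ht₀
  have ht1 : t₀ < 1 := Real.rpow_lt_one_of_one_lt_of_neg (by norm_num) (by norm_num)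
  have hc₀ : 0 ≤ 2 / (1 - t₀) := div_nonneg (by norm_num) (by linarith)
  obtain ⟨C, hC, H⟩ := prod_conv (c := c + 16 + 2 / (1 - t₀)) (s := 5 / 4) (by positivity)
    (by norm_num)
  refine ⟨C, hC, fun f h0 h1 hm h3 γ hγ h12 x => ?_⟩
  set PP := (Finset.Icc 1 x).filter Nat.Prime
  have hP : ∀ p ∈ PP, p.Prime := fun p hp => (Finset.mem_filter.1 hp).2
  have := euler_le h0 h1 hm PP hP
    (u := fun p => γ p * (1 + (c + 16 + 2 / (1 - t₀)) * (p : ℝ) ^ (-(5 / 4) : ℝ)) - 1)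
    (fun p hp K => ?_) (Finset.Icc 1 x) fun q hq => ?_
  · refine this.trans ?_
    simp only [add_sub_cancel]
    rw [Finset.prod_mul_distrib, mul_comm]
    exact mul_le_mul_of_nonneg_right (H PP)
      (Finset.prod_nonneg fun p hp => zero_le_one.trans (hγ p (hP p hp)))
  · have hp := hP p hp
    have hp2 : (2 : ℝ) ≤ p := by exact_mod_cast hp.two_le
    set t : ℝ := (p : ℝ) ^ (-5 / 12 : ℝ) with ht
    set s : ℝ := (p : ℝ) ^ (-(5 / 4) : ℝ) with hs
    have ht0 : 0 ≤ t := by positivity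
    have hs0 : 0 ≤ s := by positivity
    have htt : t ≤ t₀ := Real.rpow_le_rpow_of_nonpos (by norm_num) hp2 (by norm_num)
    have hts : t ^ 3 = s := by
      rw [ht, hs, ← Real.rpow_natCast, ← Real.rpow_mul (by linarith)]; norm_num
    have e1 : ∑ k ∈ Finset.range K, f (p ^ (k + 1)) ≤ ∑ k ∈ Finset.range (K + 2), f (p ^ (k + 1)) :=
      Finset.sum_le_sum_of_subset_of_nonneg (Finset.range_mono (by omega)) fun _ _ _ => h0 _
    rw [Finset.sum_range_succ', Finset.sum_range_succ'] at e1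
    have e2 : ∑ k ∈ Finset.range K, f (p ^ (k + 1 + 1 + 1)) ≤ 2 / (1 - t₀) * s := by
      calc _ ≤ ∑ k ∈ Finset.range K, 2 * s * t₀ ^ k := Finset.sum_le_sum fun k _ => by
            refine (h3 p hp _).trans ?_
            rw [← ht, show k + 1 + 1 + 1 = 3 + k by ring, pow_add, hts, mul_assoc]
            gcongr
        _ = 2 * s * ∑ k ∈ Finset.range K, t₀ ^ k := by rw [Finset.mul_sum]
        _ ≤ 2 * s * (1 - t₀)⁻¹ := by
            gcongr
            rw [← tsum_geometric_of_lt_one (by positivity) ht1]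
            exact (summable_geometric_of_lt_one (by positivity) ht1).sum_le_tsum _
              fun _ _ => by positivity
        _ = _ := by ring
    have e3 : 1 + f p + f (p ^ 2) ≤ γ p * (1 + (c + 16) * s) := by
      have hg := hγ p hp
      by_cases h2 : p = 2
      · have a1 := h3 p hp 1
        have a2 := h3 p hp 2
        rw [← ht] at a1 a2
        have b1 : t ≤ 1 := by linarith
        have b2 : t ^ 2 ≤ 1 := pow_le_one₀ ht0 b1
        have b3 : 1 / 4 ≤ s := by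
          rw [hs, h2]
          calc (1 / 4 : ℝ) = (2 : ℝ) ^ (-2 : ℝ) := by
                rw [Real.rpow_neg (by norm_num)]; norm_num
            _ ≤ _ := by
              push_cast
              exact Real.rpow_le_rpow_of_exponent_le (by norm_num) (by norm_num)
        rw [pow_one] at a1
        rw [pow_one] at a1
        nlinarith [mul_nonneg hc hs0, mul_nonneg (sub_nonneg.2 hg) (by positivity : 0 ≤ 1 + (c + 16) * s)]
      · refine (h12 p hp h2).trans ?_
        rw [← hs]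
        gcongr
        linarith
    have hg := hγ p hp
    simp only [zero_add, pow_one] at e1
    rw [show 1 + 1 = 2 from rfl] at e1
    nlinarith [mul_nonneg (sub_nonneg.2 hg) (mul_nonneg hc₀ hs0)]
  · rw [Finset.mem_Icc] at hq
    refine ⟨by omega, fun p hp => ?_⟩
    have h := Nat.mem_primeFactors.1 hp
    exact Finset.mem_filter.2 ⟨Finset.mem_Icc.2 ⟨h.1.one_lt.le,
      (Nat.le_of_dvd (by omega) h.2.1).trans hq.2⟩, h.1⟩

open Classical in
/-- the multiplicative function of the first part -/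
def shhoolF (F : Fam) (n : ℕ) (m : ℤ) (Z q : ℕ) : ℝ :=
  if shhoolOk F Z q then Gs q F.A (F.B * n) (F.c₁ * m + F.c₀) * hh q / (q : ℝ) ^ 2 else 0

lemma shhool_hh0 (q : ℕ) : 0 ≤ hh q := (Pool.Agent.MP_a96b63_al.hh_pos q).le

lemma shhoolF_nonneg (F : Fam) (n : ℕ) (m : ℤ) (Z q : ℕ) : 0 ≤ shhoolF F n m Z q := by
  have := Gs_nonneg q F.A (F.B * n) (F.c₁ * m + F.c₀)
  have := shhool_hh0 q
  unfold shhoolF; split_ifs <;> positivity

lemma shhoolF_le' {F : Fam} {n : ℕ} {m : ℤ} {Z q : ℕ} {w : ℝ} (hw : 0 ≤ w)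
    (h : shhoolOk F Z q → Gs q F.A (F.B * n) (F.c₁ * m + F.c₀) ≤ q.totient * w) :
    shhoolF F n m Z q ≤ w / q := by
  unfold shhoolF
  split_ifs with h1
  · have h2 := hh_mul_totient h1.1
    have h3 : (0 : ℝ) < q := by exact_mod_cast Nat.pos_of_ne_zero h1.1
    calc _ ≤ q.totient * w * hh q / (q : ℝ) ^ 2 := by
          gcongr
          exacts [shhool_hh0 q, h h1]
      _ = w * (hh q * q.totient) / (q : ℝ) ^ 2 := by ring
      _ = w / q := by rw [h2]; field_simp
  · positivity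

lemma shhoolF_le {F : Fam} {n : ℕ} {m : ℤ} {Z q : ℕ} {w : ℝ} (hw : 0 ≤ w)
    (h : ∀ a : ℤ, IsCoprime (a * F.A) (q : ℤ) → STT q a F.A (F.B * n) (F.c₁ * m + F.c₀) ≤ w) :
    shhoolF F n m Z q ≤ w / q :=
  shhoolF_le' hw fun h1 => Gs_le fun a ha => h a (ha.mul_left h1.2.2.of_mul_left_right)

lemma shhool_ndvd {p k : ℕ} (hp : p.Prime) (hk : k ≠ 0) {a : ℤ} (h : IsCoprime a ((p ^ k : ℕ) : ℤ)) :
    ¬(p : ℤ) ∣ a := fun hd => by
  have h1 := h.isUnit_of_dvd' hd (by push_cast; exact dvd_pow_self _ hk)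
  have := Int.isUnit_iff_natAbs_eq.1 h1
  exact hp.one_lt.ne' (by simpa using this)

lemma shhool_B (F : Fam) {n p : ℕ} (hp : p.Prime) (h2 : p ≠ 2) :
    (p : ℤ) ∣ F.B * n ↔ p ∣ n := by
  refine ⟨fun h => ?_, fun h => (Int.natCast_dvd_natCast.2 h).mul_left _⟩
  rcases (Nat.prime_iff_prime_int.1 hp).dvd_or_dvd h with h | h
  · exact absurd ((h.mul_left _).mul_right _) (F.two p hp h2)
  · exact Int.natCast_dvd_natCast.1 h

lemma shhool_tail {p : ℕ} (hp : p.Prime) (k : ℕ) {η : ℝ} (hη : η ≤ 1 / 12) :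
    √(2 * ((p ^ k : ℕ) : ℝ)) * ((p ^ k : ℕ) : ℝ) ^ (η - 1) ≤ 2 * ((p : ℝ) ^ (-5 / 12 : ℝ)) ^ k := by
  have hp1 : (1 : ℝ) ≤ p := by exact_mod_cast hp.one_lt.le
  have hq1 : (1 : ℝ) ≤ ((p ^ k : ℕ) : ℝ) := by push_cast; exact one_le_pow₀ hp1
  have e : ((p : ℝ) ^ (-5 / 12 : ℝ)) ^ k = ((p ^ k : ℕ) : ℝ) ^ (-5 / 12 : ℝ) := by
    push_cast
    rw [← Real.rpow_natCast, ← Real.rpow_mul (by linarith), mul_comm, Real.rpow_mul (by linarith),
      Real.rpow_natCast]
  rw [e]
  set q : ℝ := ((p ^ k : ℕ) : ℝ)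
  have h2 : √2 ≤ 2 := Real.sqrt_le_iff.2 (by norm_num)
  rw [Real.sqrt_mul (by norm_num), Real.sqrt_eq_rpow q, mul_assoc, ← Real.rpow_add (by linarith)]
  gcongr
  linarith

lemma shhool_sq {p : ℕ} (hp : p.Prime) : 1 / (p : ℝ) ^ 2 ≤ (p : ℝ) ^ (-(5 / 4) : ℝ) := by
  have hp1 : (1 : ℝ) ≤ p := by exact_mod_cast hp.one_lt.le
  calc 1 / (p : ℝ) ^ 2 = (p : ℝ) ^ (-(2 : ℝ)) := by
        rw [Real.rpow_neg (by linarith)]; norm_num
    _ ≤ _ := Real.rpow_le_rpow_of_exponent_le hp1 (by norm_num)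

lemma shhool_prod_ite (S T : Finset ℕ) (g : ℕ → ℝ) (hg : ∀ p ∈ T, 1 ≤ g p) :
    ∏ p ∈ S, (if p ∈ T then g p else 1) ≤ ∏ p ∈ T, g p := by
  rw [Finset.prod_ite_mem]
  exact Finset.prod_le_prod_of_subset_of_one_le Finset.inter_subset_right
    (fun p hp => zero_le_one.trans (hg p (Finset.mem_inter.1 hp).2)) fun p hp _ => hg p hp

lemma shhool_sumF : ∃ C : ℝ, 0 < C ∧ ∀ (F : Fam) (n Z x : ℕ) (m : ℤ), 1 ≤ n →
    ∑ q ∈ Finset.Icc 1 x, shhoolF F n m Z q ≤ C * (hh n ^ 2 * EP F n Z m) := by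
  obtain ⟨c, hc, HG⟩ := Gs_prime
  obtain ⟨C, hC, H⟩ := shhool_euler (c := c + 2) (by positivity)
  refine ⟨C, hC, fun F n Z x m hn => ?_⟩
  have hα : ∀ p : ℕ, 1 ≤ 1 + hq F n p m / p := fun p => by
    have := div_nonneg (hq_nonneg F n p m) p.cast_nonneg; linarith
  have hβ : ∀ p : ℕ, p.Prime → 1 ≤ (1 + 1 / ((p : ℝ) - 1)) ^ 2 := fun p hp =>
    one_le_pow₀ (by linarith [Pool.Agent.MP_a96b63_al.inv_pred_nonneg hp])
  refine (H (shhoolF F n m Z) (shhoolF_nonneg F n m Z) ?_ (fun a b hab => ?_) (fun p hp k => ?_)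
    (fun p => (if p ∈ n.primeFactors then (1 + 1 / ((p : ℝ) - 1)) ^ 2 else 1) *
      (if p ∈ PS n Z then 1 + hq F n p m / p else 1)) (fun p hp => ?_) (fun p hp h2 => ?_) x).trans ?_
  · simpa using shhoolF_le (F := F) (n := n) (m := m) (Z := Z) (q := 1) zero_le_one
      fun a _ => (STT_one ..).le
  · by_cases h : shhoolOk F Z (a * b)
    · unfold shhoolF
      rw [if_pos h, if_pos (shhool_ok_left hab h), if_pos (shhool_ok_right hab h), Gs_mul hab,
        hh_mul_coprime hab]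
      push_cast
      apply le_of_eq
      rw [mul_pow, div_mul_div_comm]; congr 1; ring
    · rw [shhoolF, if_neg h]
      exact mul_nonneg (shhoolF_nonneg ..) (shhoolF_nonneg ..)
  · refine (shhoolF_le (Real.sqrt_nonneg _) fun a ha => STT_crude ha _ _).trans ?_
    have := shhool_tail hp k (η := 0) (by norm_num)
    rwa [zero_sub, Real.rpow_neg_one, ← div_eq_mul_inv] at this
  · refine one_le_mul_of_one_le_of_one_le ?_ ?_ <;> split_ifs
    exacts [hβ p hp, le_rfl, hα p, le_rfl]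
  · have hp2 : (2 : ℝ) ≤ p := by exact_mod_cast hp.two_le
    have hs := shhool_sq hp
    set s : ℝ := (p : ℝ) ^ (-(5 / 4) : ℝ)
    have hs0 : 0 ≤ s := by positivity
    have hA : shhoolOk F Z p → ¬(p : ℤ) ∣ F.A := fun h =>
      shhool_ndvd hp one_ne_zero (by simpa using h.2.2.of_mul_left_right)
    have htot : (p.totient : ℝ) = p - 1 := by
      rw [Nat.totient_prime hp, Nat.cast_sub hp.one_lt.le]; simp
    by_cases hn' : p ∣ n
    · have e1 : shhoolF F n m Z p ≤ 1 / p := shhoolF_le' zero_le_one fun h => by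
        have := HG p hp h2 F.A (F.B * n) (F.c₁ * m + F.c₀) (hA h)
        rwa [if_pos (((shhool_B F hp h2).2 hn').mul_right _), ← htot] at this
      have e2 : shhoolF F n m Z (p ^ 2) ≤ 1 / p := by
        refine (shhoolF_le (w := p) (by positivity) fun a ha => ?_).trans (le_of_eq ?_)
        · have := STT_sq_le hp h2 (shhool_ndvd hp two_ne_zero ha) (F.B * n) (F.c₁ * m + F.c₀)
          rwa [if_pos ((shhool_B F hp h2).2 hn')] at this
        · push_cast; field_simp
      have hps : p ∉ PS n Z := fun h => (Finset.mem_filter.1 h).2.2 (hn'.mul_left 2)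
      rw [if_pos (Nat.mem_primeFactors.2 ⟨hp, hn', by omega⟩), if_neg hps, mul_one]
      have e3 : 1 / (p : ℝ) ≤ 1 / ((p : ℝ) - 1) := one_div_le_one_div_of_le (by linarith) (by linarith)
      have e4 := hβ p hp
      have e5 : 0 ≤ (c + 2) * s := by positivity
      nlinarith [sq_nonneg (1 / ((p : ℝ) - 1))]
    · have e2 : shhoolF F n m Z (p ^ 2) ≤ 2 * s := by
        refine (shhoolF_le (w := 2) (by positivity) fun a ha => ?_).trans ?_
        · have := STT_sq_le hp h2 (shhool_ndvd hp two_ne_zero ha) (F.B * n) (F.c₁ * m + F.c₀)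
          rwa [if_neg (mt (shhool_B F hp h2).1 hn')] at this
        · push_cast; rw [div_eq_mul_one_div]; linarith
      rw [if_neg (fun h => hn' (Nat.dvd_of_mem_primeFactors h)), one_mul]
      by_cases hZ : Z < p
      · have e1 : shhoolF F n m Z p = 0 := by
          rw [shhoolF, if_neg]
          intro h
          have := Nat.le_of_dvd hp.pos (h.2.1 p hp hZ dvd_rfl)
          nlinarith [hp.two_le]
        have hps : p ∉ PS n Z := fun h => by
          have := Finset.mem_range.1 (Finset.mem_filter.1 h).1; omega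
        rw [if_neg hps, e1]
        nlinarith [mul_nonneg hc hs0]
      · have hps : p ∈ PS n Z := by
          refine Finset.mem_filter.2 ⟨Finset.mem_range.2 (by omega), hp, fun h => ?_⟩
          rcases (hp.dvd_mul).1 h with h | h
          exacts [h2 ((Nat.prime_dvd_prime_iff_eq hp Nat.prime_two).1 h), hn' h]
        have hq0 := hq_nonneg F n p m
        have hcp : 0 ≤ c / p := by positivity
        have e1 : shhoolF F n m Z p ≤ (hq F n p m + c / p) / p :=
          shhoolF_le' (by positivity) fun h => by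
            refine (HG p hp h2 F.A (F.B * n) (F.c₁ * m + F.c₀) (hA h)).trans ?_
            rw [htot]
            refine mul_le_mul_of_nonneg_left ?_ (by linarith)
            have hiff : (p : ℤ) ∣ F.B * n * (F.c₁ * m + F.c₀) ↔ (p : ℤ) ∣ F.c₁ * m + F.c₀ :=
              ⟨fun h => ((Nat.prime_iff_prime_int.1 hp).dvd_or_dvd h).resolve_left
                (mt (shhool_B F hp h2).1 hn'), fun h => h.mul_left _⟩
            unfold hq
            by_cases h1 : (p : ℤ) ∣ F.c₁ * m + F.c₀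
            · rw [if_pos (hiff.2 h1), if_pos h1]; linarith
            · rw [if_neg (mt hiff.1 h1), if_neg h1]
              split_ifs <;> linarith
        have e3 : (hq F n p m + c / p) / p = hq F n p m / p + c * (1 / (p : ℝ) ^ 2) := by
          field_simp
        rw [if_pos hps]
        have e4 : 0 ≤ hq F n p m / p := by positivity
        have e5 : 0 ≤ (c + 2) * s := by positivity
        nlinarith [mul_le_mul_of_nonneg_left hs hc, mul_nonneg e4 e5]
  · refine mul_le_mul_of_nonneg_left ?_ hC.le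
    rw [Finset.prod_mul_distrib]
    refine mul_le_mul ?_ (shhool_prod_ite _ _ _ fun p _ => hα p)
      (Finset.prod_nonneg fun p _ => ?_) (sq_nonneg _)
    · rw [hh, ← Finset.prod_pow]
      exact shhool_prod_ite _ _ _ fun p hp => hβ p (Nat.prime_of_mem_primeFactors hp)
    · split_ifs
      exacts [zero_le_one.trans (hα p), zero_le_one]

open Classical in
lemma shhool_I1 : ∃ C : ℝ, 0 < C ∧ ∀ (F : Fam) (n Z x a : ℕ) (m : ℤ), 2 ≤ Z → Z ^ 40 ≤ x →
    shhoolOk F Z a → a ^ 4 ≤ x →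
    shhoolI F n m Z x a ≤ C * x * Real.log x / Real.log Z ^ 2 * shhoolF F n m Z a := by
  obtain ⟨C, hC, H⟩ := rough_sum
  refine ⟨C, hC, fun F n Z x a m hZ hx ha hax => ?_⟩
  have ha0 : 0 < a := Nat.pos_of_ne_zero ha.1
  have hY : Z ^ 10 * a ^ 2 ≤ x / a := by
    rw [Nat.le_div_iff_mul_le ha0]
    refine (Nat.pow_le_pow_iff_left (n := 4) (by norm_num)).1 ?_
    calc (Z ^ 10 * a ^ 2 * a) ^ 4 = Z ^ 40 * (a ^ 4) ^ 3 := by ring
      _ ≤ x * x ^ 3 := by gcongr
      _ = x ^ 4 := by ring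
  have hY1 : 1 ≤ x / a := le_trans (Nat.succ_le_of_lt (by positivity)) hY
  have har : (0 : ℝ) < a := by exact_mod_cast ha0
  have hhh := shhool_hh0 a
  have hx1 : (1 : ℝ) ≤ x := by exact_mod_cast hY1.trans (Nat.div_le_self _ _)
  have hlx := Real.log_nonneg hx1
  unfold shhoolI
  rw [← Finset.sum_fiberwise_of_maps_to (t := (Finset.range a).filter fun r => r.Coprime a)
    (g := fun b => b % a) (fun b hb => ?_)]
  · rw [shhoolF, if_pos ha, ← Gs_inv ha.1 ha.2.2.of_mul_left_left, Finset.sum_mul, Finset.sum_div,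
      Finset.mul_sum]
    refine Finset.sum_le_sum fun r hr => ?_
    obtain ⟨hr1, hr2⟩ := Finset.mem_filter.1 hr
    rw [Finset.mem_range] at hr1
    have h0 : 0 ≤ shhoolG F n m a r := STT_nonneg ..
    calc _ = shhoolG F n m a r * ∑ b ∈ ((Finset.Icc 1 (x / a)).filter
            (fun b => a.Coprime b ∧ Rough Z b)).filter (fun b => b % a = r), (b.divisors.card : ℝ) := by
          rw [Finset.mul_sum]
          exact Finset.sum_congr rfl fun b hb => by rw [(Finset.mem_filter.1 hb).2]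
      _ ≤ shhoolG F n m a r * ∑ b ∈ (Finset.Icc 1 (x / a)).filter
            (fun b => b ≡ r [MOD a] ∧ Rough Z b), (b.divisors.card : ℝ) := by
          refine mul_le_mul_of_nonneg_left (Finset.sum_le_sum_of_subset_of_nonneg (fun b hb => ?_)
            fun _ _ _ => Nat.cast_nonneg _) h0
          simp only [Finset.mem_filter] at hb ⊢
          refine ⟨hb.1.1, ?_, hb.1.2.2⟩
          rw [← hb.2]; exact (Nat.mod_modEq b a).symm
      _ ≤ shhoolG F n m a r * (C * (((x / a : ℕ) : ℝ) / a * hh a) * Real.log (x / a : ℕ) /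
            Real.log Z ^ 2) := mul_le_mul_of_nonneg_left (H Z a r (x / a) hZ ha0 hr2 hY) h0
      _ ≤ shhoolG F n m a r * (C * ((x / a : ℝ) / a * hh a) * Real.log x / Real.log Z ^ 2) := by
          have h1 : (1 : ℝ) ≤ (x / a : ℕ) := by exact_mod_cast hY1
          have h2 := Real.log_nonneg h1
          gcongr
          exacts [Nat.cast_div_le, Nat.div_le_self _ _]
      _ = _ := by rw [shhoolG]; field_simp
  · obtain ⟨-, h1, -⟩ := Finset.mem_filter.1 hb
    exact Finset.mem_filter.2 ⟨Finset.mem_range.2 (Nat.mod_lt _ ha0),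
      Nat.coprime_iff_gcd_eq_one.2 (by rw [← Nat.gcd_rec]; exact h1)⟩

/-- the maximal twisted sum -/
def shhoolW (F : Fam) (n : ℕ) (m : ℤ) (q : ℕ) : ℝ :=
  sSup ((fun a => STT q a F.A (F.B * n) (F.c₁ * m + F.c₀)) '' {a | IsCoprime a (q : ℤ)})

lemma shhoolW_nonneg (F : Fam) (n : ℕ) (m : ℤ) (q : ℕ) : 0 ≤ shhoolW F n m q :=
  Real.sSup_nonneg (by rintro _ ⟨a, -, rfl⟩; exact STT_nonneg ..)

lemma shhoolW_le {F : Fam} {n : ℕ} {m : ℤ} {q : ℕ} {w : ℝ} (hw : 0 ≤ w)
    (h : ∀ a : ℤ, IsCoprime a (q : ℤ) → STT q a F.A (F.B * n) (F.c₁ * m + F.c₀) ≤ w) :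
    shhoolW F n m q ≤ w :=
  Real.sSup_le (by rintro _ ⟨a, ha, rfl⟩; exact h a ha) hw

lemma shhool_le_W {F : Fam} (n : ℕ) (m : ℤ) {q : ℕ} (hA : IsCoprime F.A (q : ℤ)) {a : ℤ}
    (ha : IsCoprime a (q : ℤ)) : STT q a F.A (F.B * n) (F.c₁ * m + F.c₀) ≤ shhoolW F n m q :=
  le_csSup ⟨√(2 * q), by rintro _ ⟨b, hb, rfl⟩; exact STT_crude (IsCoprime.mul_left hb hA) _ _⟩
    ⟨a, ha, rfl⟩

open Classical in
/-- the submultiplicative function of the second part -/
def shhoolH (F : Fam) (n : ℕ) (m : ℤ) (Z q : ℕ) : ℝ :=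
  if shhoolOk F Z q then shhoolW F n m q * (q : ℝ) ^ (1 / Real.log Z - 1) else 0

lemma shhoolH_nonneg (F : Fam) (n : ℕ) (m : ℤ) (Z q : ℕ) : 0 ≤ shhoolH F n m Z q := by
  have := shhoolW_nonneg F n m q
  unfold shhoolH; split_ifs <;> positivity

lemma shhoolH_le {F : Fam} {n : ℕ} {m : ℤ} {Z q : ℕ} {w : ℝ} (hw : 0 ≤ w)
    (h : ∀ a : ℤ, IsCoprime (a * F.A) (q : ℤ) → STT q a F.A (F.B * n) (F.c₁ * m + F.c₀) ≤ w) :
    shhoolH F n m Z q ≤ w * (q : ℝ) ^ (1 / Real.log Z - 1) := by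
  unfold shhoolH
  split_ifs with h1
  · exact mul_le_mul_of_nonneg_right
      (shhoolW_le hw fun a ha => h a (ha.mul_left h1.2.2.of_mul_left_right)) (by positivity)
  · positivity

lemma shhool_log {Z : ℕ} (hZ : 200000 ≤ Z) : 12 ≤ Real.log Z := by
  have h : (200000 : ℝ) ≤ Z := by exact_mod_cast hZ
  rw [Real.le_log_iff_exp_le (by linarith)]
  have h1 : Real.exp 12 = Real.exp 1 ^ 12 := by rw [← Real.exp_nat_mul]; norm_num
  have h2 : Real.exp 1 ≤ 2.72 := by linarith [Real.exp_one_lt_d9]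
  calc Real.exp 12 ≤ 2.72 ^ 12 := by rw [h1]; gcongr
    _ ≤ Z := le_trans (by norm_num) h

lemma shhool_omega {n Z : ℕ} (hn : 1 ≤ n) (hZ : 1 ≤ Z) (h : (1 + Real.log n) ^ 2 ≤ Z) :
    ∏ _p ∈ n.primeFactors, (1 + 1 / √(Z : ℝ)) ≤ Real.exp 2 := by
  have h1 : 2 ^ n.primeFactors.card ≤ n :=
    (Finset.pow_card_le_prod _ _ _ fun p hp => (Nat.prime_of_mem_primeFactors hp).two_le).trans
      (Nat.le_of_dvd hn (Nat.prod_primeFactors_dvd n))
  have h2 : (n.primeFactors.card : ℝ) * Real.log 2 ≤ Real.log n := by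
    rw [← Real.log_pow]
    exact Real.log_le_log (by positivity) (by exact_mod_cast h1)
  have h3 : 1 + Real.log n ≤ √(Z : ℝ) := Real.le_sqrt_of_sq_le h
  have h4 : (0 : ℝ) < √(Z : ℝ) := Real.sqrt_pos.2 (by exact_mod_cast hZ)
  have h5 := Real.log_two_gt_d9
  have h6 : (0 : ℝ) ≤ n.primeFactors.card := Nat.cast_nonneg _
  rw [Finset.prod_const]
  calc _ ≤ Real.exp (1 / √(Z : ℝ)) ^ n.primeFactors.card := by
        gcongr
        linarith [Real.add_one_le_exp (1 / √(Z : ℝ))]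
    _ = Real.exp (n.primeFactors.card / √(Z : ℝ)) := by rw [← Real.exp_nat_mul]; congr 1; ring
    _ ≤ _ := by
        rw [Real.exp_le_exp, div_le_iff₀ h4]; nlinarith

lemma shhool_sumH : ∃ C : ℝ, 0 < C ∧ ∀ (F : Fam) (n Z x : ℕ) (m : ℤ), 1 ≤ n → 200000 ≤ Z →
    (1 + Real.log n) ^ 2 ≤ Z → ∑ q ∈ Finset.Icc 1 x, shhoolH F n m Z q ≤ C * Real.log Z ^ 13 := by
  obtain ⟨C, hC, H⟩ := shhool_euler (c := 2) (by positivity)
  obtain ⟨D, hD, HD⟩ := prod_primes_le (γ := 13) (by norm_num)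
  refine ⟨C * (Real.exp 2 * D), by positivity, fun F n Z x m hn hZ hnZ => ?_⟩
  have hL := shhool_log hZ
  have hη0 : 0 ≤ 1 / Real.log Z := by positivity
  have hη : 1 / Real.log Z ≤ 1 / 12 := one_div_le_one_div_of_le (by norm_num) hL
  have hα : ∀ p : ℕ, 1 ≤ 1 + (13 : ℝ) / p := fun p => by
    have : 0 ≤ (13 : ℝ) / p := by positivity
    linarith
  have hβ : 1 ≤ 1 + 1 / √(Z : ℝ) := by
    have : 0 ≤ 1 / √(Z : ℝ) := by positivity
    linarith
  set PZ := (Finset.range (Z + 1)).filter Nat.Prime with hPZ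
  refine (H (shhoolH F n m Z) (shhoolH_nonneg F n m Z) ?_ (fun a b hab => ?_) (fun p hp k => ?_)
    (fun p => (if p ∈ n.primeFactors then 1 + 1 / √(Z : ℝ) else 1) *
      (if p ∈ PZ then 1 + (13 : ℝ) / p else 1)) (fun p hp => ?_) (fun p hp h2 => ?_) x).trans ?_
  · simpa using shhoolH_le (F := F) (n := n) (m := m) (Z := Z) (q := 1) zero_le_one
      fun a _ => (STT_one ..).le
  · by_cases h : shhoolOk F Z (a * b)
    · have ha := shhool_ok_left hab h
      have hb := shhool_ok_right hab h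
      have hu₂ := iv_mul ha.1 (shhool_icop hab.symm)
      have hu₁ := iv_mul hb.1 (shhool_icop hab)
      have hw : shhoolW F n m (a * b) ≤ shhoolW F n m a * shhoolW F n m b := by
        refine shhoolW_le (mul_nonneg (shhoolW_nonneg ..) (shhoolW_nonneg ..)) fun t ht => ?_
        push_cast at ht
        rw [STT_mul hab ha.1 hb.1 hu₂ hu₁]
        exact mul_le_mul
          (shhool_le_W n m ha.2.2.of_mul_left_right (ht.of_mul_right_left.mul_left (shhool_cop hu₂)))
          (shhool_le_W n m hb.2.2.of_mul_left_right (ht.of_mul_right_right.mul_left (shhool_cop hu₁)))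
          (STT_nonneg ..) (shhoolW_nonneg ..)
      unfold shhoolH
      rw [if_pos h, if_pos ha, if_pos hb]
      push_cast
      rw [Real.mul_rpow a.cast_nonneg b.cast_nonneg, mul_mul_mul_comm]
      gcongr
    · rw [shhoolH, if_neg h]
      exact mul_nonneg (shhoolH_nonneg ..) (shhoolH_nonneg ..)
  · exact (shhoolH_le (Real.sqrt_nonneg _) fun a ha => STT_crude ha _ _).trans (shhool_tail hp k hη)
  · refine one_le_mul_of_one_le_of_one_le ?_ ?_ <;> split_ifs
    exacts [hβ, le_rfl, hα p, le_rfl]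
  · have hp2 : (2 : ℝ) ≤ p := by exact_mod_cast hp.two_le
    have hp0 : (0 : ℝ) < p := by linarith
    set η : ℝ := 1 / Real.log Z with hηdef
    set s : ℝ := (p : ℝ) ^ (-(5 / 4) : ℝ) with hs
    have hs0 : 0 ≤ s := by positivity
    have hsq : ((p ^ 2 : ℕ) : ℝ) ^ (η - 1) = (p : ℝ) ^ (2 * (η - 1)) := by
      push_cast
      rw [Real.rpow_mul hp0.le]; norm_num
    have e2 : shhoolH F n m Z (p ^ 2) ≤ p * (p : ℝ) ^ (2 * (η - 1)) := by
      rw [← hsq]
      refine shhoolH_le hp0.le fun a ha => ?_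
      refine (STT_sq_le hp h2 (shhool_ndvd hp two_ne_zero ha) _ _).trans ?_
      split_ifs <;> linarith
    have hb1 : 1 ≤ (if p ∈ n.primeFactors then 1 + 1 / √(Z : ℝ) else 1) := by
      split_ifs
      exacts [hβ, le_rfl]
    by_cases hZp : Z < p
    · have e1 : shhoolH F n m Z p = 0 := by
        rw [shhoolH, if_neg]
        intro h
        have := Nat.le_of_dvd hp.pos (h.2.1 p hp hZp dvd_rfl)
        nlinarith [hp.two_le]
      have hps : p ∉ PZ := fun h => by
        have := Finset.mem_range.1 (Finset.mem_filter.1 h).1; omega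
      rw [if_neg hps, e1, mul_one, add_zero]
      by_cases hn' : p ∣ n
      · rw [if_pos (Nat.mem_primeFactors.2 ⟨hp, hn', by omega⟩)]
        have e3 : p * (p : ℝ) ^ (2 * (η - 1)) ≤ 1 / √(Z : ℝ) := by
          have hZ0 : (0 : ℝ) < Z := by exact_mod_cast (by omega : 0 < Z)
          have hZp' : (Z : ℝ) ≤ p := by exact_mod_cast hZp.le
          calc p * (p : ℝ) ^ (2 * (η - 1)) = (p : ℝ) ^ (1 + 2 * (η - 1)) := by
                rw [Real.rpow_add hp0, Real.rpow_one]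
            _ ≤ (p : ℝ) ^ (-(1 / 2) : ℝ) :=
                Real.rpow_le_rpow_of_exponent_le (by linarith) (by linarith)
            _ ≤ (Z : ℝ) ^ (-(1 / 2) : ℝ) := Real.rpow_le_rpow_of_nonpos hZ0 hZp' (by norm_num)
            _ = _ := by rw [Real.rpow_neg hZ0.le, Real.sqrt_eq_rpow, one_div (_ ^ _)]
        nlinarith [mul_nonneg (zero_le_one.trans hβ) hs0]
      · rw [if_neg (fun h => hn' (Nat.dvd_of_mem_primeFactors h)), one_mul]
        have e3 : shhoolH F n m Z (p ^ 2) ≤ 2 * (p : ℝ) ^ (2 * (η - 1)) := by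
          rw [← hsq]
          refine shhoolH_le (by norm_num) fun a ha => ?_
          have := STT_sq_le hp h2 (shhool_ndvd hp two_ne_zero ha) (F.B * n) (F.c₁ * m + F.c₀)
          rwa [if_neg (mt (shhool_B F hp h2).1 hn')] at this
        have e4 : (p : ℝ) ^ (2 * (η - 1)) ≤ s :=
          Real.rpow_le_rpow_of_exponent_le (by linarith) (by linarith)
        linarith
    · have hps : p ∈ PZ := Finset.mem_filter.2 ⟨Finset.mem_range.2 (by omega), hp⟩
      rw [if_pos hps]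
      have e1 : shhoolH F n m Z p ≤ 2 * (p : ℝ) ^ (η - 1) :=
        shhoolH_le (by norm_num) fun a ha =>
          STT_prime_le hp h2 (shhool_ndvd hp one_ne_zero (by simpa using ha)) _ _
      have e3 : (p : ℝ) ^ η ≤ 2.72 := by
        have : Real.log p ≤ Real.log Z := Real.log_le_log hp0 (by exact_mod_cast not_lt.1 hZp)
        rw [Real.rpow_def_of_pos hp0]
        refine le_trans (Real.exp_le_exp.2 ?_) (by linarith [Real.exp_one_lt_d9] : Real.exp 1 ≤ _)
        rw [hηdef, mul_one_div, div_le_one (by linarith)]; exact this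
      have e4 : 0 ≤ (p : ℝ) ^ η := by positivity
      have e5 : (p : ℝ) ^ (η - 1) = (p : ℝ) ^ η * (1 / p) := by
        rw [Real.rpow_sub_one hp0.ne']; ring
      have e6 : p * (p : ℝ) ^ (2 * (η - 1)) = ((p : ℝ) ^ η) ^ 2 * (1 / p) := by
        rw [mul_comm 2, Real.rpow_mul hp0.le, e5, Real.rpow_two]; field_simp
      have e7 : 2 * (p : ℝ) ^ η + ((p : ℝ) ^ η) ^ 2 ≤ 13 := by nlinarith
      have e8 : 0 ≤ 1 / (p : ℝ) := by positivity
      have e9 : 1 + shhoolH F n m Z p + shhoolH F n m Z (p ^ 2) ≤ 1 + 13 / p := by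
        rw [e5] at e1
        rw [e6] at e2
        rw [div_eq_mul_one_div 13]
        nlinarith [mul_le_mul_of_nonneg_right e7 e8]
      refine e9.trans ?_
      have e10 := hα p
      calc 1 + (13 : ℝ) / p = 1 * (1 + 13 / p) * 1 := by ring
        _ ≤ _ := by gcongr; linarith
  · rw [mul_assoc, mul_assoc]
    refine mul_le_mul_of_nonneg_left ?_ hC.le
    rw [Finset.prod_mul_distrib]
    refine mul_le_mul ((shhool_prod_ite _ _ (fun _ => 1 + 1 / √(Z : ℝ)) fun p _ => hβ).trans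
      (shhool_omega hn (by omega) hnZ)) ((shhool_prod_ite _ _ _ fun p _ => hα p).trans ?_)
      (Finset.prod_nonneg fun p _ => ?_) (by positivity)
    · have := HD Z (by omega) PZ fun p hp => by
        obtain ⟨h1, h2⟩ := Finset.mem_filter.1 hp
        exact ⟨h2, by have := Finset.mem_range.1 h1; omega⟩
      rwa [show (13 : ℝ) = (13 : ℕ) by norm_num, Real.rpow_natCast] at this
    · split_ifs
      exacts [zero_le_one.trans (hα p), zero_le_one]

open Classical in
lemma shhool_I2 (F : Fam) {n Z x a : ℕ} (m : ℤ) (hZ : 200000 ≤ Z) (ha : shhoolOk F Z a)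
    (hax : a ≤ x) (hxa : x < a ^ 4) : shhoolI F n m Z x a ≤
      x * (1 + Real.log x) * Real.exp (-Real.log x / (4 * Real.log Z)) * shhoolH F n m Z a := by
  have ha0 : 0 < a := Nat.pos_of_ne_zero ha.1
  have har : (0 : ℝ) < a := by exact_mod_cast ha0
  have hx1 : (1 : ℝ) ≤ x := by exact_mod_cast ha0.trans_le hax
  have hlx := Real.log_nonneg hx1
  have hW := shhoolW_nonneg F n m a
  have hL := shhool_log hZ
  have h1 : (1 : ℝ) ≤ (x / a : ℕ) := by exact_mod_cast Nat.div_pos hax ha0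
  have h2 := Real.log_nonneg h1
  have h3 : 1 ≤ Real.exp (-Real.log x / (4 * Real.log Z)) * (a : ℝ) ^ (1 / Real.log Z) := by
    rw [Real.rpow_def_of_pos har, ← Real.exp_add]
    refine Real.one_le_exp ?_
    have h4 : Real.log x ≤ 4 * Real.log a := by
      rw [show (4 : ℝ) = (4 : ℕ) by norm_num, ← Real.log_pow]
      exact Real.log_le_log (by linarith) (by exact_mod_cast hxa.le)
    have : -Real.log x / (4 * Real.log Z) + Real.log a * (1 / Real.log Z) =
        (4 * Real.log a - Real.log x) / (4 * Real.log Z) := by field_simp; ring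
    rw [this]
    exact div_nonneg (by linarith) (by linarith)
  calc shhoolI F n m Z x a ≤ ∑ b ∈ (Finset.Icc 1 (x / a)).filter (fun b => a.Coprime b ∧ Rough Z b),
        shhoolW F n m a * b.divisors.card := Finset.sum_le_sum fun b hb => by
        obtain ⟨-, h1, -⟩ := Finset.mem_filter.1 hb
        refine mul_le_mul_of_nonneg_right (shhool_le_W n m ha.2.2.of_mul_left_right
          (shhool_cop (iv_mul ha.1 (ha.2.2.of_mul_left_left.mul_left (shhool_icop ?_)))))
          (Nat.cast_nonneg _)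
        exact Nat.coprime_iff_gcd_eq_one.2 (by rw [← Nat.gcd_rec]; exact h1)
    _ ≤ ∑ b ∈ Finset.Icc 1 (x / a), shhoolW F n m a * b.divisors.card :=
        Finset.sum_le_sum_of_subset_of_nonneg (Finset.filter_subset _ _) fun _ _ _ => by positivity
    _ ≤ shhoolW F n m a * ((x / a : ℕ) * (1 + Real.log (x / a : ℕ))) := by
        rw [← Finset.mul_sum]
        exact mul_le_mul_of_nonneg_left (sum_divisors_card _) hW
    _ ≤ shhoolW F n m a * ((x / a : ℝ) * (1 + Real.log x)) *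
        (Real.exp (-Real.log x / (4 * Real.log Z)) * (a : ℝ) ^ (1 / Real.log Z)) := by
        refine le_trans ?_ (le_mul_of_one_le_right (by positivity) h3)
        gcongr
        exacts [Nat.cast_div_le, Nat.div_le_self _ _]
    _ = _ := by
        rw [shhoolH, if_pos ha, Real.rpow_sub_one har.ne']; ring

theorem hooley : ∃ C : ℝ, 0 < C ∧ ∀ (F : Fam) (n Z x : ℕ) (m : ℤ), 1 ≤ n → 200000 ≤ Z →
    Z ^ 40 ≤ x → (1 + Real.log n) ^ 2 ≤ Z →
    ∑ q ∈ Finset.Icc 1 x, Wf F n q m ≤ C * x * (hh n ^ 2 * Real.log x / Real.log Z ^ 2 * EP F n Z m +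
      Real.log x ^ 15 * Real.exp (-Real.log x / (4 * Real.log Z))) := by
  classical
  obtain ⟨C₁, hC₁, H₁⟩ := shhool_I1
  obtain ⟨C₂, hC₂, H₂⟩ := shhool_sumF
  obtain ⟨C₃, hC₃, H₃⟩ := shhool_sumH
  refine ⟨C₁ * C₂ + 2 * C₃, by positivity, fun F n Z x m hn hZ hx hnZ => ?_⟩
  have hL := shhool_log hZ
  have hZx : Z ≤ x := le_trans (Nat.le_self_pow (by norm_num) Z) hx
  have hLx : Real.log Z ≤ Real.log x :=
    Real.log_le_log (by exact_mod_cast (by omega : 0 < Z)) (by exact_mod_cast hZx)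
  have hlx : 0 ≤ Real.log x := by linarith
  set E := Real.exp (-Real.log x / (4 * Real.log Z)) with hE
  have hE0 : 0 ≤ E := by positivity
  have hEP : 0 ≤ EP F n Z m := zero_le_one.trans (one_le_EP ..)
  have k1 : 0 ≤ C₁ * x * Real.log x / Real.log Z ^ 2 := by positivity
  have k2 : 0 ≤ x * (1 + Real.log x) * E := by positivity
  have k3 : (1 + Real.log x) * Real.log Z ^ 13 ≤ 2 * Real.log x ^ 15 := by
    calc _ ≤ (2 * Real.log x ^ 2) * Real.log x ^ 13 := by gcongr; nlinarith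
      _ = _ := by ring
  calc _ ≤ ∑ a ∈ (Finset.Icc 1 x).filter (shhoolOk F Z), shhoolI F n m Z x a :=
        shhool_decomp F n m x (by omega)
    _ ≤ ∑ a ∈ (Finset.Icc 1 x).filter (shhoolOk F Z),
        (C₁ * x * Real.log x / Real.log Z ^ 2 * shhoolF F n m Z a +
          x * (1 + Real.log x) * E * shhoolH F n m Z a) := Finset.sum_le_sum fun a ha => by
        obtain ⟨h1, h2⟩ := Finset.mem_filter.1 ha
        rcases le_or_gt (a ^ 4) x with h | h
        · exact (H₁ F n Z x a m (by omega) hx h2 h).trans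
            (le_add_of_nonneg_right (mul_nonneg k2 (shhoolH_nonneg ..)))
        · exact (shhool_I2 F m hZ h2 (Finset.mem_Icc.1 h1).2 h).trans
            (le_add_of_nonneg_left (mul_nonneg k1 (shhoolF_nonneg ..)))
    _ ≤ ∑ a ∈ Finset.Icc 1 x, (C₁ * x * Real.log x / Real.log Z ^ 2 * shhoolF F n m Z a +
          x * (1 + Real.log x) * E * shhoolH F n m Z a) :=
        Finset.sum_le_sum_of_subset_of_nonneg (Finset.filter_subset _ _) fun _ _ _ =>
          add_nonneg (mul_nonneg k1 (shhoolF_nonneg ..)) (mul_nonneg k2 (shhoolH_nonneg ..))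
    _ ≤ C₁ * x * Real.log x / Real.log Z ^ 2 * (C₂ * (hh n ^ 2 * EP F n Z m)) +
          x * (1 + Real.log x) * E * (C₃ * Real.log Z ^ 13) := by
        rw [Finset.sum_add_distrib, ← Finset.mul_sum, ← Finset.mul_sum]
        exact add_le_add (mul_le_mul_of_nonneg_left (H₂ F n Z x m hn) k1)
          (mul_le_mul_of_nonneg_left (H₃ F n Z x m hn hZ hnZ) k2)
    _ = C₁ * C₂ * x * (hh n ^ 2 * Real.log x / Real.log Z ^ 2 * EP F n Z m) +
          C₃ * x * E * ((1 + Real.log x) * Real.log Z ^ 13) := by ring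
    _ ≤ C₁ * C₂ * x * (hh n ^ 2 * Real.log x / Real.log Z ^ 2 * EP F n Z m) +
          C₃ * x * E * (2 * Real.log x ^ 15) := by gcongr
    _ ≤ _ := by
        have j1 : 0 ≤ hh n ^ 2 * Real.log x / Real.log Z ^ 2 * EP F n Z m := by positivity
        have j2 : 0 ≤ Real.log x ^ 15 * E := by positivity
        have j3 : 0 ≤ C₁ * C₂ * x * (Real.log x ^ 15 * E) := by positivity
        have j4 : 0 ≤ 2 * C₃ * x * (hh n ^ 2 * Real.log x / Real.log Z ^ 2 * EP F n Z m) := by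
          positivity
        nlinarith

end

end Pool.Agent.MP_9f080f_an
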