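import Mathlib
import Pool.Agent.MP_9f080f_an.Mg.ShDefs

-- part MP_9f080f_an.ShMertA
section

/-! The two-sided second estimate of Mertens with a bounded error, from the behaviour of
Dirichlet series as `σ → 1+`. -/

namespace Pool.Agent.MP_9f080f_an.ShMertA

open Finset

/-- primes in `(a, b]` -/
noncomputable def PI (a b : ℝ) : Finset ℕ := (Ioc ⌊a⌋₊ ⌊b⌋₊).filter Nat.Prime

theorem mem_PI {a b : ℝ} {p : ℕ} : p ∈ PI a b ↔ a < p ∧ (p : ℝ) ≤ b ∧ p.Prime := by
  simp only [PI, mem_filter, mem_Ioc]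
  constructor
  · rintro ⟨⟨h1, h2⟩, h3⟩
    exact ⟨(Nat.floor_lt' h3.ne_zero).1 h1, (Nat.le_floor_iff' h3.ne_zero).1 h2, h3⟩
  · rintro ⟨h1, h2, h3⟩
    exact ⟨⟨(Nat.floor_lt' h3.ne_zero).2 h1, (Nat.le_floor_iff' h3.ne_zero).2 h2⟩, h3⟩

section

variable {c : ℕ → ℝ} (hc : ∀ n, 0 ≤ c n) (h0 : c 0 = 0) (h1 : c 1 = 0) {E : ℝ}
  (hs : ∀ σ : ℝ, 1 < σ → Summable fun n : ℕ => c n / (n : ℝ) ^ σ)
  (h : ∀ σ : ℝ, 1 < σ → σ ≤ 2 → |∑' n : ℕ, c n / (n : ℝ) ^ σ - 1 / (σ - 1)| ≤ E)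

theorem mertens_log_ge {n : ℕ} (hn : 2 ≤ n) : 1 / 2 ≤ Real.log n :=
  le_trans (by linarith [Real.log_two_gt_d9]) (Real.log_le_log two_pos (by exact_mod_cast hn))

include h0 h1 in
theorem mertens_cases (n : ℕ) : c n = 0 ∨ 2 ≤ n := by
  rcases n with _ | _ | n
  exacts [.inl h0, .inl h1, .inr (by omega)]

include hc in
theorem mertens_nonneg (σ : ℝ) (n : ℕ) : 0 ≤ c n / (Real.log n * (n : ℝ) ^ σ) :=
  div_nonneg (hc n) (mul_nonneg (Real.log_natCast_nonneg n) (by positivity))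

include hc h0 h1 in
theorem mertens_le (σ : ℝ) (n : ℕ) :
    c n / (Real.log n * (n : ℝ) ^ σ) ≤ 2 * (c n / (n : ℝ) ^ σ) := by
  rcases mertens_cases h0 h1 n with hn | hn
  · simp [hn]
  have h2 := mertens_log_ge hn
  rw [mul_comm (Real.log n), ← div_div, div_le_iff₀ (by linarith)]
  nlinarith [div_nonneg (hc n) (Real.rpow_nonneg n.cast_nonneg σ)]

include hc h0 h1 hs in
theorem mertens_summ {σ : ℝ} (hσ : 1 < σ) :
    Summable fun n : ℕ => c n / (Real.log n * (n : ℝ) ^ σ) :=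
  ((hs σ hσ).mul_left 2).of_nonneg_of_le (mertens_nonneg hc σ) (mertens_le hc h0 h1 σ)

include hc h0 h1 hs in
theorem mertens_deriv {σ : ℝ} (hσ : 1 < σ) :
    HasDerivAt (fun s : ℝ => ∑' n : ℕ, c n / (Real.log n * (n : ℝ) ^ s))
      (-∑' n : ℕ, c n / (n : ℝ) ^ σ) σ := by
  rw [← tsum_neg]
  obtain ⟨a, ha, ha'⟩ := exists_between hσ
  refine hasDerivAt_tsum_of_isPreconnected (g' := fun (n : ℕ) s => -(c n / (n : ℝ) ^ s)) (hs a ha)
    isOpen_Ioi (isPreconnected_Ioi (a := a)) (fun n s _ => ?_) (fun n s hs => ?_) ha'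
    (mertens_summ hc h0 h1 hs hσ) ha'
  · rcases mertens_cases h0 h1 n with hn | hn
    · simpa [hn] using hasDerivAt_const s (0 : ℝ)
    have h2 := mertens_log_ge hn
    have h3 : (0 : ℝ) < n := by positivity
    have h4 : 0 < Real.log n := by linarith
    refine ((hasDerivAt_const s (c n)).fun_div
      ((Real.hasStrictDerivAt_const_rpow h3 s).hasDerivAt.const_mul (Real.log n))
      (by positivity)).congr_deriv ?_
    field_simp
    ring
  · rcases mertens_cases h0 h1 n with hn | hn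
    · simp [hn]
    have := hc n
    rw [norm_neg, Real.norm_of_nonneg (by positivity)]
    exact div_le_div_of_nonneg_left this (by positivity)
      (Real.rpow_le_rpow_of_exponent_le (by exact_mod_cast (by omega : 1 ≤ n)) (le_of_lt hs))

include hc h0 h1 hs h in
theorem mertens_G {a b : ℝ} (ha : 1 < a) (hab : a ≤ b) (hb : b ≤ 2) :
    |∑' n : ℕ, c n / (Real.log n * (n : ℝ) ^ b) + Real.log (b - 1) -
      (∑' n : ℕ, c n / (Real.log n * (n : ℝ) ^ a) + Real.log (a - 1))| ≤ E * (b - a) :=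
  norm_image_sub_le_of_norm_deriv_le_segment'
    (f := fun s : ℝ => ∑' n : ℕ, c n / (Real.log n * (n : ℝ) ^ s) + Real.log (s - 1))
    (f' := fun s : ℝ => -∑' n : ℕ, c n / (n : ℝ) ^ s + 1 / (s - 1))
    (fun s hs' => ((mertens_deriv hc h0 h1 hs (ha.trans_le hs'.1)).add
      (((hasDerivAt_id s).sub_const 1).log (sub_pos.2 (ha.trans_le hs'.1)).ne')).hasDerivWithinAt)
    (fun s hs' => by
      rw [Real.norm_eq_abs, neg_add_eq_sub, abs_sub_comm]
      exact h s (ha.trans_le hs'.1) (hs'.2.le.trans hb)) b ⟨hab, le_rfl⟩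

end

theorem mertens_one_lt {y : ℝ} (hy : 3 ≤ y) : 1 < Real.log y := by
  rw [Real.lt_log_iff_exp_lt (by linarith)]
  linarith [Real.exp_one_lt_d9]

theorem log_lower (c : ℕ → ℝ) (hc : ∀ n, 0 ≤ c n) (h0 : c 0 = 0) (h1 : c 1 = 0) {E : ℝ}
    (hE : 1 ≤ E) (hs : ∀ σ : ℝ, 1 < σ → Summable fun n : ℕ => c n / (n : ℝ) ^ σ)
    (h : ∀ σ : ℝ, 1 < σ → σ ≤ 2 → |∑' n : ℕ, c n / (n : ℝ) ^ σ - 1 / (σ - 1)| ≤ E) {y : ℝ}
    (hy : 3 ≤ y) :
    Real.log (Real.log y) - Real.log E - 3 ≤ ∑ n ∈ Icc 1 ⌊y⌋₊, c n / (n * Real.log n) := by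
  have hL := mertens_one_lt hy
  obtain ⟨L, hL'⟩ : ∃ L, L = Real.log y := ⟨_, rfl⟩
  rw [← hL'] at hL ⊢
  have hL0 : 0 < L := by linarith
  have hE0 : 0 < E := by linarith
  rcases le_total L E with hLE | hLE
  · have := Real.log_le_log hL0 hLE
    exact le_trans (by linarith) (sum_nonneg fun n _ =>
      div_nonneg (hc n) (mul_nonneg n.cast_nonneg (Real.log_natCast_nonneg n)))
  have ha : 1 < 1 + L⁻¹ := lt_add_of_pos_right _ (inv_pos.2 hL0)
  have h2 := (abs_le.1 (mertens_G hc h0 h1 hs h ha (b := 1 + E⁻¹) (by gcongr)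
    (by linarith [inv_le_one_of_one_le₀ hE]))).2
  have h3 := (abs_le.1 (h _ ha (by linarith [inv_le_one_of_one_le₀ hL.le]))).2
  simp only [add_sub_cancel_left, Real.log_inv, add_sub_add_left_eq_sub, mul_sub,
    mul_inv_cancel₀ hE0.ne', one_div, inv_inv] at h2 h3
  have h4 : (0 : ℝ) ≤ ∑' n, _ := tsum_nonneg (mertens_nonneg hc (1 + E⁻¹))
  have h5 := hasSum_le (fun n => ?_) (mertens_summ hc h0 h1 hs ha).hasSum
    ((hasSum_subtype_iff_indicator.1
      ((Icc 1 ⌊y⌋₊).hasSum fun n : ℕ => c n / (n * Real.log n))).add ((hs _ ha).hasSum.div_const L))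
  · have h6 : (∑' n : ℕ, c n / (n : ℝ) ^ (1 + L⁻¹)) / L ≤ 2 := by
      rw [div_le_iff₀ hL0]
      linarith
    have h7 : 0 ≤ E * L⁻¹ := by positivity
    linarith
  have h6 := hc n
  rcases mertens_cases h0 h1 n with hn | hn
  · simp [hn, Set.indicator_apply]
  have h7 := mertens_log_ge hn
  have h8 : (1 : ℝ) ≤ n := by exact_mod_cast (by omega : 1 ≤ n)
  by_cases hy' : n ≤ ⌊y⌋₊
  · rw [Set.indicator_of_mem (by simpa using ⟨by omega, hy'⟩), mul_comm (n : ℝ)]
    refine le_add_of_le_of_nonneg ?_ (by positivity)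
    gcongr
    exact Real.self_le_rpow_of_one_le h8 ha.le
  · rw [Set.indicator_of_notMem (by simp [hy']), zero_add, div_div, mul_comm _ L, hL']
    gcongr
    · rw [← hL']
      positivity
    · exact (Nat.lt_of_floor_lt (not_le.1 hy')).le

theorem log_upper (c : ℕ → ℝ) (hc : ∀ n, 0 ≤ c n) (h0 : c 0 = 0) (h1 : c 1 = 0) {E : ℝ}
    (hE : 1 ≤ E) (hs : ∀ σ : ℝ, 1 < σ → Summable fun n : ℕ => c n / (n : ℝ) ^ σ)
    (h : ∀ σ : ℝ, 1 < σ → σ ≤ 2 → |∑' n : ℕ, c n / (n : ℝ) ^ σ - 1 / (σ - 1)| ≤ E) {y : ℝ}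
    (hy : 3 ≤ y) :
    ∑ n ∈ Icc 1 ⌊y⌋₊, c n / (n * Real.log n) ≤ Real.log (Real.log y) + 12 * E ∧
      ∑ n ∈ Icc 1 ⌊y⌋₊, c n / n ≤ 3 * (Real.log y + E) := by
  have hL := mertens_one_lt hy
  obtain ⟨L, hL'⟩ : ∃ L, L = Real.log y := ⟨_, rfl⟩
  rw [← hL'] at hL ⊢
  have hL0 : 0 < L := by linarith
  have hL1 := inv_le_one_of_one_le₀ hL.le
  have hL2 := inv_pos.2 hL0
  have ha : 1 < 1 + L⁻¹ := by linarith
  have h2 := (abs_le.1 (mertens_G hc h0 h1 hs h ha (b := 2) (by linarith) le_rfl)).1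
  have h3 := (abs_le.1 (h _ ha (by linarith))).2
  have h4 := (abs_le.1 (h 2 one_lt_two le_rfl)).2
  simp only [add_sub_cancel_left, Real.log_inv, one_div, inv_inv,
    show (2 : ℝ) - 1 = 1 by norm_num, Real.log_one, inv_one] at h2 h3 h4
  have e : ∀ n ∈ Icc 1 ⌊y⌋₊, (n : ℝ) ^ (1 + L⁻¹) = n * Real.exp (Real.log n * L⁻¹) := fun n hn => by
    have : (0 : ℝ) < n := by exact_mod_cast (mem_Icc.1 hn).1
    rw [Real.rpow_add this, Real.rpow_one, Real.rpow_def_of_pos this]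
  have h5 : ∑ n ∈ Icc 1 ⌊y⌋₊, c n / n ≤ 3 * (L + E) := by
    refine le_trans (sum_le_sum fun n hn => ?_) ((((hs _ ha).mul_left 3).sum_le_tsum _
      fun n _ => by have := hc n; positivity).trans (by rw [tsum_mul_left]; linarith))
    have h5 : (0 : ℝ) < n := by exact_mod_cast (mem_Icc.1 hn).1
    have h6 : Real.exp (Real.log n * L⁻¹) ≤ 3 := by
      refine (Real.exp_le_exp.2 (mul_inv_le_one_of_le₀ ?_ hL0.le)).trans
        (by linarith [Real.exp_one_lt_d9])
      exact hL' ▸ Real.log_le_log h5 ((Nat.le_floor_iff (by linarith)).1 (mem_Icc.1 hn).2)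
    rw [e n hn, ← div_div, ← mul_div_assoc, le_div_iff₀ (Real.exp_pos _), mul_comm]
    exact mul_le_mul_of_nonneg_right h6 (div_nonneg (hc n) h5.le)
  refine ⟨?_, h5⟩
  have h6 := (mertens_summ hc h0 h1 hs one_lt_two).tsum_le_tsum (mertens_le hc h0 h1 2)
    ((hs 2 one_lt_two).mul_left 2)
  rw [tsum_mul_left] at h6
  have h7 := (mertens_summ hc h0 h1 hs ha).sum_le_tsum (Icc 1 ⌊y⌋₊)
    fun n _ => mertens_nonneg hc _ n
  have h8 : ∑ n ∈ Icc 1 ⌊y⌋₊, c n / (n * Real.log n) ≤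
      ∑ n ∈ Icc 1 ⌊y⌋₊, c n / (Real.log n * (n : ℝ) ^ (1 + L⁻¹)) +
        (∑ n ∈ Icc 1 ⌊y⌋₊, c n / n) * L⁻¹ := by
    rw [sum_mul, ← sum_add_distrib]
    refine sum_le_sum fun n hn => ?_
    rcases mertens_cases h0 h1 n with hn' | hn'
    · simp [hn']
    have h8 : 0 < Real.log n := by linarith [mertens_log_ge hn']
    have h9 : (0 : ℝ) < n := by positivity
    have h10 := mul_le_mul_of_nonneg_left (Real.add_one_le_exp (-(Real.log n * L⁻¹)))
      (div_nonneg (hc n) (mul_pos h9 h8).le)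
    rw [e n hn]
    rw [Real.exp_neg] at h10
    calc _ = c n / (n * Real.log n) * (-(Real.log n * L⁻¹) + 1) + c n / n * L⁻¹ := by
          field_simp
          ring
      _ ≤ _ := add_le_add_left (h10.trans (le_of_eq (by field_simp))) _
  have h9 := mul_le_mul_of_nonneg_right h5 hL2.le
  rw [mul_assoc, add_mul, mul_inv_cancel₀ hL0.ne'] at h9
  nlinarith [mul_le_mul_of_nonneg_left hL1 (zero_le_one.trans hE), mul_pos hL2 (one_pos.trans_le hE)]

open ArithmeticFunction ArithmeticFunction.vonMangoldt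

theorem mertens_res : residueClass (1 : ZMod 1) = fun n => vonMangoldt n :=
  funext fun n => Set.indicator_of_mem (s := {n : ℕ | (n : ZMod 1) = 1}) (a := n)
    (Subsingleton.elim (n : ZMod 1) 1) _

theorem mertens_summable {σ : ℝ} (hσ : 1 < σ) :
    Summable fun n : ℕ => vonMangoldt n / (n : ℝ) ^ σ := by
  refine (LSeriesSummable_vonMangoldt (s := σ) hσ).norm.congr fun n => ?_
  rw [LSeries.norm_term_eq]
  split_ifs with hn
  · simp [hn]
  · rw [Complex.norm_real, Real.norm_of_nonneg vonMangoldt_nonneg, Complex.ofReal_re]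

theorem mertens_LSeries (f : ℕ → ℝ) (h0 : f 0 = 0) (σ : ℝ) :
    LSeries (fun n => (f n : ℂ)) σ = ((∑' n : ℕ, f n / (n : ℝ) ^ σ : ℝ) : ℂ) := by
  simp only [Complex.ofReal_tsum, Complex.ofReal_div, Complex.ofReal_cpow (Nat.cast_nonneg _),
    Complex.ofReal_natCast, LSeries, LSeries.term]
  refine tsum_congr fun n => ?_
  split_ifs with hn
  · simp [hn, h0]
  · rfl

theorem vonMangoldt_series : ∃ E : ℝ, 1 ≤ E ∧ ∀ σ : ℝ, 1 < σ → σ ≤ 2 →
    |∑' n : ℕ, ArithmeticFunction.vonMangoldt n / (n : ℝ) ^ σ - 1 / (σ - 1)| ≤ E := by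
  obtain ⟨C, hC⟩ := (isCompact_Icc (a := (1 : ℝ)) (b := 2)).exists_bound_of_continuousOn
    ((continuousOn_LFunctionResidueClassAux (1 : ZMod 1)).comp
      Complex.continuous_ofReal.continuousOn fun x hx => by simpa using hx.1)
  refine ⟨max 1 C, le_max_left _ _, fun σ h1 h2 => le_trans (le_of_eq ?_)
    ((hC σ ⟨h1.le, h2⟩).trans (le_max_right _ _))⟩
  rw [Function.comp_apply, eqOn_LFunctionResidueClassAux isUnit_one (by simpa using h1),
    mertens_res]
  dsimp only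
  rw [mertens_LSeries _ (by simp), ← Real.norm_eq_abs, ← Complex.norm_real]
  simp

theorem mertens_PI (y : ℝ) : PI 0 y = (Icc 1 ⌊y⌋₊).filter Nat.Prime := by
  rw [PI, Nat.floor_zero]
  rfl

theorem mertens_mono {y z : ℝ} (h : y ≤ z) : PI 0 y ⊆ PI 0 z := fun _ hp =>
  mem_PI.2 ⟨(mem_PI.1 hp).1, (mem_PI.1 hp).2.1.trans h, (mem_PI.1 hp).2.2⟩

theorem mertens_prime {p : ℕ} (hp : p.Prime) : vonMangoldt p / (p * Real.log p) = 1 / p := by
  have := mertens_log_ge hp.two_le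
  rw [vonMangoldt_apply_prime hp, div_mul_cancel_right₀ (by linarith), one_div]

theorem mertens2 : ∃ C : ℝ, 0 < C ∧ ∀ y : ℝ, 2 ≤ y →
    |∑ p ∈ PI 0 y, (1 : ℝ) / p - Real.log (Real.log y)| ≤ C := by
  obtain ⟨E, hE, h⟩ := vonMangoldt_series
  have h0 := summable_residueClass_non_primes_div (1 : ZMod 1)
  simp only [mertens_res] at h0
  have h1 : ∀ n : ℕ, 0 ≤ (if n.Prime then 0 else vonMangoldt n) / (n : ℝ) := fun n =>
    div_nonneg (by split_ifs; exacts [le_rfl, vonMangoldt_nonneg]) n.cast_nonneg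
  have h2 : (0 : ℝ) ≤ ∑' n, _ := tsum_nonneg h1
  have h3 := Real.log_le_self (zero_le_one.trans hE)
  refine ⟨13 * E + 3 + 2 * ∑' n : ℕ, (if n.Prime then 0 else vonMangoldt n) / (n : ℝ),
    by positivity, fun y hy => abs_le.2 ⟨?_, ?_⟩⟩
  · rcases le_total y 3 with h4 | h4
    · have h5 := Real.log_le_self (Real.log_nonneg (by linarith : 1 ≤ y))
      have h6 := Real.log_le_self (by linarith : 0 ≤ y)
      have h7 : 0 ≤ ∑ p ∈ PI 0 y, (1 : ℝ) / p := sum_nonneg fun _ _ => by positivity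
      linarith
    have h5 := log_lower _ (fun _ => vonMangoldt_nonneg) (by simp) (by simp) hE
      (fun _ => mertens_summable) h h4
    have h6 := h0.sum_le_tsum (Icc 1 ⌊y⌋₊) fun n _ => h1 n
    have h7 : ∑ n ∈ Icc 1 ⌊y⌋₊, vonMangoldt n / (n * Real.log n) ≤ ∑ p ∈ PI 0 y, (1 : ℝ) / p +
        2 * ∑ n ∈ Icc 1 ⌊y⌋₊, (if n.Prime then 0 else vonMangoldt n) / (n : ℝ) := by
      rw [mertens_PI, sum_filter, mul_sum, ← sum_add_distrib]
      refine sum_le_sum fun n _ => ?_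
      split_ifs with hn
      · rw [mertens_prime hn, zero_div, mul_zero, add_zero]
      · simpa [mul_comm] using
          mertens_le (c := vonMangoldt) (fun _ => vonMangoldt_nonneg) (by simp) (by simp) 1 n
    linarith
  · have h4 := (log_upper _ (fun _ => vonMangoldt_nonneg) (by simp) (by simp) hE
      (fun _ => mertens_summable) h (y := y ^ 2) (by nlinarith)).1
    rw [Real.log_pow, Real.log_mul (by norm_num) (Real.log_pos (by linarith)).ne'] at h4
    have h5 : ∑ p ∈ PI 0 y, (1 : ℝ) / p ≤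
        ∑ n ∈ Icc 1 ⌊y ^ 2⌋₊, vonMangoldt n / (n * Real.log n) := by
      rw [← sum_congr rfl fun p hp => mertens_prime (mem_PI.1 hp).2.2]
      exact sum_le_sum_of_subset_of_nonneg ((mertens_mono (z := y ^ 2) (by nlinarith)).trans
        (by rw [mertens_PI]; exact filter_subset _ _)) fun n _ _ =>
        div_nonneg vonMangoldt_nonneg (mul_nonneg n.cast_nonneg (Real.log_natCast_nonneg n))
    have h6 := Real.log_le_self (Nat.cast_nonneg (α := ℝ) 2)
    push_cast at h4 h6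
    linarith

end Pool.Agent.MP_9f080f_an.ShMertA

end

-- part MP_9f080f_an.ShMert
section

namespace Pool.Agent.MP_9f080f_an
open Complex MeasureTheory Set Filter Topology Metric
open scoped Real

noncomputable section

open Pool.Agent.MP_a96b63_al (hh)

/-! Mertens type bounds and Euler products. -/

lemma shmert_prod_le {γ : ℝ} (S : Finset ℕ) (g : ℕ → ℝ) (hg : ∀ p ∈ S, 0 ≤ γ * g p) :
    ∏ p ∈ S, (1 + γ * g p) ≤ Real.exp (γ * ∑ p ∈ S, g p) := by
  rw [Finset.mul_sum, Real.exp_sum]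
  exact Finset.prod_le_prod (fun p hp => by linarith [hg p hp])
    fun p _ => by linarith [Real.add_one_le_exp (γ * g p)]

lemma shmert_prod_le' {γ : ℝ} (hγ : 0 ≤ γ) (S : Finset ℕ) {R C : ℝ} (hR : 0 < R)
    (h : ∑ p ∈ S, (1 : ℝ) / p ≤ Real.log R + C) :
    ∏ p ∈ S, (1 + γ / p) ≤ Real.exp (γ * C) * R ^ γ := by
  have h1 := shmert_prod_le (γ := γ) S (fun p => (1 : ℝ) / p) fun p _ => by positivity
  simp only [mul_one_div] at h1
  refine h1.trans ?_
  rw [Real.rpow_def_of_pos hR, ← Real.exp_add]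
  exact Real.exp_le_exp.2 (by nlinarith [mul_le_mul_of_nonneg_left h hγ])

theorem mertens : ∃ C : ℝ, ∀ z Z : ℕ, 2 ≤ z → z ≤ Z →
    ∑ p ∈ (Finset.Ioc z Z).filter Nat.Prime, (1 : ℝ) / p ≤
      Real.log (Real.log Z / Real.log z) + C := by
  obtain ⟨C, -, hC⟩ := ShMertA.mertens2
  refine ⟨2 * C, fun z Z hz hZ => ?_⟩
  have hz' : (2 : ℝ) ≤ z := by exact_mod_cast hz
  have hZ' : (z : ℝ) ≤ Z := by exact_mod_cast hZ
  have h1 := (abs_le.1 (hC z hz')).1
  have h2 := (abs_le.1 (hC Z (hz'.trans hZ'))).2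
  have h3 : ∑ p ∈ ShMertA.PI 0 Z, (1 : ℝ) / p = ∑ p ∈ ShMertA.PI 0 z, (1 : ℝ) / p +
      ∑ p ∈ (Finset.Ioc z Z).filter Nat.Prime, (1 : ℝ) / p := by
    simp only [ShMertA.PI, Nat.floor_zero, Nat.floor_natCast, Finset.sum_filter]
    exact (Finset.sum_Ioc_consecutive _ (Nat.zero_le z) hZ).symm
  rw [Real.log_div (Real.log_pos (by linarith)).ne' (Real.log_pos (by linarith)).ne']
  linarith

theorem prod_primes_Ioc {γ : ℝ} (hγ : 0 ≤ γ) : ∃ C : ℝ, 0 < C ∧ ∀ z Z : ℕ, 2 ≤ z → z ≤ Z →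
    ∀ S : Finset ℕ, (∀ p ∈ S, p.Prime ∧ z < p ∧ p ≤ Z) →
      ∏ p ∈ S, (1 + γ / p) ≤ C * (Real.log Z / Real.log z) ^ γ := by
  obtain ⟨C, hC⟩ := mertens
  refine ⟨Real.exp (γ * C), Real.exp_pos _, fun z Z hz hZ S hS => ?_⟩
  have hz' : (2 : ℝ) ≤ z := by exact_mod_cast hz
  have hZ' : (z : ℝ) ≤ Z := by exact_mod_cast hZ
  refine shmert_prod_le' hγ S (div_pos (Real.log_pos (by linarith)) (Real.log_pos (by linarith)))
    (le_trans (Finset.sum_le_sum_of_subset_of_nonneg (fun p hp => ?_) fun _ _ _ => by positivity)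
      (hC z Z hz hZ))
  exact Finset.mem_filter.2 ⟨Finset.mem_Ioc.2 (hS p hp).2, (hS p hp).1⟩

theorem prod_primes_le {γ : ℝ} (hγ : 0 ≤ γ) : ∃ C : ℝ, 0 < C ∧ ∀ Z : ℕ, 2 ≤ Z →
    ∀ S : Finset ℕ, (∀ p ∈ S, p.Prime ∧ p ≤ Z) → ∏ p ∈ S, (1 + γ / p) ≤ C * Real.log Z ^ γ := by
  obtain ⟨C, -, hC⟩ := ShMertA.mertens2
  refine ⟨Real.exp (γ * C), Real.exp_pos _, fun Z hZ S hS => ?_⟩
  have hZ' : (2 : ℝ) ≤ Z := by exact_mod_cast hZ
  have h2 := (abs_le.1 (hC Z hZ')).2
  refine shmert_prod_le' hγ S (Real.log_pos (by linarith))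
    (le_trans (Finset.sum_le_sum_of_subset_of_nonneg (t := ShMertA.PI 0 Z) (fun p hp => ?_)
      fun _ _ _ => by positivity) (by linarith))
  exact ShMertA.mem_PI.2 ⟨by exact_mod_cast (hS p hp).1.pos, by exact_mod_cast (hS p hp).2,
    (hS p hp).1⟩

theorem prod_conv {c s : ℝ} (hc : 0 ≤ c) (hs : 1 < s) : ∃ C : ℝ, 0 < C ∧ ∀ S : Finset ℕ,
    ∏ p ∈ S, (1 + c * (p : ℝ) ^ (-s)) ≤ C := by
  have h1 : Summable fun p : ℕ => (p : ℝ) ^ (-s) := Real.summable_nat_rpow.2 (by linarith)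
  refine ⟨Real.exp (c * ∑' p : ℕ, (p : ℝ) ^ (-s)), Real.exp_pos _, fun S => ?_⟩
  refine (shmert_prod_le S (fun p => (p : ℝ) ^ (-s)) fun p _ => by positivity).trans ?_
  exact Real.exp_le_exp.2 (mul_le_mul_of_nonneg_left
    (h1.sum_le_tsum S fun p _ => by positivity) hc)

theorem hh_le_ell : ∃ C : ℝ, 0 < C ∧ ∀ n : ℕ, 1 ≤ n → hh n ≤ C * ell n := by
  obtain ⟨C, -, hC⟩ := ShMertA.mertens2
  have h1 : Summable fun p : ℕ => (1 : ℝ) / (p : ℝ) ^ 2 := Real.summable_one_div_nat_pow.2 one_lt_two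
  refine ⟨Real.exp (C + 2 + 2 * ∑' p : ℕ, (1 : ℝ) / (p : ℝ) ^ 2), Real.exp_pos _, fun n hn => ?_⟩
  have hL := Real.log_natCast_nonneg n
  obtain ⟨y, hy⟩ : ∃ y, y = 2 + Real.log n := ⟨_, rfl⟩
  have hy2 : 2 ≤ y := by linarith
  have h2 := (abs_le.1 (hC y hy2)).2
  have h3 : ∑ p ∈ n.primeFactors, Real.log p ≤ Real.log n := by
    rw [← Real.log_prod fun p hp => by
      exact_mod_cast (Nat.prime_of_mem_primeFactors hp).ne_zero, ← Nat.cast_prod]
    refine Real.log_le_log ?_ ?_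
    · exact_mod_cast Finset.prod_pos fun p hp => (Nat.prime_of_mem_primeFactors hp).pos
    · exact_mod_cast Nat.le_of_dvd hn (Nat.prod_primeFactors_dvd n)
  have h4 : ∑ p ∈ n.primeFactors, (1 : ℝ) / p ≤
      ∑ p ∈ ShMertA.PI 0 y, (1 : ℝ) / p + ∑ p ∈ n.primeFactors, 2 * Real.log p / y := by
    rw [← Finset.sum_filter_add_sum_filter_not n.primeFactors (fun p : ℕ => (p : ℝ) ≤ y)]
    refine add_le_add (Finset.sum_le_sum_of_subset_of_nonneg (fun p hp => ?_)
      fun _ _ _ => by positivity) ((Finset.sum_le_sum fun p hp => ?_).trans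
        (Finset.sum_le_sum_of_subset_of_nonneg (Finset.filter_subset _ _) fun p _ _ =>
          div_nonneg (mul_nonneg zero_le_two (Real.log_natCast_nonneg p)) (by linarith)))
    · have h := Finset.mem_filter.1 hp
      have h' := Nat.prime_of_mem_primeFactors h.1
      exact ShMertA.mem_PI.2 ⟨by exact_mod_cast h'.pos, h.2, h'⟩
    · have h := Finset.mem_filter.1 hp
      have h' := ShMertA.mertens_log_ge (Nat.prime_of_mem_primeFactors h.1).two_le
      exact div_le_div₀ (by linarith) (by linarith) (by linarith) (not_le.1 h.2).le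
  have h5 : ∑ p ∈ n.primeFactors, 2 * Real.log p / y ≤ 2 := by
    rw [← Finset.sum_div, ← Finset.mul_sum, div_le_iff₀ (by linarith)]
    linarith
  have h6 := h1.sum_le_tsum n.primeFactors fun p _ => by positivity
  have h7 : ∑ p ∈ n.primeFactors, 1 / ((p : ℝ) - 1) ≤
      ∑ p ∈ n.primeFactors, (1 : ℝ) / p + 2 * ∑ p ∈ n.primeFactors, (1 : ℝ) / (p : ℝ) ^ 2 := by
    rw [Finset.mul_sum, ← Finset.sum_add_distrib]
    refine Finset.sum_le_sum fun p hp => ?_
    have h : (2 : ℝ) ≤ p := by exact_mod_cast (Nat.prime_of_mem_primeFactors hp).two_le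
    rw [div_le_iff₀ (by linarith), ← sub_nonneg]
    have : (1 / (p : ℝ) + 2 * (1 / (p : ℝ) ^ 2)) * (p - 1) - 1 = (p - 2) / (p : ℝ) ^ 2 := by
      field_simp
      ring
    rw [this]
    exact div_nonneg (by linarith) (by positivity)
  have h8 := shmert_prod_le (γ := 1) n.primeFactors (fun p => 1 / ((p : ℝ) - 1)) fun p hp => by
    have h : (2 : ℝ) ≤ p := by exact_mod_cast (Nat.prime_of_mem_primeFactors hp).two_le
    exact mul_nonneg zero_le_one (div_nonneg zero_le_one (by linarith))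
  simp only [one_mul] at h8
  have h9 : Real.log y ≤ ell n := by
    have h : Real.log y ≤ Real.log (2 * (1 + Real.log n)) :=
      Real.log_le_log (by linarith) (by linarith)
    rw [Real.log_mul two_ne_zero (by linarith)] at h
    rw [ell]
    linarith [Real.log_two_lt_d9]
  calc hh n ≤ _ := h8
    _ ≤ Real.exp (C + 2 + 2 * ∑' p : ℕ, (1 : ℝ) / (p : ℝ) ^ 2 + Real.log (Real.log y)) :=
        Real.exp_le_exp.2 (by linarith)
    _ ≤ _ := by
        rw [Real.exp_add, Real.exp_log (Real.log_pos (by linarith))]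
        exact mul_le_mul_of_nonneg_left h9 (Real.exp_pos _).le

lemma hh_mul_totient {q : ℕ} (hq : q ≠ 0) : hh q * q.totient = q := by
  have h := congrArg (fun x : ℚ => (x : ℝ)) (Nat.totient_eq_mul_prod_factors q)
  simp only [Rat.cast_natCast, Rat.cast_mul, Rat.cast_prod, Rat.cast_sub, Rat.cast_one,
    Rat.cast_inv] at h
  rw [h, hh, mul_left_comm, ← Finset.prod_mul_distrib, Finset.prod_eq_one, mul_one]
  intro p hp
  have h2 : (2 : ℝ) ≤ p := by exact_mod_cast (Nat.prime_of_mem_primeFactors hp).two_le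
  have h3 : (p : ℝ) - 1 ≠ 0 := by linarith
  field_simp
  ring

lemma hh_mul_coprime {a b : ℕ} (h : a.Coprime b) : hh (a * b) = hh a * hh b := by
  rw [hh, hh, hh, h.primeFactors_mul, Finset.prod_union h.disjoint_primeFactors]

theorem euler_le {f : ℕ → ℝ} (h0 : ∀ q, 0 ≤ f q) (h1 : f 1 ≤ 1)
    (hm : ∀ a b : ℕ, a.Coprime b → f (a * b) ≤ f a * f b) (PP : Finset ℕ) (hP : ∀ p ∈ PP, p.Prime)
    {u : ℕ → ℝ} (hu : ∀ p ∈ PP, ∀ K : ℕ, ∑ k ∈ Finset.range K, f (p ^ (k + 1)) ≤ u p)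
    (T : Finset ℕ) (hT : ∀ q ∈ T, q ≠ 0 ∧ q.primeFactors ⊆ PP) :
    ∑ q ∈ T, f q ≤ ∏ p ∈ PP, (1 + u p) := by
  induction PP using Finset.induction_on generalizing T with
  | empty =>
    refine (Finset.sum_le_sum_of_subset_of_nonneg (t := {1}) (fun q hq => ?_)
      fun q _ _ => h0 q).trans (by simpa using h1)
    have := Nat.primeFactors_eq_empty.1 (Finset.subset_empty.1 (hT q hq).2)
    simpa [(hT q hq).1] using this
  | insert p PP hp ih =>
    have hpp := hP p (Finset.mem_insert_self _ _)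
    have ih' := ih (fun r hr => hP r (Finset.mem_insert_of_mem hr))
      (fun r hr => hu r (Finset.mem_insert_of_mem hr))
      (T.image fun q => q / p ^ q.factorization p) fun q' hq' => by
        obtain ⟨q, hq, rfl⟩ := Finset.mem_image.1 hq'
        refine ⟨(Nat.ordCompl_pos p (hT q hq).1).ne', fun r hr => ?_⟩
        have h2 := Nat.primeFactors_mono (Nat.ordCompl_dvd q p) (hT q hq).1 hr
        rcases Finset.mem_insert.1 ((hT q hq).2 h2) with rfl | h3
        · exact absurd (Nat.dvd_of_mem_primeFactors hr) (Nat.not_dvd_ordCompl hpp (hT q hq).1)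
        · exact h3
    obtain ⟨K, hK⟩ : ∃ K, K = T.sup fun q => q.factorization p := ⟨_, rfl⟩
    have h2 : ∑ k ∈ Finset.range (K + 1), f (p ^ k) ≤ 1 + u p := by
      rw [Finset.sum_range_succ', pow_zero]
      linarith [hu p (Finset.mem_insert_self _ _) K]
    have h3 : ∑ q ∈ T, f q ≤ ∑ x ∈ Finset.range (K + 1) ×ˢ
        (T.image fun q => q / p ^ q.factorization p), f (p ^ x.1) * f x.2 := by
      have hi : Set.InjOn (fun q => (q.factorization p, q / p ^ q.factorization p))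
          (T : Set ℕ) := fun q _ q' _ h => by
        rw [← Nat.ordProj_mul_ordCompl_eq_self q p, ← Nat.ordProj_mul_ordCompl_eq_self q' p]
        have h' := Prod.ext_iff.1 h
        dsimp only at h'
        rw [h'.2, h'.1]
      refine le_trans ?_ (Finset.sum_le_sum_of_subset_of_nonneg
        (s := T.image fun q => (q.factorization p, q / p ^ q.factorization p)) (fun x hx => ?_)
        fun x _ _ => mul_nonneg (h0 _) (h0 _))
      · rw [Finset.sum_image hi]
        refine Finset.sum_le_sum fun q hq => ?_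
        have := hm _ _ ((Nat.coprime_ordCompl hpp (hT q hq).1).pow_left (q.factorization p))
        rwa [Nat.ordProj_mul_ordCompl_eq_self] at this
      · obtain ⟨q, hq, rfl⟩ := Finset.mem_image.1 hx
        exact Finset.mem_product.2 ⟨Finset.mem_range.2 (Nat.lt_succ_of_le
          (hK ▸ Finset.le_sup (f := fun q => q.factorization p) hq)),
          Finset.mem_image_of_mem _ hq⟩
    rw [Finset.sum_product' (f := fun k q => f (p ^ k) * f q), ← Finset.sum_mul_sum] at h3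
    rw [Finset.prod_insert hp]
    exact h3.trans (mul_le_mul h2 ih' (Finset.sum_nonneg fun q _ => h0 q)
      ((Finset.sum_nonneg fun k _ => h0 _).trans h2))

end

end Pool.Agent.MP_9f080f_an

end
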