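import Pool.Agent.MP_9f080f_an.Mg.ShDefs
import Pool.Agent.MP_9f080f_an.Mg.KBA

namespace Pool.Agent.MP_9f080f_an
open Complex MeasureTheory Set Filter Topology Metric
open scoped Real

noncomputable section

/-! Oscillatory integrals (van der Corput).
First bound: substitute `t = w^(-2)`: the integral is `2 ∫ ep (H w² - 2 μ / w²) dw` over
`[Y^(-1/2), y^(-1/2)]`, amplitude `1`, `φ' = 2 H w + 4 μ / w³`.  If `μ ≥ 0`: trivial bound for `w ≤ H^(-1/2)`,
and `φ' ≥ 2 √H` beyond, where `φ'` is convex (two monotone pieces), or integrate by parts directly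
(`|φ''|/φ'² ≤ (2H + 12 μ/w⁴)/φ'² ≤ 1/(2 H w²) + 3/(2 H w²)` by `φ'² ≥ 4H²w²`, `φ'² ≥ 32 H μ / w²`).
If `μ < 0`: `φ'` is increasing with `φ'' ≥ 2H`; cut out the interval where `|φ'| ≤ √H` (length `≤ H^(-1/2)`)
and use the first derivative test on the two remaining pieces (`1/φ'` monotone; `kb_ibp` in `KBA`).
One can also work in the variable `t` throughout.
Second bound: phase `ψ t = H/t - 2 μ t`, `ψ' = -H/t² - 2μ`, `|ψ'| ≥ |μ|` on `t ≥ y`; integrate by parts:
`|(t^(-3/2)/ψ')'| ≤ (3/2) t^(-5/2)/|μ| + 2 H t^(-9/2)/μ²` and `H ≤ |μ| y²`. -/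

lemma shosc_ibp {a b : ℝ} (hab : a ≤ b) (r r' G G' : ℝ → ℝ) (E E' : ℝ → ℂ)
    (hr : ∀ t ∈ Icc a b, HasDerivAt r (r' t) t) (hG : ∀ t ∈ Icc a b, HasDerivAt G (G' t) t)
    (hE : ∀ t ∈ Icc a b, HasDerivAt E (E' t) t)
    (hr' : ContinuousOn r' (Icc a b)) (hG' : ContinuousOn G' (Icc a b))
    (hE' : ContinuousOn E' (Icc a b))
    (h0 : ∀ t ∈ Icc a b, |r' t| ≤ G' t) (h1 : ∀ t ∈ Icc a b, ‖E t‖ ≤ 1) :
    ‖∫ t in a..b, (r t : ℂ) * E' t‖ ≤ |r a| + |r b| + (G b - G a) := by
  have hu : uIcc a b = Icc a b := uIcc_of_le hab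
  have i1 : IntervalIntegrable G' volume a b := (hu ▸ hG').intervalIntegrable
  have i2 : IntervalIntegrable (fun t => (r' t : ℂ)) volume a b :=
    (hu ▸ continuous_ofReal.comp_continuousOn hr').intervalIntegrable
  have i3 : IntervalIntegrable E' volume a b := (hu ▸ hE').intervalIntegrable
  rw [intervalIntegral.integral_mul_deriv_eq_deriv_mul (u := fun t => (r t : ℂ))
    (u' := fun t => (r' t : ℂ)) (v := E) (v' := E')
    (fun t ht => (hr t (hu ▸ ht)).ofReal_comp) (fun t ht => hE t (hu ▸ ht)) i2 i3]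
  have b1 : ‖∫ t in a..b, (r' t : ℂ) * E t‖ ≤ G b - G a := by
    rw [← intervalIntegral.integral_eq_sub_of_hasDerivAt (fun t ht => hG t (hu ▸ ht)) i1]
    refine intervalIntegral.norm_integral_le_of_norm_le hab (Eventually.of_forall fun t ht => ?_) i1
    have ht' : t ∈ Icc a b := Ioc_subset_Icc_self ht
    rw [norm_mul, Complex.norm_real, Real.norm_eq_abs]
    exact (mul_le_of_le_one_right (abs_nonneg _) (h1 t ht')).trans (h0 t ht')
  have b2 : ‖(r b : ℂ) * E b‖ ≤ |r b| := by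
    rw [norm_mul, Complex.norm_real, Real.norm_eq_abs]
    exact mul_le_of_le_one_right (abs_nonneg _) (h1 b ⟨hab, le_rfl⟩)
  have b3 : ‖(r a : ℂ) * E a‖ ≤ |r a| := by
    rw [norm_mul, Complex.norm_real, Real.norm_eq_abs]
    exact mul_le_of_le_one_right (abs_nonneg _) (h1 a ⟨le_rfl, hab⟩)
  have := (norm_sub_le _ _).trans (add_le_add ((norm_sub_le _ _).trans (add_le_add b2 b3)) b1)
  linarith

/-- amplitude divided by the derivative of the phase -/
def shoscR (H μ t : ℝ) : ℝ := √t / (H + 2 * μ * t ^ 2)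

/-- the derivative of `shoscR` -/
def shoscD (H μ t : ℝ) : ℝ := (H - 6 * μ * t ^ 2) / (2 * √t * (H + 2 * μ * t ^ 2) ^ 2)

lemma shosc_deriv {H μ t : ℝ} (ht : 0 < t) (hD : H + 2 * μ * t ^ 2 ≠ 0) :
    HasDerivAt (shoscR H μ) (shoscD H μ t) t := by
  have d1 : HasDerivAt (fun t : ℝ => H + 2 * μ * t ^ 2) (2 * μ * (2 * t)) t := by
    simpa using (((hasDerivAt_id t).pow 2).const_mul (2 * μ)).const_add H
  have d2 := (Real.hasDerivAt_sqrt ht.ne').div d1 hD
  refine d2.congr_deriv ?_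
  have q := Real.mul_self_sqrt ht.le
  have q0 := (Real.sqrt_pos.mpr ht).ne'
  rw [shoscD]
  generalize √t = s at q q0 ⊢
  subst q
  field_simp
  ring

lemma shosc_contD {H μ a b : ℝ} (ha : 0 < a) (hD : ∀ t ∈ Icc a b, H + 2 * μ * t ^ 2 ≠ 0) :
    ContinuousOn (shoscD H μ) (Icc a b) := by
  refine ContinuousOn.div (by fun_prop) (by fun_prop) fun t ht => ?_
  have := Real.sqrt_pos.mpr (ha.trans_le ht.1)
  exact mul_ne_zero (by positivity) (pow_ne_zero _ (hD t ht))

lemma shosc_main {H μ a b : ℝ} (ha : 0 < a) (hab : a ≤ b)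
    (hD : ∀ t ∈ Icc a b, H + 2 * μ * t ^ 2 ≠ 0) (G G' : ℝ → ℝ)
    (hG : ∀ t ∈ Icc a b, HasDerivAt G (G' t) t) (hG' : ContinuousOn G' (Icc a b))
    (h0 : ∀ t ∈ Icc a b, |shoscD H μ t| ≤ G' t) :
    ‖∫ t in a..b, kk H t * ep (-2 * μ * t)‖ ≤ |shoscR H μ a| + |shoscR H μ b| + (G b - G a) := by
  have hu : uIcc a b = Icc a b := uIcc_of_le hab
  have key := shosc_ibp hab (shoscR H μ) (shoscD H μ) G G'
    (fun t => ep ((H / t - 2 * μ * t : ℝ) : ℂ))
    (fun t => π * I * ep ((H / t - 2 * μ * t : ℝ) : ℂ) *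
      ((-((H + 2 * μ * t ^ 2) / t ^ 2) : ℝ) : ℂ))
    (fun t ht => shosc_deriv (ha.trans_le ht.1) (hD t ht)) hG ?_ (shosc_contD ha hD) hG' ?_ h0
    (fun t _ => (norm_ep_real _).le)
  · have e : ∫ t in a..b, kk H t * ep (-2 * μ * t) = (-(π * I)⁻¹) *
        ∫ t in a..b, (shoscR H μ t : ℂ) * (π * I * ep ((H / t - 2 * μ * t : ℝ) : ℂ) *
          ((-((H + 2 * μ * t ^ 2) / t ^ 2) : ℝ) : ℂ)) := by
      rw [← intervalIntegral.integral_const_mul]
      refine intervalIntegral.integral_congr fun t ht => ?_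
      have ht' : t ∈ Icc a b := hu ▸ ht
      have ht0 : 0 < t := ha.trans_le ht'.1
      have e3 : ep ((H / t - 2 * μ * t : ℝ) : ℂ) = ep (H / t) * ep (-2 * μ * t) := by
        rw [← ep_add]; congr 1; push_cast; ring
      have e4 : shoscR H μ t * (-((H + 2 * μ * t ^ 2) / t ^ 2)) = -(t ^ (-3 / 2 : ℝ)) := by
        have := hD t ht'
        rw [kb_rpow_sqrt ht0, shoscR]
        field_simp
      have e6 := congrArg (fun x : ℝ => (x : ℂ)) e4
      simp only [Complex.ofReal_mul] at e6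
      rw [Complex.ofReal_neg (t ^ (-3 / 2 : ℝ))] at e6
      have hπ : (π : ℂ) ≠ 0 := by exact_mod_cast Real.pi_pos.ne'
      have e7 : (π * I : ℂ)⁻¹ * (π * I) = 1 := inv_mul_cancel₀ (mul_ne_zero hπ I_ne_zero)
      simp only [kk, e3]
      generalize ((shoscR H μ t : ℝ) : ℂ) = p at e6 ⊢
      generalize ((-((H + 2 * μ * t ^ 2) / t ^ 2) : ℝ) : ℂ) = q at e6 ⊢
      generalize (π * I : ℂ)⁻¹ = w at e7 ⊢
      generalize ep (H / t) = E1
      generalize ep (-2 * μ * t) = E2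
      generalize ((t ^ (-3 / 2 : ℝ) : ℝ) : ℂ) = A at e6 ⊢
      linear_combination (w * π * I * E1 * E2) * e6 - (A * E1 * E2) * e7
    rw [e, norm_mul, norm_neg, norm_inv, norm_mul, norm_I, mul_one, Complex.norm_real,
      Real.norm_eq_abs, abs_of_pos Real.pi_pos]
    refine le_trans (mul_le_of_le_one_left (norm_nonneg _) ?_) key
    exact inv_le_one_of_one_le₀ (by linarith [Real.pi_gt_three])
  · intro t ht
    have ht0 : 0 < t := ha.trans_le ht.1
    have d1 : HasDerivAt (fun t : ℝ => H / t - 2 * μ * t) (-((H + 2 * μ * t ^ 2) / t ^ 2)) t := by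
      have d2 := (hasDerivAt_const t H).div (hasDerivAt_id t) ht0.ne'
      have d3 := (hasDerivAt_id t).const_mul (2 * μ)
      refine (d2.sub d3).congr_deriv ?_
      simp only [id]
      field_simp
      ring
    exact (hasDerivAt_ep _).scomp_of_eq (h := fun t : ℝ => ((H / t - 2 * μ * t : ℝ) : ℂ)) t
      d1.ofReal_comp rfl |>.congr_deriv (by rw [smul_eq_mul]; ring)
  · have c1 : ContinuousOn (fun t : ℝ => H / t - 2 * μ * t) (Icc a b) :=
      (continuousOn_const.div (by fun_prop) fun s hs => (ha.trans_le hs.1).ne').sub (by fun_prop)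
    have c2 : ContinuousOn (fun t : ℝ => -((H + 2 * μ * t ^ 2) / t ^ 2)) (Icc a b) :=
      (ContinuousOn.div (by fun_prop) (by fun_prop) fun s hs => by
        have hs0 : 0 < s := ha.trans_le hs.1
        positivity).neg
    exact (continuousOn_const.mul (continuous_ep.comp_continuousOn
      (continuous_ofReal.comp_continuousOn c1))).mul (continuous_ofReal.comp_continuousOn c2)

lemma shosc_int (H μ : ℝ) {a b : ℝ} (ha : 0 < a) (hab : a ≤ b) :
    IntervalIntegrable (fun t : ℝ => kk H t * ep (-2 * μ * t)) volume a b := by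
  refine ContinuousOn.intervalIntegrable ?_
  rw [uIcc_of_le hab]
  exact ContinuousOn.mul (fun t ht => (kb_cont H (ha.trans_le ht.1)).continuousWithinAt)
    (by fun_prop)

lemma shosc_split (H μ : ℝ) {a c b : ℝ} (ha : 0 < a) (hac : a ≤ c) (hcb : c ≤ b) :
    ‖∫ t in a..b, kk H t * ep (-2 * μ * t)‖ ≤
      ‖∫ t in a..c, kk H t * ep (-2 * μ * t)‖ + ‖∫ t in c..b, kk H t * ep (-2 * μ * t)‖ := by
  rw [← intervalIntegral.integral_add_adjacent_intervals (shosc_int H μ ha hac)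
    (shosc_int H μ (ha.trans_le hac) hcb)]
  exact norm_add_le _ _

lemma shosc_triv (H μ : ℝ) {a b : ℝ} (ha : 0 < a) (hab : a ≤ b) :
    ‖∫ t in a..b, kk H t * ep (-2 * μ * t)‖ ≤ 2 / √a - 2 / √b := by
  have hu : uIcc a b = Icc a b := uIcc_of_le hab
  have i1 : IntervalIntegrable (fun t : ℝ => √t / t ^ 2) volume a b := by
    refine ContinuousOn.intervalIntegrable ?_
    rw [hu]
    exact ContinuousOn.div (by fun_prop) (by fun_prop) fun s hs => by
      have hs0 : 0 < s := ha.trans_le hs.1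
      positivity
  have e : ∫ t in a..b, √t / t ^ 2 = -2 / √b - -2 / √a := by
    refine intervalIntegral.integral_eq_sub_of_hasDerivAt (f := fun t : ℝ => -2 / √t)
      (fun t ht => ?_) i1
    have ht0 : 0 < t := ha.trans_le (hu ▸ ht).1
    have q0 := (Real.sqrt_pos.mpr ht0).ne'
    have d := (hasDerivAt_const t (-2 : ℝ)).div (Real.hasDerivAt_sqrt ht0.ne') q0
    refine d.congr_deriv ?_
    have q := Real.mul_self_sqrt ht0.le
    generalize √t = s at q q0 ⊢
    subst q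
    field_simp
    ring
  have : ‖∫ t in a..b, kk H t * ep (-2 * μ * t)‖ ≤ ∫ t in a..b, √t / t ^ 2 := by
    refine intervalIntegral.norm_integral_le_of_norm_le hab (Eventually.of_forall fun t ht => ?_) i1
    have ht0 : 0 < t := ha.trans ht.1
    have e1 : (-2 * μ * t : ℂ) = ((-2 * μ * t : ℝ) : ℂ) := by push_cast; ring
    rw [norm_mul, kb_norm_kk H ht0, e1, norm_ep_real, mul_one, kb_rpow_sqrt ht0]
  rw [e] at this
  refine this.trans (le_of_eq ?_)
  ring

/-- a piece of the range on which a bound is known -/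
lemma shosc_cut (H μ : ℝ) {y Y c B₁ B₂ : ℝ} (hy : 0 < y) (hyY : y ≤ Y) (h1 : 0 ≤ B₁) (h2 : 0 ≤ B₂)
    (hl : ∀ b, y ≤ b → b ≤ c → b ≤ Y → ‖∫ t in y..b, kk H t * ep (-2 * μ * t)‖ ≤ B₁)
    (hr : ∀ a, y ≤ a → c ≤ a → a ≤ Y → ‖∫ t in a..Y, kk H t * ep (-2 * μ * t)‖ ≤ B₂) :
    ‖∫ t in y..Y, kk H t * ep (-2 * μ * t)‖ ≤ B₁ + B₂ := by
  rcases le_total c y with h | h
  · linarith [hr y le_rfl h hyY]
  rcases le_total Y c with h' | h'
  · linarith [hl Y hyY h' le_rfl]
  · exact (shosc_split H μ hy h h').trans (add_le_add (hl c h le_rfl h') (hr c h le_rfl h'))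

lemma shosc_pos {H μ y Y : ℝ} (hH : 0 < H) (hμ : 0 ≤ μ) (hy : 0 < y) (hyY : y ≤ Y) :
    ‖∫ t in y..Y, kk H t * ep (-2 * μ * t)‖ ≤ 5 / √H + 2 / √H := by
  have hs := Real.sqrt_pos.mpr hH
  have hq := Real.mul_self_sqrt hH.le
  refine shosc_cut H μ (c := H) hy hyY (by positivity) (by positivity) ?_ ?_
  · intro b hb hbH _
    have hR : ∀ t, 0 < t → t ≤ H → |shoscR H μ t| ≤ 1 / √H := by
      intro t ht htH
      rw [shoscR, abs_of_nonneg (by positivity), div_le_div_iff₀ (by positivity) hs]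
      have := Real.sqrt_le_sqrt htH
      have h3 : 0 ≤ μ * t ^ 2 := by positivity
      nlinarith
    have key := shosc_main (H := H) (μ := μ) hy hb
      (fun t ht => by have := hy.trans_le ht.1; positivity)
      (fun t => 3 / H * √t) (fun t => 3 / H * (1 / (2 * √t)))
      (fun t ht => (Real.hasDerivAt_sqrt (hy.trans_le ht.1).ne').const_mul _)
      (continuousOn_const.mul (continuousOn_const.div (by fun_prop) fun t ht => by
        have := Real.sqrt_pos.mpr (hy.trans_le ht.1)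
        positivity))
      (fun t ht => by
        have ht0 := hy.trans_le ht.1
        have hst := Real.sqrt_pos.mpr ht0
        have h3 : 0 ≤ μ * t ^ 2 := by positivity
        have h4 : |H - 6 * μ * t ^ 2| ≤ 3 * (H + 2 * μ * t ^ 2) :=
          abs_le.2 ⟨by nlinarith, by nlinarith⟩
        rw [shoscD, abs_div, abs_of_pos (a := 2 * √t * _) (by positivity),
          div_le_iff₀ (by positivity)]
        refine h4.trans ?_
        have e : 3 / H * (1 / (2 * √t)) * (2 * √t * (H + 2 * μ * t ^ 2) ^ 2) =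
            3 * (H + 2 * μ * t ^ 2) * ((H + 2 * μ * t ^ 2) / H) := by
          field_simp
        rw [e]
        refine le_mul_of_one_le_right (by positivity) ?_
        rw [one_le_div hH]
        nlinarith)
    have k1 := hR y hy (hb.trans hbH)
    have k2 := hR b (hy.trans_le hb) hbH
    have k3 : 3 / H * √b ≤ 3 / √H := by
      have := Real.sqrt_le_sqrt hbH
      rw [div_mul_eq_mul_div, div_le_div_iff₀ hH hs]
      nlinarith
    have k4 : 0 ≤ 3 / H * √y := by positivity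
    have e : 5 / √H = 1 / √H + 1 / √H + 3 / √H := by ring
    linarith
  · intro a ha hHa haY
    refine (shosc_triv H μ (hy.trans_le ha) haY).trans ?_
    have k1 : 2 / √a ≤ 2 / √H :=
      div_le_div_of_nonneg_left (by norm_num) hs (Real.sqrt_le_sqrt hHa)
    have k2 : 0 ≤ 2 / √Y := by positivity
    linarith

/-- away from the stationary point -/
lemma shosc_away {H μ a b : ℝ} (hH : 0 < H) (hμ : μ < 0) (ha : 0 < a) (hab : a ≤ b)
    (hD : ∀ t ∈ Icc a b, √H * √t ≤ |H + 2 * μ * t ^ 2|) :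
    ‖∫ t in a..b, kk H t * ep (-2 * μ * t)‖ ≤ 4 / √H := by
  have hs := Real.sqrt_pos.mpr hH
  have hD' : ∀ t ∈ Icc a b, H + 2 * μ * t ^ 2 ≠ 0 := fun t ht h0 => by
    have h1 := hD t ht
    have := Real.sqrt_pos.mpr (ha.trans_le ht.1)
    rw [h0, abs_zero] at h1
    nlinarith
  have hR : ∀ t ∈ Icc a b, |shoscR H μ t| ≤ 1 / √H := by
    intro t ht
    rw [shoscR, abs_div, abs_of_nonneg (Real.sqrt_nonneg _),
      div_le_div_iff₀ (abs_pos.2 (hD' t ht)) hs]
    linarith [hD t ht]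
  have key := shosc_main ha hab hD' (shoscR H μ) (shoscD H μ)
    (fun t ht => shosc_deriv (ha.trans_le ht.1) (hD' t ht)) (shosc_contD ha hD')
    (fun t ht => by
      refine (abs_of_nonneg ?_).le
      have : 0 ≤ -μ * t ^ 2 := mul_nonneg (by linarith) (sq_nonneg t)
      exact div_nonneg (by linarith) (by positivity))
  have k1 := hR a ⟨le_rfl, hab⟩
  have k2 := hR b ⟨hab, le_rfl⟩
  have k3 := le_abs_self (shoscR H μ b)
  have k4 := neg_abs_le (shoscR H μ a)
  have e : 4 / √H = 1 / √H + 1 / √H + 1 / √H + 1 / √H := by ring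
  linarith

lemma shosc_neg {H μ y Y : ℝ} (hH : 0 < H) (hμ : μ < 0) (hy : 0 < y) (hyY : y ≤ Y) :
    ‖∫ t in y..Y, kk H t * ep (-2 * μ * t)‖ ≤ 4 / √H + (4 / √H + 4 / √H) := by
  have hs := Real.sqrt_pos.mpr hH
  have hq := Real.mul_self_sqrt hH.le
  obtain ⟨w, hw, hw4⟩ : ∃ w : ℝ, 0 < w ∧ H * w ^ 4 = -2 * μ := by
    have h1 : 0 < -2 * μ / H := div_pos (by linarith) hH
    refine ⟨√(√(-2 * μ / H)), Real.sqrt_pos.mpr (Real.sqrt_pos.mpr h1), ?_⟩
    rw [show (4 : ℕ) = 2 * 2 by norm_num, pow_mul, Real.sq_sqrt (Real.sqrt_nonneg _),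
      Real.sq_sqrt h1.le]
    field_simp
  set d : ℝ := 1 / √H with hd
  have hd0 : 0 < d := by positivity
  have hdH : H * d = √H := by rw [hd]; field_simp; nlinarith
  have hfac : ∀ t, 0 < t → H + 2 * μ * t ^ 2 = H * (1 - (w * √t) ^ 4) := by
    intro t ht
    have q := Real.sq_sqrt ht.le
    have : (w * √t) ^ 4 = w ^ 4 * (√t ^ 2) ^ 2 := by ring
    rw [this, q]
    linear_combination t ^ 2 * hw4
  have e4 : 4 / √H = 4 * d := by rw [hd]; ring
  refine shosc_cut H μ (c := (1 / (w + d)) ^ 2) hy hyY (by positivity) (by positivity) ?_ ?_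
  · intro b hb hbc _
    refine shosc_away hH hμ hy hb fun t ht => ?_
    have ht0 := hy.trans_le ht.1
    have hst := Real.sqrt_pos.mpr ht0
    have h1 : √t ≤ 1 / (w + d) := Real.sqrt_le_iff.mpr ⟨by positivity, ht.2.trans hbc⟩
    rw [le_div_iff₀ (by positivity)] at h1
    have h2 : 0 ≤ w * √t := by positivity
    have h3 : w * √t ≤ 1 := by nlinarith
    have h4 : (w * √t) ^ 4 ≤ w * √t := pow_le_of_le_one h2 h3 (by norm_num)
    rw [hfac t ht0, ← hdH]
    refine le_trans ?_ (le_abs_self _)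
    rw [mul_assoc]
    refine mul_le_mul_of_nonneg_left ?_ hH.le
    nlinarith
  · intro a ha hca haY
    have ha0 := hy.trans_le ha
    have hsa := Real.sqrt_pos.mpr ha0
    have k1 : 2 / √a ≤ 2 * (w + d) := by
      have h1 : 1 / (w + d) ≤ √a := Real.le_sqrt_of_sq_le hca
      rw [div_le_iff₀ (by positivity)] at h1
      rw [div_le_iff₀ hsa]
      nlinarith
    rcases le_or_gt w d with hwd | hwd
    · refine (shosc_triv H μ ha0 haY).trans ?_
      have k2 : 0 ≤ 2 / √Y := by positivity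
      linarith
    have hwd' : 0 < w - d := sub_pos.2 hwd
    refine shosc_cut H μ (c := (1 / (w - d)) ^ 2) ha0 haY (by positivity) (by positivity) ?_ ?_
    · intro b hb hbc _
      refine (shosc_triv H μ ha0 hb).trans ?_
      have hsb := Real.sqrt_pos.mpr (ha0.trans_le hb)
      have h1 : √b ≤ 1 / (w - d) := Real.sqrt_le_iff.mpr ⟨by positivity, hbc⟩
      rw [le_div_iff₀ hwd'] at h1
      have k2 : 2 * (w - d) ≤ 2 / √b := by
        rw [le_div_iff₀ hsb]
        nlinarith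
      linarith
    · intro a' ha' hca' haY'
      refine shosc_away hH hμ (ha0.trans_le ha') haY' fun t ht => ?_
      have ht0 := (ha0.trans_le ha').trans_le ht.1
      have hst := Real.sqrt_pos.mpr ht0
      have h1 : 1 / (w - d) ≤ √t := Real.le_sqrt_of_sq_le (hca'.trans ht.1)
      rw [div_le_iff₀ hwd'] at h1
      have h3 : 1 ≤ w * √t := by nlinarith
      have h4 : w * √t ≤ (w * √t) ^ 4 := le_self_pow₀ h3 (by norm_num)
      rw [hfac t ht0, ← hdH]
      refine le_trans ?_ (neg_le_abs _)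
      rw [mul_assoc, ← mul_neg]
      refine mul_le_mul_of_nonneg_left ?_ hH.le
      nlinarith

lemma shosc_far {H μ y Y : ℝ} (hH : 0 < H) (hy : 0 < y) (hyY : y ≤ Y) (h : H ≤ |μ| * y ^ 2) :
    ‖∫ t in y..Y, kk H t * ep (-2 * μ * t)‖ ≤ 5 * y ^ (-3 / 2 : ℝ) / |μ| := by
  have hm : 0 < |μ| := by
    by_contra h0
    have : |μ| = 0 := le_antisymm (not_lt.1 h0) (abs_nonneg _)
    rw [this] at h
    linarith
  have hH' : ∀ t, y ≤ t → H ≤ |μ| * t ^ 2 := fun t ht =>
    h.trans (mul_le_mul_of_nonneg_left (pow_le_pow_left₀ hy.le ht 2) hm.le)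
  have hD : ∀ t, y ≤ t → |μ| * t ^ 2 ≤ |H + 2 * μ * t ^ 2| := by
    intro t ht
    have h1 := hH' t ht
    rcases le_total 0 μ with h0 | h0
    · rw [abs_of_nonneg h0] at h1 ⊢
      refine le_trans ?_ (le_abs_self _)
      nlinarith
    · rw [abs_of_nonpos h0] at h1 ⊢
      refine le_trans ?_ (neg_le_abs _)
      nlinarith
  have hD' : ∀ t ∈ Icc y Y, H + 2 * μ * t ^ 2 ≠ 0 := fun t ht h0 => by
    have h1 := hD t ht.1
    have := hy.trans_le ht.1
    rw [h0, abs_zero] at h1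
    have : 0 < |μ| * t ^ 2 := by positivity
    linarith
  have hmono : ∀ t, y ≤ t → √t / t ^ 2 ≤ √y / y ^ 2 := fun t ht => by
    rw [← kb_rpow_sqrt hy, ← kb_rpow_sqrt (hy.trans_le ht)]
    exact Real.rpow_le_rpow_of_nonpos hy ht (by norm_num)
  have hR : ∀ t ∈ Icc y Y, |shoscR H μ t| ≤ √y / y ^ 2 / |μ| := by
    intro t ht
    have ht0 := hy.trans_le ht.1
    refine le_trans ?_ (div_le_div_of_nonneg_right (hmono t ht.1) hm.le)
    rw [shoscR, abs_div, abs_of_nonneg (Real.sqrt_nonneg _), div_div, mul_comm (t ^ 2)]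
    exact div_le_div_of_nonneg_left (Real.sqrt_nonneg _) (by positivity) (hD t ht.1)
  have key := shosc_main hy hyY hD' (fun t => -(7 / 3) / |μ| * (√t / t ^ 2))
    (fun t => 7 / (2 * √t * (|μ| * t ^ 2)))
    (fun t ht => by
      have ht0 := hy.trans_le ht.1
      have d1 : HasDerivAt (fun t : ℝ => t ^ 2) (2 * t) t := by
        simpa using hasDerivAt_pow 2 t
      have d := ((Real.hasDerivAt_sqrt ht0.ne').div d1 (by positivity)).const_mul (-(7 / 3) / |μ|)
      refine d.congr_deriv ?_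
      have q := Real.mul_self_sqrt ht0.le
      have q0 := (Real.sqrt_pos.mpr ht0).ne'
      have hm' := hm.ne'
      generalize √t = s at q q0 ⊢
      subst q
      field_simp
      ring)
    (continuousOn_const.div (by fun_prop) fun t ht => by
      have ht0 := hy.trans_le ht.1
      have := Real.sqrt_pos.mpr ht0
      positivity)
    (fun t ht => by
      have ht0 := hy.trans_le ht.1
      have hst := Real.sqrt_pos.mpr ht0
      have h1 := hH' t ht.1
      have h2 := hD t ht.1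
      have hp : 0 < |μ| * t ^ 2 := by positivity
      have h4 : |H - 6 * μ * t ^ 2| ≤ 7 * (|μ| * t ^ 2) := by
        have h5 : |μ * t ^ 2| = |μ| * t ^ 2 := by rw [abs_mul, abs_of_nonneg (sq_nonneg t)]
        have h6 := le_abs_self (μ * t ^ 2)
        have h7 := neg_abs_le (μ * t ^ 2)
        exact abs_le.2 ⟨by linarith, by linarith⟩
      have h8 : (|μ| * t ^ 2) ^ 2 ≤ (H + 2 * μ * t ^ 2) ^ 2 := by
        rw [← sq_abs (H + 2 * μ * t ^ 2)]
        exact pow_le_pow_left₀ hp.le h2 2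
      have h9 : 0 < (H + 2 * μ * t ^ 2) ^ 2 := lt_of_lt_of_le (by positivity) h8
      rw [shoscD, abs_div, abs_of_pos (a := 2 * √t * _) (by positivity)]
      calc |H - 6 * μ * t ^ 2| / (2 * √t * (H + 2 * μ * t ^ 2) ^ 2)
          ≤ 7 * (|μ| * t ^ 2) / (2 * √t * (|μ| * t ^ 2) ^ 2) := by gcongr
        _ = _ := by field_simp)
  have k1 := hR y ⟨le_rfl, hyY⟩
  have k2 := hR Y ⟨hyY, le_rfl⟩
  have hY := hy.trans_le hyY
  have k3 : 0 ≤ √Y / Y ^ 2 / |μ| := by positivity
  have k4 : 0 ≤ √y / y ^ 2 / |μ| := by positivity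
  rw [kb_rpow_sqrt hy]
  refine key.trans ?_
  have e1 : -(7 / 3) / |μ| * (√Y / Y ^ 2) = -(7 / 3) * (√Y / Y ^ 2 / |μ|) := by ring
  have e2 : -(7 / 3) / |μ| * (√y / y ^ 2) = -(7 / 3) * (√y / y ^ 2 / |μ|) := by ring
  have e3 : 5 * (√y / y ^ 2) / |μ| = 5 * (√y / y ^ 2 / |μ|) := by ring
  rw [e1, e2, e3]
  linarith

theorem osc_bound : ∃ C : ℝ, 0 < C ∧ ∀ H μ y Y : ℝ, 0 < H → 0 < y → y ≤ Y →
    ‖∫ t in y..Y, kk H t * ep (-2 * μ * t)‖ ≤ C / √H ∧
      (H ≤ |μ| * y ^ 2 → ‖∫ t in y..Y, kk H t * ep (-2 * μ * t)‖ ≤ C * y ^ (-3 / 2 : ℝ) / |μ|) := by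
  refine ⟨12, by norm_num, fun H μ y Y hH hy hyY => ⟨?_, fun h => ?_⟩⟩
  · have hs : 0 ≤ 1 / √H := by positivity
    rcases le_or_gt 0 μ with hμ | hμ
    · refine (shosc_pos hH hμ hy hyY).trans ?_
      have e : 12 / √H = 5 / √H + 2 / √H + 5 * (1 / √H) := by ring
      linarith
    · refine (shosc_neg hH hμ hy hyY).trans (le_of_eq ?_)
      ring
  · refine (shosc_far hH hy hyY h).trans ?_
    have := Real.rpow_pos_of_pos hy (-3 / 2 : ℝ)
    gcongr
    norm_num

end

end Pool.Agent.MP_9f080f_an
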