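import Pool.Agent.MP_9f080f_an.Mg.ShDefs
import Pool.Agent.MP_9f080f_an.Mg.KBA

namespace Pool.Agent.MP_9f080f_an
open Complex MeasureTheory Set Filter Topology Metric
open scoped Real

noncomputable section

/-! Parseval for combs, and averaging over the cut.
`comb_parseval`: apply `hasSum_sq_fourierCoeffOn` on `[s₀, s₀+1]` to `s ↦ ep (-2κ s) G s`
(`fourierCoeffOn_eq_integral`).  With `q = a + P j`, `e q = ep (2κ j) e a`, and
`∑_j ∫_{s₀}^{s₀+1} g (s - j) ds = ∫_ℝ g` for `g t = cut (t - a/P) ep (-2 (m+κ) t)` (only finitely many `j`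
matter; `integral_iUnion`, `MeasureTheory.Integrable.hasSum_intervalIntegral_comp_add_int`).
`avg_le`: Cauchy-Schwarz (Jensen) in `u`, shift `y = s + u`, enlarge the `y` range to
`[s₀+u₀, s₀+1+u₁]` (length `≤ 2`), Fubini (`intervalIntegral_integral_swap`, `integral_integral_swap`). -/

lemma comb_eq_sum (e : ℤ → ℂ) (P : ℕ) (H y Y s : ℝ) {Q : Finset ℤ}
    (hQ : ∀ q : ℤ, y ≤ s - q / P → s - q / P < Y → q ∈ Q) :
    comb e P H y Y s = ∑ q ∈ Q, e q * cut H y Y (s - q / P) := by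
  refine tsum_eq_sum fun q hq => ?_
  rw [cut, if_neg fun h => hq (hQ q h.1 h.2), mul_zero]

lemma shpars_meas_ep : Measurable ep := by
  have : Continuous ep := by unfold ep; fun_prop
  exact this.measurable

lemma shpars_meas_kk (H : ℝ) : Measurable (kk H) := by
  unfold kk
  exact (Complex.measurable_ofReal.comp (measurable_id.pow_const _)).mul
    (shpars_meas_ep.comp (measurable_const.div Complex.measurable_ofReal))

lemma shpars_meas_cut (H Y : ℝ) : Measurable fun p : ℝ × ℝ => cut H p.2 Y p.1 := by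
  unfold cut
  refine Measurable.ite ?_ ((shpars_meas_kk H).comp measurable_fst) measurable_const
  exact (measurableSet_le measurable_snd measurable_fst).inter
    (measurableSet_lt measurable_fst measurable_const)

lemma shpars_norm_cut (H Y : ℝ) {y₀ y : ℝ} (hy : 0 < y₀) (h : y₀ ≤ y) (t : ℝ) :
    ‖cut H y Y t‖ ≤ y₀ ^ (-3 / 2 : ℝ) := by
  unfold cut
  split_ifs with ht
  · rw [kb_norm_kk H (hy.trans_le (h.trans ht.1))]
    exact Real.rpow_le_rpow_of_nonpos hy (h.trans ht.1) (by norm_num)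
  · rw [norm_zero]; positivity

lemma shpars_per {e : ℤ → ℂ} {P : ℕ} {κ : ℝ} (he : ∀ a : ℤ, e (a + P) = ep (2 * κ) * e a)
    (a j : ℤ) : e (j * P + a) = ep (2 * κ * j) * e a := by
  induction j using Int.induction_on with
  | zero => simp
  | succ i ih =>
    rw [show ((i : ℤ) + 1) * P + a = (i : ℤ) * P + a + P by ring, he, ih, ← mul_assoc, ← ep_add]
    congr 2; push_cast; ring
  | pred i ih =>
    have h := he ((-(i : ℤ) - 1) * P + a)
    rw [show (-(i : ℤ) - 1) * P + a + P = -(i : ℤ) * P + a by ring, ih] at h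
    apply mul_left_cancel₀ (ep_ne (2 * κ))
    rw [← h, ← mul_assoc, ← ep_add]
    congr 2; push_cast; ring

lemma shpars_mem {P : ℕ} (hP : 0 < P) {q : ℤ} {a b : ℝ} (h1 : a ≤ q / P) (h2 : (q : ℝ) / P ≤ b) :
    q ∈ Finset.Icc ⌊P * a⌋ ⌈P * b⌉ := by
  have hP' : (0 : ℝ) < P := by exact_mod_cast hP
  rw [le_div_iff₀ hP'] at h1
  rw [div_le_iff₀ hP'] at h2
  rw [Finset.mem_Icc]
  constructor
  · exact Int.cast_le (R := ℝ).1 ((Int.floor_le _).trans (by linarith))
  · exact Int.cast_le (R := ℝ).1 (le_trans (by linarith) (Int.le_ceil _))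

lemma shpars_ii {E : Type} [NormedAddCommGroup E] {f : ℝ → E} {a b M : ℝ} (hab : a ≤ b)
    (hf : AEStronglyMeasurable f volume) (hM : ∀ x ∈ Icc a b, ‖f x‖ ≤ M) :
    IntervalIntegrable f volume a b := by
  rw [intervalIntegrable_iff_integrableOn_Icc_of_le hab]
  exact Measure.integrableOn_of_bounded (M := M) measure_Icc_lt_top.ne hf
    (ae_restrict_of_forall_mem measurableSet_Icc hM)

lemma measurable_comb (e : ℤ → ℂ) {P : ℕ} (hP : 0 < P) (H Y : ℝ) :
    Measurable fun p : ℝ × ℝ => comb e P H p.2 Y p.1 := by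
  have _ := hP
  unfold comb
  refine Measurable.tsum fun q => measurable_const.mul ?_
  exact (shpars_meas_cut H Y).comp
    ((measurable_fst.sub measurable_const).prodMk measurable_snd)

lemma comb_bdd {e : ℤ → ℂ} {P : ℕ} (hP : 0 < P) {κ : ℝ} (he : ∀ a : ℤ, e (a + P) = ep (2 * κ) * e a)
    (H Y : ℝ) {y₀ : ℝ} (hy : 0 < y₀) : ∃ M : ℝ, ∀ y s : ℝ, y₀ ≤ y → ‖comb e P H y Y s‖ ≤ M := by
  have hB : ∀ q : ℤ, ‖e q‖ ≤ ∑ a ∈ Finset.Ico (0 : ℤ) P, ‖e a‖ := by
    intro q
    have hP' : (P : ℤ) ≠ 0 := by exact_mod_cast hP.ne'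
    have h1 := shpars_per he (q % P) (q / P)
    rw [Int.ediv_mul_add_emod] at h1
    have h2 : ‖ep (2 * κ * (q / P : ℤ))‖ = 1 := by
      rw [← norm_ep_real (2 * κ * (q / P : ℤ))]; push_cast; rfl
    rw [h1, norm_mul, h2, one_mul]
    exact Finset.single_le_sum (f := fun a => ‖e a‖) (fun _ _ => norm_nonneg _)
      (Finset.mem_Ico.2 ⟨Int.emod_nonneg _ hP', Int.emod_lt_of_pos _ (by exact_mod_cast hP)⟩)
  set B := ∑ a ∈ Finset.Ico (0 : ℤ) P, ‖e a‖
  have hB0 : 0 ≤ B := (norm_nonneg _).trans (hB 0)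
  refine ⟨(P * |Y - y₀| + 3) * (B * y₀ ^ (-3 / 2 : ℝ)), fun y s hys => ?_⟩
  rw [comb_eq_sum e P H y Y s (Q := Finset.Icc ⌊P * (s - Y)⌋ ⌈P * (s - y₀)⌉)
    fun q h1 h2 => shpars_mem hP (by linarith) (by linarith)]
  refine (norm_sum_le _ _).trans ((Finset.sum_le_card_nsmul _ _ (B * y₀ ^ (-3 / 2 : ℝ))
    fun q _ => ?_).trans ?_)
  · rw [norm_mul]
    exact mul_le_mul (hB q) (shpars_norm_cut H Y hy hys _) (norm_nonneg _) hB0
  · rw [nsmul_eq_mul]
    refine mul_le_mul_of_nonneg_right ?_ (by positivity)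
    rw [Int.card_Icc]
    have h0 : (0 : ℝ) ≤ P * |Y - y₀| := by positivity
    rcases le_total 0 (⌈P * (s - y₀)⌉ + 1 - ⌊P * (s - Y)⌋) with h | h
    · rw [← Int.cast_natCast, Int.toNat_of_nonneg h]
      push_cast
      have h1 := Int.ceil_lt_add_one (P * (s - y₀))
      have h2 := Int.sub_one_lt_floor (P * (s - Y))
      have h3 : (P : ℝ) * (Y - y₀) ≤ P * |Y - y₀| :=
        mul_le_mul_of_nonneg_left (le_abs_self _) (Nat.cast_nonneg _)
      linarith
    · rw [Int.toNat_eq_zero.2 h]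
      push_cast
      linarith

lemma shpars_coef {e : ℤ → ℂ} {P : ℕ} (hP : 0 < P) {κ : ℝ}
    (he : ∀ a : ℤ, e (a + P) = ep (2 * κ) * e a) (H : ℝ) {y Y : ℝ} (hy : 0 < y) (hY : y ≤ Y)
    (s₀ : ℝ) (m : ℤ) :
    ∫ s in s₀..s₀ + 1, ep (-2 * ((m + κ : ℝ) : ℂ) * s) * comb e P H y Y s =
      (∑ a ∈ Finset.range P, e a * ep (-2 * (m + κ) * a / P)) *
        ∫ t in y..Y, kk H t * ep (-2 * ((m + κ : ℝ) : ℂ) * t) := by
  have : NeZero P := ⟨hP.ne'⟩
  have hPc : (P : ℂ) ≠ 0 := by exact_mod_cast hP.ne'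
  have hPr : (P : ℝ) ≠ 0 := by exact_mod_cast hP.ne'
  set θ : ℝ := m + κ with hθ
  set g : ℝ → ℂ := fun t => cut H y Y t * ep (-2 * (θ : ℂ) * t) with hg
  have hn : ∀ t : ℝ, ‖ep (-2 * (θ : ℂ) * t)‖ = 1 := fun t => by
    rw [← norm_ep_real (-2 * θ * t)]; push_cast; rfl
  have hgm : Measurable g :=
    ((shpars_meas_cut H Y).comp (measurable_id.prodMk measurable_const)).mul
      (shpars_meas_ep.comp (measurable_const.mul Complex.measurable_ofReal))
  have hgI : g = (Ico y Y).indicator fun t => kk H t * ep (-2 * (θ : ℂ) * t) := by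
    funext t
    simp only [hg, cut, indicator, mem_Ico]
    split_ifs <;> simp
  have hgi : Integrable g := by
    have h1 : IntegrableOn g (Icc y Y) :=
      Measure.integrableOn_of_bounded (M := y ^ (-3 / 2 : ℝ)) measure_Icc_lt_top.ne
        hgm.aestronglyMeasurable (Eventually.of_forall fun t => by
          simp only [hg]
          rw [norm_mul, hn, mul_one]
          exact shpars_norm_cut H Y hy le_rfl t)
    refine (integrableOn_iff_integrable_of_support_subset ?_).1 h1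
    rw [hgI]
    exact support_indicator_subset.trans Ico_subset_Icc_self
  have hI : ∫ t, g t = ∫ t in y..Y, kk H t * ep (-2 * (θ : ℂ) * t) := by
    rw [hgI, integral_indicator measurableSet_Ico, intervalIntegral.integral_of_le hY,
      integral_Ico_eq_integral_Ioc]
  set T : ℤ → ℂ := fun q => e q * ep (-2 * (θ : ℂ) * q / P) *
    ∫ t in s₀ - q / P..s₀ + 1 - q / P, g t with hT
  have hterm : ∀ (q : ℤ) (s : ℝ), ep (-2 * (θ : ℂ) * s) * (e q * cut H y Y (s - q / P)) =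
      e q * ep (-2 * (θ : ℂ) * q / P) * g (s - q / P) := by
    intro q s
    have h1 : ep (-2 * (θ : ℂ) * s) =
        ep (-2 * (θ : ℂ) * q / P) * ep (-2 * (θ : ℂ) * ((s - q / P : ℝ) : ℂ)) := by
      rw [← ep_add]; congr 1; push_cast; ring
    simp only [hg]
    rw [h1]; ring
  have hTq : ∀ q : ℤ, ∫ s in s₀..s₀ + 1, e q * ep (-2 * (θ : ℂ) * q / P) * g (s - q / P) = T q :=
    fun q => by rw [intervalIntegral.integral_const_mul, intervalIntegral.integral_comp_sub_right]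
  set Q := Finset.Icc ⌊P * (s₀ - Y)⌋ ⌈P * (s₀ + 1 - y)⌉ with hQ
  have hQm : ∀ s ∈ uIcc s₀ (s₀ + 1), ∀ q : ℤ, y ≤ s - q / P → s - q / P < Y → q ∈ Q := by
    intro s hs q h1 h2
    rw [uIcc_of_le (by linarith)] at hs
    exact shpars_mem hP (by linarith [hs.1]) (by linarith [hs.2])
  have h1 : ∫ s in s₀..s₀ + 1, ep (-2 * (θ : ℂ) * s) * comb e P H y Y s = ∑ q ∈ Q, T q := by
    rw [intervalIntegral.integral_congr (g := fun s => ∑ q ∈ Q,
      e q * ep (-2 * (θ : ℂ) * q / P) * g (s - q / P)) fun s hs => by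
        simp only
        rw [comb_eq_sum e P H y Y s (hQm s hs), Finset.mul_sum]
        exact Finset.sum_congr rfl fun q _ => hterm q s,
      intervalIntegral.integral_finsetSum fun q _ =>
        ((hgi.comp_sub_right _).const_mul _).intervalIntegrable]
    exact Finset.sum_congr rfl fun q _ => hTq q
  have h2 : HasSum T (∑ q ∈ Q, T q) := by
    refine hasSum_sum_of_ne_finset_zero fun q hq => ?_
    rw [← hTq, intervalIntegral.integral_congr (g := fun _ => 0) fun s hs => ?_]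
    · simp
    · simp only [hg]
      rw [cut, if_neg fun h => hq (hQm s hs q h.1 h.2), zero_mul, mul_zero]
  have h3 := ((Equiv.prodComm (Fin P) ℤ).trans (Int.divModEquiv P).symm).hasSum_iff.2 h2
  have h4 : ∀ a : Fin P, HasSum (fun j : ℤ =>
      (T ∘ (Equiv.prodComm (Fin P) ℤ).trans (Int.divModEquiv P).symm) (a, j))
      (e a * ep (-2 * (θ : ℂ) * a / P) * ∫ t, g t) := by
    intro a
    have h5 := ((Equiv.neg ℤ).hasSum_iff.2
      (hgi.hasSum_intervalIntegral (s₀ - (a : ℕ) / P))).mul_left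
        (e a * ep (-2 * (θ : ℂ) * a / P))
    refine h5.congr_fun ?_
    intro j
    have e1 : (T ∘ (Equiv.prodComm (Fin P) ℤ).trans (Int.divModEquiv P).symm) (a, j) =
        T (j * P + ((a : ℕ) : ℤ)) := rfl
    have e2 : s₀ - ((j * P + ((a : ℕ) : ℤ) : ℤ) : ℝ) / P = s₀ - (a : ℕ) / P + ((-j : ℤ) : ℝ) := by
      push_cast; field_simp; ring
    have e3 : s₀ + 1 - ((j * P + ((a : ℕ) : ℤ) : ℤ) : ℝ) / P =
        s₀ - (a : ℕ) / P + ((-j : ℤ) : ℝ) + 1 := by
      push_cast; field_simp; ring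
    have e4 : ep (2 * κ * j) * ep (-2 * (θ : ℂ) * ((j * P + ((a : ℕ) : ℤ) : ℤ) : ℂ) / P) =
        ep (-2 * (θ : ℂ) * a / P) := by
      rw [← one_mul (ep (-2 * (θ : ℂ) * a / P)), ← ep_two_int (-(m * j)), ← ep_add, ← ep_add]
      congr 1
      simp only [hθ]
      push_cast; field_simp; ring
    rw [e1]
    simp only [hT, Function.comp, Equiv.neg_apply]
    rw [e2, e3, shpars_per he, ← e4]
    push_cast
    ring
  have h6 := (h3.prod_fiberwise h4).unique (hasSum_fintype _)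
  rw [h1, h6, ← Finset.sum_mul, hI, Finset.sum_range]
  simp only [hθ]
  push_cast
  rfl

theorem comb_parseval (S : Finset ℕ) (hS : ∀ P ∈ S, 0 < P) (c : ℕ → ℂ) (e : ℕ → ℤ → ℂ) (κ : ℝ)
    (he : ∀ P ∈ S, ∀ a : ℤ, e P (a + P) = ep (2 * κ) * e P a) (H : ℕ → ℝ) {y Y : ℝ} (hy : 0 < y)
    (hY : y ≤ Y) (s₀ : ℝ) :
    HasSum (fun m : ℤ => ‖∑ P ∈ S, c P * (∑ a ∈ Finset.range P, e P a * ep (-2 * (m + κ) * a / P)) *
        ∫ t in y..Y, kk (H P) t * ep (-2 * ((m + κ : ℝ) : ℂ) * t)‖ ^ 2)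
      (∫ s in s₀..s₀ + 1, ‖∑ P ∈ S, c P * comb (e P) P (H P) y Y s‖ ^ 2) := by
  have hlt : s₀ < s₀ + 1 := lt_add_one s₀
  have hm : ∀ P ∈ S, Measurable fun s => comb (e P) P (H P) y Y s := fun P hP =>
    (measurable_comb (e P) (hS P hP) (H P) Y).comp (measurable_id.prodMk measurable_const)
  have hb : ∀ P ∈ S, ∃ M : ℝ, ∀ s, ‖comb (e P) P (H P) y Y s‖ ≤ M := fun P hP => by
    obtain ⟨M, hM⟩ := comb_bdd (hS P hP) (he P hP) (H P) Y hy
    exact ⟨M, fun s => hM y s le_rfl⟩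
  choose! M hM using hb
  have hn : ∀ θ t : ℝ, ‖ep (-2 * (θ : ℂ) * t)‖ = 1 := fun θ t => by
    rw [← norm_ep_real (-2 * θ * t)]; push_cast; rfl
  have hme : ∀ θ : ℝ, Measurable fun t : ℝ => ep (-2 * (θ : ℂ) * t) := fun θ =>
    shpars_meas_ep.comp (measurable_const.mul Complex.measurable_ofReal)
  set f : ℝ → ℂ := fun s => ep (-2 * (κ : ℂ) * s) * ∑ P ∈ S, c P * comb (e P) P (H P) y Y s
    with hf
  have hfn : ∀ s, ‖f s‖ = ‖∑ P ∈ S, c P * comb (e P) P (H P) y Y s‖ := fun s => by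
    simp only [hf]; rw [norm_mul, hn, one_mul]
  have hL : MemLp f 2 (volume.restrict (Ioc s₀ (s₀ + 1))) := by
    refine MemLp.of_bound ((hme κ).mul (Finset.measurable_fun_sum S fun P hP =>
      measurable_const.mul (hm P hP))).aestronglyMeasurable (∑ P ∈ S, ‖c P‖ * M P)
      (Eventually.of_forall fun s => ?_)
    rw [hfn]
    refine (norm_sum_le _ _).trans (Finset.sum_le_sum fun P hP => ?_)
    rw [norm_mul]
    exact mul_le_mul_of_nonneg_left (hM P hP s) (norm_nonneg _)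
  have h := hasSum_sq_fourierCoeffOn hlt hL
  simp only [hfn, add_sub_cancel_left, inv_one, one_smul] at h
  refine h.congr_fun ?_
  intro m
  congr 2
  rw [fourierCoeffOn_eq_integral]
  simp only [fourier_coe_apply, add_sub_cancel_left, div_one, one_smul, smul_eq_mul, ofReal_one]
  rw [intervalIntegral.integral_congr (g := fun s => ∑ P ∈ S,
    c P * (ep (-2 * ((m + κ : ℝ) : ℂ) * s) * comb (e P) P (H P) y Y s)) fun s _ => ?_,
    intervalIntegral.integral_finsetSum fun P hP => ?_]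
  · refine Finset.sum_congr rfl fun P hP => ?_
    rw [intervalIntegral.integral_const_mul, shpars_coef (hS P hP) (he P hP) (H P) hy hY, mul_assoc]
  · refine shpars_ii (M := ‖c P‖ * M P) hlt.le
      (measurable_const.mul ((hme _).mul (hm P hP))).aestronglyMeasurable fun s _ => ?_
    rw [norm_mul, norm_mul, hn, one_mul]
    exact mul_le_mul_of_nonneg_left (hM P hP s) (norm_nonneg _)
  · simp only [hf]
    have h1 : ep (-2 * ((m + κ : ℝ) : ℂ) * s) =
        cexp (2 * π * I * ((-m : ℤ) : ℂ) * s) * ep (-2 * (κ : ℂ) * s) := by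
      rw [ep, ep, ← Complex.exp_add]; congr 1; push_cast; ring
    rw [h1, ← mul_assoc, Finset.mul_sum]
    exact Finset.sum_congr rfl fun P _ => by ring

lemma shpars_cs {h : ℝ → ℝ} {a b : ℝ} (hab : a ≤ b) (h1 : b ≤ a + 1)
    (hi : IntervalIntegrable h volume a b) (hi2 : IntervalIntegrable (fun u => h u ^ 2) volume a b) :
    (∫ u in a..b, h u) ^ 2 ≤ ∫ u in a..b, h u ^ 2 := by
  set c := ∫ u in a..b, h u with hc
  have h2 : 0 ≤ ∫ u in a..b, (h u - c) ^ 2 :=
    intervalIntegral.integral_nonneg hab fun u _ => sq_nonneg _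
  have h3 : ∫ u in a..b, (h u - c) ^ 2 = (∫ u in a..b, h u ^ 2) - 2 * c * c + (b - a) * c ^ 2 := by
    have : (fun u => (h u - c) ^ 2) = fun u => (h u ^ 2 - 2 * c * h u) + c ^ 2 := by
      funext u; ring
    rw [this, intervalIntegral.integral_add (hi2.sub (hi.const_mul _)) intervalIntegrable_const,
      intervalIntegral.integral_sub hi2 (hi.const_mul _), intervalIntegral.integral_const_mul,
      intervalIntegral.integral_const, smul_eq_mul]
  nlinarith [sq_nonneg c]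

theorem avg_le {F : ℝ → ℝ → ℂ} (hF : Measurable fun p : ℝ × ℝ => F p.1 p.2) {ω : ℝ → ℝ}
    (hω : Measurable ω) {s₀ u₀ u₁ w E M : ℝ} (h0 : u₀ ≤ u₁) (h1 : u₁ ≤ u₀ + 1)
    (hw : ∀ u ∈ Icc u₀ u₁, |ω u| ≤ w) (hM : ∀ s y, s₀ + u₀ ≤ y → ‖F s y‖ ≤ M)
    (hE : ∀ y, s₀ + u₀ ≤ y → y ≤ s₀ + 1 + u₁ → ∫ s in s₀..s₀ + 1, ‖F s y‖ ^ 2 ≤ E) :
    IntervalIntegrable (fun s => ‖∫ u in u₀..u₁, (ω u : ℂ) * F s (s + u)‖ ^ 2) volume s₀ (s₀ + 1) ∧
      ∫ s in s₀..s₀ + 1, ‖∫ u in u₀..u₁, (ω u : ℂ) * F s (s + u)‖ ^ 2 ≤ 2 * w ^ 2 * E := by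
  have hw0 : 0 ≤ w := (abs_nonneg _).trans (hw u₀ ⟨le_rfl, h0⟩)
  have hM0 : 0 ≤ M := (norm_nonneg _).trans (hM 0 _ le_rfl)
  have hlt : s₀ ≤ s₀ + 1 := by linarith
  have hE0 : 0 ≤ E := le_trans (intervalIntegral.integral_nonneg hlt fun _ _ => sq_nonneg _)
    (hE _ le_rfl (by linarith))
  have hG : Measurable fun p : ℝ × ℝ => (ω p.2 : ℂ) * F p.1 (p.1 + p.2) :=
    (Complex.measurable_ofReal.comp (hω.comp measurable_snd)).mul
      (hF.comp (measurable_fst.prodMk (measurable_fst.add measurable_snd)))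
  have hsm : StronglyMeasurable fun s => ∫ u in u₀..u₁, (ω u : ℂ) * F s (s + u) := by
    simp only [intervalIntegral.integral_of_le h0]
    exact StronglyMeasurable.integral_prod_right (f := fun s u => (ω u : ℂ) * F s (s + u))
      hG.stronglyMeasurable
  have hpt : ∀ s ∈ Icc s₀ (s₀ + 1), ∀ u ∈ Icc u₀ u₁, ‖F s (s + u)‖ ≤ M := fun s hs u hu =>
    hM s _ (add_le_add hs.1 hu.1)
  have hsq : ∀ s y, s₀ + u₀ ≤ y → ‖‖F s y‖ ^ 2‖ ≤ M ^ 2 := fun s y hy => by
    rw [norm_pow, norm_norm]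
    exact pow_le_pow_left₀ (norm_nonneg _) (hM s y hy) 2
  have hFs : ∀ s, Measurable fun y => F s y := fun s =>
    hF.comp (measurable_const.prodMk measurable_id)
  have hab : s₀ + u₀ ≤ s₀ + 1 + u₁ := by linarith
  have hiy : ∀ s, IntervalIntegrable (fun y => ‖F s y‖ ^ 2) volume (s₀ + u₀) (s₀ + 1 + u₁) :=
    fun s => shpars_ii hab ((hFs s).norm.pow_const 2).aestronglyMeasurable
      fun y hy => hsq s y hy.1
  have key : ∀ s ∈ Icc s₀ (s₀ + 1), ‖∫ u in u₀..u₁, (ω u : ℂ) * F s (s + u)‖ ^ 2 ≤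
      w ^ 2 * ∫ y in s₀ + u₀..s₀ + 1 + u₁, ‖F s y‖ ^ 2 := by
    intro s hs
    have hm : Measurable fun u => ‖F s (s + u)‖ :=
      ((hFs s).comp (measurable_const.add measurable_id)).norm
    have i1 : IntervalIntegrable (fun u => ‖F s (s + u)‖) volume u₀ u₁ :=
      shpars_ii h0 hm.aestronglyMeasurable fun u hu => by rw [norm_norm]; exact hpt s hs u hu
    have i2 : IntervalIntegrable (fun u => ‖F s (s + u)‖ ^ 2) volume u₀ u₁ :=
      shpars_ii h0 (hm.pow_const 2).aestronglyMeasurable fun u hu =>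
        hsq s _ (add_le_add hs.1 hu.1)
    have e1 : ‖∫ u in u₀..u₁, (ω u : ℂ) * F s (s + u)‖ ≤ w * ∫ u in u₀..u₁, ‖F s (s + u)‖ := by
      rw [← intervalIntegral.integral_const_mul]
      refine intervalIntegral.norm_integral_le_of_norm_le h0
        (Eventually.of_forall fun u hu => ?_) (i1.const_mul w)
      rw [norm_mul, Complex.norm_real]
      exact mul_le_mul_of_nonneg_right (hw u (Ioc_subset_Icc_self hu)) (norm_nonneg _)
    have e2 := shpars_cs h0 h1 i1 i2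
    have e3 : ∫ u in u₀..u₁, ‖F s (s + u)‖ ^ 2 ≤ ∫ y in s₀ + u₀..s₀ + 1 + u₁, ‖F s y‖ ^ 2 := by
      rw [intervalIntegral.integral_comp_add_left (fun y => ‖F s y‖ ^ 2)]
      exact intervalIntegral.integral_mono_interval (by linarith [hs.1]) (by linarith)
        (by linarith [hs.2]) (Eventually.of_forall fun _ => sq_nonneg _) (hiy s)
    calc _ ≤ (w * ∫ u in u₀..u₁, ‖F s (s + u)‖) ^ 2 := pow_le_pow_left₀ (norm_nonneg _) e1 2
      _ = w ^ 2 * (∫ u in u₀..u₁, ‖F s (s + u)‖) ^ 2 := mul_pow _ _ _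
      _ ≤ _ := mul_le_mul_of_nonneg_left (e2.trans e3) (sq_nonneg _)
  have hI : IntervalIntegrable (fun s => ‖∫ u in u₀..u₁, (ω u : ℂ) * F s (s + u)‖ ^ 2) volume s₀
      (s₀ + 1) := by
    refine shpars_ii (M := (w * M * |u₁ - u₀|) ^ 2) hlt
      (hsm.norm.measurable.pow_const 2).aestronglyMeasurable fun s hs => ?_
    rw [norm_pow, norm_norm]
    refine pow_le_pow_left₀ (norm_nonneg _)
      (intervalIntegral.norm_integral_le_of_norm_le_const fun u hu => ?_) 2
    rw [uIoc_of_le h0] at hu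
    rw [norm_mul, Complex.norm_real]
    exact mul_le_mul (hw u (Ioc_subset_Icc_self hu)) (hpt s hs u (Ioc_subset_Icc_self hu))
      (norm_nonneg _) hw0
  refine ⟨hI, ?_⟩
  have hprod : IntegrableOn (Function.uncurry fun s y => ‖F s y‖ ^ 2)
      (uIoc s₀ (s₀ + 1) ×ˢ uIoc (s₀ + u₀) (s₀ + 1 + u₁)) := by
    refine Measure.integrableOn_of_bounded (M := M ^ 2) ?_
      (hF.norm.pow_const 2).aestronglyMeasurable
      (ae_restrict_of_forall_mem (measurableSet_uIoc.prod measurableSet_uIoc) fun q hq => ?_)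
    · rw [Measure.volume_eq_prod, Measure.prod_prod, uIoc_of_le hlt, uIoc_of_le hab]
      exact ENNReal.mul_ne_top measure_Ioc_lt_top.ne measure_Ioc_lt_top.ne
    · have := hq.2
      rw [uIoc_of_le hab] at this
      exact hsq _ _ this.1.le
  have hsm2 : StronglyMeasurable fun s => ∫ y in s₀ + u₀..s₀ + 1 + u₁, ‖F s y‖ ^ 2 := by
    simp only [intervalIntegral.integral_of_le hab]
    exact StronglyMeasurable.integral_prod_right (f := fun s y => ‖F s y‖ ^ 2)
      (hF.norm.pow_const 2).stronglyMeasurable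
  have hsm3 : StronglyMeasurable fun y => ∫ s in s₀..s₀ + 1, ‖F s y‖ ^ 2 := by
    simp only [intervalIntegral.integral_of_le hlt]
    exact StronglyMeasurable.integral_prod_right (f := fun y s => ‖F s y‖ ^ 2)
      ((hF.comp measurable_swap).norm.pow_const 2).stronglyMeasurable
  have hI2 : IntervalIntegrable (fun s => ∫ y in s₀ + u₀..s₀ + 1 + u₁, ‖F s y‖ ^ 2) volume s₀
      (s₀ + 1) :=
    shpars_ii hlt hsm2.aestronglyMeasurable fun s _ =>
      intervalIntegral.norm_integral_le_of_norm_le_const (C := M ^ 2) fun y hy => by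
        rw [uIoc_of_le hab] at hy
        exact hsq s y hy.1.le
  have hI3 : IntervalIntegrable (fun y => ∫ s in s₀..s₀ + 1, ‖F s y‖ ^ 2) volume (s₀ + u₀)
      (s₀ + 1 + u₁) :=
    shpars_ii hab hsm3.aestronglyMeasurable fun y hy =>
      intervalIntegral.norm_integral_le_of_norm_le_const (C := M ^ 2) fun s _ => hsq s y hy.1
  calc _ ≤ ∫ s in s₀..s₀ + 1, w ^ 2 * ∫ y in s₀ + u₀..s₀ + 1 + u₁, ‖F s y‖ ^ 2 :=
        intervalIntegral.integral_mono_on hlt hI (hI2.const_mul _) key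
    _ = w ^ 2 * ∫ y in s₀ + u₀..s₀ + 1 + u₁, ∫ s in s₀..s₀ + 1, ‖F s y‖ ^ 2 := by
        rw [intervalIntegral.integral_const_mul, intervalIntegral_intervalIntegral_swap hprod]
    _ ≤ w ^ 2 * ∫ _y in s₀ + u₀..s₀ + 1 + u₁, E :=
        mul_le_mul_of_nonneg_left (intervalIntegral.integral_mono_on hab hI3
          intervalIntegrable_const fun y hy => hE y hy.1 hy.2) (sq_nonneg _)
    _ ≤ 2 * w ^ 2 * E := by
        rw [intervalIntegral.integral_const, smul_eq_mul]
        have : (s₀ + 1 + u₁ - (s₀ + u₀)) * E ≤ 2 * E :=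
          mul_le_mul_of_nonneg_right (by linarith) hE0
        nlinarith [sq_nonneg w]

end

end Pool.Agent.MP_9f080f_an
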