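import Pool.Agent.MP_9f080f_an.Mg.ShMert

namespace Pool.Agent.MP_9f080f_an
open Complex MeasureTheory Set Filter Topology Metric
open scoped Real

noncomputable section

open Pool.Agent.MP_a96b63_al (hh)

/-! The divisor function on rough numbers in progressions.
`τ(m) ≤ 2 #{e ∣ m | e² ≤ m}`.  For a rough `e` with `e² ≤ Y` (it is coprime to `d`), the cofactors
`m' ≤ Y/e` are rough and lie in one class `r' mod d`; write `m' = r' + d t`, `t < Y/(e d) + 1`, and use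
`Pool.Agent.MP_a96b63_al.selberg` exactly as in the proof of `sieve_one` (`PP`, `log_le_GG`, `card_root`,
`dvd_mod_iff'`): the count is at most `(Y/(e d) + 1) hh d / log Z + 2 Z^4 ≤ 4 Y/(e d) hh d / log Z`, because
`Y/(e d) ≥ √Y / d ≥ Z^5`.  Finally `∑_{e rough, e ≤ Y} 1/e ≤ ∏_{Z<p≤Y} (1 - 1/p)⁻¹ ≤ C log Y / log Z`
(`sum_factored_le` or `euler_le`; `prod_primes_Ioc`, `prod_conv`). -/

/-- all prime factors exceed `Z` -/
def Rough (Z m : ℕ) : Prop := ∀ p : ℕ, p.Prime → p ∣ m → Z < p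

open Classical in
lemma shrough_sieve {d w : ℕ} (hd : d ≠ 0) (hw : 2 ≤ w) (r M : ℕ) :
    (((Finset.range M).filter fun t => Rough w (r + d * t)).card : ℝ) ≤
      M * hh d / Real.log w + 2 * (w : ℝ) ^ 4 := by
  have h := MP_a96b63_al.selberg (MP_a96b63_al.PP w d) (fun q hq => (Finset.mem_filter.mp hq).2.1)
    (fun q t => q ∣ r + d * t) (fun q _ t => MP_a96b63_al.dvd_mod_iff' q r d t) 1 one_pos
    (fun q hq => MP_a96b63_al.card_root (Finset.mem_filter.mp hq).2.1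
      (Finset.mem_filter.mp hq).2.2 r)
    (fun q hq => (Finset.mem_filter.mp hq).2.1.one_lt) (z := w) (by omega) M
  have h1 : (((Finset.range M).filter fun t => Rough w (r + d * t)).card : ℝ) ≤
      ((Finset.range M).filter fun t => ∀ q ∈ MP_a96b63_al.PP w d, ¬ q ∣ r + d * t).card := by
    refine Nat.cast_le.mpr (Finset.card_le_card fun t ht => ?_)
    obtain ⟨h2, h3⟩ := Finset.mem_filter.mp ht
    refine Finset.mem_filter.mpr ⟨h2, fun q hq h5 => ?_⟩
    have h6 := h3 q (Finset.mem_filter.mp hq).2.1 h5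
    have := Finset.mem_range.mp (Finset.mem_filter.mp hq).1
    omega
  refine h1.trans (h.trans (add_le_add ?_ le_rfl))
  have h2 := MP_a96b63_al.log_le_GG w hd
  have h3 : 0 < Real.log w := Real.log_pos (by exact_mod_cast hw)
  have h4 := MP_a96b63_al.hh_pos d
  simp only [Nat.cast_one]
  change M / MP_a96b63_al.GG (MP_a96b63_al.PP w d) (fun q => 1 / ((q : ℝ) - 1)) w ≤ _
  have h5 : 0 < MP_a96b63_al.GG (MP_a96b63_al.PP w d) (fun q => 1 / ((q : ℝ) - 1)) w := by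
    by_contra h6
    nlinarith
  rw [div_le_div_iff₀ h5 h3, mul_assoc, mul_comm (hh d)]
  gcongr

open Classical in
lemma shrough_count {Z d r Y e : ℕ} (hZ : 2 ≤ Z) (hd : 1 ≤ d) (hr : r.Coprime d) :
    ((((Finset.Icc 1 Y).filter fun m => m ≡ r [MOD d] ∧ Rough Z m).filter
      fun m => e ∣ m).card : ℝ) ≤ (Y / e / d + 1 : ℕ) * hh d / Real.log Z + 2 * (Z : ℝ) ^ 4 := by
  set S := ((Finset.Icc 1 Y).filter fun m => m ≡ r [MOD d] ∧ Rough Z m).filter fun m => e ∣ m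
    with hS
  have hmem : ∀ m ∈ S, (1 ≤ m ∧ m ≤ Y) ∧ m ≡ r [MOD d] ∧ Rough Z m ∧ e ∣ m := by
    intro m hm
    simp only [hS, Finset.mem_filter, Finset.mem_Icc] at hm
    exact ⟨hm.1.1, hm.1.2.1, hm.1.2.2, hm.2⟩
  rcases S.eq_empty_or_nonempty with h | ⟨m₀, h₀⟩
  · have := MP_a96b63_al.hh_pos d
    have := Real.log_natCast_nonneg Z
    rw [h, Finset.card_empty, Nat.cast_zero]
    positivity
  refine le_trans (Nat.cast_le.mpr ?_) (shrough_sieve (by omega : d ≠ 0) hZ (m₀ / e % d) _)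
  obtain ⟨-, h1, -, k₀, rfl⟩ := hmem _ h₀
  have he : e.Coprime d :=
    Nat.Coprime.coprime_mul_right (show (e * k₀).Coprime d from by
      rw [Nat.Coprime, h1.gcd_eq]; exact hr)
  have key : ∀ m ∈ S, e * k₀ / e % d + d * (m / e / d) = m / e := by
    intro m hm
    obtain ⟨⟨h2, -⟩, h3, -, k, rfl⟩ := hmem _ hm
    have h4 : 0 < e := Nat.pos_of_mul_pos_right h2
    rw [Nat.mul_div_cancel_left _ h4, Nat.mul_div_cancel_left _ h4]
    have h5 : k₀ ≡ k [MOD d] := Nat.ModEq.cancel_left_of_coprime he.symm (h1.trans h3.symm)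
    rw [show k₀ % d = k % d from h5, Nat.mod_add_div]
  refine Finset.card_le_card_of_injOn (fun m => m / e / d) (fun m hm => ?_) fun m hm m' hm' h => ?_
  · obtain ⟨⟨-, h2⟩, -, h3, h4⟩ := hmem _ hm
    refine Finset.mem_coe.2 (Finset.mem_filter.2 ⟨Finset.mem_range.2 (Nat.lt_succ_of_le ?_), ?_⟩)
    · exact Nat.div_le_div_right (Nat.div_le_div_right h2)
    · rw [key m hm]
      exact fun p hp h5 => h3 p hp (h5.trans (Nat.div_dvd_of_dvd h4))
  · have h2 : m / e = m' / e := by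
      rw [← key m hm, ← key m' hm']
      exact congrArg (fun x => e * k₀ / e % d + d * x) h
    rw [← Nat.div_mul_cancel (hmem _ hm).2.2.2, ← Nat.div_mul_cancel (hmem _ hm').2.2.2, h2]

lemma shrough_bound {Z d Y e : ℕ} (hZ : 2 ≤ Z) (hd : 1 ≤ d) (hY : Z ^ 10 * d ^ 2 ≤ Y)
    (he : 1 ≤ e) (heY : e * e ≤ Y) :
    (Y / e / d + 1 : ℕ) * hh d / Real.log Z + 2 * (Z : ℝ) ^ 4 ≤
      4 * (Y / d * hh d) / Real.log Z * (e : ℝ)⁻¹ := by
  have h1 : Z ^ 5 * (e * d) ≤ Y := by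
    refine Nat.mul_self_le_mul_self_iff.1 ?_
    calc _ = Z ^ 10 * d ^ 2 * (e * e) := by ring
      _ ≤ Y * Y := Nat.mul_le_mul hY heY
  have hZ' : (2 : ℝ) ≤ Z := by exact_mod_cast hZ
  have hd' : (0 : ℝ) < d := by exact_mod_cast hd
  have he' : (0 : ℝ) < e := by exact_mod_cast he
  have hL : 0 < Real.log Z := Real.log_pos (by linarith)
  have hL2 : Real.log Z ≤ Z := (Real.log_le_sub_one_of_pos (by linarith)).trans (by linarith)
  have hh1 := MP_a96b63_al.one_le_hh d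
  set y : ℝ := Y / (e * d) with hy
  have h2 : (Z : ℝ) ^ 5 ≤ y := by
    rw [hy, le_div_iff₀ (by positivity)]
    exact_mod_cast h1
  have h3 : ((Y / e / d : ℕ) : ℝ) ≤ y := by
    rw [Nat.div_div_eq_div_mul, hy, ← Nat.cast_mul]
    exact Nat.cast_div_le
  have h4 : (1 : ℝ) ≤ Z ^ 5 := one_le_pow₀ (by linarith)
  have h5 : (Z : ℝ) ^ 4 * Real.log Z ≤ y * hh d := by
    calc _ ≤ (Z : ℝ) ^ 4 * Z := by gcongr
      _ = Z ^ 5 * 1 := by ring
      _ ≤ _ := by gcongr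
  have h6 : 4 * (Y / d * hh d) / Real.log Z * (e : ℝ)⁻¹ = 4 * (y * hh d) / Real.log Z := by
    rw [hy]; field_simp
  have h7 : ((Y / e / d + 1 : ℕ) : ℝ) * hh d ≤ 2 * y * hh d := by
    push_cast
    gcongr
    linarith
  rw [h6, div_add' _ _ _ hL.ne']
  gcongr
  linarith

lemma shrough_half (m : ℕ) :
    m.divisors.card ≤ 2 * (m.divisors.filter fun e => e * e ≤ m).card := by
  rw [← Finset.card_filter_add_card_filter_not (s := m.divisors) (fun e => e * e ≤ m), two_mul]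
  refine Nat.add_le_add_left (Finset.card_le_card_of_injOn (fun e => m / e) (fun e he => ?_)
    fun e he e' he' h => ?_) _
  · obtain ⟨h1, h2⟩ := Finset.mem_filter.1 (Finset.mem_coe.1 he)
    obtain ⟨⟨k, rfl⟩, h3⟩ := Nat.mem_divisors.1 h1
    have h4 : 0 < e := Nat.pos_of_ne_zero (left_ne_zero_of_mul h3)
    simp only [Nat.mul_div_cancel_left _ h4, Finset.coe_filter, Nat.mem_divisors, mem_setOf_eq]
    refine ⟨⟨dvd_mul_left _ _, h3⟩, Nat.mul_le_mul_right _ ?_⟩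
    exact (Nat.lt_of_mul_lt_mul_left (not_le.1 h2)).le
  · obtain ⟨h1, h3⟩ := Nat.mem_divisors.1 (Finset.mem_filter.1 (Finset.mem_coe.1 he)).1
    obtain ⟨h2, -⟩ := Nat.mem_divisors.1 (Finset.mem_filter.1 (Finset.mem_coe.1 he')).1
    rw [← Nat.div_div_self h1 h3, ← Nat.div_div_self h2 h3]
    exact congrArg (fun x => m / x) h

lemma shrough_inv : ∃ C : ℝ, 0 < C ∧ ∀ Z Y : ℕ, 2 ≤ Z → Z ≤ Y → ∀ E : Finset ℕ,
    (∀ e ∈ E, 1 ≤ e ∧ e ≤ Y ∧ Rough Z e) →
      ∑ e ∈ E, (e : ℝ)⁻¹ ≤ C * (Real.log Y / Real.log Z) := by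
  obtain ⟨C₁, hC₁, h₁⟩ := prod_primes_Ioc (γ := 1) zero_le_one
  obtain ⟨C₂, hC₂, h₂⟩ := prod_conv (c := 2) (s := 2) zero_le_two one_lt_two
  refine ⟨C₁ * C₂, by positivity, fun Z Y hZ hY E hE => ?_⟩
  set S := (Finset.Ioc Z Y).filter Nat.Prime with hS
  have hSm : ∀ p ∈ S, p.Prime ∧ Z < p ∧ p ≤ Y := fun p hp =>
    ⟨(Finset.mem_filter.1 hp).2, Finset.mem_Ioc.1 (Finset.mem_filter.1 hp).1⟩
  refine (MP_a96b63_al.sum_factored_le S (fun p hp => (hSm p hp).1) E fun e he => ?_).trans ?_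
  · obtain ⟨h1, h2, h3⟩ := hE e he
    rw [Nat.mem_factoredNumbers_iff_primeFactors_subset]
    refine ⟨by omega, fun p hp => Finset.mem_filter.2 ⟨Finset.mem_Ioc.2 ⟨h3 p
      (Nat.prime_of_mem_primeFactors hp) (Nat.dvd_of_mem_primeFactors hp),
      (Nat.le_of_mem_primeFactors hp).trans h2⟩, Nat.prime_of_mem_primeFactors hp⟩⟩
  have h3 := h₁ Z Y hZ hY S hSm
  rw [Real.rpow_one] at h3
  have h4 : 0 ≤ Real.log Y / Real.log Z :=
    div_nonneg (Real.log_natCast_nonneg _) (Real.log_natCast_nonneg _)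
  calc _ ≤ ∏ p ∈ S, (1 + 1 / (p : ℝ)) * (1 + 2 * (p : ℝ) ^ (-2 : ℝ)) := by
        refine Finset.prod_le_prod (fun p hp => ?_) fun p hp => ?_
        · have : (1 : ℝ) ≤ p := by exact_mod_cast (hSm p hp).1.one_lt.le
          exact inv_nonneg.2 (sub_nonneg.2 (inv_le_one_of_one_le₀ this))
        · have h5 : (2 : ℝ) ≤ p := by exact_mod_cast (hSm p hp).1.two_le
          have h6 : (p : ℝ)⁻¹ ≤ 2⁻¹ := inv_anti₀ two_pos h5
          have h7 : 0 < (p : ℝ)⁻¹ := by positivity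
          rw [Real.rpow_neg (by positivity), Real.rpow_two, ← inv_pow, one_div,
            inv_le_iff_one_le_mul₀ (by linarith)]
          set u := (p : ℝ)⁻¹
          have h8 : u ^ 2 ≤ 1 / 4 := by nlinarith
          nlinarith [mul_nonneg (sq_nonneg u) (show 0 ≤ 1 - 2 * u ^ 2 by linarith)]
    _ ≤ C₁ * (Real.log Y / Real.log Z) * C₂ := by
        rw [Finset.prod_mul_distrib]
        exact mul_le_mul h3 (h₂ S) (Finset.prod_nonneg fun p _ => by positivity) (by positivity)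
    _ = _ := by ring

open Classical in
theorem rough_sum : ∃ C : ℝ, 0 < C ∧ ∀ Z d r Y : ℕ, 2 ≤ Z → 1 ≤ d → r.Coprime d →
    Z ^ 10 * d ^ 2 ≤ Y →
    ∑ m ∈ (Finset.Icc 1 Y).filter (fun m => m ≡ r [MOD d] ∧ Rough Z m), (m.divisors.card : ℝ) ≤
      C * (Y / d * hh d) * Real.log Y / Real.log Z ^ 2 := by
  obtain ⟨C, hC, h⟩ := shrough_inv
  refine ⟨8 * C, by positivity, fun Z d r Y hZ hd hr hY => ?_⟩
  set S := (Finset.Icc 1 Y).filter fun m => m ≡ r [MOD d] ∧ Rough Z m with hS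
  set E := (Finset.Icc 1 Y).filter fun e => Rough Z e ∧ e * e ≤ Y with hE
  have hEm : ∀ e ∈ E, (1 ≤ e ∧ e ≤ Y) ∧ Rough Z e ∧ e * e ≤ Y := fun e he => by
    simpa only [hE, Finset.mem_filter, Finset.mem_Icc] using he
  have hZY : Z ≤ Y := by
    refine le_trans ?_ hY
    calc Z ≤ Z ^ 10 * 1 := by rw [mul_one]; exact Nat.le_self_pow (by norm_num) Z
      _ ≤ _ := Nat.mul_le_mul_left _ (Nat.one_le_pow _ _ hd)
  have hL : 0 < Real.log Z := Real.log_pos (by exact_mod_cast hZ)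
  have hh0 := MP_a96b63_al.hh_pos d
  calc _ ≤ ∑ m ∈ S, 2 * ((E.filter fun e => e ∣ m).card : ℝ) := by
        refine Finset.sum_le_sum fun m hm => ?_
        obtain ⟨h1, -, h2⟩ := Finset.mem_filter.1 hm
        obtain ⟨h3, h4⟩ := Finset.mem_Icc.1 h1
        have h5 : (m.divisors.filter fun e => e * e ≤ m) ⊆ E.filter fun e => e ∣ m := by
          intro e he
          obtain ⟨h6, h7⟩ := Finset.mem_filter.1 he
          have h8 := Nat.dvd_of_mem_divisors h6
          exact Finset.mem_filter.2 ⟨Finset.mem_filter.2 ⟨Finset.mem_Icc.2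
            ⟨Nat.pos_of_mem_divisors h6, (Nat.divisor_le h6).trans h4⟩,
            fun p hp h9 => h2 p hp (h9.trans h8), h7.trans h4⟩, h8⟩
        exact_mod_cast (shrough_half m).trans (Nat.mul_le_mul_left 2 (Finset.card_le_card h5))
    _ = 2 * ∑ e ∈ E, ((S.filter fun m => e ∣ m).card : ℝ) := by
        rw [← Finset.mul_sum]
        simp only [Finset.card_filter, Nat.cast_sum]
        rw [Finset.sum_comm]
    _ ≤ 2 * ∑ e ∈ E, 4 * (Y / d * hh d) / Real.log Z * (e : ℝ)⁻¹ := by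
        gcongr with e he
        exact (shrough_count hZ hd hr).trans
          (shrough_bound hZ hd hY (hEm e he).1.1 (hEm e he).2.2)
    _ ≤ 2 * (4 * (Y / d * hh d) / Real.log Z * (C * (Real.log Y / Real.log Z))) := by
        rw [← Finset.mul_sum]
        gcongr
        exact h Z Y hZ hZY E fun e he => ⟨(hEm e he).1.1, (hEm e he).1.2, (hEm e he).2.1⟩
    _ = _ := by field_simp; ring

theorem sum_divisors_card (Y : ℕ) :
    ∑ m ∈ Finset.Icc 1 Y, (m.divisors.card : ℝ) ≤ Y * (1 + Real.log Y) := by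
  have h := harmonic_le_one_add_log Y
  rw [harmonic_eq_sum_Icc] at h
  push_cast at h
  calc _ = ∑ m ∈ Finset.Icc 1 Y, (((Finset.Icc 1 Y).filter fun e => e ∣ m).card : ℝ) := by
        refine Finset.sum_congr rfl fun m hm => ?_
        obtain ⟨h1, h2⟩ := Finset.mem_Icc.1 hm
        congr 2
        ext e
        simp only [Nat.mem_divisors, Finset.mem_filter, Finset.mem_Icc]
        exact ⟨fun h3 => ⟨⟨Nat.pos_of_dvd_of_pos h3.1 h1, (Nat.le_of_dvd h1 h3.1).trans h2⟩, h3.1⟩,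
          fun h3 => ⟨h3.2, by omega⟩⟩
    _ = ∑ e ∈ Finset.Icc 1 Y, (((Finset.Icc 1 Y).filter fun m => e ∣ m).card : ℝ) := by
        simp only [Finset.card_filter, Nat.cast_sum]
        rw [Finset.sum_comm]
    _ ≤ ∑ e ∈ Finset.Icc 1 Y, (Y : ℝ) * (e : ℝ)⁻¹ := by
        refine Finset.sum_le_sum fun e _ => ?_
        rw [show Finset.Icc 1 Y = Finset.Ioc 0 Y from rfl, Nat.Ioc_filter_dvd_card_eq_div,
          ← div_eq_mul_inv]
        exact Nat.cast_div_le
    _ ≤ _ := by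
        rw [← Finset.mul_sum]
        gcongr

end

end Pool.Agent.MP_9f080f_an
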