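import Pool.Agent.MP_9f080f_an.Mg.TransferA

namespace Pool.Agent.MP_9f080f_an
open Complex MeasureTheory Set Filter Topology Metric
open scoped Real

noncomputable section

/-- a series of polynomially bounded continuous functions, tested against decaying functions -/
lemma transfer_series {u : ℕ → ℝ → ℂ} (hc : ∀ j, Continuous (u j)) {w : ℕ → ℝ}
    (hw : Summable w) {M : ℕ} (hb : ∀ j x, ‖u j x‖ ≤ w j * (1 + x ^ 2) ^ M) :
    Continuous (fun x => ∑' j, u j x) ∧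
    (∀ φ : ℝ → ℂ, TrDec φ → Integrable (fun x => (∑' j, u j x) * φ x)) ∧
    ∀ φ : ℝ → ℂ, TrDec φ →
      HasSum (fun j => ∫ x, u j x * φ x) (∫ x, (∑' j, u j x) * φ x) := by
  have hcont : Continuous (fun x => ∑' j, u j x) := by
    have hp : ∀ x : ℝ, (0 : ℝ) < (1 + x ^ 2) ^ M := fun x => by positivity
    have hne : ∀ x : ℝ, (((1 + x ^ 2) ^ M : ℝ) : ℂ) ≠ 0 := fun x => ofReal_ne_zero.2 (hp x).ne'
    have h1 : Continuous (fun x : ℝ => ∑' j, u j x / (((1 + x ^ 2) ^ M : ℝ) : ℂ)) := by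
      refine continuous_tsum (fun j => (hc j).div (by fun_prop) hne) hw fun j x => ?_
      rw [norm_div, norm_real, Real.norm_of_nonneg (hp x).le, div_le_iff₀ (hp x)]
      exact hb j x
    have h2 : Continuous (fun x : ℝ => (((1 + x ^ 2) ^ M : ℝ) : ℂ)) := by fun_prop
    refine (h1.mul h2).congr fun x => ?_
    simp only [tsum_div_const]
    exact div_mul_cancel₀ _ (hne x)
  have hbd : ∀ x, ‖∑' j, u j x‖ ≤ (∑' j, w j) * (1 + x ^ 2) ^ M := fun x =>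
    tsum_of_norm_bounded (hw.hasSum.mul_right _) fun j => hb j x
  have hint : ∀ φ : ℝ → ℂ, TrDec φ → ∀ (v : ℝ → ℂ) (W : ℝ), Continuous v →
      (∀ x, ‖v x‖ ≤ W * (1 + x ^ 2) ^ M) → Integrable (fun x => v x * φ x) ∧
        ∫ x, ‖v x * φ x‖ ≤ W * ∫ x : ℝ, (1 + x ^ 2) ^ M * ‖φ x‖ := by
    intro φ hφ v W hv hW
    have hφc := hφ.1
    have hle : ∀ x, ‖v x * φ x‖ ≤ W * ((1 + x ^ 2) ^ M * ‖φ x‖) := fun x => by
      rw [norm_mul, ← mul_assoc]; gcongr; exact hW x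
    have hi : Integrable (fun x => v x * φ x) :=
      ((hφ.integrable_weight M).const_mul W).mono' (by fun_prop) (ae_of_all _ hle)
    refine ⟨hi, ?_⟩
    rw [← integral_const_mul]
    exact integral_mono hi.norm ((hφ.integrable_weight M).const_mul W) hle
  refine ⟨hcont, fun φ hφ => (hint φ hφ _ _ hcont hbd).1, fun φ hφ => ?_⟩
  have h := hasSum_integral_of_summable_integral_norm (μ := volume)
    (F := fun j x => u j x * φ x) (fun j => (hint φ hφ _ _ (hc j) (hb j)).1)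
    (Summable.of_nonneg_of_le (fun j => integral_nonneg fun x => norm_nonneg _)
      (fun j => (hint φ hφ _ _ (hc j) (hb j)).2) (hw.mul_right _))
  simpa only [tsum_mul_right] using h

/-- a function orthogonal to all Gaussians on a horizontal line is orthogonal to even functions -/
lemma transfer_vanish {H : ℝ → ℂ} (hc : Continuous H)
    (hi : ∀ φ : ℝ → ℂ, TrDec φ → Integrable (fun x => H x * φ x))
    (h : ∀ t : ℝ, ∫ x : ℝ, H x * ep (x ^ 2 * (t + I)) = 0)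
    {φ : ℝ → ℂ} (he : ∀ r, φ (-r) = φ r) : ∫ x, H x * φ x = 0 := by
  have hP : ∀ x : ℝ, 0 < x → H x + H (-x) = 0 := by
    intro x hx
    have h1 := transfer_unique (P := fun x : ℝ => H x * ep (x ^ 2 * I)) (by fun_prop)
      (hi _ (transfer_dec_gauss (by simp))) (fun t => by
        rw [← h t]; congr 1; ext y; rw [mul_assoc, ← ep_add]; congr 2; ring) hx
    simp only [ofReal_neg, even_two, Even.neg_pow] at h1
    rw [← add_mul] at h1
    exact (mul_eq_zero.1 h1).resolve_right (ep_ne _)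
  have h2 : ∫ x, H x * φ x = ∫ x, -(H x * φ x) := by
    rw [← integral_neg_eq_self (fun x => H x * φ x)]
    refine integral_congr_ae ?_
    filter_upwards [compl_mem_ae_iff.2 (measure_singleton (0 : ℝ))] with x hx
    have hx0 : x ≠ 0 := hx
    have : H (-x) = -H x := by
      rcases hx0.lt_or_gt with h' | h'
      · have := hP (-x) (by linarith)
        rw [neg_neg] at this
        linear_combination this
      · linear_combination hP x h'
    rw [he, this, neg_mul]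
  rw [integral_neg] at h2
  linear_combination h2 / 2

/-- the kernel of `φ ↦ ψ + 𝓕 ψ`, `ψ = exp (-π δ² r²) 𝓕 φ` -/
def transferK (δ x r : ℝ) : ℂ :=
  cexp (-π * δ ^ 2 * r ^ 2) * cexp (-2 * π * I * x * r) +
    (δ : ℂ)⁻¹ * cexp (-π * (((r - x) / δ : ℝ) : ℂ) ^ 2)

lemma transfer_norm_exp (y : ℝ) : ‖cexp (-π * (y : ℂ) ^ 2)‖ = Real.exp (-π * y ^ 2) := by
  rw [show (-π * (y : ℂ) ^ 2) = ((-π * y ^ 2 : ℝ) : ℂ) by push_cast; ring, norm_exp_ofReal]

lemma transfer_norm_exp' (δ r : ℝ) :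
    ‖cexp (-π * (δ : ℂ) ^ 2 * (r : ℂ) ^ 2)‖ = Real.exp (-(π * δ ^ 2) * r ^ 2) := by
  rw [show (-π * (δ : ℂ) ^ 2 * (r : ℂ) ^ 2) = ((-(π * δ ^ 2) * r ^ 2 : ℝ) : ℂ) by push_cast; ring,
    norm_exp_ofReal]

lemma transfer_norm_char (x r : ℝ) : ‖cexp (-2 * π * I * x * r)‖ = 1 := by
  rw [show (-2 * π * I * x * r : ℂ) = ((-2 * π * x * r : ℝ) : ℂ) * I by push_cast; ring,
    norm_exp_ofReal_mul_I]

lemma transferK_bound {δ : ℝ} (hδ : 0 < δ) (M : ℕ) :
    ∃ B : ℝ, ∀ x r : ℝ, ‖transferK δ x r‖ * (1 + r ^ 2) ^ M ≤ B * (1 + x ^ 2) ^ M := by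
  obtain ⟨B₁, hB₁, h₁⟩ := transfer_exp_bound (c := π * δ ^ 2) (by positivity) M
  obtain ⟨B₂, hB₂, h₂⟩ := transfer_exp_bound (c := π / δ ^ 2) (by positivity) M
  refine ⟨B₁ + δ⁻¹ * 2 ^ M * B₂, fun x r => ?_⟩
  have hx : (1 : ℝ) ≤ (1 + x ^ 2) ^ M := one_le_pow₀ (by nlinarith [sq_nonneg x])
  have hn : ‖transferK δ x r‖ ≤ Real.exp (-(π * δ ^ 2) * r ^ 2) +
      δ⁻¹ * Real.exp (-(π / δ ^ 2) * (r - x) ^ 2) := by
    refine (norm_add_le _ _).trans (le_of_eq ?_)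
    rw [norm_mul, norm_mul, transfer_norm_exp, transfer_norm_exp', transfer_norm_char, mul_one,
      norm_inv, norm_real, Real.norm_of_nonneg hδ.le]
    congr 3
    field_simp
  have hp := transfer_peetre M x (r - x)
  rw [add_sub_cancel] at hp
  have e1 := h₁ r
  have e2 := h₂ (r - x)
  have hE := Real.exp_pos (-(π / δ ^ 2) * (r - x) ^ 2)
  calc ‖transferK δ x r‖ * (1 + r ^ 2) ^ M
      ≤ (Real.exp (-(π * δ ^ 2) * r ^ 2) +
          δ⁻¹ * Real.exp (-(π / δ ^ 2) * (r - x) ^ 2)) * (1 + r ^ 2) ^ M := by gcongr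
    _ = Real.exp (-(π * δ ^ 2) * r ^ 2) * (1 + r ^ 2) ^ M +
          δ⁻¹ * Real.exp (-(π / δ ^ 2) * (r - x) ^ 2) * (1 + r ^ 2) ^ M := by ring
    _ ≤ B₁ * (1 + x ^ 2) ^ M + δ⁻¹ * Real.exp (-(π / δ ^ 2) * (r - x) ^ 2) *
          (2 ^ M * ((1 + x ^ 2) ^ M * (1 + (r - x) ^ 2) ^ M)) := by
        refine add_le_add (e1.trans (le_mul_of_one_le_right hB₁ hx)) ?_
        gcongr
    _ = B₁ * (1 + x ^ 2) ^ M + δ⁻¹ * 2 ^ M * (1 + x ^ 2) ^ M *
          (Real.exp (-(π / δ ^ 2) * (r - x) ^ 2) * (1 + (r - x) ^ 2) ^ M) := by ring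
    _ ≤ B₁ * (1 + x ^ 2) ^ M + δ⁻¹ * 2 ^ M * (1 + x ^ 2) ^ M * B₂ := by gcongr
    _ = _ := by ring

lemma transferK_cont (δ r : ℝ) : Continuous (fun x => transferK δ x r) := by
  unfold transferK; fun_prop

lemma transferK_int {δ : ℝ} (hδ : 0 < δ) (r : ℝ) {φ : ℝ → ℂ} (hφ : Integrable φ) :
    ∫ x, transferK δ x r * φ x =
      cexp (-π * δ ^ 2 * r ^ 2) * (∫ x : ℝ, cexp (-2 * π * I * x * r) * φ x) +
        ∫ y : ℝ, cexp (-π * y ^ 2) * φ (r - δ * y) := by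
  have i1 : Integrable (fun x : ℝ => cexp (-2 * π * I * x * r) * φ x) :=
    hφ.bdd_mul (c := 1) (by fun_prop) (ae_of_all _ fun x => (transfer_norm_char x r).le)
  have i2 : Integrable (fun x : ℝ => cexp (-π * (((r - x) / δ : ℝ) : ℂ) ^ 2) * φ x) := by
    refine hφ.bdd_mul (c := 1) (by fun_prop) (ae_of_all _ fun x => ?_)
    rw [transfer_norm_exp, Real.exp_le_one_iff]
    nlinarith [Real.pi_pos, sq_nonneg ((r - x) / δ)]
  have hδ' : (δ : ℂ) ≠ 0 := ofReal_ne_zero.2 hδ.ne'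
  have e : ∫ x : ℝ, cexp (-π * (((r - x) / δ : ℝ) : ℂ) ^ 2) * φ x =
      δ * ∫ y : ℝ, cexp (-π * y ^ 2) * φ (r - δ * y) := by
    have h1 := Measure.integral_comp_div
      (fun y : ℝ => cexp (-π * y ^ 2) * φ (r - δ * y)) δ
    have h2 := integral_sub_left_eq_self
      (fun z : ℝ => cexp (-π * ((z / δ : ℝ) : ℂ) ^ 2) * φ (r - δ * (z / δ))) volume r
    rw [abs_of_pos hδ, real_smul] at h1
    rw [← h1, ← h2]
    congr 1; ext x
    congr 2
    field_simp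
    ring
  simp only [transferK, add_mul, mul_assoc (cexp _) (cexp _), mul_assoc (δ : ℂ)⁻¹]
  rw [integral_add (i1.const_mul _) (i2.const_mul _), integral_const_mul, integral_const_mul, e,
    inv_mul_cancel_left₀ hδ']

lemma transferK_gauss {δ : ℝ} (hδ : 0 < δ) (r : ℝ) {τ : ℂ} (hτ : 0 < τ.im) :
    ∫ x, transferK δ x r * ep (x ^ 2 * τ) = (rt τ)⁻¹ *
      (ep (r ^ 2 * (-1 / τ + I * δ ^ 2)) + (rt (-1 / τ + I * δ ^ 2))⁻¹ *
        ep (r ^ 2 * (-1 / (-1 / τ + I * δ ^ 2)))) := by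
  have hτ0 := ne_of_im hτ
  have hπ : (π : ℂ) ≠ 0 := ofReal_ne_zero.2 Real.pi_ne_zero
  have hσ : 0 < (-1 / τ + I * δ ^ 2).im := by
    have := im_neg_inv_pos hτ
    rw [add_im, ← ofReal_pow, mul_comm I, im_ofReal_mul, I_im]
    positivity
  set σ := -1 / τ + I * δ ^ 2 with hσd
  clear_value σ
  have hσ0 := ne_of_im hσ
  rw [transferK_int hδ r (transfer_dec_gauss hτ).integrable]
  have g1 := transfer_gauss (w := -I * τ) (u := rt τ) (by simpa using hτ)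
    (rt_re_pos hτ.le hτ0) (rt_sq τ) (-2 * π * I * r) 0
  have hw : -τ * σ = 1 - I * τ * δ ^ 2 := by rw [hσd]; field_simp; ring
  have hu : 0 < (rt τ * rt σ).re := by
    have a1 := rt_abs_im_lt hτ
    have a2 := rt_abs_im_lt hσ
    rw [mul_re]
    have : (rt τ).im * (rt σ).im ≤ |(rt τ).im| * |(rt σ).im| := by
      rw [← abs_mul]; exact le_abs_self _
    have h3 : |(rt τ).im| * |(rt σ).im| < (rt τ).re * (rt σ).re :=
      mul_lt_mul'' a1 a2 (abs_nonneg _) (abs_nonneg _)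
    linarith
  have hwre : 0 < (-τ * σ).re := by
    rw [hw, ← ofReal_pow, sub_re, re_mul_ofReal]
    simp only [one_re, mul_re, I_re, zero_mul, I_im, one_mul, zero_sub]
    nlinarith [mul_pos hτ (pow_pos hδ 2)]
  have g2 := transfer_gauss (w := -τ * σ) (u := rt τ * rt σ) hwre hu
    (by rw [mul_pow, rt_sq, rt_sq]; linear_combination (τ * σ) * I_mul_I)
    (-2 * π * I * τ * r * δ) (π * I * τ * r ^ 2)
  have e1 : ∫ x : ℝ, cexp (-2 * π * I * x * r) * ep (x ^ 2 * τ) =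
      (rt τ)⁻¹ * ep (r ^ 2 * (-1 / τ)) := by
    rw [show ep (r ^ 2 * (-1 / τ)) = cexp (0 + (-2 * π * I * r) ^ 2 / (4 * π * (-I * τ))) by
      rw [ep]; congr 1; field_simp; ring, ← g1]
    congr 1; ext x; rw [ep, ← Complex.exp_add]; congr 1; ring
  have e2 : ∫ y : ℝ, cexp (-π * y ^ 2) * ep (((r - δ * y : ℝ) : ℂ) ^ 2 * τ) =
      (rt τ * rt σ)⁻¹ * ep (r ^ 2 * (-1 / σ)) := by
    rw [show ep (r ^ 2 * (-1 / σ)) = cexp (π * I * τ * r ^ 2 +
        (-2 * π * I * τ * r * δ) ^ 2 / (4 * π * (-τ * σ))) by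
      rw [ep]; congr 1; field_simp
      linear_combination (4 * (r : ℂ) ^ 2) * hw, ← g2]
    congr 1; ext x; rw [ep, ← Complex.exp_add, hw]; congr 1; push_cast; ring
  rw [e1, e2]
  have e3 : ep (r ^ 2 * σ) = cexp (-π * δ ^ 2 * r ^ 2) * ep (r ^ 2 * (-1 / τ)) := by
    rw [ep, ep, ← Complex.exp_add, hσd]; congr 1
    linear_combination (π * δ ^ 2 * r ^ 2 : ℂ) * I_mul_I
  rw [e3, mul_inv]; ring

end

end Pool.Agent.MP_9f080f_an
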